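import Pool.Agent.Lib.MP_7b7e48_nt.OW.NumW
import Pool.Agent.Lib.MT.Moment

/-!
# Module M_1 (40 minutes): short divisor functions

`D1 B k` is the number of the divisors `e ≤ B` of `k`.
`mt4_div`, `mt4`: as `moment_S` and `divisor_moment` in `Pool/Agent/Lib/MT/Moment.lean` (private there, copy the proof: `τ(ab) ≤ τ(a) τ(b)`,
`∑_{n ≤ x} τ(n)^(j+1)/n ≤ (∑_{n ≤ x} τ(n)^j/n)²`).
`d1_four`: `(D1 B k)^4` is the number of the quadruples `(e1,..,e4)` of divisors `≤ B` of `k`; such a quadruple has the least common multiple `E ≤ B^4`,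
`E ∣ k`, and at most `τ(E)^4` quadruples of divisors of `E` exist (`k ≥ 1`).
`inc_le`: `inc N n ≤ D1 n · D1 (N - n)` (the second factor of `inc` counts fewer divisors), `(x y)² ≤ x^4 + y^4`.
`d1_mul`: divisors of `q μ`, `q` prime: `τ(q μ) ≤ τ(q) τ(μ) = 2 τ(μ)`, `D1 B (q μ) ≤ τ(q μ)`.
-/

set_option autoImplicit false

open Finset

namespace Pool.Agent.Lib.OW

/-- the number of divisors `≤ B` of `k` -/
def D1 (B k : ℕ) : ℕ := (k.divisors.filter fun e => e ≤ B).card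

private lemma m1_card_mul (a b : ℕ) : (a * b).divisors.card ≤ a.divisors.card * b.divisors.card := by
  open Pointwise in
  rw [Nat.divisors_mul]
  exact Finset.card_mul_le

private lemma m1_conv (x : ℕ) (f : ℕ → ℝ) (hf : ∀ n, 0 ≤ f n) :
    ∑ n ∈ Icc 1 x, ((n.divisors.card : ℕ) : ℝ) * f n ≤ ∑ a ∈ Icc 1 x, ∑ b ∈ Icc 1 x, f (a * b) := by
  rw [← Finset.sum_product']
  have h1 : ∑ t ∈ (Icc 1 x ×ˢ Icc 1 x).filter (fun t => t.1 * t.2 ≤ x), f (t.1 * t.2) ≤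
      ∑ t ∈ Icc 1 x ×ˢ Icc 1 x, f (t.1 * t.2) :=
    Finset.sum_le_sum_of_subset_of_nonneg (filter_subset _ _) (fun t _ _ => hf _)
  refine le_trans (le_of_eq ?_) h1
  rw [← Finset.sum_fiberwise_of_maps_to (t := Icc 1 x) (g := fun t : ℕ × ℕ => t.1 * t.2)]
  · refine Finset.sum_congr rfl fun n hn => ?_
    rw [mem_Icc] at hn
    have h2 : ∀ t ∈ ((Icc 1 x ×ˢ Icc 1 x).filter (fun t => t.1 * t.2 ≤ x)).filter
        (fun t => t.1 * t.2 = n), f (t.1 * t.2) = f n := by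
      intro t ht
      rw [(mem_filter.1 ht).2]
    rw [Finset.sum_congr rfl h2, Finset.sum_const, nsmul_eq_mul]
    congr 2
    have h9 : n.divisors.card = n.divisorsAntidiagonal.card := by
      rw [← Nat.map_div_right_divisors, Finset.card_map]
    rw [h9]
    congr 1
    ext t
    rw [Nat.mem_divisorsAntidiagonal, mem_filter, mem_filter, mem_product, mem_Icc, mem_Icc]
    constructor
    · rintro ⟨h3, h4⟩
      have h5 : 0 < t.1 := by
        rcases Nat.eq_zero_or_pos t.1 with h | h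
        · rw [h, zero_mul] at h3; omega
        · exact h
      have h6 : 0 < t.2 := by
        rcases Nat.eq_zero_or_pos t.2 with h | h
        · rw [h, mul_zero] at h3; omega
        · exact h
      have h7 : t.1 ≤ t.1 * t.2 := Nat.le_mul_of_pos_right _ h6
      have h8 : t.2 ≤ t.1 * t.2 := Nat.le_mul_of_pos_left _ h5
      exact ⟨⟨⟨⟨h5, by omega⟩, ⟨h6, by omega⟩⟩, by omega⟩, h3⟩
    · rintro ⟨_, h4⟩
      exact ⟨h4, by omega⟩
  · intro t ht
    rw [mem_filter, mem_product, mem_Icc, mem_Icc] at ht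
    rw [mem_Icc]
    exact ⟨Nat.mul_pos ht.1.1.1 ht.1.2.1, ht.2⟩

private lemma m1_S (j x : ℕ) :
    ∑ n ∈ Icc 1 x, ((n.divisors.card : ℕ) : ℝ) ^ j / (n : ℝ) ≤ (1 + Real.log x) ^ (2 ^ j) := by
  induction j with
  | zero =>
    simp only [pow_zero, pow_one]
    have h1 := harmonic_le_one_add_log x
    rw [harmonic_eq_sum_Icc] at h1
    push_cast at h1
    simpa [one_div] using h1
  | succ j ih =>
    have h1 : ∑ n ∈ Icc 1 x, ((n.divisors.card : ℕ) : ℝ) ^ (j + 1) / (n : ℝ) =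
        ∑ n ∈ Icc 1 x, ((n.divisors.card : ℕ) : ℝ) * (((n.divisors.card : ℕ) : ℝ) ^ j / (n : ℝ)) := by
      refine Finset.sum_congr rfl fun n _ => ?_
      rw [pow_succ]; ring
    rw [h1]
    refine (m1_conv x (fun n => ((n.divisors.card : ℕ) : ℝ) ^ j / (n : ℝ)) (fun n => by positivity)).trans ?_
    have h2 : ∑ a ∈ Icc 1 x, ∑ b ∈ Icc 1 x,
        (((a * b).divisors.card : ℕ) : ℝ) ^ j / ((a * b : ℕ) : ℝ) ≤
        ∑ a ∈ Icc 1 x, ∑ b ∈ Icc 1 x, (((a.divisors.card : ℕ) : ℝ) ^ j / (a : ℝ)) *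
          (((b.divisors.card : ℕ) : ℝ) ^ j / (b : ℝ)) := by
      refine Finset.sum_le_sum fun a _ => Finset.sum_le_sum fun b _ => ?_
      rw [div_mul_div_comm, ← mul_pow]
      push_cast
      have h3 : (((a * b).divisors.card : ℕ) : ℝ) ≤ ((a.divisors.card : ℕ) : ℝ) * ((b.divisors.card : ℕ) : ℝ) := by
        exact_mod_cast m1_card_mul a b
      gcongr
    refine h2.trans ?_
    rw [← Finset.sum_mul_sum, pow_succ, pow_mul, sq]
    have h4 : 0 ≤ ∑ n ∈ Icc 1 x, ((n.divisors.card : ℕ) : ℝ) ^ j / (n : ℝ) :=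
      Finset.sum_nonneg fun n _ => by positivity
    exact mul_le_mul ih ih h4 (h4.trans ih)

theorem mt4_div (x : ℕ) : ∑ n ∈ Finset.Icc 1 x, (n.divisors.card : ℝ) ^ 4 / n ≤ (1 + Real.log x) ^ 16 := by
  have h := m1_S 4 x
  norm_num at h ⊢
  exact h

theorem mt4 (x : ℕ) : ∑ n ∈ Finset.Icc 1 x, (n.divisors.card : ℝ) ^ 4 ≤ x * (1 + Real.log x) ^ 16 := by
  refine le_trans ?_ (mul_le_mul_of_nonneg_left (mt4_div x) (by positivity))
  rw [Finset.mul_sum]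
  refine Finset.sum_le_sum fun n hn => ?_
  rw [mem_Icc] at hn
  have h1 : (0 : ℝ) < n := by exact_mod_cast hn.1
  have h2 : (n : ℝ) ≤ x := by exact_mod_cast hn.2
  rw [mul_div_assoc', le_div_iff₀ h1, mul_comm]
  exact mul_le_mul_of_nonneg_right h2 (by positivity)

private lemma m1_lcm_le {a b A B : ℕ} (ha : a ≤ A) (hb : b ≤ B) : Nat.lcm a b ≤ A * B := by
  rcases Nat.eq_zero_or_pos a with h | h
  · simp [h]
  rcases Nat.eq_zero_or_pos b with h' | h'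
  · simp [h']
  exact (Nat.le_of_dvd (Nat.mul_pos h h') (Nat.lcm_dvd_mul a b)).trans (Nat.mul_le_mul ha hb)

theorem d1_four (B k : ℕ) (hk : 1 ≤ k) :
    (D1 B k : ℝ) ^ 4 ≤ ∑ E ∈ (Finset.Icc 1 (B ^ 4)).filter (fun E => E ∣ k), (E.divisors.card : ℝ) ^ 4 := by
  classical
  set S := k.divisors.filter fun e => e ≤ B with hS
  have hmem : ∀ e ∈ S, e ∣ k ∧ e ≤ B ∧ 0 < e := by
    intro e he
    rw [hS, mem_filter, Nat.mem_divisors] at he
    exact ⟨he.1.1, he.2, Nat.pos_of_dvd_of_pos he.1.1 hk⟩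
  have hnat : S.card ^ 4 ≤ ∑ E ∈ (Finset.Icc 1 (B ^ 4)).filter (fun E => E ∣ k), E.divisors.card ^ 4 := by
    have h1 : S.card ^ 4 = ((S ×ˢ S) ×ˢ (S ×ˢ S)).card := by
      rw [card_product, card_product]; ring
    rw [h1]
    let g : (ℕ × ℕ) × (ℕ × ℕ) → ℕ := fun t => Nat.lcm (Nat.lcm t.1.1 t.1.2) (Nat.lcm t.2.1 t.2.2)
    have hmaps : ∀ t ∈ (S ×ˢ S) ×ˢ (S ×ˢ S), g t ∈ (Finset.Icc 1 (B ^ 4)).filter (fun E => E ∣ k) := by
      intro t ht
      rw [mem_product, mem_product, mem_product] at ht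
      obtain ⟨⟨h1, h2⟩, h3, h4⟩ := ht
      obtain ⟨a1, b1, c1⟩ := hmem _ h1
      obtain ⟨a2, b2, c2⟩ := hmem _ h2
      obtain ⟨a3, b3, c3⟩ := hmem _ h3
      obtain ⟨a4, b4, c4⟩ := hmem _ h4
      rw [mem_filter, mem_Icc]
      refine ⟨⟨?_, ?_⟩, ?_⟩
      · exact Nat.lcm_pos (Nat.lcm_pos c1 c2) (Nat.lcm_pos c3 c4)
      · have := m1_lcm_le (m1_lcm_le b1 b2) (m1_lcm_le b3 b4)
        calc g t ≤ B * B * (B * B) := this
          _ = B ^ 4 := by ring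
      · exact Nat.lcm_dvd (Nat.lcm_dvd a1 a2) (Nat.lcm_dvd a3 a4)
    rw [Finset.card_eq_sum_card_fiberwise hmaps]
    refine Finset.sum_le_sum fun E hE => ?_
    rw [mem_filter, mem_Icc] at hE
    have h2 : E.divisors.card ^ 4 = ((E.divisors ×ˢ E.divisors) ×ˢ (E.divisors ×ˢ E.divisors)).card := by
      rw [card_product, card_product]; ring
    rw [h2]
    refine Finset.card_le_card ?_
    intro t ht
    rw [mem_filter] at ht
    have hgE : Nat.lcm (Nat.lcm t.1.1 t.1.2) (Nat.lcm t.2.1 t.2.2) = E := ht.2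
    have hE0 : E ≠ 0 := by omega
    rw [mem_product, mem_product, mem_product, Nat.mem_divisors, Nat.mem_divisors, Nat.mem_divisors,
      Nat.mem_divisors]
    refine ⟨⟨⟨?_, hE0⟩, ⟨?_, hE0⟩⟩, ⟨?_, hE0⟩, ⟨?_, hE0⟩⟩
    · rw [← hgE]; exact (Nat.dvd_lcm_left _ _).trans (Nat.dvd_lcm_left _ _)
    · rw [← hgE]; exact (Nat.dvd_lcm_right _ _).trans (Nat.dvd_lcm_left _ _)
    · rw [← hgE]; exact (Nat.dvd_lcm_left _ _).trans (Nat.dvd_lcm_right _ _)
    · rw [← hgE]; exact (Nat.dvd_lcm_right _ _).trans (Nat.dvd_lcm_right _ _)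
  have : D1 B k = S.card := rfl
  rw [this]
  exact_mod_cast hnat

theorem inc_le (N n : ℕ) : (inc N n : ℝ) ^ 2 ≤ (D1 (LL N) n : ℝ) ^ 4 + (D1 (LL N) (N - n) : ℝ) ^ 4 := by
  classical
  have h1 : inc N n ≤ D1 (LL N) n * D1 (LL N) (N - n) := by
    unfold inc D1
    refine Nat.mul_le_mul_left _ (Finset.card_le_card ?_)
    intro d hd
    rw [mem_filter] at hd ⊢
    exact ⟨hd.1, hd.2.1⟩
  have h2 : (inc N n : ℝ) ≤ (D1 (LL N) n : ℝ) * (D1 (LL N) (N - n) : ℝ) := by exact_mod_cast h1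
  set x := (D1 (LL N) n : ℝ)
  set y := (D1 (LL N) (N - n) : ℝ)
  have h3 : (inc N n : ℝ) ^ 2 ≤ (x * y) ^ 2 := pow_le_pow_left₀ (by positivity) h2 2
  nlinarith [sq_nonneg (x ^ 2 - y ^ 2), sq_nonneg (x ^ 2), sq_nonneg (y ^ 2)]

theorem d1_mul (B q μ : ℕ) (hq : q.Prime) : (D1 B (q * μ) : ℝ) ^ 4 ≤ 16 * (μ.divisors.card : ℝ) ^ 4 := by
  have h1 : D1 B (q * μ) ≤ 2 * μ.divisors.card := by
    have h2 : D1 B (q * μ) ≤ (q * μ).divisors.card := Finset.card_filter_le _ _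
    have h3 := m1_card_mul q μ
    have h4 : q.divisors.card = 2 := by
      rw [Nat.Prime.divisors hq, Finset.card_pair hq.one_lt.ne]
    rw [h4] at h3
    omega
  have h2 : (D1 B (q * μ) : ℝ) ≤ 2 * (μ.divisors.card : ℝ) := by exact_mod_cast h1
  calc (D1 B (q * μ) : ℝ) ^ 4 ≤ (2 * (μ.divisors.card : ℝ)) ^ 4 := pow_le_pow_left₀ (by positivity) h2 4
    _ = 16 * (μ.divisors.card : ℝ) ^ 4 := by ring

end Pool.Agent.Lib.OW
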