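import Mathlib
import Pool.Agent.Lib.MP_7b7e48_nt.GT.FL1

/-!
# Counting integers with prescribed residues modulo several primes
-/

set_option autoImplicit false

open Finset

namespace Pool.Agent.Lib.OW

theorem ioc_count (u v M c : ℕ) (huv : u ≤ v) (hM : 1 ≤ M) :
    |(((Finset.Ioc u v).filter fun n => n ≡ c [MOD M]).card : ℝ) - ((v : ℝ) - u) / M| ≤ 1 := by
  have h3 := Pool.Agent.Lib.GT.abs_card_class M (by omega) (c % M) (Nat.mod_lt _ (by omega)) (u + 1) (v - u)
  have h4 : Finset.Ioc u v = Ico (u + 1) (u + 1 + (v - u)) := by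
    ext n
    rw [mem_Ioc, mem_Ico]
    omega
  rw [h4]
  rw [Nat.cast_sub huv] at h3
  exact h3

/-- the number of `n ∈ (u, v]` in a class modulo `W` with prescribed sets of residues modulo the primes of `S` -/
theorem crt_count (S : Finset ℕ) (hS : ∀ p ∈ S, p.Prime) (Z : ℕ → Finset ℕ) (hZ : ∀ p ∈ S, ∀ z ∈ Z p, z < p)
    (u v : ℕ) (huv : u ≤ v) : ∀ W : ℕ, 1 ≤ W → (∀ p ∈ S, W.Coprime p) → ∀ c : ℕ,
    |(((Finset.Ioc u v).filter fun n => n ≡ c [MOD W] ∧ ∀ p ∈ S, n % p ∈ Z p).card : ℝ) -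
      ((v : ℝ) - u) / W * ∏ p ∈ S, (((Z p).card : ℝ) / p)| ≤ ∏ p ∈ S, ((Z p).card : ℝ) := by
  classical
  induction S using Finset.induction_on with
  | empty =>
    intro W hW _ c
    simp only [notMem_empty, false_implies, implies_true, and_true, prod_empty, mul_one]
    exact ioc_count u v W c huv hW
  | insert q S hq ih =>
    intro W hW hWc c
    have hqp := hS q (mem_insert_self q S)
    have hcop : W.Coprime q := hWc q (mem_insert_self q S)
    have ih' := ih (fun p hp => hS p (mem_insert_of_mem hp)) (fun p hp => hZ p (mem_insert_of_mem hp))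
    -- the classes modulo `W q`
    have hcl : ∀ z : ℕ, ∃ c' : ℕ, ∀ n : ℕ, (n ≡ c [MOD W] ∧ n % q = z % q) ↔ n ≡ c' [MOD W * q] := by
      intro z
      obtain ⟨c', h1, h2⟩ := Nat.chineseRemainder hcop c z
      refine ⟨c', fun n => ?_⟩
      rw [← Nat.modEq_and_modEq_iff_modEq_mul hcop]
      constructor
      · rintro ⟨h3, h4⟩
        exact ⟨h3.trans h1.symm, Nat.ModEq.trans h4 h2.symm⟩
      · rintro ⟨h3, h4⟩
        exact ⟨h3.trans h1, (Nat.ModEq.trans h4 h2)⟩
    choose c' hc' using hcl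
    have hsplit : (((Finset.Ioc u v).filter fun n => n ≡ c [MOD W] ∧ ∀ p ∈ insert q S, n % p ∈ Z p).card : ℝ) =
        ∑ z ∈ Z q, (((Finset.Ioc u v).filter fun n => n ≡ c' z [MOD W * q] ∧ ∀ p ∈ S, n % p ∈ Z p).card : ℝ) := by
      rw [← Nat.cast_sum, ← card_biUnion]
      · congr 2
        ext n
        simp only [mem_filter, mem_biUnion, mem_insert, forall_eq_or_imp]
        constructor
        · rintro ⟨h1, h2, h3, h4⟩
          refine ⟨n % q, h3, h1, ?_, h4⟩
          rw [← hc']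
          exact ⟨h2, (Nat.mod_mod _ _).symm⟩
        · rintro ⟨z, h1, h2, h3, h4⟩
          rw [← hc'] at h3
          have hz := hZ q (mem_insert_self q S) z h1
          rw [Nat.mod_eq_of_lt hz] at h3
          refine ⟨h2, h3.1, ?_, h4⟩
          rw [h3.2]
          exact h1
      · intro z hz z' hz' hne
        rw [Function.onFun, disjoint_left]
        intro n h1 h2
        rw [mem_filter, ← hc'] at h1 h2
        apply hne
        have e1 := hZ q (mem_insert_self q S) z hz
        have e2 := hZ q (mem_insert_self q S) z' hz'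
        have e3 := h1.2.1.2
        have e4 := h2.2.1.2
        rw [Nat.mod_eq_of_lt e1] at e3
        rw [Nat.mod_eq_of_lt e2] at e4
        rw [← e3, ← e4]
    rw [hsplit, prod_insert hq, prod_insert hq]
    have hq0 : (0 : ℝ) < q := by exact_mod_cast hqp.pos
    have hW0 : (0 : ℝ) < W := by exact_mod_cast hW
    have hb : ∀ z ∈ Z q, |(((Finset.Ioc u v).filter fun n => n ≡ c' z [MOD W * q] ∧ ∀ p ∈ S, n % p ∈ Z p).card : ℝ) -
        ((v : ℝ) - u) / W * (1 / q) * ∏ p ∈ S, (((Z p).card : ℝ) / p)| ≤ ∏ p ∈ S, ((Z p).card : ℝ) := by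
      intro z _
      have h1 := ih' (W * q) (Nat.mul_pos hW hqp.pos) (fun p hp => by
        refine Nat.Coprime.mul_left (hWc p (mem_insert_of_mem hp)) ?_
        rw [Nat.coprime_primes hqp (hS p (mem_insert_of_mem hp))]
        rintro rfl
        exact hq hp) (c' z)
      have e1 : ((v : ℝ) - u) / ((W * q : ℕ) : ℝ) = ((v : ℝ) - u) / W * (1 / q) := by
        push_cast
        field_simp
      rw [e1] at h1
      exact h1
    have hsum : ∑ z ∈ Z q, (((Finset.Ioc u v).filter fun n => n ≡ c' z [MOD W * q] ∧ ∀ p ∈ S, n % p ∈ Z p).card : ℝ) -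
        ((v : ℝ) - u) / W * (((Z q).card : ℝ) / q * ∏ p ∈ S, (((Z p).card : ℝ) / p)) =
        ∑ z ∈ Z q, ((((Finset.Ioc u v).filter fun n => n ≡ c' z [MOD W * q] ∧ ∀ p ∈ S, n % p ∈ Z p).card : ℝ) -
        ((v : ℝ) - u) / W * (1 / q) * ∏ p ∈ S, (((Z p).card : ℝ) / p)) := by
      rw [sum_sub_distrib, sum_const, nsmul_eq_mul]
      ring
    rw [hsum]
    refine (abs_sum_le_sum_abs _ _).trans ((sum_le_sum hb).trans ?_)
    rw [sum_const, nsmul_eq_mul]

end Pool.Agent.Lib.OW
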