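import Pool.Agent.Lib.MP_7b7e48_nt.OW.OD
import Pool.Agent.Lib.MP_7b7e48_nt.GT.ClassUniform

/-!
# Module T1 (40 minutes): the Liouville function in residue classes to a fixed modulus

PROOF. `1_{n ≡ a (W)} = (1/W) ∑_{j < W} e(j (n - a)/W)`; `LG.LA1` (uniform exponential sums with `lam`) with `α = j/W` for each `j`: every sum is at most `C Y/(log Y)^A` in absolute value.
(`e` is `Pool.Agent.Lib.GT.e`, `e t = exp(2 π i t)`; the detecting identity: geometric sum, or `ZMod.stdAddChar`.)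
-/

open Finset
open Pool.Agent.Lib.MP_45349e_nt.LS (lam)

namespace Pool.Agent.Lib.OW

open Classical in
theorem lam_class (W : ℕ) (hW : 1 ≤ W) (A : ℕ) : ∃ C : ℝ, 0 < C ∧ ∀ a Y : ℕ, 2 ≤ Y →
    |∑ n ∈ (Finset.Icc 1 Y).filter (fun n => n ≡ a [MOD W]), lam n| ≤ C * Y / (Real.log Y) ^ A := by
  obtain ⟨C, hC, h⟩ := Pool.Agent.Lib.MP_7b7e48_nt.LG.LA1 A
  refine ⟨C, hC, fun a Y hY => ?_⟩
  have hWR : (0 : ℝ) < W := by exact_mod_cast hW
  have hWC : (W : ℂ) ≠ 0 := by exact_mod_cast (Nat.pos_iff_ne_zero.mp hW)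
  have key : (W : ℂ) * ((∑ n ∈ (Finset.Icc 1 Y).filter (fun n => n ≡ a [MOD W]), lam n : ℝ) : ℂ) =
      ∑ k ∈ Finset.range W, Pool.Agent.Lib.GT.e (-((k : ℝ) * a / W)) *
        ∑ n ∈ Finset.Icc 1 Y, ((lam n : ℝ) : ℂ) *
          Pool.Agent.Lib.GT.e ((n : ℝ) * ((k : ℝ) / W)) := by
    have h1 : ∀ n ∈ Finset.Icc 1 Y, (W : ℂ) * (if n ≡ a [MOD W] then ((lam n : ℝ) : ℂ) else 0) =
        ∑ k ∈ Finset.range W, Pool.Agent.Lib.GT.e (-((k : ℝ) * a / W)) *
          (((lam n : ℝ) : ℂ) * Pool.Agent.Lib.GT.e ((n : ℝ) * ((k : ℝ) / W))) := by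
      intro n _
      have h2 := Pool.Agent.Lib.GT.sum_e_mod (W := W) hW ((n : ℤ) - (a : ℤ))
      have h3 : ∀ k ∈ Finset.range W, Pool.Agent.Lib.GT.e (-((k : ℝ) * a / W)) *
          (((lam n : ℝ) : ℂ) * Pool.Agent.Lib.GT.e ((n : ℝ) * ((k : ℝ) / W))) =
          ((lam n : ℝ) : ℂ) *
            Pool.Agent.Lib.GT.e ((k : ℝ) * (((n : ℤ) - (a : ℤ) : ℤ) : ℝ) / W) := by
        intro k _
        have h4 : Pool.Agent.Lib.GT.e ((k : ℝ) * (((n : ℤ) - (a : ℤ) : ℤ) : ℝ) / W) =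
            Pool.Agent.Lib.GT.e (-((k : ℝ) * a / W)) *
              Pool.Agent.Lib.GT.e ((n : ℝ) * ((k : ℝ) / W)) := by
          rw [← Pool.Agent.Lib.GT.e_add]
          congr 1
          push_cast
          ring
        rw [h4]
        ring
      rw [Finset.sum_congr rfl h3, ← Finset.mul_sum, h2]
      have h5 : (n ≡ a [MOD W]) ↔ ((W : ℤ) ∣ ((n : ℤ) - (a : ℤ))) := by
        rw [Nat.ModEq.comm]
        exact Nat.modEq_iff_dvd
      by_cases h6 : n ≡ a [MOD W]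
      · rw [if_pos h6, if_pos (h5.mp h6), mul_comm]
      · rw [if_neg h6, if_neg (fun h7 => h6 (h5.mpr h7)), mul_zero, mul_zero]
    rw [Complex.ofReal_sum, Finset.sum_filter, Finset.mul_sum, Finset.sum_congr rfl h1,
      Finset.sum_comm]
    refine Finset.sum_congr rfl fun k _ => ?_
    rw [Finset.mul_sum]
  have h8 : ‖(W : ℂ) * ((∑ n ∈ (Finset.Icc 1 Y).filter (fun n => n ≡ a [MOD W]), lam n : ℝ) : ℂ)‖ ≤
      W * (C * Y / (Real.log Y) ^ A) := by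
    rw [key]
    refine (norm_sum_le _ _).trans ?_
    calc ∑ k ∈ Finset.range W, ‖Pool.Agent.Lib.GT.e (-((k : ℝ) * a / W)) *
        ∑ n ∈ Finset.Icc 1 Y, ((lam n : ℝ) : ℂ) *
          Pool.Agent.Lib.GT.e ((n : ℝ) * ((k : ℝ) / W))‖
        ≤ ∑ k ∈ Finset.range W, C * Y / (Real.log Y) ^ A := by
          refine Finset.sum_le_sum fun k _ => ?_
          rw [norm_mul, Pool.Agent.Lib.MP_7b7e48_nt.LG.LA1_norm_e, one_mul]
          exact h Y hY _
      _ = W * (C * Y / (Real.log Y) ^ A) := by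
          rw [Finset.sum_const, Finset.card_range, nsmul_eq_mul]
  rw [norm_mul, Complex.norm_natCast, Complex.norm_real, Real.norm_eq_abs] at h8
  exact le_of_mul_le_mul_left h8 hWR

end Pool.Agent.Lib.OW
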