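import Pool.Agent.Lib.MP_7b7e48_nt.RG.A2
import Pool.Agent.Lib.MP_7b7e48_nt.RG.A3
import Pool.Agent.Lib.MP_7b7e48_nt.RG.A7
import Pool.Agent.Lib.MP_7b7e48_nt.LG.LA1

/-!
# Goldbach with Liouville signs and summands without small prime factors: definitions for the counting part

`lam` is the (real valued) Liouville function. `RC M c`: `c` behaves like a real nonprincipal character modulo `M`;
`LV M c L`: `L` is the value of its `L`-series at `1`; `rr c = 1 * c`, `SS c` its summatory function (`RG/Defs.lean`).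
The modulus is always `M = W * N`, `W` is fixed, `N` is large, `K = log N`.
-/

set_option autoImplicit false

open Finset
open Pool.Agent.Lib.MP_45349e_nt.LS (lam)

namespace Pool.Agent.Lib.OW

open Pool.Agent.Lib.RG (RC LV rr SS PB)

/-- `φ(N) / N` -/
noncomputable def del (N : ℕ) : ℝ := (N.totient : ℝ) / N

open Classical in
/-- the primes `≤ y` with `c = 1` -/
noncomputable def QP (c : ℕ → ℝ) (y : ℕ) : Finset ℕ :=
  (range (y + 1)).filter fun q => q.Prime ∧ c q = 1

/-- the sum of their reciprocals -/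
noncomputable def sQ (c : ℕ → ℝ) (y : ℕ) : ℝ := ∑ q ∈ QP c y, 1 / (q : ℝ)

/-- `1 * c` on the numbers coprime to `M` -/
noncomputable def rs (M : ℕ) (c : ℕ → ℝ) (n : ℕ) : ℝ := if n.Coprime M then rr c n else 0

/-- its summatory function -/
noncomputable def SSs (M : ℕ) (c : ℕ → ℝ) (y : ℕ) : ℝ := ∑ n ∈ Finset.Icc 1 y, rs M c n

open Classical in
/-- `2 ^ ω(b)` on the numbers `b` composed of primes with `c = 1` -/
noncomputable def h2 (c : ℕ → ℝ) (b : ℕ) : ℝ :=
  if ∀ q : ℕ, q.Prime → q ∣ b → c q = 1 then (2 : ℝ) ^ b.primeFactors.card else 0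

open Classical in
/-- the numbers `n < y`, `n ≡ a` modulo `W`, coprime to `N` -/
noncomputable def Dom (N W a y : ℕ) : Finset ℕ :=
  (range y).filter fun n => n ≡ a [MOD W] ∧ n.Coprime N

/-- the density of `Dom N W a`, `a` coprime to `W` -/
noncomputable def dd (N W : ℕ) : ℝ := del (W * N) / W.totient

open Classical in
/-- the numbers of `Dom N W a (W * N)` with `lam ≠ β c` -/
noncomputable def Zst (N W a : ℕ) (c : ℕ → ℝ) (β : ℝ) : Finset ℕ :=
  (Dom N W a (W * N)).filter fun n => lam n ≠ β * c n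

open Classical in
/-- what follows from the spectral part: `lam = β c` for most `n < W N`, `n ≡ a` modulo `W`, coprime to `N`, and
`c = -1` for most primes of the range `N^(1/100) < p ≤ N^(99/200)` (all classes) -/
structure HV (N W a : ℕ) (c : ℕ → ℝ) (β ε : ℝ) : Prop where
  rc : RC (W * N) c
  co : a.Coprime W
  hb : β = 1 ∨ β = -1
  z : ((Zst N W a c β).card : ℝ) ≤ ε * del N * N
  q : ∑ q ∈ (QP c ⌊(N : ℝ) ^ ((99 : ℝ) / 200)⌋₊).filter (fun q : ℕ => (N : ℝ) ^ ((1 : ℝ) / 100) < (q : ℝ)),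
    1 / (q : ℝ) ≤ ε

end Pool.Agent.Lib.OW
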