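import Pool.Agent.Lib.MP_7b7e48_nt.OW.S1

/-!
# Module U1 (50 minutes): `c = lam * h2`

PROOF. `c_conv`: both sides are multiplicative in `n` (for `n` coprime to `M`); at `p^k`: if `c p = -1` then `h2` vanishes on `p, p², ...` and the sum is `lam(p^k) = (-1)^k = c(p^k)`; if `c p = 1` then `(-1)^k + 2 ∑_{j=1}^{k} (-1)^(k-j) = 1 = c(p^k)`.
(Or by strong induction on `n`, splitting off the full power of one prime; `LG/F3.lean` has a similar proof.)
`h2_le_rs`: for `b` composed of primes with `c = 1` one has `rr c b = ∏ (k_p + 1) ≥ 2^ω(b)`, `b` is coprime to `M`.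
-/

open Finset
open Pool.Agent.Lib.MP_45349e_nt.LS (lam)

namespace Pool.Agent.Lib.OW

open Pool.Agent.Lib.RG (RC LV rr SS PB)

theorem h2_nonneg (c : ℕ → ℝ) (b : ℕ) : 0 ≤ h2 c b := by
  unfold h2
  split_ifs <;> positivity

private theorem U1_c_one {M : ℕ} {c : ℕ → ℝ} (hc : RC M c) : c 1 = 1 := by
  have h1 := hc.mul 1 1
  rw [mul_one] at h1
  rcases hc.val 1 (Nat.coprime_one_left M) with h | h
  · exact h
  · rw [h] at h1
    norm_num at h1

private theorem U1_c_pow {M : ℕ} {c : ℕ → ℝ} (hc : RC M c) (p k : ℕ) : c (p ^ k) = c p ^ k := by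
  induction k with
  | zero => rw [pow_zero, pow_zero]; exact U1_c_one hc
  | succ k ih => rw [pow_succ, hc.mul, ih, pow_succ]

private theorem U1_h2_one (c : ℕ → ℝ) : h2 c 1 = 1 := by
  unfold h2
  rw [if_pos, Nat.primeFactors_one, card_empty, pow_zero]
  intro q hq h
  exact absurd (Nat.dvd_one.mp h) hq.one_lt.ne'

private theorem U1_h2_mul (c : ℕ → ℝ) {m n : ℕ} (h : m.Coprime n) :
    h2 c (m * n) = h2 c m * h2 c n := by
  unfold h2
  rw [h.primeFactors_mul, card_union_of_disjoint h.disjoint_primeFactors, pow_add]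
  by_cases h1 : ∀ q : ℕ, q.Prime → q ∣ m → c q = 1
  · by_cases h3 : ∀ q : ℕ, q.Prime → q ∣ n → c q = 1
    · rw [if_pos h1, if_pos h3, if_pos]
      intro q hq hd
      rcases hq.dvd_mul.mp hd with h4 | h4
      · exact h1 q hq h4
      · exact h3 q hq h4
    · rw [if_neg h3, mul_zero, if_neg]
      intro h4
      exact h3 fun q hq hd => h4 q hq (hd.mul_left m)
  · rw [if_neg h1, zero_mul, if_neg]
    intro h4
    exact h1 fun q hq hd => h4 q hq (hd.mul_right n)

private theorem U1_h2_pow (c : ℕ → ℝ) {p : ℕ} (hp : p.Prime) (k : ℕ) :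
    h2 c (p ^ (k + 1)) = if c p = 1 then 2 else 0 := by
  unfold h2
  rw [Nat.primeFactors_prime_pow (Nat.succ_ne_zero k) hp, card_singleton, pow_one]
  by_cases h : c p = 1
  · rw [if_pos h, if_pos]
    intro q hq hd
    have := (Nat.prime_dvd_prime_iff_eq hq hp).mp (hq.dvd_of_dvd_pow hd)
    rw [this]
    exact h
  · rw [if_neg h, if_neg]
    intro h3
    exact h (h3 p hp (dvd_pow_self p (Nat.succ_ne_zero k)))

/-- `h2 c` as an arithmetic function -/
private noncomputable def U1_H (c : ℕ → ℝ) : ArithmeticFunction ℝ :=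
  ⟨fun n => if n = 0 then 0 else h2 c n, if_pos rfl⟩

/-- `lam` as an arithmetic function -/
private noncomputable def U1_L : ArithmeticFunction ℝ :=
  ⟨fun n => if n = 0 then 0 else lam n, if_pos rfl⟩

private theorem U1_H_apply (c : ℕ → ℝ) {n : ℕ} (hn : n ≠ 0) : U1_H c n = h2 c n := if_neg hn

private theorem U1_L_apply {n : ℕ} (hn : n ≠ 0) : U1_L n = lam n := if_neg hn

private theorem U1_H_mult (c : ℕ → ℝ) : (U1_H c).IsMultiplicative := by
  rw [ArithmeticFunction.IsMultiplicative.iff_ne_zero]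
  refine ⟨?_, fun {m n} hm hn h => ?_⟩
  · rw [U1_H_apply c one_ne_zero, U1_h2_one]
  · rw [U1_H_apply c hm, U1_H_apply c hn, U1_H_apply c (mul_ne_zero hm hn), U1_h2_mul c h]

private theorem U1_L_mult : U1_L.IsMultiplicative := by
  rw [ArithmeticFunction.IsMultiplicative.iff_ne_zero]
  refine ⟨?_, fun {m n} hm hn _ => ?_⟩
  · rw [U1_L_apply one_ne_zero, Pool.Agent.Lib.MP_45349e_nt.LS.lam_one]
  · rw [U1_L_apply hm, U1_L_apply hn, U1_L_apply (mul_ne_zero hm hn),
      Pool.Agent.Lib.MP_45349e_nt.LS.lam_mul m n hm hn]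

private theorem U1_conv (c : ℕ → ℝ) {n : ℕ} (hn : n ≠ 0) :
    (U1_H c * U1_L) n = ∑ b ∈ n.divisors, h2 c b * lam (n / b) := by
  rw [ArithmeticFunction.mul_apply,
    Nat.sum_divisorsAntidiagonal (fun i j => U1_H c i * U1_L j)]
  refine sum_congr rfl fun b hb => ?_
  have hb' := Nat.dvd_of_mem_divisors hb
  have h1 : b ≠ 0 := fun h => hn (by rw [h] at hb'; exact Nat.eq_zero_of_zero_dvd hb')
  have h3 : n / b ≠ 0 := (Nat.div_pos (Nat.le_of_dvd (Nat.pos_of_ne_zero hn) hb')
    (Nat.pos_of_ne_zero h1)).ne'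
  rw [U1_H_apply c h1, U1_L_apply h3]

private theorem U1_lam_pow {p : ℕ} (hp : p.Prime) (k : ℕ) : lam (p ^ k) = (-1) ^ k := by
  unfold lam
  rw [ArithmeticFunction.cardFactors_apply_prime_pow hp]

private theorem U1_alt (k : ℕ) :
    ∑ i ∈ range (k + 1), (if i = 0 then (1 : ℝ) else 2) * (-1) ^ (k - i) = 1 := by
  induction k with
  | zero => simp
  | succ k ih =>
    rw [sum_range_succ, if_neg (Nat.succ_ne_zero k), Nat.sub_self, pow_zero, mul_one]
    have h : ∑ i ∈ range (k + 1), (if i = 0 then (1 : ℝ) else 2) * (-1) ^ (k + 1 - i) =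
        -∑ i ∈ range (k + 1), (if i = 0 then (1 : ℝ) else 2) * (-1) ^ (k - i) := by
      rw [← sum_neg_distrib]
      refine sum_congr rfl fun i hi => ?_
      have hik : i ≤ k := Nat.lt_succ_iff.mp (mem_range.mp hi)
      rw [Nat.succ_sub hik, pow_succ]
      ring
    rw [h, ih]
    norm_num

theorem c_conv {M : ℕ} {c : ℕ → ℝ} (hc : RC M c) {n : ℕ} (hn : 1 ≤ n) (hM : n.Coprime M) :
    c n = ∑ b ∈ n.divisors, h2 c b * lam (n / b) := by
  have hn0 : n ≠ 0 := Nat.pos_iff_ne_zero.mp hn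
  rw [← U1_conv c hn0]
  clear hn
  induction n using Nat.recOnPosPrimePosCoprime with
  | prime_pow p k hp hk =>
    rw [U1_conv c (pow_ne_zero k hp.ne_zero), Nat.sum_divisors_prime_pow hp]
    have hpM : p.Coprime M := Nat.Coprime.coprime_dvd_left (dvd_pow_self p hk.ne') hM
    have hdiv : ∀ i ∈ range (k + 1), p ^ k / p ^ i = p ^ (k - i) := fun i hi =>
      Nat.pow_div (Nat.lt_succ_iff.mp (mem_range.mp hi)) hp.pos
    rw [U1_c_pow hc]
    rcases hc.val p hpM with h1 | h1
    · rw [h1, one_pow, ← U1_alt k]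
      refine sum_congr rfl fun i hi => ?_
      rw [hdiv i hi, U1_lam_pow hp]
      cases i with
      | zero => rw [if_pos rfl, pow_zero, U1_h2_one]
      | succ i => rw [if_neg (Nat.succ_ne_zero i), U1_h2_pow c hp, if_pos h1]
    · rw [sum_range_succ', sum_eq_zero, pow_zero, U1_h2_one, Nat.div_one, U1_lam_pow hp, h1]
      · ring
      · intro i hi
        rw [U1_h2_pow c hp, if_neg, zero_mul]
        rw [h1]
        norm_num
  | zero => exact absurd rfl hn0
  | one =>
    rw [U1_conv c one_ne_zero, Nat.divisors_one, sum_singleton, U1_h2_one, Nat.div_one,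
      Pool.Agent.Lib.MP_45349e_nt.LS.lam_one, U1_c_one hc]
    norm_num
  | coprime a b ha hb hab iha ihb =>
    rw [hc.mul, ((U1_H_mult c).mul U1_L_mult).map_mul_of_coprime hab,
      iha (Nat.Coprime.coprime_dvd_left (dvd_mul_right a b) hM) (by omega),
      ihb (Nat.Coprime.coprime_dvd_left (dvd_mul_left b a) hM) (by omega)]

private theorem U1_c_dvd {M : ℕ} {c : ℕ → ℝ} (hc : RC M c) {d : ℕ} (hd : d ≠ 0)
    (h : ∀ q : ℕ, q.Prime → q ∣ d → c q = 1) : c d = 1 := by
  induction d using Nat.recOnMul with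
  | zero => exact absurd rfl hd
  | one => exact U1_c_one hc
  | prime p hp => exact h p hp dvd_rfl
  | mul a b iha ihb =>
    rw [hc.mul, iha (left_ne_zero_of_mul hd) fun q hq hqd => h q hq (hqd.mul_right b),
      ihb (right_ne_zero_of_mul hd) fun q hq hqd => h q hq (hqd.mul_left a), one_mul]

theorem h2_le_rs {M : ℕ} {c : ℕ → ℝ} (hc : RC M c) {b : ℕ} (hb : 1 ≤ b) : h2 c b ≤ rs M c b := by
  have hb0 : b ≠ 0 := Nat.pos_iff_ne_zero.mp hb
  by_cases h : ∀ q : ℕ, q.Prime → q ∣ b → c q = 1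
  · have hco : b.Coprime M := by
      by_contra hcon
      obtain ⟨q, hq, hq1, hq2⟩ := Nat.Prime.not_coprime_iff_dvd.mp hcon
      have h1 := h q hq hq1
      rw [hc.zero q (fun h3 => (Nat.Prime.coprime_iff_not_dvd hq).mp h3 hq2)] at h1
      exact zero_ne_one h1
    unfold h2 rs rr
    rw [if_pos h, if_pos hco]
    have h4 : ∑ d ∈ b.divisors, c d = (b.divisors.card : ℝ) := by
      rw [card_eq_sum_ones, Nat.cast_sum]
      refine sum_congr rfl fun d hd => ?_
      have hd' := Nat.dvd_of_mem_divisors hd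
      rw [Nat.cast_one]
      refine U1_c_dvd hc (fun h5 => hb0 ?_) fun q hq hqd => h q hq (hqd.trans hd')
      rw [h5] at hd'
      exact Nat.eq_zero_of_zero_dvd hd'
    rw [h4, Nat.card_divisors hb0]
    have h5 : 2 ^ b.primeFactors.card ≤ ∏ x ∈ b.primeFactors, (b.factorization x + 1) := by
      rw [← prod_const]
      refine prod_le_prod' fun p hp => ?_
      have := (Nat.prime_of_mem_primeFactors hp).factorization_pos_of_dvd hb0
        (Nat.dvd_of_mem_primeFactors hp)
      omega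
    exact_mod_cast h5
  · unfold h2
    rw [if_neg h]
    exact rs_nonneg hc b

end Pool.Agent.Lib.OW
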