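import Pool.Agent.Lib.MP_7b7e48_nt.OW.OD
import Pool.Agent.Lib.SW.SWFinal

/-!
# Module CN3 (60 minutes): primes

PROOF. `pap`: `SW.theta_ap 1 1` at `x` and `x/2`: `∑_{x/2 < p ≤ x, p ≡ b} log p ≥ x/(2 φ(W)) - C W x/log x ≥ x/(4 φ(W))` for large `x`, each term is `≤ log x`. `cheb_up`: `theta_ap` with `q = 1` gives `∑_{p ≤ x} log p ≤ C x`, and `#{p ≤ x} ≤ √x + (2/log x) ∑_{p ≤ x} log p`
(or any Chebyshev bound of the library or Mathlib). `prime_rec`: dyadic blocks `(2^i x, 2^(i+1) x]`: each contributes `≤ C 2^(i+1) x/log(2^(i+1) x)/(2^i x) ≤ 2 C/log x`.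
`rec_low`: dyadic blocks and `pap`: block sum `≥ c/log(2^(i+1) x) ≥ c/log y`, at least `log(y/x)/log 2 - 1` blocks.
-/

open Finset

namespace Pool.Agent.Lib.OW

open Pool.Agent.Lib.RG (RC LV rr SS PB)

private theorem cn3_logpos {x : ℕ} (hx : 2 ≤ x) : 0 < Real.log x :=
  Real.log_pos (by exact_mod_cast hx)

open Classical in
theorem pap (W : ℕ) (hW : 1 ≤ W) : ∃ c : ℝ, 0 < c ∧ ∃ x0 : ℕ, ∀ x : ℕ, x0 ≤ x → ∀ b : ℕ, b.Coprime W →
    c * x / Real.log x ≤ (((Finset.Ioc (x / 2) x).filter fun p => p.Prime ∧ p ≡ b [MOD W]).card : ℝ) := by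
  obtain ⟨C, hC, hth⟩ := Pool.Agent.Lib.SW.theta_ap 1 1 one_pos
  have hφ : 0 < W.totient := Nat.totient_pos.mpr hW
  have hφ' : (0 : ℝ) < W.totient := by exact_mod_cast hφ
  refine ⟨1 / (4 * W.totient), by positivity, ⌈Real.exp (8 * C * W * W.totient)⌉₊ + 16, ?_⟩
  intro x hx b hb
  have hx16 : 16 ≤ x := by omega
  have hxe : Real.exp (8 * C * W * W.totient) ≤ x := by
    calc Real.exp (8 * C * W * W.totient) ≤ ⌈Real.exp (8 * C * W * W.totient)⌉₊ := Nat.le_ceil _
      _ ≤ x := by exact_mod_cast (by omega : ⌈Real.exp (8 * C * W * W.totient)⌉₊ ≤ x)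
  have hx0 : (0 : ℝ) < x := by exact_mod_cast (by omega : 0 < x)
  have hlog : 8 * C * W * W.totient ≤ Real.log x := by
    rw [Real.le_log_iff_exp_le hx0]; exact hxe
  have hlp : 0 < Real.log x := cn3_logpos (by omega)
  have h1 := hth W b hW hb x (by exact_mod_cast (by omega : 2 ≤ x))
  have h2 := hth W b hW hb ((x / 2 : ℕ) : ℝ) (by exact_mod_cast (by omega : 2 ≤ x / 2))
  rw [Nat.floor_natCast] at h1 h2
  simp only [Real.rpow_one, pow_one] at h1 h2
  have hhalf : ((x / 2 : ℕ) : ℝ) ≤ x / 2 := Nat.cast_div_le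
  have hsq : (x : ℝ) ≤ ((x / 2 : ℕ) : ℝ) ^ 2 := by
    have hn : x ≤ (x / 2) ^ 2 := by
      have : x ≤ 2 * (x / 2) + 1 := by omega
      have h8 : 8 ≤ x / 2 := by omega
      nlinarith
    exact_mod_cast hn
  have hl2 : Real.log x / 2 ≤ Real.log ((x / 2 : ℕ) : ℝ) := by
    have := Real.log_le_log hx0 hsq
    rw [Real.log_pow] at this
    push_cast at this ⊢
    linarith
  have hl2p : 0 < Real.log ((x / 2 : ℕ) : ℝ) := by linarith
  have hsplit : ∑ n ∈ (Finset.Icc 1 x).filter (fun n => n.Prime ∧ n ≡ b [MOD W]), Real.log n =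
      ∑ n ∈ (Finset.Icc 1 (x / 2)).filter (fun n => n.Prime ∧ n ≡ b [MOD W]), Real.log n +
      ∑ n ∈ (Finset.Ioc (x / 2) x).filter (fun n => n.Prime ∧ n ≡ b [MOD W]), Real.log n := by
    rw [← Finset.sum_union]
    · congr 1
      ext n
      simp only [Finset.mem_filter, Finset.mem_Icc, Finset.mem_union, Finset.mem_Ioc]
      constructor
      · rintro ⟨⟨a1, a2⟩, a3⟩
        rcases Nat.lt_or_ge (x / 2) n with h | h
        · exact Or.inr ⟨⟨h, a2⟩, a3⟩
        · exact Or.inl ⟨⟨a1, h⟩, a3⟩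
      · rintro (⟨⟨a1, a2⟩, a3⟩ | ⟨⟨a1, a2⟩, a3⟩)
        · exact ⟨⟨a1, by omega⟩, a3⟩
        · exact ⟨⟨by omega, a2⟩, a3⟩
    · rw [Finset.disjoint_left]
      intro n hn hn'
      simp only [Finset.mem_filter, Finset.mem_Icc, Finset.mem_Ioc] at hn hn'
      omega
  have hup : ∑ n ∈ (Finset.Ioc (x / 2) x).filter (fun n => n.Prime ∧ n ≡ b [MOD W]), Real.log n ≤
      (((Finset.Ioc (x / 2) x).filter fun p => p.Prime ∧ p ≡ b [MOD W]).card : ℝ) * Real.log x := by
    rw [← nsmul_eq_mul]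
    apply Finset.sum_le_card_nsmul
    intro n hn
    simp only [Finset.mem_filter, Finset.mem_Ioc] at hn
    exact Real.log_le_log (by exact_mod_cast hn.2.1.pos) (by exact_mod_cast hn.1.2)
  have e1 := (abs_le.mp h1).1
  have e2 := (abs_le.mp h2).2
  have e3 : C * W * ((x / 2 : ℕ) : ℝ) / Real.log ((x / 2 : ℕ) : ℝ) ≤ C * W * x / Real.log x := by
    rw [div_le_div_iff₀ hl2p hlp]
    have : 0 ≤ C * (W : ℝ) := by positivity
    have h5 : ((x / 2 : ℕ) : ℝ) * Real.log x ≤ x * Real.log ((x / 2 : ℕ) : ℝ) := by nlinarith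
    nlinarith
  have e4 : ((x / 2 : ℕ) : ℝ) / W.totient ≤ x / 2 / W.totient := by
    gcongr
  have e5 : C * W * x / Real.log x ≤ x / (8 * W.totient) := by
    rw [div_le_div_iff₀ hlp (by positivity)]
    nlinarith
  have e6 : x / (4 * W.totient) ≤ (((Finset.Ioc (x / 2) x).filter fun p => p.Prime ∧ p ≡ b [MOD W]).card : ℝ) * Real.log x := by
    refine le_trans ?_ hup
    have e7 : (x : ℝ) / (4 * W.totient) = x / W.totient - x / 2 / W.totient - x / (8 * W.totient) - x / (8 * W.totient) := by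
      field_simp
      ring
    rw [e7]
    linarith
  rw [div_le_iff₀ hlp]
  calc 1 / (4 * (W.totient : ℝ)) * x = x / (4 * W.totient) := by ring
    _ ≤ _ := e6

open Classical in
theorem cheb_up : ∃ C : ℝ, 0 < C ∧ ∀ x : ℕ, 2 ≤ x →
    (((Finset.Icc 1 x).filter fun p => p.Prime).card : ℝ) ≤ C * x / Real.log x := by
  refine ⟨6, by norm_num, ?_⟩
  intro x hx
  have hlp := cn3_logpos hx
  have hx0 : (0 : ℝ) < x := by exact_mod_cast (by omega : 0 < x)
  have h := Chebyshev.pi_le_log4_mul_div (x := x) (by exact_mod_cast (by omega : 1 < x))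
  rw [Nat.floor_natCast] at h
  have hc : (((Finset.Icc 1 x).filter fun p => p.Prime).card : ℝ) ≤ (Nat.primeCounting x : ℝ) := by
    have : ((Finset.Icc 1 x).filter fun p => p.Prime).card ≤ Nat.primeCounting x := by
      rw [Nat.primeCounting, Nat.primeCounting', Nat.count_eq_card_filter_range]
      apply Finset.card_le_card
      intro n hn
      simp only [Finset.mem_filter, Finset.mem_Icc, Finset.mem_range] at hn ⊢
      exact ⟨by omega, hn.2⟩
    exact_mod_cast this
  refine hc.trans (h.trans ?_)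
  have hs : Real.log √(x : ℝ) = Real.log x / 2 := Real.log_sqrt hx0.le
  rw [hs]
  have h4 : Real.log 4 ≤ 2 := by
    have : (4 : ℝ) = 2 ^ 2 := by norm_num
    rw [this, Real.log_pow]
    have := Real.log_two_lt_d9
    push_cast
    linarith
  have h5 : √(x : ℝ) ≤ 2 * x / Real.log x := by
    rw [le_div_iff₀ hlp]
    have h6 : Real.log √(x : ℝ) ≤ √(x : ℝ) := by
      have := Real.log_le_sub_one_of_pos (x := √(x : ℝ)) (Real.sqrt_pos.mpr hx0)
      linarith
    rw [hs] at h6
    have h7 : √(x : ℝ) * √(x : ℝ) = x := Real.mul_self_sqrt hx0.le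
    have h8 : 0 ≤ √(x : ℝ) := Real.sqrt_nonneg _
    nlinarith
  have h9 : Real.log 4 * x / (Real.log x / 2) ≤ 4 * x / Real.log x := by
    rw [div_le_div_iff₀ (by positivity) hlp]
    nlinarith [mul_pos hx0 hlp]
  calc Real.log 4 * x / (Real.log x / 2) + √(x : ℝ) ≤ 4 * x / Real.log x + 2 * x / Real.log x := add_le_add h9 h5
    _ = 6 * x / Real.log x := by ring

open Classical in
theorem prime_rec : ∃ C : ℝ, 0 < C ∧ ∀ x y : ℕ, 2 ≤ x → x ≤ y →
    ∑ p ∈ (Finset.Ioc x y).filter (fun p => p.Prime), 1 / (p : ℝ) ≤ C * (Real.log (y / x) + 1) / Real.log x := by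
  obtain ⟨C, hC, hch⟩ := cheb_up
  refine ⟨4 * C, by positivity, ?_⟩
  intro x y hx hxy
  have hlp := cn3_logpos hx
  have hx0 : (0 : ℝ) < x := by exact_mod_cast (by omega : 0 < x)
  -- one block
  have hblock : ∀ z w : ℕ, x ≤ z → w ≤ 2 * z → ∑ p ∈ (Finset.Ioc z w).filter (fun p => p.Prime), 1 / (p : ℝ) ≤
      2 * C / Real.log x := by
    intro z w hz hw
    have hz0 : (0 : ℝ) < z := by exact_mod_cast (by omega : 0 < z)
    have h1 : ∑ p ∈ (Finset.Ioc z w).filter (fun p => p.Prime), 1 / (p : ℝ) ≤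
        ((Finset.Ioc z w).filter (fun p => p.Prime)).card • (1 / (z : ℝ)) := by
      apply Finset.sum_le_card_nsmul
      intro p hp
      simp only [Finset.mem_filter, Finset.mem_Ioc] at hp
      exact one_div_le_one_div_of_le hz0 (by exact_mod_cast hp.1.1.le)
    have h2 : ((Finset.Ioc z w).filter (fun p => p.Prime)).card ≤ ((Finset.Icc 1 (2 * z)).filter (fun p => p.Prime)).card := by
      apply Finset.card_le_card
      intro p hp
      simp only [Finset.mem_filter, Finset.mem_Ioc, Finset.mem_Icc] at hp ⊢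
      exact ⟨⟨by omega, by omega⟩, hp.2⟩
    have h3 := hch (2 * z) (by omega)
    have h2' : (((Finset.Ioc z w).filter (fun p => p.Prime)).card : ℝ) ≤ C * (2 * z : ℕ) / Real.log (2 * z : ℕ) :=
      le_trans (by exact_mod_cast h2) h3
    have h4 : Real.log x ≤ Real.log (2 * z : ℕ) :=
      Real.log_le_log hx0 (by exact_mod_cast (by omega : x ≤ 2 * z))
    rw [nsmul_eq_mul] at h1
    calc ∑ p ∈ (Finset.Ioc z w).filter (fun p => p.Prime), 1 / (p : ℝ) ≤ _ := h1
      _ ≤ C * (2 * z : ℕ) / Real.log (2 * z : ℕ) * (1 / z) := by gcongr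
      _ = 2 * C / Real.log (2 * z : ℕ) := by push_cast; field_simp
      _ ≤ 2 * C / Real.log x := by gcongr
  have hind : ∀ j : ℕ, ∀ w : ℕ, w ≤ 2 ^ j * x →
      ∑ p ∈ (Finset.Ioc x w).filter (fun p => p.Prime), 1 / (p : ℝ) ≤ j * (2 * C / Real.log x) := by
    intro j
    induction j with
    | zero =>
      intro w hw
      have : Finset.Ioc x w = ∅ := by
        apply Finset.Ioc_eq_empty
        simp at hw
        omega
      rw [this]
      simp
    | succ j ih =>
      intro w hw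
      rcases Nat.lt_or_ge (2 ^ j * x) w with h | h
      · have hxj : x ≤ 2 ^ j * x := Nat.le_mul_of_pos_left _ (by positivity)
        have hsp : (Finset.Ioc x w).filter (fun p => p.Prime) =
            (Finset.Ioc x (2 ^ j * x)).filter (fun p => p.Prime) ∪ (Finset.Ioc (2 ^ j * x) w).filter (fun p => p.Prime) := by
          rw [← Finset.filter_union, Finset.Ioc_union_Ioc_eq_Ioc hxj h.le]
        have hdis : Disjoint ((Finset.Ioc x (2 ^ j * x)).filter (fun p => p.Prime)) ((Finset.Ioc (2 ^ j * x) w).filter (fun p => p.Prime)) := by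
          rw [Finset.disjoint_left]
          intro n hn hn'
          simp only [Finset.mem_filter, Finset.mem_Ioc] at hn hn'
          omega
        rw [hsp, Finset.sum_union hdis]
        have h1 := ih (2 ^ j * x) le_rfl
        have h2 := hblock (2 ^ j * x) w hxj (by rw [pow_succ] at hw; linarith)
        push_cast
        linarith
      · refine (ih w h).trans ?_
        have : 0 ≤ 2 * C / Real.log x := by positivity
        push_cast
        nlinarith
  have hy0 : (0 : ℝ) < y := by exact_mod_cast (by omega : 0 < y)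
  have hyx : (1 : ℝ) ≤ y / x := by
    rw [le_div_iff₀ hx0]
    have : (x : ℝ) ≤ y := by exact_mod_cast hxy
    linarith
  have hL : 0 ≤ Real.log (y / x) := Real.log_nonneg hyx
  have hl2 : 0 < Real.log 2 := Real.log_pos (by norm_num)
  have hl2' : 1 / 2 ≤ Real.log 2 := by linarith [Real.log_two_gt_d9]
  set j := ⌈Real.log (y / x) / Real.log 2⌉₊ with hj
  have hj1 : Real.log (y / x) / Real.log 2 ≤ j := Nat.le_ceil _
  have hj2 : (j : ℝ) < Real.log (y / x) / Real.log 2 + 1 := Nat.ceil_lt_add_one (by positivity)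
  have hyj : y ≤ 2 ^ j * x := by
    have h1 : Real.log (y / x) ≤ j * Real.log 2 := by rwa [div_le_iff₀ hl2] at hj1
    rw [← Real.log_pow] at h1
    have h2 : (y : ℝ) / x ≤ 2 ^ j := by
      rwa [Real.log_le_log_iff (by positivity) (by positivity)] at h1
    rw [div_le_iff₀ hx0] at h2
    exact_mod_cast h2
  refine (hind j y hyj).trans ?_
  have hj3 : (j : ℝ) ≤ 2 * (Real.log (y / x) + 1) := by
    have : Real.log (y / x) / Real.log 2 ≤ 2 * Real.log (y / x) := by
      rw [div_le_iff₀ hl2]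
      nlinarith
    linarith
  calc (j : ℝ) * (2 * C / Real.log x) ≤ (2 * (Real.log (y / x) + 1)) * (2 * C / Real.log x) := by gcongr
    _ = 4 * C * (Real.log (y / x) + 1) / Real.log x := by ring

open Classical in
theorem rec_low (W : ℕ) (hW : 1 ≤ W) : ∃ c : ℝ, 0 < c ∧ ∃ x0 : ℕ, ∀ x y : ℕ, x0 ≤ x → x ≤ y → ∀ b : ℕ, b.Coprime W →
    c * (Real.log (y / x) - 1) / Real.log y ≤
      ∑ p ∈ (Finset.Ioc x y).filter (fun p => p.Prime ∧ p ≡ b [MOD W]), 1 / (p : ℝ) := by
  obtain ⟨c, hc, x0, hpap⟩ := pap W hW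
  refine ⟨c, hc, x0 + 2, ?_⟩
  intro x y hx hxy b hb
  have hlp := cn3_logpos (x := x) (by omega)
  have hlpy := cn3_logpos (x := y) (by omega)
  have hx0 : (0 : ℝ) < x := by exact_mod_cast (by omega : 0 < x)
  have hy0 : (0 : ℝ) < y := by exact_mod_cast (by omega : 0 < y)
  have hblock : ∀ z : ℕ, x ≤ z → 2 * z ≤ y →
      c / Real.log y ≤ ∑ p ∈ (Finset.Ioc z (2 * z)).filter (fun p => p.Prime ∧ p ≡ b [MOD W]), 1 / (p : ℝ) := by
    intro z hz hzy
    have hz0 : (0 : ℝ) < z := by exact_mod_cast (by omega : 0 < z)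
    have h1 := hpap (2 * z) (by omega) b hb
    rw [Nat.mul_div_cancel_left z (by norm_num)] at h1
    have h2 : ((Finset.Ioc z (2 * z)).filter (fun p => p.Prime ∧ p ≡ b [MOD W])).card • (1 / ((2 * z : ℕ) : ℝ)) ≤
        ∑ p ∈ (Finset.Ioc z (2 * z)).filter (fun p => p.Prime ∧ p ≡ b [MOD W]), 1 / (p : ℝ) := by
      apply Finset.card_nsmul_le_sum
      intro p hp
      simp only [Finset.mem_filter, Finset.mem_Ioc] at hp
      exact one_div_le_one_div_of_le (by exact_mod_cast hp.2.1.pos) (by exact_mod_cast hp.1.2)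
    refine le_trans ?_ h2
    rw [nsmul_eq_mul]
    have h3 : 0 < Real.log (2 * z : ℕ) := cn3_logpos (by omega)
    have h4 : Real.log (2 * z : ℕ) ≤ Real.log y := Real.log_le_log (by push_cast; linarith) (by exact_mod_cast hzy)
    calc c / Real.log y ≤ c / Real.log (2 * z : ℕ) := by gcongr
      _ = c * (2 * z : ℕ) / Real.log (2 * z : ℕ) * (1 / ((2 * z : ℕ) : ℝ)) := by push_cast; field_simp
      _ ≤ _ := by gcongr
  have hind : ∀ j : ℕ, 2 ^ j * x ≤ y →
      j * (c / Real.log y) ≤ ∑ p ∈ (Finset.Ioc x (2 ^ j * x)).filter (fun p => p.Prime ∧ p ≡ b [MOD W]), 1 / (p : ℝ) := by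
    intro j
    induction j with
    | zero =>
      intro _
      simp
    | succ j ih =>
      intro hj
      have hxj : x ≤ 2 ^ j * x := Nat.le_mul_of_pos_left _ (by positivity)
      have e1 : 2 ^ (j + 1) * x = 2 * (2 ^ j * x) := by ring
      have hj' : 2 * (2 ^ j * x) ≤ y := by rw [← e1]; exact hj
      have hsp : (Finset.Ioc x (2 ^ (j + 1) * x)).filter (fun p => p.Prime ∧ p ≡ b [MOD W]) =
          (Finset.Ioc x (2 ^ j * x)).filter (fun p => p.Prime ∧ p ≡ b [MOD W]) ∪
          (Finset.Ioc (2 ^ j * x) (2 * (2 ^ j * x))).filter (fun p => p.Prime ∧ p ≡ b [MOD W]) := by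
        rw [← Finset.filter_union, e1, Finset.Ioc_union_Ioc_eq_Ioc hxj (by omega)]
      have hdis : Disjoint ((Finset.Ioc x (2 ^ j * x)).filter (fun p => p.Prime ∧ p ≡ b [MOD W]))
          ((Finset.Ioc (2 ^ j * x) (2 * (2 ^ j * x))).filter (fun p => p.Prime ∧ p ≡ b [MOD W])) := by
        rw [Finset.disjoint_left]
        intro n hn hn'
        simp only [Finset.mem_filter, Finset.mem_Ioc] at hn hn'
        omega
      rw [hsp, Finset.sum_union hdis]
      have h1 := ih (by omega)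
      have h2 := hblock (2 ^ j * x) hxj hj'
      push_cast
      linarith
  have hyx : (1 : ℝ) ≤ y / x := by
    rw [le_div_iff₀ hx0]
    have : (x : ℝ) ≤ y := by exact_mod_cast hxy
    linarith
  have hL : 0 ≤ Real.log (y / x) := Real.log_nonneg hyx
  have hl2 : 0 < Real.log 2 := Real.log_pos (by norm_num)
  have hl2' : Real.log 2 ≤ 1 := by linarith [Real.log_two_lt_d9]
  set j := ⌊Real.log (y / x) / Real.log 2⌋₊ with hj
  have hj1 : (j : ℝ) ≤ Real.log (y / x) / Real.log 2 := Nat.floor_le (by positivity)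
  have hj2 : Real.log (y / x) / Real.log 2 < j + 1 := Nat.lt_floor_add_one _
  have hyj : 2 ^ j * x ≤ y := by
    have h1 : j * Real.log 2 ≤ Real.log (y / x) := by rwa [le_div_iff₀ hl2] at hj1
    rw [← Real.log_pow] at h1
    have h2 : (2 : ℝ) ^ j ≤ y / x := by
      rwa [Real.log_le_log_iff (by positivity) (by positivity)] at h1
    rw [le_div_iff₀ hx0] at h2
    exact_mod_cast h2
  have h3 := hind j hyj
  have h4 : ∑ p ∈ (Finset.Ioc x (2 ^ j * x)).filter (fun p => p.Prime ∧ p ≡ b [MOD W]), 1 / (p : ℝ) ≤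
      ∑ p ∈ (Finset.Ioc x y).filter (fun p => p.Prime ∧ p ≡ b [MOD W]), 1 / (p : ℝ) := by
    apply Finset.sum_le_sum_of_subset_of_nonneg
    · intro p hp
      simp only [Finset.mem_filter, Finset.mem_Ioc] at hp ⊢
      exact ⟨⟨hp.1.1, by omega⟩, hp.2⟩
    · intro p _ _
      positivity
  refine le_trans ?_ (h3.trans h4)
  have h5 : Real.log (y / x) ≤ Real.log (y / x) / Real.log 2 := by
    rw [le_div_iff₀ hl2]
    nlinarith
  calc c * (Real.log (y / x) - 1) / Real.log y = (Real.log (y / x) - 1) * (c / Real.log y) := by ring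
    _ ≤ j * (c / Real.log y) := by
      apply mul_le_mul_of_nonneg_right _ (by positivity)
      linarith

end Pool.Agent.Lib.OW
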