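import Pool.Agent.Lib.MP_7b7e48_nt.OW.MTQ
import Pool.Agent.Lib.SW.SWFinal
import Pool.Agent.Lib.Sieve.Mertens3
import Pool.Agent.Lib.Sieve.Mertens

/-!
# Primes in short intervals (logarithmic scale) and residue classes

From the Siegel-Walfisz theorem (`SW.theta_ap`).
-/

set_option autoImplicit false

open Finset

namespace Pool.Agent.Lib.OW

/-- the primes `p` with `s < log p ≤ t` -/
noncomputable def PR (s t : ℝ) : Finset ℕ :=
  (Finset.Ioc ⌊Real.exp s⌋₊ ⌊Real.exp t⌋₊).filter Nat.Prime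

theorem mem_PR {s t : ℝ} {p : ℕ} : p ∈ PR s t ↔ p.Prime ∧ Real.exp s < p ∧ (p : ℝ) ≤ Real.exp t := by
  unfold PR
  rw [mem_filter, mem_Ioc, Nat.floor_lt (Real.exp_pos s).le, Nat.le_floor_iff (Real.exp_pos t).le]
  tauto

theorem mem_PR_log {s t : ℝ} {p : ℕ} (hp : p.Prime) : p ∈ PR s t ↔ s < Real.log p ∧ Real.log p ≤ t := by
  have h0 : (0 : ℝ) < p := by exact_mod_cast hp.pos
  rw [mem_PR, Real.lt_log_iff_exp_lt h0, Real.log_le_iff_le_exp h0]
  tauto

open Classical in
/-- the class of `p` -/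
noncomputable def cls (Q p : ℕ) : (ZMod Q)ˣ := if h : p.Coprime Q then ZMod.unitOfCoprime p h else 1

theorem cls_iff {Q p : ℕ} [NeZero Q] (h : p.Coprime Q) (c : (ZMod Q)ˣ) :
    cls Q p = c ↔ p ≡ (c : ZMod Q).val [MOD Q] := by
  unfold cls
  rw [dif_pos h, Units.ext_iff, ZMod.coe_unitOfCoprime, ← ZMod.natCast_eq_natCast_iff,
    ZMod.natCast_zmod_val]

/-- the number of primes in an interval and a class, logarithmic weights -/
theorem theta_int (k : ℕ) : ∃ C : ℝ, 1 ≤ C ∧ ∀ (Q a : ℕ), 1 ≤ Q → a.Coprime Q → ∀ s t : ℝ, 1 ≤ s → s ≤ t →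
    |∑ p ∈ (PR s t).filter (fun p => p ≡ a [MOD Q]), Real.log p -
      (Real.exp t - Real.exp s) / Q.totient| ≤ C * Q * Real.exp t / s ^ k := by
  obtain ⟨C, hC, h⟩ := Pool.Agent.Lib.SW.theta_ap k 1 one_pos
  refine ⟨2 * C + 1, by linarith, ?_⟩
  intro Q a hQ ha s t hs hst
  have hes : (2 : ℝ) ≤ Real.exp s := by
    have := Real.add_one_le_exp s
    linarith
  have het : Real.exp s ≤ Real.exp t := Real.exp_le_exp.mpr hst
  have h1 := h Q a hQ ha (Real.exp s) hes
  have h2 := h Q a hQ ha (Real.exp t) (hes.trans het)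
  rw [Real.log_exp, Real.rpow_one] at h1 h2
  have hfl : ⌊Real.exp s⌋₊ ≤ ⌊Real.exp t⌋₊ := Nat.floor_le_floor het
  have hsplit : ∑ n ∈ (Finset.Icc 1 ⌊Real.exp t⌋₊).filter (fun n => n.Prime ∧ n ≡ a [MOD Q]), Real.log n =
      ∑ n ∈ (Finset.Icc 1 ⌊Real.exp s⌋₊).filter (fun n => n.Prime ∧ n ≡ a [MOD Q]), Real.log n +
      ∑ p ∈ (PR s t).filter (fun p => p ≡ a [MOD Q]), Real.log p := by
    rw [← sum_union]
    · refine sum_congr ?_ fun _ _ => rfl
      ext p
      unfold PR
      simp only [mem_union, mem_filter, mem_Icc, mem_Ioc]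
      constructor
      · rintro ⟨⟨h3, h4⟩, h5, h6⟩
        rcases Nat.lt_or_ge ⌊Real.exp s⌋₊ p with h7 | h7
        · exact Or.inr ⟨⟨⟨h7, h4⟩, h5⟩, h6⟩
        · exact Or.inl ⟨⟨h3, h7⟩, h5, h6⟩
      · rintro (⟨⟨h3, h4⟩, h5, h6⟩ | ⟨⟨⟨h3, h4⟩, h5⟩, h6⟩)
        · exact ⟨⟨h3, h4.trans hfl⟩, h5, h6⟩
        · exact ⟨⟨h5.one_lt.le, h4⟩, h5, h6⟩
    · rw [disjoint_left]
      intro p h3 h4
      unfold PR at h4
      simp only [mem_filter, mem_Icc, mem_Ioc] at h3 h4
      omega
  rw [hsplit] at h2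
  have hQ0 : (0 : ℝ) ≤ Q := Nat.cast_nonneg _
  have hs0 : 0 < s := by linarith
  have ht0 : 0 < t := by linarith
  have h3 : C * Q * Real.exp s / s ^ k ≤ C * Q * Real.exp t / s ^ k := by
    refine div_le_div_of_nonneg_right ?_ (by positivity)
    exact mul_le_mul_of_nonneg_left het (by positivity)
  have h4 : C * Q * Real.exp t / t ^ k ≤ C * Q * Real.exp t / s ^ k := by
    refine div_le_div_of_nonneg_left (by positivity) (by positivity) ?_
    exact pow_le_pow_left₀ hs0.le hst k
  have h5 : 0 ≤ Q * Real.exp t / s ^ k := by positivity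
  have h6 : (2 * C + 1) * Q * Real.exp t / s ^ k = 2 * (C * Q * Real.exp t / s ^ k) +
      Q * Real.exp t / s ^ k := by ring
  rw [h6]
  have h7 := abs_le.mp h1
  have h8 := abs_le.mp h2
  rw [abs_le, sub_div]
  constructor <;> linarith [h7.1, h7.2, h8.1, h8.2]

theorem exp_sub_one_le {δ : ℝ} (h0 : 0 ≤ δ) (h1 : δ ≤ 1) : Real.exp (3 * δ) - 1 ≤ 20 * δ := by
  -- convexity: `exp (3 δ) ≤ 1 + δ (e^3 - 1)`
  have h2 : Real.exp (3 * δ) ≤ (1 - δ) * Real.exp 0 + δ * Real.exp 3 := by
    have := convexOn_exp.2 (Set.mem_univ 0) (Set.mem_univ 3) (show 0 ≤ 1 - δ by linarith) h0 (by ring)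
    simp only [smul_eq_mul, mul_zero, zero_add] at this
    rwa [mul_comm δ 3] at this
  have h3 : Real.exp 3 ≤ 21 := by
    have h4 : Real.exp 3 = Real.exp 1 ^ 3 := by
      rw [← Real.exp_nat_mul]
      norm_num
    rw [h4]
    have h5 := Real.exp_one_lt_d9
    have h6 : Real.exp 1 ^ 3 ≤ 2.7182818286 ^ 3 := pow_le_pow_left₀ (Real.exp_pos 1).le h5.le 3
    refine h6.trans ?_
    norm_num
  rw [Real.exp_zero] at h2
  nlinarith

/-- upper bound for the mass of a cell -/
theorem cell_up (k : ℕ) : ∃ C : ℝ, 1 ≤ C ∧ ∀ Q : ℕ, 1 ≤ Q → ∀ u δ : ℝ, 16 ≤ u → 0 < δ → δ ≤ 1 →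
    (Q : ℝ) ≤ Real.exp (u / 2) → C * (Q : ℝ) ^ 2 * (4 / u) ^ k ≤ δ → ∀ (v : ℝ) (c : (ZMod Q)ˣ),
    ∑ p ∈ PR (u / 2) u, 1 / ((p : ℝ) + 1) * ind (|v - Real.log (p : ℝ)| ≤ δ ∧ cls Q p = c) ≤
      42 * δ / (Q.totient * u) := by
  classical
  obtain ⟨C, hC, h⟩ := theta_int k
  refine ⟨21 * C, by linarith, ?_⟩
  intro Q hQ u δ hu hδ hδ1 hQu hsmall v c
  haveI : NeZero Q := ⟨by omega⟩
  have hφ : (0 : ℝ) < Q.totient := by exact_mod_cast Nat.totient_pos.mpr hQ
  have hφQ : (Q.totient : ℝ) ≤ Q := by exact_mod_cast Nat.totient_le Q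
  have hu0 : (0 : ℝ) < u := by linarith
  have hQ0 : (1 : ℝ) ≤ Q := by exact_mod_cast hQ
  rcases lt_or_ge (v + δ) (u / 2) with hv | hv
  · -- no prime
    have : ∑ p ∈ PR (u / 2) u, 1 / ((p : ℝ) + 1) * ind (|v - Real.log (p : ℝ)| ≤ δ ∧ cls Q p = c) = 0 := by
      refine sum_eq_zero fun p hp => ?_
      have hpp := (mem_PR.mp hp).1
      have h1 := ((mem_PR_log hpp).mp hp).1
      rw [ind_false, mul_zero]
      rintro ⟨h2, -⟩
      have := abs_le.mp h2
      linarith [this.1]
    rw [this]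
    positivity
  · set s := v - 2 * δ with hs
    set t := v + δ with ht
    have hs1 : u / 4 ≤ s := by linarith
    have hs1' : 1 ≤ s := by linarith
    have hst : s ≤ t := by linarith
    have hcop : (c : ZMod Q).val.Coprime Q := ZMod.val_coe_unit_coprime c
    have h1 := h Q _ hQ hcop s t hs1' hst
    have hes := Real.exp_pos s
    -- termwise
    have hterm : ∑ p ∈ PR (u / 2) u, 1 / ((p : ℝ) + 1) * ind (|v - Real.log (p : ℝ)| ≤ δ ∧ cls Q p = c) ≤
        ∑ p ∈ (PR s t).filter (fun p => p ≡ (c : ZMod Q).val [MOD Q]),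
          Real.log p * (2 / (u * Real.exp s)) := by
      have h2 : ∑ p ∈ PR (u / 2) u, 1 / ((p : ℝ) + 1) * ind (|v - Real.log (p : ℝ)| ≤ δ ∧ cls Q p = c) =
          ∑ p ∈ (PR (u / 2) u).filter (fun p : ℕ => |v - Real.log p| ≤ δ ∧ cls Q p = c),
            1 / ((p : ℝ) + 1) := by
        rw [sum_filter]
        refine sum_congr rfl fun p _ => ?_
        unfold ind
        split_ifs <;> ring
      rw [h2]
      have h3 : (PR (u / 2) u).filter (fun p : ℕ => |v - Real.log p| ≤ δ ∧ cls Q p = c) ⊆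
          (PR s t).filter (fun p => p ≡ (c : ZMod Q).val [MOD Q]) := by
        intro p hp
        obtain ⟨hp1, hp2, hp3⟩ := mem_filter.mp hp
        obtain ⟨hpp, hp4, hp5⟩ := mem_PR.mp hp1
        have hp6 := abs_le.mp hp2
        rw [mem_filter, mem_PR_log hpp]
        refine ⟨⟨by linarith [hp6.1, hp6.2], by linarith [hp6.1, hp6.2]⟩, ?_⟩
        have hcp : p.Coprime Q := by
          rw [Nat.Prime.coprime_iff_not_dvd hpp]
          intro hd
          have h4 := Nat.le_of_dvd (by omega) hd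
          have h5 : (p : ℝ) ≤ Q := by exact_mod_cast h4
          linarith
        exact (cls_iff hcp c).mp hp3
      have h4 : ∑ p ∈ (PR (u / 2) u).filter (fun p : ℕ => |v - Real.log p| ≤ δ ∧ cls Q p = c),
            1 / ((p : ℝ) + 1) ≤ ∑ p ∈ (PR (u / 2) u).filter (fun p : ℕ => |v - Real.log p| ≤ δ ∧ cls Q p = c),
            Real.log p * (2 / (u * Real.exp s)) := by
        refine sum_le_sum fun p hp => ?_
        obtain ⟨hp1, hp2, hp3⟩ := mem_filter.mp hp
        have hpp := (mem_PR.mp hp1).1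
        have hp4 := ((mem_PR_log hpp).mp hp1).1
        have hp6 := abs_le.mp hp2
        have hp0 : (0 : ℝ) < p := by exact_mod_cast hpp.pos
        have hp7 : Real.exp s ≤ p := by
          rw [← Real.le_log_iff_exp_le hp0]
          linarith [hp6.1, hp6.2]
        have hlp : 0 < Real.log p := by linarith
        calc 1 / ((p : ℝ) + 1) ≤ 1 / Real.exp s :=
              one_div_le_one_div_of_le hes (by linarith)
          _ = (u / 2) * (2 / (u * Real.exp s)) := by field_simp
          _ ≤ Real.log p * (2 / (u * Real.exp s)) :=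
              mul_le_mul_of_nonneg_right hp4.le (by positivity)
      refine h4.trans (sum_le_sum_of_subset_of_nonneg h3 fun p hp _ => ?_)
      have hpp := (mem_PR.mp (mem_filter.mp hp).1).1
      have : 0 ≤ Real.log p := Real.log_nonneg (by exact_mod_cast hpp.one_lt.le)
      positivity
    refine hterm.trans ?_
    rw [← sum_mul]
    have h2 := (abs_le.mp h1).2
    have h3 : Real.exp t = Real.exp s * Real.exp (3 * δ) := by
      rw [← Real.exp_add]
      congr 1
      rw [ht, hs]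
      ring
    have h4 := exp_sub_one_le hδ.le hδ1
    have h5 : Real.exp t - Real.exp s ≤ Real.exp s * (20 * δ) := by
      rw [h3]
      nlinarith
    have h6 : Real.exp t ≤ 21 * Real.exp s := by
      rw [h3]
      nlinarith
    have h7 : C * Q * Real.exp t / s ^ k ≤ Real.exp s * (δ / Q.totient) := by
      have h8 : (1 : ℝ) / s ^ k ≤ (4 / u) ^ k := by
        rw [← one_div_pow]
        refine pow_le_pow_left₀ (by positivity) ?_ k
        rw [div_le_div_iff₀ (by linarith) hu0]
        linarith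
      calc C * Q * Real.exp t / s ^ k = C * Q * Real.exp t * (1 / s ^ k) := by ring
        _ ≤ C * Q * (21 * Real.exp s) * (4 / u) ^ k := by
            refine mul_le_mul (mul_le_mul_of_nonneg_left h6 (by positivity)) h8 (by positivity)
              (by positivity)
        _ = Real.exp s * ((21 * C * (Q : ℝ) ^ 2 * (4 / u) ^ k) / Q) := by field_simp
        _ ≤ Real.exp s * (δ / Q) := by
            refine mul_le_mul_of_nonneg_left ?_ hes.le
            exact div_le_div_of_nonneg_right hsmall (by linarith)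
        _ ≤ Real.exp s * (δ / Q.totient) := by
            refine mul_le_mul_of_nonneg_left ?_ hes.le
            exact div_le_div_of_nonneg_left hδ.le hφ hφQ
    have h9 : ∑ p ∈ (PR s t).filter (fun p => p ≡ (c : ZMod Q).val [MOD Q]), Real.log p ≤
        Real.exp s * (21 * δ / Q.totient) := by
      have h10 : (Real.exp t - Real.exp s) / Q.totient ≤ Real.exp s * (20 * δ) / Q.totient :=
        div_le_div_of_nonneg_right h5 hφ.le
      have h11 : Real.exp s * (21 * δ / Q.totient) = Real.exp s * (20 * δ) / Q.totient +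
          Real.exp s * (δ / Q.totient) := by ring
      rw [h11]
      linarith
    calc (∑ p ∈ (PR s t).filter (fun p => p ≡ (c : ZMod Q).val [MOD Q]), Real.log p) *
          (2 / (u * Real.exp s)) ≤ (Real.exp s * (21 * δ / Q.totient)) * (2 / (u * Real.exp s)) :=
          mul_le_mul_of_nonneg_right h9 (by positivity)
      _ = 42 * δ / (Q.totient * u) := by
          field_simp
          ring

/-- lower bound for the mass of a cell -/
theorem cell_low (k : ℕ) : ∃ C : ℝ, 1 ≤ C ∧ ∀ Q : ℕ, 1 ≤ Q → ∀ u u' t δ : ℝ, 1 ≤ u → u ≤ t → t + δ ≤ u' →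
    0 < δ → δ ≤ 1 → (Q : ℝ) ≤ Real.exp u → C * (Q : ℝ) ^ 2 / u ^ k ≤ δ → ∀ (c : (ZMod Q)ˣ),
    δ / (32 * Q.totient * t) ≤
      ∑ p ∈ PR u u', 1 / ((p : ℝ) + 1) * ind (t < Real.log p ∧ Real.log p < t + δ ∧ cls Q p = c) := by
  classical
  obtain ⟨C, hC, h⟩ := theta_int k
  refine ⟨12 * C, by linarith, ?_⟩
  intro Q hQ u u' t δ hu hut htu' hδ hδ1 hQu hsmall c
  haveI : NeZero Q := ⟨by omega⟩
  have hφ : (0 : ℝ) < Q.totient := by exact_mod_cast Nat.totient_pos.mpr hQ
  have hφQ : (Q.totient : ℝ) ≤ Q := by exact_mod_cast Nat.totient_le Q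
  have hu0 : (0 : ℝ) < u := by linarith
  have ht0 : (0 : ℝ) < t := by linarith
  have hQ0 : (1 : ℝ) ≤ Q := by exact_mod_cast hQ
  set t' := t + δ / 2 with ht'
  have hcop : (c : ZMod Q).val.Coprime Q := ZMod.val_coe_unit_coprime c
  have h1 := h Q _ hQ hcop t t' (by linarith) (by linarith)
  have het := Real.exp_pos t
  have hterm : ∑ p ∈ (PR t t').filter (fun p => p ≡ (c : ZMod Q).val [MOD Q]),
        Real.log p * (1 / (8 * t * Real.exp t)) ≤
      ∑ p ∈ PR u u', 1 / ((p : ℝ) + 1) * ind (t < Real.log p ∧ Real.log p < t + δ ∧ cls Q p = c) := by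
    have h2 : ∑ p ∈ PR u u', 1 / ((p : ℝ) + 1) *
        ind (t < Real.log p ∧ Real.log p < t + δ ∧ cls Q p = c) =
        ∑ p ∈ (PR u u').filter (fun p : ℕ => t < Real.log p ∧ Real.log p < t + δ ∧ cls Q p = c),
          1 / ((p : ℝ) + 1) := by
      rw [sum_filter]
      refine sum_congr rfl fun p _ => ?_
      unfold ind
      split_ifs <;> ring
    rw [h2]
    have h3 : (PR t t').filter (fun p => p ≡ (c : ZMod Q).val [MOD Q]) ⊆
        (PR u u').filter (fun p : ℕ => t < Real.log p ∧ Real.log p < t + δ ∧ cls Q p = c) := by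
      intro p hp
      obtain ⟨hp1, hp2⟩ := mem_filter.mp hp
      have hpp := (mem_PR.mp hp1).1
      obtain ⟨hp3, hp4⟩ := (mem_PR_log hpp).mp hp1
      rw [mem_filter, mem_PR_log hpp]
      refine ⟨⟨by linarith, by linarith⟩, hp3, by linarith, ?_⟩
      have hcp : p.Coprime Q := by
        rw [Nat.Prime.coprime_iff_not_dvd hpp]
        intro hd
        have h4 := Nat.le_of_dvd (by omega) hd
        have h5 : (p : ℝ) ≤ Q := by exact_mod_cast h4
        have h6 : Real.exp u < p := by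
          rw [← Real.lt_log_iff_exp_lt (by exact_mod_cast hpp.pos)]
          linarith
        linarith
      exact (cls_iff hcp c).mpr hp2
    have h4 : ∑ p ∈ (PR t t').filter (fun p => p ≡ (c : ZMod Q).val [MOD Q]),
        Real.log p * (1 / (8 * t * Real.exp t)) ≤
        ∑ p ∈ (PR t t').filter (fun p => p ≡ (c : ZMod Q).val [MOD Q]), 1 / ((p : ℝ) + 1) := by
      refine sum_le_sum fun p hp => ?_
      have hp1 := (mem_filter.mp hp).1
      obtain ⟨hpp, hp5, hp6⟩ := mem_PR.mp hp1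
      obtain ⟨hp3, hp4⟩ := (mem_PR_log hpp).mp hp1
      have hp0 : (1 : ℝ) ≤ p := by exact_mod_cast hpp.one_lt.le
      have h7 : Real.exp t' ≤ 2 * Real.exp t := by
        rw [ht', Real.exp_add, mul_comm]
        refine mul_le_mul_of_nonneg_right ?_ het.le
        have h8 : Real.exp (δ / 2) ≤ Real.exp (1 / 2) := Real.exp_le_exp.mpr (by linarith)
        have h9 : Real.exp (1 / 2) ≤ 2 := by
          have h10 : Real.exp (1 / 2) ^ 2 = Real.exp 1 := by
            rw [← Real.exp_nat_mul]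
            norm_num
          have h11 := Real.exp_one_lt_d9
          have h12 := Real.exp_pos (1 / 2)
          nlinarith
        linarith
      have h8 : (p : ℝ) + 1 ≤ 4 * Real.exp t := by linarith
      have h9 : Real.log p ≤ 2 * t := by linarith
      have h10 : 0 ≤ Real.log p := by linarith
      calc Real.log p * (1 / (8 * t * Real.exp t)) ≤ (2 * t) * (1 / (8 * t * Real.exp t)) :=
            mul_le_mul_of_nonneg_right h9 (by positivity)
        _ = 1 / (4 * Real.exp t) := by field_simp; ring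
        _ ≤ 1 / ((p : ℝ) + 1) := one_div_le_one_div_of_le (by linarith) h8
    exact h4.trans (sum_le_sum_of_subset_of_nonneg h3 fun p _ _ => by positivity)
  refine le_trans ?_ hterm
  rw [← sum_mul]
  have h2 := (abs_le.mp h1).1
  have h3 : Real.exp t' = Real.exp t * Real.exp (δ / 2) := by
    rw [← Real.exp_add]
  have h4 : 1 + δ / 2 ≤ Real.exp (δ / 2) := by
    have := Real.add_one_le_exp (δ / 2)
    linarith
  have h5 : Real.exp t * (δ / 2) ≤ Real.exp t' - Real.exp t := by
    rw [h3]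
    nlinarith
  have h6 : Real.exp t' ≤ 3 * Real.exp t := by
    rw [h3, mul_comm]
    refine mul_le_mul_of_nonneg_right ?_ het.le
    have h8 : Real.exp (δ / 2) ≤ Real.exp 1 := Real.exp_le_exp.mpr (by linarith)
    have h9 := Real.exp_one_lt_d9
    linarith
  have h7 : C * Q * Real.exp t' / t ^ k ≤ Real.exp t * (δ / (4 * Q.totient)) := by
    have h8 : (1 : ℝ) / t ^ k ≤ 1 / u ^ k :=
      one_div_le_one_div_of_le (by positivity) (pow_le_pow_left₀ hu0.le hut k)
    calc C * Q * Real.exp t' / t ^ k = C * Q * Real.exp t' * (1 / t ^ k) := by ring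
      _ ≤ C * Q * (3 * Real.exp t) * (1 / u ^ k) := by
          refine mul_le_mul (mul_le_mul_of_nonneg_left h6 (by positivity)) h8 (by positivity)
            (by positivity)
      _ = Real.exp t * ((12 * C * (Q : ℝ) ^ 2 / u ^ k) / (4 * Q)) := by field_simp; ring
      _ ≤ Real.exp t * (δ / (4 * Q)) := by
          refine mul_le_mul_of_nonneg_left ?_ het.le
          exact div_le_div_of_nonneg_right hsmall (by linarith)
      _ ≤ Real.exp t * (δ / (4 * Q.totient)) := by
          refine mul_le_mul_of_nonneg_left ?_ het.le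
          exact div_le_div_of_nonneg_left hδ.le (by linarith) (by linarith)
  have h9 : Real.exp t * (δ / (4 * Q.totient)) ≤
      ∑ p ∈ (PR t t').filter (fun p => p ≡ (c : ZMod Q).val [MOD Q]), Real.log p := by
    have h10 : Real.exp t * (δ / 2) / Q.totient ≤ (Real.exp t' - Real.exp t) / Q.totient :=
      div_le_div_of_nonneg_right h5 hφ.le
    have h11 : Real.exp t * (δ / 2) / Q.totient = Real.exp t * (δ / (4 * Q.totient)) +
        Real.exp t * (δ / (4 * Q.totient)) := by ring
    rw [h11] at h10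
    linarith
  calc δ / (32 * Q.totient * t) = (Real.exp t * (δ / (4 * Q.totient))) * (1 / (8 * t * Real.exp t)) := by
        field_simp
        ring
    _ ≤ _ := mul_le_mul_of_nonneg_right h9 (by positivity)

end Pool.Agent.Lib.OW
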