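import Pool.Agent.Lib.MP_7b7e48_nt.OW.ODefs

/-!
# Module NumW (20 minutes): numerical facts for large N

With `K = log N`: `tJ N = ⌊K^(1/2000)⌋ → ∞`; `p ∈ RP N` gives `p > exp (K^(1/1000))`, larger than `4 K^(1/2000) W²`, and
`p ≤ exp (K^(1/50))`, so `p² ≤ exp (2 K^(1/50)) ≤ N`; `LL N ^ 30 ≤ exp (30 K^(1/40)) ≤ N`; `4 tJ N W ≤ LL N`. `num_pow`: every fixed power
of `K` is at most `LL N` (it is enough to use `Real.exp (K^(1/40)) - 1 < LL N`).
-/

set_option autoImplicit false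

open Finset
open Pool.Agent.Lib.MP_45349e_nt.LS (lam)

namespace Pool.Agent.Lib.OW

/-- numerical facts which hold for all large `N` -/
structure Num (W N : ℕ) : Prop where
  N3 : 3 ≤ N
  J1 : 1 ≤ tJ N
  R : ∀ p ∈ RP N, 4 * tJ N * W * W < p
  RN : ∀ p ∈ RP N, p * p ≤ N
  LLN : LL N ^ 30 ≤ N
  JL : 4 * tJ N * W ≤ LL N

private theorem numW_exp (a b c : ℝ) (hb : 0 < b) :
    ∀ᶠ K : ℝ in Filter.atTop, c * K ^ a ≤ Real.exp (K ^ b) := by
  have hε : (0 : ℝ) < 1 / (|c| + 1) := by positivity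
  have h1 := (tendsto_rpow_mul_exp_neg_mul_atTop_nhds_zero (a / b) 1 one_pos).eventually
    (ge_mem_nhds hε)
  have h2 := (tendsto_rpow_atTop hb).eventually h1
  filter_upwards [h2, Filter.eventually_gt_atTop (0 : ℝ)] with K hK hK0
  have e1 : (K ^ b) ^ (a / b) = K ^ a := by
    rw [← Real.rpow_mul hK0.le, mul_div_cancel₀ _ hb.ne']
  rw [e1, neg_one_mul, Real.exp_neg] at hK
  have he := Real.exp_pos (K ^ b)
  have hKa : 0 ≤ K ^ a := Real.rpow_nonneg hK0.le a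
  have h3 : (|c| + 1) * K ^ a ≤ Real.exp (K ^ b) := by
    rw [← div_eq_mul_inv, div_le_div_iff₀ he (by positivity)] at hK
    linarith
  have h4 : c ≤ |c| + 1 := by
    have := le_abs_self c
    linarith
  exact (mul_le_mul_of_nonneg_right h4 hKa).trans h3

private theorem numW_pow (a c : ℝ) (ha : a < 1) :
    ∀ᶠ K : ℝ in Filter.atTop, c * K ^ a ≤ K := by
  have h1 := (tendsto_rpow_atTop (show 0 < 1 - a by linarith)).eventually_ge_atTop c
  filter_upwards [h1, Filter.eventually_gt_atTop (0 : ℝ)] with K hK hK0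
  have e1 : K ^ (1 - a) * K ^ a = K := by
    rw [← Real.rpow_add hK0]
    norm_num
  calc c * K ^ a ≤ K ^ (1 - a) * K ^ a := mul_le_mul_of_nonneg_right hK (Real.rpow_nonneg hK0.le a)
    _ = K := e1

private theorem numW_ev {P : ℝ → Prop} (h : ∀ᶠ K : ℝ in Filter.atTop, P K) :
    ∀ᶠ N : ℕ in Filter.atTop, P (Real.log N) :=
  (Real.tendsto_log_atTop.comp tendsto_natCast_atTop_atTop).eventually h

theorem num (W : ℕ) : ∃ N0 : ℕ, ∀ N : ℕ, N0 ≤ N → Num W N := by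
  rw [← Filter.eventually_atTop]
  have e1 := numW_ev (numW_exp (1 / 2000) (1 / 1000) (4 * W * W) (by norm_num))
  have e2 := numW_ev (numW_pow (1 / 50) 2 (by norm_num))
  have e3 := numW_ev (numW_pow (1 / 40) 30 (by norm_num))
  have e4 := numW_ev (numW_exp (1 / 2000) (1 / 40) (4 * W + 1) (by norm_num))
  have e5 := numW_ev (Filter.eventually_ge_atTop (1 : ℝ))
  filter_upwards [e1, e2, e3, e4, e5, Filter.eventually_ge_atTop 3] with N h1 h2 h3 h4 h5 h6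
  set K := Real.log N with hK
  have hN0 : (0 : ℝ) < N := by exact_mod_cast (by omega : 0 < N)
  have hNK : (N : ℝ) = Real.exp K := (Real.exp_log hN0).symm
  have hKJ : (tJ N : ℝ) ≤ K ^ ((1 : ℝ) / 2000) :=
    Nat.floor_le (Real.rpow_nonneg (by linarith) _)
  have hKJ0 : 1 ≤ K ^ ((1 : ℝ) / 2000) := Real.one_le_rpow h5 (by norm_num)
  refine ⟨h6, ?_, ?_, ?_, ?_, ?_⟩
  · exact Nat.le_floor (by exact_mod_cast hKJ0)
  · intro p hp
    obtain ⟨-, hp1, -⟩ := mem_PR.1 hp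
    have h7 : ((4 * tJ N * W * W : ℕ) : ℝ) < (p : ℝ) := by
      push_cast
      calc 4 * (tJ N : ℝ) * W * W = 4 * W * W * (tJ N : ℝ) := by ring
        _ ≤ 4 * W * W * K ^ ((1 : ℝ) / 2000) := mul_le_mul_of_nonneg_left hKJ (by positivity)
        _ ≤ Real.exp (K ^ ((1 : ℝ) / 1000)) := h1
        _ < p := hp1
    exact_mod_cast h7
  · intro p hp
    obtain ⟨-, -, hp2⟩ := mem_PR.1 hp
    have h7 : ((p * p : ℕ) : ℝ) ≤ (N : ℝ) := by
      push_cast
      have hp0 : (0 : ℝ) ≤ p := Nat.cast_nonneg _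
      calc (p : ℝ) * p ≤ Real.exp (K ^ ((1 : ℝ) / 50)) * Real.exp (K ^ ((1 : ℝ) / 50)) :=
            mul_le_mul hp2 hp2 hp0 (Real.exp_pos _).le
        _ = Real.exp (2 * K ^ ((1 : ℝ) / 50)) := by rw [← Real.exp_add]; congr 1; ring
        _ ≤ Real.exp K := Real.exp_le_exp.mpr h2
        _ = N := hNK.symm
    exact_mod_cast h7
  · have h7 : ((LL N ^ 30 : ℕ) : ℝ) ≤ (N : ℝ) := by
      push_cast
      have h8 : (LL N : ℝ) ≤ Real.exp (K ^ ((1 : ℝ) / 40)) := Nat.floor_le (Real.exp_pos _).le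
      calc (LL N : ℝ) ^ 30 ≤ (Real.exp (K ^ ((1 : ℝ) / 40))) ^ 30 :=
            pow_le_pow_left₀ (Nat.cast_nonneg _) h8 30
        _ = Real.exp (30 * K ^ ((1 : ℝ) / 40)) := by
            rw [← Real.exp_nat_mul]
            norm_num
        _ ≤ Real.exp K := Real.exp_le_exp.mpr h3
        _ = N := hNK.symm
    exact_mod_cast h7
  · refine Nat.le_floor ?_
    push_cast
    calc 4 * (tJ N : ℝ) * W = 4 * W * (tJ N : ℝ) := by ring
      _ ≤ 4 * W * K ^ ((1 : ℝ) / 2000) := mul_le_mul_of_nonneg_left hKJ (by positivity)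
      _ ≤ (4 * W + 1) * K ^ ((1 : ℝ) / 2000) :=
          mul_le_mul_of_nonneg_right (by linarith) (by linarith)
      _ ≤ Real.exp (K ^ ((1 : ℝ) / 40)) := h4

theorem num_pow (C : ℝ) : ∃ N0 : ℕ, ∀ N : ℕ, N0 ≤ N → (Real.log N) ^ C ≤ LL N := by
  rw [← Filter.eventually_atTop]
  have e1 := numW_ev (numW_exp C (1 / 40) 2 (by norm_num))
  have e2 := numW_ev (numW_exp 0 (1 / 40) 2 (by norm_num))
  filter_upwards [e1, e2] with N h1 h2
  rw [Real.rpow_zero] at h2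
  have h3 : Real.exp ((Real.log N) ^ ((1 : ℝ) / 40)) < LL N + 1 := Nat.lt_floor_add_one _
  linarith

/-- the tiny parameter tends to infinity like a power of `log N` -/
theorem tJ_low : ∃ N0 : ℕ, ∀ N : ℕ, N0 ≤ N → (Real.log N) ^ ((1 : ℝ) / 4000) ≤ Nat.sqrt (tJ N) + 1 ∧
    (tJ N : ℝ) ≤ (Real.log N) ^ ((1 : ℝ) / 2000) := by
  rw [← Filter.eventually_atTop]
  have e5 := numW_ev (Filter.eventually_ge_atTop (1 : ℝ))
  filter_upwards [e5] with N h5
  set K := Real.log N with hK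
  have hK0 : 0 ≤ K := by linarith
  refine ⟨?_, Nat.floor_le (Real.rpow_nonneg hK0 _)⟩
  have h1 : K ^ ((1 : ℝ) / 2000) < tJ N + 1 := Nat.lt_floor_add_one _
  have h2 : tJ N + 1 ≤ (Nat.sqrt (tJ N) + 1) ^ 2 := Nat.lt_succ_sqrt' (tJ N)
  have h3 : ((tJ N : ℝ)) + 1 ≤ ((Nat.sqrt (tJ N) : ℝ) + 1) ^ 2 := by exact_mod_cast h2
  have h4 : (K ^ ((1 : ℝ) / 4000)) ^ 2 = K ^ ((1 : ℝ) / 2000) := by
    rw [← Real.rpow_natCast, ← Real.rpow_mul hK0]
    norm_num
  have h5 : (K ^ ((1 : ℝ) / 4000)) ^ 2 ≤ ((Nat.sqrt (tJ N) : ℝ) + 1) ^ 2 := by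
    rw [h4]
    linarith
  exact (sq_le_sq₀ (Real.rpow_nonneg hK0 _) (by positivity)).mp h5

end Pool.Agent.Lib.OW
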