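import Pool.Agent.Lib.MP_7b7e48_nt.OW.MTH
import Pool.Agent.Lib.MP_7b7e48_nt.RG.Defs

/-!
# Goldbach with prescribed Liouville signs, both summands without small prime factors: definitions

Paper proof: `/team-store/OW_V1.md`. `W` is the product of the primes `≤ w`, `N` has at most one prime factor outside `W` (and this
one is `> √N`), `a` is a residue class modulo `W` such that `a` and `N - a` are coprime to `W`. All congruence classes are taken
modulo `W N`. `lam` is the (real valued) Liouville function.
-/

set_option autoImplicit false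

open Finset
open Pool.Agent.Lib.MP_45349e_nt.LS (lam)

namespace Pool.Agent.Lib.OW

/-- the configuration -/
structure Cfg (W N a : ℕ) : Prop where
  W1 : 1 ≤ W
  alt : a < W
  WN : W ≤ N
  aW : a.Coprime W
  naW : (N - a).Coprime W
  big : ∀ p : ℕ, p.Prime → p ∣ N → ¬ p ∣ W → N < p * p

/-- the size of the tiny primes -/
noncomputable def tJ (N : ℕ) : ℕ := ⌊(Real.log N) ^ ((1 : ℝ) / 2000)⌋₊

/-- the primes which compose the links -/
noncomputable def RP (N : ℕ) : Finset ℕ := PR ((Real.log N) ^ ((1 : ℝ) / 1000)) ((Real.log N) ^ ((1 : ℝ) / 50))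

/-- bound for the two numbers of a link -/
noncomputable def LL (N : ℕ) : ℕ := ⌊Real.exp ((Real.log N) ^ ((1 : ℝ) / 40))⌋₊

/-- the residues modulo `W N` in the class `a` modulo `W` which are coprime to `N` -/
def UU (W N a : ℕ) : Finset ℕ := (Finset.range (W * N)).filter fun x => x % W = a % W ∧ x.Coprime N

/-- the numbers `n < N` in the class `a` modulo `W`, coprime to `N`, for which the rule `λ(N - n) = κ λ(n)` fails -/
noncomputable def EE (W N a : ℕ) (κ : ℝ) : Finset ℕ :=
  open Classical in (Finset.range N).filter fun n => n % W = a % W ∧ n.Coprime N ∧ lam (N - n) ≠ κ * lam n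

/-- `(α, β, D, e)` is a link of `X` and `Y = X - D N` -/
structure LD (W N X Y α β D e : ℕ) : Prop where
  XY : X = Y + D * N
  WD : W ∣ D
  D0 : 0 < D
  dX : α ∣ X
  dY : β ∣ Y
  sa : Squarefree α
  sb : Squarefree β
  cop : α.Coprime β
  pr : ∀ p : ℕ, p.Prime → p ∣ α * β → p ∈ RP N
  b0 : 0 < β
  e0 : 0 < e
  ab : α = β + D * e
  eW : e % W = β % W
  two : α < 2 * β
  ll : α ≤ LL N

/-- `X` and `Y` are linked -/
def Lk (W N X Y : ℕ) : Prop := ∃ α β D e : ℕ, LD W N X Y α β D e

/-- the classes `z` which have a link (with `D ≤ 2 J W`) that meets the exceptional set `E` -/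
noncomputable def Aff (W N a : ℕ) (E : Finset ℕ) : Finset ℕ :=
  open Classical in (UU W N a).filter fun z => ∃ X α β D e : ℕ, LD W N X z α β D e ∧ D ≤ 2 * tJ N * W ∧
    (e * (X / α) ∈ E ∨ e * (z / β) ∈ E)

/-- the multiplication by `A` on the classes modulo `W N` -/
def mr (W N A x : ℕ) : ℕ := (A * x) % (W * N)

/-- the number of divisors which occur in links -/
noncomputable def inc (N n : ℕ) : ℕ :=
  (n.divisors.filter fun e => e ≤ LL N).card *
    (open Classical in (N - n).divisors.filter fun d => d ≤ LL N ∧ Squarefree d ∧ ∀ p : ℕ, p.Prime → p ∣ d → p ∈ RP N).card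

/-- disjoint sets of `T` tiny primes in the class `1` modulo `W` -/
structure Tiny (W N s T : ℕ) (TT : Fin s → Finset ℕ) : Prop where
  pr : ∀ t, ∀ m ∈ TT t, m.Prime ∧ tJ N < m ∧ m ≤ 2 * tJ N ∧ m % W = 1 % W
  card : ∀ t, (TT t).card = T
  disj : ∀ t t', t ≠ t' → Disjoint (TT t) (TT t')

/-- the product of the first `i` entries of a tuple -/
def pp {s : ℕ} (m : Fin s → ℕ) (i : ℕ) : ℕ := ∏ t ∈ (Finset.univ : Finset (Fin s)).filter (fun t => t.val < i), m t

/-- multiplication by `M` sends `u` to the first `l`-th part of the interval -/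
def Land (W N l M u : ℕ) : Prop := l * mr W N M u < W * N

/-- the number of tuples which send `u` to the first `l`-th part -/
noncomputable def NL (W N l : ℕ) {s : ℕ} (TT : Fin s → Finset ℕ) (u : ℕ) : ℕ :=
  (open Classical in (Fintype.piFinset TT).filter fun m => Land W N l (pp m s) u).card

end Pool.Agent.Lib.OW
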