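import Mathlib
import Pool.Agent.Lib.MP_7b7e48_nt.OW.ODefs

/-!
# Module UUC (20 minutes): the number of classes

There are exactly `N` numbers `x < W N` in the class `a`. One of them which is not coprime to `N` is divisible by a prime `p ∣ N`; `p ∤ W` (`x` is
coprime to `W`), so `N < p²`; two different such primes `p, p'` would give `p p' ∣ N`, `p p' > N`. So all of them are multiples of ONE prime
`p > √N`: at most `W N/p + 1 ≤ W √N + 1`. `card_UU_tot`: `UU` is the set of residues of a fibre of the surjective homomorphism of unit groups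
`(Z/WN)ˣ → (Z/W)ˣ`: `card UU * φ(W) = φ(W N)` (this version is used for the spectral lemma).
-/

set_option autoImplicit false

open Finset
open Pool.Agent.Lib.MP_45349e_nt.LS (lam)

namespace Pool.Agent.Lib.OW

theorem card_UU_le {W N a : ℕ} (hc : Cfg W N a) : (UU W N a).card ≤ N := by
  have h : (UU W N a).card ≤ (Finset.range N).card := by
    refine card_le_card_of_injOn (fun x => x / W) ?_ ?_
    · intro x hx
      have hx' := Finset.mem_coe.mp hx
      rw [UU, mem_filter, mem_range] at hx'
      refine Finset.mem_coe.mpr (mem_range.mpr ?_)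
      exact Nat.div_lt_of_lt_mul hx'.1
    · intro x hx y hy hxy
      have hx' := Finset.mem_coe.mp hx
      have hy' := Finset.mem_coe.mp hy
      rw [UU, mem_filter, mem_range] at hx' hy'
      have hxy' : x / W = y / W := hxy
      rw [← Nat.div_add_mod x W, ← Nat.div_add_mod y W, hxy', hx'.2.1, hy'.2.1]
  rwa [card_range] at h

theorem cop_of_class {W a x : ℕ} (ha : a.Coprime W) (hx : x % W = a % W) : x.Coprime W := by
  have h5 : Nat.gcd W x = Nat.gcd W a := by
    rw [Nat.gcd_rec W x, Nat.gcd_rec W a, hx]
  rw [Nat.coprime_comm, Nat.Coprime, h5]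
  exact ha.symm

theorem card_UU_ge {W N a : ℕ} (hc : Cfg W N a) : (N : ℝ) - W * Real.sqrt N - 1 ≤ ((UU W N a).card : ℝ) := by
  classical
  have hW := hc.W1
  have hN : 0 < N := lt_of_lt_of_le hW hc.WN
  set T := (Finset.range (W * N)).filter fun x => x % W = a % W with hT
  have hTc : N ≤ T.card := by
    have h : (Finset.range N).card ≤ T.card := by
      refine card_le_card_of_injOn (fun k => W * k + a) ?_ ?_
      · intro k hk
        have hk' := mem_range.mp (Finset.mem_coe.mp hk)
        refine Finset.mem_coe.mpr ?_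
        rw [hT, mem_filter, mem_range]
        refine ⟨?_, ?_⟩
        · have h1 : W * (k + 1) ≤ W * N := Nat.mul_le_mul_left _ hk'
          have h2 := hc.alt
          have h3 : W * (k + 1) = W * k + W := by ring
          change W * k + a < W * N
          omega
        · change (W * k + a) % W = a % W
          rw [Nat.mul_add_mod]
      · intro x _ y _ hxy
        have h1 : W * x + a = W * y + a := hxy
        have h2 : W * x = W * y := by omega
        exact Nat.eq_of_mul_eq_mul_left hW h2
    rwa [card_range] at h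
  set Bd := T.filter fun x => ¬ x.Coprime N with hBd
  have hsplit : (UU W N a).card + Bd.card = T.card := by
    have h1 : UU W N a = T.filter fun x => x.Coprime N := by
      ext x
      rw [UU, hT, mem_filter, mem_filter, mem_filter, and_assoc]
    rw [h1, hBd]
    exact card_filter_add_card_filter_not _
  have hbad : (Bd.card : ℝ) ≤ W * Real.sqrt N + 1 := by
    rcases Bd.eq_empty_or_nonempty with h | ⟨x, hx⟩
    · rw [h, card_empty, Nat.cast_zero]
      positivity
    · have key : ∀ y ∈ Bd, ∃ p : ℕ, p.Prime ∧ p ∣ N ∧ p ∣ y ∧ N < p * p := by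
        intro y hy
        rw [hBd, mem_filter, hT, mem_filter] at hy
        obtain ⟨⟨h1, h2⟩, h3⟩ := hy
        obtain ⟨p, hp, hpy, hpN⟩ := Nat.Prime.not_coprime_iff_dvd.mp h3
        refine ⟨p, hp, hpN, hpy, hc.big p hp hpN ?_⟩
        intro hpW
        have h4 := cop_of_class hc.aW h2
        exact Nat.Prime.not_coprime_iff_dvd.mpr ⟨p, hp, hpy, hpW⟩ h4
      obtain ⟨p, hp, hpN, hpx, hpp⟩ := key x hx
      have hall : ∀ y ∈ Bd, p ∣ y := by
        intro y hy
        obtain ⟨q, hq, hqN, hqy, hqq⟩ := key y hy
        by_cases hpq : p = q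
        · rw [hpq]; exact hqy
        · exfalso
          have h1 : p.Coprime q := (Nat.coprime_primes hp hq).mpr hpq
          have h2 : p * q ∣ N := h1.mul_dvd_of_dvd_of_dvd hpN hqN
          have h3 := Nat.le_of_dvd hN h2
          have h4 : N * N < (p * q) * (p * q) := by
            calc N * N < (p * p) * (q * q) := Nat.mul_lt_mul'' hpp hqq
              _ = (p * q) * (p * q) := by ring
          have h5 : (p * q) * (p * q) ≤ N * N := Nat.mul_le_mul h3 h3
          omega
      have hcard : Bd.card ≤ (Finset.range (W * N / p + 1)).card := by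
        refine card_le_card_of_injOn (fun y => y / p) ?_ ?_
        · intro y hy
          have hy' := Finset.mem_coe.mp hy
          rw [hBd, mem_filter, hT, mem_filter, mem_range] at hy'
          refine Finset.mem_coe.mpr (mem_range.mpr ?_)
          exact Nat.lt_succ_of_le (Nat.div_le_div_right hy'.1.1.le)
        · intro y hy z hz hyz
          have h1 : y / p = z / p := hyz
          rw [← Nat.div_mul_cancel (hall y (Finset.mem_coe.mp hy)), ← Nat.div_mul_cancel (hall z (Finset.mem_coe.mp hz)), h1]
      rw [card_range] at hcard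
      have h1 : ((W * N / p : ℕ) : ℝ) ≤ (W : ℝ) * N / p := by
        have := @Nat.cast_div_le ℝ _ _ _ (W * N) p
        rwa [Nat.cast_mul] at this
      have hp0 : (0 : ℝ) < p := by exact_mod_cast hp.pos
      have hN0 : (0 : ℝ) < N := by exact_mod_cast hN
      have hsq : Real.sqrt N < p := by
        rw [Real.sqrt_lt' hp0, sq]
        exact_mod_cast hpp
      have h2 : (W : ℝ) * N / p ≤ W * Real.sqrt N := by
        rw [div_le_iff₀ hp0]
        have h3 : (N : ℝ) = Real.sqrt N * Real.sqrt N := (Real.mul_self_sqrt hN0.le).symm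
        have h4 : (N : ℝ) ≤ Real.sqrt N * p := by
          calc (N : ℝ) = Real.sqrt N * Real.sqrt N := h3
            _ ≤ Real.sqrt N * p := mul_le_mul_of_nonneg_left hsq.le (Real.sqrt_nonneg _)
        calc (W : ℝ) * N ≤ W * (Real.sqrt N * p) := mul_le_mul_of_nonneg_left h4 (Nat.cast_nonneg _)
          _ = W * Real.sqrt N * p := by ring
      have h5 : (Bd.card : ℝ) ≤ ((W * N / p : ℕ) : ℝ) + 1 := by exact_mod_cast hcard
      linarith
  have h6 : ((UU W N a).card : ℝ) + Bd.card = T.card := by exact_mod_cast hsplit
  have h7 : (N : ℝ) ≤ T.card := by exact_mod_cast hTc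
  linarith

theorem card_UU_tot {W N a : ℕ} (hc : Cfg W N a) : (UU W N a).card * W.totient = (W * N).totient := by
  classical
  have hW := hc.W1
  have hN : 0 < N := lt_of_lt_of_le hW hc.WN
  have : NeZero W := ⟨by omega⟩
  have : NeZero (W * N) := ⟨(Nat.mul_pos hW hN).ne'⟩
  set f := ZMod.unitsMap (dvd_mul_right W N) with hf
  have hsurj : Function.Surjective f := ZMod.unitsMap_surjective (dvd_mul_right W N)
  set ua := ZMod.unitOfCoprime a hc.aW with hua
  have hfib : ∀ y : (ZMod W)ˣ, (Finset.univ.filter fun g => f g = y).card =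
      (Finset.univ.filter fun g => f g = ua).card := by
    intro y
    exact MonoidHom.card_fiber_eq_of_mem_range f (hsurj y) (hsurj ua)
  have htot : (W * N).totient = ∑ y : (ZMod W)ˣ, (Finset.univ.filter fun g => f g = y).card := by
    rw [← ZMod.card_units_eq_totient (W * N), ← Finset.card_univ]
    exact Finset.card_eq_sum_card_fiberwise (fun _ _ => Finset.mem_coe.mpr (mem_univ _))
  have hcop : ∀ x ∈ UU W N a, x.Coprime (W * N) := by
    intro x hx
    rw [UU, mem_filter] at hx
    exact Nat.Coprime.mul_right (cop_of_class hc.aW hx.2.1) hx.2.2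
  have hUU : (UU W N a).card = (Finset.univ.filter fun g => f g = ua).card := by
    refine Finset.card_bij (fun x hx => ZMod.unitOfCoprime x (hcop x hx)) ?_ ?_ ?_
    · intro x hx
      rw [mem_filter]
      refine ⟨mem_univ _, ?_⟩
      have hx2 := hx
      rw [UU, mem_filter] at hx2
      apply Units.ext
      rw [hf, ZMod.unitsMap_val, hua, ZMod.coe_unitOfCoprime, ZMod.coe_unitOfCoprime, ZMod.cast_natCast (dvd_mul_right W N)]
      exact (ZMod.natCast_eq_natCast_iff' x a W).mpr hx2.2.1
    · intro x hx y hy hxy
      have h1 := congrArg (fun u : (ZMod (W * N))ˣ => (u : ZMod (W * N))) hxy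
      simp only [ZMod.coe_unitOfCoprime] at h1
      have h2 := (ZMod.natCast_eq_natCast_iff' x y (W * N)).mp h1
      rw [UU, mem_filter, mem_range] at hx hy
      rwa [Nat.mod_eq_of_lt hx.1, Nat.mod_eq_of_lt hy.1] at h2
    · intro g hg
      rw [mem_filter] at hg
      have hv : (g : ZMod (W * N)).val.Coprime (W * N) := ZMod.val_coe_unit_coprime g
      have h1 : (((g : ZMod (W * N)).val : ℕ) : ZMod (W * N)) = (g : ZMod (W * N)) := ZMod.natCast_zmod_val _
      have hmem : (g : ZMod (W * N)).val ∈ UU W N a := by
        rw [UU, mem_filter, mem_range]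
        refine ⟨ZMod.val_lt _, ?_, hv.coprime_mul_left_right⟩
        have h2 : ((f g : (ZMod W)ˣ) : ZMod W) = (ua : ZMod W) := by rw [hg.2]
        rw [hf, ZMod.unitsMap_val, hua, ZMod.coe_unitOfCoprime, ← h1, ZMod.cast_natCast (dvd_mul_right W N)] at h2
        exact (ZMod.natCast_eq_natCast_iff' _ a W).mp h2
      refine ⟨(g : ZMod (W * N)).val, hmem, ?_⟩
      apply Units.ext
      rw [ZMod.coe_unitOfCoprime, h1]
  rw [htot, Finset.sum_congr rfl (fun y _ => hfib y), sum_const, Finset.card_univ,
    ZMod.card_units_eq_totient, smul_eq_mul, hUU, mul_comm]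

end Pool.Agent.Lib.OW
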