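import Mathlib

/-!
# Module FINN: the numerical facts used in FIN
-/

set_option autoImplicit false

open Finset Filter

namespace Pool.Agent.Lib.OW

/-- powers of `N` beat powers of `log N` -/
theorem finn_pow (e : ℝ) (he : 0 < e) (A : ℕ) (B : ℝ) : ∃ N0 : ℕ, ∀ N : ℕ, N0 ≤ N →
    B * (Real.log N) ^ A ≤ (N : ℝ) ^ e := by
  have h1 : (fun x : ℝ => B * (Real.log x) ^ A) =o[atTop] fun x : ℝ => x ^ e := by
    have h2 : (fun x : ℝ => (Real.log x) ^ (A : ℝ)) =o[atTop] fun x : ℝ => x ^ e :=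
      isLittleO_log_rpow_rpow_atTop (A : ℝ) he
    simp only [Real.rpow_natCast] at h2
    exact h2.const_mul_left B
  have h3 := h1.bound (show (0 : ℝ) < 1 by norm_num)
  have h4 := tendsto_natCast_atTop_atTop (R := ℝ) |>.eventually h3
  obtain ⟨N0, hN0⟩ := eventually_atTop.1 h4
  refine ⟨N0, fun N hN => ?_⟩
  have h5 := hN0 N hN
  rw [one_mul, Real.norm_eq_abs, Real.norm_eq_abs, abs_of_nonneg (Real.rpow_nonneg (Nat.cast_nonneg N) e)] at h5
  exact (le_abs_self _).trans h5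

theorem finn_log (B : ℝ) : ∃ N0 : ℕ, ∀ N : ℕ, N0 ≤ N → B ≤ Real.log N := by
  have h1 : Tendsto (fun N : ℕ => Real.log (N : ℝ)) atTop atTop :=
    Real.tendsto_log_atTop.comp tendsto_natCast_atTop_atTop
  exact eventually_atTop.1 (h1.eventually_ge_atTop B)

/-- `2 N^(1-ε) + x N/K^(A+1) ≤ x N/K^A` if `x ≥ N^(-ε/4)` -/
theorem finn_main (ε : ℝ) (hε : 0 < ε) (A : ℕ) : ∃ N0 : ℕ, ∀ N : ℕ, N0 ≤ N → ∀ x : ℝ, (N : ℝ) ^ (-(ε / 4)) ≤ x →
    2 * (N : ℝ) ^ (1 - ε) + x * N / (Real.log N) ^ (A + 1) ≤ x * N / (Real.log N) ^ A := by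
  obtain ⟨N1, h1⟩ := finn_pow (3 * ε / 4) (by positivity) A 4
  obtain ⟨N2, h2⟩ := finn_log 2
  refine ⟨max 3 (max N1 N2), fun N hN x hx => ?_⟩
  have hN3 : 3 ≤ N := (le_max_left _ _).trans hN
  have h1' := h1 N (((le_max_left _ _).trans (le_max_right _ _)).trans hN)
  have h2' := h2 N (((le_max_right _ _).trans (le_max_right _ _)).trans hN)
  have hN0 : (0 : ℝ) < N := by exact_mod_cast (by omega : 0 < N)
  set K := Real.log N with hK
  have hK0 : 0 < K := by linarith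
  have hKA : 0 < K ^ A := pow_pos hK0 A
  have hx0 : 0 < x := lt_of_lt_of_le (Real.rpow_pos_of_pos hN0 _) hx
  -- x N / K^(A+1) ≤ x N / (2 K^A)
  have h3 : x * N / K ^ (A + 1) ≤ x * N / K ^ A / 2 := by
    rw [pow_succ, ← div_div]
    exact div_le_div_of_nonneg_left (by positivity) (by norm_num) h2'
  have h4 : 2 * (N : ℝ) ^ (1 - ε) ≤ x * N / K ^ A / 2 := by
    rw [le_div_iff₀ (by norm_num : (0 : ℝ) < 2), le_div_iff₀ hKA]
    have h5 : (N : ℝ) ^ (1 - ε) * (N : ℝ) ^ (3 * ε / 4) = (N : ℝ) ^ (-(ε / 4)) * N := by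
      rw [← Real.rpow_add hN0]
      conv_rhs => rw [← Real.rpow_one (N : ℝ)]
      rw [← Real.rpow_mul hN0.le, one_mul, ← Real.rpow_add hN0]
      congr 1
      ring
    calc 2 * (N : ℝ) ^ (1 - ε) * 2 * K ^ A = (N : ℝ) ^ (1 - ε) * (4 * K ^ A) := by ring
      _ ≤ (N : ℝ) ^ (1 - ε) * (N : ℝ) ^ (3 * ε / 4) :=
          mul_le_mul_of_nonneg_left h1' (Real.rpow_nonneg hN0.le _)
      _ = (N : ℝ) ^ (-(ε / 4)) * N := h5
      _ ≤ x * N := mul_le_mul_of_nonneg_right hx hN0.le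
  linarith
end Pool.Agent.Lib.OW
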