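import Pool.Agent.Lib.MP_7b7e48_nt.OW.S2

/-!
# Module T0 (60 minutes): squarefree divisors of `N`

`K = log N`. PROOF of `sqf_tail`, `ε = θ/2`: `∑_{d ∣ N squarefree, d > √y} 1/d ≤ y^(-ε/2) ∑_{d ∣ N squarefree} d^(-1+ε) = y^(-ε/2) ∏_{p ∣ N} (1 + p^(-1+ε)) ≤ exp(-(θ/4) K^θ) exp(∑_{p ≤ K} p^(-1+ε) + ω(N) K^(-1+ε)) ≤ exp(-(θ/4) K^θ + C K^(θ/2))`
(`∑_{n ≤ K} n^(-1+ε) ≤ 1 + K^ε/ε`, `ω(N) ≤ 2 K`: `2^ω(N) ≤ N`). `sqf_sum`: `∑_{d ∣ N squarefree} 1/d = ∏_{p ∣ N} (1 + 1/p) ≤ ∏ (1 - 1/p)^(-1) = 1/del N ≤ K` (`del_low`). `del_loglog`: `RG.phi_prod` (module `RG/A7.lean`) with `z = ⌈log N⌉ + 8`, the product over `PN` is `≤ 1`.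
-/

open Finset

namespace Pool.Agent.Lib.OW

open Pool.Agent.Lib.RG (RC LV rr SS PB)

open Classical in
/-- sums over the squarefree divisors as products -/
private theorem T0_prod {N : ℕ} (hN : N ≠ 0) (f : ℕ → ℝ) (hf1 : f 1 = 1)
    (hf : ∀ m n : ℕ, f (m * n) = f m * f n) :
    ∑ d ∈ N.divisors.filter (fun d => Squarefree d), f d = ∏ p ∈ N.primeFactors, (1 + f p) := by
  rw [Nat.sum_divisors_filter_squarefree hN, prod_one_add]
  have h1 : (UniqueFactorizationMonoid.normalizedFactors N).toFinset = N.primeFactors := by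
    rw [Nat.factors_eq]
    rfl
  rw [h1]
  refine sum_congr rfl fun t _ => ?_
  have h2 : ∀ s : Finset ℕ, f (∏ i ∈ s, i) = ∏ i ∈ s, f i := by
    intro s
    induction s using Finset.induction_on with
    | empty => simpa using hf1
    | insert a s ha ih => rw [prod_insert ha, prod_insert ha, hf, ih]
  have h3 : (t.val : Multiset ℕ).prod = ∏ i ∈ t, i := by
    rw [prod_eq_multiset_prod, Multiset.map_id']
  rw [h3, h2]

private theorem T0_card {N : ℕ} (hN : N ≠ 0) : (N.primeFactors.card : ℝ) ≤ 2 * Real.log N := by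
  have h1 : 2 ^ N.primeFactors.card ≤ N := by
    calc 2 ^ N.primeFactors.card = ∏ p ∈ N.primeFactors, 2 := by rw [prod_const]
      _ ≤ ∏ p ∈ N.primeFactors, p :=
          prod_le_prod' fun p hp => (Nat.prime_of_mem_primeFactors hp).two_le
      _ ≤ N := Nat.le_of_dvd (Nat.pos_of_ne_zero hN) (Nat.prod_primeFactors_dvd N)
  have h2 : ((2 : ℝ) ^ N.primeFactors.card) ≤ N := by exact_mod_cast h1
  have h3 := Real.log_le_log (by positivity) h2
  rw [Real.log_pow] at h3
  have h4 : (1 / 2 : ℝ) ≤ Real.log 2 := by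
    have := Real.log_two_gt_d9
    linarith
  have h5 : (0 : ℝ) ≤ (N.primeFactors.card : ℝ) := Nat.cast_nonneg _
  nlinarith

/-- sum of `1/n` -/
private theorem T0_harm (m : ℕ) : ∑ n ∈ Finset.Icc 1 m, 1 / (n : ℝ) ≤ 1 + Real.log m := by
  have h := harmonic_le_one_add_log m
  rw [harmonic_eq_sum_Icc] at h
  push_cast at h
  simpa only [one_div] using h

/-- `∑_{p ∣ N} p^(-1+ε) ≤ K^ε (3 + log K)`, `K = log N ≥ 1` -/
private theorem T0_sum {N : ℕ} (hN : N ≠ 0) {ε : ℝ} (h0 : 0 < ε) (h1 : ε ≤ 1)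
    (hK : 1 ≤ Real.log N) :
    ∑ p ∈ N.primeFactors, (p : ℝ) ^ (-1 + ε) ≤
      (Real.log N) ^ ε * (3 + Real.log (Real.log N)) := by
  classical
  set K := Real.log N with hKdef
  have hK0 : 0 < K := by linarith
  rw [← sum_filter_add_sum_filter_not N.primeFactors (fun p : ℕ => (p : ℝ) ≤ K)]
  have hA : ∑ p ∈ N.primeFactors.filter (fun p : ℕ => (p : ℝ) ≤ K), (p : ℝ) ^ (-1 + ε) ≤
      K ^ ε * (1 + Real.log K) := by
    calc ∑ p ∈ N.primeFactors.filter (fun p : ℕ => (p : ℝ) ≤ K), (p : ℝ) ^ (-1 + ε)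
        ≤ ∑ p ∈ N.primeFactors.filter (fun p : ℕ => (p : ℝ) ≤ K), K ^ ε * (1 / (p : ℝ)) := by
          refine sum_le_sum fun p hp => ?_
          rw [mem_filter] at hp
          have hpp := Nat.prime_of_mem_primeFactors hp.1
          have hp0 : (0 : ℝ) < p := by exact_mod_cast hpp.pos
          rw [Real.rpow_add hp0, Real.rpow_neg_one, mul_comm, one_div]
          exact mul_le_mul_of_nonneg_right (Real.rpow_le_rpow hp0.le hp.2 h0.le) (by positivity)
      _ = K ^ ε * ∑ p ∈ N.primeFactors.filter (fun p : ℕ => (p : ℝ) ≤ K), 1 / (p : ℝ) := by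
          rw [mul_sum]
      _ ≤ K ^ ε * ∑ n ∈ Finset.Icc 1 ⌊K⌋₊, 1 / (n : ℝ) := by
          refine mul_le_mul_of_nonneg_left ?_ (by positivity)
          refine sum_le_sum_of_subset_of_nonneg ?_ fun _ _ _ => by positivity
          intro p hp
          rw [mem_filter] at hp
          have hpp := Nat.prime_of_mem_primeFactors hp.1
          rw [mem_Icc]
          exact ⟨hpp.one_lt.le, Nat.le_floor hp.2⟩
      _ ≤ K ^ ε * (1 + Real.log ⌊K⌋₊) := mul_le_mul_of_nonneg_left (T0_harm _) (by positivity)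
      _ ≤ K ^ ε * (1 + Real.log K) := by
          refine mul_le_mul_of_nonneg_left (add_le_add_right (Real.log_le_log ?_ ?_) 1)
            (by positivity)
          · exact_mod_cast Nat.floor_pos.mpr hK
          · exact Nat.floor_le hK0.le
  have hB : ∑ p ∈ N.primeFactors.filter (fun p : ℕ => ¬ (p : ℝ) ≤ K), (p : ℝ) ^ (-1 + ε) ≤
      K ^ ε * 2 := by
    calc ∑ p ∈ N.primeFactors.filter (fun p : ℕ => ¬ (p : ℝ) ≤ K), (p : ℝ) ^ (-1 + ε)
        ≤ ∑ p ∈ N.primeFactors.filter (fun p : ℕ => ¬ (p : ℝ) ≤ K), K ^ (-1 + ε) := by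
          refine sum_le_sum fun p hp => ?_
          rw [mem_filter, not_le] at hp
          exact Real.rpow_le_rpow_of_nonpos hK0 hp.2.le (by linarith)
      _ ≤ ∑ p ∈ N.primeFactors, K ^ (-1 + ε) :=
          sum_le_sum_of_subset_of_nonneg (filter_subset _ _) fun _ _ _ => by positivity
      _ = N.primeFactors.card * K ^ (-1 + ε) := by rw [sum_const, nsmul_eq_mul]
      _ ≤ (2 * K) * K ^ (-1 + ε) := mul_le_mul_of_nonneg_right (T0_card hN) (by positivity)
      _ = K ^ ε * 2 := by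
          rw [Real.rpow_add hK0, Real.rpow_neg_one]
          field_simp
  nlinarith

/-- the numerical condition -/
private theorem T0_num (θ : ℝ) (h0 : 0 < θ) (A : ℕ) : ∃ K0 : ℝ, 1 ≤ K0 ∧ ∀ K : ℝ, K0 ≤ K →
    K ^ (θ / 2) * (3 + Real.log K) + A * Real.log K ≤ θ / 4 * K ^ θ := by
  have h1 := (isLittleO_log_rpow_atTop (r := θ / 2) (by positivity)).bound
    (c := θ / 8 / (1 + A)) (by positivity)
  have h2 : ∀ᶠ K : ℝ in Filter.atTop, 3 / (θ / 8) ≤ K ^ (θ / 2) :=
    (tendsto_rpow_atTop (by positivity)).eventually_ge_atTop _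
  obtain ⟨K0, hK0⟩ := Filter.eventually_atTop.mp (h1.and h2)
  refine ⟨max K0 1, le_max_right _ _, fun K hK => ?_⟩
  obtain ⟨h3, h4⟩ := hK0 K ((le_max_left _ _).trans hK)
  have hK1 : 1 ≤ K := (le_max_right _ _).trans hK
  have hKp : 0 < K := by linarith
  have hlog : 0 ≤ Real.log K := Real.log_nonneg hK1
  rw [Real.norm_of_nonneg hlog, Real.norm_of_nonneg (by positivity)] at h3
  have hT1 : 1 ≤ K ^ (θ / 2) := Real.one_le_rpow hK1 (by positivity)
  have e1 : K ^ θ = K ^ (θ / 2) * K ^ (θ / 2) := by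
    rw [← Real.rpow_add hKp]
    congr 1
    ring
  rw [e1]
  set T := K ^ (θ / 2) with hT
  have h5 : 3 ≤ θ / 8 * T := by
    rw [div_le_iff₀ (by positivity)] at h4
    linarith
  have h6 : (1 + A) * Real.log K ≤ θ / 8 * T := by
    have hA : (0 : ℝ) < 1 + A := by positivity
    have := mul_le_mul_of_nonneg_left h3 hA.le
    calc (1 + A) * Real.log K ≤ (1 + A) * (θ / 8 / (1 + A) * T) := this
      _ = θ / 8 * T := by field_simp
  have h7 : T * (3 + Real.log K) + A * Real.log K ≤ T * (3 + (1 + A) * Real.log K) := by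
    have : (A : ℝ) * Real.log K ≤ T * (A * Real.log K) :=
      le_mul_of_one_le_left (by positivity) hT1
    nlinarith
  have h8 : T * (3 + (1 + A) * Real.log K) ≤ T * (θ / 4 * T) :=
    mul_le_mul_of_nonneg_left (by linarith) (by positivity)
  linarith

open Classical in
theorem sqf_tail (θ : ℝ) (h0 : 0 < θ) (h1 : θ ≤ 1) (A : ℕ) : ∃ N0 : ℕ, ∀ N : ℕ, N0 ≤ N → ∀ y : ℝ,
    Real.exp ((Real.log N) ^ θ) ≤ y →
    ∑ d ∈ N.divisors.filter (fun d : ℕ => Squarefree d ∧ Real.sqrt y < d), 1 / (d : ℝ) ≤ 1 / (Real.log N) ^ A := by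
  obtain ⟨K0, hK01, hK0⟩ := T0_num θ h0 A
  refine ⟨⌈Real.exp K0⌉₊, fun N hN y hy => ?_⟩
  have hNR : Real.exp K0 ≤ N := (Nat.le_ceil _).trans (by exact_mod_cast hN)
  have hNpos : (0 : ℝ) < N := lt_of_lt_of_le (Real.exp_pos _) hNR
  have hN0 : N ≠ 0 := by
    rintro rfl
    simp at hNpos
  have hK : K0 ≤ Real.log N := by
    rw [Real.le_log_iff_exp_le hNpos]
    exact hNR
  have hnum := hK0 _ hK
  have hsum := T0_sum hN0 (ε := θ / 2) (by positivity) (by linarith) (hK01.trans hK)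
  set K := Real.log N with hKdef
  have hK1 : 1 ≤ K := hK01.trans hK
  have hKp : 0 < K := by linarith
  have hypos : 0 < y := lt_of_lt_of_le (Real.exp_pos _) hy
  have hy1 : y ^ (-(θ / 4)) ≤ Real.exp (-(θ / 4 * K ^ θ)) := by
    rw [Real.rpow_neg hypos.le, Real.exp_neg]
    refine inv_anti₀ (Real.exp_pos _) ?_
    rw [mul_comm, Real.exp_mul]
    exact Real.rpow_le_rpow (Real.exp_pos _).le hy (by positivity)
  calc ∑ d ∈ N.divisors.filter (fun d : ℕ => Squarefree d ∧ Real.sqrt y < d), 1 / (d : ℝ)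
      ≤ ∑ d ∈ N.divisors.filter (fun d : ℕ => Squarefree d ∧ Real.sqrt y < d),
          y ^ (-(θ / 4)) * (d : ℝ) ^ (-1 + θ / 2) := by
        refine sum_le_sum fun d hd => ?_
        rw [mem_filter] at hd
        have hdp : (0 : ℝ) < d := lt_of_le_of_lt (Real.sqrt_nonneg y) hd.2.2
        have h3 : y ^ (θ / 4) ≤ (d : ℝ) ^ (θ / 2) := by
          calc y ^ (θ / 4) = (Real.sqrt y) ^ (θ / 2) := by
                rw [Real.sqrt_eq_rpow, ← Real.rpow_mul hypos.le]
                congr 1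
                ring
            _ ≤ (d : ℝ) ^ (θ / 2) :=
                Real.rpow_le_rpow (Real.sqrt_nonneg y) hd.2.2.le (by positivity)
        rw [Real.rpow_neg hypos.le, Real.rpow_add hdp, Real.rpow_neg_one, one_div]
        have h4 : 1 ≤ (y ^ (θ / 4))⁻¹ * (d : ℝ) ^ (θ / 2) := by
          rw [inv_mul_eq_div, one_le_div (by positivity)]
          exact h3
        calc (d : ℝ)⁻¹ = 1 * (d : ℝ)⁻¹ := (one_mul _).symm
          _ ≤ ((y ^ (θ / 4))⁻¹ * (d : ℝ) ^ (θ / 2)) * (d : ℝ)⁻¹ :=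
              mul_le_mul_of_nonneg_right h4 (by positivity)
          _ = _ := by ring
    _ ≤ ∑ d ∈ N.divisors.filter (fun d => Squarefree d),
          y ^ (-(θ / 4)) * (d : ℝ) ^ (-1 + θ / 2) := by
        refine sum_le_sum_of_subset_of_nonneg ?_ fun _ _ _ => by positivity
        intro d hd
        rw [mem_filter] at hd ⊢
        exact ⟨hd.1, hd.2.1⟩
    _ = y ^ (-(θ / 4)) * ∏ p ∈ N.primeFactors, (1 + (p : ℝ) ^ (-1 + θ / 2)) := by
        rw [← mul_sum, T0_prod hN0 (fun d => (d : ℝ) ^ (-1 + θ / 2)) (by simp)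
          (fun m n => by
            rw [Nat.cast_mul]
            exact Real.mul_rpow (Nat.cast_nonneg m) (Nat.cast_nonneg n))]
    _ ≤ Real.exp (-(θ / 4 * K ^ θ)) * Real.exp (∑ p ∈ N.primeFactors, (p : ℝ) ^ (-1 + θ / 2)) := by
        refine mul_le_mul hy1 ?_ (prod_nonneg fun p _ => by positivity) (Real.exp_pos _).le
        rw [Real.exp_sum]
        refine prod_le_prod (fun p _ => by positivity) fun p _ => ?_
        rw [add_comm]
        exact Real.add_one_le_exp _
    _ ≤ Real.exp (-(A * Real.log K)) := by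
        rw [← Real.exp_add, Real.exp_le_exp]
        linarith
    _ = 1 / K ^ A := by
        rw [Real.exp_neg, one_div, ← Real.log_pow, Real.exp_log (by positivity)]

private theorem T0_tot {N : ℕ} (hN : N ≠ 0) :
    ∏ p ∈ N.primeFactors, (1 - 1 / (p : ℝ)) = del N := by
  have h := Nat.totient_eq_mul_prod_factors N
  have h2 : (N.totient : ℝ) = N * ∏ p ∈ N.primeFactors, (1 - (p : ℝ)⁻¹) := by
    have := congrArg (Rat.cast : ℚ → ℝ) h
    push_cast at this
    exact this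
  unfold del
  have h3 : (N : ℝ) ≠ 0 := by exact_mod_cast hN
  rw [h2, mul_div_cancel_left₀ _ h3]
  simp only [one_div]

open Classical in
theorem sqf_sum : ∃ N0 : ℕ, ∀ N : ℕ, N0 ≤ N →
    ∑ d ∈ N.divisors.filter (fun d => Squarefree d), 1 / (d : ℝ) ≤ Real.log N := by
  obtain ⟨N0, h⟩ := del_low
  refine ⟨max N0 3, fun N hN => ?_⟩
  have hN0 : N ≠ 0 := by
    have := (le_max_right N0 3).trans hN
    omega
  have h1 := h N ((le_max_left _ _).trans hN)
  rw [T0_prod hN0 (fun d => 1 / (d : ℝ)) (by simp)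
    (fun m n => by rw [Nat.cast_mul, one_div_mul_one_div])]
  have hpos : 0 < del N := by
    rw [← T0_tot hN0]
    refine prod_pos fun p hp => ?_
    have hp2 : (2 : ℝ) ≤ p := by exact_mod_cast (Nat.prime_of_mem_primeFactors hp).two_le
    have : 1 / (p : ℝ) < 1 := by
      rw [div_lt_one (by linarith)]
      linarith
    linarith
  have h2 : (∏ p ∈ N.primeFactors, (1 + 1 / (p : ℝ))) * del N ≤ 1 := by
    rw [← T0_tot hN0, ← prod_mul_distrib]
    refine prod_le_one (fun p hp => ?_) (fun p hp => ?_)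
    · have hp2 : (2 : ℝ) ≤ p := by exact_mod_cast (Nat.prime_of_mem_primeFactors hp).two_le
      have : 1 / (p : ℝ) < 1 := by
        rw [div_lt_one (by linarith)]
        linarith
      have h5 : 0 ≤ 1 / (p : ℝ) := by positivity
      exact mul_nonneg (by linarith) (by linarith)
    · nlinarith [sq_nonneg (1 / (p : ℝ))]
  have h3 : (∏ p ∈ N.primeFactors, (1 + 1 / (p : ℝ))) * del N ≤ Real.log N * del N := by linarith
  exact le_of_mul_le_mul_right h3 hpos

theorem del_loglog : ∃ c : ℝ, 0 < c ∧ ∃ N0 : ℕ, ∀ N : ℕ, N0 ≤ N → c ≤ Real.log (Real.log N) * del N := by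
  obtain ⟨c, hc, h⟩ := Pool.Agent.Lib.RG.phi_prod
  refine ⟨c / 2, by positivity, ⌈Real.exp 5⌉₊, fun N hN => ?_⟩
  have hNR : Real.exp 5 ≤ N := (Nat.le_ceil _).trans (by exact_mod_cast hN)
  have hNpos : (0 : ℝ) < N := lt_of_lt_of_le (Real.exp_pos _) hNR
  have hN1 : 1 ≤ N := by
    have : (0 : ℕ) < N := by exact_mod_cast hNpos
    omega
  have hK : 5 ≤ Real.log N := by
    rw [Real.le_log_iff_exp_le hNpos]
    exact hNR
  set K := Real.log N with hKdef
  set z : ℕ := ⌈K⌉₊ + 8 with hz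
  have hzK : K ≤ z := by
    rw [hz]
    push_cast
    have := Nat.le_ceil K
    linarith
  have hz2 : (z : ℝ) ≤ K + 9 := by
    rw [hz]
    push_cast
    have := (Nat.ceil_lt_add_one (by linarith : 0 ≤ K)).le
    linarith
  have h1 := h N z hN1 (by omega) hzK
  have hz8 : (8 : ℝ) ≤ z := by
    have : 8 ≤ z := by omega
    exact_mod_cast this
  have hlz : 0 < Real.log z := Real.log_pos (by linarith)
  have h2 : Real.log z ≤ 2 * Real.log K := by
    calc Real.log z ≤ Real.log (K ^ 2) := Real.log_le_log (by linarith) (by nlinarith)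
      _ = 2 * Real.log K := by rw [Real.log_pow]; norm_num
  have hdel : 0 ≤ del N := by
    unfold del
    positivity
  have h3 : ∏ p ∈ Pool.Agent.Lib.RG.PN N z, (1 - 1 / (p : ℝ)) ≤ 1 := by
    refine prod_le_one (fun p hp => ?_) (fun p hp => ?_)
    · unfold Pool.Agent.Lib.RG.PN at hp
      have hpp := (mem_filter.mp hp).2.1
      have hp2 : (2 : ℝ) ≤ p := by exact_mod_cast hpp.two_le
      have : 1 / (p : ℝ) < 1 := by
        rw [div_lt_one (by linarith)]
        linarith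
      linarith
    · have : 0 ≤ 1 / (p : ℝ) := by positivity
      linarith
  have h4 : c / Real.log z ≤ del N := by
    calc c / Real.log z ≤ ((N.totient : ℝ) / N) * ∏ p ∈ Pool.Agent.Lib.RG.PN N z, (1 - 1 / (p : ℝ)) := h1
      _ ≤ del N * 1 := mul_le_mul_of_nonneg_left h3 hdel
      _ = del N := mul_one _
  rw [div_le_iff₀ hlz] at h4
  have h5 : del N * Real.log z ≤ del N * (2 * Real.log K) := mul_le_mul_of_nonneg_left h2 hdel
  linarith

end Pool.Agent.Lib.OW
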