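import Pool.Agent.Lib.MP_7b7e48_nt.OW.OD

/-!
# Module B0 (45 minutes): reflection in a class modulo `W`; the exceptional set for equal signs

PROOF of `chi_refl`: `(N - n) n' - (N - n') n = N (n' - n)` is divisible by `W N`, so `χ(N - n) χ(n') = χ(N - n') χ(n)`; multiply by `χ(n') χ(n)` and use `χ(n')² = 1 = χ(n)²` (units; `χ² = 1`).
PROOF of `refl_count`: `n ↦ N - n` is a bijection from `Dom N W a N` onto `Dom N W a' N` (`0` is not in `Dom` because `N ≥ 2`). Sum of `lam n + lam (N - n)` over `Dom N W a N`: the term is `-2 e` if both are `-e`, `2 e` if both are `e`, otherwise `0`.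
-/

open Finset
open Pool.Agent.Lib.MP_45349e_nt.LS (lam)

namespace Pool.Agent.Lib.OW

open Pool.Agent.Lib.RG (RC LV rr SS PB)

theorem chi_refl (N W : ℕ) (χ : DirichletCharacter ℂ (W * N)) (hχ : χ ^ 2 = 1) (n n' : ℕ) (hn : n ≤ N) (hn' : n' ≤ N)
    (h : n ≡ n' [MOD W]) (hc : n.Coprime (W * N)) (hc' : n'.Coprime (W * N)) :
    χ ((N - n : ℕ) : ZMod (W * N)) * χ (n : ZMod (W * N)) = χ ((N - n' : ℕ) : ZMod (W * N)) * χ (n' : ZMod (W * N)) := by
  have key : ((N - n : ℕ) : ZMod (W * N)) * (n' : ZMod (W * N)) =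
      ((N - n' : ℕ) : ZMod (W * N)) * (n : ZMod (W * N)) := by
    have h1 : ((((N - n : ℕ) : ℤ) * (n' : ℤ) : ℤ) : ZMod (W * N)) = ((((N - n' : ℕ) : ℤ) * (n : ℤ) : ℤ) : ZMod (W * N)) := by
      rw [ZMod.intCast_eq_intCast_iff_dvd_sub]
      push_cast [Nat.cast_sub hn, Nat.cast_sub hn']
      have h2 : (W : ℤ) ∣ (n' : ℤ) - n := (Nat.modEq_iff_dvd).1 h
      obtain ⟨k, hk⟩ := h2
      refine ⟨-k, ?_⟩
      have : (n' : ℤ) = n + W * k := by linarith
      rw [this]
      ring
    push_cast at h1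
    exact_mod_cast h1
  have sq : ∀ m : ℕ, m.Coprime (W * N) → χ (m : ZMod (W * N)) * χ (m : ZMod (W * N)) = 1 := by
    intro m hm
    have h3 : IsUnit (m : ZMod (W * N)) := (ZMod.isUnit_iff_coprime m (W * N)).2 hm
    have h4 : (χ ^ 2) (m : ZMod (W * N)) = 1 := by
      rw [hχ]
      exact MulChar.one_apply h3
    rw [MulChar.pow_apply' χ two_ne_zero, pow_two] at h4
    exact h4
  have h5 : χ ((N - n : ℕ) : ZMod (W * N)) * χ (n' : ZMod (W * N)) =
      χ ((N - n' : ℕ) : ZMod (W * N)) * χ (n : ZMod (W * N)) := by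
    rw [← map_mul, ← map_mul, key]
  have h6 := sq n hc
  have h7 := sq n' hc'
  calc χ ((N - n : ℕ) : ZMod (W * N)) * χ (n : ZMod (W * N))
      = χ ((N - n : ℕ) : ZMod (W * N)) * χ (n : ZMod (W * N)) * (χ (n' : ZMod (W * N)) * χ (n' : ZMod (W * N))) := by
        rw [h7, mul_one]
    _ = (χ ((N - n : ℕ) : ZMod (W * N)) * χ (n' : ZMod (W * N))) * (χ (n : ZMod (W * N)) * χ (n' : ZMod (W * N))) := by ring
    _ = (χ ((N - n' : ℕ) : ZMod (W * N)) * χ (n : ZMod (W * N))) * (χ (n : ZMod (W * N)) * χ (n' : ZMod (W * N))) := by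
        rw [h5]
    _ = χ ((N - n' : ℕ) : ZMod (W * N)) * χ (n' : ZMod (W * N)) * (χ (n : ZMod (W * N)) * χ (n : ZMod (W * N))) := by ring
    _ = _ := by rw [h6, mul_one]

open Classical in
theorem refl_count (N W a a' : ℕ) (hN : 2 ≤ N) (hW : 1 ≤ W) (haa : a + a' ≡ N [MOD W]) (e : ℝ) (he : e = 1 ∨ e = -1) :
    2 * (((Dom N W a N).filter fun n => lam n = -e ∧ lam (N - n) = -e).card : ℝ) ≤
    |∑ n ∈ Dom N W a N, lam n| + |∑ n ∈ Dom N W a' N, lam n| +
    2 * (((Dom N W a N).filter fun n => lam n = e ∧ lam (N - n) = e).card : ℝ) := by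
  have hmem : ∀ n ∈ Dom N W a N, 0 < n ∧ n < N := by
    intro n hn
    unfold Dom at hn
    rw [mem_filter, mem_range] at hn
    refine ⟨Nat.pos_of_ne_zero ?_, hn.1⟩
    rintro rfl
    have := hn.2.2
    rw [Nat.coprime_zero_left] at this
    omega
  have hb : ∑ n ∈ Dom N W a' N, lam n = ∑ n ∈ Dom N W a N, lam (N - n) := by
    symm
    refine Finset.sum_bij' (fun n _ => N - n) (fun n _ => N - n) ?_ ?_ ?_ ?_ ?_
    · intro n hn
      have h0 := hmem n hn
      unfold Dom at hn ⊢
      rw [mem_filter, mem_range] at hn ⊢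
      refine ⟨by omega, ?_, ?_⟩
      · have h1 : n + (N - n) ≡ a + a' [MOD W] := by
          have : n + (N - n) = N := by omega
          rw [this]
          exact haa.symm
        exact Nat.ModEq.add_left_cancel hn.2.1 h1
      · exact (Nat.coprime_self_sub_left (by omega : n ≤ N)).2 hn.2.2
    · intro n hn
      have h0 : 0 < n ∧ n < N := by
        unfold Dom at hn
        rw [mem_filter, mem_range] at hn
        refine ⟨Nat.pos_of_ne_zero ?_, hn.1⟩
        rintro rfl
        have := hn.2.2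
        rw [Nat.coprime_zero_left] at this
        omega
      unfold Dom at hn ⊢
      rw [mem_filter, mem_range] at hn ⊢
      refine ⟨by omega, ?_, ?_⟩
      · have h1 : n + (N - n) ≡ a' + a [MOD W] := by
          have : n + (N - n) = N := by omega
          rw [this, add_comm a' a]
          exact haa.symm
        exact Nat.ModEq.add_left_cancel hn.2.1 h1
      · exact (Nat.coprime_self_sub_left (by omega : n ≤ N)).2 hn.2.2
    · intro n hn
      have h0 := hmem n hn
      show N - (N - n) = n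
      omega
    · intro n hn
      have h0 : n < N := by
        unfold Dom at hn
        rw [mem_filter, mem_range] at hn
        exact hn.1
      show N - (N - n) = n
      omega
    · intro n hn
      rfl
  have hlam : ∀ n : ℕ, lam n = 1 ∨ lam n = -1 := by
    intro n
    unfold Pool.Agent.Lib.MP_45349e_nt.LS.lam
    exact neg_one_pow_eq_or ℝ _
  have hsum : ∑ n ∈ Dom N W a N, lam n + ∑ n ∈ Dom N W a' N, lam n =
      2 * e * (((Dom N W a N).filter fun n => lam n = e ∧ lam (N - n) = e).card : ℝ) -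
      2 * e * (((Dom N W a N).filter fun n => lam n = -e ∧ lam (N - n) = -e).card : ℝ) := by
    rw [hb, ← Finset.sum_add_distrib]
    have h1 : ∀ n ∈ Dom N W a N, lam n + lam (N - n) =
        (if lam n = e ∧ lam (N - n) = e then 2 * e else 0) - (if lam n = -e ∧ lam (N - n) = -e then 2 * e else 0) := by
      intro n hn
      rcases he with rfl | rfl <;> rcases hlam n with h2 | h2 <;> rcases hlam (N - n) with h3 | h3 <;> rw [h2, h3] <;>
        norm_num
    rw [Finset.sum_congr rfl h1, Finset.sum_sub_distrib, ← Finset.sum_filter, ← Finset.sum_filter, Finset.sum_const,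
      Finset.sum_const, nsmul_eq_mul, nsmul_eq_mul]
    ring
  set A := ∑ n ∈ Dom N W a N, lam n
  set B := ∑ n ∈ Dom N W a' N, lam n
  set P := (((Dom N W a N).filter fun n => lam n = e ∧ lam (N - n) = e).card : ℝ)
  set Q := (((Dom N W a N).filter fun n => lam n = -e ∧ lam (N - n) = -e).card : ℝ)
  have h1 := abs_le.1 (le_refl |A|)
  have h2 := abs_le.1 (le_refl |B|)
  rcases he with rfl | rfl <;> linarith [h1.1, h1.2, h2.1, h2.2]

end Pool.Agent.Lib.OW
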