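import Pool.Agent.Lib.MP_7b7e48_nt.OW.M_1

/-!
# Module M_3 (30 minutes): short divisors of `N - q μ`, `q` fixed

By `d1_four` (`N - q μ ≥ 1`) the sum is `≤ ∑_{E ≤ B^4} τ(E)^4 #{μ : q μ < N, E ∣ N - q μ, (N - q μ, q) = 1}`. If `E` and `q` have a common prime `p`, then
`p ∣ N - q μ` and `p ∣ q`: excluded. Otherwise `μ` is in one class modulo `E` and `μ < N/q`: at most `N/(q E) + 1 ≤ 2 N/(q E)` values (`q E ≤ q B^4 ≤ N`).
`∑_{E ≤ B^4} τ(E)^4/E ≤ (1 + log B^4)^16` (`mt4_div`).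
-/

set_option autoImplicit false

open Finset

namespace Pool.Agent.Lib.OW

private theorem m3_card (N q E : ℕ) (hq : 1 ≤ q) (hE : 1 ≤ E) (S : Finset ℕ)
    (hS : ∀ μ ∈ S, q * μ < N ∧ (N - q * μ).Coprime q ∧ E ∣ N - q * μ) :
    S.card ≤ N / (q * E) + 1 := by
  have h1 : ∀ μ ∈ S, ∀ ν ∈ S, μ ≤ ν → μ % E = ν % E := by
    intro μ hμ ν hν hle
    obtain ⟨a1, a2, a3⟩ := hS μ hμ
    obtain ⟨b1, b2, b3⟩ := hS ν hν
    have hco : E.Coprime q := Nat.Coprime.coprime_dvd_left a3 a2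
    have h2 : E ∣ (N - q * μ) - (N - q * ν) := Nat.dvd_sub a3 b3
    have h3 : (N - q * μ) - (N - q * ν) = q * (ν - μ) := by
      have : q * μ ≤ q * ν := Nat.mul_le_mul_left q hle
      rw [Nat.mul_sub]
      omega
    rw [h3] at h2
    have h4 : E ∣ ν - μ := hco.dvd_of_dvd_mul_left h2
    have h5 : μ ≡ ν [MOD E] := (Nat.modEq_iff_dvd' hle).mpr h4
    exact h5
  have h2 : S.card ≤ (range (N / (q * E) + 1)).card := by
    apply card_le_card_of_injOn (fun μ => μ / E)
    · intro μ hμ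
      have h3 := (hS μ hμ).1
      have h4 : μ / E ≤ N / (q * E) := by
        rw [Nat.le_div_iff_mul_le (by positivity)]
        calc μ / E * (q * E) = q * (μ / E * E) := by ring
          _ ≤ q * μ := Nat.mul_le_mul_left q (Nat.div_mul_le_self μ E)
          _ ≤ N := h3.le
      have h5 : μ / E < N / (q * E) + 1 := by omega
      simpa using h5
    · intro μ hμ ν hν hd
      have h3 : μ % E = ν % E := by
        rcases le_total μ ν with h | h
        · exact h1 μ hμ ν hν h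
        · exact (h1 ν hν μ hμ h).symm
      have hd' : μ / E = ν / E := hd
      rw [← Nat.div_add_mod μ E, ← Nat.div_add_mod ν E, hd', h3]
  rwa [card_range] at h2

theorem m_low (N q B : ℕ) (hq : 1 ≤ q) (hB : 1 ≤ B) (h : q * B ^ 4 ≤ N) :
    ∑ μ ∈ (Finset.range N).filter (fun μ => q * μ < N ∧ (N - q * μ).Coprime q), (D1 B (N - q * μ) : ℝ) ^ 4 ≤
      2 * N / q * (1 + Real.log (B ^ 4 : ℕ)) ^ 16 := by
  set S := (Finset.range N).filter (fun μ => q * μ < N ∧ (N - q * μ).Coprime q) with hS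
  have hq0 : (0 : ℝ) < q := by exact_mod_cast hq
  calc ∑ μ ∈ S, (D1 B (N - q * μ) : ℝ) ^ 4
      ≤ ∑ μ ∈ S, ∑ E ∈ Finset.Icc 1 (B ^ 4), (if E ∣ N - q * μ then (E.divisors.card : ℝ) ^ 4 else 0) := by
        refine sum_le_sum fun μ hμ => ?_
        have h1 := (mem_filter.mp hμ).2.1
        have h2 := d1_four B (N - q * μ) (by omega)
        rwa [sum_filter] at h2
    _ = ∑ E ∈ Finset.Icc 1 (B ^ 4), ((S.filter (fun μ => E ∣ N - q * μ)).card : ℝ) *
          (E.divisors.card : ℝ) ^ 4 := by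
        rw [sum_comm]
        refine sum_congr rfl fun E _ => ?_
        rw [← sum_filter, sum_const, nsmul_eq_mul]
    _ ≤ ∑ E ∈ Finset.Icc 1 (B ^ 4), 2 * N / q * ((E.divisors.card : ℝ) ^ 4 / E) := by
        refine sum_le_sum fun E hE => ?_
        rw [Finset.mem_Icc] at hE
        have hE0 : (0 : ℝ) < E := by exact_mod_cast hE.1
        have h1 := m3_card N q E hq hE.1 (S.filter (fun μ => E ∣ N - q * μ)) (by
          intro μ hμ
          rw [mem_filter] at hμ
          have h2 := (mem_filter.mp hμ.1).2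
          exact ⟨h2.1, h2.2, hμ.2⟩)
        have h2 : ((S.filter (fun μ => E ∣ N - q * μ)).card : ℝ) ≤ 2 * N / (q * E) := by
          have h3 : ((S.filter (fun μ => E ∣ N - q * μ)).card : ℝ) ≤ ((N / (q * E) : ℕ) : ℝ) + 1 := by
            exact_mod_cast h1
          have h4 : ((N / (q * E) : ℕ) : ℝ) ≤ (N : ℝ) / ((q * E : ℕ) : ℝ) := Nat.cast_div_le
          have h5 : (1 : ℝ) ≤ (N : ℝ) / (q * E) := by
            rw [one_le_div (by positivity)]
            have h6 : q * E ≤ N := (Nat.mul_le_mul_left q hE.2).trans h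
            exact_mod_cast h6
          push_cast at h4
          have h6 : 2 * (N : ℝ) / (q * E) = N / (q * E) + N / (q * E) := by ring
          linarith
        have h3 := mul_le_mul_of_nonneg_right h2 (by positivity : (0 : ℝ) ≤ (E.divisors.card : ℝ) ^ 4)
        refine h3.trans (le_of_eq ?_)
        field_simp
    _ = 2 * N / q * ∑ E ∈ Finset.Icc 1 (B ^ 4), (E.divisors.card : ℝ) ^ 4 / E := by rw [mul_sum]
    _ ≤ 2 * N / q * (1 + Real.log (B ^ 4 : ℕ)) ^ 16 :=
        mul_le_mul_of_nonneg_left (mt4_div (B ^ 4)) (by positivity)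

end Pool.Agent.Lib.OW
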