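import Mathlib
import Pool.Agent.Lib.MP_7b7e48_nt.RG.RAP1

/-!
# Module M_2: `1 * c` in a coprime class, upper bound, arbitrary modulus

The hyperbola method as in `RG/RAP2.lean` (whose private lemmas are copied here).
-/

set_option autoImplicit false

open Finset

namespace Pool.Agent.Lib.OW

open Pool.Agent.Lib.RG

/-- The number of integers of a residue class. -/
private theorem M2_class (M r Y : ℕ) (hM : 1 ≤ M) :
    |(((Finset.Icc 1 Y).filter (fun f => f ≡ r [MOD M])).card : ℝ) - (Y : ℝ) / M| ≤ 1 := by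
  have h0 : Finset.Icc 1 Y = Finset.Ioc 0 Y := by
    ext f
    rw [Finset.mem_Icc, Finset.mem_Ioc]
    omega
  have h1 := Nat.Ioc_filter_modEq_card 0 Y (show 0 < M by omega) r
  rw [← h0] at h1
  set K : ℕ := ((Finset.Icc 1 Y).filter (fun f => f ≡ r [MOD M])).card with hK
  have hM0 : (0 : ℚ) < M := by exact_mod_cast hM
  have e1 : ((Y : ℚ) - r) / M - (((0 : ℕ) : ℚ) - r) / M = Y / M := by
    push_cast
    ring
  have a1 := Int.floor_le (((Y : ℚ) - r) / M)
  have a2 := Int.lt_floor_add_one (((Y : ℚ) - r) / M)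
  have a3 := Int.floor_le ((((0 : ℕ) : ℚ) - r) / M)
  have a4 := Int.lt_floor_add_one ((((0 : ℕ) : ℚ) - r) / M)
  have hYM : (0 : ℚ) ≤ Y / M := by positivity
  have h2 : |(K : ℚ) - Y / M| ≤ 1 := by
    have h3 : (K : ℚ) = ((max (⌊((Y : ℚ) - r) / M⌋ - ⌊(((0 : ℕ) : ℚ) - r) / M⌋) 0 : ℤ) : ℚ) := by
      rw [← h1]
      push_cast
      rfl
    rw [h3, abs_le]
    rcases max_cases (⌊((Y : ℚ) - r) / M⌋ - ⌊(((0 : ℕ) : ℚ) - r) / M⌋) 0 with ⟨h4, h5⟩ | ⟨h4, h5⟩
    · rw [h4]
      push_cast at *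
      constructor <;> linarith
    · rw [h4]
      have h6 : ((⌊((Y : ℚ) - r) / M⌋ - ⌊(((0 : ℕ) : ℚ) - r) / M⌋ : ℤ) : ℚ) ≤ -1 := by
        have : ⌊((Y : ℚ) - r) / M⌋ - ⌊(((0 : ℕ) : ℚ) - r) / M⌋ ≤ -1 := by omega
        exact_mod_cast this
      push_cast at *
      constructor <;> linarith
  have h3 : ((|(K : ℚ) - Y / M| : ℚ) : ℝ) ≤ 1 := by exact_mod_cast h2
  push_cast at h3
  exact h3

private theorem M2_inv {e m : ℕ} (h : e.Coprime m) (hm : 1 ≤ m) : ∃ e' : ℕ, e * e' ≡ 1 [MOD m] := by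
  rcases Nat.eq_or_lt_of_le hm with h1 | h1
  · exact ⟨0, by rw [← h1]; exact Nat.modEq_one⟩
  · obtain ⟨m', _, h2⟩ := Nat.exists_mul_mod_eq_one_of_coprime h h1
    refine ⟨m', ?_⟩
    unfold Nat.ModEq
    rw [h2, Nat.mod_eq_of_lt h1]

/-- Solution of a linear congruence. -/
private theorem M2_solve (e m b : ℕ) (he : 1 ≤ e) (hm : 1 ≤ m) (hg : Nat.gcd e m ∣ b) :
    ∃ r : ℕ, ∀ f : ℕ, (e * f ≡ b [MOD m] ↔ f ≡ r [MOD m / Nat.gcd e m]) := by
  set g : ℕ := Nat.gcd e m with hgdef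
  have hg0 : 0 < g := Nat.gcd_pos_of_pos_left _ he
  obtain ⟨b', hb'⟩ := hg
  have he' : g * (e / g) = e := Nat.mul_div_cancel' (Nat.gcd_dvd_left e m)
  have hm' : g * (m / g) = m := Nat.mul_div_cancel' (Nat.gcd_dvd_right e m)
  have hcop : (e / g).Coprime (m / g) := Nat.coprime_div_gcd_div_gcd hg0
  have hm1 : 1 ≤ m / g := Nat.div_pos (Nat.le_of_dvd hm (Nat.gcd_dvd_right e m)) hg0
  obtain ⟨e'', h1⟩ := M2_inv hcop hm1
  refine ⟨e'' * b', fun f => ?_⟩
  have h2' := Nat.ModEq.mul_left_cancel_iff' (a := e / g * f) (b := b') (m := m / g) hg0.ne'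
  rw [← mul_assoc, he', hm', ← hb'] at h2'
  rw [h2']
  constructor
  · intro h3
    have h4 : e'' * (e / g * f) ≡ e'' * b' [MOD m / g] := h3.mul_left e''
    have h5 : e'' * (e / g * f) = e / g * e'' * f := by ring
    rw [h5] at h4
    have h6 : e / g * e'' * f ≡ 1 * f [MOD m / g] := h1.mul_right f
    rw [one_mul] at h6
    exact h6.symm.trans h4
  · intro h3
    have h4 : e / g * f ≡ e / g * (e'' * b') [MOD m / g] := h3.mul_left (e / g)
    have h5 : e / g * (e'' * b') = e / g * e'' * b' := by ring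
    rw [h5] at h4
    have h6 : e / g * e'' * b' ≡ 1 * b' [MOD m / g] := h1.mul_right b'
    rw [one_mul] at h6
    exact h4.trans h6

private theorem M2_none {e m b f : ℕ} (hg : ¬ Nat.gcd e m ∣ b) : ¬ e * f ≡ b [MOD m] := by
  intro h
  exact hg ((h.dvd_iff (Nat.gcd_dvd_right e m)).1 ((Nat.gcd_dvd_left e m).mul_right f))

/-- The number of the cofactors. -/
private theorem M2_cnt (e m b y : ℕ) (he : 1 ≤ e) (hm : 1 ≤ m) :
    |(((Finset.Icc 1 (y / e)).filter (fun f => e * f ≡ b [MOD m])).card : ℝ) -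
      (if Nat.gcd e m ∣ b then (y : ℝ) / m * ((Nat.gcd e m : ℝ) / e) else 0)| ≤ 2 := by
  by_cases hg : Nat.gcd e m ∣ b
  · rw [if_pos hg]
    obtain ⟨r, hr⟩ := M2_solve e m b he hm hg
    have h1 : (Finset.Icc 1 (y / e)).filter (fun f => e * f ≡ b [MOD m]) =
        (Finset.Icc 1 (y / e)).filter (fun f => f ≡ r [MOD m / Nat.gcd e m]) :=
      Finset.filter_congr fun f _ => hr f
    rw [h1]
    have hg0 : 0 < Nat.gcd e m := Nat.gcd_pos_of_pos_left _ he
    have hgm : Nat.gcd e m ∣ m := Nat.gcd_dvd_right e m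
    have hM : 1 ≤ m / Nat.gcd e m := Nat.div_pos (Nat.le_of_dvd hm hgm) hg0
    have h2 := M2_class (m / Nat.gcd e m) r (y / e) hM
    have hM' : (1 : ℝ) ≤ ((m / Nat.gcd e m : ℕ) : ℝ) := by exact_mod_cast hM
    have he0 : (0 : ℝ) < e := by exact_mod_cast he
    have hm0 : (0 : ℝ) < m := by exact_mod_cast hm
    have hg0' : (0 : ℝ) < (Nat.gcd e m : ℝ) := by exact_mod_cast hg0
    have h3 : (y : ℝ) / m * ((Nat.gcd e m : ℝ) / e) =
        (y : ℝ) / e / ((m / Nat.gcd e m : ℕ) : ℝ) := by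
      rw [Nat.cast_div hgm hg0'.ne']
      field_simp
    have h4 : |((y / e : ℕ) : ℝ) - (y : ℝ) / e| ≤ 1 := by
      have h5 : ((y / e : ℕ) : ℝ) ≤ (y : ℝ) / e := Nat.cast_div_le
      have h6 : (y : ℝ) / e < ((y / e : ℕ) : ℝ) + 1 := by
        rw [div_lt_iff₀ he0]
        have h7 : y < (y / e + 1) * e := by
          have := Nat.lt_div_mul_add (a := y) (b := e) (by omega)
          calc y < y / e * e + e := this
            _ = (y / e + 1) * e := by ring
        exact_mod_cast h7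
      rw [abs_le]
      constructor <;> linarith
    have h5 : |((y / e : ℕ) : ℝ) / ((m / Nat.gcd e m : ℕ) : ℝ) -
        (y : ℝ) / e / ((m / Nat.gcd e m : ℕ) : ℝ)| ≤ 1 := by
      rw [← sub_div, abs_div, abs_of_pos (show (0 : ℝ) < ((m / Nat.gcd e m : ℕ) : ℝ) by linarith)]
      rw [div_le_one (by linarith)]
      linarith
    rw [h3]
    have h6 := abs_sub_le
      (((Finset.Icc 1 (y / e)).filter (fun f => f ≡ r [MOD m / Nat.gcd e m])).card : ℝ)
      (((y / e : ℕ) : ℝ) / ((m / Nat.gcd e m : ℕ) : ℝ))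
      ((y : ℝ) / e / ((m / Nat.gcd e m : ℕ) : ℝ))
    linarith
  · rw [if_neg hg]
    have h1 : (Finset.Icc 1 (y / e)).filter (fun f => e * f ≡ b [MOD m]) = ∅ := by
      rw [Finset.filter_eq_empty_iff]
      intro f _
      exact M2_none hg
    rw [h1, Finset.card_empty]
    norm_num

/-- The inner sums over the larger factor. -/
private theorem M2_block {N : ℕ} {c : ℕ → ℝ} (hc : RC N c) (hN : 1 ≤ N) (m : ℕ) (hm : m.Coprime N)
    (hm1 : 1 ≤ m) (f b A B : ℕ) :
    |∑ e ∈ (Finset.Ioc A B).filter (fun e => e * f ≡ b [MOD m]), c e| ≤ 2 * PB N := by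
  classical
  have hP := RAP1_PB_one hc
  set S : Finset ℕ := (Finset.Ioc A B).filter (fun e => e * f ≡ b [MOD m]) with hS
  rcases S.eq_empty_or_nonempty with hE | hne
  · rw [hE, Finset.sum_empty, abs_zero]
    linarith
  · set e0 : ℕ := S.min' hne with he0
    have he0S : e0 ∈ S := S.min'_mem hne
    set m' : ℕ := m / Nat.gcd m f with hm'
    have hg0 : 0 < Nat.gcd m f := Nat.gcd_pos_of_pos_left _ hm1
    have hm'0 : 0 < m' := Nat.div_pos (Nat.le_of_dvd hm1 (Nat.gcd_dvd_left m f)) hg0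
    have hm'c : m'.Coprime N :=
      Nat.Coprime.coprime_dvd_left (Nat.div_dvd_of_dvd (Nat.gcd_dvd_left m f)) hm
    obtain ⟨hA1, hA2⟩ := Finset.mem_filter.1 he0S
    rw [Finset.mem_Ioc] at hA1
    have hdvd : m ∣ m' * f := by
      obtain ⟨f', hf'⟩ := Nat.gcd_dvd_right m f
      have h1 : m' * Nat.gcd m f = m := Nat.div_mul_cancel (Nat.gcd_dvd_left m f)
      refine ⟨f', ?_⟩
      calc m' * f = m' * (Nat.gcd m f * f') := by rw [← hf']
        _ = m' * Nat.gcd m f * f' := by ring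
        _ = m * f' := by rw [h1]
    have hSimg : S = (Finset.range ((B - e0) / m' + 1)).image (fun j => e0 + j * m') := by
      ext e
      rw [Finset.mem_image]
      constructor
      · intro he
        have hle : e0 ≤ e := S.min'_le e he
        obtain ⟨h1, h2⟩ := Finset.mem_filter.1 he
        rw [Finset.mem_Ioc] at h1
        have h3 : e0 ≡ e [MOD m'] :=
          Nat.ModEq.cancel_right_div_gcd (show 0 < m from hm1) (hA2.trans h2.symm)
        have h4 : m' ∣ e - e0 := (Nat.modEq_iff_dvd' hle).1 h3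
        refine ⟨(e - e0) / m', ?_, ?_⟩
        · rw [Finset.mem_range, Nat.lt_succ_iff]
          exact Nat.div_le_div_right (by omega)
        · rw [Nat.div_mul_cancel h4]
          omega
      · rintro ⟨j, hj, rfl⟩
        rw [Finset.mem_range, Nat.lt_succ_iff, Nat.le_div_iff_mul_le hm'0] at hj
        rw [hS, Finset.mem_filter, Finset.mem_Ioc]
        refine ⟨⟨by omega, by omega⟩, ?_⟩
        have h1 : (e0 + j * m') * f = e0 * f + j * (m' * f) := by ring
        have h2 : j * (m' * f) ≡ 0 [MOD m] := (Nat.modEq_zero_iff_dvd).2 (hdvd.mul_left j)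
        rw [h1]
        have h3 := hA2.add h2
        rw [add_zero] at h3
        exact h3
    rw [hSimg, Finset.sum_image]
    · exact pv_prog N hN c hc m' hm'c e0 _
    · intro i _ j _ hij
      simp only at hij
      exact Nat.eq_of_mul_eq_mul_right hm'0 (by omega)

/-- The hyperbola identity in a progression. -/
private theorem M2_double (c : ℕ → ℝ) (m b y Z : ℕ) (hZ : y ≤ Z) :
    ∑ n ∈ (Finset.Icc 1 y).filter (fun n => n % m = b % m), rr c n =
      ∑ e ∈ Finset.Icc 1 Z,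
        c e * (((Finset.Icc 1 (y / e)).filter (fun f => e * f ≡ b [MOD m])).card : ℝ) := by
  classical
  have h1 : ∀ n ∈ (Finset.Icc 1 y).filter (fun n => n % m = b % m), rr c n =
      ∑ e ∈ Finset.Icc 1 Z, if e ∣ n then c e else 0 := by
    intro n hn
    have hn1 := Finset.mem_Icc.1 (Finset.mem_filter.1 hn).1
    unfold rr
    rw [← Finset.sum_filter]
    refine Finset.sum_congr ?_ fun _ _ => rfl
    ext a
    rw [Nat.mem_divisors, Finset.mem_filter, Finset.mem_Icc]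
    constructor
    · rintro ⟨h, _⟩
      have h2 := Nat.le_of_dvd (by omega) h
      have h4 : 0 < a := Nat.pos_of_dvd_of_pos h (by omega)
      exact ⟨⟨h4, by omega⟩, h⟩
    · rintro ⟨_, h⟩
      exact ⟨h, by omega⟩
  rw [Finset.sum_congr rfl h1, Finset.sum_comm]
  refine Finset.sum_congr rfl fun e he => ?_
  have he1 : 0 < e := (Finset.mem_Icc.1 he).1
  rw [← Finset.sum_filter, Finset.sum_const, nsmul_eq_mul, mul_comm]
  congr 2
  refine Finset.card_nbij' (fun n => n / e) (fun f => e * f) ?_ ?_ ?_ ?_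
  · intro n hn
    simp only [Finset.coe_filter, Finset.mem_filter, Finset.mem_Icc, Set.mem_setOf_eq] at hn ⊢
    obtain ⟨⟨⟨h2, h3⟩, h4⟩, h5⟩ := hn
    refine ⟨⟨Nat.div_pos (Nat.le_of_dvd h2 h5) he1, Nat.div_le_div_right h3⟩, ?_⟩
    rw [Nat.mul_div_cancel' h5]
    exact h4
  · intro f hf
    simp only [Finset.coe_filter, Finset.mem_filter, Finset.mem_Icc, Set.mem_setOf_eq] at hf ⊢
    obtain ⟨⟨h2, h3⟩, h4⟩ := hf
    refine ⟨⟨⟨Nat.mul_pos he1 h2, ?_⟩, h4⟩, dvd_mul_right e f⟩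
    calc e * f ≤ e * (y / e) := Nat.mul_le_mul_left _ h3
      _ ≤ y := Nat.mul_div_le y e
  · intro n hn
    simp only [Finset.coe_filter, Finset.mem_filter, Finset.mem_Icc, Set.mem_setOf_eq] at hn
    exact Nat.mul_div_cancel' hn.2
  · intro f _
    exact Nat.mul_div_cancel_left f he1

/-- The contribution of the larger factors. -/
private theorem M2_large {N : ℕ} {c : ℕ → ℝ} (hc : RC N c) (hN : 1 ≤ N) (m : ℕ) (hm : m.Coprime N)
    (hm1 : 1 ≤ m) (b y A Z : ℕ) (hA : 1 ≤ A) (hZ : y ≤ Z) :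
    |∑ e ∈ Finset.Ioc A Z,
      c e * (((Finset.Icc 1 (y / e)).filter (fun f => e * f ≡ b [MOD m])).card : ℝ)| ≤
      (y : ℝ) / A * (2 * PB N) := by
  classical
  have hP := RAP1_PB_one hc
  have h1 : ∀ e ∈ Finset.Ioc A Z,
      c e * (((Finset.Icc 1 (y / e)).filter (fun f => e * f ≡ b [MOD m])).card : ℝ) =
      ∑ f ∈ Finset.Icc 1 y, if e * f ≤ y ∧ e * f ≡ b [MOD m] then c e else 0 := by
    intro e he
    have he1 : 0 < e := by
      have := (Finset.mem_Ioc.1 he).1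
      omega
    rw [← Finset.sum_filter, Finset.sum_const, nsmul_eq_mul, mul_comm]
    congr 3
    ext f
    rw [Finset.mem_filter, Finset.mem_filter, Finset.mem_Icc, Finset.mem_Icc,
      Nat.le_div_iff_mul_le he1, mul_comm f e]
    constructor
    · rintro ⟨⟨h2, h3⟩, h4⟩
      exact ⟨⟨h2, (Nat.le_mul_of_pos_left f he1).trans h3⟩, h3, h4⟩
    · rintro ⟨⟨h2, _⟩, h3, h4⟩
      exact ⟨⟨h2, h3⟩, h4⟩
  rw [Finset.sum_congr rfl h1, Finset.sum_comm]
  have h2 : ∀ f ∈ Finset.Icc 1 y,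
      |∑ e ∈ Finset.Ioc A Z, if e * f ≤ y ∧ e * f ≡ b [MOD m] then c e else 0| ≤
        if A * f ≤ y then 2 * PB N else 0 := by
    intro f hf
    have hf1 : 0 < f := (Finset.mem_Icc.1 hf).1
    have e1 : (∑ e ∈ Finset.Ioc A Z, if e * f ≤ y ∧ e * f ≡ b [MOD m] then c e else 0) =
        ∑ e ∈ (Finset.Ioc A (y / f)).filter (fun e => e * f ≡ b [MOD m]), c e := by
      rw [← Finset.sum_filter]
      refine Finset.sum_congr ?_ fun _ _ => rfl
      ext e
      rw [Finset.mem_filter, Finset.mem_filter, Finset.mem_Ioc, Finset.mem_Ioc,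
        Nat.le_div_iff_mul_le hf1]
      constructor
      · rintro ⟨⟨h3, _⟩, h4, h5⟩
        exact ⟨⟨h3, h4⟩, h5⟩
      · rintro ⟨⟨h3, h4⟩, h5⟩
        exact ⟨⟨h3, ((Nat.le_mul_of_pos_right e hf1).trans h4).trans hZ⟩, h4, h5⟩
    rw [e1]
    split_ifs with h3
    · exact M2_block hc hN m hm hm1 f b A (y / f)
    · have h4 : Finset.Ioc A (y / f) = ∅ := by
        rw [Finset.Ioc_eq_empty_iff]
        intro h5
        apply h3
        have h6 : A ≤ y / f := h5.le
        rwa [Nat.le_div_iff_mul_le hf1] at h6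
      rw [h4, Finset.filter_empty, Finset.sum_empty, abs_zero]
  refine (Finset.abs_sum_le_sum_abs _ _).trans ((Finset.sum_le_sum h2).trans ?_)
  rw [← Finset.sum_filter, Finset.sum_const, nsmul_eq_mul]
  have h3 : (((Finset.Icc 1 y).filter (fun f => A * f ≤ y)).card : ℝ) ≤ (y : ℝ) / A := by
    have h4 : (Finset.Icc 1 y).filter (fun f => A * f ≤ y) ⊆ Finset.Icc 1 (y / A) := by
      intro f hf
      rw [Finset.mem_filter, Finset.mem_Icc] at hf
      rw [Finset.mem_Icc, Nat.le_div_iff_mul_le (by omega), mul_comm]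
      exact ⟨hf.1.1, hf.2⟩
    have h5 := Finset.card_le_card h4
    rw [Nat.card_Icc, Nat.add_sub_cancel] at h5
    calc (((Finset.Icc 1 y).filter (fun f => A * f ≤ y)).card : ℝ) ≤ ((y / A : ℕ) : ℝ) := by
          exact_mod_cast h5
      _ ≤ (y : ℝ) / A := Nat.cast_div_le
  exact mul_le_mul_of_nonneg_right h3 (by linarith)


/-- a product of `1 + 1/p` over distinct integers `≥ 2` -/
private theorem M2_prod (s : Finset ℕ) : (∀ p ∈ s, 2 ≤ p) →
    ∏ p ∈ s, (1 + 1 / (p : ℝ)) ≤ ((s.card : ℝ) + 2) / 2 := by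
  induction s using Finset.induction_on_max with
  | empty =>
    intro _
    rw [Finset.prod_empty, Finset.card_empty]
    norm_num
  | insert a s ha ih =>
    intro h
    have hns : a ∉ s := fun hmem => lt_irrefl a (ha a hmem)
    rw [Finset.prod_insert hns, Finset.card_insert_of_notMem hns]
    have h1 := ih fun p hp => h p (Finset.mem_insert_of_mem hp)
    have h2 : s.card + 2 ≤ a := by
      have hsub : s ⊆ Finset.Ico 2 a := fun x hx =>
        Finset.mem_Ico.2 ⟨h x (Finset.mem_insert_of_mem hx), ha x hx⟩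
      have h3 := Finset.card_le_card hsub
      rw [Nat.card_Ico] at h3
      have h4 := h a (Finset.mem_insert_self a s)
      omega
    have h2' : (s.card : ℝ) + 2 ≤ a := by exact_mod_cast h2
    have hc0 : (0 : ℝ) ≤ (s.card : ℝ) := Nat.cast_nonneg _
    have h5 : 1 + 1 / (a : ℝ) ≤ ((s.card : ℝ) + 3) / ((s.card : ℝ) + 2) := by
      have h6 : 1 / (a : ℝ) ≤ 1 / ((s.card : ℝ) + 2) :=
        one_div_le_one_div_of_le (by linarith) h2'
      have h7 : ((s.card : ℝ) + 3) / ((s.card : ℝ) + 2) = 1 + 1 / ((s.card : ℝ) + 2) := by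
        field_simp
        ring
      linarith
    have h8 : 0 ≤ ∏ p ∈ s, (1 + 1 / (p : ℝ)) := Finset.prod_nonneg fun p _ => by positivity
    calc (1 + 1 / (a : ℝ)) * ∏ p ∈ s, (1 + 1 / (p : ℝ))
        ≤ (((s.card : ℝ) + 3) / ((s.card : ℝ) + 2)) * (((s.card : ℝ) + 2) / 2) :=
          mul_le_mul h5 h1 h8 (by positivity)
      _ = (((s.card + 1 : ℕ) : ℝ) + 2) / 2 := by
          push_cast
          field_simp
          ring

private theorem M2_two_pow (m : ℕ) (hm : 1 ≤ m) : 2 ^ m.primeFactors.card ≤ m := by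
  have h1 : 2 ^ m.primeFactors.card ≤ ∏ p ∈ m.primeFactors, p :=
    Finset.pow_card_le_prod _ _ _ fun p hp => (Nat.prime_of_mem_primeFactors hp).two_le
  exact h1.trans (Nat.le_of_dvd hm (Nat.prod_primeFactors_dvd m))

private theorem M2_cop (e m : ℕ) (hm : 1 ≤ m) :
    e.Coprime m ↔ e.Coprime (∏ p ∈ m.primeFactors, p) := by
  constructor
  · intro h
    exact Nat.Coprime.coprime_dvd_right (Nat.prod_primeFactors_dvd m) h
  · intro h
    by_contra hcon
    obtain ⟨p, hp, h1, h2⟩ := Nat.Prime.not_coprime_iff_dvd.1 hcon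
    have h3 : p ∈ m.primeFactors := Nat.mem_primeFactors.2 ⟨hp, h2, by omega⟩
    have h4 : p ∣ ∏ p ∈ m.primeFactors, p := Finset.dvd_prod_of_mem _ h3
    have h5 := Nat.dvd_gcd h1 h4
    rw [h] at h5
    exact hp.one_lt.ne' (Nat.dvd_one.1 h5)

/-- the explicit form -/
theorem M2_explicit {M : ℕ} (hM : 2 ≤ M) {c : ℕ → ℝ} {L : ℝ} (hc : RC M c) (hL : LV M c L)
    (m : ℕ) (hm1 : 1 ≤ m) (hm : m.Coprime M) (b : ℕ) (hb : b.Coprime m) (y A : ℕ) (hA : 1 ≤ A) :
    ∑ n ∈ (Finset.Icc 1 y).filter (fun n => n % m = b % m), rr c n ≤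
      L * ((m.primeFactors.card + 2) / 2) * (y / m) + 2 * A + 6 * PB M * (y / A) := by
  classical
  have hP := RAP1_PB_one hc
  have hm0 : (0 : ℝ) < m := by exact_mod_cast hm1
  have hA0 : (0 : ℝ) < A := by exact_mod_cast hA
  have hL0 : 0 ≤ L := hL.1
  set Z : ℕ := max y A with hZ
  have hyZ : y ≤ Z := le_max_left _ _
  have hAZ : A ≤ Z := le_max_right _ _
  rw [M2_double c m b y Z hyZ]
  have hsplit : Finset.Icc 1 Z = Finset.Icc 1 A ∪ Finset.Ioc A Z := by
    ext e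
    rw [Finset.mem_union, Finset.mem_Icc, Finset.mem_Icc, Finset.mem_Ioc]
    omega
  have hdisj : Disjoint (Finset.Icc 1 A) (Finset.Ioc A Z) := by
    rw [Finset.disjoint_left]
    intro e h1 h2
    rw [Finset.mem_Icc] at h1
    rw [Finset.mem_Ioc] at h2
    omega
  rw [hsplit, Finset.sum_union hdisj]
  have h2 := (abs_le.1 (M2_large hc (by omega) m hm hm1 b y A Z hA hyZ)).2
  -- the first sum
  have hgcd : ∀ e : ℕ, (Nat.gcd e m ∣ b ↔ e.Coprime m) := by
    intro e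
    constructor
    · intro h
      have h3 : Nat.gcd e m ∣ Nat.gcd b m := Nat.dvd_gcd h (Nat.gcd_dvd_right e m)
      rw [hb] at h3
      exact Nat.dvd_one.1 h3
    · intro h
      rw [h]
      exact one_dvd b
  have h3 : ∀ e ∈ Finset.Icc 1 A,
      c e * (((Finset.Icc 1 (y / e)).filter (fun f => e * f ≡ b [MOD m])).card : ℝ) ≤
        (if e.Coprime m then (y : ℝ) / m * (c e / e) else 0) + 2 := by
    intro e he
    have he1 : 1 ≤ e := (Finset.mem_Icc.1 he).1
    have he0 : (0 : ℝ) < e := by exact_mod_cast he1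
    have h4 := M2_cnt e m b y he1 hm1
    have h5 := RAP1_abs hc e
    by_cases h6 : e.Coprime m
    · rw [if_pos ((hgcd e).2 h6)] at h4
      rw [if_pos h6]
      have h7 : (Nat.gcd e m : ℝ) = 1 := by exact_mod_cast h6
      rw [h7] at h4
      set K : ℝ := (((Finset.Icc 1 (y / e)).filter (fun f => e * f ≡ b [MOD m])).card : ℝ)
      have h8 : |c e * (K - (y : ℝ) / m * (1 / e))| ≤ 2 := by
        rw [abs_mul]
        calc |c e| * |K - (y : ℝ) / m * (1 / e)| ≤ 1 * 2 :=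
              mul_le_mul h5 h4 (abs_nonneg _) (by norm_num)
          _ = 2 := by norm_num
      have h9 := (abs_le.1 h8).2
      have h10 : c e * (K - (y : ℝ) / m * (1 / e)) = c e * K - (y : ℝ) / m * (c e / e) := by ring
      rw [h10] at h9
      linarith
    · rw [if_neg (fun h => h6 ((hgcd e).1 h))] at h4
      rw [if_neg h6, sub_zero] at *
      rw [zero_add]
      set K : ℝ := (((Finset.Icc 1 (y / e)).filter (fun f => e * f ≡ b [MOD m])).card : ℝ)
      calc c e * K ≤ |c e * K| := le_abs_self _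
        _ = |c e| * |K| := abs_mul _ _
        _ ≤ 1 * 2 := mul_le_mul h5 h4 (abs_nonneg _) (by norm_num)
        _ = 2 := by norm_num
  have h4 := Finset.sum_le_sum h3
  rw [Finset.sum_add_distrib, Finset.sum_const, Nat.card_Icc, Nat.add_sub_cancel, nsmul_eq_mul,
    ← Finset.sum_filter, ← Finset.mul_sum] at h4
  -- the main term
  set k : ℕ := ∏ p ∈ m.primeFactors, p with hk
  have hkpf : k.primeFactors = m.primeFactors :=
    Nat.primeFactors_prod fun p hp => Nat.prime_of_mem_primeFactors hp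
  have hksq : Squarefree k := by
    rw [hk]
    refine Finset.squarefree_prod_of_pairwise_isCoprime (fun p hp q hq hpq => ?_) fun p hp => ?_
    · rw [Function.onFun, ← Nat.coprime_iff_isRelPrime,
        Nat.coprime_primes (Nat.prime_of_mem_primeFactors hp) (Nat.prime_of_mem_primeFactors hq)]
      exact hpq
    · exact (Nat.prime_of_mem_primeFactors hp).squarefree
  have hkm : k ≤ m := Nat.le_of_dvd hm1 (Nat.prod_primeFactors_dvd m)
  have hfil : (Finset.Icc 1 A).filter (fun e => e.Coprime m) =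
      (Finset.Icc 1 A).filter (fun e => e.Coprime k) :=
    Finset.filter_congr fun e _ => M2_cop e m hm1
  rw [hfil] at h4
  have h5 := (abs_le.1 (cop_sum M hM c L hc hL k hksq A hA)).2
  have hτ : (k.divisors.card : ℝ) ≤ m := by
    have h6 : k.divisors.card ≤ k := Nat.card_divisors_le_self k
    exact_mod_cast h6.trans hkm
  have hprod : ∏ p ∈ k.primeFactors, (1 - c p / p) ≤ ((m.primeFactors.card : ℝ) + 2) / 2 := by
    rw [hkpf]
    refine le_trans ?_ (M2_prod m.primeFactors fun p hp => (Nat.prime_of_mem_primeFactors hp).two_le)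
    refine Finset.prod_le_prod (fun p hp => ?_) fun p hp => ?_
    · have hp2 : (2 : ℝ) ≤ p := by exact_mod_cast (Nat.prime_of_mem_primeFactors hp).two_le
      have h7 := (abs_le.1 (RAP1_abs hc p)).2
      have h8 : c p / p ≤ 1 := by
        rw [div_le_one (by linarith)]
        linarith
      linarith
    · have hp2 : (2 : ℝ) ≤ p := by exact_mod_cast (Nat.prime_of_mem_primeFactors hp).two_le
      have h7 := (abs_le.1 (RAP1_abs hc p)).1
      have h8 : -(1 / (p : ℝ)) ≤ c p / p := by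
        rw [← neg_div]
        exact div_le_div_of_nonneg_right h7 (by linarith)
      linarith
  have h6 : ∑ e ∈ (Finset.Icc 1 A).filter (fun e => e.Coprime k), c e / e ≤
      L * (((m.primeFactors.card : ℝ) + 2) / 2) + 4 * m * PB M / A := by
    have h7 : L * ∏ p ∈ k.primeFactors, (1 - c p / p) ≤ L * (((m.primeFactors.card : ℝ) + 2) / 2) :=
      mul_le_mul_of_nonneg_left hprod hL0
    have h8 : 4 * (k.divisors.card : ℝ) * PB M / A ≤ 4 * m * PB M / A := by
      have : (0 : ℝ) ≤ PB M := by linarith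
      gcongr
    linarith
  have hym : (0 : ℝ) ≤ (y : ℝ) / m := by positivity
  have h7 := mul_le_mul_of_nonneg_left h6 hym
  have h8 : (y : ℝ) / m * (L * (((m.primeFactors.card : ℝ) + 2) / 2) + 4 * m * PB M / A) =
      L * ((m.primeFactors.card + 2) / 2) * (y / m) + 4 * PB M * (y / A) := by
    field_simp
  rw [h8] at h7
  have h9 : (y : ℝ) / A * (2 * PB M) = 2 * PB M * (y / A) := by ring
  rw [h9] at h2
  linarith

theorem rapc (W : ℕ) (hW : 1 ≤ W) : ∃ N0 : ℕ, ∀ N : ℕ, N0 ≤ N → ∀ (c : ℕ → ℝ) (L : ℝ),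
    RC (W * N) c → LV (W * N) c L → ∀ m b y : ℕ, 1 ≤ m → (m : ℝ) ≤ (N : ℝ) ^ ((1 : ℝ) / 50) → m.Coprime (W * N) →
    b.Coprime m → y ≤ N →
    ∑ n ∈ (Finset.Icc 1 y).filter (fun n => n % m = b % m), rr c n ≤
      2 * Real.log N * L * y / m + (N : ℝ) ^ ((9 : ℝ) / 10) := by
  obtain ⟨C, hC, hPB⟩ := PB_le (1 / 100) (by norm_num)
  have hev : ∀ᶠ x : ℝ in Filter.atTop, 4 + 6 * C * (W : ℝ) ^ ((1 : ℝ) / 2 + 1 / 100) ≤
      x ^ ((1 : ℝ) / 10) :=
    (tendsto_rpow_atTop (by norm_num)).eventually_ge_atTop _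
  obtain ⟨x0, hx0⟩ := Filter.eventually_atTop.1 hev
  refine ⟨max 3 ⌈x0⌉₊, ?_⟩
  intro N hN c L hc hL m b y hm1 hmN hm hb hy
  have hN3 : 3 ≤ N := (le_max_left _ _).trans hN
  have hNx : x0 ≤ (N : ℝ) := (Nat.le_ceil x0).trans (by exact_mod_cast (le_max_right _ _).trans hN)
  have hNr : (3 : ℝ) ≤ N := by exact_mod_cast hN3
  have hN0 : (0 : ℝ) < N := by linarith
  have hN1 : (1 : ℝ) ≤ N := by linarith
  have hWN : 2 ≤ W * N := by nlinarith
  have hlog : 1 ≤ Real.log N := by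
    rw [Real.le_log_iff_exp_le hN0]
    exact (Real.exp_one_lt_d9.le.trans (by norm_num)).trans hNr
  have hL0 : 0 ≤ L := hL.1
  have hm0 : (0 : ℝ) < m := by exact_mod_cast hm1
  set A : ℕ := ⌈(N : ℝ) ^ ((3 : ℝ) / 4)⌉₊ with hA
  have hpos : (0 : ℝ) < (N : ℝ) ^ ((3 : ℝ) / 4) := Real.rpow_pos_of_pos hN0 _
  have hone : (1 : ℝ) ≤ (N : ℝ) ^ ((3 : ℝ) / 4) := Real.one_le_rpow hN1 (by norm_num)
  have hA1 : 1 ≤ A := Nat.one_le_iff_ne_zero.2 (Nat.ceil_pos.2 hpos).ne'
  have hAge : (N : ℝ) ^ ((3 : ℝ) / 4) ≤ A := Nat.le_ceil _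
  have hAle : (A : ℝ) ≤ 2 * (N : ℝ) ^ ((3 : ℝ) / 4) := by
    have := Nat.ceil_lt_add_one hpos.le
    rw [← hA] at this
    linarith
  have h := M2_explicit hWN hc hL m hm1 hm b hb y A hA1
  -- the number of the prime factors
  have hom : ((m.primeFactors.card : ℝ) + 2) / 2 ≤ 2 * Real.log N := by
    have h1 := M2_two_pow m hm1
    have h2 : (m.primeFactors.card : ℝ) * Real.log 2 ≤ Real.log m := by
      rw [← Real.log_pow]
      refine Real.log_le_log (by positivity) ?_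
      exact_mod_cast h1
    have h3 : Real.log m ≤ 1 / 50 * Real.log N := by
      calc Real.log m ≤ Real.log ((N : ℝ) ^ ((1 : ℝ) / 50)) := Real.log_le_log hm0 hmN
        _ = 1 / 50 * Real.log N := Real.log_rpow hN0 _
    have h4 : (1 : ℝ) / 2 ≤ Real.log 2 := by
      have := Real.log_two_gt_d9
      linarith
    have h5 : (0 : ℝ) ≤ (m.primeFactors.card : ℝ) := Nat.cast_nonneg _
    nlinarith
  have hmain : L * ((m.primeFactors.card + 2) / 2) * (y / m) ≤ 2 * Real.log N * L * y / m := by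
    have h1 : L * (((m.primeFactors.card : ℝ) + 2) / 2) ≤ L * (2 * Real.log N) :=
      mul_le_mul_of_nonneg_left hom hL0
    have h2 : (0 : ℝ) ≤ (y : ℝ) / m := by positivity
    calc L * ((m.primeFactors.card + 2) / 2) * (y / m) ≤ L * (2 * Real.log N) * (y / m) :=
          mul_le_mul_of_nonneg_right h1 h2
      _ = 2 * Real.log N * L * y / m := by ring
  -- the error terms
  have hPBle := (hPB (W * N) hWN).1
  have hPB0 : 0 ≤ PB (W * N) := zero_le_one.trans (RAP1_PB_one hc)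
  have h1 : (y : ℝ) / A ≤ (N : ℝ) ^ ((1 : ℝ) / 4) := by
    have hy' : (y : ℝ) ≤ N := by exact_mod_cast hy
    have hA0 : (0 : ℝ) < A := lt_of_lt_of_le hpos hAge
    rw [div_le_iff₀ hA0]
    calc (y : ℝ) ≤ N := hy'
      _ = (N : ℝ) ^ ((1 : ℝ) / 4) * (N : ℝ) ^ ((3 : ℝ) / 4) := by
          rw [← Real.rpow_add hN0]
          norm_num
      _ ≤ (N : ℝ) ^ ((1 : ℝ) / 4) * A := mul_le_mul_of_nonneg_left hAge (by positivity)
  have h2 : PB (W * N) ≤ C * (W : ℝ) ^ ((1 : ℝ) / 2 + 1 / 100) * (N : ℝ) ^ ((1 : ℝ) / 2 + 1 / 100) := by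
    refine hPBle.trans (le_of_eq ?_)
    push_cast
    rw [Real.mul_rpow (Nat.cast_nonneg _) hN0.le]
    ring
  have h3 : 6 * PB (W * N) * (y / A) ≤
      6 * C * (W : ℝ) ^ ((1 : ℝ) / 2 + 1 / 100) * (N : ℝ) ^ ((4 : ℝ) / 5) := by
    calc 6 * PB (W * N) * (y / A) ≤ 6 * (C * (W : ℝ) ^ ((1 : ℝ) / 2 + 1 / 100) *
          (N : ℝ) ^ ((1 : ℝ) / 2 + 1 / 100)) * (N : ℝ) ^ ((1 : ℝ) / 4) := by
          refine mul_le_mul (by linarith) h1 (by positivity) (by positivity)
      _ = 6 * C * (W : ℝ) ^ ((1 : ℝ) / 2 + 1 / 100) * ((N : ℝ) ^ ((1 : ℝ) / 2 + 1 / 100) *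
          (N : ℝ) ^ ((1 : ℝ) / 4)) := by ring
      _ ≤ 6 * C * (W : ℝ) ^ ((1 : ℝ) / 2 + 1 / 100) * (N : ℝ) ^ ((4 : ℝ) / 5) := by
          refine mul_le_mul_of_nonneg_left ?_ (by positivity)
          rw [← Real.rpow_add hN0]
          exact Real.rpow_le_rpow_of_exponent_le hN1 (by norm_num)
  have h4 : 2 * (A : ℝ) ≤ 4 * (N : ℝ) ^ ((4 : ℝ) / 5) := by
    have : (N : ℝ) ^ ((3 : ℝ) / 4) ≤ (N : ℝ) ^ ((4 : ℝ) / 5) :=
      Real.rpow_le_rpow_of_exponent_le hN1 (by norm_num)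
    linarith
  have h5 : (4 + 6 * C * (W : ℝ) ^ ((1 : ℝ) / 2 + 1 / 100)) * (N : ℝ) ^ ((4 : ℝ) / 5) ≤
      (N : ℝ) ^ ((9 : ℝ) / 10) := by
    calc (4 + 6 * C * (W : ℝ) ^ ((1 : ℝ) / 2 + 1 / 100)) * (N : ℝ) ^ ((4 : ℝ) / 5) ≤
          (N : ℝ) ^ ((1 : ℝ) / 10) * (N : ℝ) ^ ((4 : ℝ) / 5) :=
          mul_le_mul_of_nonneg_right (hx0 N hNx) (by positivity)
      _ = (N : ℝ) ^ ((9 : ℝ) / 10) := by
          rw [← Real.rpow_add hN0]
          norm_num
  linarith

end Pool.Agent.Lib.OW
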