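import Mathlib
import Pool.Agent.Lib.MP_7b7e48_nt.OW.M_1
import Pool.Agent.Lib.MP_7b7e48_nt.OW.M_2

/-!
# Module M_4 (50 minutes): short divisors of `N - q μ`, `μ` fixed

`B = LL N`. By `d1_four` the sum is `≤ ∑_{E ≤ B^4} τ(E)^4 #{q : ..., E ∣ N - q μ}`. `N - q μ` is coprime to `W N`, so `E` is; `gcd(N - q μ, μ)`
divides `N` and `N - q μ`, so it is `1`, `E` is coprime to `μ`, and `q` lies in one class `b` modulo `E`, `b` coprime to `E` (`q μ = N (E)`, `N` coprime to `E`).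
`rr c q = 1 + c q = 2 ≥ 1` for these `q`, `rr c n ≥ 0` always (`rr c` is multiplicative and `≥ 0` on prime powers; see `rr_nonneg` in `RG`), so by `rapc`
(`E ≤ B^4 ≤ N^(1/50)` for large `N`) the number is `≤ 2 log N L (N/μ)/E + N^(9/10)`. Sum over `E`: `2 log N L (N/μ)(1 + log B^4)^16 + B^20 N^(9/10)`
(`τ(E) ≤ E ≤ B^4`), and `1 + log B^4 ≤ K`, `B^20 ≤ N^(1/50)`: so `≤ K^18 L N/μ + N^(93/100)`.
-/

set_option autoImplicit false

open Finset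

namespace Pool.Agent.Lib.OW

open Pool.Agent.Lib.RG (RC LV rr SS PB)

private theorem M_4_big : ∃ N0 : ℕ, ∀ N : ℕ, N0 ≤ N → 3 ≤ N ∧ 2 ≤ Real.log N ∧ 1 ≤ LL N ∧
    ((LL N : ℝ)) ^ 1000 ≤ N := by
  have h2 : Filter.Tendsto (fun N : ℕ => Real.log (N : ℝ)) Filter.atTop Filter.atTop :=
    Real.tendsto_log_atTop.comp tendsto_natCast_atTop_atTop
  have e1 : ∀ᶠ N : ℕ in Filter.atTop, (2 : ℝ) ≤ Real.log (N : ℝ) := h2.eventually_ge_atTop (2 : ℝ)
  have e2 : ∀ᶠ N : ℕ in Filter.atTop, (1000 : ℝ) ≤ (Real.log (N : ℝ)) ^ ((39 : ℝ) / 40) :=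
    ((tendsto_rpow_atTop (by norm_num : (0 : ℝ) < 39 / 40)).comp h2).eventually_ge_atTop 1000
  obtain ⟨N3, h⟩ := Filter.eventually_atTop.1 ((e1.and e2).and (Filter.eventually_ge_atTop 3))
  refine ⟨N3, fun N hN => ?_⟩
  obtain ⟨⟨a1, a2⟩, a4⟩ := h N hN
  have a4' : 3 ≤ N := a4
  set K := Real.log (N : ℝ) with hK
  have hK0 : 0 < K := by linarith
  have hN0 : (0 : ℝ) < N := by
    have : 0 < N := by omega
    exact_mod_cast this
  refine ⟨a4', a1, ?_, ?_⟩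
  · unfold LL
    apply Nat.le_floor
    push_cast
    exact Real.one_le_exp (by positivity)
  · have h8 : (LL N : ℝ) ≤ Real.exp (K ^ ((1 : ℝ) / 40)) := Nat.floor_le (Real.exp_pos _).le
    have h9 : 1000 * K ^ ((1 : ℝ) / 40) ≤ K := by
      have e : K ^ ((39 : ℝ) / 40) * K ^ ((1 : ℝ) / 40) = K := by
        rw [← Real.rpow_add hK0]; norm_num
      have := mul_le_mul_of_nonneg_right a2 (Real.rpow_nonneg hK0.le ((1 : ℝ) / 40))
      linarith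
    calc (LL N : ℝ) ^ 1000 ≤ (Real.exp (K ^ ((1 : ℝ) / 40))) ^ 1000 :=
          pow_le_pow_left₀ (Nat.cast_nonneg _) h8 1000
      _ = Real.exp (1000 * K ^ ((1 : ℝ) / 40)) := by
          rw [← Real.exp_nat_mul]
          norm_num
      _ ≤ Real.exp K := Real.exp_le_exp.mpr h9
      _ = N := Real.exp_log hN0

private theorem M_4_rr {M : ℕ} {c : ℕ → ℝ} (hc : RC M c) {q : ℕ} (hq : q.Prime) (h : c q = 1) : rr c q = 2 := by
  have h1 : c 1 = 1 := by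
    have h2 := hc.val 1 (Nat.coprime_one_left M)
    have h3 := hc.mul 1 1
    rw [mul_one] at h3
    rcases h2 with h2 | h2
    · exact h2
    · rw [h2] at h3; norm_num at h3
  unfold rr
  rw [hq.sum_divisors, h, h1]
  norm_num

open Classical in
/-- one modulus -/
private theorem M_4_one (W : ℕ) {N : ℕ} {c : ℕ → ℝ} {L : ℝ} (hK0 : 0 ≤ Real.log N) (hL0 : 0 ≤ L)
    (hc : RC (W * N) c)
    (hr : ∀ m b y : ℕ, 1 ≤ m → (m : ℝ) ≤ (N : ℝ) ^ ((1 : ℝ) / 50) → m.Coprime (W * N) →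
      b.Coprime m → y ≤ N →
      ∑ n ∈ (Finset.Icc 1 y).filter (fun n => n % m = b % m), rr c n ≤
        2 * Real.log N * L * y / m + (N : ℝ) ^ ((9 : ℝ) / 10))
    {μ : ℕ} (hμ : 1 ≤ μ) {E : ℕ} (hE : 1 ≤ E) (hEN : (E : ℝ) ≤ (N : ℝ) ^ ((1 : ℝ) / 50)) :
    (((Finset.range N).filter (fun q => (q.Prime ∧ c q = 1 ∧ q * μ < N ∧ (N - q * μ).Coprime (W * N)) ∧
      E ∣ N - q * μ)).card : ℝ) ≤ 2 * Real.log N * L * N / μ / E + (N : ℝ) ^ ((9 : ℝ) / 10) := by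
  set T := (Finset.range N).filter (fun q => (q.Prime ∧ c q = 1 ∧ q * μ < N ∧ (N - q * μ).Coprime (W * N)) ∧
      E ∣ N - q * μ) with hT
  rcases T.eq_empty_or_nonempty with h0 | ⟨q0, hq0⟩
  · rw [h0, card_empty]
    push_cast
    positivity
  rw [hT, mem_filter, mem_range] at hq0
  obtain ⟨-, ⟨hp0, hc0, hlt0, hcop0⟩, hE0⟩ := hq0
  have hdecomp : N = (N - q0 * μ) + q0 * μ := by omega
  have hEM : E.Coprime (W * N) := Nat.Coprime.coprime_dvd_left hE0 hcop0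
  have key : ∀ d : ℕ, d ∣ E → d ∣ q0 * μ → d = 1 := by
    intro d hd1 hd2
    have h1 : d ∣ N := by
      rw [hdecomp]
      exact dvd_add (hd1.trans hE0) hd2
    have h2 : d ∣ Nat.gcd E (W * N) := Nat.dvd_gcd hd1 (h1.mul_left W)
    rw [hEM] at h2
    exact Nat.dvd_one.mp h2
  have hEμ : Nat.gcd E μ = 1 := key _ (Nat.gcd_dvd_left _ _) ((Nat.gcd_dvd_right _ _).mul_left _)
  have hq0E : q0.Coprime E := key _ (Nat.gcd_dvd_right _ _) ((Nat.gcd_dvd_left _ _).mul_right _)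
  have hy : N / μ ≤ N := Nat.div_le_self _ _
  have h := hr E q0 (N / μ) hE hEN hEM hq0E hy
  have hsub : T ⊆ (Finset.Icc 1 (N / μ)).filter (fun n => n % E = q0 % E) := by
    intro q hq
    rw [hT, mem_filter, mem_range] at hq
    obtain ⟨-, ⟨hp, hcq, hlt, hcop⟩, hEq⟩ := hq
    rw [mem_filter, mem_Icc]
    refine ⟨⟨hp.one_lt.le, ?_⟩, ?_⟩
    · rw [Nat.le_div_iff_mul_le (by omega)]
      exact hlt.le
    · have h1 : q * μ ≡ q0 * μ [MOD E] := by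
        have e1 : N ≡ q * μ [MOD E] := by
          have : N = (N - q * μ) + q * μ := by omega
          calc N = (N - q * μ) + q * μ := this
            _ ≡ 0 + q * μ [MOD E] := Nat.ModEq.add_right _ ((Nat.modEq_zero_iff_dvd).mpr hEq)
            _ = q * μ := by rw [zero_add]
        have e2 : N ≡ q0 * μ [MOD E] := by
          calc N = (N - q0 * μ) + q0 * μ := hdecomp
            _ ≡ 0 + q0 * μ [MOD E] := Nat.ModEq.add_right _ ((Nat.modEq_zero_iff_dvd).mpr hE0)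
            _ = q0 * μ := by rw [zero_add]
        exact e1.symm.trans e2
      exact Nat.ModEq.cancel_right_of_coprime hEμ h1
  have hcard : (T.card : ℝ) ≤ ∑ n ∈ (Finset.Icc 1 (N / μ)).filter (fun n => n % E = q0 % E), rr c n := by
    calc (T.card : ℝ) = ∑ _q ∈ T, (1 : ℝ) := by rw [sum_const, nsmul_eq_mul, mul_one]
      _ ≤ ∑ q ∈ T, rr c q := by
          refine sum_le_sum fun q hq => ?_
          rw [hT, mem_filter] at hq
          rw [M_4_rr hc hq.2.1.1 hq.2.1.2.1]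
          norm_num
      _ ≤ _ := sum_le_sum_of_subset_of_nonneg hsub fun n _ _ => Pool.Agent.Lib.RG.rr_nonneg _ c hc n
  have hE0' : (0 : ℝ) < E := by exact_mod_cast hE
  have hy2 : ((N / μ : ℕ) : ℝ) ≤ (N : ℝ) / μ := Nat.cast_div_le
  have h5 : 2 * Real.log N * L * ((N / μ : ℕ) : ℝ) / E ≤ 2 * Real.log N * L * N / μ / E := by
    apply div_le_div_of_nonneg_right _ hE0'.le
    calc 2 * Real.log N * L * ((N / μ : ℕ) : ℝ) ≤ 2 * Real.log N * L * ((N : ℝ) / μ) :=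
          mul_le_mul_of_nonneg_left hy2 (by positivity)
      _ = 2 * Real.log N * L * N / μ := by ring
  linarith

open Classical in
theorem m_high (W : ℕ) (hW : 1 ≤ W) : ∃ N0 : ℕ, ∀ N : ℕ, N0 ≤ N → ∀ (c : ℕ → ℝ) (L : ℝ),
    RC (W * N) c → LV (W * N) c L → ∀ μ : ℕ, 1 ≤ μ →
    ∑ q ∈ (Finset.range N).filter (fun q => q.Prime ∧ c q = 1 ∧ q * μ < N ∧ (N - q * μ).Coprime (W * N)),
      (D1 (LL N) (N - q * μ) : ℝ) ^ 4 ≤
      (Real.log N) ^ 18 * L * N / μ + (N : ℝ) ^ ((93 : ℝ) / 100) := by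
  obtain ⟨N1, hR⟩ := rapc W hW
  obtain ⟨N2, hB⟩ := M_4_big
  refine ⟨N1 + N2, fun N hN c L hc hv μ hμ => ?_⟩
  obtain ⟨n3, hK2, hB1, hB1000⟩ := hB N (by omega)
  have hr := hR N (by omega) c L hc hv
  have hL0 : 0 ≤ L := hv.1
  set K := Real.log (N : ℝ) with hK
  set B := LL N with hBdef
  have hK0 : 0 ≤ K := by linarith
  have hN0 : (0 : ℝ) < N := by
    have : 0 < N := by omega
    exact_mod_cast this
  have hμ0 : (0 : ℝ) < μ := by exact_mod_cast hμ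
  have hBr : (1 : ℝ) ≤ B := by exact_mod_cast hB1
  -- powers of B
  have hB20 : (B : ℝ) ^ 20 ≤ (N : ℝ) ^ ((1 : ℝ) / 50) := by
    calc (B : ℝ) ^ 20 = (((B : ℝ) ^ 1000)) ^ ((1 : ℝ) / 50) := by
          rw [← Real.rpow_natCast (B : ℝ) 1000, ← Real.rpow_mul (by linarith), ← Real.rpow_natCast]
          norm_num
      _ ≤ (N : ℝ) ^ ((1 : ℝ) / 50) := Real.rpow_le_rpow (by positivity) hB1000 (by norm_num)
  have hB4 : (B : ℝ) ^ 4 ≤ (N : ℝ) ^ ((1 : ℝ) / 50) :=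
    le_trans (pow_le_pow_right₀ hBr (by norm_num)) hB20
  set S := (Finset.range N).filter (fun q => q.Prime ∧ c q = 1 ∧ q * μ < N ∧ (N - q * μ).Coprime (W * N)) with hS
  have h1 : ∑ q ∈ S, (D1 B (N - q * μ) : ℝ) ^ 4 ≤
      ∑ q ∈ S, ∑ E ∈ Finset.Icc 1 (B ^ 4), if E ∣ N - q * μ then (E.divisors.card : ℝ) ^ 4 else 0 := by
    refine sum_le_sum fun q hq => ?_
    rw [hS, mem_filter] at hq
    have h2 := d1_four B (N - q * μ) (by have := hq.2.2.2.1; omega)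
    rw [sum_filter] at h2
    exact h2
  have h3 : ∑ q ∈ S, ∑ E ∈ Finset.Icc 1 (B ^ 4), (if E ∣ N - q * μ then (E.divisors.card : ℝ) ^ 4 else 0) =
      ∑ E ∈ Finset.Icc 1 (B ^ 4), (E.divisors.card : ℝ) ^ 4 *
        (((Finset.range N).filter (fun q => (q.Prime ∧ c q = 1 ∧ q * μ < N ∧ (N - q * μ).Coprime (W * N)) ∧
          E ∣ N - q * μ)).card : ℝ) := by
    rw [sum_comm]
    refine sum_congr rfl fun E _ => ?_
    rw [← sum_filter, hS, filter_filter, sum_const, nsmul_eq_mul, mul_comm]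
  have h4 : ∀ E ∈ Finset.Icc 1 (B ^ 4), (E.divisors.card : ℝ) ^ 4 *
        (((Finset.range N).filter (fun q => (q.Prime ∧ c q = 1 ∧ q * μ < N ∧ (N - q * μ).Coprime (W * N)) ∧
          E ∣ N - q * μ)).card : ℝ) ≤
      2 * K * L * N / μ * ((E.divisors.card : ℝ) ^ 4 / E) + (B : ℝ) ^ 16 * (N : ℝ) ^ ((9 : ℝ) / 10) := by
    intro E hE
    rw [mem_Icc] at hE
    have hEr : (E : ℝ) ≤ (B : ℝ) ^ 4 := by exact_mod_cast hE.2
    have h5 := M_4_one W hK0 hL0 hc hr hμ hE.1 (hEr.trans hB4)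
    have hτ : (E.divisors.card : ℝ) ≤ E := by exact_mod_cast Nat.card_divisors_le_self E
    have hτ4 : (E.divisors.card : ℝ) ^ 4 ≤ (B : ℝ) ^ 16 := by
      calc (E.divisors.card : ℝ) ^ 4 ≤ ((B : ℝ) ^ 4) ^ 4 :=
            pow_le_pow_left₀ (Nat.cast_nonneg _) (hτ.trans hEr) 4
        _ = (B : ℝ) ^ 16 := by rw [← pow_mul]
    have h6 := mul_le_mul_of_nonneg_left h5 (by positivity : 0 ≤ (E.divisors.card : ℝ) ^ 4)
    have h7 := mul_le_mul_of_nonneg_right hτ4 (by positivity : 0 ≤ (N : ℝ) ^ ((9 : ℝ) / 10))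
    have h8 : (E.divisors.card : ℝ) ^ 4 * (2 * K * L * N / μ / E + (N : ℝ) ^ ((9 : ℝ) / 10)) =
        2 * K * L * N / μ * ((E.divisors.card : ℝ) ^ 4 / E) + (E.divisors.card : ℝ) ^ 4 * (N : ℝ) ^ ((9 : ℝ) / 10) := by
      ring
    linarith
  have h5 : ∑ q ∈ S, (D1 B (N - q * μ) : ℝ) ^ 4 ≤
      2 * K * L * N / μ * (1 + Real.log ((B ^ 4 : ℕ) : ℝ)) ^ 16 + (B : ℝ) ^ 4 * ((B : ℝ) ^ 16 * (N : ℝ) ^ ((9 : ℝ) / 10)) := by
    refine h1.trans (h3.le.trans ((sum_le_sum h4).trans ?_))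
    rw [sum_add_distrib, ← mul_sum, sum_const, Nat.card_Icc, nsmul_eq_mul]
    have e1 := mul_le_mul_of_nonneg_left (mt4_div (B ^ 4)) (by positivity : 0 ≤ 2 * K * L * N / μ)
    have e2 : ((B ^ 4 + 1 - 1 : ℕ) : ℝ) = (B : ℝ) ^ 4 := by
      rw [Nat.add_sub_cancel]; push_cast; rfl
    rw [e2]
    linarith
  refine h5.trans ?_
  have hlog : 1 + Real.log ((B ^ 4 : ℕ) : ℝ) ≤ K := by
    have e1 : Real.log ((B ^ 4 : ℕ) : ℝ) = 4 * Real.log B := by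
      push_cast
      rw [Real.log_pow]; norm_num
    have e2 : 1000 * Real.log (B : ℝ) ≤ K := by
      have := Real.log_le_log (by positivity) hB1000
      rw [Real.log_pow] at this
      push_cast at this
      exact this
    rw [e1]
    linarith
  have hlog0 : 0 ≤ 1 + Real.log ((B ^ 4 : ℕ) : ℝ) := by
    have : 0 ≤ Real.log ((B ^ 4 : ℕ) : ℝ) := Real.log_natCast_nonneg _
    linarith
  have hp16 : (1 + Real.log ((B ^ 4 : ℕ) : ℝ)) ^ 16 ≤ K ^ 16 := pow_le_pow_left₀ hlog0 hlog 16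
  have hA : 2 * K * L * N / μ * (1 + Real.log ((B ^ 4 : ℕ) : ℝ)) ^ 16 ≤ K ^ 18 * L * N / μ := by
    calc 2 * K * L * N / μ * (1 + Real.log ((B ^ 4 : ℕ) : ℝ)) ^ 16 ≤ 2 * K * L * N / μ * K ^ 16 :=
          mul_le_mul_of_nonneg_left hp16 (by positivity)
      _ = 2 * (K ^ 17 * (L * N / μ)) := by ring
      _ ≤ K * (K ^ 17 * (L * N / μ)) := mul_le_mul_of_nonneg_right hK2 (by positivity)
      _ = K ^ 18 * L * N / μ := by ring
  have hBB : (B : ℝ) ^ 4 * ((B : ℝ) ^ 16 * (N : ℝ) ^ ((9 : ℝ) / 10)) ≤ (N : ℝ) ^ ((93 : ℝ) / 100) := by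
    have hN1 : (1 : ℝ) ≤ N := by
      have : 1 ≤ N := by omega
      exact_mod_cast this
    calc (B : ℝ) ^ 4 * ((B : ℝ) ^ 16 * (N : ℝ) ^ ((9 : ℝ) / 10)) = (B : ℝ) ^ 20 * (N : ℝ) ^ ((9 : ℝ) / 10) := by ring
      _ ≤ (N : ℝ) ^ ((1 : ℝ) / 50) * (N : ℝ) ^ ((9 : ℝ) / 10) :=
          mul_le_mul_of_nonneg_right hB20 (by positivity)
      _ = (N : ℝ) ^ ((1 : ℝ) / 50 + (9 : ℝ) / 10) := (Real.rpow_add hN0 _ _).symm
      _ ≤ (N : ℝ) ^ ((93 : ℝ) / 100) := Real.rpow_le_rpow_of_exponent_le hN1 (by norm_num)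
  linarith

end Pool.Agent.Lib.OW
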