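import Mathlib
import Pool.Agent.Lib.MP_7b7e48_nt.OW.M_3
import Pool.Agent.Lib.MP_7b7e48_nt.OW.M_4
import Pool.Agent.Lib.MP_7b7e48_nt.OW.OD

/-!
# Module MOM: second moments of the number of short divisors

`K = log N`, `B = LL N`. `m1`: `inc_le`, `D1 ≤ τ`, `n ↦ N - n`. `m2`: every `n` of the sum is `q μ` with a prime `q`, `c q = 1`; the
divisors of `n`: `d1_mul`, `mt4`; the divisors of `N - n`: `m_low` if `q B^5 ≤ N`, `m_high` if `q B^5 > N`.
-/

set_option autoImplicit false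

open Finset
open Pool.Agent.Lib.MP_45349e_nt.LS (lam)

namespace Pool.Agent.Lib.OW

open Pool.Agent.Lib.RG (RC LV rr SS PB)

private theorem mom_D1_le (B n : ℕ) : (D1 B n : ℝ) ^ 4 ≤ (n.divisors.card : ℝ) ^ 4 := by
  have h : D1 B n ≤ n.divisors.card := Finset.card_filter_le _ _
  have h' : (D1 B n : ℝ) ≤ n.divisors.card := by exact_mod_cast h
  exact pow_le_pow_left₀ (Nat.cast_nonneg _) h' 4

theorem m1 : ∃ CM : ℝ, 0 ≤ CM ∧ ∃ N0 : ℕ, ∀ N : ℕ, N0 ≤ N →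
    ∑ n ∈ (Finset.range N).filter (fun n => n.Coprime N), (inc N n : ℝ) ^ 2 ≤ (Real.log N) ^ CM * N := by
  refine ⟨20, by norm_num, max 3 ⌈Real.exp 100⌉₊, ?_⟩
  intro N hN
  have hN3 : 3 ≤ N := (le_max_left _ _).trans hN
  have hNe : Real.exp 100 ≤ N := (Nat.le_ceil _).trans (by exact_mod_cast (le_max_right _ _).trans hN)
  have hN0 : (0 : ℝ) < N := by exact_mod_cast (by omega : 0 < N)
  have hK : 100 ≤ Real.log N := by rwa [Real.le_log_iff_exp_le hN0]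
  set K : ℝ := Real.log N with hKdef
  have hsub : (Finset.range N).filter (fun n => n.Coprime N) ⊆ Finset.Icc 1 (N - 1) := by
    intro n hn
    rw [mem_filter, mem_range] at hn
    rw [mem_Icc]
    refine ⟨?_, by omega⟩
    by_contra h0
    have : n = 0 := by omega
    rw [this, Nat.coprime_zero_left] at hn
    omega
  have h1 : ∑ n ∈ (Finset.range N).filter (fun n => n.Coprime N), (inc N n : ℝ) ^ 2 ≤
      ∑ n ∈ Finset.Icc 1 (N - 1), ((n.divisors.card : ℝ) ^ 4 + ((N - n).divisors.card : ℝ) ^ 4) := by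
    refine le_trans (sum_le_sum_of_subset_of_nonneg hsub fun n _ _ => by positivity) ?_
    refine sum_le_sum fun n _ => ?_
    exact (inc_le N n).trans (add_le_add (mom_D1_le _ _) (mom_D1_le _ _))
  have h2 : ∑ n ∈ Finset.Icc 1 (N - 1), (n.divisors.card : ℝ) ^ 4 ≤ N * (1 + K) ^ 16 := by
    refine le_trans ?_ (mt4 N)
    refine sum_le_sum_of_subset_of_nonneg (Finset.Icc_subset_Icc_right (by omega)) fun n _ _ => by positivity
  have h3 : ∑ n ∈ Finset.Icc 1 (N - 1), ((N - n).divisors.card : ℝ) ^ 4 =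
      ∑ n ∈ Finset.Icc 1 (N - 1), (n.divisors.card : ℝ) ^ 4 := by
    refine Finset.sum_nbij' (fun n => N - n) (fun n => N - n) ?_ ?_ ?_ ?_ ?_
    · intro n hn
      simp only [mem_Icc] at hn ⊢
      omega
    · intro n hn
      simp only [mem_Icc] at hn ⊢
      omega
    · intro n hn
      simp only [mem_Icc] at hn
      omega
    · intro n hn
      simp only [mem_Icc] at hn
      omega
    · intro n _
      rfl
  rw [sum_add_distrib, h3] at h1
  have h4 : 2 * (1 + K) ^ 16 ≤ K ^ (20 : ℝ) := by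
    have e1 : K ^ (20 : ℝ) = K ^ (20 : ℕ) := by
      rw [← Real.rpow_natCast]
      norm_num
    rw [e1]
    calc 2 * (1 + K) ^ 16 ≤ 2 * (2 * K) ^ 16 := by
          have : 1 + K ≤ 2 * K := by linarith
          gcongr
      _ = 2 ^ 17 * K ^ 16 := by ring
      _ ≤ K ^ 4 * K ^ 16 := by
          have : (2 : ℝ) ^ 17 ≤ K ^ 4 := by
            calc (2 : ℝ) ^ 17 ≤ 100 ^ 4 := by norm_num
              _ ≤ K ^ 4 := by gcongr
          gcongr
      _ = K ^ 20 := by ring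
  calc ∑ n ∈ (Finset.range N).filter (fun n => n.Coprime N), (inc N n : ℝ) ^ 2
      ≤ 2 * (N * (1 + K) ^ 16) := by linarith
    _ = (2 * (1 + K) ^ 16) * N := by ring
    _ ≤ K ^ (20 : ℝ) * N := mul_le_mul_of_nonneg_right h4 hN0.le

/-- `LL N ^ 5 ≤ N ^ (1/50)` for large `N` -/
private theorem mom_LL : ∃ N0 : ℕ, ∀ N : ℕ, N0 ≤ N → ((LL N : ℕ) : ℝ) ^ 5 ≤ (N : ℝ) ^ ((1 : ℝ) / 50) := by
  have hev : ∀ᶠ x : ℝ in Filter.atTop, (250 : ℝ) ≤ x ^ ((39 : ℝ) / 40) :=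
    (tendsto_rpow_atTop (by norm_num)).eventually_ge_atTop _
  obtain ⟨x0, hx0⟩ := Filter.eventually_atTop.1 hev
  refine ⟨max 3 ⌈Real.exp (max x0 1)⌉₊, ?_⟩
  intro N hN
  have hN3 : 3 ≤ N := (le_max_left _ _).trans hN
  have hNe : Real.exp (max x0 1) ≤ N := (Nat.le_ceil _).trans (by exact_mod_cast (le_max_right _ _).trans hN)
  have hN0 : (0 : ℝ) < N := by exact_mod_cast (by omega : 0 < N)
  have hK : max x0 1 ≤ Real.log N := by rwa [Real.le_log_iff_exp_le hN0]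
  have hK1 : 1 ≤ Real.log N := (le_max_right _ _).trans hK
  have hKx : x0 ≤ Real.log N := (le_max_left _ _).trans hK
  have hK0 : 0 < Real.log N := by linarith
  have h1 : 250 * (Real.log N) ^ ((1 : ℝ) / 40) ≤ Real.log N := by
    calc 250 * (Real.log N) ^ ((1 : ℝ) / 40)
        ≤ (Real.log N) ^ ((39 : ℝ) / 40) * (Real.log N) ^ ((1 : ℝ) / 40) :=
          mul_le_mul_of_nonneg_right (hx0 _ hKx) (by positivity)
      _ = Real.log N := by
          rw [← Real.rpow_add hK0]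
          norm_num
  have h2 : ((LL N : ℕ) : ℝ) ≤ Real.exp ((Real.log N) ^ ((1 : ℝ) / 40)) := Nat.floor_le (Real.exp_pos _).le
  calc ((LL N : ℕ) : ℝ) ^ 5 ≤ (Real.exp ((Real.log N) ^ ((1 : ℝ) / 40))) ^ 5 :=
        pow_le_pow_left₀ (Nat.cast_nonneg _) h2 5
    _ = Real.exp (5 * (Real.log N) ^ ((1 : ℝ) / 40)) := by
        rw [← Real.exp_nat_mul]
        norm_num
    _ ≤ Real.exp (1 / 50 * Real.log N) := Real.exp_le_exp.2 (by linarith)
    _ = (N : ℝ) ^ ((1 : ℝ) / 50) := by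
        rw [Real.rpow_def_of_pos hN0]
        ring_nf

private theorem mom_harm (B : ℕ) : ∑ μ ∈ Finset.Icc 1 B, 1 / (μ : ℝ) ≤ 1 + Real.log B := by
  have h := harmonic_le_one_add_log B
  rw [harmonic_eq_sum_Icc] at h
  push_cast at h
  simpa only [one_div] using h

open Classical in
theorem m2 (W : ℕ) (hW : 1 ≤ W) : ∃ CM : ℝ, 0 ≤ CM ∧ ∃ N0 : ℕ, ∀ N : ℕ, N0 ≤ N → ∀ (c : ℕ → ℝ) (L : ℝ),
    RC (W * N) c → LV (W * N) c L → ((W * N : ℕ) : ℝ) ^ (-(1 / 50) : ℝ) ≤ L →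
    ∑ n ∈ (Finset.range N).filter (fun n => n.Coprime (W * N) ∧ (N - n).Coprime (W * N) ∧
      ∃ q : ℕ, q.Prime ∧ c q = 1 ∧ q ∣ n), ((inc N n : ℝ) ^ 2 + (inc N (N - n) : ℝ) ^ 2) ≤
      (Real.log N) ^ CM * (sQ c (W * N) + L) * N := by
  obtain ⟨N1, hN1⟩ := mom_LL
  obtain ⟨N2, hN2⟩ := m_high W hW
  obtain ⟨N3, hN3⟩ := num W
  have hev : ∀ᶠ x : ℝ in Filter.atTop, (W : ℝ) ^ ((1 : ℝ) / 50) ≤ x ^ ((3 : ℝ) / 100) :=
    (tendsto_rpow_atTop (by norm_num)).eventually_ge_atTop _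
  obtain ⟨x0, hx0⟩ := Filter.eventually_atTop.1 hev
  refine ⟨25, by norm_num, max (max (max 3 ⌈Real.exp 100⌉₊) (max N1 N2)) (max N3 ⌈x0⌉₊), ?_⟩
  intro N hN c L hc hL hLow
  have hNa : max (max 3 ⌈Real.exp 100⌉₊) (max N1 N2) ≤ N := (le_max_left _ _).trans hN
  have hNb : max N3 ⌈x0⌉₊ ≤ N := (le_max_right _ _).trans hN
  have hNc : max 3 ⌈Real.exp 100⌉₊ ≤ N := (le_max_left _ _).trans hNa
  have hNd : max N1 N2 ≤ N := (le_max_right _ _).trans hNa
  have h3 : 3 ≤ N := (le_max_left _ _).trans hNc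
  have hNe : Real.exp 100 ≤ N := (Nat.le_ceil _).trans (by exact_mod_cast (le_max_right _ _).trans hNc)
  have hNx : x0 ≤ (N : ℝ) := (Nat.le_ceil x0).trans (by exact_mod_cast (le_max_right _ _).trans hNb)
  have hLL := hN1 N ((le_max_left _ _).trans hNd)
  have hhigh := hN2 N ((le_max_right _ _).trans hNd) c L hc hL
  have hnum := hN3 N ((le_max_left _ _).trans hNb)
  have hN0 : (0 : ℝ) < N := by exact_mod_cast (by omega : 0 < N)
  have hNone : (1 : ℝ) ≤ N := by exact_mod_cast (by omega : 1 ≤ N)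
  have hK : 100 ≤ Real.log N := by rwa [Real.le_log_iff_exp_le hN0]
  set K : ℝ := Real.log N with hKdef
  have hL0 : 0 ≤ L := hL.1
  have hWN : 2 ≤ W * N := by nlinarith
  set B : ℕ := LL N with hB
  have hB1 : 1 ≤ B := by
    have h1 := hnum.JL
    have h2 := hnum.J1
    have h5 : 1 ≤ 4 * tJ N * W := Nat.mul_pos (by omega) hW
    omega
  have hB5N : ((B : ℕ) : ℝ) ^ 5 ≤ N := by
    refine hLL.trans ?_
    calc (N : ℝ) ^ ((1 : ℝ) / 50) ≤ (N : ℝ) ^ (1 : ℝ) :=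
          Real.rpow_le_rpow_of_exponent_le hNone (by norm_num)
      _ = N := Real.rpow_one _
  have hB0 : (1 : ℝ) ≤ (B : ℝ) := by exact_mod_cast hB1
  have hlogB5 : Real.log ((B ^ 5 : ℕ) : ℝ) ≤ K := by
    push_cast
    exact Real.log_le_log (by positivity) hB5N
  have hlogB4 : Real.log ((B ^ 4 : ℕ) : ℝ) ≤ K := by
    push_cast
    refine Real.log_le_log (by positivity) (le_trans ?_ hB5N)
    exact pow_le_pow_right₀ hB0 (by norm_num)
  set S := (Finset.range N).filter (fun n => n.Coprime (W * N) ∧ (N - n).Coprime (W * N) ∧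
      ∃ q : ℕ, q.Prime ∧ c q = 1 ∧ q ∣ n) with hS
  -- the primes
  set Q := (Finset.range N).filter (fun q => q.Prime ∧ c q = 1) with hQ
  set T := (Q ×ˢ Finset.Ico 1 N).filter (fun e => e.1 * e.2 < N ∧ (e.1 * e.2).Coprime (W * N) ∧
    (N - e.1 * e.2).Coprime (W * N)) with hT
  have hσ : ∑ q ∈ Q, 1 / (q : ℝ) ≤ sQ c (W * N) := by
    unfold sQ
    refine sum_le_sum_of_subset_of_nonneg ?_ fun q _ _ => by positivity
    intro q hq
    rw [hQ, mem_filter, mem_range] at hq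
    unfold QP
    rw [mem_filter, mem_range]
    refine ⟨?_, hq.2⟩
    have : N ≤ W * N := Nat.le_mul_of_pos_left N (by omega)
    omega
  have hσ0 : 0 ≤ sQ c (W * N) := by
    unfold sQ
    exact sum_nonneg fun q _ => by positivity
  -- the reduction to pairs
  have hmapS : ∀ e ∈ T, e.1 * e.2 ∈ S := by
    intro e he
    rw [hT, mem_filter, mem_product, hQ, mem_filter, mem_range, mem_Ico] at he
    rw [hS, mem_filter, mem_range]
    exact ⟨he.2.1, he.2.2.1, he.2.2.2, e.1, he.1.1.2.1, he.1.1.2.2, dvd_mul_right _ _⟩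
  have hstep : ∀ F : ℕ → ℝ, (∀ n, 0 ≤ F n) → ∑ n ∈ S, F n ≤ ∑ e ∈ T, F (e.1 * e.2) := by
    intro F hF
    rw [← Finset.sum_fiberwise_of_maps_to hmapS]
    refine sum_le_sum fun n hn => ?_
    rw [hS, mem_filter, mem_range] at hn
    obtain ⟨hnN, hn1, hn2, q, hq, hcq, hqn⟩ := hn
    obtain ⟨μ, hμ⟩ := hqn
    have hn0 : n ≠ 0 := by
      intro h0
      rw [h0, Nat.coprime_zero_left] at hn1
      omega
    have hμ1 : 1 ≤ μ := by
      rcases Nat.eq_zero_or_pos μ with h | h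
      · rw [h, mul_zero] at hμ
        exact absurd hμ hn0
      · exact h
    have hq1 : 1 ≤ q := hq.one_lt.le
    have hmem : (q, μ) ∈ T.filter (fun e => e.1 * e.2 = n) := by
      rw [mem_filter, hT, mem_filter, mem_product, hQ, mem_filter, mem_range, mem_Ico]
      have e1 : q ≤ n := by rw [hμ]; exact Nat.le_mul_of_pos_right q hμ1
      have e2 : μ ≤ n := by rw [hμ]; exact Nat.le_mul_of_pos_left μ hq1
      refine ⟨⟨⟨⟨by omega, hq, hcq⟩, hμ1, by omega⟩, ?_, ?_, ?_⟩, hμ.symm⟩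
      · show q * μ < N
        rw [← hμ]; exact hnN
      · show (q * μ).Coprime (W * N)
        rw [← hμ]; exact hn1
      · show (N - q * μ).Coprime (W * N)
        rw [← hμ]; exact hn2
    have h5 := single_le_sum (f := fun e : ℕ × ℕ => F (e.1 * e.2)) (fun e _ => hF _) hmem
    simp only at h5
    rw [hμ]
    rw [← hμ] at h5 ⊢
    exact h5
  -- the summand
  have h1 : ∑ n ∈ S, ((inc N n : ℝ) ^ 2 + (inc N (N - n) : ℝ) ^ 2) ≤
      ∑ e ∈ T, (2 * (D1 B (e.1 * e.2) : ℝ) ^ 4 + 2 * (D1 B (N - e.1 * e.2) : ℝ) ^ 4) := by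
    refine le_trans ?_ (hstep (fun n => 2 * (D1 B n : ℝ) ^ 4 + 2 * (D1 B (N - n) : ℝ) ^ 4)
      fun n => by positivity)
    refine sum_le_sum fun n hn => ?_
    have e1 := inc_le N n
    have e2 := inc_le N (N - n)
    have e3 : N - (N - n) = n := by
      have := (mem_range.1 (mem_filter.1 hn).1)
      omega
    rw [e3] at e2
    rw [← hB] at e1 e2
    linarith
  have h1' : ∑ e ∈ T, (2 * (D1 B (e.1 * e.2) : ℝ) ^ 4 + 2 * (D1 B (N - e.1 * e.2) : ℝ) ^ 4) =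
      2 * ∑ e ∈ T, (D1 B (e.1 * e.2) : ℝ) ^ 4 + 2 * ∑ e ∈ T, (D1 B (N - e.1 * e.2) : ℝ) ^ 4 := by
    rw [sum_add_distrib, ← mul_sum, ← mul_sum]
  rw [h1'] at h1
  -- (i)
  have hi : ∑ e ∈ T, (D1 B (e.1 * e.2) : ℝ) ^ 4 ≤ 16 * (1 + K) ^ 16 * sQ c (W * N) * N := by
    have e1 : ∑ e ∈ T, (D1 B (e.1 * e.2) : ℝ) ^ 4 ≤
        ∑ q ∈ Q, ∑ μ ∈ Finset.Icc 1 (N / q), 16 * (μ.divisors.card : ℝ) ^ 4 := by
      rw [Finset.sum_sigma']
      have e2 : ∑ e ∈ T, (D1 B (e.1 * e.2) : ℝ) ^ 4 ≤ ∑ e ∈ T, 16 * (e.2.divisors.card : ℝ) ^ 4 := by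
        refine sum_le_sum fun e he => ?_
        rw [hT, mem_filter, mem_product, hQ, mem_filter] at he
        exact d1_mul B e.1 e.2 he.1.1.2.1
      refine e2.trans ?_
      have e3 : ∑ e ∈ T, 16 * (e.2.divisors.card : ℝ) ^ 4 =
          ∑ x ∈ T.image (fun e => (⟨e.1, e.2⟩ : Σ _ : ℕ, ℕ)), 16 * (x.2.divisors.card : ℝ) ^ 4 := by
        rw [Finset.sum_image]
        intro a _ b _ hab
        simp only [Sigma.mk.injEq, heq_eq_eq] at hab
        exact Prod.ext hab.1 hab.2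
      rw [e3]
      refine sum_le_sum_of_subset_of_nonneg ?_ fun x _ _ => by positivity
      intro x hx
      rw [mem_image] at hx
      obtain ⟨e, he, rfl⟩ := hx
      rw [hT, mem_filter, mem_product, mem_Ico] at he
      rw [mem_sigma, mem_Icc]
      refine ⟨he.1.1, he.1.2.1, ?_⟩
      have hq0 : 0 < e.1 := by
        have := (mem_filter.1 he.1.1).2.1
        exact this.pos
      show e.2 ≤ N / e.1
      rw [Nat.le_div_iff_mul_le hq0, mul_comm]
      exact he.2.1.le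
    refine e1.trans ?_
    have e2 : ∀ q ∈ Q, ∑ μ ∈ Finset.Icc 1 (N / q), 16 * (μ.divisors.card : ℝ) ^ 4 ≤
        16 * (1 + K) ^ 16 * N * (1 / q) := by
      intro q hq
      have hq0 : 0 < q := (mem_filter.1 hq).2.1.pos
      have hqN : q < N := mem_range.1 (mem_filter.1 hq).1
      have hq0' : (0 : ℝ) < q := by exact_mod_cast hq0
      rw [← mul_sum]
      have e3 := mt4 (N / q)
      have e4 : ((N / q : ℕ) : ℝ) ≤ N / q := Nat.cast_div_le
      have e5 : 1 ≤ N / q := Nat.div_pos hqN.le hq0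
      have e5' : (1 : ℝ) ≤ ((N / q : ℕ) : ℝ) := by exact_mod_cast e5
      have e6 : Real.log ((N / q : ℕ) : ℝ) ≤ K := by
        refine Real.log_le_log (by linarith) ?_
        exact_mod_cast Nat.div_le_self N q
      have e7 : 0 ≤ Real.log ((N / q : ℕ) : ℝ) := Real.log_nonneg e5'
      calc 16 * ∑ μ ∈ Finset.Icc 1 (N / q), (μ.divisors.card : ℝ) ^ 4
          ≤ 16 * (((N / q : ℕ) : ℝ) * (1 + Real.log ((N / q : ℕ) : ℝ)) ^ 16) := by linarith
        _ ≤ 16 * ((N / q) * (1 + K) ^ 16) := by gcongr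
        _ = 16 * (1 + K) ^ 16 * N * (1 / q) := by ring
    refine (sum_le_sum e2).trans ?_
    rw [← mul_sum]
    calc 16 * (1 + K) ^ 16 * N * ∑ q ∈ Q, 1 / (q : ℝ)
        ≤ 16 * (1 + K) ^ 16 * N * sQ c (W * N) := mul_le_mul_of_nonneg_left hσ (by positivity)
      _ = 16 * (1 + K) ^ 16 * sQ c (W * N) * N := by ring
  -- the two ranges of `q`
  have hsplit := Finset.sum_filter_add_sum_filter_not T (fun e => e.1 * B ^ 5 ≤ N)
    (fun e => (D1 B (N - e.1 * e.2) : ℝ) ^ 4)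
  -- (ii)
  have hii : ∑ e ∈ T.filter (fun e => e.1 * B ^ 5 ≤ N), (D1 B (N - e.1 * e.2) : ℝ) ^ 4 ≤
      2 * (1 + K) ^ 16 * sQ c (W * N) * N := by
    set G : ℕ → Finset ℕ := fun q => (Finset.range N).filter
      (fun μ => q * μ < N ∧ (N - q * μ).Coprime q) with hG
    have e1 : ∑ e ∈ T.filter (fun e => e.1 * B ^ 5 ≤ N), (D1 B (N - e.1 * e.2) : ℝ) ^ 4 ≤
        ∑ q ∈ Q.filter (fun q => q * B ^ 5 ≤ N), ∑ μ ∈ G q, (D1 B (N - q * μ) : ℝ) ^ 4 := by
      rw [Finset.sum_sigma']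
      have e3 : ∑ e ∈ T.filter (fun e => e.1 * B ^ 5 ≤ N), (D1 B (N - e.1 * e.2) : ℝ) ^ 4 =
          ∑ x ∈ (T.filter (fun e => e.1 * B ^ 5 ≤ N)).image (fun e => (⟨e.1, e.2⟩ : Σ _ : ℕ, ℕ)),
            (D1 B (N - x.1 * x.2) : ℝ) ^ 4 := by
        rw [Finset.sum_image]
        intro a _ b _ hab
        simp only [Sigma.mk.injEq, heq_eq_eq] at hab
        exact Prod.ext hab.1 hab.2
      rw [e3]
      refine sum_le_sum_of_subset_of_nonneg ?_ fun x _ _ => by positivity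
      intro x hx
      rw [mem_image] at hx
      obtain ⟨e, he, rfl⟩ := hx
      rw [mem_filter, hT, mem_filter, mem_product, mem_Ico] at he
      refine mem_sigma.2 ⟨mem_filter.2 ⟨he.1.1.1, he.2⟩, ?_⟩
      show e.2 ∈ G e.1
      refine mem_filter.2 ⟨mem_range.2 he.1.1.2.2, he.1.2.1, ?_⟩
      -- coprimality
      show (N - e.1 * e.2).Coprime e.1
      have hlt : e.1 * e.2 < N := he.1.2.1
      have h5 : Nat.gcd (N - e.1 * e.2) e.1 ∣ N := by
        have h6 : Nat.gcd (N - e.1 * e.2) e.1 ∣ (N - e.1 * e.2) + e.1 * e.2 :=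
          dvd_add (Nat.gcd_dvd_left _ _) ((Nat.gcd_dvd_right _ _).mul_right _)
        rwa [Nat.sub_add_cancel hlt.le] at h6
      have h6 : Nat.gcd (N - e.1 * e.2) e.1 ∣ Nat.gcd (N - e.1 * e.2) (W * N) :=
        Nat.dvd_gcd (Nat.gcd_dvd_left _ _) (h5.mul_left W)
      rw [he.1.2.2.2] at h6
      exact Nat.dvd_one.1 h6
    refine e1.trans ?_
    have e2 : ∀ q ∈ Q.filter (fun q => q * B ^ 5 ≤ N), ∑ μ ∈ G q, (D1 B (N - q * μ) : ℝ) ^ 4 ≤
        2 * (1 + K) ^ 16 * N * (1 / q) := by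
      intro q hq
      rw [mem_filter] at hq
      have hq0 : 0 < q := (mem_filter.1 hq.1).2.1.pos
      have hq0' : (0 : ℝ) < q := by exact_mod_cast hq0
      have e4 : q * B ^ 4 ≤ N := by
        refine le_trans ?_ hq.2
        exact Nat.mul_le_mul_left _ (Nat.pow_le_pow_right hB1 (by norm_num))
      have e5 := m_low N q B hq0 hB1 e4
      refine e5.trans ?_
      have e7 : 0 ≤ Real.log ((B ^ 4 : ℕ) : ℝ) := by
        refine Real.log_nonneg ?_
        exact_mod_cast Nat.one_le_pow _ _ hB1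
      calc 2 * (N : ℝ) / q * (1 + Real.log ((B ^ 4 : ℕ) : ℝ)) ^ 16 ≤ 2 * (N : ℝ) / q * (1 + K) ^ 16 := by
            gcongr
        _ = 2 * (1 + K) ^ 16 * N * (1 / q) := by ring
    refine (sum_le_sum e2).trans ?_
    rw [← mul_sum]
    have e3 : ∑ q ∈ Q.filter (fun q => q * B ^ 5 ≤ N), 1 / (q : ℝ) ≤ sQ c (W * N) :=
      (sum_le_sum_of_subset_of_nonneg (filter_subset _ _) fun q _ _ => by positivity).trans hσ
    calc 2 * (1 + K) ^ 16 * N * ∑ q ∈ Q.filter (fun q => q * B ^ 5 ≤ N), 1 / (q : ℝ)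
        ≤ 2 * (1 + K) ^ 16 * N * sQ c (W * N) := mul_le_mul_of_nonneg_left e3 (by positivity)
      _ = 2 * (1 + K) ^ 16 * sQ c (W * N) * N := by ring
  -- (iii)
  have hiii : ∑ e ∈ T.filter (fun e => ¬ e.1 * B ^ 5 ≤ N), (D1 B (N - e.1 * e.2) : ℝ) ^ 4 ≤
      (K ^ 18 * (1 + K) + 1) * L * N := by
    set G : ℕ → Finset ℕ := fun μ => (Finset.range N).filter
      (fun q => q.Prime ∧ c q = 1 ∧ q * μ < N ∧ (N - q * μ).Coprime (W * N)) with hG
    have e1 : ∑ e ∈ T.filter (fun e => ¬ e.1 * B ^ 5 ≤ N), (D1 B (N - e.1 * e.2) : ℝ) ^ 4 ≤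
        ∑ μ ∈ Finset.Icc 1 (B ^ 5), ∑ q ∈ G μ, (D1 B (N - q * μ) : ℝ) ^ 4 := by
      rw [Finset.sum_sigma']
      have e3 : ∑ e ∈ T.filter (fun e => ¬ e.1 * B ^ 5 ≤ N), (D1 B (N - e.1 * e.2) : ℝ) ^ 4 =
          ∑ x ∈ (T.filter (fun e => ¬ e.1 * B ^ 5 ≤ N)).image (fun e => (⟨e.2, e.1⟩ : Σ _ : ℕ, ℕ)),
            (D1 B (N - x.2 * x.1) : ℝ) ^ 4 := by
        rw [Finset.sum_image]
        intro a _ b _ hab
        simp only [Sigma.mk.injEq, heq_eq_eq] at hab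
        exact Prod.ext hab.2 hab.1
      rw [e3]
      refine sum_le_sum_of_subset_of_nonneg ?_ fun x _ _ => by positivity
      intro x hx
      rw [mem_image] at hx
      obtain ⟨e, he, rfl⟩ := hx
      rw [mem_filter, hT, mem_filter, mem_product, mem_Ico, hQ, mem_filter, mem_range] at he
      rw [mem_sigma, mem_Icc, hG, mem_filter, mem_range]
      refine ⟨⟨he.1.1.2.1, ?_⟩, he.1.1.1.1, he.1.1.1.2.1, he.1.1.1.2.2, he.1.2.1, he.1.2.2.2⟩
      show e.2 ≤ B ^ 5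
      by_contra hcon
      push Not at hcon
      have h5 : e.1 * B ^ 5 ≤ e.1 * e.2 := Nat.mul_le_mul_left _ hcon.le
      have h6 := he.1.2.1
      exact he.2 (h5.trans h6.le)
    refine e1.trans ?_
    have e2 : ∀ μ ∈ Finset.Icc 1 (B ^ 5), ∑ q ∈ G μ, (D1 B (N - q * μ) : ℝ) ^ 4 ≤
        K ^ 18 * L * N * (1 / μ) + (N : ℝ) ^ ((93 : ℝ) / 100) := by
      intro μ hμ
      have h5 := hhigh μ (mem_Icc.1 hμ).1
      refine h5.trans (le_of_eq ?_)
      rw [mul_one_div]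
    refine (sum_le_sum e2).trans ?_
    rw [sum_add_distrib, ← mul_sum, sum_const, Nat.card_Icc, Nat.add_sub_cancel, nsmul_eq_mul]
    have e3 : K ^ 18 * L * N * ∑ μ ∈ Finset.Icc 1 (B ^ 5), 1 / (μ : ℝ) ≤ K ^ 18 * (1 + K) * L * N := by
      have h5 : ∑ μ ∈ Finset.Icc 1 (B ^ 5), 1 / (μ : ℝ) ≤ 1 + K :=
        (mom_harm (B ^ 5)).trans (by linarith)
      calc K ^ 18 * L * N * ∑ μ ∈ Finset.Icc 1 (B ^ 5), 1 / (μ : ℝ) ≤ K ^ 18 * L * N * (1 + K) :=
            mul_le_mul_of_nonneg_left h5 (by positivity)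
        _ = K ^ 18 * (1 + K) * L * N := by ring
    have e4 : ((B ^ 5 : ℕ) : ℝ) * (N : ℝ) ^ ((93 : ℝ) / 100) ≤ L * N := by
      have hWpos : (0 : ℝ) < W := by exact_mod_cast (by omega : 0 < W)
      have h5 : ((B ^ 5 : ℕ) : ℝ) * (N : ℝ) ^ ((93 : ℝ) / 100) ≤ (N : ℝ) ^ ((95 : ℝ) / 100) := by
        push_cast
        calc (B : ℝ) ^ 5 * (N : ℝ) ^ ((93 : ℝ) / 100) ≤ (N : ℝ) ^ ((1 : ℝ) / 50) * (N : ℝ) ^ ((93 : ℝ) / 100) :=
              mul_le_mul_of_nonneg_right hLL (by positivity)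
          _ = (N : ℝ) ^ ((95 : ℝ) / 100) := by
              rw [← Real.rpow_add hN0]
              norm_num
      have h6 : (N : ℝ) ^ ((95 : ℝ) / 100) ≤ ((W * N : ℕ) : ℝ) ^ (-(1 / 50) : ℝ) * N := by
        push_cast
        rw [Real.mul_rpow hWpos.le hN0.le]
        have h7 : (N : ℝ) ^ (-(1 / 50) : ℝ) * N = (N : ℝ) ^ ((49 : ℝ) / 50) := by
          conv_lhs => rw [← Real.rpow_one (N : ℝ), ← Real.rpow_mul hN0.le]
          rw [← Real.rpow_add hN0]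
          norm_num
        have h8 : (W : ℝ) ^ (-(1 / 50) : ℝ) * (W : ℝ) ^ ((1 : ℝ) / 50) = 1 := by
          rw [← Real.rpow_add hWpos]
          norm_num
        have h9 := hx0 N hNx
        calc (N : ℝ) ^ ((95 : ℝ) / 100)
            = ((W : ℝ) ^ (-(1 / 50) : ℝ) * (W : ℝ) ^ ((1 : ℝ) / 50)) * (N : ℝ) ^ ((95 : ℝ) / 100) := by
              rw [h8, one_mul]
          _ = (W : ℝ) ^ (-(1 / 50) : ℝ) * ((W : ℝ) ^ ((1 : ℝ) / 50) * (N : ℝ) ^ ((95 : ℝ) / 100)) := by ring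
          _ ≤ (W : ℝ) ^ (-(1 / 50) : ℝ) * ((N : ℝ) ^ ((3 : ℝ) / 100) * (N : ℝ) ^ ((95 : ℝ) / 100)) := by
              gcongr
          _ = (W : ℝ) ^ (-(1 / 50) : ℝ) * (N : ℝ) ^ ((49 : ℝ) / 50) := by
              rw [← Real.rpow_add hN0]
              norm_num
          _ = (W : ℝ) ^ (-(1 / 50) : ℝ) * (N : ℝ) ^ (-(1 / 50) : ℝ) * N := by rw [← h7]; ring
      exact h5.trans (h6.trans (mul_le_mul_of_nonneg_right hLow hN0.le))
    linarith
  -- the end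
  have hfin1 : 36 * (1 + K) ^ 16 ≤ K ^ (25 : ℝ) := by
    have e1 : K ^ (25 : ℝ) = K ^ (25 : ℕ) := by
      rw [← Real.rpow_natCast]
      norm_num
    rw [e1]
    calc 36 * (1 + K) ^ 16 ≤ 36 * (2 * K) ^ 16 := by
          have : 1 + K ≤ 2 * K := by linarith
          gcongr
      _ = (36 * 2 ^ 16) * K ^ 16 := by ring
      _ ≤ K ^ 9 * K ^ 16 := by
          have : (36 * 2 ^ 16 : ℝ) ≤ K ^ 9 := by
            calc (36 * 2 ^ 16 : ℝ) ≤ 100 ^ 9 := by norm_num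
              _ ≤ K ^ 9 := by gcongr
          gcongr
      _ = K ^ 25 := by ring
  have hfin2 : 2 * (K ^ 18 * (1 + K) + 1) ≤ K ^ (25 : ℝ) := by
    have e1 : K ^ (25 : ℝ) = K ^ (25 : ℕ) := by
      rw [← Real.rpow_natCast]
      norm_num
    rw [e1]
    have e2 : (1 : ℝ) ≤ K ^ 18 := one_le_pow₀ (by linarith)
    have e3 : K ^ 18 * (1 + K) + 1 ≤ K ^ 18 * (3 * K) := by nlinarith
    calc 2 * (K ^ 18 * (1 + K) + 1) ≤ 2 * (K ^ 18 * (3 * K)) := by linarith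
      _ = 6 * K ^ 19 := by ring
      _ ≤ K ^ 6 * K ^ 19 := by
          have : (6 : ℝ) ≤ K ^ 6 := by
            calc (6 : ℝ) ≤ 100 ^ 6 := by norm_num
              _ ≤ K ^ 6 := by gcongr
          gcongr
      _ = K ^ 25 := by ring
  have hσN : 0 ≤ sQ c (W * N) * N := by positivity
  have hLN : 0 ≤ L * N := by positivity
  have g1 := mul_le_mul_of_nonneg_right hfin1 hσN
  have g2 := mul_le_mul_of_nonneg_right hfin2 hLN
  have g3 : K ^ (25 : ℝ) * (sQ c (W * N) + L) * N =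
      K ^ (25 : ℝ) * (sQ c (W * N) * N) + K ^ (25 : ℝ) * (L * N) := by ring
  rw [g3]
  have g4 : 36 * (1 + K) ^ 16 * (sQ c (W * N) * N) =
      2 * (16 * (1 + K) ^ 16 * sQ c (W * N) * N) + 2 * (2 * (1 + K) ^ 16 * sQ c (W * N) * N) := by ring
  have g5 : 2 * (K ^ 18 * (1 + K) + 1) * (L * N) = 2 * ((K ^ 18 * (1 + K) + 1) * L * N) := by ring
  linarith

end Pool.Agent.Lib.OW
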