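import Mathlib
import Pool.Agent.Lib.MP_7b7e48_nt.OW.MOM

/-!
# Module REL (30 minutes): the number of links through a sparse exceptional set

`rel1`: Cauchy and `m1`. `rel2`: every `n ∈ E` or `N - n` has a prime factor `q` with `c q = 1`; in the second case use `n' = N - n`
(`n ↦ N - n` is injective on `0 < n < N`, `N - n' = n`; `n > 0` because `n` is coprime to `N ≥ 3`): `∑_{n ∈ E} inc² ≤` the sum of `m2` (each of the
two cases is bounded by the sum over the filter of `inc N n ^ 2 + inc N (N - n) ^ 2`), so `≤ 2 K^CM (σ + L) N`. Cauchy.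
`lam_ne`: if `n ≥ 1` is coprime to `M` and `lam n ≠ c n`, then some prime `q ∣ n` has `c q = 1` (otherwise `c p = -1` for all primes `p ∣ n`
(`RC.val`), and both are completely multiplicative; `c 1 = 1`).
-/

set_option autoImplicit false

open Finset
open Pool.Agent.Lib.MP_45349e_nt.LS (lam)

namespace Pool.Agent.Lib.OW

open Pool.Agent.Lib.RG (RC LV rr SS PB)

private theorem rel_one {M : ℕ} {c : ℕ → ℝ} (hc : RC M c) : c 1 = 1 := by
  have h1 := hc.mul 1 1
  rcases hc.val 1 (Nat.coprime_one_left M) with h | h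
  · exact h
  · rw [mul_one, h] at h1
    norm_num at h1

private theorem rel_eq {M : ℕ} {c : ℕ → ℝ} (hc : RC M c) : ∀ n : ℕ, 0 < n →
    (∀ q : ℕ, q.Prime → q ∣ n → c q = -1) → lam n = c n := by
  intro n
  induction n using Nat.strong_induction_on with
  | _ n ih =>
    intro h0 h
    by_cases h1 : n = 1
    · subst h1
      rw [Pool.Agent.Lib.MP_45349e_nt.LS.lam_one, rel_one hc]
    · have hp := Nat.minFac_prime h1
      obtain ⟨m, hm⟩ := Nat.minFac_dvd n
      have hm0 : 0 < m := by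
        rcases Nat.eq_zero_or_pos m with h2 | h2
        · rw [h2, mul_zero] at hm
          omega
        · exact h2
      have hlt : m < n := by
        rw [hm]
        have := hp.two_le
        nlinarith
      have e1 := ih m hlt hm0 (fun q hq hqm => h q hq (hqm.trans (Dvd.intro_left _ hm.symm)))
      have e2 := h _ hp (Nat.minFac_dvd n)
      have e3 : lam n = lam (n.minFac) * lam m := by
        conv_lhs => rw [hm]
        exact Pool.Agent.Lib.MP_45349e_nt.LS.lam_mul _ _ hp.ne_zero hm0.ne'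
      have e4 : c n = c (n.minFac) * c m := by
        conv_lhs => rw [hm]
        exact hc.mul _ _
      rw [e3, e4, e2, e1, Pool.Agent.Lib.MP_45349e_nt.LS.lam_prime _ hp]

theorem lam_ne {M : ℕ} {c : ℕ → ℝ} (hc : RC M c) {n : ℕ} (h0 : 0 < n) (hn : n.Coprime M) (h : lam n ≠ c n) :
    ∃ q : ℕ, q.Prime ∧ c q = 1 ∧ q ∣ n := by
  by_contra hcon
  apply h
  apply rel_eq hc n h0
  intro q hq hqn
  rcases hc.val q (Nat.Coprime.coprime_dvd_left hqn hn) with h1 | h1
  · exact absurd ⟨q, hq, h1, hqn⟩ hcon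
  · exact h1

/-- Cauchy's inequality in the form in which it is used -/
private theorem rel_cs (E : Finset ℕ) (f : ℕ → ℝ) (B : ℝ) (hB : ∑ n ∈ E, f n ^ 2 ≤ B) :
    ∑ n ∈ E, f n ≤ Real.sqrt (E.card * B) := by
  apply Real.le_sqrt_of_sq_le
  have h := Finset.sum_mul_sq_le_sq_mul_sq E (fun _ => (1 : ℝ)) f
  simp only [one_mul, one_pow, Finset.sum_const, nsmul_eq_mul, mul_one] at h
  exact h.trans (mul_le_mul_of_nonneg_left hB (Nat.cast_nonneg _))

theorem rel1 : ∃ CM : ℝ, 0 ≤ CM ∧ ∃ N0 : ℕ, ∀ N : ℕ, N0 ≤ N → ∀ E : Finset ℕ, (∀ n ∈ E, n < N ∧ n.Coprime N) →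
    ∑ n ∈ E, (inc N n : ℝ) ≤ (Real.log N) ^ CM * Real.sqrt (E.card * N) := by
  obtain ⟨CM, hCM, N0, h⟩ := m1
  refine ⟨CM / 2, by positivity, N0, fun N hN E hE => ?_⟩
  have hK : 0 ≤ Real.log (N : ℝ) := Real.log_natCast_nonneg N
  have hsub : E ⊆ (Finset.range N).filter (fun n => n.Coprime N) := by
    intro n hn
    rw [Finset.mem_filter, Finset.mem_range]
    exact hE n hn
  have h1 : ∑ n ∈ E, (inc N n : ℝ) ^ 2 ≤ (Real.log N) ^ CM * N :=
    (Finset.sum_le_sum_of_subset_of_nonneg hsub (fun _ _ _ => sq_nonneg _)).trans (h N hN)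
  refine (rel_cs E (fun n => (inc N n : ℝ)) _ h1).trans (le_of_eq ?_)
  have h2 : (E.card : ℝ) * ((Real.log N) ^ CM * N) = (Real.log N) ^ CM * (E.card * N) := by ring
  rw [h2, Real.sqrt_mul (Real.rpow_nonneg hK _)]
  congr 1
  rw [Real.sqrt_eq_rpow, ← Real.rpow_mul hK]
  congr 1
  ring

theorem rel2 (W : ℕ) (hW : 1 ≤ W) : ∃ CM : ℝ, 0 ≤ CM ∧ ∃ N0 : ℕ, ∀ N : ℕ, N0 ≤ N → ∀ (c : ℕ → ℝ) (L : ℝ),
    RC (W * N) c → LV (W * N) c L → ((W * N : ℕ) : ℝ) ^ (-(1 / 50) : ℝ) ≤ L →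
    ∀ E : Finset ℕ, (∀ n ∈ E, n < N ∧ n.Coprime (W * N) ∧ (N - n).Coprime (W * N) ∧
      (lam n ≠ c n ∨ lam (N - n) ≠ c (N - n))) →
    ∑ n ∈ E, (inc N n : ℝ) ≤ (Real.log N) ^ CM * Real.sqrt (E.card * ((sQ c (W * N) + L) * N)) := by
  classical
  obtain ⟨CM, hCM, N0, h⟩ := m2 W hW
  refine ⟨CM / 2 + 1, by positivity, max N0 (max 3 ⌈Real.exp 2⌉₊), fun N hN c L hc hL hLL E hE => ?_⟩
  have hN0 : N0 ≤ N := (le_max_left _ _).trans hN
  have hN3 : 3 ≤ N := (le_max_left _ _).trans ((le_max_right _ _).trans hN)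
  have hNe : ⌈Real.exp 2⌉₊ ≤ N := (le_max_right _ _).trans ((le_max_right _ _).trans hN)
  have hK2 : 2 ≤ Real.log (N : ℝ) := by
    rw [Real.le_log_iff_exp_le (by exact_mod_cast (by omega : 0 < N))]
    exact (Nat.le_ceil _).trans (by exact_mod_cast hNe)
  have hK : 0 ≤ Real.log (N : ℝ) := by linarith
  have hm := h N hN0 c L hc hL hLL
  set S : Finset ℕ := (Finset.range N).filter (fun n => n.Coprime (W * N) ∧ (N - n).Coprime (W * N) ∧
      ∃ q : ℕ, q.Prime ∧ c q = 1 ∧ q ∣ n) with hS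
  set B : ℝ := (Real.log N) ^ CM * (sQ c (W * N) + L) * N with hB
  have hWN : 3 ≤ W * N := by nlinarith
  have hpos : ∀ n ∈ E, 0 < n := by
    intro n hn
    rcases Nat.eq_zero_or_pos n with h0 | h0
    · have h1 := (hE n hn).2.1
      rw [h0, Nat.coprime_zero_left] at h1
      omega
    · exact h0
  set E1 : Finset ℕ := E.filter (fun n => lam n ≠ c n) with hE1
  set E2 : Finset ℕ := E.filter (fun n => ¬ lam n ≠ c n) with hE2
  have hsplit : ∑ n ∈ E, (inc N n : ℝ) ^ 2 = ∑ n ∈ E1, (inc N n : ℝ) ^ 2 + ∑ n ∈ E2, (inc N n : ℝ) ^ 2 :=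
    (Finset.sum_filter_add_sum_filter_not E (fun n => lam n ≠ c n) (fun n => (inc N n : ℝ) ^ 2)).symm
  have b1 : ∑ n ∈ E1, (inc N n : ℝ) ^ 2 ≤ B := by
    have hsub : E1 ⊆ S := by
      intro n hn
      rw [hE1, Finset.mem_filter] at hn
      obtain ⟨c1, c2, c3, -⟩ := hE n hn.1
      rw [hS, Finset.mem_filter, Finset.mem_range]
      exact ⟨c1, c2, c3, lam_ne hc (hpos n hn.1) c2 hn.2⟩
    calc ∑ n ∈ E1, (inc N n : ℝ) ^ 2 ≤ ∑ n ∈ E1, ((inc N n : ℝ) ^ 2 + (inc N (N - n) : ℝ) ^ 2) :=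
          Finset.sum_le_sum (fun n _ => le_add_of_nonneg_right (sq_nonneg _))
      _ ≤ ∑ n ∈ S, ((inc N n : ℝ) ^ 2 + (inc N (N - n) : ℝ) ^ 2) :=
          Finset.sum_le_sum_of_subset_of_nonneg hsub (fun _ _ _ => by positivity)
      _ ≤ B := hm
  have b2 : ∑ n ∈ E2, (inc N n : ℝ) ^ 2 ≤ B := by
    have hinj : Set.InjOn (fun n => N - n) (E2 : Set ℕ) := by
      intro a ha b hb hab
      have h1 := (hE a (Finset.mem_filter.mp (Finset.mem_coe.mp ha)).1).1
      have h2 := (hE b (Finset.mem_filter.mp (Finset.mem_coe.mp hb)).1).1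
      simp only at hab
      omega
    have hsub : E2.image (fun n => N - n) ⊆ S := by
      intro m hm'
      rw [Finset.mem_image] at hm'
      obtain ⟨n, hn, rfl⟩ := hm'
      rw [hE2, Finset.mem_filter] at hn
      obtain ⟨c1, c2, c3, c4⟩ := hE n hn.1
      have h0 := hpos n hn.1
      have h5 : lam (N - n) ≠ c (N - n) := by
        rcases c4 with h6 | h6
        · exact absurd h6 hn.2
        · exact h6
      rw [hS, Finset.mem_filter, Finset.mem_range]
      have e : N - (N - n) = n := by omega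
      refine ⟨by omega, c3, ?_, lam_ne hc (by omega) c3 h5⟩
      rw [e]
      exact c2
    calc ∑ n ∈ E2, (inc N n : ℝ) ^ 2
        ≤ ∑ n ∈ E2, ((inc N (N - n) : ℝ) ^ 2 + (inc N (N - (N - n)) : ℝ) ^ 2) := by
          apply Finset.sum_le_sum
          intro n hn
          have e : N - (N - n) = n := by
            have := (hE n (Finset.mem_filter.mp hn).1).1
            omega
          rw [e]
          exact le_add_of_nonneg_left (sq_nonneg _)
      _ = ∑ m ∈ E2.image (fun n => N - n), ((inc N m : ℝ) ^ 2 + (inc N (N - m) : ℝ) ^ 2) :=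
          (Finset.sum_image (f := fun m => (inc N m : ℝ) ^ 2 + (inc N (N - m) : ℝ) ^ 2) hinj).symm
      _ ≤ ∑ n ∈ S, ((inc N n : ℝ) ^ 2 + (inc N (N - n) : ℝ) ^ 2) :=
          Finset.sum_le_sum_of_subset_of_nonneg hsub (fun _ _ _ => by positivity)
      _ ≤ B := hm
  have hB0 : 0 ≤ B := le_trans (Finset.sum_nonneg (fun _ _ => sq_nonneg _)) b1
  have b3 : ∑ n ∈ E, (inc N n : ℝ) ^ 2 ≤ 2 * B := by
    rw [hsplit]
    linarith
  refine (rel_cs E (fun n => (inc N n : ℝ)) _ b3).trans ?_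
  have h2 : (E.card : ℝ) * (2 * B) = (2 * (Real.log N) ^ CM) * (E.card * ((sQ c (W * N) + L) * N)) := by
    rw [hB]
    ring
  rw [h2, Real.sqrt_mul (by positivity)]
  apply mul_le_mul_of_nonneg_right _ (Real.sqrt_nonneg _)
  rw [Real.sqrt_le_left (by positivity)]
  have e1 : ((Real.log (N : ℝ)) ^ (CM / 2 + 1)) ^ 2 = (Real.log (N : ℝ)) ^ CM * (Real.log (N : ℝ)) ^ 2 := by
    rw [← Real.rpow_natCast, ← Real.rpow_mul hK, ← Real.rpow_natCast (Real.log (N : ℝ)) 2,
      ← Real.rpow_add (by linarith)]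
    congr 1
    push_cast
    ring
  rw [e1]
  have h3 : (0 : ℝ) ≤ (Real.log (N : ℝ)) ^ CM := by positivity
  have h4 : (2 : ℝ) ≤ (Real.log (N : ℝ)) ^ 2 := by nlinarith
  rw [mul_comm (2 : ℝ)]
  exact mul_le_mul_of_nonneg_left h4 h3

end Pool.Agent.Lib.OW
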