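import Pool.Agent.Lib.MP_7b7e48_nt.OW.UUC
import Pool.Agent.Lib.MP_7b7e48_nt.OW.B0
import Pool.Agent.Lib.MP_7b7e48_nt.OW.REL

/-!
# Module CHS (45 minutes): the reflection rule for the character

`c n = Re χ(n)`, `χ² = 1` (so `χ(n) = c n` for all `n`). By `chi_refl` the number `c (N - n) c n` has the same value for all `n ∈ Dom N W a N`
(`n` is coprime to `W N`: class `a`, coprime to `N`; `N - n` too: class `N - a`, Cfg.naW, `a < W ≤ N`). It is enough to find one `n ∈ Dom N W a N` with
`lam n = c n`, `lam (N - n) = c (N - n)`, `n ∉ EE W N a κ`: then `c (N - n) = lam (N-n) = κ lam n = κ c n`.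
Number of the `n ∈ Dom N W a N`: at least `N/W - 1 - (√N + 1)` (the multiples of the at most one prime `p > √N` of `N` outside `W` are removed, see UUC).
Number of those with `lam n ≠ c n`: at most `card (Zst N W a c 1) ≤ N/(8 W)`. With `lam (N - n) ≠ c (N - n)`: by `lam_ne` some prime `q ∣ N - n`,
`c q = 1`, `q ≤ N`: at most `∑_q N/q ≤ σ N ≤ N/(8 W)`. In `EE`: at most `N/(8 W)`. Together less than `N/(2 W)`.
`chi_l`: a prime `l` coprime to `W N` for which `lam (mr W N l x) = - lam x` for most `x` has `c l = -1`: `x ↦ mr W N l x` is a bijection of `UU`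
(`l = 1 (mod W)`), so for at least `card UU - 3 N/(8 W).. > 0` of the `x ∈ UU` we have `lam (mr l x) = - lam x`, `lam x = c x`, `lam (mr l x) = c (mr l x) = c l c x`.
-/

set_option autoImplicit false

open Finset
open Pool.Agent.Lib.MP_45349e_nt.LS (lam)

namespace Pool.Agent.Lib.OW

open Pool.Agent.Lib.RG (RC LV rr SS PB)

namespace CHS

theorem cop_of_mod {W a n : ℕ} (ha : a.Coprime W) (h : n % W = a % W) : n.Coprime W := by
  have h1 : Nat.gcd n W = Nat.gcd a W := by
    rw [Nat.gcd_comm n W, Nat.gcd_comm a W, Nat.gcd_rec W n, Nat.gcd_rec W a, h]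
  rw [Nat.coprime_iff_gcd_eq_one, h1]
  exact ha

theorem per_mul {M : ℕ} {c : ℕ → ℝ} (hc : RC M c) (n k : ℕ) : c (n + k * M) = c n := by
  induction k with
  | zero => simp
  | succ k ih =>
    rw [Nat.succ_mul, ← Nat.add_assoc, hc.per, ih]

theorem per_mod {M : ℕ} {c : ℕ → ℝ} (hc : RC M c) (n : ℕ) : c (n % M) = c n := by
  conv_rhs => rw [← Nat.mod_add_div n M, Nat.mul_comm M (n / M)]
  rw [per_mul hc]

open Classical in
/-- the number of the elements of `Dom` -/
theorem card_Dom {W N a : ℕ} (hc : Cfg W N a) :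
    (N : ℝ) / W - 2 - Real.sqrt N ≤ ((Dom N W a N).card : ℝ) := by
  have hW := hc.W1
  have hN0 : 0 < N := lt_of_lt_of_le hW hc.WN
  -- all the numbers of the class
  set A : Finset ℕ := (range N).filter fun n => n % W = a % W with hA
  have hAc : N / W ≤ A.card := by
    have h1 : ((range (N / W)).image fun i => a + W * i) ⊆ A := by
      intro n hn
      rw [mem_image] at hn
      obtain ⟨i, hi, rfl⟩ := hn
      rw [mem_range] at hi
      rw [hA, mem_filter, mem_range]
      refine ⟨?_, by rw [Nat.add_mul_mod_self_left]⟩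
      have h2 : W * (i + 1) ≤ W * (N / W) := Nat.mul_le_mul_left _ hi
      have h3 : W * (N / W) ≤ N := Nat.mul_div_le N W
      have h4 := hc.alt
      have h5 : W * (i + 1) = W * i + W := by ring
      omega
    have h2 : ((range (N / W)).image fun i => a + W * i).card = N / W := by
      rw [card_image_of_injective, card_range]
      intro i j hij
      have h3 : W * i = W * j := by
        have : a + W * i = a + W * j := hij
        omega
      exact Nat.eq_of_mul_eq_mul_left hW h3
    calc N / W = _ := h2.symm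
      _ ≤ _ := card_le_card h1
  have hDsub : Dom N W a N = A.filter fun n => n.Coprime N := by
    ext n
    rw [hA, filter_filter]
    unfold Dom
    rw [mem_filter, mem_filter]
    constructor
    · rintro ⟨h1, h2, h3⟩
      exact ⟨h1, h2, h3⟩
    · rintro ⟨h1, h2, h3⟩
      exact ⟨h1, h2, h3⟩
  have hsplit : (A.filter fun n => n.Coprime N).card + (A.filter fun n => ¬ n.Coprime N).card = A.card :=
    card_filter_add_card_filter_not _
  -- the numbers which are not coprime to `N`
  have hbad : ((A.filter fun n => ¬ n.Coprime N).card : ℝ) ≤ Real.sqrt N + 1 := by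
    by_cases hne : (A.filter fun n => ¬ n.Coprime N) = ∅
    · rw [hne, card_empty]
      have := Real.sqrt_nonneg (N : ℝ)
      push_cast
      linarith
    · obtain ⟨n0, hn0⟩ := Finset.nonempty_iff_ne_empty.2 hne
      have key : ∀ n ∈ A.filter fun n => ¬ n.Coprime N, ∃ p : ℕ, p.Prime ∧ p ∣ n ∧ p ∣ N ∧ N < p * p := by
        intro n hn
        rw [mem_filter, hA, mem_filter] at hn
        obtain ⟨⟨h1, h2⟩, h3⟩ := hn
        obtain ⟨p, hp, hpn, hpN⟩ := Nat.Prime.not_coprime_iff_dvd.1 h3
        refine ⟨p, hp, hpn, hpN, hc.big p hp hpN ?_⟩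
        intro hpW
        have h4 := cop_of_mod hc.aW h2
        exact (Nat.Prime.not_coprime_iff_dvd.2 ⟨p, hp, hpn, hpW⟩) h4
      obtain ⟨p, hp, hpn, hpN, hpp⟩ := key n0 hn0
      have hsub : (A.filter fun n => ¬ n.Coprime N) ⊆ (range (N / p + 1)).image fun i => p * i := by
        intro n hn
        obtain ⟨q, hq, hqn, hqN, hqq⟩ := key n hn
        have hpq : p = q := by
          by_contra hne2
          have h5 : p * q ∣ N := ((Nat.coprime_primes hp hq).2 hne2).mul_dvd_of_dvd_of_dvd hpN hqN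
          have h6 : p * q ≤ N := Nat.le_of_dvd hN0 h5
          have h7 : (p * q) * (p * q) ≤ N * N := Nat.mul_le_mul h6 h6
          have h8 : N * N < (p * p) * (q * q) := Nat.mul_lt_mul'' hpp hqq
          have h9 : (p * q) * (p * q) = (p * p) * (q * q) := by ring
          omega
        rw [mem_filter, hA, mem_filter, mem_range] at hn
        rw [mem_image]
        refine ⟨n / p, ?_, ?_⟩
        · rw [mem_range]
          have := Nat.div_le_div_right (c := p) hn.1.1.le
          omega
        · exact Nat.mul_div_cancel' (hpq ▸ hqn)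
      have h1 : (A.filter fun n => ¬ n.Coprime N).card ≤ N / p + 1 := by
        calc _ ≤ ((range (N / p + 1)).image fun i => p * i).card := card_le_card hsub
          _ ≤ (range (N / p + 1)).card := card_image_le
          _ = N / p + 1 := card_range _
      have h2 : ((N / p : ℕ) : ℝ) ≤ (N : ℝ) / p := Nat.cast_div_le
      have hp0 : (0 : ℝ) < p := by exact_mod_cast hp.pos
      have h3 : Real.sqrt N ≤ p := by
        rw [Real.sqrt_le_left hp0.le]
        have : (N : ℝ) < p * p := by exact_mod_cast hpp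
        nlinarith
      have h4 : (N : ℝ) / p ≤ Real.sqrt N := by
        rw [div_le_iff₀ hp0]
        have h5 : Real.sqrt N * Real.sqrt N = N := Real.mul_self_sqrt (Nat.cast_nonneg N)
        calc (N : ℝ) = Real.sqrt N * Real.sqrt N := h5.symm
          _ ≤ Real.sqrt N * p := mul_le_mul_of_nonneg_left h3 (Real.sqrt_nonneg _)
      have h6 : ((A.filter fun n => ¬ n.Coprime N).card : ℝ) ≤ ((N / p : ℕ) : ℝ) + 1 := by exact_mod_cast h1
      linarith
  have hNW : (N : ℝ) / W - 1 ≤ ((N / W : ℕ) : ℝ) := by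
    have hW0 : (0 : ℝ) < W := by exact_mod_cast hW
    have h1 : N < W * (N / W + 1) := by
      have := Nat.lt_mul_div_succ N hW
      exact this
    have h2 : (N : ℝ) < W * ((N / W : ℕ) + 1 : ℝ) := by exact_mod_cast h1
    have h3 : (N : ℝ) / W < ((N / W : ℕ) : ℝ) + 1 := by
      rw [div_lt_iff₀ hW0]
      linarith
    linarith
  have h1 : ((N / W : ℕ) : ℝ) ≤ (A.card : ℝ) := by exact_mod_cast hAc
  have h2 : ((A.filter fun n => n.Coprime N).card : ℝ) + ((A.filter fun n => ¬ n.Coprime N).card : ℝ) = A.card := by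
    exact_mod_cast hsplit
  rw [hDsub]
  linarith

/-- an elementary inequality for large `N` -/
theorem big_enough (W : ℕ) (hW : 1 ≤ W) : ∃ N0 : ℕ, ∀ N : ℕ, N0 ≤ N →
    3 * ((N : ℝ) / (8 * W)) < (N : ℝ) / W - 2 - Real.sqrt N ∧ 3 * ((N : ℝ) / 8) < (N : ℝ) - W * Real.sqrt N - 1 := by
  refine ⟨(16 * W) ^ 2, ?_⟩
  intro N hN
  have hW1 : (1 : ℝ) ≤ W := by exact_mod_cast hW
  have hW0 : (0 : ℝ) < W := by linarith
  have h1 : ((16 * W : ℝ)) ^ 2 ≤ N := by exact_mod_cast hN
  have h2 : (16 * W : ℝ) ≤ Real.sqrt N := Real.le_sqrt_of_sq_le h1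
  have h3 : Real.sqrt N * Real.sqrt N = N := Real.mul_self_sqrt (Nat.cast_nonneg N)
  set s := Real.sqrt N with hs
  have hs0 : 0 ≤ s := Real.sqrt_nonneg _
  have h4 : 16 * W * s ≤ N := by
    calc 16 * W * s ≤ s * s := mul_le_mul_of_nonneg_right h2 hs0
      _ = N := h3
  constructor
  · have h5 : (N : ℝ) / (8 * W) = (N : ℝ) / W / 8 := by
      field_simp
    have h6 : 16 * s ≤ (N : ℝ) / W := by
      rw [le_div_iff₀ hW0]
      linarith
    rw [h5]
    nlinarith
  · nlinarith

end CHS

theorem chs (W : ℕ) (hW : 1 ≤ W) : ∃ N0 : ℕ, ∀ (N : ℕ) [NeZero (W * N)], N0 ≤ N → ∀ a : ℕ, Cfg W N a →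
    ∀ κ : ℝ, κ ^ 2 = 1 → ∀ χ : DirichletCharacter ℂ (W * N), χ ^ 2 = 1 → RC (W * N) (fun n => (χ (n : ZMod (W * N))).re) →
    ((Zst N W a (fun n => (χ (n : ZMod (W * N))).re) 1).card : ℝ) ≤ N / (8 * W) →
    sQ (fun n => (χ (n : ZMod (W * N))).re) (W * N) ≤ 1 / (8 * W) →
    ((EE W N a κ).card : ℝ) ≤ N / (8 * W) →
    ∀ n ∈ Dom N W a N, (χ ((N - n : ℕ) : ZMod (W * N))).re = κ * (χ (n : ZMod (W * N))).re := by
  classical
  obtain ⟨N0, hN0⟩ := CHS.big_enough W hW
  refine ⟨max N0 2, ?_⟩
  intro N _ hN a hc κ hκ χ hχ hRC hZ hQ hE m hm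
  set c : ℕ → ℝ := fun n => (χ (n : ZMod (W * N))).re with hcdef
  have hN2 : 2 ≤ N := le_trans (le_max_right _ _) hN
  have hNN := (hN0 N (le_trans (le_max_left _ _) hN)).1
  have hNpos : 0 < N := by omega
  have hWle : N ≤ W * N := Nat.le_mul_of_pos_left N hW
  -- facts on the elements of `Dom`
  have hDom : ∀ n ∈ Dom N W a N, 0 < n ∧ n < N ∧ n.Coprime (W * N) ∧ (N - n).Coprime (W * N) ∧ n % W = a % W ∧ n.Coprime N := by
    intro n hn
    unfold Dom at hn
    rw [mem_filter, mem_range] at hn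
    obtain ⟨h1, h2, h3⟩ := hn
    have h0 : 0 < n := by
      refine Nat.pos_of_ne_zero ?_
      rintro rfl
      rw [Nat.coprime_zero_left] at h3
      omega
    have h4 : n.Coprime W := CHS.cop_of_mod hc.aW h2
    have h5 : (N - n) % W = (N - a) % W := by
      have h6 : N - n + n ≡ N - a + a [MOD W] := by
        have e1 : N - n + n = N := by omega
        have e2 : N - a + a = N := by
          have := hc.alt
          have := hc.WN
          omega
        rw [e1, e2]
      have h7 : N - n ≡ N - a [MOD W] := Nat.ModEq.add_right_cancel h2 h6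
      exact h7
    have h6 : (N - n).Coprime W := CHS.cop_of_mod hc.naW h5
    have h7 : (N - n).Coprime N := (Nat.coprime_self_sub_left h1.le).2 h3
    exact ⟨h0, h1, Nat.Coprime.mul_right h4 h3, Nat.Coprime.mul_right h6 h7, h2, h3⟩
  -- the character is real
  have hreal : ∀ n : ℕ, n.Coprime (W * N) → χ (n : ZMod (W * N)) = ((c n : ℝ) : ℂ) := by
    intro n hn
    have h3 : IsUnit (n : ZMod (W * N)) := (ZMod.isUnit_iff_coprime n (W * N)).2 hn
    have h4 : (χ ^ 2) (n : ZMod (W * N)) = 1 := by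
      rw [hχ]
      exact MulChar.one_apply h3
    rw [MulChar.pow_apply' χ two_ne_zero] at h4
    rcases sq_eq_one_iff.1 h4 with h5 | h5
    · rw [hcdef]
      simp only [h5, Complex.one_re, Complex.ofReal_one]
    · rw [hcdef]
      simp only [h5, Complex.neg_re, Complex.one_re, Complex.ofReal_neg, Complex.ofReal_one]
  -- the three exceptional sets
  set D := Dom N W a N with hD
  have hb1 : ((D.filter fun n => lam n ≠ c n).card : ℝ) ≤ N / (8 * W) := by
    refine le_trans ?_ hZ
    have : (D.filter fun n => lam n ≠ c n) ⊆ Zst N W a c 1 := by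
      intro n hn
      rw [mem_filter, hD] at hn
      unfold Zst
      rw [mem_filter, one_mul]
      refine ⟨?_, hn.2⟩
      have h1 := hn.1
      unfold Dom at h1 ⊢
      rw [mem_filter, mem_range] at h1 ⊢
      exact ⟨lt_of_lt_of_le h1.1 hWle, h1.2⟩
    exact_mod_cast card_le_card this
  have hb3 : ((D.filter fun n => n ∈ EE W N a κ).card : ℝ) ≤ N / (8 * W) := by
    refine le_trans ?_ hE
    have : (D.filter fun n => n ∈ EE W N a κ) ⊆ EE W N a κ := by
      intro n hn
      rw [mem_filter] at hn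
      exact hn.2
    exact_mod_cast card_le_card this
  have hb2 : ((D.filter fun n => lam (N - n) ≠ c (N - n)).card : ℝ) ≤ N / (8 * W) := by
    have h1 : (D.filter fun n => lam (N - n) ≠ c (N - n)) ⊆
        (QP c (W * N)).biUnion fun q => (Icc 1 N).filter fun n => q ∣ N - n ∧ n < N := by
      intro n hn
      rw [mem_filter] at hn
      obtain ⟨h0, h1, h2, h3, h4, h5⟩ := hDom n hn.1
      obtain ⟨q, hq, hcq, hqn⟩ := lam_ne hRC (by omega) h3 hn.2
      rw [mem_biUnion]
      have h6 : q ≤ N - n := Nat.le_of_dvd (by omega) hqn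
      refine ⟨q, ?_, ?_⟩
      · unfold QP
        rw [mem_filter, mem_range]
        exact ⟨by omega, hq, hcq⟩
      · rw [mem_filter, mem_Icc]
        exact ⟨⟨h0, h1.le⟩, hqn, h1⟩
    have h2 : ∀ q ∈ QP c (W * N), ((((Icc 1 N).filter fun n => q ∣ N - n ∧ n < N).card : ℕ) : ℝ) ≤ N * (1 / (q : ℝ)) := by
      intro q hq
      unfold QP at hq
      rw [mem_filter] at hq
      have hq0 : 0 < q := hq.2.1.pos
      have h3 : ((Icc 1 N).filter fun n => q ∣ N - n ∧ n < N).card ≤ ((Ioc 0 N).filter fun m => q ∣ m).card := by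
        refine card_le_card_of_injOn (fun n => N - n) ?_ ?_
        · intro n hn
          have hn2 : n ∈ (Icc 1 N).filter fun n => q ∣ N - n ∧ n < N := hn
          rw [mem_filter, mem_Icc] at hn2
          show N - n ∈ (Ioc 0 N).filter fun m => q ∣ m
          rw [mem_filter, mem_Ioc]
          exact ⟨by omega, hn2.2.1⟩
        · intro n hn n' hn' hh
          have hn2 : n ∈ (Icc 1 N).filter fun n => q ∣ N - n ∧ n < N := hn
          have hn3 : n' ∈ (Icc 1 N).filter fun n => q ∣ N - n ∧ n < N := hn'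
          rw [mem_filter, mem_Icc] at hn2 hn3
          have : N - n = N - n' := hh
          omega
      have h4 : ((Ioc 0 N).filter fun m => q ∣ m).card = N / q := Nat.Ioc_filter_dvd_card_eq_div N q
      have h5 : ((N / q : ℕ) : ℝ) ≤ (N : ℝ) / q := Nat.cast_div_le
      have h6 : ((((Icc 1 N).filter fun n => q ∣ N - n ∧ n < N).card : ℕ) : ℝ) ≤ ((N / q : ℕ) : ℝ) := by
        rw [← h4]
        exact_mod_cast h3
      calc _ ≤ ((N / q : ℕ) : ℝ) := h6
        _ ≤ (N : ℝ) / q := h5
        _ = N * (1 / (q : ℝ)) := by rw [mul_one_div]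
    calc ((D.filter fun n => lam (N - n) ≠ c (N - n)).card : ℝ)
        ≤ (((QP c (W * N)).biUnion fun q => (Icc 1 N).filter fun n => q ∣ N - n ∧ n < N).card : ℝ) := by
          exact_mod_cast card_le_card h1
      _ ≤ ((∑ q ∈ QP c (W * N), ((Icc 1 N).filter fun n => q ∣ N - n ∧ n < N).card : ℕ) : ℝ) := by
          exact_mod_cast card_biUnion_le
      _ = ∑ q ∈ QP c (W * N), ((((Icc 1 N).filter fun n => q ∣ N - n ∧ n < N).card : ℕ) : ℝ) := by push_cast; rfl
      _ ≤ ∑ q ∈ QP c (W * N), N * (1 / (q : ℝ)) := sum_le_sum h2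
      _ = N * sQ c (W * N) := by
          unfold sQ
          rw [mul_sum]
      _ ≤ N * (1 / (8 * W)) := mul_le_mul_of_nonneg_left hQ (Nat.cast_nonneg N)
      _ = N / (8 * W) := by rw [mul_one_div]
  -- one good element
  have hgood : ∃ n ∈ D, lam n = c n ∧ lam (N - n) = c (N - n) ∧ n ∉ EE W N a κ := by
    by_contra hno
    push Not at hno
    have h1 : D ⊆ ((D.filter fun n => lam n ≠ c n) ∪ (D.filter fun n => lam (N - n) ≠ c (N - n))) ∪
        (D.filter fun n => n ∈ EE W N a κ) := by
      intro n hn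
      rw [mem_union, mem_union, mem_filter, mem_filter, mem_filter]
      by_cases h2 : lam n = c n
      · by_cases h3 : lam (N - n) = c (N - n)
        · exact Or.inr ⟨hn, hno n hn h2 h3⟩
        · exact Or.inl (Or.inr ⟨hn, h3⟩)
      · exact Or.inl (Or.inl ⟨hn, h2⟩)
    have h2 : D.card ≤ (D.filter fun n => lam n ≠ c n).card + (D.filter fun n => lam (N - n) ≠ c (N - n)).card +
        (D.filter fun n => n ∈ EE W N a κ).card := by
      calc D.card ≤ _ := card_le_card h1
        _ ≤ _ := card_union_le _ _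
        _ ≤ _ := Nat.add_le_add_right (card_union_le _ _) _
    have h3 : (D.card : ℝ) ≤ ((D.filter fun n => lam n ≠ c n).card : ℝ) + ((D.filter fun n => lam (N - n) ≠ c (N - n)).card : ℝ) +
        ((D.filter fun n => n ∈ EE W N a κ).card : ℝ) := by exact_mod_cast h2
    have h4 := CHS.card_Dom hc
    rw [← hD] at h4
    linarith
  obtain ⟨n, hn, hn1, hn2, hn3⟩ := hgood
  obtain ⟨g0, g1, g2, g3, g4, g5⟩ := hDom n hn
  obtain ⟨m0, m1, m2, m3, m4, m5⟩ := hDom m hm
  have hκn : lam (N - n) = κ * lam n := by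
    by_contra hne
    apply hn3
    unfold EE
    rw [mem_filter, mem_range]
    exact ⟨g1, g4, g5, hne⟩
  have hcn : c (N - n) = κ * c n := by rw [← hn2, hκn, hn1]
  have hrefl := chi_refl N W χ hχ m n m1.le g1.le (show m % W = n % W by rw [m4, g4]) m2 g2
  rw [hreal _ m2, hreal _ m3, hreal _ g2, hreal _ g3] at hrefl
  have hrefl2 : c (N - m) * c m = c (N - n) * c n := by exact_mod_cast hrefl
  have hcn2 : c n * c n = 1 := by
    rcases hRC.val n g2 with h | h <;> rw [h] <;> norm_num
  have hcm2 : c m * c m = 1 := by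
    rcases hRC.val m m2 with h | h <;> rw [h] <;> norm_num
  show c (N - m) = κ * c m
  calc c (N - m) = c (N - m) * (c m * c m) := by rw [hcm2, mul_one]
    _ = (c (N - m) * c m) * c m := by ring
    _ = (κ * c n * c n) * c m := by rw [hrefl2, hcn]
    _ = κ * (c n * c n) * c m := by ring
    _ = κ * c m := by rw [hcn2, mul_one]

open Classical in
theorem chi_l (W : ℕ) (hW : 1 ≤ W) : ∃ N0 : ℕ, ∀ N : ℕ, N0 ≤ N → ∀ a : ℕ, Cfg W N a → ∀ c : ℕ → ℝ, RC (W * N) c →
    ((Zst N W a c 1).card : ℝ) ≤ N / 8 → ∀ l : ℕ, l.Prime → l % W = 1 % W → l.Coprime (W * N) →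
    (((UU W N a).filter fun x => lam (mr W N l x) ≠ -lam x).card : ℝ) ≤ N / 8 → c l = -1 := by
  obtain ⟨N0, hN0⟩ := CHS.big_enough W hW
  refine ⟨max N0 2, ?_⟩
  intro N hN a hc c hRC hZ l hl hlW hlc hB
  have hN2 : 2 ≤ N := le_trans (le_max_right _ _) hN
  have hNN := (hN0 N (le_trans (le_max_left _ _) hN)).2
  have hNpos : 0 < N := by omega
  have hWN : 0 < W * N := Nat.mul_pos hW hNpos
  have hUU : ∀ x, x ∈ UU W N a ↔ x < W * N ∧ x % W = a % W ∧ x.Coprime N := by
    intro x
    unfold UU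
    rw [mem_filter, mem_range]
  have hmap : ∀ x ∈ UU W N a, mr W N l x ∈ UU W N a := by
    intro x hx
    rw [hUU] at hx ⊢
    unfold mr
    refine ⟨Nat.mod_lt _ hWN, ?_, ?_⟩
    · rw [Nat.mod_mul_right_mod, Nat.mul_mod, hlW, ← Nat.mul_mod, one_mul]
      exact hx.2.1
    · have h1 : (l * x % (W * N)) % N = (l * x) % N := by
        rw [Nat.mod_mul_left_mod]
      have h2 : (l * x).Coprime N := Nat.Coprime.mul_left (Nat.Coprime.coprime_mul_left_right hlc) hx.2.2
      exact CHS.cop_of_mod h2 h1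
  have hcop : ∀ x ∈ UU W N a, x.Coprime (W * N) := by
    intro x hx
    rw [hUU] at hx
    exact Nat.Coprime.mul_right (CHS.cop_of_mod hc.aW hx.2.1) hx.2.2
  have hinj : Set.InjOn (fun x => mr W N l x) (UU W N a : Set ℕ) := by
    intro x hx y hy hxy
    have hx' := (hUU x).1 hx
    have hy' := (hUU y).1 hy
    have h1 : l * x ≡ l * y [MOD (W * N)] := hxy
    have h2 : x ≡ y [MOD (W * N)] := Nat.ModEq.cancel_left_of_coprime (by rw [Nat.gcd_comm]; exact hlc) h1
    have h3 : x % (W * N) = y % (W * N) := h2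
    rwa [Nat.mod_eq_of_lt hx'.1, Nat.mod_eq_of_lt hy'.1] at h3
  have hb2 : ((UU W N a).filter fun x => lam x ≠ c x).card ≤ (Zst N W a c 1).card := by
    refine card_le_card ?_
    intro x hx
    rw [mem_filter, hUU] at hx
    unfold Zst Dom
    rw [mem_filter, mem_filter, mem_range, one_mul]
    exact ⟨⟨hx.1.1, hx.1.2.1, hx.1.2.2⟩, hx.2⟩
  have hb3 : ((UU W N a).filter fun x => lam (mr W N l x) ≠ c (mr W N l x)).card ≤
      ((UU W N a).filter fun x => lam x ≠ c x).card := by
    refine card_le_card_of_injOn (fun x => mr W N l x) ?_ ?_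
    · intro x hx
      have hx2 : x ∈ (UU W N a).filter fun x => lam (mr W N l x) ≠ c (mr W N l x) := hx
      rw [mem_filter] at hx2
      show mr W N l x ∈ (UU W N a).filter fun x => lam x ≠ c x
      rw [mem_filter]
      exact ⟨hmap x hx2.1, hx2.2⟩
    · intro x hx y hy hxy
      have hx2 : x ∈ (UU W N a).filter fun x => lam (mr W N l x) ≠ c (mr W N l x) := hx
      have hy2 : y ∈ (UU W N a).filter fun x => lam (mr W N l x) ≠ c (mr W N l x) := hy
      exact hinj (mem_filter.1 hx2).1 (mem_filter.1 hy2).1 hxy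
  have hgood : ∃ x ∈ UU W N a, lam (mr W N l x) = -lam x ∧ lam x = c x ∧ lam (mr W N l x) = c (mr W N l x) := by
    by_contra hno
    push Not at hno
    have h1 : UU W N a ⊆ (((UU W N a).filter fun x => lam (mr W N l x) ≠ -lam x) ∪ ((UU W N a).filter fun x => lam x ≠ c x)) ∪
        ((UU W N a).filter fun x => lam (mr W N l x) ≠ c (mr W N l x)) := by
      intro x hx
      rw [mem_union, mem_union, mem_filter, mem_filter, mem_filter]
      by_cases h2 : lam (mr W N l x) = -lam x
      · by_cases h3 : lam x = c x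
        · exact Or.inr ⟨hx, hno x hx h2 h3⟩
        · exact Or.inl (Or.inr ⟨hx, h3⟩)
      · exact Or.inl (Or.inl ⟨hx, h2⟩)
    have h2 : (UU W N a).card ≤ ((UU W N a).filter fun x => lam (mr W N l x) ≠ -lam x).card +
        ((UU W N a).filter fun x => lam x ≠ c x).card + ((UU W N a).filter fun x => lam (mr W N l x) ≠ c (mr W N l x)).card := by
      calc (UU W N a).card ≤ _ := card_le_card h1
        _ ≤ _ := card_union_le _ _
        _ ≤ _ := Nat.add_le_add_right (card_union_le _ _) _
    have h3 : ((UU W N a).card : ℝ) ≤ (((UU W N a).filter fun x => lam (mr W N l x) ≠ -lam x).card : ℝ) +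
        (((UU W N a).filter fun x => lam x ≠ c x).card : ℝ) +
        (((UU W N a).filter fun x => lam (mr W N l x) ≠ c (mr W N l x)).card : ℝ) := by exact_mod_cast h2
    have h4 : (((UU W N a).filter fun x => lam x ≠ c x).card : ℝ) ≤ N / 8 := le_trans (by exact_mod_cast hb2) hZ
    have h5 : (((UU W N a).filter fun x => lam (mr W N l x) ≠ c (mr W N l x)).card : ℝ) ≤ N / 8 :=
      le_trans (by exact_mod_cast hb3) h4
    have h6 := card_UU_ge hc
    linarith
  obtain ⟨x, hx, hx1, hx2, hx3⟩ := hgood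
  have h1 : c (mr W N l x) = c l * c x := by
    unfold mr
    rw [CHS.per_mod hRC, hRC.mul]
  have h2 : c l * c x = -c x := by rw [← h1, ← hx3, hx1, hx2]
  have h3 : c x ≠ 0 := by
    rcases hRC.val x (hcop x hx) with h | h <;> rw [h] <;> norm_num
  have h4 : (c l + 1) * c x = 0 := by linarith
  rcases mul_eq_zero.1 h4 with h5 | h5
  · linarith
  · exact absurd h5 h3

end Pool.Agent.Lib.OW
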