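import Pool.Agent.Lib.MP_7b7e48_nt.OW.S2
import Pool.Agent.Lib.Sieve.Mertens

/-!
# Module S4 (120 minutes): Chebyshev's identity for `1 * c` on the numbers coprime to `N`

`K = log N`, `T = ∑_{n ≤ y} rs N c n log n`, `X = del N L y`. PROOF. UPPER BOUND. `log n = ∑_{p^a ∣∣ n} a log p`; write `n = p^a m`, `p ∤ m`, `rs N c n = rr c (p^a) rs N c m` for `p ∤ N`:
`T ≤ ∑_{p ∤ N} ∑_{a ≥ 1, p^a ≤ y} a log p · rr c (p^a) · SSs N c (y / p^a)`; `rr c (p^a)` is `1` (`a` even), `0` (`a` odd) if `c p = -1` and `a + 1` if `c p = 1` (`RG/A4a.lean` has all this for `SS`).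
For `a = 1` only the primes with `c q = 1` contribute: `2 ∑_{q ∈ QP c y} log q SSs N c (y/q)`. For `a ≥ 2` use `rr c (p^a) ≤ a + 1` and `SSs_asymp` (`SSs N c w ≤ del N L w + √w N^(3/10)`, `w = ⌊y/p^a⌋ ≥ 1`):
`∑_{a ≥ 2} a (a+1) log p (X/p^a + √(y/p^a) N^(3/10)) ≤ C X + C K^4 √y N^(3/10) ≤ 2 C X` (`∑_p ∑_{a ≥ 2} a (a+1) log p/p^a` converges, `∑_{p^a ≤ y, a ≥ 2} a (a+1) log p/p^(a/2) ≤ C K^4`; `√y N^(3/10) ≤ X/K^5` as `y ≥ N^(17/20)`).
LOWER BOUND. `T ≥ (1/2) log y (SSs N c y - SSs N c ⌊√y⌋) ≥ (17/40) K ((99/100) X - X/100)` (`SSs_two`, and `SSs_asymp` at `⌊√y⌋`). So `2 ∑ ≥ (2/5) K X - 2 C X ≥ (1/5) K X` for large `N`.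
-/

open Finset

namespace Pool.Agent.Lib.OW

open Pool.Agent.Lib.RG (RC LV rr SS PB)


private theorem S4_filter (z : ℕ) :
    (Finset.range (z + 1)).filter Nat.Prime = (Finset.Icc 1 z).filter Nat.Prime := by
  ext p
  simp only [Finset.mem_filter, Finset.mem_range, Finset.mem_Icc]
  constructor
  · rintro ⟨h1, h2⟩; exact ⟨⟨h2.one_lt.le, by omega⟩, h2⟩
  · rintro ⟨⟨_, h1⟩, h2⟩; exact ⟨by omega, h2⟩

private theorem S4_mert (z : ℕ) (hz : 1 ≤ z) :
    ∑ p ∈ (Finset.range (z + 1)).filter Nat.Prime, Real.log p / p ≤ Real.log z + Real.log 4 := by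
  rw [S4_filter]
  exact Pool.Agent.Lib.Sieve.sum_log_div_le z hz

private theorem S4_log_le_sqrt (x : ℝ) (hx : 0 ≤ x) : Real.log x ≤ 2 * Real.sqrt x := by
  have h := Real.log_le_rpow_div hx (show (0 : ℝ) < 1 / 2 by norm_num)
  rw [← Real.sqrt_eq_rpow] at h
  linarith

/-- the geometric sums -/
private theorem S4_geo : ∃ C : ℝ, 0 < C ∧ ∀ (y : ℕ) (x : ℝ), 0 ≤ x → x ^ 2 ≤ 1 / 2 →
    ∑ k ∈ Finset.Icc 2 y, (k : ℝ) * (k + 1) * x ^ k ≤ C * x ^ 2 := by
  set r : ℝ := Real.sqrt (1 / 2) with hr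
  have hr0 : 0 < r := Real.sqrt_pos.mpr (by norm_num)
  have hr2 : r ^ 2 = 1 / 2 := Real.sq_sqrt (by norm_num)
  have hr1 : ‖r‖ < 1 := by
    rw [Real.norm_of_nonneg hr0.le]
    nlinarith
  have hs2 : Summable fun n : ℕ => (n : ℝ) ^ 2 * r ^ n := summable_pow_mul_geometric_of_norm_lt_one 2 hr1
  have hs1 : Summable fun n : ℕ => (n : ℝ) ^ 1 * r ^ n := summable_pow_mul_geometric_of_norm_lt_one 1 hr1
  have hs : Summable fun n : ℕ => (n : ℝ) * (n + 1) * r ^ n := by
    refine (hs2.add hs1).congr fun n => ?_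
    ring
  have hnn : ∀ n : ℕ, 0 ≤ (n : ℝ) * (n + 1) * r ^ n := fun n => by positivity
  refine ⟨2 * (∑' n : ℕ, (n : ℝ) * (n + 1) * r ^ n) + 1, ?_, ?_⟩
  · have : 0 ≤ ∑' n : ℕ, (n : ℝ) * (n + 1) * r ^ n := tsum_nonneg hnn
    linarith
  · intro y x hx hx2
    have hxr : x ≤ r := by
      rw [hr]
      exact Real.le_sqrt_of_sq_le hx2
    have h1 : ∑ k ∈ Finset.Icc 2 y, (k : ℝ) * (k + 1) * x ^ k ≤
        ∑ k ∈ Finset.Icc 2 y, (2 * x ^ 2) * ((k : ℝ) * (k + 1) * r ^ k) := by
      refine Finset.sum_le_sum fun k hk => ?_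
      obtain ⟨j, rfl⟩ := Nat.exists_eq_add_of_le (Finset.mem_Icc.mp hk).1
      have h2 : x ^ j ≤ r ^ j := pow_le_pow_left₀ hx hxr j
      have h3 : x ^ (2 + j) = x ^ 2 * x ^ j := by ring
      have h4 : r ^ (2 + j) = 1 / 2 * r ^ j := by rw [pow_add, hr2]
      rw [h3, h4]
      have h5 : (2 * x ^ 2) * (((2 + j : ℕ) : ℝ) * (((2 + j : ℕ) : ℝ) + 1) * (1 / 2 * r ^ j)) =
          ((2 + j : ℕ) : ℝ) * (((2 + j : ℕ) : ℝ) + 1) * (x ^ 2 * r ^ j) := by ring
      rw [h5]
      gcongr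
    refine h1.trans ?_
    rw [← Finset.mul_sum]
    have h6 : ∑ k ∈ Finset.Icc 2 y, (k : ℝ) * (k + 1) * r ^ k ≤ ∑' n : ℕ, (n : ℝ) * (n + 1) * r ^ n :=
      hs.sum_le_tsum _ fun n _ => hnn n
    have hx2' : 0 ≤ x ^ 2 := by positivity
    nlinarith [mul_le_mul_of_nonneg_left h6 hx2']

/-- `∑ log p / p ^ 2` is bounded -/
private theorem S4_sq : ∃ C : ℝ, 0 < C ∧ ∀ y : ℕ,
    ∑ p ∈ (Finset.range (y + 1)).filter Nat.Prime, Real.log p / (p : ℝ) ^ 2 ≤ C := by
  have hs : Summable fun n : ℕ => 1 / (n : ℝ) ^ ((3 : ℝ) / 2) :=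
    Real.summable_one_div_nat_rpow.mpr (by norm_num)
  have hnn : ∀ n : ℕ, 0 ≤ 1 / (n : ℝ) ^ ((3 : ℝ) / 2) := fun n => by positivity
  refine ⟨2 * (∑' n : ℕ, 1 / (n : ℝ) ^ ((3 : ℝ) / 2)) + 1, ?_, ?_⟩
  · have : 0 ≤ ∑' n : ℕ, 1 / (n : ℝ) ^ ((3 : ℝ) / 2) := tsum_nonneg hnn
    linarith
  · intro y
    have h1 : ∑ p ∈ (Finset.range (y + 1)).filter Nat.Prime, Real.log p / (p : ℝ) ^ 2 ≤
        ∑ p ∈ (Finset.range (y + 1)).filter Nat.Prime, 2 * (1 / (p : ℝ) ^ ((3 : ℝ) / 2)) := by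
      refine Finset.sum_le_sum fun p hp => ?_
      have hp0 : (0 : ℝ) < p := by exact_mod_cast (Finset.mem_filter.mp hp).2.pos
      have h2 := S4_log_le_sqrt p hp0.le
      have h3 : (p : ℝ) ^ 2 = (p : ℝ) ^ ((3 : ℝ) / 2) * Real.sqrt p := by
        rw [Real.sqrt_eq_rpow, ← Real.rpow_add hp0, ← Real.rpow_natCast]
        norm_num
      have h4 : 0 < (p : ℝ) ^ ((3 : ℝ) / 2) := by positivity
      have h5 : 0 < Real.sqrt p := Real.sqrt_pos.mpr hp0
      rw [h3, div_le_iff₀ (by positivity)]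
      have h6 : 2 * (1 / (p : ℝ) ^ ((3 : ℝ) / 2)) * ((p : ℝ) ^ ((3 : ℝ) / 2) * Real.sqrt p) =
          2 * Real.sqrt p := by field_simp
      rw [h6]
      exact h2
    refine h1.trans ?_
    rw [← Finset.mul_sum]
    have h6 : ∑ k ∈ (Finset.range (y + 1)).filter Nat.Prime, 1 / (k : ℝ) ^ ((3 : ℝ) / 2) ≤
        ∑' n : ℕ, 1 / (n : ℝ) ^ ((3 : ℝ) / 2) :=
      hs.sum_le_tsum _ fun n _ => hnn n
    linarith

private theorem S4_one {N : ℕ} {c : ℕ → ℝ} (hc : RC N c) : c 1 = 1 := by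
  have h2 := hc.mul 1 1
  rw [one_mul] at h2
  rcases hc.val 1 (Nat.coprime_one_left N) with h | h
  · exact h
  · rw [h] at h2
    norm_num at h2

private theorem S4_pow {N : ℕ} {c : ℕ → ℝ} (hc : RC N c) (p k : ℕ) : c (p ^ k) = (c p) ^ k := by
  induction k with
  | zero => rw [pow_zero, pow_zero, S4_one hc]
  | succ k ih => rw [pow_succ, pow_succ, hc.mul, ih]

private theorem S4_abs {N : ℕ} {c : ℕ → ℝ} (hc : RC N c) (n : ℕ) : |c n| ≤ 1 := by
  by_cases h : n.Coprime N
  · rcases hc.val n h with h1 | h1 <;> rw [h1] <;> norm_num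
  · rw [hc.zero n h, abs_zero]
    exact zero_le_one

/-- `c` as an arithmetic function. -/
private noncomputable def S4_g (c : ℕ → ℝ) : ArithmeticFunction ℝ :=
  ⟨fun n => if n = 0 then 0 else c n, if_pos rfl⟩

private theorem S4_rr (c : ℕ → ℝ) (n : ℕ) :
    (S4_g c * (ArithmeticFunction.zeta : ArithmeticFunction ℝ)) n = rr c n := by
  rw [ArithmeticFunction.coe_mul_zeta_apply]
  unfold rr
  refine Finset.sum_congr rfl fun d hd => ?_
  change (if d = 0 then (0 : ℝ) else c d) = c d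
  rw [if_neg (Nat.pos_of_mem_divisors hd).ne']

private theorem S4_rrmul {N : ℕ} {c : ℕ → ℝ} (hc : RC N c) {m n : ℕ} (h : m.Coprime n) :
    rr c (m * n) = rr c m * rr c n := by
  have hg : (S4_g c).IsMultiplicative := by
    rw [ArithmeticFunction.IsMultiplicative.iff_ne_zero]
    constructor
    · change (if (1 : ℕ) = 0 then (0 : ℝ) else c 1) = 1
      rw [if_neg one_ne_zero, S4_one hc]
    · intro m n hm hn _
      change (if m * n = 0 then (0 : ℝ) else c (m * n)) =
        (if m = 0 then (0 : ℝ) else c m) * (if n = 0 then (0 : ℝ) else c n)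
      rw [if_neg (mul_ne_zero hm hn), if_neg hm, if_neg hn, hc.mul]
  have hz : ((ArithmeticFunction.zeta : ArithmeticFunction ℝ)).IsMultiplicative :=
    ArithmeticFunction.isMultiplicative_zeta.natCast
  have := (hg.mul hz).map_mul_of_coprime h
  rwa [S4_rr, S4_rr, S4_rr] at this

private theorem S4_mul {N : ℕ} {c : ℕ → ℝ} (hc : RC N c) {m n : ℕ} (h : m.Coprime n) :
    rs N c (m * n) = rs N c m * rs N c n := by
  unfold rs
  by_cases h1 : m.Coprime N
  · by_cases h2 : n.Coprime N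
    · rw [if_pos (Nat.coprime_mul_iff_left.mpr ⟨h1, h2⟩), if_pos h1, if_pos h2, S4_rrmul hc h]
    · rw [if_neg (fun h3 => h2 (Nat.coprime_mul_iff_left.mp h3).2), if_neg h2, mul_zero]
  · rw [if_neg (fun h3 => h1 (Nat.coprime_mul_iff_left.mp h3).1), if_neg h1, zero_mul]

private theorem S4_prime_pow {N : ℕ} {c : ℕ → ℝ} (hc : RC N c) {p : ℕ} (hp : p.Prime) (k : ℕ) :
    rr c (p ^ k) = ∑ j ∈ Finset.range (k + 1), (c p) ^ j := by
  unfold rr
  rw [Nat.sum_divisors_prime_pow hp]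
  exact Finset.sum_congr rfl fun j _ => S4_pow hc p j

private theorem S4_pp_le {N : ℕ} {c : ℕ → ℝ} (hc : RC N c) {p : ℕ} (hp : p.Prime) (k : ℕ) :
    rs N c (p ^ k) ≤ k + 1 := by
  unfold rs
  split_ifs with h
  · rw [S4_prime_pow hc hp]
    calc ∑ j ∈ Finset.range (k + 1), (c p) ^ j ≤ ∑ _j ∈ Finset.range (k + 1), (1 : ℝ) := by
          refine Finset.sum_le_sum fun j _ => ?_
          calc (c p) ^ j ≤ |(c p) ^ j| := le_abs_self _
            _ = |c p| ^ j := abs_pow _ _
            _ ≤ 1 := pow_le_one₀ (abs_nonneg _) (S4_abs hc p)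
      _ = k + 1 := by rw [Finset.sum_const, Finset.card_range, nsmul_eq_mul, mul_one]; push_cast; rfl
  · positivity

private theorem S4_p {N : ℕ} {c : ℕ → ℝ} (hc : RC N c) {p : ℕ} (hp : p.Prime) (h1 : c p ≠ 1) :
    rs N c p = 0 := by
  unfold rs
  split_ifs with h
  · have h2 := S4_prime_pow hc hp 1
    rw [pow_one] at h2
    rw [h2]
    have h3 : c p = -1 := (hc.val p h).resolve_left h1
    norm_num [Finset.sum_range_succ, h3]
  · rfl

private theorem S4_SS {N : ℕ} {c : ℕ → ℝ} (hc : RC N c) (y : ℕ) : 0 ≤ SSs N c y :=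
  Finset.sum_nonneg fun n _ => rs_nonneg hc n

/-- The numbers exactly divisible by `p ^ k`. -/
private theorem S4_slice {N : ℕ} {c : ℕ → ℝ} (hc : RC N c) {p : ℕ} (hp : p.Prime) (y k : ℕ) :
    ∑ n ∈ (Finset.Icc 1 y).filter (fun n => n.factorization p = k), rs N c n ≤
      rs N c (p ^ k) * SSs N c (y / p ^ k) := by
  have hpk : 0 < p ^ k := pow_pos hp.pos k
  have hmain : ∀ n ∈ (Finset.Icc 1 y).filter (fun n => n.factorization p = k),
      rs N c n = rs N c (p ^ k) * rs N c (n / p ^ k) := by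
    intro n hn
    obtain ⟨hn1, hn2⟩ := Finset.mem_filter.mp hn
    have hn0 : n ≠ 0 := by
      have := (Finset.mem_Icc.mp hn1).1
      omega
    have h1 : p ^ k * (n / p ^ k) = n := by
      rw [← hn2]
      exact Nat.ordProj_mul_ordCompl_eq_self n p
    have h2 : (p ^ k).Coprime (n / p ^ k) := by
      have := Nat.coprime_ordCompl hp hn0
      rw [hn2] at this
      exact Nat.Coprime.pow_left k this
    calc rs N c n = rs N c (p ^ k * (n / p ^ k)) := by rw [h1]
      _ = _ := S4_mul hc h2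
  rw [Finset.sum_congr rfl hmain, ← Finset.mul_sum]
  refine mul_le_mul_of_nonneg_left ?_ (rs_nonneg hc _)
  unfold SSs
  rw [← Finset.sum_image (f := fun m => rs N c m) (g := fun n => n / p ^ k)
    (s := (Finset.Icc 1 y).filter (fun n => n.factorization p = k))]
  · refine Finset.sum_le_sum_of_subset_of_nonneg ?_ fun m _ _ => rs_nonneg hc m
    intro m hm
    obtain ⟨n, hn, rfl⟩ := Finset.mem_image.mp hm
    obtain ⟨hn1, hn2⟩ := Finset.mem_filter.mp hn
    obtain ⟨ha, hb⟩ := Finset.mem_Icc.mp hn1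
    have h3 : p ^ k ∣ n := by
      rw [← hn2]
      exact Nat.ordProj_dvd n p
    rw [Finset.mem_Icc]
    exact ⟨Nat.div_pos (Nat.le_of_dvd ha h3) hpk, Nat.div_le_div_right hb⟩
  · intro n hn m hm h
    have hn2 : p ^ k ∣ n := by
      rw [← (Finset.mem_filter.mp hn).2]
      exact Nat.ordProj_dvd n p
    have hm2 : p ^ k ∣ m := by
      rw [← (Finset.mem_filter.mp hm).2]
      exact Nat.ordProj_dvd m p
    have h' : n / p ^ k = m / p ^ k := h
    rw [← Nat.div_mul_cancel hn2, ← Nat.div_mul_cancel hm2, h']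

/-- The sum over `n` for one prime. -/
private theorem S4_T {N : ℕ} {c : ℕ → ℝ} (hc : RC N c) {p : ℕ} (hp : p.Prime) (y : ℕ) :
    ∑ n ∈ Finset.Icc 1 y, (n.factorization p : ℝ) * rs N c n ≤
      rs N c p * SSs N c (y / p) + ∑ k ∈ Finset.Icc 2 y, (k : ℝ) * (k + 1) * SSs N c (y / p ^ k) := by
  have h1 : ∑ n ∈ Finset.Icc 1 y, (n.factorization p : ℝ) * rs N c n =
      ∑ k ∈ Finset.range (y + 1), ∑ n ∈ (Finset.Icc 1 y).filter (fun n => n.factorization p = k),
        (k : ℝ) * rs N c n := by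
    rw [← Finset.sum_fiberwise_of_maps_to (s := Finset.Icc 1 y) (t := Finset.range (y + 1))
      (g := fun n => n.factorization p)]
    · refine Finset.sum_congr rfl fun k _ => Finset.sum_congr rfl fun n hn => ?_
      rw [(Finset.mem_filter.mp hn).2]
    · intro n hn
      obtain ⟨ha, hb⟩ := Finset.mem_Icc.mp hn
      rw [Finset.mem_range]
      have := Nat.factorization_lt p (n := n) (by omega)
      omega
  have h2 : ∀ k ∈ Finset.range (y + 1),
      ∑ n ∈ (Finset.Icc 1 y).filter (fun n => n.factorization p = k), (k : ℝ) * rs N c n ≤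
        (k : ℝ) * (rs N c (p ^ k) * SSs N c (y / p ^ k)) := by
    intro k _
    rw [← Finset.mul_sum]
    exact mul_le_mul_of_nonneg_left (S4_slice hc hp y k) (Nat.cast_nonneg k)
  rw [h1]
  refine (Finset.sum_le_sum h2).trans ?_
  rcases Nat.eq_zero_or_pos y with hy | hy
  · subst hy
    rw [zero_add, Finset.sum_range_one, Nat.cast_zero, zero_mul]
    have := mul_nonneg (rs_nonneg hc p) (S4_SS hc (0 / p))
    have h4 : (Finset.Icc 2 0 : Finset ℕ) = ∅ := by decide
    rw [h4, Finset.sum_empty, add_zero]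
    exact this
  · have h3 : Finset.range (y + 1) = insert 0 (insert 1 (Finset.Icc 2 y)) := by
      ext k
      simp only [Finset.mem_range, Finset.mem_insert, Finset.mem_Icc]
      omega
    rw [h3, Finset.sum_insert (by simp), Finset.sum_insert (by simp), Nat.cast_zero, zero_mul,
      zero_add, Nat.cast_one, one_mul, pow_one]
    refine add_le_add le_rfl (Finset.sum_le_sum fun k _ => ?_)
    rw [mul_assoc]
    refine mul_le_mul_of_nonneg_left ?_ (Nat.cast_nonneg k)
    exact mul_le_mul_of_nonneg_right (S4_pp_le hc hp k) (S4_SS hc _)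

open Classical in
private theorem S4_cheb (N : ℕ) (c : ℕ → ℝ) (hc : RC N c) (y : ℕ) :
    ∑ n ∈ Finset.Icc 1 y, rs N c n * Real.log n ≤
      2 * (∑ p ∈ QP c y, Real.log p * SSs N c (y / p)) +
      ∑ p ∈ (Finset.range (y + 1)).filter Nat.Prime, ∑ k ∈ Finset.Icc 2 y,
        (k : ℝ) * (k + 1) * Real.log p * SSs N c (y / p ^ k) := by
  classical
  set Q := (Finset.range (y + 1)).filter Nat.Prime with hQ
  -- the logarithm as a sum over the primes
  have hlog : ∀ n ∈ Finset.Icc 1 y, Real.log n =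
      ∑ p ∈ Q, (n.factorization p : ℝ) * Real.log p := by
    intro n hn
    obtain ⟨ha, hb⟩ := Finset.mem_Icc.mp hn
    have hn0 : n ≠ 0 := by omega
    have h1 : (n : ℝ) = ∏ p ∈ n.primeFactors, (p : ℝ) ^ n.factorization p := by
      have := Nat.prod_factorization_pow_eq_self hn0
      rw [Finsupp.prod, Nat.support_factorization] at this
      calc (n : ℝ) = ((∏ p ∈ n.primeFactors, p ^ n.factorization p : ℕ) : ℝ) := by rw [this]
        _ = _ := by push_cast; rfl
    have h2 : Real.log n = ∑ p ∈ n.primeFactors, (n.factorization p : ℝ) * Real.log p := by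
      rw [h1, Real.log_prod]
      · exact Finset.sum_congr rfl fun p _ => Real.log_pow _ _
      · intro p hp
        have := (Nat.prime_of_mem_primeFactors hp).pos
        positivity
    rw [h2]
    refine Finset.sum_subset ?_ ?_
    · intro p hp
      rw [hQ, Finset.mem_filter, Finset.mem_range]
      have := Nat.le_of_mem_primeFactors hp
      exact ⟨by omega, Nat.prime_of_mem_primeFactors hp⟩
    · intro p _ hp2
      rw [Finsupp.notMem_support_iff.mp (by rwa [Nat.support_factorization]), Nat.cast_zero,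
        zero_mul]
  have hlogp : ∀ p ∈ Q, 0 ≤ Real.log (p : ℝ) := fun p hp =>
    Real.log_natCast_nonneg p
  have h1 : ∑ n ∈ Finset.Icc 1 y, rs N c n * Real.log n =
      ∑ p ∈ Q, Real.log p * ∑ n ∈ Finset.Icc 1 y, (n.factorization p : ℝ) * rs N c n := by
    have : ∀ n ∈ Finset.Icc 1 y, rs N c n * Real.log n =
        ∑ p ∈ Q, Real.log p * ((n.factorization p : ℝ) * rs N c n) := by
      intro n hn
      rw [hlog n hn, Finset.mul_sum]
      exact Finset.sum_congr rfl fun p _ => by ring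
    rw [Finset.sum_congr rfl this, Finset.sum_comm]
    exact Finset.sum_congr rfl fun p _ => by rw [Finset.mul_sum]
  have h2 : ∑ n ∈ Finset.Icc 1 y, rs N c n * Real.log n ≤
      ∑ p ∈ Q, Real.log p * (rs N c p * SSs N c (y / p)) +
      ∑ p ∈ Q, ∑ k ∈ Finset.Icc 2 y, (k : ℝ) * (k + 1) * Real.log p * SSs N c (y / p ^ k) := by
    rw [h1, ← Finset.sum_add_distrib]
    refine Finset.sum_le_sum fun p hp => ?_
    have hpp : p.Prime := (Finset.mem_filter.mp hp).2
    refine (mul_le_mul_of_nonneg_left (S4_T hc hpp y) (hlogp p hp)).trans (le_of_eq ?_)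
    rw [mul_add, Finset.mul_sum]
    congr 1
    exact Finset.sum_congr rfl fun k _ => by ring
  refine h2.trans (add_le_add ?_ le_rfl)
  -- the first powers
  have h3 : ∀ p ∈ Q, Real.log p * (rs N c p * SSs N c (y / p)) ≤
      (if c p = 1 then 2 * (Real.log p * SSs N c (y / p)) else 0) := by
    intro p hp
    have hpp : p.Prime := (Finset.mem_filter.mp hp).2
    by_cases h : c p = 1
    · rw [if_pos h, rs_prime hc hpp h]
      exact le_of_eq (by ring)
    · rw [if_neg h, S4_p hc hpp h, zero_mul, mul_zero]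
  refine (Finset.sum_le_sum h3).trans ?_
  rw [← Finset.sum_filter, ← Finset.mul_sum]
  refine mul_le_mul_of_nonneg_left ?_ (by norm_num)
  refine Finset.sum_le_sum_of_subset_of_nonneg ?_ fun p _ _ =>
    mul_nonneg (Real.log_natCast_nonneg p) (S4_SS hc _)
  intro p hp
  obtain ⟨ha, hb⟩ := Finset.mem_filter.mp hp
  obtain ⟨h6, h7⟩ := Finset.mem_filter.mp ha
  unfold QP
  rw [Finset.mem_filter]
  exact ⟨h6, h7, hb⟩

/-- the upper bound in terms of the density `D` -/
private theorem S4_upper : ∃ C3 C5 : ℝ, 0 < C3 ∧ 0 < C5 ∧ ∀ (N : ℕ) (c : ℕ → ℝ) (D E : ℝ),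
    RC N c → 0 ≤ D → 0 ≤ E → (∀ w : ℕ, SSs N c w ≤ w * D + Real.sqrt w * E) →
    ∀ y : ℕ, 1 ≤ y →
    ∑ n ∈ Finset.Icc 1 y, rs N c n * Real.log n ≤
      2 * (∑ p ∈ QP c y, Real.log p * SSs N c (y / p)) +
      (D * y * (C3 * C5) + E * Real.sqrt y * (C3 * (Real.log y + Real.log 4))) := by
  obtain ⟨C3, hC3, hgeo⟩ := S4_geo
  obtain ⟨C5, hC5, hsq⟩ := S4_sq
  refine ⟨C3, C5, hC3, hC5, ?_⟩
  intro N c D E hc hD hE hSS y hy
  refine (S4_cheb N c hc y).trans (add_le_add le_rfl ?_)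
  have hy0 : (0 : ℝ) ≤ y := Nat.cast_nonneg y
  -- the general bound
  have hgen : ∀ m : ℕ, 1 ≤ m → SSs N c (y / m) ≤ D * y * (1 / m) + E * Real.sqrt y * (1 / Real.sqrt m) := by
    intro m hm
    have hm0 : (0 : ℝ) < m := by exact_mod_cast hm
    have h1 : ((y / m : ℕ) : ℝ) ≤ y / m := Nat.cast_div_le
    have h2 : Real.sqrt ((y / m : ℕ) : ℝ) ≤ Real.sqrt y / Real.sqrt m := by
      rw [← Real.sqrt_div hy0]
      exact Real.sqrt_le_sqrt h1
    calc SSs N c (y / m) ≤ ((y / m : ℕ) : ℝ) * D + Real.sqrt ((y / m : ℕ) : ℝ) * E := hSS _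
      _ ≤ (y / m) * D + (Real.sqrt y / Real.sqrt m) * E := by gcongr
      _ = _ := by ring
  calc ∑ p ∈ (Finset.range (y + 1)).filter Nat.Prime, ∑ k ∈ Finset.Icc 2 y,
      (k : ℝ) * (k + 1) * Real.log p * SSs N c (y / p ^ k)
      ≤ ∑ p ∈ (Finset.range (y + 1)).filter Nat.Prime,
        (D * y * C3 * (Real.log p / (p : ℝ) ^ 2) + E * Real.sqrt y * C3 * (Real.log p / p)) := by
        refine Finset.sum_le_sum fun p hp => ?_
        have hp1 := (Finset.mem_filter.mp hp).2.two_le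
        have hp2 : (2 : ℝ) ≤ p := by exact_mod_cast hp1
        have hp0 : (0 : ℝ) < p := by linarith
        have hlog := Real.log_nonneg (by linarith : (1 : ℝ) ≤ p)
        have hsp : Real.sqrt p ^ 2 = p := Real.sq_sqrt hp0.le
        have hsp0 : 0 < Real.sqrt p := Real.sqrt_pos.mpr hp0
        have g1 := hgeo y (1 / (p : ℝ)) (by positivity) (by
          rw [div_pow, one_pow, div_le_div_iff₀ (by positivity) (by norm_num)]
          nlinarith)
        have g2 := hgeo y (1 / Real.sqrt p) (by positivity) (by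
          rw [div_pow, one_pow, hsp, div_le_div_iff₀ (by positivity) (by norm_num)]
          linarith)
        rw [div_pow, one_pow, hsp] at g2
        rw [div_pow, one_pow] at g1
        calc ∑ k ∈ Finset.Icc 2 y, (k : ℝ) * (k + 1) * Real.log p * SSs N c (y / p ^ k)
            ≤ ∑ k ∈ Finset.Icc 2 y, (D * y * Real.log p * ((k : ℝ) * (k + 1) * (1 / (p : ℝ)) ^ k) +
              E * Real.sqrt y * Real.log p * ((k : ℝ) * (k + 1) * (1 / Real.sqrt p) ^ k)) := by
              refine Finset.sum_le_sum fun k _ => ?_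
              have hpk : 1 ≤ p ^ k := Nat.one_le_pow _ _ (by omega)
              have h0 : 0 ≤ (k : ℝ) * (k + 1) * Real.log p := by positivity
              have h := mul_le_mul_of_nonneg_left (hgen (p ^ k) hpk) h0
              refine h.trans (le_of_eq ?_)
              have h1 : Real.sqrt (((p ^ k : ℕ) : ℝ)) = Real.sqrt p ^ k := by
                push_cast
                rw [Real.sqrt_eq_iff_mul_self_eq (by positivity) (by positivity), ← mul_pow,
                  Real.mul_self_sqrt hp0.le]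
              rw [h1]
              push_cast
              rw [one_div_pow, one_div_pow]
              ring
          _ = D * y * Real.log p * (∑ k ∈ Finset.Icc 2 y, (k : ℝ) * (k + 1) * (1 / (p : ℝ)) ^ k) +
              E * Real.sqrt y * Real.log p *
                ∑ k ∈ Finset.Icc 2 y, (k : ℝ) * (k + 1) * (1 / Real.sqrt p) ^ k := by
              rw [Finset.sum_add_distrib, Finset.mul_sum, Finset.mul_sum]
          _ ≤ D * y * Real.log p * (C3 * (1 / (p : ℝ) ^ 2)) +
              E * Real.sqrt y * Real.log p * (C3 * (1 / p)) := by gcongr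
          _ = _ := by ring
    _ = D * y * C3 * (∑ p ∈ (Finset.range (y + 1)).filter Nat.Prime, Real.log p / (p : ℝ) ^ 2) +
        E * Real.sqrt y * C3 *
          ∑ p ∈ (Finset.range (y + 1)).filter Nat.Prime, Real.log p / p := by
        rw [Finset.sum_add_distrib, Finset.mul_sum, Finset.mul_sum]
    _ ≤ D * y * C3 * C5 + E * Real.sqrt y * C3 * (Real.log y + Real.log 4) := by
        have h1 := hsq y
        have h2 := S4_mert y hy
        gcongr
    _ = _ := by ring

/-- the lower bound -/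
private theorem S4_lower (N : ℕ) (c : ℕ → ℝ) (D E : ℝ) (hc : RC N c) (hD : 0 ≤ D)
    (hE : 0 ≤ E) (hSS : ∀ w : ℕ, |SSs N c w - w * D| ≤ Real.sqrt w * E) (y : ℕ) (hy : 1 ≤ y) :
    1 / 2 * Real.log y * (y * D - 2 * (Real.sqrt y * E) - Real.sqrt y * D) ≤
      ∑ n ∈ Finset.Icc 1 y, rs N c n * Real.log n := by
  have hy1 : (1 : ℝ) ≤ y := by exact_mod_cast hy
  have hlog : 0 ≤ Real.log y := Real.log_nonneg hy1
  set s : ℕ := Nat.sqrt y with hs
  have hsy : s ≤ y := Nat.sqrt_le_self y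
  have hsr : (s : ℝ) ≤ Real.sqrt y := by
    refine Real.le_sqrt_of_sq_le ?_
    exact_mod_cast Nat.sqrt_le' y
  have hsplit : SSs N c y - SSs N c s = ∑ n ∈ Finset.Ioc s y, rs N c n := by
    unfold SSs
    have h : Finset.Icc 1 y = Finset.Icc 1 s ∪ Finset.Ioc s y := by
      ext n
      simp only [Finset.mem_union, Finset.mem_Icc, Finset.mem_Ioc]
      omega
    rw [h, Finset.sum_union]
    · ring
    · rw [Finset.disjoint_left]
      intro n h1 h2
      rw [Finset.mem_Icc] at h1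
      rw [Finset.mem_Ioc] at h2
      omega
  have h1 : 1 / 2 * Real.log y * (SSs N c y - SSs N c s) ≤ ∑ n ∈ Finset.Icc 1 y, rs N c n * Real.log n := by
    rw [hsplit, Finset.mul_sum]
    calc ∑ n ∈ Finset.Ioc s y, 1 / 2 * Real.log y * rs N c n
        ≤ ∑ n ∈ Finset.Ioc s y, rs N c n * Real.log n := by
          refine Finset.sum_le_sum fun n hn => ?_
          have hn1 := (Finset.mem_Ioc.mp hn).1
          have hr := rs_nonneg hc n
          have hn2 : y < n ^ 2 := by
            have := Nat.sqrt_lt'.mp hn1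
            exact this
          have hn3 : Real.log y ≤ 2 * Real.log n := by
            have h4 : Real.log y ≤ Real.log ((n : ℝ) ^ 2) :=
              Real.log_le_log (by linarith) (by exact_mod_cast hn2.le)
            rw [Real.log_pow] at h4
            exact_mod_cast h4
          nlinarith
      _ ≤ ∑ n ∈ Finset.Icc 1 y, rs N c n * Real.log n := by
          refine Finset.sum_le_sum_of_subset_of_nonneg ?_ fun n hn _ => ?_
          · intro n hn
            rw [Finset.mem_Ioc] at hn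
            rw [Finset.mem_Icc]
            omega
          · have := (Finset.mem_Icc.mp hn).1
            exact mul_nonneg (rs_nonneg hc n) (Real.log_nonneg (by exact_mod_cast this))
  refine le_trans ?_ h1
  have h2 := (abs_le.mp (hSS y)).1
  have h3 := (abs_le.mp (hSS s)).2
  have h4 : Real.sqrt s ≤ Real.sqrt y := Real.sqrt_le_sqrt (by exact_mod_cast hsy)
  have h5 : Real.sqrt s * E ≤ Real.sqrt y * E := by gcongr
  have h6 : (s : ℝ) * D ≤ Real.sqrt y * D := by gcongr
  refine mul_le_mul_of_nonneg_left ?_ (by positivity)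
  linarith

theorem cheb_star : ∃ N0 : ℕ, ∀ N : ℕ, N0 ≤ N → ∀ (c : ℕ → ℝ) (L : ℝ), RC N c → LV N c L →
    (N : ℝ) ^ (-(1 / 50) : ℝ) ≤ L → ∀ y : ℕ, (N : ℝ) ^ ((17 : ℝ) / 20) ≤ y → (y : ℝ) ≤ (N : ℝ) ^ ((9 : ℝ) / 10) →
    (1 / 5) * Real.log N * (del N * L * y) ≤ 2 * ∑ q ∈ QP c y, Real.log q * SSs N c (y / q) := by
  obtain ⟨N1, hasy⟩ := SSs_asymp
  obtain ⟨N2, hdel⟩ := del_low
  obtain ⟨C3, C5, hC3, hC5, hup⟩ := S4_upper
  have hcast : Filter.Tendsto (fun N : ℕ => (N : ℝ)) Filter.atTop Filter.atTop := tendsto_natCast_atTop_atTop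
  have e1 : ∀ᶠ N : ℕ in Filter.atTop, (10000 : ℝ) ≤ (N : ℝ) ^ ((17 : ℝ) / 20) :=
    ((tendsto_rpow_atTop (by norm_num)).comp hcast).eventually_ge_atTop _
  have e2 : ∀ᶠ N : ℕ in Filter.atTop, (3600 : ℝ) ≤ (N : ℝ) ^ ((205 : ℝ) / 3000) :=
    ((tendsto_rpow_atTop (by norm_num)).comp hcast).eventually_ge_atTop _
  have e4 : ∀ᶠ N : ℕ in Filter.atTop, 10 + 5 * (C3 * C5) + 10 * C3 ≤ Real.log N :=
    (Real.tendsto_log_atTop.comp hcast).eventually_ge_atTop _
  have e5 : ∀ᶠ N : ℕ in Filter.atTop, 2 + N1 + N2 ≤ N := Filter.eventually_ge_atTop _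
  obtain ⟨N0, hN0⟩ := Filter.eventually_atTop.mp (e1.and (e2.and (e4.and e5)))
  refine ⟨N0, ?_⟩
  intro N hN c L hRC hLc hLκ y hy1 hy2
  obtain ⟨f1, f2, f4, f5⟩ := hN0 N hN
  have hN1 : (1 : ℝ) ≤ N := by exact_mod_cast (by omega : 1 ≤ N)
  have hNpos : (0 : ℝ) < N := by linarith
  have hL0 : 0 < L := lt_of_lt_of_le (by positivity) hLκ
  have hK10 : 10 ≤ Real.log N := by
    have : 0 < C3 * C5 := by positivity
    linarith
  have hKd := hdel N (by omega)
  have hd0 : 0 < del N := by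
    by_contra hcon
    push Not at hcon
    nlinarith
  set D : ℝ := del N * L with hD
  have hD0 : 0 < D := by positivity
  set E : ℝ := (N : ℝ) ^ ((3 : ℝ) / 10) with hE
  have hE0 : 0 < E := by positivity
  have hSS : ∀ w : ℕ, |SSs N c w - w * D| ≤ Real.sqrt w * E := by
    intro w
    rcases Nat.eq_zero_or_pos w with h | h
    · subst h
      unfold SSs
      simp
    · have := hasy N (by omega) c L hRC hLc w h
      rw [mul_comm (w : ℝ) D]
      exact this
  have hy4 : (10000 : ℝ) ≤ y := f1.trans hy1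
  have hyp : 1 ≤ y := by
    have : (1 : ℝ) ≤ y := by linarith
    exact_mod_cast this
  have hU := hup N c D E hRC hD0.le hE0.le (fun w => by linarith [(abs_le.mp (hSS w)).2]) y hyp
  have hLo := S4_lower N c D E hRC hD0.le hE0.le hSS y hyp
  have hmain := hLo.trans hU
  -- logs
  have hlogy2 : 17 / 20 * Real.log N ≤ Real.log y := by
    have h := Real.log_le_log (by positivity) hy1
    rwa [Real.log_rpow hNpos] at h
  have hlogy1 : Real.log y ≤ Real.log N := by
    have h := Real.log_le_log (by linarith) hy2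
    rw [Real.log_rpow hNpos] at h
    linarith
  have hlog4 : Real.log 4 ≤ 2 := by
    have : Real.log 4 ≤ 4 / 2 := by
      have h1 : Real.log 4 = 2 * Real.log 2 := by
        rw [show (4 : ℝ) = 2 ^ 2 by norm_num, Real.log_pow]
        norm_num
      rw [h1]
      have := Real.log_two_lt_d9
      linarith
    linarith
  have hlog4' : 0 < Real.log 4 := Real.log_pos (by norm_num)
  -- s = √y
  set s : ℝ := Real.sqrt y with hs
  have hs2 : s ^ 2 = y := Real.sq_sqrt (by linarith)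
  have hs0 : 0 < s := Real.sqrt_pos.mpr (by linarith)
  have hs100 : 100 ≤ s := by
    refine Real.le_sqrt_of_sq_le ?_
    linarith
  have hsN : (N : ℝ) ^ ((17 : ℝ) / 40) ≤ s := by
    refine Real.le_sqrt_of_sq_le ?_
    have h1 : ((N : ℝ) ^ ((17 : ℝ) / 40)) ^ 2 = (N : ℝ) ^ ((17 : ℝ) / 20) := by
      rw [← Real.rpow_natCast, ← Real.rpow_mul hNpos.le]
      norm_num
    rw [h1]
    exact hy1
  -- `E K ≤ D s`
  have hK2 : Real.log N ^ 2 ≤ (N : ℝ) ^ ((105 : ℝ) / 1000) := by
    have h := Real.log_le_rpow_div hNpos.le (show (0 : ℝ) < 11 / 600 by norm_num)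
    have h1 : Real.log N ≤ 60 * (N : ℝ) ^ ((11 : ℝ) / 600) := by
      have h0 : 0 ≤ (N : ℝ) ^ ((11 : ℝ) / 600) := by positivity
      rw [div_div_eq_mul_div, le_div_iff₀ (by norm_num)] at h
      nlinarith
    calc Real.log N ^ 2 ≤ (60 * (N : ℝ) ^ ((11 : ℝ) / 600)) ^ 2 :=
          pow_le_pow_left₀ (by linarith) h1 2
      _ = 3600 * (N : ℝ) ^ ((22 : ℝ) / 600) := by
          rw [mul_pow, ← Real.rpow_natCast ((N : ℝ) ^ ((11 : ℝ) / 600)), ← Real.rpow_mul hNpos.le]
          norm_num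
      _ ≤ (N : ℝ) ^ ((205 : ℝ) / 3000) * (N : ℝ) ^ ((22 : ℝ) / 600) := by gcongr
      _ = (N : ℝ) ^ ((105 : ℝ) / 1000) := by
          rw [← Real.rpow_add hNpos]
          norm_num
  have hEK : E * Real.log N ≤ D * s := by
    have h1 : (N : ℝ) ^ (-(1 / 50) : ℝ) ≤ Real.log N * D := by
      calc (N : ℝ) ^ (-(1 / 50) : ℝ) ≤ L := hLκ
        _ = 1 * L := (one_mul L).symm
        _ ≤ (Real.log N * del N) * L := by gcongr
        _ = Real.log N * D := by rw [hD]; ring
    have h2 : E * Real.log N ^ 2 ≤ (Real.log N * D) * s := by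
      calc E * Real.log N ^ 2 ≤ E * (N : ℝ) ^ ((105 : ℝ) / 1000) := by gcongr
        _ = (N : ℝ) ^ (-(1 / 50) : ℝ) * (N : ℝ) ^ ((17 : ℝ) / 40) := by
            rw [hE, ← Real.rpow_add hNpos, ← Real.rpow_add hNpos]
            norm_num
        _ ≤ (Real.log N * D) * s := by gcongr
    have h3 : Real.log N * (E * Real.log N) ≤ Real.log N * (D * s) := by
      calc Real.log N * (E * Real.log N) = E * Real.log N ^ 2 := by ring
        _ ≤ (Real.log N * D) * s := h2
        _ = Real.log N * (D * s) := by ring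
    exact le_of_mul_le_mul_left h3 (by linarith)
  -- X = D y
  set X : ℝ := D * y with hX
  have hX0 : 0 < X := by positivity
  have hX2 : X = D * s * s := by rw [hX, ← hs2]; ring
  have hEs : s * E * Real.log N ≤ X := by
    calc s * E * Real.log N = s * (E * Real.log N) := by ring
      _ ≤ s * (D * s) := by gcongr
      _ = X := by rw [hX2]; ring
  have hEs1 : s * E ≤ X / 10 := by
    have h1 : s * E * 10 ≤ s * E * Real.log N := by gcongr
    linarith
  have hDs : s * D ≤ X / 100 := by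
    have h1 : D * s * 100 ≤ D * s * s := by gcongr
    rw [← hX2] at h1
    linarith
  have hlow : 1 / 2 * Real.log y * (X - 2 * (s * E) - s * D) ≤
      1 / 2 * Real.log y * (y * D - 2 * (s * E) - s * D) := by
    refine le_of_eq ?_
    rw [hX]
    ring
  have hlow2 : 17 / 40 * Real.log N * X - X - 17 / 4000 * Real.log N * X ≤
      1 / 2 * Real.log y * (X - 2 * (s * E) - s * D) := by
    have h1 : 0 ≤ X - 2 * (s * E) - s * D := by linarith
    have h2 : 17 / 40 * Real.log N * (X - 2 * (s * E) - s * D) ≤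
        1 / 2 * Real.log y * (X - 2 * (s * E) - s * D) :=
      mul_le_mul_of_nonneg_right (by linarith) h1
    have h3 : Real.log N * (s * D) ≤ Real.log N * (X / 100) := by gcongr
    linarith
  have hupp : D * y * (C3 * C5) + E * s * (C3 * (Real.log y + Real.log 4)) ≤
      X * (C3 * C5 + 2 * C3) := by
    have h1 : E * s * (Real.log y + Real.log 4) ≤ 2 * X := by
      have h2 : Real.log y + Real.log 4 ≤ 2 * Real.log N := by linarith
      calc E * s * (Real.log y + Real.log 4) ≤ E * s * (2 * Real.log N) := by gcongr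
        _ = 2 * (s * E * Real.log N) := by ring
        _ ≤ 2 * X := by linarith
    have h3 := mul_le_mul_of_nonneg_left h1 hC3.le
    calc D * y * (C3 * C5) + E * s * (C3 * (Real.log y + Real.log 4))
        = X * (C3 * C5) + C3 * (E * s * (Real.log y + Real.log 4)) := by rw [hX]; ring
      _ ≤ X * (C3 * C5) + C3 * (2 * X) := by linarith
      _ = X * (C3 * C5 + 2 * C3) := by ring
  have hfin : 1 / 5 * Real.log N * X + X * (C3 * C5 + 2 * C3) ≤
      17 / 40 * Real.log N * X - X - 17 / 4000 * Real.log N * X := by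
    have h1 : X * (1 / 5 * Real.log N + (C3 * C5 + 2 * C3)) ≤
        X * (17 / 40 * Real.log N - 1 - 17 / 4000 * Real.log N) := by
      refine mul_le_mul_of_nonneg_left ?_ hX0.le
      linarith
    linarith
  linarith

end Pool.Agent.Lib.OW
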