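import Pool.Agent.Lib.MP_7b7e48_nt.OW.S1

/-!
# Module S5 (60 minutes): the sum of `(1 * c)(n) / n` is bounded if there are few primes with `c = 1`

PROOF. `rs N c` is multiplicative and `≥ 0`, so `∑_{n ≤ y} rs N c n/n ≤ ∏_{p ≤ y, p ∤ N} ∑_{a=0}^{∞} rr c (p^a)/p^a` (finite version: `n ≤ y` divides `∏_{p ≤ y} p^y`; or Mathlib's Euler products over smooth numbers).
Factor for `c p = -1`: `≤ 1/(1 - 1/p²)`; for `c p = 1`: `∑ (a+1)/p^a = (1 - 1/p)^(-2) ≤ exp(2/p + 2/p²) ≤ exp(3/p)` (`-log(1-x) ≤ x + x²` for `x ≤ 1/2`). The product of the first kind is `≤ ∏ (1 - 1/p²)^(-1) ≤ 2`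
(elementary: `∏_{2 ≤ m ≤ y} (1 - 1/m²) = (y+1)/(2y) ≥ 1/2`).
-/

open Finset

namespace Pool.Agent.Lib.OW

open Pool.Agent.Lib.RG (RC LV rr SS PB)

private noncomputable def S5_f (N : ℕ) (c : ℕ → ℝ) (n : ℕ) : ℝ := rs N c n / n

private theorem S5_one {N : ℕ} {c : ℕ → ℝ} (hc : RC N c) : c 1 = 1 := by
  have h1 := hc.mul 1 1
  rw [mul_one] at h1
  rcases hc.val 1 (Nat.coprime_one_left N) with h | h
  · exact h
  · rw [h] at h1
    norm_num at h1

private theorem S5_pow {N : ℕ} {c : ℕ → ℝ} (hc : RC N c) (p k : ℕ) : c (p ^ k) = c p ^ k := by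
  induction k with
  | zero => rw [pow_zero, pow_zero, S5_one hc]
  | succ k ih => rw [pow_succ, pow_succ, hc.mul, ih]

private noncomputable def S5_a (c : ℕ → ℝ) : ArithmeticFunction ℝ :=
  ⟨fun n => if n = 0 then 0 else c n, if_pos rfl⟩

private theorem S5_a_mult {N : ℕ} {c : ℕ → ℝ} (hc : RC N c) : (S5_a c).IsMultiplicative := by
  rw [ArithmeticFunction.IsMultiplicative.iff_ne_zero]
  constructor
  · change (if (1 : ℕ) = 0 then (0 : ℝ) else c 1) = 1
    rw [if_neg one_ne_zero, S5_one hc]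
  · intro m n hm hn _
    change (if m * n = 0 then (0 : ℝ) else c (m * n)) =
      (if m = 0 then (0 : ℝ) else c m) * (if n = 0 then (0 : ℝ) else c n)
    rw [if_neg (mul_ne_zero hm hn), if_neg hm, if_neg hn, hc.mul]

private theorem S5_a_rr (c : ℕ → ℝ) (n : ℕ) :
    (S5_a c * (ArithmeticFunction.zeta : ArithmeticFunction ℝ)) n = rr c n := by
  rw [ArithmeticFunction.coe_mul_zeta_apply]
  unfold rr
  refine Finset.sum_congr rfl fun d hd => ?_
  change (if d = 0 then (0 : ℝ) else c d) = c d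
  rw [if_neg]
  exact (Nat.pos_of_mem_divisors hd).ne'

/-- `1 * c` is multiplicative -/
theorem S5_rr_mul {N : ℕ} {c : ℕ → ℝ} (hc : RC N c) {m n : ℕ} (h : m.Coprime n) :
    rr c (m * n) = rr c m * rr c n := by
  have h1 : (S5_a c * (ArithmeticFunction.zeta : ArithmeticFunction ℝ)).IsMultiplicative :=
    (S5_a_mult hc).mul ArithmeticFunction.isMultiplicative_zeta.natCast
  rw [← S5_a_rr, ← S5_a_rr, ← S5_a_rr, h1.map_mul_of_coprime h]

private theorem S5_f_one {N : ℕ} {c : ℕ → ℝ} (hc : RC N c) : S5_f N c 1 = 1 := by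
  unfold S5_f rs rr
  rw [if_pos (Nat.coprime_one_left N), Nat.divisors_one, Finset.sum_singleton, S5_one hc]
  simp

private theorem S5_f_mul {N : ℕ} {c : ℕ → ℝ} (hc : RC N c) {m n : ℕ} (h : m.Coprime n) :
    S5_f N c (m * n) = S5_f N c m * S5_f N c n := by
  have h1 : rs N c (m * n) = rs N c m * rs N c n := by
    unfold rs
    by_cases hm : m.Coprime N
    · by_cases hn : n.Coprime N
      · rw [if_pos (Nat.Coprime.mul_left hm hn), if_pos hm, if_pos hn, S5_rr_mul hc h]
      · rw [if_neg (fun h2 => hn (Nat.Coprime.coprime_mul_left h2)), if_neg hn, mul_zero]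
    · rw [if_neg (fun h2 => hm (Nat.Coprime.coprime_mul_right h2)), if_neg hm, zero_mul]
  unfold S5_f
  rw [h1]
  push_cast
  rw [mul_div_mul_comm]

private theorem S5_f_nonneg {N : ℕ} {c : ℕ → ℝ} (hc : RC N c) (n : ℕ) : 0 ≤ S5_f N c n :=
  div_nonneg (rs_nonneg hc n) (Nat.cast_nonneg n)

private theorem S5_rr_pow {N : ℕ} {c : ℕ → ℝ} (hc : RC N c) {p : ℕ} (hp : p.Prime) (n : ℕ) :
    rr c (p ^ n) = ∑ i ∈ Finset.range (n + 1), c p ^ i := by
  unfold rr
  rw [Nat.sum_divisors_prime_pow hp]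
  exact Finset.sum_congr rfl fun i _ => S5_pow hc p i

private theorem S5_x {p : ℕ} (hp : p.Prime) : 0 < 1 / (p : ℝ) ∧ 1 / (p : ℝ) ≤ 1 / 2 := by
  have h2 : (2 : ℝ) ≤ p := by exact_mod_cast hp.two_le
  constructor
  · positivity
  · exact one_div_le_one_div_of_le (by norm_num) h2

private theorem S5_local {N : ℕ} {c : ℕ → ℝ} (hc : RC N c) {p : ℕ} (hp : p.Prime) :
    ∃ S : ℝ, HasSum (fun n => S5_f N c (p ^ n)) S ∧ 0 ≤ S ∧
      S ≤ (1 - 1 / (p : ℝ) ^ 2)⁻¹ * Real.exp (open Classical in if c p = 1 then 3 / p else 0) := by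
  classical
  obtain ⟨hx0, hx1⟩ := S5_x hp
  set x : ℝ := 1 / (p : ℝ) with hx
  have hxx : 1 / (p : ℝ) ^ 2 = x ^ 2 := by rw [hx, div_pow, one_pow]
  have h3x : 3 / (p : ℝ) = 3 * x := by rw [hx]; ring
  rw [hxx, h3x]
  have hpos : 0 < 1 - x ^ 2 := by nlinarith
  have hinv : 1 ≤ (1 - x ^ 2)⁻¹ := by
    rw [one_le_inv₀ hpos]
    nlinarith
  by_cases hpN : p ∣ N
  · refine ⟨1, ?_, zero_le_one, ?_⟩
    · have h1 : S5_f N c (p ^ 0) = 1 := by rw [pow_zero]; exact S5_f_one hc
      have h2 := hasSum_single (f := fun n => S5_f N c (p ^ n)) 0 (by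
        intro n hn
        unfold S5_f rs
        rw [if_neg, zero_div]
        intro hco
        have h3 : p.Coprime N := by
          have := hco
          rw [Nat.coprime_pow_left_iff (Nat.pos_of_ne_zero hn)] at this
          exact this
        exact (Nat.Prime.coprime_iff_not_dvd hp).1 h3 hpN)
      rw [h1] at h2
      exact h2
    · have h2 : 1 ≤ Real.exp (if c p = 1 then 3 * x else 0) := by
        apply Real.one_le_exp
        split_ifs
        · positivity
        · exact le_rfl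
      calc (1 : ℝ) = 1 * 1 := (one_mul 1).symm
        _ ≤ _ := mul_le_mul hinv h2 zero_le_one (by positivity)
  have hco : ∀ n, (p ^ n).Coprime N := fun n =>
    Nat.Coprime.pow_left n ((Nat.Prime.coprime_iff_not_dvd hp).2 hpN)
  have hf : ∀ n, S5_f N c (p ^ n) = (∑ i ∈ Finset.range (n + 1), c p ^ i) * x ^ n := by
    intro n
    unfold S5_f rs
    rw [if_pos (hco n), S5_rr_pow hc hp, hx]
    push_cast
    rw [one_div, inv_pow, div_eq_mul_inv]
  rcases hc.val p ((Nat.Prime.coprime_iff_not_dvd hp).2 hpN) with h1 | h1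
  · -- `c p = 1`
    refine ⟨x / (1 - x) ^ 2 + (1 - x)⁻¹, ?_, by
      have : 0 < 1 - x := by linarith
      positivity, ?_⟩
    · have a1 := hasSum_coe_mul_geometric_of_norm_lt_one (r := x)
        (by rw [Real.norm_of_nonneg hx0.le]; linarith)
      have a2 := hasSum_geometric_of_lt_one hx0.le (by linarith : x < 1)
      have a3 := a1.add a2
      refine a3.congr_fun ?_ |> id
      intro n
      rw [hf n, h1]
      simp only [one_pow, Finset.sum_const, Finset.card_range, nsmul_eq_mul, mul_one]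
      push_cast
      ring
    · rw [if_pos h1]
      have h1x : 0 < 1 - x := by linarith
      have e1 : x / (1 - x) ^ 2 + (1 - x)⁻¹ = (1 - x ^ 2)⁻¹ * ((1 + x) / (1 - x)) := by
        have h2 : (1 - x ^ 2) = (1 - x) * (1 + x) := by ring
        have h3 : (1 + x) ≠ 0 := by positivity
        rw [h2]
        field_simp
        ring
      rw [e1]
      refine mul_le_mul_of_nonneg_left ?_ (by positivity)
      rw [div_le_iff₀ h1x]
      have h4 := Real.quadratic_le_exp_of_nonneg (by positivity : 0 ≤ 3 * x)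
      have h5 : (1 + 3 * x + (3 * x) ^ 2 / 2) * (1 - x) ≤ Real.exp (3 * x) * (1 - x) :=
        mul_le_mul_of_nonneg_right h4 h1x.le
      have h6 : 1 + x ≤ (1 + 3 * x + (3 * x) ^ 2 / 2) * (1 - x) := by
        have e2 : (1 + 3 * x + (3 * x) ^ 2 / 2) * (1 - x) - (1 + x) =
            x * (1 + 3 / 2 * x - 9 / 2 * x ^ 2) := by ring
        have h7 : 0 ≤ 1 + 3 / 2 * x - 9 / 2 * x ^ 2 := by nlinarith
        have h8 : 0 ≤ x * (1 + 3 / 2 * x - 9 / 2 * x ^ 2) := mul_nonneg hx0.le h7
        linarith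
      linarith
  · -- `c p = -1`
    refine ⟨((1 - x)⁻¹ + (1 - -x)⁻¹) / 2, ?_, by
      have h1 : 0 < 1 - x := by linarith
      have h2 : 0 < 1 - -x := by linarith
      positivity, ?_⟩
    · have a1 := hasSum_geometric_of_lt_one hx0.le (by linarith : x < 1)
      have a2 := hasSum_geometric_of_norm_lt_one (ξ := -x)
        (by rw [norm_neg, Real.norm_of_nonneg hx0.le]; linarith)
      have a3 := (a1.add a2).div_const 2
      refine a3.congr_fun ?_ |> id
      intro n
      rw [hf n, h1, neg_one_geom_sum]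
      rcases Nat.even_or_odd n with he | ho
      · rw [if_neg (by rw [Nat.even_add_one]; exact not_not.2 he), he.neg_pow]
        ring
      · rw [if_pos (by rw [Nat.even_add_one, Nat.not_even_iff_odd]; exact ho), ho.neg_pow]
        ring
    · rw [if_neg (by rw [h1]; norm_num), Real.exp_zero, mul_one]
      apply le_of_eq
      have h2 : (1 - x ^ 2) = (1 - x) * (1 + x) := by ring
      have h3 : (1 + x) ≠ 0 := by positivity
      have h4 : (1 - x) ≠ 0 := by linarith
      rw [h2, sub_neg_eq_add]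
      field_simp
      ring

private theorem S5_prod (y : ℕ) : ∏ p ∈ (y + 2).primesBelow, (1 - 1 / (p : ℝ) ^ 2)⁻¹ ≤
    2 * ((y : ℝ) + 1) / (y + 2) := by
  induction y with
  | zero =>
    have h : (0 + 2).primesBelow = ∅ := by decide
    rw [h, Finset.prod_empty]
    norm_num
  | succ y ih =>
    have e : (y + 1 + 2).primesBelow = if (y + 2).Prime then insert (y + 2) (y + 2).primesBelow
        else (y + 2).primesBelow := Nat.primesBelow_succ (y + 2)
    rw [e]
    have hy : (0 : ℝ) ≤ y := Nat.cast_nonneg y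
    split_ifs with hp
    · rw [Finset.prod_insert (Nat.notMem_primesBelow _)]
      push_cast
      have h1 : (1 - 1 / ((y : ℝ) + 2) ^ 2)⁻¹ = ((y : ℝ) + 2) ^ 2 / ((y + 1) * (y + 3)) := by
        have : (1 - 1 / ((y : ℝ) + 2) ^ 2) = ((y + 1) * (y + 3)) / ((y : ℝ) + 2) ^ 2 := by
          field_simp
          ring
        rw [this, inv_div]
      rw [h1]
      calc ((y : ℝ) + 2) ^ 2 / ((y + 1) * (y + 3)) * ∏ p ∈ (y + 2).primesBelow,
            (1 - 1 / (p : ℝ) ^ 2)⁻¹
          ≤ ((y : ℝ) + 2) ^ 2 / ((y + 1) * (y + 3)) * (2 * ((y : ℝ) + 1) / (y + 2)) := by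
            gcongr
        _ = 2 * ((y : ℝ) + 1 + 1) / (y + 1 + 2) := by
            have h3 : ((y : ℝ) + 1) ≠ 0 := by positivity
            have h4 : ((y : ℝ) + 3) ≠ 0 := by positivity
            field_simp
            ring
    · refine ih.trans ?_
      push_cast
      rw [div_le_div_iff₀ (by positivity) (by positivity)]
      nlinarith

theorem R_star (N : ℕ) (c : ℕ → ℝ) (hc : RC N c) (y : ℕ) :
    ∑ n ∈ Finset.Icc 1 y, rs N c n / n ≤ 2 * Real.exp (3 * sQ c y) := by
  classical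
  rcases Nat.eq_zero_or_pos y with h0 | hy
  · subst h0
    rw [Finset.Icc_eq_empty (by norm_num), Finset.sum_empty]
    positivity
  obtain ⟨k, rfl⟩ : ∃ k, y = k + 1 := ⟨y - 1, by omega⟩
  choose! S hS1 hS2 hS3 using fun (p : ℕ) (hp : p.Prime) => S5_local hc hp
  have h := EulerProduct.summable_and_hasSum_smoothNumbers_prod_primesBelow_tsum
    (f := S5_f N c) (S5_f_one hc) (fun {m n} hmn => S5_f_mul hc hmn)
    (fun {p} hp => by
      have h1 : (fun n : ℕ => ‖S5_f N c (p ^ n)‖) = fun n : ℕ => S5_f N c (p ^ n) := by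
        funext n
        exact Real.norm_of_nonneg (S5_f_nonneg hc _)
      rw [h1]
      exact (hS1 p hp).summable) (k + 2)
  have h2 : HasSum ((k + 2).smoothNumbers.indicator (S5_f N c))
      (∏ p ∈ (k + 2).primesBelow, ∑' n : ℕ, S5_f N c (p ^ n)) :=
    hasSum_subtype_iff_indicator.1 h.2
  have h3 : ∑ n ∈ Finset.Icc 1 (k + 1), rs N c n / n =
      ∑ n ∈ Finset.Icc 1 (k + 1), (k + 2).smoothNumbers.indicator (S5_f N c) n := by
    refine Finset.sum_congr rfl fun n hn => ?_
    rw [Finset.mem_Icc] at hn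
    rw [Set.indicator_of_mem]
    · rfl
    · rw [Nat.mem_smoothNumbers]
      refine ⟨by omega, fun p hp => ?_⟩
      have := Nat.le_of_mem_primeFactorsList hp
      omega
  rw [h3]
  refine (sum_le_hasSum _ (fun n _ => Set.indicator_nonneg (fun m _ => S5_f_nonneg hc m) n)
    h2).trans ?_
  have h4 : ∏ p ∈ (k + 2).primesBelow, ∑' n : ℕ, S5_f N c (p ^ n) ≤
      ∏ p ∈ (k + 2).primesBelow, ((1 - 1 / (p : ℝ) ^ 2)⁻¹ *
        Real.exp (if c p = 1 then 3 / p else 0)) := by
    refine Finset.prod_le_prod (fun p hp => ?_) (fun p hp => ?_)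
    · rw [(hS1 p (Nat.prime_of_mem_primesBelow hp)).tsum_eq]
      exact hS2 p (Nat.prime_of_mem_primesBelow hp)
    · rw [(hS1 p (Nat.prime_of_mem_primesBelow hp)).tsum_eq]
      exact hS3 p (Nat.prime_of_mem_primesBelow hp)
  refine h4.trans ?_
  rw [Finset.prod_mul_distrib, ← Real.exp_sum]
  have h5 : ∑ p ∈ (k + 2).primesBelow, (if c p = 1 then 3 / (p : ℝ) else 0) =
      3 * sQ c (k + 1) := by
    unfold sQ QP
    rw [← Finset.sum_filter, Finset.mul_sum]
    have e : (k + 2).primesBelow.filter (fun p => c p = 1) =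
        (Finset.range (k + 1 + 1)).filter (fun q => q.Prime ∧ c q = 1) := by
      unfold Nat.primesBelow
      rw [Finset.filter_filter]
    rw [e]
    refine Finset.sum_congr rfl fun p _ => by ring
  rw [h5]
  refine mul_le_mul_of_nonneg_right ?_ (Real.exp_pos _).le
  refine (S5_prod k).trans ?_
  have hk : (0 : ℝ) ≤ k := Nat.cast_nonneg k
  rw [div_le_iff₀ (by positivity)]
  linarith

end Pool.Agent.Lib.OW
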