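import Pool.Agent.Lib.MP_7b7e48_nt.OW.S3
import Pool.Agent.Lib.MP_7b7e48_nt.OW.S4
import Pool.Agent.Lib.MP_7b7e48_nt.OW.S5

/-!
# Module S6 (60 minutes): lower bound for the sum over the primes with `c = 1`

`K = log N`. PROOF of `sig_star`. Let `I` be the set of the `i` with `N^(17/20) ≤ 2^i ≤ N^(9/10)`: `|I| ≥ K/20/log 2 - 1 ≥ K/20`. Divide `cheb_star` for `y = 2^i` by `2^i` and add: `|I| (1/5) K del N L ≤ 2 ∑_{q ∈ QP c T} log q ∑_{i ∈ I, 2^i ≥ q} SSs N c (2^i/q)/2^i`,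
`T = ⌊N^(9/10)⌋`; `∑_i SSs N c (2^i/q)/2^i ≤ ∑_{m ≤ N} rs N c m ∑_{i : 2^i ≥ q m} 2^(-i) ≤ ∑_m rs N c m · 2/(q m) ≤ (2/q) · 2 exp(3)` (`R_star`, `sQ c N ≤ 1`). So `(K/20)(K/5) del N L ≤ 2 K sQ c T · 2 · 2 exp 3`, i.e. `K del N L ≤ C sQ c T`.
`sig_pos`: `del N ≥ 1/K` (`del_low`), so `sQ c N ≥ L/C ≥ N^(-1/50)/C`.
-/

open Finset

namespace Pool.Agent.Lib.OW

open Pool.Agent.Lib.RG (RC LV rr SS PB)

private theorem s6_geo (i0 n : ℕ) :
    ∑ i ∈ Finset.Ico i0 (i0 + n), (1 / (2 : ℝ) ^ i) ≤ 2 / (2 : ℝ) ^ i0 := by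
  have h : ∀ n : ℕ, ∑ i ∈ Finset.Ico i0 (i0 + n), (1 / (2 : ℝ) ^ i) =
      2 / (2 : ℝ) ^ i0 - 2 / (2 : ℝ) ^ (i0 + n) := by
    intro n
    induction n with
    | zero => simp
    | succ n ih =>
      rw [← add_assoc, Finset.sum_Ico_succ_top (by omega), ih]
      have h2 : (2 : ℝ) ^ (i0 + n) ≠ 0 := by positivity
      rw [pow_succ]
      field_simp
      ring
  rw [h]
  have : (0 : ℝ) ≤ 2 / (2 : ℝ) ^ (i0 + n) := by positivity
  linarith

private theorem s6_geo' (I : Finset ℕ) (a : ℝ) (ha : 0 < a) :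
    ∑ i ∈ I.filter (fun i => a ≤ (2 : ℝ) ^ i), (1 / (2 : ℝ) ^ i) ≤ 2 / a := by
  classical
  rcases (I.filter (fun i => a ≤ (2 : ℝ) ^ i)).eq_empty_or_nonempty with h | h
  · rw [h, Finset.sum_empty]; positivity
  · set J := I.filter (fun i => a ≤ (2 : ℝ) ^ i) with hJ
    set i0 := J.min' h with hi0
    have hmem : i0 ∈ J := Finset.min'_mem _ _
    have ha2 : a ≤ (2 : ℝ) ^ i0 := (Finset.mem_filter.mp hmem).2
    have hsub : J ⊆ Finset.Ico i0 (i0 + (J.max' h + 1)) := by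
      intro i hi
      rw [Finset.mem_Ico]
      have h1 := Finset.min'_le J i hi
      have h2 := Finset.le_max' J i hi
      constructor
      · exact h1
      · omega
    calc ∑ i ∈ J, (1 / (2 : ℝ) ^ i) ≤ ∑ i ∈ Finset.Ico i0 (i0 + (J.max' h + 1)), (1 / (2 : ℝ) ^ i) :=
          Finset.sum_le_sum_of_subset_of_nonneg hsub (fun i _ _ => by positivity)
      _ ≤ 2 / (2 : ℝ) ^ i0 := s6_geo i0 _
      _ ≤ 2 / a := by
          apply div_le_div_of_nonneg_left (by norm_num) ha ha2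

private theorem s6_swap {N : ℕ} {c : ℕ → ℝ} (hc : RC N c) (q T : ℕ) (hq : 1 ≤ q) (I : Finset ℕ)
    (hI : ∀ i ∈ I, 2 ^ i ≤ T) :
    ∑ i ∈ I, SSs N c (2 ^ i / q) / (2 : ℝ) ^ i ≤
      2 / (q : ℝ) * ∑ m ∈ Finset.Icc 1 T, rs N c m / m := by
  classical
  have hq0 : (0 : ℝ) < q := by exact_mod_cast hq
  have h1 : ∀ i ∈ I, SSs N c (2 ^ i / q) / (2 : ℝ) ^ i =
      ∑ m ∈ Finset.Icc 1 T, if ((q : ℝ) * m ≤ (2 : ℝ) ^ i) then rs N c m * (1 / (2 : ℝ) ^ i) else 0 := by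
    intro i hi
    unfold SSs
    rw [Finset.sum_div, ← Finset.sum_filter]
    have hset : (Finset.Icc 1 T).filter (fun m : ℕ => (q : ℝ) * m ≤ (2 : ℝ) ^ i) =
        Finset.Icc 1 (2 ^ i / q) := by
      ext m
      rw [Finset.mem_filter, Finset.mem_Icc, Finset.mem_Icc]
      have hcast : ((q : ℝ) * m ≤ (2 : ℝ) ^ i) ↔ m * q ≤ 2 ^ i := by
        rw [mul_comm]
        exact_mod_cast Iff.rfl
      rw [hcast, Nat.le_div_iff_mul_le (by omega)]
      constructor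
      · rintro ⟨⟨h1, _⟩, h3⟩
        exact ⟨h1, h3⟩
      · rintro ⟨h1, h3⟩
        refine ⟨⟨h1, ?_⟩, h3⟩
        calc m = m * 1 := (mul_one m).symm
          _ ≤ m * q := Nat.mul_le_mul_left _ hq
          _ ≤ 2 ^ i := h3
          _ ≤ T := hI i hi
    rw [hset]
    refine Finset.sum_congr rfl fun m _ => ?_
    rw [mul_one_div]
  rw [Finset.sum_congr rfl h1, Finset.sum_comm, Finset.mul_sum]
  refine Finset.sum_le_sum fun m hm => ?_
  have hm1 : 1 ≤ m := (Finset.mem_Icc.mp hm).1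
  have hm0 : (0 : ℝ) < m := by exact_mod_cast hm1
  rw [← Finset.sum_filter, ← Finset.mul_sum]
  have h2 := s6_geo' I ((q : ℝ) * m) (by positivity)
  calc rs N c m * ∑ i ∈ I.filter (fun i => (q : ℝ) * m ≤ (2 : ℝ) ^ i), (1 / (2 : ℝ) ^ i)
      ≤ rs N c m * (2 / ((q : ℝ) * m)) := mul_le_mul_of_nonneg_left h2 (rs_nonneg hc m)
    _ = 2 / (q : ℝ) * (rs N c m / m) := by field_simp

private theorem s6_QP_mono {c : ℕ → ℝ} {y z : ℕ} (h : y ≤ z) : QP c y ⊆ QP c z := by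
  intro q hq
  unfold QP at hq ⊢
  rw [Finset.mem_filter, Finset.mem_range] at hq ⊢
  exact ⟨by omega, hq.2⟩

private theorem s6_sQ_mono {c : ℕ → ℝ} {y z : ℕ} (h : y ≤ z) : sQ c y ≤ sQ c z := by
  unfold sQ
  exact Finset.sum_le_sum_of_subset_of_nonneg (s6_QP_mono h) (fun q _ _ => by positivity)

private theorem s6_SSs_nonneg {N : ℕ} {c : ℕ → ℝ} (hc : RC N c) (y : ℕ) : 0 ≤ SSs N c y :=
  Finset.sum_nonneg fun n _ => rs_nonneg hc n

theorem sig_star : ∃ C : ℝ, 0 < C ∧ ∃ N0 : ℕ, ∀ N : ℕ, N0 ≤ N → ∀ (c : ℕ → ℝ) (L : ℝ), RC N c → LV N c L →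
    (N : ℝ) ^ (-(1 / 50) : ℝ) ≤ L → sQ c N ≤ 1 →
    Real.log N * (del N * L) ≤ C * sQ c ⌊(N : ℝ) ^ ((9 : ℝ) / 10)⌋₊ := by
  classical
  obtain ⟨N1, hN1⟩ := cheb_star
  refine ⟨800 * Real.exp 3, by positivity, max N1 ⌈Real.exp 100⌉₊, ?_⟩
  intro N hN c L hc hL hLlow hs
  have hNN1 : N1 ≤ N := le_trans (le_max_left _ _) hN
  have hNe : Real.exp 100 ≤ (N : ℝ) :=
    le_trans (Nat.le_ceil _) (by exact_mod_cast le_trans (le_max_right _ _) hN)
  have hN0 : (0 : ℝ) < N := lt_of_lt_of_le (Real.exp_pos _) hNe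
  have hN1' : (1 : ℝ) ≤ N := le_trans (Real.one_le_exp (by norm_num)) hNe
  obtain ⟨K, hK⟩ : ∃ K : ℝ, K = Real.log N := ⟨_, rfl⟩
  have hK100 : 100 ≤ K := by
    rw [hK, Real.le_log_iff_exp_le hN0]; exact hNe
  rw [← hK]
  have hlog2 : Real.log 2 < 0.6931471808 := Real.log_two_lt_d9
  have hlog2' : 0.6931471803 < Real.log 2 := Real.log_two_gt_d9
  have hl2 : 0 < Real.log 2 := by linarith
  set T : ℕ := ⌊(N : ℝ) ^ ((9 : ℝ) / 10)⌋₊ with hT
  have hTN : T ≤ N := by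
    have h1 : (T : ℝ) ≤ (N : ℝ) := by
      calc (T : ℝ) ≤ (N : ℝ) ^ ((9 : ℝ) / 10) := Nat.floor_le (by positivity)
        _ ≤ (N : ℝ) ^ (1 : ℝ) := Real.rpow_le_rpow_of_exponent_le hN1' (by norm_num)
        _ = N := Real.rpow_one _
    exact_mod_cast h1
  -- the exponents
  set lo : ℕ := ⌈(17 / 20 : ℝ) * K / Real.log 2⌉₊ with hlo
  set hi : ℕ := ⌊(9 / 10 : ℝ) * K / Real.log 2⌋₊ with hhi
  have hlo1 : (17 / 20 : ℝ) * K / Real.log 2 ≤ lo := Nat.le_ceil _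
  have hlo2 : (lo : ℝ) < (17 / 20 : ℝ) * K / Real.log 2 + 1 := Nat.ceil_lt_add_one (by positivity)
  have hhi1 : (hi : ℝ) ≤ (9 / 10 : ℝ) * K / Real.log 2 := Nat.floor_le (by positivity)
  have hhi2 : (9 / 10 : ℝ) * K / Real.log 2 < hi + 1 := Nat.lt_floor_add_one _
  have hpow : ∀ i : ℕ, (2 : ℝ) ^ i = Real.exp (i * Real.log 2) := by
    intro i
    rw [Real.exp_nat_mul, Real.exp_log (by norm_num)]
  have hNpow : ∀ r : ℝ, (N : ℝ) ^ r = Real.exp (r * K) := by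
    intro r
    rw [Real.rpow_def_of_pos hN0, hK, mul_comm]
  have hI : ∀ i ∈ Finset.Icc lo hi, (N : ℝ) ^ ((17 : ℝ) / 20) ≤ (2 : ℝ) ^ i ∧
      (2 : ℝ) ^ i ≤ (N : ℝ) ^ ((9 : ℝ) / 10) := by
    intro i hi'
    obtain ⟨h1, h2⟩ := Finset.mem_Icc.mp hi'
    have h1' : (lo : ℝ) ≤ i := by exact_mod_cast h1
    have h2' : (i : ℝ) ≤ hi := by exact_mod_cast h2
    rw [hpow, hNpow, hNpow]
    constructor
    · apply Real.exp_le_exp.mpr
      have := hlo1.trans h1'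
      rw [div_le_iff₀ hl2] at this
      exact this
    · apply Real.exp_le_exp.mpr
      have := h2'.trans hhi1
      rw [le_div_iff₀ hl2] at this
      exact this
  have hIT : ∀ i ∈ Finset.Icc lo hi, 2 ^ i ≤ T := by
    intro i hi'
    apply Nat.le_floor
    push_cast
    exact (hI i hi').2
  have hcard : K / 20 ≤ ((Finset.Icc lo hi).card : ℝ) := by
    rw [Nat.card_Icc]
    have h3 : (17 / 20 : ℝ) * K / Real.log 2 + 1 ≤ (9 / 10 : ℝ) * K / Real.log 2 := by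
      have : (9 / 10 : ℝ) * K / Real.log 2 - (17 / 20 : ℝ) * K / Real.log 2 = K / 20 / Real.log 2 := by
        field_simp; ring
      have h4 : 1 ≤ K / 20 / Real.log 2 := by
        rw [le_div_iff₀ hl2]; linarith
      linarith
    have h5 : (lo : ℝ) < hi + 1 := by linarith
    have h6 : lo ≤ hi + 1 := by exact_mod_cast h5.le
    rw [Nat.cast_sub h6]
    push_cast
    have h7 : (9 / 10 : ℝ) * K / Real.log 2 - (17 / 20 : ℝ) * K / Real.log 2 = K / 20 / Real.log 2 := by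
      field_simp; ring
    have h8 : K / 20 + 1 ≤ K / 20 / Real.log 2 := by
      rw [le_div_iff₀ hl2]
      nlinarith
    linarith
  -- one exponent
  have hone : ∀ i ∈ Finset.Icc lo hi, (1 / 5) * K * (del N * L) ≤
      2 * ∑ q ∈ QP c T, Real.log q * (SSs N c (2 ^ i / q) / (2 : ℝ) ^ i) := by
    intro i hi'
    obtain ⟨h1, h2⟩ := hI i hi'
    have h3 := hN1 N hNN1 c L hc hL hLlow (2 ^ i) (by push_cast; exact h1) (by push_cast; exact h2)
    have h2i : (0 : ℝ) < (2 : ℝ) ^ i := by positivity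
    have h4 : ∑ q ∈ QP c (2 ^ i), Real.log q * SSs N c (2 ^ i / q) ≤
        ∑ q ∈ QP c T, Real.log q * SSs N c (2 ^ i / q) := by
      refine Finset.sum_le_sum_of_subset_of_nonneg (s6_QP_mono (hIT i hi')) ?_
      intro q _ _
      exact mul_nonneg (Real.log_natCast_nonneg q) (s6_SSs_nonneg hc _)
    rw [← hK] at h3
    push_cast at h3
    have h5 : (1 / 5) * K * (del N * L) * (2 : ℝ) ^ i ≤
        2 * ∑ q ∈ QP c T, Real.log q * SSs N c (2 ^ i / q) := by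
      calc (1 / 5) * K * (del N * L) * (2 : ℝ) ^ i = 1 / 5 * K * (del N * L * (2 : ℝ) ^ i) := by ring
        _ ≤ 2 * ∑ q ∈ QP c (2 ^ i), Real.log q * SSs N c (2 ^ i / q) := h3
        _ ≤ _ := by linarith
    rw [← le_div_iff₀ h2i] at h5
    refine h5.trans (le_of_eq ?_)
    rw [mul_div_assoc, Finset.sum_div]
    congr 1
    refine Finset.sum_congr rfl fun q _ => ?_
    rw [mul_div_assoc]
  have hR := R_star N c hc T
  have hsT : sQ c T ≤ 1 := (s6_sQ_mono hTN).trans hs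
  have hR' : ∑ m ∈ Finset.Icc 1 T, rs N c m / m ≤ 2 * Real.exp 3 := by
    refine hR.trans ?_
    have : Real.exp (3 * sQ c T) ≤ Real.exp 3 := Real.exp_le_exp.mpr (by linarith)
    linarith
  have hsum : ((Finset.Icc lo hi).card : ℝ) * ((1 / 5) * K * (del N * L)) ≤
      8 * Real.exp 3 * K * sQ c T := by
    calc ((Finset.Icc lo hi).card : ℝ) * ((1 / 5) * K * (del N * L))
        = ∑ _i ∈ Finset.Icc lo hi, (1 / 5) * K * (del N * L) := by
          rw [Finset.sum_const, nsmul_eq_mul]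
      _ ≤ ∑ i ∈ Finset.Icc lo hi, 2 * ∑ q ∈ QP c T, Real.log q * (SSs N c (2 ^ i / q) / (2 : ℝ) ^ i) :=
          Finset.sum_le_sum hone
      _ = 2 * ∑ q ∈ QP c T, Real.log q * ∑ i ∈ Finset.Icc lo hi, SSs N c (2 ^ i / q) / (2 : ℝ) ^ i := by
          rw [← Finset.mul_sum, Finset.sum_comm]
          congr 1
          refine Finset.sum_congr rfl fun q _ => ?_
          rw [Finset.mul_sum]
      _ ≤ 2 * ∑ q ∈ QP c T, K * (2 / (q : ℝ) * (2 * Real.exp 3)) := by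
          refine mul_le_mul_of_nonneg_left (Finset.sum_le_sum fun q hq => ?_) (by norm_num)
          unfold QP at hq
          rw [Finset.mem_filter, Finset.mem_range] at hq
          have hq1 : 1 ≤ q := hq.2.1.one_lt.le
          have hq0 : (0 : ℝ) < q := by exact_mod_cast hq1
          have hlogq : Real.log q ≤ K := by
            rw [hK]
            apply Real.log_le_log hq0
            exact_mod_cast (by omega : q ≤ N)
          have hS := (s6_swap hc q T hq1 (Finset.Icc lo hi) hIT).trans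
            (mul_le_mul_of_nonneg_left hR' (by positivity))
          have hSn : 0 ≤ ∑ i ∈ Finset.Icc lo hi, SSs N c (2 ^ i / q) / (2 : ℝ) ^ i :=
            Finset.sum_nonneg fun i _ => div_nonneg (s6_SSs_nonneg hc _) (by positivity)
          exact mul_le_mul hlogq hS hSn (by linarith)
      _ = 8 * Real.exp 3 * K * sQ c T := by
          unfold sQ
          rw [Finset.mul_sum, Finset.mul_sum]
          refine Finset.sum_congr rfl fun q _ => ?_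
          ring
  have hLpos : 0 < L := lt_of_lt_of_le (Real.rpow_pos_of_pos hN0 _) hLlow
  have hdel : 0 ≤ del N := by unfold del; positivity
  have hX : 0 ≤ del N * L := mul_nonneg hdel hLpos.le
  have hKpos : 0 < K := by linarith
  have hfin : K / 20 * ((1 / 5) * K * (del N * L)) ≤ 8 * Real.exp 3 * K * sQ c T := by
    refine le_trans ?_ hsum
    exact mul_le_mul_of_nonneg_right hcard (by positivity)
  have hfin2 : K * (K * (del N * L)) ≤ K * (800 * Real.exp 3 * sQ c T) := by nlinarith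
  exact le_of_mul_le_mul_left hfin2 hKpos

theorem sig_low : ∃ N0 : ℕ, ∀ N : ℕ, N0 ≤ N → ∀ (c : ℕ → ℝ) (L : ℝ), RC N c → LV N c L →
    (N : ℝ) ^ (-(1 / 50) : ℝ) ≤ L → sQ c N ≤ 1 → (N : ℝ) ^ (-(1 / 40) : ℝ) ≤ sQ c N := by
  obtain ⟨C, hC, N1, hN1⟩ := sig_star
  obtain ⟨N2, hN2⟩ := del_low
  refine ⟨max (max N1 N2) (⌈C ^ 200⌉₊ + 1), ?_⟩
  intro N hN c L hc hL hLlow hs
  have h1 : N1 ≤ N := le_trans (le_trans (le_max_left _ _) (le_max_left _ _)) hN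
  have h2 : N2 ≤ N := le_trans (le_trans (le_max_right _ _) (le_max_left _ _)) hN
  have h3 : ⌈C ^ 200⌉₊ + 1 ≤ N := le_trans (le_max_right _ _) hN
  have hCN : C ^ 200 ≤ (N : ℝ) := le_trans (Nat.le_ceil _) (by exact_mod_cast (by omega : ⌈C ^ 200⌉₊ ≤ N))
  have hN0 : (0 : ℝ) < N := by exact_mod_cast (by omega : 0 < N)
  have hN1' : (1 : ℝ) ≤ N := by exact_mod_cast (by omega : 1 ≤ N)
  have hLpos : 0 < L := lt_of_lt_of_le (Real.rpow_pos_of_pos hN0 _) hLlow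
  have hstar := hN1 N h1 c L hc hL hLlow hs
  have hdel := hN2 N h2
  have hTN : ⌊(N : ℝ) ^ ((9 : ℝ) / 10)⌋₊ ≤ N := by
    have h1 : ((⌊(N : ℝ) ^ ((9 : ℝ) / 10)⌋₊ : ℕ) : ℝ) ≤ (N : ℝ) := by
      calc ((⌊(N : ℝ) ^ ((9 : ℝ) / 10)⌋₊ : ℕ) : ℝ) ≤ (N : ℝ) ^ ((9 : ℝ) / 10) :=
            Nat.floor_le (by positivity)
        _ ≤ (N : ℝ) ^ (1 : ℝ) := Real.rpow_le_rpow_of_exponent_le hN1' (by norm_num)
        _ = N := Real.rpow_one _
    exact_mod_cast h1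
  have h4 : (N : ℝ) ^ (-(1 / 50) : ℝ) ≤ C * sQ c N := by
    calc (N : ℝ) ^ (-(1 / 50) : ℝ) ≤ L := hLlow
      _ = 1 * L := (one_mul L).symm
      _ ≤ (Real.log N * del N) * L := mul_le_mul_of_nonneg_right hdel hLpos.le
      _ = Real.log N * (del N * L) := by ring
      _ ≤ C * sQ c ⌊(N : ℝ) ^ ((9 : ℝ) / 10)⌋₊ := hstar
      _ ≤ C * sQ c N := mul_le_mul_of_nonneg_left (s6_sQ_mono hTN) hC.le
  have h5 : C ≤ (N : ℝ) ^ ((1 : ℝ) / 200) := by
    have h6 : (C ^ 200) ^ ((1 : ℝ) / 200) ≤ (N : ℝ) ^ ((1 : ℝ) / 200) :=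
      Real.rpow_le_rpow (by positivity) hCN (by norm_num)
    have h7 : (C ^ 200) ^ ((1 : ℝ) / 200) = C := by
      rw [← Real.rpow_natCast, ← Real.rpow_mul hC.le]
      norm_num
    rw [h7] at h6
    exact h6
  have h8 : C * (N : ℝ) ^ (-(1 / 40) : ℝ) ≤ (N : ℝ) ^ (-(1 / 50) : ℝ) := by
    calc C * (N : ℝ) ^ (-(1 / 40) : ℝ) ≤ (N : ℝ) ^ ((1 : ℝ) / 200) * (N : ℝ) ^ (-(1 / 40) : ℝ) :=
          mul_le_mul_of_nonneg_right h5 (by positivity)
      _ = (N : ℝ) ^ (-(1 / 50) : ℝ) := by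
          rw [← Real.rpow_add hN0]
          norm_num
  have h9 : C * (N : ℝ) ^ (-(1 / 40) : ℝ) ≤ C * sQ c N := h8.trans h4
  exact le_of_mul_le_mul_left h9 hC

end Pool.Agent.Lib.OW
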