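import Pool.Agent.Lib.MP_7b7e48_nt.OW.S1

/-!
# Module S7 (90 minutes): the sum of `1 * c` over a residue class modulo `W`

`M = W N`. `hpv` is the conclusion of module `U3` for the real parts. PROOF. `b` is coprime to `W`; `rs M c n = ∑_{d e = n} c d` for `n` coprime to `M`. `A = ⌈√y N^(1/4)⌉`. If `A > y` then `√y < N^(1/4) + 1` and both sides are `≤ C y (1 + log y) ≤ √y N^(3/10)/2` (`|L| ≤ 1 + log M + 2 PB M/M`, `rr c n ≤ τ(n)`). If `A ≤ y`:
(1) `d ≤ A`: `∑_{d ≤ A, (d,M)=1} c d #{e ≤ y/d : e ≡ b d^(-1) (W), (e, N) = 1}`, the number is `dd N W · y/d + O(τ(N) + 1)`: inclusion-exclusion over `g ∣ N` squarefree, `(g, W) = 1`, `#{e ≤ w : g ∣ e, e ≡ b'} = w/(g W) + O(1)`, `∑_g μ(g)/(g W) = dd N W` (as in module `CN1`; `dd N W = del M/φ(W)`).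
So `= dd N W y ∑_{d ≤ A} c d/d + O(A (τ(N)+1)) = dd N W y L + O(2 y PB M/A + A (τ(N) + 1))` (`LV`). (2) `d > A`: `∑_{e < y/A, (e,M)=1} ∑_{A < d ≤ y/e, d ≡ b e^(-1)} c d`, each inner sum `≤ 2 PB M` (`hpv`). Total error `≤ 4 y PB M/A + A (τ(N) + 1) ≤ √y N^(3/10)` (`PB M ≤ N^(51/100)`, `τ(N) + 1 ≤ N^(1/100)`: `RG.PB_le`).
-/

open Finset

namespace Pool.Agent.Lib.OW

open Pool.Agent.Lib.RG (RC LV rr SS PB)

private theorem S7_del_eq {m n : ℕ} (hm : m ≠ 0) (hn : n ≠ 0) (h : m.primeFactors = n.primeFactors) :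
    del m = del n := by
  have key : ∀ k : ℕ, k ≠ 0 → del k = ∏ p ∈ k.primeFactors, (1 - (p : ℝ)⁻¹) := by
    intro k hk
    have h1 := congrArg (fun x : ℚ => (x : ℝ)) (Nat.totient_eq_mul_prod_factors k)
    push_cast at h1
    unfold del
    rw [h1]
    have hk' : (k : ℝ) ≠ 0 := by exact_mod_cast hk
    rw [mul_div_cancel_left₀ _ hk']
  rw [key m hm, key n hn, h]

/-- the part of the radical of `N` coprime to `W` -/
private theorem S7_density {N W : ℕ} (hN : N ≠ 0) (hW : W ≠ 0) : ∃ N' : ℕ, N' ≠ 0 ∧ N'.Coprime W ∧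
    N' ∣ N ∧ (∀ e : ℕ, e.Coprime W → (e.Coprime N ↔ e.Coprime N')) ∧ dd N W = del N' / W := by
  classical
  set S := N.primeFactors.filter fun p => ¬ p ∣ W with hS
  have hSp : ∀ p ∈ S, p.Prime := fun p hp => Nat.prime_of_mem_primeFactors (mem_of_mem_filter p hp)
  set N' := ∏ p ∈ S, p with hN'
  have hN'0 : N' ≠ 0 := prod_ne_zero_iff.2 fun p hp => (hSp p hp).ne_zero
  have hpf : N'.primeFactors = S := Nat.primeFactors_prod hSp
  have hco : N'.Coprime W := by
    rw [hN', Nat.coprime_prod_left_iff]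
    intro p hp
    rw [Nat.Prime.coprime_iff_not_dvd (hSp p hp)]
    exact (mem_filter.1 hp).2
  have hdvd : N' ∣ N := by
    refine dvd_trans ?_ (Nat.prod_primeFactors_dvd N)
    exact prod_dvd_prod_of_subset _ _ _ (filter_subset _ _)
  refine ⟨N', hN'0, hco, hdvd, ?_, ?_⟩
  · intro e he
    constructor
    · intro h
      exact Nat.Coprime.coprime_dvd_right hdvd h
    · intro h
      by_contra hc
      obtain ⟨p, hp, h1, h2⟩ := Nat.Prime.not_coprime_iff_dvd.1 hc
      by_cases hpW : p ∣ W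
      · exact Nat.Prime.not_coprime_iff_dvd.2 ⟨p, hp, h1, hpW⟩ he
      · have hpS : p ∈ S := by
          rw [hS, mem_filter]
          exact ⟨Nat.mem_primeFactors.2 ⟨hp, h2, hN⟩, hpW⟩
        exact Nat.Prime.not_coprime_iff_dvd.2 ⟨p, hp, h1, dvd_prod_of_mem _ hpS⟩ h
  · have e1 : del (W * N) = del (W * N') := by
      refine S7_del_eq (mul_ne_zero hW hN) (mul_ne_zero hW hN'0) ?_
      rw [Nat.primeFactors_mul hW hN, Nat.primeFactors_mul hW hN'0, hpf, hS]
      ext p
      rw [mem_union, mem_union, mem_filter]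
      constructor
      · rintro (h | h)
        · exact Or.inl h
        · by_cases hpW : p ∣ W
          · exact Or.inl (Nat.mem_primeFactors.2 ⟨Nat.prime_of_mem_primeFactors h, hpW, hW⟩)
          · exact Or.inr ⟨h, hpW⟩
      · rintro (h | h)
        · exact Or.inl h
        · exact Or.inr h.1
    unfold dd
    rw [e1]
    unfold del
    rw [Nat.totient_mul hco.symm]
    have h1 : (W.totient : ℝ) ≠ 0 := by
      have : 0 < W.totient := Nat.totient_pos.2 (Nat.pos_of_ne_zero hW)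
      exact_mod_cast this.ne'
    have h2 : (W : ℝ) ≠ 0 := by exact_mod_cast hW
    have h3 : (N' : ℝ) ≠ 0 := by exact_mod_cast hN'0
    push_cast
    field_simp

private theorem S7_ap (r u v : ℕ) (hr : 0 < r) :
    |(((Finset.Icc 1 u).filter fun x => x ≡ v [MOD r]).card : ℝ) - (u : ℝ) / r| ≤ 1 := by
  have h := Nat.Ioc_filter_modEq_card 0 u hr v
  have e : Finset.Icc 1 u = Finset.Ioc 0 u := by ext x; simp [Finset.mem_Icc, Finset.mem_Ioc]; omega
  rw [e]
  have hr' : (0 : ℚ) < r := by exact_mod_cast hr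
  set x : ℚ := ((u : ℚ) - v) / r with hx
  set y : ℚ := (((0 : ℕ) : ℚ) - v) / r with hy
  have hxy : x - y = (u : ℚ) / r := by
    rw [hx, hy]; push_cast; ring
  have hxy0 : 0 ≤ x - y := by rw [hxy]; positivity
  have hfl : ⌊y⌋ ≤ ⌊x⌋ := Int.floor_le_floor (by linarith)
  rw [max_eq_left (by linarith)] at h
  have h1 := Int.floor_le x
  have h2 := Int.lt_floor_add_one x
  have h3 := Int.floor_le y
  have h4 := Int.lt_floor_add_one y
  have h5 : |((⌊x⌋ - ⌊y⌋ : ℤ) : ℚ) - (u : ℚ) / r| ≤ 1 := by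
    rw [← hxy, abs_le]
    push_cast
    constructor <;> linarith
  rw [← h] at h5
  have h6 : ((|(((((Finset.Ioc 0 u).filter fun x => x ≡ v [MOD r]).card : ℤ)) : ℚ) - (u : ℚ) / r| : ℚ) : ℝ) ≤
      ((1 : ℚ) : ℝ) := by exact_mod_cast h5
  push_cast at h6
  exact h6

open Classical in
private theorem S7_cnt {N W : ℕ} (hN : N ≠ 0) (hW : W ≠ 0) {b : ℕ} (hb : b.Coprime W) (u : ℕ) :
    |(((Finset.Icc 1 u).filter fun e => e ≡ b [MOD W] ∧ e.Coprime N).card : ℝ) - dd N W * u| ≤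
      (N.divisors.card : ℝ) := by
  obtain ⟨N', hN'0, hco, hdvd, hiff, hdd⟩ := S7_density hN hW
  have hWr : (W : ℝ) ≠ 0 := by exact_mod_cast hW
  have e1 : (((Finset.Icc 1 u).filter fun e => e ≡ b [MOD W] ∧ e.Coprime N).card : ℝ) =
      ∑ g ∈ N'.divisors, ((ArithmeticFunction.moebius g : ℤ) : ℝ) *
        (((Finset.Icc 1 u).filter fun e => e ≡ b [MOD W] ∧ g ∣ e).card : ℝ) := by
    have h1 : (((Finset.Icc 1 u).filter fun e => e ≡ b [MOD W] ∧ e.Coprime N).card : ℝ) =
        ∑ e ∈ (Finset.Icc 1 u).filter (fun e => e ≡ b [MOD W]), if e.Coprime N' then (1 : ℝ) else 0 := by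
      rw [← sum_filter, sum_const, nsmul_eq_mul, mul_one, filter_filter]
      congr 2
      refine filter_congr fun e _ => ?_
      constructor
      · rintro ⟨h2, h3⟩
        have hc : e.Coprime W := by
          rw [Nat.Coprime, h2.gcd_eq]; exact hb
        exact ⟨h2, (hiff e hc).1 h3⟩
      · rintro ⟨h2, h3⟩
        have hc : e.Coprime W := by
          rw [Nat.Coprime, h2.gcd_eq]; exact hb
        exact ⟨h2, (hiff e hc).2 h3⟩
    rw [h1, sum_congr rfl (fun e _ => S1_ind hN'0 e), sum_comm]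
    refine sum_congr rfl fun g _ => ?_
    rw [← sum_filter, sum_const, nsmul_eq_mul, mul_comm, filter_filter]
  have e2 : dd N W * u = ∑ g ∈ N'.divisors, ((ArithmeticFunction.moebius g : ℤ) : ℝ) *
      ((u : ℝ) / (W * g : ℕ)) := by
    rw [hdd, S1_del hN'0, sum_div, sum_mul]
    refine sum_congr rfl fun g hg => ?_
    have hg0 : (g : ℝ) ≠ 0 := by
      have := Nat.pos_of_mem_divisors hg
      exact_mod_cast this.ne'
    push_cast
    field_simp
  rw [e1, e2, ← sum_sub_distrib]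
  refine (abs_sum_le_sum_abs _ _).trans ?_
  have h3 : ∀ g ∈ N'.divisors, |((ArithmeticFunction.moebius g : ℤ) : ℝ) *
        (((Finset.Icc 1 u).filter fun e => e ≡ b [MOD W] ∧ g ∣ e).card : ℝ) -
        ((ArithmeticFunction.moebius g : ℤ) : ℝ) * ((u : ℝ) / (W * g : ℕ))| ≤ 1 := by
    intro g hg
    have hg0 := Nat.pos_of_mem_divisors hg
    have hgW : W.Coprime g := (Nat.Coprime.coprime_dvd_left (Nat.dvd_of_mem_divisors hg) hco).symm
    have hmu : |((ArithmeticFunction.moebius g : ℤ) : ℝ)| ≤ 1 := by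
      have h := ArithmeticFunction.abs_moebius_le_one (n := g)
      exact_mod_cast h
    have e3 : ((Finset.Icc 1 u).filter fun e => e ≡ b [MOD W] ∧ g ∣ e) =
        (Finset.Icc 1 u).filter fun e => e ≡ (Nat.chineseRemainder hgW b 0 : ℕ) [MOD W * g] := by
      refine filter_congr fun e _ => ?_
      have hr := (Nat.chineseRemainder hgW b 0).2
      rw [← Nat.modEq_and_modEq_iff_modEq_mul hgW]
      constructor
      · rintro ⟨h4, h5⟩
        exact ⟨h4.trans hr.1.symm, ((Nat.modEq_zero_iff_dvd.2 h5).trans hr.2.symm)⟩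
      · rintro ⟨h4, h5⟩
        exact ⟨h4.trans hr.1, Nat.modEq_zero_iff_dvd.1 (h5.trans hr.2)⟩
    rw [← mul_sub, abs_mul, e3]
    have h6 := S7_ap (W * g) u (Nat.chineseRemainder hgW b 0 : ℕ)
      (Nat.mul_pos (Nat.pos_of_ne_zero hW) hg0)
    calc |((ArithmeticFunction.moebius g : ℤ) : ℝ)| * _ ≤ 1 * 1 :=
          mul_le_mul hmu h6 (abs_nonneg _) zero_le_one
      _ = 1 := one_mul 1
  refine (sum_le_sum h3).trans ?_
  rw [sum_const, nsmul_eq_mul, mul_one]
  exact_mod_cast card_le_card (Nat.divisors_subset_of_dvd hN hdvd)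

open Classical in
/-- the terms -/
private noncomputable def S7_J (N W b y : ℕ) (c : ℕ → ℝ) (d e : ℕ) : ℝ :=
  if d * e ≤ y ∧ d * e ≡ b [MOD W] ∧ e.Coprime N then c d else 0

open Classical in
private theorem S7_swap {N W : ℕ} {c : ℕ → ℝ} (hc : RC (W * N) c) {b : ℕ} (hb : b.Coprime W)
    (y : ℕ) : ∑ n ∈ (Finset.Icc 1 y).filter (fun n => n ≡ b [MOD W]), rs (W * N) c n =
      ∑ d ∈ Finset.Icc 1 y, ∑ e ∈ Finset.Icc 1 y, S7_J N W b y c d e := by
  have h1 : ∀ n ∈ (Finset.Icc 1 y).filter (fun n => n ≡ b [MOD W]), rs (W * N) c n =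
      ∑ d ∈ Finset.Icc 1 y, if d ∣ n ∧ n.Coprime (W * N) then c d else 0 := by
    intro n hn
    rw [mem_filter, Finset.mem_Icc] at hn
    unfold rs
    by_cases hco : n.Coprime (W * N)
    · rw [if_pos hco]
      unfold rr
      have e0 : ∀ d ∈ Finset.Icc 1 y, (if d ∣ n ∧ n.Coprime (W * N) then c d else 0) =
          if d ∣ n then c d else 0 := fun d _ => if_congr (and_iff_left hco) rfl rfl
      rw [sum_congr rfl e0, ← sum_filter]
      refine sum_congr ?_ fun _ _ => rfl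
      ext a
      rw [Nat.mem_divisors, mem_filter, Finset.mem_Icc]
      constructor
      · rintro ⟨h, _⟩
        have h2 := Nat.le_of_dvd (by omega) h
        have h4 : 0 < a := Nat.pos_of_dvd_of_pos h (by omega)
        exact ⟨⟨h4, by omega⟩, h⟩
      · rintro ⟨_, h⟩
        exact ⟨h, by omega⟩
    · rw [if_neg hco]
      exact (sum_eq_zero fun d _ => if_neg (fun h => hco h.2)).symm
  rw [sum_congr rfl h1, sum_comm]
  refine sum_congr rfl fun d hd => ?_
  rw [Finset.mem_Icc] at hd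
  have hd0 : 0 < d := hd.1
  by_cases hcd : c d = 0
  · have e1 : ∀ n ∈ (Finset.Icc 1 y).filter (fun n => n ≡ b [MOD W]),
        (if d ∣ n ∧ n.Coprime (W * N) then c d else 0) = 0 := by
      intro n _
      rw [hcd]; simp
    have e2 : ∀ e ∈ Finset.Icc 1 y, S7_J N W b y c d e = 0 := by
      intro e _
      unfold S7_J
      rw [hcd]; simp
    rw [sum_eq_zero e1, sum_eq_zero e2]
  · have hdM : d.Coprime (W * N) := by
      by_contra h
      exact hcd (hc.zero d h)
    have hdW : d.Coprime W := Nat.Coprime.coprime_dvd_right (dvd_mul_right W N) hdM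
    have hdN : d.Coprime N := Nat.Coprime.coprime_dvd_right (dvd_mul_left N W) hdM
    unfold S7_J
    rw [← sum_filter, ← sum_filter, filter_filter]
    symm
    refine sum_nbij' (fun e => d * e) (fun n => n / d) ?_ ?_ ?_ ?_ ?_
    · intro e he
      rw [mem_filter, Finset.mem_Icc] at he
      rw [mem_filter, Finset.mem_Icc]
      refine ⟨⟨Nat.mul_pos hd0 he.1.1, he.2.1⟩, he.2.2.1, dvd_mul_right d e, ?_⟩
      refine Nat.Coprime.mul_right ?_ (Nat.Coprime.mul_left hdN he.2.2.2)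
      rw [Nat.Coprime, he.2.2.1.gcd_eq]
      exact hb
    · intro n hn
      rw [mem_filter, Finset.mem_Icc] at hn
      obtain ⟨e, rfl⟩ := hn.2.2.1
      rw [Nat.mul_div_cancel_left e hd0]
      rw [mem_filter, Finset.mem_Icc]
      have he0 : 0 < e := by
        rcases Nat.eq_zero_or_pos e with h | h
        · rw [h, mul_zero] at hn
          omega
        · exact h
      refine ⟨⟨he0, le_trans (Nat.le_mul_of_pos_left e hd0) hn.1.2⟩, hn.1.2, hn.2.1, ?_⟩
      exact Nat.Coprime.coprime_dvd_right (dvd_mul_left N W)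
        (Nat.Coprime.coprime_mul_left hn.2.2.2)
    · intro e _
      exact Nat.mul_div_cancel_left e hd0
    · intro n hn
      rw [mem_filter, Finset.mem_Icc] at hn
      exact Nat.mul_div_cancel' hn.2.2.1
    · intro e _
      rfl

private theorem S7_abs {N : ℕ} {c : ℕ → ℝ} (hc : RC N c) (n : ℕ) : |c n| ≤ 1 := by
  by_cases h : n.Coprime N
  · rcases hc.val n h with h1 | h1
    · rw [h1, abs_one]
    · rw [h1, abs_neg, abs_one]
  · rw [hc.zero n h, abs_zero]
    exact zero_le_one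

private theorem S7_harm (n : ℕ) : ∑ a ∈ Finset.Icc 1 n, (1 : ℝ) / a ≤ 1 + Real.log n := by
  have h := harmonic_le_one_add_log n
  rw [harmonic_eq_sum_Icc] at h
  push_cast at h
  refine le_trans (le_of_eq ?_) h
  exact Finset.sum_congr rfl fun a _ => one_div _

/-- residue -/
private theorem S7_inv {W d b : ℕ} (hW : W ≠ 0) (hd : d.Coprime W) (hb : b.Coprime W) :
    ∃ b' : ℕ, b'.Coprime W ∧ ∀ e : ℕ, d * e ≡ b [MOD W] ↔ e ≡ b' [MOD W] := by
  have : NeZero W := ⟨hW⟩
  set a' : ℕ := (((d : ZMod W))⁻¹ * (b : ZMod W)).val with ha'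
  have e1 : d * a' ≡ b [MOD W] := by
    rw [← ZMod.natCast_eq_natCast_iff]
    push_cast
    rw [ha', ZMod.natCast_val, ZMod.cast_id', id, ← mul_assoc, ZMod.coe_mul_inv_eq_one d hd, one_mul]
  have e2 : (d * a').Coprime W := by
    have := e1.gcd_eq
    rw [Nat.Coprime, this]
    exact hb
  refine ⟨a', Nat.Coprime.coprime_mul_left e2, fun e => ⟨fun h => ?_, fun h => ?_⟩⟩
  · exact Nat.ModEq.cancel_left_of_coprime (by rw [Nat.gcd_comm]; exact hd) (h.trans e1.symm)
  · exact (Nat.ModEq.mul_left d h).trans e1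

open Classical in
private theorem S7_rowcard {N W b y : ℕ} (c : ℕ → ℝ) {d : ℕ} (hd : 0 < d) :
    ∑ e ∈ Finset.Icc 1 y, S7_J N W b y c d e =
      c d * (((Finset.Icc 1 (y / d)).filter fun e => d * e ≡ b [MOD W] ∧ e.Coprime N).card : ℝ) := by
  unfold S7_J
  have e0 : (Finset.Icc 1 y).filter (fun e => d * e ≤ y ∧ d * e ≡ b [MOD W] ∧ e.Coprime N) =
      (Finset.Icc 1 (y / d)).filter fun e => d * e ≡ b [MOD W] ∧ e.Coprime N := by
    ext e
    rw [mem_filter, mem_filter, Finset.mem_Icc, Finset.mem_Icc, Nat.le_div_iff_mul_le hd]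
    constructor
    · rintro ⟨⟨h1, h2⟩, h3, h4⟩
      exact ⟨⟨h1, by rw [mul_comm]; exact h3⟩, h4⟩
    · rintro ⟨⟨h1, h2⟩, h4⟩
      refine ⟨⟨h1, ?_⟩, by rw [mul_comm]; exact h2, h4⟩
      exact le_trans (Nat.le_mul_of_pos_right e hd) h2
  rw [← sum_filter, sum_const, nsmul_eq_mul, mul_comm, e0]

/-- trivial bound -/
private theorem S7_triv {N W : ℕ} {c : ℕ → ℝ} (hc : RC (W * N) c) {b y : ℕ} :
    |∑ d ∈ Finset.Icc 1 y, ∑ e ∈ Finset.Icc 1 y, S7_J N W b y c d e| ≤ y * (1 + Real.log y) := by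
  classical
  refine (abs_sum_le_sum_abs _ _).trans ?_
  have h1 : ∀ d ∈ Finset.Icc 1 y, |∑ e ∈ Finset.Icc 1 y, S7_J N W b y c d e| ≤ y * (1 / (d : ℝ)) := by
    intro d hd
    rw [Finset.mem_Icc] at hd
    rw [S7_rowcard c hd.1, abs_mul, abs_of_nonneg (Nat.cast_nonneg _ : (0 : ℝ) ≤ _)]
    have h2 : (((Finset.Icc 1 (y / d)).filter fun e => d * e ≡ b [MOD W] ∧ e.Coprime N).card : ℝ) ≤
        (y : ℝ) / d := by
      refine le_trans ?_ (Nat.cast_div_le (α := ℝ) (m := y) (n := d))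
      have := card_le_card (filter_subset (fun e => d * e ≡ b [MOD W] ∧ e.Coprime N)
        (Finset.Icc 1 (y / d)))
      rw [Nat.card_Icc, Nat.add_sub_cancel] at this
      exact_mod_cast this
    calc |c d| * _ ≤ 1 * ((y : ℝ) / d) :=
          mul_le_mul (S7_abs hc d) h2 (Nat.cast_nonneg _) zero_le_one
      _ = y * (1 / (d : ℝ)) := by ring
  refine (sum_le_sum h1).trans ?_
  rw [← mul_sum]
  exact mul_le_mul_of_nonneg_left (S7_harm y) (Nat.cast_nonneg y)

private theorem S7_dd_le {N W : ℕ} (hN : N ≠ 0) (hW : W ≠ 0) : 0 ≤ dd N W ∧ dd N W ≤ 1 := by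
  have h0 : 0 ≤ dd N W := by unfold dd del; positivity
  refine ⟨h0, ?_⟩
  unfold dd del
  have h1 : (1 : ℝ) ≤ W.totient := by
    have : 1 ≤ W.totient := Nat.totient_pos.2 (Nat.pos_of_ne_zero hW)
    exact_mod_cast this
  have h2 : ((W * N).totient : ℝ) / ((W * N : ℕ) : ℝ) ≤ 1 := by
    apply div_le_one_of_le₀ _ (Nat.cast_nonneg _)
    exact_mod_cast Nat.totient_le _
  rw [div_le_one (by linarith)]
  linarith

private theorem S7_part1 {N W : ℕ} (hN : N ≠ 0) (hW : W ≠ 0) {c : ℕ → ℝ} {L : ℝ}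
    (hc : RC (W * N) c) (hL : LV (W * N) c L) {b : ℕ} (hb : b.Coprime W) {y A : ℕ} (hA : 1 ≤ A) :
    |∑ d ∈ Finset.Icc 1 A, ∑ e ∈ Finset.Icc 1 y, S7_J N W b y c d e - dd N W * L * y| ≤
      A * ((N.divisors.card : ℝ) + 1) + 2 * (y / A) * PB (W * N) := by
  classical
  have hP0 : 0 ≤ PB (W * N) := (abs_nonneg _).trans (hc.pv 0)
  obtain ⟨hdd0, hdd1⟩ := S7_dd_le hN hW
  have hA0 : (0 : ℝ) < A := by exact_mod_cast hA
  have h1 : |∑ d ∈ Finset.Icc 1 A, ∑ e ∈ Finset.Icc 1 y, S7_J N W b y c d e -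
      ∑ d ∈ Finset.Icc 1 A, dd N W * y * (c d / d)| ≤ A * ((N.divisors.card : ℝ) + 1) := by
    rw [← sum_sub_distrib]
    refine (abs_sum_le_sum_abs _ _).trans ?_
    have h2 : ∀ d ∈ Finset.Icc 1 A, |∑ e ∈ Finset.Icc 1 y, S7_J N W b y c d e -
        dd N W * y * (c d / d)| ≤ (N.divisors.card : ℝ) + 1 := by
      intro d hd
      rw [Finset.mem_Icc] at hd
      have hd0 : (0 : ℝ) < d := by exact_mod_cast hd.1
      rw [S7_rowcard c hd.1]
      have e1 : c d * (((Finset.Icc 1 (y / d)).filter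
          fun e => d * e ≡ b [MOD W] ∧ e.Coprime N).card : ℝ) - dd N W * y * (c d / d) =
          c d * ((((Finset.Icc 1 (y / d)).filter
          fun e => d * e ≡ b [MOD W] ∧ e.Coprime N).card : ℝ) - dd N W * (y / d)) := by ring
      rw [e1, abs_mul]
      by_cases hdM : d.Coprime (W * N)
      · have hdW : d.Coprime W := Nat.Coprime.coprime_dvd_right (dvd_mul_right W N) hdM
        obtain ⟨b', hb', hiff⟩ := S7_inv hW hdW hb
        have e2 : ((Finset.Icc 1 (y / d)).filter fun e => d * e ≡ b [MOD W] ∧ e.Coprime N) =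
            (Finset.Icc 1 (y / d)).filter fun e => e ≡ b' [MOD W] ∧ e.Coprime N :=
          filter_congr fun e _ => by rw [hiff e]
        rw [e2]
        have h3 := S7_cnt hN hW hb' (y / d)
        have h4 : |dd N W * ((y / d : ℕ) : ℝ) - dd N W * ((y : ℝ) / d)| ≤ 1 := by
          rw [← mul_sub, abs_mul, abs_of_nonneg hdd0]
          have h5 : ((y / d : ℕ) : ℝ) ≤ (y : ℝ) / d := Nat.cast_div_le
          have h6 : (y : ℝ) / d < ((y / d : ℕ) : ℝ) + 1 := by
            rw [div_lt_iff₀ hd0]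
            have h7 : y < (y / d + 1) * d := by
              have := Nat.lt_div_mul_add (a := y) (b := d) (by omega)
              calc y < y / d * d + d := this
                _ = (y / d + 1) * d := by ring
            exact_mod_cast h7
          have h8 : |((y / d : ℕ) : ℝ) - (y : ℝ) / d| ≤ 1 := by
            rw [abs_le]
            constructor <;> linarith
          calc dd N W * |((y / d : ℕ) : ℝ) - (y : ℝ) / d| ≤ 1 * 1 :=
                mul_le_mul hdd1 h8 (abs_nonneg _) zero_le_one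
            _ = 1 := one_mul 1
        have h9 : |(((Finset.Icc 1 (y / d)).filter fun e => e ≡ b' [MOD W] ∧ e.Coprime N).card : ℝ) -
            dd N W * (y / d)| ≤ (N.divisors.card : ℝ) + 1 := by
          have e3 : (((Finset.Icc 1 (y / d)).filter fun e => e ≡ b' [MOD W] ∧ e.Coprime N).card : ℝ) -
            dd N W * (y / d) = ((((Finset.Icc 1 (y / d)).filter
              fun e => e ≡ b' [MOD W] ∧ e.Coprime N).card : ℝ) - dd N W * ((y / d : ℕ) : ℝ)) +
              (dd N W * ((y / d : ℕ) : ℝ) - dd N W * ((y : ℝ) / d)) := by ring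
          rw [e3]
          exact (abs_add_le _ _).trans (add_le_add h3 h4)
        calc |c d| * _ ≤ 1 * ((N.divisors.card : ℝ) + 1) :=
              mul_le_mul (S7_abs hc d) h9 (abs_nonneg _) zero_le_one
          _ = _ := one_mul _
      · rw [hc.zero d hdM, abs_zero, zero_mul]
        positivity
    refine (sum_le_sum h2).trans (le_of_eq ?_)
    rw [sum_const, Nat.card_Icc, nsmul_eq_mul, Nat.add_sub_cancel]
  have h2 : |∑ d ∈ Finset.Icc 1 A, dd N W * y * (c d / d) - dd N W * L * y| ≤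
      2 * (y / A) * PB (W * N) := by
    rw [← mul_sum]
    have e2 : dd N W * y * ∑ d ∈ Finset.Icc 1 A, c d / d - dd N W * L * y =
        dd N W * (y * (∑ d ∈ Finset.Icc 1 A, c d / d - L)) := by ring
    rw [e2, abs_mul, abs_mul, abs_of_nonneg hdd0, abs_of_nonneg (Nat.cast_nonneg y : (0 : ℝ) ≤ y)]
    have h3 := hL.2 A hA
    calc dd N W * (y * |∑ d ∈ Finset.Icc 1 A, c d / d - L|) ≤ 1 * (y * (2 * PB (W * N) / A)) := by
          gcongr
      _ = 2 * (y / A) * PB (W * N) := by ring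
  have e3 : ∑ d ∈ Finset.Icc 1 A, ∑ e ∈ Finset.Icc 1 y, S7_J N W b y c d e - dd N W * L * y =
      (∑ d ∈ Finset.Icc 1 A, ∑ e ∈ Finset.Icc 1 y, S7_J N W b y c d e -
      ∑ d ∈ Finset.Icc 1 A, dd N W * y * (c d / d)) +
      (∑ d ∈ Finset.Icc 1 A, dd N W * y * (c d / d) - dd N W * L * y) := by ring
  rw [e3]
  exact (abs_add_le _ _).trans (add_le_add h1 h2)

open Classical in
private theorem S7_part2 {N W : ℕ} (hW : W ≠ 0) {c : ℕ → ℝ} (hc : RC (W * N) c)
    (hpv : ∀ a y : ℕ, |∑ n ∈ (range y).filter (fun n => n ≡ a [MOD W]), c n| ≤ PB (W * N))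
    {b : ℕ} (hb : b.Coprime W) {y A : ℕ} (hA : 1 ≤ A) :
    |∑ d ∈ Finset.Ioc A y, ∑ e ∈ Finset.Icc 1 y, S7_J N W b y c d e| ≤
      2 * (y / A) * PB (W * N) := by
  have hP0 : 0 ≤ PB (W * N) := (abs_nonneg _).trans (hc.pv 0)
  have hA0 : (0 : ℝ) < A := by exact_mod_cast hA
  rw [sum_comm]
  have h5 : ∀ e ∈ Finset.Icc 1 y, |∑ d ∈ Finset.Ioc A y, S7_J N W b y c d e| ≤
      if A * e ≤ y then 2 * PB (W * N) else 0 := by
    intro e he
    rw [Finset.mem_Icc] at he
    have e4 : (∑ d ∈ Finset.Ioc A y, S7_J N W b y c d e) =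
        ∑ d ∈ (Finset.Ioc A (y / e)).filter (fun d => d * e ≡ b [MOD W] ∧ e.Coprime N), c d := by
      unfold S7_J
      rw [← sum_filter]
      refine sum_congr ?_ fun _ _ => rfl
      ext a
      rw [mem_filter, mem_filter, Finset.mem_Ioc, Finset.mem_Ioc, Nat.le_div_iff_mul_le (by omega)]
      constructor
      · rintro ⟨⟨h1, _⟩, h2, h3⟩
        exact ⟨⟨h1, h2⟩, h3⟩
      · rintro ⟨⟨h1, h2⟩, h3⟩
        exact ⟨⟨h1, (Nat.le_mul_of_pos_right a (by omega)).trans h2⟩, h2, h3⟩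
    rw [e4]
    split_ifs with h6
    · by_cases hee : e.Coprime N ∧ e.Coprime W
      · obtain ⟨b', hb', hiff⟩ := S7_inv hW hee.2 hb
        have e5 : ((Finset.Ioc A (y / e)).filter (fun d => d * e ≡ b [MOD W] ∧ e.Coprime N)) =
            (Finset.Ioc A (y / e)).filter (fun d => d ≡ b' [MOD W]) := by
          refine filter_congr fun d _ => ?_
          rw [mul_comm d e, hiff d]
          exact and_iff_left hee.1
        rw [e5]
        have hAe : A ≤ y / e := by
          rw [Nat.le_div_iff_mul_le (by omega)]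
          exact h6
        have e6 : ∑ d ∈ (range (y / e + 1)).filter (fun n => n ≡ b' [MOD W]), c d =
            ∑ d ∈ (range (A + 1)).filter (fun n => n ≡ b' [MOD W]), c d +
            ∑ d ∈ (Finset.Ioc A (y / e)).filter (fun n => n ≡ b' [MOD W]), c d := by
          rw [← sum_union]
          · rw [← filter_union]
            refine sum_congr ?_ fun _ _ => rfl
            congr 1
            ext a
            rw [mem_union, mem_range, mem_range, Finset.mem_Ioc]
            omega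
          · rw [disjoint_left]
            intro a h1 h2
            rw [mem_filter, mem_range] at h1
            rw [mem_filter, Finset.mem_Ioc] at h2
            omega
        have h7 := abs_le.1 (hpv b' (y / e + 1))
        have h8 := abs_le.1 (hpv b' (A + 1))
        rw [abs_le]
        constructor <;> linarith [h7.1, h7.2, h8.1, h8.2]
      · have e7 : ((Finset.Ioc A (y / e)).filter (fun d => d * e ≡ b [MOD W] ∧ e.Coprime N)) = ∅ := by
          rw [filter_eq_empty_iff]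
          intro d _ hd
          apply hee
          refine ⟨hd.2, ?_⟩
          have h1 : (d * e).Coprime W := by
            rw [Nat.Coprime, hd.1.gcd_eq]; exact hb
          exact Nat.Coprime.coprime_mul_left h1
        rw [e7, sum_empty, abs_zero]
        positivity
    · have h7 : Finset.Ioc A (y / e) = ∅ := by
        rw [Finset.Ioc_eq_empty_iff]
        intro h8
        apply h6
        have h9 : A ≤ y / e := h8.le
        rwa [Nat.le_div_iff_mul_le (by omega)] at h9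
      rw [h7, filter_empty, sum_empty, abs_zero]
  refine (abs_sum_le_sum_abs _ _).trans ((sum_le_sum h5).trans ?_)
  rw [← sum_filter, sum_const, nsmul_eq_mul]
  have h6 : (((Finset.Icc 1 y).filter (fun e => A * e ≤ y)).card : ℝ) ≤ (y : ℝ) / A := by
    have h1 : (Finset.Icc 1 y).filter (fun b => A * b ≤ y) = Finset.Icc 1 (y / A) := by
      ext b
      rw [mem_filter, Finset.mem_Icc, Finset.mem_Icc, Nat.le_div_iff_mul_le (by omega), mul_comm b A]
      constructor
      · rintro ⟨⟨h1, _⟩, h2⟩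
        exact ⟨h1, h2⟩
      · rintro ⟨h1, h2⟩
        refine ⟨⟨h1, ?_⟩, h2⟩
        exact (Nat.le_mul_of_pos_left b (by omega)).trans h2
    rw [h1, Nat.card_Icc, Nat.add_sub_cancel]
    exact Nat.cast_div_le
  calc (((Finset.Icc 1 y).filter (fun e => A * e ≤ y)).card : ℝ) * (2 * PB (W * N)) ≤
      (y : ℝ) / A * (2 * PB (W * N)) := mul_le_mul_of_nonneg_right h6 (by linarith)
    _ = 2 * (y / A) * PB (W * N) := by ring

open Classical in
theorem rs_class (W : ℕ) (hW : 1 ≤ W) : ∃ N0 : ℕ, ∀ N : ℕ, N0 ≤ N → ∀ (c : ℕ → ℝ) (L : ℝ), RC (W * N) c →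
    LV (W * N) c L →
    (∀ a y : ℕ, |∑ n ∈ (range y).filter (fun n => n ≡ a [MOD W]), c n| ≤ PB (W * N)) →
    ∀ b y : ℕ, b.Coprime W → 1 ≤ y →
    |∑ n ∈ (Finset.Icc 1 y).filter (fun n => n ≡ b [MOD W]), rs (W * N) c n - dd N W * L * y| ≤
      Real.sqrt y * (N : ℝ) ^ ((3 : ℝ) / 10) := by
  obtain ⟨C1, hC1, hP⟩ := Pool.Agent.Lib.RG.PB_le (1 / 100) (by norm_num)
  have hWr1 : (1 : ℝ) ≤ W := by exact_mod_cast hW
  have hlW : 0 ≤ Real.log W := Real.log_nonneg hWr1
  have e1 := Pool.Agent.Lib.RH.ev_log_ge 1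
  have e2 := Pool.Agent.Lib.RH.ev_log_pow 1 (1 / 100) (by norm_num) (4 + Real.log W + 2 * C1)
    (by positivity)
  have e3 := Pool.Agent.Lib.RH.ev_log_pow 0 (4 / 100) (by norm_num) (2 * (C1 + 1) + 4 * C1 * W)
    (by positivity)
  obtain ⟨N0, hN0⟩ := Filter.eventually_atTop.mp (e1.and (e2.and (e3.and
    (Filter.eventually_ge_atTop 2))))
  refine ⟨N0, fun N hN c L hc hL hpv b y hb hy => ?_⟩
  obtain ⟨h1, h2, h3, h4⟩ := hN0 N hN
  rw [pow_one] at h2
  rw [pow_zero, mul_one] at h3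
  have hN1 : (1 : ℝ) ≤ N := by exact_mod_cast (by omega : 1 ≤ N)
  have hNp : (0 : ℝ) < N := by linarith
  have hy1 : (1 : ℝ) ≤ y := by exact_mod_cast hy
  have hyp : (0 : ℝ) < y := by linarith
  have hs1 : 1 ≤ Real.sqrt y := Real.one_le_sqrt.2 hy1
  have hss : Real.sqrt y * Real.sqrt y = y := Real.mul_self_sqrt hyp.le
  have hN' : N ≠ 0 := by omega
  have hW' : W ≠ 0 := by omega
  have hM2 : 2 ≤ W * N := le_trans h4 (Nat.le_mul_of_pos_left N hW)
  have hMr : ((W * N : ℕ) : ℝ) = W * N := by push_cast; rfl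
  obtain ⟨hPB, -⟩ := hP (W * N) hM2
  obtain ⟨-, hdiv⟩ := hP N h4
  obtain ⟨hdd0, hdd1⟩ := S7_dd_le hN' hW'
  have hP0 : 0 ≤ PB (W * N) := (abs_nonneg _).trans (hc.pv 0)
  set t : ℝ := (N : ℝ) ^ ((1 : ℝ) / 100) with ht
  have ht1 : 1 ≤ t := Real.one_le_rpow hN1 (by norm_num)
  have ht0 : 0 < t := by linarith
  have pw : ∀ k : ℕ, (N : ℝ) ^ ((k : ℝ) / 100) = t ^ k := by
    intro k
    rw [ht, ← Real.rpow_natCast, ← Real.rpow_mul hNp.le]
    congr 1
    ring
  have p30 : (N : ℝ) ^ ((3 : ℝ) / 10) = t ^ 30 := by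
    rw [← pw 30]; norm_num
  have p4 : (N : ℝ) ^ ((4 : ℝ) / 100) = t ^ 4 := by
    rw [← pw 4]; norm_num
  have p51 : (N : ℝ) ^ ((1 : ℝ) / 2 + 1 / 100) = t ^ 51 := by
    rw [← pw 51]; norm_num
  have hPBN : PB (W * N) ≤ C1 * W * t ^ 51 := by
    refine hPB.trans ?_
    rw [hMr, Real.mul_rpow (by linarith) hNp.le, p51, mul_assoc]
    refine mul_le_mul_of_nonneg_left (mul_le_mul_of_nonneg_right ?_ (by positivity)) hC1.le
    calc (W : ℝ) ^ ((1 : ℝ) / 2 + 1 / 100) ≤ (W : ℝ) ^ (1 : ℝ) :=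
          Real.rpow_le_rpow_of_exponent_le hWr1 (by norm_num)
      _ = W := Real.rpow_one _
  have hdivt : (N.divisors.card : ℝ) ≤ C1 * t := hdiv
  rw [p4] at h3
  rw [p30, S7_swap hc hb y]
  set A : ℕ := ⌈Real.sqrt y * t ^ 25⌉₊ with hA
  have hx1 : 1 ≤ Real.sqrt y * t ^ 25 := by
    have : 1 ≤ t ^ 25 := one_le_pow₀ ht1
    nlinarith
  have hA1 : 1 ≤ A := by
    have : (1 : ℝ) ≤ A := hx1.trans (Nat.le_ceil _)
    exact_mod_cast this
  have hAle : (A : ℝ) ≤ 2 * (Real.sqrt y * t ^ 25) := by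
    have := (Nat.ceil_lt_add_one (a := Real.sqrt y * t ^ 25) (by positivity)).le
    linarith
  have hAge : Real.sqrt y * t ^ 25 ≤ A := Nat.le_ceil _
  have hA0 : (0 : ℝ) < A := by linarith
  by_cases hAy : A ≤ y
  · have hsplit : Finset.Icc 1 y = Finset.Icc 1 A ∪ Finset.Ioc A y := by
      ext a
      rw [Finset.mem_union, Finset.mem_Icc, Finset.mem_Icc, Finset.mem_Ioc]
      omega
    have hdis : Disjoint (Finset.Icc 1 A) (Finset.Ioc A y) := by
      rw [Finset.disjoint_left]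
      intro a h1 h2
      rw [Finset.mem_Icc] at h1
      rw [Finset.mem_Ioc] at h2
      omega
    have e5 : ∑ d ∈ Finset.Icc 1 y, ∑ e ∈ Finset.Icc 1 y, S7_J N W b y c d e =
        ∑ d ∈ Finset.Icc 1 A, ∑ e ∈ Finset.Icc 1 y, S7_J N W b y c d e +
        ∑ d ∈ Finset.Ioc A y, ∑ e ∈ Finset.Icc 1 y, S7_J N W b y c d e := by
      rw [← sum_union hdis, ← hsplit]
    have q1 := S7_part1 hN' hW' hc hL hb (y := y) hA1
    have q2 := S7_part2 hW' hc hpv hb (y := y) hA1
    have q3 : (A : ℝ) * ((N.divisors.card : ℝ) + 1) ≤ 2 * (C1 + 1) * (Real.sqrt y * t ^ 26) := by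
      calc (A : ℝ) * ((N.divisors.card : ℝ) + 1) ≤ (2 * (Real.sqrt y * t ^ 25)) * (C1 * t + t) := by
            gcongr
        _ = 2 * (C1 + 1) * (Real.sqrt y * t ^ 26) := by ring
    have q4 : ((y : ℝ) / A) * PB (W * N) ≤ C1 * W * (Real.sqrt y * t ^ 26) := by
      have e6 : (y : ℝ) / A ≤ Real.sqrt y / t ^ 25 := by
        rw [div_le_div_iff₀ hA0 (by positivity)]
        calc (y : ℝ) * t ^ 25 = Real.sqrt y * (Real.sqrt y * t ^ 25) := by rw [← mul_assoc, hss]
          _ ≤ Real.sqrt y * A := mul_le_mul_of_nonneg_left hAge (Real.sqrt_nonneg _)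
      calc ((y : ℝ) / A) * PB (W * N) ≤ (Real.sqrt y / t ^ 25) * (C1 * W * t ^ 51) :=
            mul_le_mul e6 hPBN hP0 (by positivity)
        _ = C1 * W * (Real.sqrt y * t ^ 26) := by
            field_simp
    rw [e5]
    have e7 : ∑ d ∈ Finset.Icc 1 A, ∑ e ∈ Finset.Icc 1 y, S7_J N W b y c d e +
        ∑ d ∈ Finset.Ioc A y, ∑ e ∈ Finset.Icc 1 y, S7_J N W b y c d e - dd N W * L * y =
        (∑ d ∈ Finset.Icc 1 A, ∑ e ∈ Finset.Icc 1 y, S7_J N W b y c d e - dd N W * L * y) +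
        ∑ d ∈ Finset.Ioc A y, ∑ e ∈ Finset.Icc 1 y, S7_J N W b y c d e := by ring
    rw [e7]
    refine (abs_add_le _ _).trans ((add_le_add q1 q2).trans ?_)
    have q5 : (2 * (C1 + 1) + 4 * C1 * W) * (Real.sqrt y * t ^ 26) ≤
        t ^ 4 * (Real.sqrt y * t ^ 26) := mul_le_mul_of_nonneg_right h3 (by positivity)
    have q6 : t ^ 4 * (Real.sqrt y * t ^ 26) = Real.sqrt y * t ^ 30 := by ring
    nlinarith [q3, q4, q5, q6]
  · have hyA : (y : ℝ) < Real.sqrt y * t ^ 25 := Nat.lt_ceil.1 (not_le.1 hAy)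
    have hsy : Real.sqrt y < t ^ 25 := by
      by_contra hcon
      push Not at hcon
      have : Real.sqrt y * t ^ 25 ≤ Real.sqrt y * Real.sqrt y :=
        mul_le_mul_of_nonneg_left hcon (Real.sqrt_nonneg _)
      linarith
    have hyN : (y : ℝ) ≤ N := by
      have h5 : (y : ℝ) ≤ t ^ 25 * t ^ 25 := by
        rw [← hss]
        exact mul_le_mul hsy.le hsy.le (Real.sqrt_nonneg _) (by positivity)
      have h6 : t ^ 25 * t ^ 25 ≤ t ^ 100 := by
        rw [← pow_add]
        exact pow_le_pow_right₀ ht1 (by norm_num)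
      have h7 : t ^ 100 = N := by
        rw [← pw 100]; norm_num
      linarith
    have hlogy : Real.log y ≤ Real.log N := Real.log_le_log hyp hyN
    have q1 := S7_triv hc (b := b) (y := y)
    have hLb := S1_L_le hM2 hc hL
    have q2 : 2 * PB (W * N) / ((W * N : ℕ) : ℝ) ≤ 2 * C1 := by
      have hMp : (0 : ℝ) < ((W * N : ℕ) : ℝ) := by
        have : 0 < W * N := by omega
        exact_mod_cast this
      rw [div_le_iff₀ hMp]
      have hM1 : (1 : ℝ) ≤ ((W * N : ℕ) : ℝ) := by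
        have : 1 ≤ W * N := by omega
        exact_mod_cast this
      have h6 : ((W * N : ℕ) : ℝ) ^ ((1 : ℝ) / 2 + 1 / 100) ≤ ((W * N : ℕ) : ℝ) := by
        calc ((W * N : ℕ) : ℝ) ^ ((1 : ℝ) / 2 + 1 / 100) ≤ ((W * N : ℕ) : ℝ) ^ (1 : ℝ) :=
              Real.rpow_le_rpow_of_exponent_le hM1 (by norm_num)
          _ = ((W * N : ℕ) : ℝ) := Real.rpow_one _
      have h7 := hPB.trans (mul_le_mul_of_nonneg_left h6 hC1.le)
      linarith
    have q3 : Real.log ((W * N : ℕ) : ℝ) = Real.log W + Real.log N := by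
      rw [hMr, Real.log_mul (by linarith) hNp.ne']
    have q4 : |dd N W * L * y| ≤ y * (1 + Real.log W + Real.log N + 2 * C1) := by
      have hL0 := hL.1
      rw [abs_of_nonneg (by positivity)]
      have : dd N W * L ≤ 1 * (1 + Real.log W + Real.log N + 2 * C1) := by
        refine mul_le_mul hdd1 ?_ hL0 zero_le_one
        linarith
      calc dd N W * L * y ≤ (1 * (1 + Real.log W + Real.log N + 2 * C1)) * y :=
            mul_le_mul_of_nonneg_right this hyp.le
        _ = y * (1 + Real.log W + Real.log N + 2 * C1) := by ring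
    have q5 : (2 : ℝ) + 2 * Real.log N + Real.log W + 2 * C1 ≤ t := by
      refine le_trans ?_ h2
      have hl1 : 1 ≤ Real.log N := h1
      nlinarith
    calc |∑ d ∈ Finset.Icc 1 y, ∑ e ∈ Finset.Icc 1 y, S7_J N W b y c d e - dd N W * L * y|
        ≤ |∑ d ∈ Finset.Icc 1 y, ∑ e ∈ Finset.Icc 1 y, S7_J N W b y c d e| + |dd N W * L * y| :=
          abs_sub _ _
      _ ≤ y * (1 + Real.log y) + y * (1 + Real.log W + Real.log N + 2 * C1) := add_le_add q1 q4
      _ ≤ y * (2 + 2 * Real.log N + Real.log W + 2 * C1) := by nlinarith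
      _ ≤ (Real.sqrt y * t ^ 25) * t := mul_le_mul hyA.le q5 (by positivity) (by positivity)
      _ = Real.sqrt y * t ^ 26 := by ring
      _ ≤ Real.sqrt y * t ^ 30 := by
          refine mul_le_mul_of_nonneg_left (pow_le_pow_right₀ ht1 (by norm_num)) (Real.sqrt_nonneg _)

end Pool.Agent.Lib.OW
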