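import Pool.Agent.Lib.MP_7b7e48_nt.OW.T0
import Pool.Agent.Lib.MP_7b7e48_nt.LG.LA2

/-!
# Module T3 (60 minutes): the sum of `lam m / m` over the numbers coprime to `N`

`K = log N`. PROOF. `1_{(m,N)=1} = ∑_{d ∣ (m,N)} μ(d)` and `lam (d m') = lam d lam m'`, `μ(d) lam d = 1` for squarefree `d`: the sum is `∑_{d ∣ N squarefree, d ≤ Y} (1/d) ∑_{m' ≤ Y/d} lam m'/m'`. For `d ≤ √Y`: `LG.LA2` with exponent `A'`, `A' θ ≥ A + 2`: `≤ C (4/K^θ)^(A')` (`Y/d ≥ √Y`, natural quotient `≥ √Y - 1`),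
and `∑ 1/d ≤ K` (`sqf_sum`). For `d > √Y`: `|∑_{m' ≤ z} lam m'/m'| ≤ C` (`LA2` with `A = 0` for `z ≥ 2`; `z = 1` trivial) and `sqf_tail` with `A + 1`. The second statement is the same with `LG.LA0` in place of `LA2`.
-/

open Finset
open Pool.Agent.Lib.MP_45349e_nt.LS (lam)

namespace Pool.Agent.Lib.OW

open Pool.Agent.Lib.RG (RC LV rr SS PB)

open Classical in
private theorem t3_cop (N : ℕ) (hN : N ≠ 0) (f : ℕ → ℝ) (R : Finset ℕ) :
    ∑ n ∈ R.filter (fun n => n.Coprime N), f n =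
      ∑ d ∈ N.divisors.filter (fun d => Squarefree d), ((ArithmeticFunction.moebius d : ℤ) : ℝ) *
        ∑ n ∈ R.filter (fun n => d ∣ n), f n := by
  have h1 : ∀ n ∈ R, (if n.Coprime N then f n else 0) =
      ∑ d ∈ N.divisors, (if d ∣ n then ((ArithmeticFunction.moebius d : ℤ) : ℝ) * f n else 0) := by
    intro n hn
    have h2 : ∑ d ∈ (Nat.gcd n N).divisors, (ArithmeticFunction.moebius d : ℤ) =
        if Nat.gcd n N = 1 then 1 else 0 := by
      have h := ArithmeticFunction.coe_mul_zeta_apply (f := ArithmeticFunction.moebius)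
        (x := Nat.gcd n N)
      rw [ArithmeticFunction.moebius_mul_coe_zeta] at h
      rw [← h, ArithmeticFunction.one_apply]
    have h3 : ∑ d ∈ N.divisors, (if d ∣ n then ((ArithmeticFunction.moebius d : ℤ) : ℝ) * f n else 0) =
        ((∑ d ∈ (Nat.gcd n N).divisors, (ArithmeticFunction.moebius d : ℤ) : ℤ) : ℝ) * f n := by
      rw [← sum_filter, Int.cast_sum, sum_mul]
      refine sum_congr ?_ fun _ _ => rfl
      ext d
      simp only [mem_filter, Nat.mem_divisors]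
      constructor
      · rintro ⟨⟨h4, _⟩, h5⟩
        exact ⟨Nat.dvd_gcd h5 h4, Nat.gcd_ne_zero_right hN⟩
      · rintro ⟨h4, _⟩
        exact ⟨⟨h4.trans (Nat.gcd_dvd_right _ _), hN⟩, h4.trans (Nat.gcd_dvd_left _ _)⟩
    rw [h3, h2]
    by_cases hc : n.Coprime N
    · have hc' : Nat.gcd n N = 1 := hc
      rw [if_pos hc, if_pos hc']; simp
    · have hc' : ¬ Nat.gcd n N = 1 := hc
      rw [if_neg hc, if_neg hc']; simp
  rw [sum_filter, sum_congr rfl h1, sum_comm, sum_filter]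
  refine sum_congr rfl fun d _ => ?_
  by_cases hd : Squarefree d
  · rw [if_pos hd, mul_sum, sum_filter]
  · rw [if_neg hd]
    refine sum_eq_zero fun n _ => ?_
    rw [ArithmeticFunction.moebius_eq_zero_of_not_squarefree hd]
    simp

open Classical in
private theorem t3_tail (θ : ℝ) (h0 : 0 < θ) (h1 : θ ≤ 1) (A : ℕ) : ∃ N0 : ℕ, ∀ N : ℕ, N0 ≤ N → ∀ y : ℝ,
    Real.exp ((Real.log N) ^ θ) ≤ y →
    ∑ d ∈ N.divisors.filter (fun d : ℕ => Squarefree d ∧ Real.sqrt y < (d : ℝ)), 1 / (d : ℝ) ≤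
      1 / (Real.log N) ^ A := by
  obtain ⟨N1, hN1⟩ := sqf_tail θ h0 h1 A
  refine ⟨N1, fun N hN y hy => ?_⟩
  have h := hN1 N hN y hy
  first
  | exact h
  | (refine le_trans ?_ h
     have hinj : Set.InjOn (fun d : ℕ => (d : ℝ))
         (N.divisors.filter (fun d : ℕ => Squarefree d ∧ Real.sqrt y < (d : ℝ)) : Set ℕ) :=
       fun a _ b _ hab => Nat.cast_injective hab
     have e1 : ∑ d ∈ N.divisors.filter (fun d : ℕ => Squarefree d ∧ Real.sqrt y < (d : ℝ)),
         1 / (d : ℝ) = ∑ r ∈ (N.divisors.filter (fun d : ℕ => Squarefree d ∧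
         Real.sqrt y < (d : ℝ))).image (fun d : ℕ => (d : ℝ)), 1 / r := (sum_image hinj).symm
     rw [e1]
     refine sum_le_sum_of_subset_of_nonneg ?_ ?_
     · intro r hr
       obtain ⟨d, hd, rfl⟩ := mem_image.mp hr
       have h2 := mem_filter.mp hd
       have h3 : (d : ℝ) ≠ 0 := by
         exact_mod_cast (Nat.pos_of_mem_divisors h2.1).ne'
       refine mem_filter.mpr ⟨?_, ?_, h2.2.2⟩
       · simp only [Finset.bind_def, Finset.mem_sup]
         exact ⟨d, h2.1, by simp⟩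
       · exact (IsUnit.mk0 _ h3).squarefree
     · intro r hr _
       have h2 := (mem_filter.mp hr).2.2
       have h3 : 0 ≤ r := (Real.sqrt_nonneg y).trans h2.le
       positivity)

open Classical in
private theorem t3_sum (θ : ℝ) (h0 : 0 < θ) (h1 : θ ≤ 1) (A A' : ℕ) (hA' : (A : ℝ) + 3 ≤ A' * θ)
    (C0 C1 : ℝ) (hC0 : 0 ≤ C0) (hC1 : 0 ≤ C1) : ∃ N0 : ℕ, ∀ N : ℕ, N0 ≤ N → ∀ y : ℝ,
    Real.exp ((Real.log N) ^ θ) ≤ y → ∀ g : ℕ → ℝ,
    (∀ d ∈ N.divisors, √y < d → g d ≤ C0 / d) →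
    (∀ d ∈ N.divisors, (d : ℝ) ≤ √y → g d ≤ C1 / (d * ((Real.log N) ^ θ) ^ A')) →
    ∑ d ∈ N.divisors.filter (fun d => Squarefree d), g d ≤ 1 / (Real.log N) ^ A := by
  obtain ⟨N1, hN1⟩ := t3_tail θ h0 h1 (A + 3)
  obtain ⟨N2, hN2⟩ := sqf_sum
  obtain ⟨N3, hN3⟩ := (((Real.tendsto_log_atTop.comp tendsto_natCast_atTop_atTop).eventually
    (Filter.eventually_ge_atTop (C0 + C1 + 1)))).exists_forall_of_atTop
  refine ⟨max N1 (max N2 N3), fun N hN y hy g hg0 hg1 => ?_⟩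
  have hK : C0 + C1 + 1 ≤ Real.log N := hN3 N ((le_max_right _ _).trans ((le_max_right _ _).trans hN))
  set K : ℝ := Real.log N with hKdef
  have hK1 : 1 ≤ K := by linarith
  have hK0 : 0 < K := by linarith
  have htail := hN1 N ((le_max_left _ _).trans hN) y hy
  have hsum := hN2 N ((le_max_left _ _).trans ((le_max_right _ _).trans hN))
  have hpow : K ^ (A + 3) ≤ (K ^ θ) ^ A' := by
    rw [← Real.rpow_natCast, ← Real.rpow_natCast, ← Real.rpow_mul hK0.le]
    refine Real.rpow_le_rpow_of_exponent_le hK1 ?_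
    push_cast
    linarith
  have hsplit : ∑ d ∈ N.divisors.filter (fun d => Squarefree d), g d =
      ∑ d ∈ N.divisors.filter (fun d : ℕ => Squarefree d ∧ √y < (d : ℝ)), g d +
      ∑ d ∈ N.divisors.filter (fun d : ℕ => Squarefree d ∧ ¬ √y < (d : ℝ)), g d := by
    rw [← sum_filter_add_sum_filter_not (N.divisors.filter (fun d => Squarefree d))
      (fun d : ℕ => √y < (d : ℝ)), filter_filter, filter_filter]
  have hA : ∑ d ∈ N.divisors.filter (fun d : ℕ => Squarefree d ∧ √y < (d : ℝ)), g d ≤ C0 / K ^ (A + 3) := by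
    calc ∑ d ∈ N.divisors.filter (fun d : ℕ => Squarefree d ∧ √y < (d : ℝ)), g d
        ≤ ∑ d ∈ N.divisors.filter (fun d : ℕ => Squarefree d ∧ √y < (d : ℝ)), C0 * (1 / (d : ℝ)) := by
          refine sum_le_sum fun d hd => ?_
          have h3 := mem_filter.mp hd
          have h4 := hg0 d h3.1 h3.2.2
          rw [mul_one_div]
          exact h4
      _ = C0 * ∑ d ∈ N.divisors.filter (fun d : ℕ => Squarefree d ∧ √y < (d : ℝ)), 1 / (d : ℝ) := by
          rw [mul_sum]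
      _ ≤ C0 * (1 / K ^ (A + 3)) := mul_le_mul_of_nonneg_left htail hC0
      _ = C0 / K ^ (A + 3) := by rw [mul_one_div]
  have hB : ∑ d ∈ N.divisors.filter (fun d : ℕ => Squarefree d ∧ ¬ √y < (d : ℝ)), g d ≤
      C1 / K ^ (A + 3) * K := by
    calc ∑ d ∈ N.divisors.filter (fun d : ℕ => Squarefree d ∧ ¬ √y < (d : ℝ)), g d
        ≤ ∑ d ∈ N.divisors.filter (fun d : ℕ => Squarefree d ∧ ¬ √y < (d : ℝ)), C1 / K ^ (A + 3) *
          (1 / (d : ℝ)) := by
          refine sum_le_sum fun d hd => ?_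
          have h3 := mem_filter.mp hd
          have h4 := hg1 d h3.1 (not_lt.mp h3.2.2)
          refine h4.trans ?_
          have hd0 : (0 : ℝ) < d := by
            exact_mod_cast Nat.pos_of_mem_divisors h3.1
          rw [div_mul_div_comm, mul_one, mul_comm (K ^ (A + 3))]
          exact div_le_div_of_nonneg_left hC1 (by positivity)
            (mul_le_mul_of_nonneg_left hpow hd0.le)
      _ = C1 / K ^ (A + 3) * ∑ d ∈ N.divisors.filter (fun d : ℕ => Squarefree d ∧ ¬ √y < (d : ℝ)), 1 / (d : ℝ) := by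
          rw [mul_sum]
      _ ≤ C1 / K ^ (A + 3) * K := by
          refine mul_le_mul_of_nonneg_left ?_ (by positivity)
          refine le_trans (sum_le_sum_of_subset_of_nonneg ?_ ?_) hsum
          · intro d hd
            have h3 := mem_filter.mp hd
            exact mem_filter.mpr ⟨h3.1, h3.2.1⟩
          · intro d _ _
            positivity
  rw [hsplit]
  have e1 : C0 / K ^ (A + 3) ≤ C0 / K ^ (A + 2) :=
    div_le_div_of_nonneg_left hC0 (by positivity) (pow_le_pow_right₀ hK1 (by omega))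
  have e2 : C1 / K ^ (A + 3) * K = C1 / K ^ (A + 2) := by
    rw [show A + 3 = (A + 2) + 1 from rfl, pow_succ K (A + 2)]
    field_simp
  have e3 : C0 / K ^ (A + 2) + C1 / K ^ (A + 2) ≤ 1 / K ^ A := by
    rw [← add_div, pow_add, div_le_div_iff₀ (by positivity) (by positivity), one_mul]
    have e4 : C0 + C1 ≤ K ^ 2 := by nlinarith
    have e5 : 0 < K ^ A := by positivity
    nlinarith
  linarith

private theorem t3_quot {y d : ℕ} (hd : 1 ≤ d) (hy : 16 ≤ y) (hdy : (d : ℝ) ≤ √(y : ℝ)) :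
    2 ≤ (y - 1) / d ∧ Real.log y / 4 ≤ Real.log (((y - 1) / d : ℕ) : ℝ) := by
  have hyR : (16 : ℝ) ≤ y := by exact_mod_cast hy
  have hd0 : (0 : ℝ) < d := by exact_mod_cast hd
  set t : ℝ := √(y : ℝ) with ht
  have ht4 : 4 ≤ t := by
    rw [ht]
    exact Real.le_sqrt_of_sq_le (by norm_num; exact_mod_cast hyR)
  have htt : t * t = y := Real.mul_self_sqrt (by linarith)
  have h1 : y - 1 < d * ((y - 1) / d + 1) := Nat.lt_mul_div_succ _ (by omega)
  have h2 : ((y : ℝ) - 1) < d * ((((y - 1) / d : ℕ) : ℝ) + 1) := by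
    have h3 : ((y - 1 : ℕ) : ℝ) < ((d * ((y - 1) / d + 1) : ℕ) : ℝ) := by exact_mod_cast h1
    rw [Nat.cast_sub (by omega)] at h3
    push_cast at h3
    exact h3
  set Q : ℝ := (((y - 1) / d : ℕ) : ℝ) with hQ
  have hQ0 : 0 ≤ Q := Nat.cast_nonneg _
  have h3 : t - 2 ≤ Q := by
    have h4 : (d : ℝ) * (Q + 1) ≤ t * (Q + 1) := mul_le_mul_of_nonneg_right hdy (by linarith)
    have h5 : t * t - 1 < t * (Q + 1) := by rw [htt]; linarith
    nlinarith
  have h6 : t / 2 ≤ Q := by linarith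
  constructor
  · have : (2 : ℝ) ≤ Q := by linarith
    rw [hQ] at this
    exact_mod_cast this
  · have h7 : √t ≤ Q := by
      refine le_trans ?_ h6
      rw [Real.sqrt_le_left (by linarith)]
      nlinarith
    have ht0 : 0 < t := by linarith
    have h8 : Real.log √t = Real.log y / 4 := by
      rw [Real.log_sqrt ht0.le, ht, Real.log_sqrt (by linarith)]
      ring
    rw [← h8]
    exact Real.log_le_log (Real.sqrt_pos.mpr ht0) h7

open Classical in
/-- multiples of `d` -/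
private theorem t3_mult (Y d : ℕ) (hd : 1 ≤ d) (f : ℕ → ℝ) :
    ∑ n ∈ (Finset.Icc 1 Y).filter (fun n => d ∣ n), f n =
      ∑ m ∈ Finset.Icc 1 (Y / d), f (d * m) := by
  symm
  refine sum_nbij (fun m => d * m) ?_ ?_ ?_ fun _ _ => rfl
  · intro m hm
    have h2 := mem_Icc.mp hm
    refine mem_filter.mpr ⟨mem_Icc.mpr ⟨?_, ?_⟩, Dvd.intro _ rfl⟩
    · exact Nat.mul_pos (by omega) (by omega)
    · exact (Nat.mul_le_mul_left d h2.2).trans (Nat.mul_div_le _ _)
  · intro m _ m' _ h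
    exact Nat.eq_of_mul_eq_mul_left (by omega) h
  · intro n hn
    have h1 := mem_filter.mp hn
    have h3 := mem_Icc.mp h1.1
    obtain ⟨m, hm⟩ := h1.2
    have hm' : d * m = n := hm.symm
    refine ⟨m, ?_, hm'⟩
    refine mem_coe.mpr (mem_Icc.mpr ⟨?_, ?_⟩)
    · rcases Nat.eq_zero_or_pos m with h | h
      · rw [h, mul_zero] at hm'
        omega
      · exact h
    · rw [Nat.le_div_iff_mul_le (by omega), mul_comm, hm']
      exact h3.2

private theorem t3_ab (d : ℕ) : |((ArithmeticFunction.moebius d : ℤ) : ℝ)| ≤ 1 := by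
  have h4 := ArithmeticFunction.abs_moebius_le_one (n := d)
  exact_mod_cast h4

/-- the general step -/
private theorem t3_gen (θ : ℝ) (h0 : 0 < θ) (h1 : θ ≤ 1) (A : ℕ) (f : ℕ → ℝ) (s : ℕ → ℝ)
    (C0 : ℝ) (hC0 : 0 ≤ C0) (hs : ∀ Y : ℕ, 1 ≤ Y → 0 < s Y)
    (hbig : ∀ A' : ℕ, ∃ C : ℝ, 0 < C ∧ ∀ Y d : ℕ, 1 ≤ d → 2 ≤ Y / d →
      |∑ m ∈ Finset.Icc 1 (Y / d), f (d * m)| / s Y ≤ C / (d * (Real.log ((Y / d : ℕ) : ℝ)) ^ A'))
    (htriv : ∀ Y d : ℕ, 1 ≤ Y → 1 ≤ d → |∑ m ∈ Finset.Icc 1 (Y / d), f (d * m)| / s Y ≤ C0 / d) :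
    ∃ N0 : ℕ, ∀ N : ℕ, N0 ≤ N → ∀ Y : ℕ, Real.exp ((Real.log N) ^ θ) ≤ Y →
    |∑ m ∈ (Finset.Icc 1 Y).filter (fun m => m.Coprime N), f m| / s Y ≤ 1 / (Real.log N) ^ A := by
  classical
  obtain ⟨A', hA'⟩ : ∃ A' : ℕ, (A : ℝ) + 3 ≤ A' * θ := by
    obtain ⟨k, hk⟩ := exists_nat_ge (((A : ℝ) + 3) / θ)
    refine ⟨k, ?_⟩
    rwa [div_le_iff₀ h0] at hk
  obtain ⟨C, hC, hcl⟩ := hbig A'
  obtain ⟨N1, hN1⟩ := t3_sum θ h0 h1 A A' hA' C0 (C * 4 ^ A') hC0 (by positivity)
  obtain ⟨N2, hN2⟩ := ((((tendsto_rpow_atTop h0).comp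
    (Real.tendsto_log_atTop.comp tendsto_natCast_atTop_atTop)).eventually
    (Filter.eventually_ge_atTop (16 : ℝ)))).exists_forall_of_atTop
  obtain ⟨N3, hN3⟩ := (((Real.tendsto_log_atTop.comp tendsto_natCast_atTop_atTop).eventually
    (Filter.eventually_ge_atTop (1 : ℝ)))).exists_forall_of_atTop
  refine ⟨max (max N1 2) (max N2 N3), fun N hN Y hY => ?_⟩
  have hNN1 : N1 ≤ N := (le_max_left _ _).trans ((le_max_left _ _).trans hN)
  have hN2' : 2 ≤ N := (le_max_right _ _).trans ((le_max_left _ _).trans hN)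
  have hK16 : (16 : ℝ) ≤ (Real.log N) ^ θ := hN2 N ((le_max_left _ _).trans ((le_max_right _ _).trans hN))
  have hK1 : (1 : ℝ) ≤ Real.log N := hN3 N ((le_max_right _ _).trans ((le_max_right _ _).trans hN))
  have hN0 : N ≠ 0 := by omega
  have hy16 : (16 : ℝ) ≤ Y := by
    have h2 := Real.add_one_le_exp ((Real.log N) ^ θ)
    linarith
  have hy16' : 16 ≤ Y := by exact_mod_cast hy16
  have hlogy : (Real.log N) ^ θ ≤ Real.log Y := by
    have h2 := Real.log_le_log (Real.exp_pos _) hY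
    rwa [Real.log_exp] at h2
  have hy0 : (0 : ℝ) < Y := by linarith
  set K : ℝ := Real.log N with hKdef
  have hsY := hs Y (by omega)
  rw [t3_cop N hN0 f _]
  have hfin := hN1 N hNN1 (Y : ℝ) hY
    (fun d => |∑ n ∈ (Finset.Icc 1 Y).filter (fun n => d ∣ n), f n| / s Y) (by
      intro d hd _
      have hdpos : 1 ≤ d := Nat.pos_of_mem_divisors hd
      rw [t3_mult Y d hdpos]
      exact htriv Y d (by omega) hdpos) (by
      intro d hd hdy
      have hdpos : 1 ≤ d := Nat.pos_of_mem_divisors hd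
      have hd0 : (0 : ℝ) < d := by exact_mod_cast hdpos
      rw [t3_mult Y d hdpos]
      obtain ⟨hq2, hqlog⟩ := t3_quot hdpos hy16' hdy
      have hle : (Y - 1) / d ≤ Y / d := Nat.div_le_div_right (Nat.sub_le _ _)
      have hq2' : 2 ≤ Y / d := hq2.trans hle
      refine (hcl Y d hdpos hq2').trans ?_
      have h2 : Real.log (((Y - 1) / d : ℕ) : ℝ) ≤ Real.log ((Y / d : ℕ) : ℝ) := by
        refine Real.log_le_log ?_ ?_
        · have : (2 : ℝ) ≤ (((Y - 1) / d : ℕ) : ℝ) := by exact_mod_cast hq2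
          linarith
        · exact_mod_cast hle
      have h4 : K ^ θ / 4 ≤ Real.log ((Y / d : ℕ) : ℝ) := by linarith
      have hKt : 0 < K ^ θ := by linarith
      have h5 : (K ^ θ / 4) ^ A' ≤ Real.log ((Y / d : ℕ) : ℝ) ^ A' :=
        pow_le_pow_left₀ (by positivity) h4 _
      have h6 : C / (d * Real.log ((Y / d : ℕ) : ℝ) ^ A') ≤ C / (d * (K ^ θ / 4) ^ A') :=
        div_le_div_of_nonneg_left hC.le (by positivity) (mul_le_mul_of_nonneg_left h5 hd0.le)
      refine h6.trans (le_of_eq ?_)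
      rw [div_pow, ← hKdef]
      field_simp)
  have h2 : |∑ d ∈ N.divisors.filter (fun d => Squarefree d), ((ArithmeticFunction.moebius d : ℤ) : ℝ) *
      ∑ n ∈ (Finset.Icc 1 Y).filter (fun n => d ∣ n), f n| ≤
      ∑ d ∈ N.divisors.filter (fun d => Squarefree d),
        |∑ n ∈ (Finset.Icc 1 Y).filter (fun n => d ∣ n), f n| := by
    refine (abs_sum_le_sum_abs _ _).trans (sum_le_sum fun d _ => ?_)
    rw [abs_mul]
    calc |((ArithmeticFunction.moebius d : ℤ) : ℝ)| *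
          |∑ n ∈ (Finset.Icc 1 Y).filter (fun n => d ∣ n), f n| ≤
          1 * |∑ n ∈ (Finset.Icc 1 Y).filter (fun n => d ∣ n), f n| :=
          mul_le_mul_of_nonneg_right (t3_ab d) (abs_nonneg _)
      _ = _ := one_mul _
  refine (div_le_div_of_nonneg_right h2 hsY.le).trans ?_
  rw [← sum_div] at hfin
  exact hfin

theorem lam_rec (θ : ℝ) (h0 : 0 < θ) (h1 : θ ≤ 1) (A : ℕ) : ∃ N0 : ℕ, ∀ N : ℕ, N0 ≤ N → ∀ Y : ℕ,
    Real.exp ((Real.log N) ^ θ) ≤ Y →
    |∑ m ∈ (Finset.Icc 1 Y).filter (fun m => m.Coprime N), lam m / m| ≤ 1 / (Real.log N) ^ A := by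
  obtain ⟨C2, hC2, h2⟩ := Pool.Agent.Lib.MP_7b7e48_nt.LG.LA2 0
  have hmul : ∀ Y d : ℕ, 1 ≤ d → ∑ m ∈ Finset.Icc 1 (Y / d), lam (d * m) / ((d * m : ℕ) : ℝ) =
      lam d / d * ∑ m ∈ Finset.Icc 1 (Y / d), lam m / m := by
    intro Y d hd
    rw [mul_sum]
    refine sum_congr rfl fun m hm => ?_
    have h3 := mem_Icc.mp hm
    rw [Pool.Agent.Lib.MP_45349e_nt.LS.lam_mul d m (by omega) (by omega)]
    push_cast
    rw [div_mul_div_comm]
  have habs : ∀ d : ℕ, |lam d / d| = 1 / d := by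
    intro d
    rw [abs_div, Pool.Agent.Lib.MP_45349e_nt.LS.abs_lam, Nat.abs_cast]
  obtain ⟨N0, hN0⟩ := t3_gen θ h0 h1 A (fun m => lam m / m) (fun _ => 1) (C2 + 1) (by positivity)
    (fun _ _ => one_pos) (by
      intro A'
      obtain ⟨C, hC, h⟩ := Pool.Agent.Lib.MP_7b7e48_nt.LG.LA2 A'
      refine ⟨C, hC, fun Y d hd hY => ?_⟩
      have hd0 : (0 : ℝ) < d := by exact_mod_cast hd
      rw [div_one, hmul Y d hd, abs_mul, habs]
      have h3 := h (Y / d) hY
      have h4 : C / (d * Real.log ((Y / d : ℕ) : ℝ) ^ A') =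
          1 / d * (C / Real.log ((Y / d : ℕ) : ℝ) ^ A') := by
        rw [div_mul_div_comm, one_mul]
      rw [h4]
      exact mul_le_mul_of_nonneg_left h3 (by positivity)) (by
      intro Y d _ hd
      have hd0 : (0 : ℝ) < d := by exact_mod_cast hd
      rw [div_one, hmul Y d hd, abs_mul, habs]
      have h4 : (C2 + 1) / (d : ℝ) = 1 / d * (C2 + 1) := by ring
      rw [h4]
      refine mul_le_mul_of_nonneg_left ?_ (by positivity)
      rcases Nat.lt_or_ge (Y / d) 2 with h5 | h5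
      · rcases Nat.lt_or_ge (Y / d) 1 with h6 | h6
        · have h7 : Y / d = 0 := Nat.lt_one_iff.mp h6
          rw [h7]
          simp
          positivity
        · have h7 : Y / d = 1 := le_antisymm (Nat.lt_succ_iff.mp h5) h6
          rw [h7]
          simp [Pool.Agent.Lib.MP_45349e_nt.LS.abs_lam]
          positivity
      · have h6 := h2 (Y / d) h5
        rw [pow_zero, div_one] at h6
        linarith)
  refine ⟨N0, fun N hN Y hY => ?_⟩
  have h3 := hN0 N hN Y hY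
  simp only [div_one] at h3
  exact h3

theorem lam_cop (θ : ℝ) (h0 : 0 < θ) (h1 : θ ≤ 1) (A : ℕ) : ∃ N0 : ℕ, ∀ N : ℕ, N0 ≤ N → ∀ Y : ℕ,
    Real.exp ((Real.log N) ^ θ) ≤ Y →
    |∑ m ∈ (Finset.Icc 1 Y).filter (fun m => m.Coprime N), lam m| ≤ Y / (Real.log N) ^ A := by
  have hmul : ∀ Y d : ℕ, 1 ≤ d → ∑ m ∈ Finset.Icc 1 (Y / d), lam (d * m) =
      lam d * ∑ m ∈ Finset.Icc 1 (Y / d), lam m := by
    intro Y d hd
    rw [mul_sum]
    refine sum_congr rfl fun m hm => ?_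
    have h3 := mem_Icc.mp hm
    exact Pool.Agent.Lib.MP_45349e_nt.LS.lam_mul d m (by omega) (by omega)
  obtain ⟨N0, hN0⟩ := t3_gen θ h0 h1 A lam (fun Y => (Y : ℝ)) 1 zero_le_one
    (fun Y hY => by exact_mod_cast hY) (by
      intro A'
      obtain ⟨C, hC, h⟩ := Pool.Agent.Lib.MP_7b7e48_nt.LG.LA0 A'
      refine ⟨C, hC, fun Y d hd hY => ?_⟩
      have hd0 : (0 : ℝ) < d := by exact_mod_cast hd
      have hY1 : 1 ≤ Y := by
        by_contra hcon
        have h5 : Y = 0 := by omega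
        rw [h5] at hY
        simp at hY
      have hY0 : (0 : ℝ) < Y := by exact_mod_cast hY1
      rw [hmul Y d hd, abs_mul, Pool.Agent.Lib.MP_45349e_nt.LS.abs_lam, one_mul]
      have h3 := h (Y / d) hY
      have h2 : (2 : ℝ) ≤ ((Y / d : ℕ) : ℝ) := by exact_mod_cast hY
      have hlog : 0 < Real.log ((Y / d : ℕ) : ℝ) := Real.log_pos (by linarith)
      have h5 : ((Y / d : ℕ) : ℝ) ≤ Y / d := Nat.cast_div_le
      rw [div_le_iff₀ hY0]
      have h6 : C / (d * Real.log ((Y / d : ℕ) : ℝ) ^ A') * Y =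
          C * (Y / d) / Real.log ((Y / d : ℕ) : ℝ) ^ A' := by
        field_simp
      rw [h6]
      refine h3.trans ?_
      exact div_le_div_of_nonneg_right (mul_le_mul_of_nonneg_left h5 hC.le) (by positivity)) (by
      intro Y d hY hd
      have hd0 : (0 : ℝ) < d := by exact_mod_cast hd
      have hY0 : (0 : ℝ) < Y := by exact_mod_cast hY
      rw [div_le_div_iff₀ hY0 hd0, one_mul]
      have h2 : |∑ m ∈ Finset.Icc 1 (Y / d), lam (d * m)| ≤ ((Y / d : ℕ) : ℝ) := by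
        refine (abs_sum_le_sum_abs _ _).trans ?_
        rw [sum_congr rfl fun m _ => Pool.Agent.Lib.MP_45349e_nt.LS.abs_lam (d * m)]
        rw [sum_const, nsmul_eq_mul, mul_one, Nat.card_Icc, Nat.add_sub_cancel]
      have h3 : ((Y / d : ℕ) : ℝ) * d ≤ Y := by
        exact_mod_cast Nat.div_mul_le_self Y d
      exact (mul_le_mul_of_nonneg_right h2 hd0.le).trans h3)
  obtain ⟨N3, hN3⟩ := (((Real.tendsto_log_atTop.comp tendsto_natCast_atTop_atTop).eventually
    (Filter.eventually_ge_atTop (1 : ℝ)))).exists_forall_of_atTop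
  refine ⟨max N0 N3, fun N hN Y hY => ?_⟩
  have h3 := hN0 N ((le_max_left _ _).trans hN) Y hY
  have hK1 : (1 : ℝ) ≤ Real.log N := hN3 N ((le_max_right _ _).trans hN)
  have hY0 : (0 : ℝ) < Y := (Real.exp_pos _).trans_le hY
  rw [div_le_div_iff₀ hY0 (by positivity), one_mul] at h3
  rw [le_div_iff₀ (by positivity)]
  exact h3

end Pool.Agent.Lib.OW
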