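import Mathlib
import Pool.Agent.Lib.MP_7b7e48_nt.OW.OD

/-!
# Module U2 (45 minutes): the sum of `h2 c b / b`

PROOF. `1 + ∑_{2 ≤ b ≤ y} h2 c b/b ≤ ∏_{q ∈ QP c y} (1 + 2/(q-1)) ≤ exp(4 sQ c y)` (`2/(q-1) ≤ 4/q`; `1 + ∑_{k ≥ 1} 2/q^k = 1 + 2/(q-1)`), and `exp x - 1 ≤ x exp x`, `4 exp 4 ≤ 220`.
(Finite Euler product: every `b ≤ y` with `h2 c b ≠ 0` is a product of powers `q^k`, `k ≤ y`, `q ∈ QP c y`.)
-/

open Finset

namespace Pool.Agent.Lib.OW

open Pool.Agent.Lib.RG (RC LV rr SS PB)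

/-- `2 ^ ω(n) / n` -/
private noncomputable def U2_f (n : ℕ) : ℝ := (2 : ℝ) ^ n.primeFactors.card / n

private theorem U2_f_nonneg (n : ℕ) : 0 ≤ U2_f n := by
  unfold U2_f; positivity

private theorem U2_f_one : U2_f 1 = 1 := by
  unfold U2_f
  simp

private theorem U2_f_mul {m n : ℕ} (h : m.Coprime n) : U2_f (m * n) = U2_f m * U2_f n := by
  unfold U2_f
  rw [h.primeFactors_mul, card_union_of_disjoint h.disjoint_primeFactors, pow_add]
  push_cast
  rw [mul_div_mul_comm]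

private theorem U2_f_pow {p : ℕ} (hp : p.Prime) (k : ℕ) :
    U2_f (p ^ (k + 1)) = 2 / p * (1 / (p : ℝ)) ^ k := by
  unfold U2_f
  rw [Nat.primeFactors_prime_pow (Nat.succ_ne_zero k) hp, card_singleton]
  push_cast
  have : (p : ℝ) ≠ 0 := by exact_mod_cast hp.ne_zero
  rw [one_div, inv_pow]
  field_simp
  ring

private theorem U2_geom {p : ℕ} (hp : p.Prime) :
    (Summable fun n => U2_f (p ^ n)) ∧ ∑' n : ℕ, U2_f (p ^ n) = 1 + 2 / ((p : ℝ) - 1) := by
  have h2 : (2 : ℝ) ≤ p := by exact_mod_cast hp.two_le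
  have h0 : (0 : ℝ) ≤ 1 / (p : ℝ) := by positivity
  have h1 : 1 / (p : ℝ) < 1 := by
    rw [div_lt_one (by linarith)]
    linarith
  have hs : Summable fun n : ℕ => U2_f (p ^ (n + 1)) := by
    simp only [U2_f_pow hp]
    exact (summable_geometric_of_lt_one h0 h1).mul_left _
  have hs2 : Summable fun n : ℕ => U2_f (p ^ n) := (summable_nat_add_iff 1).mp hs
  refine ⟨hs2, ?_⟩
  rw [hs2.tsum_eq_zero_add, pow_zero, U2_f_one]
  simp only [U2_f_pow hp]
  rw [tsum_mul_left, tsum_geometric_of_lt_one h0 h1]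
  have h3 : (p : ℝ) - 1 ≠ 0 := by linarith
  have h4 : (p : ℝ) ≠ 0 := by linarith
  have h5 : 1 - 1 / (p : ℝ) ≠ 0 := by linarith
  congr 1
  rw [one_sub_div h4, inv_div]
  field_simp

theorem h2_sum {M : ℕ} {c : ℕ → ℝ} (hc : RC M c) (y : ℕ) (h : sQ c y ≤ 1) :
    ∑ b ∈ Finset.Icc 2 y, h2 c b / b ≤ 220 * sQ c y := by
  classical
  have hs0 : 0 ≤ sQ c y := by
    unfold sQ
    exact sum_nonneg fun q _ => by positivity
  rcases Nat.lt_or_ge y 1 with hy | hy
  · rw [Icc_eq_empty (by omega), sum_empty]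
    positivity
  obtain ⟨hA, hB⟩ := EulerProduct.summable_and_hasSum_factoredNumbers_prod_filter_prime_tsum
    (f := U2_f) U2_f_one (fun {m n} => U2_f_mul) (fun {p} hp => (U2_geom hp).1.norm) (QP c y)
  have hle : ∑ b ∈ Finset.Icc 1 y, h2 c b / b ≤
      ∏ p ∈ (QP c y).filter Nat.Prime, ∑' n : ℕ, U2_f (p ^ n) := by
    rw [← hB.tsum_eq]
    have h1 : ∑ b ∈ Finset.Icc 1 y, h2 c b / b =
        ∑ b ∈ (Finset.Icc 1 y).filter (fun b => ∀ q : ℕ, q.Prime → q ∣ b → c q = 1), U2_f b := by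
      rw [sum_filter]
      refine sum_congr rfl fun b _ => ?_
      unfold h2 U2_f
      split_ifs <;> simp
    rw [h1]
    have hmem : ∀ b ∈ (Finset.Icc 1 y).filter (fun b => ∀ q : ℕ, q.Prime → q ∣ b → c q = 1),
        b ∈ Nat.factoredNumbers (QP c y) := by
      intro b hb
      rw [mem_filter, mem_Icc] at hb
      rw [Nat.mem_factoredNumbers]
      refine ⟨by omega, fun p hp => ?_⟩
      have hpp := Nat.prime_of_mem_primeFactorsList hp
      have hpd := Nat.dvd_of_mem_primeFactorsList hp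
      unfold QP
      simp only [mem_filter, mem_range]
      have := Nat.le_of_dvd (by omega) hpd
      exact ⟨by omega, hpp, hb.2 p hpp hpd⟩
    have hsub : ∑ b ∈ (Finset.Icc 1 y).filter (fun b => ∀ q : ℕ, q.Prime → q ∣ b → c q = 1),
        U2_f b = ∑ b ∈ ((Finset.Icc 1 y).filter
          (fun b => ∀ q : ℕ, q.Prime → q ∣ b → c q = 1)).subtype
            (fun b => b ∈ Nat.factoredNumbers (QP c y)), U2_f (b : ℕ) := by
      rw [sum_subtype_of_mem U2_f hmem]
    rw [hsub]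
    exact hB.summable.sum_le_tsum _ fun b _ => U2_f_nonneg _
  have hprod : ∏ p ∈ (QP c y).filter Nat.Prime, ∑' n : ℕ, U2_f (p ^ n) ≤
      Real.exp (4 * sQ c y) := by
    have h1 : (QP c y).filter Nat.Prime = QP c y := by
      refine filter_true_of_mem fun q hq => ?_
      unfold QP at hq
      exact (mem_filter.mp hq).2.1
    rw [h1]
    unfold sQ
    rw [mul_sum, Real.exp_sum]
    refine prod_le_prod (fun p hp => tsum_nonneg fun n => U2_f_nonneg _) fun p hp => ?_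
    unfold QP at hp
    have hpp := (mem_filter.mp hp).2.1
    have h2 : (2 : ℝ) ≤ p := by exact_mod_cast hpp.two_le
    rw [(U2_geom hpp).2]
    have h3 : 2 / ((p : ℝ) - 1) ≤ 4 * (1 / (p : ℝ)) := by
      rw [mul_one_div, div_le_div_iff₀ (by linarith) (by linarith)]
      linarith
    have h4 := Real.add_one_le_exp (4 * (1 / (p : ℝ)))
    linarith
  have hsplit : ∑ b ∈ Finset.Icc 1 y, h2 c b / b = 1 + ∑ b ∈ Finset.Icc 2 y, h2 c b / b := by
    rw [← Finset.add_sum_Ioc_eq_sum_Icc hy]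
    congr 1
    unfold h2
    rw [if_pos]
    · simp
    · intro q hq h
      exact absurd (Nat.dvd_one.mp h) hq.one_lt.ne'
  have h5 : ∑ b ∈ Finset.Icc 2 y, h2 c b / b ≤ Real.exp (4 * sQ c y) - 1 := by linarith
  have h6 : Real.exp (4 * sQ c y) - 1 ≤ 4 * sQ c y * Real.exp (4 * sQ c y) := by
    have h7 := Real.add_one_le_exp (-(4 * sQ c y))
    have h8 : Real.exp (-(4 * sQ c y)) * Real.exp (4 * sQ c y) = 1 := by
      rw [← Real.exp_add, neg_add_cancel, Real.exp_zero]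
    have h9 := mul_le_mul_of_nonneg_right h7 (Real.exp_pos (4 * sQ c y)).le
    rw [h8] at h9
    linarith
  have h10 : Real.exp (4 * sQ c y) ≤ 55 := by
    calc Real.exp (4 * sQ c y) ≤ Real.exp 4 := Real.exp_le_exp.mpr (by linarith)
      _ = Real.exp 1 ^ 4 := by rw [← Real.exp_nat_mul]; norm_num
      _ ≤ 2.7182818286 ^ 4 := pow_le_pow_left₀ (Real.exp_pos 1).le Real.exp_one_lt_d9.le 4
      _ ≤ 55 := by norm_num
  have h11 : 4 * sQ c y * Real.exp (4 * sQ c y) ≤ 4 * sQ c y * 55 :=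
    mul_le_mul_of_nonneg_left h10 (by positivity)
  linarith

end Pool.Agent.Lib.OW
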