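import Pool.Agent.Lib.MP_7b7e48_nt.OW.OD

/-!
# Module U3 (60 minutes): Polya-Vinogradov in a residue class

PROOF. If `a` is not coprime to `W` all terms vanish. Otherwise `1_{n ≡ a (W)} = (1/φ(W)) ∑_ψ conj ψ(a) ψ(n)`, `ψ` over the Dirichlet characters modulo `W` (for `n` coprime to `W`; `χ n = 0` otherwise). For each `ψ` the character `χ · changeLevel ψ` modulo `W N` is
not principal: if it were, then at `m` (`m ≡ 1` modulo `W`, coprime to `W N`) `1 = χ(m) ψ(m) = χ(m)`. `RG.PVall`: `‖∑_{n ≤ Y} χ' n‖ ≤ PB (W N)`. The mean over `ψ` of sums of norm `≤ PB` has norm `≤ PB`. (`range y` versus `Icc 1 (y-1)`: `χ 0 = 0` if `2 ≤ W N`.)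
-/

open Finset

namespace Pool.Agent.Lib.OW

open Pool.Agent.Lib.RG (RC LV rr SS PB)

private theorem U3_PB_nonneg (M : ℕ) (hM : 1 ≤ M) : 0 ≤ PB M := by
  unfold PB
  have h1 : (0 : ℝ) ≤ Real.log M := Real.log_nonneg (by exact_mod_cast hM)
  positivity

private theorem U3_cl (N W : ℕ) [NeZero (W * N)] (χ : DirichletCharacter ℂ (W * N))
    (ψ : DirichletCharacter ℂ W) (n : ℕ) :
    (χ * DirichletCharacter.changeLevel (Nat.dvd_mul_right W N) ψ) (n : ZMod (W * N)) =
      χ (n : ZMod (W * N)) * ψ (n : ZMod W) := by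
  rw [MulChar.mul_apply]
  by_cases h : n.Coprime (W * N)
  · congr 1
    have h1 := DirichletCharacter.changeLevel_eq_cast_of_dvd' ψ (Nat.dvd_mul_right W N)
      (a := (n : ℤ)) (Nat.isCoprime_iff_coprime.mpr h)
    simpa using h1
  · have h1 : ¬ IsUnit (n : ZMod (W * N)) := by
      rwa [ZMod.isUnit_iff_coprime]
    rw [χ.map_nonunit h1, zero_mul, zero_mul]

private theorem U3_range (M : ℕ) [NeZero M] (hM : 2 ≤ M) (χ : DirichletCharacter ℂ M) (h : χ ≠ 1) (y : ℕ) :
    ‖∑ n ∈ range y, χ (n : ZMod M)‖ ≤ PB M := by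
  rcases Nat.eq_zero_or_pos y with rfl | hy
  · simp only [range_zero, sum_empty, norm_zero]
    exact U3_PB_nonneg M (by omega)
  · have e : range y = insert 0 (Finset.Icc 1 (y - 1)) := by
      ext n
      simp only [mem_range, mem_insert, Finset.mem_Icc]
      omega
    rw [e, sum_insert (by simp)]
    have h0 : χ ((0 : ℕ) : ZMod M) = 0 := by
      apply χ.map_nonunit
      rw [ZMod.isUnit_iff_coprime, Nat.coprime_zero_left]
      omega
    rw [h0, zero_add]
    exact Pool.Agent.Lib.RG.PVall M hM χ h (y - 1)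

open Classical in
theorem pv_class (N W : ℕ) [NeZero (W * N)] (hW : 1 ≤ W) (h2 : 2 ≤ W * N) (χ : DirichletCharacter ℂ (W * N))
    (m : ℕ) (hm : m ≡ 1 [MOD W]) (hmc : m.Coprime (W * N)) (hχ : χ (m : ZMod (W * N)) ≠ 1) (a y : ℕ) :
    ‖∑ n ∈ (range y).filter (fun n => n ≡ a [MOD W]), χ (n : ZMod (W * N))‖ ≤ PB (W * N) := by
  have : NeZero W := ⟨by omega⟩
  have hPB := U3_PB_nonneg (W * N) (by omega)
  by_cases ha : a.Coprime W
  · have hau : IsUnit (a : ZMod W) := by rwa [ZMod.isUnit_iff_coprime]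
    have key : (W.totient : ℂ) * ∑ n ∈ (range y).filter (fun n => n ≡ a [MOD W]), χ (n : ZMod (W * N)) =
        ∑ ψ : DirichletCharacter ℂ W, ψ (a : ZMod W)⁻¹ * ∑ n ∈ range y,
          (χ * DirichletCharacter.changeLevel (Nat.dvd_mul_right W N) ψ) (n : ZMod (W * N)) := by
      have h1 : ∀ ψ : DirichletCharacter ℂ W, ψ (a : ZMod W)⁻¹ * ∑ n ∈ range y,
          (χ * DirichletCharacter.changeLevel (Nat.dvd_mul_right W N) ψ) (n : ZMod (W * N)) =
          ∑ n ∈ range y, χ (n : ZMod (W * N)) * (ψ (a : ZMod W)⁻¹ * ψ (n : ZMod W)) := by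
        intro ψ
        rw [mul_sum]
        refine sum_congr rfl fun n _ => ?_
        rw [U3_cl]
        ring
      rw [sum_congr rfl (fun ψ _ => h1 ψ), sum_comm, mul_sum, sum_filter]
      refine sum_congr rfl fun n _ => ?_
      rw [← mul_sum, DirichletCharacter.sum_char_inv_mul_char_eq ℂ hau]
      have h3 : ((a : ZMod W) = (n : ZMod W)) ↔ n ≡ a [MOD W] := by
        rw [ZMod.natCast_eq_natCast_iff]
        exact ⟨fun h => h.symm, fun h => h.symm⟩
      by_cases h4 : n ≡ a [MOD W]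
      · rw [if_pos h4, if_pos (h3.2 h4)]
        ring
      · rw [if_neg h4, if_neg (fun h5 => h4 (h3.1 h5))]
        ring
    have hφ : (0 : ℝ) < W.totient := by
      exact_mod_cast Nat.totient_pos.2 (by omega)
    have h5 : ‖(W.totient : ℂ) * ∑ n ∈ (range y).filter (fun n => n ≡ a [MOD W]), χ (n : ZMod (W * N))‖ ≤
        W.totient * PB (W * N) := by
      rw [key]
      refine (norm_sum_le _ _).trans ?_
      have h6 : ∀ ψ ∈ (univ : Finset (DirichletCharacter ℂ W)), ‖ψ (a : ZMod W)⁻¹ * ∑ n ∈ range y,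
          (χ * DirichletCharacter.changeLevel (Nat.dvd_mul_right W N) ψ) (n : ZMod (W * N))‖ ≤ PB (W * N) := by
        intro ψ _
        rw [norm_mul]
        have h7 : ‖ψ (a : ZMod W)⁻¹‖ ≤ 1 := ψ.norm_le_one _
        have hne : χ * DirichletCharacter.changeLevel (Nat.dvd_mul_right W N) ψ ≠ 1 := by
          intro h8
          apply hχ
          have h9 := U3_cl N W χ ψ m
          rw [h8, MulChar.one_apply ((ZMod.isUnit_iff_coprime _ _).2 hmc)] at h9
          have h10 : (m : ZMod W) = 1 := by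
            have := (ZMod.natCast_eq_natCast_iff m 1 W).2 hm
            simpa using this
          rw [h10, map_one, mul_one] at h9
          exact h9.symm
        have h8 := U3_range (W * N) h2 _ hne y
        have h9 : 0 ≤ ‖∑ n ∈ range y,
          (χ * DirichletCharacter.changeLevel (Nat.dvd_mul_right W N) ψ) (n : ZMod (W * N))‖ := norm_nonneg _
        nlinarith [norm_nonneg (ψ (a : ZMod W)⁻¹)]
      refine (sum_le_card_nsmul _ _ _ h6).trans (le_of_eq ?_)
      rw [nsmul_eq_mul, card_univ, ← Nat.card_eq_fintype_card,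
        DirichletCharacter.card_eq_totient_of_hasEnoughRootsOfUnity]
    rw [norm_mul, Complex.norm_natCast] at h5
    exact le_of_mul_le_mul_left h5 hφ
  · rw [sum_eq_zero]
    · rw [norm_zero]; exact hPB
    · intro n hn
      rw [mem_filter] at hn
      apply χ.map_nonunit
      rw [ZMod.isUnit_iff_coprime]
      intro h3
      apply ha
      have h4 : n.Coprime W := Nat.Coprime.coprime_dvd_right (Nat.dvd_mul_right W N) h3
      have h5 := hn.2.gcd_eq
      unfold Nat.Coprime at h4 ⊢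
      rw [← h5]
      exact h4

end Pool.Agent.Lib.OW
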