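import Mathlib
import Pool.Agent.Lib.MP_7b7e48_nt.OW.S6
import Pool.Agent.Lib.MP_7b7e48_nt.OW.S8
import Pool.Agent.Lib.MP_7b7e48_nt.OW.T2
import Pool.Agent.Lib.MP_7b7e48_nt.OW.T3
import Pool.Agent.Lib.MP_7b7e48_nt.OW.U2
import Pool.Agent.Lib.MP_7b7e48_nt.OW.U3

/-!
# Module U4 (120 minutes): the sum of `lam` over `Dom N W a y` is small compared with `sQ · y`

`K = log N`, `c n = Re χ n`, `M = W N` (`RG.RC_char`, `RG.LV_char (1/100)`: `L ≥ M^(-1/50)` for large `N`; `hpv` of `S8` by `pv_class`), `σ = sQ c M`. PROOF. By `pv_class` (real parts; `c n = 0` if `n` is not coprime to `N`) `|∑_{n ∈ Dom N W a y} c n| ≤ PB M ≤ N^(2/3)`.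
By `c_conv` (all `n ∈ Dom` are `≥ 1` and coprime to `M`) `∑_{n ∈ Dom N W a y} c n = ∑_{1 ≤ b < y} h2 c b Λ_b`, `Λ_b = ∑ lam m` over the `m ≥ 1`, `b m < y`, coprime to `N`, with `b m ≡ a`; `Λ_1` is the sum in question. `h2 c b ≠ 0` implies that `b` is coprime to `M`, so
`Λ_b = ∑_{m ∈ Dom N W a' ⌈y/b⌉} lam m`, `a' = a b^(-1)` a unit. Let `B = ⌊y exp(-K^(1/2))⌋`. (1) `2 ≤ b ≤ B`: `lam_dom` (`θ = 1/2`, `A + 2`): `|Λ_b| ≤ 2 (y/b)/K^(A+2)`, and `∑_{b ≥ 2} h2 c b/b ≤ 220 σ` (`h2_sum`): total `≤ 440 σ y/K^(A+2)`.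
(2) `b > B`: exchange: `∑_{m ≤ y/B, (m, M) = 1} lam m (H_m((y-1)/m) - H_m(B))`, `H_m(z) = ∑_{b ≤ z, b ≡ a m^(-1)} h2 c b` (the `m` with `(y-1)/m ≤ B` contribute `0`; let `Y` be the largest `m` with `(y-1)/m ≥ B`: `Y = (y-1)/B`, natural quotients, `exp(K^(1/2))/2 ≤ Y ≤ 2 exp(K^(1/2))`). `h2_class`: `H_m(z) = κ dd N W L z + O(√z N^(8/25))` with the SAME main term
for all classes. Errors: `≤ ∑_{m ≤ Y} 2 √N N^(8/25) ≤ N^(17/20)`. Main term: `κ dd N W L ∑_{m ≤ Y, (m,M)=1} lam m (⌊(y-1)/m⌋ - B)`, the floor costs `2 L Y`; `|∑ lam m/m| ≤ 1/K^(A+1)`, `|∑ lam m| ≤ Y/K^(A+1)` (`lam_rec`, `lam_cop` for the modulus `M`, `θ = 1/3`, exponents larger by `1` because of `log M`), `B Y ≤ y`: main term `≤ 4 dd N W L y/K^(A+1)`.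
`dd N W · L ≤ del M L ≤ C σ/log M` (`dd = del M/φ(W)`; `sig_star` for the modulus `M`, `sQ` is monotone). Finally `N^(2/3) + N^(17/20) + 2 L Y ≤ y σ/K^(A+1)` because `σ ≥ M^(-1/40)` (`sig_low`), `y ≥ N^(9/10)`.
-/

open Finset
open Pool.Agent.Lib.MP_45349e_nt.LS (lam)

namespace Pool.Agent.Lib.OW

open Pool.Agent.Lib.RG (RC LV rr SS PB)

private theorem U4_h2_zero {M : ℕ} {c : ℕ → ℝ} (hc : RC M c) {b : ℕ} (h : ¬ b.Coprime M) : h2 c b = 0 := by
  unfold h2
  rw [if_neg]
  intro h1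
  apply h
  rw [Nat.coprime_iff_gcd_eq_one]
  by_contra h2
  obtain ⟨p, hp, hpd⟩ := Nat.exists_prime_and_dvd h2
  have h3 : p ∣ b := hpd.trans (Nat.gcd_dvd_left _ _)
  have h4 : p ∣ M := hpd.trans (Nat.gcd_dvd_right _ _)
  have h5 := h1 p hp h3
  have h6 : ¬ p.Coprime M := fun h7 => hp.one_lt.ne' (Nat.Coprime.eq_one_of_dvd h7 h4)
  rw [hc.zero p h6] at h5
  norm_num at h5

private theorem U4_h2_one (c : ℕ → ℝ) : h2 c 1 = 1 := by
  unfold h2
  rw [if_pos]
  · simp
  · intro q hq hq1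
    exact absurd (Nat.dvd_one.mp hq1) hq.one_lt.ne'

private theorem U4_dom {N W a y n : ℕ} (hN : 2 ≤ N) (ha : a.Coprime W) (hn : n ∈ Dom N W a y) :
    1 ≤ n ∧ n ≤ y - 1 ∧ n.Coprime (W * N) ∧ n < y ∧ n ≡ a [MOD W] ∧ n.Coprime N := by
  unfold Dom at hn
  rw [Finset.mem_filter, Finset.mem_range] at hn
  obtain ⟨h1, h2, h3⟩ := hn
  have h4 : 1 ≤ n := by
    rcases Nat.eq_zero_or_pos n with h | h
    · rw [h, Nat.coprime_zero_left] at h3; omega
    · exact h
  refine ⟨h4, by omega, Nat.Coprime.mul_right ?_ h3, h1, h2, h3⟩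
  rw [Nat.coprime_iff_gcd_eq_one, h2.gcd_eq]
  exact ha

open Classical in
private noncomputable def U4_Lam (N W a y b : ℕ) : ℝ :=
  ∑ m ∈ (Finset.Icc 1 (y - 1)).filter (fun m => b * m ∈ Dom N W a y), lam m

private theorem U4_T {N W a y : ℕ} {c : ℕ → ℝ} (hN : 2 ≤ N) (hc : RC (W * N) c) (ha : a.Coprime W) :
    ∑ n ∈ Dom N W a y, c n = ∑ b ∈ Finset.Icc 1 (y - 1), h2 c b * U4_Lam N W a y b := by
  classical
  calc ∑ n ∈ Dom N W a y, c n
      = ∑ n ∈ Dom N W a y, ∑ b ∈ Finset.Icc 1 (y - 1), if b ∣ n then h2 c b * lam (n / b) else 0 := by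
        apply Finset.sum_congr rfl
        intro n hn
        obtain ⟨h1, h2, h3, -⟩ := U4_dom hN ha hn
        rw [c_conv hc h1 h3, ← Finset.sum_filter]
        apply Finset.sum_congr _ (fun _ _ => rfl)
        ext b
        rw [Nat.mem_divisors, Finset.mem_filter, Finset.mem_Icc]
        constructor
        · rintro ⟨h4, h5⟩
          have h6 := Nat.le_of_dvd h1 h4
          exact ⟨⟨Nat.pos_of_dvd_of_pos h4 h1, by omega⟩, h4⟩
        · rintro ⟨-, h4⟩
          exact ⟨h4, by omega⟩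
    _ = ∑ b ∈ Finset.Icc 1 (y - 1), ∑ n ∈ Dom N W a y, if b ∣ n then h2 c b * lam (n / b) else 0 := Finset.sum_comm
    _ = _ := by
        apply Finset.sum_congr rfl
        intro b hb
        rw [Finset.mem_Icc] at hb
        unfold U4_Lam
        rw [← Finset.sum_filter, Finset.mul_sum]
        apply Finset.sum_bij' (fun n _ => n / b) (fun m _ => b * m)
        · intro n hn
          rw [Finset.mem_filter] at hn
          obtain ⟨h1, h2, h3, -⟩ := U4_dom hN ha hn.1
          obtain ⟨m, hm⟩ := hn.2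
          rw [Finset.mem_filter, Finset.mem_Icc, hm, Nat.mul_div_cancel_left _ hb.1, ← hm]
          refine ⟨⟨?_, ?_⟩, hn.1⟩
          · rcases Nat.eq_zero_or_pos m with h | h
            · rw [h, mul_zero] at hm; omega
            · exact h
          · have : m ≤ b * m := Nat.le_mul_of_pos_left _ hb.1
            omega
        · intro m hm
          rw [Finset.mem_filter] at hm
          rw [Finset.mem_filter]
          exact ⟨hm.2, ⟨m, rfl⟩⟩
        · intro n hn
          rw [Finset.mem_filter] at hn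
          exact Nat.mul_div_cancel' hn.2
        · intro m hm
          exact Nat.mul_div_cancel_left _ hb.1
        · intro n hn
          rfl

private theorem U4_Lam_one (N W a y : ℕ) (hN : 2 ≤ N) (ha : a.Coprime W) :
    U4_Lam N W a y 1 = ∑ n ∈ Dom N W a y, lam n := by
  classical
  unfold U4_Lam
  apply Finset.sum_congr _ (fun _ _ => rfl)
  ext m
  rw [Finset.mem_filter, one_mul, Finset.mem_Icc]
  constructor
  · exact fun h => h.2
  · intro h
    obtain ⟨h1, h2, -⟩ := U4_dom hN ha h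
    exact ⟨⟨h1, h2⟩, h⟩

private theorem U4_cop_of_modEq {W b a : ℕ} (h : b ≡ a [MOD W]) (ha : a.Coprime W) : b.Coprime W := by
  rw [Nat.coprime_iff_gcd_eq_one, h.gcd_eq]
  exact ha

private theorem U4_inv (W q a : ℕ) (hq : q.Coprime W) (ha : a.Coprime W) (hW : 1 ≤ W) :
    ∃ b : ℕ, q * b ≡ a [MOD W] ∧ b.Coprime W := by
  obtain ⟨m, -, hm⟩ := Nat.exists_mul_mod_eq_of_coprime a hq (by omega : W ≠ 0)
  refine ⟨m, hm, ?_⟩
  have h1 : (q * m).Coprime W := U4_cop_of_modEq hm ha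
  exact Nat.Coprime.coprime_dvd_left (Dvd.intro_left q rfl) h1

private theorem U4_Lam_eq {N W a y b a' : ℕ} (hN : 2 ≤ N) (ha : a.Coprime W) (hb : b.Coprime (W * N)) (hb1 : 1 ≤ b)
    (ha' : b * a' ≡ a [MOD W]) :
    U4_Lam N W a y b = ∑ m ∈ Dom N W a' ⌈(y : ℝ) / b⌉₊, lam m := by
  classical
  have hb' : (0 : ℝ) < b := by exact_mod_cast hb1
  have hbW : b.Coprime W := Nat.Coprime.coprime_dvd_right (Dvd.intro N rfl) hb
  have hbN : b.Coprime N := Nat.Coprime.coprime_dvd_right (Dvd.intro_left W rfl) hb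
  unfold U4_Lam
  apply Finset.sum_congr _ (fun _ _ => rfl)
  ext m
  rw [Finset.mem_filter, Finset.mem_Icc]
  constructor
  · rintro ⟨h1, h2⟩
    obtain ⟨g1, g2, g3, g4, g5, g6⟩ := U4_dom hN ha h2
    unfold Dom
    rw [Finset.mem_filter, Finset.mem_range, Nat.lt_ceil, lt_div_iff₀ hb']
    refine ⟨?_, ?_, ?_⟩
    · rw [mul_comm]; exact_mod_cast g4
    · exact Nat.ModEq.cancel_left_of_coprime (by rw [Nat.coprime_comm] at hbW; exact hbW) (g5.trans ha'.symm)
    · exact Nat.Coprime.coprime_dvd_left (Dvd.intro_left b rfl) g6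
  · intro h
    unfold Dom at h
    rw [Finset.mem_filter, Finset.mem_range, Nat.lt_ceil, lt_div_iff₀ hb'] at h
    obtain ⟨h1, h2, h3⟩ := h
    have h4 : b * m < y := by
      have : m * b < y := by exact_mod_cast h1
      rw [mul_comm]; exact this
    have h5 : 1 ≤ m := by
      rcases Nat.eq_zero_or_pos m with h | h
      · rw [h, Nat.coprime_zero_left] at h3; omega
      · exact h
    have h6 : m ≤ b * m := Nat.le_mul_of_pos_left _ hb1
    refine ⟨⟨h5, by omega⟩, ?_⟩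
    unfold Dom
    rw [Finset.mem_filter, Finset.mem_range]
    exact ⟨h4, (h2.mul_left b).trans ha', Nat.Coprime.mul_left hbN h3⟩

open Classical in
private theorem U4_swap {N W a y B : ℕ} {c : ℕ → ℝ} (hN : 2 ≤ N) (hc : RC (W * N) c) (ha : a.Coprime W)
    (hB : 1 ≤ B) (am : ℕ → ℕ) (ham : ∀ m : ℕ, m.Coprime W → m * am m ≡ a [MOD W]) :
    ∑ b ∈ Finset.Ioc B (y - 1), h2 c b * U4_Lam N W a y b =
      ∑ m ∈ (Finset.Icc 1 ((y - 1) / B)).filter (fun m => m.Coprime (W * N)),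
        lam m * ∑ b ∈ (Finset.Ioc B ((y - 1) / m)).filter (fun b => b ≡ am m [MOD W]), h2 c b := by
  have e1 : ∑ b ∈ Finset.Ioc B (y - 1), h2 c b * U4_Lam N W a y b = ∑ m ∈ Finset.Icc 1 (y - 1),
      lam m * ∑ b ∈ Finset.Ioc B (y - 1), (if b * m ∈ Dom N W a y then h2 c b else 0) := by
    calc ∑ b ∈ Finset.Ioc B (y - 1), h2 c b * U4_Lam N W a y b
        = ∑ b ∈ Finset.Ioc B (y - 1), ∑ m ∈ Finset.Icc 1 (y - 1),
            (if b * m ∈ Dom N W a y then h2 c b * lam m else 0) := by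
          apply Finset.sum_congr rfl
          intro b _
          unfold U4_Lam
          rw [Finset.mul_sum, Finset.sum_filter]
      _ = ∑ m ∈ Finset.Icc 1 (y - 1), ∑ b ∈ Finset.Ioc B (y - 1),
            (if b * m ∈ Dom N W a y then h2 c b * lam m else 0) := Finset.sum_comm
      _ = _ := by
          apply Finset.sum_congr rfl
          intro m _
          rw [Finset.mul_sum]
          apply Finset.sum_congr rfl
          intro b _
          split_ifs
          · ring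
          · ring
  rw [e1]
  symm
  have hYy : (y - 1) / B ≤ y - 1 := Nat.div_le_self _ _
  -- inner sums
  have hin : ∀ m : ℕ, 1 ≤ m → m.Coprime (W * N) →
      ∑ b ∈ Finset.Ioc B (y - 1), (if b * m ∈ Dom N W a y then h2 c b else 0) =
      ∑ b ∈ (Finset.Ioc B ((y - 1) / m)).filter (fun b => b ≡ am m [MOD W]), h2 c b := by
    intro m hm1 hm
    have hmW : m.Coprime W := Nat.Coprime.coprime_dvd_right (Dvd.intro N rfl) hm
    have hmN : m.Coprime N := Nat.Coprime.coprime_dvd_right (Dvd.intro_left W rfl) hm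
    rw [Finset.sum_filter]
    symm
    have hsub : Finset.Ioc B ((y - 1) / m) ⊆ Finset.Ioc B (y - 1) :=
      Finset.Ioc_subset_Ioc_right (Nat.div_le_self _ _)
    rw [← Finset.sum_subset (s₁ := Finset.Ioc B ((y - 1) / m)) (s₂ := Finset.Ioc B (y - 1)) hsub]
    · apply Finset.sum_congr rfl
      intro b hb
      rw [Finset.mem_Ioc, Nat.le_div_iff_mul_le hm1] at hb
      by_cases hbN : b.Coprime N
      · have hiff : b * m ∈ Dom N W a y ↔ b ≡ am m [MOD W] := by
          unfold Dom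
          rw [Finset.mem_filter, Finset.mem_range]
          constructor
          · rintro ⟨-, h2, -⟩
            have h3 : m * b ≡ m * am m [MOD W] := by
              rw [mul_comm m b]
              exact h2.trans (ham m hmW).symm
            exact Nat.ModEq.cancel_left_of_coprime (by rw [Nat.coprime_comm] at hmW; exact hmW) h3
          · intro h2
            have h5 : 1 ≤ b * m := Nat.mul_pos (by omega) hm1
            refine ⟨by omega, ?_, Nat.Coprime.mul_left hbN hmN⟩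
            rw [mul_comm]
            exact (h2.mul_left m).trans (ham m hmW)
        by_cases h : b ≡ am m [MOD W]
        · rw [if_pos h, if_pos (hiff.mpr h)]
        · rw [if_neg h, if_neg (fun h' => h (hiff.mp h'))]
      · have h0 : h2 c b = 0 := U4_h2_zero hc
          (fun h' => hbN (Nat.Coprime.coprime_dvd_right (Dvd.intro_left W rfl) h'))
        rw [h0]
        simp
    · intro b hb hnb
      rw [Finset.mem_Ioc] at hb hnb
      rw [if_neg]
      intro h
      obtain ⟨g1, g2, -⟩ := U4_dom hN ha h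
      exact hnb ⟨hb.1, by rw [Nat.le_div_iff_mul_le hm1]; exact g2⟩
  calc ∑ m ∈ (Finset.Icc 1 ((y - 1) / B)).filter (fun m => m.Coprime (W * N)),
        lam m * ∑ b ∈ (Finset.Ioc B ((y - 1) / m)).filter (fun b => b ≡ am m [MOD W]), h2 c b
      = ∑ m ∈ (Finset.Icc 1 ((y - 1) / B)).filter (fun m => m.Coprime (W * N)),
        lam m * ∑ b ∈ Finset.Ioc B (y - 1), (if b * m ∈ Dom N W a y then h2 c b else 0) := by
        apply Finset.sum_congr rfl
        intro m hm
        rw [Finset.mem_filter, Finset.mem_Icc] at hm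
        rw [hin m hm.1.1 hm.2]
    _ = _ := by
        apply Finset.sum_subset
        · intro m hm
          rw [Finset.mem_filter, Finset.mem_Icc] at hm
          rw [Finset.mem_Icc]
          exact ⟨hm.1.1, hm.1.2.trans hYy⟩
        · intro m hm hnm
          rw [Finset.mem_Icc] at hm
          rw [Finset.sum_eq_zero, mul_zero]
          intro b hb
          rw [Finset.mem_Ioc] at hb
          rw [if_neg]
          intro h
          obtain ⟨g1, g2, g3, -⟩ := U4_dom hN ha h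
          apply hnm
          rw [Finset.mem_filter, Finset.mem_Icc, Nat.le_div_iff_mul_le hB]
          refine ⟨⟨hm.1, ?_⟩, Nat.Coprime.coprime_dvd_left (Dvd.intro_left b rfl) g3⟩
          calc m * B ≤ m * b := Nat.mul_le_mul_left _ hb.1.le
            _ = b * m := mul_comm _ _
            _ ≤ y - 1 := g2


private theorem U4_ev (C : ℝ) (A : ℕ) : ∀ᶠ K : ℝ in Filter.atTop,
    C * K ^ A * Real.exp (K ^ ((1 : ℝ) / 2)) ≤ Real.exp (K / 100) := by
  have h1 := isLittleO_pow_exp_pos_mul_atTop A (b := 1 / 200) (by norm_num)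
  have h2 := h1.bound (c := 1 / (|C| + 1)) (by positivity)
  filter_upwards [h2, Filter.eventually_ge_atTop 40000] with K h3 h4
  have hK0 : 0 < K := by linarith
  rw [Real.norm_of_nonneg (by positivity), Real.norm_of_nonneg (by positivity)] at h3
  have h5 : C * K ^ A ≤ Real.exp (1 / 200 * K) := by
    have h6 : C * K ^ A ≤ |C| * K ^ A := mul_le_mul_of_nonneg_right (le_abs_self C) (by positivity)
    have h7 : |C| * K ^ A ≤ |C| * (1 / (|C| + 1) * Real.exp (1 / 200 * K)) :=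
      mul_le_mul_of_nonneg_left h3 (abs_nonneg _)
    have h8 : |C| * (1 / (|C| + 1) * Real.exp (1 / 200 * K)) ≤ 1 * Real.exp (1 / 200 * K) := by
      rw [← mul_assoc]
      apply mul_le_mul_of_nonneg_right _ (by positivity)
      rw [mul_one_div, div_le_one (by positivity)]
      linarith
    linarith
  have h6 : K ^ ((1 : ℝ) / 2) ≤ 1 / 200 * K := by
    rw [← Real.sqrt_eq_rpow]
    have h7 : Real.sqrt K * Real.sqrt K = K := Real.mul_self_sqrt hK0.le
    have h8 : 200 ≤ Real.sqrt K := by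
      rw [show (200 : ℝ) = Real.sqrt 40000 by
        rw [show (40000 : ℝ) = 200 ^ 2 by norm_num, Real.sqrt_sq (by norm_num)]]
      exact Real.sqrt_le_sqrt h4
    nlinarith
  calc C * K ^ A * Real.exp (K ^ ((1 : ℝ) / 2)) ≤ Real.exp (1 / 200 * K) * Real.exp (1 / 200 * K) :=
        mul_le_mul h5 (Real.exp_le_exp.mpr h6) (by positivity) (by positivity)
    _ = Real.exp (K / 100) := by rw [← Real.exp_add]; congr 1; ring

private theorem U4_hlog : Filter.Tendsto (fun N : ℕ => Real.log (N : ℝ)) Filter.atTop Filter.atTop :=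
  Real.tendsto_log_atTop.comp tendsto_natCast_atTop_atTop

private theorem U4_abs_lam (n : ℕ) : |lam n| ≤ 1 := by
  unfold Pool.Agent.Lib.MP_45349e_nt.LS.lam
  rw [abs_pow]
  simp

private theorem U4_lc {A : ℕ} {y : ℕ} {K : ℝ} {N W a' b : ℕ} (hK : 0 < K) (hy : Real.exp (K ^ ((1 : ℝ) / 2)) ≤ (y : ℝ) / b)
    (hS : 0 ≤ K ^ ((1 : ℝ) / 2))
    (h : |∑ n ∈ Dom N W a' ⌈(y : ℝ) / b⌉₊, lam n| ≤ (⌈(y : ℝ) / b⌉₊ : ℝ) / K ^ A) :
    |∑ n ∈ Dom N W a' ⌈(y : ℝ) / b⌉₊, lam n| ≤ 2 * y / K ^ A * (1 / b) := by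
  refine h.trans ?_
  have h1 : 1 ≤ (y : ℝ) / b := by
    have := Real.add_one_le_exp (K ^ ((1 : ℝ) / 2))
    linarith
  have h2 := Nat.ceil_lt_add_one (a := (y : ℝ) / b) (by linarith)
  calc (⌈(y : ℝ) / b⌉₊ : ℝ) / K ^ A ≤ (2 * ((y : ℝ) / b)) / K ^ A := by
        apply div_le_div_of_nonneg_right _ (by positivity)
        linarith
    _ = _ := by ring

private theorem U4_sQ_mono (c : ℕ → ℝ) {x y : ℕ} (h : x ≤ y) : sQ c x ≤ sQ c y := by
  unfold sQ
  apply Finset.sum_le_sum_of_subset_of_nonneg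
  · intro q hq
    unfold QP at hq ⊢
    rw [Finset.mem_filter, Finset.mem_range] at hq ⊢
    exact ⟨by omega, hq.2⟩
  · intro i _ _
    positivity

private theorem U4_sQ_nonneg (c : ℕ → ℝ) (x : ℕ) : 0 ≤ sQ c x := by
  unfold sQ
  exact Finset.sum_nonneg (fun _ _ => by positivity)

/-- part (1) -/
private theorem U4_one {N W a y A B : ℕ} {c : ℕ → ℝ} {K : ℝ} (hN : 2 ≤ N) (hW : 1 ≤ W) (hc : RC (W * N) c)
    (ha : a.Coprime W) (hK : 0 < K) (hB : (B : ℝ) * Real.exp (K ^ ((1 : ℝ) / 2)) ≤ y)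
    (hBM : B ≤ W * N) (hs : sQ c (W * N) ≤ 1)
    (hl : ∀ a y : ℕ, a.Coprime W → Real.exp (K ^ ((1 : ℝ) / 2)) ≤ y → |∑ n ∈ Dom N W a y, lam n| ≤ y / K ^ A) :
    |∑ b ∈ Finset.Icc 2 B, h2 c b * U4_Lam N W a y b| ≤ 440 * sQ c (W * N) * y / K ^ A := by
  have hS : 0 ≤ K ^ ((1 : ℝ) / 2) := by positivity
  calc |∑ b ∈ Finset.Icc 2 B, h2 c b * U4_Lam N W a y b|
      ≤ ∑ b ∈ Finset.Icc 2 B, |h2 c b * U4_Lam N W a y b| := Finset.abs_sum_le_sum_abs _ _
    _ ≤ ∑ b ∈ Finset.Icc 2 B, 2 * y / K ^ A * (h2 c b / b) := by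
        apply Finset.sum_le_sum
        intro b hb
        rw [Finset.mem_Icc] at hb
        have hb0 : (0 : ℝ) < b := by exact_mod_cast (by omega : 0 < b)
        rw [abs_mul, abs_of_nonneg (h2_nonneg c b)]
        by_cases hbM : b.Coprime (W * N)
        · obtain ⟨a', ha1, ha2⟩ := U4_inv W b a (Nat.Coprime.coprime_dvd_right (Dvd.intro N rfl) hbM) ha hW
          rw [U4_Lam_eq hN ha hbM (by omega) ha1]
          have h1 : Real.exp (K ^ ((1 : ℝ) / 2)) ≤ (y : ℝ) / b := by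
            rw [le_div_iff₀ hb0]
            calc Real.exp (K ^ ((1 : ℝ) / 2)) * b ≤ Real.exp (K ^ ((1 : ℝ) / 2)) * B :=
                  mul_le_mul_of_nonneg_left (by exact_mod_cast hb.2) (by positivity)
              _ ≤ y := by rw [mul_comm]; exact hB
          have k2 := U4_lc (A := A) hK h1 hS (hl a' ⌈(y : ℝ) / b⌉₊ ha2 (h1.trans (Nat.le_ceil _)))
          calc h2 c b * |∑ m ∈ Dom N W a' ⌈(y : ℝ) / b⌉₊, lam m| ≤ h2 c b * (2 * y / K ^ A * (1 / b)) :=
                mul_le_mul_of_nonneg_left k2 (h2_nonneg c b)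
            _ = _ := by ring
        · rw [U4_h2_zero hc hbM]
          simp
    _ = 2 * y / K ^ A * ∑ b ∈ Finset.Icc 2 B, h2 c b / b := by rw [Finset.mul_sum]
    _ ≤ 2 * y / K ^ A * (220 * sQ c (W * N)) := by
        apply mul_le_mul_of_nonneg_left _ (by positivity)
        have h1 := U4_sQ_mono c hBM
        exact (h2_sum hc B (h1.trans hs)).trans (by linarith)
    _ = _ := by ring

open Classical in
/-- part (2) -/
private theorem U4_two {N W a y B : ℕ} {c : ℕ → ℝ} {L κ E η : ℝ} (hN : 2 ≤ N) (hW : 1 ≤ W) (hc : RC (W * N) c)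
    (ha : a.Coprime W) (hB : 1 ≤ B) (hy : 1 ≤ y) (hκ : |κ| ≤ 2) (hL : 0 ≤ dd N W * L) (hE : 0 ≤ E)
    (hcl : ∀ b z : ℕ, b.Coprime W → 1 ≤ z → z ≤ y →
      |∑ n ∈ (Finset.Icc 1 z).filter (fun n => n ≡ b [MOD W]), h2 c n - κ * dd N W * L * z| ≤ E)
    (hr : |∑ m ∈ (Finset.Icc 1 ((y - 1) / B)).filter (fun m => m.Coprime (W * N)), lam m / m| ≤ η)
    (hs : |∑ m ∈ (Finset.Icc 1 ((y - 1) / B)).filter (fun m => m.Coprime (W * N)), lam m| ≤
      (((y - 1) / B : ℕ) : ℝ) * η) (hη : 0 ≤ η) :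
    |∑ b ∈ Finset.Ioc B (y - 1), h2 c b * U4_Lam N W a y b| ≤
      2 * E * (((y - 1) / B : ℕ) : ℝ) + 2 * (dd N W * L) * (2 * y * η + (((y - 1) / B : ℕ) : ℝ)) := by
  have hex : ∀ m : ℕ, ∃ b : ℕ, m.Coprime W → (m * b ≡ a [MOD W] ∧ b.Coprime W) := by
    intro q
    by_cases h : q.Coprime W
    · obtain ⟨b, hb⟩ := U4_inv W q a h ha hW
      exact ⟨b, fun _ => hb⟩
    · exact ⟨0, fun h' => absurd h' h⟩
  choose am ham using hex
  rw [U4_swap hN hc ha hB am (fun m hm => (ham m hm).1)]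
  set Y := (y - 1) / B with hY
  set G := (Finset.Icc 1 Y).filter (fun m => m.Coprime (W * N)) with hG
  have hGm : ∀ m ∈ G, 1 ≤ m ∧ m ≤ Y ∧ m.Coprime W := by
    intro m hm
    rw [hG, Finset.mem_filter, Finset.mem_Icc] at hm
    exact ⟨hm.1.1, hm.1.2, Nat.Coprime.coprime_dvd_right (Dvd.intro N rfl) hm.2⟩
  have hGc : (G.card : ℝ) ≤ Y := by
    have : G.card ≤ (Finset.Icc 1 Y).card := Finset.card_filter_le _ _
    rw [Nat.card_Icc, Nat.add_sub_cancel] at this
    exact_mod_cast this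
  set t := κ * dd N W * L with ht
  have hmB : ∀ m ∈ G, B ≤ (y - 1) / m ∧ 1 ≤ m ∧ (y - 1) / m ≤ y := by
    intro m hm
    obtain ⟨h1, h2, h3⟩ := hGm m hm
    refine ⟨?_, h1, (Nat.div_le_self _ _).trans (Nat.sub_le _ _)⟩
    rw [Nat.le_div_iff_mul_le h1]
    rw [hY, Nat.le_div_iff_mul_le hB] at h2
    rw [mul_comm]; exact h2
  -- the inner sum
  have hinner : ∀ m ∈ G, |∑ b ∈ (Finset.Ioc B ((y - 1) / m)).filter (fun b => b ≡ am m [MOD W]), h2 c b -
      t * ((((y - 1) / m : ℕ) : ℝ) - B)| ≤ 2 * E := by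
    intro m hm
    obtain ⟨k1, -, k3⟩ := hmB m hm
    have hco := (ham m (hGm m hm).2.2).2
    have g1 := hcl (am m) ((y - 1) / m) hco (hB.trans k1) k3
    have g2 := hcl (am m) B hco hB (k1.trans k3)
    have g3 : ∑ b ∈ (Finset.Icc 1 ((y - 1) / m)).filter (fun b => b ≡ am m [MOD W]), h2 c b =
        ∑ b ∈ (Finset.Icc 1 B).filter (fun b => b ≡ am m [MOD W]), h2 c b +
        ∑ b ∈ (Finset.Ioc B ((y - 1) / m)).filter (fun b => b ≡ am m [MOD W]), h2 c b := by
      rw [← Finset.sum_union]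
      · apply Finset.sum_congr _ (fun _ _ => rfl)
        ext b
        simp only [Finset.mem_filter, Finset.mem_union, Finset.mem_Icc, Finset.mem_Ioc]
        constructor
        · rintro ⟨⟨k1, k2⟩, k3⟩
          by_cases h : b ≤ B
          · exact Or.inl ⟨⟨k1, h⟩, k3⟩
          · exact Or.inr ⟨⟨by omega, k2⟩, k3⟩
        · rintro (⟨⟨k1, k2⟩, k3⟩ | ⟨⟨k1, k2⟩, k3⟩)
          · exact ⟨⟨k1, by omega⟩, k3⟩
          · exact ⟨⟨by omega, k2⟩, k3⟩
      · rw [Finset.disjoint_left]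
        intro b hb hb'
        rw [Finset.mem_filter, Finset.mem_Icc] at hb
        rw [Finset.mem_filter, Finset.mem_Ioc] at hb'
        omega
    rw [g3] at g1
    rw [abs_le] at g1 g2 ⊢
    constructor <;> linarith [g1.1, g1.2, g2.1, g2.2]
  -- decomposition
  have hdec : ∑ m ∈ G, lam m * ∑ b ∈ (Finset.Ioc B ((y - 1) / m)).filter (fun b => b ≡ am m [MOD W]), h2 c b =
      ∑ m ∈ G, lam m * (∑ b ∈ (Finset.Ioc B ((y - 1) / m)).filter (fun b => b ≡ am m [MOD W]), h2 c b -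
        t * ((((y - 1) / m : ℕ) : ℝ) - B)) +
      t * (((y : ℝ) - 1) * ∑ m ∈ G, lam m / m - B * ∑ m ∈ G, lam m -
        ∑ m ∈ G, lam m * (((y : ℝ) - 1) / m - (((y - 1) / m : ℕ) : ℝ))) := by
    rw [Finset.mul_sum, Finset.mul_sum, ← Finset.sum_sub_distrib, ← Finset.sum_sub_distrib, Finset.mul_sum,
      ← Finset.sum_add_distrib]
    apply Finset.sum_congr rfl
    intro m _
    ring
  rw [hdec]
  have b1 : |∑ m ∈ G, lam m * (∑ b ∈ (Finset.Ioc B ((y - 1) / m)).filter (fun b => b ≡ am m [MOD W]), h2 c b -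
        t * ((((y - 1) / m : ℕ) : ℝ) - B))| ≤ 2 * E * Y := by
    calc _ ≤ ∑ m ∈ G, |lam m * (∑ b ∈ (Finset.Ioc B ((y - 1) / m)).filter (fun b => b ≡ am m [MOD W]), h2 c b -
            t * ((((y - 1) / m : ℕ) : ℝ) - B))| := Finset.abs_sum_le_sum_abs _ _
      _ ≤ ∑ m ∈ G, 2 * E := by
          apply Finset.sum_le_sum
          intro m hm
          rw [abs_mul]
          calc _ ≤ 1 * (2 * E) := mul_le_mul (U4_abs_lam m) (hinner m hm) (abs_nonneg _) (by norm_num)
            _ = _ := one_mul _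
      _ = G.card * (2 * E) := by rw [Finset.sum_const, nsmul_eq_mul]
      _ ≤ Y * (2 * E) := mul_le_mul_of_nonneg_right hGc (by linarith)
      _ = _ := by ring
  have b2 : |∑ m ∈ G, lam m * (((y : ℝ) - 1) / m - (((y - 1) / m : ℕ) : ℝ))| ≤ Y := by
    calc _ ≤ ∑ m ∈ G, |lam m * (((y : ℝ) - 1) / m - (((y - 1) / m : ℕ) : ℝ))| := Finset.abs_sum_le_sum_abs _ _
      _ ≤ ∑ m ∈ G, (1 : ℝ) := by
          apply Finset.sum_le_sum
          intro m hm
          obtain ⟨h1, h2, h3⟩ := hmB m hm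
          have hm0 : (0 : ℝ) < m := by exact_mod_cast h2
          rw [abs_mul]
          have h4 : |((y : ℝ) - 1) / m - (((y - 1) / m : ℕ) : ℝ)| ≤ 1 := by
            have h5 : (((y - 1 : ℕ)) : ℝ) = (y : ℝ) - 1 := by
              rw [Nat.cast_sub hy, Nat.cast_one]
            have h6 : (((y - 1) / m : ℕ) : ℝ) ≤ ((y - 1 : ℕ) : ℝ) / m := Nat.cast_div_le
            have h7 : ((y - 1 : ℕ) : ℝ) / m < (((y - 1) / m : ℕ) : ℝ) + 1 := by
              rw [div_lt_iff₀ hm0]
              have := Nat.lt_div_mul_add (a := y - 1) (b := m) (by omega)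
              have h8 : ((y - 1 : ℕ) : ℝ) < (((y - 1) / m * m + m : ℕ) : ℝ) := by exact_mod_cast this
              push_cast at h8 ⊢
              linarith
            rw [h5] at h6 h7
            rw [abs_le]
            constructor <;> linarith
          calc _ ≤ 1 * (1 : ℝ) := mul_le_mul (U4_abs_lam m) h4 (abs_nonneg _) (by norm_num)
            _ = _ := one_mul _
      _ = G.card := by rw [Finset.sum_const, nsmul_eq_mul, mul_one]
      _ ≤ Y := hGc
  have b3 : |t| ≤ 2 * (dd N W * L) := by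
    rw [ht, mul_assoc, abs_mul, abs_of_nonneg hL]
    exact mul_le_mul_of_nonneg_right hκ hL
  have hy0 : (1 : ℝ) ≤ y := by exact_mod_cast hy
  have b4 : |((y : ℝ) - 1) * ∑ m ∈ G, lam m / m| ≤ y * η := by
    rw [abs_mul, abs_of_nonneg (by linarith : (0 : ℝ) ≤ y - 1)]
    exact mul_le_mul (by linarith) hr (abs_nonneg _) (by linarith)
  have b5 : |(B : ℝ) * ∑ m ∈ G, lam m| ≤ y * η := by
    rw [abs_mul, abs_of_nonneg (by positivity : (0 : ℝ) ≤ (B : ℝ))]
    have h1 : B * Y ≤ y := (Nat.mul_div_le (y - 1) B).trans (Nat.sub_le _ _)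
    have h2 : (B : ℝ) * Y ≤ y := by exact_mod_cast h1
    calc (B : ℝ) * |∑ m ∈ G, lam m| ≤ B * (Y * η) := mul_le_mul_of_nonneg_left hs (by positivity)
      _ = (B * Y) * η := by ring
      _ ≤ y * η := mul_le_mul_of_nonneg_right h2 hη
  have b6 : |((y : ℝ) - 1) * ∑ m ∈ G, lam m / m - B * ∑ m ∈ G, lam m -
        ∑ m ∈ G, lam m * (((y : ℝ) - 1) / m - (((y - 1) / m : ℕ) : ℝ))| ≤ 2 * y * η + Y := by
    rw [abs_le] at b2 b4 b5 ⊢
    constructor <;> linarith [b2.1, b2.2, b4.1, b4.2, b5.1, b5.2]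
  refine (abs_add_le _ _).trans (add_le_add b1 ?_)
  rw [abs_mul]
  exact mul_le_mul b3 b6 (abs_nonneg _) (by positivity)


open Classical in
private theorem U4_core (W : ℕ) (hW : 1 ≤ W) (A : ℕ) : ∃ N0 : ℕ, ∀ N : ℕ, N0 ≤ N → ∀ (c : ℕ → ℝ) (L : ℝ),
    RC (W * N) c → LV (W * N) c L → ((W * N : ℕ) : ℝ) ^ (-(1 / 50) : ℝ) ≤ L →
    (∀ a y : ℕ, |∑ n ∈ (range y).filter (fun n => n ≡ a [MOD W]), c n| ≤ PB (W * N)) →
    sQ c (W * N) ≤ 1 → ∀ a y : ℕ, a.Coprime W → (N : ℝ) ^ ((9 : ℝ) / 10) ≤ y → y ≤ N →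
    |∑ n ∈ Dom N W a y, lam n| ≤ sQ c (W * N) * y / (Real.log N) ^ A := by
  obtain ⟨Nl, hlam⟩ := lam_dom W hW (1 / 2) (by norm_num) (by norm_num) (A + 1)
  obtain ⟨Nh, hcls⟩ := h2_class W hW
  obtain ⟨Nr, hrec⟩ := lam_rec (1 / 4) (by norm_num) (by norm_num) A
  obtain ⟨Nc, hcop⟩ := lam_cop (1 / 4) (by norm_num) (by norm_num) A
  obtain ⟨C1, hC1, Ns, hstar⟩ := sig_star
  obtain ⟨Nw, hlow⟩ := sig_low
  obtain ⟨C2, hC2, hPB⟩ := Pool.Agent.Lib.RG.PB_le (1 / 10) (by norm_num)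
  have hWr : (1 : ℝ) ≤ W := by exact_mod_cast hW
  obtain ⟨N1, hN1⟩ := Filter.eventually_atTop.mp (U4_hlog.eventually (U4_ev (4 * C2) A))
  obtain ⟨N2, hN2⟩ := Filter.eventually_atTop.mp (U4_hlog.eventually (U4_ev 32 A))
  obtain ⟨N3, hN3⟩ := Filter.eventually_atTop.mp (U4_hlog.eventually (U4_ev (32 * C1) A))
  obtain ⟨N4, hN4⟩ := Filter.eventually_atTop.mp
    (U4_hlog.eventually_ge_atTop (max (max 40000 (100 * W)) (32 * C1)))
  refine ⟨max (max (max 2 Nl) (max Nh Nr)) (max (max (max Nc Ns) (max Nw N1)) (max (max N2 N3) N4)), ?_⟩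
  intro N hN c L hc hL hLs hpv hs1 a y ha hy hyN
  have hN2' : 2 ≤ N := by omega
  have hNM : N ≤ W * N := Nat.le_mul_of_pos_left _ hW
  have hlam := hlam N (by omega)
  have hcls := hcls N (by omega) c L hc hL hpv
  have hrec := hrec (W * N) (by omega)
  have hcop := hcop (W * N) (by omega)
  have hstar := hstar (W * N) (by omega) c L hc hL hLs hs1
  have hlow := hlow (W * N) (by omega) c L hc hL hLs hs1
  have hPB := (hPB (W * N) (by omega)).1
  have e1 := hN1 N (by omega)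
  have e2 := hN2 N (by omega)
  have e3 := hN3 N (by omega)
  have e4 := hN4 N (by omega)
  clear hN hN1 hN2 hN3 hN4
  have hK : 40000 ≤ Real.log N := (le_max_left _ _).trans ((le_max_left _ _).trans e4)
  have hKW : 100 * (W : ℝ) ≤ Real.log N := (le_max_right _ _).trans ((le_max_left _ _).trans e4)
  have hKC : 32 * C1 ≤ Real.log N := (le_max_right _ _).trans e4
  clear e4
  obtain ⟨κ, hκ, hcls⟩ := hcls
  set K := Real.log N with hKdef
  set S := K ^ ((1 : ℝ) / 2) with hS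
  have hNr : (1 : ℝ) ≤ N := by exact_mod_cast (by omega : 1 ≤ N)
  have hN0 : (0 : ℝ) < N := by linarith
  have hK0 : 0 < K := by linarith
  have hNe : (N : ℝ) = Real.exp K := by rw [hKdef, Real.exp_log hN0]
  have hSS : S * S = K := by
    rw [hS, ← Real.rpow_add hK0]; norm_num
  have hS0 : 0 ≤ S := by positivity
  have hS200 : 200 ≤ S := by
    by_contra h
    have h1 : S * S < 200 * 200 := mul_lt_mul'' (not_le.mp h) (not_le.mp h) hS0 hS0
    linarith
  have hS1 : S ≤ K / 200 := by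
    have h1 : 200 * S ≤ S * S := mul_le_mul_of_nonneg_right hS200 hS0
    linarith
  have hyr : Real.exp (9 / 10 * K) ≤ y := by
    rw [Real.rpow_def_of_pos hN0] at hy
    refine le_trans (le_of_eq ?_) hy
    congr 1
    rw [← hKdef]; ring
  have hy0 : (0 : ℝ) < y := lt_of_lt_of_le (Real.exp_pos _) hyr
  have hy1 : 1 ≤ y := by
    have : (0 : ℝ) < y := hy0
    exact_mod_cast this
  have hyNr : (y : ℝ) ≤ N := by exact_mod_cast hyN
  -- M
  have hM0 : (0 : ℝ) < ((W * N : ℕ) : ℝ) := by push_cast; positivity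
  have hMc : ((W * N : ℕ) : ℝ) = W * N := by push_cast; ring
  have hMlow : K ≤ Real.log ((W * N : ℕ) : ℝ) := by
    rw [hKdef]
    exact Real.log_le_log hN0 (by exact_mod_cast hNM)
  have hMup : ((W * N : ℕ) : ℝ) ≤ Real.exp (101 / 100 * K) := by
    rw [hMc]
    calc (W : ℝ) * N ≤ Real.exp (K / 100) * Real.exp K := by
          rw [← hNe]
          apply mul_le_mul_of_nonneg_right _ hN0.le
          have := Real.add_one_le_exp (K / 100)
          linarith
      _ = _ := by rw [← Real.exp_add]; congr 1; ring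
  set σ := sQ c (W * N) with hσ
  have hσ0 : 0 ≤ σ := U4_sQ_nonneg c _
  have hσlow : Real.exp (-(101 / 4000) * K) ≤ σ := by
    refine le_trans ?_ hlow
    have h1 : Real.exp (101 / 100 * K) ^ (-(1 / 40) : ℝ) ≤ ((W * N : ℕ) : ℝ) ^ (-(1 / 40) : ℝ) :=
      Real.rpow_le_rpow_of_nonpos hM0 hMup (by norm_num)
    refine le_trans (le_of_eq ?_) h1
    rw [← Real.exp_mul]
    congr 1; ring
  -- σ y
  have hσy : Real.exp (87 / 100 * K) ≤ σ * y := by
    calc Real.exp (87 / 100 * K) ≤ Real.exp (-(101 / 4000) * K) * Real.exp (9 / 10 * K) := by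
          rw [← Real.exp_add]
          apply Real.exp_le_exp.mpr
          linarith
      _ ≤ σ * y := mul_le_mul hσlow hyr (by positivity) hσ0
  -- B
  set B := ⌊(y : ℝ) * Real.exp (-S)⌋₊ with hB
  have hB1 : (B : ℝ) ≤ y * Real.exp (-S) := Nat.floor_le (by positivity)
  have hySbig : 2 ≤ (y : ℝ) * Real.exp (-S) := by
    have h1 : Real.exp (9 / 10 * K) * Real.exp (-S) ≤ y * Real.exp (-S) :=
      mul_le_mul_of_nonneg_right hyr (by positivity)
    rw [← Real.exp_add] at h1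
    have h2 := Real.add_one_le_exp (9 / 10 * K + -S)
    linarith
  have hB2 : (y : ℝ) * Real.exp (-S) / 2 ≤ B := by
    have h1 := Nat.lt_floor_add_one ((y : ℝ) * Real.exp (-S))
    rw [← hB] at h1
    linarith
  have hB0 : (0 : ℝ) < B := by linarith
  have hBn : 1 ≤ B := by
    have : 0 < B := by exact_mod_cast hB0
    exact this
  have hexpS : Real.exp (-S) * Real.exp S = 1 := by rw [← Real.exp_add]; simp
  have hES : 0 < Real.exp S := Real.exp_pos _
  have hBS : (B : ℝ) * Real.exp S ≤ y := by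
    calc (B : ℝ) * Real.exp S ≤ (y * Real.exp (-S)) * Real.exp S := mul_le_mul_of_nonneg_right hB1 hES.le
      _ = y := by rw [mul_assoc, hexpS, mul_one]
  have hBy : B ≤ y - 1 := by
    have h1 : (2 : ℝ) ≤ Real.exp S := by
      have := Real.add_one_le_exp S
      linarith
    have h2 : (B : ℝ) * 2 ≤ y := (mul_le_mul_of_nonneg_left h1 hB0.le).trans hBS
    have h3 : B * 2 ≤ y := by exact_mod_cast h2
    omega
  set Y := (y - 1) / B with hY
  have hYle : (Y : ℝ) ≤ 2 * Real.exp S := by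
    have h1 : (Y : ℝ) ≤ ((y - 1 : ℕ) : ℝ) / B := Nat.cast_div_le
    have h2 : ((y - 1 : ℕ) : ℝ) ≤ y := by exact_mod_cast Nat.sub_le _ _
    refine h1.trans ?_
    rw [div_le_iff₀ hB0]
    calc ((y - 1 : ℕ) : ℝ) ≤ y := h2
      _ = 2 * Real.exp S * (y * Real.exp (-S) / 2) := by
          have : 2 * Real.exp S * (y * Real.exp (-S) / 2) = y * (Real.exp (-S) * Real.exp S) := by ring
          rw [this, hexpS, mul_one]
      _ ≤ 2 * Real.exp S * B := mul_le_mul_of_nonneg_left hB2 (by positivity)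
  have hYge : Real.exp (S / 2) ≤ Y := by
    have h1 : ((y - 1 : ℕ) : ℝ) < (Y + 1) * B := by
      have := Nat.lt_div_mul_add (a := y - 1) (b := B) (by omega)
      have h8 : ((y - 1 : ℕ) : ℝ) < (((y - 1) / B * B + B : ℕ) : ℝ) := by exact_mod_cast this
      push_cast at h8 ⊢
      rw [add_mul, one_mul]
      exact h8
    have h2 : ((y - 1 : ℕ) : ℝ) = (y : ℝ) - 1 := by rw [Nat.cast_sub hy1, Nat.cast_one]
    rw [h2] at h1
    have h3 : ((y : ℝ) - 1) * Real.exp S ≤ (Y + 1) * y := by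
      calc ((y : ℝ) - 1) * Real.exp S ≤ ((Y + 1) * B) * Real.exp S := mul_le_mul_of_nonneg_right h1.le hES.le
        _ = (Y + 1) * (B * Real.exp S) := by ring
        _ ≤ (Y + 1) * y := mul_le_mul_of_nonneg_left hBS (by positivity)
    have h4 : Real.exp S ≤ y := by
      refine le_trans ?_ hyr
      apply Real.exp_le_exp.mpr
      linarith
    have h5 : (Real.exp S - 1) * y ≤ (Y + 1) * y := by
      have h9 : (Real.exp S - 1) * y = ((y : ℝ) - 1) * Real.exp S + Real.exp S - y := by ring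
      linarith
    have h6 : Real.exp S - 1 ≤ Y + 1 := le_of_mul_le_mul_right h5 hy0
    have h7 : Real.exp S = Real.exp (S / 2) * Real.exp (S / 2) := by rw [← Real.exp_add]; congr 1; ring
    have h8 : 100 ≤ Real.exp (S / 2) := by
      have := Real.add_one_le_exp (S / 2)
      linarith
    have h9 : 100 * Real.exp (S / 2) ≤ Real.exp (S / 2) * Real.exp (S / 2) :=
      mul_le_mul_of_nonneg_right h8 (by linarith)
    linarith
  have hlM4 : Real.exp ((Real.log ((W * N : ℕ) : ℝ)) ^ ((1 : ℝ) / 4)) ≤ Y := by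
    refine le_trans (Real.exp_le_exp.mpr ?_) hYge
    have h1 : Real.log ((W * N : ℕ) : ℝ) ≤ 2 * K := by
      have h2 := Real.log_le_log hM0 hMup
      rw [Real.log_exp] at h2
      linarith
    have h2 : 2 * K ≤ (S / 2) ^ (4 : ℕ) := by
      have : (S / 2) ^ (4 : ℕ) = (S * S) * (S * S) / 16 := by ring
      rw [this, hSS]
      have h3 : 40000 * K ≤ K * K := mul_le_mul_of_nonneg_right hK hK0.le
      linarith
    calc (Real.log ((W * N : ℕ) : ℝ)) ^ ((1 : ℝ) / 4) ≤ ((S / 2) ^ (4 : ℕ)) ^ ((1 : ℝ) / 4) :=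
          Real.rpow_le_rpow (by linarith) (h1.trans h2) (by norm_num)
      _ = S / 2 := by
          rw [← Real.rpow_natCast, ← Real.rpow_mul (by positivity)]
          norm_num
  -- analytic input
  have hlogM0 : 0 < Real.log ((W * N : ℕ) : ℝ) := by linarith
  have hη : 1 / (Real.log ((W * N : ℕ) : ℝ)) ^ A ≤ 1 / K ^ A := by
    apply one_div_le_one_div_of_le (by positivity)
    exact pow_le_pow_left₀ hK0.le hMlow A
  have hddL : 0 ≤ dd N W * L ∧ dd N W * L ≤ C1 * σ / K := by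
    have hL0 : 0 ≤ L := hL.1
    have hd0 : 0 ≤ del (W * N) := by unfold del; positivity
    have hφ : (1 : ℝ) ≤ W.totient := by exact_mod_cast Nat.totient_pos.mpr hW
    have hdd0 : 0 ≤ dd N W := by unfold dd; positivity
    have hdd1 : dd N W ≤ del (W * N) := by
      unfold dd
      exact div_le_self hd0 hφ
    refine ⟨mul_nonneg hdd0 hL0, ?_⟩
    have h1 : dd N W * L ≤ del (W * N) * L := mul_le_mul_of_nonneg_right hdd1 hL0
    refine h1.trans ?_
    rw [le_div_iff₀ hK0]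
    have h2 : del (W * N) * L * K ≤ Real.log ((W * N : ℕ) : ℝ) * (del (W * N) * L) := by
      rw [mul_comm]
      exact mul_le_mul_of_nonneg_right hMlow (mul_nonneg hd0 hL0)
    have h3 : sQ c ⌊((W * N : ℕ) : ℝ) ^ ((9 : ℝ) / 10)⌋₊ ≤ σ := by
      apply U4_sQ_mono
      have h4 : ((W * N : ℕ) : ℝ) ^ ((9 : ℝ) / 10) ≤ ((W * N : ℕ) : ℝ) := by
        conv_rhs => rw [← Real.rpow_one ((W * N : ℕ) : ℝ)]
        apply Real.rpow_le_rpow_of_exponent_le _ (by norm_num)
        exact hNr.trans (by exact_mod_cast hNM)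
      calc ⌊((W * N : ℕ) : ℝ) ^ ((9 : ℝ) / 10)⌋₊ ≤ ⌊((W * N : ℕ) : ℝ)⌋₊ := Nat.floor_le_floor h4
        _ = W * N := Nat.floor_natCast _
    calc del (W * N) * L * K ≤ _ := h2
      _ ≤ _ := hstar
      _ ≤ _ := mul_le_mul_of_nonneg_left h3 hC1.le
  -- the three parts
  have p1 := U4_one (A := A + 1) (y := y) hN2' hW hc ha hK0 (B := B) hBS (by omega) hs1 hlam
  have p2 := U4_two (κ := κ) (L := L) (E := Real.exp (41 / 50 * K)) (η := 1 / (Real.log ((W * N : ℕ) : ℝ)) ^ A)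
    (y := y) (B := B) hN2' hW hc ha hBn hy1 hκ hddL.1 (by positivity) ?_ (hrec Y hlM4) ?_ (by positivity)
  · -- T
    have hT : |∑ n ∈ Dom N W a y, c n| ≤ PB (W * N) := by
      have h1 : ∑ n ∈ Dom N W a y, c n = ∑ n ∈ (range y).filter (fun n => n ≡ a [MOD W]), c n := by
        apply Finset.sum_subset
        · intro n hn
          unfold Dom at hn
          rw [Finset.mem_filter] at hn ⊢
          exact ⟨hn.1, hn.2.1⟩
        · intro n hn hn'
          rw [Finset.mem_filter] at hn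
          apply hc.zero
          intro h2
          apply hn'
          unfold Dom
          rw [Finset.mem_filter]
          exact ⟨hn.1, hn.2, Nat.Coprime.coprime_dvd_right (Dvd.intro_left W rfl) h2⟩
      rw [h1]
      exact hpv a y
    rw [U4_T hN2' hc ha] at hT
    have hsplit : ∑ b ∈ Finset.Icc 1 (y - 1), h2 c b * U4_Lam N W a y b =
        ∑ n ∈ Dom N W a y, lam n + ∑ b ∈ Finset.Icc 2 B, h2 c b * U4_Lam N W a y b +
          ∑ b ∈ Finset.Ioc B (y - 1), h2 c b * U4_Lam N W a y b := by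
      rw [← U4_Lam_one N W a y hN2' ha]
      have h1 : Finset.Icc 1 (y - 1) = {1} ∪ Finset.Icc 2 B ∪ Finset.Ioc B (y - 1) := by
        ext b
        simp only [Finset.mem_Icc, Finset.mem_union, Finset.mem_singleton, Finset.mem_Ioc]
        omega
      rw [h1, Finset.sum_union, Finset.sum_union, Finset.sum_singleton, U4_h2_one, one_mul]
      · rw [Finset.disjoint_left]
        intro b hb hb'
        rw [Finset.mem_singleton] at hb
        rw [Finset.mem_Icc] at hb'
        omega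
      · rw [Finset.disjoint_left]
        intro b hb hb'
        rw [Finset.mem_union, Finset.mem_singleton, Finset.mem_Icc] at hb
        rw [Finset.mem_Ioc] at hb'
        omega
    rw [hsplit] at hT
    -- numbers
    set Q := σ * y / K ^ A with hQ
    have hKA : 0 < K ^ A := by positivity
    have hQ0 : 0 ≤ Q := by positivity
    have hQy : Q * K ^ A = σ * y := by rw [hQ]; field_simp
    have hSexp : 1 ≤ Real.exp S := by
      have := Real.add_one_le_exp S
      linarith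
    have q1 : PB (W * N) ≤ Q / 4 := by
      have h1 : PB (W * N) ≤ C2 * Real.exp (61 / 100 * K) := by
        refine hPB.trans (mul_le_mul_of_nonneg_left ?_ hC2.le)
        calc ((W * N : ℕ) : ℝ) ^ ((1 : ℝ) / 2 + 1 / 10) ≤ (Real.exp (101 / 100 * K)) ^ ((1 : ℝ) / 2 + 1 / 10) :=
              Real.rpow_le_rpow hM0.le hMup (by norm_num)
          _ = Real.exp (101 / 100 * K * ((1 : ℝ) / 2 + 1 / 10)) := by rw [← Real.exp_mul]
          _ ≤ _ := by
              apply Real.exp_le_exp.mpr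
              linarith
      have h2 : 4 * C2 * K ^ A ≤ Real.exp (K / 100) := by
        calc 4 * C2 * K ^ A = 4 * C2 * K ^ A * 1 := (mul_one _).symm
          _ ≤ 4 * C2 * K ^ A * Real.exp S := mul_le_mul_of_nonneg_left hSexp (by positivity)
          _ ≤ _ := e1
      have h3 : 4 * (C2 * Real.exp (61 / 100 * K)) * K ^ A ≤ Q * K ^ A := by
        rw [hQy]
        calc 4 * (C2 * Real.exp (61 / 100 * K)) * K ^ A = (4 * C2 * K ^ A) * Real.exp (61 / 100 * K) := by ring
          _ ≤ Real.exp (K / 100) * Real.exp (61 / 100 * K) := mul_le_mul_of_nonneg_right h2 (by positivity)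
          _ = Real.exp (62 / 100 * K) := by rw [← Real.exp_add]; congr 1; ring
          _ ≤ Real.exp (87 / 100 * K) := Real.exp_le_exp.mpr (by linarith)
          _ ≤ σ * y := hσy
      have h4 := le_of_mul_le_mul_right h3 hKA
      linarith
    have q2 : 440 * σ * y / K ^ (A + 1) ≤ Q / 8 := by
      have h1 : 440 * σ * y / K ^ (A + 1) = 440 / K * Q := by
        rw [hQ, pow_succ]; field_simp
      rw [h1]
      have h2 : 440 / K ≤ 1 / 8 := by
        rw [div_le_div_iff₀ hK0 (by norm_num)]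
        linarith
      calc 440 / K * Q ≤ 1 / 8 * Q := mul_le_mul_of_nonneg_right h2 hQ0
        _ = Q / 8 := by ring
    have q3 : 2 * Real.exp (41 / 50 * K) * Y ≤ Q / 8 := by
      have h1 : 8 * (2 * Real.exp (41 / 50 * K) * Y) * K ^ A ≤ Q * K ^ A := by
        rw [hQy]
        calc 8 * (2 * Real.exp (41 / 50 * K) * Y) * K ^ A
            ≤ 8 * (2 * Real.exp (41 / 50 * K) * (2 * Real.exp S)) * K ^ A := by
              apply mul_le_mul_of_nonneg_right _ hKA.le
              apply mul_le_mul_of_nonneg_left _ (by norm_num)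
              exact mul_le_mul_of_nonneg_left hYle (by positivity)
          _ = (32 * K ^ A * Real.exp S) * Real.exp (41 / 50 * K) := by ring
          _ ≤ Real.exp (K / 100) * Real.exp (41 / 50 * K) := mul_le_mul_of_nonneg_right e2 (by positivity)
          _ = Real.exp (83 / 100 * K) := by rw [← Real.exp_add]; congr 1; ring
          _ ≤ Real.exp (87 / 100 * K) := Real.exp_le_exp.mpr (by linarith)
          _ ≤ σ * y := hσy
      have h4 := le_of_mul_le_mul_right h1 hKA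
      linarith
    have q4 : 2 * (dd N W * L) * (2 * y * (1 / (Real.log ((W * N : ℕ) : ℝ)) ^ A) + Y) ≤ Q / 8 + Q / 8 := by
      have h1 : 2 * y * (1 / (Real.log ((W * N : ℕ) : ℝ)) ^ A) + Y ≤ 2 * y * (1 / K ^ A) + 2 * Real.exp S :=
        add_le_add (mul_le_mul_of_nonneg_left hη (by positivity)) hYle
      have h2 : 2 * (dd N W * L) * (2 * y * (1 / (Real.log ((W * N : ℕ) : ℝ)) ^ A) + Y) ≤
          2 * (C1 * σ / K) * (2 * y * (1 / K ^ A) + 2 * Real.exp S) :=
        mul_le_mul (by linarith [hddL.2]) h1 (by positivity) (by positivity)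
      refine h2.trans ?_
      have h3 : 2 * (C1 * σ / K) * (2 * y * (1 / K ^ A)) ≤ Q / 8 := by
        have h4 : 2 * (C1 * σ / K) * (2 * y * (1 / K ^ A)) = (4 * C1 / K) * Q := by
          rw [hQ]; field_simp; ring
        rw [h4]
        have h5 : 4 * C1 / K ≤ 1 / 8 := by
          rw [div_le_div_iff₀ hK0 (by norm_num)]
          linarith
        calc 4 * C1 / K * Q ≤ 1 / 8 * Q := mul_le_mul_of_nonneg_right h5 hQ0
          _ = Q / 8 := by ring
      have h4 : 2 * (C1 * σ / K) * (2 * Real.exp S) ≤ Q / 8 := by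
        have h5 : 8 * (2 * (C1 * σ / K) * (2 * Real.exp S)) * K ^ A ≤ Q * K ^ A := by
          rw [hQy]
          calc 8 * (2 * (C1 * σ / K) * (2 * Real.exp S)) * K ^ A
              = σ * ((32 * C1 * K ^ A * Real.exp S) / K) := by ring
            _ ≤ σ * y := by
                apply mul_le_mul_of_nonneg_left _ hσ0
                rw [div_le_iff₀ hK0]
                calc 32 * C1 * K ^ A * Real.exp S ≤ Real.exp (K / 100) := e3
                  _ ≤ Real.exp (9 / 10 * K) := Real.exp_le_exp.mpr (by linarith)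
                  _ ≤ y := hyr
                  _ ≤ y * K := le_mul_of_one_le_right hy0.le (by linarith)
        have h6 := le_of_mul_le_mul_right h5 hKA
        linarith
      rw [mul_add]
      linarith
    rw [abs_le] at hT p1 p2 ⊢
    constructor <;> linarith [hT.1, hT.2, p1.1, p1.2, p2.1, p2.2]
  · intro b z hb hz hzy
    have h1 := hcls b z hb hz ?_
    · refine h1.trans ?_
      calc Real.sqrt z * (N : ℝ) ^ ((8 : ℝ) / 25) ≤ Real.sqrt N * (N : ℝ) ^ ((8 : ℝ) / 25) := by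
            apply mul_le_mul_of_nonneg_right _ (by positivity)
            apply Real.sqrt_le_sqrt
            exact_mod_cast hzy.trans hyN
        _ = (N : ℝ) ^ ((41 : ℝ) / 50) := by
            rw [Real.sqrt_eq_rpow, ← Real.rpow_add hN0]
            norm_num
        _ = Real.exp (41 / 50 * K) := by
            rw [Real.rpow_def_of_pos hN0]
            congr 1
            rw [← hKdef]; ring
    · have h2 : (z : ℝ) ≤ N := by exact_mod_cast hzy.trans hyN
      refine h2.trans ?_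
      rw [pow_two]
      exact le_mul_of_one_le_left hN0.le hNr
  · have h1 := hcop Y hlM4
    refine h1.trans (le_of_eq ?_)
    rw [mul_one_div]

theorem lam_small (W : ℕ) (hW : 1 ≤ W) (A : ℕ) : ∃ N0 : ℕ, ∀ (N : ℕ) [NeZero (W * N)], N0 ≤ N →
    ∀ χ : DirichletCharacter ℂ (W * N), χ ^ 2 = 1 →
    (∃ m : ℕ, m ≡ 1 [MOD W] ∧ m.Coprime (W * N) ∧ χ (m : ZMod (W * N)) ≠ 1) →
    sQ (fun n => (χ (n : ZMod (W * N))).re) (W * N) ≤ 1 → ∀ a y : ℕ, a.Coprime W →
    (N : ℝ) ^ ((9 : ℝ) / 10) ≤ y → y ≤ N →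
    |∑ n ∈ Dom N W a y, lam n| ≤ sQ (fun n => (χ (n : ZMod (W * N))).re) (W * N) * y / (Real.log N) ^ A := by
  classical
  obtain ⟨N1, hcore⟩ := U4_core W hW A
  obtain ⟨κ, hκ, hLV⟩ := Pool.Agent.Lib.RG.LV_char (1 / 100) (by norm_num)
  have hT : Filter.Tendsto (fun N : ℕ => (N : ℝ) ^ ((1 : ℝ) / 100)) Filter.atTop Filter.atTop :=
    (tendsto_rpow_atTop (by norm_num)).comp tendsto_natCast_atTop_atTop
  obtain ⟨N2, hN2⟩ := Filter.eventually_atTop.mp (hT.eventually_ge_atTop (1 / κ))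
  refine ⟨max 2 (max N1 N2), ?_⟩
  intro N _ hN χ hχ hm hs a y ha hy hyN
  obtain ⟨m, hm1, hm2, hm3⟩ := hm
  have hNM : N ≤ W * N := Nat.le_mul_of_pos_left _ hW
  have h2 : 2 ≤ W * N := by omega
  have hχ1 : χ ≠ 1 := by
    intro h
    apply hm3
    rw [h]
    exact MulChar.one_apply ((ZMod.isUnit_iff_coprime m (W * N)).mpr hm2)
  have hRC := Pool.Agent.Lib.RG.RC_char (W * N) h2 χ hχ hχ1
  obtain ⟨L, hL1, hL2⟩ := hLV (W * N) h2 χ hχ hχ1
  apply hcore N (by omega) _ L hRC hL1 _ _ hs a y ha hy hyN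
  · refine le_trans ?_ hL2
    have hM0 : (0 : ℝ) < ((W * N : ℕ) : ℝ) := by exact_mod_cast (by omega : 0 < W * N)
    have h3 := hN2 (W * N) (by omega)
    have h4 : ((W * N : ℕ) : ℝ) ^ (-(1 / 100) : ℝ) = ((W * N : ℕ) : ℝ) ^ ((1 : ℝ) / 100) *
        ((W * N : ℕ) : ℝ) ^ (-(1 / 50) : ℝ) := by
      rw [← Real.rpow_add hM0]; norm_num
    rw [h4, ← mul_assoc]
    apply le_mul_of_one_le_left (by positivity)
    rw [div_le_iff₀ hκ] at h3
    linarith
  · intro a' y'
    have h5 := pv_class N W hW h2 χ m hm1 hm2 hm3 a' y'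
    refine le_trans ?_ h5
    rw [← Complex.re_sum]
    exact Complex.abs_re_le_norm _

end Pool.Agent.Lib.OW
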