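import Pool.Agent.Lib.MP_7b7e48_nt.OW.SPChain

/-!
# Part SP: the chain theorem, assembly
-/

open Finset
open Pool.Agent.Lib.RG (Rough RN bch PB BW)

namespace Pool.Agent.Lib.OWS

theorem rpow_split (N : ℝ) (hN : 0 < N) (a b : ℝ) : N ^ (a + b) = N ^ a * N ^ b := Real.rpow_add hN a b

/-- facts derived from `Nm` -/
theorem nm_facts {N z y B W1 : ℕ} {κ c : ℝ} {J : Finset ℕ} (h : Nm N z y B W1 κ c J) (hκ : 0 < κ)
    (hκ1 : κ ≤ 1 / 100) (hc : c ≤ κ) :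
    (1 : ℝ) ≤ N ∧ 130 ≤ Real.log N ∧ z ≤ N ∧ B ≤ N ∧ y ≤ N ∧
    (∀ j ∈ J, z ≤ 2 ^ j ∧ 2 ^ (j + 1) ≤ B ∧ y ≤ B * 2 ^ j) ∧ (∀ m : ℕ, 1 ≤ m → m ≤ B → z ≤ y / m) ∧
    (N : ℝ) ^ (7 * κ) ≤ (N : ℝ) ^ (1 / 2 + κ) / (N : ℝ) ^ κ ∧ 4 * (z : ℝ) ≤ (N : ℝ) ^ (7 * κ) := by
  have hN0 : (0 : ℝ) < N := by
    by_contra hc
    have h1 : (N : ℝ) = 0 := le_antisymm (not_lt.mp hc) (Nat.cast_nonneg _)
    have h2 := h.lN
    rw [h1, Real.log_zero] at h2
    linarith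
  have hN1 : (1 : ℝ) ≤ N := by
    have : 0 < N := by exact_mod_cast hN0
    exact_mod_cast this
  have hk := h.Nk
  have hmono : ∀ a b : ℝ, a ≤ b → (N : ℝ) ^ a ≤ (N : ℝ) ^ b := fun a b hab =>
    Real.rpow_le_rpow_of_exponent_le hN1 hab
  have hlog : 130 ≤ Real.log N := by
    have h1 : Real.log 4 ≤ κ * Real.log N := by
      rw [← Real.log_rpow hN0]
      exact Real.log_le_log (by norm_num) hk
    have h2 : (1.38 : ℝ) ≤ Real.log 4 := by
      have : (4 : ℝ) = 2 ^ 2 := by norm_num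
      rw [this, Real.log_pow]
      have := Real.log_two_gt_d9
      push_cast
      linarith
    have h3 : κ * Real.log N ≤ 1 / 100 * Real.log N :=
      mul_le_mul_of_nonneg_right hκ1 (by linarith [h.lN])
    linarith
  have hone : (N : ℝ) ^ (1 : ℝ) = N := Real.rpow_one _
  have e1 : (z : ℝ) ≤ (N : ℝ) ^ κ := h.zN.trans (hmono _ _ hc)
  have e2 : (N : ℝ) ^ (3 * κ) = (N : ℝ) ^ κ * (N : ℝ) ^ (2 * κ) := by
    rw [← rpow_split _ hN0]; congr 1; ring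
  have p1 : 0 < (N : ℝ) ^ κ := by positivity
  refine ⟨hN1, hlog, ?_, ?_, ?_, ?_, ?_, ?_, ?_⟩
  · have : (z : ℝ) ≤ N := by rw [← hone]; exact e1.trans (hmono _ _ (by linarith))
    exact_mod_cast this
  · have : (B : ℝ) ≤ N := by rw [← hone]; exact h.B1.trans (hmono _ _ (by linarith))
    exact_mod_cast this
  · have : (y : ℝ) ≤ N := by rw [← hone]; exact h.y1.trans (hmono _ _ (by linarith))
    exact_mod_cast this
  · intro j hj
    obtain ⟨j1, j2⟩ := h.J1 j hj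
    refine ⟨?_, ?_, ?_⟩
    · have : (z : ℝ) ≤ (2 : ℝ) ^ j := e1.trans ((hmono _ _ (by linarith)).trans j1)
      exact_mod_cast this
    · have h5 : (N : ℝ) ^ (4 * κ) * (N : ℝ) ^ κ ≤ (N : ℝ) ^ (1 / 2 - κ) := by
        rw [← rpow_split _ hN0]
        exact hmono _ _ (by linarith)
      have h6 : 0 < (N : ℝ) ^ (4 * κ) := by positivity
      have : (2 : ℝ) ^ (j + 1) ≤ B := by
        refine le_trans ?_ h.B2
        nlinarith
      exact_mod_cast this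
    · have h5 : (N : ℝ) ^ (1 / 2 + κ) * (N : ℝ) ^ κ = (N : ℝ) ^ (1 / 2 - κ) * (N : ℝ) ^ (3 * κ) := by
        rw [← rpow_split _ hN0, ← rpow_split _ hN0]
        congr 1
        ring
      have h6 : 0 < (N : ℝ) ^ (1 / 2 + κ) := by positivity
      have h7 : (N : ℝ) ^ (1 / 2 - κ) / 2 * (N : ℝ) ^ (3 * κ) ≤ B * 2 ^ j :=
        mul_le_mul h.B2 j1 (by positivity) (Nat.cast_nonneg _)
      have : (y : ℝ) ≤ B * 2 ^ j := by
        refine h.y1.trans (le_trans ?_ h7)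
        nlinarith
      exact_mod_cast this
  · intro m hm1 hm
    rw [Nat.le_div_iff_mul_le hm1]
    have h5 : (z : ℝ) * m ≤ (N : ℝ) ^ κ * (N : ℝ) ^ (1 / 2 - κ) := by
      refine mul_le_mul e1 ?_ (Nat.cast_nonneg _) p1.le
      exact le_trans (by exact_mod_cast hm) h.B1
    have h6 : (N : ℝ) ^ κ * (N : ℝ) ^ (1 / 2 - κ) * (N : ℝ) ^ κ = (N : ℝ) ^ (1 / 2 + κ) := by
      rw [← rpow_split _ hN0, ← rpow_split _ hN0]
      congr 1
      ring
    have h7 : 0 < (N : ℝ) ^ κ * (N : ℝ) ^ (1 / 2 - κ) := by positivity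
    have : (z : ℝ) * m ≤ y := by
      refine h5.trans (le_trans ?_ h.y2)
      nlinarith
    exact_mod_cast this
  · rw [le_div_iff₀ p1, ← rpow_split _ hN0]
    exact hmono _ _ (by linarith)
  · have h5 : (N : ℝ) ^ κ * (N : ℝ) ^ κ ≤ (N : ℝ) ^ (7 * κ) := by
      rw [← rpow_split _ hN0]
      exact hmono _ _ (by linarith)
    nlinarith

end Pool.Agent.Lib.OWS
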