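import Mathlib
import Pool.Agent.Lib.MP_7b7e48_nt.OW.SPChain2
import Pool.Agent.Lib.MP_7b7e48_nt.RG.E2
import Pool.Agent.Lib.MP_7b7e48_nt.RG.NUM

/-!
# Part SP: lower bound for characters in different cosets of the characters modulo `W`
-/

open Finset
open Pool.Agent.Lib.RG (Rough RN bch PB BW)

namespace Pool.Agent.Lib.OWS

theorem changeLevel_nat {W q : ℕ} (hWq : W ∣ q) (ψ : DirichletCharacter ℂ W) {n : ℕ} (hn : n.Coprime q) :
    (DirichletCharacter.changeLevel hWq ψ) (n : ZMod q) = ψ (n : ZMod W) := by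
  have h1 := DirichletCharacter.changeLevel_eq_cast_of_dvd ψ hWq (ZMod.unitOfCoprime n hn)
  rw [ZMod.coe_unitOfCoprime] at h1
  rw [h1, ZMod.cast_natCast hWq]

theorem low_pair (W : ℕ) [NeZero W] : ∃ c3 : ℝ, 0 < c3 ∧ ∀ κ : ℝ, 0 < κ → κ ≤ 1 / 100 →
    ∃ c0 : ℝ, 0 < c0 ∧ ∀ c : ℝ, 0 < c → c ≤ c0 → ∃ N0 : ℕ, ∀ (N q : ℕ) [NeZero q] (hWq : W ∣ q),
    N0 ≤ N → q = W * N → ∀ χ1 χ2 : DirichletCharacter ℂ q,
    (∀ ψ : DirichletCharacter ℂ W, χ1 ≠ DirichletCharacter.changeLevel hWq ψ * χ2) → ∀ γ : ℕ → ℂ,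
    c3 * (⌊(N : ℝ) ^ (1 / 2 + κ)⌋₊ / Real.log ⌊(N : ℝ) ^ c⌋₊) ≤
      ∑ n ∈ RN q ⌊(N : ℝ) ^ c⌋₊ ⌊(N : ℝ) ^ (1 / 2 + κ)⌋₊,
        ‖χ1 (n : ZMod q) - γ (n % W) * χ2 (n : ZMod q)‖ ^ 2 := by
  classical
  obtain ⟨c3, hc3, h3⟩ := RG.no3
  refine ⟨c3, hc3, ?_⟩
  intro κ hκ hκ1
  obtain ⟨c0, hc0, N1, h3'⟩ := h3 κ hκ
  refine ⟨min c0 κ, by positivity, ?_⟩
  intro c hc hcc
  have hcc0 : c ≤ c0 := hcc.trans (min_le_left _ _)
  have hcκ : c ≤ κ := hcc.trans (min_le_right _ _)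
  have hW1 : 1 ≤ W := Nat.one_le_iff_ne_zero.mpr (NeZero.ne W)
  obtain ⟨N2, hN2⟩ := nm_exists κ hκ hκ1 c hc 4
  obtain ⟨N3, h4⟩ := (RH.ev_log_pow 0 (κ / 2) (by positivity) (2 * W) (by positivity)).exists_forall_of_atTop
  obtain ⟨N4, h5⟩ := (RH.ev_log_pow 1 c (by positivity) 4 (by norm_num)).exists_forall_of_atTop
  obtain ⟨N5, h6⟩ := (RH.ev_log_pow 0 (κ / 10) (by positivity) (W + 2) (by positivity)).exists_forall_of_atTop
  refine ⟨max (max N1 N2) (max (max N3 N4) (max N5 (W + 2))), ?_⟩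
  intro N q _ hWq hN hq χ1 χ2 hne γ
  have a1 : N1 ≤ N := (le_max_left _ _).trans ((le_max_left _ _).trans hN)
  have a2 : N2 ≤ N := (le_max_right _ _).trans ((le_max_left _ _).trans hN)
  have a3 : N3 ≤ N := (le_max_left _ _).trans ((le_max_left _ _).trans ((le_max_right _ _).trans hN))
  have a4 : N4 ≤ N := (le_max_right _ _).trans ((le_max_left _ _).trans ((le_max_right _ _).trans hN))
  have a5 : N5 ≤ N := (le_max_left _ _).trans ((le_max_right _ _).trans ((le_max_right _ _).trans hN))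
  have a6 : W + 2 ≤ N := (le_max_right _ _).trans ((le_max_right _ _).trans ((le_max_right _ _).trans hN))
  obtain ⟨_, J, hNm⟩ := hN2 N a2
  obtain ⟨z, hz⟩ : ∃ z : ℕ, z = ⌊(N : ℝ) ^ c⌋₊ := ⟨_, rfl⟩
  obtain ⟨y, hy⟩ : ∃ y : ℕ, y = ⌊(N : ℝ) ^ (1 / 2 + κ)⌋₊ := ⟨_, rfl⟩
  rw [← hz, ← hy] at hNm
  rw [← hz, ← hy]
  obtain ⟨f1, f2, _, _, _, _, _, _, _⟩ := nm_facts hNm hκ hκ1 hcκ
  have hN0 : (0 : ℝ) < N := by linarith
  have hNq : N ≤ q := by rw [hq]; exact Nat.le_mul_of_pos_left _ hW1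
  have hqR : (q : ℝ) = W * N := by rw [hq]; push_cast; ring
  have hWR : (1 : ℝ) ≤ W := by exact_mod_cast hW1
  have hq1 : (1 : ℝ) ≤ q := by rw [hqR]; nlinarith
  have hq0 : (0 : ℝ) < q := by linarith
  have hWN : (W : ℝ) ≤ N := by
    have : W ≤ N := by omega
    exact_mod_cast this
  have hlq : Real.log q ≤ 2 * Real.log N := by
    have e3 : Real.log q ≤ Real.log ((N : ℝ) * N) := by
      refine Real.log_le_log hq0 ?_
      rw [hqR]
      exact mul_le_mul_of_nonneg_right hWN hN0.le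
    rw [Real.log_mul hN0.ne' hN0.ne'] at e3
    linarith
  have k1 : Real.log q ≤ z := by
    have e1 := h5 N a4
    rw [pow_one] at e1
    have e2 : (N : ℝ) ^ c < z + 1 := by rw [hz]; exact Nat.lt_floor_add_one _
    linarith
  have k2 : (z : ℝ) ≤ (q : ℝ) ^ c0 := by
    calc (z : ℝ) ≤ (N : ℝ) ^ c := hNm.zN
      _ ≤ (N : ℝ) ^ c0 := Real.rpow_le_rpow_of_exponent_le f1 hcc0
      _ ≤ (q : ℝ) ^ c0 := Real.rpow_le_rpow hN0.le (by exact_mod_cast hNq) hc0.le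
  have k3 : (q : ℝ) ^ (1 / 2 + κ / 2) ≤ y := by
    have e1 := h4 N a3
    rw [pow_zero, mul_one] at e1
    refine le_trans ?_ hNm.y2
    have e2 : (q : ℝ) ^ (1 / 2 + κ / 2) ≤ W * (N : ℝ) ^ (1 / 2 + κ / 2) := by
      rw [hqR, Real.mul_rpow (by linarith) hN0.le]
      refine mul_le_mul_of_nonneg_right ?_ (by positivity)
      calc (W : ℝ) ^ (1 / 2 + κ / 2) ≤ (W : ℝ) ^ (1 : ℝ) :=
            Real.rpow_le_rpow_of_exponent_le hWR (by linarith)
        _ = W := Real.rpow_one _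
    have e3 : (N : ℝ) ^ (1 / 2 + κ) = (N : ℝ) ^ (1 / 2 + κ / 2) * (N : ℝ) ^ (κ / 2) := by
      rw [← rpow_split _ hN0]; congr 1; ring
    rw [e3]
    have e4 : 0 < (N : ℝ) ^ (1 / 2 + κ / 2) := by positivity
    nlinarith
  -- the function on `ZMod W`
  obtain ⟨g, hg⟩ : ∃ g : ZMod W → ℂ, g = fun x => if IsUnit x then γ x.val else 0 := ⟨_, rfl⟩
  have hg0 : ∀ x : ZMod W, ¬ IsUnit x → g x = 0 := by
    intro x hx
    rw [hg]
    simp only [if_neg hx]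
  obtain ⟨b, hb⟩ : ∃ b : DirichletCharacter ℂ W → ℂ, b = fun ψ => bch g ψ := ⟨_, rfl⟩
  obtain ⟨T, hT⟩ : ∃ T : DirichletCharacter ℂ W → DirichletCharacter ℂ q,
      T = fun ψ => DirichletCharacter.changeLevel hWq ψ * χ2 := ⟨_, rfl⟩
  obtain ⟨I, hI⟩ : ∃ I : Finset (DirichletCharacter ℂ q), I = univ.image T := ⟨_, rfl⟩
  have hnI : χ1 ∉ I := by
    rw [hI, mem_image]
    rintro ⟨ψ, _, h⟩
    rw [hT] at h
    exact hne ψ h.symm
  obtain ⟨cf, hcf⟩ : ∃ cf : DirichletCharacter ℂ q → ℂ, cf = fun χ => if χ = χ1 then 1 else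
      -∑ ψ : DirichletCharacter ℂ W, if T ψ = χ then b ψ else 0 := ⟨_, rfl⟩
  have hcard : ((insert χ1 I).card : ℝ) ≤ (q : ℝ) ^ (κ / 10) := by
    have e1 : (insert χ1 I).card ≤ W + 1 := by
      refine (card_insert_le _ _).trans ?_
      have e2 : I.card ≤ W.totient := by
        rw [hI]
        refine card_image_le.trans ?_
        rw [card_univ, ← Nat.card_eq_fintype_card,
          DirichletCharacter.card_eq_totient_of_hasEnoughRootsOfUnity ℂ W]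
      have e3 := Nat.totient_le W
      omega
    have e4 := h6 N a5
    rw [pow_zero, mul_one] at e4
    calc ((insert χ1 I).card : ℝ) ≤ W + 1 := by exact_mod_cast e1
      _ ≤ (N : ℝ) ^ (κ / 10) := by linarith
      _ ≤ (q : ℝ) ^ (κ / 10) := Real.rpow_le_rpow hN0.le (by exact_mod_cast hNq) (by positivity)
  have hmain := h3' q (a1.trans hNq) z k1 k2 y k3 (insert χ1 I) hcard cf
  have hsum1 : (1 : ℝ) ≤ ∑ χ ∈ insert χ1 I, ‖cf χ‖ ^ 2 := by
    have e1 : ‖cf χ1‖ ^ 2 ≤ ∑ χ ∈ insert χ1 I, ‖cf χ‖ ^ 2 :=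
      single_le_sum (f := fun χ => ‖cf χ‖ ^ 2) (fun _ _ => sq_nonneg _) (mem_insert_self _ _)
    have e2 : cf χ1 = 1 := by rw [hcf]; simp
    rw [e2] at e1
    simpa using e1
  have hz0 : (3 : ℝ) ≤ z := by exact_mod_cast hNm.z3
  have hlz : 0 < Real.log z := Real.log_pos (by linarith)
  have hpt : ∀ n ∈ RN q z y, ‖∑ χ ∈ insert χ1 I, cf χ * χ (n : ZMod q)‖ ^ 2 =
      ‖χ1 (n : ZMod q) - γ (n % W) * χ2 (n : ZMod q)‖ ^ 2 := by
    intro n hn
    have hnq := (mem_RN'.mp hn).2.2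
    have hnW : n.Coprime W := Nat.Coprime.coprime_dvd_right hWq hnq
    have hun : IsUnit (n : ZMod W) := (ZMod.isUnit_iff_coprime n W).mpr hnW
    have e1 : γ (n % W) = ∑ ψ : DirichletCharacter ℂ W, b ψ * ψ (n : ZMod W) := by
      have := RG.chInv g hg0 (n : ZMod W)
      rw [hb, ← this, hg]
      simp only [if_pos hun, ZMod.val_natCast]
    have e2 : ∑ χ ∈ insert χ1 I, cf χ * χ (n : ZMod q) = χ1 (n : ZMod q) - γ (n % W) * χ2 (n : ZMod q) := by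
      rw [sum_insert hnI]
      have e3 : cf χ1 = 1 := by rw [hcf]; simp
      rw [e3, one_mul, sub_eq_add_neg]
      congr 1
      have e4 : ∀ χ ∈ I, cf χ * χ (n : ZMod q) =
          -∑ ψ : DirichletCharacter ℂ W, if T ψ = χ then b ψ * (T ψ) (n : ZMod q) else 0 := by
        intro χ hχ
        have e5 : χ ≠ χ1 := fun h => hnI (h ▸ hχ)
        rw [hcf]
        simp only [if_neg e5]
        rw [neg_mul, sum_mul]
        congr 1
        refine sum_congr rfl fun ψ _ => ?_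
        by_cases h : T ψ = χ
        · rw [if_pos h, if_pos h, h]
        · rw [if_neg h, if_neg h, zero_mul]
      rw [sum_congr rfl e4, sum_neg_distrib, sum_comm, e1, sum_mul]
      congr 1
      refine sum_congr rfl fun ψ _ => ?_
      rw [sum_ite_eq, if_pos (by rw [hI]; exact mem_image_of_mem _ (mem_univ ψ)), hT]
      simp only
      rw [MulChar.mul_apply, changeLevel_nat hWq ψ hnq]
      ring
    rw [e2]
  rw [sum_congr rfl hpt] at hmain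
  have e7 : 0 ≤ c3 * (y / Real.log z) := by positivity
  calc c3 * (y / Real.log z) = c3 * (y / Real.log z) * 1 := (mul_one _).symm
    _ ≤ c3 * (y / Real.log z) * ∑ χ ∈ insert χ1 I, ‖cf χ‖ ^ 2 := mul_le_mul_of_nonneg_left hsum1 e7
    _ ≤ _ := hmain

end Pool.Agent.Lib.OWS
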