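import Mathlib
import Pool.Agent.Lib.MP_7b7e48_nt.RG.E3

/-!
# Part SP of theorem OW: the robust spectral lemma, definitions

`q = W N` is the modulus, `F : ZMod q → ℝ` is supported on the units congruent to `a0` modulo `W`. All errors are
constants (no loss of logarithms).
-/

open Finset
open Pool.Agent.Lib.RG (Rough RN bch PB)

namespace Pool.Agent.Lib.OWS

/-- number of prime factors with multiplicity -/
def om (n : ℕ) : ℕ := n.primeFactorsList.length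

/-- hypotheses of the robust spectral lemma -/
structure Hyp (W N q : ℕ) [NeZero q] (a0 z : ℕ) (η M θ : ℝ) (F : ZMod q → ℝ) (G : ℕ → ℝ)
    (Q P0 : Finset ℕ) : Prop where
  hq : q = W * N
  th : θ ^ 2 = 1
  supp : ∀ x : ZMod q, F x ≠ 0 → IsUnit x ∧ x.val % W = a0 % W
  P0p : ∀ l ∈ P0, l.Prime ∧ (l : ℝ) ≤ M ∧ ¬ l ∣ q
  P0c : M / (Real.log N) ^ 2 ≤ P0.card
  inv : ∀ l ∈ P0, ∑ x : ZMod q, (F ((l : ZMod q) * x) - θ * F x) ^ 2 ≤ η * ∑ x : ZMod q, F x ^ 2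
  val : ∀ n : ℕ, 1 ≤ n → n < N → n % W = a0 % W → n.Coprime q → F (n : ZMod q) = G n
  mul : ∀ l n : ℕ, l.Prime → l ∉ Q → ¬ l ∣ q → z < l → l ^ 2 ≤ N → 1 ≤ n → n.Coprime q → l * n < N →
    G (l * n) = θ * G n
  Qz : ∀ l ∈ Q, l.Prime ∧ z < l
  Qs : ∑ l ∈ Q, 1 / (l : ℝ) ≤ η

open Classical in
/-- the characters which are close to `θ` on average on `P0` -/
noncomputable def XX {q : ℕ} [NeZero q] (P0 : Finset ℕ) (θ : ℝ) : Finset (DirichletCharacter ℂ q) :=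
  Finset.univ.filter fun χ => ∑ l ∈ P0, ‖χ (l : ZMod q) - (θ : ℂ)‖ ^ 2 < P0.card

/-- the share of `χ` in the mass of `F` -/
noncomputable def ww {q : ℕ} [NeZero q] (F : ZMod q → ℝ) (χ : DirichletCharacter ℂ q) : ℝ :=
  (q.totient : ℝ) * ‖bch (fun x => (F x : ℂ)) χ‖ ^ 2 / ∑ x : ZMod q, F x ^ 2

/-- `θ^Ω(n) χ(n)` -/
noncomputable def gg {q : ℕ} (θ : ℝ) (χ : DirichletCharacter ℂ q) (n : ℕ) : ℂ :=
  (θ : ℂ) ^ om n * χ (n : ZMod q)

/-- weighted square distance of the vectors `(g i m)`, `(g i n)` -/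
noncomputable def Dst {ι : Type} (X : Finset ι) (w : ι → ℝ) (g : ι → ℕ → ℂ) (m n : ℕ) : ℝ :=
  ∑ i ∈ X, w i * ‖g i m - g i n‖ ^ 2

/-- a weighted family of unimodular completely multiplicative functions -/
structure Fam {ι : Type} (q : ℕ) (X : Finset ι) (w : ι → ℝ) (g : ι → ℕ → ℂ) : Prop where
  w0 : ∀ i ∈ X, 0 ≤ w i
  w1 : ∑ i ∈ X, w i ≤ 1
  mul : ∀ i ∈ X, ∀ m n : ℕ, 1 ≤ m → 1 ≤ n → g i (m * n) = g i m * g i n
  nrm : ∀ i ∈ X, ∀ n : ℕ, 1 ≤ n → n.Coprime q → ‖g i n‖ = 1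

/-- the two point inequality: `B` is the upper limit, `E` the bound for the logarithmic mass of `e` -/
structure Two {ι : Type} (W q z B : ℕ) (E : ℝ) (X : Finset ι) (w : ι → ℝ) (g : ι → ℕ → ℂ) (e : ℕ → ℝ) :
    Prop where
  e0 : ∀ n, 0 ≤ e n
  mass : ∑ A ∈ RN q z B, e A / A ≤ E
  two : ∀ A ∈ RN q z B, ∀ A' ∈ RN q z B, A % W = A' % W →
    Dst X w g A A' ≤ ((A : ℝ) / A' + (A' : ℝ) / A) * (e A + e A')

section
variable {ι : Type} {q : ℕ} {X : Finset ι} {w : ι → ℝ} {g : ι → ℕ → ℂ}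

theorem Dst_nonneg (h : Fam q X w g) (m n : ℕ) : 0 ≤ Dst X w g m n :=
  Finset.sum_nonneg fun i hi => mul_nonneg (h.w0 i hi) (sq_nonneg _)

theorem Dst_symm (m n : ℕ) : Dst X w g m n = Dst X w g n m := by
  unfold Dst
  refine Finset.sum_congr rfl fun i _ => ?_
  rw [norm_sub_rev]

theorem Dst_le_four (h : Fam q X w g) {m n : ℕ} (hm : 1 ≤ m) (hn : 1 ≤ n) (hmq : m.Coprime q)
    (hnq : n.Coprime q) : Dst X w g m n ≤ 4 := by
  unfold Dst
  calc ∑ i ∈ X, w i * ‖g i m - g i n‖ ^ 2 ≤ ∑ i ∈ X, w i * 4 := by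
        refine Finset.sum_le_sum fun i hi => mul_le_mul_of_nonneg_left ?_ (h.w0 i hi)
        have h1 := norm_sub_le (g i m) (g i n)
        rw [h.nrm i hi m hm hmq, h.nrm i hi n hn hnq] at h1
        have h2 := norm_nonneg (g i m - g i n)
        nlinarith
    _ = (∑ i ∈ X, w i) * 4 := by rw [Finset.sum_mul]
    _ ≤ 4 := by linarith [h.w1]

theorem Dst_mul (h : Fam q X w g) {a m n : ℕ} (ha : 1 ≤ a) (hm : 1 ≤ m) (hn : 1 ≤ n)
    (haq : a.Coprime q) : Dst X w g (a * m) (a * n) = Dst X w g m n := by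
  unfold Dst
  refine Finset.sum_congr rfl fun i hi => ?_
  rw [h.mul i hi a m ha hm, h.mul i hi a n ha hn, ← mul_sub, norm_mul, h.nrm i hi a ha haq, one_mul]

theorem Dst_three (h : Fam q X w g) (a b c d : ℕ) :
    Dst X w g a d ≤ 3 * (Dst X w g a b + Dst X w g b c + Dst X w g c d) := by
  unfold Dst
  rw [← Finset.sum_add_distrib, ← Finset.sum_add_distrib, Finset.mul_sum]
  refine Finset.sum_le_sum fun i hi => ?_
  have h0 := h.w0 i hi
  have h1 : ‖g i a - g i d‖ ≤ ‖g i a - g i b‖ + ‖g i b - g i c‖ + ‖g i c - g i d‖ := by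
    have : g i a - g i d = (g i a - g i b) + (g i b - g i c) + (g i c - g i d) := by ring
    rw [this]
    exact (norm_add_le _ _).trans (add_le_add_left (norm_add_le _ _) _)
  have h2 : ‖g i a - g i d‖ ^ 2 ≤ 3 * (‖g i a - g i b‖ ^ 2 + ‖g i b - g i c‖ ^ 2 + ‖g i c - g i d‖ ^ 2) := by
    have h3 := norm_nonneg (g i a - g i d)
    have h4 := norm_nonneg (g i a - g i b)
    have h5 := norm_nonneg (g i b - g i c)
    have h6 := norm_nonneg (g i c - g i d)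
    nlinarith [sq_nonneg (‖g i a - g i b‖ - ‖g i b - g i c‖), sq_nonneg (‖g i b - g i c‖ - ‖g i c - g i d‖),
      sq_nonneg (‖g i a - g i b‖ - ‖g i c - g i d‖), pow_le_pow_left₀ h3 h1 2]
  calc w i * ‖g i a - g i d‖ ^ 2 ≤ w i * (3 * (‖g i a - g i b‖ ^ 2 + ‖g i b - g i c‖ ^ 2 + ‖g i c - g i d‖ ^ 2)) :=
        mul_le_mul_of_nonneg_left h2 h0
    _ = _ := by ring

end

theorem om_mul {m n : ℕ} (hm : 1 ≤ m) (hn : 1 ≤ n) : om (m * n) = om m + om n := by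
  unfold om
  rw [(Nat.perm_primeFactorsList_mul (by omega) (by omega)).length_eq, List.length_append]

theorem om_prime {l : ℕ} (hl : l.Prime) : om l = 1 := by
  unfold om
  rw [Nat.primeFactorsList_prime hl]
  rfl

theorem gg_mul {q : ℕ} (θ : ℝ) (χ : DirichletCharacter ℂ q) {m n : ℕ} (hm : 1 ≤ m) (hn : 1 ≤ n) :
    gg θ χ (m * n) = gg θ χ m * gg θ χ n := by
  unfold gg
  rw [om_mul hm hn, pow_add, Nat.cast_mul, map_mul]
  ring

theorem th_norm {θ : ℝ} (h : θ ^ 2 = 1) : ‖(θ : ℂ)‖ = 1 := by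
  rw [Complex.norm_real, Real.norm_eq_abs]
  have h1 : |θ| ^ 2 = 1 := by rw [sq_abs, h]
  exact (pow_eq_one_iff_of_nonneg (abs_nonneg _) two_ne_zero).mp h1

theorem gg_norm {q : ℕ} [NeZero q] {θ : ℝ} (h : θ ^ 2 = 1) (χ : DirichletCharacter ℂ q) {n : ℕ}
    (hn : n.Coprime q) : ‖gg θ χ n‖ = 1 := by
  unfold gg
  rw [norm_mul, norm_pow, th_norm h, one_pow, one_mul]
  exact RG.chNorm χ ((ZMod.isUnit_iff_coprime n q).mpr hn)

theorem Fam_gg {q : ℕ} [NeZero q] {θ : ℝ} (h : θ ^ 2 = 1) (F : ZMod q → ℝ)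
    (h0 : ∀ x : ZMod q, ¬ IsUnit x → F x = 0) (X : Finset (DirichletCharacter ℂ q)) :
    Fam q X (ww F) (gg θ) := by
  have hS : 0 ≤ ∑ x : ZMod q, F x ^ 2 := Finset.sum_nonneg fun x _ => sq_nonneg _
  have hw : ∀ χ : DirichletCharacter ℂ q, 0 ≤ ww F χ := by
    intro χ
    unfold ww
    positivity
  refine ⟨fun χ _ => hw χ, ?_, fun χ _ m n hm hn => gg_mul θ χ hm hn, fun χ _ n _ hq => gg_norm h χ hq⟩
  have h1 := RG.chParsF (fun x : ZMod q => (F x : ℂ)) (fun x hx => by rw [h0 x hx]; simp)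
  have h2 : ∑ x : ZMod q, ‖((F x : ℝ) : ℂ)‖ ^ 2 = ∑ x : ZMod q, F x ^ 2 := RG.sum_norm_cast F
  have h3 : ∑ χ ∈ X, ww F χ ≤ ∑ χ : DirichletCharacter ℂ q, ww F χ :=
    Finset.sum_le_sum_of_subset_of_nonneg (Finset.subset_univ X) fun χ _ _ => hw χ
  refine h3.trans ?_
  have h4 : ∑ χ : DirichletCharacter ℂ q, ww F χ = (∑ x : ZMod q, F x ^ 2) / ∑ x : ZMod q, F x ^ 2 := by
    unfold ww
    rw [← Finset.sum_div, ← Finset.mul_sum]
    rw [← h1, h2]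
  rw [h4]
  exact div_self_le_one _

end Pool.Agent.Lib.OWS
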