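import Mathlib
import Pool.Agent.Lib.MP_7b7e48_nt.OW.SPDefs
import Pool.Agent.Lib.MP_7b7e48_nt.RG.NUM

/-!
# Part SP: few characters are close to `θ` on average
-/

open Finset
open Pool.Agent.Lib.RG (Rough RN bch PB BW)

namespace Pool.Agent.Lib.OWS

/-- `u`-tuples with the same product are permutations of each other -/
private theorem SF_perm {u : ℕ} (f g : Fin u → ℕ) (hf : ∀ i, (f i).Prime) (hg : ∀ i, (g i).Prime)
    (h : ∏ i, f i = ∏ i, g i) : (List.ofFn g).Perm (List.ofFn f) := by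
  have h1 : (List.ofFn g).prod = ∏ i, f i := by rw [List.prod_ofFn, h]
  have h2 : (List.ofFn f).prod = ∏ i, f i := by rw [List.prod_ofFn]
  have h3 := Nat.primeFactorsList_unique h1 (by
    intro p hp
    rw [List.mem_ofFn] at hp
    obtain ⟨i, rfl⟩ := hp
    exact hg i)
  have h4 := Nat.primeFactorsList_unique h2 (by
    intro p hp
    rw [List.mem_ofFn] at hp
    obtain ⟨i, rfl⟩ := hp
    exact hf i)
  exact h3.trans h4.symm

open Classical in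
private theorem SF_count {u : ℕ} (Q : Finset ℕ) (hQ : ∀ l ∈ Q, l.Prime) (f : Fin u → ℕ)
    (hf : ∀ i, f i ∈ Q) :
    ((Fintype.piFinset (fun _ : Fin u => Q)).filter (fun g => ∏ i, f i = ∏ i, g i)).card ≤ u.factorial := by
  have h1 : ((Fintype.piFinset (fun _ : Fin u => Q)).filter (fun g => ∏ i, f i = ∏ i, g i)).card ≤
      ((List.ofFn f).permutations.toFinset).card := by
    refine card_le_card_of_injOn (fun g => List.ofFn g) ?_ ?_
    · intro g hg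
      rw [mem_coe, mem_filter, Fintype.mem_piFinset] at hg
      rw [mem_coe, List.mem_toFinset, List.mem_permutations]
      exact SF_perm f g (fun i => hQ _ (hf i)) (fun i => hQ _ (hg.1 i)) hg.2
    · intro g _ g' _ h
      exact List.ofFn_injective h
  refine h1.trans ((List.toFinset_card_le _).trans ?_)
  rw [List.length_permutations, List.length_ofFn]

private theorem SF_conj {N : ℕ} [NeZero N] (χ : DirichletCharacter ℂ N) (a : ZMod N) (ha : IsUnit a) :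
    (starRingEnd ℂ) (χ a) = χ a⁻¹ := by
  obtain ⟨v, rfl⟩ := ha
  have h1 : ‖χ (v : ZMod N)‖ = 1 := DirichletCharacter.unit_norm_eq_one χ v
  rw [← Complex.inv_eq_conj h1, ZMod.inv_coe_unit, ← MulChar.inv_apply_eq_inv', MulChar.inv_apply,
    Ring.inverse_unit]

open Classical in
private theorem SF_moment (N : ℕ) [NeZero N] (Q : Finset ℕ) (B u : ℕ)
    (hQ : ∀ l ∈ Q, l.Prime ∧ l ≤ B ∧ ¬ l ∣ N) (hB : B ^ u < N) :
    ∑ χ : DirichletCharacter ℂ N, (‖(∑ l ∈ Q, χ (l : ZMod N)) ^ u‖ ^ 2 : ℝ) ≤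
      N.totient * ((Q.card : ℝ) ^ u * u.factorial) := by
  set P := Fintype.piFinset (fun _ : Fin u => Q) with hP
  have hPc : P.card = Q.card ^ u := by
    rw [hP, Fintype.card_piFinset, prod_const, card_univ, Fintype.card_fin]
  have hmem : ∀ f ∈ P, ∀ i, f i ∈ Q := fun f hf i => Fintype.mem_piFinset.1 hf i
  have hunit : ∀ f ∈ P, IsUnit (((∏ i, f i : ℕ) : ZMod N)) := by
    intro f hf
    rw [ZMod.isUnit_iff_coprime]
    refine Nat.Coprime.prod_left fun i _ => ?_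
    obtain ⟨h1, -, h3⟩ := hQ (f i) (hmem f hf i)
    exact (Nat.Prime.coprime_iff_not_dvd h1).2 h3
  have hlt : ∀ f ∈ P, ∏ i, f i < N := by
    intro f hf
    refine lt_of_le_of_lt ?_ hB
    have h := prod_le_pow_card (univ : Finset (Fin u)) f B fun i _ => (hQ _ (hmem f hf i)).2.1
    rwa [card_univ, Fintype.card_fin] at h
  have hinj : ∀ f ∈ P, ∀ g ∈ P, (((∏ i, f i : ℕ) : ZMod N)) = ((∏ i, g i : ℕ) : ZMod N) →
      ∏ i, f i = ∏ i, g i := by
    intro f hf g hg h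
    rwa [ZMod.natCast_eq_natCast_iff', Nat.mod_eq_of_lt (hlt f hf), Nat.mod_eq_of_lt (hlt g hg)] at h
  have hpow : ∀ χ : DirichletCharacter ℂ N, (∑ l ∈ Q, χ (l : ZMod N)) ^ u =
      ∑ f ∈ P, χ (((∏ i, f i : ℕ) : ZMod N)) := by
    intro χ
    have h1 := prod_univ_sum (fun _ : Fin u => Q) (fun _ l => χ (l : ZMod N))
    rw [prod_const, card_univ, Fintype.card_fin] at h1
    rw [h1]
    refine sum_congr rfl fun f _ => ?_
    rw [Nat.cast_prod, map_prod]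
  have key : ((∑ χ : DirichletCharacter ℂ N, (‖(∑ l ∈ Q, χ (l : ZMod N)) ^ u‖ ^ 2 : ℝ) : ℝ) : ℂ) =
      (((N.totient : ℝ) * ∑ f ∈ P, ((P.filter (fun g => ∏ i, f i = ∏ i, g i)).card : ℝ) : ℝ) : ℂ) := by
    push_cast
    have h2 : ∀ χ : DirichletCharacter ℂ N,
        ((‖(∑ l ∈ Q, χ (l : ZMod N)) ^ u‖ : ℂ) ^ 2) =
        ∑ f ∈ P, ∑ g ∈ P, χ ((((∏ i, f i : ℕ) : ZMod N))⁻¹) * χ (((∏ i, g i : ℕ) : ZMod N)) := by
      intro χ
      rw [hpow χ, ← Complex.conj_mul', map_sum, sum_mul_sum]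
      refine sum_congr rfl fun f hf => sum_congr rfl fun g _ => ?_
      rw [SF_conj χ _ (hunit f hf)]
    have h3 : ∑ χ : DirichletCharacter ℂ N, ((‖(∑ l ∈ Q, χ (l : ZMod N)) ^ u‖ : ℂ) ^ 2) =
        ∑ f ∈ P, ∑ g ∈ P, ∑ χ : DirichletCharacter ℂ N,
          χ ((((∏ i, f i : ℕ) : ZMod N))⁻¹) * χ (((∏ i, g i : ℕ) : ZMod N)) := by
      rw [sum_congr rfl fun χ _ => h2 χ, sum_comm]
      refine sum_congr rfl fun f _ => ?_
      rw [sum_comm]
    have h4 : ∀ f ∈ P, ∑ g ∈ P, ∑ χ : DirichletCharacter ℂ N,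
          χ ((((∏ i, f i : ℕ) : ZMod N))⁻¹) * χ (((∏ i, g i : ℕ) : ZMod N)) =
          (N.totient : ℂ) * ((P.filter (fun g => ∏ i, f i = ∏ i, g i)).card : ℂ) := by
      intro f hf
      have h5 : ∀ g ∈ P, ∑ χ : DirichletCharacter ℂ N,
          χ ((((∏ i, f i : ℕ) : ZMod N))⁻¹) * χ (((∏ i, g i : ℕ) : ZMod N)) =
          if ∏ i, f i = ∏ i, g i then (N.totient : ℂ) else 0 := by
        intro g hg
        rw [DirichletCharacter.sum_char_inv_mul_char_eq ℂ (hunit f hf)]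
        by_cases h : ∏ i, f i = ∏ i, g i
        · rw [if_pos h, if_pos (by rw [h])]
        · rw [if_neg h, if_neg (fun h' => h (hinj f hf g hg h'))]
      rw [sum_congr rfl h5, ← sum_filter, sum_const, nsmul_eq_mul, mul_comm]
    rw [h3, sum_congr rfl h4, ← mul_sum]
  have key2 := Complex.ofReal_injective key
  rw [key2]
  refine mul_le_mul_of_nonneg_left ?_ (Nat.cast_nonneg _)
  calc ∑ f ∈ P, ((P.filter (fun g => ∏ i, f i = ∏ i, g i)).card : ℝ) ≤ ∑ f ∈ P, (u.factorial : ℝ) := by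
        refine sum_le_sum fun f hf => ?_
        exact_mod_cast SF_count Q (fun l hl => (hQ l hl).1) f (hmem f hf)
    _ = (Q.card : ℝ) ^ u * u.factorial := by
        rw [sum_const, nsmul_eq_mul, hPc]
        push_cast
        ring

/-- `|χ l - θ|² = 2 - 2 θ Re χ l` -/
private theorem SF_norm (w : ℂ) (θ : ℝ) (hw : ‖w‖ = 1) (hθ : θ ^ 2 = 1) :
    ‖w - (θ : ℂ)‖ ^ 2 = 2 - 2 * (θ * w.re) := by
  have h1 : w.re ^ 2 + w.im ^ 2 = 1 := by
    have h := Complex.sq_norm w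
    rw [hw, Complex.normSq_apply] at h
    nlinarith [h]
  rw [Complex.sq_norm, Complex.normSq_apply]
  simp only [Complex.sub_re, Complex.sub_im, Complex.ofReal_re, Complex.ofReal_im, sub_zero]
  nlinarith [h1, hθ]


theorem few_raw (q : ℕ) [NeZero q] (P0 : Finset ℕ) (B u : ℕ) (hP : ∀ l ∈ P0, l.Prime ∧ l ≤ B ∧ ¬ l ∣ q)
    (hB : B ^ u < q) (θ : ℝ) (hθ : θ ^ 2 = 1) (hc : 0 < P0.card) :
    ((XX (q := q) P0 θ).card : ℝ) * (P0.card : ℝ) ^ u ≤ q * (4 : ℝ) ^ u * u.factorial := by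
  classical
  have hcR : (0 : ℝ) < P0.card := by exact_mod_cast hc
  have h1 := SF_moment q P0 B u hP hB
  have h2 : ∀ χ ∈ XX (q := q) P0 θ, ((P0.card : ℝ) / 2) ^ (2 * u) ≤
      ‖(∑ l ∈ P0, χ (l : ZMod q)) ^ u‖ ^ 2 := by
    intro χ hχ
    unfold XX at hχ
    rw [mem_filter] at hχ
    have h3 : ∀ l ∈ P0, ‖χ (l : ZMod q) - (θ : ℂ)‖ ^ 2 = 2 - 2 * (θ * (χ (l : ZMod q)).re) := by
      intro l hl
      obtain ⟨hp, _, hd⟩ := hP l hl
      refine SF_norm _ θ ?_ hθ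
      exact RG.chNorm χ ((ZMod.isUnit_iff_coprime l q).mpr ((Nat.Prime.coprime_iff_not_dvd hp).2 hd))
    have h4 := hχ.2
    rw [sum_congr rfl h3, sum_sub_distrib, sum_const, nsmul_eq_mul, ← mul_sum, ← mul_sum] at h4
    have h5 : (∑ l ∈ P0, χ (l : ZMod q)).re = ∑ l ∈ P0, (χ (l : ZMod q)).re := Complex.re_sum _ _
    rw [← h5] at h4
    have h6 : (P0.card : ℝ) / 2 ≤ θ * (∑ l ∈ P0, χ (l : ZMod q)).re := by linarith
    have h7 : θ * (∑ l ∈ P0, χ (l : ZMod q)).re ≤ ‖∑ l ∈ P0, χ (l : ZMod q)‖ := by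
      have h8 : |θ| = 1 := by
        have h9 : |θ| ^ 2 = 1 := by rw [sq_abs, hθ]
        exact (pow_eq_one_iff_of_nonneg (abs_nonneg _) two_ne_zero).mp h9
      calc θ * (∑ l ∈ P0, χ (l : ZMod q)).re ≤ |θ * (∑ l ∈ P0, χ (l : ZMod q)).re| := le_abs_self _
        _ = |(∑ l ∈ P0, χ (l : ZMod q)).re| := by rw [abs_mul, h8, one_mul]
        _ ≤ _ := Complex.abs_re_le_norm _
    rw [norm_pow, ← pow_mul, mul_comm u 2]
    exact pow_le_pow_left₀ (by positivity) (h6.trans h7) _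
  have h3 : ((XX (q := q) P0 θ).card : ℝ) * ((P0.card : ℝ) / 2) ^ (2 * u) ≤
      q.totient * ((P0.card : ℝ) ^ u * u.factorial) := by
    refine le_trans ?_ h1
    calc ((XX (q := q) P0 θ).card : ℝ) * ((P0.card : ℝ) / 2) ^ (2 * u) =
          ∑ _χ ∈ XX (q := q) P0 θ, ((P0.card : ℝ) / 2) ^ (2 * u) := by rw [sum_const, nsmul_eq_mul]
      _ ≤ ∑ χ ∈ XX (q := q) P0 θ, ‖(∑ l ∈ P0, χ (l : ZMod q)) ^ u‖ ^ 2 := sum_le_sum h2
      _ ≤ _ := sum_le_sum_of_subset_of_nonneg (subset_univ _) fun _ _ _ => sq_nonneg _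
  have h4 : (q.totient : ℝ) ≤ q := by exact_mod_cast Nat.totient_le q
  have h5 : ((P0.card : ℝ) / 2) ^ (2 * u) = (P0.card : ℝ) ^ u * ((P0.card : ℝ) ^ u / 4 ^ u) := by
    rw [pow_mul, div_pow]
    have : ((P0.card : ℝ) ^ 2 / 2 ^ 2) = (P0.card : ℝ) * ((P0.card : ℝ) / 4) := by ring
    rw [this, mul_pow, div_pow]
  rw [h5] at h3
  have h6 : (0 : ℝ) < (P0.card : ℝ) ^ u := by positivity
  have h7 : ((XX (q := q) P0 θ).card : ℝ) * ((P0.card : ℝ) ^ u / 4 ^ u) ≤ q * u.factorial := by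
    have h8 : (P0.card : ℝ) ^ u * (((XX (q := q) P0 θ).card : ℝ) * ((P0.card : ℝ) ^ u / 4 ^ u)) ≤
        (P0.card : ℝ) ^ u * (q * u.factorial) := by
      calc (P0.card : ℝ) ^ u * (((XX (q := q) P0 θ).card : ℝ) * ((P0.card : ℝ) ^ u / 4 ^ u)) =
            ((XX (q := q) P0 θ).card : ℝ) * ((P0.card : ℝ) ^ u * ((P0.card : ℝ) ^ u / 4 ^ u)) := by ring
        _ ≤ q.totient * ((P0.card : ℝ) ^ u * u.factorial) := h3
        _ ≤ q * ((P0.card : ℝ) ^ u * u.factorial) := mul_le_mul_of_nonneg_right h4 (by positivity)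
        _ = _ := by ring
    exact le_of_mul_le_mul_left h8 h6
  calc ((XX (q := q) P0 θ).card : ℝ) * (P0.card : ℝ) ^ u =
        (4 : ℝ) ^ u * (((XX (q := q) P0 θ).card : ℝ) * ((P0.card : ℝ) ^ u / 4 ^ u)) := by
        field_simp
    _ ≤ (4 : ℝ) ^ u * (q * u.factorial) := mul_le_mul_of_nonneg_left h7 (by positivity)
    _ = _ := by ring

theorem few_soft (W : ℕ) (hW : 1 ≤ W) (κ : ℝ) (hκ : 0 < κ) : ∃ C1 : ℕ, 3 ≤ C1 ∧ ∃ N0 : ℕ,
    ∀ (N q : ℕ) [NeZero q], N0 ≤ N → q = W * N → ∀ P0 : Finset ℕ,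
    (∀ l ∈ P0, l.Prime ∧ (l : ℝ) ≤ (Real.log N) ^ C1 ∧ ¬ l ∣ q) →
    (Real.log N) ^ C1 / (Real.log N) ^ 2 ≤ P0.card → ∀ θ : ℝ, θ ^ 2 = 1 →
    ((XX (q := q) P0 θ).card : ℝ) ≤ (N : ℝ) ^ κ := by
  classical
  obtain ⟨C1, hC3, hCκ⟩ : ∃ C1 : ℕ, 3 ≤ C1 ∧ 1 + 16 / κ ≤ (C1 : ℝ) :=
    ⟨max 3 ⌈1 + 16 / κ⌉₊, le_max_left _ _, (Nat.le_ceil _).trans (by exact_mod_cast le_max_right _ _)⟩
  refine ⟨C1, hC3, ?_⟩
  have hlog : Filter.Tendsto (fun N : ℕ => Real.log N) Filter.atTop Filter.atTop :=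
    Real.tendsto_log_atTop.comp tendsto_natCast_atTop_atTop
  obtain ⟨N1, h1⟩ := (hlog.eventually_ge_atTop 8).exists_forall_of_atTop
  obtain ⟨N2, h2⟩ := (RH.ev_log_pow C1 (κ / 2) (by positivity) 1 (by norm_num)).exists_forall_of_atTop
  refine ⟨max (max N1 N2) (max W 2), ?_⟩
  intro N q _ hN hq P0 hP hc θ hθ
  have hL8 := h1 N ((le_max_left _ _).trans ((le_max_left _ _).trans hN))
  have hLk := h2 N ((le_max_right _ _).trans ((le_max_left _ _).trans hN))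
  have hWN : W ≤ N := (le_max_left _ _).trans ((le_max_right _ _).trans hN)
  have hN2 : 2 ≤ N := (le_max_right _ _).trans ((le_max_right _ _).trans hN)
  obtain ⟨L, hL⟩ : ∃ L : ℝ, L = Real.log N := ⟨_, rfl⟩
  rw [← hL] at hL8 hLk hc hP
  rw [one_mul] at hLk
  have hL0 : 0 < L := by linarith
  have hN0 : (0 : ℝ) < N := by
    have : 0 < N := by omega
    exact_mod_cast this
  have hC1 : C1 = C1 - 2 + 2 := by omega
  have hcard : L ^ (C1 - 2) ≤ P0.card := by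
    refine le_trans (le_of_eq ?_) hc
    rw [eq_div_iff (by positivity), ← pow_add]
    congr 1
    omega
  have hcpos : 0 < P0.card := by
    have : (0 : ℝ) < P0.card := lt_of_lt_of_le (by positivity) hcard
    exact_mod_cast this
  obtain ⟨B, hB⟩ : ∃ B : ℕ, B = ⌊L ^ C1⌋₊ := ⟨_, rfl⟩
  have hB1 : (B : ℝ) ≤ L ^ C1 := by rw [hB]; exact Nat.floor_le (by positivity)
  have hB2 : L ^ (C1 - 1) ≤ B := by
    have h3 : L ^ C1 < B + 1 := by rw [hB]; exact Nat.lt_floor_add_one _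
    have h4 : L ^ C1 = L ^ (C1 - 1) * L := by
      rw [← pow_succ]
      congr 1
      omega
    have h5 : 1 ≤ L ^ (C1 - 1) := one_le_pow₀ (by linarith)
    nlinarith
  have hB8 : 8 ≤ (B : ℝ) := by
    refine le_trans ?_ hB2
    calc (8 : ℝ) ≤ L := hL8
      _ ≤ L ^ (C1 - 1) := le_self_pow₀ (by linarith) (by omega)
  have hBn : 1 < B := by
    have : 8 ≤ B := by exact_mod_cast hB8
    omega
  have hq2 : 2 ≤ q := by
    rw [hq]
    calc 2 ≤ N := hN2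
      _ ≤ W * N := Nat.le_mul_of_pos_left _ hW
  obtain ⟨u, hu⟩ : ∃ u : ℕ, u = Nat.log B (q - 1) := ⟨_, rfl⟩
  have hu1 : B ^ u < q := by
    have h3 := Nat.pow_log_le_self B (x := q - 1) (by omega)
    rw [← hu] at h3
    omega
  have hu2 : q ≤ B ^ (u + 1) := by
    have h3 := Nat.lt_pow_succ_log_self hBn (q - 1)
    rw [← hu, Nat.succ_eq_add_one] at h3
    omega
  have hraw := few_raw q P0 B u (fun l hl => by
    obtain ⟨a, b, c⟩ := hP l hl
    refine ⟨a, ?_, c⟩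
    rw [hB]
    exact Nat.le_floor b) hu1 θ hθ hcpos
  have hlogL : 0 < Real.log L := Real.log_pos (by linarith)
  have hlB : (C1 - 1 : ℝ) * Real.log L ≤ Real.log B := by
    have h3 := Real.log_le_log (by positivity) hB2
    rw [Real.log_pow] at h3
    have h4 : ((C1 - 1 : ℕ) : ℝ) = (C1 : ℝ) - 1 := by
      rw [Nat.cast_sub (by omega)]
      norm_num
    rwa [h4] at h3
  have hqN : (q : ℝ) ≤ (N : ℝ) * N := by
    rw [hq]
    push_cast
    exact mul_le_mul_of_nonneg_right (by exact_mod_cast hWN) hN0.le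
  have hq0 : (0 : ℝ) < q := by
    have : 0 < q := by omega
    exact_mod_cast this
  have hlq : Real.log q ≤ 2 * L := by
    have h3 := Real.log_le_log hq0 hqN
    rw [Real.log_mul hN0.ne' hN0.ne', ← hL] at h3
    linarith
  have hC16 : 16 / κ ≤ (C1 : ℝ) - 1 := by linarith
  have hC0 : (0 : ℝ) < (C1 : ℝ) - 1 := lt_of_lt_of_le (by positivity) hC16
  have hul : (u : ℝ) * ((C1 - 1 : ℝ) * Real.log L) ≤ 2 * L := by
    have h3 : (u : ℝ) * Real.log B ≤ Real.log q := by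
      rw [← Real.log_pow]
      exact Real.log_le_log (by positivity) (by exact_mod_cast hu1.le)
    have h4 : (u : ℝ) * ((C1 - 1 : ℝ) * Real.log L) ≤ (u : ℝ) * Real.log B :=
      mul_le_mul_of_nonneg_left hlB (Nat.cast_nonneg _)
    linarith
  have hu2L : (u : ℝ) ≤ 2 * L := by
    have h3 : (1 : ℝ) ≤ (C1 - 1 : ℝ) * Real.log L := by
      have h4 : (2 : ℝ) ≤ (C1 : ℝ) - 1 := by
        have : (3 : ℝ) ≤ C1 := by exact_mod_cast hC3
        linarith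
      have h5 : 1 ≤ Real.log L := by
        rw [Real.le_log_iff_exp_le hL0]
        have := Real.exp_one_lt_d9
        linarith
      nlinarith
    have h4 : (u : ℝ) * 1 ≤ (u : ℝ) * ((C1 - 1 : ℝ) * Real.log L) :=
      mul_le_mul_of_nonneg_left h3 (Nat.cast_nonneg _)
    linarith
  have hfac : (u.factorial : ℝ) ≤ (u : ℝ) ^ u := by exact_mod_cast Nat.factorial_le_pow u
  have hqB : (q : ℝ) ≤ (L ^ C1) * (L ^ C1) ^ u := by
    calc (q : ℝ) ≤ ((B ^ (u + 1) : ℕ) : ℝ) := by exact_mod_cast hu2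
      _ = (B : ℝ) ^ (u + 1) := by push_cast; rfl
      _ ≤ (L ^ C1) ^ (u + 1) := pow_le_pow_left₀ (Nat.cast_nonneg _) hB1 _
      _ = _ := by rw [pow_succ]; ring
  have hP0u : (L ^ (C1 - 2)) ^ u ≤ (P0.card : ℝ) ^ u := pow_le_pow_left₀ (by positivity) hcard u
  have hX : ((XX (q := q) P0 θ).card : ℝ) * (L ^ (C1 - 2)) ^ u ≤
      (L ^ C1) * ((L ^ C1) ^ u * (4 : ℝ) ^ u * (u : ℝ) ^ u) := by
    calc ((XX (q := q) P0 θ).card : ℝ) * (L ^ (C1 - 2)) ^ u ≤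
          ((XX (q := q) P0 θ).card : ℝ) * (P0.card : ℝ) ^ u :=
          mul_le_mul_of_nonneg_left hP0u (Nat.cast_nonneg _)
      _ ≤ q * (4 : ℝ) ^ u * u.factorial := hraw
      _ ≤ ((L ^ C1) * (L ^ C1) ^ u) * (4 : ℝ) ^ u * (u : ℝ) ^ u := by
          refine mul_le_mul (mul_le_mul_of_nonneg_right hqB (by positivity)) hfac (by positivity)
            (by positivity)
      _ = _ := by ring
  have hpow : (L ^ C1) ^ u * (4 : ℝ) ^ u * (u : ℝ) ^ u ≤ (L ^ 4) ^ u * (L ^ (C1 - 2)) ^ u := by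
    rw [← mul_pow, ← mul_pow, ← mul_pow]
    refine pow_le_pow_left₀ (by positivity) ?_ u
    have h3 : L ^ C1 = L ^ (C1 - 2) * L ^ 2 := by rw [← pow_add]; congr 1
    rw [h3]
    have h4 : 0 < L ^ (C1 - 2) := by positivity
    have h5 : 4 * (u : ℝ) ≤ L ^ 2 := by nlinarith
    calc L ^ (C1 - 2) * L ^ 2 * 4 * u = L ^ (C1 - 2) * L ^ 2 * (4 * u) := by ring
      _ ≤ L ^ (C1 - 2) * L ^ 2 * L ^ 2 := mul_le_mul_of_nonneg_left h5 (by positivity)
      _ = L ^ 4 * L ^ (C1 - 2) := by ring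
  have hX2 : ((XX (q := q) P0 θ).card : ℝ) ≤ L ^ C1 * (L ^ 4) ^ u := by
    have h3 : (0 : ℝ) < (L ^ (C1 - 2)) ^ u := by positivity
    refine le_of_mul_le_mul_right ?_ h3
    calc ((XX (q := q) P0 θ).card : ℝ) * (L ^ (C1 - 2)) ^ u ≤
          (L ^ C1) * ((L ^ C1) ^ u * (4 : ℝ) ^ u * (u : ℝ) ^ u) := hX
      _ ≤ (L ^ C1) * ((L ^ 4) ^ u * (L ^ (C1 - 2)) ^ u) := mul_le_mul_of_nonneg_left hpow (by positivity)
      _ = _ := by ring
  have hLu : (L ^ 4) ^ u ≤ (N : ℝ) ^ (κ / 2) := by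
    rw [← Real.log_le_log_iff (by positivity) (by positivity), Real.log_pow, Real.log_pow,
      Real.log_rpow hN0, ← hL]
    have h3 : (u : ℝ) * Real.log L ≤ 2 * L / ((C1 : ℝ) - 1) := by
      rw [le_div_iff₀ hC0]
      linarith
    have h4 : 2 * L / ((C1 : ℝ) - 1) ≤ 2 * L / (16 / κ) :=
      div_le_div_of_nonneg_left (by positivity) (by positivity) hC16
    have h5 : 2 * L / (16 / κ) = κ * L / 8 := by field_simp; norm_num
    push_cast
    nlinarith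
  calc ((XX (q := q) P0 θ).card : ℝ) ≤ L ^ C1 * (L ^ 4) ^ u := hX2
    _ ≤ (N : ℝ) ^ (κ / 2) * (N : ℝ) ^ (κ / 2) := mul_le_mul hLk hLu (by positivity) (by positivity)
    _ = (N : ℝ) ^ κ := by rw [← Real.rpow_add hN0]; congr 1; ring

end Pool.Agent.Lib.OWS
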