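import Pool.Agent.Lib.MP_7b7e48_nt.OW.SPTwoA

/-!
# Part SP: the two point inequality
-/

open Finset
open Pool.Agent.Lib.RG (Rough RN bch PB BW)

namespace Pool.Agent.Lib.OWS

section
variable {W N q : ℕ} [NeZero q] {a0 z : ℕ} {η M θ : ℝ} {F : ZMod q → ℝ} {G : ℕ → ℝ} {Q P0 : Finset ℕ}

theorem two_core (h : Hyp W N q a0 z η M θ F G Q P0) (hW : 1 ≤ W) (h2q : 2 ≤ q)
    (hS : 0 < ∑ x : ZMod q, F x ^ 2) {A A' : ℕ} (hA1 : 1 ≤ A) (hA : Rough z A)
    (hAq : A.Coprime q) (hAQ : ∀ l ∈ Q, ¬ l ∣ A) (hA2 : A ^ 2 ≤ N) (hA1' : 1 ≤ A') (hA' : Rough z A')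
    (hAq' : A'.Coprime q) (hAQ' : ∀ l ∈ Q, ¬ l ∣ A') (hA2' : A' ^ 2 ≤ N) (hAA : A % W = A' % W)
    (hle : A ≤ A')
    (herr : (q.divisors.card : ℝ) + (XX (q := q) P0 θ).card * PB q ≤
      (((N - 1) / A' : ℕ) : ℝ) * ((q.totient : ℝ) / q) / 2)
    (hy0 : (N : ℝ) / (2 * A') ≤ (((N - 1) / A' : ℕ) : ℝ)) :
    Dst (XX P0 θ) (ww F) (gg θ) A A' ≤ ((A : ℝ) / A' + (A' : ℝ) / A) *
      (8 * W * A * EE N F (XX P0 θ) A / ∑ x : ZMod q, F x ^ 2 +
        8 * W * A' * EE N F (XX P0 θ) A' / ∑ x : ZMod q, F x ^ 2) := by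
  classical
  obtain ⟨X, hX⟩ : ∃ X : Finset (DirichletCharacter ℂ q), X = XX P0 θ := ⟨_, rfl⟩
  obtain ⟨S, hSd⟩ : ∃ S : ℝ, S = ∑ x : ZMod q, F x ^ 2 := ⟨_, rfl⟩
  obtain ⟨y0, hy0d⟩ : ∃ y0 : ℕ, y0 = (N - 1) / A' := ⟨_, rfl⟩
  rw [← hX] at herr ⊢
  rw [← hSd] at hS ⊢
  rw [← hy0d] at herr hy0
  obtain ⟨b, hb⟩ : ∃ b : DirichletCharacter ℂ q → ℂ, b = fun χ => bch (fun x => (F x : ℂ)) χ := ⟨_, rfl⟩
  obtain ⟨c, hc⟩ : ∃ c : DirichletCharacter ℂ q → ℂ, c = fun χ => b χ * (gg θ χ A - gg θ χ A') := ⟨_, rfl⟩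
  have hEE0 : ∀ a : ℕ, 0 ≤ EE N F X a := fun a => sum_nonneg fun _ _ => sq_nonneg _
  have hAR : (0 : ℝ) < A := by exact_mod_cast hA1
  have hAR' : (0 : ℝ) < A' := by exact_mod_cast hA1'
  -- pointwise
  have hpt : ∀ n ∈ Icc 1 y0, ‖∑ χ ∈ X, c χ * χ (n : ZMod q)‖ ^ 2 ≤
      2 * HH F X ((A * n : ℕ) : ZMod q) + 2 * HH F X ((A' * n : ℕ) : ZMod q) := by
    intro n hn
    rw [mem_Icc] at hn
    have hAn' : A' * n < N := by
      have h3 : n ≤ (N - 1) / A' := by rw [← hy0d]; exact hn.2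
      have h4 := (Nat.le_div_iff_mul_le hA1').mp h3
      rw [mul_comm] at h4
      have : 1 ≤ A' * n := Nat.mul_pos hA1' hn.1
      omega
    have hAn : A * n < N := lt_of_le_of_lt (Nat.mul_le_mul_right n hle) hAn'
    have hF := F_eq h hW hA1 hA hAq hAQ hA2 hA1' hA' hAq' hAQ' hA2' hAA hn.1 hAn hAn'
    have e1 : ∀ a : ℕ, (θ : ℂ) ^ om a * FX F X ((a * n : ℕ) : ZMod q) = ∑ χ ∈ X, b χ * gg θ χ a * χ (n : ZMod q) := by
      intro a
      unfold FX gg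
      rw [mul_sum, hb]
      refine sum_congr rfl fun χ _ => ?_
      rw [Nat.cast_mul, map_mul]
      ring
    have e2 : ∑ χ ∈ X, c χ * χ (n : ZMod q) =
        (θ : ℂ) ^ om A' * ((F ((A' * n : ℕ) : ZMod q) : ℂ) - FX F X ((A' * n : ℕ) : ZMod q)) -
        (θ : ℂ) ^ om A * ((F ((A * n : ℕ) : ZMod q) : ℂ) - FX F X ((A * n : ℕ) : ZMod q)) := by
      have hF' : (θ : ℂ) ^ om A * (F ((A * n : ℕ) : ZMod q) : ℂ) =
          (θ : ℂ) ^ om A' * (F ((A' * n : ℕ) : ZMod q) : ℂ) := by exact_mod_cast hF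
      rw [mul_sub, mul_sub, e1, e1, hF', hc]
      have : ∑ χ ∈ X, b χ * (gg θ χ A - gg θ χ A') * χ (n : ZMod q) =
          ∑ χ ∈ X, b χ * gg θ χ A * χ (n : ZMod q) - ∑ χ ∈ X, b χ * gg θ χ A' * χ (n : ZMod q) := by
        rw [← sum_sub_distrib]
        refine sum_congr rfl fun χ _ => ?_
        ring
      rw [this]
      ring
    rw [e2]
    have hn1 : ∀ (k : ℕ) (w : ℂ), ‖(θ : ℂ) ^ k * w‖ = ‖w‖ := by
      intro k w
      rw [norm_mul, norm_pow, th_norm h.th, one_pow, one_mul]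
    have e3 := norm_sub_le ((θ : ℂ) ^ om A' * ((F ((A' * n : ℕ) : ZMod q) : ℂ) - FX F X ((A' * n : ℕ) : ZMod q)))
      ((θ : ℂ) ^ om A * ((F ((A * n : ℕ) : ZMod q) : ℂ) - FX F X ((A * n : ℕ) : ZMod q)))
    rw [hn1, hn1] at e3
    unfold HH
    have e4 := norm_nonneg ((θ : ℂ) ^ om A' * ((F ((A' * n : ℕ) : ZMod q) : ℂ) - FX F X ((A' * n : ℕ) : ZMod q)) -
      (θ : ℂ) ^ om A * ((F ((A * n : ℕ) : ZMod q) : ℂ) - FX F X ((A * n : ℕ) : ZMod q)))
    nlinarith [sq_nonneg (‖(F ((A' * n : ℕ) : ZMod q) : ℂ) - FX F X ((A' * n : ℕ) : ZMod q)‖ -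
      ‖(F ((A * n : ℕ) : ZMod q) : ℂ) - FX F X ((A * n : ℕ) : ZMod q)‖)]
  have hsum : ∑ n ∈ Icc 1 y0, ‖∑ χ ∈ X, c χ * χ (n : ZMod q)‖ ^ 2 ≤ 2 * EE N F X A + 2 * EE N F X A' := by
    refine (sum_le_sum hpt).trans ?_
    rw [sum_add_distrib, ← mul_sum, ← mul_sum]
    have e1 : ∑ n ∈ Icc 1 y0, HH F X ((A * n : ℕ) : ZMod q) ≤ EE N F X A := by
      unfold EE
      refine sum_le_sum_of_subset_of_nonneg ?_ fun _ _ _ => sq_nonneg _
      refine Icc_subset_Icc_right ?_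
      rw [hy0d]
      exact Nat.div_le_div_left hle hA1
    have e2 : ∑ n ∈ Icc 1 y0, HH F X ((A' * n : ℕ) : ZMod q) ≤ EE N F X A' := by
      unfold EE
      rw [hy0d]
    linarith
  -- near orthogonality
  have hno := RG.nearOrth2 h2q X c (y0 : ℝ) (Nat.cast_nonneg _)
  rw [Nat.floor_natCast] at hno
  obtain ⟨Sc, hSc⟩ : ∃ Sc : ℝ, Sc = ∑ χ ∈ X, ‖c χ‖ ^ 2 := ⟨_, rfl⟩
  rw [← hSc] at hno
  have hSc0 : 0 ≤ Sc := by rw [hSc]; exact sum_nonneg fun _ _ => sq_nonneg _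
  have hq0 : (0 : ℝ) < q := by
    have : 0 < q := by omega
    exact_mod_cast this
  have hφ0 : (0 : ℝ) < q.totient := by exact_mod_cast Nat.totient_pos.mpr (by omega)
  have hlow : (y0 : ℝ) * ((q.totient : ℝ) / q) / 2 * Sc ≤ 2 * EE N F X A + 2 * EE N F X A' := by
    have e1 := (abs_le.mp hno).1
    have e2 : ((q.divisors.card : ℝ) + X.card * PB q) * Sc ≤
        (y0 : ℝ) * ((q.totient : ℝ) / q) / 2 * Sc := mul_le_mul_of_nonneg_right herr hSc0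
    nlinarith
  have hDst : Dst X (ww F) (gg θ) A A' = (q.totient : ℝ) * Sc / S := by
    unfold Dst ww
    rw [hSc, ← hSd, hc, mul_sum, sum_div]
    refine sum_congr rfl fun χ _ => ?_
    rw [norm_mul, mul_pow, hb]
    ring
  have hy0pos : (0 : ℝ) < y0 := lt_of_lt_of_le (by
    have hN : (0 : ℝ) < N := by
      have h5 : 1 ≤ A ^ 2 := Nat.one_le_pow _ _ hA1
      have : 0 < N := by omega
      exact_mod_cast this
    positivity) hy0
  have hφS : (q.totient : ℝ) * Sc ≤ 8 * W * A' * (EE N F X A + EE N F X A') := by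
    have e1 : (q.totient : ℝ) * Sc * y0 ≤ 4 * q * (EE N F X A + EE N F X A') := by
      have e2 : (y0 : ℝ) * ((q.totient : ℝ) / q) / 2 * Sc = (q.totient : ℝ) * Sc * y0 / (2 * q) := by
        field_simp
      rw [e2, div_le_iff₀ (by positivity)] at hlow
      linarith
    have e3 : (q.totient : ℝ) * Sc * (N / (2 * A')) ≤ 4 * q * (EE N F X A + EE N F X A') :=
      le_trans (mul_le_mul_of_nonneg_left hy0 (by positivity)) e1
    have hqR : (q : ℝ) = W * N := by rw [h.hq]; push_cast; ring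
    have hN : (0 : ℝ) < N := by
      by_contra hcc
      have : (N : ℝ) = 0 := le_antisymm (not_lt.mp hcc) (Nat.cast_nonneg _)
      rw [this, mul_zero] at hqR
      linarith
    rw [hqR] at e3
    have e4 : (q.totient : ℝ) * Sc * (N / (2 * A')) = ((q.totient : ℝ) * Sc / (2 * A')) * N := by ring
    have e5 : 4 * ((W : ℝ) * N) * (EE N F X A + EE N F X A') = (4 * W * (EE N F X A + EE N F X A')) * N := by
      ring
    rw [e4, e5] at e3
    have e6 := le_of_mul_le_mul_right e3 hN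
    rw [div_le_iff₀ (by positivity)] at e6
    linarith
  rw [hDst]
  have hr1 : 1 ≤ (A' : ℝ) / A := by
    rw [one_le_div hAR]
    exact_mod_cast hle
  have hr0 : 0 ≤ (A : ℝ) / A' := by positivity
  calc (q.totient : ℝ) * Sc / S ≤ 8 * W * A' * (EE N F X A + EE N F X A') / S :=
        div_le_div_of_nonneg_right hφS hS.le
    _ = (A' / A) * (8 * W * A * EE N F X A / S) + 8 * W * A' * EE N F X A' / S := by
        field_simp
    _ ≤ (A' / A) * (8 * W * A * EE N F X A / S) + (A' / A) * (8 * W * A' * EE N F X A' / S) := by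
        have : 0 ≤ 8 * W * A' * EE N F X A' / S := by
          have := hEE0 A'
          positivity
        nlinarith
    _ = (A' / A) * (8 * W * A * EE N F X A / S + 8 * W * A' * EE N F X A' / S) := by ring
    _ ≤ _ := by
        refine mul_le_mul_of_nonneg_right (by linarith) ?_
        have := hEE0 A
        have := hEE0 A'
        positivity

end

end Pool.Agent.Lib.OWS
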