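import Mathlib
import Pool.Agent.Lib.MP_7b7e48_nt.OW.SPChain2
import Pool.Agent.Lib.MP_7b7e48_nt.OW.SPFew
import Pool.Agent.Lib.MP_7b7e48_nt.OW.SPTwo
import Pool.Agent.Lib.MP_7b7e48_nt.RG.B3

/-!
# Part SP: the two point inequality, assembly
-/

open Finset
open Pool.Agent.Lib.RG (Rough RN bch PB BW)

namespace Pool.Agent.Lib.OWS

open Classical in
theorem sum_Q (q z B : ℕ) (Q : Finset ℕ) (hQ : ∀ l ∈ Q, l.Prime ∧ z < l) (Hs : ℝ)
    (hH : ∑ m ∈ (Icc 1 B).filter (Rough z), 1 / (m : ℝ) ≤ Hs) :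
    ∑ A ∈ RN q z B, (if ∃ l ∈ Q, l ∣ A then (1 : ℝ) else 0) / A ≤ (∑ l ∈ Q, 1 / (l : ℝ)) * Hs := by
  classical
  have h1 : ∀ A ∈ RN q z B, (if ∃ l ∈ Q, l ∣ A then (1 : ℝ) else 0) / A ≤
      ∑ l ∈ Q, if l ∣ A then 1 / (A : ℝ) else 0 := by
    intro A _
    by_cases h : ∃ l ∈ Q, l ∣ A
    · rw [if_pos h]
      obtain ⟨l, hl, hd⟩ := h
      have h2 : (if l ∣ A then 1 / (A : ℝ) else 0) ≤ ∑ l ∈ Q, if l ∣ A then 1 / (A : ℝ) else 0 :=
        single_le_sum (f := fun l => if l ∣ A then 1 / (A : ℝ) else 0) (fun i _ => by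
          split_ifs
          · positivity
          · exact le_refl _) hl
      rwa [if_pos hd] at h2
    · rw [if_neg h, zero_div]
      exact sum_nonneg fun i _ => by
        split_ifs
        · positivity
        · exact le_refl _
  refine (sum_le_sum h1).trans ?_
  rw [sum_comm, sum_mul]
  refine sum_le_sum fun l hl => ?_
  obtain ⟨hp, hz⟩ := hQ l hl
  rw [← sum_filter]
  have hl0 : (0 : ℝ) < l := by exact_mod_cast hp.pos
  have h2 : ∑ A ∈ (RN q z B).filter (fun A => l ∣ A), 1 / (A : ℝ) ≤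
      ∑ m ∈ (Icc 1 B).filter (Rough z), 1 / (l : ℝ) * (1 / (m : ℝ)) := by
    have hinj : Set.InjOn (fun A : ℕ => A / l) ((RN q z B).filter (fun A => l ∣ A)) := by
      intro A hA A' hA' h
      rw [mem_coe, mem_filter] at hA hA'
      simp only at h
      rw [← Nat.div_mul_cancel hA.2, ← Nat.div_mul_cancel hA'.2, h]
    have h3 : ∑ A ∈ (RN q z B).filter (fun A => l ∣ A), 1 / (A : ℝ) =
        ∑ m ∈ ((RN q z B).filter (fun A => l ∣ A)).image (fun A => A / l), 1 / (l : ℝ) * (1 / (m : ℝ)) := by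
      rw [sum_image hinj]
      refine sum_congr rfl fun A hA => ?_
      rw [mem_filter] at hA
      obtain ⟨k, rfl⟩ := hA.2
      rw [Nat.mul_div_cancel_left _ hp.pos]
      push_cast
      rw [one_div_mul_one_div]
    rw [h3]
    refine sum_le_sum_of_subset_of_nonneg ?_ fun m _ _ => by positivity
    intro m hm
    rw [mem_image] at hm
    obtain ⟨A, hA, rfl⟩ := hm
    rw [mem_filter, mem_RN'] at hA
    rw [mem_filter, mem_Icc]
    have hd : A / l ∣ A := Nat.div_dvd_of_dvd hA.2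
    refine ⟨⟨Nat.div_pos (Nat.le_of_dvd (by omega) hA.2) hp.pos, ?_⟩, Rough_dvd hA.1.2.1 hd⟩
    exact (Nat.div_le_self _ _).trans hA.1.1.2
  refine h2.trans ?_
  rw [← mul_sum]
  exact mul_le_mul_of_nonneg_left hH (by positivity)

theorem two_pt (W : ℕ) (hW : 1 ≤ W) (κ : ℝ) (hκ : 0 < κ) (hκ1 : κ ≤ 1 / 100) : ∃ C1 : ℕ, 3 ≤ C1 ∧
    ∀ c : ℝ, 0 < c → c ≤ κ → ∃ Cc : ℝ, 0 < Cc ∧ ∃ N0 : ℕ, ∀ (N q : ℕ) [NeZero q], N0 ≤ N →
    ∀ (a0 : ℕ) (η θ : ℝ) (F : ZMod q → ℝ) (G : ℕ → ℝ) (Q P0 : Finset ℕ),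
    Hyp W N q a0 ⌊(N : ℝ) ^ c⌋₊ η ((Real.log N) ^ C1) θ F G Q P0 → 0 < ∑ x : ZMod q, F x ^ 2 →
    ∃ e : ℕ → ℝ, Two W q ⌊(N : ℝ) ^ c⌋₊ ⌊(N : ℝ) ^ (1 / 2 - κ)⌋₊ (Cc * η) (XX (q := q) P0 θ) (ww F) (gg θ) e := by
  classical
  obtain ⟨C1, hC3, N1, hfew⟩ := few_soft W hW (κ / 4) (by positivity)
  refine ⟨C1, hC3, ?_⟩
  intro c hc hcκ
  obtain ⟨R, hR1, N2, hRd⟩ := rough_div c hc
  obtain ⟨Cs, hCs, hsr⟩ := RG.sum_rough
  obtain ⟨Cp, hCp, hPB⟩ := RG.PB_le (κ / 16) (by positivity)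
  refine ⟨8 * W * R + 4 * (Cs * (1 + 1 / c)), by positivity, ?_⟩
  obtain ⟨N3, hN3⟩ := nm_exists κ hκ hκ1 c hc 4
  obtain ⟨N4, h4⟩ := (RH.ev_log_pow 1 (κ / 2) (by positivity) (16 * Cp * W) (by positivity)).exists_forall_of_atTop
  obtain ⟨N5, h5⟩ := RH.ev_totient.exists_forall_of_atTop
  refine ⟨max (max N1 N2) (max (max N3 N4) (max N5 (W + 2))), ?_⟩
  intro N q _ hN a0 η θ F G Q P0 h hS
  have a1 : N1 ≤ N := (le_max_left _ _).trans ((le_max_left _ _).trans hN)
  have a2 : N2 ≤ N := (le_max_right _ _).trans ((le_max_left _ _).trans hN)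
  have a3 : N3 ≤ N := (le_max_left _ _).trans ((le_max_left _ _).trans ((le_max_right _ _).trans hN))
  have a4 : N4 ≤ N := (le_max_right _ _).trans ((le_max_left _ _).trans ((le_max_right _ _).trans hN))
  have a5 : N5 ≤ N := (le_max_left _ _).trans ((le_max_right _ _).trans ((le_max_right _ _).trans hN))
  have a6 : W + 2 ≤ N := (le_max_right _ _).trans ((le_max_right _ _).trans ((le_max_right _ _).trans hN))
  obtain ⟨_, J, hNm⟩ := hN3 N a3
  obtain ⟨z, hz⟩ : ∃ z : ℕ, z = ⌊(N : ℝ) ^ c⌋₊ := ⟨_, rfl⟩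
  obtain ⟨B, hB⟩ : ∃ B : ℕ, B = ⌊(N : ℝ) ^ (1 / 2 - κ)⌋₊ := ⟨_, rfl⟩
  rw [← hz, ← hB] at hNm
  rw [← hz] at h
  rw [← hz, ← hB]
  obtain ⟨f1, f2, f3, f4', f5, f6, f7, f8, f9⟩ := nm_facts hNm hκ hκ1 hcκ
  have hN0 : (0 : ℝ) < N := by linarith
  have hNq : N ≤ q := by rw [h.hq]; exact Nat.le_mul_of_pos_left _ hW
  have h2q : 2 ≤ q := by omega
  have hz3 := hNm.z3
  have hL : 0 < Real.log z := Real.log_pos (by exact_mod_cast (by omega : 1 < z))
  have hB1 : 1 ≤ B := by
    have h1 : (0 : ℝ) < B := lt_of_lt_of_le (by positivity) hNm.B2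
    exact_mod_cast h1
  have hB0 : (0 : ℝ) < B := by exact_mod_cast hB1
  obtain ⟨S, hSd⟩ : ∃ S : ℝ, S = ∑ x : ZMod q, F x ^ 2 := ⟨_, rfl⟩
  have hη0 := h.η0
  obtain ⟨X, hX⟩ : ∃ X : Finset (DirichletCharacter ℂ q), X = XX P0 θ := ⟨_, rfl⟩
  have hXc : (X.card : ℝ) ≤ (N : ℝ) ^ (κ / 4) := by
    rw [hX]
    exact hfew N q a1 h.hq P0 h.P0p h.P0c θ h.th
  have hP0c : 0 < P0.card := by
    have h1 := h.P0c
    have h2 : (0 : ℝ) < P0.card := lt_of_lt_of_le (by positivity) h1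
    exact_mod_cast h2
  have hHle : ∑ m ∈ (Icc 1 B).filter (Rough z), 1 / (m : ℝ) ≤ Cs * (1 + 1 / c) := by
    refine (hsr z B (by omega) hB1).trans (mul_le_mul_of_nonneg_left ?_ hCs.le)
    have h1 : Real.log B ≤ 1 / 2 * Real.log N := by
      have h2 : Real.log B ≤ (1 / 2 - κ) * Real.log N := by
        rw [← Real.log_rpow hN0]
        exact Real.log_le_log hB0 hNm.B1
      nlinarith
    have h3 : Real.log B / Real.log z ≤ 1 / c := by
      rw [div_le_div_iff₀ hL hc]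
      have := hNm.L1
      nlinarith
    linarith
  have hEE0 : ∀ a : ℕ, 0 ≤ EE N F X a := fun a => sum_nonneg fun _ _ => sq_nonneg _
  obtain ⟨e, he⟩ : ∃ e : ℕ → ℝ, e = fun A => 8 * W * A * EE N F X A / S +
      4 * (if ∃ l ∈ Q, l ∣ A then (1 : ℝ) else 0) := ⟨_, rfl⟩
  have hi0 : ∀ A : ℕ, (0 : ℝ) ≤ (if ∃ l ∈ Q, l ∣ A then (1 : ℝ) else 0) := by
    intro A
    split_ifs <;> norm_num
  have hS0 : 0 < S := by rw [hSd]; exact hS
  have he1 : ∀ A : ℕ, 0 ≤ 8 * W * A * EE N F X A / S := by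
    intro A
    have := hEE0 A
    positivity
  have he0 : ∀ A : ℕ, 0 ≤ e A := by
    intro A
    rw [he]
    have := he1 A
    have := hi0 A
    positivity
  have hFam : Fam q X (ww F) (gg θ) := Fam_gg h.th F h.F0 X
  refine ⟨e, he0, ?_, ?_⟩
  · -- the mass
    have hsumEE : ∑ A ∈ RN q z B, EE N F X A ≤ R * (η * S) := by
      refine (sum_EE h.hq hW (by omega) F X B R (hRd N a2 z hz)).trans ?_
      rw [hX, hSd]
      exact mul_le_mul_of_nonneg_left (sum_HH h hP0c) (Nat.cast_nonneg _)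
    have hsplit : ∑ A ∈ RN q z B, e A / A = 8 * W / S * ∑ A ∈ RN q z B, EE N F X A +
        4 * ∑ A ∈ RN q z B, (if ∃ l ∈ Q, l ∣ A then (1 : ℝ) else 0) / A := by
      rw [mul_sum, mul_sum, ← sum_add_distrib]
      refine sum_congr rfl fun A hA => ?_
      have hA0 : (A : ℝ) ≠ 0 := by
        have := (mem_RN'.mp hA).1.1
        positivity
      rw [he]
      field_simp
    rw [hsplit]
    have k1 : 8 * W / S * ∑ A ∈ RN q z B, EE N F X A ≤ 8 * W * R * η := by
      calc 8 * W / S * ∑ A ∈ RN q z B, EE N F X A ≤ 8 * W / S * (R * (η * S)) :=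
            mul_le_mul_of_nonneg_left hsumEE (by positivity)
        _ = _ := by field_simp
    have k2 : ∑ A ∈ RN q z B, (if ∃ l ∈ Q, l ∣ A then (1 : ℝ) else 0) / A ≤ η * (Cs * (1 + 1 / c)) := by
      refine (sum_Q q z B Q h.Qz _ hHle).trans ?_
      exact mul_le_mul_of_nonneg_right h.Qs (by positivity)
    calc _ ≤ 8 * W * R * η + 4 * (η * (Cs * (1 + 1 / c))) := add_le_add k1
          (mul_le_mul_of_nonneg_left k2 (by norm_num))
      _ = _ := by ring
  · -- the two point inequality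
    have hcoef : ∀ A ∈ RN q z B, ∀ A' ∈ RN q z B, (1 : ℝ) ≤ (A : ℝ) / A' + (A' : ℝ) / A := by
      intro A hA A' hA'
      have hA0 : (0 : ℝ) < A := by exact_mod_cast (mem_RN'.mp hA).1.1
      have hA0' : (0 : ℝ) < A' := by exact_mod_cast (mem_RN'.mp hA').1.1
      rcases le_total (A : ℝ) A' with h1 | h1
      · have h2 : 1 ≤ (A' : ℝ) / A := by rwa [one_le_div hA0]
        have h3 : 0 ≤ (A : ℝ) / A' := by positivity
        linarith
      · have h2 : 1 ≤ (A : ℝ) / A' := by rwa [one_le_div hA0']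
        have h3 : 0 ≤ (A' : ℝ) / A := by positivity
        linarith
    have hbad : ∀ A ∈ RN q z B, ∀ A' ∈ RN q z B, (∃ l ∈ Q, l ∣ A) ∨ (∃ l ∈ Q, l ∣ A') →
        Dst X (ww F) (gg θ) A A' ≤ ((A : ℝ) / A' + (A' : ℝ) / A) * (e A + e A') := by
      intro A hA A' hA' hor
      have m1 := mem_RN'.mp hA
      have m2 := mem_RN'.mp hA'
      have h1 := Dst_le_four hFam m1.1.1 m2.1.1 m1.2.2 m2.2.2
      have h2 : 4 ≤ e A + e A' := by
        rcases hor with h3 | h3
        · have : 4 ≤ e A := by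
            rw [he]
            simp only [if_pos h3]
            have := he1 A
            linarith
          have := he0 A'
          linarith
        · have : 4 ≤ e A' := by
            rw [he]
            simp only [if_pos h3]
            have := he1 A'
            linarith
          have := he0 A
          linarith
      have h3 := hcoef A hA A' hA'
      have h4 : 0 ≤ e A + e A' := by linarith
      nlinarith
    -- numbers
    have hnum : ∀ A' ∈ RN q z B, (q.divisors.card : ℝ) + X.card * PB q ≤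
        (((N - 1) / A' : ℕ) : ℝ) * ((q.totient : ℝ) / q) / 2 ∧
        (N : ℝ) / (2 * A') ≤ (((N - 1) / A' : ℕ) : ℝ) := by
      intro A' hA'
      have m2 := mem_RN'.mp hA'
      have hA0 : (0 : ℝ) < A' := by exact_mod_cast m2.1.1
      have hA1 : (A' : ℝ) ≤ (N : ℝ) ^ (1 / 2 - κ) := le_trans (by exact_mod_cast m2.1.2) hNm.B1
      have hNA : (N : ℝ) ^ (1 / 2 + κ) ≤ N / A' := by
        rw [le_div_iff₀ hA0]
        calc (N : ℝ) ^ (1 / 2 + κ) * A' ≤ (N : ℝ) ^ (1 / 2 + κ) * (N : ℝ) ^ (1 / 2 - κ) :=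
              mul_le_mul_of_nonneg_left hA1 (by positivity)
          _ = N := by
              rw [← rpow_split _ hN0]
              have : 1 / 2 + κ + (1 / 2 - κ) = 1 := by ring
              rw [this, Real.rpow_one]
      have hbig : (4 : ℝ) ≤ (N : ℝ) ^ (1 / 2 + κ) :=
        hNm.Nk.trans (Real.rpow_le_rpow_of_exponent_le f1 (by linarith))
      have hfl : ((N - 1 : ℕ) : ℝ) / A' < (((N - 1) / A' : ℕ) : ℝ) + 1 := by
        rw [div_lt_iff₀ hA0]
        have := Nat.lt_mul_div_succ (N - 1) (b := A') m2.1.1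
        rw [mul_comm] at this
        exact_mod_cast this
      have hN1 : ((N - 1 : ℕ) : ℝ) = N - 1 := by
        rw [Nat.cast_sub (by omega)]
        norm_num
      rw [hN1] at hfl
      have hA1' : (1 : ℝ) ≤ A' := by exact_mod_cast m2.1.1
      have hy : (N : ℝ) / (2 * A') ≤ (((N - 1) / A' : ℕ) : ℝ) := by
        have e1 : ((N : ℝ) - 1) / A' = N / A' - 1 / A' := by ring
        have e2 : 1 / (A' : ℝ) ≤ 1 := by rw [div_le_one hA0]; exact hA1'
        have e3 : (N : ℝ) / (2 * A') = (N / A') / 2 := by field_simp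
        rw [e3]
        rw [e1] at hfl
        linarith
      refine ⟨?_, hy⟩
      obtain ⟨p1, p2⟩ := hPB q h2q
      have hqR : (q : ℝ) = W * N := by rw [h.hq]; push_cast; ring
      have hq0 : (0 : ℝ) < q := by
        have : 0 < q := by omega
        exact_mod_cast this
      have hWR : (1 : ℝ) ≤ W := by exact_mod_cast hW
      have hWN : (W : ℝ) ≤ N := by
        have : W ≤ N := by omega
        exact_mod_cast this
      have hqpow : ∀ s : ℝ, 0 ≤ s → s ≤ 1 → (q : ℝ) ^ s ≤ W * (N : ℝ) ^ s := by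
        intro s hs0 hs1
        rw [hqR, Real.mul_rpow (by linarith) hN0.le]
        refine mul_le_mul_of_nonneg_right ?_ (by positivity)
        calc (W : ℝ) ^ s ≤ (W : ℝ) ^ (1 : ℝ) := Real.rpow_le_rpow_of_exponent_le hWR hs1
          _ = W := Real.rpow_one _
      have t1 : (q.divisors.card : ℝ) ≤ Cp * W * (N : ℝ) ^ (1 / 2 + κ / 2) := by
        calc (q.divisors.card : ℝ) ≤ Cp * (q : ℝ) ^ (κ / 16) := p2
          _ ≤ Cp * (W * (N : ℝ) ^ (κ / 16)) :=
              mul_le_mul_of_nonneg_left (hqpow _ (by positivity) (by linarith)) hCp.le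
          _ ≤ Cp * (W * (N : ℝ) ^ (1 / 2 + κ / 2)) := by
              refine mul_le_mul_of_nonneg_left (mul_le_mul_of_nonneg_left ?_ (by linarith)) hCp.le
              exact Real.rpow_le_rpow_of_exponent_le f1 (by linarith)
          _ = _ := by ring
      have t2 : (X.card : ℝ) * PB q ≤ Cp * W * (N : ℝ) ^ (1 / 2 + κ / 2) := by
        calc (X.card : ℝ) * PB q ≤ (N : ℝ) ^ (κ / 4) * (Cp * (q : ℝ) ^ (1 / 2 + κ / 16)) := by
              refine mul_le_mul hXc p1 ?_ (by positivity)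
              unfold RG.PB
              have : 0 ≤ Real.log q := Real.log_nonneg (by
                have : 1 ≤ q := by omega
                exact_mod_cast this)
              positivity
          _ ≤ (N : ℝ) ^ (κ / 4) * (Cp * (W * (N : ℝ) ^ (1 / 2 + κ / 16))) := by
              refine mul_le_mul_of_nonneg_left (mul_le_mul_of_nonneg_left ?_ hCp.le) (by positivity)
              exact hqpow _ (by positivity) (by linarith)
          _ = Cp * W * ((N : ℝ) ^ (κ / 4) * (N : ℝ) ^ (1 / 2 + κ / 16)) := by ring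
          _ ≤ Cp * W * (N : ℝ) ^ (1 / 2 + κ / 2) := by
              refine mul_le_mul_of_nonneg_left ?_ (by positivity)
              rw [← rpow_split _ hN0]
              exact Real.rpow_le_rpow_of_exponent_le f1 (by linarith)
      have t3 : (q : ℝ) ≤ 2 * Real.log N * q.totient := by
        have e1 := h5 q (a5.trans hNq)
        have e2 : Real.log q ≤ 2 * Real.log N := by
          have e3 : Real.log q ≤ Real.log ((N : ℝ) * N) := by
            refine Real.log_le_log hq0 ?_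
            rw [hqR]
            exact mul_le_mul_of_nonneg_right hWN hN0.le
          rw [Real.log_mul hN0.ne' hN0.ne'] at e3
          linarith
        exact e1.trans (mul_le_mul_of_nonneg_right e2 (Nat.cast_nonneg _))
      have t4 : 1 / (2 * Real.log N) ≤ (q.totient : ℝ) / q := by
        rw [div_le_div_iff₀ (by positivity) hq0]
        linarith
      have t5 : (N : ℝ) ^ (1 / 2 + κ) / 2 ≤ (((N - 1) / A' : ℕ) : ℝ) := by
        refine le_trans ?_ hy
        have e3 : (N : ℝ) / (2 * A') = (N / A') / 2 := by field_simp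
        rw [e3]
        linarith
      have t6 := h4 N a4
      rw [pow_one] at t6
      have t7 : (N : ℝ) ^ (1 / 2 + κ) / 2 * (1 / (2 * Real.log N)) / 2 ≤
          (((N - 1) / A' : ℕ) : ℝ) * ((q.totient : ℝ) / q) / 2 := by
        refine div_le_div_of_nonneg_right ?_ (by norm_num)
        exact mul_le_mul t5 t4 (by positivity) (Nat.cast_nonneg _)
      refine le_trans (add_le_add t1 t2) (le_trans ?_ t7)
      have t8 : (N : ℝ) ^ (1 / 2 + κ) = (N : ℝ) ^ (1 / 2 + κ / 2) * (N : ℝ) ^ (κ / 2) := by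
        rw [← rpow_split _ hN0]; congr 1; ring
      rw [t8]
      have hlN : 0 < Real.log N := by linarith
      have t9 : 0 < (N : ℝ) ^ (1 / 2 + κ / 2) := by positivity
      have t10 : (N : ℝ) ^ (1 / 2 + κ / 2) * (N : ℝ) ^ (κ / 2) / 2 * (1 / (2 * Real.log N)) / 2 =
          (N : ℝ) ^ (1 / 2 + κ / 2) * ((N : ℝ) ^ (κ / 2) / (8 * Real.log N)) := by
        field_simp
        norm_num
      rw [t10]
      have t11 : 2 * Cp * W ≤ (N : ℝ) ^ (κ / 2) / (8 * Real.log N) := by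
        rw [le_div_iff₀ (by positivity)]
        linarith
      nlinarith
    have hgood : ∀ A ∈ RN q z B, ∀ A' ∈ RN q z B, A ≤ A' → A % W = A' % W →
        Dst X (ww F) (gg θ) A A' ≤ ((A : ℝ) / A' + (A' : ℝ) / A) * (e A + e A') := by
      intro A hA A' hA' hle hmod
      by_cases h1 : ∃ l ∈ Q, l ∣ A
      · exact hbad A hA A' hA' (Or.inl h1)
      by_cases h2 : ∃ l ∈ Q, l ∣ A'
      · exact hbad A hA A' hA' (Or.inr h2)
      push Not at h1 h2
      have m1 := mem_RN'.mp hA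
      have m2 := mem_RN'.mp hA'
      have hsq : ∀ A ∈ RN q z B, A ^ 2 ≤ N := by
        intro A hA
        have m := mem_RN'.mp hA
        have e1 : (A : ℝ) ≤ (N : ℝ) ^ (1 / 2 - κ) := le_trans (by exact_mod_cast m.1.2) hNm.B1
        have e2 : (A : ℝ) ^ 2 ≤ N := by
          calc (A : ℝ) ^ 2 ≤ ((N : ℝ) ^ (1 / 2 - κ)) ^ 2 := pow_le_pow_left₀ (Nat.cast_nonneg _) e1 2
            _ = (N : ℝ) ^ ((1 / 2 - κ) * 2) := by rw [← Real.rpow_natCast, ← Real.rpow_mul hN0.le]; norm_num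
            _ ≤ (N : ℝ) ^ (1 : ℝ) := Real.rpow_le_rpow_of_exponent_le f1 (by linarith)
            _ = N := Real.rpow_one _
        exact_mod_cast e2
      obtain ⟨n1, n2⟩ := hnum A' hA'
      rw [hX] at n1
      have hcore := two_core h hW h2q hS m1.1.1 m1.2.1 m1.2.2 h1 (hsq A hA) m2.1.1 m2.2.1 m2.2.2 h2
        (hsq A' hA') hmod hle n1 n2
      rw [← hX, ← hSd] at hcore
      refine hcore.trans ?_
      refine mul_le_mul_of_nonneg_left ?_ (by
        have := hcoef A hA A' hA'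
        linarith)
      rw [he]
      simp only
      have := hi0 A
      have := hi0 A'
      linarith
    intro A hA A' hA' hmod
    rw [← hX]
    rcases le_total A A' with hle | hle
    · exact hgood A hA A' hA' hle hmod
    · have h1 := hgood A' hA' A hA hle hmod.symm
      rw [Dst_symm]
      refine h1.trans (le_of_eq ?_)
      ring

end Pool.Agent.Lib.OWS
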