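import Pool.Agent.Lib.MP_7b7e48_nt.OW.SPChain5
import Pool.Agent.Lib.MP_7b7e48_nt.OW.SPTwoB
import Pool.Agent.Lib.MP_7b7e48_nt.OW.SPLow

/-!
# Part SP: the robust spectral lemma
-/

open Finset
open Pool.Agent.Lib.RG (Rough RN bch PB)

namespace Pool.Agent.Lib.OWS

/-- the two characters differ by a character modulo `W` -/
def Rel {W q : ℕ} (hWq : W ∣ q) (χ1 χ2 : DirichletCharacter ℂ q) : Prop :=
  ∃ ψ : DirichletCharacter ℂ W, χ1 = DirichletCharacter.changeLevel hWq ψ * χ2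

section
variable {W N q : ℕ} [NeZero q] {a0 z : ℕ} {η M θ : ℝ} {F : ZMod q → ℝ} {G : ℕ → ℝ} {Q P0 : Finset ℕ}

theorem bch_rel (h : Hyp W N q a0 z η M θ F G Q P0) (hWq : W ∣ q) (ψ : DirichletCharacter ℂ W)
    (χ : DirichletCharacter ℂ q) :
    bch (fun x => (F x : ℂ)) (DirichletCharacter.changeLevel hWq ψ * χ) =
      (starRingEnd ℂ) (ψ (a0 : ZMod W)) * bch (fun x => (F x : ℂ)) χ := by
  unfold bch
  rw [mul_left_comm]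
  congr 1
  rw [mul_sum]
  refine sum_congr rfl fun y _ => ?_
  simp only
  by_cases hy : F y = 0
  · rw [hy]
    simp
  · obtain ⟨hu, hv⟩ := h.supp y hy
    have hyv : ((y.val : ℕ) : ZMod q) = y := ZMod.natCast_zmod_val y
    have hc : y.val.Coprime q := by
      rw [← ZMod.isUnit_iff_coprime, hyv]
      exact hu
    have e1 : (DirichletCharacter.changeLevel hWq ψ) y = ψ (a0 : ZMod W) := by
      have e2 := changeLevel_nat hWq ψ hc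
      rw [hyv] at e2
      rw [e2]
      congr 1
      rw [ZMod.natCast_eq_natCast_iff']
      exact hv
    rw [MulChar.mul_apply, e1, map_mul]
    ring

theorem ww_rel (h : Hyp W N q a0 z η M θ F G Q P0) (hWq : W ∣ q) (ψ : DirichletCharacter ℂ W)
    (χ : DirichletCharacter ℂ q) : ww F (DirichletCharacter.changeLevel hWq ψ * χ) ≤ ww F χ := by
  unfold ww
  have hS : 0 ≤ ∑ x : ZMod q, F x ^ 2 := Finset.sum_nonneg fun x _ => sq_nonneg _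
  refine div_le_div_of_nonneg_right ?_ hS
  refine mul_le_mul_of_nonneg_left ?_ (Nat.cast_nonneg _)
  rw [bch_rel h hWq ψ χ, norm_mul]
  have h1 : ‖(starRingEnd ℂ) (ψ (a0 : ZMod W))‖ ≤ 1 := by
    rw [RCLike.norm_conj]
    exact DirichletCharacter.norm_le_one ψ _
  have h2 := norm_nonneg (bch (fun x => (F x : ℂ)) χ)
  have h3 := norm_nonneg ((starRingEnd ℂ) (ψ (a0 : ZMod W)))
  rw [mul_pow]
  have h4 : ‖(starRingEnd ℂ) (ψ (a0 : ZMod W))‖ ^ 2 ≤ 1 := by nlinarith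
  nlinarith [sq_nonneg ‖bch (fun x => (F x : ℂ)) χ‖]

theorem ww_nonneg (F : ZMod q → ℝ) (χ : DirichletCharacter ℂ q) : 0 ≤ ww F χ := by
  have hS : 0 ≤ ∑ x : ZMod q, F x ^ 2 := Finset.sum_nonneg fun x _ => sq_nonneg _
  unfold ww
  positivity

open Classical in
theorem coset_mass [NeZero W] (h : Hyp W N q a0 z η M θ F G Q P0) (hWq : W ∣ q)
    (X : Finset (DirichletCharacter ℂ q)) (χ : DirichletCharacter ℂ q) :
    ∑ χ' ∈ X.filter (fun χ' => Rel hWq χ' χ), ww F χ' ≤ W.totient * ww F χ := by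
  have h1 : X.filter (fun χ' => Rel hWq χ' χ) ⊆
      (univ : Finset (DirichletCharacter ℂ W)).image fun ψ => DirichletCharacter.changeLevel hWq ψ * χ := by
    intro χ' hχ'
    rw [mem_filter] at hχ'
    obtain ⟨ψ, hψ⟩ := hχ'.2
    rw [mem_image]
    exact ⟨ψ, mem_univ _, hψ.symm⟩
  have h2 : ∀ χ' ∈ X.filter (fun χ' => Rel hWq χ' χ), ww F χ' ≤ ww F χ := by
    intro χ' hχ'
    rw [mem_filter] at hχ'
    obtain ⟨ψ, hψ⟩ := hχ'.2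
    rw [hψ]
    exact ww_rel h hWq ψ χ
  have h3 : (X.filter (fun χ' => Rel hWq χ' χ)).card ≤ W.totient := by
    refine (card_le_card h1).trans (card_image_le.trans ?_)
    rw [card_univ, ← Nat.card_eq_fintype_card]
    exact (DirichletCharacter.card_eq_totient_of_hasEnoughRootsOfUnity ℂ W).le
  calc ∑ χ' ∈ X.filter (fun χ' => Rel hWq χ' χ), ww F χ' ≤
        ∑ _χ' ∈ X.filter (fun χ' => Rel hWq χ' χ), ww F χ := sum_le_sum h2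
    _ = ((X.filter (fun χ' => Rel hWq χ' χ)).card : ℝ) * ww F χ := by rw [sum_const, nsmul_eq_mul]
    _ ≤ _ := mul_le_mul_of_nonneg_right (by exact_mod_cast h3) (ww_nonneg F χ)

theorem mass_X (h : Hyp W N q a0 z η M θ F G Q P0) (hc : 0 < P0.card) (hS : 0 < ∑ x : ZMod q, F x ^ 2) :
    1 - η ≤ ∑ χ ∈ XX (q := q) P0 θ, ww F χ := by
  classical
  have h0 : ∀ x : ZMod q, ¬ IsUnit x → ((F x : ℝ) : ℂ) = 0 := fun x hx => by rw [h.F0 x hx]; simp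
  have h1 : ∀ x : ZMod q, HH F (XX P0 θ) x =
      ‖∑ χ ∈ univ \ XX P0 θ, bch (fun x => (F x : ℂ)) χ * χ x‖ ^ 2 := by
    intro x
    unfold HH FX
    have h2 := RG.chInv (fun x => (F x : ℂ)) h0 x
    rw [← sum_sdiff (subset_univ (XX (q := q) P0 θ))] at h2
    rw [h2, add_sub_cancel_right]
  have h2 : ∑ x : ZMod q, HH F (XX P0 θ) x =
      (q.totient : ℝ) * ∑ χ ∈ univ \ XX P0 θ, ‖bch (fun x => (F x : ℂ)) χ‖ ^ 2 := by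
    rw [sum_congr rfl fun x _ => h1 x]
    exact RG.chPars _ _
  have h3 := sum_HH h hc
  rw [h2] at h3
  have h4 := RG.chParsF (fun x : ZMod q => (F x : ℂ)) h0
  have h5 : ∑ x : ZMod q, ‖((F x : ℝ) : ℂ)‖ ^ 2 = ∑ x : ZMod q, F x ^ 2 := RG.sum_norm_cast F
  rw [h5, ← sum_sdiff (subset_univ (XX (q := q) P0 θ)), mul_add] at h4
  have h6 : ∑ χ ∈ XX (q := q) P0 θ, ww F χ = ((q.totient : ℝ) * ∑ χ ∈ XX (q := q) P0 θ,
      ‖bch (fun x => (F x : ℂ)) χ‖ ^ 2) / ∑ x : ZMod q, F x ^ 2 := by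
    unfold ww
    rw [← sum_div, mul_sum]
  rw [h6, le_div_iff₀ hS]
  linarith

end

/-- comparison of two characters through a representative -/
theorem cmp_nst {q : ℕ} [NeZero q] {θ : ℝ} (hθ : θ ^ 2 = 1) (χ1 χ2 : DirichletCharacter ℂ q) {n m : ℕ}
    (hm : m.Coprime q) :
    ‖χ1 (n : ZMod q) - (gg θ χ1 m * (starRingEnd ℂ) (gg θ χ2 m)) * χ2 (n : ZMod q)‖ ^ 2 ≤
      2 * (‖gg θ χ1 n - gg θ χ1 m‖ ^ 2 + ‖gg θ χ2 n - gg θ χ2 m‖ ^ 2) := by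
  obtain ⟨u, hu⟩ : ∃ u : ℂ, u = (θ : ℂ) ^ om n := ⟨_, rfl⟩
  have hun : ‖u‖ = 1 := by rw [hu, norm_pow, th_norm hθ, one_pow]
  obtain ⟨γ, hγ⟩ : ∃ γ : ℂ, γ = gg θ χ1 m * (starRingEnd ℂ) (gg θ χ2 m) := ⟨_, rfl⟩
  have hγn : ‖γ‖ = 1 := by
    rw [hγ, norm_mul, RCLike.norm_conj, gg_norm hθ χ1 hm, gg_norm hθ χ2 hm, one_mul]
  have h1 : gg θ χ1 m = γ * gg θ χ2 m := by
    rw [hγ, mul_assoc, mul_comm ((starRingEnd ℂ) (gg θ χ2 m)), Complex.mul_conj', gg_norm hθ χ2 hm]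
    simp
  have h2 : ‖χ1 (n : ZMod q) - γ * χ2 (n : ZMod q)‖ = ‖gg θ χ1 n - γ * gg θ χ2 n‖ := by
    have : gg θ χ1 n - γ * gg θ χ2 n = u * (χ1 (n : ZMod q) - γ * χ2 (n : ZMod q)) := by
      rw [hu]
      unfold gg
      ring
    rw [this, norm_mul, hun, one_mul]
  rw [← hγ, h2]
  have h3 : gg θ χ1 n - γ * gg θ χ2 n = (gg θ χ1 n - gg θ χ1 m) - γ * (gg θ χ2 n - gg θ χ2 m) := by
    rw [h1]
    ring
  rw [h3]
  have h4 := norm_sub_le (gg θ χ1 n - gg θ χ1 m) (γ * (gg θ χ2 n - gg θ χ2 m))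
  rw [norm_mul, hγn, one_mul] at h4
  have h5 := norm_nonneg ((gg θ χ1 n - gg θ χ1 m) - γ * (gg θ χ2 n - gg θ χ2 m))
  have h6 := norm_nonneg (gg θ χ1 n - gg θ χ1 m)
  have h7 := norm_nonneg (gg θ χ2 n - gg θ χ2 m)
  nlinarith [sq_nonneg (‖gg θ χ1 n - gg θ χ1 m‖ - ‖gg θ χ2 n - gg θ χ2 m‖), pow_le_pow_left₀ h5 h4 2]

open Classical in
/-- the mass of the pairs in different cosets -/
theorem pair_mass {W q : ℕ} [NeZero q] {θ : ℝ} (hθ : θ ^ 2 = 1) (hWq : W ∣ q)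
    (X : Finset (DirichletCharacter ℂ q)) (w : DirichletCharacter ℂ q → ℝ) (hF : Fam q X w (gg θ))
    (R : Finset ℕ) (nst : ℕ → ℕ) (hn : ∀ r, (nst r).Coprime q) (c3 Y δ : ℝ)
    (hlow : ∀ χ1 χ2 : DirichletCharacter ℂ q, ¬ Rel hWq χ1 χ2 → ∀ γ : ℕ → ℂ,
      c3 * Y ≤ ∑ n ∈ R, ‖χ1 (n : ZMod q) - γ (n % W) * χ2 (n : ZMod q)‖ ^ 2)
    (hup : ∑ n ∈ R, Dst X w (gg θ) n (nst (n % W)) ≤ δ * Y) :
    (c3 * Y) * ∑ χ1 ∈ X, ∑ χ2 ∈ X.filter (fun χ2 => ¬ Rel hWq χ2 χ1), w χ1 * w χ2 ≤ 4 * (δ * Y) := by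
  have h1 : ∀ χ1 ∈ X, ∀ χ2 ∈ X.filter (fun χ2 => ¬ Rel hWq χ2 χ1), (c3 * Y) * (w χ1 * w χ2) ≤
      (w χ1 * w χ2) * ∑ n ∈ R, 2 * (‖gg θ χ2 n - gg θ χ2 (nst (n % W))‖ ^ 2 +
        ‖gg θ χ1 n - gg θ χ1 (nst (n % W))‖ ^ 2) := by
    intro χ1 h1 χ2 h2
    rw [mem_filter] at h2
    rw [mul_comm (c3 * Y)]
    refine mul_le_mul_of_nonneg_left ?_ (mul_nonneg (hF.w0 _ h1) (hF.w0 _ h2.1))
    refine (hlow χ2 χ1 h2.2 (fun r => gg θ χ2 (nst r) * (starRingEnd ℂ) (gg θ χ1 (nst r)))).trans ?_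
    exact sum_le_sum fun n _ => cmp_nst hθ χ2 χ1 (hn _)
  have hw1 := hF.w1
  have hw0 : 0 ≤ ∑ χ ∈ X, w χ := sum_nonneg fun χ hχ => hF.w0 χ hχ
  calc (c3 * Y) * ∑ χ1 ∈ X, ∑ χ2 ∈ X.filter (fun χ2 => ¬ Rel hWq χ2 χ1), w χ1 * w χ2 =
        ∑ χ1 ∈ X, ∑ χ2 ∈ X.filter (fun χ2 => ¬ Rel hWq χ2 χ1), (c3 * Y) * (w χ1 * w χ2) := by
        rw [mul_sum]
        exact sum_congr rfl fun χ1 _ => mul_sum _ _ _
    _ ≤ ∑ χ1 ∈ X, ∑ χ2 ∈ X.filter (fun χ2 => ¬ Rel hWq χ2 χ1),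
        (w χ1 * w χ2) * ∑ n ∈ R, 2 * (‖gg θ χ2 n - gg θ χ2 (nst (n % W))‖ ^ 2 +
          ‖gg θ χ1 n - gg θ χ1 (nst (n % W))‖ ^ 2) :=
        sum_le_sum fun χ1 h1' => sum_le_sum fun χ2 h2' => h1 χ1 h1' χ2 h2'
    _ ≤ ∑ χ1 ∈ X, ∑ χ2 ∈ X,
        (w χ1 * w χ2) * ∑ n ∈ R, 2 * (‖gg θ χ2 n - gg θ χ2 (nst (n % W))‖ ^ 2 +
          ‖gg θ χ1 n - gg θ χ1 (nst (n % W))‖ ^ 2) := by
        refine sum_le_sum fun χ1 h1' => sum_le_sum_of_subset_of_nonneg (filter_subset _ _) fun χ2 h2' _ => ?_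
        refine mul_nonneg (mul_nonneg (hF.w0 _ h1') (hF.w0 _ h2')) (sum_nonneg fun n _ => by positivity)
    _ = 2 * ((∑ χ1 ∈ X, w χ1) * ∑ n ∈ R, Dst X w (gg θ) n (nst (n % W))) +
        2 * ((∑ χ1 ∈ X, w χ1) * ∑ n ∈ R, Dst X w (gg θ) n (nst (n % W))) := by
        have e1 : ∀ χ1 ∈ X, ∀ χ2 ∈ X, (w χ1 * w χ2) * ∑ n ∈ R,
            2 * (‖gg θ χ2 n - gg θ χ2 (nst (n % W))‖ ^ 2 + ‖gg θ χ1 n - gg θ χ1 (nst (n % W))‖ ^ 2) =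
            2 * (w χ1 * ∑ n ∈ R, w χ2 * ‖gg θ χ2 n - gg θ χ2 (nst (n % W))‖ ^ 2) +
            2 * (w χ2 * ∑ n ∈ R, w χ1 * ‖gg θ χ1 n - gg θ χ1 (nst (n % W))‖ ^ 2) := by
          intro χ1 _ χ2 _
          rw [mul_sum, mul_sum, mul_sum, mul_sum, mul_sum, ← sum_add_distrib]
          refine sum_congr rfl fun n _ => by ring
        rw [sum_congr rfl fun χ1 h1' => sum_congr rfl fun χ2 h2' => e1 χ1 h1' χ2 h2']
        have e2 : ∑ n ∈ R, Dst X w (gg θ) n (nst (n % W)) =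
            ∑ χ ∈ X, ∑ n ∈ R, w χ * ‖gg θ χ n - gg θ χ (nst (n % W))‖ ^ 2 := by
          unfold Dst
          rw [sum_comm]
        rw [e2]
        simp_rw [sum_add_distrib]
        congr 1
        · rw [sum_mul, mul_sum]
          refine sum_congr rfl fun χ1 _ => ?_
          rw [← mul_sum, ← mul_sum]
        · rw [sum_comm, sum_mul, mul_sum]
          refine sum_congr rfl fun χ1 _ => ?_
          rw [← mul_sum, ← mul_sum]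
    _ ≤ 2 * (1 * (δ * Y)) + 2 * (1 * (δ * Y)) := by
        have e3 : 0 ≤ ∑ n ∈ R, Dst X w (gg θ) n (nst (n % W)) := sum_nonneg fun n _ => Dst_nonneg hF _ _
        have e4 : (∑ χ1 ∈ X, w χ1) * ∑ n ∈ R, Dst X w (gg θ) n (nst (n % W)) ≤ 1 * (δ * Y) := by
          refine mul_le_mul hw1 hup e3 zero_le_one
        linarith
    _ = 4 * (δ * Y) := by ring

theorem spec (W : ℕ) [NeZero W] (ε : ℝ) (hε : 0 < ε) (κ0 : ℝ) (hκ0 : 0 < κ0) : ∃ κ : ℝ, 0 < κ ∧ κ ≤ 1 / 100 ∧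
    κ ≤ κ0 ∧ ∃ C1 : ℕ, 3 ≤ C1 ∧ ∀ c1 : ℝ, 0 < c1 → ∃ c : ℝ, 0 < c ∧ c ≤ c1 ∧ c ≤ κ ∧ ∃ η0 : ℝ, 0 < η0 ∧
    ∃ Cc : ℝ, 0 < Cc ∧ ∃ N0 : ℕ, ∀ (N q : ℕ) [NeZero q], N0 ≤ N →
    ∀ (a0 : ℕ) (η θ : ℝ) (F : ZMod q → ℝ) (G : ℕ → ℝ) (Q P0 : Finset ℕ),
    Hyp W N q a0 ⌊(N : ℝ) ^ c⌋₊ η ((Real.log N) ^ C1) θ F G Q P0 → η ≤ η0 → 0 < ∑ x : ZMod q, F x ^ 2 →
    ∃ χ ∈ XX (q := q) P0 θ, 1 - ε ≤ W.totient * ww F χ ∧
    ∃ e : ℕ → ℝ, Two W q ⌊(N : ℝ) ^ c⌋₊ ⌊(N : ℝ) ^ (1 / 2 - κ)⌋₊ (Cc * η) (XX (q := q) P0 θ) (ww F) (gg θ) e := by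
  classical
  have hW : 1 ≤ W := NeZero.one_le
  obtain ⟨c3, hc3, hlow⟩ := low_pair W
  obtain ⟨ε1, hε1d⟩ : ∃ ε1 : ℝ, ε1 = min (ε * c3 / 16) κ0 := ⟨_, rfl⟩
  have hε1 : 0 < ε1 := by rw [hε1d]; exact lt_min (by positivity) hκ0
  obtain ⟨κ, hκ, hκ1, hκε, hch⟩ := chain W hW ε1 hε1
  obtain ⟨C1, hC1, htw⟩ := two_pt W hW κ hκ hκ1
  obtain ⟨c0, hc0, hlow2⟩ := hlow κ hκ hκ1
  refine ⟨κ, hκ, hκ1, hκε.trans (by rw [hε1d]; exact min_le_right _ _), C1, hC1, ?_⟩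
  intro c1 hc1
  obtain ⟨c, hc, hcc1, hcκ, η2, hη2, N1, hch1⟩ := hch (min c0 c1) (lt_min hc0 hc1)
  obtain ⟨Cc, hCc, N2, htw1⟩ := htw c hc hcκ
  obtain ⟨N3, hlow3⟩ := hlow2 c hc (hcc1.trans (min_le_left _ _))
  refine ⟨c, hc, hcc1.trans (min_le_right _ _), hcκ, min (η2 / Cc) (min (ε / 4) (1 / 2)),
    lt_min (by positivity) (lt_min (by positivity) (by norm_num)), Cc, hCc,
    max (max N1 N2) (max N3 (max 16 ⌈(Real.exp 1 * 4) ^ (1 / c)⌉₊)), ?_⟩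
  intro N q _ hN a0 η θ F G Q P0 h hη hS
  have hN1 : N1 ≤ N := (le_max_left _ _).trans ((le_max_left _ _).trans hN)
  have hN2 : N2 ≤ N := (le_max_right _ _).trans ((le_max_left _ _).trans hN)
  have hN3 : N3 ≤ N := (le_max_left _ _).trans ((le_max_right _ _).trans hN)
  have hN4 : 16 ≤ N := (le_max_left _ _).trans ((le_max_right _ _).trans ((le_max_right _ _).trans hN))
  have hN5 : ⌈(Real.exp 1 * 4) ^ (1 / c)⌉₊ ≤ N :=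
    (le_max_right _ _).trans ((le_max_right _ _).trans ((le_max_right _ _).trans hN))
  have hWq : W ∣ q := by rw [h.hq]; exact Nat.dvd_mul_right W N
  obtain ⟨e, he⟩ := htw1 N q hN2 a0 η θ F G Q P0 h hS
  obtain ⟨w, hw⟩ : ∃ w : DirichletCharacter ℂ q → ℝ, w = ww F := ⟨_, rfl⟩
  obtain ⟨X, hX⟩ : ∃ X : Finset (DirichletCharacter ℂ q), X = XX P0 θ := ⟨_, rfl⟩
  have hfam : Fam q X w (gg θ) := by
    rw [hw]
    exact Fam_gg h.th F h.F0 X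
  have hE : Cc * η ≤ η2 := by
    have := hη.trans (min_le_left _ _)
    rw [le_div_iff₀ hCc] at this
    linarith
  have he' : Two W q ⌊(N : ℝ) ^ c⌋₊ ⌊(N : ℝ) ^ (1 / 2 - κ)⌋₊ η2 X w (gg θ) e := by
    rw [hw, hX]
    exact ⟨he.e0, he.mass.trans hE, he.two⟩
  obtain ⟨nst, hns, hnd⟩ := hch1 N q hN1 h.hq (DirichletCharacter ℂ q) X w (gg θ) e hfam he'
  obtain ⟨Y, hY⟩ : ∃ Y : ℝ, Y = (⌊(N : ℝ) ^ (1 / 2 + κ)⌋₊ : ℝ) / Real.log ⌊(N : ℝ) ^ c⌋₊ := ⟨_, rfl⟩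
  rw [← hY] at hnd
  have hpm := pair_mass h.th hWq X w hfam (RN q ⌊(N : ℝ) ^ c⌋₊ ⌊(N : ℝ) ^ (1 / 2 + κ)⌋₊) nst
    (fun r => (hns r).2) c3 Y ε1 (by
      intro χ1 χ2 hr γ
      rw [hY]
      refine hlow3 N q hWq hN3 h.hq χ1 χ2 ?_ γ
      intro ψ hψ
      exact hr ⟨ψ, hψ⟩) hnd
  have hNR : (1 : ℝ) ≤ N := by exact_mod_cast (by omega : 1 ≤ N)
  have hY0 : 0 < Y := by
    have e1 : (1 : ℝ) ≤ (N : ℝ) ^ (1 / 2 + κ) := Real.one_le_rpow hNR (by positivity)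
    have e2 : 1 ≤ ⌊(N : ℝ) ^ (1 / 2 + κ)⌋₊ := by
      rw [Nat.one_le_floor_iff]
      exact e1
    have e3 : Real.exp 1 * 4 ≤ (N : ℝ) ^ c := by
      have h1 : (Real.exp 1 * 4) ^ (1 / c) ≤ N := Nat.ceil_le.mp hN5
      have h2 : ((Real.exp 1 * 4) ^ (1 / c)) ^ c ≤ (N : ℝ) ^ c :=
        Real.rpow_le_rpow (by positivity) h1 hc.le
      rwa [← Real.rpow_mul (by positivity), one_div, inv_mul_cancel₀ hc.ne', Real.rpow_one] at h2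
    have e4 : (2 : ℝ) ≤ ⌊(N : ℝ) ^ c⌋₊ := by
      have h1 := Real.add_one_le_exp 1
      have h2 : (2 : ℕ) ≤ ⌊(N : ℝ) ^ c⌋₊ := by
        apply Nat.le_floor
        push_cast
        linarith
      exact_mod_cast h2
    have e5 : 0 < Real.log ⌊(N : ℝ) ^ c⌋₊ := Real.log_pos (by linarith)
    rw [hY]
    have e6 : (1 : ℝ) ≤ ⌊(N : ℝ) ^ (1 / 2 + κ)⌋₊ := by exact_mod_cast e2
    positivity
  have hcard : 0 < P0.card := by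
    have h1 := h.P0c
    have h2 : 0 < Real.log N := Real.log_pos (by
      have : (16 : ℝ) ≤ N := by exact_mod_cast hN4
      linarith)
    have h3 : 0 < Real.log N ^ C1 / Real.log N ^ 2 := by positivity
    have h4 : (0 : ℝ) < P0.card := lt_of_lt_of_le h3 h1
    exact_mod_cast h4
  have hmass : 1 - η ≤ ∑ χ ∈ X, w χ := by
    rw [hX, hw]
    exact mass_X h hcard hS
  have hη4 : η ≤ ε / 4 := hη.trans ((min_le_right _ _).trans (min_le_left _ _))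
  have hη1 : η ≤ 1 / 2 := hη.trans ((min_le_right _ _).trans (min_le_right _ _))
  have hη0 := h.η0
  obtain ⟨PI0, hPI0⟩ : ∃ PI0 : ℝ, PI0 = ∑ χ1 ∈ X, ∑ χ2 ∈ X.filter (fun χ2 => ¬ Rel hWq χ2 χ1), w χ1 * w χ2 :=
    ⟨_, rfl⟩
  rw [← hPI0] at hpm
  have hPI04 : PI0 ≤ ε / 4 := by
    have h1 : ε1 ≤ ε * c3 / 16 := by rw [hε1d]; exact min_le_left _ _
    have h2 : (c3 * Y) * PI0 ≤ (c3 * Y) * (ε / 4) := by
      calc (c3 * Y) * PI0 ≤ 4 * (ε1 * Y) := hpm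
        _ ≤ 4 * ((ε * c3 / 16) * Y) := by
            refine mul_le_mul_of_nonneg_left ?_ (by norm_num)
            exact mul_le_mul_of_nonneg_right h1 hY0.le
        _ = (c3 * Y) * (ε / 4) := by ring
    exact le_of_mul_le_mul_left h2 (by positivity)
  -- choose the coset
  have hex : ∃ χ ∈ X, 1 - ε ≤ ∑ χ' ∈ X.filter (fun χ' => Rel hWq χ' χ), w χ' := by
    by_contra hcon
    push Not at hcon
    have h1 : ∑ χ1 ∈ X, w χ1 * ∑ χ' ∈ X.filter (fun χ' => Rel hWq χ' χ1), w χ' ≤ ∑ χ1 ∈ X, w χ1 * (1 - ε) :=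
      sum_le_sum fun χ1 h1 => mul_le_mul_of_nonneg_left (hcon χ1 h1).le (hfam.w0 χ1 h1)
    have h2 : (∑ χ1 ∈ X, w χ1) * (∑ χ1 ∈ X, w χ1) =
        ∑ χ1 ∈ X, w χ1 * ∑ χ' ∈ X.filter (fun χ' => Rel hWq χ' χ1), w χ' + PI0 := by
      rw [hPI0, sum_mul, ← sum_add_distrib]
      refine sum_congr rfl fun χ1 _ => ?_
      rw [← mul_sum, ← mul_add, sum_filter_add_sum_filter_not]
    rw [← sum_mul] at h1
    obtain ⟨s, hs⟩ : ∃ s : ℝ, s = ∑ χ1 ∈ X, w χ1 := ⟨_, rfl⟩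
    rw [← hs] at h1 h2 hmass
    have hs1 : s ≤ 1 := by rw [hs]; exact hfam.w1
    have hs2 : 1 / 2 ≤ s := by linarith
    have hs3 : 3 * ε / 4 ≤ s - 1 + ε := by linarith
    have hs4 : 1 / 2 * (3 * ε / 4) ≤ s * (s - 1 + ε) :=
      mul_le_mul hs2 hs3 (by positivity) (by linarith)
    have hs5 : s * (s - 1 + ε) = s * s - s * (1 - ε) := by ring
    linarith
  obtain ⟨χ, hχ, hm⟩ := hex
  rw [hX] at hχ
  refine ⟨χ, hχ, ?_, e, he⟩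
  refine hm.trans ?_
  rw [hw]
  exact coset_mass h hWq X χ

end Pool.Agent.Lib.OWS
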