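import Pool.Agent.Lib.MP_7b7e48_nt.OW.UUC
import Pool.Agent.Lib.MP_7b7e48_nt.OW.CN3
import Pool.Agent.Lib.MP_7b7e48_nt.OW.SPFin

/-!
# Part SP: the robust spectral lemma on `UU W N a`
-/

set_option autoImplicit false

open Finset
open Pool.Agent.Lib.MP_45349e_nt.LS (lam)

namespace Pool.Agent.Lib.OW

open Pool.Agent.Lib.RG (RC LV rr SS PB bch)
open Pool.Agent.Lib.OWS (Hyp ww XX)

/-- the extension of `f` to the residue classes -/
noncomputable def ext (W N a : ℕ) (f : ℕ → ℝ) (x : ZMod (W * N)) : ℝ :=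
  if x.val ∈ UU W N a then f x.val else 0

theorem sum_zmod {E : Type} [AddCommMonoid E] (W N a : ℕ) [NeZero (W * N)] (H : ℕ → E) :
    ∑ x : ZMod (W * N), (if x.val ∈ UU W N a then H x.val else 0) = ∑ x ∈ UU W N a, H x := by
  rw [← sum_filter]
  refine sum_nbij' (fun x => x.val) (fun n => (n : ZMod (W * N))) ?_ ?_ ?_ ?_ ?_
  · intro x hx
    rw [mem_filter] at hx
    exact hx.2
  · intro n hn
    rw [mem_filter]
    refine ⟨mem_univ _, ?_⟩
    have h1 : n < W * N := by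
      rw [UU, mem_filter, mem_range] at hn
      exact hn.1
    rw [ZMod.val_cast_of_lt h1]
    exact hn
  · intro x _
    exact ZMod.natCast_zmod_val x
  · intro n hn
    have h1 : n < W * N := by
      rw [UU, mem_filter, mem_range] at hn
      exact hn.1
    exact ZMod.val_cast_of_lt h1
  · intro x _
    rfl

theorem val_mul_nat {q : ℕ} [NeZero q] (l : ℕ) (x : ZMod q) : ((l : ZMod q) * x).val = (l * x.val) % q := by
  rw [ZMod.val_mul, ZMod.val_natCast, Nat.mod_mul_mod]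

theorem mr_mem {W N a l x : ℕ} (hl : l % W = 1 % W) (hlN : l.Coprime N) (hN : 0 < W * N) :
    mr W N l x ∈ UU W N a ↔ (x % W = a % W ∧ x.Coprime N) := by
  unfold mr UU
  rw [mem_filter, mem_range]
  have h1 : (l * x) % (W * N) % W = x % W := by
    rw [Nat.mod_mod_of_dvd _ (Dvd.intro _ rfl), Nat.mul_mod, hl, ← Nat.mul_mod, one_mul]
  have h2 : ((l * x) % (W * N)).Coprime N ↔ x.Coprime N := by
    have e1 : ((l * x) % (W * N)).Coprime N ↔ (l * x).Coprime N := by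
      rw [Nat.Coprime, Nat.Coprime, Nat.gcd_comm, Nat.gcd_rec N ((l * x) % (W * N)), Nat.mod_mul_left_mod,
        ← Nat.gcd_rec, Nat.gcd_comm]
    rw [e1]
    exact ⟨fun h => Nat.Coprime.coprime_mul_left h, fun h => Nat.Coprime.mul_left hlN h⟩
  rw [h1, h2]
  exact ⟨fun h => h.2, fun h => ⟨Nat.mod_lt _ hN, h⟩⟩

open Classical in
theorem P0_ex (W : ℕ) (hW : 1 ≤ W) (C1 : ℕ) (h3 : 3 ≤ C1) : ∃ N0 : ℕ, ∀ N : ℕ, N0 ≤ N → ∃ P0 : Finset ℕ,
    (∀ l ∈ P0, l.Prime ∧ (l : ℝ) ≤ (Real.log N) ^ C1 ∧ ¬ l ∣ W * N ∧ l % W = 1 % W ∧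
      (Real.log N) ^ C1 / 2 < l) ∧ (Real.log N) ^ C1 / (Real.log N) ^ 2 ≤ P0.card := by
  obtain ⟨c, hc, x0, hpap⟩ := pap W hW
  have hC1 : (0 : ℝ) < C1 := by exact_mod_cast (by omega : 0 < C1)
  have hlog : Filter.Tendsto (fun x : ℕ => Real.log (x : ℝ)) Filter.atTop Filter.atTop :=
    Real.tendsto_log_atTop.comp tendsto_natCast_atTop_atTop
  have hlo := (Real.isLittleO_log_id_atTop.def (show (0 : ℝ) < c / (16 * C1) by positivity))
  rw [← Filter.eventually_atTop]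
  filter_upwards [hlog.eventually hlo, hlog.eventually_ge_atTop (x0 + 4), Filter.eventually_ge_atTop (max 3 W)]
    with N h1 h2 h4
  obtain ⟨K, hK⟩ : ∃ K : ℝ, K = Real.log N := ⟨_, rfl⟩
  rw [← hK] at h1 h2 ⊢
  have hx00 : (0 : ℝ) ≤ x0 := Nat.cast_nonneg _
  have hK4 : 4 ≤ K := by linarith
  have hlK : 0 < Real.log K := Real.log_pos (by linarith)
  have hlK1 : Real.log K ≤ c / (16 * C1) * K := by
    simp only [id] at h1
    rwa [Real.norm_eq_abs, Real.norm_eq_abs, abs_of_pos hlK, abs_of_pos (by linarith : (0 : ℝ) < K)] at h1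
  obtain ⟨M, hM⟩ : ∃ M : ℕ, M = ⌊K ^ C1⌋₊ := ⟨_, rfl⟩
  have hKK : K ≤ K ^ C1 := le_self_pow₀ (by linarith) (by omega)
  have hM1 : (M : ℝ) ≤ K ^ C1 := by rw [hM]; exact Nat.floor_le (by positivity)
  have hM2 : K ^ C1 < M + 1 := by rw [hM]; exact Nat.lt_floor_add_one _
  have hM3 : (x0 : ℝ) + 3 ≤ M := by linarith
  have hM3' : x0 ≤ M := by
    have : (x0 : ℝ) ≤ M := by linarith
    exact_mod_cast this
  obtain ⟨A, hA⟩ : ∃ A : Finset ℕ, A = (Finset.Ioc (M / 2) M).filter fun p => p.Prime ∧ p ≡ 1 [MOD W] := ⟨_, rfl⟩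
  have hcard := hpap M hM3' 1 (Nat.coprime_one_left W)
  rw [← hA] at hcard
  have hq1 : 1 ≤ W * N := Nat.mul_pos hW (by omega)
  have hAp : ∀ l ∈ A, l.Prime := by
    intro l hl
    rw [hA, mem_filter] at hl
    exact hl.2.1
  have hdiv := RG.card_dvd_le (W * N) A hAp (W * N) hq1 le_rfl
  have hlq : Real.log ((W * N : ℕ) : ℝ) ≤ 2 * K := by
    have e1 : ((W * N : ℕ) : ℝ) ≤ (N : ℝ) ^ 2 := by
      push_cast
      have : (W : ℝ) ≤ N := by exact_mod_cast (le_max_right 3 W).trans h4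
      nlinarith [Nat.cast_nonneg (α := ℝ) N]
    have e2 : (0 : ℝ) < ((W * N : ℕ) : ℝ) := by exact_mod_cast hq1
    calc Real.log ((W * N : ℕ) : ℝ) ≤ Real.log ((N : ℝ) ^ 2) := Real.log_le_log e2 e1
      _ = 2 * K := by rw [Real.log_pow, hK]; norm_num
  refine ⟨A.filter fun l => ¬ l ∣ W * N, ?_, ?_⟩
  · intro l hl
    rw [mem_filter, hA, mem_filter, mem_Ioc] at hl
    obtain ⟨⟨⟨e1, e2⟩, e3, e4⟩, e5⟩ := hl
    refine ⟨e3, ?_, e5, e4, ?_⟩
    · exact le_trans (by exact_mod_cast e2) hM1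
    · have e6 : M + 1 ≤ 2 * l := by omega
      have e7 : ((M : ℝ) + 1) ≤ 2 * l := by exact_mod_cast e6
      linarith
  · have e1 : ((A.filter fun l => ¬ l ∣ W * N).card : ℝ) = A.card - (A.filter fun l => l ∣ W * N).card := by
      have := card_filter_add_card_filter_not (s := A) (fun l => l ∣ W * N)
      have h' : ((A.filter fun l => l ∣ W * N).card : ℝ) + (A.filter fun l => ¬ l ∣ W * N).card = A.card := by
        exact_mod_cast this
      linarith
    rw [e1]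
    have hMpos : (0 : ℝ) < M := by linarith
    have hM1' : (1 : ℝ) < M := by linarith
    have e2 : Real.log M ≤ C1 * Real.log K := by
      calc Real.log M ≤ Real.log (K ^ C1) := Real.log_le_log hMpos hM1
        _ = C1 * Real.log K := by rw [Real.log_pow]
    have e3 : 0 < Real.log M := Real.log_pos hM1'
    have e4 : K ^ C1 / 2 ≤ M := by linarith
    have hKC : 0 < K ^ C1 := by positivity
    have e5 : c * K ^ C1 / (2 * (C1 * Real.log K)) ≤ c * M / Real.log M := by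
      rw [div_le_div_iff₀ (by positivity) e3]
      calc c * K ^ C1 * Real.log M ≤ c * K ^ C1 * (C1 * Real.log K) :=
            mul_le_mul_of_nonneg_left e2 (by positivity)
        _ = c * (K ^ C1 / 2) * (2 * (C1 * Real.log K)) := by ring
        _ ≤ c * M * (2 * (C1 * Real.log K)) := by
            refine mul_le_mul_of_nonneg_right ?_ (by positivity)
            exact mul_le_mul_of_nonneg_left e4 hc.le
    have e6 : 8 * K ^ C1 / K ≤ c * K ^ C1 / (2 * (C1 * Real.log K)) := by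
      rw [div_le_div_iff₀ (by positivity) (by positivity)]
      have e7 : 16 * (C1 * Real.log K) ≤ c * K := by
        have := mul_le_mul_of_nonneg_left hlK1 (show (0 : ℝ) ≤ 16 * C1 by positivity)
        calc 16 * (C1 * Real.log K) = 16 * C1 * Real.log K := by ring
          _ ≤ 16 * C1 * (c / (16 * C1) * K) := this
          _ = c * K := by field_simp
      calc 8 * K ^ C1 * (2 * (C1 * Real.log K)) = K ^ C1 * (16 * (C1 * Real.log K)) := by ring
        _ ≤ K ^ C1 * (c * K) := mul_le_mul_of_nonneg_left e7 hKC.le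
        _ = c * K ^ C1 * K := by ring
    have e8 : K ^ C1 / K ^ 2 ≤ K ^ C1 / K := by
      refine div_le_div_of_nonneg_left hKC.le (by linarith) ?_
      nlinarith
    have e9 : K ^ 2 ≤ K ^ C1 / K := by
      rw [le_div_iff₀ (by linarith)]
      calc K ^ 2 * K = K ^ 3 := by ring
        _ ≤ K ^ C1 := pow_le_pow_right₀ (by linarith) h3
    have e10 : 8 * K ^ C1 / K = 8 * (K ^ C1 / K) := by ring
    have e11 : 4 * K ≤ K ^ 2 := by nlinarith
    linarith

open Classical in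
/-- the hypothesis of the spectral lemma for functions on `UU` -/
theorem hyp_of {W N a : ℕ} [NeZero (W * N)] (hc : Cfg W N a) (hN1 : 1 < N) {c η M θ : ℝ} (f G : ℕ → ℝ) (Q P0 : Finset ℕ)
    (hθ : θ = 1 ∨ θ = -1)
    (hP : ∀ l ∈ P0, l.Prime ∧ (l : ℝ) ≤ M ∧ ¬ l ∣ W * N ∧ l % W = 1 % W)
    (hPc : M / (Real.log N) ^ 2 ≤ P0.card)
    (hinv : ∀ l ∈ P0, ∑ x ∈ UU W N a, (f (mr W N l x) - θ * f x) ^ 2 ≤ η * ∑ x ∈ UU W N a, f x ^ 2)
    (hval : ∀ n ∈ UU W N a, n < N → f n = G n)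
    (hmul : ∀ l n : ℕ, l.Prime → l.Coprime (W * N) → l ∉ Q → (N : ℝ) ^ c < l → (l : ℝ) ≤ (N : ℝ) ^ ((1 : ℝ) / 2) →
      n.Coprime (W * N) → l * n < N → G (l * n) = θ * G n)
    (hQ : ∑ q ∈ Q.filter (fun q : ℕ => (N : ℝ) ^ c < q ∧ (q : ℝ) ≤ (N : ℝ) ^ ((1 : ℝ) / 2)), 1 / (q : ℝ) ≤ η) :
    Hyp W N (W * N) a ⌊(N : ℝ) ^ c⌋₊ η M θ (ext W N a f) G
      ((Q.filter (fun q : ℕ => (N : ℝ) ^ c < q ∧ (q : ℝ) ≤ (N : ℝ) ^ ((1 : ℝ) / 2))).filter fun l => l.Prime) P0 := by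
  have hN0 : 0 < W * N := Nat.pos_of_ne_zero (NeZero.ne _)
  have hmem : ∀ x : ZMod (W * N), x.val ∈ UU W N a ↔ (x.val % W = a % W ∧ x.val.Coprime N) := by
    intro x
    unfold UU
    rw [mem_filter, mem_range]
    exact ⟨fun h => h.2, fun h => ⟨ZMod.val_lt x, h⟩⟩
  have hNle : N ≤ W * N := Nat.le_mul_of_pos_left _ hc.W1
  refine ⟨rfl, by rcases hθ with h | h <;> rw [h] <;> norm_num, ?_, fun l hl => ⟨(hP l hl).1, (hP l hl).2.1,
    (hP l hl).2.2.1⟩, hPc, ?_, ?_, ?_, ?_, ?_⟩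
  · intro x hx
    unfold ext at hx
    have hxU : x.val ∈ UU W N a := by
      by_contra hcon
      rw [if_neg hcon] at hx
      exact hx rfl
    rw [hmem] at hxU
    refine ⟨?_, hxU.1⟩
    have h1 : x.val.Coprime (W * N) := Nat.Coprime.mul_right (cop_of_class hc.aW hxU.1) hxU.2
    have h2 : ((x.val : ℕ) : ZMod (W * N)) = x := ZMod.natCast_zmod_val x
    rw [← h2, ZMod.isUnit_iff_coprime]
    exact h1
  · intro l hl
    obtain ⟨h1, h2, h3, h4⟩ := hP l hl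
    have h5 : l.Coprime N := by
      rw [Nat.Prime.coprime_iff_not_dvd h1]
      exact fun h => h3 (Dvd.dvd.mul_left h W)
    have e1 : ∑ x : ZMod (W * N), (ext W N a f ((l : ZMod (W * N)) * x) - θ * ext W N a f x) ^ 2 =
        ∑ x : ZMod (W * N), (if x.val ∈ UU W N a then (f (mr W N l x.val) - θ * f x.val) ^ 2 else 0) := by
      refine sum_congr rfl fun x _ => ?_
      unfold ext
      rw [val_mul_nat]
      have e2 : (l * x.val) % (W * N) = mr W N l x.val := rfl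
      rw [e2]
      by_cases hx : x.val ∈ UU W N a
      · have e3 : mr W N l x.val ∈ UU W N a := by
          rw [mr_mem h4 h5 hN0]
          exact (hmem x).mp hx
        rw [if_pos hx, if_pos e3, if_pos hx]
      · have e3 : mr W N l x.val ∉ UU W N a := by
          rw [mr_mem h4 h5 hN0]
          exact fun h => hx ((hmem x).mpr h)
        rw [if_neg hx, if_neg e3, if_neg hx]
        ring
    have e4 : ∑ x : ZMod (W * N), ext W N a f x ^ 2 =
        ∑ x : ZMod (W * N), (if x.val ∈ UU W N a then f x.val ^ 2 else 0) := by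
      refine sum_congr rfl fun x _ => ?_
      unfold ext
      split_ifs with h
      · rfl
      · ring
    rw [e1, e4, sum_zmod W N a (fun x => (f (mr W N l x) - θ * f x) ^ 2), sum_zmod W N a (fun x => f x ^ 2)]
    exact hinv l hl
  · intro n hn1 hnN hna hnq
    unfold ext
    have e1 : ((n : ℕ) : ZMod (W * N)).val = n := ZMod.val_cast_of_lt (by omega)
    rw [e1]
    have e2 : n ∈ UU W N a := by
      unfold UU
      rw [mem_filter, mem_range]
      exact ⟨by omega, hna, Nat.Coprime.coprime_mul_left_right hnq⟩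
    rw [if_pos e2]
    exact hval n e2 hnN
  · intro l n hl hlQ hlq hzl hl2 hn1 hnq hln
    have e1 : (N : ℝ) ^ c < l := (Nat.floor_lt (by positivity)).mp hzl
    have e2 : (l : ℝ) ≤ (N : ℝ) ^ ((1 : ℝ) / 2) := by
      have : (l : ℝ) ^ 2 ≤ N := by exact_mod_cast hl2
      rw [← Real.sqrt_eq_rpow]
      exact Real.le_sqrt_of_sq_le this
    refine hmul l n hl ((Nat.Prime.coprime_iff_not_dvd hl).mpr hlq) ?_ e1 e2 hnq hln
    intro hQl
    refine hlQ ?_
    rw [mem_filter, mem_filter]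
    exact ⟨⟨hQl, e1, e2⟩, hl⟩
  · intro l hl
    rw [mem_filter, mem_filter] at hl
    exact ⟨hl.2, (Nat.floor_lt (by positivity)).mpr hl.1.2.1⟩
  · refine le_trans ?_ hQ
    exact sum_le_sum_of_subset_of_nonneg (filter_subset _ _) fun _ _ _ => by positivity

/-- the conclusion of the spectral lemma for functions on `UU` -/
theorem ww_ext {W N a : ℕ} [NeZero (W * N)] (hc : Cfg W N a) (f : ℕ → ℝ) (χ : DirichletCharacter ℂ (W * N)) :
    W.totient * ww (ext W N a f) χ * ((UU W N a).card * ∑ x ∈ UU W N a, f x ^ 2) =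
      if ∑ x ∈ UU W N a, f x ^ 2 = 0 then 0 else
        ‖∑ x ∈ UU W N a, (f x : ℂ) * (starRingEnd ℂ) (χ (x : ZMod (W * N)))‖ ^ 2 := by
  have e4 : ∑ x : ZMod (W * N), ext W N a f x ^ 2 = ∑ x ∈ UU W N a, f x ^ 2 := by
    rw [← sum_zmod W N a (fun x => f x ^ 2)]
    refine sum_congr rfl fun x _ => ?_
    unfold ext
    split_ifs with h
    · rfl
    · ring
  have e5 : ∑ y : ZMod (W * N), (ext W N a f y : ℂ) * (starRingEnd ℂ) (χ y) =
      ∑ x ∈ UU W N a, (f x : ℂ) * (starRingEnd ℂ) (χ (x : ZMod (W * N))) := by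
    rw [← sum_zmod W N a (fun x => (f x : ℂ) * (starRingEnd ℂ) (χ (x : ZMod (W * N))))]
    refine sum_congr rfl fun x _ => ?_
    unfold ext
    split_ifs with h
    · rw [ZMod.natCast_zmod_val]
    · simp
  split_ifs with h0
  · rw [h0, mul_zero, mul_zero]
  · unfold ww bch
    rw [e4]
    simp only
    rw [e5, norm_mul, mul_pow]
    have h1 : ((W * N).totient : ℝ) = (UU W N a).card * W.totient := by
      exact_mod_cast (card_UU_tot hc).symm
    have h2 : (0 : ℝ) < (W * N).totient := by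
      exact_mod_cast Nat.totient_pos.mpr (Nat.pos_of_ne_zero (NeZero.ne (W * N)))
    have h3 : ‖(((W * N).totient : ℕ) : ℂ)⁻¹‖ = ((W * N).totient : ℝ)⁻¹ := by
      rw [norm_inv, Complex.norm_natCast]
    rw [h3]
    have h4 : (W.totient : ℝ) * (UU W N a).card = (W * N).totient := by rw [h1]; ring
    field_simp
    rw [← h4]
    ring

open Classical in
theorem sp (W : ℕ) (hW : 1 ≤ W) (ε : ℝ) (hε : 0 < ε) : ∃ c0 η C1 : ℝ, 0 < c0 ∧ 0 < η ∧ 0 < C1 ∧ ∃ N0 : ℕ,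
    ∀ (N : ℕ) [NeZero (W * N)], N0 ≤ N → ∀ a : ℕ, Cfg W N a → ∀ (θ : ℝ) (f G : ℕ → ℝ) (Q : Finset ℕ), (θ = 1 ∨ θ = -1) →
    (∀ l : ℕ, l.Prime → l % W = 1 % W → (Real.log N) ^ C1 / 2 < l → (l : ℝ) ≤ (Real.log N) ^ C1 →
      ∑ x ∈ UU W N a, (f (mr W N l x) - θ * f x) ^ 2 ≤ η * ∑ x ∈ UU W N a, f x ^ 2) →
    (∀ n ∈ UU W N a, n < N → f n = G n) →
    (∀ l n : ℕ, l.Prime → l.Coprime (W * N) → l ∉ Q → (N : ℝ) ^ c0 < l → (l : ℝ) ≤ (N : ℝ) ^ ((1 : ℝ) / 2) →
      n.Coprime (W * N) → l * n < N → G (l * n) = θ * G n) →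
    (∑ q ∈ Q.filter (fun q : ℕ => (N : ℝ) ^ c0 < q ∧ (q : ℝ) ≤ (N : ℝ) ^ ((1 : ℝ) / 2)), 1 / (q : ℝ) ≤ η) →
    ∃ χ : DirichletCharacter ℂ (W * N),
      (1 - ε) * (UU W N a).card * ∑ x ∈ UU W N a, f x ^ 2 ≤
        ‖∑ x ∈ UU W N a, (f x : ℂ) * (starRingEnd ℂ) (χ (x : ZMod (W * N)))‖ ^ 2 := by
  have : NeZero W := ⟨by omega⟩
  obtain ⟨κ, hκ, hκ1, -, C1, hC1, hsp⟩ := OWS.spec W ε hε 1 one_pos
  obtain ⟨c, hc, -, -, η0, hη0, Cc, hCc, N1, hspec⟩ := hsp 1 one_pos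
  obtain ⟨N2, hP⟩ := P0_ex W hW C1 hC1
  refine ⟨c, η0, C1, hc, hη0, by exact_mod_cast (by omega : 0 < C1), max N1 (max N2 2), ?_⟩
  intro N _ hN a hcfg θ f G Q hθ hinv hval hmul hQ
  have hN1 : N1 ≤ N := (le_max_left _ _).trans hN
  have hN2 : N2 ≤ N := (le_max_left _ _).trans ((le_max_right _ _).trans hN)
  have hN3 : 2 ≤ N := (le_max_right _ _).trans ((le_max_right _ _).trans hN)
  by_cases hS : ∑ x ∈ UU W N a, f x ^ 2 = 0
  · refine ⟨1, ?_⟩
    rw [hS, mul_zero]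
    positivity
  · have hS0 : 0 < ∑ x ∈ UU W N a, f x ^ 2 :=
      lt_of_le_of_ne (sum_nonneg fun _ _ => sq_nonneg _) (Ne.symm hS)
    obtain ⟨P0, hP0, hP0c⟩ := hP N hN2
    have hinv' : ∀ l ∈ P0, ∑ x ∈ UU W N a, (f (mr W N l x) - θ * f x) ^ 2 ≤
        η0 * ∑ x ∈ UU W N a, f x ^ 2 := by
      intro l hl
      obtain ⟨h1, h2, h3, h4, h5⟩ := hP0 l hl
      refine hinv l h1 h4 ?_ ?_
      · rw [Real.rpow_natCast]; exact h5
      · rw [Real.rpow_natCast]; exact h2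
    have hyp := hyp_of hcfg (by omega) f G Q P0 hθ
      (fun l hl => ⟨(hP0 l hl).1, (hP0 l hl).2.1, (hP0 l hl).2.2.1, (hP0 l hl).2.2.2.1⟩) hP0c hinv' hval hmul hQ
    have e4 : ∑ x : ZMod (W * N), ext W N a f x ^ 2 = ∑ x ∈ UU W N a, f x ^ 2 := by
      rw [← sum_zmod W N a (fun x => f x ^ 2)]
      refine sum_congr rfl fun x _ => ?_
      unfold ext
      split_ifs with h
      · rfl
      · ring
    obtain ⟨χ, -, hχ, -⟩ := hspec N (W * N) hN1 a η0 θ (ext W N a f) G _ P0 hyp le_rfl (by rw [e4]; exact hS0)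
    refine ⟨χ, ?_⟩
    have h1 := ww_ext hcfg f χ
    rw [if_neg hS] at h1
    rw [← h1, mul_assoc]
    refine mul_le_mul_of_nonneg_right hχ ?_
    positivity

end Pool.Agent.Lib.OW
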