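import Mathlib
import Pool.Agent.Lib.MP_7b7e48_nt.OW.NumW
import Pool.Agent.Lib.MP_7b7e48_nt.OW.SPIa

/-!
# Module FINZ: a small nearly invariant set leads to a contradiction

Apply `sp` with `ε = 1/2`, `θ = 1`, `f` = the indicator function of `Z = Zst N W a c 1`, `G n = 1` if `lam n ≠ c n`, else `0`.
-/

set_option autoImplicit false

open Finset
open Pool.Agent.Lib.MP_45349e_nt.LS (lam lam_mul lam_prime abs_lam)

namespace Pool.Agent.Lib.OW

open Pool.Agent.Lib.RG (RC LV rr SS PB)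

theorem finz_mem_UU {W N a x : ℕ} : x ∈ UU W N a ↔ x < W * N ∧ x % W = a % W ∧ x.Coprime N := by
  unfold UU
  rw [mem_filter, mem_range]

theorem finz_UU_dom (W N a : ℕ) : UU W N a = Dom N W a (W * N) := by
  classical
  ext x
  rw [finz_mem_UU]
  unfold Dom
  rw [mem_filter, mem_range]
  rfl

/-- elements of `UU` are coprime to the modulus -/
theorem finz_cop {W N a x : ℕ} (hc : Cfg W N a) (hx : x ∈ UU W N a) : x.Coprime (W * N) := by
  rw [finz_mem_UU] at hx
  refine Nat.Coprime.mul_right ?_ hx.2.2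
  have h1 : Nat.gcd x W = Nat.gcd a W := by
    rw [Nat.gcd_comm x W, Nat.gcd_comm a W, Nat.gcd_rec W x, Nat.gcd_rec W a, hx.2.1]
  have h2 := hc.aW
  unfold Nat.Coprime at h2 ⊢
  rw [h1, h2]

theorem finz_maps {W N a l x : ℕ} (hc : Cfg W N a) (hN : 0 < W * N) (hl : l.Coprime (W * N)) (hlW : l % W = 1 % W)
    (hx : x ∈ UU W N a) : mr W N l x ∈ UU W N a := by
  rw [finz_mem_UU] at hx ⊢
  unfold mr
  refine ⟨Nat.mod_lt _ hN, ?_, ?_⟩
  · rw [Nat.mod_mul_right_mod]
    have h1 : (l * x) % W = (1 * x) % W := Nat.ModEq.mul_right x hlW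
    rw [h1, one_mul, hx.2.1]
  · have h1 : (l * x).Coprime N :=
      Nat.Coprime.mul_left (hl.coprime_dvd_right (Dvd.intro_left W rfl)) hx.2.2
    have h2 : Nat.gcd (l * x % (W * N)) N = Nat.gcd (l * x) N := by
      have h3 : (l * x) % (W * N) ≡ l * x [MOD N] :=
        (Nat.mod_modEq _ _).of_dvd (Dvd.intro_left W rfl)
      exact h3.gcd_eq
    unfold Nat.Coprime at h1 ⊢
    rw [h2, h1]

theorem finz_inj {W N a l x y : ℕ} (hl : l.Coprime (W * N)) (hx : x ∈ UU W N a) (hy : y ∈ UU W N a)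
    (h : mr W N l x = mr W N l y) : x = y := by
  rw [finz_mem_UU] at hx hy
  unfold mr at h
  have h1 : l * x ≡ l * y [MOD W * N] := h
  have h2 : x ≡ y [MOD W * N] := Nat.ModEq.cancel_left_of_coprime (by rwa [Nat.gcd_comm]) h1
  have h3 : x % (W * N) = y % (W * N) := h2
  rwa [Nat.mod_eq_of_lt hx.1, Nat.mod_eq_of_lt hy.1] at h3

theorem finz_sum {W N a l : ℕ} (hc : Cfg W N a) (hN : 0 < W * N) (hl : l.Coprime (W * N)) (hlW : l % W = 1 % W)
    (g : ℕ → ℝ) : ∑ x ∈ UU W N a, g (mr W N l x) = ∑ x ∈ UU W N a, g x := by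
  classical
  have h1 : (UU W N a).image (mr W N l) = UU W N a := by
    refine Finset.eq_of_subset_of_card_le ?_ ?_
    · intro y hy
      rw [mem_image] at hy
      obtain ⟨x, hx, rfl⟩ := hy
      exact finz_maps hc hN hl hlW hx
    · rw [card_image_of_injOn]
      intro x hx y hy h
      exact finz_inj hl hx hy h
  conv_rhs => rw [← h1]
  rw [sum_image]
  intro x hx y hy h
  exact finz_inj hl hx hy h

open Classical in
theorem finz_inv {W N a l : ℕ} (hc : Cfg W N a) (hN : 0 < W * N) (hl : l.Coprime (W * N)) (hlW : l % W = 1 % W)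
    (Z : Finset ℕ) (hZ : Z ⊆ UU W N a) :
    ∑ x ∈ UU W N a, ((if mr W N l x ∈ Z then (1 : ℝ) else 0) - 1 * (if x ∈ Z then (1 : ℝ) else 0)) ^ 2 =
      2 * ((Z.filter fun x => mr W N l x ∉ Z).card : ℝ) := by
  have h1 := finz_sum hc hN hl hlW (fun x => if x ∈ Z then (1 : ℝ) else 0)
  have h2 : ∀ x : ℕ, ((if mr W N l x ∈ Z then (1 : ℝ) else 0) - 1 * (if x ∈ Z then (1 : ℝ) else 0)) ^ 2 =
      (if mr W N l x ∈ Z then (1 : ℝ) else 0) - (if x ∈ Z then (1 : ℝ) else 0) +
      2 * (if x ∈ Z ∧ mr W N l x ∉ Z then (1 : ℝ) else 0) := by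
    intro x
    by_cases h3 : mr W N l x ∈ Z
    · by_cases h4 : x ∈ Z
      · simp [h3, h4]
      · simp [h3, h4]
    · by_cases h4 : x ∈ Z
      · simp [h3, h4]; norm_num
      · simp [h3, h4]
  rw [sum_congr rfl fun x _ => h2 x, sum_add_distrib, sum_sub_distrib, ← mul_sum, h1, sub_self, zero_add]
  congr 1
  rw [← sum_filter, sum_const, nsmul_eq_mul, mul_one]
  congr 2
  ext x
  rw [mem_filter, mem_filter]
  constructor
  · rintro ⟨_, h5, h6⟩
    exact ⟨h5, h6⟩
  · rintro ⟨h5, h6⟩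
    exact ⟨hZ h5, h5, h6⟩

theorem finz_copl {W N a l : ℕ} (hc : Cfg W N a) (hnum : Num W N) (hl : l.Prime) (hlW : l % W = 1 % W)
    (h3 : l ≤ LL N) : l.Coprime (W * N) := by
  have h0 : Nat.gcd l W = Nat.gcd 1 W := by
    rw [Nat.gcd_comm l W, Nat.gcd_comm 1 W, Nat.gcd_rec W l, Nat.gcd_rec W 1, hlW]
  rw [Nat.gcd_one_left] at h0
  refine Nat.Coprime.mul_right h0 ?_
  rw [Nat.Prime.coprime_iff_not_dvd hl]
  intro hd
  have hlW' : ¬ l ∣ W := by
    intro hdW
    rw [Nat.gcd_eq_left hdW] at h0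
    exact hl.one_lt.ne' h0
  have h2 := hc.big l hl hd hlW'
  have h4 : l * l ≤ LL N * LL N := Nat.mul_le_mul h3 h3
  have h5 : 1 ≤ LL N := le_trans hl.pos h3
  have h6 : LL N * LL N ≤ LL N ^ 30 := by
    rw [← sq]
    exact Nat.pow_le_pow_right h5 (by norm_num)
  have := hnum.LLN
  omega

open Classical in
theorem finz (W : ℕ) (hW : 1 ≤ W) : ∃ η C1 : ℝ, 0 < η ∧ 0 < C1 ∧ ∃ N0 : ℕ,
    ∀ (N : ℕ) [NeZero (W * N)], N0 ≤ N → ∀ a : ℕ, Cfg W N a → ∀ c : ℕ → ℝ, RC (W * N) c →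
    sQ c (W * N) ≤ η → 0 < (Zst N W a c 1).card → ((Zst N W a c 1).card : ℝ) ≤ N / 4 →
    (∀ l : ℕ, l.Prime → l % W = 1 % W → (Real.log N) ^ C1 / 2 < l → (l : ℝ) ≤ (Real.log N) ^ C1 →
      (((Zst N W a c 1).filter fun x => mr W N l x ∉ Zst N W a c 1).card : ℝ) ≤ η * (Zst N W a c 1).card) → False := by
  obtain ⟨c0, η, C1, hc0, hη, hC1, N0, h⟩ := sp W hW (1 / 2) (by norm_num)
  obtain ⟨N1, hn1⟩ := num W
  obtain ⟨N2, hn2⟩ := num_pow C1
  refine ⟨η / 2, C1, by positivity, hC1, max (max N0 N1) (max N2 (16 * W ^ 2 + 16)), ?_⟩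
  intro N _ hN a hc c hrc hσ hZ0 hZ hinv
  have hN0 : N0 ≤ N := le_trans (le_trans (le_max_left _ _) (le_max_left _ _)) hN
  have hnum : Num W N := hn1 N (le_trans (le_trans (le_max_right _ _) (le_max_left _ _)) hN)
  have hpow := hn2 N (le_trans (le_trans (le_max_left _ _) (le_max_right _ _)) hN)
  have hN16 : 16 * W ^ 2 + 16 ≤ N := le_trans (le_trans (le_max_right _ _) (le_max_right _ _)) hN
  have hWN : 0 < W * N := Nat.mul_pos hW (by have := hnum.N3; omega)
  set Z := Zst N W a c 1 with hZdef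
  have hZU : Z ⊆ UU W N a := by
    rw [finz_UU_dom, hZdef]
    unfold Zst
    exact filter_subset _ _
  have hcopl : ∀ l : ℕ, l.Prime → l % W = 1 % W → (l : ℝ) ≤ (Real.log N) ^ C1 → l.Coprime (W * N) :=
    fun l hl hlW hlK => finz_copl hc hnum hl hlW (by exact_mod_cast hlK.trans hpow)
  -- the hypothesis of sp
  obtain ⟨χ, hχ⟩ := h N hN0 a hc 1 (fun x => if x ∈ Z then (1 : ℝ) else 0) (fun n => if lam n ≠ c n then (1 : ℝ) else 0)
    (QP c (W * N)) (Or.inl rfl) (by
      intro l hl hlW h1 h2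
      have h3 := finz_inv hc hWN (hcopl l hl hlW h2) hlW Z hZU
      have h4 := hinv l hl hlW h1 h2
      have h5 : ∑ x ∈ UU W N a, (if x ∈ Z then (1 : ℝ) else 0) ^ 2 = (Z.card : ℝ) := by
        have h6 : ∀ x : ℕ, (if x ∈ Z then (1 : ℝ) else 0) ^ 2 = if x ∈ Z then (1 : ℝ) else 0 := by
          intro x
          by_cases h7 : x ∈ Z
          · simp [h7]
          · simp [h7]
        rw [sum_congr rfl fun x _ => h6 x, ← sum_filter, sum_const, nsmul_eq_mul, mul_one]
        congr 2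
        ext x
        rw [mem_filter]
        exact ⟨fun h8 => h8.2, fun h8 => ⟨hZU h8, h8⟩⟩
      rw [h5, h3]
      linarith) (by
      intro n hn _
      by_cases h1 : n ∈ Z
      · have h2 : lam n ≠ c n := by
          rw [hZdef] at h1
          unfold Zst at h1
          rw [mem_filter, one_mul] at h1
          exact h1.2
        simp [h1, h2]
      · have h2 : lam n = c n := by
          by_contra h3
          apply h1
          rw [hZdef]
          unfold Zst
          rw [mem_filter, one_mul, ← finz_UU_dom]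
          exact ⟨hn, h3⟩
        simp [h1, h2]) (by
      intro l n hl hlc hlQ _ hlN hnc _
      have hn0 : n ≠ 0 := by
        rintro rfl
        rw [Nat.coprime_zero_left] at hnc
        have := hnum.N3
        have h2 : N ≤ W * N := Nat.le_mul_of_pos_left N hW
        omega
      have h1 : c l = -1 := by
        rcases hrc.val l hlc with h2 | h2
        · exfalso
          apply hlQ
          unfold QP
          rw [mem_filter, mem_range]
          refine ⟨?_, hl, h2⟩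
          have h3 : (l : ℝ) ≤ N := by
            refine hlN.trans ?_
            have hN1 : (1 : ℝ) ≤ N := by
              have := hnum.N3
              exact_mod_cast (by omega : 1 ≤ N)
            calc (N : ℝ) ^ ((1 : ℝ) / 2) ≤ (N : ℝ) ^ (1 : ℝ) :=
                  Real.rpow_le_rpow_of_exponent_le hN1 (by norm_num)
              _ = N := Real.rpow_one _
          have h4 : l ≤ N := by exact_mod_cast h3
          have h5 : N ≤ W * N := Nat.le_mul_of_pos_left N hW
          omega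
        · exact h2
      have h2 : lam (l * n) = -lam n := by
        rw [lam_mul l n hl.ne_zero hn0, lam_prime l hl]
        ring
      have h3 : c (l * n) = -c n := by
        rw [hrc.mul, h1]
        ring
      have h4 : (lam (l * n) ≠ c (l * n)) ↔ (lam n ≠ c n) := by
        rw [h2, h3, ne_eq, neg_inj]
      simp only [h4, one_mul]) (by
      refine le_trans ?_ (hσ.trans (by linarith))
      unfold sQ
      exact sum_le_sum_of_subset_of_nonneg (filter_subset _ _) fun q _ _ => by positivity)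
  have h5 : ∑ x ∈ UU W N a, (if x ∈ Z then (1 : ℝ) else 0) ^ 2 = (Z.card : ℝ) := by
    have h6 : ∀ x : ℕ, (if x ∈ Z then (1 : ℝ) else 0) ^ 2 = if x ∈ Z then (1 : ℝ) else 0 := by
      intro x
      by_cases h7 : x ∈ Z
      · simp [h7]
      · simp [h7]
    rw [sum_congr rfl fun x _ => h6 x, ← sum_filter, sum_const, nsmul_eq_mul, mul_one]
    congr 2
    ext x
    rw [mem_filter]
    exact ⟨fun h8 => h8.2, fun h8 => ⟨hZU h8, h8⟩⟩
  have h6 : ‖∑ x ∈ UU W N a, (((if x ∈ Z then (1 : ℝ) else 0 : ℝ)) : ℂ) * (starRingEnd ℂ) (χ (x : ZMod (W * N)))‖ ≤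
      (Z.card : ℝ) := by
    refine (norm_sum_le _ _).trans ?_
    have h7 : ∀ x ∈ UU W N a, ‖(((if x ∈ Z then (1 : ℝ) else 0 : ℝ)) : ℂ) * (starRingEnd ℂ) (χ (x : ZMod (W * N)))‖ ≤
        (if x ∈ Z then (1 : ℝ) else 0) ^ 2 := by
      intro x _
      rw [norm_mul, RCLike.norm_conj]
      have h8 : ‖χ (x : ZMod (W * N))‖ ≤ 1 := χ.norm_le_one _
      by_cases h9 : x ∈ Z
      · simp [h9, h8]
      · simp [h9]
    exact (sum_le_sum h7).trans (le_of_eq h5)
  rw [h5] at hχ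
  have h7 : ‖∑ x ∈ UU W N a, (((if x ∈ Z then (1 : ℝ) else 0 : ℝ)) : ℂ) * (starRingEnd ℂ) (χ (x : ZMod (W * N)))‖ ^ 2 ≤
      (Z.card : ℝ) ^ 2 := pow_le_pow_left₀ (norm_nonneg _) h6 2
  have h8 : (1 - 1 / 2) * ((UU W N a).card : ℝ) * (Z.card : ℝ) ≤ (Z.card : ℝ) ^ 2 := hχ.trans h7
  have hZ0' : (0 : ℝ) < Z.card := by exact_mod_cast hZ0
  have h9 : (1 - 1 / 2) * ((UU W N a).card : ℝ) ≤ (Z.card : ℝ) := by
    rw [sq] at h8
    exact le_of_mul_le_mul_right h8 hZ0'
  have h10 := card_UU_ge hc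
  have hNr : (16 : ℝ) * (W : ℝ) ^ 2 + 16 ≤ N := by exact_mod_cast hN16
  have hs : Real.sqrt N ^ 2 = N := Real.sq_sqrt (Nat.cast_nonneg N)
  have hs0 : 0 ≤ Real.sqrt N := Real.sqrt_nonneg _
  have hW0 : (1 : ℝ) ≤ W := by exact_mod_cast hW
  have hs1 : 4 * (W : ℝ) ≤ Real.sqrt N := by
    apply Real.le_sqrt_of_sq_le
    nlinarith
  have hs2 : (W : ℝ) * Real.sqrt N ≤ N / 4 := by nlinarith
  nlinarith
end Pool.Agent.Lib.OW
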