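import Pool.Agent.Lib.MP_7b7e48_nt.OW.MTQ

/-!
# Coverage and conditional success

If the energy of `T₀` is at most `lam` then the subset sums of `T₀` meet at least `1/lam` cells. A new block of elements, in which
every cell of the range has mass at least `μ`, then produces a subset sum in the target with probability `≥ c₀`.
-/

set_option autoImplicit false

open Finset

namespace Pool.Agent.Lib.OW

variable {Ω : Type*} [DecidableEq Ω] {G : Type*} [CommGroup G]

/-- the cell of an element of `ℝ × G` -/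
noncomputable def cell (δ : ℝ) (a : ℝ × G) : ℤ × G := (⌊a.1 / δ⌋, a.2)

omit [CommGroup G] in
theorem cell_co {δ : ℝ} (hδ : 0 < δ) {a b : ℝ × G} (h : cell δ a = cell δ b) : CoE δ a b := by
  unfold cell at h
  rw [Prod.mk.injEq] at h
  obtain ⟨h1, h2⟩ := h
  refine ⟨?_, h2⟩
  have h3 := Int.floor_le (a.1 / δ)
  have h4 := Int.lt_floor_add_one (a.1 / δ)
  have h5 := Int.floor_le (b.1 / δ)
  have h6 := Int.lt_floor_add_one (b.1 / δ)
  rw [h1] at h3 h4
  have h7 : |a.1 / δ - b.1 / δ| ≤ 1 := by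
    rw [abs_le]
    constructor <;> linarith
  rw [← sub_div, abs_div, abs_of_pos hδ, div_le_one hδ] at h7
  exact h7

open Classical in
/-- the cells which are met by the subset sums of `T` -/
noncomputable def cells (h : Ω → ℝ) (g : Ω → G) (δ : ℝ) (T : Finset Ω) : Finset (ℤ × G) :=
  T.powerset.image fun U => cell δ (vs h g U)

theorem cells_card (h : Ω → ℝ) (g : Ω → G) {δ : ℝ} (hδ : 0 < δ) (T : Finset Ω) :
    1 ≤ ((cells h g δ T).card : ℝ) * En h g δ T := by
  classical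
  obtain ⟨p, hp⟩ : ∃ p : ℤ × G → ℝ, p = fun c => Ew hf T (fun U => ind (cell δ (vs h g U) = c)) := ⟨_, rfl⟩
  have hmem : ∀ U ⊆ T, cell δ (vs h g U) ∈ cells h g δ T := fun U hU =>
    mem_image_of_mem _ (mem_powerset.mpr hU)
  have hone : ∀ U ⊆ T, ∀ F : ℤ × G → ℝ, ∑ c ∈ cells h g δ T, ind (cell δ (vs h g U) = c) * F c =
      F (cell δ (vs h g U)) := by
    intro U hU F
    rw [sum_eq_single (cell δ (vs h g U))]
    · rw [ind_true rfl, one_mul]
    · intro c _ hne
      rw [ind_false (fun h1 : cell δ (vs h g U) = c => hne h1.symm), zero_mul]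
    · intro h1
      exact absurd (hmem U hU) h1
  have h1 : ∑ c ∈ cells h g δ T, p c = 1 := by
    rw [hp, ← Ew_sum, ← Ew_const hf T 1]
    refine Ew_congr hf T fun U hU => ?_
    have := hone U hU (fun _ => 1)
    simpa using this
  have h2 : ∑ c ∈ cells h g δ T, p c ^ 2 ≤ En h g δ T := by
    have e1 : ∑ c ∈ cells h g δ T, p c ^ 2 = Ew hf T (fun U => p (cell δ (vs h g U))) := by
      have e2 : ∀ c ∈ cells h g δ T, p c ^ 2 = Ew hf T (fun U => ind (cell δ (vs h g U) = c) * p c) := by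
        intro c _
        rw [sq]
        have : p c * p c = p c * Ew hf T (fun U => ind (cell δ (vs h g U) = c)) := by
          conv_lhs => rw [hp]
          rw [hp]
        rw [this, ← Ew_smul]
        exact Ew_congr hf T fun U _ => mul_comm _ _
      rw [sum_congr rfl e2, ← Ew_sum]
      exact Ew_congr hf T fun U hU => hone U hU p
    rw [e1]
    unfold En
    refine Ew_mono (hf0 T) (hf1 T) fun U _ => ?_
    rw [hp]
    refine Ew_mono (hf0 T) (hf1 T) fun U' _ => ?_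
    exact ind_mono fun h3 => cell_co hδ h3.symm
  have h3 := sq_sum_le_card_mul_sum_sq (s := cells h g δ T) (f := p)
  rw [h1, one_pow] at h3
  exact h3.trans (mul_le_mul_of_nonneg_left h2 (Nat.cast_nonneg _))

/-- `T` has a subset with sum in the target -/
def Suc (h : Ω → ℝ) (g : Ω → G) (δ : ℝ) (ρ : G) (T : Finset Ω) : Prop :=
  ∃ U ⊆ T, 0 < (vs h g U).1 ∧ (vs h g U).1 < 2 * δ ∧ (vs h g U).2 = ρ

open Classical in
/-- the elements of `PA` which together with `ω'` and a subset of `T₀` hit the target -/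
noncomputable def Gd (h : Ω → ℝ) (g : Ω → G) (δ : ℝ) (ρ : G) (T₀ PA : Finset Ω) (ω' : Ω) : Finset Ω :=
  PA.filter fun ω => ∃ U ⊆ T₀, 0 < (vs h g U).1 + h ω + h ω' ∧ (vs h g U).1 + h ω + h ω' < 2 * δ ∧
    (vs h g U).2 * g ω * g ω' = ρ

theorem Gd_mass {x : Ω → ℝ} (h : Ω → ℝ) (g : Ω → G) {δ L t₀ t₁ μ : ℝ} (hδ : 0 < δ) (ρ : G)
    {T₀ PA : Finset Ω} {ω' : Ω} (hx0 : ∀ ω ∈ PA, 0 ≤ x ω) (hL : ∑ ω ∈ T₀, |h ω| ≤ L)
    (hμ : ∀ t : ℝ, t₀ ≤ t → t ≤ t₁ → ∀ c : G, μ ≤ ∑ ω ∈ PA, x ω * ind (t < h ω ∧ h ω < t + δ ∧ g ω = c))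
    (h1 : t₀ + L + δ ≤ -h ω') (h2 : -h ω' ≤ t₁ - L - δ) :
    ((cells h g δ T₀).card : ℝ) * μ ≤ ∑ ω ∈ Gd h g δ ρ T₀ PA ω', x ω := by
  classical
  obtain ⟨A, hA⟩ : ∃ A : ℤ × G → Finset Ω, A = fun c => PA.filter fun ω =>
      (-h ω' - c.1 * δ < h ω ∧ h ω < -h ω' - c.1 * δ + δ ∧ g ω = ρ * (c.2)⁻¹ * (g ω')⁻¹) := ⟨_, rfl⟩
  have hbound : ∀ U ⊆ T₀, |(vs h g U).1| ≤ L := by
    intro U hU
    unfold vs
    refine (abs_sum_le_sum_abs _ _).trans (le_trans ?_ hL)
    exact sum_le_sum_of_subset_of_nonneg hU fun _ _ _ => abs_nonneg _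
  have hc : ∀ c ∈ cells h g δ T₀, |(c.1 : ℝ) * δ| ≤ L + δ ∧ A c ⊆ Gd h g δ ρ T₀ PA ω' := by
    intro c hc
    obtain ⟨U, hU, hUc⟩ := mem_image.mp hc
    have hU' := mem_powerset.mp hU
    have e1 : c.1 = ⌊(vs h g U).1 / δ⌋ := by rw [← hUc]; rfl
    have e2 : c.2 = (vs h g U).2 := by rw [← hUc]; rfl
    have h3 := Int.floor_le ((vs h g U).1 / δ)
    have h4 := Int.lt_floor_add_one ((vs h g U).1 / δ)
    rw [← e1] at h3 h4
    rw [le_div_iff₀ hδ] at h3
    rw [div_lt_iff₀ hδ, add_mul, one_mul] at h4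
    have h5 := abs_le.mp (hbound U hU')
    refine ⟨?_, ?_⟩
    · rw [abs_le]
      constructor <;> linarith
    · intro ω hω
      rw [hA, mem_filter] at hω
      obtain ⟨h6, h7, h8, h9⟩ := hω
      refine mem_filter.mpr ⟨h6, U, hU', by linarith, by linarith, ?_⟩
      rw [h9, e2]
      have h10 : ∀ a b : G, a * (ρ * a⁻¹ * b⁻¹) * b = ρ := by
        intro a b
        rw [mul_assoc, inv_mul_cancel_right, mul_comm ρ, mul_inv_cancel_left]
      exact h10 _ _
  have hdis : ∀ c ∈ cells h g δ T₀, ∀ c' ∈ cells h g δ T₀, c ≠ c' → Disjoint (A c) (A c') := by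
    intro c _ c' _ hne
    rw [disjoint_left]
    intro ω hω hω'
    rw [hA, mem_filter] at hω hω'
    obtain ⟨-, h3, h4, h5⟩ := hω
    obtain ⟨-, h3', h4', h5'⟩ := hω'
    apply hne
    refine Prod.ext ?_ ?_
    · have h6 : ((c.1 : ℝ) - c'.1) * δ < δ := by linarith
      have h7 : ((c'.1 : ℝ) - c.1) * δ < δ := by linarith
      have h8 : ((c.1 : ℝ) - c'.1) < 1 := by nlinarith
      have h9 : ((c'.1 : ℝ) - c.1) < 1 := by nlinarith
      have h10 : c.1 - c'.1 < 1 := by exact_mod_cast h8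
      have h11 : c'.1 - c.1 < 1 := by exact_mod_cast h9
      omega
    · rw [h5] at h5'
      have h6 := mul_right_cancel h5'
      have h7 := mul_left_cancel h6
      exact inv_injective h7
  calc ((cells h g δ T₀).card : ℝ) * μ = ∑ _c ∈ cells h g δ T₀, μ := by
        rw [sum_const, nsmul_eq_mul]
    _ ≤ ∑ c ∈ cells h g δ T₀, ∑ ω ∈ A c, x ω := by
        refine sum_le_sum fun c hcm => ?_
        obtain ⟨h3, -⟩ := hc c hcm
        obtain ⟨h4, h5⟩ := abs_le.mp h3
        refine (hμ (-h ω' - c.1 * δ) (by linarith) (by linarith) (ρ * (c.2)⁻¹ * (g ω')⁻¹)).trans ?_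
        rw [hA, sum_filter]
        refine le_of_eq (sum_congr rfl fun ω _ => ?_)
        unfold ind
        split_ifs <;> ring
    _ = ∑ ω ∈ (cells h g δ T₀).biUnion A, x ω := (sum_biUnion hdis).symm
    _ ≤ _ := by
        refine sum_le_sum_of_subset_of_nonneg ?_ fun ω hω _ => hx0 ω (mem_filter.mp hω).1
        intro ω hω
        obtain ⟨c, hcm, hωc⟩ := mem_biUnion.mp hω
        exact (hc c hcm).2 hωc

omit [DecidableEq Ω] in
theorem prod_one_sub_le {x : Ω → ℝ} {S : Finset Ω} (hx1 : ∀ ω ∈ S, x ω ≤ 1) :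
    ∏ ω ∈ S, (1 - x ω) ≤ Real.exp (-∑ ω ∈ S, x ω) := by
  rw [← sum_neg_distrib, Real.exp_sum]
  refine prod_le_prod (fun ω hω => sub_nonneg.mpr (hx1 ω hω)) fun ω _ => ?_
  have := Real.add_one_le_exp (-x ω)
  linarith

/-- the conditional success probability of a new block `PA ∪ PB` -/
theorem succ_prob {x : Ω → ℝ} (h : Ω → ℝ) (g : Ω → G) {δ L t₀ t₁ μ lam b : ℝ} (hδ : 0 < δ) (ρ : G)
    {T₀ PA PB Mid : Finset Ω} (hd : Disjoint PA PB) (hd0 : Disjoint T₀ (PA ∪ PB))
    (hx0 : ∀ ω ∈ PA ∪ PB, 0 ≤ x ω) (hx1 : ∀ ω ∈ PA ∪ PB, x ω ≤ 1) (hL : ∑ ω ∈ T₀, |h ω| ≤ L)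
    (hμ0 : 0 ≤ μ) (hlam : En h g δ T₀ ≤ lam)
    (hlam0 : 0 < lam)
    (hμ : ∀ t : ℝ, t₀ ≤ t → t ≤ t₁ → ∀ c : G, μ ≤ ∑ ω ∈ PA, x ω * ind (t < h ω ∧ h ω < t + δ ∧ g ω = c))
    (hMid : Mid ⊆ PB) (hM1 : ∀ ω' ∈ Mid, t₀ + L + δ ≤ -h ω' ∧ -h ω' ≤ t₁ - L - δ)
    (hb : b ≤ ∑ ω ∈ Mid, x ω) :
    Ew x (PA ∪ PB) (fun T' => ind (¬ Suc h g δ ρ (T₀ ∪ T'))) ≤
      1 - (1 - Real.exp (-b)) * (1 - Real.exp (-(μ / lam))) := by
  classical
  have hxA0 : ∀ ω ∈ PA, 0 ≤ x ω := fun ω hω => hx0 ω (mem_union_left _ hω)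
  have hxA1 : ∀ ω ∈ PA, x ω ≤ 1 := fun ω hω => hx1 ω (mem_union_left _ hω)
  have hxB0 : ∀ ω ∈ PB, 0 ≤ x ω := fun ω hω => hx0 ω (mem_union_right _ hω)
  have hxB1 : ∀ ω ∈ PB, x ω ≤ 1 := fun ω hω => hx1 ω (mem_union_right _ hω)
  set e1 := Real.exp (-b) with he1
  set e2 := Real.exp (-(μ / lam)) with he2
  have he10 : 0 < e1 := Real.exp_pos _
  have he20 : 0 < e2 := Real.exp_pos _
  have he2' : e2 ≤ 1 := by
    rw [he2, Real.exp_le_one_iff]
    have : 0 ≤ μ / lam := by positivity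
    linarith
  rw [union_comm PA PB, Ew_union x PB PA hd.symm]
  -- the inner expectation
  have hin : ∀ TB ⊆ PB, Ew x PA (fun TA => ind (¬ Suc h g δ ρ (T₀ ∪ (TB ∪ TA)))) ≤
      e2 + (1 - e2) * (if Disjoint TB Mid then 1 else 0) := by
    intro TB hTB
    by_cases hdj : Disjoint TB Mid
    · rw [if_pos hdj]
      have h3 : Ew x PA (fun TA => ind (¬ Suc h g δ ρ (T₀ ∪ (TB ∪ TA)))) ≤ Ew x PA (fun _ => 1) :=
        Ew_mono hxA0 hxA1 fun _ _ => ind_le_one _
      rw [Ew_const] at h3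
      linarith
    · rw [if_neg hdj, mul_zero, add_zero]
      rw [not_disjoint_iff] at hdj
      obtain ⟨ω', hω'T, hω'M⟩ := hdj
      obtain ⟨h4, h5⟩ := hM1 ω' hω'M
      set GG := Gd h g δ ρ T₀ PA ω' with hGG
      have hGsub : GG ⊆ PA := filter_subset _ _
      have hω'B : ω' ∈ PB := hMid hω'M
      have h3 : Ew x PA (fun TA => ind (¬ Suc h g δ ρ (T₀ ∪ (TB ∪ TA)))) ≤
          Ew x PA (fun TA => if Disjoint TA GG then 1 else 0) := by
        refine Ew_mono hxA0 hxA1 fun TA hTA => ?_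
        by_cases hdd : Disjoint TA GG
        · rw [if_pos hdd]
          exact ind_le_one _
        · rw [if_neg hdd]
          rw [not_disjoint_iff] at hdd
          obtain ⟨ω, hωT, hωG⟩ := hdd
          obtain ⟨hωA, U, hU, h6, h7, h8⟩ := mem_filter.mp hωG
          refine le_of_eq (ind_false ?_)
          rw [not_not]
          have hωω' : ω ≠ ω' := fun hh => disjoint_left.mp hd hωA (hh ▸ hω'B)
          have hω'U : ω' ∉ U := fun hh => disjoint_left.mp hd0 (hU hh) (mem_union_right _ hω'B)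
          have hωU : ω ∉ insert ω' U := by
            intro hh
            rcases mem_insert.mp hh with hh | hh
            · exact hωω' hh
            · exact disjoint_left.mp hd0 (hU hh) (mem_union_left _ hωA)
          refine ⟨insert ω (insert ω' U), ?_, ?_⟩
          · intro v hv
            rcases mem_insert.mp hv with hv | hv
            · rw [hv]
              exact mem_union_right _ (mem_union_right _ hωT)
            · rcases mem_insert.mp hv with hv | hv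
              · rw [hv]
                exact mem_union_right _ (mem_union_left _ hω'T)
              · exact mem_union_left _ (hU hv)
          · rw [vs_insert h g hωU, vs_insert h g hω'U]
            simp only
            refine ⟨by linarith, by linarith, ?_⟩
            rw [← h8]
            exact mul_right_comm _ _ _
      refine h3.trans ?_
      rw [Ew_avoid, inter_eq_right.mpr hGsub]
      refine (prod_one_sub_le fun ω hω => hxA1 ω (hGsub hω)).trans ?_
      rw [he2, Real.exp_le_exp, neg_le_neg_iff]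
      have h9 := Gd_mass h g hδ ρ hxA0 hL hμ h4 h5
      rw [← hGG] at h9
      refine le_trans ?_ h9
      have h10 := cells_card h g hδ T₀
      have h11 : 1 ≤ ((cells h g δ T₀).card : ℝ) * lam :=
        h10.trans (mul_le_mul_of_nonneg_left hlam (Nat.cast_nonneg _))
      rw [div_le_iff₀ hlam0]
      calc μ = μ * 1 := (mul_one _).symm
        _ ≤ μ * (((cells h g δ T₀).card : ℝ) * lam) := mul_le_mul_of_nonneg_left h11 hμ0
        _ = _ := by ring
  refine (Ew_mono hxB0 hxB1 hin).trans ?_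
  rw [Ew_add, Ew_const, Ew_smul, Ew_avoid, inter_eq_right.mpr hMid]
  have h12 : ∏ ω ∈ Mid, (1 - x ω) ≤ e1 := by
    refine (prod_one_sub_le fun ω hω => hxB1 ω (hMid hω)).trans ?_
    rw [he1, Real.exp_le_exp, neg_le_neg_iff]
    exact hb
  have h13 := mul_le_mul_of_nonneg_left h12 (sub_nonneg.mpr he2')
  linarith

end Pool.Agent.Lib.OW
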