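import Mathlib
import Pool.Agent.Lib.MP_7b7e48_nt.OW.OD
import Pool.Agent.Lib.MP_7b7e48_nt.RG.A3

/-!
# The structure `VF` (used in VX, AINV2, ACORE)
-/

open Finset
open Pool.Agent.Lib.MP_45349e_nt.LS (lam)

namespace Pool.Agent.Lib.OW

open Pool.Agent.Lib.RG (RC LV rr SS PB)

open Classical in
/-- the facts about the exceptional set which are used in the last part -/
structure VF (N W a A : ℕ) (c : ℕ → ℝ) (L c1 C θ δ σ : ℝ) : Prop where
  pos : (N : ℝ) ^ (-δ) ≤ σ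
  lv : LV (W * N) c L
  siegel : ((W * N : ℕ) : ℝ) ^ (-(1 / 50) : ℝ) ≤ L
  sl : Real.log N * (del N * L) ≤ C * σ
  low : c1 * del N * σ * N ≤ ((Zst N W a c 1).card : ℝ)
  top : (((Finset.Ico 1 (W * N)).filter fun n => ∃ q : ℕ, q.Prime ∧ c q = 1 ∧ q ∣ n ∧
      (N : ℝ) * Real.exp (-(Real.log N) ^ θ) < q).card : ℝ) ≤ C * (Real.log N) ^ (θ - 1) * σ * N
  lams : ∀ b : ℕ, b.Coprime W → |∑ n ∈ Dom N W b N, lam n| ≤ σ * N / (Real.log N) ^ A

end Pool.Agent.Lib.OW
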