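import Mathlib
import Pool.Agent.Lib.MP_7b7e48_nt.OW.ODefs

/-!
# Module CEL (20 minutes): cells

`land_iff`: write `M u = q N1 + r`, `r < N1 = W N`. Then `l M u / N1 = l q + (l r)/N1` (floors) and `(l r)/N1 < l`, so
`(l M u / N1) % l = (l r) / N1`, which is `0` iff `l r < N1`.
`nest`: `(B u / N1)/k = (A k u)/(N1 k) = A u / N1` (`Nat.div_div_eq_div_mul`, `Nat.mul_div_mul_right`).
`land_mul`: if `l * mr W N M u < W N`, then `mr W N (l * M) u = l * mr W N M u` (`(l (M u)) % N1 = (l ((M u) % N1)) % N1`).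
`cell_mem`: `B u / N1 = c` iff `c N1 ≤ B u < (c+1) N1` iff `⌈c N1 / B⌉ ≤ u < ⌈(c+1) N1 / B⌉`, where `⌈x / B⌉ = (x + B - 1) / B`.
-/

set_option autoImplicit false

open Finset
open Pool.Agent.Lib.MP_45349e_nt.LS (lam)

namespace Pool.Agent.Lib.OW

theorem land_iff {W N l M u : ℕ} (hN : 0 < W * N) (hl : 0 < l) :
    Land W N l M u ↔ (l * M * u) / (W * N) % l = 0 := by
  unfold Land mr
  generalize W * N = n at hN ⊢
  have h1 : l * M * u = l * ((M * u) % n) + n * (l * ((M * u) / n)) := by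
    have := Nat.mod_add_div (M * u) n
    calc l * M * u = l * (M * u) := by ring
      _ = l * ((M * u) % n + n * ((M * u) / n)) := by rw [this]
      _ = _ := by ring
  have hr : (M * u) % n < n := Nat.mod_lt _ hN
  rw [h1, Nat.add_mul_div_left _ _ hN, Nat.add_mul_mod_self_left]
  have h2 : l * ((M * u) % n) / n < l := by
    rw [Nat.div_lt_iff_lt_mul hN]
    exact Nat.mul_lt_mul_of_pos_left hr hl
  rw [Nat.mod_eq_of_lt h2]
  exact (Nat.div_eq_zero_iff_lt hN).symm

theorem nest {W N A B k u : ℕ} (hN : 0 < W * N) (hk : 0 < k) (hB : B = A * k) :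
    (A * u) / (W * N) = (B * u) / (W * N) / k := by
  subst hB
  rw [Nat.div_div_eq_div_mul]
  have : A * k * u = A * u * k := by ring
  rw [this, Nat.mul_div_mul_right _ _ hk]

theorem land_mul {W N l M u : ℕ} (h : Land W N l M u) : mr W N (l * M) u = l * mr W N M u := by
  unfold Land at h
  unfold mr at h ⊢
  rw [mul_assoc, Nat.mul_mod, ← Nat.mul_mod_mod, Nat.mod_mul_mod, Nat.mod_mod, Nat.mod_eq_of_lt h]

theorem cell_mem {W N B u c : ℕ} (hN : 0 < W * N) (hB : 0 < B) :
    (B * u) / (W * N) = c ↔ (c * (W * N) + B - 1) / B ≤ u ∧ u < ((c + 1) * (W * N) + B - 1) / B := by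
  generalize W * N = n at hN ⊢
  have key : ∀ x : ℕ, (x + B - 1) / B ≤ u ↔ x ≤ B * u := by
    intro x
    rw [← Nat.lt_succ_iff, Nat.div_lt_iff_lt_mul hB]
    constructor
    · intro h
      have : u.succ * B = B * u + B := by rw [Nat.succ_eq_add_one]; ring
      omega
    · intro h
      have : u.succ * B = B * u + B := by rw [Nat.succ_eq_add_one]; ring
      omega
  rw [key, ← not_le, key, not_le]
  constructor
  · intro h
    subst h
    constructor
    · rw [mul_comm]; exact Nat.mul_div_le _ _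
    · exact Nat.lt_mul_of_div_lt (Nat.lt_succ_self _) hN
  · rintro ⟨h1, h2⟩
    exact Nat.div_eq_of_lt_le h1 h2

end Pool.Agent.Lib.OW
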