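import Mathlib
import Pool.Agent.Lib.MP_7b7e48_nt.OW.GL
import Pool.Agent.Lib.MP_7b7e48_nt.OW.UUC

/-!
# Module STP (30 minutes): one step of a path

Let `y = mr W N A u ∈ UU`, `z = mr W N (m * A) u = (m y) % (W N)`. A tiny prime `m` (`m % W = 1 % W`, `m ≤ 2 tJ N`) does not divide `N`: if
`m ∣ W` then `m = 1 (mod W)` gives `m ∣ 1`; otherwise `N < m²` by Cfg.big, but `m ≤ LL N`, `LL N ^ 2 ≤ N`. So `z` is in the class
`m y = a (mod W)` and coprime to `N`: `z ∈ UU`, in particular `z > 0` (`N ≥ 3`).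
If `m y = z`, then `lam z = lam m lam y = - lam y` (`y > 0`).
Otherwise `X = m y > z`, `X = z + k (W N)`, `k ≥ 1`, so `X ≥ z + W N > 2 z`. Let `(α, β, D, e)` be a link of `X`, `z`. `D N = X - z < m W N`,
so `D ≤ 2 tJ N W`, and as `z ∉ Aff` neither `e (X/α)` nor `e (z/β)` is in `EE`. `gl_lam` gives `lam X = lam z`.
-/

set_option autoImplicit false

open Finset
open Pool.Agent.Lib.MP_45349e_nt.LS (lam)

namespace Pool.Agent.Lib.OW

theorem tiny_cop {W N a m : ℕ} (hc : Cfg W N a) (hn : Num W N) (hm : m.Prime) (hm2 : m ≤ 2 * tJ N)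
    (hmW : m % W = 1 % W) : m.Coprime (W * N) := by
  have hW := hc.W1
  have h1 : ¬ m ∣ W := by
    intro h
    have h2 : m ≡ 1 [MOD W] := hmW
    have h3 : m ≡ 1 [MOD m] := h2.of_dvd h
    have h4 : m ∣ 1 := (Nat.modEq_zero_iff_dvd.mp (h3.symm.trans (Nat.modEq_zero_iff_dvd.mpr dvd_rfl)))
    exact hm.one_lt.ne' (Nat.dvd_one.mp h4)
  have h2 : ¬ m ∣ N := by
    intro h
    have h3 := hc.big m hm h h1
    have h4 : m ≤ LL N := by
      refine hm2.trans (le_trans ?_ hn.JL)
      nlinarith [hn.J1, hW]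
    have h5 : 1 ≤ LL N := by
      refine le_trans ?_ hn.JL
      nlinarith [hn.J1, hW]
    have h6 : m * m ≤ LL N ^ 30 := by
      calc m * m ≤ LL N * LL N := Nat.mul_le_mul h4 h4
        _ = LL N ^ 2 := by ring
        _ ≤ LL N ^ 30 := Nat.pow_le_pow_right h5 (by norm_num)
    have := hn.LLN
    omega
  exact Nat.Coprime.mul_right ((Nat.Prime.coprime_iff_not_dvd hm).mpr h1)
    ((Nat.Prime.coprime_iff_not_dvd hm).mpr h2)

theorem mr_mul (W N m A u : ℕ) : mr W N (m * A) u = (m * mr W N A u) % (W * N) := by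
  unfold mr
  rw [mul_assoc, Nat.mul_mod m (A * u), Nat.mul_mod m ((A * u) % (W * N)), Nat.mod_mod]

theorem step {W N a A m u : ℕ} (hc : Cfg W N a) (hn : Num W N) {κ : ℝ} (hκ : κ ^ 2 = 1) (hm : m.Prime)
    (hm2 : m ≤ 2 * tJ N) (hmW : m % W = 1 % W) (hy : mr W N A u ∈ UU W N a)
    (hz : mr W N (m * A) u ∉ Aff W N a (EE W N a κ))
    (hl : m * mr W N A u = mr W N (m * A) u ∨ Lk W N (m * mr W N A u) (mr W N (m * A) u)) :
    mr W N (m * A) u ∈ UU W N a ∧ lam (mr W N (m * A) u) = -lam (mr W N A u) := by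
  have hW := hc.W1
  have hN3 := hn.N3
  have hWN : 0 < W * N := Nat.mul_pos hW (by omega)
  have hcop := tiny_cop hc hn hm hm2 hmW
  have hcN : m.Coprime N := hcop.coprime_mul_left_right
  have hmr := mr_mul W N m A u
  generalize hyd : mr W N A u = y at hy hl hmr ⊢
  generalize hzd : mr W N (m * A) u = z at hz hl hmr ⊢
  have hy2 := hy
  rw [UU, mem_filter, mem_range] at hy2
  obtain ⟨hylt, hyW, hyN⟩ := hy2
  have hzlt : z < W * N := by rw [hmr]; exact Nat.mod_lt _ hWN
  have hzW : z % W = a % W := by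
    rw [hmr, Nat.mod_mul_right_mod, Nat.mul_mod, hmW, hyW, ← Nat.mul_mod, one_mul]
  have hzN : z.Coprime N := by
    have h1 : (m * y).Coprime N := Nat.Coprime.mul_left hcN hyN
    have h2 : z % N = (m * y) % N := by
      rw [hmr]
      exact Nat.mod_mod_of_dvd _ (dvd_mul_left N W)
    have h3 : Nat.gcd N z = Nat.gcd N (m * y) := by
      rw [Nat.gcd_rec N z, Nat.gcd_rec N (m * y), h2]
    rw [Nat.coprime_comm, Nat.Coprime, h3]
    exact h1.symm
  have hzU : z ∈ UU W N a := by
    rw [UU, mem_filter, mem_range]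
    exact ⟨hzlt, hzW, hzN⟩
  have pos : ∀ x : ℕ, x.Coprime N → 0 < x := by
    intro x hx
    rcases Nat.eq_zero_or_pos x with h | h
    · subst h
      rw [Nat.coprime_zero_left] at hx
      omega
    · exact h
  have hy0 := pos y hyN
  have hz0 := pos z hzN
  refine ⟨hzU, ?_⟩
  have hlamX : lam (m * y) = -lam y := by
    rw [Pool.Agent.Lib.MP_45349e_nt.LS.lam_mul m y hm.ne_zero hy0.ne',
      Pool.Agent.Lib.MP_45349e_nt.LS.lam_prime m hm]
    ring
  by_cases heq : m * y = z
  · rw [← heq, hlamX]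
  · have hlk : Lk W N (m * y) z := by
      rcases hl with h | h
      · exact absurd h heq
      · exact h
    obtain ⟨α, β, D, e, hLD⟩ := hlk
    have hdm := Nat.mod_add_div (m * y) (W * N)
    rw [← hmr] at hdm
    have hk : 1 ≤ (m * y) / (W * N) := by
      rcases Nat.eq_zero_or_pos ((m * y) / (W * N)) with h | h
      · rw [h, mul_zero, add_zero] at hdm
        exact absurd hdm.symm heq
      · exact h
    have hge : z + W * N ≤ m * y := by
      calc z + W * N ≤ z + W * N * ((m * y) / (W * N)) :=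
            Nat.add_le_add_left (Nat.le_mul_of_pos_right _ hk) _
        _ = m * y := hdm
    have hD : D ≤ 2 * tJ N * W := by
      have h1 : D * N < m * (W * N) := by
        have h2 : m * y < m * (W * N) := Nat.mul_lt_mul_of_pos_left hylt hm.pos
        have h3 := hLD.XY
        omega
      have h2 : D < m * W := by
        have h3 : D * N < m * W * N := by
          calc D * N < m * (W * N) := h1
            _ = m * W * N := by ring
        exact lt_of_mul_lt_mul_right h3 (Nat.zero_le _)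
      exact h2.le.trans (Nat.mul_le_mul_right _ hm2)
    have hno : ¬ (e * (m * y / α) ∈ EE W N a κ ∨ e * (z / β) ∈ EE W N a κ) := by
      intro h
      apply hz
      classical
      unfold Aff
      rw [mem_filter]
      exact ⟨hzU, m * y, α, β, D, e, hLD, hD, h⟩
    rw [not_or] at hno
    have h2z : 2 * z ≤ m * y := by omega
    have := gl_lam hc hn hLD hzW hzN hz0 h2z hκ hno.1 hno.2
    rw [← this, hlamX]

end Pool.Agent.Lib.OW
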