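import Mathlib
import Pool.Agent.Lib.MP_7b7e48_nt.OW.ODefs

/-!
# Module TNY (30 minutes): the sets of tiny primes

For `J` large there are at least `J^(3/4)` primes `p = 1 (mod W)` in `(J, 2J]` (prime number theorem in the progression `1` modulo the FIXED
modulus `W`, for instance from `theta_int` in `OW/MTF` (Siegel-Walfisz with `s = log J`, `t = log (2J)`), or from the library of primes in
progressions in `Pool/Agent/Lib`), more than `s √J`; split them into `s` disjoint sets of exactly `Nat.sqrt J` elements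
(enumerate the set increasingly, take the blocks of length `Nat.sqrt J`).
-/

set_option autoImplicit false

open Finset
open Pool.Agent.Lib.MP_45349e_nt.LS (lam)

namespace Pool.Agent.Lib.OW

/-- the primes of the class `1` modulo `W` in `(x/2, x]` -/
theorem ap_low (W : ℕ) (hW : 1 ≤ W) : ∃ x0 : ℕ, ∀ x : ℕ, x0 ≤ x →
    (x : ℝ) / (Real.log x) ^ 2 ≤
      (((Finset.Ioc (x / 2) x).filter fun p => p.Prime ∧ p % W = 1 % W).card : ℝ) := by
  obtain ⟨C, hC, h⟩ := theta_int 1
  rw [← Filter.eventually_atTop]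
  have hlog : Filter.Tendsto (fun x : ℕ => Real.log (x : ℝ)) Filter.atTop Filter.atTop :=
    Real.tendsto_log_atTop.comp tendsto_natCast_atTop_atTop
  have hW1 : (1 : ℝ) ≤ W := by exact_mod_cast hW
  filter_upwards [hlog.eventually_ge_atTop (4 * C * W * W + 4 * W + 3), Filter.eventually_ge_atTop 6]
    with x h1 h2
  have hx0 : (0 : ℝ) < x := by exact_mod_cast (by omega : 0 < x)
  have hl2 : Real.log ((x : ℝ) / 2) = Real.log x - Real.log 2 :=
    Real.log_div hx0.ne' (by norm_num)
  have hlog2 : Real.log 2 ≤ 1 := by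
    have := Real.log_two_lt_d9
    linarith
  have hlog2' : 0 ≤ Real.log 2 := Real.log_nonneg (by norm_num)
  have hCW : 0 ≤ 4 * C * W * W := by positivity
  have h3 := h W 1 hW (Nat.coprime_one_left W) (Real.log ((x : ℝ) / 2)) (Real.log x)
    (by rw [hl2]; linarith) (by rw [hl2]; linarith)
  rw [Real.exp_log hx0, Real.exp_log (show (0 : ℝ) < (x : ℝ) / 2 by positivity), pow_one] at h3
  have hφ0 : (0 : ℝ) < (W.totient : ℝ) := by exact_mod_cast Nat.totient_pos.mpr (by omega)
  have hφW : (W.totient : ℝ) ≤ W := by exact_mod_cast Nat.totient_le W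
  set P := (PR (Real.log ((x : ℝ) / 2)) (Real.log x)).filter (fun p => p ≡ 1 [MOD W]) with hP
  have hsub : P ⊆ (Finset.Ioc (x / 2) x).filter fun p => p.Prime ∧ p % W = 1 % W := by
    intro p hp
    obtain ⟨hp1, hp2⟩ := mem_filter.1 hp
    obtain ⟨hp3, hp4, hp5⟩ := mem_PR.1 hp1
    rw [Real.exp_log (show (0 : ℝ) < (x : ℝ) / 2 by positivity)] at hp4
    rw [Real.exp_log hx0] at hp5
    rw [mem_filter, mem_Ioc]
    refine ⟨⟨?_, by exact_mod_cast hp5⟩, hp3, hp2⟩
    rw [Nat.div_lt_iff_lt_mul (by norm_num)]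
    have : (x : ℝ) < (p : ℝ) * 2 := by linarith
    exact_mod_cast this
  have hcard : (P.card : ℝ) ≤ (((Finset.Ioc (x / 2) x).filter
      fun p => p.Prime ∧ p % W = 1 % W).card : ℝ) := by exact_mod_cast card_le_card hsub
  refine le_trans ?_ hcard
  have hlx : 0 < Real.log x := by linarith
  -- upper bound of the sum
  have h4 : ∑ p ∈ P, Real.log p ≤ P.card * Real.log x := by
    rw [← nsmul_eq_mul, ← sum_const]
    refine sum_le_sum fun p hp => ?_
    obtain ⟨hp1, -⟩ := mem_filter.1 hp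
    obtain ⟨hp3, -, hp5⟩ := mem_PR.1 hp1
    rw [Real.exp_log hx0] at hp5
    exact Real.log_le_log (by exact_mod_cast hp3.pos) hp5
  -- the error
  have h5 : C * W * x / Real.log ((x : ℝ) / 2) ≤ x / (4 * W) := by
    have hd : 4 * C * W * W ≤ Real.log ((x : ℝ) / 2) := by rw [hl2]; linarith
    have hd0 : 0 < Real.log ((x : ℝ) / 2) := by rw [hl2]; linarith
    rw [div_le_div_iff₀ hd0 (by positivity)]
    calc C * W * x * (4 * W) = x * (4 * C * W * W) := by ring
      _ ≤ x * Real.log ((x : ℝ) / 2) := mul_le_mul_of_nonneg_left hd hx0.le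
  have h6 : (x : ℝ) / (2 * W) ≤ ((x : ℝ) - x / 2) / W.totient := by
    rw [div_le_div_iff₀ (by positivity) hφ0]
    nlinarith
  have h7 : (x : ℝ) / (4 * W) ≤ P.card * Real.log x := by
    have h8 := (abs_le.mp h3).1
    have h9 : (x : ℝ) / (2 * W) = 2 * (x / (4 * W)) := by
      field_simp
      ring
    linarith
  rw [div_le_iff₀ (by positivity)]
  calc (x : ℝ) = (x / (4 * W)) * (4 * W) := by field_simp
    _ ≤ (P.card * Real.log x) * (4 * W) := mul_le_mul_of_nonneg_right h7 (by positivity)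
    _ ≤ (P.card * Real.log x) * Real.log x := by
        refine mul_le_mul_of_nonneg_left (by linarith) (by positivity)
    _ = P.card * Real.log x ^ 2 := by ring

private theorem tny_split (s T : ℕ) (P : Finset ℕ) (hP : s * T ≤ P.card) :
    ∃ TT : Fin s → Finset ℕ, (∀ t, TT t ⊆ P) ∧ (∀ t, (TT t).card = T) ∧
      ∀ t t', t ≠ t' → Disjoint (TT t) (TT t') := by
  classical
  obtain ⟨P', hP', hc⟩ := exists_subset_card_eq hP
  let e : P' ≃ Fin (s * T) := P'.equivFinOfCardEq hc
  let g : Fin s × Fin T → ℕ := fun q => (e.symm (finProdFinEquiv q)).1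
  have hg : Function.Injective g := by
    intro a b hab
    exact finProdFinEquiv.injective (e.symm.injective (Subtype.ext hab))
  refine ⟨fun i => univ.image (fun t => g (i, t)), ?_, ?_, ?_⟩
  · intro i x hx
    obtain ⟨t, -, rfl⟩ := mem_image.1 hx
    exact hP' (e.symm (finProdFinEquiv (i, t))).2
  · intro i
    rw [card_image_of_injective]
    · rw [card_univ, Fintype.card_fin]
    · intro a b hab
      have := hg hab
      exact (Prod.mk.inj this).2
  · intro i i' hne
    rw [disjoint_left]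
    intro x hx hx'
    obtain ⟨t, -, rfl⟩ := mem_image.1 hx
    obtain ⟨t', -, h⟩ := mem_image.1 hx'
    have := hg h
    exact hne (Prod.mk.inj this).1.symm

theorem tny (W : ℕ) (hW : 1 ≤ W) (s : ℕ) : ∃ N0 : ℕ, ∀ N : ℕ, N0 ≤ N →
    ∃ TT : Fin s → Finset ℕ, Tiny W N s (Nat.sqrt (tJ N)) TT := by
  obtain ⟨x0, hx0⟩ := ap_low W hW
  -- `tJ N` tends to infinity
  have hlog : Filter.Tendsto (fun x : ℕ => Real.log (x : ℝ)) Filter.atTop Filter.atTop :=
    Real.tendsto_log_atTop.comp tendsto_natCast_atTop_atTop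
  have htJ : Filter.Tendsto tJ Filter.atTop Filter.atTop := by
    unfold tJ
    exact tendsto_nat_floor_atTop.comp ((tendsto_rpow_atTop (by norm_num)).comp hlog)
  -- the numerical condition
  have hnum : ∀ᶠ J : ℕ in Filter.atTop, (s : ℝ) * (J : ℝ) ^ ((1 : ℝ) / 2) * Real.log (2 * J) ^ 2 ≤ 2 * J := by
    have h1 : (fun x : ℝ => Real.log x ^ (2 : ℝ)) =o[Filter.atTop] fun x => x ^ ((1 : ℝ) / 2) :=
      isLittleO_log_rpow_rpow_atTop 2 (by norm_num)
    have hs : (0 : ℝ) < 1 / (s + 1) := by positivity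
    have h2 := h1.def hs
    have h3 : Filter.Tendsto (fun J : ℕ => (2 : ℝ) * J) Filter.atTop Filter.atTop :=
      Filter.Tendsto.const_mul_atTop (by norm_num) tendsto_natCast_atTop_atTop
    filter_upwards [h3.eventually h2, Filter.eventually_ge_atTop 1] with J hJ hJ1
    have hJ0 : (1 : ℝ) ≤ J := by exact_mod_cast hJ1
    have hl0 : 0 ≤ Real.log (2 * J) := Real.log_nonneg (by linarith)
    rw [Real.norm_of_nonneg (by positivity), Real.norm_of_nonneg (by positivity), Real.rpow_two] at hJ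
    have h4 : (s : ℝ) * Real.log (2 * J) ^ 2 ≤ (2 * J) ^ ((1 : ℝ) / 2) := by
      have h5 : (0 : ℝ) ≤ Real.log (2 * J) ^ 2 := by positivity
      have h6 : Real.log (2 * J) ^ 2 * (s + 1) ≤ (2 * J) ^ ((1 : ℝ) / 2) := by
        rw [one_div_mul_eq_div, le_div_iff₀ (by positivity)] at hJ
        exact hJ
      nlinarith
    have h7 : (J : ℝ) ^ ((1 : ℝ) / 2) ≤ (2 * J) ^ ((1 : ℝ) / 2) :=
      Real.rpow_le_rpow (by linarith) (by linarith) (by norm_num)
    have h8 : 0 ≤ (J : ℝ) ^ ((1 : ℝ) / 2) := by positivity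
    calc (s : ℝ) * (J : ℝ) ^ ((1 : ℝ) / 2) * Real.log (2 * J) ^ 2
        = (J : ℝ) ^ ((1 : ℝ) / 2) * (s * Real.log (2 * J) ^ 2) := by ring
      _ ≤ ((2 : ℝ) * J) ^ ((1 : ℝ) / 2) * ((2 : ℝ) * J) ^ ((1 : ℝ) / 2) :=
          mul_le_mul h7 h4 (by positivity) (by positivity)
      _ = 2 * J := by
          rw [← Real.rpow_add (by linarith)]
          norm_num
  rw [← Filter.eventually_atTop]
  filter_upwards [htJ.eventually hnum, htJ.eventually_ge_atTop (x0 + 2)] with N h1 h2
  set J := tJ N with hJ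
  have hJ2 : (2 : ℝ) ≤ J := by exact_mod_cast (by omega : 2 ≤ J)
  have h3 := hx0 (2 * J) (by omega)
  rw [show 2 * J / 2 = J by omega] at h3
  set P := (Finset.Ioc J (2 * J)).filter fun p => p.Prime ∧ p % W = 1 % W with hP
  have hsT : s * Nat.sqrt J ≤ P.card := by
    have h4 : (s : ℝ) * (Nat.sqrt J : ℝ) ≤ P.card := by
      refine le_trans ?_ h3
      push_cast
      have hl : 0 < Real.log (2 * J) := Real.log_pos (by linarith)
      rw [le_div_iff₀ (by positivity)]
      refine le_trans ?_ h1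
      refine mul_le_mul_of_nonneg_right (mul_le_mul_of_nonneg_left ?_ (Nat.cast_nonneg _)) (by positivity)
      rw [← Real.sqrt_eq_rpow]
      exact Real.nat_sqrt_le_real_sqrt
    exact_mod_cast h4
  obtain ⟨TT, t1, t2, t3⟩ := tny_split s (Nat.sqrt J) P hsT
  refine ⟨TT, ?_, t2, t3⟩
  intro t m hm
  obtain ⟨h5, h6, h7⟩ := mem_filter.1 (t1 t hm)
  rw [mem_Ioc] at h5
  exact ⟨h6, h5.1, h5.2, h7⟩

end Pool.Agent.Lib.OW
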