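import Pool.Agent.Lib.MP_7b7e48_nt.OW.NumW
import Pool.Agent.Lib.MP_7b7e48_nt.OW.CEL

/-!
# Module VAR (60 minutes, helper98): the number of tuples which send `u` to the first `l`-th part

`N1 = W N`. PAIR LEMMA: `M = g a`, `M' = g b`, `gcd(a, b) = 1`, `H = l g a b`: for `u < N1` with `c = H u / N1 < H`:
`M u / N1` has fractional part `< 1/l` iff `c % (l b) < b`, and for `M'` iff `c % (l a) < a`. For `c = c0 + l b i`, `c0 < b`, `i < a` (and
`g` periods of length `l a b`): `c % (l a) = (c0 % l) + l k'`, `i ↦ k'` a bijection of `[0,a)`; so at most `a/l + 1` values `i` are good: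
at most `g b (a/l + 1)` cells `c`, and each cell contains at most `N1/(H v) + 1` of the `n` (`v n` in the cell):
`#{n : v n < N1, Land M (v n), Land M' (v n)} ≤ (1/l² + 1/(l a)) N1/v + H`.
Single: `#{n ≥ 0 : v n < N1, Land M (v n)} ≥ N1/(l v) - M - 1`.
Second moment with `T1 = T^s / l`: `∑_n (NL(v n) - T1)² ≤ (N1/v)(1/l) ∑_{M,M'} 1/a + (error terms ≤ 4 T^(2s) l (2 tJ)^(2s) + 4)`; for tuples
`m, m'` of `piFinset TT`: `a = ∏_{m_t ≠ m'_t} m_t`, `b = ∏_{m_t ≠ m'_t} m'_t` are coprime (the sets `TT t` are disjoint sets of primes), and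
`∑_{m,m'} 1/a = ∏_t (T + ∑_{m ≠ m'} 1/m) ≤ (T + T²/tJ)^s ≤ (2 T)^s` as `T ≤ tJ N` (`TT t ⊂ (tJ, 2 tJ]`).
Chebyshev: `NL < T1/2` has at most `4 T1^(-2)` times this `≤ 2^(s+2) l (N1/v)/T^s + ..` elements.
-/

set_option autoImplicit false

open Finset
open Pool.Agent.Lib.MP_45349e_nt.LS (lam)

namespace Pool.Agent.Lib.OW

/-- number of the integers in a cell -/
private theorem var_cell (n B c : ℕ) (hn : 0 < n) (hB : 0 < B) (hc : c < B) :
    ((n : ℝ) / B - 1 ≤ (((Finset.range n).filter fun i => B * i / n = c).card : ℝ)) ∧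
    ((((Finset.range n).filter fun i => B * i / n = c).card : ℝ) ≤ (n : ℝ) / B + 1) := by
  have hn1 : 0 < n * 1 := by omega
  have key : ((Finset.range n).filter fun i => B * i / n = c) =
      Finset.Ico ((c * n + B - 1) / B) (((c + 1) * n + B - 1) / B) := by
    ext i
    simp only [Finset.mem_filter, Finset.mem_range, Finset.mem_Ico]
    have h0 := cell_mem (W := n) (N := 1) (B := B) (u := i) (c := c) hn1 hB
    rw [mul_one] at h0
    rw [h0]
    constructor
    · rintro ⟨-, h⟩
      exact h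
    · intro h
      refine ⟨?_, h⟩
      have h1 := h0.2 h
      have h2 : B * i < (c + 1) * n := by
        rw [← h1]
        exact Nat.lt_mul_of_div_lt (Nat.lt_succ_self _) hn
      have h3 : B * i < B * n := lt_of_lt_of_le h2 (Nat.mul_le_mul_right _ hc)
      exact Nat.lt_of_mul_lt_mul_left h3
  have hBR : (0 : ℝ) < B := by exact_mod_cast hB
  have hceil : ∀ x : ℕ, (x : ℝ) / B ≤ ((x + B - 1) / B : ℕ) ∧ (((x + B - 1) / B : ℕ) : ℝ) ≤ (x : ℝ) / B + 1 := by
    intro x
    constructor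
    · rw [div_le_iff₀ hBR]
      have h1 : x ≤ (x + B - 1) / B * B := by
        have := Nat.div_add_mod (x + B - 1) B
        have h2 := Nat.mod_lt (x + B - 1) hB
        have h3 : B * ((x + B - 1) / B) = (x + B - 1) / B * B := mul_comm _ _
        omega
      exact_mod_cast h1
    · rw [← sub_le_iff_le_add, le_div_iff₀ hBR]
      have h1 : (x + B - 1) / B * B ≤ x + B := by
        have := Nat.div_mul_le_self (x + B - 1) B
        omega
      have h2 : (((x + B - 1) / B : ℕ) : ℝ) * B ≤ x + B := by exact_mod_cast h1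
      linarith
  have hle : (c * n + B - 1) / B ≤ ((c + 1) * n + B - 1) / B := by
    apply Nat.div_le_div_right
    have : (c + 1) * n = c * n + n := by ring
    omega
  rw [key, Nat.card_Ico, Nat.cast_sub hle]
  obtain ⟨h1, h2⟩ := hceil (c * n)
  obtain ⟨h3, h4⟩ := hceil ((c + 1) * n)
  have h5 : (((c + 1) * n : ℕ) : ℝ) / B = ((c * n : ℕ) : ℝ) / B + (n : ℝ) / B := by
    push_cast
    ring
  constructor
  · -- lower bound needs a sharper form: ceil y + something
    rw [h5] at h3
    linarith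
  · rw [h5] at h4
    linarith

private theorem var_cells_pair (l g a b : ℕ) (hl : 0 < l) (ha : 0 < a) (hb : 0 < b) (hab : a.Coprime b) :
    ((Finset.range (l * g * a * b)).filter fun c => c / b % l = 0 ∧ c / a % l = 0).card ≤ g * (b * (a / l + 1)) := by
  classical
  rcases Nat.eq_zero_or_pos g with hg | hg
  · subst hg
    simp
  set P := l * a * b with hP
  have hPpos : 0 < P := by positivity
  -- c % (l b) < b
  have hcond : ∀ c k : ℕ, 0 < k → c / k % l = 0 → c % (l * k) < k := by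
    intro c k hk h
    rw [mul_comm l k, Nat.mod_mul, h]
    simpa using Nat.mod_lt c hk
  have hinj : Set.InjOn (fun c : ℕ => ((c / P, c % (l * b)), c % (l * a)))
      (((Finset.range (l * g * a * b)).filter fun c => c / b % l = 0 ∧ c / a % l = 0) : Finset ℕ) := by
    intro c hc c' hc' h
    simp only [Prod.mk.injEq] at h
    obtain ⟨⟨h1, h2⟩, h3⟩ := h
    have h4 : c % P = c' % P := by
      have e1 : c ≡ c' [MOD l * b] := h2
      have e2 : c ≡ c' [MOD l * a] := h3
      have e3 : c ≡ c' [MOD Nat.lcm (l * b) (l * a)] := Nat.mod_lcm e1 e2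
      have e4 : Nat.lcm (l * b) (l * a) = P := by
        rw [Nat.lcm_mul_left, Nat.Coprime.lcm_eq_mul hab.symm, hP]
        ring
      rw [e4] at e3
      exact e3
    calc c = P * (c / P) + c % P := (Nat.div_add_mod c P).symm
      _ = P * (c' / P) + c' % P := by rw [h1, h4]
      _ = c' := Nat.div_add_mod c' P
  have hmaps : ∀ c ∈ ((Finset.range (l * g * a * b)).filter fun c => c / b % l = 0 ∧ c / a % l = 0),
      ((c / P, c % (l * b)), c % (l * a)) ∈
        ((Finset.range g ×ˢ Finset.range b).biUnion fun p =>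
          ((Finset.range a).filter fun r => r % l = p.2 % l).image fun r => (p, r)) := by
    intro c hc
    simp only [Finset.mem_filter, Finset.mem_range] at hc
    obtain ⟨hc0, hc1, hc2⟩ := hc
    rw [Finset.mem_biUnion]
    refine ⟨(c / P, c % (l * b)), ?_, ?_⟩
    · rw [Finset.mem_product, Finset.mem_range, Finset.mem_range]
      refine ⟨?_, hcond c b hb hc1⟩
      rw [Nat.div_lt_iff_lt_mul hPpos, hP]
      calc c < l * g * a * b := hc0
        _ = g * (l * a * b) := by ring
    · rw [Finset.mem_image]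
      refine ⟨c % (l * a), ?_, rfl⟩
      rw [Finset.mem_filter, Finset.mem_range]
      refine ⟨hcond c a ha hc2, ?_⟩
      rw [Nat.mod_mul_right_mod, Nat.mod_mul_right_mod]
  have hcard := Finset.card_le_card_of_injOn _ hmaps hinj
  refine hcard.trans ?_
  refine (Finset.card_biUnion_le).trans ?_
  have hbound : ∀ p ∈ (Finset.range g ×ˢ Finset.range b),
      (((Finset.range a).filter fun r => r % l = p.2 % l).image fun r => (p, r)).card ≤ a / l + 1 := by
    intro p _
    refine Finset.card_image_le.trans ?_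
    have := Nat.count_modEq_card a hl p.2
    rw [Nat.count_eq_card_filter_range] at this
    have h2 : ((Finset.range a).filter fun r => r % l = p.2 % l) = ((Finset.range a).filter fun r => r ≡ p.2 [MOD l]) := rfl
    rw [h2, this]
    split_ifs <;> omega
  refine (Finset.sum_le_sum hbound).trans ?_
  rw [Finset.sum_const, Finset.card_product, Finset.card_range, Finset.card_range, smul_eq_mul, mul_assoc]

/-- the sum of the reciprocals -/
private theorem var_sum (s : ℕ) (T J : ℕ) (hJ : 1 ≤ J) (TT : Fin s → Finset ℕ)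
    (h1 : ∀ t, ∀ m ∈ TT t, J < m ∧ m ≤ 2 * J) (h2 : ∀ t, (TT t).card = T) :
    ∑ m ∈ Fintype.piFinset TT, ∑ m' ∈ Fintype.piFinset TT,
      ∏ t, (if m t = m' t then (1 : ℝ) else 1 / (m t : ℝ)) ≤ (2 * T) ^ s := by
  classical
  have e1 : ∀ m : Fin s → ℕ, ∑ m' ∈ Fintype.piFinset TT,
      ∏ t, (if m t = m' t then (1 : ℝ) else 1 / (m t : ℝ)) =
      ∏ t, ∑ y ∈ TT t, (if m t = y then (1 : ℝ) else 1 / (m t : ℝ)) := by
    intro m
    rw [Finset.prod_univ_sum]
  simp_rw [e1]
  rw [← Finset.prod_univ_sum TT (fun t x => ∑ y ∈ TT t, (if x = y then (1 : ℝ) else 1 / (x : ℝ)))]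
  have e2 : ∀ t : Fin s, ∑ x ∈ TT t, ∑ y ∈ TT t, (if x = y then (1 : ℝ) else 1 / (x : ℝ)) ≤ 2 * T := by
    intro t
    have hTJ : T ≤ J := by
      rw [← h2 t]
      have : TT t ⊆ Finset.Ioc J (2 * J) := by
        intro m hm
        rw [Finset.mem_Ioc]
        exact h1 t m hm
      refine (Finset.card_le_card this).trans ?_
      rw [Nat.card_Ioc]
      omega
    have e3 : ∀ x ∈ TT t, ∑ y ∈ TT t, (if x = y then (1 : ℝ) else 1 / (x : ℝ)) ≤ 2 := by
      intro x hx
      have hx0 : (J : ℝ) < x := by exact_mod_cast (h1 t x hx).1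
      have hJ0 : (1 : ℝ) ≤ J := by exact_mod_cast hJ
      have hxp : (0 : ℝ) < x := by linarith
      have e4 : ∀ y ∈ TT t, (if x = y then (1 : ℝ) else 1 / (x : ℝ)) ≤ (if x = y then (1 : ℝ) else 0) + 1 / (x : ℝ) := by
        intro y _
        have : (0 : ℝ) ≤ 1 / x := by positivity
        split_ifs <;> linarith
      refine (Finset.sum_le_sum e4).trans ?_
      rw [Finset.sum_add_distrib, Finset.sum_ite_eq, if_pos hx, Finset.sum_const, nsmul_eq_mul, h2 t]
      have : (T : ℝ) * (1 / x) ≤ 1 := by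
        rw [mul_one_div, div_le_one hxp]
        have : (T : ℝ) ≤ J := by exact_mod_cast hTJ
        linarith
      linarith
    refine (Finset.sum_le_sum e3).trans ?_
    rw [Finset.sum_const, nsmul_eq_mul, h2 t]
    linarith
  calc ∏ t, ∑ x ∈ TT t, ∑ y ∈ TT t, (if x = y then (1 : ℝ) else 1 / (x : ℝ)) ≤ ∏ _t : Fin s, (2 * T : ℝ) := by
        apply Finset.prod_le_prod
        · intro t _
          apply Finset.sum_nonneg
          intro x _
          apply Finset.sum_nonneg
          intro y _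
          split_ifs <;> positivity
        · intro t _
          exact e2 t
    _ = (2 * T) ^ s := by
        rw [Finset.prod_const, Finset.card_univ, Fintype.card_fin]

private theorem var_pp {s : ℕ} (m : Fin s → ℕ) : pp m s = ∏ t, m t := by
  unfold pp
  congr 1
  ext t
  simp

/-- factorisation of two tuples -/
private theorem var_fact (W N s T : ℕ) (TT : Fin s → Finset ℕ) (hT : Tiny W N s T TT) (m m' : Fin s → ℕ)
    (hm : m ∈ Fintype.piFinset TT) (hm' : m' ∈ Fintype.piFinset TT) :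
    ∃ g a b : ℕ, 0 < g ∧ 0 < a ∧ 0 < b ∧ a.Coprime b ∧ pp m s = g * a ∧ pp m' s = g * b ∧
      (1 : ℝ) / a = ∏ t, (if m t = m' t then (1 : ℝ) else 1 / (m t : ℝ)) := by
  classical
  rw [Fintype.mem_piFinset] at hm hm'
  have hpos : ∀ t, 0 < m t := fun t => (hT.pr t _ (hm t)).1.pos
  have hpos' : ∀ t, 0 < m' t := fun t => (hT.pr t _ (hm' t)).1.pos
  refine ⟨∏ t ∈ (Finset.univ : Finset (Fin s)).filter (fun t => m t = m' t), m t,
    ∏ t ∈ (Finset.univ : Finset (Fin s)).filter (fun t => ¬ m t = m' t), m t,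
    ∏ t ∈ (Finset.univ : Finset (Fin s)).filter (fun t => ¬ m t = m' t), m' t, ?_, ?_, ?_, ?_, ?_, ?_, ?_⟩
  · exact Finset.prod_pos fun t _ => hpos t
  · exact Finset.prod_pos fun t _ => hpos t
  · exact Finset.prod_pos fun t _ => hpos' t
  · apply Nat.Coprime.prod_left
    intro t ht
    apply Nat.Coprime.prod_right
    intro t' ht'
    rw [Finset.mem_filter] at ht ht'
    rw [Nat.coprime_primes (hT.pr t _ (hm t)).1 (hT.pr t' _ (hm' t')).1]
    by_cases h : t = t'
    · subst h
      exact ht.2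
    · intro he
      have hd := hT.disj t t' h
      exact (Finset.disjoint_left.1 hd) (hm t) (he ▸ hm' t')
  · rw [var_pp, Finset.prod_filter_mul_prod_filter_not]
  · rw [var_pp]
    have : ∏ t ∈ (Finset.univ : Finset (Fin s)).filter (fun t => m t = m' t), m t =
        ∏ t ∈ (Finset.univ : Finset (Fin s)).filter (fun t => m t = m' t), m' t := by
      apply Finset.prod_congr rfl
      intro t ht
      exact (Finset.mem_filter.1 ht).2
    rw [this, Finset.prod_filter_mul_prod_filter_not]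
  · rw [← Finset.prod_filter_mul_prod_filter_not (Finset.univ : Finset (Fin s)) (fun t => m t = m' t)
      (fun t => (if m t = m' t then (1 : ℝ) else 1 / (m t : ℝ)))]
    have e1 : ∏ t ∈ (Finset.univ : Finset (Fin s)).filter (fun t => m t = m' t),
        (if m t = m' t then (1 : ℝ) else 1 / (m t : ℝ)) = 1 := by
      apply Finset.prod_eq_one
      intro t ht
      rw [if_pos (Finset.mem_filter.1 ht).2]
    have e2 : ∏ t ∈ (Finset.univ : Finset (Fin s)).filter (fun t => ¬ m t = m' t),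
        (if m t = m' t then (1 : ℝ) else 1 / (m t : ℝ)) =
        ∏ t ∈ (Finset.univ : Finset (Fin s)).filter (fun t => ¬ m t = m' t), (1 / (m t : ℝ)) := by
      apply Finset.prod_congr rfl
      intro t ht
      rw [if_neg (Finset.mem_filter.1 ht).2]
    rw [e1, e2, one_mul, Nat.cast_prod, Finset.prod_div_distrib, Finset.prod_const_one]

/-- the bound for the product of a tuple -/
private theorem var_ppb (W N s T : ℕ) (TT : Fin s → Finset ℕ) (hT : Tiny W N s T TT) (m : Fin s → ℕ)
    (hm : m ∈ Fintype.piFinset TT) : 0 < pp m s ∧ pp m s ≤ (2 * tJ N) ^ s := by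
  classical
  rw [Fintype.mem_piFinset] at hm
  rw [var_pp]
  refine ⟨Finset.prod_pos fun t _ => (hT.pr t _ (hm t)).1.pos, ?_⟩
  calc ∏ t, m t ≤ ∏ _t : Fin s, (2 * tJ N) := Finset.prod_le_prod' fun t _ => (hT.pr t _ (hm t)).2.2.1
    _ = (2 * tJ N) ^ s := by
        rw [Finset.prod_const, Finset.card_univ, Fintype.card_fin]

open Classical in
/-- the number of `n` with `M v n` in the first part -/
private theorem var_single (W N v l M : ℕ) (hN : 0 < W * N) (hv : 0 < v) (hl : 0 < l) (hM : 0 < M) :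
    (W * N : ℝ) / (l * v) - M ≤
      ((((Finset.range (W * N)).filter fun n => v * n < W * N).filter fun n => Land W N l M (v * n)).card : ℝ) := by
  set n1 := W * N with hn1
  set B := l * M * v with hB
  have hBpos : 0 < B := by positivity
  -- the cells l j, j < M
  have hsub : ((Finset.range M).biUnion fun j => (Finset.range n1).filter fun n => B * n / n1 = l * j) ⊆
      (((Finset.range n1).filter fun n => v * n < n1).filter fun n => Land W N l M (v * n)) := by
    intro n hn
    rw [Finset.mem_biUnion] at hn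
    obtain ⟨j, hj, hn⟩ := hn
    rw [Finset.mem_range] at hj
    rw [Finset.mem_filter, Finset.mem_range] at hn
    obtain ⟨hn0, hn2⟩ := hn
    have e1 : l * M * (v * n) = B * n := by rw [hB]; ring
    rw [Finset.mem_filter, Finset.mem_filter, Finset.mem_range]
    refine ⟨⟨hn0, ?_⟩, ?_⟩
    · have h3 : l * M * (v * n) < l * M * n1 := by
        rw [e1]
        apply Nat.lt_mul_of_div_lt _ hN
        rw [hn2]
        exact Nat.mul_lt_mul_of_pos_left hj hl
      exact Nat.lt_of_mul_lt_mul_left h3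
    · rw [land_iff hN hl, ← hn1, e1, hn2]
      exact Nat.mul_mod_right l j
  have hcard := Finset.card_le_card hsub
  have hdisj : ((Finset.range M : Finset ℕ) : Set ℕ).PairwiseDisjoint
      (fun j => (Finset.range n1).filter fun n => B * n / n1 = l * j) := by
    intro i _ j _ hij
    rw [Function.onFun, Finset.disjoint_left]
    intro n hn hn'
    rw [Finset.mem_filter] at hn hn'
    apply hij
    have := hn.2.symm.trans hn'.2
    exact Nat.eq_of_mul_eq_mul_left hl this
  rw [Finset.card_biUnion hdisj] at hcard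
  have h5 : (∑ j ∈ Finset.range M, (((Finset.range n1).filter fun n => B * n / n1 = l * j).card : ℝ)) ≤
      ((((Finset.range n1).filter fun n => v * n < n1).filter fun n => Land W N l M (v * n)).card : ℝ) := by
    exact_mod_cast hcard
  refine le_trans ?_ h5
  have h6 : ∀ j ∈ Finset.range M, (n1 : ℝ) / B - 1 ≤ (((Finset.range n1).filter fun n => B * n / n1 = l * j).card : ℝ) := by
    intro j hj
    rw [Finset.mem_range] at hj
    refine (var_cell n1 B (l * j) hN hBpos ?_).1
    calc l * j < l * M := Nat.mul_lt_mul_of_pos_left hj hl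
      _ ≤ l * M * v := Nat.le_mul_of_pos_right _ hv
  refine le_trans (le_of_eq ?_) (Finset.sum_le_sum h6)
  rw [Finset.sum_const, Finset.card_range, nsmul_eq_mul, hB]
  have hl' : (l : ℝ) ≠ 0 := by exact_mod_cast hl.ne'
  have hM' : (M : ℝ) ≠ 0 := by exact_mod_cast hM.ne'
  have hv' : (v : ℝ) ≠ 0 := by exact_mod_cast hv.ne'
  have h7 : (n1 : ℝ) = W * N := by rw [hn1]; push_cast; ring
  rw [← h7]
  push_cast
  field_simp

open Classical in
/-- the number of `n` with `M v n` and `M' v n` in the first part -/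
private theorem var_pair (W N v l g a b : ℕ) (hN : 0 < W * N) (hv : 0 < v) (hl : 0 < l) (hg : 0 < g) (ha : 0 < a)
    (hb : 0 < b) (hab : a.Coprime b) :
    ((((Finset.range (W * N)).filter fun n => v * n < W * N).filter fun n =>
      Land W N l (g * a) (v * n) ∧ Land W N l (g * b) (v * n)).card : ℝ) ≤
      (W * N : ℝ) / (l * v) * (1 / l + 1 / a) + 2 * ((g * a : ℕ) : ℝ) * ((g * b : ℕ) : ℝ) := by
  set n1 := W * N with hn1
  set H := l * g * a * b with hH
  set B := H * v with hB
  have hHpos : 0 < H := by positivity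
  have hBpos : 0 < B := by positivity
  set S := (Finset.range H).filter fun c => c / b % l = 0 ∧ c / a % l = 0 with hS
  have hsub : (((Finset.range n1).filter fun n => v * n < n1).filter fun n =>
      Land W N l (g * a) (v * n) ∧ Land W N l (g * b) (v * n)) ⊆
      S.biUnion fun c => (Finset.range n1).filter fun n => B * n / n1 = c := by
    intro n hn
    rw [Finset.mem_filter, Finset.mem_filter, Finset.mem_range] at hn
    obtain ⟨⟨hn0, hn2⟩, h3, h4⟩ := hn
    rw [Finset.mem_biUnion]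
    refine ⟨B * n / n1, ?_, ?_⟩
    · rw [hS, Finset.mem_filter, Finset.mem_range]
      have e0 : B * n = H * (v * n) := by rw [hB]; ring
      refine ⟨?_, ?_, ?_⟩
      · rw [Nat.div_lt_iff_lt_mul hN, e0]
        exact Nat.mul_lt_mul_of_pos_left hn2 hHpos
      · rw [land_iff hN hl] at h3
        rw [e0, hn1, ← nest (A := l * (g * a)) (B := H) (k := b) (u := v * n) hN hb (by rw [hH]; ring)]
        exact h3
      · rw [land_iff hN hl] at h4
        rw [e0, hn1, ← nest (A := l * (g * b)) (B := H) (k := a) (u := v * n) hN ha (by rw [hH]; ring)]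
        exact h4
    · rw [Finset.mem_filter, Finset.mem_range]
      exact ⟨hn0, rfl⟩
  have h5 : ((((Finset.range n1).filter fun n => v * n < n1).filter fun n =>
      Land W N l (g * a) (v * n) ∧ Land W N l (g * b) (v * n)).card : ℝ) ≤
      ∑ c ∈ S, (((Finset.range n1).filter fun n => B * n / n1 = c).card : ℝ) := by
    have := (Finset.card_le_card hsub).trans Finset.card_biUnion_le
    exact_mod_cast this
  have h6 : ∑ c ∈ S, (((Finset.range n1).filter fun n => B * n / n1 = c).card : ℝ) ≤ ∑ c ∈ S, ((n1 : ℝ) / B + 1) := by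
    apply Finset.sum_le_sum
    intro c hc
    rw [hS, Finset.mem_filter, Finset.mem_range] at hc
    refine (var_cell n1 B c hN hBpos ?_).2
    exact lt_of_lt_of_le hc.1 (Nat.le_mul_of_pos_right _ hv)
  rw [Finset.sum_const, nsmul_eq_mul] at h6
  have h7 : (S.card : ℝ) ≤ g * (b * (a / l + 1)) := by
    have h8 := var_cells_pair l g a b hl ha hb hab
    have h9 : ((g * (b * (a / l + 1)) : ℕ) : ℝ) ≤ g * (b * (a / l + 1)) := by
      push_cast
      have : ((a / l : ℕ) : ℝ) ≤ (a : ℝ) / l := Nat.cast_div_le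
      gcongr
    have h10 : (S.card : ℝ) ≤ ((g * (b * (a / l + 1)) : ℕ) : ℝ) := by exact_mod_cast h8
    exact h10.trans h9
  refine h5.trans (h6.trans ?_)
  have hlR : (1 : ℝ) ≤ l := by exact_mod_cast hl
  have hgR : (1 : ℝ) ≤ g := by exact_mod_cast hg
  have haR : (1 : ℝ) ≤ a := by exact_mod_cast ha
  have hbR : (1 : ℝ) ≤ b := by exact_mod_cast hb
  have hvR : (1 : ℝ) ≤ v := by exact_mod_cast hv
  have h7' : (n1 : ℝ) = W * N := by rw [hn1]; push_cast; ring
  rw [← h7']
  calc (S.card : ℝ) * ((n1 : ℝ) / B + 1) ≤ g * (b * (a / l + 1)) * ((n1 : ℝ) / B + 1) := by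
        apply mul_le_mul_of_nonneg_right h7
        positivity
    _ = (n1 : ℝ) / (l * v) * (1 / l + 1 / a) + g * (b * (a / l + 1)) := by
        rw [hB, hH]
        push_cast
        field_simp
    _ ≤ (n1 : ℝ) / (l * v) * (1 / l + 1 / a) + 2 * ((g * a : ℕ) : ℝ) * ((g * b : ℕ) : ℝ) := by
        have h11 : (a : ℝ) / l + 1 ≤ 2 * a := by
          have : (a : ℝ) / l ≤ a := div_le_self (by linarith) hlR
          linarith
        have h12 : (g : ℝ) * (b * (a / l + 1)) ≤ g * (b * (2 * a)) := by gcongr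
        have h13 : (g : ℝ) * (b * (2 * a)) ≤ 2 * ((g * a : ℕ) : ℝ) * ((g * b : ℕ) : ℝ) := by
          push_cast
          have : (g : ℝ) * (b * (2 * a)) * 1 ≤ g * (b * (2 * a)) * g := by
            apply mul_le_mul_of_nonneg_left hgR
            positivity
          linarith [this]
        linarith

private theorem var_cardX (n v : ℕ) (hn : 0 < n) (hv : 0 < v) :
    (((Finset.range n).filter fun i => v * i < n).card : ℝ) ≤ (n : ℝ) / v + 1 := by
  have h1 : ((Finset.range n).filter fun i => v * i < n) = (Finset.range n).filter fun i => v * i / n = 0 := by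
    ext i
    rw [Finset.mem_filter, Finset.mem_filter, Nat.div_eq_zero_iff_lt hn]
  rw [h1]
  exact (var_cell n v 0 hn hv hv).2

open Classical in
/-- the second moment -/
private theorem var_second (W N s T v l Q : ℕ) (TT : Fin s → Finset ℕ) (hN : 0 < W * N) (hv : 0 < v) (hl : 0 < l)
    (hJ : 1 ≤ tJ N) (hT : Tiny W N s T TT) (hQ : (2 * tJ N) ^ s * (2 * tJ N) ^ s ≤ Q) :
    (∑ n ∈ (Finset.range (W * N)).filter fun n => v * n < W * N,
      ((NL W N l TT (v * n) : ℝ) - (T : ℝ) ^ s / l) ^ 2) ≤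
      (W * N : ℝ) / (l * v) * (2 * T) ^ s + 5 * Q * ((T : ℝ) ^ s * (T : ℝ) ^ s) := by
  set n1 := W * N with hn1
  have h7' : (n1 : ℝ) = W * N := by rw [hn1]; push_cast; ring
  rw [← h7']
  set X := (Finset.range n1).filter fun n => v * n < n1 with hX
  set P := Fintype.piFinset TT with hP
  have hPc : (P.card : ℝ) = (T : ℝ) ^ s := by
    rw [hP, Fintype.card_piFinset]
    have : ∀ t ∈ (Finset.univ : Finset (Fin s)), (TT t).card = T := fun t _ => hT.card t
    rw [Finset.prod_congr rfl this, Finset.prod_const, Finset.card_univ, Fintype.card_fin]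
    push_cast
    rfl
  have hf : ∀ n, (NL W N l TT (v * n) : ℝ) = ∑ m ∈ P, (if Land W N l (pp m s) (v * n) then (1 : ℝ) else 0) := by
    intro n
    unfold NL
    rw [Finset.card_filter]
    push_cast
    rfl
  have hlR : (1 : ℝ) ≤ l := by exact_mod_cast hl
  have hvR : (1 : ℝ) ≤ v := by exact_mod_cast hv
  have hJR : (1 : ℝ) ≤ tJ N := by exact_mod_cast hJ
  have hQ1 : 1 ≤ (2 * tJ N) ^ s := Nat.one_le_pow _ _ (by omega)
  have hQQ : (2 * tJ N) ^ s ≤ Q := by
    calc (2 * tJ N) ^ s = (2 * tJ N) ^ s * 1 := (mul_one _).symm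
      _ ≤ (2 * tJ N) ^ s * (2 * tJ N) ^ s := Nat.mul_le_mul_left _ hQ1
      _ ≤ Q := hQ
  have hQR : (1 : ℝ) ≤ Q := by exact_mod_cast hQ1.trans hQQ
  -- first moment
  have hS1 : (T : ℝ) ^ s * ((n1 : ℝ) / (l * v) - Q) ≤ ∑ n ∈ X, (NL W N l TT (v * n) : ℝ) := by
    simp_rw [hf]
    rw [Finset.sum_comm, ← hPc, ← nsmul_eq_mul, ← Finset.sum_const]
    apply Finset.sum_le_sum
    intro m hm
    obtain ⟨hm0, hm1⟩ := var_ppb W N s T TT hT m hm
    have h1 := var_single W N v l (pp m s) hN hv hl hm0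
    rw [← hn1, ← hX, ← h7'] at h1
    rw [Finset.card_filter] at h1
    push_cast at h1
    have h2 : ((pp m s : ℕ) : ℝ) ≤ Q := by exact_mod_cast hm1.trans hQQ
    linarith
  -- second moment
  have hS2 : ∑ n ∈ X, (NL W N l TT (v * n) : ℝ) ^ 2 ≤
      (T : ℝ) ^ s * (T : ℝ) ^ s * ((n1 : ℝ) / (l * v) / l) + (n1 : ℝ) / (l * v) * (2 * T) ^ s +
        (T : ℝ) ^ s * (T : ℝ) ^ s * (2 * Q) := by
    have e1 : ∀ n, (NL W N l TT (v * n) : ℝ) ^ 2 = ∑ m ∈ P, ∑ m' ∈ P,
        (if Land W N l (pp m s) (v * n) ∧ Land W N l (pp m' s) (v * n) then (1 : ℝ) else 0) := by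
      intro n
      rw [hf, sq, Finset.sum_mul_sum]
      apply Finset.sum_congr rfl
      intro m _
      apply Finset.sum_congr rfl
      intro m' _
      by_cases h1 : Land W N l (pp m s) (v * n) <;> by_cases h2 : Land W N l (pp m' s) (v * n) <;> simp [h1, h2]
    simp_rw [e1]
    rw [Finset.sum_comm]
    have e2 : ∀ m ∈ P, ∑ n ∈ X, ∑ m' ∈ P,
        (if Land W N l (pp m s) (v * n) ∧ Land W N l (pp m' s) (v * n) then (1 : ℝ) else 0) ≤
        ∑ m' ∈ P, ((n1 : ℝ) / (l * v) / l + (n1 : ℝ) / (l * v) * (∏ t, (if m t = m' t then (1 : ℝ) else 1 / (m t : ℝ))) +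
          2 * Q) := by
      intro m hm
      rw [Finset.sum_comm]
      apply Finset.sum_le_sum
      intro m' hm'
      obtain ⟨g, a, b, hg, ha, hb, hab, hga, hgb, hprod⟩ := var_fact W N s T TT hT m m' hm hm'
      have h1 := var_pair W N v l g a b hN hv hl hg ha hb hab
      rw [← hn1, ← hX, ← h7', ← hga, ← hgb] at h1
      rw [Finset.card_filter] at h1
      push_cast at h1
      refine h1.trans ?_
      rw [← hprod]
      have h2 : ((pp m s : ℕ) : ℝ) * ((pp m' s : ℕ) : ℝ) ≤ Q := by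
        have h3 : pp m s * pp m' s ≤ Q :=
          (Nat.mul_le_mul (var_ppb W N s T TT hT m hm).2 (var_ppb W N s T TT hT m' hm').2).trans hQ
        exact_mod_cast h3
      have h4 : (n1 : ℝ) / (l * v) * (1 / l + 1 / a) = (n1 : ℝ) / (l * v) / l + (n1 : ℝ) / (l * v) * (1 / a) := by ring
      rw [h4]
      linarith
    refine (Finset.sum_le_sum e2).trans ?_
    simp_rw [Finset.sum_add_distrib, Finset.sum_const, nsmul_eq_mul, ← Finset.mul_sum, hPc]
    have e3 := var_sum s T (tJ N) hJ TT (fun t m hm => ⟨(hT.pr t m hm).2.1, (hT.pr t m hm).2.2.1⟩) hT.card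
    have e4 : (0 : ℝ) ≤ (n1 : ℝ) / (l * v) := by positivity
    have e5 := mul_le_mul_of_nonneg_left e3 e4
    rw [← hP] at e5
    linarith
  have hXc : (X.card : ℝ) ≤ (n1 : ℝ) / v + 1 := var_cardX n1 v hN hv
  have hexp : (∑ n ∈ X, ((NL W N l TT (v * n) : ℝ) - (T : ℝ) ^ s / l) ^ 2) =
      ∑ n ∈ X, (NL W N l TT (v * n) : ℝ) ^ 2 - 2 * ((T : ℝ) ^ s / l) * ∑ n ∈ X, (NL W N l TT (v * n) : ℝ) +
        ((T : ℝ) ^ s / l) ^ 2 * X.card := by
    have : ∀ n, ((NL W N l TT (v * n) : ℝ) - (T : ℝ) ^ s / l) ^ 2 =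
        (NL W N l TT (v * n) : ℝ) ^ 2 - 2 * ((T : ℝ) ^ s / l) * (NL W N l TT (v * n) : ℝ) + ((T : ℝ) ^ s / l) ^ 2 := by
      intro n
      ring
    simp_rw [this]
    rw [Finset.sum_add_distrib, Finset.sum_sub_distrib, ← Finset.mul_sum, Finset.sum_const, nsmul_eq_mul]
    ring
  rw [hexp]
  set Z := (T : ℝ) ^ s with hZ
  have hZ0 : 0 ≤ Z := by positivity
  set L := (n1 : ℝ) / (l * v) with hL
  have hL0 : 0 ≤ L := by positivity
  have hl0 : (0 : ℝ) < l := by linarith
  have hv0 : (0 : ℝ) < v := by linarith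
  have h1 : 2 * (Z / l) * (Z * (L - Q)) ≤ 2 * (Z / l) * ∑ n ∈ X, (NL W N l TT (v * n) : ℝ) := by
    apply mul_le_mul_of_nonneg_left hS1
    positivity
  have h2 : (Z / l) ^ 2 * X.card ≤ (Z / l) ^ 2 * ((n1 : ℝ) / v + 1) := by
    apply mul_le_mul_of_nonneg_left hXc
    positivity
  have h3 : (n1 : ℝ) / v = l * L := by
    rw [hL]
    field_simp
  rw [h3] at h2
  have h4 : (Z / l) ^ 2 * (l * L + 1) = Z * Z * (L / l) + (Z / l) ^ 2 := by
    field_simp
  have h5 : 2 * (Z / l) * (Z * (L - Q)) = 2 * (Z * Z * (L / l)) - 2 * (Z * Z * (Q / l)) := by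
    field_simp
  have h6 : (Z / l) ^ 2 ≤ Z * Z * Q := by
    rw [div_pow, sq Z]
    have : Z * Z / (l : ℝ) ^ 2 ≤ Z * Z := div_le_self (by positivity) (by nlinarith)
    have h8 : Z * Z * 1 ≤ Z * Z * Q := mul_le_mul_of_nonneg_left hQR (by positivity)
    linarith
  have h7 : Z * Z * (Q / l) ≤ Z * Z * Q := by
    apply mul_le_mul_of_nonneg_left _ (by positivity)
    exact div_le_self (by positivity) hlR
  rw [h4] at h2
  rw [h5] at h1
  linarith

open Classical in
theorem var (W : ℕ) (hW : 1 ≤ W) (s : ℕ) (C : ℝ) : ∃ N0 : ℕ, ∀ N : ℕ, N0 ≤ N →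
    ∀ (v l T : ℕ) (TT : Fin s → Finset ℕ), 1 ≤ v → v * LL N ^ 5 ≤ N → 1 ≤ l → (l : ℝ) ≤ (Real.log N) ^ C → 1 ≤ T →
    Tiny W N s T TT →
    (((Finset.range (W * N)).filter fun n => v * n < W * N ∧ 2 * l * NL W N l TT (v * n) < T ^ s).card : ℝ) * T ^ s ≤
      2 ^ (s + 4) * l * (W * N) / v := by
  obtain ⟨A1, hA1⟩ := num W
  obtain ⟨A2, hA2⟩ := num_pow C
  obtain ⟨A3, hA3⟩ := num_pow ((8 * s : ℕ) : ℝ)
  obtain ⟨A4, hA4⟩ := tJ_low
  obtain ⟨A5, hA5⟩ : ∃ A5 : ℕ, ∀ N : ℕ, A5 ≤ N → (2 : ℝ) ≤ Real.log N := by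
    have := (Real.tendsto_log_atTop.comp tendsto_natCast_atTop_atTop).eventually
      (Filter.eventually_ge_atTop (2 : ℝ))
    rw [Filter.eventually_atTop] at this
    obtain ⟨A, hA⟩ := this
    exact ⟨A, fun N hN => hA N hN⟩
  refine ⟨max (max A1 A2) (max A3 (max A4 A5)), ?_⟩
  intro N hNN v l T TT hv hvN hl hlK hT1 hT
  simp only [max_le_iff] at hNN
  obtain ⟨⟨b1, b2⟩, b3, b4, b5⟩ := hNN
  have n1 := hA1 N b1
  have n2 := hA2 N b2
  have n3 := hA3 N b3
  have n4 := hA4 N b4
  have n5 := hA5 N b5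
  have hN3 := n1.N3
  have hN : 0 < W * N := by positivity
  set J := tJ N with hJdef
  set K := Real.log N with hK
  have hJ1 : 1 ≤ J := n1.J1
  -- bound for Q
  have hJK : (J : ℝ) ≤ K := by
    refine n4.2.trans ?_
    calc K ^ ((1 : ℝ) / 2000) ≤ K ^ (1 : ℝ) :=
          Real.rpow_le_rpow_of_exponent_le (by linarith) (by norm_num)
      _ = K := Real.rpow_one K
  set q := (2 * J) ^ s with hq
  have hqq : ((q * q * (q * q) : ℕ) : ℝ) ≤ LL N := by
    have h1 : q * q * (q * q) = (2 * J) ^ (4 * s) := by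
      rw [hq]
      ring
    rw [h1]
    push_cast
    have h2 : (2 * (J : ℝ)) ≤ K ^ 2 := by
      nlinarith
    calc (2 * (J : ℝ)) ^ (4 * s) ≤ (K ^ 2) ^ (4 * s) := by
          apply pow_le_pow_left₀ (by positivity) h2
      _ = K ^ (8 * s) := by rw [← pow_mul]; congr 1; ring
      _ = K ^ (((8 * s : ℕ) : ℝ)) := (Real.rpow_natCast K (8 * s)).symm
      _ ≤ LL N := n3
  have hsec := var_second W N s T v l (q * q) TT hN hv hl hJ1 hT le_rfl
  set X := (Finset.range (W * N)).filter fun n => v * n < W * N with hX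
  set Bd := (Finset.range (W * N)).filter fun n => v * n < W * N ∧ 2 * l * NL W N l TT (v * n) < T ^ s with hBd
  have hBX : Bd ⊆ X := by
    intro n hn
    rw [hBd, Finset.mem_filter] at hn
    rw [hX, Finset.mem_filter]
    exact ⟨hn.1, hn.2.1⟩
  have hlR : (1 : ℝ) ≤ l := by exact_mod_cast hl
  have hvR : (1 : ℝ) ≤ v := by exact_mod_cast hv
  have hTR : (1 : ℝ) ≤ T := by exact_mod_cast hT1
  set Z := (T : ℝ) ^ s with hZ
  have hZ1 : 1 ≤ Z := one_le_pow₀ hTR
  have hlow : (Bd.card : ℝ) * (Z / (2 * l)) ^ 2 ≤ ∑ n ∈ X, ((NL W N l TT (v * n) : ℝ) - Z / l) ^ 2 := by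
    rw [← nsmul_eq_mul, ← Finset.sum_const]
    refine le_trans ?_ (Finset.sum_le_sum_of_subset_of_nonneg hBX fun _ _ _ => sq_nonneg _)
    apply Finset.sum_le_sum
    intro n hn
    rw [hBd, Finset.mem_filter] at hn
    have h1 : (2 : ℝ) * l * NL W N l TT (v * n) < Z := by
      have := hn.2.2
      have h2 : ((2 * l * NL W N l TT (v * n) : ℕ) : ℝ) < ((T ^ s : ℕ) : ℝ) := by exact_mod_cast this
      push_cast at h2
      exact h2
    have h3 : (NL W N l TT (v * n) : ℝ) ≤ Z / (2 * l) := by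
      rw [le_div_iff₀ (by positivity)]
      linarith
    have h4 : Z / l = 2 * (Z / (2 * l)) := by
      field_simp
    rw [h4]
    have h5 : 0 ≤ Z / (2 * l) := by positivity
    nlinarith
  have hTq : Z ≤ (q : ℝ) := by
    have hTq' : T ^ s ≤ q := by
      rcases Nat.eq_zero_or_pos s with hs | hs
      · subst hs
        simp [hq]
      · have hTJ : T ≤ 2 * J := by
          rw [← hT.card ⟨0, hs⟩]
          have : TT ⟨0, hs⟩ ⊆ Finset.Ioc J (2 * J) := by
            intro m hm
            rw [Finset.mem_Ioc]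
            exact ⟨(hT.pr _ m hm).2.1, (hT.pr _ m hm).2.2.1⟩
          refine (Finset.card_le_card this).trans ?_
          rw [Nat.card_Ioc]
          omega
        rw [hq]
        exact Nat.pow_le_pow_left hTJ s
    have : ((T ^ s : ℕ) : ℝ) ≤ (q : ℝ) := by exact_mod_cast hTq'
    push_cast at this
    exact this
  have hq1 : (1 : ℝ) ≤ q := hZ1.trans hTq
  have hLL2 : (2 : ℝ) ≤ LL N := by
    have h1 := n1.JL
    have h2 : 4 * 1 * 1 ≤ 4 * tJ N * W := Nat.mul_le_mul (Nat.mul_le_mul_left 4 hJ1) hW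
    have h3 : 2 ≤ LL N := by omega
    exact_mod_cast h3
  -- the final inequality
  have hmain : 2 * (l : ℝ) * (q * q) * Z ≤ (W * N : ℝ) / v := by
    rw [le_div_iff₀ (by positivity)]
    have h1 : (l : ℝ) ≤ LL N := hlK.trans n2
    have h2 : (q : ℝ) * q * (q * q) ≤ LL N := by exact_mod_cast hqq
    have h3 : (q : ℝ) * q * Z ≤ LL N := by
      have : (q : ℝ) * q * Z ≤ q * q * (q * q) := by
        apply mul_le_mul_of_nonneg_left _ (by positivity)
        calc Z ≤ q := hTq
          _ = q * 1 := (mul_one _).symm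
          _ ≤ q * q := mul_le_mul_of_nonneg_left hq1 (by positivity)
      exact this.trans h2
    have h4 : ((v * LL N ^ 5 : ℕ) : ℝ) ≤ ((W * N : ℕ) : ℝ) := by
      have : v * LL N ^ 5 ≤ W * N := hvN.trans (Nat.le_mul_of_pos_left _ hW)
      exact_mod_cast this
    push_cast at h4
    have hLL0 : (0 : ℝ) ≤ LL N := by linarith
    calc 2 * (l : ℝ) * (q * q) * Z * v = 2 * l * (q * q * Z) * v := by ring
      _ ≤ LL N * LL N * LL N * v := by gcongr
      _ = v * LL N ^ 3 := by ring
      _ ≤ v * LL N ^ 5 := by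
          apply mul_le_mul_of_nonneg_left _ (by positivity)
          exact pow_le_pow_right₀ (by linarith) (by norm_num)
      _ ≤ W * N := h4
  set L := (W * N : ℝ) / v with hL
  have hL0 : 0 ≤ L := by positivity
  have hl0 : (0 : ℝ) < l := by linarith
  have hv0 : (0 : ℝ) < v := by linarith
  have hZ0 : 0 < Z := by linarith
  have h8 := hlow.trans hsec
  have h9 : (W * N : ℝ) / (l * v) = L / l := by
    rw [hL]
    field_simp
  have h10 : (2 * (T : ℝ)) ^ s = 2 ^ s * Z := by rw [mul_pow]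
  rw [h9, h10] at h8
  push_cast at h8
  -- multiply by 4 l^2 / Z
  have h11 : (Bd.card : ℝ) * Z ≤ 4 * l * (L * 2 ^ s) + 20 * l * (l * (q * q) * Z) := by
    have h12 : (Bd.card : ℝ) * (Z / (2 * l)) ^ 2 * (4 * l ^ 2 / Z) ≤
        (L / l * (2 ^ s * Z) + 5 * (q * q) * (Z * Z)) * (4 * l ^ 2 / Z) :=
      mul_le_mul_of_nonneg_right h8 (by positivity)
    have h13 : (Bd.card : ℝ) * (Z / (2 * l)) ^ 2 * (4 * l ^ 2 / Z) = Bd.card * Z := by
      field_simp
      ring
    have h14 : (L / l * (2 ^ s * Z) + 5 * (q * q) * (Z * Z)) * (4 * l ^ 2 / Z) =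
        4 * l * (L * 2 ^ s) + 20 * l * (l * (q * q) * Z) := by
      field_simp
      ring
    rw [h13, h14] at h12
    exact h12
  have h15 : (1 : ℝ) ≤ 2 ^ s := one_le_pow₀ (by norm_num)
  have h16 : 20 * (l : ℝ) * (l * (q * q) * Z) ≤ 10 * l * (L * 2 ^ s) := by
    have h17 : L ≤ L * 2 ^ s := by
      calc L = L * 1 := (mul_one _).symm
        _ ≤ L * 2 ^ s := mul_le_mul_of_nonneg_left h15 hL0
    have h18 : 2 * (l * (q * q) * Z) ≤ L * 2 ^ s := by
      calc 2 * (l * (q * q) * Z) = 2 * (l : ℝ) * (q * q) * Z := by ring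
        _ ≤ L := hmain
        _ ≤ L * 2 ^ s := h17
    calc 20 * (l : ℝ) * (l * (q * q) * Z) = 10 * l * (2 * (l * (q * q) * Z)) := by ring
      _ ≤ 10 * l * (L * 2 ^ s) := by
          apply mul_le_mul_of_nonneg_left h18
          positivity
  have h19 : (2 : ℝ) ^ (s + 4) * l * (W * N) / v = 16 * l * (L * 2 ^ s) := by
    rw [hL, pow_add]
    ring
  rw [h19]
  have h20 : 0 ≤ l * (L * 2 ^ s) := by positivity
  linarith

end Pool.Agent.Lib.OW
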