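import Pool.Agent.Lib.MP_7b7e48_nt.OW.EVL
import Pool.Agent.Lib.MP_7b7e48_nt.OW.ODefs

/-!
# The numerical facts used in UL, AUE, AUL
-/

set_option autoImplicit false

open Finset Filter Topology

namespace Pool.Agent.Lib.OW

/-- the numerical facts for large `N` -/
theorem ul_num (W : ℕ) (η C : ℝ) (hη : 0 < η) (K₀ : ℝ) : ∃ N0 : ℕ, ∀ N : ℕ, N0 ≤ N →
    K₀ ≤ Real.log N ∧ 2 ≤ Real.log N ∧ 1 ≤ tJ N ∧ (W : ℝ) ≤ Real.log N ∧ 1 ≤ LL N ∧
    (2 * (tJ N : ℝ) * W * W) * 3 ≤ (Real.log N) ^ ((1 : ℝ) / 1000) ∧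
    (Real.log N) ^ C < Real.exp ((Real.log N) ^ ((1 : ℝ) / 1000)) ∧
    2 * (tJ N : ℝ) * W < Real.exp ((Real.log N) ^ ((1 : ℝ) / 1000)) ∧
    (Real.exp ((Real.log N) ^ ((1 : ℝ) / 45)) + 3 + 8 / η) * (Real.log N) ^ C ≤ (LL N : ℝ) ^ 5 := by
  -- statements about `K`
  have hpow : ∀ c : ℝ, ∀ t : ℝ, 0 < t → ∀ᶠ K : ℝ in atTop, K ^ c < Real.exp (K ^ t) := by
    intro c t ht
    filter_upwards [evlog (|c| + 1) le_rfl ht, eventually_ge_atTop (Real.exp 1)] with K hK hK1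
    have hK0 : 0 < K := lt_of_lt_of_le (Real.exp_pos 1) hK1
    have hlog : 1 ≤ Real.log K := by
      rw [Real.le_log_iff_exp_le hK0]
      exact hK1
    rw [Real.rpow_zero] at hK
    rw [Real.rpow_def_of_pos hK0, Real.exp_lt_exp]
    have h1 : c ≤ |c| := le_abs_self c
    have h2 := abs_nonneg c
    have h3 : Real.log K * c ≤ Real.log K * |c| := mul_le_mul_of_nonneg_left h1 (by linarith)
    have h4 : (|c| + 1) * (Real.log K + 1) ≤ (|c| + 1) * (Real.log K + 1) * (1 + (|c| + 1)) := by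
      have : 0 ≤ (|c| + 1) * (Real.log K + 1) := by positivity
      nlinarith
    nlinarith
  have hev : ∀ᶠ K : ℝ in atTop, K₀ ≤ K ∧ 2 ≤ K ∧ (W : ℝ) ≤ K ∧
      (2 * K ^ ((1 : ℝ) / 2000) * W * W) * 3 ≤ K ^ ((1 : ℝ) / 1000) ∧
      K ^ C < Real.exp (K ^ ((1 : ℝ) / 1000)) ∧
      K ^ ((1 : ℝ) / 1000) < Real.exp (K ^ ((1 : ℝ) / 1000)) ∧
      K ^ C < Real.exp (K ^ ((1 : ℝ) / 45)) ∧ 4 ≤ Real.exp (K ^ ((1 : ℝ) / 45)) ∧
      3 + 8 / η ≤ Real.exp (K ^ ((1 : ℝ) / 45)) ∧ Real.exp (K ^ ((1 : ℝ) / 45)) ≤ Real.exp (K ^ ((1 : ℝ) / 40)) := by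
    have h1 : ∀ᶠ K : ℝ in atTop, 6 * (W : ℝ) * W ≤ K ^ ((1 : ℝ) / 2000) :=
      (tendsto_rpow_atTop (by norm_num)).eventually (eventually_ge_atTop _)
    have h2 : ∀ᶠ K : ℝ in atTop, max 4 (3 + 8 / η) ≤ K ^ ((1 : ℝ) / 45) :=
      (tendsto_rpow_atTop (by norm_num)).eventually (eventually_ge_atTop _)
    filter_upwards [eventually_ge_atTop K₀, eventually_ge_atTop (2 : ℝ), eventually_ge_atTop (W : ℝ), h1,
      hpow C (1 / 1000) (by norm_num), hpow (1 / 1000) (1 / 1000) (by norm_num),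
      hpow C (1 / 45) (by norm_num), h2] with K g1 g2 g3 g4 g5 g6 g7 g8
    have hK0 : 0 < K := by linarith
    have g9 := Real.add_one_le_exp (K ^ ((1 : ℝ) / 45))
    refine ⟨g1, g2, g3, ?_, g5, g6, g7, ?_, ?_, ?_⟩
    · have h3 : K ^ ((1 : ℝ) / 1000) = K ^ ((1 : ℝ) / 2000) * K ^ ((1 : ℝ) / 2000) := by
        rw [← Real.rpow_add hK0]
        norm_num
      rw [h3]
      have h4 : 0 ≤ K ^ ((1 : ℝ) / 2000) := by positivity
      have h5 := mul_le_mul_of_nonneg_left g4 h4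
      linarith
    · have := le_max_left 4 (3 + 8 / η)
      linarith
    · have := le_max_right 4 (3 + 8 / η)
      linarith
    · rw [Real.exp_le_exp]
      exact Real.rpow_le_rpow_of_exponent_le (by linarith) (by norm_num)
  have hlogN : Tendsto (fun N : ℕ => Real.log (N : ℝ)) atTop atTop :=
    Real.tendsto_log_atTop.comp tendsto_natCast_atTop_atTop
  obtain ⟨N0, hN0⟩ := eventually_atTop.mp (hlogN.eventually hev)
  refine ⟨N0, fun N hN => ?_⟩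
  obtain ⟨g1, g2, g3, g4, g5, g6, g7, g8, g9, g10⟩ := hN0 N hN
  set K := Real.log (N : ℝ) with hK
  have hK0 : 0 < K := by linarith
  have htJ : (tJ N : ℝ) ≤ K ^ ((1 : ℝ) / 2000) := Nat.floor_le (by positivity)
  have hW0 : (0 : ℝ) ≤ W := Nat.cast_nonneg W
  have htJ1 : 1 ≤ tJ N := by
    unfold tJ
    rw [Nat.one_le_floor_iff]
    exact Real.one_le_rpow (by linarith) (by norm_num)
  have hLL : Real.exp (K ^ ((1 : ℝ) / 40)) - 1 < LL N := by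
    unfold LL
    have := Nat.lt_floor_add_one (Real.exp ((Real.log N) ^ ((1 : ℝ) / 40)))
    rw [← hK] at this ⊢
    linarith
  obtain ⟨x, hx⟩ : ∃ x : ℝ, x = Real.exp (K ^ ((1 : ℝ) / 45)) := ⟨_, rfl⟩
  rw [← hx] at g7 g8 g9 g10
  have hLL2 : x / 2 < LL N := by linarith
  refine ⟨g1, g2, htJ1, g3, ?_, ?_, g5, ?_, ?_⟩
  · have : (1 : ℝ) < LL N := by linarith
    exact_mod_cast this.le
  · refine le_trans ?_ g4
    gcongr
  · have h1 : (2 * (tJ N : ℝ) * W * W) * 3 ≤ K ^ ((1 : ℝ) / 1000) := by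
      refine le_trans ?_ g4
      gcongr
    rcases Nat.eq_zero_or_pos W with h2 | h2
    · rw [h2]
      simp only [Nat.cast_zero, mul_zero]
      exact Real.exp_pos _
    · have h3 : (1 : ℝ) ≤ W := by exact_mod_cast h2
      have h4 : 0 ≤ 2 * (tJ N : ℝ) * W := by positivity
      have h5 : 2 * (tJ N : ℝ) * W ≤ (2 * (tJ N : ℝ) * W * W) * 3 := by nlinarith
      linarith
  · rw [← hx]
    have hx4 : 4 ≤ x := g8
    have h1 : (x + 3 + 8 / η) * K ^ C ≤ (2 * x) * x := by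
      refine mul_le_mul (by linarith) g7.le (by positivity) (by positivity)
    refine h1.trans ?_
    -- `(x/2)^5 ≥ 2 x²` for `x ≥ 4`
    have h2 : (x / 2) ^ 5 ≤ (LL N : ℝ) ^ 5 := pow_le_pow_left₀ (by positivity) hLL2.le 5
    refine le_trans ?_ h2
    have h3 : (x / 2) ^ 5 = x ^ 2 * (x ^ 3 / 32) := by ring
    have h4 : (4 : ℝ) ^ 3 ≤ x ^ 3 := pow_le_pow_left₀ (by norm_num) hx4 3
    rw [h3]
    have h5 : 0 ≤ x ^ 2 := sq_nonneg x
    nlinarith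

end Pool.Agent.Lib.OW
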