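import Pool.Agent.Lib.MP_7b7e48_nt.OW.MTG

/-!
# Linked pairs in a weighted family

Let `(X i, Y i)` be pairs of integers with weights `w i`. If for all sets `A`, `B` of primes of the range `R` the mass of the pairs
with `R`-prime divisors exactly `A` and `B` is at most `M` times the probability of `(A, B)` in the independent model, then the mass of
the pairs without link is at most `M η`. A link is a pair `α ∣ X`, `β ∣ Y` of coprime squarefree numbers composed of primes of `R` with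
`1 < α / β < e^(2 δ)` and `α ≡ ρ β` modulo `Q`.
-/

set_option autoImplicit false

open Finset Filter Topology

namespace Pool.Agent.Lib.OW

/-- a link of `X` and `Y` -/
def Lnk (Q : ℕ) (δ : ℝ) (ρ : (ZMod Q)ˣ) (R : Finset ℕ) (X Y : ℕ) : Prop :=
  ∃ α β : ℕ, α ∣ X ∧ β ∣ Y ∧ α.Coprime β ∧ Squarefree α ∧ Squarefree β ∧
    (∀ p : ℕ, p.Prime → p ∣ α * β → p ∈ R) ∧ 0 < β ∧ β < α ∧ (α : ℝ) < Real.exp (2 * δ) * β ∧
    (α : ZMod Q) = (ρ : ZMod Q) * (β : ZMod Q)

/-- the primes of colour `c` in `T` -/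
noncomputable def col (T : Finset (ℕ × Bool)) (c : Bool) : Finset ℕ := (T.filter fun ω => ω.2 = c).image Prod.fst

theorem mem_col {T : Finset (ℕ × Bool)} {c : Bool} {p : ℕ} : p ∈ col T c ↔ (p, c) ∈ T := by
  unfold col
  rw [mem_image]
  constructor
  · rintro ⟨⟨q, c'⟩, h1, h2⟩
    rw [mem_filter] at h1
    obtain ⟨h3, h4⟩ := h1
    simp only at h2 h4
    rw [← h2, ← h4]
    exact h3
  · intro h
    exact ⟨(p, c), mem_filter.mpr ⟨h, rfl⟩, rfl⟩

theorem col_eq (T : Finset (ℕ × Bool)) :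
    T = (col T false ×ˢ ({false} : Finset Bool)) ∪ (col T true ×ˢ ({true} : Finset Bool)) := by
  ext ⟨p, c⟩
  rw [mem_union, mem_product, mem_product, mem_singleton, mem_singleton, mem_col, mem_col]
  cases c <;> simp

theorem col_disj (A B : Finset ℕ) :
    Disjoint (A ×ˢ ({false} : Finset Bool)) (B ×ˢ ({true} : Finset Bool)) := by
  rw [disjoint_left]
  rintro ⟨p, c⟩ h1 h2
  rw [mem_product, mem_singleton] at h1 h2
  rw [h1.2] at h2
  exact absurd h2.2 (by decide)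

theorem prod_col {M : Type*} [CommMonoid M] (T : Finset (ℕ × Bool)) (F : ℕ × Bool → M) :
    ∏ ω ∈ T, F ω = (∏ p ∈ col T false, F (p, false)) * ∏ p ∈ col T true, F (p, true) := by
  conv_lhs => rw [col_eq T]
  rw [prod_union (col_disj _ _), prod_product, prod_product]
  congr 1
  · exact prod_congr rfl fun p _ => by rw [prod_singleton]
  · exact prod_congr rfl fun p _ => by rw [prod_singleton]

theorem sum_col {M : Type*} [AddCommMonoid M] (T : Finset (ℕ × Bool)) (F : ℕ × Bool → M) :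
    ∑ ω ∈ T, F ω = (∑ p ∈ col T false, F (p, false)) + ∑ p ∈ col T true, F (p, true) := by
  conv_lhs => rw [col_eq T]
  rw [sum_union (col_disj _ _), sum_product, sum_product]
  congr 1
  · exact sum_congr rfl fun p _ => by rw [sum_singleton]
  · exact sum_congr rfl fun p _ => by rw [sum_singleton]

theorem sqf_prod {A : Finset ℕ} (hA : ∀ p ∈ A, p.Prime) : Squarefree (∏ p ∈ A, p) := by
  refine Finset.squarefree_prod_of_pairwise_isCoprime (fun p hp q hq hpq => ?_) fun p hp => ?_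
  · rw [Function.onFun, ← Nat.coprime_iff_isRelPrime, Nat.coprime_primes (hA p hp) (hA q hq)]
    exact hpq
  · exact (hA p hp).squarefree

/-- a success is a link -/
theorem lnk_of_suc {Q : ℕ} (hQ1 : 1 ≤ Q) {δ u₀ u₁ : ℝ} (hQ : (Q : ℝ) ≤ Real.exp u₀) (ρ : (ZMod Q)ˣ) {T : Finset (ℕ × Bool)}
    (hT : T ⊆ BL u₀ u₁) {X Y : ℕ} (hX : ∀ p, (p, false) ∈ T → p ∣ X) (hY : ∀ p, (p, true) ∈ T → p ∣ Y)
    (hs : Suc hh (gg Q) δ ρ T) : Lnk Q δ ρ (PR u₀ u₁) X Y := by
  obtain ⟨U, hU, h1, h2, h3⟩ := hs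
  set A := col U false with hA
  set B := col U true with hB
  have hmemT : ∀ p c, p ∈ col U c → (p, c) ∈ T := fun p c h => hU (mem_col.mp h)
  have hpr : ∀ c, ∀ p ∈ col U c, p ∈ PR u₀ u₁ := by
    intro c p hp
    have := mem_BL.mp (hT (hmemT p c hp))
    exact this
  have hprime : ∀ c, ∀ p ∈ col U c, p.Prime := fun c p hp => (mem_PR.mp (hpr c p hp)).1
  have hlog0 : ∀ c, ∀ p ∈ col U c, (p : ℝ) ≠ 0 := fun c p hp => by exact_mod_cast (hprime c p hp).ne_zero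
  -- the real component
  have hv1 : (vs hh (gg Q) U).1 = ∑ p ∈ A \ B, Real.log p - ∑ p ∈ B \ A, Real.log p := by
    unfold vs
    simp only
    rw [sum_col U hh]
    have e1 : ∑ p ∈ col U false, hh (p, false) = ∑ p ∈ A, Real.log p := sum_congr rfl fun p _ => by simp [hh]
    have e2 : ∑ p ∈ col U true, hh (p, true) = -∑ p ∈ B, Real.log p := by
      rw [← sum_neg_distrib]
      exact sum_congr rfl fun p _ => by simp [hh]
    rw [e1, e2]
    have e3 := sum_inter_add_sum_sdiff A B (fun p : ℕ => Real.log p)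
    have e4 := sum_inter_add_sum_sdiff B A (fun p : ℕ => Real.log p)
    rw [inter_comm] at e4
    linarith
  have hv2 : (vs hh (gg Q) U).2 * ∏ p ∈ B \ A, cls Q p = ∏ p ∈ A \ B, cls Q p := by
    unfold vs
    simp only
    rw [prod_col U (gg Q)]
    have e1 : ∏ p ∈ col U false, gg Q (p, false) = ∏ p ∈ A, cls Q p := prod_congr rfl fun p _ => by simp [gg]
    have e2 : ∏ p ∈ col U true, gg Q (p, true) = (∏ p ∈ B, cls Q p)⁻¹ := by
      rw [← prod_inv_distrib]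
      exact prod_congr rfl fun p _ => by simp [gg]
    rw [e1, e2]
    have e3 := prod_inter_mul_prod_sdiff A B (fun p : ℕ => cls Q p)
    have e4 := prod_inter_mul_prod_sdiff B A (fun p : ℕ => cls Q p)
    rw [inter_comm] at e4
    rw [← e3, ← e4]
    have e5 : ∀ a b c : (ZMod Q)ˣ, a * b * (a * c)⁻¹ * c = b := by
      intro a b c
      rw [mul_inv, mul_comm a b, mul_assoc b a, mul_inv_cancel_left, inv_mul_cancel_right]
    exact e5 _ _ _
  set α := ∏ p ∈ A \ B, p with hα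
  set β := ∏ p ∈ B \ A, p with hβ
  have hAp : ∀ p ∈ A \ B, p.Prime := fun p hp => hprime _ p (mem_sdiff.mp hp).1
  have hBp : ∀ p ∈ B \ A, p.Prime := fun p hp => hprime _ p (mem_sdiff.mp hp).1
  have hα0 : 0 < α := prod_pos fun p hp => (hAp p hp).pos
  have hβ0 : 0 < β := prod_pos fun p hp => (hBp p hp).pos
  have hlα : Real.log α = ∑ p ∈ A \ B, Real.log p := by
    rw [hα, Nat.cast_prod, Real.log_prod]
    intro p hp
    exact_mod_cast (hAp p hp).ne_zero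
  have hlβ : Real.log β = ∑ p ∈ B \ A, Real.log p := by
    rw [hβ, Nat.cast_prod, Real.log_prod]
    intro p hp
    exact_mod_cast (hBp p hp).ne_zero
  rw [hv1, ← hlα, ← hlβ] at h1 h2
  have hαr : (0 : ℝ) < α := by exact_mod_cast hα0
  have hβr : (0 : ℝ) < β := by exact_mod_cast hβ0
  have hcop : ∀ c, ∀ p ∈ col U c, p.Coprime Q := by
    intro c p hp
    have hpp := hprime c p hp
    have h4 := (mem_PR.mp (hpr c p hp)).2.1
    rw [Nat.Prime.coprime_iff_not_dvd hpp]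
    intro hd
    have h6 := Nat.le_of_dvd hQ1 hd
    have h7 : (p : ℝ) ≤ Q := by exact_mod_cast h6
    linarith
  have hcls : ∀ c, ∀ p ∈ col U c, ((cls Q p : (ZMod Q)ˣ) : ZMod Q) = (p : ZMod Q) := by
    intro c p hp
    unfold cls
    rw [dif_pos (hcop c p hp), ZMod.coe_unitOfCoprime]
  refine ⟨α, β, ?_, ?_, ?_, ?_, ?_, ?_, hβ0, ?_, ?_, ?_⟩
  · refine prod_primes_dvd X (fun p hp => (hAp p hp).prime) fun p hp => ?_
    exact hX p (hmemT p false (mem_sdiff.mp hp).1)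
  · refine prod_primes_dvd Y (fun p hp => (hBp p hp).prime) fun p hp => ?_
    exact hY p (hmemT p true (mem_sdiff.mp hp).1)
  · rw [hα, hβ]
    refine Nat.Coprime.prod_left fun p hp => Nat.Coprime.prod_right fun q hq => ?_
    rw [Nat.coprime_primes (hAp p hp) (hBp q hq)]
    intro h
    rw [h] at hp
    exact (mem_sdiff.mp hp).2 (mem_sdiff.mp hq).1
  · rw [hα]
    exact sqf_prod hAp
  · rw [hβ]
    exact sqf_prod hBp
  · intro p hp hd
    rcases (Nat.Prime.dvd_mul hp).mp hd with h4 | h4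
    · rw [hα, Prime.dvd_finset_prod_iff hp.prime] at h4
      obtain ⟨q, hq, h5⟩ := h4
      rw [Nat.prime_dvd_prime_iff_eq hp (hAp q hq)] at h5
      rw [h5]
      exact hpr false q (mem_sdiff.mp hq).1
    · rw [hβ, Prime.dvd_finset_prod_iff hp.prime] at h4
      obtain ⟨q, hq, h5⟩ := h4
      rw [Nat.prime_dvd_prime_iff_eq hp (hBp q hq)] at h5
      rw [h5]
      exact hpr true q (mem_sdiff.mp hq).1
  · have h4 : Real.log β < Real.log α := by linarith
    have h5 := (Real.log_lt_log_iff hβr hαr).mp h4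
    exact_mod_cast h5
  · rw [← Real.log_lt_log_iff hαr (by positivity), Real.log_mul (Real.exp_pos _).ne' hβr.ne', Real.log_exp]
    linarith
  · rw [h3] at hv2
    have h4 := congrArg (fun z : (ZMod Q)ˣ => (z : ZMod Q)) hv2
    simp only [Units.val_mul, Units.coe_prod] at h4
    rw [prod_congr rfl (fun p hp => hcls true p (mem_sdiff.mp hp).1),
      prod_congr rfl (fun p hp => hcls false p (mem_sdiff.mp hp).1)] at h4
    rw [hα, hβ, Nat.cast_prod, Nat.cast_prod]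
    exact h4.symm

/-- the probability of a pair of sets in the independent model -/
noncomputable def mdl (R A B : Finset ℕ) : ℝ :=
  (∏ p ∈ A, 1 / (p : ℝ)) * (∏ p ∈ B, 1 / (p : ℝ)) * (∏ p ∈ R, (1 + 1 / (p : ℝ))⁻¹) ^ 2

theorem weight_eq {u₀ u₁ : ℝ} {T : Finset (ℕ × Bool)} (hT : T ⊆ BL u₀ u₁) :
    (∏ ω ∈ T, xx ω) * ∏ ω ∈ BL u₀ u₁ \ T, (1 - xx ω) = mdl (PR u₀ u₁) (col T false) (col T true) := by
  have hp0 : ∀ ω ∈ BL u₀ u₁, (0 : ℝ) < ω.1 := by
    intro ω hω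
    exact_mod_cast (mem_PR.mp (mem_BL.mp hω)).1.pos
  have h1 : ∏ ω ∈ T, xx ω = (∏ ω ∈ T, 1 / (ω.1 : ℝ)) * ∏ ω ∈ T, (1 - xx ω) := by
    rw [← prod_mul_distrib]
    refine prod_congr rfl fun ω hω => ?_
    have := hp0 ω (hT hω)
    unfold xx
    field_simp
    ring
  have h2 : ∏ ω ∈ BL u₀ u₁, (1 - xx ω) = (∏ p ∈ PR u₀ u₁, (1 + 1 / (p : ℝ))⁻¹) ^ 2 := by
    have h3 : ∏ ω ∈ BL u₀ u₁, (1 - xx ω) = ∏ ω ∈ BL u₀ u₁, (1 + 1 / (ω.1 : ℝ))⁻¹ := by
      refine prod_congr rfl fun ω hω => ?_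
      have := hp0 ω hω
      unfold xx
      field_simp
      ring
    rw [h3]
    unfold BL
    rw [prod_product, ← prod_pow]
    refine prod_congr rfl fun p _ => ?_
    simp
  have h4 := prod_sdiff (f := fun ω => 1 - xx ω) hT
  rw [h1, mul_assoc, mul_comm (∏ ω ∈ T, (1 - xx ω)), h4, h2, prod_col T]
  rfl

open Classical in
/-- **linked pairs in a weighted family** -/
theorem linked_mass (k : ℕ) {η : ℝ} (hη : 0 < η) : ∃ C : ℝ, 2 ≤ C ∧ ∀ (Q : ℕ) (δ u₀ u₁ : ℝ), 1 ≤ Q →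
    0 < δ → δ ≤ 1 → C ≤ u₀ → (Q : ℝ) ^ 2 / δ ≤ u₀ ^ k → C * ((Q : ℝ) * u₀ / δ) ^ 7 * u₀ ≤ u₁ →
    ∀ (ρ : (ZMod Q)ˣ) {ι : Type} (I : Finset ι) (w : ι → ℝ) (X Y : ι → ℕ) (M : ℝ),
      (∀ i ∈ I, 0 ≤ w i) → 0 ≤ M →
      (∀ A B : Finset ℕ, A ⊆ PR u₀ u₁ → B ⊆ PR u₀ u₁ →
        ∑ i ∈ I with ((PR u₀ u₁).filter (· ∣ X i) = A ∧ (PR u₀ u₁).filter (· ∣ Y i) = B), w i ≤
          M * mdl (PR u₀ u₁) A B) →
      ∑ i ∈ I with ¬ Lnk Q δ ρ (PR u₀ u₁) (X i) (Y i), w i ≤ M * η := by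
  obtain ⟨C1, hC1, h1⟩ := model k hη
  obtain ⟨C2, hC2, h2⟩ := scale_ok k
  refine ⟨max C1 C2, le_trans hC1 (le_max_left _ _), ?_⟩
  intro Q δ u₀ u₁ hQ hδ hδ1 hu hk hu₁ ρ ι I w X Y M hw hM hH
  have hs := h2 Q δ u₀ hQ hδ hδ1 ((le_max_right _ _).trans hu) hk
  have hu2 := hs.hu
  have hmod := h1 Q δ u₀ u₁ hQ hδ hδ1 ((le_max_left _ _).trans hu) hk (le_trans (by
    refine mul_le_mul_of_nonneg_right (mul_le_mul_of_nonneg_right (le_max_left _ _) ?_) (by linarith)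
    positivity) hu₁) ρ
  -- the set of an index
  obtain ⟨TT, hTT⟩ : ∃ TT : ι → Finset (ℕ × Bool), TT = fun i =>
      (BL u₀ u₁).filter fun ω => ω.1 ∣ (if ω.2 then Y i else X i) := ⟨_, rfl⟩
  have hTTsub : ∀ i, TT i ⊆ BL u₀ u₁ := by
    intro i
    rw [hTT]
    exact filter_subset _ _
  have hcol0 : ∀ i, col (TT i) false = (PR u₀ u₁).filter (· ∣ X i) := by
    intro i
    ext p
    rw [mem_col, hTT, mem_filter, mem_filter, mem_BL]
    simp
  have hcol1 : ∀ i, col (TT i) true = (PR u₀ u₁).filter (· ∣ Y i) := by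
    intro i
    ext p
    rw [mem_col, hTT, mem_filter, mem_filter, mem_BL]
    simp
  have hstep : ∑ i ∈ I with ¬ Lnk Q δ ρ (PR u₀ u₁) (X i) (Y i), w i ≤
      ∑ i ∈ I, w i * ind (¬ Suc hh (gg Q) δ ρ (TT i)) := by
    rw [sum_filter]
    refine sum_le_sum fun i hi => ?_
    by_cases hl : Lnk Q δ ρ (PR u₀ u₁) (X i) (Y i)
    · rw [if_neg (not_not.mpr hl)]
      exact mul_nonneg (hw i hi) (ind_nonneg _)
    · rw [if_pos hl]
      have : ¬ Suc hh (gg Q) δ ρ (TT i) := by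
        intro hsuc
        apply hl
        refine lnk_of_suc hQ hs.qe ρ (hTTsub i) ?_ ?_ hsuc
        · intro p hp
          rw [hTT, mem_filter] at hp
          simpa using hp.2
        · intro p hp
          rw [hTT, mem_filter] at hp
          simpa using hp.2
      rw [ind_true this, mul_one]
  refine hstep.trans ?_
  -- fiberwise
  have hfib : ∑ i ∈ I, w i * ind (¬ Suc hh (gg Q) δ ρ (TT i)) =
      ∑ T ∈ (BL u₀ u₁).powerset, ∑ i ∈ I with TT i = T, w i * ind (¬ Suc hh (gg Q) δ ρ (TT i)) := by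
    rw [sum_fiberwise_of_maps_to]
    intro i _
    exact mem_powerset.mpr (hTTsub i)
  rw [hfib]
  have hT : ∀ T ∈ (BL u₀ u₁).powerset, ∑ i ∈ I with TT i = T, w i * ind (¬ Suc hh (gg Q) δ ρ (TT i)) ≤
      M * (((∏ ω ∈ T, xx ω) * ∏ ω ∈ BL u₀ u₁ \ T, (1 - xx ω)) * ind (¬ Suc hh (gg Q) δ ρ T)) := by
    intro T hT
    have hT' := mem_powerset.mp hT
    have e1 : ∑ i ∈ I with TT i = T, w i * ind (¬ Suc hh (gg Q) δ ρ (TT i)) =
        (∑ i ∈ I with TT i = T, w i) * ind (¬ Suc hh (gg Q) δ ρ T) := by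
      rw [sum_mul]
      refine sum_congr rfl fun i hi => ?_
      rw [(mem_filter.mp hi).2]
    rw [e1, ← mul_assoc]
    refine mul_le_mul_of_nonneg_right ?_ (ind_nonneg _)
    rw [weight_eq hT']
    refine le_trans (le_of_eq ?_) (hH (col T false) (col T true) ?_ ?_)
    · refine sum_congr ?_ fun _ _ => rfl
      ext i
      rw [mem_filter, mem_filter]
      refine and_congr_right fun _ => ?_
      rw [← hcol0, ← hcol1]
      constructor
      · intro h
        rw [h]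
        exact ⟨rfl, rfl⟩
      · rintro ⟨h3, h4⟩
        rw [col_eq (TT i), col_eq T, h3, h4]
    · intro p hp
      exact mem_BL.mp (hT' (mem_col.mp hp))
    · intro p hp
      exact mem_BL.mp (hT' (mem_col.mp hp))
  refine (sum_le_sum hT).trans ?_
  rw [← mul_sum]
  exact mul_le_mul_of_nonneg_left hmod hM

open Classical in
/-- linked pairs in a weighted family, ranges `K^a < log p ≤ K^b` -/
theorem linked_mass_K {a b d η : ℝ} (ha : 0 < a) (hd : 0 ≤ d) (hb : 8 * a + 7 * d < b) (hη : 0 < η) :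
    ∃ K₀ : ℝ, 1 ≤ K₀ ∧ ∀ K : ℝ, K₀ ≤ K → ∀ (Q : ℕ) (δ : ℝ), 1 ≤ Q → 0 < δ → δ ≤ 1 → (Q : ℝ) / δ ≤ K ^ d →
    ∀ (ρ : (ZMod Q)ˣ) {ι : Type} (I : Finset ι) (w : ι → ℝ) (X Y : ι → ℕ) (M : ℝ),
      (∀ i ∈ I, 0 ≤ w i) → 0 ≤ M →
      (∀ A B : Finset ℕ, A ⊆ PR (K ^ a) (K ^ b) → B ⊆ PR (K ^ a) (K ^ b) →
        ∑ i ∈ I with ((PR (K ^ a) (K ^ b)).filter (· ∣ X i) = A ∧
          (PR (K ^ a) (K ^ b)).filter (· ∣ Y i) = B), w i ≤ M * mdl (PR (K ^ a) (K ^ b)) A B) →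
      ∑ i ∈ I with ¬ Lnk Q δ ρ (PR (K ^ a) (K ^ b)) (X i) (Y i), w i ≤ M * η := by
  obtain ⟨k, hk⟩ : ∃ k : ℕ, 2 * d / a ≤ k := exists_nat_ge _
  obtain ⟨C, hC, h1⟩ := linked_mass k hη
  have he : 0 < b - (8 * a + 7 * d) := by linarith
  have h2 := (tendsto_rpow_atTop ha).eventually (eventually_ge_atTop C)
  have h3 := (tendsto_rpow_atTop he).eventually (eventually_ge_atTop C)
  obtain ⟨K₀, hK₀⟩ := eventually_atTop.mp (h2.and h3)
  refine ⟨max K₀ 1, le_max_right _ _, ?_⟩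
  intro K hK Q δ hQ hδ hδ1 hQK ρ ι I w X Y M hw hM hH
  obtain ⟨h4, h5⟩ := hK₀ K ((le_max_left _ _).trans hK)
  have hK1 : 1 ≤ K := (le_max_right _ _).trans hK
  have hK0 : 0 < K := by linarith
  have hQ1 : (1 : ℝ) ≤ Q := by exact_mod_cast hQ
  have hQd : 0 ≤ (Q : ℝ) / δ := by positivity
  refine h1 Q δ (K ^ a) (K ^ b) hQ hδ hδ1 h4 ?_ ?_ ρ I w X Y M hw hM hH
  · calc (Q : ℝ) ^ 2 / δ ≤ ((Q : ℝ) / δ) ^ 2 := by
          rw [div_pow]
          refine div_le_div_of_nonneg_left (by positivity) (by positivity) ?_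
          nlinarith
      _ ≤ (K ^ d) ^ 2 := pow_le_pow_left₀ hQd hQK 2
      _ = K ^ (d * 2) := by
          rw [← Real.rpow_natCast, ← Real.rpow_mul hK0.le]
          norm_num
      _ ≤ K ^ (a * k) := by
          refine Real.rpow_le_rpow_of_exponent_le hK1 ?_
          rw [div_le_iff₀ ha] at hk
          linarith
      _ = (K ^ a) ^ k := by
          rw [Real.rpow_mul hK0.le, Real.rpow_natCast]
  · calc C * ((Q : ℝ) * K ^ a / δ) ^ 7 * K ^ a = C * (((Q : ℝ) / δ) ^ 7 * (K ^ a) ^ 8) := by ring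
      _ ≤ K ^ (b - (8 * a + 7 * d)) * ((K ^ d) ^ 7 * (K ^ a) ^ 8) := by
          refine mul_le_mul h5 ?_ (by positivity) (by positivity)
          exact mul_le_mul_of_nonneg_right (pow_le_pow_left₀ hQd hQK 7) (by positivity)
      _ = K ^ b := by
          rw [← Real.rpow_natCast (K ^ d), ← Real.rpow_natCast (K ^ a), ← Real.rpow_mul hK0.le,
            ← Real.rpow_mul hK0.le, ← Real.rpow_add hK0, ← Real.rpow_add hK0]
          congr 1
          push_cast
          ring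

end Pool.Agent.Lib.OW
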