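import Pool.Agent.Lib.MP_7b7e48_nt.OW.MTE

/-!
# The energy of the subset sums of a random set

`En T` is the probability that two random subsets `U, U'` of `T` have subset sums in `ℝ × G` which differ by at most `δ` (real
component) and `0` (component in `G`). `Qn Sg T` is the same with the condition that `U` and `U'` are different on `Sg`.
Recursion: `En (T₁ ∪ T₂) = Qn Sg (T₁ ∪ T₂) + 2^(-|T₂|) En T₁` for `T₂ ⊆ Sg`, `T₁` disjoint from `Sg`.
The mean of `Qn` is at most `m` if every cell contains mass at most `m` of `Sg`.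
-/

set_option autoImplicit false

open Finset

namespace Pool.Agent.Lib.OW

variable {Ω : Type*} [DecidableEq Ω] {G : Type*} [CommGroup G]

theorem sqrt_add_le' {a b : ℝ} (ha : 0 ≤ a) (hb : 0 ≤ b) :
    Real.sqrt (a + b) ≤ Real.sqrt a + Real.sqrt b := by
  rw [Real.sqrt_le_left (by positivity)]
  have h1 := Real.sq_sqrt ha
  have h2 := Real.sq_sqrt hb
  have h3 := mul_nonneg (Real.sqrt_nonneg a) (Real.sqrt_nonneg b)
  nlinarith

/-- the uniform weights -/
noncomputable def hf : Ω → ℝ := fun _ => 1 / 2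

open Classical in
/-- indicator function of a proposition -/
noncomputable def ind (p : Prop) : ℝ := if p then 1 else 0

theorem ind_nonneg (p : Prop) : 0 ≤ ind p := by
  unfold ind; split_ifs <;> norm_num

theorem ind_le_one (p : Prop) : ind p ≤ 1 := by
  unfold ind; split_ifs <;> norm_num

theorem ind_mono {p q : Prop} (h : p → q) : ind p ≤ ind q := by
  unfold ind
  by_cases hp : p
  · rw [if_pos hp, if_pos (h hp)]
  · rw [if_neg hp]; split_ifs <;> norm_num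

theorem ind_congr {p q : Prop} (h : p ↔ q) : ind p = ind q := by
  rw [propext h]

theorem ind_true {p : Prop} (h : p) : ind p = 1 := by
  unfold ind; rw [if_pos h]

theorem ind_false {p : Prop} (h : ¬ p) : ind p = 0 := by
  unfold ind; rw [if_neg h]

omit [DecidableEq Ω] in
theorem hf0 (S : Finset Ω) : ∀ ω ∈ S, 0 ≤ hf ω := fun _ _ => by unfold hf; norm_num

omit [DecidableEq Ω] in
theorem hf1 (S : Finset Ω) : ∀ ω ∈ S, hf ω ≤ 1 := fun _ _ => by unfold hf; norm_num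

/-- coincidence of two elements of `ℝ × G` -/
def CoE (δ : ℝ) (a b : ℝ × G) : Prop := |a.1 - b.1| ≤ δ ∧ a.2 = b.2

/-- subset sum -/
noncomputable def vs (h : Ω → ℝ) (g : Ω → G) (U : Finset Ω) : ℝ × G := (∑ ω ∈ U, h ω, ∏ ω ∈ U, g ω)

/-- the energy -/
noncomputable def En (h : Ω → ℝ) (g : Ω → G) (δ : ℝ) (T : Finset Ω) : ℝ :=
  Ew hf T (fun U => Ew hf T (fun U' => ind (CoE δ (vs h g U) (vs h g U'))))

/-- the part of the energy of the pairs which are different on `Sg` -/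
noncomputable def Qn (h : Ω → ℝ) (g : Ω → G) (δ : ℝ) (Sg T : Finset Ω) : ℝ :=
  Ew hf T (fun U => Ew hf T (fun U' => ind (U ∩ Sg ≠ U' ∩ Sg ∧ CoE δ (vs h g U) (vs h g U'))))

theorem En_nonneg (h : Ω → ℝ) (g : Ω → G) (δ : ℝ) (T : Finset Ω) : 0 ≤ En h g δ T :=
  Ew_nonneg (hf0 T) (hf1 T) fun _ _ => Ew_nonneg (hf0 T) (hf1 T) fun _ _ => ind_nonneg _

theorem En_le_one (h : Ω → ℝ) (g : Ω → G) (δ : ℝ) (T : Finset Ω) : En h g δ T ≤ 1 := by
  unfold En
  rw [← Ew_const hf T 1]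
  refine Ew_mono (hf0 T) (hf1 T) fun U _ => ?_
  rw [← Ew_const hf T 1]
  exact Ew_mono (hf0 T) (hf1 T) fun U' _ => ind_le_one _

theorem Qn_nonneg (h : Ω → ℝ) (g : Ω → G) (δ : ℝ) (Sg T : Finset Ω) : 0 ≤ Qn h g δ Sg T :=
  Ew_nonneg (hf0 T) (hf1 T) fun _ _ => Ew_nonneg (hf0 T) (hf1 T) fun _ _ => ind_nonneg _

theorem vs_union (h : Ω → ℝ) (g : Ω → G) {U V : Finset Ω} (hd : Disjoint U V) :
    vs h g (U ∪ V) = ((vs h g U).1 + (vs h g V).1, (vs h g U).2 * (vs h g V).2) := by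
  unfold vs
  rw [sum_union hd, prod_union hd]

theorem vs_insert (h : Ω → ℝ) (g : Ω → G) {U : Finset Ω} {ω : Ω} (hω : ω ∉ U) :
    vs h g (insert ω U) = ((vs h g U).1 + h ω, (vs h g U).2 * g ω) := by
  unfold vs
  rw [sum_insert hω, prod_insert hω]
  simp only [Prod.mk.injEq]
  exact ⟨add_comm _ _, mul_comm _ _⟩

theorem Ew_single (T V : Finset Ω) (hV : V ⊆ T) (c : ℝ) :
    Ew hf T (fun V' => ind (V = V') * c) = (1 / 2) ^ T.card * c := by
  unfold Ew
  rw [Finset.sum_eq_single V]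
  · dsimp only
    rw [ind_true rfl, one_mul]
    congr 1
    unfold hf
    rw [prod_const, prod_const]
    norm_num
    rw [← pow_add]
    congr 1
    have := card_sdiff_add_card_eq_card hV
    omega
  · intro V' _ hne
    dsimp only
    rw [ind_false (fun h : V = V' => hne h.symm)]
    ring
  · intro h
    exact absurd (mem_powerset.mpr hV) h

/-- the recursion -/
theorem En_union (h : Ω → ℝ) (g : Ω → G) (δ : ℝ) {T₁ T₂ Sg : Finset Ω} (h1 : Disjoint T₁ Sg)
    (h2 : T₂ ⊆ Sg) : En h g δ (T₁ ∪ T₂) = Qn h g δ Sg (T₁ ∪ T₂) + (1 / 2) ^ T₂.card * En h g δ T₁ := by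
  have hd : Disjoint T₁ T₂ := disjoint_of_subset_right h2 h1
  -- split the indicator
  have hsplit : En h g δ (T₁ ∪ T₂) = Qn h g δ Sg (T₁ ∪ T₂) +
      Ew hf (T₁ ∪ T₂) (fun U => Ew hf (T₁ ∪ T₂) (fun U' =>
        ind (U ∩ Sg = U' ∩ Sg ∧ CoE δ (vs h g U) (vs h g U')))) := by
    unfold En Qn
    rw [← Ew_add]
    refine Ew_congr hf _ fun U _ => ?_
    rw [← Ew_add]
    refine Ew_congr hf _ fun U' _ => ?_
    by_cases hc : CoE δ (vs h g U) (vs h g U')
    · by_cases he : U ∩ Sg = U' ∩ Sg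
      · rw [ind_true hc, ind_false (fun hh => hh.1 he), ind_true ⟨he, hc⟩]; ring
      · rw [ind_true hc, ind_true ⟨he, hc⟩, ind_false (fun hh => he hh.1)]; ring
    · rw [ind_false hc, ind_false (fun hh => hc hh.2), ind_false (fun hh => hc hh.2)]; ring
  rw [hsplit]
  congr 1
  rw [Ew_union hf T₁ T₂ hd]
  unfold En
  rw [← Ew_smul]
  refine Ew_congr hf _ fun U₁ hU₁ => ?_
  have key : ∀ V ⊆ T₂, Ew hf (T₁ ∪ T₂) (fun U' =>
      ind ((U₁ ∪ V) ∩ Sg = U' ∩ Sg ∧ CoE δ (vs h g (U₁ ∪ V)) (vs h g U'))) =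
      (1 / 2) ^ T₂.card * Ew hf T₁ (fun U' => ind (CoE δ (vs h g U₁) (vs h g U'))) := by
    intro V hV
    rw [Ew_union hf T₁ T₂ hd, ← Ew_smul]
    refine Ew_congr hf _ fun U₁' hU₁' => ?_
    rw [← Ew_single T₂ V hV]
    refine Ew_congr hf _ fun V' hV' => ?_
    have e1 : (U₁ ∪ V) ∩ Sg = V := by
      rw [union_inter_distrib_right, disjoint_iff_inter_eq_empty.mp (disjoint_of_subset_left hU₁ h1),
        empty_union, inter_eq_left.mpr (hV.trans h2)]
    have e2 : (U₁' ∪ V') ∩ Sg = V' := by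
      rw [union_inter_distrib_right, disjoint_iff_inter_eq_empty.mp (disjoint_of_subset_left hU₁' h1),
        empty_union, inter_eq_left.mpr (hV'.trans h2)]
    rw [e1, e2]
    by_cases hVV : V = V'
    · subst hVV
      rw [ind_true rfl, one_mul]
      refine ind_congr ⟨fun hh => ?_, fun hh => ⟨rfl, ?_⟩⟩
      · obtain ⟨-, hc1, hc2⟩ := hh
        rw [vs_union h g (disjoint_of_subset_left hU₁ (disjoint_of_subset_right hV hd)),
          vs_union h g (disjoint_of_subset_left hU₁' (disjoint_of_subset_right hV hd))] at hc1 hc2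
        simp only at hc1 hc2
        refine ⟨?_, mul_right_cancel hc2⟩
        rwa [add_sub_add_right_eq_sub] at hc1
      · obtain ⟨hc1, hc2⟩ := hh
        rw [vs_union h g (disjoint_of_subset_left hU₁ (disjoint_of_subset_right hV hd)),
          vs_union h g (disjoint_of_subset_left hU₁' (disjoint_of_subset_right hV hd))]
        refine ⟨?_, ?_⟩
        · simp only
          rwa [add_sub_add_right_eq_sub]
        · simp only
          rw [hc2]
    · rw [ind_false (fun hh => hVV hh.1), ind_false hVV, zero_mul]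
  rw [Ew_congr hf T₂ key, Ew_const]

/-- the contribution of one element `ω` of `Sg` -/
theorem Qn_one {x : Ω → ℝ} {S : Finset Ω} (hx0 : ∀ ω ∈ S, 0 ≤ x ω) (hx1 : ∀ ω ∈ S, x ω ≤ 1 / 2)
    (h : Ω → ℝ) (g : Ω → G) (δ : ℝ) {ω : Ω} (hω : ω ∈ S) :
    Ew x S (fun T => Ew hf T (fun U => Ew hf T (fun U' =>
      ind ((¬ (ω ∈ U ↔ ω ∈ U')) ∧ CoE δ (vs h g U) (vs h g U'))))) ≤
    x ω * Ew x S (fun T => Ew hf T (fun U => Ew hf T (fun U' => 1 / 2 *
      (ind (CoE δ (vs h g U) ((vs h g U').1 + h ω, (vs h g U').2 * g ω)) +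
        ind (CoE δ ((vs h g U).1 + h ω, (vs h g U).2 * g ω) (vs h g U')))))) := by
  have hx1' : ∀ ω ∈ S, x ω ≤ 1 := fun ω hω => (hx1 ω hω).trans (by norm_num)
  obtain ⟨F, hF⟩ : ∃ F : Finset Ω → ℝ, F = fun T => Ew hf T (fun U => Ew hf T (fun U' => 1 / 2 *
      (ind (CoE δ (vs h g U) ((vs h g U').1 + h ω, (vs h g U').2 * g ω)) +
        ind (CoE δ ((vs h g U).1 + h ω, (vs h g U).2 * g ω) (vs h g U'))))) := ⟨_, rfl⟩
  have hF0 : ∀ T, 0 ≤ F T := by
    intro T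
    rw [hF]
    refine Ew_nonneg (hf0 T) (hf1 T) fun U _ => Ew_nonneg (hf0 T) (hf1 T) fun U' _ => ?_
    have h1 := ind_nonneg (CoE δ (vs h g U) ((vs h g U').1 + h ω, (vs h g U').2 * g ω))
    have h2 := ind_nonneg (CoE δ ((vs h g U).1 + h ω, (vs h g U).2 * g ω) (vs h g U'))
    linarith
  rw [← hF]
  set S' := S.erase ω with hS'
  have hSi : S = insert ω S' := (insert_erase hω).symm
  have hωS' : ω ∉ S' := notMem_erase ω S
  have hsub : S' ⊆ S := erase_subset ω S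
  have hx0' : ∀ ω ∈ S', 0 ≤ x ω := fun ω hω => hx0 ω (hsub hω)
  have hx1'' : ∀ ω ∈ S', x ω ≤ 1 := fun ω hω => hx1' ω (hsub hω)
  -- the left side
  have hL : Ew x S (fun T => Ew hf T (fun U => Ew hf T (fun U' =>
      ind ((¬ (ω ∈ U ↔ ω ∈ U')) ∧ CoE δ (vs h g U) (vs h g U'))))) =
      x ω * Ew x S' (fun T => 1 / 2 * F T) := by
    rw [hSi, Ew_insert x hωS']
    have e1 : Ew x S' (fun T => Ew hf T (fun U => Ew hf T (fun U' =>
        ind ((¬ (ω ∈ U ↔ ω ∈ U')) ∧ CoE δ (vs h g U) (vs h g U'))))) = 0 := by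
      rw [← Ew_const x S' 0]
      refine Ew_congr x S' fun T hT => ?_
      rw [← Ew_const hf T 0]
      refine Ew_congr hf T fun U hU => ?_
      rw [← Ew_const hf T 0]
      refine Ew_congr hf T fun U' hU' => ?_
      refine ind_false fun hh => hh.1 ⟨fun h1 => ?_, fun h1 => ?_⟩
      · exact absurd (hT (hU h1)) hωS'
      · exact absurd (hT (hU' h1)) hωS'
    rw [e1, mul_zero, zero_add]
    congr 1
    refine Ew_congr x S' fun T hT => ?_
    have hωT : ω ∉ T := fun h1 => hωS' (hT h1)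
    rw [Ew_insert hf hωT, hF]
    have e2 : ∀ U ⊆ T, Ew hf (insert ω T) (fun U' =>
        ind ((¬ (ω ∈ U ↔ ω ∈ U')) ∧ CoE δ (vs h g U) (vs h g U'))) =
        1 / 2 * Ew hf T (fun U' => ind (CoE δ (vs h g U) ((vs h g U').1 + h ω, (vs h g U').2 * g ω))) := by
      intro U hU
      have hωU : ω ∉ U := fun h1 => hωT (hU h1)
      rw [Ew_insert hf hωT]
      have e3 : Ew hf T (fun U' => ind ((¬ (ω ∈ U ↔ ω ∈ U')) ∧ CoE δ (vs h g U) (vs h g U'))) = 0 := by
        rw [← Ew_const hf T 0]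
        refine Ew_congr hf T fun U' hU' => ?_
        refine ind_false fun hh => hh.1 ⟨fun h1 => absurd h1 hωU, fun h1 => absurd (hU' h1) hωT⟩
      rw [e3, mul_zero, zero_add]
      have e4 : (hf ω : ℝ) = 1 / 2 := rfl
      rw [e4]
      congr 1
      refine Ew_congr hf T fun U' hU' => ?_
      have hωU' : ω ∉ U' := fun h1 => hωT (hU' h1)
      rw [vs_insert h g hωU']
      refine ind_congr ⟨fun hh => hh.2, fun hh => ⟨fun h1 => ?_, hh⟩⟩
      exact hωU (h1.mpr (mem_insert_self ω U'))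
    have e5 : ∀ U ⊆ T, Ew hf (insert ω T) (fun U' =>
        ind ((¬ (ω ∈ insert ω U ↔ ω ∈ U')) ∧ CoE δ (vs h g (insert ω U)) (vs h g U'))) =
        1 / 2 * Ew hf T (fun U' => ind (CoE δ ((vs h g U).1 + h ω, (vs h g U).2 * g ω) (vs h g U'))) := by
      intro U hU
      have hωU : ω ∉ U := fun h1 => hωT (hU h1)
      rw [Ew_insert hf hωT]
      have e3 : Ew hf T (fun U' => ind ((¬ (ω ∈ insert ω U ↔ ω ∈ insert ω U')) ∧
          CoE δ (vs h g (insert ω U)) (vs h g (insert ω U')))) = 0 := by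
        rw [← Ew_const hf T 0]
        refine Ew_congr hf T fun U' hU' => ?_
        refine ind_false fun hh => hh.1 ⟨fun _ => mem_insert_self _ _, fun _ => mem_insert_self _ _⟩
      rw [e3, mul_zero, add_zero]
      have e4 : (1 - hf ω : ℝ) = 1 / 2 := by unfold hf; norm_num
      rw [e4]
      congr 1
      refine Ew_congr hf T fun U' hU' => ?_
      have hωU' : ω ∉ U' := fun h1 => hωT (hU' h1)
      rw [vs_insert h g hωU]
      refine ind_congr ⟨fun hh => hh.2, fun hh => ⟨fun h1 => ?_, hh⟩⟩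
      exact hωU' (h1.mp (mem_insert_self ω U))
    have e6 : (1 - hf ω : ℝ) = 1 / 2 := by unfold hf; norm_num
    have e7 : (hf ω : ℝ) = 1 / 2 := rfl
    rw [Ew_congr hf T e2, Ew_congr hf T e5, e6, e7, ← mul_add, ← Ew_add]
    congr 1
    refine Ew_congr hf T fun U _ => ?_
    rw [Ew_smul, Ew_add]
    ring
  -- the right side
  have hR : (1 / 2) * Ew x S' F ≤ Ew x S F := by
    rw [hSi, Ew_insert x hωS']
    have h1 : 0 ≤ Ew x S' F := Ew_nonneg hx0' hx1'' fun T _ => hF0 T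
    have h2 : 0 ≤ Ew x S' (fun T => F (insert ω T)) := Ew_nonneg hx0' hx1'' fun T _ => hF0 _
    have h3 := mul_nonneg (hx0 ω hω) h2
    have h4 := mul_le_mul_of_nonneg_right (show 1 / 2 ≤ 1 - x ω by linarith [hx1 ω hω]) h1
    linarith
  rw [hL, Ew_smul]
  exact mul_le_mul_of_nonneg_left hR (hx0 ω hω)

/-- the mean of `Qn` -/
theorem Qn_mean {x : Ω → ℝ} {S Sg : Finset Ω} (hSg : Sg ⊆ S) (hx0 : ∀ ω ∈ S, 0 ≤ x ω)
    (hx1 : ∀ ω ∈ S, x ω ≤ 1 / 2) (h : Ω → ℝ) (g : Ω → G) (δ m : ℝ)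
    (hm : ∀ (v : ℝ) (c : G), ∑ ω ∈ Sg, x ω * ind (|v - h ω| ≤ δ ∧ g ω = c) ≤ m) :
    Ew x S (fun T => Qn h g δ Sg T) ≤ m := by
  have hx1' : ∀ ω ∈ S, x ω ≤ 1 := fun ω hω => (hx1 ω hω).trans (by norm_num)
  -- union bound
  have h1 : Ew x S (fun T => Qn h g δ Sg T) ≤ ∑ ω ∈ Sg, Ew x S (fun T => Ew hf T (fun U =>
      Ew hf T (fun U' => ind ((¬ (ω ∈ U ↔ ω ∈ U')) ∧ CoE δ (vs h g U) (vs h g U'))))) := by
    rw [← Ew_sum]
    refine Ew_mono hx0 hx1' fun T _ => ?_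
    unfold Qn
    rw [← Ew_sum]
    refine Ew_mono (hf0 T) (hf1 T) fun U _ => ?_
    rw [← Ew_sum]
    refine Ew_mono (hf0 T) (hf1 T) fun U' _ => ?_
    by_cases hc : U ∩ Sg ≠ U' ∩ Sg ∧ CoE δ (vs h g U) (vs h g U')
    · rw [ind_true hc]
      have hex : ∃ ω ∈ Sg, ¬ (ω ∈ U ↔ ω ∈ U') := by
        by_contra hcon
        push Not at hcon
        apply hc.1
        ext ω
        simp only [mem_inter]
        constructor
        · rintro ⟨h2, h3⟩
          exact ⟨(hcon ω h3).mp h2, h3⟩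
        · rintro ⟨h2, h3⟩
          exact ⟨(hcon ω h3).mpr h2, h3⟩
      obtain ⟨ω, hω, hne⟩ := hex
      have h4 : ind ((¬ (ω ∈ U ↔ ω ∈ U')) ∧ CoE δ (vs h g U) (vs h g U')) = 1 := ind_true ⟨hne, hc.2⟩
      rw [← h4]
      exact single_le_sum (f := fun ω => ind ((¬ (ω ∈ U ↔ ω ∈ U')) ∧ CoE δ (vs h g U) (vs h g U')))
        (fun ω _ => ind_nonneg _) hω
    · rw [ind_false hc]
      exact sum_nonneg fun ω _ => ind_nonneg _
  have h2 : ∑ ω ∈ Sg, Ew x S (fun T => Ew hf T (fun U =>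
      Ew hf T (fun U' => ind ((¬ (ω ∈ U ↔ ω ∈ U')) ∧ CoE δ (vs h g U) (vs h g U'))))) ≤
      ∑ ω ∈ Sg, x ω * Ew x S (fun T => Ew hf T (fun U => Ew hf T (fun U' => 1 / 2 *
      (ind (CoE δ (vs h g U) ((vs h g U').1 + h ω, (vs h g U').2 * g ω)) +
        ind (CoE δ ((vs h g U).1 + h ω, (vs h g U).2 * g ω) (vs h g U')))))) :=
    sum_le_sum fun ω hω => Qn_one hx0 hx1 h g δ (hSg hω)
  have h3 : ∑ ω ∈ Sg, x ω * Ew x S (fun T => Ew hf T (fun U => Ew hf T (fun U' => 1 / 2 *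
      (ind (CoE δ (vs h g U) ((vs h g U').1 + h ω, (vs h g U').2 * g ω)) +
        ind (CoE δ ((vs h g U).1 + h ω, (vs h g U).2 * g ω) (vs h g U')))))) =
      Ew x S (fun T => Ew hf T (fun U => Ew hf T (fun U' => ∑ ω ∈ Sg, x ω * (1 / 2 *
      (ind (CoE δ (vs h g U) ((vs h g U').1 + h ω, (vs h g U').2 * g ω)) +
        ind (CoE δ ((vs h g U).1 + h ω, (vs h g U).2 * g ω) (vs h g U'))))))) := by
    have e1 : ∀ ω ∈ Sg, x ω * Ew x S (fun T => Ew hf T (fun U => Ew hf T (fun U' => 1 / 2 *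
        (ind (CoE δ (vs h g U) ((vs h g U').1 + h ω, (vs h g U').2 * g ω)) +
          ind (CoE δ ((vs h g U).1 + h ω, (vs h g U).2 * g ω) (vs h g U')))))) =
        Ew x S (fun T => Ew hf T (fun U => Ew hf T (fun U' => x ω * (1 / 2 *
        (ind (CoE δ (vs h g U) ((vs h g U').1 + h ω, (vs h g U').2 * g ω)) +
          ind (CoE δ ((vs h g U).1 + h ω, (vs h g U).2 * g ω) (vs h g U'))))))) := by
      intro ω _
      rw [← Ew_smul]
      refine Ew_congr x S fun T _ => ?_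
      rw [← Ew_smul]
      refine Ew_congr hf T fun U _ => ?_
      rw [← Ew_smul]
    rw [sum_congr rfl e1, ← Ew_sum]
    refine Ew_congr x S fun T _ => ?_
    rw [← Ew_sum]
    refine Ew_congr hf T fun U _ => ?_
    rw [← Ew_sum]
  refine h1.trans (h2.trans ?_)
  rw [h3, ← Ew_const x S m]
  refine Ew_mono hx0 hx1' fun T _ => ?_
  rw [← Ew_const hf T m]
  refine Ew_mono (hf0 T) (hf1 T) fun U _ => ?_
  rw [← Ew_const hf T m]
  refine Ew_mono (hf0 T) (hf1 T) fun U' _ => ?_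
  have h4 : ∀ ω ∈ Sg, x ω * (1 / 2 *
      (ind (CoE δ (vs h g U) ((vs h g U').1 + h ω, (vs h g U').2 * g ω)) +
        ind (CoE δ ((vs h g U).1 + h ω, (vs h g U).2 * g ω) (vs h g U')))) ≤
      1 / 2 * (x ω * ind (|((vs h g U).1 - (vs h g U').1) - h ω| ≤ δ ∧
        g ω = (vs h g U').2⁻¹ * (vs h g U).2)) +
      1 / 2 * (x ω * ind (|((vs h g U').1 - (vs h g U).1) - h ω| ≤ δ ∧
        g ω = (vs h g U).2⁻¹ * (vs h g U').2)) := by
    intro ω hω
    have h5 : ind (CoE δ (vs h g U) ((vs h g U').1 + h ω, (vs h g U').2 * g ω)) ≤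
        ind (|((vs h g U).1 - (vs h g U').1) - h ω| ≤ δ ∧ g ω = (vs h g U').2⁻¹ * (vs h g U).2) := by
      refine ind_mono fun hh => ⟨?_, ?_⟩
      · have := hh.1
        simp only at this
        rwa [sub_sub]
      · have := hh.2
        simp only at this
        rw [this, inv_mul_cancel_left]
    have h6 : ind (CoE δ ((vs h g U).1 + h ω, (vs h g U).2 * g ω) (vs h g U')) ≤
        ind (|((vs h g U').1 - (vs h g U).1) - h ω| ≤ δ ∧ g ω = (vs h g U).2⁻¹ * (vs h g U').2) := by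
      refine ind_mono fun hh => ⟨?_, ?_⟩
      · have := hh.1
        simp only at this
        rw [abs_sub_comm] at this
        rwa [sub_sub]
      · have := hh.2
        simp only at this
        rw [← this, inv_mul_cancel_left]
    have h7 := mul_le_mul_of_nonneg_left h5 (hx0 ω (hSg hω))
    have h8 := mul_le_mul_of_nonneg_left h6 (hx0 ω (hSg hω))
    linarith
  refine (sum_le_sum h4).trans ?_
  rw [sum_add_distrib, ← mul_sum, ← mul_sum]
  have h9 := hm ((vs h g U).1 - (vs h g U').1) ((vs h g U').2⁻¹ * (vs h g U).2)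
  have h10 := hm ((vs h g U').1 - (vs h g U).1) ((vs h g U).2⁻¹ * (vs h g U').2)
  linarith

/-- the recursion for the mean of the square root of the energy -/
theorem En_step {x : Ω → ℝ} {S Sg : Finset Ω} (hd : Disjoint S Sg) (hx0 : ∀ ω ∈ S ∪ Sg, 0 ≤ x ω)
    (hx1 : ∀ ω ∈ S ∪ Sg, x ω ≤ 1 / 2) (h : Ω → ℝ) (g : Ω → G) (δ m : ℝ)
    (hm : ∀ (v : ℝ) (c : G), ∑ ω ∈ Sg, x ω * ind (|v - h ω| ≤ δ ∧ g ω = c) ≤ m) :
    Ew x (S ∪ Sg) (fun T => Real.sqrt (En h g δ T)) ≤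
      Real.sqrt m + (∏ ω ∈ Sg, (1 - x ω + x ω * Real.sqrt (1 / 2))) *
        Ew x S (fun T => Real.sqrt (En h g δ T)) := by
  have hx1' : ∀ ω ∈ S ∪ Sg, x ω ≤ 1 := fun ω hω => (hx1 ω hω).trans (by norm_num)
  have h1 : Ew x (S ∪ Sg) (fun T => Real.sqrt (En h g δ T)) ≤
      Ew x (S ∪ Sg) (fun T => Real.sqrt (Qn h g δ Sg T) +
        (∏ ω ∈ T ∩ Sg, Real.sqrt (1 / 2)) * Real.sqrt (En h g δ (T ∩ S))) := by
    refine Ew_mono hx0 hx1' fun T hT => ?_
    have e1 : T = (T ∩ S) ∪ (T ∩ Sg) := by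
      rw [← inter_union_distrib_left, inter_eq_left.mpr hT]
    have e2 := En_union h g δ (T₁ := T ∩ S) (T₂ := T ∩ Sg) (Sg := Sg)
      (disjoint_of_subset_left inter_subset_right hd) inter_subset_right
    rw [← e1] at e2
    rw [e2]
    refine (sqrt_add_le' (Qn_nonneg h g δ Sg T)
      (mul_nonneg (by positivity) (En_nonneg h g δ _))).trans ?_
    have e6 : Real.sqrt ((1 / 2) ^ (T ∩ Sg).card * En h g δ (T ∩ S)) =
        (∏ ω ∈ T ∩ Sg, Real.sqrt (1 / 2)) * Real.sqrt (En h g δ (T ∩ S)) := by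
      rw [Real.sqrt_mul (by positivity), prod_const]
      congr 1
      rw [Real.sqrt_eq_iff_mul_self_eq (by positivity) (by positivity), ← mul_pow,
        Real.mul_self_sqrt (by norm_num)]
    rw [e6]
  refine h1.trans ?_
  rw [Ew_add]
  refine add_le_add ?_ ?_
  · refine (Ew_sqrt hx0 hx1' fun T _ => Qn_nonneg h g δ Sg T).trans (Real.sqrt_le_sqrt ?_)
    exact Qn_mean subset_union_right hx0 hx1 h g δ m hm
  · rw [Ew_union x S Sg hd]
    have e3 : ∀ T₁ ⊆ S, Ew x Sg (fun T₂ => (∏ ω ∈ (T₁ ∪ T₂) ∩ Sg, Real.sqrt (1 / 2)) *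
        Real.sqrt (En h g δ ((T₁ ∪ T₂) ∩ S))) =
        (∏ ω ∈ Sg, (1 - x ω + x ω * Real.sqrt (1 / 2))) * Real.sqrt (En h g δ T₁) := by
      intro T₁ hT₁
      rw [← Ew_prod, mul_comm, ← Ew_smul]
      refine Ew_congr x Sg fun T₂ hT₂ => ?_
      have e4 : (T₁ ∪ T₂) ∩ Sg = T₂ := by
        rw [union_inter_distrib_right, disjoint_iff_inter_eq_empty.mp (disjoint_of_subset_left hT₁ hd),
          empty_union, inter_eq_left.mpr hT₂]
      have e5 : (T₁ ∪ T₂) ∩ S = T₁ := by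
        rw [union_inter_distrib_right, disjoint_iff_inter_eq_empty.mp
          (disjoint_of_subset_left hT₂ hd.symm), union_empty, inter_eq_left.mpr hT₁]
      rw [e4, e5, mul_comm]
    rw [Ew_congr x S e3, Ew_smul]

end Pool.Agent.Lib.OW
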