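import Mathlib

/-!
# Bonferroni's inequalities for truncated elementary symmetric sums
-/

set_option autoImplicit false

open Finset

namespace Pool.Agent.Lib.OW

variable {α : Type*} [DecidableEq α]

/-- elementary symmetric function -/
noncomputable def es (y : α → ℝ) (S : Finset α) (m : ℕ) : ℝ :=
  ∑ S' ∈ S.powerset, if S'.card = m then ∏ a ∈ S', y a else 0

/-- truncated alternating sum -/
noncomputable def as (y : α → ℝ) (S : Finset α) (m : ℕ) : ℝ :=
  ∑ S' ∈ S.powerset, if S'.card < m then (-1) ^ S'.card * ∏ a ∈ S', y a else 0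

theorem es_insert (y : α → ℝ) {S : Finset α} {a : α} (ha : a ∉ S) (m : ℕ) :
    es y (insert a S) (m + 1) = es y S (m + 1) + y a * es y S m := by
  unfold es
  rw [sum_powerset_insert ha, mul_sum]
  congr 1
  refine sum_congr rfl fun S' hS' => ?_
  have haS : a ∉ S' := fun h => ha (mem_powerset.mp hS' h)
  rw [card_insert_of_notMem haS, prod_insert haS]
  by_cases h : S'.card = m
  · rw [if_pos (by omega), if_pos h]
  · rw [if_neg (by omega), if_neg h, mul_zero]

theorem es_zero (y : α → ℝ) (S : Finset α) : es y S 0 = 1 := by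
  unfold es
  rw [sum_eq_single ∅]
  · simp
  · intro S' _ h
    rw [if_neg]
    rw [card_eq_zero]
    exact h
  · intro h
    exact absurd (empty_mem_powerset S) h

theorem es_nonneg {y : α → ℝ} {S : Finset α} (hy : ∀ a ∈ S, 0 ≤ y a) (m : ℕ) : 0 ≤ es y S m := by
  unfold es
  refine sum_nonneg fun S' hS' => ?_
  split_ifs
  · exact prod_nonneg fun a ha => hy a (mem_powerset.mp hS' ha)
  · exact le_rfl

theorem es_mono {y : α → ℝ} {S S₁ : Finset α} (h : S ⊆ S₁) (hy : ∀ a ∈ S₁, 0 ≤ y a) (m : ℕ) :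
    es y S m ≤ es y S₁ m := by
  unfold es
  refine sum_le_sum_of_subset_of_nonneg (powerset_mono.mpr h) fun S' hS' _ => ?_
  split_ifs
  · exact prod_nonneg fun a ha => hy a (mem_powerset.mp hS' ha)
  · exact le_rfl

theorem as_insert (y : α → ℝ) {S : Finset α} {a : α} (ha : a ∉ S) (m : ℕ) :
    as y (insert a S) (m + 1) = as y S (m + 1) - y a * as y S m := by
  unfold as
  rw [sum_powerset_insert ha, mul_sum, sub_eq_add_neg, ← sum_neg_distrib]
  congr 1
  refine sum_congr rfl fun S' hS' => ?_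
  have haS : a ∉ S' := fun h => ha (mem_powerset.mp hS' h)
  rw [card_insert_of_notMem haS, prod_insert haS]
  by_cases h : S'.card < m
  · rw [if_pos (by omega), if_pos h, pow_succ]
    ring
  · rw [if_neg (by omega), if_neg h, mul_zero, neg_zero]

theorem as_zero (y : α → ℝ) (S : Finset α) : as y S 0 = 0 := by
  unfold as
  simp

theorem as_empty (y : α → ℝ) (m : ℕ) : as y ∅ (m + 1) = 1 := by
  unfold as
  simp

theorem es_empty (y : α → ℝ) (m : ℕ) : es y ∅ (m + 1) = 0 := by
  unfold es
  simp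

/-- Bonferroni's inequalities -/
theorem bonf {y : α → ℝ} {S : Finset α} (hy : ∀ a ∈ S, 0 ≤ y a) (hy1 : ∀ a ∈ S, y a ≤ 1) : ∀ j : ℕ,
    as y S (2 * j) ≤ ∏ a ∈ S, (1 - y a) ∧ ∏ a ∈ S, (1 - y a) - es y S (2 * j) ≤ as y S (2 * j) ∧
    ∏ a ∈ S, (1 - y a) ≤ as y S (2 * j + 1) ∧
    as y S (2 * j + 1) ≤ ∏ a ∈ S, (1 - y a) + es y S (2 * j + 1) := by
  induction S using Finset.induction_on with
  | empty =>
    intro j
    rw [prod_empty, as_empty, es_empty]
    rcases Nat.eq_zero_or_pos j with h | h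
    · subst h
      rw [mul_zero, as_zero, es_zero]
      norm_num
    · obtain ⟨i, hi⟩ : ∃ i, 2 * j = i + 1 := ⟨2 * j - 1, by omega⟩
      rw [hi, as_empty, es_empty]
      norm_num
  | insert a S ha ih =>
    have hyS : ∀ b ∈ S, 0 ≤ y b := fun b hb => hy b (mem_insert_of_mem hb)
    have hyS1 : ∀ b ∈ S, y b ≤ 1 := fun b hb => hy1 b (mem_insert_of_mem hb)
    have ih' := ih hyS hyS1
    have ha0 := hy a (mem_insert_self a S)
    have ha1 := hy1 a (mem_insert_self a S)
    have hP0 : 0 ≤ ∏ b ∈ S, (1 - y b) := prod_nonneg fun b hb => sub_nonneg.mpr (hyS1 b hb)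
    have hP1 : ∏ b ∈ S, (1 - y b) ≤ 1 :=
      prod_le_one (fun b hb => sub_nonneg.mpr (hyS1 b hb)) fun b hb => by linarith [hyS b hb]
    intro j
    rw [prod_insert ha]
    obtain ⟨h1, h2, h3, h4⟩ := ih' j
    have hodd : (1 - y a) * ∏ b ∈ S, (1 - y b) ≤ as y (insert a S) (2 * j + 1) ∧
        as y (insert a S) (2 * j + 1) ≤ (1 - y a) * ∏ b ∈ S, (1 - y b) + es y (insert a S) (2 * j + 1) := by
      rw [as_insert y ha, es_insert y ha]
      have h5 := mul_le_mul_of_nonneg_left h1 ha0
      have h6 := mul_le_mul_of_nonneg_left h2 ha0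
      constructor
      · linarith
      · linarith
    refine ⟨?_, ?_, hodd.1, hodd.2⟩
    · rcases Nat.eq_zero_or_pos j with h | h
      · subst h
        rw [mul_zero, as_zero]
        exact mul_nonneg (by linarith) hP0
      · obtain ⟨i, hi⟩ : ∃ i, j = i + 1 := ⟨j - 1, by omega⟩
        obtain ⟨k1, k2, k3, k4⟩ := ih' i
        rw [hi, show 2 * (i + 1) = (2 * i + 1) + 1 by ring] at h1 ⊢
        rw [as_insert y ha]
        have h5 := mul_le_mul_of_nonneg_left k3 ha0
        linarith
    · rcases Nat.eq_zero_or_pos j with h | h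
      · subst h
        rw [mul_zero, as_zero, es_zero]
        nlinarith
      · obtain ⟨i, hi⟩ : ∃ i, j = i + 1 := ⟨j - 1, by omega⟩
        obtain ⟨k1, k2, k3, k4⟩ := ih' i
        rw [hi, show 2 * (i + 1) = (2 * i + 1) + 1 by ring] at h2 ⊢
        rw [as_insert y ha, es_insert y ha]
        have h5 := mul_le_mul_of_nonneg_left k4 ha0
        linarith

/-- indicator of the empty set, upper bound by an alternating sum over the subsets with at most `2 j` elements -/
theorem bonf_one (S : Finset α) (j : ℕ) : (if S = ∅ then (1 : ℝ) else 0) ≤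
    ∑ S' ∈ S.powerset, if S'.card < 2 * j + 1 then (-1 : ℝ) ^ S'.card else 0 := by
  have h := (bonf (y := fun _ : α => (1 : ℝ)) (S := S) (fun _ _ => by norm_num) (fun _ _ => le_rfl) j).2.2.1
  have h1 : ∏ a ∈ S, ((1 : ℝ) - (fun _ : α => (1 : ℝ)) a) = if S = ∅ then (1 : ℝ) else 0 := by
    split_ifs with h2
    · rw [h2, prod_empty]
    · obtain ⟨a, ha⟩ := nonempty_iff_ne_empty.mpr h2
      exact prod_eq_zero ha (by norm_num)
  rw [h1] at h
  refine h.trans (le_of_eq ?_)
  unfold as
  refine sum_congr rfl fun S' _ => ?_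
  simp

/-- `e_m ≤ (∑ y)^m / m!` -/
theorem es_le {y : α → ℝ} {S : Finset α} (hy : ∀ a ∈ S, 0 ≤ y a) (m : ℕ) :
    (m.factorial : ℝ) * es y S m ≤ (∑ a ∈ S, y a) ^ m := by
  induction S using Finset.induction_on generalizing m with
  | empty =>
    rcases Nat.eq_zero_or_pos m with h | h
    · subst h
      rw [es_zero]
      simp
    · obtain ⟨i, hi⟩ : ∃ i, m = i + 1 := ⟨m - 1, by omega⟩
      rw [hi, es_empty, sum_empty]
      simp
  | insert a S ha ih =>
    have hyS : ∀ b ∈ S, 0 ≤ y b := fun b hb => hy b (mem_insert_of_mem hb)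
    have ha0 := hy a (mem_insert_self a S)
    have hs0 : 0 ≤ ∑ b ∈ S, y b := sum_nonneg hyS
    rcases Nat.eq_zero_or_pos m with h | h
    · subst h
      rw [es_zero]
      simp
    · obtain ⟨i, hi⟩ : ∃ i, m = i + 1 := ⟨m - 1, by omega⟩
      rw [hi, es_insert y ha, sum_insert ha]
      have h1 := ih hyS (i + 1)
      have h2 := ih hyS i
      have h3 : (((i + 1).factorial : ℕ) : ℝ) = (i + 1) * (i.factorial : ℝ) := by
        rw [Nat.factorial_succ]
        push_cast
        ring
      have h4 : (((i + 1).factorial : ℕ) : ℝ) * (es y S (i + 1) + y a * es y S i) =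
          (((i + 1).factorial : ℕ) : ℝ) * es y S (i + 1) + (i + 1) * y a * ((i.factorial : ℝ) * es y S i) := by
        rw [mul_add, h3]
        ring
      rw [h4]
      have h5 : (i + 1) * y a * ((i.factorial : ℝ) * es y S i) ≤ (i + 1) * y a * (∑ b ∈ S, y b) ^ i :=
        mul_le_mul_of_nonneg_left h2 (by positivity)
      -- `s^(i+1) + (i+1) y s^i ≤ (y + s)^(i+1)`
      have h6 : ∀ (s t : ℝ), 0 ≤ s → 0 ≤ t → ∀ i : ℕ, s ^ (i + 1) + (i + 1) * t * s ^ i ≤ (t + s) ^ (i + 1) := by
        intro s t hs ht i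
        induction i with
        | zero => simp; linarith
        | succ i ih2 =>
          have h7 := mul_le_mul_of_nonneg_right ih2 (show 0 ≤ t + s by linarith)
          rw [← pow_succ (t + s)] at h7
          refine le_trans ?_ h7
          have h8 : 0 ≤ ((i : ℝ) + 1) * t * t * s ^ i := by positivity
          have e1 : (s ^ (i + 1) + (i + 1) * t * s ^ i) * (t + s) =
              s ^ (i + 1 + 1) + ((i : ℝ) + 1 + 1) * t * s ^ (i + 1) + ((i : ℝ) + 1) * t * t * s ^ i := by
            rw [pow_succ s (i + 1), pow_succ s i]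
            ring
          rw [e1]
          push_cast
          linarith
      have h7 := h6 (∑ b ∈ S, y b) (y a) hs0 ha0 i
      linarith

end Pool.Agent.Lib.OW
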