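import Mathlib
import Pool.Agent.Lib.MP_7b7e48_nt.OW.TRB

/-!
# Transfer of the product model to weighted families of integers

`A i` is the set of the pairs `(p, c)` such that the prime `p ∈ Pr` divides the form of colour `c` at the index `i`; no prime divides two
forms. `V i` is the set of the primes which divide some form or, for the primes of `PN`, a further form. If the sums over the `i` with
`T ⊆ A i`, `S' ⊆ V i` have densities `∏_T x ∏_S' y`, then the law of `A i` (on the `i` without prime of `PN`) is at most twice the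
independent model, up to small errors.
-/

set_option autoImplicit false

open Finset

namespace Pool.Agent.Lib.OW

/-- number of the subsets with at most `m` elements -/
noncomputable def cs {α : Type*} (S : Finset α) (m : ℕ) : ℝ := ∑ S' ∈ S.powerset, if S'.card < m + 1 then 1 else 0

theorem cs_nonneg {α : Type*} (S : Finset α) (m : ℕ) : 0 ≤ cs S m :=
  sum_nonneg fun _ _ => by split_ifs <;> norm_num

theorem cs_le {α : Type*} [DecidableEq α] (S : Finset α) (m : ℕ) : cs S m ≤ ((S.card : ℝ) + 1) ^ m := by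
  induction S using Finset.induction_on generalizing m with
  | empty =>
    unfold cs
    rw [powerset_empty, sum_singleton]
    split_ifs <;> simp
  | insert a S ha ih =>
    have h0 : cs (insert a S) m = cs S m + ∑ S' ∈ S.powerset, if S'.card + 1 < m + 1 then (1 : ℝ) else 0 := by
      unfold cs
      rw [sum_powerset_insert ha]
      congr 1
      refine sum_congr rfl fun S' hS' => ?_
      rw [card_insert_of_notMem fun h => ha (mem_powerset.mp hS' h)]
    rw [h0, card_insert_of_notMem ha]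
    rcases Nat.eq_zero_or_pos m with h | h
    · subst h
      have h1 := ih 0
      simp only [pow_zero] at h1 ⊢
      have h2 : ∑ S' ∈ S.powerset, (if S'.card + 1 < 0 + 1 then (1 : ℝ) else 0) = 0 :=
        sum_eq_zero fun S' _ => if_neg (by omega)
      rw [h2]
      linarith
    · obtain ⟨k, hk⟩ : ∃ k, m = k + 1 := ⟨m - 1, by omega⟩
      subst hk
      have h1 := ih (k + 1)
      have h2 := ih k
      have h3 : ∑ S' ∈ S.powerset, (if S'.card + 1 < k + 1 + 1 then (1 : ℝ) else 0) = cs S k := by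
        unfold cs
        refine sum_congr rfl fun S' _ => ?_
        by_cases h4 : S'.card < k + 1
        · rw [if_pos h4, if_pos (by omega)]
        · rw [if_neg h4, if_neg (by omega)]
      rw [h3]
      have hn : (0 : ℝ) ≤ S.card := Nat.cast_nonneg _
      have h5 : ((S.card : ℝ) + 1) ^ (k + 1) + ((S.card : ℝ) + 1) ^ k = ((S.card : ℝ) + 1) ^ k * (S.card + 2) := by
        rw [pow_succ]
        ring
      have h6 : ((S.card : ℝ) + 1) ^ k ≤ ((S.card : ℝ) + 2) ^ k := pow_le_pow_left₀ (by linarith) (by linarith) k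
      have h7 : ((S.card : ℝ) + 1) ^ k * (S.card + 2) ≤ ((S.card : ℝ) + 2) ^ k * (S.card + 2) :=
        mul_le_mul_of_nonneg_right h6 (by linarith)
      push_cast
      have h8 : (S.card : ℝ) + 1 + 1 = S.card + 2 := by ring
      rw [h8, pow_succ]
      linarith

/-- Brun's pure sieve, upper bound -/
theorem brun {ι κ : Type*} [DecidableEq κ] (I : Finset ι) (w : ι → ℝ) (hw : ∀ i ∈ I, 0 ≤ w i)
    (V : ι → Finset κ) (U : Finset κ) {y : κ → ℝ} (hy : ∀ a ∈ U, 0 ≤ y a) (hy1 : ∀ a ∈ U, y a ≤ 1)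
    {X Err : ℝ} (hX : 0 ≤ X) (j : ℕ)
    (law : ∀ S' ⊆ U, S'.card ≤ 2 * j → |∑ i ∈ I with S' ⊆ V i, w i - X * ∏ a ∈ S', y a| ≤ Err) :
    ∑ i ∈ I with V i ∩ U = ∅, w i ≤ X * (∏ a ∈ U, (1 - y a) + es y U (2 * j + 1)) + Err * cs U (2 * j) := by
  classical
  -- pointwise
  have h1 : ∑ i ∈ I with V i ∩ U = ∅, w i ≤ ∑ i ∈ I, w i *
      ∑ S' ∈ (V i ∩ U).powerset, (if S'.card < 2 * j + 1 then (-1 : ℝ) ^ S'.card else 0) := by
    rw [sum_filter]
    refine sum_le_sum fun i hi => ?_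
    have h2 := mul_le_mul_of_nonneg_left (bonf_one (V i ∩ U) j) (hw i hi)
    refine le_trans (le_of_eq ?_) h2
    split_ifs <;> ring
  have h2 : ∀ i, ∑ S' ∈ (V i ∩ U).powerset, (if S'.card < 2 * j + 1 then (-1 : ℝ) ^ S'.card else 0) =
      ∑ S' ∈ U.powerset, (if S' ⊆ V i then (if S'.card < 2 * j + 1 then (-1 : ℝ) ^ S'.card else 0) else 0) := by
    intro i
    have hset : (V i ∩ U).powerset = U.powerset.filter (fun S' => S' ⊆ V i) := by
      ext S'
      rw [mem_powerset, mem_filter, mem_powerset, subset_inter_iff]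
      tauto
    rw [hset, sum_filter]
  have h3 : ∑ i ∈ I, w i * ∑ S' ∈ (V i ∩ U).powerset, (if S'.card < 2 * j + 1 then (-1 : ℝ) ^ S'.card else 0) =
      ∑ S' ∈ U.powerset, (if S'.card < 2 * j + 1 then (-1 : ℝ) ^ S'.card * ∑ i ∈ I with S' ⊆ V i, w i else 0) := by
    have e1 : ∀ i ∈ I, w i * ∑ S' ∈ (V i ∩ U).powerset,
        (if S'.card < 2 * j + 1 then (-1 : ℝ) ^ S'.card else 0) = ∑ S' ∈ U.powerset,
        w i * (if S' ⊆ V i then (if S'.card < 2 * j + 1 then (-1 : ℝ) ^ S'.card else 0) else 0) := by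
      intro i _
      rw [h2, mul_sum]
    rw [sum_congr rfl e1, sum_comm]
    refine sum_congr rfl fun S' _ => ?_
    split_ifs with h4
    · rw [sum_filter, mul_sum]
      refine sum_congr rfl fun i _ => ?_
      split_ifs <;> ring
    · refine sum_eq_zero fun i _ => ?_
      split_ifs <;> ring
  have h4 : ∑ S' ∈ U.powerset, (if S'.card < 2 * j + 1 then (-1 : ℝ) ^ S'.card * ∑ i ∈ I with S' ⊆ V i, w i else 0) ≤
      ∑ S' ∈ U.powerset, (X * (if S'.card < 2 * j + 1 then (-1 : ℝ) ^ S'.card * ∏ a ∈ S', y a else 0) +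
        Err * (if S'.card < 2 * j + 1 then 1 else 0)) := by
    refine sum_le_sum fun S' hS' => ?_
    split_ifs with h5
    · have h6 := abs_le.mp (law S' (mem_powerset.mp hS') (by omega))
      rcases neg_one_pow_eq_or ℝ S'.card with h7 | h7
      · rw [h7]
        linarith [h6.2]
      · rw [h7]
        linarith [h6.1]
    · linarith
  have h5 := (bonf hy hy1 j).2.2.2
  rw [sum_add_distrib, ← mul_sum, ← mul_sum] at h4
  have h6 : ∑ S' ∈ U.powerset, (if S'.card < 2 * j + 1 then (-1 : ℝ) ^ S'.card * ∏ a ∈ S', y a else 0) =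
      as y U (2 * j + 1) := rfl
  have h7 : ∑ S' ∈ U.powerset, (if S'.card < 2 * j + 1 then (1 : ℝ) else 0) = cs U (2 * j) := rfl
  rw [h6, h7] at h4
  have h8 := mul_le_mul_of_nonneg_left h5 hX
  rw [h3] at h1
  linarith

/-- the primes of `T` -/
noncomputable def pj {C : Type*} (T : Finset (ℕ × C)) : Finset ℕ := by
  classical exact T.image Prod.fst

theorem mem_pj {C : Type*} {T : Finset (ℕ × C)} {p : ℕ} : p ∈ pj T ↔ ∃ c, (p, c) ∈ T := by
  classical
  unfold pj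
  rw [mem_image]
  constructor
  · rintro ⟨⟨q, c⟩, h, rfl⟩
    exact ⟨c, h⟩
  · rintro ⟨c, h⟩
    exact ⟨(p, c), h, rfl⟩

/-- no prime twice -/
def Inj {C : Type*} (T : Finset (ℕ × C)) : Prop := ∀ ω ∈ T, ∀ ω' ∈ T, ω.1 = ω'.1 → ω = ω'

open Classical in
/-- the data of a transfer -/
structure Trf {ι C : Type*} [Fintype C] (I : Finset ι) (w : ι → ℝ) (A : ι → Finset (ℕ × C)) (V : ι → Finset ℕ)
    (Pr PN : Finset ℕ) (x : ℕ × C → ℝ) (y : ℕ → ℝ) (X Err : ℝ) (j : ℕ) : Prop where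
  w0 : ∀ i ∈ I, 0 ≤ w i
  A1 : ∀ i ∈ I, ∀ ω ∈ A i, ω.1 ∈ Pr
  A2 : ∀ i ∈ I, Inj (A i)
  V1 : ∀ i ∈ I, ∀ p ∈ V i, p ∈ Pr → p ∈ pj (A i)
  disj : Disjoint Pr PN
  x0 : ∀ ω, ω.1 ∈ Pr → 0 ≤ x ω
  yx : ∀ p ∈ Pr, y p = ∑ c, x (p, c)
  y0 : ∀ p ∈ PN, 0 ≤ y p ∧ y p ≤ 1
  y1 : ∀ p ∈ Pr, y p ≤ 1 / 2 ∧ 16 * j * y p ≤ 1
  X0 : 0 ≤ X
  E0 : 0 ≤ Err
  law : ∀ T : Finset (ℕ × C), (∀ ω ∈ T, ω.1 ∈ Pr) → Inj T → T.card ≤ 2 * j + 1 → ∀ S' : Finset ℕ,
    (∀ p ∈ S', (p ∈ Pr ∧ p ∉ pj T) ∨ p ∈ PN) → S'.card ≤ 2 * j →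
    |∑ i ∈ I with (T ⊆ A i ∧ S' ⊆ V i), w i - X * (∏ ω ∈ T, x ω) * ∏ p ∈ S', y p| ≤ Err
  tail : es y (Pr ∪ PN) (2 * j + 1) ≤ 1 / 4 * ∏ p ∈ Pr ∪ PN, (1 - y p)

end Pool.Agent.Lib.OW
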