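import Mathlib
import Pool.Agent.Lib.MP_7b7e48_nt.OW.MTQ
import Pool.Agent.Lib.MP_7b7e48_nt.OW.TRT

/-!
# Transfer, end of the proof
-/

set_option autoImplicit false

open Finset

namespace Pool.Agent.Lib.OW

theorem one_sub_sum_le {α : Type*} [DecidableEq α] {S : Finset α} {y : α → ℝ} (hy : ∀ a ∈ S, 0 ≤ y a)
    (hy1 : ∀ a ∈ S, y a ≤ 1) : 1 - ∑ a ∈ S, y a ≤ ∏ a ∈ S, (1 - y a) := by
  induction S using Finset.induction_on with
  | empty => simp
  | insert a S ha ih =>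
    rw [sum_insert ha, prod_insert ha]
    have h1 := ih (fun b hb => hy b (mem_insert_of_mem hb)) fun b hb => hy1 b (mem_insert_of_mem hb)
    have ha0 := hy a (mem_insert_self a S)
    have ha1 := hy1 a (mem_insert_self a S)
    have h2 : 0 ≤ ∑ b ∈ S, y b := sum_nonneg fun b hb => hy b (mem_insert_of_mem hb)
    have h3 := mul_le_mul_of_nonneg_left h1 (sub_nonneg.mpr ha1)
    nlinarith [mul_nonneg ha0 h2]

section

variable {ι C : Type*} [Fintype C] [DecidableEq C] {I : Finset ι} {w : ι → ℝ} {A : ι → Finset (ℕ × C)}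
  {V : ι → Finset ℕ} {Pr PN : Finset ℕ} {x : ℕ × C → ℝ} {y : ℕ → ℝ} {X Err : ℝ} {j : ℕ}

theorem Trf.yr (h : Trf I w A V Pr PN x y X Err j) : ∀ p ∈ Pr ∪ PN, 0 ≤ y p ∧ y p ≤ 1 := by
  intro p hp
  rcases mem_union.mp hp with h1 | h1
  · refine ⟨?_, by linarith [(h.y1 p h1).1]⟩
    rw [h.yx p h1]
    exact sum_nonneg fun c _ => h.x0 (p, c) h1
  · exact h.y0 p h1

theorem Trf.xle (h : Trf I w A V Pr PN x y X Err j) {ω : ℕ × C} (hω : ω.1 ∈ Pr) : x ω ≤ 1 := by
  have h1 := (h.yr ω.1 (mem_union_left _ hω)).2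
  rw [h.yx ω.1 hω] at h1
  have h2 : x ω ≤ ∑ c, x (ω.1, c) :=
    single_le_sum (f := fun c => x (ω.1, c)) (fun c _ => h.x0 (ω.1, c) hω) (mem_univ ω.2)
  linarith

open Classical in
theorem Trf.exact (h : Trf I w A V Pr PN x y X Err j) {T : Finset (ℕ × C)} (hT : ∀ ω ∈ T, ω.1 ∈ Pr)
    (hTi : Inj T) (hTc : T.card ≤ 2 * j + 1) :
    ∑ i ∈ I with (A i = T ∧ V i ∩ PN = ∅), w i ≤
      X * (∏ ω ∈ T, x ω) * (∏ p ∈ (Pr \ pj T) ∪ PN, (1 - y p) + es y (Pr ∪ PN) (2 * j + 1)) +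
        Err * cs (Pr ∪ PN) (2 * j) := by
  have hUsub : (Pr \ pj T) ∪ PN ⊆ Pr ∪ PN := union_subset_union_left sdiff_subset
  have hy := h.yr
  have hxT : 0 ≤ ∏ ω ∈ T, x ω := prod_nonneg fun ω hω => h.x0 ω (hT ω hω)
  have hb := brun (I.filter fun i => T ⊆ A i) w (fun i hi => h.w0 i (mem_filter.mp hi).1) V
    ((Pr \ pj T) ∪ PN) (y := y) (fun p hp => (hy p (hUsub hp)).1) (fun p hp => (hy p (hUsub hp)).2)
    (X := X * ∏ ω ∈ T, x ω) (Err := Err) (mul_nonneg h.X0 hxT) j ?_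
  · refine le_trans ?_ (hb.trans ?_)
    · refine sum_le_sum_of_subset_of_nonneg ?_ ?_
      · intro i hi
        rw [mem_filter] at hi
        obtain ⟨hiI, hiT, hiV⟩ := hi
        rw [mem_filter, mem_filter]
        refine ⟨⟨hiI, hiT ▸ Subset.rfl⟩, ?_⟩
        rw [eq_empty_iff_forall_notMem]
        intro p hp
        rw [mem_inter, mem_union, mem_sdiff] at hp
        obtain ⟨hpV, hp2⟩ := hp
        rcases hp2 with ⟨hpP, hpT⟩ | hpN
        · apply hpT
          rw [← hiT]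
          exact h.V1 i hiI p hpV hpP
        · have : p ∈ V i ∩ PN := mem_inter.mpr ⟨hpV, hpN⟩
          rw [hiV] at this
          exact absurd this (notMem_empty p)
      · intro i hi _
        exact h.w0 i (mem_filter.mp (mem_filter.mp hi).1).1
    · have h1 : es y ((Pr \ pj T) ∪ PN) (2 * j + 1) ≤ es y (Pr ∪ PN) (2 * j + 1) :=
        es_mono hUsub (fun p hp => (hy p hp).1) _
      have h2 : cs ((Pr \ pj T) ∪ PN) (2 * j) ≤ cs (Pr ∪ PN) (2 * j) := by
        unfold cs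
        refine sum_le_sum_of_subset_of_nonneg (powerset_mono.mpr hUsub) fun _ _ _ => ?_
        split_ifs <;> norm_num
      have h3 := mul_le_mul_of_nonneg_left h2 h.E0
      have h4 := mul_le_mul_of_nonneg_left (add_le_add_right h1 (∏ p ∈ (Pr \ pj T) ∪ PN, (1 - y p)))
        (mul_nonneg h.X0 hxT)
      linarith
  · intro S' hS' hSc
    have h1 := h.law T hT hTi hTc S' (fun p hp => by
      rcases mem_union.mp (hS' hp) with h2 | h2
      · exact Or.inl (mem_sdiff.mp h2)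
      · exact Or.inr h2) hSc
    have e1 : (I.filter fun i => T ⊆ A i).filter (fun i => S' ⊆ V i) =
        I.filter (fun i => T ⊆ A i ∧ S' ⊆ V i) := by
      rw [filter_filter]
    rw [e1]
    convert h1

/-- the law of one type is at most twice the model -/
theorem Trf.two (h : Trf I w A V Pr PN x y X Err j) (hj : 1 ≤ j) {T : Finset (ℕ × C)}
    (hT : T ⊆ Pr ×ˢ univ) (hTc : T.card ≤ 2 * j) :
    (∏ ω ∈ T, x ω) * (∏ p ∈ (Pr \ pj T) ∪ PN, (1 - y p) + es y (Pr ∪ PN) (2 * j + 1)) ≤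
      2 * (∏ p ∈ PN, (1 - y p)) * ((∏ ω ∈ T, x ω) * ∏ ω ∈ (Pr ×ˢ (univ : Finset C)) \ T, (1 - x ω)) := by
  classical
  have hT' : ∀ ω ∈ T, ω.1 ∈ Pr := fun ω hω => (mem_product.mp (hT hω)).1
  have hy := h.yr
  have hxT : 0 ≤ ∏ ω ∈ T, x ω := prod_nonneg fun ω hω => h.x0 ω (hT' ω hω)
  have hpj : pj T ⊆ Pr := by
    intro p hp
    obtain ⟨c, hc⟩ := mem_pj.mp hp
    exact hT' _ hc
  have hpjc : (pj T).card ≤ 2 * j := by
    unfold pj
    exact card_image_le.trans hTc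
  set PU := ∏ p ∈ Pr \ pj T, (1 - y p) with hPU
  set PV := ∏ p ∈ PN, (1 - y p) with hPV
  have hPU0 : 0 ≤ PU := prod_nonneg fun p hp => sub_nonneg.mpr (hy p (mem_union_left _ (sdiff_subset hp))).2
  have hPV0 : 0 ≤ PV := prod_nonneg fun p hp => sub_nonneg.mpr (hy p (mem_union_right _ hp)).2
  have h1 : ∏ p ∈ (Pr \ pj T) ∪ PN, (1 - y p) = PU * PV :=
    prod_union (disjoint_of_subset_left sdiff_subset h.disj)
  have h2 : ∏ p ∈ Pr ∪ PN, (1 - y p) = (PU * ∏ p ∈ pj T, (1 - y p)) * PV := by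
    rw [prod_union h.disj, ← prod_sdiff hpj]
  have h3 : ∏ p ∈ pj T, (1 - y p) ≤ 1 := prod_le_one
    (fun p hp => sub_nonneg.mpr (hy p (mem_union_left _ (hpj hp))).2)
    fun p hp => by linarith [(hy p (mem_union_left _ (hpj hp))).1]
  have h4 : 3 / 4 ≤ ∏ p ∈ pj T, (1 - y p) := by
    refine le_trans ?_ (one_sub_sum_le (fun p hp => (hy p (mem_union_left _ (hpj hp))).1)
      fun p hp => (hy p (mem_union_left _ (hpj hp))).2)
    have hj0 : (0 : ℝ) < j := by exact_mod_cast hj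
    have h5 : ∑ p ∈ pj T, y p ≤ ∑ _p ∈ pj T, 1 / (16 * (j : ℝ)) := by
      refine sum_le_sum fun p hp => ?_
      rw [le_div_iff₀ (by positivity)]
      have := (h.y1 p (hpj hp)).2
      linarith
    rw [sum_const, nsmul_eq_mul] at h5
    have h6 : ((pj T).card : ℝ) ≤ 2 * j := by exact_mod_cast hpjc
    have h7 : ((pj T).card : ℝ) * (1 / (16 * (j : ℝ))) ≤ (2 * j) * (1 / (16 * (j : ℝ))) :=
      mul_le_mul_of_nonneg_right h6 (by positivity)
    have h8 : (2 * (j : ℝ)) * (1 / (16 * (j : ℝ))) = 1 / 8 := by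
      field_simp
      norm_num
    linarith
  have h5 : es y (Pr ∪ PN) (2 * j + 1) ≤ 1 / 4 * (PU * PV) := by
    refine h.tail.trans ?_
    rw [h2]
    have : PU * ∏ p ∈ pj T, (1 - y p) ≤ PU := by nlinarith
    have := mul_le_mul_of_nonneg_right this hPV0
    linarith
  have h6 : PU * (3 / 4) ≤ ∏ ω ∈ (Pr ×ˢ (univ : Finset C)) \ T, (1 - x ω) := by
    have h7 : ∏ ω ∈ Pr ×ˢ (univ : Finset C), (1 - x ω) ≤
        ∏ ω ∈ (Pr ×ˢ (univ : Finset C)) \ T, (1 - x ω) := by
      rw [← prod_sdiff hT]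
      have h8 : ∏ ω ∈ T, (1 - x ω) ≤ 1 := prod_le_one
        (fun ω hω => sub_nonneg.mpr (h.xle (hT' ω hω))) fun ω hω => by linarith [h.x0 ω (hT' ω hω)]
      have h9 : 0 ≤ ∏ ω ∈ (Pr ×ˢ (univ : Finset C)) \ T, (1 - x ω) := prod_nonneg fun ω hω =>
        sub_nonneg.mpr (h.xle (mem_product.mp (sdiff_subset hω)).1)
      nlinarith
    refine le_trans ?_ h7
    rw [prod_product]
    have h8 : ∏ p ∈ Pr, (1 - y p) ≤ ∏ p ∈ Pr, ∏ c, (1 - x (p, c)) := by
      refine prod_le_prod (fun p hp => sub_nonneg.mpr (hy p (mem_union_left _ hp)).2) fun p hp => ?_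
      rw [h.yx p hp]
      exact one_sub_sum_le (fun c _ => h.x0 (p, c) hp) fun c _ => h.xle (ω := (p, c)) hp
    refine le_trans ?_ h8
    rw [← prod_sdiff hpj]
    exact mul_le_mul_of_nonneg_left h4 hPU0
  have h7 : PU * PV + es y (Pr ∪ PN) (2 * j + 1) ≤
      2 * PV * ∏ ω ∈ (Pr ×ˢ (univ : Finset C)) \ T, (1 - x ω) := by
    have h8 := mul_le_mul_of_nonneg_left h6 hPV0
    nlinarith
  rw [h1]
  have h8 := mul_le_mul_of_nonneg_left h7 hxT
  linarith

open Classical in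
/-- **the transfer** -/
theorem Trf.main (h : Trf I w A V Pr PN x y X Err j) (hj : 1 ≤ j) (Bd : Finset (ℕ × C) → Prop) :
    ∑ i ∈ I with (Bd (A i) ∧ V i ∩ PN = ∅), w i ≤
      2 * X * (∏ p ∈ PN, (1 - y p)) * Ew x (Pr ×ˢ univ) (fun T => ind (Bd T ∧ T.card ≤ 2 * j)) +
        X * es x (Pr ×ˢ univ) (2 * j + 1) +
        Err * (cs (Pr ×ˢ (univ : Finset C)) (2 * j) * cs (Pr ∪ PN) (2 * j) +
          cs (Pr ×ˢ (univ : Finset C)) (2 * j + 1)) := by
  have hPN0 : 0 ≤ ∏ p ∈ PN, (1 - y p) :=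
    prod_nonneg fun p hp => sub_nonneg.mpr (h.yr p (mem_union_right _ hp)).2
  have hAsub : ∀ i ∈ I, A i ⊆ Pr ×ˢ (univ : Finset C) := fun i hi ω hω =>
    mem_product.mpr ⟨h.A1 i hi ω hω, mem_univ _⟩
  have hE := h.E0
  -- split by the number of the primes
  have hsplit : ∑ i ∈ I with (Bd (A i) ∧ V i ∩ PN = ∅), w i ≤
      ∑ i ∈ I with ((A i).card ≤ 2 * j ∧ Bd (A i) ∧ V i ∩ PN = ∅), w i +
      ∑ i ∈ I with ¬ ((A i).card ≤ 2 * j), w i := by
    rw [← sum_filter_add_sum_filter_not (I.filter fun i => Bd (A i) ∧ V i ∩ PN = ∅)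
      (fun i => (A i).card ≤ 2 * j)]
    refine add_le_add (le_of_eq ?_) ?_
    · rw [filter_filter]
      refine sum_congr ?_ fun _ _ => rfl
      ext i
      simp only [mem_filter]
      tauto
    · refine sum_le_sum_of_subset_of_nonneg ?_ fun i hi _ => h.w0 i (mem_filter.mp hi).1
      intro i hi
      rw [filter_filter, mem_filter] at hi
      rw [mem_filter]
      exact ⟨hi.1, hi.2.2⟩
  -- the first part
  have hfirst : ∑ i ∈ I with ((A i).card ≤ 2 * j ∧ Bd (A i) ∧ V i ∩ PN = ∅), w i ≤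
      ∑ T ∈ (Pr ×ˢ (univ : Finset C)).powerset, (if T.card < 2 * j + 1 then
        (2 * X * (∏ p ∈ PN, (1 - y p)) *
          (((∏ ω ∈ T, x ω) * ∏ ω ∈ (Pr ×ˢ (univ : Finset C)) \ T, (1 - x ω)) * ind (Bd T)) +
          Err * cs (Pr ∪ PN) (2 * j)) else 0) := by
    have e1 : ∑ i ∈ I with ((A i).card ≤ 2 * j ∧ Bd (A i) ∧ V i ∩ PN = ∅), w i =
        ∑ T ∈ (Pr ×ˢ (univ : Finset C)).powerset,
          ∑ i ∈ (I.filter fun i => (A i).card ≤ 2 * j ∧ Bd (A i) ∧ V i ∩ PN = ∅) with A i = T, w i := by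
      rw [sum_fiberwise_of_maps_to]
      intro i hi
      exact mem_powerset.mpr (hAsub i (mem_filter.mp hi).1)
    rw [e1]
    refine sum_le_sum fun T hT => ?_
    have hT' := mem_powerset.mp hT
    have hTP : ∀ ω ∈ T, ω.1 ∈ Pr := fun ω hω => (mem_product.mp (hT' hω)).1
    have hxT : 0 ≤ ∏ ω ∈ T, x ω := prod_nonneg fun ω hω => h.x0 ω (hTP ω hω)
    have hxT' : 0 ≤ ∏ ω ∈ (Pr ×ˢ (univ : Finset C)) \ T, (1 - x ω) := prod_nonneg fun ω hω =>
      sub_nonneg.mpr (h.xle (mem_product.mp (sdiff_subset hω)).1)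
    have hnn : 0 ≤ 2 * X * (∏ p ∈ PN, (1 - y p)) *
          (((∏ ω ∈ T, x ω) * ∏ ω ∈ (Pr ×ˢ (univ : Finset C)) \ T, (1 - x ω)) * ind (Bd T)) := by
      have := h.X0
      have := ind_nonneg (Bd T)
      positivity
    have hnn2 : 0 ≤ Err * cs (Pr ∪ PN) (2 * j) := mul_nonneg hE (cs_nonneg _ _)
    split_ifs with hc
    · by_cases hBd : Bd T
      · by_cases hTi : Inj T
        · have h1 : ∑ i ∈ (I.filter fun i => (A i).card ≤ 2 * j ∧ Bd (A i) ∧ V i ∩ PN = ∅) with A i = T, w i ≤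
              ∑ i ∈ I with (A i = T ∧ V i ∩ PN = ∅), w i := by
            refine sum_le_sum_of_subset_of_nonneg ?_ fun i hi _ => h.w0 i (mem_filter.mp hi).1
            intro i hi
            rw [filter_filter, mem_filter] at hi
            rw [mem_filter]
            exact ⟨hi.1, hi.2.2, hi.2.1.2.2⟩
          have h2 := h.exact hTP hTi (by omega)
          have h3 := h.two hj hT' (by omega)
          have h4 := mul_le_mul_of_nonneg_left h3 h.X0
          rw [ind_true hBd, mul_one]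
          linarith
        · -- no index
          have h1 : ∑ i ∈ (I.filter fun i => (A i).card ≤ 2 * j ∧ Bd (A i) ∧ V i ∩ PN = ∅) with A i = T, w i = 0 := by
            refine sum_eq_zero fun i hi => ?_
            rw [filter_filter, mem_filter] at hi
            exfalso
            apply hTi
            rw [← hi.2.2]
            exact h.A2 i hi.1
          rw [h1]
          linarith
      · have h1 : ∑ i ∈ (I.filter fun i => (A i).card ≤ 2 * j ∧ Bd (A i) ∧ V i ∩ PN = ∅) with A i = T, w i = 0 := by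
          refine sum_eq_zero fun i hi => ?_
          rw [filter_filter, mem_filter] at hi
          exfalso
          apply hBd
          rw [← hi.2.2]
          exact hi.2.1.2.1
        rw [h1]
        linarith
    · refine le_of_eq (sum_eq_zero fun i hi => ?_)
      rw [filter_filter, mem_filter] at hi
      exfalso
      apply hc
      rw [← hi.2.2]
      have := hi.2.1.1
      omega
  have hfirst2 : ∑ T ∈ (Pr ×ˢ (univ : Finset C)).powerset, (if T.card < 2 * j + 1 then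
        (2 * X * (∏ p ∈ PN, (1 - y p)) *
          (((∏ ω ∈ T, x ω) * ∏ ω ∈ (Pr ×ˢ (univ : Finset C)) \ T, (1 - x ω)) * ind (Bd T)) +
          Err * cs (Pr ∪ PN) (2 * j)) else 0) ≤
      2 * X * (∏ p ∈ PN, (1 - y p)) * Ew x (Pr ×ˢ univ) (fun T => ind (Bd T ∧ T.card ≤ 2 * j)) +
        Err * (cs (Pr ×ˢ (univ : Finset C)) (2 * j) * cs (Pr ∪ PN) (2 * j)) := by
    have e1 : Err * (cs (Pr ×ˢ (univ : Finset C)) (2 * j) * cs (Pr ∪ PN) (2 * j)) =
        ∑ T ∈ (Pr ×ˢ (univ : Finset C)).powerset,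
          (if T.card < 2 * j + 1 then Err * cs (Pr ∪ PN) (2 * j) else 0) := by
      have e2 : ∀ T ∈ (Pr ×ˢ (univ : Finset C)).powerset,
          (if T.card < 2 * j + 1 then Err * cs (Pr ∪ PN) (2 * j) else 0) =
          (Err * cs (Pr ∪ PN) (2 * j)) * (if T.card < 2 * j + 1 then 1 else 0) := by
        intro T _
        split_ifs <;> ring
      rw [sum_congr rfl e2, ← mul_sum]
      have e3 : ∑ T ∈ (Pr ×ˢ (univ : Finset C)).powerset, (if T.card < 2 * j + 1 then (1 : ℝ) else 0) =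
          cs (Pr ×ˢ (univ : Finset C)) (2 * j) := rfl
      rw [e3]
      ring
    rw [e1]
    unfold Ew
    rw [mul_sum, ← sum_add_distrib]
    refine sum_le_sum fun T hT => ?_
    have hT' := mem_powerset.mp hT
    have hTP : ∀ ω ∈ T, ω.1 ∈ Pr := fun ω hω => (mem_product.mp (hT' hω)).1
    have hxT : 0 ≤ ∏ ω ∈ T, x ω := prod_nonneg fun ω hω => h.x0 ω (hTP ω hω)
    have hxT' : 0 ≤ ∏ ω ∈ (Pr ×ˢ (univ : Finset C)) \ T, (1 - x ω) := prod_nonneg fun ω hω =>
      sub_nonneg.mpr (h.xle (mem_product.mp (sdiff_subset hω)).1)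
    split_ifs with hc
    · have e4 : ind (Bd T ∧ T.card ≤ 2 * j) = ind (Bd T) := ind_congr ⟨fun h => h.1, fun h => ⟨h, by omega⟩⟩
      simp only [e4]
      exact le_rfl
    · have := h.X0
      have := ind_nonneg (Bd T ∧ T.card ≤ 2 * j)
      positivity
  -- the second part
  have hsecond : ∑ i ∈ I with ¬ ((A i).card ≤ 2 * j), w i ≤
      X * es x (Pr ×ˢ univ) (2 * j + 1) + Err * cs (Pr ×ˢ (univ : Finset C)) (2 * j + 1) := by
    have hnn : ∀ i ∈ I, ∀ T ∈ (Pr ×ˢ (univ : Finset C)).powerset,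
        0 ≤ (fun T => if T.card = 2 * j + 1 ∧ T ⊆ A i then w i else 0) T := by
      intro i hi T _
      have hw := h.w0 i hi
      dsimp only
      split_ifs
      · exact hw
      · exact le_rfl
    have h1 : ∑ i ∈ I with ¬ ((A i).card ≤ 2 * j), w i ≤
        ∑ i ∈ I, ∑ T ∈ (Pr ×ˢ (univ : Finset C)).powerset,
          (if T.card = 2 * j + 1 ∧ T ⊆ A i then w i else 0) := by
      rw [sum_filter]
      refine sum_le_sum fun i hi => ?_
      by_cases hc : (A i).card ≤ 2 * j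
      · rw [if_neg (not_not.mpr hc)]
        exact sum_nonneg (hnn i hi)
      · rw [if_pos hc]
        obtain ⟨T, hT, hTc⟩ := exists_subset_card_eq (show 2 * j + 1 ≤ (A i).card by omega)
        have h2 : (if T.card = 2 * j + 1 ∧ T ⊆ A i then w i else 0) = w i := if_pos ⟨hTc, hT⟩
        calc w i = (fun T => if T.card = 2 * j + 1 ∧ T ⊆ A i then w i else 0) T := h2.symm
          _ ≤ _ := single_le_sum (f := fun T => if T.card = 2 * j + 1 ∧ T ⊆ A i then w i else 0)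
            (hnn i hi) (mem_powerset.mpr (hT.trans (hAsub i hi)))
    refine h1.trans ?_
    rw [sum_comm]
    unfold es cs
    rw [mul_sum, mul_sum, ← sum_add_distrib]
    refine sum_le_sum fun T hT => ?_
    have hT' := mem_powerset.mp hT
    have hTP : ∀ ω ∈ T, ω.1 ∈ Pr := fun ω hω => (mem_product.mp (hT' hω)).1
    have hxT : 0 ≤ ∏ ω ∈ T, x ω := prod_nonneg fun ω hω => h.x0 ω (hTP ω hω)
    have hX := h.X0
    by_cases hc : T.card = 2 * j + 1
    · rw [if_pos hc, if_pos (by omega), mul_one]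
      by_cases hTi : Inj T
      · have h2 := h.law T hTP hTi (by omega) ∅ (fun p hp => absurd hp (notMem_empty p)) (by simp)
        rw [prod_empty, mul_one] at h2
        have h3 : ∑ i ∈ I, (if T.card = 2 * j + 1 ∧ T ⊆ A i then w i else 0) =
            ∑ i ∈ I with (T ⊆ A i ∧ ∅ ⊆ V i), w i := by
          rw [sum_filter]
          refine sum_congr rfl fun i _ => ?_
          by_cases h4 : T ⊆ A i
          · rw [if_pos ⟨hc, h4⟩, if_pos ⟨h4, empty_subset _⟩]
          · rw [if_neg fun h5 => h4 h5.2, if_neg fun h5 => h4 h5.1]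
        rw [h3]
        have h6 : |∑ i ∈ I with (T ⊆ A i ∧ ∅ ⊆ V i), w i - X * ∏ ω ∈ T, x ω| ≤ Err := by
          convert h2
        have h7 := (abs_le.mp h6).2
        linarith
      · have h3 : ∑ i ∈ I, (if T.card = 2 * j + 1 ∧ T ⊆ A i then w i else 0) = 0 := by
          refine sum_eq_zero fun i hi => ?_
          rw [if_neg]
          rintro ⟨-, h4⟩
          apply hTi
          intro ω hω ω' hω' he
          exact h.A2 i hi ω (h4 hω) ω' (h4 hω') he
        rw [h3]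
        positivity
    · have h3 : ∑ i ∈ I, (if T.card = 2 * j + 1 ∧ T ⊆ A i then w i else 0) = 0 :=
        sum_eq_zero fun i _ => if_neg fun h4 => hc h4.1
      rw [h3, if_neg hc]
      split_ifs
      · simp; exact hE
      · simp
  have hfin : Err * (cs (Pr ×ˢ (univ : Finset C)) (2 * j) * cs (Pr ∪ PN) (2 * j) +
          cs (Pr ×ˢ (univ : Finset C)) (2 * j + 1)) =
      Err * (cs (Pr ×ˢ (univ : Finset C)) (2 * j) * cs (Pr ∪ PN) (2 * j)) +
        Err * cs (Pr ×ˢ (univ : Finset C)) (2 * j + 1) := by ring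
  rw [hfin]
  linarith

end

end Pool.Agent.Lib.OW
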