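import Mathlib
import Pool.Agent.Lib.MP_7b7e48_nt.OW.MTH
import Pool.Agent.Lib.MP_7b7e48_nt.OW.TRU

/-!
# Theorem LF: linked pairs in a family of pairs of linear forms
-/

set_option autoImplicit false

open Finset Filter Topology

namespace Pool.Agent.Lib.OW

/-- a truncated link of `X` and `Y` -/
def TLnk (Q : ℕ) (δ : ℝ) (ρ : (ZMod Q)ˣ) (R : Finset ℕ) (L : ℝ) (X Y : ℕ) : Prop :=
  ∃ α β : ℕ, α ∣ X ∧ β ∣ Y ∧ α.Coprime β ∧ Squarefree α ∧ Squarefree β ∧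
    (∀ p : ℕ, p.Prime → p ∣ α * β → p ∈ R) ∧ 0 < β ∧ β < α ∧ (α : ℝ) < Real.exp (2 * δ) * β ∧
    (α : ZMod Q) = (ρ : ZMod Q) * (β : ZMod Q) ∧ (α : ℝ) ≤ L

/-- a success gives a truncated link -/
theorem tlnk_of_suc {Q : ℕ} (hQ1 : 1 ≤ Q) {δ u₀ u₁ : ℝ} (hQ : (Q : ℝ) ≤ Real.exp u₀) (hu1 : 0 ≤ u₁)
    (ρ : (ZMod Q)ˣ) {T : Finset (ℕ × Bool)}
    (hT : T ⊆ BL u₀ u₁) {X Y : ℕ} (hX : ∀ p, (p, false) ∈ T → p ∣ X) (hY : ∀ p, (p, true) ∈ T → p ∣ Y)
    (hs : Suc hh (gg Q) δ ρ T) {m : ℕ} (hm : T.card ≤ m) :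
    TLnk Q δ ρ (PR u₀ u₁) (Real.exp (u₁ * m)) X Y := by
  -- apply `lnk_of_suc` to the products of the primes of `T`
  obtain ⟨X', hX'⟩ : ∃ X' : ℕ, X' = ∏ p ∈ col T false, p := ⟨_, rfl⟩
  obtain ⟨Y', hY'⟩ : ∃ Y' : ℕ, Y' = ∏ p ∈ col T true, p := ⟨_, rfl⟩
  have hpr : ∀ c, ∀ p ∈ col T c, p ∈ PR u₀ u₁ := by
    intro c p hp
    exact mem_BL.mp (hT (mem_col.mp hp))
  have hprime : ∀ c, ∀ p ∈ col T c, p.Prime := fun c p hp => (mem_PR.mp (hpr c p hp)).1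
  have hXd : X' ∣ X := by
    rw [hX']
    exact prod_primes_dvd X (fun p hp => (hprime _ p hp).prime) fun p hp => hX p (mem_col.mp hp)
  have hYd : Y' ∣ Y := by
    rw [hY']
    exact prod_primes_dvd Y (fun p hp => (hprime _ p hp).prime) fun p hp => hY p (mem_col.mp hp)
  obtain ⟨α, β, h1, h2, h3, h4, h5, h6, h7, h8, h9, h10⟩ := lnk_of_suc (X := X') (Y := Y') hQ1 hQ ρ hT
    (fun p hp => by rw [hX']; exact dvd_prod_of_mem _ (mem_col.mpr hp))
    (fun p hp => by rw [hY']; exact dvd_prod_of_mem _ (mem_col.mpr hp)) hs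
  refine ⟨α, β, h1.trans hXd, h2.trans hYd, h3, h4, h5, h6, h7, h8, h9, h10, ?_⟩
  have hX0 : 0 < X' := by
    rw [hX']
    exact prod_pos fun p hp => (hprime _ p hp).pos
  have h11 : (α : ℝ) ≤ X' := by exact_mod_cast Nat.le_of_dvd hX0 h1
  refine h11.trans ?_
  have h12 : (X' : ℝ) ≤ ∏ _p ∈ col T false, Real.exp u₁ := by
    rw [hX']
    push_cast
    exact prod_le_prod (fun p _ => Nat.cast_nonneg p) fun p hp => (mem_PR.mp (hpr _ p hp)).2.2
  refine h12.trans ?_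
  rw [prod_const, ← Real.exp_nat_mul, Real.exp_le_exp, mul_comm]
  refine mul_le_mul_of_nonneg_left ?_ hu1
  have h13 : (col T false).card ≤ T.card := by
    unfold col
    exact card_image_le.trans (card_filter_le _ _)
  exact_mod_cast h13.trans hm

theorem Ew_dom {Ω : Type*} [DecidableEq Ω] {x x' : Ω → ℝ} {S : Finset Ω} {F : Finset Ω → ℝ} {D : ℝ}
    (hF : ∀ T ⊆ S, 0 ≤ F T)
    (h : ∀ T ⊆ S, F T ≠ 0 → (∏ ω ∈ T, x ω) * ∏ ω ∈ S \ T, (1 - x ω) ≤
      D * ((∏ ω ∈ T, x' ω) * ∏ ω ∈ S \ T, (1 - x' ω))) : Ew x S F ≤ D * Ew x' S F := by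
  unfold Ew
  rw [mul_sum]
  refine sum_le_sum fun T hT => ?_
  have hT' := mem_powerset.mp hT
  by_cases h0 : F T = 0
  · rw [h0]
    simp
  · have h1 := mul_le_mul_of_nonneg_right (h T hT' h0) (hF T hT')
    linarith

theorem Ew_ge_empty {Ω : Type*} [DecidableEq Ω] {x : Ω → ℝ} {S : Finset Ω} (hx0 : ∀ ω ∈ S, 0 ≤ x ω)
    (hx1 : ∀ ω ∈ S, x ω ≤ 1) {F : Finset Ω → ℝ} (hF : ∀ T ⊆ S, 0 ≤ F T) :
    (∏ ω ∈ S, (1 - x ω)) * F ∅ ≤ Ew x S F := by
  unfold Ew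
  have h := single_le_sum (f := fun T => ((∏ ω ∈ T, x ω) * ∏ ω ∈ S \ T, (1 - x ω)) * F T)
    (fun T hT => mul_nonneg (Ew_weight_nonneg hx0 hx1 (mem_powerset.mp hT)) (hF T (mem_powerset.mp hT)))
    (empty_mem_powerset S)
  simpa using h

/-- comparison of the two models -/
theorem model_dom {s t : ℝ} {Pr : Finset ℕ} (hPr : Pr ⊆ PR s t) {j : ℕ} (hj : 4 * (j : ℝ) ≤ Real.exp s)
    (hexc : 4 * (((PR s t \ Pr).card : ℕ) : ℝ) ≤ Real.exp s) {Bd : Finset (ℕ × Bool) → Prop}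
    (hBd : ∀ T T', T ⊆ T' → Bd T' → Bd T) :
    Ew (fun ω : ℕ × Bool => 1 / (ω.1 : ℝ)) (Pr ×ˢ univ) (fun T => ind (Bd T ∧ T.card ≤ 2 * j)) ≤
      4 * Ew xx (BL s t) (fun T => ind (Bd T)) := by
  have hes := Real.exp_pos s
  have hsub : Pr ×ˢ (univ : Finset Bool) ⊆ BL s t := by
    intro ω hω
    rw [mem_BL]
    exact hPr (mem_product.mp hω).1
  have hp1 : ∀ ω ∈ BL s t, (1 : ℝ) ≤ ω.1 ∧ Real.exp s < ω.1 := by
    intro ω hω
    have h1 := mem_PR.mp (mem_BL.mp hω)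
    exact ⟨by exact_mod_cast h1.1.one_lt.le, h1.2.1⟩
  -- first comparison
  have h1 : Ew (fun ω : ℕ × Bool => 1 / (ω.1 : ℝ)) (Pr ×ˢ univ) (fun T => ind (Bd T ∧ T.card ≤ 2 * j)) ≤
      2 * Ew xx (Pr ×ˢ univ) (fun T => ind (Bd T ∧ T.card ≤ 2 * j)) := by
    refine Ew_dom (fun _ _ => ind_nonneg _) fun T hT h0 => ?_
    have hTc : T.card ≤ 2 * j := by
      by_contra hc
      exact h0 (ind_false fun h => hc h.2)
    have e1 : ∏ ω ∈ T, (1 / (ω.1 : ℝ)) = (∏ ω ∈ T, xx ω) * ∏ ω ∈ T, (1 + 1 / (ω.1 : ℝ)) := by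
      rw [← prod_mul_distrib]
      refine prod_congr rfl fun ω hω => ?_
      have := (hp1 ω (hsub (hT hω))).1
      unfold xx
      field_simp
    have e2 : ∏ ω ∈ T, (1 + 1 / (ω.1 : ℝ)) ≤ 2 := by
      have e3 : ∏ ω ∈ T, (1 + 1 / (ω.1 : ℝ)) ≤ Real.exp (∑ ω ∈ T, 1 / (ω.1 : ℝ)) := by
        rw [Real.exp_sum]
        refine prod_le_prod (fun ω _ => by positivity) fun ω _ => ?_
        have := Real.add_one_le_exp (1 / (ω.1 : ℝ))
        linarith
      refine e3.trans ?_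
      have e4 : ∑ ω ∈ T, 1 / (ω.1 : ℝ) ≤ 1 / 2 := by
        calc ∑ ω ∈ T, 1 / (ω.1 : ℝ) ≤ ∑ _ω ∈ T, 1 / Real.exp s := by
              refine sum_le_sum fun ω hω => ?_
              exact one_div_le_one_div_of_le hes (hp1 ω (hsub (hT hω))).2.le
          _ = T.card * (1 / Real.exp s) := by rw [sum_const, nsmul_eq_mul]
          _ ≤ (2 * j) * (1 / Real.exp s) := by
              refine mul_le_mul_of_nonneg_right ?_ (by positivity)
              exact_mod_cast hTc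
          _ ≤ 1 / 2 := by
              rw [mul_one_div, div_le_div_iff₀ hes (by norm_num)]
              linarith
      have e5 : Real.exp (1 / 2) ≤ 2 := by
        have h10 : Real.exp (1 / 2) ^ 2 = Real.exp 1 := by
          rw [← Real.exp_nat_mul]
          norm_num
        have h11 := Real.exp_one_lt_d9
        have h12 := Real.exp_pos (1 / 2)
        nlinarith
      exact (Real.exp_le_exp.mpr e4).trans e5
    have e3 : ∏ ω ∈ (Pr ×ˢ (univ : Finset Bool)) \ T, (1 - 1 / (ω.1 : ℝ)) ≤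
        ∏ ω ∈ (Pr ×ˢ (univ : Finset Bool)) \ T, (1 - xx ω) := by
      refine prod_le_prod (fun ω hω => ?_) fun ω hω => ?_
      · have := (hp1 ω (hsub (sdiff_subset hω))).1
        rw [sub_nonneg, div_le_one (by linarith)]
        exact this
      · have := (hp1 ω (hsub (sdiff_subset hω))).1
        have : xx ω ≤ 1 / (ω.1 : ℝ) := by
          unfold xx
          exact one_div_le_one_div_of_le (by linarith) (by linarith)
        linarith
    have e4 : 0 ≤ ∏ ω ∈ T, xx ω := prod_nonneg fun ω _ => xx_nonneg ω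
    have e5 : 0 ≤ ∏ ω ∈ (Pr ×ˢ (univ : Finset Bool)) \ T, (1 - 1 / (ω.1 : ℝ)) := by
      refine prod_nonneg fun ω hω => ?_
      have := (hp1 ω (hsub (sdiff_subset hω))).1
      rw [sub_nonneg, div_le_one (by linarith)]
      exact this
    rw [e1]
    calc (∏ ω ∈ T, xx ω) * (∏ ω ∈ T, (1 + 1 / (ω.1 : ℝ))) *
          ∏ ω ∈ (Pr ×ˢ (univ : Finset Bool)) \ T, (1 - 1 / (ω.1 : ℝ)) ≤
          (∏ ω ∈ T, xx ω) * 2 * ∏ ω ∈ (Pr ×ˢ (univ : Finset Bool)) \ T, (1 - xx ω) :=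
          mul_le_mul (mul_le_mul_of_nonneg_left e2 e4) e3 e5 (by positivity)
      _ = _ := by ring
  have h2 : Ew xx (Pr ×ˢ univ) (fun T => ind (Bd T ∧ T.card ≤ 2 * j)) ≤
      Ew xx (Pr ×ˢ univ) (fun T => ind (Bd T)) :=
    Ew_mono (fun ω _ => xx_nonneg ω) (fun ω hω => (xx_le (hsub hω)).trans (by norm_num))
      fun T _ => ind_mono fun h => h.1
  -- the excluded primes
  have h3 : BL s t = (Pr ×ˢ univ) ∪ ((PR s t \ Pr) ×ˢ univ) := by
    ext ω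
    rw [mem_BL, mem_union, mem_product, mem_product, Finset.mem_sdiff]
    simp only [mem_univ, and_true]
    constructor
    · intro h
      by_cases h4 : ω.1 ∈ Pr
      · exact Or.inl h4
      · exact Or.inr ⟨h, h4⟩
    · rintro (h | h)
      · exact hPr h
      · exact h.1
  have hd : Disjoint (Pr ×ˢ (univ : Finset Bool)) ((PR s t \ Pr) ×ˢ univ) := by
    rw [disjoint_left]
    intro ω h4 h5
    rw [mem_product] at h4 h5
    exact (Finset.mem_sdiff.mp h5.1).2 h4.1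
  have hsub2 : (PR s t \ Pr) ×ˢ (univ : Finset Bool) ⊆ BL s t := by
    rw [h3]
    exact subset_union_right
  have h4 : 1 / 2 ≤ ∏ ω ∈ (PR s t \ Pr) ×ˢ (univ : Finset Bool), (1 - xx ω) := by
    refine le_trans ?_ (one_sub_sum_le (fun ω _ => xx_nonneg ω)
      fun ω hω => (xx_le (hsub2 hω)).trans (by norm_num))
    have h5 : ∑ ω ∈ (PR s t \ Pr) ×ˢ (univ : Finset Bool), xx ω ≤
        ∑ _ω ∈ (PR s t \ Pr) ×ˢ (univ : Finset Bool), 1 / Real.exp s := by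
      refine sum_le_sum fun ω hω => ?_
      unfold xx
      refine one_div_le_one_div_of_le hes ?_
      have := (hp1 ω (hsub2 hω)).2
      linarith
    rw [sum_const, nsmul_eq_mul, card_product, card_univ, Fintype.card_bool] at h5
    have h6 : (((PR s t \ Pr).card * 2 : ℕ) : ℝ) * (1 / Real.exp s) ≤ 1 / 2 := by
      rw [mul_one_div, div_le_div_iff₀ hes (by norm_num)]
      push_cast
      linarith
    linarith
  have h5 : 1 / 2 * Ew xx (Pr ×ˢ univ) (fun T => ind (Bd T)) ≤ Ew xx (BL s t) (fun T => ind (Bd T)) := by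
    rw [h3, Ew_union xx _ _ hd, ← Ew_smul]
    refine Ew_mono (fun ω _ => xx_nonneg ω) (fun ω hω => (xx_le (hsub hω)).trans (by norm_num))
      fun T _ => ?_
    have h6 := Ew_ge_empty (x := xx) (S := (PR s t \ Pr) ×ˢ (univ : Finset Bool)) (fun ω _ => xx_nonneg ω)
      (fun ω hω => (xx_le (hsub2 hω)).trans (by norm_num)) (F := fun T' => ind (Bd (T ∪ T')))
      (fun T' _ => ind_nonneg _)
    refine le_trans ?_ h6
    rw [union_empty]
    exact mul_le_mul_of_nonneg_right h4 (ind_nonneg _)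
  linarith

end Pool.Agent.Lib.OW
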