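import Mathlib
import Pool.Agent.Lib.MP_7b7e48_nt.OW.LFM
import Pool.Agent.Lib.MP_7b7e48_nt.OW.ODefs

/-!
# The bridge between the truncated links of theorem LF and the links `Lk`
-/

set_option autoImplicit false

open Finset

namespace Pool.Agent.Lib.OW

theorem cop_one_add {W D : ℕ} (hWD : W ∣ D) : (1 + D).Coprime (D * W) := by
  have h1 : (1 + D).Coprime D := by
    rw [Nat.coprime_add_self_left]
    exact Nat.coprime_one_left D
  exact Nat.Coprime.mul_right h1 (Nat.Coprime.coprime_dvd_right hWD h1)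

theorem exp_two_thirds : Real.exp (2 * (1 / 3)) ≤ 2 := by
  have h1 : Real.exp (2 * (1 / 3)) ^ 3 = Real.exp 1 ^ 2 := by
    rw [← Real.exp_nat_mul, ← Real.exp_nat_mul]
    norm_num
  have h2 := Real.exp_one_lt_d9
  have h3 := Real.exp_pos 1
  have h4 : Real.exp 1 ^ 2 ≤ 8 := by nlinarith
  by_contra hcon
  push Not at hcon
  have h5 : (2 : ℝ) ^ 3 < Real.exp (2 * (1 / 3)) ^ 3 := pow_lt_pow_left₀ hcon (by norm_num) (by norm_num)
  rw [h1] at h5
  linarith

theorem bridge {W N D X X' Y : ℕ} (hWD : W ∣ D) (hD : 0 < D) (hXY : X' = Y + D * N)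
    (hXX : X ∣ X') (h : (1 + D).Coprime (D * W))
    (hl : TLnk (D * W) (1 / 3) (ZMod.unitOfCoprime (1 + D) h) (RP N)
      (Real.exp ((Real.log N) ^ ((1 : ℝ) / 40))) X Y) : Lk W N X' Y := by
  obtain ⟨α, β, h1, h2, h3, h4, h5, h6, h7, h8, h9, h10, h11⟩ := hl
  rw [ZMod.coe_unitOfCoprime] at h10
  have h12 : α ≡ (1 + D) * β [MOD D * W] := by
    rw [← ZMod.natCast_eq_natCast_iff]
    push_cast at h10 ⊢
    exact h10
  have h13 : α ≡ β [MOD D] := by
    have e1 : α ≡ (1 + D) * β [MOD D] := Nat.ModEq.of_mul_right W h12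
    refine e1.trans ?_
    have e2 : (1 + D) * β = β + D * β := by ring
    rw [e2]
    exact Nat.ModEq.symm (by
      have : β + D * β ≡ β + 0 [MOD D] := Nat.ModEq.add_left β (Nat.modEq_zero_iff_dvd.mpr (Dvd.intro _ rfl))
      simpa using this.symm)
  have h14 : D ∣ α - β := (Nat.modEq_iff_dvd' h8.le).mp h13.symm
  obtain ⟨e, he⟩ := h14
  have h15 : α = β + D * e := by omega
  have he0 : 0 < e := by
    rcases Nat.eq_zero_or_pos e with h16 | h16
    · rw [h16, mul_zero] at h15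
      omega
    · exact h16
  refine ⟨α, β, D, e, hXY, hWD, hD, h1.trans hXX, h2, h4, h5, h3, h6, h7, he0, h15, ?_, ?_, ?_⟩
  · -- `e = β (mod W)`
    rw [h15] at h12
    have e2 : (1 + D) * β = β + D * β := by ring
    rw [e2] at h12
    have h16 := Nat.ModEq.add_left_cancel' β h12
    exact Nat.ModEq.mul_left_cancel' (by omega) h16
  · have h16 : (α : ℝ) < 2 * β := by
      refine lt_of_lt_of_le h9 (mul_le_mul_of_nonneg_right exp_two_thirds (Nat.cast_nonneg β))
    exact_mod_cast h16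
  · unfold LL
    exact Nat.le_floor h11

end Pool.Agent.Lib.OW
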