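import Pool.Agent.Lib.MP_7b7e48_nt.OW.V3

/-!
# Module V4 (120 minutes): few primes with `c = 1` altogether

`K = log N`. PROOF. `β = 1` (`beta_one`), `s0 = sQ c ⌊N^(99/200)⌋ ≤ C ε` (`tiny`, `HV.q`). (i) `N^(99/200) < q ≤ N^(9/10)`, `c q = 1`: for `k`, `N^(1/50) < k ≤ N^(2/25)`, coprime to `W N`, without prime factor `q'` with `c q' = 1`: `lam k = c k`, so `n = q k ∈ (N^(51/100), N^(49/50)]` has `lam n = -c n`: bad in the sense of `logbad`;
every `n ≤ N` has at most `2` prime factors `> N^(99/200)`. `∑ 1/k ≥ c1 del N K - s0 C del N K` (as in `V3`), so `∑ 1/q ≤ C ε`.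
(ii) `N^(9/10) < q ≤ N exp(-K^(1/2))`, `c q = 1`; let `σt` be the sum of `1/q` over these `q`. `D_q = Dom N W (a q^(-1)) ⌈W N/q⌉`, `|D_q| ≥ del N (N/q)/2` (`dom_two` with `θ = 1/2`). The `k ∈ D_q` without prime factor `q'`, `c q' = 1`, give `n = q k ∈ Zst N W a c 1`, each `n` at most once.. twice. So `∑_q |D_q| ≤ 2 ε del N N + E`,
`E` = number of pairs `(q, k)` with a prime `q' ∣ k`, `c q' = 1`, `q' ≤ W N^(1/10)`: `k = q' k''`, `k'' < W N/(q q') + 1`, `(k'', N) = 1`. Pairs `(q, q')` with `W N/(q q') ≥ exp(K^(1/3))`: `≤ 4 del N W N/(q q')` each (`dom_two`, `θ = 1/3`), total `≤ 4 W del N N σt s0`.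
The other pairs: `k'' ≤ exp(K^(1/3)) + 1`, for given `k''`, `q'` the number of primes `q ≤ W N/(k'' q')` is `≤ C (W N/(k'' q'))/K` (`cheb_up`; the quotient is `≥ N^(1/2)`), total `≤ C W N s0 (K^(1/3) + 2)/K ≤ del N N s0` (`del_low`.. `del_loglog`). So `del N N σt/2 ≤ 2 ε del N N + 4 W del N N σt s0 + del N N s0` and `σt ≤ C ε` if `4 W s0 ≤ 1/4`.
(iii) `N exp(-K^(1/2)) < q ≤ W N`: `prime_rec`: `≤ C (K^(1/2) + log W + 2)/K ≤ ε` for `N ≥ N0(ε)`.
-/

open Finset
open Pool.Agent.Lib.MP_45349e_nt.LS (lam)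

namespace Pool.Agent.Lib.OW

open Pool.Agent.Lib.RG (RC LV rr SS PB)

private theorem V4_del_nonneg (N : ℕ) : 0 ≤ del N := by unfold del; positivity

private theorem V4_mono {N W a : ℕ} {c : ℕ → ℝ} {β ε ε' : ℝ} (h : HV N W a c β ε) (hε : ε ≤ ε') :
    HV N W a c β ε' := by
  have hd : 0 ≤ del N := V4_del_nonneg N
  refine ⟨h.rc, h.co, h.hb, h.z.trans ?_, h.q.trans hε⟩
  gcongr

private theorem V4_c_one {M : ℕ} {c : ℕ → ℝ} (hc : RC M c) : c 1 = 1 := by
  rcases hc.val 1 (Nat.coprime_one_left M) with h | h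
  · exact h
  · have := hc.mul 1 1
    rw [one_mul, h] at this
    norm_num at this

private theorem V4_cop {M : ℕ} {c : ℕ → ℝ} (hc : RC M c) {q : ℕ} (h : c q = 1) : q.Coprime M := by
  by_contra h1
  rw [hc.zero q h1] at h
  norm_num at h

private theorem V4_lamc {M : ℕ} {c : ℕ → ℝ} (hc : RC M c) : ∀ k : ℕ, 1 ≤ k → k.Coprime M →
    (∀ q : ℕ, q.Prime → q ∣ k → c q ≠ 1) → lam k = c k := by
  intro k
  induction k using Nat.strong_induction_on with
  | _ k ih =>
    intro h1 hcop hq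
    rcases eq_or_lt_of_le h1 with h | h
    · rw [← h, V4_c_one hc, Pool.Agent.Lib.MP_45349e_nt.LS.lam_one]
    · set p := k.minFac with hp
      have hpp : p.Prime := Nat.minFac_prime (by omega)
      obtain ⟨m, hm⟩ : p ∣ k := Nat.minFac_dvd k
      have hm1 : 1 ≤ m := by
        rcases Nat.eq_zero_or_pos m with h0 | h0
        · rw [h0, mul_zero] at hm; omega
        · exact h0
      have hmk : m < k := by
        rw [hm]
        have := hpp.two_le
        nlinarith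
      have hmc : m.Coprime M := Nat.Coprime.coprime_dvd_left ⟨p, by rw [hm, mul_comm]⟩ hcop
      have hpc : p.Coprime M := Nat.Coprime.coprime_dvd_left ⟨m, hm⟩ hcop
      have hcp : c p = -1 := by
        rcases hc.val p hpc with h2 | h2
        · exact absurd h2 (hq p hpp ⟨m, hm⟩)
        · exact h2
      have := ih m hmk hm1 hmc (fun q hq1 hq2 => hq q hq1 (hq2.trans ⟨p, by rw [hm, mul_comm]⟩))
      rw [hm, Pool.Agent.Lib.MP_45349e_nt.LS.lam_mul p m hpp.ne_zero (by omega),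
        Pool.Agent.Lib.MP_45349e_nt.LS.lam_prime p hpp, hc.mul, hcp, this]

private theorem V4_split (c : ℕ → ℝ) (y : ℕ) (x : ℝ) :
    sQ c y ≤ sQ c ⌊x⌋₊ + ∑ q ∈ (QP c y).filter (fun q : ℕ => x < (q : ℝ)), 1 / (q : ℝ) := by
  unfold sQ
  rw [← Finset.sum_filter_add_sum_filter_not (QP c y) (fun q => x < (q : ℝ)), add_comm]
  gcongr
  intro q hq
  rw [Finset.mem_filter] at hq
  have h2 : (q : ℝ) ≤ x := not_lt.mp hq.2
  have h1 := hq.1
  unfold QP at h1 ⊢
  rw [Finset.mem_filter, Finset.mem_range] at h1 ⊢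
  exact ⟨Nat.lt_succ_of_le (Nat.le_floor h2), h1.2⟩

private theorem V4_sQ_mono (c : ℕ → ℝ) {x y : ℕ} (h : x ≤ y) : sQ c x ≤ sQ c y := by
  unfold sQ
  apply Finset.sum_le_sum_of_subset_of_nonneg
  · intro q hq
    unfold QP at hq ⊢
    rw [Finset.mem_filter, Finset.mem_range] at hq ⊢
    exact ⟨by omega, hq.2⟩
  · intro i _ _
    positivity

private theorem V4_sQ_nonneg (c : ℕ → ℝ) (x : ℕ) : 0 ≤ sQ c x := by
  unfold sQ
  exact Finset.sum_nonneg (fun _ _ => by positivity)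

/-- uniqueness of the large prime factor -/
private theorem V4_inj {X : ℝ} (hX : 0 ≤ X) {q q' k k' : ℕ} (hq : q.Prime) (hq' : q'.Prime) (h1 : X < q) (h2 : X < q')
    (he : q * k = q' * k') (h0 : 0 < q * k) (hn : ((q * k : ℕ) : ℝ) ≤ X * X) : q = q' ∧ k = k' := by
  have hqq : q = q' := by
    by_contra hne
    have hcop : q.Coprime q' := (Nat.coprime_primes hq hq').mpr hne
    have hd : q ∣ q' * k' := ⟨k, he.symm⟩
    have hd2 : q ∣ k' := hcop.dvd_of_dvd_mul_left hd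
    obtain ⟨j, hj⟩ := hd2
    have hj1 : 1 ≤ j := by
      rcases Nat.eq_zero_or_pos j with h | h
      · rw [h, mul_zero] at hj; rw [hj, mul_zero] at he; omega
      · exact h
    have hge : q' * q ≤ q * k := by
      rw [he, hj, ← mul_assoc]
      exact Nat.le_mul_of_pos_right _ hj1
    have : (q' : ℝ) * q ≤ ((q * k : ℕ) : ℝ) := by exact_mod_cast hge
    have h3 : X * X < (q' : ℝ) * q := mul_lt_mul'' h2 h1 hX hX
    linarith
  refine ⟨hqq, ?_⟩
  subst hqq
  exact Nat.eq_of_mul_eq_mul_left hq.pos he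

private theorem V4_prod {X : ℝ} (hX : 0 ≤ X) (A B F : Finset ℕ) (hA : ∀ q ∈ A, q.Prime ∧ X < (q : ℝ))
    (hB : ∀ k ∈ B, 1 ≤ k) (hF : ∀ q ∈ A, ∀ k ∈ B, q * k ∈ F) (hF2 : ∀ n ∈ F, (n : ℝ) ≤ X * X) :
    (∑ q ∈ A, 1 / (q : ℝ)) * (∑ k ∈ B, 1 / (k : ℝ)) ≤ ∑ n ∈ F, 1 / (n : ℝ) := by
  rw [Finset.sum_mul_sum, ← Finset.sum_product']
  have hinj : Set.InjOn (fun x : ℕ × ℕ => x.1 * x.2) (A ×ˢ B : Finset (ℕ × ℕ)) := by
    intro x hx y hy hxy
    rw [Finset.mem_coe, Finset.mem_product] at hx hy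
    have := V4_inj hX (hA _ hx.1).1 (hA _ hy.1).1 (hA _ hx.1).2 (hA _ hy.1).2 hxy
      (Nat.mul_pos (hA _ hx.1).1.pos (hB _ hx.2)) (hF2 _ (hF _ hx.1 _ hx.2))
    exact Prod.ext this.1 this.2
  have : ∑ x ∈ A ×ˢ B, 1 / (x.1 : ℝ) * (1 / (x.2 : ℝ)) =
      ∑ n ∈ (A ×ˢ B).image (fun x : ℕ × ℕ => x.1 * x.2), 1 / (n : ℝ) := by
    rw [Finset.sum_image hinj]
    apply Finset.sum_congr rfl
    intro x _
    push_cast
    rw [one_div_mul_one_div]
  rw [this]
  apply Finset.sum_le_sum_of_subset_of_nonneg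
  · intro n hn
    rw [Finset.mem_image] at hn
    obtain ⟨x, hx, rfl⟩ := hn
    rw [Finset.mem_product] at hx
    exact hF _ hx.1 _ hx.2
  · intro i _ _
    positivity

private theorem V4_card {X : ℝ} (hX : 0 ≤ X) (A F : Finset ℕ) (D : ℕ → Finset ℕ)
    (hA : ∀ q ∈ A, q.Prime ∧ X < (q : ℝ)) (hB : ∀ q ∈ A, ∀ k ∈ D q, 1 ≤ k) (hF : ∀ q ∈ A, ∀ k ∈ D q, q * k ∈ F)
    (hF2 : ∀ n ∈ F, (n : ℝ) ≤ X * X) : ∑ q ∈ A, ((D q).card : ℝ) ≤ F.card := by
  rw [← Nat.cast_sum, ← Finset.card_sigma]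
  norm_cast
  apply Finset.card_le_card_of_injOn (fun x : (_ : ℕ) × ℕ => x.1 * x.2)
  · intro x hx
    rw [Finset.mem_coe, Finset.mem_sigma] at hx
    exact hF _ hx.1 _ hx.2
  · intro x hx y hy hxy
    rw [Finset.mem_coe, Finset.mem_sigma] at hx hy
    have := V4_inj hX (hA _ hx.1).1 (hA _ hy.1).1 (hA _ hx.1).2 (hA _ hy.1).2 hxy
      (Nat.mul_pos (hA _ hx.1).1.pos (hB _ hx.1 _ hx.2)) (hF2 _ (hF _ hx.1 _ hx.2))
    exact Sigma.ext this.1 (heq_of_eq this.2)

/-- numbers with a prime factor in `P` -/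
private theorem V4_sieve (G P : Finset ℕ) (v N : ℕ) (bad : ℕ → Prop) [DecidablePred bad]
    (hP : ∀ q ∈ P, 1 ≤ q) (hG : ∀ k ∈ G, 1 ≤ k ∧ k ≤ v ∧ k.Coprime N)
    (hb : ∀ k ∈ G, bad k → ∃ q ∈ P, q ∣ k) :
    ∑ k ∈ G.filter bad, 1 / (k : ℝ) ≤
      (∑ q ∈ P, 1 / (q : ℝ)) * ∑ k ∈ (Finset.Icc 1 v).filter (fun k => k.Coprime N), 1 / (k : ℝ) := by
  calc ∑ k ∈ G.filter bad, 1 / (k : ℝ) ≤ ∑ k ∈ G, ∑ q ∈ P, if q ∣ k then 1 / (k : ℝ) else 0 := by
        rw [Finset.sum_filter]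
        apply Finset.sum_le_sum
        intro k hk
        split_ifs with h
        · obtain ⟨q, hq, hqk⟩ := hb k hk h
          calc 1 / (k : ℝ) = if q ∣ k then 1 / (k : ℝ) else 0 := by rw [if_pos hqk]
            _ ≤ _ := Finset.single_le_sum (f := fun q => if q ∣ k then 1 / (k : ℝ) else 0)
              (fun i _ => by split_ifs <;> positivity) hq
        · exact Finset.sum_nonneg (fun i _ => by split_ifs <;> positivity)
    _ = ∑ q ∈ P, ∑ k ∈ G, if q ∣ k then 1 / (k : ℝ) else 0 := Finset.sum_comm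
    _ ≤ ∑ q ∈ P, 1 / (q : ℝ) * ∑ k ∈ (Finset.Icc 1 v).filter (fun k => k.Coprime N), 1 / (k : ℝ) := by
        apply Finset.sum_le_sum
        intro q hq
        have hq1 := hP q hq
        rw [← Finset.sum_filter, Finset.mul_sum]
        have hinj : Set.InjOn (fun k : ℕ => k / q) (G.filter (fun k => q ∣ k) : Finset ℕ) := by
          intro x hx y hy hxy
          rw [Finset.mem_coe, Finset.mem_filter] at hx hy
          obtain ⟨x', hx'⟩ := hx.2
          obtain ⟨y', hy'⟩ := hy.2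
          have hxy' : x / q = y / q := hxy
          rw [hx', hy', Nat.mul_div_cancel_left _ hq1, Nat.mul_div_cancel_left _ hq1] at hxy'
          rw [hx', hy', hxy']
        calc ∑ k ∈ G.filter (fun k => q ∣ k), 1 / (k : ℝ)
            = ∑ k ∈ G.filter (fun k => q ∣ k), 1 / (q : ℝ) * (1 / ((k / q : ℕ) : ℝ)) := by
              apply Finset.sum_congr rfl
              intro k hk
              rw [Finset.mem_filter] at hk
              obtain ⟨j, hj⟩ := hk.2
              rw [hj, Nat.mul_div_cancel_left _ hq1, one_div_mul_one_div]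
              push_cast
              rfl
          _ = ∑ j ∈ (G.filter (fun k => q ∣ k)).image (fun k => k / q), 1 / (q : ℝ) * (1 / (j : ℝ)) := by
              rw [Finset.sum_image hinj]
          _ ≤ _ := by
              apply Finset.sum_le_sum_of_subset_of_nonneg
              · intro j hj
                rw [Finset.mem_image] at hj
                obtain ⟨k, hk, rfl⟩ := hj
                rw [Finset.mem_filter] at hk
                obtain ⟨h1, h2, h3⟩ := hG k hk.1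
                obtain ⟨j, hj⟩ := hk.2
                rw [Finset.mem_filter, Finset.mem_Icc, hj, Nat.mul_div_cancel_left _ hq1]
                refine ⟨⟨?_, ?_⟩, ?_⟩
                · rcases Nat.eq_zero_or_pos j with h | h
                  · rw [h, mul_zero] at hj; omega
                  · exact h
                · calc j ≤ q * j := Nat.le_mul_of_pos_left _ hq1
                    _ ≤ v := by rw [← hj]; exact h2
                · exact Nat.Coprime.coprime_dvd_left ⟨q, by rw [hj, mul_comm]⟩ h3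
              · intro i _ _
                positivity
    _ = _ := by rw [Finset.sum_mul]


private theorem V4_exp {N : ℕ} (hN : 1 ≤ N) (t : ℝ) : (N : ℝ) ^ t = Real.exp (Real.log N * t) :=
  Real.rpow_def_of_pos (by exact_mod_cast hN) t

private theorem V4_S {K : ℝ} (hK : 10000 ≤ K) : 100 ≤ K ^ ((1 : ℝ) / 2) ∧ K ^ ((1 : ℝ) / 2) ≤ K / 100 ∧
    K ^ ((1 : ℝ) / 2) * K ^ ((1 : ℝ) / 2) = K := by
  rw [← Real.sqrt_eq_rpow]
  have h2 : Real.sqrt K * Real.sqrt K = K := Real.mul_self_sqrt (by linarith)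
  have h1 : 100 ≤ Real.sqrt K := by
    rw [show (100 : ℝ) = Real.sqrt 10000 by
      rw [show (10000 : ℝ) = 100 ^ 2 by norm_num, Real.sqrt_sq (by norm_num)]]
    exact Real.sqrt_le_sqrt hK
  exact ⟨h1, by nlinarith, h2⟩

private theorem V4_hlog : Filter.Tendsto (fun N : ℕ => Real.log (N : ℝ)) Filter.atTop Filter.atTop :=
  Real.tendsto_log_atTop.comp tendsto_natCast_atTop_atTop

private theorem V4_i (W : ℕ) (hW : 1 ≤ W) : ∃ C ε1 : ℝ, 0 < C ∧ 0 < ε1 ∧ ∀ ε : ℝ, 0 < ε → ε ≤ 1 → ∃ N0 : ℕ, ∀ N : ℕ,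
    N0 ≤ N → ∀ (a : ℕ) (c : ℕ → ℝ), HV N W a c 1 ε → sQ c ⌊(N : ℝ) ^ ((99 : ℝ) / 200)⌋₊ ≤ ε1 →
    ∑ q ∈ (QP c ⌊(N : ℝ) ^ ((9 : ℝ) / 10)⌋₊).filter (fun q : ℕ => (N : ℝ) ^ ((99 : ℝ) / 200) < (q : ℝ)), 1 / (q : ℝ) ≤ C * ε := by
  classical
  obtain ⟨C0, hC0, hlb⟩ := logbad W hW
  obtain ⟨c1, hc1, N1, hlow⟩ := log_low W hW (1 / 2) (by norm_num) (by norm_num)
  obtain ⟨C2, hC2, N2, hall⟩ := log_all
  obtain ⟨N3, hdel⟩ := del_low
  refine ⟨40 * C0 / c1, c1 / (40 * C2), by positivity, by positivity, ?_⟩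
  intro ε hε hε1
  obtain ⟨N4, hlb⟩ := hlb ε hε hε1
  obtain ⟨N5, hN5⟩ := Filter.eventually_atTop.mp (V4_hlog.eventually_ge_atTop 10000)
  refine ⟨max 2 (max (max N1 N2) (max (max N3 N4) N5)), ?_⟩
  intro N hN a c hv hs0
  have hN0 : 2 ≤ N := by omega
  have hK : 10000 ≤ Real.log N := hN5 N (by omega)
  have hlow := hlow N (by omega)
  have hall := hall N (by omega)
  have hdel := hdel N (by omega)
  have hlb := hlb N (by omega) a c 1 hv
  clear hN hN5
  set K := Real.log N with hKdef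
  obtain ⟨hS1, hS2, hS3⟩ := V4_S hK
  have hNr : (1 : ℝ) ≤ N := by exact_mod_cast (by omega : 1 ≤ N)
  have hN1 : 1 ≤ N := by omega
  have hd0 : 0 < del N := by
    by_contra h
    have : K * del N ≤ 0 := mul_nonpos_of_nonneg_of_nonpos (by linarith) (not_lt.mp h)
    linarith
  set u := ⌊(N : ℝ) ^ ((1 : ℝ) / 50)⌋₊ with hu
  set v := ⌊(N : ℝ) ^ ((2 : ℝ) / 25)⌋₊ with hv'
  -- sizes
  have e1 : Real.exp (K / 100) * Real.exp (K / 100) = (N : ℝ) ^ ((1 : ℝ) / 50) := by
    rw [V4_exp hN1, ← Real.exp_add]; congr 1; ring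
  have e2 : (2 : ℝ) ≤ Real.exp (K / 100) := by
    have := Real.add_one_le_exp (K / 100); linarith
  have e3 : Real.exp (K ^ ((1 : ℝ) / 2)) ≤ Real.exp (K / 100) := Real.exp_le_exp.mpr hS2
  have hu1 : Real.exp (K ^ ((1 : ℝ) / 2)) ≤ u := by
    have := Nat.lt_floor_add_one ((N : ℝ) ^ ((1 : ℝ) / 50))
    rw [← hu] at this
    nlinarith
  have hu2 : (u : ℝ) ≤ (N : ℝ) ^ ((1 : ℝ) / 50) := Nat.floor_le (by positivity)
  have hv1 : (v : ℝ) ≤ (N : ℝ) ^ ((2 : ℝ) / 25) := Nat.floor_le (by positivity)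
  have hu0 : (0 : ℝ) < u := lt_of_lt_of_le (Real.exp_pos _) hu1
  have hv2 : (N : ℝ) ^ ((2 : ℝ) / 25) / 2 ≤ v := by
    have h1 := Nat.lt_floor_add_one ((N : ℝ) ^ ((2 : ℝ) / 25))
    rw [← hv'] at h1
    have h2 : (2 : ℝ) ≤ (N : ℝ) ^ ((2 : ℝ) / 25) := by
      rw [V4_exp hN1]
      have := Real.add_one_le_exp (K * (2 / 25)); linarith
    linarith
  have e4 : (N : ℝ) ^ ((2 : ℝ) / 25) = (N : ℝ) ^ ((1 : ℝ) / 50) * Real.exp (3 * K / 50) := by
    rw [V4_exp hN1, V4_exp hN1, ← Real.exp_add]; congr 1; ring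
  have e5 : (2 : ℝ) ≤ Real.exp (3 * K / 50) := by
    have := Real.add_one_le_exp (3 * K / 50); linarith
  have huv : u ≤ v := by
    have : (u : ℝ) ≤ v := by
      have h3 : (0 : ℝ) ≤ (N : ℝ) ^ ((1 : ℝ) / 50) := by positivity
      nlinarith
    exact_mod_cast this
  have hlg : K / 20 ≤ Real.log (v / u) - 1 := by
    have h1 : Real.exp (3 * K / 50) / 2 ≤ (v : ℝ) / u := by
      rw [le_div_iff₀ hu0]
      have h3 : (0 : ℝ) ≤ Real.exp (3 * K / 50) := by positivity
      nlinarith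
    have h2 := Real.log_le_log (by positivity) h1
    rw [Real.log_div (by positivity) (by norm_num), Real.log_exp] at h2
    have := Real.log_two_lt_d9
    linarith
  have hlow := hlow u v hu1 huv
  have hally := hall v (hv1.trans (by
    rw [← Real.rpow_natCast]
    exact Real.rpow_le_rpow_of_exponent_le hNr (by norm_num)))
  -- the set of the k
  set G := (Finset.Ioc u v).filter (fun k => k.Coprime (W * N)) with hG
  set bad : ℕ → Prop := fun k => ∃ q : ℕ, q.Prime ∧ q ∣ k ∧ c q = 1 with hbad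
  have hGm : ∀ k ∈ G, u < k ∧ k ≤ v ∧ k.Coprime (W * N) := by
    intro k hk
    rw [hG, Finset.mem_filter, Finset.mem_Ioc] at hk
    exact ⟨hk.1.1, hk.1.2, hk.2⟩
  have hv99 : v ≤ ⌊(N : ℝ) ^ ((99 : ℝ) / 200)⌋₊ :=
    Nat.floor_le_floor (Real.rpow_le_rpow_of_exponent_le hNr (by norm_num))
  have hb1 : ∑ k ∈ G.filter bad, 1 / (k : ℝ) ≤ sQ c v * (C2 * del N * K) := by
    refine (V4_sieve G (QP c v) v N bad ?_ ?_ ?_).trans ?_
    · intro q hq
      unfold QP at hq
      rw [Finset.mem_filter] at hq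
      exact hq.2.1.pos
    · intro k hk
      obtain ⟨h1, h2, h3⟩ := hGm k hk
      exact ⟨by omega, h2, Nat.Coprime.coprime_dvd_right (Dvd.intro_left W rfl) h3⟩
    · rintro k hk ⟨q, hq, hqk, hcq⟩
      obtain ⟨h1, h2, h3⟩ := hGm k hk
      refine ⟨q, ?_, hqk⟩
      unfold QP
      rw [Finset.mem_filter, Finset.mem_range]
      exact ⟨by have := Nat.le_of_dvd (by omega) hqk; omega, hq, hcq⟩
    · exact mul_le_mul_of_nonneg_left hally (V4_sQ_nonneg c v)
  have hb2 : sQ c v * (C2 * del N * K) ≤ c1 * del N * K / 40 := by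
    have h1 : sQ c v ≤ c1 / (40 * C2) := (V4_sQ_mono c hv99).trans hs0
    calc sQ c v * (C2 * del N * K) ≤ c1 / (40 * C2) * (C2 * del N * K) := by
          apply mul_le_mul_of_nonneg_right h1
          have : 0 ≤ K := by linarith
          positivity
      _ = _ := by field_simp
  have hb3 : c1 * del N * K / 40 ≤ ∑ k ∈ G.filter (fun k => ¬ bad k), 1 / (k : ℝ) := by
    have h1 := Finset.sum_filter_add_sum_filter_not G bad (fun k => 1 / (k : ℝ))
    have h2 : c1 * del N * (K / 20) ≤ c1 * del N * (Real.log (v / u) - 1) :=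
      mul_le_mul_of_nonneg_left hlg (by positivity)
    have h3 : c1 * del N * (K / 20) = 2 * (c1 * del N * K / 40) := by ring
    linarith
  have hprod := V4_prod (X := (N : ℝ) ^ ((99 : ℝ) / 200)) (by positivity)
    ((QP c ⌊(N : ℝ) ^ ((9 : ℝ) / 10)⌋₊).filter (fun q : ℕ => (N : ℝ) ^ ((99 : ℝ) / 200) < (q : ℝ)))
    (G.filter (fun k => ¬ bad k))
    ((Finset.Ioc ⌊(N : ℝ) ^ ((51 : ℝ) / 100)⌋₊ ⌊(N : ℝ) ^ ((49 : ℝ) / 50)⌋₊).filter
      (fun k => k.Coprime (W * N) ∧ lam k ≠ 1 * c k)) ?_ ?_ ?_ ?_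
  · set σ := ∑ q ∈ (QP c ⌊(N : ℝ) ^ ((9 : ℝ) / 10)⌋₊).filter (fun q : ℕ => (N : ℝ) ^ ((99 : ℝ) / 200) < (q : ℝ)), 1 / (q : ℝ)
      with hσ
    have hσ0 : 0 ≤ σ := Finset.sum_nonneg (fun _ _ => by positivity)
    have h1 : σ * (c1 * del N * K / 40) ≤ C0 * ε * del N * K :=
      (mul_le_mul_of_nonneg_left hb3 hσ0).trans (hprod.trans hlb)
    have hKd : 0 < del N * K := by
      have : 0 < K := by linarith
      positivity
    rw [div_mul_eq_mul_div, le_div_iff₀ hc1]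
    have h2 : (σ * c1) * (del N * K) ≤ (40 * C0 * ε) * (del N * K) := by linarith
    exact le_of_mul_le_mul_right h2 hKd
  · intro q hq
    rw [Finset.mem_filter] at hq
    have h1 := hq.1
    unfold QP at h1
    rw [Finset.mem_filter] at h1
    exact ⟨h1.2.1, hq.2⟩
  · intro k hk
    rw [Finset.mem_filter] at hk
    have := (hGm k hk.1).1
    omega
  · intro q hq k hk
    rw [Finset.mem_filter] at hq hk
    have h1 := hq.1
    unfold QP at h1
    rw [Finset.mem_filter, Finset.mem_range] at h1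
    obtain ⟨g1, g2, g3⟩ := hGm k hk.1
    have hq1 : (q : ℝ) ≤ (N : ℝ) ^ ((9 : ℝ) / 10) :=
      (by exact_mod_cast (by omega : q ≤ ⌊(N : ℝ) ^ ((9 : ℝ) / 10)⌋₊) :
        (q : ℝ) ≤ (⌊(N : ℝ) ^ ((9 : ℝ) / 10)⌋₊ : ℝ)).trans (Nat.floor_le (by positivity))
    have hk1 : (N : ℝ) ^ ((1 : ℝ) / 50) < k := (Nat.floor_lt (by positivity)).mp g1
    have hk2 : (k : ℝ) ≤ (N : ℝ) ^ ((2 : ℝ) / 25) := (by exact_mod_cast g2 : (k : ℝ) ≤ v).trans hv1
    rw [Finset.mem_filter, Finset.mem_Ioc]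
    refine ⟨⟨?_, ?_⟩, ?_, ?_⟩
    · rw [Nat.floor_lt (by positivity)]
      push_cast
      calc (N : ℝ) ^ ((51 : ℝ) / 100) ≤ (N : ℝ) ^ ((99 : ℝ) / 200) * (N : ℝ) ^ ((1 : ℝ) / 50) := by
            rw [← Real.rpow_add (by linarith)]
            exact Real.rpow_le_rpow_of_exponent_le hNr (by norm_num)
        _ < q * k := mul_lt_mul'' hq.2 hk1 (by positivity) (by positivity)
    · apply Nat.le_floor
      push_cast
      calc (q : ℝ) * k ≤ (N : ℝ) ^ ((9 : ℝ) / 10) * (N : ℝ) ^ ((2 : ℝ) / 25) :=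
            mul_le_mul hq1 hk2 (by positivity) (by positivity)
        _ = _ := by
            rw [← Real.rpow_add (by linarith)]
            norm_num
    · exact Nat.Coprime.mul_left (V4_cop hv.rc h1.2.2) g3
    · have hk0 : 1 ≤ k := by omega
      have h2 : lam k = c k := V4_lamc hv.rc k hk0 g3 (fun p hp hpk hcp => hk.2 ⟨p, hp, hpk, hcp⟩)
      rw [Pool.Agent.Lib.MP_45349e_nt.LS.lam_mul q k h1.2.1.ne_zero (by omega),
        Pool.Agent.Lib.MP_45349e_nt.LS.lam_prime q h1.2.1, hv.rc.mul, h1.2.2, h2]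
      rcases hv.rc.val k g3 with h3 | h3 <;> rw [h3] <;> norm_num
  · intro n hn
    rw [Finset.mem_filter, Finset.mem_Ioc] at hn
    have h1 : (n : ℝ) ≤ (N : ℝ) ^ ((49 : ℝ) / 50) :=
      (by exact_mod_cast hn.1.2 : (n : ℝ) ≤ (⌊(N : ℝ) ^ ((49 : ℝ) / 50)⌋₊ : ℝ)).trans (Nat.floor_le (by positivity))
    refine h1.trans ?_
    rw [← Real.rpow_add (by linarith)]
    exact Real.rpow_le_rpow_of_exponent_le hNr (by norm_num)

private theorem V4_iii (W : ℕ) (hW : 1 ≤ W) (ε : ℝ) (hε : 0 < ε) : ∃ N0 : ℕ, ∀ N : ℕ, N0 ≤ N → ∀ c : ℕ → ℝ,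
    ∑ q ∈ (QP c (W * N)).filter (fun q : ℕ => (N : ℝ) * Real.exp (-(Real.log N) ^ ((1 : ℝ) / 2)) < (q : ℝ)), 1 / (q : ℝ) ≤ ε := by
  classical
  obtain ⟨C, hC, hpr⟩ := prime_rec
  have hT : Filter.Tendsto (fun K : ℝ => K ^ ((1 : ℝ) / 2)) Filter.atTop Filter.atTop :=
    tendsto_rpow_atTop (by norm_num)
  have hT2 := hT.comp V4_hlog
  obtain ⟨N1, hN1⟩ := Filter.eventually_atTop.mp (V4_hlog.eventually_ge_atTop 10000)
  obtain ⟨N2, hN2⟩ := Filter.eventually_atTop.mp (hT2.eventually_ge_atTop (2 * C * (Real.log W + 3) / ε))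
  refine ⟨max 1 (max N1 N2), ?_⟩
  intro N hN c
  have hK : 10000 ≤ Real.log N := hN1 N (by omega)
  have hS0 : 2 * C * (Real.log W + 3) / ε ≤ (Real.log N) ^ ((1 : ℝ) / 2) := hN2 N (by omega)
  have hN1' : 1 ≤ N := by omega
  clear hN1 hN2 hN
  set K := Real.log N with hKdef
  obtain ⟨hS1, hS2, hS3⟩ := V4_S hK
  set S := K ^ ((1 : ℝ) / 2) with hS
  have hNr : (1 : ℝ) ≤ N := by exact_mod_cast hN1'
  have hNe : (N : ℝ) = Real.exp K := by rw [hKdef, Real.exp_log (by linarith)]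
  have hWr : (1 : ℝ) ≤ W := by exact_mod_cast hW
  have hlW : 0 ≤ Real.log W := Real.log_nonneg hWr
  set x := ⌊(N : ℝ) * Real.exp (-S)⌋₊ with hx
  have hX : (N : ℝ) * Real.exp (-S) = Real.exp (K - S) := by
    rw [hNe, ← Real.exp_add]; congr 1
  have hx1 : (x : ℝ) ≤ N * Real.exp (-S) := Nat.floor_le (by positivity)
  have hx2 : Real.exp (K - S) / 2 ≤ x := by
    have h1 := Nat.lt_floor_add_one ((N : ℝ) * Real.exp (-S))
    rw [← hx, hX] at h1
    have h2 := Real.add_one_le_exp (K - S)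
    linarith
  have hx3 : K / 2 ≤ Real.log x := by
    have h1 := Real.log_le_log (by positivity) hx2
    rw [Real.log_div (by positivity) (by norm_num), Real.log_exp] at h1
    have := Real.log_two_lt_d9
    linarith
  have hx0 : (0 : ℝ) < x := lt_of_lt_of_le (by positivity) hx2
  have hx4 : 2 ≤ x := by
    have h2 := Real.add_one_le_exp (K - S)
    have : (2 : ℝ) ≤ x := by linarith
    exact_mod_cast this
  have hxy : x ≤ W * N := by
    have : (x : ℝ) ≤ W * N := by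
      have h1 : Real.exp (-S) ≤ 1 := by rw [Real.exp_le_one_iff]; linarith
      nlinarith
    exact_mod_cast this
  have h1 : ∑ q ∈ (QP c (W * N)).filter (fun q : ℕ => (N : ℝ) * Real.exp (-S) < (q : ℝ)), 1 / (q : ℝ) ≤
      ∑ p ∈ (Finset.Ioc x (W * N)).filter (fun p => p.Prime), 1 / (p : ℝ) := by
    apply Finset.sum_le_sum_of_subset_of_nonneg
    · intro q hq
      rw [Finset.mem_filter] at hq ⊢
      have h1 := hq.1
      unfold QP at h1
      rw [Finset.mem_filter, Finset.mem_range] at h1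
      rw [Finset.mem_Ioc]
      refine ⟨⟨?_, by omega⟩, h1.2.1⟩
      rw [hx, Nat.floor_lt (by positivity)]
      exact hq.2
    · intro i _ _
      positivity
  refine h1.trans ((hpr x (W * N) hx4 hxy).trans ?_)
  have h2 : Real.log (((W * N : ℕ) : ℝ) / x) ≤ Real.log W + S + 1 := by
    have h3 : ((W * N : ℕ) : ℝ) / x ≤ 2 * (W * Real.exp S) := by
      rw [div_le_iff₀ hx0]
      push_cast
      have h4 : Real.exp S * Real.exp (K - S) = N := by
        rw [← Real.exp_add, hNe]; congr 1; ring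
      have h5 : (N : ℝ) ≤ 2 * Real.exp S * x := by
        have : 0 < Real.exp S := Real.exp_pos _
        nlinarith
      nlinarith
    have h4 : (0 : ℝ) < ((W * N : ℕ) : ℝ) / x := by
      apply div_pos _ hx0
      push_cast
      positivity
    have h5 := Real.log_le_log h4 h3
    rw [Real.log_mul (by norm_num) (by positivity), Real.log_mul (by positivity) (by positivity), Real.log_exp] at h5
    have := Real.log_two_lt_d9
    linarith
  have hlx : 0 < Real.log x := by linarith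
  rw [div_le_iff₀ hlx]
  have h3 : C * (Real.log (((W * N : ℕ) : ℝ) / x) + 1) ≤ C * (Real.log W + S + 2) :=
    mul_le_mul_of_nonneg_left (by linarith) hC.le
  have h4 : ε * (K / 2) ≤ ε * Real.log x := mul_le_mul_of_nonneg_left hx3 hε.le
  have h5 : C * (Real.log W + S + 2) ≤ ε * (K / 2) := by
    rw [div_le_iff₀ hε] at hS0
    have h6 : C * (Real.log W + S + 2) ≤ C * ((Real.log W + 3) * S) := by
      apply mul_le_mul_of_nonneg_left _ hC.le
      nlinarith
    have h7 : (2 * C * (Real.log W + 3)) * S ≤ (S * ε) * S := mul_le_mul_of_nonneg_right hS0 (by linarith)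
    nlinarith
  linarith

private theorem V4_harm (T : ℕ) (S : ℝ) (hT : (T : ℝ) ≤ Real.exp S) (hS : 0 ≤ S) :
    ∑ j ∈ Finset.Icc 1 T, 1 / (j : ℝ) ≤ 1 + S := by
  rcases Nat.eq_zero_or_pos T with h | h
  · rw [h]
    simp only [Finset.Icc_eq_empty_of_lt (by norm_num : 0 < 1), Finset.sum_empty]
    linarith
  · have h1 := harmonic_le_one_add_log T
    rw [harmonic_eq_sum_Icc] at h1
    push_cast at h1
    have h2 : Real.log T ≤ S := by
      rw [Real.log_le_iff_le_exp (by exact_mod_cast h)]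
      exact hT
    have h3 : ∑ j ∈ Finset.Icc 1 T, 1 / (j : ℝ) = ∑ j ∈ Finset.Icc 1 T, ((j : ℝ))⁻¹ :=
      Finset.sum_congr rfl (fun j _ => one_div _)
    rw [h3]
    linarith

private theorem V4_inv (W q a : ℕ) (hq : q.Coprime W) (ha : a.Coprime W) (hW : 1 ≤ W) :
    ∃ b : ℕ, q * b ≡ a [MOD W] ∧ b.Coprime W := by
  rcases eq_or_lt_of_le hW with h | h
  · rw [← h]
    exact ⟨1, Nat.modEq_one, Nat.coprime_one_right 1⟩
  · obtain ⟨m, hm1, hm⟩ := Nat.exists_mul_mod_eq_one_of_coprime hq h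
    have h1 : q * m ≡ 1 [MOD W] := by
      unfold Nat.ModEq
      rw [hm, Nat.mod_eq_of_lt h]
    refine ⟨m * a, ?_, ?_⟩
    · have := h1.mul_right a
      rw [one_mul, mul_assoc] at this
      exact this
    · apply Nat.Coprime.mul_left _ ha
      have h2 : (q * m).Coprime W := by
        have h3 := h1.gcd_eq
        rw [Nat.coprime_iff_gcd_eq_one]
        simpa using h3
      exact Nat.Coprime.coprime_dvd_left (Dvd.intro_left q rfl) h2

/-- the multiples of `p` in `Dom` -/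
private theorem V4_mult (N W b p y : ℕ) (hp : 1 ≤ p) (b' : ℕ) (hb' : p * b' ≡ b [MOD W]) (hpW : p.Coprime W)
    (x x' : ℝ) (hy : ∀ k : ℕ, k < y → (k : ℝ) < x) (hx : x = p * x') :
    ((Dom N W b y).filter (fun k => p ∣ k)).card ≤ (Dom N W b' ⌈x'⌉₊).card := by
  apply Finset.card_le_card_of_injOn (fun k => k / p)
  · intro k hk
    rw [Finset.mem_coe, Finset.mem_filter] at hk
    obtain ⟨j, hj⟩ := hk.2
    have h1 := hk.1
    unfold Dom at h1 ⊢
    rw [Finset.mem_filter, Finset.mem_range] at h1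
    rw [Finset.mem_coe, Finset.mem_filter, Finset.mem_range]
    dsimp only
    rw [hj, Nat.mul_div_cancel_left _ hp]
    refine ⟨?_, ?_, ?_⟩
    · rw [Nat.lt_ceil]
      have h2 := hy k h1.1
      rw [hx, hj] at h2
      push_cast at h2
      have h3 : (0 : ℝ) < p := by exact_mod_cast hp
      exact lt_of_mul_lt_mul_left h2 h3.le
    · have h2 : p * j ≡ p * b' [MOD W] := by
        rw [← hj]
        exact h1.2.1.trans hb'.symm
      exact Nat.ModEq.cancel_left_of_coprime (by rw [Nat.coprime_comm] at hpW; exact hpW) h2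
    · exact Nat.Coprime.coprime_dvd_left ⟨p, by rw [hj, mul_comm]⟩ h1.2.2
  · intro x hx y hy hxy
    rw [Finset.mem_coe, Finset.mem_filter] at hx hy
    obtain ⟨x', hx'⟩ := hx.2
    obtain ⟨y', hy'⟩ := hy.2
    have hxy' : x / p = y / p := hxy
    rw [hx', hy', Nat.mul_div_cancel_left _ hp, Nat.mul_div_cancel_left _ hp] at hxy'
    rw [hx', hy', hxy']

private theorem V4_pair {N W : ℕ} (hN : 2 ≤ N) (hW : 1 ≤ W) {S : ℝ}
    (hdt : ∀ a y : ℕ, a.Coprime W → Real.exp S ≤ y → ((Dom N W a y).card : ℝ) ≤ 2 * del N * y)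
    (hS : 0 ≤ S) (b q p : ℕ) (hb : b.Coprime W) (hq : 1 ≤ q) (hp : 1 ≤ p) (hpW : p.Coprime W) :
    (((Dom N W b ⌈((W * N : ℕ) : ℝ) / q⌉₊).filter (fun k => p ∣ k)).card : ℝ) ≤
      4 * del N * (((W * N : ℕ) : ℝ) / (q * p)) +
        ∑ j ∈ Finset.Icc 1 ⌊Real.exp S⌋₊, (if q * p * j < W * N then (1 : ℝ) else 0) := by
  classical
  have hq' : (0 : ℝ) < q := by exact_mod_cast hq
  have hp' : (0 : ℝ) < p := by exact_mod_cast hp
  have hd : 0 ≤ del N := V4_del_nonneg N
  have h0 : 0 ≤ ∑ j ∈ Finset.Icc 1 ⌊Real.exp S⌋₊, (if q * p * j < W * N then (1 : ℝ) else 0) :=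
    Finset.sum_nonneg (fun _ _ => by split_ifs <;> norm_num)
  by_cases h : Real.exp S ≤ ((W * N : ℕ) : ℝ) / (q * p)
  · obtain ⟨b', hb1, hb2⟩ := V4_inv W p b hpW hb hW
    have h1 := V4_mult N W b p ⌈((W * N : ℕ) : ℝ) / q⌉₊ hp b' hb1 hpW (((W * N : ℕ) : ℝ) / q)
      (((W * N : ℕ) : ℝ) / (q * p)) (fun k hk => Nat.lt_ceil.mp hk) (by field_simp)
    have h2 := hdt b' ⌈((W * N : ℕ) : ℝ) / (q * p)⌉₊ hb2 (h.trans (Nat.le_ceil _))
    have h3 : (⌈((W * N : ℕ) : ℝ) / (q * p)⌉₊ : ℝ) ≤ 2 * (((W * N : ℕ) : ℝ) / (q * p)) := by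
      have h4 := Nat.ceil_lt_add_one (a := ((W * N : ℕ) : ℝ) / (q * p)) (by positivity)
      have h5 := Real.add_one_le_exp S
      linarith
    have h4 : (((Dom N W b ⌈((W * N : ℕ) : ℝ) / q⌉₊).filter (fun k => p ∣ k)).card : ℝ) ≤
      ((Dom N W b' ⌈((W * N : ℕ) : ℝ) / (q * p)⌉₊).card : ℝ) := by exact_mod_cast h1
    have h5 : 2 * del N * (⌈((W * N : ℕ) : ℝ) / (q * p)⌉₊ : ℝ) ≤ 2 * del N * (2 * (((W * N : ℕ) : ℝ) / (q * p))) :=
      mul_le_mul_of_nonneg_left h3 (by positivity)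
    linarith
  · have hlt := not_le.mp h
    have h1 : ∑ j ∈ Finset.Icc 1 ⌊Real.exp S⌋₊, (if q * p * j < W * N then (1 : ℝ) else 0) =
        (((Finset.Icc 1 ⌊Real.exp S⌋₊).filter (fun j => q * p * j < W * N)).card : ℝ) := by
      rw [Finset.card_filter]
      push_cast
      rfl
    have h2 : 0 ≤ 4 * del N * (((W * N : ℕ) : ℝ) / (q * p)) := by positivity
    rw [h1]
    have h3 : ((Dom N W b ⌈((W * N : ℕ) : ℝ) / q⌉₊).filter (fun k => p ∣ k)).card ≤
        ((Finset.Icc 1 ⌊Real.exp S⌋₊).filter (fun j => q * p * j < W * N)).card := by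
      apply Finset.card_le_card_of_injOn (fun k => k / p)
      · intro k hk
        rw [Finset.mem_coe, Finset.mem_filter] at hk
        obtain ⟨j, hj⟩ := hk.2
        have h1 := hk.1
        unfold Dom at h1
        rw [Finset.mem_filter, Finset.mem_range, Nat.lt_ceil, lt_div_iff₀ hq'] at h1
        rw [Finset.mem_coe, Finset.mem_filter, Finset.mem_Icc]
        dsimp only
        rw [hj, Nat.mul_div_cancel_left _ hp]
        have h5 : j * p * q < W * N := by
          have := h1.1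
          rw [hj] at this
          have h6 : p * j * q < W * N := by exact_mod_cast this
          rw [mul_comm j p]
          exact h6
        refine ⟨⟨?_, ?_⟩, ?_⟩
        · rcases Nat.eq_zero_or_pos j with h6 | h6
          · rw [h6, mul_zero] at hj
            have h7 := h1.2.2
            rw [hj, Nat.coprime_zero_left] at h7
            omega
          · exact h6
        · apply Nat.le_floor
          refine le_trans ?_ hlt.le
          rw [le_div_iff₀ (by positivity)]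
          have : ((j * p * q : ℕ) : ℝ) ≤ ((W * N : ℕ) : ℝ) := by exact_mod_cast h5.le
          push_cast at this ⊢
          linarith
        · calc q * p * j = j * p * q := by ring
            _ < W * N := h5
      · intro x hx y hy hxy
        rw [Finset.mem_coe, Finset.mem_filter] at hx hy
        obtain ⟨x', hx'⟩ := hx.2
        obtain ⟨y', hy'⟩ := hy.2
        have hxy' : x / p = y / p := hxy
        rw [hx', hy', Nat.mul_div_cancel_left _ hp, Nat.mul_div_cancel_left _ hp] at hxy'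
        rw [hx', hy', hxy']
    have h4 : (((Dom N W b ⌈((W * N : ℕ) : ℝ) / q⌉₊).filter (fun k => p ∣ k)).card : ℝ) ≤
        (((Finset.Icc 1 ⌊Real.exp S⌋₊).filter (fun j => q * p * j < W * N)).card : ℝ) := by exact_mod_cast h3
    linarith

open Classical in
private theorem V4_tri {N W : ℕ} (hN : 2 ≤ N) (hW : 1 ≤ W) {C : ℝ} (hC : 0 < C)
    (hch : ∀ x : ℕ, 2 ≤ x → (((Finset.Icc 1 x).filter fun p => p.Prime).card : ℝ) ≤ C * x / Real.log x)
    (A : Finset ℕ) (hA : ∀ q ∈ A, q.Prime ∧ (N : ℝ) ^ ((9 : ℝ) / 10) < (q : ℝ)) (p j : ℕ) (hp : 1 ≤ p) (hj : 1 ≤ j) :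
    ∑ q ∈ A, (if q * p * j < W * N then (1 : ℝ) else 0) ≤
      2 * C * (((W * N : ℕ) : ℝ) / Real.log N) * (1 / (p : ℝ)) * (1 / (j : ℝ)) := by
  have hK : 0 < Real.log N := Real.log_pos (by exact_mod_cast (by omega : 1 < N))
  have hp' : (0 : ℝ) < p := by exact_mod_cast hp
  have hj' : (0 : ℝ) < j := by exact_mod_cast hj
  have h1 : ∑ q ∈ A, (if q * p * j < W * N then (1 : ℝ) else 0) =
      ((A.filter (fun q => q * p * j < W * N)).card : ℝ) := by
    rw [Finset.card_filter]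
    push_cast
    rfl
  rw [h1]
  rcases (A.filter (fun q => q * p * j < W * N)).eq_empty_or_nonempty with h | h
  · rw [h, Finset.card_empty, Nat.cast_zero]
    positivity
  · obtain ⟨q0, hq0⟩ := h
    rw [Finset.mem_filter] at hq0
    set m := W * N / (p * j) with hm
    have hpj : 0 < p * j := Nat.mul_pos hp hj
    have hq0m : q0 ≤ m := by
      rw [hm, Nat.le_div_iff_mul_le hpj, ← mul_assoc]
      exact hq0.2.le
    have hq02 := (hA q0 hq0.1).1.two_le
    have h2 := hch m (by omega)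
    have h3 : ((A.filter (fun q => q * p * j < W * N)).card : ℝ) ≤
        (((Finset.Icc 1 m).filter fun p => p.Prime).card : ℝ) := by
      have : (A.filter (fun q => q * p * j < W * N)) ⊆ ((Finset.Icc 1 m).filter fun p => p.Prime) := by
        intro q hq
        rw [Finset.mem_filter] at hq ⊢
        rw [Finset.mem_Icc]
        refine ⟨⟨(hA q hq.1).1.pos, ?_⟩, (hA q hq.1).1⟩
        rw [hm, Nat.le_div_iff_mul_le hpj, ← mul_assoc]
        exact hq.2.le
      exact_mod_cast Finset.card_le_card this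
    have h4 : Real.log N / 2 ≤ Real.log m := by
      have h5 : (N : ℝ) ^ ((9 : ℝ) / 10) ≤ m := (hA q0 hq0.1).2.le.trans (by exact_mod_cast hq0m)
      have h6 := Real.log_le_log (by positivity) h5
      rw [Real.log_rpow (by exact_mod_cast (by omega : 0 < N))] at h6
      linarith
    have h5 : (m : ℝ) ≤ ((W * N : ℕ) : ℝ) / ((p * j : ℕ) : ℝ) := Nat.cast_div_le
    have hlm : 0 < Real.log m := by linarith
    calc ((A.filter (fun q => q * p * j < W * N)).card : ℝ) ≤ C * m / Real.log m := h3.trans h2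
      _ ≤ C * (((W * N : ℕ) : ℝ) / ((p * j : ℕ) : ℝ)) / (Real.log N / 2) := by
          apply div_le_div₀ (by positivity) (mul_le_mul_of_nonneg_left h5 hC.le) (by positivity) h4
      _ = _ := by
          push_cast
          field_simp


private theorem V4_evK (C c : ℝ) (hC : 0 < C) (hc : 0 < c) :
    ∀ᶠ K : ℝ in Filter.atTop, C * (1 + K ^ ((1 : ℝ) / 2)) * Real.log K ≤ c * K := by
  have hT : Filter.Tendsto (fun K : ℝ => K ^ ((1 : ℝ) / 4)) Filter.atTop Filter.atTop :=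
    tendsto_rpow_atTop (by norm_num)
  filter_upwards [hT.eventually_ge_atTop (8 * C / c), Filter.eventually_ge_atTop 1] with K h1 h2
  have hK0 : 0 < K := by linarith
  set R := K ^ ((1 : ℝ) / 4) with hR
  have hR0 : 0 < R := by positivity
  have hR2 : K ^ ((1 : ℝ) / 2) = R * R := by
    rw [hR, ← Real.rpow_add hK0]; norm_num
  have hR4 : K = R * R * (R * R) := by
    rw [← hR2, ← Real.rpow_add hK0]; norm_num
  have hR1 : 1 ≤ R := Real.one_le_rpow h2 (by norm_num)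
  have hl : Real.log K ≤ 4 * R := by
    have := Real.log_le_rpow_div hK0.le (by norm_num : (0 : ℝ) < 1 / 4)
    rw [← hR] at this
    linarith
  have hl0 : 0 ≤ Real.log K := Real.log_nonneg h2
  rw [hR2]
  have h3 : 1 + R * R ≤ 2 * (R * R) := by nlinarith
  rw [div_le_iff₀ hc] at h1
  calc C * (1 + R * R) * Real.log K ≤ C * (2 * (R * R)) * (4 * R) := by
        apply mul_le_mul _ hl hl0 (by positivity)
        exact mul_le_mul_of_nonneg_left h3 hC.le
    _ = (8 * C) * (R * R * R) := by ring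
    _ ≤ (R * c) * (R * R * R) := mul_le_mul_of_nonneg_right h1 (by positivity)
    _ = c * (R * R * (R * R)) := by ring
    _ = c * K := by rw [← hR4]

private theorem V4_ii (W : ℕ) (hW : 1 ≤ W) : ∃ N0 : ℕ, ∀ N : ℕ, N0 ≤ N → ∀ (a : ℕ) (c : ℕ → ℝ) (ε : ℝ),
    HV N W a c 1 ε → sQ c ⌊(N : ℝ) ^ ((99 : ℝ) / 200)⌋₊ ≤ 1 / (16 * W) →
    ∑ q ∈ (QP c ⌊(N : ℝ) * Real.exp (-(Real.log N) ^ ((1 : ℝ) / 2))⌋₊).filter
      (fun q : ℕ => (N : ℝ) ^ ((9 : ℝ) / 10) < (q : ℝ)), 1 / (q : ℝ) ≤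
      4 * (ε + sQ c ⌊(N : ℝ) ^ ((99 : ℝ) / 200)⌋₊) := by
  classical
  obtain ⟨N1, hdom⟩ := dom_two W hW (1 / 2) (by norm_num) (by norm_num)
  obtain ⟨C0, hC0, hch⟩ := cheb_up
  obtain ⟨c0, hc0, N2, hdl⟩ := del_loglog
  have hWr : (1 : ℝ) ≤ W := by exact_mod_cast hW
  obtain ⟨N3, hN3⟩ := Filter.eventually_atTop.mp (V4_hlog.eventually (V4_evK (2 * C0 * W) c0 (by positivity) hc0))
  obtain ⟨N4, hN4⟩ := Filter.eventually_atTop.mp (V4_hlog.eventually_ge_atTop (max 10000 (100 * W)))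
  refine ⟨max 2 (max (max N1 N2) (max N3 N4)), ?_⟩
  intro N hN a c ε hv hs0
  have hN2 : 2 ≤ N := by omega
  have hdom := hdom N (by omega)
  have hdl := hdl N (by omega)
  have hN3 := hN3 N (by omega)
  have hN4 := hN4 N (by omega)
  clear hN
  have hK : 10000 ≤ Real.log N := (le_max_left _ _).trans hN4
  have hKW : 100 * (W : ℝ) ≤ Real.log N := (le_max_right _ _).trans hN4
  set K := Real.log N with hKdef
  obtain ⟨hS1, hS2, hS3⟩ := V4_S hK
  set S := K ^ ((1 : ℝ) / 2) with hS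
  have hNr : (1 : ℝ) ≤ N := by exact_mod_cast (by omega : 1 ≤ N)
  have hN0 : (0 : ℝ) < N := by linarith
  have hK0 : 0 < K := by linarith
  have hN1' : 1 ≤ N := by omega
  have hNe : (N : ℝ) = Real.exp K := by rw [hKdef, Real.exp_log (by linarith)]
  have hlK : 0 < Real.log K := Real.log_pos (by linarith)
  have hdK : c0 / Real.log K ≤ del N := by
    rw [div_le_iff₀ hlK]; linarith
  have hd0 : 0 < del N := lt_of_lt_of_le (by positivity) hdK
  have hdS : 2 * C0 * W * (1 + S) / K ≤ del N := by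
    refine le_trans ?_ hdK
    rw [div_le_div_iff₀ hK0 hlK]
    exact hN3
  have hWN : (W : ℝ) ≤ (N : ℝ) ^ ((1 : ℝ) / 100) := by
    rw [V4_exp hN1']
    have := Real.add_one_le_exp (K * (1 / 100))
    linarith
  set s0 := sQ c ⌊(N : ℝ) ^ ((99 : ℝ) / 200)⌋₊ with hs0def
  have hs00 : 0 ≤ s0 := V4_sQ_nonneg c _
  set A := (QP c ⌊(N : ℝ) * Real.exp (-S)⌋₊).filter (fun q : ℕ => (N : ℝ) ^ ((9 : ℝ) / 10) < (q : ℝ)) with hA
  set P := QP c ⌊(N : ℝ) ^ ((99 : ℝ) / 200)⌋₊ with hP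
  have hAm : ∀ q ∈ A, q.Prime ∧ c q = 1 ∧ (N : ℝ) ^ ((9 : ℝ) / 10) < (q : ℝ) ∧ (q : ℝ) ≤ N * Real.exp (-S) := by
    intro q hq
    rw [hA, Finset.mem_filter] at hq
    have h1 := hq.1
    unfold QP at h1
    rw [Finset.mem_filter, Finset.mem_range] at h1
    exact ⟨h1.2.1, h1.2.2, hq.2, (by exact_mod_cast (by omega : q ≤ ⌊(N : ℝ) * Real.exp (-S)⌋₊) :
        (q : ℝ) ≤ (⌊(N : ℝ) * Real.exp (-S)⌋₊ : ℝ)).trans (Nat.floor_le (by positivity))⟩
  have hPm : ∀ p ∈ P, p.Prime ∧ c p = 1 := by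
    intro p hp
    unfold P QP at hp
    rw [Finset.mem_filter] at hp
    exact hp.2
  have hcopW : ∀ q : ℕ, c q = 1 → q.Coprime W := fun q hq =>
    Nat.Coprime.coprime_dvd_right (Dvd.intro N rfl) (V4_cop hv.rc hq)
  have hcopN : ∀ q : ℕ, c q = 1 → q.Coprime N := fun q hq =>
    Nat.Coprime.coprime_dvd_right (Dvd.intro_left W rfl) (V4_cop hv.rc hq)
  have hbex : ∀ q : ℕ, ∃ b : ℕ, q.Coprime W → (q * b ≡ a [MOD W] ∧ b.Coprime W) := by
    intro q
    by_cases h : q.Coprime W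
    · obtain ⟨b, hb⟩ := V4_inv W q a h hv.co hW
      exact ⟨b, fun _ => hb⟩
    · exact ⟨0, fun h' => absurd h' h⟩
  choose b hb using hbex
  set D : ℕ → Finset ℕ := fun q => Dom N W (b q) ⌈((W * N : ℕ) : ℝ) / q⌉₊ with hD
  set bad : ℕ → Prop := fun k => ∃ p : ℕ, p.Prime ∧ p ∣ k ∧ c p = 1 with hbad
  have hDm : ∀ q ∈ A, ∀ k ∈ D q, q * k < W * N ∧ k ≡ b q [MOD W] ∧ k.Coprime N ∧ 1 ≤ k := by
    intro q hq k hk
    have hq' : (0 : ℝ) < q := by exact_mod_cast (hAm q hq).1.pos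
    unfold D Dom at hk
    rw [Finset.mem_filter, Finset.mem_range, Nat.lt_ceil, lt_div_iff₀ hq'] at hk
    refine ⟨?_, hk.2.1, hk.2.2, ?_⟩
    · have : k * q < W * N := by exact_mod_cast hk.1
      rw [mul_comm]; exact this
    · rcases Nat.eq_zero_or_pos k with h | h
      · have h7 := hk.2.2
        rw [h, Nat.coprime_zero_left] at h7
        omega
      · exact h
  -- the good ones
  have hgood : ∑ q ∈ A, (((D q).filter (fun k => ¬ bad k)).card : ℝ) ≤ ε * del N * N := by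
    refine (V4_card (X := (N : ℝ) ^ ((9 : ℝ) / 10)) (by positivity) A (Zst N W a c 1)
      (fun q => (D q).filter (fun k => ¬ bad k)) ?_ ?_ ?_ ?_).trans hv.z
    · intro q hq
      exact ⟨(hAm q hq).1, (hAm q hq).2.2.1⟩
    · intro q hq k hk
      rw [Finset.mem_filter] at hk
      exact (hDm q hq k hk.1).2.2.2
    · intro q hq k hk
      rw [Finset.mem_filter] at hk
      obtain ⟨h1, h2, h3, h4⟩ := hDm q hq k hk.1
      obtain ⟨g1, g2, g3, g4⟩ := hAm q hq
      obtain ⟨hb1, hb2⟩ := hb q (hcopW q g2)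
      have hkW : k.Coprime W := by
        have := h2.gcd_eq
        rw [Nat.coprime_iff_gcd_eq_one, this]
        exact hb2
      have hkM : k.Coprime (W * N) := Nat.Coprime.mul_right hkW h3
      unfold Zst Dom
      rw [Finset.mem_filter, Finset.mem_filter, Finset.mem_range]
      refine ⟨⟨h1, ?_, ?_⟩, ?_⟩
      · exact (h2.mul_left q).trans hb1
      · exact Nat.Coprime.mul_left (hcopN q g2) h3
      · have h5 : lam k = c k := V4_lamc hv.rc k h4 hkM (fun p hp hpk hcp => hk.2 ⟨p, hp, hpk, hcp⟩)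
        rw [Pool.Agent.Lib.MP_45349e_nt.LS.lam_mul q k g1.ne_zero (by omega),
          Pool.Agent.Lib.MP_45349e_nt.LS.lam_prime q g1, hv.rc.mul, g2, h5]
        rcases hv.rc.val k hkM with h3 | h3 <;> rw [h3] <;> norm_num
    · intro n hn
      unfold Zst Dom at hn
      rw [Finset.mem_filter, Finset.mem_filter, Finset.mem_range] at hn
      have h1 : (n : ℝ) ≤ W * N := by exact_mod_cast hn.1.1.le
      refine h1.trans ?_
      calc (W : ℝ) * N ≤ (N : ℝ) ^ ((1 : ℝ) / 100) * (N : ℝ) ^ (1 : ℝ) := by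
            rw [Real.rpow_one]
            exact mul_le_mul_of_nonneg_right hWN hN0.le
        _ ≤ _ := by
            rw [← Real.rpow_add hN0, ← Real.rpow_add hN0]
            exact Real.rpow_le_rpow_of_exponent_le hNr (by norm_num)
  -- the bad ones
  have hbadq : ∀ q ∈ A, (((D q).filter bad).card : ℝ) ≤ ∑ p ∈ P, (4 * del N * (((W * N : ℕ) : ℝ) / (q * p)) +
      ∑ j ∈ Finset.Icc 1 ⌊Real.exp S⌋₊, (if q * p * j < W * N then (1 : ℝ) else 0)) := by
    intro q hq
    obtain ⟨g1, g2, g3, g4⟩ := hAm q hq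
    have hq' : (0 : ℝ) < q := by exact_mod_cast g1.pos
    have h1 : (D q).filter bad ⊆ P.biUnion (fun p => (D q).filter (fun k => p ∣ k)) := by
      intro k hk
      rw [Finset.mem_filter] at hk
      obtain ⟨p, hp, hpk, hcp⟩ := hk.2
      rw [Finset.mem_biUnion]
      refine ⟨p, ?_, Finset.mem_filter.mpr ⟨hk.1, hpk⟩⟩
      obtain ⟨h1, h2, h3, h4⟩ := hDm q hq k hk.1
      unfold P QP
      rw [Finset.mem_filter, Finset.mem_range]
      refine ⟨Nat.lt_succ_of_le (Nat.le_floor ?_), hp, hcp⟩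
      have h5 : (p : ℝ) ≤ k := by exact_mod_cast Nat.le_of_dvd (by omega) hpk
      have h6 : (q : ℝ) * k ≤ W * N := by exact_mod_cast h1.le
      have h7 : (N : ℝ) ^ ((9 : ℝ) / 10) * k ≤ (N : ℝ) ^ ((9 : ℝ) / 10) * (N : ℝ) ^ ((99 : ℝ) / 200) := by
        calc (N : ℝ) ^ ((9 : ℝ) / 10) * k ≤ q * k := mul_le_mul_of_nonneg_right g3.le (by positivity)
          _ ≤ W * N := h6
          _ ≤ (N : ℝ) ^ ((1 : ℝ) / 100) * (N : ℝ) ^ (1 : ℝ) := by
            rw [Real.rpow_one]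
            exact mul_le_mul_of_nonneg_right hWN hN0.le
          _ ≤ _ := by
            rw [← Real.rpow_add hN0, ← Real.rpow_add hN0]
            exact Real.rpow_le_rpow_of_exponent_le hNr (by norm_num)
      exact h5.trans (le_of_mul_le_mul_left h7 (by positivity))
    calc (((D q).filter bad).card : ℝ) ≤ ((P.biUnion (fun p => (D q).filter (fun k => p ∣ k))).card : ℝ) := by
          exact_mod_cast Finset.card_le_card h1
      _ ≤ ((∑ p ∈ P, ((D q).filter (fun k => p ∣ k)).card : ℕ) : ℝ) := by exact_mod_cast Finset.card_biUnion_le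
      _ = ∑ p ∈ P, (((D q).filter (fun k => p ∣ k)).card : ℝ) := by push_cast; rfl
      _ ≤ _ := by
          apply Finset.sum_le_sum
          intro p hp
          obtain ⟨hp1, hp2⟩ := hPm p hp
          exact V4_pair hN2 hW (fun a y ha hy => (hdom a y ha hy).2) (by linarith) (b q) q p
            (hb q (hcopW q g2)).2 g1.one_le hp1.one_le (hcopW p hp2)
  set σ := ∑ q ∈ A, 1 / (q : ℝ) with hσ
  have hσ0 : 0 ≤ σ := Finset.sum_nonneg (fun _ _ => by positivity)
  have hbadall : ∑ q ∈ A, (((D q).filter bad).card : ℝ) ≤ 4 * W * del N * N * σ * s0 + del N * N * s0 := by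
    have h1 : ∑ q ∈ A, ∑ p ∈ P, 4 * del N * (((W * N : ℕ) : ℝ) / (q * p)) = 4 * W * del N * N * σ * s0 := by
      have : s0 = ∑ p ∈ P, 1 / (p : ℝ) := rfl
      rw [this, hσ, mul_assoc, Finset.sum_mul_sum, Finset.mul_sum]
      apply Finset.sum_congr rfl
      intro q _
      rw [Finset.mul_sum]
      apply Finset.sum_congr rfl
      intro p _
      push_cast
      rw [one_div_mul_one_div]
      ring
    have h2 : ∑ q ∈ A, ∑ p ∈ P, ∑ j ∈ Finset.Icc 1 ⌊Real.exp S⌋₊, (if q * p * j < W * N then (1 : ℝ) else 0) ≤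
        del N * N * s0 := by
      calc ∑ q ∈ A, ∑ p ∈ P, ∑ j ∈ Finset.Icc 1 ⌊Real.exp S⌋₊, (if q * p * j < W * N then (1 : ℝ) else 0)
          = ∑ p ∈ P, ∑ j ∈ Finset.Icc 1 ⌊Real.exp S⌋₊, ∑ q ∈ A, (if q * p * j < W * N then (1 : ℝ) else 0) := by
            rw [Finset.sum_comm]
            apply Finset.sum_congr rfl
            intro p _
            rw [Finset.sum_comm]
        _ ≤ ∑ p ∈ P, ∑ j ∈ Finset.Icc 1 ⌊Real.exp S⌋₊,
            2 * C0 * (((W * N : ℕ) : ℝ) / K) * (1 / (p : ℝ)) * (1 / (j : ℝ)) := by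
            apply Finset.sum_le_sum
            intro p hp
            apply Finset.sum_le_sum
            intro j hj
            rw [Finset.mem_Icc] at hj
            exact V4_tri hN2 hW hC0 hch A
              (fun q hq => ⟨(hAm q hq).1, (hAm q hq).2.2.1⟩) p j (hPm p hp).1.one_le hj.1
        _ = 2 * C0 * (((W * N : ℕ) : ℝ) / K) * s0 * ∑ j ∈ Finset.Icc 1 ⌊Real.exp S⌋₊, 1 / (j : ℝ) := by
            have : s0 = ∑ p ∈ P, 1 / (p : ℝ) := rfl
            rw [this, mul_assoc _ (∑ p ∈ P, 1 / (p : ℝ)), Finset.sum_mul_sum, Finset.mul_sum]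
            apply Finset.sum_congr rfl
            intro p _
            rw [Finset.mul_sum]
            apply Finset.sum_congr rfl
            intro j _
            ring
        _ ≤ 2 * C0 * (((W * N : ℕ) : ℝ) / K) * s0 * (1 + S) := by
            apply mul_le_mul_of_nonneg_left _ (by positivity)
            exact V4_harm _ S (Nat.floor_le (by positivity)) (by linarith)
        _ = (2 * C0 * W * (1 + S) / K) * N * s0 := by
            push_cast
            ring
        _ ≤ del N * N * s0 := by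
            apply mul_le_mul_of_nonneg_right _ hs00
            exact mul_le_mul_of_nonneg_right hdS hN0.le
    calc ∑ q ∈ A, (((D q).filter bad).card : ℝ) ≤ ∑ q ∈ A, ∑ p ∈ P, (4 * del N * (((W * N : ℕ) : ℝ) / (q * p)) +
          ∑ j ∈ Finset.Icc 1 ⌊Real.exp S⌋₊, (if q * p * j < W * N then (1 : ℝ) else 0)) := Finset.sum_le_sum hbadq
      _ = ∑ q ∈ A, ∑ p ∈ P, 4 * del N * (((W * N : ℕ) : ℝ) / (q * p)) +
          ∑ q ∈ A, ∑ p ∈ P, ∑ j ∈ Finset.Icc 1 ⌊Real.exp S⌋₊, (if q * p * j < W * N then (1 : ℝ) else 0) := by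
          rw [← Finset.sum_add_distrib]
          apply Finset.sum_congr rfl
          intro q _
          rw [← Finset.sum_add_distrib]
      _ ≤ _ := by rw [h1]; linarith
  -- lower bound
  have hlow : del N * N / 2 * σ ≤ ∑ q ∈ A, ((D q).card : ℝ) := by
    rw [hσ, Finset.mul_sum]
    apply Finset.sum_le_sum
    intro q hq
    obtain ⟨g1, g2, g3, g4⟩ := hAm q hq
    have hq' : (0 : ℝ) < q := by exact_mod_cast g1.pos
    have h1 : Real.exp S ≤ ((W * N : ℕ) : ℝ) / q := by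
      rw [le_div_iff₀ hq']
      have h2 : Real.exp S * q ≤ Real.exp S * (N * Real.exp (-S)) := mul_le_mul_of_nonneg_left g4 (by positivity)
      have h3 : Real.exp S * (N * Real.exp (-S)) = N := by
        rw [Real.exp_neg]
        have := Real.exp_pos S
        field_simp
      push_cast
      nlinarith
    have h2 := (hdom (b q) ⌈((W * N : ℕ) : ℝ) / q⌉₊ (hb q (hcopW q g2)).2 (h1.trans (Nat.le_ceil _))).1
    refine le_trans ?_ h2
    have h3 : del N * (((W * N : ℕ) : ℝ) / q) / (2 * W) ≤ del N * (⌈((W * N : ℕ) : ℝ) / q⌉₊ : ℝ) / (2 * W) := by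
      apply div_le_div_of_nonneg_right _ (by positivity)
      exact mul_le_mul_of_nonneg_left (Nat.le_ceil _) hd0.le
    refine le_trans (le_of_eq ?_) h3
    push_cast
    field_simp
  have hsplit : ∑ q ∈ A, ((D q).card : ℝ) = ∑ q ∈ A, (((D q).filter bad).card : ℝ) +
      ∑ q ∈ A, (((D q).filter (fun k => ¬ bad k)).card : ℝ) := by
    rw [← Finset.sum_add_distrib]
    apply Finset.sum_congr rfl
    intro q _
    have := Finset.card_filter_add_card_filter_not (s := D q) bad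
    exact_mod_cast this.symm
  have hdN : 0 < del N * N := by positivity
  have h1 : 4 * W * s0 ≤ 1 / 4 := by
    have : 4 * (W : ℝ) * s0 ≤ 4 * W * (1 / (16 * W)) := mul_le_mul_of_nonneg_left hs0 (by positivity)
    have h2 : 4 * (W : ℝ) * (1 / (16 * W)) = 1 / 4 := by field_simp; norm_num
    linarith
  have h2 : (del N * N) * (σ / 2) ≤ (del N * N) * (ε + (4 * W * s0) * σ + s0) := by
    calc (del N * N) * (σ / 2) = del N * N / 2 * σ := by ring
      _ ≤ _ := hlow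
      _ ≤ (4 * W * del N * N * σ * s0 + del N * N * s0) + ε * del N * N := by rw [hsplit]; linarith
      _ = _ := by ring
  have h3 := le_of_mul_le_mul_left h2 hdN
  have h4 : (4 * W * s0) * σ ≤ 1 / 4 * σ := mul_le_mul_of_nonneg_right h1 hσ0
  linarith

theorem sig_small (W : ℕ) (hW : 1 ≤ W) : ∃ C ε1 : ℝ, 0 < C ∧ 0 < ε1 ∧ ∀ ε : ℝ, 0 < ε → ε ≤ ε1 → ∃ N0 : ℕ, ∀ N : ℕ,
    N0 ≤ N → ∀ (a : ℕ) (c : ℕ → ℝ) (β : ℝ), HV N W a c β ε → sQ c (W * N) ≤ C * ε := by
  obtain ⟨eb, heb, Nb, hbeta⟩ := beta_one W hW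
  obtain ⟨C1, e1, hC1, he1, htiny⟩ := tiny W hW
  obtain ⟨C2, e2, hC2, he2, hi⟩ := V4_i W hW
  obtain ⟨N3, hii⟩ := V4_ii W hW
  have hWr : (1 : ℝ) ≤ W := by exact_mod_cast hW
  refine ⟨(C1 + 1) + C2 + 4 * (C1 + 2) + 1, min (min 1 (min eb e1)) (min (e2 / (C1 + 1)) (1 / (16 * W) / (C1 + 1))),
    by positivity, ?_, ?_⟩
  · apply lt_min (lt_min one_pos (lt_min heb he1)) (lt_min (by positivity) (by positivity))
  · intro ε hε hε1
    have g1 : ε ≤ 1 := hε1.trans ((min_le_left _ _).trans (min_le_left _ _))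
    have g2 : ε ≤ eb := hε1.trans ((min_le_left _ _).trans ((min_le_right _ _).trans (min_le_left _ _)))
    have g3 : ε ≤ e1 := hε1.trans ((min_le_left _ _).trans ((min_le_right _ _).trans (min_le_right _ _)))
    have g4 : ε ≤ e2 / (C1 + 1) := hε1.trans ((min_le_right _ _).trans (min_le_left _ _))
    have g5 : ε ≤ 1 / (16 * W) / (C1 + 1) := hε1.trans ((min_le_right _ _).trans (min_le_right _ _))
    obtain ⟨N1, htiny⟩ := htiny ε hε g3
    obtain ⟨N2, hi⟩ := hi ε hε g1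
    obtain ⟨N4, hiii⟩ := V4_iii W hW ε hε
    refine ⟨max (max Nb N1) (max (max N2 N3) N4), ?_⟩
    intro N hN a c β hv
    have hβ : β = 1 := hbeta N (by omega) a c β (V4_mono hv g2)
    subst hβ
    have t0 := htiny N (by omega) a c 1 hv
    have s1 := V4_split c ⌊(N : ℝ) ^ ((99 : ℝ) / 200)⌋₊ ((N : ℝ) ^ ((1 : ℝ) / 100))
    have hq := hv.q
    have hs0 : sQ c ⌊(N : ℝ) ^ ((99 : ℝ) / 200)⌋₊ ≤ (C1 + 1) * ε := by linarith
    have hs1 : (C1 + 1) * ε ≤ e2 := by
      rw [le_div_iff₀ (by positivity)] at g4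
      linarith
    have hs2 : (C1 + 1) * ε ≤ 1 / (16 * W) := by
      rw [le_div_iff₀ (by positivity)] at g5
      linarith
    have t2 := hi N (by omega) a c hv (hs0.trans hs1)
    have t3 := hii N (by omega) a c ε hv (hs0.trans hs2)
    have t4 := hiii N (by omega) c
    have s2 := V4_split c ⌊(N : ℝ) ^ ((9 : ℝ) / 10)⌋₊ ((N : ℝ) ^ ((99 : ℝ) / 200))
    have s3 := V4_split c ⌊(N : ℝ) * Real.exp (-(Real.log N) ^ ((1 : ℝ) / 2))⌋₊ ((N : ℝ) ^ ((9 : ℝ) / 10))
    have s4 := V4_split c (W * N) ((N : ℝ) * Real.exp (-(Real.log N) ^ ((1 : ℝ) / 2)))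
    linarith

end Pool.Agent.Lib.OW
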