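import Pool.Agent.Lib.MP_7b7e48_nt.OW.T0

/-!
# Module CN1 (75 minutes): counting in `Dom`

`K = log N`. PROOF of `dd_bounds`: `dd N W = del (W N)/φ(W)`, `del (W N) ≤ del N` and `del (W N) ≥ del W · del N` (products over the primes), `del W/φ(W) = 1/W`.
`dom_count`: `|Dom N W a y| = ∑_{d ∣ N} μ(d) #{n < y : d ∣ n, n ≡ a (W)}`; for `(d, W) = 1` the number is `y/(d W) + O(1)`, otherwise `0`. Squarefree `d ≤ √y`: error `≤ √y`. `d > √y`: `sqf_tail` with `A = 12` for the main term and for the count (`≤ y/d + 1 ≤ 2 y/d` for `d ≤ y`, zero or one (`n = 0`, only if `a ≡ 0`, `W = 1`, `N = 1`; excluded for large `N`) for `d > y`).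
`∑_{d ∣ N, (d,W)=1} μ(d)/(d W) = (1/W) ∏_{p ∣ N, p ∤ W} (1 - 1/p) = dd N W`. Total error `≤ √y + 4 y/K^12 ≤ y/K^10`. `dom_two`: `dd_bounds`, `del_low` (`y/K^10 ≤ del N y/(2 W)` and `≤ del N y`).
-/

open Finset

namespace Pool.Agent.Lib.OW

open Pool.Agent.Lib.RG (RC LV rr SS PB)

private theorem cn1_del_prod (M : ℕ) (hM : 1 ≤ M) : del M = ∏ p ∈ M.primeFactors, (1 - 1 / (p : ℝ)) := by
  have h := Nat.totient_eq_mul_prod_factors M
  have h1 : ((M.totient : ℚ) : ℝ) = ((M * ∏ p ∈ M.primeFactors, (1 - (p : ℚ)⁻¹) : ℚ) : ℝ) := by rw [h]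
  push_cast at h1
  unfold del
  rw [h1]
  have hM0 : (M : ℝ) ≠ 0 := by
    have : (0 : ℝ) < M := by exact_mod_cast hM
    exact this.ne'
  rw [mul_div_cancel_left₀ _ hM0]
  refine Finset.prod_congr rfl fun p _ => ?_
  rw [one_div]

/-- the product over the primes of `N` outside `W` -/
private noncomputable def cn1_P (N W : ℕ) : ℝ :=
  ∏ p ∈ N.primeFactors \ W.primeFactors, (1 - 1 / (p : ℝ))

private theorem cn1_fac {M : ℕ} : ∀ p ∈ M.primeFactors, 0 < 1 - 1 / (p : ℝ) ∧ 1 - 1 / (p : ℝ) ≤ 1 := by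
  intro p hp
  have h2 : (2 : ℝ) ≤ p := by exact_mod_cast (Nat.prime_of_mem_primeFactors hp).two_le
  constructor
  · have : 1 / (p : ℝ) ≤ 1 / 2 := one_div_le_one_div_of_le (by norm_num) h2
    linarith
  · have : 0 < 1 / (p : ℝ) := by positivity
    linarith

private theorem cn1_dd (N W : ℕ) (hN : 1 ≤ N) (hW : 1 ≤ W) : dd N W = cn1_P N W / W := by
  have hφ : (0 : ℝ) < W.totient := by exact_mod_cast Nat.totient_pos.mpr hW
  have hW0 : (0 : ℝ) < W := by exact_mod_cast hW
  have h1 : del (W * N) = del W * cn1_P N W := by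
    rw [cn1_del_prod _ (Nat.mul_pos hW hN), cn1_del_prod _ hW, cn1_P,
      Nat.primeFactors_mul (by omega) (by omega), ← Finset.union_sdiff_self_eq_union,
      Finset.prod_union Finset.disjoint_sdiff]
  unfold dd
  rw [h1]
  unfold del
  field_simp

private theorem cn1_P_pos (N W : ℕ) : 0 < cn1_P N W :=
  Finset.prod_pos fun p hp => (cn1_fac p (Finset.mem_sdiff.mp hp).1).1

private theorem cn1_split (N W : ℕ) (hN : 1 ≤ N) :
    del N = cn1_P N W * ∏ p ∈ N.primeFactors ∩ W.primeFactors, (1 - 1 / (p : ℝ)) := by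
  rw [cn1_del_prod _ hN, cn1_P, ← Finset.prod_union (Finset.disjoint_sdiff_inter _ _),
    Finset.sdiff_union_inter]

theorem dd_bounds (N W : ℕ) (hN : 1 ≤ N) (hW : 1 ≤ W) : del N / W ≤ dd N W ∧ dd N W ≤ del N := by
  have hW0 : (0 : ℝ) < W := by exact_mod_cast hW
  have hP := cn1_P_pos N W
  rw [cn1_dd N W hN hW, cn1_split N W hN]
  set Q := ∏ p ∈ N.primeFactors ∩ W.primeFactors, (1 - 1 / (p : ℝ)) with hQ
  have hQ1 : Q ≤ 1 := by
    apply Finset.prod_le_one
    · intro p hp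
      exact (cn1_fac p (Finset.mem_inter.mp hp).1).1.le
    · intro p hp
      exact (cn1_fac p (Finset.mem_inter.mp hp).1).2
  have hQ2 : 1 / (W : ℝ) ≤ Q := by
    have h1 : del W ≤ Q := by
      rw [cn1_del_prod _ hW, hQ, ← Finset.prod_sdiff (Finset.inter_subset_right : N.primeFactors ∩ W.primeFactors ⊆ W.primeFactors)]
      apply mul_le_of_le_one_left
      · exact (Finset.prod_pos fun p hp => (cn1_fac p (Finset.mem_inter.mp hp).1).1).le
      · apply Finset.prod_le_one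
        · intro p hp
          exact (cn1_fac p (Finset.mem_sdiff.mp hp).1).1.le
        · intro p hp
          exact (cn1_fac p (Finset.mem_sdiff.mp hp).1).2
    refine le_trans ?_ h1
    unfold del
    have : (1 : ℝ) ≤ W.totient := by exact_mod_cast Nat.totient_pos.mpr hW
    gcongr
  constructor
  · gcongr
    nlinarith
  · rw [div_eq_mul_one_div]
    gcongr

/-- `1 / t` on the numbers coprime to `W` as an arithmetic function. -/
private noncomputable def cn1_g (W : ℕ) : ArithmeticFunction ℝ :=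
  ⟨fun n => if n.Coprime W then 1 / (n : ℝ) else 0, by simp⟩

private theorem cn1_g_mult (W : ℕ) : (cn1_g W).IsMultiplicative := by
  rw [ArithmeticFunction.IsMultiplicative.iff_ne_zero]
  constructor
  · change (if (1 : ℕ).Coprime W then 1 / ((1 : ℕ) : ℝ) else 0) = 1
    rw [if_pos (Nat.coprime_one_left W)]
    norm_num
  · intro m n _ _ _
    change (if (m * n).Coprime W then 1 / ((m * n : ℕ) : ℝ) else 0) =
      (if m.Coprime W then 1 / (m : ℝ) else 0) * (if n.Coprime W then 1 / (n : ℝ) else 0)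
    by_cases h1 : m.Coprime W
    · by_cases h2 : n.Coprime W
      · rw [if_pos h1, if_pos h2, if_pos (Nat.Coprime.mul_left h1 h2)]
        push_cast
        rw [one_div_mul_one_div]
      · rw [if_neg h2, if_neg (fun h => h2 (Nat.Coprime.coprime_mul_left h)), mul_zero]
    · rw [if_neg h1, if_neg (fun h => h1 (Nat.Coprime.coprime_mul_right h)), zero_mul]

private theorem cn1_mu (N W : ℕ) (hN : 1 ≤ N) (hW1 : 1 ≤ W) :
    ∑ d ∈ N.divisors, ((ArithmeticFunction.moebius d : ℤ) : ℝ) * (if d.Coprime W then 1 / (d : ℝ) else 0) = cn1_P N W := by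
  set R := ∏ p ∈ N.primeFactors, p with hR
  have hRsq : Squarefree R := by
    rw [hR]
    apply Finset.squarefree_prod_of_pairwise_isCoprime
    · intro p hp q hq hpq
      have := (Nat.coprime_primes (Nat.prime_of_mem_primeFactors hp) (Nat.prime_of_mem_primeFactors hq)).mpr hpq
      exact Nat.coprime_iff_isRelPrime.mp this
    · intro p hp
      exact (Nat.prime_of_mem_primeFactors hp).squarefree
  have hRpf : R.primeFactors = N.primeFactors :=
    Nat.primeFactors_prod fun p hp => Nat.prime_of_mem_primeFactors hp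
  have hRN : R ∣ N := Nat.prod_primeFactors_dvd N
  have h1 := ArithmeticFunction.IsMultiplicative.prodPrimeFactors_one_sub_of_squarefree
      (cn1_g W) (cn1_g_mult W) hRsq
  have h2 : ∑ d ∈ N.divisors, ((ArithmeticFunction.moebius d : ℤ) : ℝ) * (if d.Coprime W then 1 / (d : ℝ) else 0) =
      ∑ d ∈ R.divisors, ((ArithmeticFunction.moebius d : ℤ) : ℝ) * (if d.Coprime W then 1 / (d : ℝ) else 0) := by
    symm
    apply Finset.sum_subset
    · exact Nat.divisors_subset_of_dvd (by omega) hRN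
    · intro d hd hd'
      have hns : ¬ Squarefree d := by
        intro hs
        apply hd'
        rw [Nat.mem_divisors]
        refine ⟨?_, hRsq.ne_zero⟩
        have h3 : ∏ p ∈ d.primeFactors, p = d := Nat.prod_primeFactors_of_squarefree hs
        rw [← h3, hR]
        exact Finset.prod_dvd_prod_of_subset _ _ _ (Nat.primeFactors_mono (Nat.mem_divisors.mp hd).1 (by omega))
      rw [ArithmeticFunction.moebius_eq_zero_of_not_squarefree hns]
      simp
  rw [h2]
  have h3 : ∑ d ∈ R.divisors, ((ArithmeticFunction.moebius d : ℤ) : ℝ) * (if d.Coprime W then 1 / (d : ℝ) else 0) =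
      ∏ p ∈ R.primeFactors, (1 - cn1_g W p) := h1.symm
  rw [h3, hRpf, cn1_P]
  have h4 : ∏ p ∈ N.primeFactors \ W.primeFactors, (1 - 1 / (p : ℝ)) =
      ∏ p ∈ N.primeFactors \ W.primeFactors, (1 - cn1_g W p) := by
    refine Finset.prod_congr rfl fun p hp => ?_
    have hp' := Finset.mem_sdiff.mp hp
    have hpp := Nat.prime_of_mem_primeFactors hp'.1
    have hW : W ≠ 0 := by omega
    have hc : p.Coprime W := by
      rw [Nat.Prime.coprime_iff_not_dvd hpp]
      intro h
      exact hp'.2 (Nat.mem_primeFactors.mpr ⟨hpp, h, hW⟩)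
    change 1 - 1 / (p : ℝ) = 1 - (if p.Coprime W then 1 / (p : ℝ) else 0)
    rw [if_pos hc]
  rw [h4]
  symm
  apply Finset.prod_subset Finset.sdiff_subset
  intro p hp hp'
  have hpp := Nat.prime_of_mem_primeFactors hp
  have : p ∈ W.primeFactors := by
    by_contra h
    exact hp' (Finset.mem_sdiff.mpr ⟨hp, h⟩)
  have hnc : ¬ p.Coprime W := by
    rw [Nat.Prime.coprime_iff_not_dvd hpp, not_not]
    exact (Nat.mem_primeFactors.mp this).2.1
  change 1 - (if p.Coprime W then 1 / (p : ℝ) else 0) = 1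
  rw [if_neg hnc, sub_zero]

/-- Detection of coprimality. -/
private theorem cn1_detect (n k : ℕ) (hk : k ≠ 0) :
    (if n.Coprime k then (1 : ℝ) else 0) =
      ∑ t ∈ k.divisors, if t ∣ n then ((ArithmeticFunction.moebius t : ℤ) : ℝ) else 0 := by
  have hg : Nat.gcd n k ≠ 0 := Nat.gcd_ne_zero_right hk
  have h2 : ∑ d ∈ (Nat.gcd n k).divisors, (ArithmeticFunction.moebius d : ℤ) =
      if Nat.gcd n k = 1 then 1 else 0 := by
    have h := ArithmeticFunction.coe_mul_zeta_apply (f := ArithmeticFunction.moebius)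
      (x := Nat.gcd n k)
    rw [ArithmeticFunction.moebius_mul_coe_zeta] at h
    rw [← h, ArithmeticFunction.one_apply]
  have h3 : (Nat.gcd n k).divisors = k.divisors.filter (fun d => d ∣ n) := by
    ext d
    rw [Nat.mem_divisors, Finset.mem_filter, Nat.mem_divisors, Nat.dvd_gcd_iff]
    constructor
    · rintro ⟨⟨h4, h5⟩, _⟩
      exact ⟨⟨h5, hk⟩, h4⟩
    · rintro ⟨⟨h5, _⟩, h4⟩
      exact ⟨⟨h4, h5⟩, hg⟩
  rw [h3] at h2
  rw [← Finset.sum_filter]
  have h4 : ∑ d ∈ k.divisors.filter (fun d => d ∣ n), ((ArithmeticFunction.moebius d : ℤ) : ℝ) =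
      ((∑ d ∈ k.divisors.filter (fun d => d ∣ n), (ArithmeticFunction.moebius d : ℤ) : ℤ) : ℝ) := by
    push_cast
    rfl
  rw [h4, h2]
  by_cases h : n.Coprime k
  · rw [if_pos h, if_pos (show Nat.gcd n k = 1 from h)]
    norm_num
  · rw [if_neg h, if_neg (show ¬ Nat.gcd n k = 1 from h)]
    norm_num

open Classical in
/-- the positive numbers `n < y`, `n ≡ a` modulo `W`, divisible by `d` -/
private noncomputable def cn1_T (W a y d : ℕ) : Finset ℕ :=
  (Finset.Ico 1 y).filter fun n => n ≡ a [MOD W] ∧ d ∣ n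

private theorem cn1_card (N W a y : ℕ) (hN : 2 ≤ N) :
    ((Dom N W a y).card : ℝ) = ∑ d ∈ N.divisors, ((ArithmeticFunction.moebius d : ℤ) : ℝ) * ((cn1_T W a y d).card : ℝ) := by
  classical
  have h1 : Dom N W a y = ((Finset.Ico 1 y).filter (fun n => n ≡ a [MOD W])).filter (fun n => n.Coprime N) := by
    ext n
    simp only [Dom, Finset.mem_filter, Finset.mem_range, Finset.mem_Ico]
    constructor
    · rintro ⟨h1, h2, h3⟩
      refine ⟨⟨⟨?_, h1⟩, h2⟩, h3⟩
      rcases Nat.eq_zero_or_pos n with h | h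
      · subst h
        rw [Nat.coprime_zero_left] at h3
        omega
      · exact h
    · rintro ⟨⟨⟨h0, h1⟩, h2⟩, h3⟩
      exact ⟨h1, h2, h3⟩
  rw [h1, Finset.card_eq_sum_ones, Nat.cast_sum, Finset.sum_filter]
  have h2 : ∀ n : ℕ, (if n.Coprime N then ((1 : ℕ) : ℝ) else 0) = (if n.Coprime N then (1 : ℝ) else 0) := by
    intro n
    rw [Nat.cast_one]
  rw [Finset.sum_congr rfl fun n _ => (h2 n).trans (cn1_detect n N (by omega)), Finset.sum_comm]
  refine Finset.sum_congr rfl fun d _ => ?_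
  rw [← Finset.sum_filter, Finset.sum_const, nsmul_eq_mul, mul_comm, Finset.filter_filter]
  rfl

private theorem cn1_T_zero (W a y d : ℕ) (ha : a.Coprime W) (hd : ¬ d.Coprime W) : (cn1_T W a y d).card = 0 := by
  rw [Finset.card_eq_zero, cn1_T, Finset.filter_eq_empty_iff]
  rintro n _ ⟨h1, h2⟩
  apply hd
  have h3 : Nat.gcd n W = 1 := by
    rw [Nat.ModEq.gcd_eq h1]
    exact ha
  exact Nat.Coprime.coprime_dvd_left h2 h3

private theorem cn1_T_le (W a y d : ℕ) : ((cn1_T W a y d).card : ℝ) ≤ y / d := by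
  have h1 : (cn1_T W a y d).card ≤ ((Finset.Icc 1 y).filter (fun n => d ∣ n)).card := by
    apply Finset.card_le_card
    intro n hn
    simp only [cn1_T, Finset.mem_filter, Finset.mem_Ico, Finset.mem_Icc] at hn ⊢
    exact ⟨⟨hn.1.1, hn.1.2.le⟩, hn.2.2⟩
  have h2 : ((Finset.Icc 1 y).filter (fun n => d ∣ n)).card = y / d := by
    have h3 : Finset.Icc 1 y = Finset.Ioc 0 y := by
      ext n
      simp only [Finset.mem_Icc, Finset.mem_Ioc]
      omega
    rw [h3]
    exact Nat.Ioc_filter_dvd_card_eq_div y d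
  calc ((cn1_T W a y d).card : ℝ) ≤ ((y / d : ℕ) : ℝ) := by
        rw [← h2]
        exact_mod_cast h1
    _ ≤ y / d := Nat.cast_div_le

private theorem cn1_T_est (W a y d : ℕ) (hW : 1 ≤ W) (hd : 1 ≤ d) (hc : d.Coprime W) :
    |((cn1_T W a y d).card : ℝ) - y / (d * W)| ≤ 2 := by
  classical
  obtain ⟨r, hr1, hr2⟩ := Nat.chineseRemainder hc 0 a
  have hq : 0 < d * W := Nat.mul_pos hd hW
  have h1 : ∀ n : ℕ, (n ≡ a [MOD W] ∧ d ∣ n) ↔ n ≡ r [MOD d * W] := by
    intro n
    constructor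
    · rintro ⟨h1, h2⟩
      exact (Nat.modEq_and_modEq_iff_modEq_mul hc).mp
        ⟨((Nat.modEq_zero_iff_dvd.mpr h2).trans hr1.symm), h1.trans hr2.symm⟩
    · intro h
      have h' := (Nat.modEq_and_modEq_iff_modEq_mul hc).mpr h
      exact ⟨h'.2.trans hr2, (Nat.modEq_zero_iff_dvd).mp (h'.1.trans hr1)⟩
  have h2 := Nat.count_modEq_card y hq r
  rw [Nat.count_eq_card_filter_range] at h2
  have h3 : cn1_T W a y d ⊆ (Finset.range y).filter (fun n => n ≡ r [MOD d * W]) := by
    intro n hn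
    simp only [cn1_T, Finset.mem_filter, Finset.mem_Ico, Finset.mem_range] at hn ⊢
    exact ⟨hn.1.2, (h1 n).mp hn.2⟩
  have h4 : (Finset.range y).filter (fun n => n ≡ r [MOD d * W]) ⊆ insert 0 (cn1_T W a y d) := by
    intro n hn
    simp only [cn1_T, Finset.mem_filter, Finset.mem_Ico, Finset.mem_range, Finset.mem_insert] at hn ⊢
    rcases Nat.eq_zero_or_pos n with h | h
    · exact Or.inl h
    · exact Or.inr ⟨⟨h, hn.1⟩, (h1 n).mpr hn.2⟩
  have h5 := Finset.card_le_card h3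
  have h6 := (Finset.card_le_card h4).trans (Finset.card_insert_le _ _)
  rw [h2] at h5 h6
  have h7 : (y : ℝ) / (d * W) - 1 < ((y / (d * W) : ℕ) : ℝ) := by
    have := Nat.lt_floor_add_one ((y : ℝ) / ((d * W : ℕ) : ℝ))
    rw [Nat.floor_div_eq_div] at this
    push_cast at this
    linarith
  have h8 : ((y / (d * W) : ℕ) : ℝ) ≤ (y : ℝ) / (d * W) := by
    have := Nat.cast_div_le (α := ℝ) (m := y) (n := d * W)
    push_cast at this
    exact this
  have h9 : (cn1_T W a y d).card ≤ y / (d * W) + 1 := by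
    refine h5.trans ?_
    split_ifs <;> omega
  have h10 : y / (d * W) ≤ (cn1_T W a y d).card + 1 := by omega
  have h9' : ((cn1_T W a y d).card : ℝ) ≤ ((y / (d * W) : ℕ) : ℝ) + 1 := by exact_mod_cast h9
  have h10' : ((y / (d * W) : ℕ) : ℝ) ≤ ((cn1_T W a y d).card : ℝ) + 1 := by exact_mod_cast h10
  rw [abs_le]
  constructor <;> linarith

theorem dom_count (W : ℕ) (hW : 1 ≤ W) (θ : ℝ) (h0 : 0 < θ) (h1 : θ ≤ 1) : ∃ N0 : ℕ, ∀ N : ℕ, N0 ≤ N →
    ∀ a y : ℕ, a.Coprime W → Real.exp ((Real.log N) ^ θ) ≤ y →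
    |((Dom N W a y).card : ℝ) - dd N W * y| ≤ y / (Real.log N) ^ 10 := by
  classical
  obtain ⟨N1, hN1⟩ := sqf_tail θ h0 h1 11
  obtain ⟨m, hm⟩ := exists_nat_ge (21 / θ)
  refine ⟨N1 + 2 + ⌈Real.exp (16 * (m.factorial : ℝ) + 2)⌉₊, ?_⟩
  intro N hN a y ha hy
  have hN2 : 2 ≤ N := by omega
  have hNe : Real.exp (16 * (m.factorial : ℝ) + 2) ≤ N := by
    calc Real.exp (16 * (m.factorial : ℝ) + 2) ≤ ⌈Real.exp (16 * (m.factorial : ℝ) + 2)⌉₊ := Nat.le_ceil _
      _ ≤ N := by exact_mod_cast (by omega : ⌈Real.exp (16 * (m.factorial : ℝ) + 2)⌉₊ ≤ N)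
  have hN0 : (0 : ℝ) < N := by exact_mod_cast (by omega : 0 < N)
  set K := Real.log N with hK
  have hKb : 16 * (m.factorial : ℝ) + 2 ≤ K := by
    rw [hK, Real.le_log_iff_exp_le hN0]
    exact hNe
  have hf1 : (1 : ℝ) ≤ m.factorial := by exact_mod_cast Nat.succ_le_of_lt m.factorial_pos
  have hK2 : 2 ≤ K := by linarith
  have hK0 : 0 < K := by linarith
  have hK1 : 1 ≤ K := by linarith
  -- `y` is large
  have hyK : 16 * K ^ 20 ≤ y := by
    have h2 : (K ^ θ) ^ m / m.factorial ≤ Real.exp (K ^ θ) := Real.pow_div_factorial_le_exp _ (by positivity) m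
    have h3 : K ^ 21 ≤ (K ^ θ) ^ m := by
      rw [← Real.rpow_natCast (K ^ θ) m, ← Real.rpow_mul hK0.le, ← Real.rpow_natCast K 21]
      apply Real.rpow_le_rpow_of_exponent_le hK1
      push_cast
      rw [div_le_iff₀ h0] at hm
      linarith
    have h4 : 16 * K ^ 20 ≤ K ^ 21 / m.factorial := by
      rw [le_div_iff₀ (by positivity)]
      have : (0 : ℝ) < K ^ 20 := by positivity
      nlinarith
    calc 16 * K ^ 20 ≤ K ^ 21 / m.factorial := h4
      _ ≤ (K ^ θ) ^ m / m.factorial := by gcongr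
      _ ≤ Real.exp (K ^ θ) := h2
      _ ≤ y := hy
  have hy0 : (0 : ℝ) < y := lt_of_lt_of_le (by positivity) hyK
  have hsq : 4 * K ^ 10 ≤ √(y : ℝ) := by
    apply Real.le_sqrt_of_sq_le
    calc (4 * K ^ 10) ^ 2 = 16 * K ^ 20 := by ring
      _ ≤ (y : ℝ) := hyK
  have htail := hN1 N (by omega) y hy
  -- main term
  have hmain : dd N W * y = ∑ d ∈ N.divisors, ((ArithmeticFunction.moebius d : ℤ) : ℝ) *
      (if d.Coprime W then (y : ℝ) / (d * W) else 0) := by
    rw [cn1_dd N W (by omega) hW, ← cn1_mu N W (by omega) hW, Finset.sum_div, Finset.sum_mul]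
    refine Finset.sum_congr rfl fun d _ => ?_
    by_cases h : d.Coprime W
    · rw [if_pos h, if_pos h]
      rw [one_div, div_eq_mul_inv, div_eq_mul_inv, mul_inv]
      ring
    · rw [if_neg h, if_neg h]
      ring
  rw [cn1_card N W a y hN2, hmain, ← Finset.sum_sub_distrib]
  refine (Finset.abs_sum_le_sum_abs _ _).trans ?_
  have hterm : ∀ d ∈ N.divisors, |((ArithmeticFunction.moebius d : ℤ) : ℝ) * ((cn1_T W a y d).card : ℝ) -
      ((ArithmeticFunction.moebius d : ℤ) : ℝ) * (if d.Coprime W then (y : ℝ) / (d * W) else 0)| ≤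
      (if (d : ℝ) ≤ √(y : ℝ) then 2 else 0) + y * (if Squarefree d ∧ √(y : ℝ) < d then 1 / (d : ℝ) else 0) := by
    intro d hd
    have hd1 : 1 ≤ d := Nat.pos_of_mem_divisors hd
    have hd0 : (0 : ℝ) < d := by exact_mod_cast hd1
    have hR : 0 ≤ y * (if Squarefree d ∧ √(y : ℝ) < d then 1 / (d : ℝ) else 0) := by
      split_ifs
      · positivity
      · simp
    have hL : (0 : ℝ) ≤ (if (d : ℝ) ≤ √(y : ℝ) then 2 else 0) := by
      split_ifs <;> norm_num
    have hmu : |((ArithmeticFunction.moebius d : ℤ) : ℝ)| ≤ 1 := by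
      have := ArithmeticFunction.abs_moebius_le_one (n := d)
      exact_mod_cast this
    rw [← mul_sub, abs_mul]
    by_cases hs : Squarefree d
    · by_cases hcW : d.Coprime W
      · rw [if_pos hcW]
        by_cases hds : (d : ℝ) ≤ √(y : ℝ)
        · have h2 := cn1_T_est W a y d hW hd1 hcW
          rw [if_pos hds]
          calc |((ArithmeticFunction.moebius d : ℤ) : ℝ)| * |((cn1_T W a y d).card : ℝ) - y / (d * W)| ≤ 1 * 2 :=
                mul_le_mul hmu h2 (abs_nonneg _) zero_le_one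
            _ ≤ 2 + y * (if Squarefree d ∧ √(y : ℝ) < d then 1 / (d : ℝ) else 0) := by linarith
        · rw [if_neg hds, if_pos ⟨hs, not_le.mp hds⟩]
          have h2 := cn1_T_le W a y d
          have h3 : (0 : ℝ) ≤ ((cn1_T W a y d).card : ℝ) := Nat.cast_nonneg _
          have hW1 : (1 : ℝ) ≤ W := by exact_mod_cast hW
          have h4 : (y : ℝ) / (d * W) ≤ y / d := by
            apply div_le_div_of_nonneg_left hy0.le hd0
            nlinarith
          have h5 : (0 : ℝ) ≤ y / (d * W) := by positivity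
          have h6 : |((cn1_T W a y d).card : ℝ) - y / (d * W)| ≤ y / d := by
            rw [abs_le]
            constructor <;> linarith
          calc |((ArithmeticFunction.moebius d : ℤ) : ℝ)| * |((cn1_T W a y d).card : ℝ) - y / (d * W)| ≤ 1 * (y / d) :=
                mul_le_mul hmu h6 (abs_nonneg _) zero_le_one
            _ = 0 + y * (1 / (d : ℝ)) := by ring
      · rw [if_neg hcW, cn1_T_zero W a y d ha hcW]
        simp only [Nat.cast_zero, sub_zero, abs_zero, mul_zero]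
        linarith
    · rw [ArithmeticFunction.moebius_eq_zero_of_not_squarefree hs]
      simp only [Int.cast_zero, abs_zero, zero_mul]
      linarith
  refine (Finset.sum_le_sum hterm).trans ?_
  rw [Finset.sum_add_distrib, ← Finset.mul_sum, ← Finset.sum_filter, ← Finset.sum_filter]
  have hA : ∑ d ∈ N.divisors.filter (fun d : ℕ => (d : ℝ) ≤ √(y : ℝ)), (2 : ℝ) ≤ 2 * √(y : ℝ) := by
    rw [Finset.sum_const, nsmul_eq_mul]
    have h2 : (N.divisors.filter (fun d : ℕ => (d : ℝ) ≤ √(y : ℝ))).card ≤ (Finset.Icc 1 ⌊√(y : ℝ)⌋₊).card := by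
      apply Finset.card_le_card
      intro d hd
      rw [Finset.mem_filter] at hd
      rw [Finset.mem_Icc]
      exact ⟨Nat.pos_of_mem_divisors hd.1, Nat.le_floor hd.2⟩
    rw [Nat.card_Icc, Nat.add_sub_cancel] at h2
    have h3 : ((N.divisors.filter (fun d : ℕ => (d : ℝ) ≤ √(y : ℝ))).card : ℝ) ≤ √(y : ℝ) := by
      calc ((N.divisors.filter (fun d : ℕ => (d : ℝ) ≤ √(y : ℝ))).card : ℝ) ≤ ⌊√(y : ℝ)⌋₊ := by exact_mod_cast h2
        _ ≤ √(y : ℝ) := Nat.floor_le (Real.sqrt_nonneg _)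
    linarith
  have hB : (y : ℝ) * ∑ d ∈ N.divisors.filter (fun d : ℕ => Squarefree d ∧ √(y : ℝ) < (d : ℝ)), 1 / (d : ℝ) ≤ y * (1 / K ^ 11) := by
    apply mul_le_mul_of_nonneg_left _ hy0.le
    exact htail
  refine (add_le_add hA hB).trans ?_
  have hC : 2 * √(y : ℝ) ≤ y / (2 * K ^ 10) := by
    rw [le_div_iff₀ (by positivity)]
    have h2 : √(y : ℝ) * √(y : ℝ) = y := Real.mul_self_sqrt hy0.le
    have h3 : 0 ≤ √(y : ℝ) := Real.sqrt_nonneg _
    nlinarith
  have hD : (y : ℝ) * (1 / K ^ 11) ≤ y / (2 * K ^ 10) := by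
    rw [mul_one_div]
    apply div_le_div_of_nonneg_left hy0.le (by positivity)
    have : (0 : ℝ) < K ^ 10 := by positivity
    calc 2 * K ^ 10 ≤ K * K ^ 10 := by nlinarith
      _ = K ^ 11 := by ring
  calc 2 * √(y : ℝ) + y * (1 / K ^ 11) ≤ y / (2 * K ^ 10) + y / (2 * K ^ 10) := add_le_add hC hD
    _ = y / K ^ 10 := by field_simp; norm_num

theorem dom_two (W : ℕ) (hW : 1 ≤ W) (θ : ℝ) (h0 : 0 < θ) (h1 : θ ≤ 1) : ∃ N0 : ℕ, ∀ N : ℕ, N0 ≤ N →
    ∀ a y : ℕ, a.Coprime W → Real.exp ((Real.log N) ^ θ) ≤ y →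
    del N * y / (2 * W) ≤ ((Dom N W a y).card : ℝ) ∧ ((Dom N W a y).card : ℝ) ≤ 2 * del N * y := by
  obtain ⟨N1, hN1⟩ := dom_count W hW θ h0 h1
  obtain ⟨N2, hN2⟩ := del_low
  refine ⟨N1 + N2 + 2 + ⌈Real.exp (2 * (W : ℝ) + 2)⌉₊, ?_⟩
  intro N hN a y ha hy
  have hNe : Real.exp (2 * (W : ℝ) + 2) ≤ N := by
    calc Real.exp (2 * (W : ℝ) + 2) ≤ ⌈Real.exp (2 * (W : ℝ) + 2)⌉₊ := Nat.le_ceil _
      _ ≤ N := by exact_mod_cast (by omega : ⌈Real.exp (2 * (W : ℝ) + 2)⌉₊ ≤ N)
  have hN0 : (0 : ℝ) < N := by exact_mod_cast (by omega : 0 < N)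
  have hW1 : (1 : ℝ) ≤ W := by exact_mod_cast hW
  have e1 := hN1 N (by omega) a y ha hy
  have e2 := hN2 N (by omega)
  obtain ⟨e3, e4⟩ := dd_bounds N W (by omega) hW
  set K := Real.log N with hK
  have hKb : 2 * (W : ℝ) + 2 ≤ K := by
    rw [hK, Real.le_log_iff_exp_le hN0]
    exact hNe
  have hK1 : 1 ≤ K := by linarith
  have hK0 : 0 < K := by linarith
  have hy0 : (0 : ℝ) ≤ y := Nat.cast_nonneg _
  have hdel : 0 < del N := by
    by_contra h
    push Not at h
    nlinarith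
  -- `1/K^10 ≤ del N/(2 W)`
  have h2 : 1 / K ^ 10 ≤ del N / (2 * W) := by
    rw [div_le_div_iff₀ (by positivity) (by positivity)]
    have h3 : 2 * (W : ℝ) ≤ K ^ 9 := by
      calc 2 * (W : ℝ) ≤ K := by linarith
        _ = K ^ 1 := (pow_one K).symm
        _ ≤ K ^ 9 := pow_le_pow_right₀ hK1 (by norm_num)
    calc 1 * (2 * (W : ℝ)) ≤ K ^ 9 * 1 := by linarith
      _ ≤ K ^ 9 * (K * del N) := by gcongr
      _ = del N * K ^ 10 := by ring
  have h3 : (y : ℝ) / K ^ 10 ≤ del N * y / (2 * W) := by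
    calc (y : ℝ) / K ^ 10 = y * (1 / K ^ 10) := by ring
      _ ≤ y * (del N / (2 * W)) := by gcongr
      _ = del N * y / (2 * W) := by ring
  have h4 := abs_le.mp e1
  have h5 : del N / W * y ≤ dd N W * y := by gcongr
  have h6 : dd N W * y ≤ del N * y := by gcongr
  have h7 : del N * y / (2 * W) ≤ del N * y := by
    apply div_le_self (by positivity)
    linarith
  constructor
  · have h8 : del N / W * y = del N * y / (2 * W) + del N * y / (2 * W) := by
      field_simp
      norm_num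
    linarith [h4.1]
  · linarith [h4.2]

end Pool.Agent.Lib.OW
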