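import Pool.Agent.Lib.MP_7b7e48_nt.OW.S6
import Pool.Agent.Lib.MP_7b7e48_nt.OW.CN1
import Pool.Agent.Lib.MP_7b7e48_nt.OW.CN3

/-!
# Module V5 (120 minutes): lower bound for the exceptional set

`K = log N`, `M = W N`, `σ = sQ c M ≤ ε1`, `Q` = primes with `c = 1`. PROOF. Let `B = ⌊N exp(-K^(1/2))⌋`. By `sQ_diff` and `sig_star` (modulus `M`) `σ - sQ c B ≤ 4 del M L (K^(1/2) + log W + 2) ≤ C σ (K^(1/2) + ..)/K ≤ σ/4`.
For `n ∈ Dom N W a M`: `lam n c n = (-1)^(number of q ∈ Q dividing n, with multiplicity)`, and `1_{Zst}(n) ≥ #{q ∈ Q : q ≤ B, q ∣ n} - 2 #{q < q' in Q : q q' ∣ n} - 2 #{q ∈ Q : q² ∣ n}` (`w` distinct `q`: `w = 0`, `w = 1`: clear; `w ≥ 2`: right side `≤ w - w(w-1) ≤ 0`).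
So `|Zst| ≥ ∑_{q ≤ B} N_q - 2 ∑_{q < q'} N_{q q'} - 2 ∑ N_{q²}`, `N_d = #{n ∈ Dom N W a M : d ∣ n} = |Dom N W (a d^(-1)) ⌈M/d⌉|` (`d` coprime to `M`). (1) `N_q ≥ del N (M/q)/(2 W) = del N N/(2 q)` (`dom_two`, `θ = 1/2`): sum `≥ (3/8) del N N σ`.
(2) `q q' ≤ M exp(-K^(1/2))`: `N_{q q'} ≤ 4 del N M/(q q')`, sum `≤ 4 W del N N σ²`. (3) `q q' > M exp(-K^(1/2))`, `q < q' ≤ M/q`: `n = q q' k''`, `k'' < exp(K^(1/2))`, `q' ≥ N^(2/5)`; for given `k''`, `q` the number of primes `N^(2/5) ≤ q' ≤ M/(k'' q)` is `≤ C (M/(k'' q))/K` (`cheb_up`), total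
`≤ C M σ (K^(1/2) + 2)/K ≤ del N N σ/100` (`del_loglog`). (4) `q² ≤ M exp(-K^(1/2))`: `≤ 4 del N M/q²`, `1/q ≤ σ ≤ ε1`: sum `≤ 4 W ε1 del N N σ`. (5) `q² > M exp(-K^(1/2))`: `N_{q²} ≤ M/q² + 1 ≤ 2 M/q²` (or `0`), `q > N^(2/5)`: sum `≤ 4 M N^(-2/5) ≤ del N N σ/100` (`sig_low`, `del_low`).
-/

open Finset
open Pool.Agent.Lib.MP_45349e_nt.LS (lam)

namespace Pool.Agent.Lib.OW

open Pool.Agent.Lib.RG (RC LV rr SS PB)

private theorem V5_one {M : ℕ} {c : ℕ → ℝ} (hc : RC M c) : c 1 = 1 := by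
  have h1 := hc.mul 1 1
  rw [mul_one] at h1
  rcases hc.val 1 (Nat.coprime_one_left M) with h | h
  · exact h
  · rw [h] at h1
    norm_num at h1

private theorem V5_lam_mul {m n : ℕ} (hm : m ≠ 0) (hn : n ≠ 0) : lam (m * n) = lam m * lam n := by
  unfold lam
  rw [ArithmeticFunction.cardFactors_mul hm hn, pow_add]

private theorem V5_lam_prime {p : ℕ} (hp : p.Prime) : lam p = -1 := by
  unfold lam
  rw [ArithmeticFunction.cardFactors_apply_prime hp, pow_one]

private theorem V5_all {M : ℕ} {c : ℕ → ℝ} (hc : RC M c) (m : ℕ) (hm : m ≠ 0)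
    (h : ∀ p : ℕ, p.Prime → p ∣ m → c p = -1) : lam m * c m = 1 := by
  induction m using induction_on_primes with
  | zero => exact absurd rfl hm
  | one =>
      rw [V5_one hc]
      unfold lam
      simp
  | prime_mul p a hp ih =>
      have ha : a ≠ 0 := fun h0 => hm (by rw [h0, mul_zero])
      rw [V5_lam_mul hp.ne_zero ha, hc.mul, V5_lam_prime hp, h p hp (dvd_mul_right p a)]
      have := ih ha (fun q hq hqa => h q hq (hqa.trans (dvd_mul_left a p)))
      linarith

open Classical in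
/-- the pointwise inequality -/
private theorem V5_point {M : ℕ} {c : ℕ → ℝ} (hc : RC M c) {B n : ℕ} (hB : B ≤ M) (hn0 : n ≠ 0)
    (hnM : n < M) (hco : n.Coprime M) :
    (((QP c B).filter fun q => q ∣ n).card : ℝ) -
      (((QP c M ×ˢ QP c M).filter fun x => x.1 * x.2 ∣ n).card : ℝ) ≤
      if lam n ≠ 1 * c n then 1 else 0 := by
  set S := (QP c M).filter fun q => q ∣ n with hS
  set P := (QP c M ×ˢ QP c M).filter fun x => x.1 * x.2 ∣ n with hP
  have h1 : ((QP c B).filter fun q => q ∣ n).card ≤ S.card := by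
    refine card_le_card fun q hq => ?_
    rw [hS, mem_filter]
    rw [mem_filter] at hq
    refine ⟨?_, hq.2⟩
    have h := hq.1
    unfold QP at h ⊢
    rw [mem_filter, mem_range] at h ⊢
    exact ⟨by omega, h.2⟩
  have h2 : S.offDiag.card ≤ P.card := by
    refine card_le_card fun x hx => ?_
    rw [mem_offDiag, hS, mem_filter, mem_filter] at hx
    rw [hP, mem_filter, mem_product]
    refine ⟨⟨hx.1.1, hx.2.1.1⟩, ?_⟩
    have hp1 : x.1.Prime := by
      have := hx.1.1; unfold QP at this; rw [mem_filter] at this; exact this.2.1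
    have hp2 : x.2.Prime := by
      have := hx.2.1.1; unfold QP at this; rw [mem_filter] at this; exact this.2.1
    exact Nat.Coprime.mul_dvd_of_dvd_of_dvd ((Nat.coprime_primes hp1 hp2).2 hx.2.2) hx.1.2 hx.2.1.2
  have h3 : (0 : ℝ) ≤ if lam n ≠ 1 * c n then 1 else 0 := by
    split_ifs <;> norm_num
  have h1' : (((QP c B).filter fun q => q ∣ n).card : ℝ) ≤ (S.card : ℝ) := by exact_mod_cast h1
  have h2' : (S.offDiag.card : ℝ) ≤ (P.card : ℝ) := by exact_mod_cast h2
  rw [offDiag_card] at h2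
  by_cases hw : 2 ≤ S.card
  · have h4 : S.card ≤ P.card := by
      refine le_trans ?_ h2
      have : S.card * 2 ≤ S.card * S.card := Nat.mul_le_mul_left _ hw
      omega
    have h4' : (S.card : ℝ) ≤ P.card := by exact_mod_cast h4
    linarith
  by_cases hw0 : S.card = 0
  · have : (S.card : ℝ) = 0 := by exact_mod_cast hw0
    have : (0 : ℝ) ≤ P.card := Nat.cast_nonneg _
    linarith
  have hw1 : S.card = 1 := by omega
  obtain ⟨q, hq⟩ := card_eq_one.1 hw1
  have hqS : q ∈ S := by rw [hq]; exact mem_singleton_self q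
  have hqS' := hqS
  rw [hS, mem_filter] at hqS'
  have hqQ := hqS'.1
  unfold QP at hqQ
  rw [mem_filter] at hqQ
  have hqp : q.Prime := hqQ.2.1
  have hcq : c q = 1 := hqQ.2.2
  have hw1' : (S.card : ℝ) = 1 := by exact_mod_cast hw1
  by_cases hqq : q * q ∣ n
  · have h5 : 1 ≤ P.card := by
      refine card_pos.2 ⟨(q, q), ?_⟩
      rw [hP, mem_filter, mem_product]
      exact ⟨⟨hqS'.1, hqS'.1⟩, hqq⟩
    have h5' : (1 : ℝ) ≤ P.card := by exact_mod_cast h5
    linarith
  · obtain ⟨m, hm⟩ := hqS'.2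
    have hm0 : m ≠ 0 := fun h0 => hn0 (by rw [hm, h0, mul_zero])
    have hall : lam m * c m = 1 := by
      refine V5_all hc m hm0 fun p hp hpm => ?_
      have hpn : p ∣ n := by rw [hm]; exact hpm.trans (dvd_mul_left m q)
      have hpM : p.Coprime M := Nat.Coprime.coprime_dvd_left hpn hco
      rcases hc.val p hpM with h | h
      · exfalso
        have hpS : p ∈ S := by
          rw [hS, mem_filter]
          refine ⟨?_, hpn⟩
          unfold QP
          rw [mem_filter, mem_range]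
          refine ⟨?_, hp, h⟩
          have := Nat.le_of_dvd (Nat.pos_of_ne_zero hn0) hpn
          omega
        rw [hq, mem_singleton] at hpS
        subst hpS
        apply hqq
        rw [hm]
        exact Nat.mul_dvd_mul_left p hpm
      · exact h
    have hne : lam n ≠ 1 * c n := by
      intro he
      rw [hm, V5_lam_mul hqp.ne_zero hm0, hc.mul, V5_lam_prime hqp, hcq] at he
      have h7 : -(lam m) = c m := by linarith
      rw [← h7] at hall
      have : lam m * lam m = -1 := by linarith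
      nlinarith [mul_self_nonneg (lam m)]
    rw [if_pos hne]
    have : (0 : ℝ) ≤ P.card := Nat.cast_nonneg _
    linarith

/-- the numbers of `Dom` divisible by `d` -/
private theorem V5_count {N W a d : ℕ} (hW : 1 ≤ W) (ha : a.Coprime W) (hd : d.Coprime (W * N))
    (hd0 : 0 < d) : ∃ a' : ℕ, a'.Coprime W ∧
      ((Dom N W a (W * N)).filter fun n => d ∣ n).card =
        (Dom N W a' ⌈((W * N : ℕ) : ℝ) / d⌉₊).card := by
  classical
  have : NeZero W := ⟨by omega⟩
  have hdW : d.Coprime W := Nat.Coprime.coprime_dvd_right (dvd_mul_right W N) hd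
  have hdN : d.Coprime N := Nat.Coprime.coprime_dvd_right (dvd_mul_left N W) hd
  set a' : ℕ := (((d : ZMod W))⁻¹ * (a : ZMod W)).val with ha'
  have e1 : d * a' ≡ a [MOD W] := by
    rw [← ZMod.natCast_eq_natCast_iff]
    push_cast
    rw [ha', ZMod.natCast_val, ZMod.cast_id', id, ← mul_assoc, ZMod.coe_mul_inv_eq_one d hdW, one_mul]
  have e2 : (d * a').Coprime W := by
    have := e1.gcd_eq
    rw [Nat.Coprime, this]
    exact ha
  refine ⟨a', Nat.Coprime.coprime_mul_left e2, ?_⟩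
  symm
  refine card_bij (fun m _ => d * m) ?_ ?_ ?_
  · intro m hm
    unfold Dom at hm
    rw [mem_filter, mem_range, Nat.lt_ceil] at hm
    rw [mem_filter]
    unfold Dom
    rw [mem_filter, mem_range]
    refine ⟨⟨?_, ?_, ?_⟩, dvd_mul_right d m⟩
    · have h := hm.1
      rw [lt_div_iff₀ (by exact_mod_cast hd0)] at h
      have h' : m * d < W * N := by exact_mod_cast h
      rw [mul_comm]; exact h'
    · exact (Nat.ModEq.mul_left d hm.2.1).trans e1
    · exact Nat.Coprime.mul_left hdN hm.2.2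
  · intro m _ m' _ h
    exact Nat.eq_of_mul_eq_mul_left hd0 h
  · intro n hn
    rw [mem_filter] at hn
    unfold Dom at hn
    rw [mem_filter, mem_range] at hn
    obtain ⟨m, hm⟩ := hn.2
    refine ⟨m, ?_, hm.symm⟩
    unfold Dom
    rw [mem_filter, mem_range, Nat.lt_ceil, lt_div_iff₀ (by exact_mod_cast hd0)]
    refine ⟨?_, ?_, ?_⟩
    · have h := hn.1.1
      rw [hm, mul_comm] at h
      exact_mod_cast h
    · have h := hn.1.2.1
      rw [hm] at h
      exact Nat.ModEq.cancel_left_of_coprime (by rw [Nat.gcd_comm]; exact hdW) (h.trans e1.symm)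
    · have h := hn.1.2.2
      rw [hm] at h
      exact Nat.Coprime.coprime_mul_left h

open Classical in
/-- summed inequality -/
private theorem V5_sum {N W a B : ℕ} {c : ℕ → ℝ} (hN : 2 ≤ N) (hc : RC (W * N) c) (ha : a.Coprime W)
    (hB : B ≤ W * N) :
    ∑ q ∈ QP c B, (((Dom N W a (W * N)).filter fun n => q ∣ n).card : ℝ) -
      ∑ x ∈ QP c (W * N) ×ˢ QP c (W * N),
        (((Dom N W a (W * N)).filter fun n => x.1 * x.2 ∣ n).card : ℝ) ≤
      ((Zst N W a c 1).card : ℝ) := by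
  have h1 : ((Zst N W a c 1).card : ℝ) =
      ∑ n ∈ Dom N W a (W * N), if lam n ≠ 1 * c n then (1 : ℝ) else 0 := by
    unfold Zst
    rw [← sum_filter, sum_const, nsmul_eq_mul, mul_one]
  have hsw : ∀ {ι : Type} (T : Finset ι) (f : ι → ℕ), ∑ q ∈ T,
      (((Dom N W a (W * N)).filter fun n => f q ∣ n).card : ℝ) =
      ∑ n ∈ Dom N W a (W * N), ((T.filter fun q => f q ∣ n).card : ℝ) := by
    intro ι T f
    have : ∀ q ∈ T, (((Dom N W a (W * N)).filter fun n => f q ∣ n).card : ℝ) =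
        ∑ n ∈ Dom N W a (W * N), if f q ∣ n then (1 : ℝ) else 0 := by
      intro q _
      rw [← sum_filter, sum_const, nsmul_eq_mul, mul_one]
    rw [sum_congr rfl this, sum_comm]
    refine sum_congr rfl fun n _ => ?_
    rw [← sum_filter, sum_const, nsmul_eq_mul, mul_one]
  rw [h1, hsw (QP c B) (fun q => q), hsw (QP c (W * N) ×ˢ QP c (W * N)) (fun x => x.1 * x.2),
    ← sum_sub_distrib]
  refine sum_le_sum fun n hn => ?_
  unfold Dom at hn
  rw [mem_filter, mem_range] at hn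
  have hn0 : n ≠ 0 := by
    rintro rfl
    have := hn.2.2
    rw [Nat.coprime_zero_left] at this
    omega
  have hco : n.Coprime (W * N) := by
    refine Nat.Coprime.mul_right ?_ hn.2.2
    have := hn.2.1.gcd_eq
    rw [Nat.Coprime, this]
    exact ha
  exact V5_point hc hB hn0 hn.1 hco

private theorem V5_harm (E : ℕ) : ∑ m ∈ Finset.Icc 1 E, 1 / (m : ℝ) ≤ 1 + Real.log E := by
  have h := harmonic_le_one_add_log E
  rw [harmonic_eq_sum_Icc] at h
  push_cast at h
  simpa [one_div] using h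

open Classical in
private theorem V5_gcount {C2 : ℝ} (hC2 : 0 < C2)
    (hch : ∀ x : ℕ, 2 ≤ x → (((Finset.Icc 1 x).filter fun p => p.Prime).card : ℝ) ≤
      C2 * x / Real.log x) (M m q : ℕ) (c : ℕ → ℝ) (T : ℝ) (hT : 1 < T) (hm : 0 < m) (hq : 0 < q) :
    (((QP c M).filter fun q' : ℕ => T < (q' : ℝ) ∧ m * (q * q') < M).card : ℝ) ≤
      C2 * M / Real.log T * (1 / (m : ℝ)) * (1 / (q : ℝ)) := by
  have hlT : 0 < Real.log T := Real.log_pos hT
  have hm' : (0 : ℝ) < m := by exact_mod_cast hm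
  have hq' : (0 : ℝ) < q := by exact_mod_cast hq
  rcases ((QP c M).filter fun q' : ℕ => T < (q' : ℝ) ∧ m * (q * q') < M).eq_empty_or_nonempty with h | h
  · rw [h, card_empty]
    push_cast
    positivity
  · obtain ⟨r, hr⟩ := h
    rw [mem_filter] at hr
    have hmq : 0 < m * q := Nat.mul_pos hm hq
    have hrx : r ≤ M / (m * q) := by
      rw [Nat.le_div_iff_mul_le hmq]
      have := hr.2.2
      calc r * (m * q) = m * (q * r) := by ring
        _ ≤ M := this.le
    set x := M / (m * q) with hx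
    have hr1 : (1 : ℝ) < r := lt_trans hT hr.2.1
    have hr2 : 2 ≤ r := by
      have : 1 < r := by exact_mod_cast hr1
      omega
    have hx2 : 2 ≤ x := le_trans hr2 hrx
    have hcard : ((QP c M).filter fun q' : ℕ => T < (q' : ℝ) ∧ m * (q * q') < M).card ≤
        ((Finset.Icc 1 x).filter fun p => p.Prime).card := by
      refine card_le_card fun p hp => ?_
      rw [mem_filter] at hp
      have hpQ := hp.1
      unfold QP at hpQ
      rw [mem_filter] at hpQ
      rw [mem_filter, mem_Icc]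
      refine ⟨⟨hpQ.2.1.one_lt.le, ?_⟩, hpQ.2.1⟩
      rw [hx, Nat.le_div_iff_mul_le hmq]
      calc p * (m * q) = m * (q * p) := by ring
        _ ≤ M := hp.2.2.le
    have h1 : (((QP c M).filter fun q' : ℕ => T < (q' : ℝ) ∧ m * (q * q') < M).card : ℝ) ≤
        C2 * x / Real.log x := le_trans (by exact_mod_cast hcard) (hch x hx2)
    have hxM : (x : ℝ) ≤ (M : ℝ) / (m * q) := by
      rw [le_div_iff₀ (by positivity)]
      have : x * (m * q) ≤ M := Nat.div_mul_le_self M (m * q)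
      exact_mod_cast this
    have hTx : T ≤ (x : ℝ) := le_trans hr.2.1.le (by exact_mod_cast hrx)
    have hlog : Real.log T ≤ Real.log x := Real.log_le_log (by linarith) hTx
    have hx0 : (0 : ℝ) ≤ x := Nat.cast_nonneg x
    calc (((QP c M).filter fun q' : ℕ => T < (q' : ℝ) ∧ m * (q * q') < M).card : ℝ)
        ≤ C2 * x / Real.log x := h1
      _ ≤ C2 * x / Real.log T := by
          apply div_le_div_of_nonneg_left (by positivity) hlT hlog
      _ ≤ C2 * ((M : ℝ) / (m * q)) / Real.log T := by gcongr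
      _ = C2 * M / Real.log T * (1 / (m : ℝ)) * (1 / (q : ℝ)) := by
          field_simp

open Classical in
private theorem V5_large {C2 : ℝ} (hC2 : 0 < C2)
    (hch : ∀ x : ℕ, 2 ≤ x → (((Finset.Icc 1 x).filter fun p => p.Prime).card : ℝ) ≤
      C2 * x / Real.log x) (M E : ℕ) (c : ℕ → ℝ) (T X : ℝ) (hT : 1 < T) (hTX : T * T ≤ X) :
    ∑ x ∈ (QP c M ×ˢ QP c M).filter (fun x => X < (x.1 : ℝ) * x.2),
        (((Finset.Icc 1 E).filter fun m => m * (x.1 * x.2) < M).card : ℝ) ≤
      2 * (C2 * M / Real.log T * (1 + Real.log E) * sQ c M) := by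
  set g : ℕ → ℕ → ℝ := fun q q' =>
    (((Finset.Icc 1 E).filter fun m => T < (q' : ℝ) ∧ m * (q * q') < M).card : ℝ) with hg
  have hg0 : ∀ q q', 0 ≤ g q q' := fun q q' => Nat.cast_nonneg _
  have hlT : 0 < Real.log T := Real.log_pos hT
  have h1 : ∀ x ∈ (QP c M ×ˢ QP c M).filter (fun x => X < (x.1 : ℝ) * x.2),
      (((Finset.Icc 1 E).filter fun m => m * (x.1 * x.2) < M).card : ℝ) ≤
      g x.1 x.2 + g x.2 x.1 := by
    intro x hx
    rw [mem_filter] at hx
    by_cases h : T < (x.2 : ℝ)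
    · have : (((Finset.Icc 1 E).filter fun m => m * (x.1 * x.2) < M).card : ℝ) ≤ g x.1 x.2 := by
        rw [hg]
        simp only [h, true_and]
        exact le_refl _
      linarith [hg0 x.2 x.1]
    · have h' : T < (x.1 : ℝ) := by
        by_contra h2
        push Not at h h2
        have : (x.1 : ℝ) * x.2 ≤ T * T := mul_le_mul h2 h (Nat.cast_nonneg _) (by linarith)
        linarith [hx.2]
      have : (((Finset.Icc 1 E).filter fun m => m * (x.1 * x.2) < M).card : ℝ) ≤ g x.2 x.1 := by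
        rw [hg]
        simp only [h', true_and]
        rw [mul_comm x.1 x.2]
      linarith [hg0 x.1 x.2]
  have h2 : ∑ q ∈ QP c M, ∑ q' ∈ QP c M, g q q' ≤
      C2 * M / Real.log T * (1 + Real.log E) * sQ c M := by
    have h3 : ∀ q ∈ QP c M, ∑ q' ∈ QP c M, g q q' ≤
        C2 * M / Real.log T * (1 + Real.log E) * (1 / (q : ℝ)) := by
      intro q hq
      have hq0 : 0 < q := by
        unfold QP at hq
        rw [mem_filter] at hq
        exact hq.2.1.pos
      have h4 : ∑ q' ∈ QP c M, g q q' = ∑ m ∈ Finset.Icc 1 E,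
          (((QP c M).filter fun q' : ℕ => T < (q' : ℝ) ∧ m * (q * q') < M).card : ℝ) := by
        have e1 : ∀ q' ∈ QP c M, g q q' = ∑ m ∈ Finset.Icc 1 E,
            if T < (q' : ℝ) ∧ m * (q * q') < M then (1 : ℝ) else 0 := by
          intro q' _
          rw [← sum_filter, sum_const, nsmul_eq_mul, mul_one]
        rw [sum_congr rfl e1, sum_comm]
        refine sum_congr rfl fun m _ => ?_
        rw [← sum_filter, sum_const, nsmul_eq_mul, mul_one]
      rw [h4]
      calc ∑ m ∈ Finset.Icc 1 E,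
          (((QP c M).filter fun q' : ℕ => T < (q' : ℝ) ∧ m * (q * q') < M).card : ℝ)
          ≤ ∑ m ∈ Finset.Icc 1 E, C2 * M / Real.log T * (1 / (m : ℝ)) * (1 / (q : ℝ)) := by
            refine sum_le_sum fun m hm => ?_
            rw [mem_Icc] at hm
            exact V5_gcount hC2 hch M m q c T hT hm.1 hq0
        _ = C2 * M / Real.log T * (∑ m ∈ Finset.Icc 1 E, 1 / (m : ℝ)) * (1 / (q : ℝ)) := by
            rw [mul_sum, sum_mul]
        _ ≤ C2 * M / Real.log T * (1 + Real.log E) * (1 / (q : ℝ)) := by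
            have := V5_harm E
            gcongr
    refine (sum_le_sum h3).trans ?_
    rw [← mul_sum]
    exact le_refl _
  have h5 : ∑ x ∈ QP c M ×ˢ QP c M, (g x.1 x.2 + g x.2 x.1) =
      2 * ∑ q ∈ QP c M, ∑ q' ∈ QP c M, g q q' := by
    rw [sum_add_distrib, sum_product, sum_product, two_mul]
    congr 1
    exact sum_comm
  calc ∑ x ∈ (QP c M ×ˢ QP c M).filter (fun x => X < (x.1 : ℝ) * x.2),
        (((Finset.Icc 1 E).filter fun m => m * (x.1 * x.2) < M).card : ℝ)
      ≤ ∑ x ∈ (QP c M ×ˢ QP c M).filter (fun x => X < (x.1 : ℝ) * x.2),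
        (g x.1 x.2 + g x.2 x.1) := sum_le_sum h1
    _ ≤ ∑ x ∈ QP c M ×ˢ QP c M, (g x.1 x.2 + g x.2 x.1) :=
        sum_le_sum_of_subset_of_nonneg (filter_subset _ _)
          (fun x _ _ => add_nonneg (hg0 _ _) (hg0 _ _))
    _ ≤ _ := by
        rw [h5]
        linarith

private theorem V5_sQ_mono (c : ℕ → ℝ) {x y : ℕ} (h : x ≤ y) : sQ c x ≤ sQ c y := by
  classical
  unfold sQ
  refine sum_le_sum_of_subset_of_nonneg ?_ (fun i _ _ => by positivity)
  intro q hq
  unfold QP at hq ⊢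
  rw [mem_filter, mem_range] at hq ⊢
  exact ⟨by omega, hq.2⟩

private theorem V5_QP {c : ℕ → ℝ} {B q : ℕ} (h : q ∈ QP c B) : q ≤ B ∧ q.Prime ∧ c q = 1 := by
  classical
  unfold QP at h
  rw [mem_filter, mem_range] at h
  exact ⟨by omega, h.2⟩

private theorem V5_cop {M : ℕ} {c : ℕ → ℝ} (hc : RC M c) {q : ℕ} (h : c q = 1) : q.Coprime M := by
  by_contra hn
  rw [hc.zero q hn] at h
  norm_num at h

theorem Z_low (W : ℕ) (hW : 1 ≤ W) : ∃ c1 ε1 : ℝ, 0 < c1 ∧ 0 < ε1 ∧ ∃ N0 : ℕ, ∀ N : ℕ, N0 ≤ N →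
    ∀ (a : ℕ) (c : ℕ → ℝ) (L : ℝ), a.Coprime W → RC (W * N) c → LV (W * N) c L →
    ((W * N : ℕ) : ℝ) ^ (-(1 / 50) : ℝ) ≤ L → sQ c (W * N) ≤ ε1 →
    c1 * del N * sQ c (W * N) * N ≤ ((Zst N W a c 1).card : ℝ) := by
  classical
  obtain ⟨C2, hC2, hch⟩ := cheb_up
  obtain ⟨C1, hC1, N1, h1⟩ := sig_star
  obtain ⟨N2, h2⟩ := sQ_diff
  obtain ⟨N3, h3⟩ := dom_two W hW (1 / 2) (by norm_num) (by norm_num)
  obtain ⟨c3, hc3, N4, h4⟩ := del_loglog
  have hW1 : (1 : ℝ) ≤ W := by exact_mod_cast hW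
  have hW0 : (0 : ℝ) < W := by linarith
  obtain ⟨K0, hK0⟩ : ∃ K0 : ℝ, 100 ≤ K0 ∧ 5 * Real.log (W + 1) ≤ K0 ∧ (Real.log W + 2) ^ 2 ≤ K0 ∧
      (64 * C1) ^ 2 ≤ K0 ∧ (640 * C2 * W / c3) ^ 4 ≤ K0 := by
    refine ⟨100 + |5 * Real.log (W + 1)| + (Real.log W + 2) ^ 2 + (64 * C1) ^ 2 +
      (640 * C2 * W / c3) ^ 4, ?_, ?_, ?_, ?_, ?_⟩ <;>
    nlinarith [abs_nonneg (5 * Real.log ((W : ℝ) + 1)), le_abs_self (5 * Real.log ((W : ℝ) + 1)),
      sq_nonneg (Real.log W + 2), sq_nonneg (64 * C1), sq_nonneg ((640 * C2 * W / c3) ^ 2)]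
  refine ⟨1 / 4, 1 / (32 * W), by norm_num, by positivity,
    max (max (max N1 N2) (max N3 N4)) (max ⌈Real.exp K0⌉₊ 2), ?_⟩
  intro N hN a c L ha hc hL hLlow hσ
  have hN1 : N1 ≤ N := le_trans (le_trans (le_trans (le_max_left _ _) (le_max_left _ _)) (le_max_left _ _)) hN
  have hN2 : N2 ≤ N := le_trans (le_trans (le_trans (le_max_right _ _) (le_max_left _ _)) (le_max_left _ _)) hN
  have hN3 : N3 ≤ N := le_trans (le_trans (le_trans (le_max_left _ _) (le_max_right _ _)) (le_max_left _ _)) hN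
  have hN4 : N4 ≤ N := le_trans (le_trans (le_trans (le_max_right _ _) (le_max_right _ _)) (le_max_left _ _)) hN
  have hN5 : ⌈Real.exp K0⌉₊ ≤ N := le_trans (le_trans (le_max_left _ _) (le_max_right _ _)) hN
  have hN6 : 2 ≤ N := le_trans (le_trans (le_max_right _ _) (le_max_right _ _)) hN
  have hNM : N ≤ W * N := Nat.le_mul_of_pos_left N hW
  have hNpos : (0 : ℝ) < N := by
    have : 0 < N := by omega
    exact_mod_cast this
  set M : ℕ := W * N with hM
  have hMr : (M : ℝ) = W * N := by rw [hM]; push_cast; rfl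
  have hMpos : (0 : ℝ) < M := by rw [hMr]; positivity
  set K : ℝ := Real.log N with hK
  have hKK : K0 ≤ K := by
    rw [hK, Real.le_log_iff_exp_le hNpos]
    exact le_trans (Nat.le_ceil _) (by exact_mod_cast hN5)
  have hexpK : Real.exp K = N := Real.exp_log hNpos
  have k1 : 100 ≤ K := le_trans hK0.1 hKK
  have k2 : 5 * Real.log (W + 1) ≤ K := le_trans hK0.2.1 hKK
  have k3 : (Real.log W + 2) ^ 2 ≤ K := le_trans hK0.2.2.1 hKK
  have k4 : (64 * C1) ^ 2 ≤ K := le_trans hK0.2.2.2.1 hKK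
  have k5 : (640 * C2 * W / c3) ^ 4 ≤ K := le_trans hK0.2.2.2.2 hKK
  have hKpos : 0 < K := by linarith
  set s : ℝ := Real.sqrt K with hs
  have hss : s * s = K := Real.mul_self_sqrt hKpos.le
  have hs10 : 10 ≤ s := by
    rw [hs]; apply Real.le_sqrt_of_sq_le; norm_num; exact k1
  have hs0 : 0 < s := by linarith
  have hsK : s ≤ K / 10 := by nlinarith
  have l3 : Real.log W + 2 ≤ s := by rw [hs]; exact Real.le_sqrt_of_sq_le k3
  have l4 : 64 * C1 ≤ s := by rw [hs]; exact Real.le_sqrt_of_sq_le k4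
  set t : ℝ := Real.sqrt s with ht
  have htt : t * t = s := Real.mul_self_sqrt hs0.le
  have ht0 : 0 < t := Real.sqrt_pos.2 hs0
  have l5 : 640 * C2 * W / c3 ≤ t := by
    rw [ht]; apply Real.le_sqrt_of_sq_le
    rw [hs]; apply Real.le_sqrt_of_sq_le
    calc ((640 * C2 * W / c3) ^ 2) ^ 2 = (640 * C2 * W / c3) ^ 4 := by ring
      _ ≤ K := k5
  have hlogW : 0 ≤ Real.log W := Real.log_nonneg hW1
  -- the number σ
  set σ : ℝ := sQ c M with hσd
  have hσ0 : 0 ≤ σ := by
    rw [hσd]; unfold sQ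
    exact sum_nonneg fun i _ => by positivity
  have hσ1 : σ ≤ 1 := by
    refine hσ.trans ?_
    rw [div_le_one (by positivity)]
    nlinarith
  have hdel0 : 0 ≤ del N := by unfold del; positivity
  have hdelM0 : 0 ≤ del M := by unfold del; positivity
  -- B
  set B : ℕ := ⌊(N : ℝ) * Real.exp (-s)⌋₊ with hB
  have hx : (N : ℝ) * Real.exp (-s) = Real.exp (K - s) := by
    rw [← hexpK, ← Real.exp_add]; ring_nf
  have hx2 : (2 : ℝ) ≤ (N : ℝ) * Real.exp (-s) := by
    rw [hx]
    have : Real.exp 1 ≤ Real.exp (K - s) := Real.exp_le_exp.2 (by linarith)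
    have h2 := Real.add_one_le_exp (1 : ℝ)
    linarith
  have hBle : (B : ℝ) ≤ (N : ℝ) * Real.exp (-s) := Nat.floor_le (by positivity)
  have hBge : (N : ℝ) * Real.exp (-s) / 2 ≤ B := by
    have : (N : ℝ) * Real.exp (-s) < B + 1 := Nat.lt_floor_add_one _
    linarith
  have hBN : (B : ℝ) ≤ N := by
    refine hBle.trans ?_
    have : Real.exp (-s) ≤ 1 := Real.exp_le_one_iff.2 (by linarith)
    nlinarith
  have hBM : B ≤ M := le_trans (by exact_mod_cast hBN) hNM
  have hBpos : (0 : ℝ) < B := by linarith [hBge, hx2]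
  have hMB : (M : ℝ) ^ ((7 : ℝ) / 10) ≤ B := by
    have e1 : Real.log M = Real.log W + K := by
      rw [hMr, Real.log_mul hW0.ne' hNpos.ne']
    rw [Real.rpow_def_of_pos hMpos, e1]
    refine le_trans ?_ hBge
    rw [hx]
    have e2 : Real.log W ≤ Real.log (W + 1) := Real.log_le_log hW0 (by linarith)
    have e3 : (Real.log W + K) * (7 / 10) ≤ (K - s) - 1 := by
      linarith only [e2, k2, hsK, k1, hs10]
    have e4 : Real.exp ((Real.log W + K) * (7 / 10)) ≤ Real.exp ((K - s) - 1) :=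
      Real.exp_le_exp.2 e3
    refine e4.trans ?_
    rw [Real.exp_sub]
    have e5 : (2 : ℝ) ≤ Real.exp 1 := by linarith [Real.add_one_le_exp (1 : ℝ)]
    exact div_le_div_of_nonneg_left (Real.exp_pos _).le (by norm_num) e5
  -- sQ at B
  have hdL : 0 ≤ del M * L := mul_nonneg hdelM0 hL.1
  have hs1 := h1 M (le_trans hN1 hNM) c L hc hL hLlow hσ1
  have hs2 := h2 M (le_trans hN2 hNM) c L hc hL hLlow B M hMB hBM
  have hlogM : K ≤ Real.log M := by
    rw [hK]; exact Real.log_le_log hNpos (by exact_mod_cast hNM)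
  have hs3 : sQ c ⌊(M : ℝ) ^ ((9 : ℝ) / 10)⌋₊ ≤ σ := by
    refine V5_sQ_mono c ?_
    refine Nat.floor_le_of_le ?_
    have hM1 : (1 : ℝ) ≤ M := by
      have : 1 ≤ M := by omega
      exact_mod_cast this
    calc (M : ℝ) ^ ((9 : ℝ) / 10) ≤ (M : ℝ) ^ (1 : ℝ) :=
          Real.rpow_le_rpow_of_exponent_le hM1 (by norm_num)
      _ = M := Real.rpow_one _
  have hs4 : s * s * (del M * L) ≤ C1 * σ := by
    rw [hss]
    calc K * (del M * L) ≤ Real.log M * (del M * L) := mul_le_mul_of_nonneg_right hlogM hdL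
      _ ≤ C1 * sQ c ⌊(M : ℝ) ^ ((9 : ℝ) / 10)⌋₊ := hs1
      _ ≤ C1 * σ := mul_le_mul_of_nonneg_left hs3 hC1.le
  have hlogMB : Real.log ((M : ℝ) / B) + 1 ≤ 2 * s := by
    have e1 : (M : ℝ) / B ≤ 2 * W * Real.exp s := by
      rw [div_le_iff₀ hBpos]
      have e2 : 2 * W * Real.exp s * ((N : ℝ) * Real.exp (-s) / 2) ≤ 2 * W * Real.exp s * B :=
        mul_le_mul_of_nonneg_left hBge (by positivity)
      have e3 : 2 * W * Real.exp s * ((N : ℝ) * Real.exp (-s) / 2) = W * N := by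
        have : Real.exp s * Real.exp (-s) = 1 := by rw [← Real.exp_add]; simp
        calc 2 * W * Real.exp s * ((N : ℝ) * Real.exp (-s) / 2)
            = W * N * (Real.exp s * Real.exp (-s)) := by ring
          _ = W * N := by rw [this, mul_one]
      rw [hMr]
      linarith only [e2, e3]
    have e4 : Real.log ((M : ℝ) / B) ≤ Real.log (2 * W * Real.exp s) :=
      Real.log_le_log (by positivity) e1
    rw [Real.log_mul (by positivity) (Real.exp_pos _).ne', Real.log_exp,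
      Real.log_mul (by norm_num) hW0.ne'] at e4
    have e5 : Real.log 2 ≤ 1 := by
      have := Real.log_two_lt_d9
      linarith only [this]
    linarith only [e4, e5, l3]
  have hsB : 7 / 8 * σ ≤ sQ c B := by
    have e1 : 4 * (del M * L) * (Real.log ((M : ℝ) / B) + 1) ≤ 4 * (del M * L) * (2 * s) :=
      mul_le_mul_of_nonneg_left hlogMB (by positivity)
    have e2 : 4 * (del M * L) * (2 * s) ≤ σ / 8 := by
      have e3 : s * (4 * (del M * L) * (2 * s)) ≤ s * (σ / 8) := by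
        have : s * (4 * (del M * L) * (2 * s)) = 8 * (s * s * (del M * L)) := by ring
        rw [this]
        have e4 : 64 * C1 * σ ≤ s * σ := mul_le_mul_of_nonneg_right l4 hσ0
        linarith only [e4, hs4]
      exact le_of_mul_le_mul_left e3 hs0
    linarith only [e1, e2, hs2]
  have hsqrt : (Real.log (N : ℝ)) ^ ((1 : ℝ) / 2) = s := by
    rw [← hK, hs, Real.sqrt_eq_rpow]
  -- lower bound, one prime
  have hlow : ∀ q ∈ QP c B, del N * N / 2 * (1 / (q : ℝ)) ≤
      (((Dom N W a M).filter fun n => q ∣ n).card : ℝ) := by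
    intro q hq
    obtain ⟨hqB, hqp, hcq⟩ := V5_QP hq
    have hqc : q.Coprime M := V5_cop hc hcq
    obtain ⟨a', ha', hcard⟩ := V5_count (N := N) hW ha hqc hqp.pos
    rw [hM, hcard]
    have hq0 : (0 : ℝ) < q := by exact_mod_cast hqp.pos
    have hqx : (q : ℝ) ≤ N * Real.exp (-s) := le_trans (by exact_mod_cast hqB) hBle
    have hMq : Real.exp s ≤ ((W * N : ℕ) : ℝ) / q := by
      rw [le_div_iff₀ hq0]
      have e1 : Real.exp s * q ≤ Real.exp s * (N * Real.exp (-s)) :=
        mul_le_mul_of_nonneg_left hqx (Real.exp_pos _).le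
      have e2 : Real.exp s * (N * Real.exp (-s)) = N := by
        have : Real.exp s * Real.exp (-s) = 1 := by rw [← Real.exp_add]; simp
        calc Real.exp s * (N * Real.exp (-s)) = N * (Real.exp s * Real.exp (-s)) := by ring
          _ = N := by rw [this, mul_one]
      have e3 : (N : ℝ) ≤ ((W * N : ℕ) : ℝ) := by exact_mod_cast hNM
      linarith only [e1, e2, e3]
    have hy : Real.exp ((Real.log (N : ℝ)) ^ ((1 : ℝ) / 2)) ≤ (⌈((W * N : ℕ) : ℝ) / q⌉₊ : ℝ) := by
      rw [hsqrt]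
      exact hMq.trans (Nat.le_ceil _)
    have h5 := (h3 N hN3 a' ⌈((W * N : ℕ) : ℝ) / q⌉₊ ha' hy).1
    refine le_trans ?_ h5
    have h6 : ((W * N : ℕ) : ℝ) / q ≤ (⌈((W * N : ℕ) : ℝ) / q⌉₊ : ℝ) := Nat.le_ceil _
    have h7 : del N * (((W * N : ℕ) : ℝ) / q) / (2 * W) ≤
        del N * (⌈((W * N : ℕ) : ℝ) / q⌉₊ : ℝ) / (2 * W) := by gcongr
    refine le_trans (le_of_eq ?_) h7
    push_cast
    field_simp
  -- upper bounds, pairs
  set X : ℝ := M * Real.exp (-s) with hX
  have hX0 : 0 < X := by positivity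
  have hMX : (M : ℝ) / X = Real.exp s := by
    rw [hX, Real.exp_neg]
    field_simp
  have hpair : ∀ x ∈ QP c M ×ˢ QP c M, 0 < x.1 * x.2 ∧ (x.1 * x.2).Coprime M := by
    intro x hx
    rw [mem_product] at hx
    obtain ⟨-, hp1, hc1⟩ := V5_QP hx.1
    obtain ⟨-, hp2, hc2⟩ := V5_QP hx.2
    exact ⟨Nat.mul_pos hp1.pos hp2.pos, Nat.Coprime.mul_left (V5_cop hc hc1) (V5_cop hc hc2)⟩
  have hsmall : ∀ x ∈ (QP c M ×ˢ QP c M).filter (fun x => ¬ X < (x.1 : ℝ) * x.2),
      (((Dom N W a M).filter fun n => x.1 * x.2 ∣ n).card : ℝ) ≤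
      4 * del N * M * ((1 / (x.1 : ℝ)) * (1 / (x.2 : ℝ))) := by
    intro x hx
    rw [mem_filter] at hx
    obtain ⟨hd0, hdc⟩ := hpair x hx.1
    have hdX : ((x.1 * x.2 : ℕ) : ℝ) ≤ X := by push_cast; exact not_lt.1 hx.2
    set d : ℕ := x.1 * x.2 with hd
    obtain ⟨a', ha', hcard⟩ := V5_count (N := N) hW ha hdc hd0
    rw [← hM] at hcard
    rw [hcard]
    have hd0' : (0 : ℝ) < d := by exact_mod_cast hd0
    have hMd : Real.exp s ≤ (M : ℝ) / d := by
      rw [← hMX]
      exact div_le_div_of_nonneg_left hMpos.le hd0' hdX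
    have hMd1 : 1 ≤ (M : ℝ) / d := by
      have : 1 ≤ Real.exp s := Real.one_le_exp hs0.le
      linarith only [this, hMd]
    have hy : Real.exp ((Real.log (N : ℝ)) ^ ((1 : ℝ) / 2)) ≤ (⌈(M : ℝ) / d⌉₊ : ℝ) := by
      rw [hsqrt]
      exact hMd.trans (Nat.le_ceil _)
    have h5 := (h3 N hN3 a' ⌈(M : ℝ) / d⌉₊ ha' hy).2
    refine h5.trans ?_
    have h6 : (⌈(M : ℝ) / d⌉₊ : ℝ) ≤ 2 * ((M : ℝ) / d) := by
      have := (Nat.ceil_lt_add_one (a := (M : ℝ) / d) (by positivity)).le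
      linarith only [this, hMd1]
    have h7 : 2 * del N * (⌈(M : ℝ) / d⌉₊ : ℝ) ≤ 2 * del N * (2 * ((M : ℝ) / d)) := by gcongr
    refine h7.trans (le_of_eq ?_)
    rw [hd]
    push_cast
    field_simp
    ring
  set E : ℕ := ⌊Real.exp s⌋₊ with hE
  have hbig : ∀ x ∈ (QP c M ×ˢ QP c M).filter (fun x => X < (x.1 : ℝ) * x.2),
      (((Dom N W a M).filter fun n => x.1 * x.2 ∣ n).card : ℝ) ≤
      (((Finset.Icc 1 E).filter fun m => m * (x.1 * x.2) < M).card : ℝ) := by
    intro x hx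
    rw [mem_filter] at hx
    obtain ⟨hd0, hdc⟩ := hpair x hx.1
    have hdX : X < ((x.1 * x.2 : ℕ) : ℝ) := by push_cast; exact hx.2
    set d : ℕ := x.1 * x.2 with hd
    obtain ⟨a', ha', hcard⟩ := V5_count (N := N) hW ha hdc hd0
    rw [← hM] at hcard
    rw [hcard]
    have hd0' : (0 : ℝ) < d := by exact_mod_cast hd0
    norm_cast
    refine card_le_card fun m hm => ?_
    unfold Dom at hm
    rw [mem_filter, mem_range, Nat.lt_ceil] at hm
    have hmd := hm.1
    have hmE : (m : ℝ) ≤ Real.exp s := by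
      refine hmd.le.trans ?_
      rw [← hMX]
      exact div_le_div_of_nonneg_left hMpos.le hX0 hdX.le
    rw [lt_div_iff₀ hd0'] at hmd
    rw [mem_filter, mem_Icc]
    refine ⟨⟨?_, Nat.le_floor hmE⟩, by exact_mod_cast hmd⟩
    by_contra h0
    have hm0 : m = 0 := by omega
    have := hm.2.2
    rw [hm0, Nat.coprime_zero_left] at this
    omega
  set T : ℝ := Real.exp (2 / 5 * K) with hT
  have hT1 : 1 < T := by
    rw [hT, ← Real.exp_zero]
    exact Real.exp_lt_exp.2 (by positivity)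
  have hTX : T * T ≤ X := by
    rw [hT, hX, ← Real.exp_add, hMr, mul_assoc, hx]
    calc Real.exp (2 / 5 * K + 2 / 5 * K) ≤ 1 * Real.exp (K - s) := by
          rw [one_mul]; exact Real.exp_le_exp.2 (by linarith only [hsK, hKpos])
      _ ≤ W * Real.exp (K - s) := mul_le_mul_of_nonneg_right hW1 (Real.exp_pos _).le
  have hlarge := V5_large hC2 hch M E c T X hT1 hTX
  have hlogT : Real.log T = 2 / 5 * K := Real.log_exp _
  have hlogE : Real.log E ≤ s := by
    have hE1 : 1 ≤ E := Nat.le_floor (by push_cast; exact Real.one_le_exp hs0.le)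
    have hE1' : (0 : ℝ) < E := by
      have : 0 < E := hE1
      exact_mod_cast this
    rw [Real.log_le_iff_le_exp hE1']
    exact Nat.floor_le (Real.exp_pos _).le
  -- total of the pairs
  have hpairs : ∑ x ∈ QP c M ×ˢ QP c M,
      (((Dom N W a M).filter fun n => x.1 * x.2 ∣ n).card : ℝ) ≤
      4 * del N * M * (σ * σ) + 2 * (C2 * M / (2 / 5 * K) * (1 + s) * σ) := by
    rw [← sum_filter_not_add_sum_filter (QP c M ×ˢ QP c M) (fun x => X < (x.1 : ℝ) * x.2)]
    refine add_le_add ?_ ?_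
    · refine (sum_le_sum hsmall).trans ?_
      have e1 : ∑ x ∈ (QP c M ×ˢ QP c M).filter (fun x => ¬ X < (x.1 : ℝ) * x.2),
          4 * del N * M * ((1 / (x.1 : ℝ)) * (1 / (x.2 : ℝ))) ≤
          ∑ x ∈ QP c M ×ˢ QP c M, 4 * del N * M * ((1 / (x.1 : ℝ)) * (1 / (x.2 : ℝ))) :=
        sum_le_sum_of_subset_of_nonneg (filter_subset _ _) (fun x _ _ => by positivity)
      refine e1.trans (le_of_eq ?_)
      rw [← mul_sum, sum_product, hσd]
      unfold sQ
      rw [sum_mul_sum]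
    · refine (sum_le_sum hbig).trans (hlarge.trans ?_)
      rw [hlogT]
      gcongr
  have hmain := V5_sum (a := a) hN6 hc ha hBM
  rw [← hM] at hmain
  have hsumlow : del N * N / 2 * sQ c B ≤
      ∑ q ∈ QP c B, (((Dom N W a M).filter fun n => q ∣ n).card : ℝ) := by
    refine le_trans (le_of_eq ?_) (sum_le_sum hlow)
    unfold sQ
    rw [mul_sum]
  -- the error terms
  have hA : 4 * del N * M * (σ * σ) ≤ del N * N * σ / 8 := by
    have e1 : 4 * W * σ ≤ 1 / 8 := by
      have : 4 * W * σ ≤ 4 * W * (1 / (32 * W)) := mul_le_mul_of_nonneg_left hσ (by positivity)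
      refine this.trans (le_of_eq ?_)
      field_simp
      norm_num
    have e2 : (4 * W * σ) * (del N * N * σ) ≤ 1 / 8 * (del N * N * σ) :=
      mul_le_mul_of_nonneg_right e1 (by positivity)
    rw [hMr]
    nlinarith
  have hBd : 2 * (C2 * M / (2 / 5 * K) * (1 + s) * σ) ≤ del N * N * σ / 16 := by
    have hll : c3 ≤ 4 * t * del N := by
      have e1 := h4 N hN4
      rw [← hK] at e1
      have e2 : Real.log K ≤ 4 * t := by
        have e3 : K = (t * t) * (t * t) := by rw [htt, hss]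
        have e4 : Real.log K = 4 * Real.log t := by
          rw [e3, Real.log_mul (by positivity) (by positivity), Real.log_mul ht0.ne' ht0.ne']
          ring
        rw [e4]
        have := Real.log_le_sub_one_of_pos ht0
        linarith only [this]
      exact e1.trans (mul_le_mul_of_nonneg_right e2 hdel0)
    have e5 : 640 * C2 * W ≤ t * c3 := by
      rwa [div_le_iff₀ hc3] at l5
    have e6 : 160 * C2 * W ≤ s * del N := by
      have : t * c3 ≤ t * (4 * t * del N) := mul_le_mul_of_nonneg_left hll ht0.le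
      have e7 : t * (4 * t * del N) = 4 * (s * del N) := by rw [← htt]; ring
      linarith only [this, e7, e5]
    have e8 : 2 * (C2 * M / (2 / 5 * K) * (1 + s) * σ) = (5 * C2 * W * (1 + s) / K) * (N * σ) := by
      rw [hMr]
      field_simp
    rw [e8]
    have e9 : 5 * C2 * W * (1 + s) / K ≤ del N / 16 := by
      rw [div_le_iff₀ hKpos, ← hss]
      have e10 : 5 * C2 * W * (1 + s) ≤ 5 * C2 * W * (2 * s) :=
        mul_le_mul_of_nonneg_left (by linarith only [hs10]) (by positivity)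
      have e11 : s * (160 * C2 * W) ≤ s * (s * del N) := mul_le_mul_of_nonneg_left e6 hs0.le
      linarith only [e10, e11]
    calc (5 * C2 * W * (1 + s) / K) * (N * σ) ≤ del N / 16 * (N * σ) :=
          mul_le_mul_of_nonneg_right e9 (by positivity)
      _ = del N * N * σ / 16 := by ring
  have hC : del N * N / 2 * (7 / 8 * σ) ≤ del N * N / 2 * sQ c B :=
    mul_le_mul_of_nonneg_left hsB (by positivity)
  linarith only [hmain, hsumlow, hpairs, hA, hBd, hC]

end Pool.Agent.Lib.OW
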