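import Pool.Agent.Lib.MP_7b7e48_nt.OW.S6

/-!
# Module V6 (45 minutes): numbers with a very large prime factor `q`, `c q = 1`

`K = log N`, `M = W N`. PROOF. `n = q μ < M`, `q > N exp(-K^θ)`, so `1 ≤ μ < W exp(K^θ)`, `q ∈ QP c (M/μ)` and `M/μ ≥ M^(7/10)`: `QP_card` (modulus `M`): `≤ del M L M/μ`. Sum over `μ`: `≤ del M L M (log W + K^θ + 2)` and `log M · del M · L ≤ C sQ c M` (`sig_star`, `sQ` monotone).
-/

open Finset
open Pool.Agent.Lib.MP_45349e_nt.LS (lam)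

namespace Pool.Agent.Lib.OW

open Pool.Agent.Lib.RG (RC LV rr SS PB)

private theorem V6_large (W : ℕ) (θ : ℝ) (h1 : θ < 1) : ∃ N3 : ℕ, ∀ N : ℕ, N3 ≤ N →
    3 ≤ N ∧ 1 ≤ Real.log N ∧
    ((W * N : ℕ) : ℝ) ^ ((7 : ℝ) / 10) ≤ N * Real.exp (-(Real.log N) ^ θ) - 1 := by
  have h2 : Filter.Tendsto (fun N : ℕ => Real.log (N : ℝ)) Filter.atTop Filter.atTop :=
    Real.tendsto_log_atTop.comp tendsto_natCast_atTop_atTop
  have e1 : ∀ᶠ N : ℕ in Filter.atTop, (1 : ℝ) ≤ Real.log (N : ℝ) := h2.eventually_ge_atTop (1 : ℝ)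
  have e2 : ∀ᶠ N : ℕ in Filter.atTop, (10 : ℝ) ≤ (Real.log (N : ℝ)) ^ (1 - θ) :=
    ((tendsto_rpow_atTop (by linarith : 0 < 1 - θ)).comp h2).eventually_ge_atTop 10
  have e3 : ∀ᶠ N : ℕ in Filter.atTop, ((W : ℝ) ^ ((7 : ℝ) / 10) + 1) ≤ Real.exp (Real.log (N : ℝ) / 5) :=
    (Real.tendsto_exp_atTop.comp (h2.atTop_div_const (by norm_num))).eventually_ge_atTop _
  obtain ⟨N3, h⟩ := Filter.eventually_atTop.1 (((e1.and e2).and e3).and (Filter.eventually_ge_atTop 3))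
  refine ⟨N3, fun N hN => ?_⟩
  obtain ⟨⟨⟨a1, a2⟩, a3⟩, a4⟩ := h N hN
  have a4' : 3 ≤ N := a4
  refine ⟨a4', a1, ?_⟩
  have hN0 : (0 : ℝ) < N := by
    have : 0 < N := by omega
    exact_mod_cast this
  set t := Real.log (N : ℝ) with ht
  have hNe : (N : ℝ) = Real.exp t := (Real.exp_log hN0).symm
  have ht0 : 0 < t := by linarith
  have b1 : t ^ θ ≤ t / 10 := by
    have hh : t ^ (1 - θ) * t ^ θ = t := by
      rw [← Real.rpow_add ht0]; simp
    have hp : 0 < t ^ θ := Real.rpow_pos_of_pos ht0 _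
    nlinarith
  have c1 : ((W * N : ℕ) : ℝ) ^ ((7 : ℝ) / 10) = (W : ℝ) ^ ((7 : ℝ) / 10) * Real.exp (7 * t / 10) := by
    push_cast
    rw [Real.mul_rpow (Nat.cast_nonneg _) (Nat.cast_nonneg _)]
    congr 1
    rw [hNe, ← Real.exp_mul]
    congr 1
    ring
  have c2 : (N : ℝ) * Real.exp (-t ^ θ) = Real.exp (t - t ^ θ) := by
    rw [hNe, ← Real.exp_add]
    congr 1
  have c3 : Real.exp (7 * t / 10) * Real.exp (t / 5) ≤ Real.exp (t - t ^ θ) := by
    rw [← Real.exp_add]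
    apply Real.exp_le_exp.2
    linarith
  have c4 : 1 ≤ Real.exp (7 * t / 10) := Real.one_le_exp (by positivity)
  have c5 : Real.exp (7 * t / 10) * ((W : ℝ) ^ ((7 : ℝ) / 10) + 1) ≤ Real.exp (7 * t / 10) * Real.exp (t / 5) :=
    mul_le_mul_of_nonneg_left a3 (by positivity)
  rw [c1, c2]
  nlinarith

private theorem V6_sQ_mono (c : ℕ → ℝ) {y z : ℕ} (h : y ≤ z) : sQ c y ≤ sQ c z := by
  classical
  unfold sQ
  apply Finset.sum_le_sum_of_subset_of_nonneg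
  · intro q hq
    unfold QP at hq ⊢
    rw [Finset.mem_filter, Finset.mem_range] at hq ⊢
    exact ⟨by omega, hq.2⟩
  · intro q _ _
    positivity

private theorem V6_harm (U : ℕ) : ∑ μ ∈ Icc 1 U, 1 / (μ : ℝ) ≤ 1 + Real.log U := by
  have h := harmonic_le_one_add_log U
  rw [harmonic_eq_sum_Icc] at h
  push_cast at h
  simpa [one_div] using h

open Classical in
theorem top_x (W : ℕ) (hW : 1 ≤ W) (θ : ℝ) (h0 : 0 < θ) (h1 : θ < 1) : ∃ C : ℝ, 0 < C ∧ ∃ N0 : ℕ, ∀ N : ℕ, N0 ≤ N →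
    ∀ (c : ℕ → ℝ) (L : ℝ), RC (W * N) c → LV (W * N) c L →
    ((W * N : ℕ) : ℝ) ^ (-(1 / 50) : ℝ) ≤ L → sQ c (W * N) ≤ 1 →
    (((Finset.Ico 1 (W * N)).filter fun n => ∃ q : ℕ, q.Prime ∧ c q = 1 ∧ q ∣ n ∧
      (N : ℝ) * Real.exp (-(Real.log N) ^ θ) < q).card : ℝ) ≤ C * (Real.log N) ^ (θ - 1) * sQ c (W * N) * N := by
  obtain ⟨N1, hQ⟩ := QP_card
  obtain ⟨C1, hC1, N2, hS⟩ := sig_star
  obtain ⟨N3, hL⟩ := V6_large W θ h1
  have hWr : (1 : ℝ) ≤ W := by exact_mod_cast hW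
  have hlW : 0 ≤ Real.log (W : ℝ) := Real.log_nonneg hWr
  refine ⟨C1 * (2 + Real.log W) * W, by positivity, N1 + N2 + N3, fun N hN c L hc hv hL1 hs => ?_⟩
  obtain ⟨n3, hK1, hbig⟩ := hL N (by omega)
  have hMN : N ≤ W * N := Nat.le_mul_of_pos_left N (by omega)
  set M := W * N with hM
  have hMr : (M : ℝ) = W * N := by rw [hM]; push_cast; rfl
  set K := Real.log (N : ℝ) with hK
  have hN0 : (0 : ℝ) < N := by
    have : 0 < N := by omega
    exact_mod_cast this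
  have hM0 : (0 : ℝ) < M := by rw [hMr]; positivity
  set E := Real.exp (-K ^ θ) with hE
  have hE0 : 0 < E := Real.exp_pos _
  have hKθ : 1 ≤ K ^ θ := Real.one_le_rpow hK1 h0.le
  have hEinv : Real.exp (K ^ θ) * E = 1 := by
    rw [hE, ← Real.exp_add]; simp
  set U := ⌊(W : ℝ) * Real.exp (K ^ θ)⌋₊ with hU
  have hUle : (U : ℝ) ≤ W * Real.exp (K ^ θ) := Nat.floor_le (by positivity)
  have hdel : 0 ≤ del M := by unfold del; positivity
  have hL0 : 0 ≤ L := hv.1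
  -- each block
  have hblock : ∀ μ ∈ Icc 1 U, ((QP c (M / μ)).card : ℝ) ≤ del M * L * M * (1 / (μ : ℝ)) := by
    intro μ hμ
    rw [Finset.mem_Icc] at hμ
    have hμ0 : (0 : ℝ) < μ := by
      have : 0 < μ := by omega
      exact_mod_cast this
    have hμU : (μ : ℝ) ≤ W * Real.exp (K ^ θ) := le_trans (by exact_mod_cast hμ.2) hUle
    have hdiv : (M : ℝ) / μ - 1 ≤ ((M / μ : ℕ) : ℝ) := by
      have h3 : M < (M / μ + 1) * μ := by
        have := Nat.lt_div_mul_add (a := M) (b := μ) (by omega)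
        calc M < M / μ * μ + μ := this
          _ = (M / μ + 1) * μ := by ring
      have h4 : (M : ℝ) < (((M / μ : ℕ) : ℝ) + 1) * μ := by exact_mod_cast h3
      rw [← div_lt_iff₀ hμ0] at h4
      linarith
    have hlow : (N : ℝ) * E ≤ (M : ℝ) / μ := by
      rw [le_div_iff₀ hμ0, hMr]
      calc (N : ℝ) * E * μ ≤ (N : ℝ) * E * (W * Real.exp (K ^ θ)) :=
            mul_le_mul_of_nonneg_left hμU (by positivity)
        _ = W * N * (Real.exp (K ^ θ) * E) := by ring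
        _ = W * N := by rw [hEinv, mul_one]
    have h7 : (M : ℝ) ^ ((7 : ℝ) / 10) ≤ ((M / μ : ℕ) : ℝ) := by linarith
    have h8 := hQ M (by omega) c L hc hv hL1 (M / μ) h7
    have h9 : ((M / μ : ℕ) : ℝ) ≤ (M : ℝ) / μ := Nat.cast_div_le
    calc ((QP c (M / μ)).card : ℝ) ≤ del M * L * ((M / μ : ℕ) : ℝ) := h8
      _ ≤ del M * L * ((M : ℝ) / μ) := mul_le_mul_of_nonneg_left h9 (by positivity)
      _ = del M * L * M * (1 / (μ : ℝ)) := by ring
  -- the covering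
  have hcov : ((Finset.Ico 1 M).filter fun n => ∃ q : ℕ, q.Prime ∧ c q = 1 ∧ q ∣ n ∧ (N : ℝ) * E < q) ⊆
      (Icc 1 U).biUnion fun μ => (QP c (M / μ)).image fun q => q * μ := by
    intro n hn
    rw [Finset.mem_filter, Finset.mem_Ico] at hn
    obtain ⟨⟨hn1, hn2⟩, q, hq, hcq, ⟨μ, rfl⟩, hqb⟩ := hn
    have hμ1 : 1 ≤ μ := by
      rcases Nat.eq_zero_or_pos μ with h | h
      · subst h; simp at hn1
      · exact h
    rw [Finset.mem_biUnion]
    refine ⟨μ, ?_, ?_⟩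
    · rw [Finset.mem_Icc]
      refine ⟨hμ1, ?_⟩
      rw [hU]
      apply Nat.le_floor
      have h3 : (q : ℝ) * μ < W * N := by
        rw [← hMr]; exact_mod_cast hn2
      have hμ0 : (0 : ℝ) < μ := by exact_mod_cast hμ1
      have h4 : (N : ℝ) * E * μ < W * N := lt_of_le_of_lt (mul_le_mul_of_nonneg_right hqb.le hμ0.le) h3
      have h5 : E * μ < W := by
        have : (N : ℝ) * (E * μ) < N * W := by nlinarith
        exact lt_of_mul_lt_mul_left this hN0.le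
      have h6 : (μ : ℝ) = Real.exp (K ^ θ) * (E * μ) := by
        rw [← mul_assoc, hEinv, one_mul]
      rw [h6]
      have : Real.exp (K ^ θ) * (E * μ) ≤ Real.exp (K ^ θ) * W := mul_le_mul_of_nonneg_left h5.le (Real.exp_pos _).le
      linarith
    · rw [Finset.mem_image]
      refine ⟨q, ?_, rfl⟩
      unfold QP
      rw [Finset.mem_filter, Finset.mem_range]
      refine ⟨?_, hq, hcq⟩
      have : q ≤ M / μ := by
        rw [Nat.le_div_iff_mul_le (by omega)]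
        exact hn2.le
      omega
  have hcard : (((Finset.Ico 1 M).filter fun n => ∃ q : ℕ, q.Prime ∧ c q = 1 ∧ q ∣ n ∧ (N : ℝ) * E < q).card : ℝ) ≤
      ∑ μ ∈ Icc 1 U, ((QP c (M / μ)).card : ℝ) := by
    have h3 : ((Finset.Ico 1 M).filter fun n => ∃ q : ℕ, q.Prime ∧ c q = 1 ∧ q ∣ n ∧ (N : ℝ) * E < q).card ≤
        ∑ μ ∈ Icc 1 U, (QP c (M / μ)).card := by
      refine le_trans (Finset.card_le_card hcov) (le_trans Finset.card_biUnion_le ?_)
      exact Finset.sum_le_sum fun μ _ => Finset.card_image_le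
    exact_mod_cast h3
  have hsum : ∑ μ ∈ Icc 1 U, ((QP c (M / μ)).card : ℝ) ≤ del M * L * M * (1 + Real.log U) := by
    calc ∑ μ ∈ Icc 1 U, ((QP c (M / μ)).card : ℝ) ≤ ∑ μ ∈ Icc 1 U, del M * L * M * (1 / (μ : ℝ)) :=
          Finset.sum_le_sum hblock
      _ = del M * L * M * ∑ μ ∈ Icc 1 U, 1 / (μ : ℝ) := by rw [Finset.mul_sum]
      _ ≤ del M * L * M * (1 + Real.log U) := mul_le_mul_of_nonneg_left (V6_harm U) (by positivity)
  have hUpos : 0 < U := by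
    rw [hU]
    apply Nat.floor_pos.2
    have : 1 ≤ Real.exp (K ^ θ) := Real.one_le_exp (by linarith)
    nlinarith
  have hlogU : Real.log U ≤ Real.log W + K ^ θ := by
    have hU0 : (0 : ℝ) < U := by exact_mod_cast hUpos
    calc Real.log U ≤ Real.log (W * Real.exp (K ^ θ)) := Real.log_le_log hU0 hUle
      _ = Real.log W + K ^ θ := by
        rw [Real.log_mul (by positivity) (Real.exp_pos _).ne', Real.log_exp]
  have hfac : 1 + Real.log U ≤ (2 + Real.log W) * K ^ θ := by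
    nlinarith
  have hsig := hS M (by omega) c L hc hv hL1 hs
  have hfl : ⌊(M : ℝ) ^ ((9 : ℝ) / 10)⌋₊ ≤ M := by
    apply Nat.floor_le_of_le
    have hM1 : (1 : ℝ) ≤ M := by
      have : 1 ≤ M := by omega
      exact_mod_cast this
    calc (M : ℝ) ^ ((9 : ℝ) / 10) ≤ (M : ℝ) ^ (1 : ℝ) := Real.rpow_le_rpow_of_exponent_le hM1 (by norm_num)
      _ = M := Real.rpow_one _
  have hmono := V6_sQ_mono c hfl
  have hKM : K ≤ Real.log M := Real.log_le_log hN0 (by exact_mod_cast hMN)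
  have hdL : K * (del M * L) ≤ C1 * sQ c M := by
    calc K * (del M * L) ≤ Real.log M * (del M * L) := mul_le_mul_of_nonneg_right hKM (by positivity)
      _ ≤ C1 * sQ c ⌊(M : ℝ) ^ ((9 : ℝ) / 10)⌋₊ := hsig
      _ ≤ C1 * sQ c M := mul_le_mul_of_nonneg_left hmono hC1.le
  have hK0 : 0 < K := by linarith
  have hpow : K ^ θ = K ^ (θ - 1) * K := by
    rw [Real.rpow_sub_one hK0.ne']
    field_simp
  have hp0 : 0 < K ^ (θ - 1) := Real.rpow_pos_of_pos hK0 _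
  calc (((Finset.Ico 1 M).filter fun n => ∃ q : ℕ, q.Prime ∧ c q = 1 ∧ q ∣ n ∧ (N : ℝ) * E < q).card : ℝ)
      ≤ del M * L * M * (1 + Real.log U) := le_trans hcard hsum
    _ ≤ del M * L * M * ((2 + Real.log W) * K ^ θ) := mul_le_mul_of_nonneg_left hfac (by positivity)
    _ = (K * (del M * L)) * ((2 + Real.log W) * M * K ^ (θ - 1)) := by rw [hpow]; ring
    _ ≤ (C1 * sQ c M) * ((2 + Real.log W) * M * K ^ (θ - 1)) := mul_le_mul_of_nonneg_right hdL (by positivity)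
    _ = C1 * (2 + Real.log W) * W * K ^ (θ - 1) * sQ c M * N := by rw [hMr]; ring

end Pool.Agent.Lib.OW
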