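import Mathlib
import Pool.Agent.Lib.MP_7b7e48_nt.OW.U4
import Pool.Agent.Lib.MP_7b7e48_nt.OW.V4
import Pool.Agent.Lib.MP_7b7e48_nt.OW.V5
import Pool.Agent.Lib.MP_7b7e48_nt.OW.V6
import Pool.Agent.Lib.MP_7b7e48_nt.OW.VF

/-!
# Module VX (60 minutes): everything together

For the final assembly: `χ` real modulo `W N`, `c n = Re χ n`. PROOF. `RG.LV_char δ'` (`δ' = min(δ/2, 1/100)`; `χ ≠ 1` by `ne_class`): `L ≥ κ M^(-δ') ≥ M^(-1/50)`, `M = W N`; `HV.rc` is `RC M c`. `ne_class`, `sig_small`, `beta_one`, `Z_low`, `top_x`, `lam_small` (with `y = N`), for `ε2 ≤` all `ε1`, `C ε2 ≤` the `ε1` of `Z_low`, `C ε2 ≤ 1` (`HV` is monotone in `ε`).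
`pos`: `LV_char` with a small exponent `δ' < min δ (1/50)` instead of `1/100` and `sig_star` for the modulus `M` (`log N · del N ≥ 1`): `σ ≥ L/C ≥ M^(-δ')/C' ≥ N^(-δ)`. `L`: `sig_star` for the modulus `M`, `del M ≥ del N · del W`, `del W ≥ 1/W`.
-/

open Finset
open Pool.Agent.Lib.MP_45349e_nt.LS (lam)

namespace Pool.Agent.Lib.OW

open Pool.Agent.Lib.RG (RC LV rr SS PB)

private theorem vx_mono {N W a : ℕ} {c : ℕ → ℝ} {β ε ε' : ℝ} (h : HV N W a c β ε) (he : ε ≤ ε') :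
    HV N W a c β ε' := by
  refine ⟨h.rc, h.co, h.hb, h.z.trans ?_, h.q.trans he⟩
  have h1 : 0 ≤ del N := by unfold del; positivity
  have h2 : (0 : ℝ) ≤ N := Nat.cast_nonneg _
  exact mul_le_mul_of_nonneg_right (mul_le_mul_of_nonneg_right he h1) h2

private theorem vx_sQ_mono (c : ℕ → ℝ) {x y : ℕ} (h : x ≤ y) : sQ c x ≤ sQ c y := by
  classical
  unfold sQ
  refine sum_le_sum_of_subset_of_nonneg ?_ fun q _ _ => by positivity
  intro q hq
  unfold QP at hq ⊢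
  rw [mem_filter, mem_range] at hq ⊢
  exact ⟨by omega, hq.2⟩

private theorem vx_del {W N : ℕ} (hW : 1 ≤ W) (hN : 1 ≤ N) : del N ≤ W * del (W * N) := by
  unfold del
  have hW0 : (0 : ℝ) < W := by exact_mod_cast hW
  have hN0 : (0 : ℝ) < N := by exact_mod_cast hN
  have h1 : W.totient * N.totient ≤ (W * N).totient := Nat.totient_super_multiplicative W N
  have h2 : 1 ≤ W.totient := Nat.totient_pos.mpr hW
  have h3 : N.totient ≤ (W * N).totient := by nlinarith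
  have h4 : (N.totient : ℝ) ≤ ((W * N).totient : ℝ) := by exact_mod_cast h3
  push_cast
  rw [mul_div_assoc', mul_div_mul_left _ _ hW0.ne']
  exact div_le_div_of_nonneg_right h4 hN0.le

private theorem vx_M {W : ℕ} (hW : 1 ≤ W) {N : ℕ} (hN : W ^ 3 ≤ N) :
    ((W * N : ℕ) : ℝ) ≤ (N : ℝ) ^ ((4 : ℝ) / 3) := by
  have hW0 : (1 : ℝ) ≤ W := by exact_mod_cast hW
  have hN1 : 1 ≤ N := (Nat.one_le_pow _ _ hW).trans hN
  have hN0 : (0 : ℝ) < N := by exact_mod_cast hN1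
  have h1 : (W : ℝ) ≤ (N : ℝ) ^ ((1 : ℝ) / 3) := by
    have h2 : ((W : ℝ) ^ (3 : ℕ)) ≤ N := by exact_mod_cast hN
    have h3 : (W : ℝ) = ((W : ℝ) ^ (3 : ℕ)) ^ ((1 : ℝ) / 3) := by
      rw [← Real.rpow_natCast, ← Real.rpow_mul (by linarith)]
      norm_num
    rw [h3]
    exact Real.rpow_le_rpow (by positivity) h2 (by norm_num)
  push_cast
  have h3 : (N : ℝ) ^ ((4 : ℝ) / 3) = (N : ℝ) ^ ((1 : ℝ) / 3) * N := by
    rw [show (4 : ℝ) / 3 = 1 / 3 + 1 by norm_num, Real.rpow_add hN0, Real.rpow_one]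
  rw [h3]
  exact mul_le_mul_of_nonneg_right h1 hN0.le

theorem vx (W : ℕ) (hW : 1 ≤ W) (A : ℕ) (θ δ : ℝ) (h0 : 0 < θ) (h1 : θ < 1) (hδ : 0 < δ) : ∃ C c1 ε2 : ℝ, 0 < C ∧ 0 < c1 ∧ 0 < ε2 ∧
    ∀ ε : ℝ, 0 < ε → ε ≤ ε2 → ∃ N0 : ℕ, ∀ (N : ℕ) [NeZero (W * N)], N0 ≤ N → ∀ (a : ℕ) (β : ℝ)
    (χ : DirichletCharacter ℂ (W * N)), χ ^ 2 = 1 →
    HV N W a (fun n => (χ (n : ZMod (W * N))).re) β ε →
    β = 1 ∧ sQ (fun n => (χ (n : ZMod (W * N))).re) (W * N) ≤ C * ε ∧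
    ∃ L : ℝ, VF N W a A (fun n => (χ (n : ZMod (W * N))).re) L c1 C θ δ
      (sQ (fun n => (χ (n : ZMod (W * N))).re) (W * N)) := by
  classical
  obtain ⟨εa, hεa, Na, hNa⟩ := ne_class W hW
  obtain ⟨Cs, εs, hCs, hεs, hsm⟩ := sig_small W hW
  obtain ⟨εb, hεb, Nb, hNb⟩ := beta_one W hW
  obtain ⟨c1, εz, hc1, hεz, Nz, hNz⟩ := Z_low W hW
  obtain ⟨Ct, hCt, Nt, hNt⟩ := top_x W hW θ h0 h1
  obtain ⟨Nl, hNl⟩ := lam_small W hW A
  obtain ⟨Cσ, hCσ, Nσ, hNσ⟩ := sig_star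
  obtain ⟨Nw, hNw⟩ := del_low
  set δ' : ℝ := min (δ / 2) (1 / 100) with hδ'
  have hδ'0 : 0 < δ' := by positivity
  have hδ'1 : δ' ≤ δ / 2 := min_le_left _ _
  have hδ'2 : δ' ≤ 1 / 100 := min_le_right _ _
  obtain ⟨κ, hκ, hLV⟩ := Pool.Agent.Lib.RG.LV_char δ' hδ'0
  obtain ⟨Nq, hNq⟩ := ((((tendsto_rpow_atTop (show (0 : ℝ) < δ / 3 by positivity)).comp
    tendsto_natCast_atTop_atTop).eventually
    (Filter.eventually_ge_atTop (Cσ / κ)))).exists_forall_of_atTop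
  obtain ⟨Nk, hNk⟩ := ((((tendsto_rpow_atTop (show (0 : ℝ) < 1 / 100 by norm_num)).comp
    tendsto_natCast_atTop_atTop).eventually
    (Filter.eventually_ge_atTop (1 / κ)))).exists_forall_of_atTop
  set ε2 : ℝ := min (min εa εs) (min εb (min (εz / Cs) (1 / Cs))) with hε2
  set C : ℝ := Cs + Ct + W * Cσ with hC
  have hWR : (1 : ℝ) ≤ W := by exact_mod_cast hW
  have hWC : 0 ≤ W * Cσ := by positivity
  refine ⟨C, c1, ε2, by positivity, hc1, by positivity, fun ε hε hεle => ?_⟩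
  have hea : ε ≤ εa := hεle.trans ((min_le_left _ _).trans (min_le_left _ _))
  have hes : ε ≤ εs := hεle.trans ((min_le_left _ _).trans (min_le_right _ _))
  have heb : ε ≤ εb := hεle.trans ((min_le_right _ _).trans (min_le_left _ _))
  have hez : ε ≤ εz / Cs :=
    hεle.trans ((min_le_right _ _).trans ((min_le_right _ _).trans (min_le_left _ _)))
  have he1 : ε ≤ 1 / Cs :=
    hεle.trans ((min_le_right _ _).trans ((min_le_right _ _).trans (min_le_right _ _)))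
  obtain ⟨Ns, hNs⟩ := hsm ε hε hes
  refine ⟨Na + Ns + Nb + Nz + Nt + Nl + Nσ + Nw + Nk + Nq + W ^ 3 + 2, ?_⟩
  intro N _ hN a β χ hχ hHV
  have hN2 : 2 ≤ N := by omega
  have hW3 : W ^ 3 ≤ N := by omega
  have hMN : N ≤ W * N := Nat.le_mul_of_pos_left N hW
  set c : ℕ → ℝ := fun n => (χ (n : ZMod (W * N))).re with hcdef
  have hβ : β = 1 := hNb N (by omega) a c β (vx_mono hHV heb)
  have hσ := hNs N (by omega) a c β hHV
  set σ : ℝ := sQ c (W * N) with hσdef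
  have hσ0 : 0 ≤ σ := by
    rw [hσdef]; unfold sQ
    exact sum_nonneg fun q _ => by positivity
  have hσz : σ ≤ εz := by
    refine hσ.trans ?_
    rw [mul_comm]
    rwa [le_div_iff₀ hCs] at hez
  have hσ1 : σ ≤ 1 := by
    refine hσ.trans ?_
    rw [mul_comm]
    rwa [le_div_iff₀ hCs] at he1
  obtain ⟨m, hmp, hm1, hmc, hcm⟩ := hNa N (by omega) a c β (vx_mono hHV hea)
  have hχm : χ (m : ZMod (W * N)) ≠ 1 := by
    intro hcon
    have h3 : c m = 1 := by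
      simp only [hcdef]
      rw [hcon]
      exact Complex.one_re
    rw [hcm] at h3
    norm_num at h3
  have hχ1 : χ ≠ 1 := by
    intro hcon
    apply hχm
    rw [hcon]
    have hu : IsUnit ((m : ℕ) : ZMod (W * N)) := (ZMod.isUnit_iff_coprime m (W * N)).mpr hmc
    exact MulChar.one_apply hu
  obtain ⟨L, hL, hκL⟩ := hLV (W * N) (by omega) χ hχ hχ1
  have hL0 : 0 ≤ L := hL.1
  have hMk := hNk (W * N) (by omega)
  have hM0 : (0 : ℝ) < ((W * N : ℕ) : ℝ) := by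
    have : 0 < W * N := by omega
    exact_mod_cast this
  have hM1 : (1 : ℝ) ≤ ((W * N : ℕ) : ℝ) := by
    have : 1 ≤ W * N := by omega
    exact_mod_cast this
  have hLow : ((W * N : ℕ) : ℝ) ^ (-(1 / 50) : ℝ) ≤ L := by
    refine le_trans ?_ (le_trans (mul_le_mul_of_nonneg_left
      (Real.rpow_le_rpow_of_exponent_le hM1 (show (-(1 / 100) : ℝ) ≤ -δ' by linarith)) hκ.le) hκL)
    have h3 : ((W * N : ℕ) : ℝ) ^ (-(1 / 50) : ℝ) =
        ((W * N : ℕ) : ℝ) ^ (-(1 / 100) : ℝ) * ((W * N : ℕ) : ℝ) ^ (-(1 / 100) : ℝ) := by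
      rw [← Real.rpow_add hM0]
      norm_num
    rw [h3]
    refine mul_le_mul_of_nonneg_right ?_ (Real.rpow_nonneg hM0.le _)
    rw [Real.rpow_neg hM0.le]
    have h4 : 1 / κ ≤ ((W * N : ℕ) : ℝ) ^ ((1 : ℝ) / 100) := hMk
    rw [inv_le_comm₀ (Real.rpow_pos_of_pos hM0 _) hκ, ← one_div]
    exact h4
  have h3 := hNσ (W * N) (by omega) c L hHV.rc hL hLow hσ1
  have h4 : sQ c ⌊((W * N : ℕ) : ℝ) ^ ((9 : ℝ) / 10)⌋₊ ≤ σ := by
    refine vx_sQ_mono c ?_
    refine Nat.floor_le_of_le ?_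
    calc ((W * N : ℕ) : ℝ) ^ ((9 : ℝ) / 10) ≤ ((W * N : ℕ) : ℝ) ^ (1 : ℝ) :=
          Real.rpow_le_rpow_of_exponent_le hM1 (by norm_num)
      _ = ((W * N : ℕ) : ℝ) := Real.rpow_one _
  have h5 : Real.log ((W * N : ℕ) : ℝ) * (del (W * N) * L) ≤ Cσ * σ :=
    h3.trans (mul_le_mul_of_nonneg_left h4 hCσ.le)
  have hN0R : (0 : ℝ) < N := by
    have : 0 < N := by omega
    exact_mod_cast this
  refine ⟨hβ, hσ.trans ?_, L, ?_, hL, hLow, ?_, ?_, ?_, ?_⟩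
  · have : Cs ≤ C := by rw [hC]; linarith
    exact mul_le_mul_of_nonneg_right this hε.le
  · have h6 : 1 ≤ Real.log ((W * N : ℕ) : ℝ) * del (W * N) := hNw (W * N) (by omega)
    have h7 : L ≤ Cσ * σ := by
      refine le_trans ?_ h5
      rw [← mul_assoc]
      exact le_mul_of_one_le_left hL0 h6
    have h8 : κ * (N : ℝ) ^ (-(2 * δ / 3)) ≤ L := by
      refine le_trans (mul_le_mul_of_nonneg_left ?_ hκ.le) hκL
      rw [Real.rpow_neg hN0R.le, Real.rpow_neg hM0.le]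
      refine inv_anti₀ (Real.rpow_pos_of_pos hM0 _) ?_
      have h9 : (N : ℝ) ^ (2 * δ / 3) = ((N : ℝ) ^ ((4 : ℝ) / 3)) ^ (δ / 2) := by
        rw [← Real.rpow_mul hN0R.le]
        congr 1
        ring
      rw [h9]
      calc ((W * N : ℕ) : ℝ) ^ δ' ≤ ((W * N : ℕ) : ℝ) ^ (δ / 2) :=
            Real.rpow_le_rpow_of_exponent_le hM1 hδ'1
        _ ≤ ((N : ℝ) ^ ((4 : ℝ) / 3)) ^ (δ / 2) :=
            Real.rpow_le_rpow hM0.le (vx_M hW hW3) (by positivity)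
    have h10 : Cσ / κ ≤ (N : ℝ) ^ (δ / 3) := hNq N (by omega)
    have h11 : (N : ℝ) ^ (-δ) * (N : ℝ) ^ (δ / 3) = (N : ℝ) ^ (-(2 * δ / 3)) := by
      rw [← Real.rpow_add hN0R]
      congr 1
      ring
    have h12 : 0 < (N : ℝ) ^ (-δ) := Real.rpow_pos_of_pos hN0R _
    have h13 : Cσ * (N : ℝ) ^ (-δ) ≤ κ * (N : ℝ) ^ (-(2 * δ / 3)) := by
      rw [← h11]
      rw [div_le_iff₀ hκ] at h10
      have := mul_le_mul_of_nonneg_left h10 h12.le
      linarith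
    have h14 : Cσ * (N : ℝ) ^ (-δ) ≤ Cσ * σ := (h13.trans h8).trans h7
    exact le_of_mul_le_mul_left h14 hCσ
  · have h6 : Real.log N ≤ Real.log ((W * N : ℕ) : ℝ) := by
      refine Real.log_le_log hN0R ?_
      exact_mod_cast hMN
    have hlogN : 0 ≤ Real.log N := by
      refine Real.log_nonneg ?_
      have : 1 ≤ N := by omega
      exact_mod_cast this
    have h7 : del N ≤ W * del (W * N) := vx_del hW (by omega)
    have hdM : 0 ≤ del (W * N) := by unfold del; positivity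
    have h8 : del N * L ≤ W * (del (W * N) * L) := by
      have := mul_le_mul_of_nonneg_right h7 hL0
      linarith
    have h9 : 0 ≤ del (W * N) * L := mul_nonneg hdM hL0
    calc Real.log N * (del N * L) ≤ Real.log N * (W * (del (W * N) * L)) :=
          mul_le_mul_of_nonneg_left h8 hlogN
      _ = W * (Real.log N * (del (W * N) * L)) := by ring
      _ ≤ W * (Real.log ((W * N : ℕ) : ℝ) * (del (W * N) * L)) :=
          mul_le_mul_of_nonneg_left (mul_le_mul_of_nonneg_right h6 h9) (by linarith)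
      _ ≤ W * (Cσ * σ) := mul_le_mul_of_nonneg_left h5 (by linarith)
      _ = (W * Cσ) * σ := by ring
      _ ≤ C * σ := mul_le_mul_of_nonneg_right (by rw [hC]; linarith) hσ0
  · exact hNz N (by omega) a c L hHV.co hHV.rc hL hLow hσz
  · refine (hNt N (by omega) c L hHV.rc hL hLow hσ1).trans ?_
    have hlogN : 0 ≤ Real.log N := by
      refine Real.log_nonneg ?_
      have : 1 ≤ N := by omega
      exact_mod_cast this
    have h3 : 0 ≤ (Real.log N) ^ (θ - 1) := Real.rpow_nonneg hlogN _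
    have h4 : Ct ≤ C := by rw [hC]; linarith
    have h5 : (0 : ℝ) ≤ N := Nat.cast_nonneg _
    exact mul_le_mul_of_nonneg_right (mul_le_mul_of_nonneg_right
      (mul_le_mul_of_nonneg_right h4 h3) hσ0) h5
  · intro b hb
    refine hNl N (by omega) χ hχ ⟨m, hm1, hmc, hχm⟩ hσ1 b N hb ?_ le_rfl
    have h5 : (1 : ℝ) ≤ N := by
      have : 1 ≤ N := by omega
      exact_mod_cast this
    calc (N : ℝ) ^ ((9 : ℝ) / 10) ≤ (N : ℝ) ^ (1 : ℝ) :=
          Real.rpow_le_rpow_of_exponent_le h5 (by norm_num)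
      _ = (N : ℝ) := Real.rpow_one _

end Pool.Agent.Lib.OW
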