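import Pool.Agent.Lib.MP_7b7e48_nt.OW.PA5

/-!
# Module PA6: the theorem in residue classes and the reduction to configurations

`repq q N a s t` = the `0 < n < N`, `n ≡ a` modulo `q`, `lam n = s`, `lam (N - n) = t`.
-/

open Finset
open Pool.Agent.Lib.MP_45349e_nt.LS (lam lam_mul lam_prime abs_lam)

namespace Pool.Agent.Lib.OW

open Classical in
/-- the representations of `N` in the class `a` modulo `q` -/
noncomputable def repq (q N a : ℕ) (s t : ℝ) : Finset ℕ :=
  (Finset.Ico 1 N).filter fun n => n ≡ a [MOD q] ∧ lam n = s ∧ lam (N - n) = t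

/-- the theorem for configurations -/
def PropC : Prop := ∀ W : ℕ, 1 ≤ W → ∀ ε : ℝ, 0 < ε → ∃ N0 : ℕ, ∀ N : ℕ, N0 ≤ N → ∀ a : ℕ, Cfg W N a →
  ∀ s t : ℝ, (s = 1 ∨ s = -1) → (t = 1 ∨ t = -1) → (N : ℝ) ^ (1 - ε) ≤ ((repC W N a s t).card : ℝ)

/-- the theorem in residue classes -/
def ThmC : Prop := ∀ (q : ℕ), 1 ≤ q → ∀ (R : ℕ) (ε : ℝ), 0 < ε → ∃ N0 : ℕ, ∀ N : ℕ, N0 ≤ N →
  ∀ a : ℕ, a < q → a.Coprime q → (N - a).Coprime q →
  ∀ s t : ℝ, (s = 1 ∨ s = -1) → (t = 1 ∨ t = -1) →
  R ≤ (repq q N a s t).card ∧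
    ∀ p : ℕ, p.Prime → p ∣ N → N0 ≤ p → (p : ℝ) ^ (1 - ε) ≤ ((repq q N a s t).card : ℝ)

private theorem pa6_pm (n : ℕ) : lam n = 1 ∨ lam n = -1 := by
  have h := abs_lam n
  rcases abs_cases (lam n) with h1 | h1
  · left; linarith
  · right; linarith

private theorem pa6_sq (n : ℕ) : lam n * lam n = 1 := by
  rcases pa6_pm n with h | h <;> rw [h] <;> norm_num

private theorem pa6_pmul {s : ℝ} (hs : s = 1 ∨ s = -1) (g : ℕ) : s * lam g = 1 ∨ s * lam g = -1 := by
  rcases hs with h | h <;> rcases pa6_pm g with h' | h' <;> rw [h, h'] <;> norm_num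

theorem repq_mul {q g n a b : ℕ} (hg0 : 0 < g) (hab : g * b ≡ a [MOD q]) (s t : ℝ) :
    (repq q n b (s * lam g) (t * lam g)).card ≤ (repq q (g * n) a s t).card := by
  refine Finset.card_le_card_of_injOn (fun a => g * a) ?_ ?_
  · intro x hx
    have hx' : x ∈ repq q n b (s * lam g) (t * lam g) := hx
    unfold repq at hx'
    simp only [Finset.mem_filter, Finset.mem_Ico] at hx'
    obtain ⟨⟨h1, h2⟩, h3, h4, h5⟩ := hx'
    have hsub : g * n - g * x = g * (n - x) := (Nat.mul_sub g n x).symm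
    show g * x ∈ repq q (g * n) a s t
    unfold repq
    simp only [Finset.mem_filter, Finset.mem_Ico]
    refine ⟨⟨Nat.mul_pos hg0 h1, (Nat.mul_lt_mul_left hg0).2 h2⟩, (h3.mul_left g).trans hab, ?_, ?_⟩
    · rw [lam_mul _ _ hg0.ne' (by omega), h4]
      have := pa6_sq g
      calc lam g * (s * lam g) = s * (lam g * lam g) := by ring
        _ = s := by rw [this, mul_one]
    · rw [hsub, lam_mul _ _ hg0.ne' (by omega), h5]
      have := pa6_sq g
      calc lam g * (t * lam g) = t * (lam g * lam g) := by ring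
        _ = t := by rw [this, mul_one]
  · intro x _ y _ hxy
    exact Nat.eq_of_mul_eq_mul_left hg0 hxy

theorem repC_sub {W q N a b : ℕ} (hN : 2 ≤ N) (hq : q ∣ W) (hab : b ≡ a [MOD q]) (s t : ℝ) :
    (repC W N b s t).card ≤ (repq q N a s t).card := by
  refine Finset.card_le_card ?_
  intro n hn
  unfold repC Dom at hn
  unfold repq
  simp only [Finset.mem_filter, Finset.mem_range, Finset.mem_Ico] at hn ⊢
  obtain ⟨⟨h1, h2, h3⟩, h4, h5⟩ := hn
  have h0 : 1 ≤ n := by
    rcases Nat.eq_zero_or_pos n with h0 | h0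
    · rw [h0, Nat.coprime_zero_left] at h3; omega
    · exact h0
  exact ⟨⟨h0, h1⟩, (h2.of_dvd hq).trans hab, h4, h5⟩

/-- splitting off the part composed of primes dividing `q` -/
theorem part_split (q N : ℕ) (hN : N ≠ 0) : ∃ A M : ℕ, N = M * A ∧ 0 < M ∧ 0 < A ∧
    (∀ p : ℕ, p.Prime → p ∣ A → p ∣ q) ∧ (∀ p : ℕ, p.Prime → p ∣ M → ¬ p ∣ q) := by
  classical
  refine ⟨∏ p ∈ N.primeFactors.filter (fun p => p ∣ q), p ^ N.factorization p,
    ∏ p ∈ N.primeFactors.filter (fun p => ¬ p ∣ q), p ^ N.factorization p, ?_, ?_, ?_, ?_, ?_⟩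
  · rw [mul_comm, Finset.prod_filter_mul_prod_filter_not]
    exact (Nat.factorization_prod_pow_eq_self hN).symm
  · exact Finset.prod_pos fun p hp => pow_pos (Nat.prime_of_mem_primeFactors (Finset.mem_filter.1 hp).1).pos _
  · exact Finset.prod_pos fun p hp => pow_pos (Nat.prime_of_mem_primeFactors (Finset.mem_filter.1 hp).1).pos _
  · intro p hp hd
    obtain ⟨r, hr, hd2⟩ := (Prime.dvd_finset_prod_iff hp.prime _).1 hd
    rw [Finset.mem_filter] at hr
    have h := (Nat.prime_dvd_prime_iff_eq hp (Nat.prime_of_mem_primeFactors hr.1)).1 (hp.dvd_of_dvd_pow hd2)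
    rw [h]; exact hr.2
  · intro p hp hd
    obtain ⟨r, hr, hd2⟩ := (Prime.dvd_finset_prod_iff hp.prime _).1 hd
    rw [Finset.mem_filter] at hr
    have h := (Nat.prime_dvd_prime_iff_eq hp (Nat.prime_of_mem_primeFactors hr.1)).1 (hp.dvd_of_dvd_pow hd2)
    rw [h]; exact hr.2

private theorem pa6_class {q g n a : ℕ} (hq : 1 ≤ q) (hg : g.Coprime q) (hqn : q ≤ n) (hqN : a ≤ g * n)
    (ha : a.Coprime q) (ha2 : (g * n - a).Coprime q) :
    ∃ b : ℕ, b < q ∧ g * b ≡ a [MOD q] ∧ b.Coprime q ∧ (n - b).Coprime q := by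
  haveI : NeZero q := ⟨by omega⟩
  obtain ⟨b, hb⟩ : ∃ b : ℕ, b = ((a : ZMod q) * ((g : ZMod q))⁻¹).val := ⟨_, rfl⟩
  have hbq : b < q := by rw [hb]; exact ZMod.val_lt _
  have h1 : g * b ≡ a [MOD q] := by
    rw [← ZMod.natCast_eq_natCast_iff, Nat.cast_mul, hb, ZMod.natCast_val, ZMod.cast_id',
      id_eq]
    have h2 := ZMod.coe_mul_inv_eq_one g hg
    calc (g : ZMod q) * ((a : ZMod q) * (g : ZMod q)⁻¹) = (a : ZMod q) * ((g : ZMod q) * (g : ZMod q)⁻¹) := by ring
      _ = a := by rw [h2, mul_one]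
  have h3 : (g * b).Coprime q := by
    rw [Nat.coprime_iff_gcd_eq_one, h1.gcd_eq]; exact ha
  have hbn : b ≤ n := by omega
  have h4 : g * (n - b) ≡ g * n - a [MOD q] := by
    have h5 : g * (n - b) + g * b ≡ g * n - a + a [MOD q] := by
      rw [← Nat.mul_add, Nat.sub_add_cancel hbn, Nat.sub_add_cancel hqN]
    exact Nat.ModEq.add_right_cancel h1 h5
  have h5 : (g * (n - b)).Coprime q := by
    rw [Nat.coprime_iff_gcd_eq_one, h4.gcd_eq]; exact ha2
  exact ⟨b, hbq, h1, Nat.Coprime.coprime_mul_left h3, Nat.Coprime.coprime_mul_left h5⟩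

theorem reductionC (h : PropC) : ThmC := by
  classical
  intro q hq R ε hε
  set ε' := min ε (1 / 2) with hε'
  have hε0 : 0 < ε' := lt_min hε (by norm_num)
  have hε1 : ε' ≤ 1 / 2 := min_le_right _ _
  have hε2 : ε' ≤ ε := min_le_left _ _
  obtain ⟨N1, hN1⟩ := h q hq ε' hε0
  obtain ⟨N2, hN2⟩ : ∃ N2 : ℕ, N2 = max (max N1 (R ^ 2)) (max 4 (q + 1)) := ⟨_, rfl⟩
  have h21 : N1 ≤ N2 := by rw [hN2]; exact (le_max_left _ _).trans (le_max_left _ _)
  have h22 : R ^ 2 ≤ N2 := by rw [hN2]; exact (le_max_right _ _).trans (le_max_left _ _)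
  have h23 : 4 ≤ N2 := by rw [hN2]; exact (le_max_left _ _).trans (le_max_right _ _)
  have h24 : q + 1 ≤ N2 := by rw [hN2]; exact (le_max_right _ _).trans (le_max_right _ _)
  -- the moduli of case (iii)
  set D := ∏ p ∈ (Finset.range N2).filter Nat.Prime, p with hD
  have hDpr : ∀ p ∈ (Finset.range N2).filter Nat.Prime, p.Prime := fun p hp => (Finset.mem_filter.1 hp).2
  have hD0 : 0 < D := Finset.prod_pos fun p hp => (hDpr p hp).pos
  have hex : ∀ d : ℕ, ∃ N3 : ℕ, ∀ N : ℕ, N3 ≤ N → ∀ a : ℕ, Cfg (q * (d + 1)) N a →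
      ∀ s t : ℝ, (s = 1 ∨ s = -1) → (t = 1 ∨ t = -1) → (N : ℝ) ^ (1 - ε') ≤ ((repC (q * (d + 1)) N a s t).card : ℝ) :=
    fun d => h (q * (d + 1)) (Nat.mul_pos hq (Nat.succ_pos d)) ε' hε0
  choose f hf using hex
  obtain ⟨N4, hN4⟩ : ∃ N4 : ℕ, N4 = (Finset.range D).sup f := ⟨_, rfl⟩
  have hf4 : ∀ d : ℕ, d < D → f d ≤ N4 := fun d hd => by
    rw [hN4]; exact Finset.le_sup (f := f) (Finset.mem_range.2 hd)
  -- powers
  have hpow : ∀ n : ℕ, N2 ≤ n → (R : ℝ) ≤ (n : ℝ) ^ (1 - ε') := by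
    intro n hn
    have hn1 : (1 : ℝ) ≤ n := by exact_mod_cast (by omega : 1 ≤ n)
    have h1 : ((R : ℝ)) ^ 2 ≤ n := by exact_mod_cast h22.trans hn
    calc (R : ℝ) = Real.sqrt ((R : ℝ) ^ 2) := (Real.sqrt_sq (Nat.cast_nonneg _)).symm
      _ ≤ Real.sqrt n := Real.sqrt_le_sqrt h1
      _ = (n : ℝ) ^ ((1 : ℝ) / 2) := Real.sqrt_eq_rpow _
      _ ≤ (n : ℝ) ^ (1 - ε') := Real.rpow_le_rpow_of_exponent_le hn1 (by linarith)
  refine ⟨max (max N2 N4) (q * D), ?_⟩
  intro N hN a haq hac hac2 s t hs ht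
  have hNN2 : N2 ≤ N := (le_max_left _ _).trans ((le_max_left _ _).trans hN)
  have hNN4 : N4 ≤ N := (le_max_right _ _).trans ((le_max_left _ _).trans hN)
  have hNqD : q * D ≤ N := (le_max_right _ _).trans hN
  have haN : a ≤ N := by omega
  obtain ⟨A, M, hAM, hM0, hA0, hA, hM⟩ := part_split q N (by omega)
  have hcop : ∀ g : ℕ, g ∣ M → g.Coprime q := by
    intro g hg
    rw [Nat.coprime_iff_gcd_eq_one]
    by_contra hne
    obtain ⟨r, hr, hrd⟩ := Nat.exists_prime_and_dvd hne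
    exact hM r hr ((hrd.trans (Nat.gcd_dvd_left _ _)).trans hg) (hrd.trans (Nat.gcd_dvd_right _ _))
  -- case A large
  have caseA : N2 ≤ A → (A : ℝ) ^ (1 - ε') ≤ ((repq q N a s t).card : ℝ) := by
    intro hA2
    obtain ⟨b, hb1, hb2, hb3, hb4⟩ := pa6_class hq (hcop M dvd_rfl) (by omega : q ≤ A) (by rw [← hAM]; exact haN) hac
      (by rw [← hAM]; exact hac2)
    have hcfg : Cfg q A b := ⟨hq, hb1, by omega, hb3, hb4, fun p hp hd hnd => absurd (hA p hp hd) hnd⟩
    have h1 := hN1 A (h21.trans hA2) b hcfg (s * lam M) (t * lam M) (pa6_pmul hs M) (pa6_pmul ht M)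
    refine h1.trans ?_
    have h2 := repC_sub (W := q) (q := q) (N := A) (a := b) (b := b) (by omega) dvd_rfl (Nat.ModEq.refl _)
      (s * lam M) (t * lam M)
    have h3 := repq_mul (n := A) hM0 hb2 s t
    rw [← hAM] at h3
    exact_mod_cast h2.trans h3
  -- case of a large prime
  have caseP : ∀ p : ℕ, p.Prime → p ∣ N → N2 ≤ p → A < p → (p : ℝ) ^ (1 - ε') ≤ ((repq q N a s t).card : ℝ) := by
    intro p hp hd hp2 hAp
    have hpM : p ∣ M := by
      rw [hAM] at hd
      rcases (Nat.Prime.dvd_mul hp).1 hd with h3 | h3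
      · exact h3
      · exact absurd (Nat.le_of_dvd hA0 h3) (not_le.2 hAp)
    obtain ⟨M', rfl⟩ := hpM
    have hM'0 : 0 < M' := by
      rcases Nat.eq_zero_or_pos M' with h0 | h0
      · rw [h0, mul_zero] at hM0; exact absurd hM0 (lt_irrefl _)
      · exact h0
    have hN' : N = M' * (p * A) := by rw [hAM]; ring
    have hle : p ≤ p * A := Nat.le_mul_of_pos_right _ hA0
    obtain ⟨b, hb1, hb2, hb3, hb4⟩ := pa6_class hq (hcop M' (dvd_mul_left _ _)) (by omega : q ≤ p * A)
      (by rw [← hN']; exact haN) hac (by rw [← hN']; exact hac2)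
    have hcfg : Cfg q (p * A) b := ⟨hq, hb1, by omega, hb3, hb4, by
      intro r hr hrd hnd
      rcases (Nat.Prime.dvd_mul hr).1 hrd with h3 | h3
      · rw [(Nat.prime_dvd_prime_iff_eq hr hp).1 h3]
        exact (Nat.mul_lt_mul_left hp.pos).2 hAp
      · exact absurd (hA r hr h3) hnd⟩
    have h1 := hN1 (p * A) (h21.trans (hp2.trans hle)) b hcfg (s * lam M') (t * lam M') (pa6_pmul hs M')
      (pa6_pmul ht M')
    have h2 := repC_sub (W := q) (q := q) (N := p * A) (a := b) (b := b) (by omega) dvd_rfl (Nat.ModEq.refl _)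
      (s * lam M') (t * lam M')
    have h3 := repq_mul (n := p * A) hM'0 hb2 s t
    rw [← hN'] at h3
    calc (p : ℝ) ^ (1 - ε') ≤ ((p * A : ℕ) : ℝ) ^ (1 - ε') :=
          Real.rpow_le_rpow (Nat.cast_nonneg _) (by exact_mod_cast hle) (by linarith)
      _ ≤ _ := h1
      _ ≤ _ := by exact_mod_cast h2.trans h3
  constructor
  · by_cases hA2 : N2 ≤ A
    · exact_mod_cast (hpow A hA2).trans (caseA hA2)
    · push Not at hA2
      by_cases hp : ∃ p : ℕ, p.Prime ∧ p ∣ N ∧ N2 ≤ p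
      · obtain ⟨p, hp1, hp2, hp3⟩ := hp
        exact_mod_cast (hpow p hp3).trans (caseP p hp1 hp2 hp3 (by omega))
      · push Not at hp
        -- the modulus q d, d the product of the primes dividing M
        set d := ∏ p ∈ M.primeFactors, p with hd
        have hd0 : 0 < d := Finset.prod_pos fun p hp => (Nat.prime_of_mem_primeFactors hp).pos
        have hdD : d ∣ D := by
          rw [hd, hD]
          refine Finset.prod_dvd_prod_of_subset _ _ _ ?_
          intro p hp1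
          rw [Finset.mem_filter, Finset.mem_range]
          refine ⟨hp p (Nat.prime_of_mem_primeFactors hp1) ?_, Nat.prime_of_mem_primeFactors hp1⟩
          rw [hAM]
          exact (Nat.dvd_of_mem_primeFactors hp1).mul_right _
        have hdle : d ≤ D := Nat.le_of_dvd hD0 hdD
        have hdpr : ∀ p : ℕ, p.Prime → p ∣ d → p ∣ M := by
          intro p hp1 hpd
          obtain ⟨r, hr, hd2⟩ := (Prime.dvd_finset_prod_iff hp1.prime _).1 hpd
          rw [(Nat.prime_dvd_prime_iff_eq hp1 (Nat.prime_of_mem_primeFactors hr)).1 hd2]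
          exact Nat.dvd_of_mem_primeFactors hr
        have hMd : ∀ p : ℕ, p.Prime → p ∣ M → p ∣ d := fun p hp1 hp2 =>
          Finset.dvd_prod_of_mem _ (Nat.mem_primeFactors.2 ⟨hp1, hp2, by omega⟩)
        have hqd : q.Coprime d := by
          rw [Nat.coprime_iff_gcd_eq_one]
          by_contra hne
          obtain ⟨r, hr, hrd⟩ := Nat.exists_prime_and_dvd hne
          exact hM r hr (hdpr r hr (hrd.trans (Nat.gcd_dvd_right _ _))) (hrd.trans (Nat.gcd_dvd_left _ _))
        obtain ⟨k, hk1, hk2⟩ := Nat.chineseRemainder hqd a 1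
        obtain ⟨b, hb⟩ : ∃ b : ℕ, b = k % (q * d) := ⟨_, rfl⟩
        have hqd0 : 0 < q * d := Nat.mul_pos hq hd0
        have hbk : b ≡ k [MOD q * d] := by rw [hb]; exact Nat.mod_modEq _ _
        have hba : b ≡ a [MOD q] := (hbk.of_dvd (dvd_mul_right _ _)).trans hk1
        have hb1 : b ≡ 1 [MOD d] := (hbk.of_dvd (dvd_mul_left _ _)).trans hk2
        have hbl : b < q * d := by rw [hb]; exact Nat.mod_lt _ hqd0
        have hqdN : q * d ≤ N := (Nat.mul_le_mul_left q hdle).trans hNqD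
        have hbN : b ≤ N := by omega
        have hc1 : b.Coprime (q * d) := by
          refine Nat.Coprime.mul_right ?_ ?_
          · rw [Nat.coprime_iff_gcd_eq_one, hba.gcd_eq]; exact hac
          · rw [Nat.coprime_iff_gcd_eq_one, hb1.gcd_eq, Nat.gcd_one_left]
        have hc2 : (N - b).Coprime (q * d) := by
          refine Nat.Coprime.mul_right ?_ ?_
          · have h5 : N - b ≡ N - a [MOD q] := by
              have h6 : N - b + b ≡ N - a + a [MOD q] := by
                rw [Nat.sub_add_cancel hbN, Nat.sub_add_cancel haN]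
              exact Nat.ModEq.add_right_cancel hba h6
            rw [Nat.coprime_iff_gcd_eq_one, h5.gcd_eq]; exact hac2
          · rw [Nat.coprime_iff_gcd_eq_one]
            by_contra hne
            obtain ⟨r, hr, hrd⟩ := Nat.exists_prime_and_dvd hne
            have h5 : r ∣ N - b := hrd.trans (Nat.gcd_dvd_left _ _)
            have h6 : r ∣ d := hrd.trans (Nat.gcd_dvd_right _ _)
            have h7 : r ∣ N := by rw [hAM]; exact (hdpr r hr h6).mul_right _
            have h8 : r ∣ b := by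
              have h9 : r ∣ (N - b) + b := by rw [Nat.sub_add_cancel hbN]; exact h7
              exact (Nat.dvd_add_right h5).1 h9
            have h9 : (0 : ℕ) ≡ 1 [MOD r] := ((Nat.modEq_zero_iff_dvd.2 h8).symm).trans (hb1.of_dvd h6)
            have h10 := (Nat.modEq_iff_dvd' (by omega : (0 : ℕ) ≤ 1)).1 h9
            exact hr.one_lt.ne' (Nat.dvd_one.1 (by simpa using h10))
        have hcfg : Cfg (q * d) N b := ⟨hqd0, hbl, hqdN, hc1, hc2, by
          intro r hr hrd hnd
          rw [hAM] at hrd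
          rcases (Nat.Prime.dvd_mul hr).1 hrd with h3 | h3
          · exact absurd ((hMd r hr h3).mul_left _) hnd
          · exact absurd ((hA r hr h3).mul_right _) hnd⟩
        have hd1 : d - 1 + 1 = d := Nat.sub_add_cancel hd0
        have h1 := hf (d - 1) N ((hf4 (d - 1) (by omega)).trans hNN4) b (by rw [hd1]; exact hcfg) s t hs ht
        rw [hd1] at h1
        have h2 := repC_sub (W := q * d) (q := q) (N := N) (a := a) (b := b) (by omega) (dvd_mul_right _ _) hba s t
        have h3 := (hpow N hNN2).trans h1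
        have h4 : R ≤ (repC (q * d) N b s t).card := by exact_mod_cast h3
        exact h4.trans h2
  · intro p hp hd hp0
    have hp2 : N2 ≤ p := (le_max_left _ _).trans ((le_max_left _ _).trans hp0)
    have hp1 : (1 : ℝ) ≤ p := by exact_mod_cast hp.one_lt.le
    refine (Real.rpow_le_rpow_of_exponent_le hp1 (by linarith : 1 - ε ≤ 1 - ε')).trans ?_
    by_cases hAp : A < p
    · exact caseP p hp hd hp2 hAp
    · push Not at hAp
      refine (Real.rpow_le_rpow (Nat.cast_nonneg _) ?_ (by linarith)).trans (caseA (hp2.trans hAp))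
      exact_mod_cast hAp

end Pool.Agent.Lib.OW
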