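import Pool.Agent.Lib.MP_7b7e48_nt.OW.PA2
import Pool.Agent.Lib.MP_7b7e48_nt.OW.PA6

/-!
# Module PA7: the final form, in residue classes and for numbers without small prime factors
-/

open Finset
open Pool.Agent.Lib.MP_45349e_nt.LS (lam)

namespace Pool.Agent.Lib.OW

/-- the `0 < n < N`, `n ≠ N - n`, `n ≡ a` modulo `q`, such that `Ω n ≡ i` and `Ω (N - n) ≡ j` modulo `2` -/
def creps (q N a i j : ℕ) : Finset ℕ :=
  (Finset.Ioo 0 N).filter fun n => n ≠ N - n ∧ n % q = a % q ∧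
    ArithmeticFunction.cardFactors n % 2 = i ∧ ArithmeticFunction.cardFactors (N - n) % 2 = j

/-- the `0 < n < N`, `n ≠ N - n`, such that `Ω n ≡ i` and `Ω (N - n) ≡ j` modulo `2` and all prime factors of `n` and of
`N - n` are `> w` -/
def rreps' (w N i j : ℕ) : Finset ℕ :=
  (Finset.Ioo 0 N).filter fun n => n ≠ N - n ∧
    ArithmeticFunction.cardFactors n % 2 = i ∧ ArithmeticFunction.cardFactors (N - n) % 2 = j ∧
    ∀ p ∈ (n * (N - n)).primeFactors, w < p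

theorem pa7_lam (n i : ℕ) (hi : i < 2) :
    ArithmeticFunction.cardFactors n % 2 = i ↔ lam n = (-1 : ℝ) ^ i := by
  unfold Pool.Agent.Lib.MP_45349e_nt.LS.lam
  rw [neg_one_pow_eq_pow_mod_two]
  have h : ArithmeticFunction.cardFactors n % 2 < 2 := Nat.mod_lt _ (by norm_num)
  interval_cases i <;> interval_cases hm : ArithmeticFunction.cardFactors n % 2 <;> norm_num

theorem pa7_card (w N i j : ℕ) (hi : i < 2) (hj : j < 2) :
    (reps w N ((-1 : ℝ) ^ i) ((-1 : ℝ) ^ j)).card ≤ (rreps' w N i j).card + 1 := by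
  classical
  have h : reps w N ((-1 : ℝ) ^ i) ((-1 : ℝ) ^ j) ⊆ insert (N / 2) (rreps' w N i j) := by
    intro a ha
    unfold reps at ha
    simp only [Finset.mem_filter, Finset.mem_Ico] at ha
    obtain ⟨⟨h1, h2⟩, h3, h4, h5⟩ := ha
    rw [Finset.mem_insert]
    by_cases h6 : a = N - a
    · left
      omega
    · right
      unfold rreps'
      simp only [Finset.mem_filter, Finset.mem_Ioo]
      rw [pa7_lam a i hi, pa7_lam (N - a) j hj]
      exact ⟨⟨h1, h2⟩, h6, h3, h4, fun p hp => h5 p (Nat.prime_of_mem_primeFactors hp) (Nat.dvd_of_mem_primeFactors hp)⟩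
  exact (Finset.card_le_card h).trans (Finset.card_insert_le _ _)

theorem pa7_cardc (q N a i j : ℕ) (hi : i < 2) (hj : j < 2) :
    (repq q N a ((-1 : ℝ) ^ i) ((-1 : ℝ) ^ j)).card ≤ (creps q N a i j).card + 1 := by
  classical
  have h : repq q N a ((-1 : ℝ) ^ i) ((-1 : ℝ) ^ j) ⊆ insert (N / 2) (creps q N a i j) := by
    intro n hn
    unfold repq at hn
    simp only [Finset.mem_filter, Finset.mem_Ico] at hn
    obtain ⟨⟨h1, h2⟩, h3, h4, h5⟩ := hn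
    rw [Finset.mem_insert]
    by_cases h6 : n = N - n
    · left
      omega
    · right
      unfold creps
      simp only [Finset.mem_filter, Finset.mem_Ioo]
      rw [pa7_lam n i hi, pa7_lam (N - n) j hj]
      exact ⟨⟨h1, h2⟩, h6, h3, h4, h5⟩
  exact (Finset.card_le_card h).trans (Finset.card_insert_le _ _)

private theorem pa7_pow (ε : ℝ) (hε : 0 < ε) : ∃ N₃ : ℕ, ∀ p : ℕ, N₃ ≤ p → ∀ r x : ℕ, 0 < p →
    (p : ℝ) ^ (1 - ε / 2) ≤ (x : ℝ) → x ≤ r + 1 → 1 ≤ r → (p : ℝ) ^ (1 - ε) ≤ (r : ℝ) := by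
  obtain ⟨N₃, h₃⟩ : ∃ N₃ : ℕ, ∀ p : ℕ, N₃ ≤ p → (2 : ℝ) ≤ (p : ℝ) ^ (ε / 2) := by
    have h := (tendsto_rpow_atTop (half_pos hε)).comp
      (tendsto_natCast_atTop_atTop (R := ℝ))
    obtain ⟨N₃, h₃⟩ := Filter.eventually_atTop.mp (h.eventually_ge_atTop 2)
    exact ⟨N₃, h₃⟩
  refine ⟨N₃, ?_⟩
  intro p hp r x hp0' hb hc hr
  have hp1 : (1 : ℝ) ≤ p := by exact_mod_cast hp0'
  have hp0 : (0 : ℝ) < p := by linarith
  have he : (p : ℝ) ^ (1 - ε / 2) = (p : ℝ) ^ (1 - ε) * (p : ℝ) ^ (ε / 2) := by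
    rw [← Real.rpow_add hp0]
    congr 1
    ring
  have h4 := h₃ p hp
  have hc' : (x : ℝ) ≤ (r : ℝ) + 1 := by exact_mod_cast hc
  have hx : 0 < (p : ℝ) ^ (1 - ε) := Real.rpow_pos_of_pos hp0 _
  have h7 : (1 : ℝ) ≤ (r : ℝ) := by exact_mod_cast hr
  rcases le_or_gt 1 ((p : ℝ) ^ (1 - ε)) with h5 | h5
  · rw [he] at hb
    nlinarith
  · linarith

theorem core_of (h : PropC) : ∀ W : ℕ, 1 ≤ W → ∀ ε : ℝ, 0 < ε → ∃ N0 : ℕ, ∀ N : ℕ, N0 ≤ N → ∀ a : ℕ, Cfg W N a →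
    ∀ s t : ℝ, (s = 1 ∨ s = -1) → (t = 1 ∨ t = -1) → (N : ℝ) ^ (1 - ε) ≤ ((repW W N s t).card : ℝ) := by
  intro W hW ε hε
  obtain ⟨N0, hN0⟩ := h W hW ε hε
  refine ⟨max N0 2, ?_⟩
  intro N hN a hc s t hs ht
  have hN2 : 2 ≤ N := (le_max_right _ _).trans hN
  refine (hN0 N ((le_max_left _ _).trans hN) a hc s t hs ht).trans ?_
  have hsub : repC W N a s t ⊆ repW W N s t := by
    intro n hn
    unfold repC Dom at hn
    unfold repW
    simp only [Finset.mem_filter, Finset.mem_range] at hn ⊢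
    obtain ⟨⟨h1, h2, h3⟩, h4, h5⟩ := hn
    have h0 : 0 < n := by
      rcases Nat.eq_zero_or_pos n with h0 | h0
      · rw [h0, Nat.coprime_zero_left] at h3; omega
      · exact h0
    have haN : a ≤ N := (hc.alt.le).trans hc.WN
    refine ⟨h1, h0, ?_, ?_, h4, h5⟩
    · rw [Nat.coprime_iff_gcd_eq_one, h2.gcd_eq]
      exact hc.aW
    · have h6 : N - n ≡ N - a [MOD W] := by
        have h7 : N - n + n ≡ N - a + a [MOD W] := by
          rw [Nat.sub_add_cancel h1.le, Nat.sub_add_cancel haN]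
        exact Nat.ModEq.add_right_cancel h2 h7
      rw [Nat.coprime_iff_gcd_eq_one, h6.gcd_eq]
      exact hc.naW
  exact_mod_cast Finset.card_le_card hsub

theorem final_ofC (h : PropC) :
    (∀ q : ℕ, 1 ≤ q → ∀ ε : ℝ, 0 < ε → ∀ R : ℕ, ∃ N₀ : ℕ, ∀ N : ℕ, N₀ ≤ N → ∀ a b : ℕ, a.Coprime q → b.Coprime q →
      a + b ≡ N [MOD q] → ∀ i j : ℕ, i < 2 → j < 2 →
      R ≤ (creps q N a i j).card ∧
      ∀ p : ℕ, p.Prime → N₀ ≤ p → p ∣ N → (p : ℝ) ^ (1 - ε) ≤ ((creps q N a i j).card : ℝ)) ∧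
    (∀ w : ℕ, ∀ ε : ℝ, 0 < ε → ∀ R : ℕ, ∃ N₀ : ℕ, ∀ N : ℕ, N₀ ≤ N → Even N → ∀ i j : ℕ, i < 2 → j < 2 →
      R ≤ (rreps' w N i j).card ∧
      ∀ p : ℕ, p.Prime → N₀ ≤ p → p ∣ N → (p : ℝ) ^ (1 - ε) ≤ ((rreps' w N i j).card : ℝ)) := by
  have hpm : ∀ i : ℕ, (-1 : ℝ) ^ i = 1 ∨ (-1 : ℝ) ^ i = -1 := fun i => neg_one_pow_eq_or ℝ i
  constructor
  · intro q hq ε hε R
    obtain ⟨N₃, h₃⟩ := pa7_pow ε hε
    obtain ⟨N₄, h₄⟩ := reductionC h q hq (R + 2) (ε / 2) (by linarith)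
    refine ⟨max (max N₃ N₄) q, fun N hN a b ha hb hab i j hi hj => ?_⟩
    have hN₄ : N₄ ≤ N := (le_max_right _ _).trans ((le_max_left _ _).trans hN)
    have hNq : q ≤ N := (le_max_right _ _).trans hN
    have h1 : a % q ≡ a [MOD q] := Nat.mod_modEq _ _
    have h2 : a % q < q := Nat.mod_lt _ hq
    have h3 : (a % q).Coprime q := by
      rw [Nat.coprime_iff_gcd_eq_one, h1.gcd_eq]; exact ha
    have h4 : N - a % q ≡ b [MOD q] := by
      have h5 : N - a % q + a % q ≡ b + a % q [MOD q] := by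
        rw [Nat.sub_add_cancel (by omega)]
        refine (hab.symm).trans ?_
        rw [add_comm]
        exact (h1.symm).add_left b
      exact Nat.ModEq.add_right_cancel (Nat.ModEq.refl _) h5
    have h5 : (N - a % q).Coprime q := by
      rw [Nat.coprime_iff_gcd_eq_one, h4.gcd_eq]; exact hb
    have hcr : creps q N (a % q) i j = creps q N a i j := by
      unfold creps
      rw [Nat.mod_mod]
    have hc := pa7_cardc q N (a % q) i j hi hj
    rw [hcr] at hc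
    obtain ⟨hA, hB⟩ := h₄ N hN₄ (a % q) h2 h3 h5 _ _ (hpm i) (hpm j)
    refine ⟨by omega, fun p hp hpN hdv => ?_⟩
    have hp4 : N₄ ≤ p := (le_max_right _ _).trans ((le_max_left _ _).trans hpN)
    have hp3 : N₃ ≤ p := (le_max_left _ _).trans ((le_max_left _ _).trans hpN)
    exact h₃ p hp3 _ _ hp.pos (hB p hp hdv hp4) hc (by omega)
  · intro w ε hε R
    obtain ⟨N₃, h₃⟩ := pa7_pow ε hε
    obtain ⟨N₄, h₄⟩ := reduction (propA_of (core_of h)) w (R + 2) (ε / 2) (by linarith)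
    refine ⟨max N₃ N₄, fun N hN hev i j hi hj => ?_⟩
    have hN₄ : N₄ ≤ N := (le_max_right _ _).trans hN
    have hc := pa7_card w N i j hi hj
    obtain ⟨ha, hb⟩ := h₄ N hN₄ hev _ _ (hpm i) (hpm j)
    refine ⟨by omega, fun p hp hpN hdv => ?_⟩
    have hp4 : N₄ ≤ p := (le_max_right _ _).trans hpN
    have hp3 : N₃ ≤ p := (le_max_left _ _).trans hpN
    exact h₃ p hp3 _ _ hp.pos (hb p hp hdv hp4) hc (by omega)

end Pool.Agent.Lib.OW
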