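import Pool.Agent.Lib.MP_7b7e48_nt.OW.SPSum

/-!
# Part SP: sums over the moves to the hub, second part
-/

open Finset
open Pool.Agent.Lib.RG (Rough RN bch PB)

namespace Pool.Agent.Lib.OWS

open Classical in
/-- the hub range for `k` -/
noncomputable def KR (q z B y j : ℕ) (δ : ℝ) : Finset ℕ :=
  (RN q z B).filter fun n => δ * y / (4 * 2 ^ j) < n ∧ (n : ℝ) ≤ y / 2 ^ j

open Classical in
/-- number of the rough divisors -/
noncomputable def rdv (z n : ℕ) : ℕ := (n.divisors.filter fun d => Rough z d).card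

theorem BB_mem {W q z j b : ℕ} (hb : b ∈ BB W q z j) : 1 ≤ b ∧ b ≤ 2 ^ (j + 1) ∧ 2 ^ j < b ∧
    b % W = 1 % W ∧ Rough z b ∧ b.Coprime q := by
  unfold BB at hb
  rw [mem_filter, mem_RN'] at hb
  exact ⟨hb.1.1.1, hb.1.1.2, hb.2.1, hb.2.2, hb.1.2.1, hb.1.2.2⟩

theorem MM_mem {W q z m b k : ℕ} (hk : k ∈ MM W q z m b) (hb : 1 ≤ b) : 1 ≤ k ∧ b * k ≤ m ∧
    m < 2 * (b * k) ∧ k % W = m % W ∧ Rough z k ∧ k.Coprime q := by
  unfold MM at hk
  rw [mem_filter, mem_RN'] at hk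
  refine ⟨hk.1.1.1, ?_, hk.2.1, hk.2.2, hk.1.2.1, hk.1.2.2⟩
  have h4 := (Nat.le_div_iff_mul_le hb).mp hk.1.1.2
  rwa [mul_comm] at h4

theorem As_mem {q z y : ℕ} {δ : ℝ} {m A : ℕ} (hA : A ∈ As q z y δ m) (hm : 1 ≤ m) : 1 ≤ A ∧ A * m ≤ y ∧
    δ * y < A * m ∧ Rough z A ∧ A.Coprime q := by
  unfold As at hA
  rw [mem_filter, mem_RN'] at hA
  exact ⟨hA.1.1.1, (Nat.le_div_iff_mul_le hm).mp hA.1.1.2, hA.2, hA.1.2.1, hA.1.2.2⟩

theorem Ms_mem {q z B : ℕ} {lo : ℝ} {m : ℕ} (hm : m ∈ Ms q z B lo) : 1 ≤ m ∧ m ≤ B ∧ lo < m ∧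
    Rough z m ∧ m.Coprime q := by
  unfold Ms at hm
  rw [mem_filter, mem_RN'] at hm
  exact ⟨hm.1.1.1, hm.1.1.2, hm.2, hm.1.2.1, hm.1.2.2⟩

/-- products `A k` in the hub range -/
theorem Ak_mem {W q z B y j : ℕ} {δ lo : ℝ} (_hδ : 0 < δ) (hyB : y ≤ B * 2 ^ j) {m A b k : ℕ}
    (hm : m ∈ Ms q z B lo) (hA : A ∈ As q z y δ m) (hb : b ∈ BB W q z j) (hk : k ∈ MM W q z m b) :
    A * k ∈ KR q z B y j δ := by
  obtain ⟨hm1, _, _, _, _⟩ := Ms_mem hm
  obtain ⟨hA1, hA2, hA3, hA4, hA5⟩ := As_mem hA hm1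
  obtain ⟨hb1, hb2, hb3, _, _, _⟩ := BB_mem hb
  obtain ⟨hk1, hk2, hk3, _, hk5, hk6⟩ := MM_mem hk hb1
  have hb2' : (b : ℝ) ≤ 2 ^ (j + 1) := by exact_mod_cast hb2
  have hb3' : (2 : ℝ) ^ j < b := by exact_mod_cast hb3
  have hAR : (0 : ℝ) < A := by exact_mod_cast hA1
  have hkR : (0 : ℝ) < k := by exact_mod_cast hk1
  have hk2' : (b : ℝ) * k ≤ m := by exact_mod_cast hk2
  have hk3' : (m : ℝ) < 2 * (b * k) := by exact_mod_cast hk3
  have hA2' : (A : ℝ) * m ≤ y := by exact_mod_cast hA2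
  have hj : (0 : ℝ) < 2 ^ j := by positivity
  have u1 : ((A * k : ℕ) : ℝ) ≤ y / 2 ^ j := by
    rw [le_div_iff₀ hj]
    push_cast
    calc (A : ℝ) * k * 2 ^ j ≤ A * k * b := by
          exact mul_le_mul_of_nonneg_left hb3'.le (by positivity)
      _ = A * (b * k) := by ring
      _ ≤ A * m := mul_le_mul_of_nonneg_left hk2' hAR.le
      _ ≤ y := hA2'
  unfold KR
  rw [mem_filter, mem_RN']
  refine ⟨⟨⟨Nat.mul_pos hA1 hk1, ?_⟩, Rough_mul hA4 hk5, Nat.Coprime.mul_left hA5 hk6⟩, ?_, u1⟩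
  · have h1 : ((A * k : ℕ) : ℝ) ≤ B := by
      refine u1.trans ?_
      rw [div_le_iff₀ hj]
      exact_mod_cast hyB
    exact_mod_cast h1
  · rw [div_lt_iff₀ (by positivity)]
    push_cast
    calc δ * y < A * m := hA3
      _ ≤ A * (2 * (b * k)) := mul_le_mul_of_nonneg_left hk3'.le hAR.le
      _ ≤ A * (2 * (2 ^ (j + 1) * k)) := by
          refine mul_le_mul_of_nonneg_left ?_ hAR.le
          refine mul_le_mul_of_nonneg_left ?_ (by norm_num)
          exact mul_le_mul_of_nonneg_right hb2' hkR.le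
      _ = A * k * (4 * 2 ^ j) := by rw [pow_succ]; ring

theorem pair_le (q z B y j R : ℕ) (δ : ℝ) (e : ℕ → ℝ) (e0 : ∀ n, 0 ≤ e n) (V : Finset ℕ)
    (hV : ∀ A ∈ V, 1 ≤ A ∧ Rough z A)
    (hR : ∀ n ∈ RN q z B, (rdv z n : ℝ) ≤ R) :
    ∑ x ∈ (V ×ˢ V).filter (fun x => x.1 * x.2 ∈ KR q z B y j δ), e (x.1 * x.2) ≤
      R * ∑ n ∈ KR q z B y j δ, e n := by
  classical
  have hmaps : ∀ x ∈ (V ×ˢ V).filter (fun x => x.1 * x.2 ∈ KR q z B y j δ),
      x.1 * x.2 ∈ KR q z B y j δ := fun x hx => (mem_filter.mp hx).2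
  rw [← sum_fiberwise_of_maps_to hmaps, mul_sum]
  refine sum_le_sum fun n hn => ?_
  have hnR : n ∈ RN q z B := by
    unfold KR at hn
    exact (mem_filter.mp hn).1
  have h1 : ∀ x ∈ ((V ×ˢ V).filter (fun x => x.1 * x.2 ∈ KR q z B y j δ)).filter
      (fun x => x.1 * x.2 = n), e (x.1 * x.2) = e n := by
    intro x hx
    rw [mem_filter] at hx
    rw [hx.2]
  rw [sum_congr rfl h1, sum_const, nsmul_eq_mul]
  refine mul_le_mul_of_nonneg_right ?_ (e0 n)
  refine le_trans ?_ (hR n hnR)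
  have hn1 : 1 ≤ n := (mem_RN'.mp hnR).1.1
  have : (((V ×ˢ V).filter (fun x => x.1 * x.2 ∈ KR q z B y j δ)).filter
      (fun x => x.1 * x.2 = n)).card ≤ rdv z n := by
    unfold rdv
    refine card_le_card_of_injOn (fun x => x.1) ?_ ?_
    · intro x hx
      rw [mem_coe, mem_filter, mem_filter, mem_product] at hx
      rw [mem_coe, mem_filter, Nat.mem_divisors]
      exact ⟨⟨⟨x.2, hx.2.symm⟩, by omega⟩, (hV _ hx.1.1.1).2⟩
    · intro x hx x' hx' h
      rw [mem_coe, mem_filter, mem_filter, mem_product] at hx hx'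
      obtain ⟨b, k⟩ := x
      obtain ⟨b', k'⟩ := x'
      simp only at h hx hx'
      subst h
      have : b * k = b * k' := hx.2.trans hx'.2.symm
      have := Nat.eq_of_mul_eq_mul_left (hV _ hx.1.1.1).1 this
      subst this
      rfl
  exact_mod_cast this

theorem P4 (W q z B y j R : ℕ) (e : ℕ → ℝ) (C cW δ lo L : ℝ) (hL : 0 < L)
    (hU : ∀ Y : ℕ, z ≤ Y → ((RN q z Y).card : ℝ) ≤ C * (Y / L)) (e0 : ∀ n, 0 ≤ e n) (hC : 0 ≤ C)
    (hcW : 0 < cW) (hδ : 0 < δ) (hyB : y ≤ B * 2 ^ j) (hzj : z ≤ 2 ^ j)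
    (hBB : 0 < (BB W q z j).card)
    (hM : ∀ m ∈ Ms q z B lo, ∀ b ∈ BB W q z j, cW * (((m : ℝ) / b) / L) ≤ (MM W q z m b).card)
    (hR : ∀ n ∈ RN q z B, (rdv z n : ℝ) ≤ R) :
    ∑ m ∈ Ms q z B lo, ∑ A ∈ As q z y δ m, (1 / ((BB W q z j).card : ℝ)) *
      ∑ b ∈ BB W q z j, (1 / ((MM W q z m b).card : ℝ)) * ∑ k ∈ MM W q z m b, e (A * k) ≤
      4 * C * R / cW * y * ∑ n ∈ KR q z B y j δ, e n / n := by
  classical
  have hy0 : (0 : ℝ) ≤ y := Nat.cast_nonneg _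
  have hBpos : 0 < ((BB W q z j).card : ℝ) := by exact_mod_cast hBB
  obtain ⟨V, hVdef⟩ : ∃ V : Finset ℕ, V = RN q z y := ⟨_, rfl⟩
  have hV : ∀ A ∈ V, 1 ≤ A ∧ Rough z A := by
    intro A hA
    rw [hVdef, mem_RN'] at hA
    exact ⟨hA.1.1, hA.2.1⟩
  -- for one `b`
  have s1 : ∀ b ∈ BB W q z j, ∑ m ∈ Ms q z B lo, ∑ A ∈ As q z y δ m, (1 / ((MM W q z m b).card : ℝ)) *
      ∑ k ∈ MM W q z m b, e (A * k) ≤ (4 * C * 2 ^ j / cW) * (R * ∑ n ∈ KR q z B y j δ, e n) := by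
    intro b hb
    obtain ⟨hb1, hb2, hb3, _, _, _⟩ := BB_mem hb
    have hbR : (0 : ℝ) < b := by exact_mod_cast hb1
    have hbR2 : (b : ℝ) ≤ (2 : ℝ) ^ (j + 1) := by exact_mod_cast hb2
    have t1 : ∀ m ∈ Ms q z B lo, ∑ A ∈ As q z y δ m, (1 / ((MM W q z m b).card : ℝ)) *
        ∑ k ∈ MM W q z m b, e (A * k) ≤
        ∑ x ∈ (As q z y δ m) ×ˢ (MM W q z m b), (L * b / (cW * m)) * e (x.1 * x.2) := by
      intro m hm
      obtain ⟨hm1, _, _, _, _⟩ := Ms_mem hm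
      have hmR : (0 : ℝ) < m := by exact_mod_cast hm1
      rw [sum_product]
      refine sum_le_sum fun A _ => ?_
      rw [← mul_sum]
      refine mul_le_mul_of_nonneg_right ?_ (sum_nonneg fun k _ => e0 _)
      have h1 := hM m hm b hb
      have h2 : 0 < cW * (((m : ℝ) / b) / L) := by positivity
      calc 1 / ((MM W q z m b).card : ℝ) ≤ 1 / (cW * (((m : ℝ) / b) / L)) :=
            one_div_le_one_div_of_le h2 h1
        _ = L * b / (cW * m) := by field_simp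
    refine (sum_le_sum t1).trans ?_
    have hsw : ∑ m ∈ Ms q z B lo, ∑ x ∈ (As q z y δ m) ×ˢ (MM W q z m b),
        (L * b / (cW * m)) * e (x.1 * x.2) =
        ∑ x ∈ (V ×ˢ V).filter (fun x => x.1 * x.2 ∈ KR q z B y j δ),
          ∑ m ∈ (Ms q z B lo).filter (fun m => x ∈ (As q z y δ m) ×ˢ (MM W q z m b)),
          (L * b / (cW * m)) * e (x.1 * x.2) := by
      refine sum_comm' ?_
      intro m x
      constructor
      · rintro ⟨h1, h2⟩
        refine ⟨mem_filter.mpr ⟨h1, h2⟩, ?_⟩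
        rw [mem_product] at h2
        obtain ⟨hm1, hm2, _, _, _⟩ := Ms_mem h1
        obtain ⟨hA1, hA2, _, hA4, hA5⟩ := As_mem h2.1 hm1
        obtain ⟨hk1, hk2, _, _, hk5, hk6⟩ := MM_mem h2.2 hb1
        rw [mem_filter, mem_product, hVdef, mem_RN', mem_RN']
        refine ⟨⟨⟨⟨hA1, ?_⟩, hA4, hA5⟩, ⟨hk1, ?_⟩, hk5, hk6⟩, Ak_mem hδ hyB h1 h2.1 hb h2.2⟩
        · exact le_trans (Nat.le_mul_of_pos_right _ hm1) hA2
        · calc x.2 ≤ b * x.2 := Nat.le_mul_of_pos_left _ hb1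
            _ ≤ m := hk2
            _ ≤ x.1 * m := Nat.le_mul_of_pos_left _ hA1
            _ ≤ y := hA2
      · rintro ⟨h1, _⟩
        rw [mem_filter] at h1
        exact h1
    rw [hsw]
    have t2 : ∀ x ∈ (V ×ˢ V).filter (fun x => x.1 * x.2 ∈ KR q z B y j δ),
        ∑ m ∈ (Ms q z B lo).filter (fun m => x ∈ (As q z y δ m) ×ˢ (MM W q z m b)),
          (L * b / (cW * m)) * e (x.1 * x.2) ≤ (4 * C * 2 ^ j / cW) * e (x.1 * x.2) := by
      intro x hx
      rw [mem_filter, mem_product] at hx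
      obtain ⟨A, k⟩ := x
      simp only at hx ⊢
      have hk1 : 1 ≤ k := (hV k hx.1.2).1
      have hkR : (0 : ℝ) < k := by exact_mod_cast hk1
      have hz2 : z ≤ 2 * (b * k) := by
        have : b ≤ b * k := Nat.le_mul_of_pos_right b hk1
        omega
      have hc : (((Ms q z B lo).filter (fun m => (A, k) ∈ (As q z y δ m) ×ˢ (MM W q z m b))).card : ℝ) ≤
          C * ((2 * (b * k) : ℕ) / L) := by
        refine le_trans ?_ (hU (2 * (b * k)) hz2)
        have : (Ms q z B lo).filter (fun m => (A, k) ∈ (As q z y δ m) ×ˢ (MM W q z m b)) ⊆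
            RN q z (2 * (b * k)) := by
          intro m hm
          rw [mem_filter, mem_product] at hm
          obtain ⟨h1, _, h2⟩ := hm
          obtain ⟨hm1, _, _, hm4, hm5⟩ := Ms_mem h1
          obtain ⟨_, _, hk3, _, _, _⟩ := MM_mem h2 hb1
          rw [mem_RN']
          exact ⟨⟨hm1, hk3.le⟩, hm4, hm5⟩
        exact_mod_cast card_le_card this
      have ht : ∀ m ∈ (Ms q z B lo).filter (fun m => (A, k) ∈ (As q z y δ m) ×ˢ (MM W q z m b)),
          (L * b / (cW * m)) * e (A * k) ≤ (L / (cW * k)) * e (A * k) := by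
        intro m hm
        rw [mem_filter, mem_product] at hm
        obtain ⟨h1, _, h2⟩ := hm
        obtain ⟨hm1, _, _, _, _⟩ := Ms_mem h1
        obtain ⟨_, hk2, _, _, _, _⟩ := MM_mem h2 hb1
        have hmR : (0 : ℝ) < m := by exact_mod_cast hm1
        have hk2' : (b : ℝ) * k ≤ m := by exact_mod_cast hk2
        refine mul_le_mul_of_nonneg_right ?_ (e0 _)
        rw [div_le_div_iff₀ (by positivity) (by positivity)]
        calc L * b * (cW * k) = L * cW * (b * k) := by ring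
          _ ≤ L * cW * m := mul_le_mul_of_nonneg_left hk2' (by positivity)
          _ = L * (cW * m) := by ring
      calc ∑ m ∈ (Ms q z B lo).filter (fun m => (A, k) ∈ (As q z y δ m) ×ˢ (MM W q z m b)),
            (L * b / (cW * m)) * e (A * k) ≤
            ∑ _m ∈ (Ms q z B lo).filter (fun m => (A, k) ∈ (As q z y δ m) ×ˢ (MM W q z m b)),
              (L / (cW * k)) * e (A * k) := sum_le_sum ht
        _ = (((Ms q z B lo).filter (fun m => (A, k) ∈ (As q z y δ m) ×ˢ (MM W q z m b))).card : ℝ) *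
            ((L / (cW * k)) * e (A * k)) := by rw [sum_const, nsmul_eq_mul]
        _ ≤ (C * ((2 * (b * k) : ℕ) / L)) * ((L / (cW * k)) * e (A * k)) :=
            mul_le_mul_of_nonneg_right hc (mul_nonneg (by positivity) (e0 _))
        _ = (2 * C * b / cW) * e (A * k) := by
            push_cast
            field_simp
        _ ≤ (4 * C * 2 ^ j / cW) * e (A * k) := by
            refine mul_le_mul_of_nonneg_right ?_ (e0 _)
            refine div_le_div_of_nonneg_right ?_ hcW.le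
            rw [pow_succ] at hbR2
            nlinarith
    refine (sum_le_sum t2).trans ?_
    rw [← mul_sum]
    exact mul_le_mul_of_nonneg_left (pair_le q z B y j R δ e e0 V hV hR) (by positivity)
  have s2 : ∑ m ∈ Ms q z B lo, ∑ A ∈ As q z y δ m, (1 / ((BB W q z j).card : ℝ)) *
      ∑ b ∈ BB W q z j, (1 / ((MM W q z m b).card : ℝ)) * ∑ k ∈ MM W q z m b, e (A * k) =
      (1 / ((BB W q z j).card : ℝ)) * ∑ b ∈ BB W q z j, ∑ m ∈ Ms q z B lo, ∑ A ∈ As q z y δ m,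
        (1 / ((MM W q z m b).card : ℝ)) * ∑ k ∈ MM W q z m b, e (A * k) := by
    rw [sum_comm, mul_sum]
    refine sum_congr rfl fun m _ => ?_
    rw [sum_comm, mul_sum]
  rw [s2]
  have s3 := sum_le_sum s1
  rw [sum_const, nsmul_eq_mul] at s3
  have s4 : ∑ n ∈ KR q z B y j δ, e n ≤ (y / 2 ^ j) * ∑ n ∈ KR q z B y j δ, e n / n := by
    rw [mul_sum]
    refine sum_le_sum fun n hn => ?_
    unfold KR at hn
    rw [mem_filter, mem_RN'] at hn
    have hn0 : (0 : ℝ) < n := by exact_mod_cast hn.1.1.1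
    calc e n = n * (e n / n) := by field_simp
      _ ≤ (y / 2 ^ j) * (e n / n) := mul_le_mul_of_nonneg_right hn.2.2 (div_nonneg (e0 n) hn0.le)
  have hR0 : (0 : ℝ) ≤ R := Nat.cast_nonneg _
  calc (1 / ((BB W q z j).card : ℝ)) * _ ≤ (1 / ((BB W q z j).card : ℝ)) *
        (((BB W q z j).card : ℝ) * ((4 * C * 2 ^ j / cW) * (R * ∑ n ∈ KR q z B y j δ, e n))) :=
        mul_le_mul_of_nonneg_left s3 (by positivity)
    _ = (4 * C * 2 ^ j / cW) * (R * ∑ n ∈ KR q z B y j δ, e n) := by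
        field_simp
    _ ≤ (4 * C * 2 ^ j / cW) * (R * ((y / 2 ^ j) * ∑ n ∈ KR q z B y j δ, e n / n)) := by
        refine mul_le_mul_of_nonneg_left ?_ (by positivity)
        exact mul_le_mul_of_nonneg_left s4 hR0
    _ = _ := by
        field_simp

end Pool.Agent.Lib.OWS
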