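import Mathlib
import Pool.Agent.Lib.MP_7b7e48_nt.OW.SPSum2

/-!
# Part SP2: the sign on the scales
-/

set_option autoImplicit false

open Finset
open Pool.Agent.Lib.RG (Rough RN bch PB)

namespace Pool.Agent.Lib.OWS

/-- the data for one real character -/
structure SD (W q z B : ℕ) (E w0 : ℝ) (ψ : ZMod W → ℂ) (g : ℕ → ℂ) (e : ℕ → ℝ) : Prop where
  wp : 0 < w0
  mul : ∀ m n : ℕ, 1 ≤ m → 1 ≤ n → g (m * n) = g m * g n
  nrm : ∀ n : ℕ, 1 ≤ n → n.Coprime q → ‖g n‖ = 1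
  one : ψ 1 = 1
  sq : ∀ n : ℕ, 1 ≤ n → n.Coprime q → g n ^ 2 = ψ (n : ZMod W)
  two : ∀ A ∈ RN q z B, ∀ A' ∈ RN q z B, A % W = A' % W →
    w0 * ‖g A - g A'‖ ^ 2 ≤ ((A : ℝ) / A' + (A' : ℝ) / A) * (e A + e A')
  e0 : ∀ n, 0 ≤ e n
  mass : ∑ A ∈ RN q z B, e A / A ≤ E

open Classical in
/-- the cell of the class `u` on the scale `i` -/
noncomputable def cell (W q z B : ℕ) (u : ZMod W) (i : ℕ) : Finset ℕ :=
  (RN q z B).filter fun n => (n : ZMod W) = u ∧ Nat.log 4 n = i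

open Classical in
/-- the best element of the cell -/
noncomputable def rep (W q z B : ℕ) (e : ℕ → ℝ) (u : ZMod W) (i : ℕ) : ℕ :=
  if h : (cell W q z B u i).Nonempty then (exists_min_image _ e h).choose else 1

/-- the sign of the cell -/
noncomputable def gam (W q z B : ℕ) (g : ℕ → ℂ) (e : ℕ → ℝ) (u : ZMod W) (i : ℕ) : ℂ := g (rep W q z B e u i)

open Classical in
/-- the exceptional numbers -/
noncomputable def BD (W q z B : ℕ) (g : ℕ → ℂ) (e : ℕ → ℝ) : Finset ℕ :=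
  (RN q z B).filter fun n => g n ≠ gam W q z B g e (n : ZMod W) (Nat.log 4 n)

section
variable {W q z B : ℕ} {E w0 : ℝ} {ψ : ZMod W → ℂ} {g : ℕ → ℂ} {e : ℕ → ℝ}

theorem mem_cell {u : ZMod W} {i n : ℕ} : n ∈ cell W q z B u i ↔ n ∈ RN q z B ∧ (n : ZMod W) = u ∧
    Nat.log 4 n = i := by
  unfold cell
  rw [mem_filter]

theorem rep_mem {u : ZMod W} {i : ℕ} (h : (cell W q z B u i).Nonempty) :
    rep W q z B e u i ∈ cell W q z B u i ∧ ∀ n ∈ cell W q z B u i, e (rep W q z B e u i) ≤ e n := by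
  unfold rep
  rw [dif_pos h]
  exact (exists_min_image _ e h).choose_spec

theorem rep_ok (u : ZMod W) (i : ℕ) : 1 ≤ rep W q z B e u i ∧ (rep W q z B e u i).Coprime q := by
  by_cases h : (cell W q z B u i).Nonempty
  · have h1 := (rep_mem (e := e) h).1
    rw [mem_cell, mem_RN'] at h1
    exact ⟨h1.1.1.1, h1.1.2.2⟩
  · unfold rep
    rw [dif_neg h]
    exact ⟨le_rfl, Nat.coprime_one_left q⟩

theorem gam_ne (h : SD W q z B E w0 ψ g e) (u : ZMod W) (i : ℕ) : gam W q z B g e u i ≠ 0 := by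
  unfold gam
  obtain ⟨h1, h2⟩ := rep_ok (W := W) (q := q) (z := z) (B := B) (e := e) u i
  have h3 := h.nrm _ h1 h2
  intro h0
  rw [h0, norm_zero] at h3
  exact zero_ne_one h3

theorem g_one (h : SD W q z B E w0 ψ g e) : g 1 = 1 := by
  have h1 := h.mul 1 1 le_rfl le_rfl
  rw [one_mul] at h1
  have h2 := h.nrm 1 le_rfl (Nat.coprime_one_left q)
  have h3 : g 1 ≠ 0 := by
    intro h0
    rw [h0, norm_zero] at h2
    exact zero_ne_one h2
  have h4 : g 1 * 1 = g 1 * g 1 := by rw [mul_one]; exact h1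
  exact (mul_left_cancel₀ h3 h4).symm

theorem gam_one (h : SD W q z B E w0 ψ g e) (i : ℕ) : gam W q z B g e 1 i = 1 ∨ gam W q z B g e 1 i = -1 := by
  unfold gam
  by_cases hn : (cell W q z B (1 : ZMod W) i).Nonempty
  · have h1 := (rep_mem (e := e) hn).1
    rw [mem_cell, mem_RN'] at h1
    have h2 := h.sq _ h1.1.1.1 h1.1.2.2
    rw [h1.2.1, h.one] at h2
    exact sq_eq_sq_iff_eq_or_eq_neg.mp (h2.trans (one_pow 2).symm)
  · unfold rep
    rw [dif_neg hn]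
    left
    exact g_one h

theorem BD_sub : BD W q z B g e ⊆ RN q z B := by
  classical
  unfold BD
  exact filter_subset _ _

theorem log_ratio {m n i : ℕ} (_hm : 1 ≤ m) (hn : 1 ≤ n) (h1 : Nat.log 4 m = i) (h2 : Nat.log 4 n = i) :
    (m : ℝ) / n ≤ 4 := by
  have e1 : m < 4 ^ (i + 1) := by rw [← h1]; exact Nat.lt_pow_succ_log_self (by norm_num) m
  have e2 : 4 ^ i ≤ n := by rw [← h2]; exact Nat.pow_log_le_self 4 (by omega)
  have hn' : (0 : ℝ) < n := by exact_mod_cast hn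
  rw [div_le_iff₀ hn']
  have e3 : m ≤ 4 * n := by
    rw [pow_succ] at e1
    omega
  exact_mod_cast e3

theorem BD_e (h : SD W q z B E w0 ψ g e) {n : ℕ} (hn : n ∈ BD W q z B g e) : w0 ≤ 4 * e n := by
  classical
  unfold BD at hn
  rw [mem_filter] at hn
  obtain ⟨h1, h2⟩ := hn
  have h3 : n ∈ cell W q z B (n : ZMod W) (Nat.log 4 n) := mem_cell.mpr ⟨h1, rfl, rfl⟩
  obtain ⟨r1, r2⟩ := rep_mem (e := e) ⟨n, h3⟩
  obtain ⟨r, hr⟩ : ∃ r : ℕ, r = rep W q z B e (n : ZMod W) (Nat.log 4 n) := ⟨_, rfl⟩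
  unfold gam at h2
  rw [← hr] at r1 r2 h2
  rw [mem_cell] at r1
  have r3 := r2 n h3
  have m1 := mem_RN'.mp h1
  have m2 := mem_RN'.mp r1.1
  have e1 := h.sq n m1.1.1 m1.2.2
  have e2 := h.sq r m2.1.1 m2.2.2
  rw [r1.2.1, ← e1] at e2
  have e3 : g n = -g r := by
    rcases sq_eq_sq_iff_eq_or_eq_neg.mp e2 with h' | h'
    · exact absurd h'.symm h2
    · rw [h', neg_neg]
  have e4 : ‖g n - g r‖ = 2 := by
    have : g n - g r = 2 * g n := by rw [e3]; ring
    rw [this, norm_mul, h.nrm n m1.1.1 m1.2.2]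
    norm_num
  have hmod : n % W = r % W := by
    have := r1.2.1
    rw [ZMod.natCast_eq_natCast_iff'] at this
    exact this.symm
  have e5 := h.two n h1 r r1.1 hmod
  rw [e4] at e5
  have e6 := log_ratio m1.1.1 m2.1.1 rfl r1.2.2
  have e7 := log_ratio m2.1.1 m1.1.1 r1.2.2 rfl
  have e8 := h.e0 n
  have e9 := h.e0 r
  have e10 : ((n : ℝ) / r + (r : ℝ) / n) * (e n + e r) ≤ 8 * (2 * e n) := by
    refine mul_le_mul (by linarith) (by linarith) (by linarith) (by norm_num)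
  linarith

theorem BD_mass (h : SD W q z B E w0 ψ g e) : ∑ n ∈ BD W q z B g e, 1 / (n : ℝ) ≤ 4 / w0 * E := by
  have hw := h.wp
  calc ∑ n ∈ BD W q z B g e, 1 / (n : ℝ) ≤ ∑ n ∈ BD W q z B g e, 4 / w0 * (e n / n) := by
        refine sum_le_sum fun n hn => ?_
        have h1 := BD_e h hn
        have h2 : 1 ≤ 4 / w0 * e n := by
          rw [div_mul_eq_mul_div, le_div_iff₀ hw]
          linarith
        calc 1 / (n : ℝ) ≤ (4 / w0 * e n) / n := div_le_div_of_nonneg_right h2 (Nat.cast_nonneg _)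
          _ = 4 / w0 * (e n / n) := by ring
    _ ≤ ∑ n ∈ RN q z B, 4 / w0 * (e n / n) := by
        refine sum_le_sum_of_subset_of_nonneg BD_sub fun n _ _ => ?_
        have := h.e0 n
        positivity
    _ = 4 / w0 * ∑ n ∈ RN q z B, e n / n := by rw [mul_sum]
    _ ≤ 4 / w0 * E := mul_le_mul_of_nonneg_left h.mass (by positivity)

open Classical in
/-- a pair is bad if one of the three numbers is exceptional -/
noncomputable def BP (W q z B : ℕ) (g : ℕ → ℂ) (e : ℕ → ℝ) : Finset (ℕ × ℕ) :=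
  (RN q z B ×ˢ RN q z B).filter fun p => p.1 ∈ BD W q z B g e ∨ p.2 ∈ BD W q z B g e ∨
    p.1 * p.2 ∈ BD W q z B g e

theorem sum_union_le' {α : Type} [DecidableEq α] (s t : Finset α) (f : α → ℝ) (hf : ∀ a, 0 ≤ f a) :
    ∑ a ∈ s ∪ t, f a ≤ ∑ a ∈ s, f a + ∑ a ∈ t, f a := by
  have h1 := sum_union_inter (s₁ := s) (s₂ := t) (f := f)
  have h2 : 0 ≤ ∑ a ∈ s ∩ t, f a := sum_nonneg fun a _ => hf a
  linarith

theorem BP_mass (h : SD W q z B E w0 ψ g e) {H R : ℝ} (hH : ∑ n ∈ RN q z B, 1 / (n : ℝ) ≤ H)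
    (hR0 : 0 ≤ R) (hR : ∀ n ∈ RN q z B, (rdv z n : ℝ) ≤ R) :
    ∑ p ∈ BP W q z B g e, 1 / ((p.1 : ℝ) * p.2) ≤ (2 * H + R) * (4 / w0 * E) := by
  classical
  obtain ⟨T, hT⟩ : ∃ T : ℝ, T = ∑ n ∈ BD W q z B g e, 1 / (n : ℝ) := ⟨_, rfl⟩
  have hT0 : 0 ≤ T := by rw [hT]; exact sum_nonneg fun _ _ => by positivity
  have hTE : T ≤ 4 / w0 * E := by rw [hT]; exact BD_mass h
  have hH0 : 0 ≤ ∑ n ∈ RN q z B, 1 / (n : ℝ) := sum_nonneg fun _ _ => by positivity
  have hsub : BP W q z B g e ⊆ ((BD W q z B g e) ×ˢ (RN q z B) ∪ (RN q z B) ×ˢ (BD W q z B g e)) ∪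
      ((RN q z B ×ˢ RN q z B).filter fun p => p.1 * p.2 ∈ BD W q z B g e) := by
    intro p hp
    unfold BP at hp
    rw [mem_filter, mem_product] at hp
    rw [mem_union, mem_union, mem_product, mem_product, mem_filter, mem_product]
    rcases hp.2 with h1 | h1 | h1
    · exact Or.inl (Or.inl ⟨h1, hp.1.2⟩)
    · exact Or.inl (Or.inr ⟨hp.1.1, h1⟩)
    · exact Or.inr ⟨hp.1, h1⟩
  have h1 : ∑ p ∈ (BD W q z B g e) ×ˢ (RN q z B), 1 / ((p.1 : ℝ) * p.2) ≤ T * H := by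
    have : ∑ p ∈ (BD W q z B g e) ×ˢ (RN q z B), 1 / ((p.1 : ℝ) * p.2) =
        T * ∑ n ∈ RN q z B, 1 / (n : ℝ) := by
      rw [hT, sum_mul_sum, ← sum_product']
      refine sum_congr rfl fun p _ => ?_
      rw [one_div_mul_one_div]
    rw [this]
    exact mul_le_mul_of_nonneg_left hH hT0
  have h2 : ∑ p ∈ (RN q z B) ×ˢ (BD W q z B g e), 1 / ((p.1 : ℝ) * p.2) ≤ H * T := by
    have : ∑ p ∈ (RN q z B) ×ˢ (BD W q z B g e), 1 / ((p.1 : ℝ) * p.2) =
        (∑ n ∈ RN q z B, 1 / (n : ℝ)) * T := by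
      rw [hT, sum_mul_sum, ← sum_product']
      refine sum_congr rfl fun p _ => ?_
      rw [one_div_mul_one_div]
    rw [this]
    exact mul_le_mul_of_nonneg_right hH hT0
  have h3 : ∑ p ∈ (RN q z B ×ˢ RN q z B).filter (fun p => p.1 * p.2 ∈ BD W q z B g e),
      1 / ((p.1 : ℝ) * p.2) ≤ R * T := by
    have hmaps : ∀ p ∈ (RN q z B ×ˢ RN q z B).filter (fun p => p.1 * p.2 ∈ BD W q z B g e),
        p.1 * p.2 ∈ BD W q z B g e := fun p hp => (mem_filter.mp hp).2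
    rw [← sum_fiberwise_of_maps_to hmaps, hT, mul_sum]
    refine sum_le_sum fun n hn => ?_
    have hn1 := BD_sub hn
    have hn2 := mem_RN'.mp hn1
    have e1 : ∀ p ∈ ((RN q z B ×ˢ RN q z B).filter (fun p => p.1 * p.2 ∈ BD W q z B g e)).filter
        (fun p => p.1 * p.2 = n), 1 / ((p.1 : ℝ) * p.2) = 1 / (n : ℝ) := by
      intro p hp
      rw [mem_filter] at hp
      rw [← hp.2]
      push_cast
      rfl
    rw [sum_congr rfl e1, sum_const, nsmul_eq_mul]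
    refine mul_le_mul_of_nonneg_right ?_ (by positivity)
    refine le_trans ?_ (hR n hn1)
    have : (((RN q z B ×ˢ RN q z B).filter (fun p => p.1 * p.2 ∈ BD W q z B g e)).filter
        (fun p => p.1 * p.2 = n)).card ≤ rdv z n := by
      unfold rdv
      refine card_le_card_of_injOn (fun p => p.1) ?_ ?_
      · intro p hp
        rw [mem_coe, mem_filter, mem_filter, mem_product] at hp
        rw [mem_coe, mem_filter, Nat.mem_divisors]
        exact ⟨⟨⟨p.2, hp.2.symm⟩, by omega⟩, (mem_RN'.mp hp.1.1.1).2.1⟩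
      · intro p hp p' hp' heq
        rw [mem_coe, mem_filter, mem_filter, mem_product] at hp hp'
        have heq' : p.1 = p'.1 := heq
        have h0 : 0 < p.1 := (mem_RN'.mp hp.1.1.1).1.1
        have e2 : p.1 * p.2 = p.1 * p'.2 := by
          rw [hp.2, ← hp'.2, heq']
        exact Prod.ext heq' (Nat.eq_of_mul_eq_mul_left h0 e2)
    exact_mod_cast this
  have h4 : ∑ p ∈ BP W q z B g e, 1 / ((p.1 : ℝ) * p.2) ≤ T * H + H * T + R * T := by
    refine (sum_le_sum_of_subset_of_nonneg hsub fun _ _ _ => by positivity).trans ?_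
    refine (sum_union_le' _ _ _ (fun _ => by positivity)).trans ?_
    refine add_le_add ((sum_union_le' _ _ _ (fun _ => by positivity)).trans (add_le_add h1 h2)) h3
  have hH1 : 0 ≤ H := hH0.trans hH
  calc ∑ p ∈ BP W q z B g e, 1 / ((p.1 : ℝ) * p.2) ≤ T * H + H * T + R * T := h4
    _ = (2 * H + R) * T := by ring
    _ ≤ (2 * H + R) * (4 / w0 * E) := mul_le_mul_of_nonneg_left hTE (by positivity)

end

end Pool.Agent.Lib.OWS
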