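import Mathlib
import Pool.Agent.Lib.MP_7b7e48_nt.OW.CN3
import Pool.Agent.Lib.MP_7b7e48_nt.OW.SPFin
import Pool.Agent.Lib.MP_7b7e48_nt.OW.SPR1
import Pool.Agent.Lib.MP_7b7e48_nt.OW.UUC

/-!
# Part SP2: the Liouville function
-/

set_option autoImplicit false

open Finset
open Pool.Agent.Lib.MP_45349e_nt.LS (lam lam_mul lam_prime)

namespace Pool.Agent.Lib.OWS

open Pool.Agent.Lib.RG (Rough RN bch PB)

section
variable {W N q : ℕ} [NeZero q] {a0 z : ℕ} {η M θ : ℝ} {F : ZMod q → ℝ} {G : ℕ → ℝ} {Q P0 : Finset ℕ}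

theorem ww_rel_eq (h : Hyp W N q a0 z η M θ F G Q P0) (hWq : W ∣ q) (ψ : DirichletCharacter ℂ W)
    (χ : DirichletCharacter ℂ q) : ww F (DirichletCharacter.changeLevel hWq ψ * χ) = ww F χ := by
  refine le_antisymm (ww_rel h hWq ψ χ) ?_
  have h1 := ww_rel h hWq ψ⁻¹ (DirichletCharacter.changeLevel hWq ψ * χ)
  have h2 : DirichletCharacter.changeLevel hWq ψ⁻¹ * (DirichletCharacter.changeLevel hWq ψ * χ) = χ := by
    rw [map_inv, ← mul_assoc, inv_mul_cancel, one_mul]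
  rwa [h2] at h1

theorem ww_inv (F : ZMod q → ℝ) (χ : DirichletCharacter ℂ q) : ww F χ⁻¹ = ww F χ := by
  unfold ww
  congr 3
  have h1 : bch (fun x => (F x : ℂ)) χ⁻¹ = (starRingEnd ℂ) (bch (fun x => (F x : ℂ)) χ) := by
    unfold bch
    rw [map_mul, map_sum, map_inv₀, Complex.conj_natCast]
    congr 1
    refine sum_congr rfl fun y _ => ?_
    rw [map_mul, Complex.conj_ofReal, Complex.conj_conj]
    congr 1
    have h2 := RG.chStar χ y
    rw [← h2, Complex.conj_conj]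
  rw [h1, RCLike.norm_conj]

theorem ww_tot (h : Hyp W N q a0 z η M θ F G Q P0) (X : Finset (DirichletCharacter ℂ q)) :
    ∑ χ ∈ X, ww F χ ≤ 1 := (Fam_gg h.th F h.F0 X).w1

open Classical in
/-- the character which carries a real function is real on the kernel -/
theorem rel_inv [NeZero W] (h : Hyp W N q a0 z η M θ F G Q P0) (hWq : W ∣ q) (χ : DirichletCharacter ℂ q)
    (hχ : 3 / 4 ≤ W.totient * ww F χ) :
    ∃ ψ : DirichletCharacter ℂ W, χ ^ 2 = DirichletCharacter.changeLevel hWq ψ := by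
  by_contra hcon
  push Not at hcon
  have hcard : (univ : Finset (DirichletCharacter ℂ W)).card = W.totient := by
    rw [card_univ, ← Nat.card_eq_fintype_card]
    exact DirichletCharacter.card_eq_totient_of_hasEnoughRootsOfUnity ℂ W
  have hinj := DirichletCharacter.changeLevel_injective (R := ℂ) hWq
  obtain ⟨co, hco⟩ : ∃ co : DirichletCharacter ℂ q → Finset (DirichletCharacter ℂ q), co = fun χ' =>
      (univ : Finset (DirichletCharacter ℂ W)).image fun ψ => DirichletCharacter.changeLevel hWq ψ * χ' :=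
    ⟨_, rfl⟩
  have hmass : ∀ χ' : DirichletCharacter ℂ q, ∑ χ'' ∈ co χ', ww F χ'' = W.totient * ww F χ' := by
    intro χ'
    rw [hco]
    simp only
    rw [sum_image]
    · rw [sum_congr rfl fun ψ _ => ww_rel_eq h hWq ψ χ', sum_const, hcard, nsmul_eq_mul]
    · intro ψ _ ψ' _ heq
      exact hinj (mul_right_cancel heq)
  have hdis : Disjoint (co χ) (co χ⁻¹) := by
    rw [disjoint_left]
    intro χ' h1 h2
    rw [hco] at h1 h2
    simp only [mem_image, mem_univ, true_and] at h1 h2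
    obtain ⟨ψ1, e1⟩ := h1
    obtain ⟨ψ2, e2⟩ := h2
    refine hcon (ψ2 * ψ1⁻¹) ?_
    rw [map_mul, map_inv, sq]
    rw [← e2] at e1
    have e3 : χ = (DirichletCharacter.changeLevel hWq ψ1)⁻¹ * (DirichletCharacter.changeLevel hWq ψ2 * χ⁻¹) := by
      rw [← e1, ← mul_assoc, inv_mul_cancel, one_mul]
    calc χ * χ = (DirichletCharacter.changeLevel hWq ψ1)⁻¹ * (DirichletCharacter.changeLevel hWq ψ2 * χ⁻¹) * χ := by
          rw [← e3]
      _ = DirichletCharacter.changeLevel hWq ψ2 * (DirichletCharacter.changeLevel hWq ψ1)⁻¹ * (χ⁻¹ * χ) := by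
          rw [mul_comm (DirichletCharacter.changeLevel hWq ψ2) (DirichletCharacter.changeLevel hWq ψ1)⁻¹]
          rw [mul_assoc, mul_assoc, mul_assoc]
      _ = _ := by rw [inv_mul_cancel, mul_one]
  have h1 := ww_tot h (co χ ∪ co χ⁻¹)
  rw [sum_union hdis, hmass, hmass, ww_inv] at h1
  linarith

/-- the data for the analysis on the scales -/
theorem SD_of [NeZero W] (h : Hyp W N q a0 z η M θ F G Q P0) (hWq : W ∣ q) {B : ℕ} {E : ℝ} {e : ℕ → ℝ}
    {X : Finset (DirichletCharacter ℂ q)} (hT : Two W q z B E X (ww F) (gg θ) e) {χ : DirichletCharacter ℂ q}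
    (hX : χ ∈ X) (hχ : 3 / 4 ≤ W.totient * ww F χ) (ψ : DirichletCharacter ℂ W)
    (hψ : χ ^ 2 = DirichletCharacter.changeLevel hWq ψ) :
    SD W q z B E (1 / (2 * W.totient)) (fun u => ψ u) (gg θ χ) e := by
  have hφ : (0 : ℝ) < W.totient := by
    exact_mod_cast Nat.totient_pos.mpr (Nat.pos_of_ne_zero (NeZero.ne W))
  have hw : 1 / (2 * (W.totient : ℝ)) ≤ ww F χ := by
    rw [div_le_iff₀ (by positivity)]
    linarith
  refine ⟨by positivity, fun m n hm hn => gg_mul θ χ hm hn, fun n _ hn => gg_norm h.th χ hn, map_one ψ, ?_, ?_,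
    hT.e0, hT.mass⟩
  · intro n _ hn
    unfold gg
    rw [mul_pow, ← pow_mul, mul_comm (om n) 2, pow_mul]
    have h1 : (θ : ℂ) ^ 2 = 1 := by
      rw [← Complex.ofReal_pow, h.th, Complex.ofReal_one]
    rw [h1, one_pow, one_mul, ← changeLevel_nat hWq ψ hn, ← hψ, MulChar.pow_apply' χ two_ne_zero]
  · intro A hA A' hA' hAA
    refine le_trans ?_ (hT.two A hA A' hA' hAA)
    unfold Dst
    refine le_trans (mul_le_mul_of_nonneg_right hw (sq_nonneg _)) ?_
    exact single_le_sum (f := fun i => ww F i * ‖gg θ i A - gg θ i A'‖ ^ 2)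
      (fun i _ => mul_nonneg (ww_nonneg F i) (sq_nonneg _)) hX

end

end Pool.Agent.Lib.OWS

namespace Pool.Agent.Lib.OW

open Pool.Agent.Lib.RG (RC LV rr SS PB bch)
open Pool.Agent.Lib.OWS (Hyp ww XX)

theorem card_UU_phi (W N a : ℕ) (hN : 0 < N) : (UU W N a).card ≤ W * N.totient := by
  classical
  have h1 := card_le_mul_card_image (f := fun x => x % N) (UU W N a) W (by
    intro r _
    have : ((UU W N a).filter fun x => x % N = r).card ≤ (range W).card := by
      refine card_le_card_of_injOn (fun x => x / N) ?_ ?_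
      · intro x hx
        rw [mem_coe, mem_filter, UU, mem_filter, mem_range] at hx
        rw [mem_coe, mem_range]
        exact Nat.div_lt_of_lt_mul (by rw [mul_comm]; exact hx.1.1)
      · intro x hx y hy hxy
        rw [mem_coe, mem_filter] at hx hy
        have hxy' : x / N = y / N := hxy
        rw [← Nat.div_add_mod x N, ← Nat.div_add_mod y N, hxy', hx.2, hy.2]
    rwa [card_range] at this)
  refine h1.trans (Nat.mul_le_mul_left W ?_)
  rw [Nat.totient_eq_card_coprime]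
  refine card_le_card ?_
  intro r hr
  rw [mem_image] at hr
  obtain ⟨x, hx, rfl⟩ := hr
  rw [UU, mem_filter] at hx
  rw [mem_filter, mem_range]
  refine ⟨Nat.mod_lt _ hN, ?_⟩
  have h3 := hx.2.2
  rw [Nat.Coprime, Nat.gcd_comm, Nat.gcd_rec] at h3
  rw [Nat.Coprime, Nat.gcd_comm]
  exact h3

theorem range_low : ∃ ρ : ℝ, 0 < ρ ∧ ∃ N0 : ℕ, ∀ N : ℕ, N0 ≤ N → ∃ S : Finset ℕ,
    (∀ l ∈ S, l.Prime ∧ (N : ℝ) ^ ((1 : ℝ) / 100) < l ∧ (l : ℝ) ≤ (N : ℝ) ^ ((99 : ℝ) / 200)) ∧
    ρ ≤ ∑ l ∈ S, 1 / (l : ℝ) := by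
  classical
  obtain ⟨c, hc, x0, h⟩ := rec_low 1 le_rfl
  refine ⟨c / 2, by positivity, max ⌈Real.exp 1000⌉₊ ⌈((x0 : ℝ) + 1) ^ (100 : ℝ)⌉₊, ?_⟩
  intro N hN
  have a1 : Real.exp 1000 ≤ N := Nat.ceil_le.mp ((le_max_left _ _).trans hN)
  have a2 : ((x0 : ℝ) + 1) ^ (100 : ℝ) ≤ N := Nat.ceil_le.mp ((le_max_right _ _).trans hN)
  have hNpos : (0 : ℝ) < N := lt_of_lt_of_le (Real.exp_pos _) a1
  obtain ⟨L, hL⟩ : ∃ L : ℝ, L = Real.log N := ⟨_, rfl⟩
  have hLbig : 1000 ≤ L := by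
    rw [hL, ← Real.log_exp 1000]
    exact Real.log_le_log (Real.exp_pos _) a1
  have hNx : ∀ t : ℝ, (N : ℝ) ^ t = Real.exp (L * t) := by
    intro t
    rw [Real.rpow_def_of_pos hNpos, hL]
  obtain ⟨x, hx⟩ : ∃ x : ℕ, x = ⌊(N : ℝ) ^ ((1 : ℝ) / 100)⌋₊ := ⟨_, rfl⟩
  obtain ⟨y, hy⟩ : ∃ y : ℕ, y = ⌊(N : ℝ) ^ ((99 : ℝ) / 200)⌋₊ := ⟨_, rfl⟩
  have hxx0 : (x0 : ℝ) + 1 ≤ (N : ℝ) ^ ((1 : ℝ) / 100) := by
    calc (x0 : ℝ) + 1 = (((x0 : ℝ) + 1) ^ (100 : ℝ)) ^ ((1 : ℝ) / 100) := by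
          rw [← Real.rpow_mul (by positivity)]
          norm_num
      _ ≤ (N : ℝ) ^ ((1 : ℝ) / 100) := Real.rpow_le_rpow (by positivity) a2 (by norm_num)
  have hx1 : x0 + 1 ≤ x := by
    rw [hx]
    apply Nat.le_floor
    push_cast
    exact hxx0
  have hxu : (x : ℝ) ≤ (N : ℝ) ^ ((1 : ℝ) / 100) := by rw [hx]; exact Nat.floor_le (by positivity)
  have hyu : (y : ℝ) ≤ (N : ℝ) ^ ((99 : ℝ) / 200) := by rw [hy]; exact Nat.floor_le (by positivity)
  have hyl : (N : ℝ) ^ ((99 : ℝ) / 200) < y + 1 := by rw [hy]; exact Nat.lt_floor_add_one _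
  have hxl : (N : ℝ) ^ ((1 : ℝ) / 100) < x + 1 := by rw [hx]; exact Nat.lt_floor_add_one _
  have hxp : (0 : ℝ) < x := by exact_mod_cast (by omega : 0 < x)
  have hx1R : (1 : ℝ) ≤ x := by exact_mod_cast (by omega : 1 ≤ x)
  have hratio : Real.exp (L * (48 / 100)) * x ≤ y := by
    have e1 : Real.exp (L * (48 / 100)) * x ≤ Real.exp (L * (48 / 100)) * Real.exp (L * (1 / 100)) := by
      rw [← hNx (1 / 100)]
      exact mul_le_mul_of_nonneg_left hxu (Real.exp_pos _).le
    rw [← Real.exp_add] at e1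
    have e2 : Real.exp (L * (99 / 200)) < y + 1 := by rw [← hNx]; exact hyl
    have e3 : Real.exp (L * (48 / 100) + L * (1 / 100)) + 1 ≤ Real.exp (L * (99 / 200)) := by
      have e4 : Real.exp (L * (99 / 200)) = Real.exp (L * (48 / 100) + L * (1 / 100)) * Real.exp (L * (1 / 200)) := by
        rw [← Real.exp_add]
        congr 1
        ring
      have e5 : (2 : ℝ) ≤ Real.exp (L * (1 / 200)) := by
        linarith [Real.add_one_le_exp (L * (1 / 200))]
      have e6 : 1 ≤ Real.exp (L * (48 / 100) + L * (1 / 100)) := Real.one_le_exp (by positivity)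
      rw [e4]
      nlinarith
    linarith
  have hxy : x ≤ y := by
    have : (x : ℝ) ≤ y := by
      refine le_trans ?_ hratio
      have : 1 ≤ Real.exp (L * (48 / 100)) := Real.one_le_exp (by positivity)
      nlinarith
    exact_mod_cast this
  have h1 := h x y (by omega) hxy 1 (Nat.coprime_one_left 1)
  refine ⟨_, ?_, le_trans ?_ h1⟩
  · intro l hl
    rw [mem_filter, mem_Ioc] at hl
    refine ⟨hl.2.1, ?_, ?_⟩
    · have : (x : ℝ) + 1 ≤ l := by exact_mod_cast hl.1.1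
      linarith
    · refine le_trans ?_ hyu
      exact_mod_cast hl.1.2
  · have hyp : (0 : ℝ) < y := lt_of_lt_of_le (by positivity) hratio
    have e1 : L * (48 / 100) ≤ Real.log (y / x) := by
      rw [← Real.log_exp (L * (48 / 100))]
      refine Real.log_le_log (Real.exp_pos _) ?_
      rw [le_div_iff₀ hxp]
      exact hratio
    have e2 : Real.log y ≤ L * (99 / 200) := by
      rw [← Real.log_exp (L * (99 / 200)), ← hNx]
      exact Real.log_le_log hyp hyu
    have e3 : 0 < Real.log y := by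
      have : Real.log (y / x) ≤ Real.log y := by
        refine Real.log_le_log (by positivity) ?_
        exact div_le_self hyp.le hx1R
      linarith
    rw [le_div_iff₀ e3]
    calc c / 2 * Real.log y ≤ c / 2 * (L * (99 / 200)) := mul_le_mul_of_nonneg_left e2 (by positivity)
      _ ≤ c * (L * (48 / 100) - 1) := by nlinarith
      _ ≤ c * (Real.log (y / x) - 1) := mul_le_mul_of_nonneg_left (by linarith) hc.le

theorem lam_pm (n : ℕ) : lam n = 1 ∨ lam n = -1 := by
  unfold lam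
  exact neg_one_pow_eq_or ℝ _

end Pool.Agent.Lib.OW
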