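import Pool.Agent.Lib.MP_7b7e48_nt.OW.SPR2
import Pool.Agent.Lib.MP_7b7e48_nt.OW.CN3

/-!
# Part SP2: most primes
-/

set_option autoImplicit false

open Finset
open Pool.Agent.Lib.RG (Rough RN bch PB)

namespace Pool.Agent.Lib.OWS

open Classical in
theorem block_mass : ∃ C : ℝ, 0 < C ∧ ∀ K i : ℕ, 1 ≤ K → K ≤ i → ∀ S : Finset ℕ,
    (∀ l ∈ S, l.Prime ∧ Nat.log 4 l = i) → ∑ l ∈ S, 1 / (l : ℝ) ≤ C / K := by
  obtain ⟨C, hC, h⟩ := OW.prime_rec
  refine ⟨4 * C, by positivity, ?_⟩
  intro K i hK hi S hS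
  have hi1 : 1 ≤ i := hK.trans hi
  have h4 : 4 ≤ 4 ^ i := by
    calc 4 = 4 ^ 1 := by norm_num
      _ ≤ 4 ^ i := Nat.pow_le_pow_right (by norm_num) hi1
  obtain ⟨x, hx⟩ : ∃ x : ℕ, x = 4 ^ i - 1 := ⟨_, rfl⟩
  have hxy : x ≤ 4 ^ (i + 1) := by
    rw [pow_succ]
    omega
  have h1 := h x (4 ^ (i + 1)) (by omega) hxy
  have hsub : S ⊆ (Finset.Ioc x (4 ^ (i + 1))).filter (fun p => p.Prime) := by
    intro l hl
    obtain ⟨hp, hl4⟩ := hS l hl
    rw [mem_filter, mem_Ioc]
    have e1 : 4 ^ i ≤ l := by rw [← hl4]; exact Nat.pow_log_le_self 4 hp.ne_zero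
    have e2 : l < 4 ^ (i + 1) := by rw [← hl4]; exact Nat.lt_pow_succ_log_self (by norm_num) l
    exact ⟨⟨by omega, e2.le⟩, hp⟩
  refine (sum_le_sum_of_subset_of_nonneg hsub fun _ _ _ => by positivity).trans (h1.trans ?_)
  have hx3 : 3 ^ i ≤ x := by
    have : ∀ k : ℕ, 1 ≤ k → 3 ^ k + 1 ≤ 4 ^ k := by
      intro k hk
      induction k, hk using Nat.le_induction with
      | base => norm_num
      | succ k _ ih =>
        rw [pow_succ, pow_succ]
        omega
    have := this i hi1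
    omega
  have hxR : ((3 : ℝ) ^ i) ≤ x := by exact_mod_cast hx3
  have hx0 : (0 : ℝ) < x := lt_of_lt_of_le (by positivity) hxR
  have hl3 : (1 : ℝ) ≤ Real.log 3 := by
    rw [← Real.log_exp 1]
    refine Real.log_le_log (Real.exp_pos _) ?_
    linarith [Real.exp_one_lt_d9]
  have hlx : (K : ℝ) ≤ Real.log x := by
    have e1 : (K : ℝ) ≤ i := by exact_mod_cast hi
    calc (K : ℝ) ≤ i * 1 := by linarith
      _ ≤ i * Real.log 3 := mul_le_mul_of_nonneg_left hl3 (Nat.cast_nonneg _)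
      _ = Real.log ((3 : ℝ) ^ i) := by rw [Real.log_pow]
      _ ≤ Real.log x := Real.log_le_log (by positivity) hxR
  have hK0 : (0 : ℝ) < K := by exact_mod_cast hK
  have hratio : Real.log (((4 ^ (i + 1) : ℕ) : ℝ) / x) ≤ 3 := by
    have e1 : ((4 ^ (i + 1) : ℕ) : ℝ) / x ≤ 8 := by
      rw [div_le_iff₀ hx0]
      have : 4 ^ (i + 1) ≤ 8 * x := by
        rw [pow_succ]
        omega
      exact_mod_cast this
    have e2 : (0 : ℝ) < ((4 ^ (i + 1) : ℕ) : ℝ) / x := by positivity
    calc Real.log (((4 ^ (i + 1) : ℕ) : ℝ) / x) ≤ Real.log (Real.exp 3) := by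
          refine Real.log_le_log e2 (e1.trans ?_)
          have h2 : (2 : ℝ) ≤ Real.exp 1 := by linarith [Real.add_one_le_exp (1 : ℝ)]
          have h3 : Real.exp 3 = Real.exp 1 ^ 3 := by rw [← Real.exp_nat_mul]; norm_num
          rw [h3]
          nlinarith [pow_le_pow_left₀ (by norm_num : (0 : ℝ) ≤ 2) h2 3]
      _ = 3 := Real.log_exp 3
  calc C * (Real.log (((4 ^ (i + 1) : ℕ) : ℝ) / x) + 1) / Real.log x ≤ C * (3 + 1) / Real.log x := by
        refine div_le_div_of_nonneg_right ?_ (by linarith)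
        exact mul_le_mul_of_nonneg_left (by linarith) hC.le
    _ ≤ C * (3 + 1) / K := div_le_div_of_nonneg_left (by positivity) hK0 hlx
    _ = 4 * C / K := by ring

open Classical in
/-- the exceptional primes -/
noncomputable def XP (W q z B : ℕ) (g : ℕ → ℂ) (ζ : DirichletCharacter ℂ W) (K T : ℕ) : Finset ℕ :=
  (RN q z B).filter fun l => l.Prime ∧ K ≤ Nat.log 4 l ∧ Nat.log 4 l + 5 * K ≤ T ∧ g l ≠ ζ (l : ZMod W)

theorem real_core (W : ℕ) [NeZero W] : ∃ C : ℝ, 0 < C ∧ ∀ (q z B K T : ℕ) (E w0 : ℝ) (ψ : ZMod W → ℂ) (g : ℕ → ℂ)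
    (e : ℕ → ℝ), W ∣ q → SD W q z B E w0 ψ g e → 1000 ≤ K → 16 * K ≤ T →
    (∀ i, K ≤ i → i ≤ T → ∀ u : (ZMod W)ˣ, (cell W q z B (u : ZMod W) i).Nonempty) →
    1000 * (FB W q z B g e K T).card ≤ K * K →
    ∃ ζ : DirichletCharacter ℂ W, (∀ u : (ZMod W)ˣ, ζ (u : ZMod W) ^ 2 = ψ (u : ZMod W)) ∧
      ∑ l ∈ XP W q z B g ζ K T, 1 / (l : ℝ) ≤ 4 / w0 * E + C * ((FB W q z B g e K T).card / (K : ℝ) ^ 2) := by
  classical
  obtain ⟨C, hC, hblock⟩ := block_mass
  refine ⟨8 * C, by positivity, ?_⟩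
  intro q z B K T E w0 ψ g e hWq h hK hKT hne hFB
  have hah := AH_of h hK hKT hFB
  obtain ⟨ζ0, hζ0⟩ := ah_main hah
  obtain ⟨ζ, hζd⟩ : ∃ ζ : DirichletCharacter ℂ W, ζ = MulChar.ofUnitHom ζ0.toHomUnits := ⟨_, rfl⟩
  have hζ : ∀ u : (ZMod W)ˣ, ζ (u : ZMod W) = ζ0 u := by
    intro u
    rw [hζd, MulChar.ofUnitHom_coe]
    rfl
  refine ⟨ζ, ?_, ?_⟩
  · intro u
    obtain ⟨i, hi1, hi2, hi3⟩ := ah_typ hah K
    have hiT : i ≤ T := by omega
    have e1 := hζ0 i hi1 (by omega) hi3 u
    rw [hζ, ← e1]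
    obtain ⟨r1, -⟩ := rep_mem (e := e) (hne i hi1 hiT u)
    rw [mem_cell, mem_RN'] at r1
    unfold gam
    rw [h.sq _ r1.1.1.1 r1.1.2.2, r1.2.1]
  · -- split
    obtain ⟨At, hAt⟩ : ∃ At : Finset ℕ, At = (range (T + 1)).filter fun i =>
        ¬ 8 * row (FB W q z B g e K T) i ≤ K := ⟨_, rfl⟩
    have hsub : XP W q z B g ζ K T ⊆ BD W q z B g e ∪
        ((XP W q z B g ζ K T).filter fun l => Nat.log 4 l ∈ At) := by
      intro l hl
      rw [mem_union, mem_filter]
      by_cases hb : l ∈ BD W q z B g e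
      · exact Or.inl hb
      · right
        refine ⟨hl, ?_⟩
        unfold XP at hl
        rw [mem_filter] at hl
        obtain ⟨h1, h2, h3, h4, h5⟩ := hl
        rw [hAt, mem_filter, mem_range]
        refine ⟨by omega, ?_⟩
        intro h6
        have h7 := mem_RN'.mp h1
        have h8 : IsUnit ((l : ℕ) : ZMod W) := by
          rw [ZMod.isUnit_iff_coprime]
          exact Nat.Coprime.coprime_dvd_right hWq h7.2.2
        obtain ⟨u, hu⟩ := h8
        have e1 := hζ0 (Nat.log 4 l) h3 h4 h6 u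
        rw [← hζ] at e1
        have e2 := not_BD h1 hb hu.symm rfl
        rw [e1, hu] at e2
        exact h5 e2
    have hlK : (0 : ℝ) < K := by exact_mod_cast (by omega : 0 < K)
    have h1 : ∑ l ∈ (XP W q z B g ζ K T).filter (fun l => Nat.log 4 l ∈ At), 1 / (l : ℝ) ≤
        At.card * (C / K) := by
      have hmaps : ∀ l ∈ (XP W q z B g ζ K T).filter (fun l => Nat.log 4 l ∈ At), Nat.log 4 l ∈ At :=
        fun l hl => (mem_filter.mp hl).2
      rw [← sum_fiberwise_of_maps_to hmaps, ← nsmul_eq_mul, ← sum_const]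
      refine sum_le_sum fun i _ => ?_
      by_cases hKi : K ≤ i
      · refine hblock K i (by omega) hKi _ ?_
        intro l hl
        rw [mem_filter, mem_filter] at hl
        unfold XP at hl
        rw [mem_filter] at hl
        exact ⟨hl.1.1.2.1, hl.2⟩
      · have : ((XP W q z B g ζ K T).filter (fun l => Nat.log 4 l ∈ At)).filter (fun l => Nat.log 4 l = i) = ∅ := by
          rw [filter_eq_empty_iff]
          intro l hl hli
          rw [mem_filter] at hl
          unfold XP at hl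
          rw [mem_filter] at hl
          have := hl.1.2.2.1
          omega
        rw [this, sum_empty]
        positivity
    have h2 : (At.card : ℝ) * K ≤ 8 * (FB W q z B g e K T).card := by
      have e1 : ∑ i ∈ At, row (FB W q z B g e K T) i ≤ (FB W q z B g e K T).card := by
        unfold row
        rw [← card_biUnion]
        · refine card_le_card ?_
          intro p hp
          rw [mem_biUnion] at hp
          obtain ⟨i, _, hp⟩ := hp
          rw [mem_filter] at hp
          exact hp.1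
        · intro i _ j _ hij
          rw [Function.onFun, disjoint_left]
          intro p hp hp'
          rw [mem_filter] at hp hp'
          exact hij (hp.2.symm.trans hp'.2)
      have e2 : At.card * K ≤ 8 * ∑ i ∈ At, row (FB W q z B g e K T) i := by
        rw [mul_sum]
        calc At.card * K = ∑ _i ∈ At, K := by rw [sum_const, smul_eq_mul]
          _ ≤ _ := sum_le_sum fun i hi => by
              rw [hAt, mem_filter] at hi
              have := hi.2
              omega
      have e3 : At.card * K ≤ 8 * (FB W q z B g e K T).card := by omega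
      exact_mod_cast e3
    have h3 : (At.card : ℝ) * (C / K) ≤ 8 * C * ((FB W q z B g e K T).card / (K : ℝ) ^ 2) := by
      calc (At.card : ℝ) * (C / K) = (At.card * K) * (C / (K : ℝ) ^ 2) := by field_simp
        _ ≤ (8 * (FB W q z B g e K T).card) * (C / (K : ℝ) ^ 2) :=
            mul_le_mul_of_nonneg_right h2 (by positivity)
        _ = _ := by ring
    refine (sum_le_sum_of_subset_of_nonneg hsub fun _ _ _ => by positivity).trans ?_
    refine (sum_union_le' _ _ _ (fun _ => by positivity)).trans ?_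
    exact add_le_add (BD_mass h) (h1.trans h3)

end Pool.Agent.Lib.OWS
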