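import Mathlib
import Pool.Agent.Lib.MP_45349e_nt.LS.Rough
import Pool.Agent.Lib.MP_7b7e48_nt.OW.SPSum2

/-!
# Part SP: number of the rough divisors, upper bound for the rough numbers
-/

open Finset
open Pool.Agent.Lib.RG (Rough RN bch PB)

namespace Pool.Agent.Lib.OWS

theorem rdv_pow (z n k : ℕ) (_hz : 1 ≤ z) (hn : 1 ≤ n) (h : n < (z + 1) ^ (k + 1)) : rdv z n ≤ 2 ^ k := by
  classical
  obtain ⟨s, hs⟩ : ∃ s : Multiset ℕ, s = ((n.primeFactorsList : Multiset ℕ)).filter (fun p => z < p) := ⟨_, rfl⟩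
  have hcard : s.card ≤ k := by
    by_contra hc
    push Not at hc
    have h1 : (z + 1) ^ s.card ≤ s.prod := by
      refine Multiset.pow_card_le_prod ?_
      intro p hp
      rw [hs, Multiset.mem_filter] at hp
      exact hp.2
    have h2 : s.prod ∣ n := by
      have h3 : s ≤ (n.primeFactorsList : Multiset ℕ) := by rw [hs]; exact Multiset.filter_le _ _
      have h4 := Multiset.prod_dvd_prod_of_le h3
      rwa [Multiset.prod_coe, Nat.prod_primeFactorsList (by omega)] at h4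
    have h3 := Nat.le_of_dvd hn h2
    have h4 : (z + 1) ^ (k + 1) ≤ (z + 1) ^ s.card := Nat.pow_le_pow_right (by omega) hc
    omega
  have h1 : rdv z n ≤ (s.powerset.toFinset).card := by
    unfold rdv
    refine card_le_card_of_injOn (fun d => (d.primeFactorsList : Multiset ℕ)) ?_ ?_
    · intro d hd
      rw [mem_coe, mem_filter, Nat.mem_divisors] at hd
      rw [mem_coe, Multiset.mem_toFinset, Multiset.mem_powerset, hs]
      have hd0 : d ≠ 0 := fun h0 => by rw [h0] at hd; omega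
      rw [Multiset.le_filter]
      refine ⟨?_, ?_⟩
      · have := (Nat.primeFactorsList_sublist_of_dvd hd.1.1 hd.1.2).subperm
        exact this
      · intro p hp
        rw [Multiset.mem_coe] at hp
        exact hd.2 p (Nat.prime_of_mem_primeFactorsList hp) (Nat.dvd_of_mem_primeFactorsList hp)
    · intro d hd d' hd' h
      rw [mem_coe, mem_filter, Nat.mem_divisors] at hd hd'
      have hd0 : d ≠ 0 := fun h0 => by rw [h0] at hd; omega
      have hd0' : d' ≠ 0 := fun h0 => by rw [h0] at hd'; omega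
      have h2 : ((d.primeFactorsList : Multiset ℕ)).prod = ((d'.primeFactorsList : Multiset ℕ)).prod :=
        congrArg Multiset.prod h
      rwa [Multiset.prod_coe, Multiset.prod_coe, Nat.prod_primeFactorsList hd0,
        Nat.prod_primeFactorsList hd0'] at h2
  refine h1.trans ((Multiset.toFinset_card_le _).trans ?_)
  rw [Multiset.card_powerset]
  exact Nat.pow_le_pow_right (by norm_num) hcard

theorem floor_low (c : ℝ) (hc : 0 < c) : ∃ N0 : ℕ, 2 ≤ N0 ∧ ∀ N : ℕ, N0 ≤ N → ∀ z : ℕ, z = ⌊(N : ℝ) ^ c⌋₊ →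
    3 ≤ z ∧ (N : ℝ) ^ c / 2 ≤ z ∧ (z : ℝ) ≤ (N : ℝ) ^ c ∧ (c / 2) * Real.log N ≤ Real.log z ∧
      Real.log z ≤ c * Real.log N := by
  have h1 : Filter.Tendsto (fun N : ℕ => (N : ℝ) ^ (c / 2)) Filter.atTop Filter.atTop :=
    (tendsto_rpow_atTop (by positivity)).comp tendsto_natCast_atTop_atTop
  obtain ⟨N1, hN1⟩ := (h1.eventually_ge_atTop 4).exists_forall_of_atTop
  refine ⟨max N1 2, le_max_right _ _, ?_⟩
  intro N hN z hz
  have hN2 : 2 ≤ N := (le_max_right _ _).trans hN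
  have hNR : (2 : ℝ) ≤ N := by exact_mod_cast hN2
  have h2 : (4 : ℝ) ≤ (N : ℝ) ^ (c / 2) := hN1 N ((le_max_left _ _).trans hN)
  have h3 : (N : ℝ) ^ c = (N : ℝ) ^ (c / 2) * (N : ℝ) ^ (c / 2) := by
    rw [← Real.rpow_add (by linarith)]
    congr 1
    ring
  have h4 : (16 : ℝ) ≤ (N : ℝ) ^ c := by rw [h3]; nlinarith
  have h5 : (z : ℝ) ≤ (N : ℝ) ^ c := by
    rw [hz]
    exact Nat.floor_le (by linarith)
  have h6 : (N : ℝ) ^ c < z + 1 := by
    rw [hz]
    exact Nat.lt_floor_add_one _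
  have h7 : (N : ℝ) ^ c / 2 ≤ z := by linarith
  have h8 : (N : ℝ) ^ (c / 2) ≤ z := by
    have : 2 * (N : ℝ) ^ (c / 2) ≤ (N : ℝ) ^ c := by rw [h3]; nlinarith
    linarith
  have hz0 : (0 : ℝ) < z := by linarith
  refine ⟨?_, h7, h5, ?_, ?_⟩
  · have : (3 : ℝ) ≤ z := by linarith
    exact_mod_cast this
  · rw [← Real.log_rpow (by linarith)]
    exact Real.log_le_log (by linarith) h8
  · rw [← Real.log_rpow (by linarith)]
    exact Real.log_le_log hz0 h5

theorem rough_div (c : ℝ) (hc : 0 < c) : ∃ R : ℕ, 1 ≤ R ∧ ∃ N0 : ℕ, ∀ N : ℕ, N0 ≤ N → ∀ z : ℕ,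
    z = ⌊(N : ℝ) ^ c⌋₊ → ∀ n : ℕ, 1 ≤ n → n ≤ N → rdv z n ≤ R := by
  obtain ⟨N0, hN0, h⟩ := floor_low c hc
  refine ⟨2 ^ ⌈2 / c⌉₊, Nat.one_le_two_pow, N0, ?_⟩
  intro N hN z hz n hn1 hnN
  obtain ⟨h1, h2, h3, h4, h5⟩ := h N hN z hz
  refine rdv_pow z n ⌈2 / c⌉₊ (by omega) hn1 ?_
  have hNR : (2 : ℝ) ≤ N := by exact_mod_cast hN0.trans hN
  have hlogN : 0 < Real.log N := Real.log_pos (by linarith)
  have hzR : (3 : ℝ) ≤ z := by exact_mod_cast h1
  have h6 : (n : ℝ) < ((z : ℝ) + 1) ^ (⌈2 / c⌉₊ + 1) := by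
    have h7 : (N : ℝ) ≤ (z : ℝ) ^ (⌈2 / c⌉₊) := by
      rw [← Real.log_le_log_iff (by linarith) (by positivity), Real.log_pow]
      calc Real.log N = (2 / c) * ((c / 2) * Real.log N) := by field_simp
        _ ≤ (⌈2 / c⌉₊ : ℝ) * Real.log z := by
            refine mul_le_mul (Nat.le_ceil _) h4 (by positivity) (Nat.cast_nonneg _)
    calc (n : ℝ) ≤ N := by exact_mod_cast hnN
      _ ≤ (z : ℝ) ^ (⌈2 / c⌉₊) := h7
      _ < (z : ℝ) ^ (⌈2 / c⌉₊ + 1) := pow_lt_pow_right₀ (by linarith) (Nat.lt_succ_self _)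
      _ ≤ ((z : ℝ) + 1) ^ (⌈2 / c⌉₊ + 1) := pow_le_pow_left₀ (by linarith) (by linarith) _
  exact_mod_cast h6

theorem rough_up : ∃ C : ℝ, 0 < C ∧ ∀ q z : ℕ, 2 ≤ z → ∀ Y : ℕ, z ≤ Y →
    ((RN q z Y).card : ℝ) ≤ C * (Y / Real.log z) := by
  obtain ⟨C, hC, h⟩ := Pool.Agent.Lib.MP_45349e_nt.LS.rough
  refine ⟨C, hC, ?_⟩
  intro q z hz Y hY
  classical
  have h1 := h z Y hz hY
  refine le_trans ?_ (h1.trans (le_of_eq (by ring)))
  have h2 : RN q z Y ⊆ (Finset.Icc 1 Y).filter (fun n => ∀ p : ℕ, p.Prime → p < z → ¬ p ∣ n) := by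
    intro n hn
    rw [mem_RN'] at hn
    rw [mem_filter, mem_Icc]
    refine ⟨hn.1, fun p hp hpz hpn => ?_⟩
    have := hn.2.1 p hp hpn
    omega
  have h3 := card_le_card h2
  exact_mod_cast h3.trans (card_le_card (by
    intro n hn
    simp only [mem_filter] at hn ⊢
    exact hn))

end Pool.Agent.Lib.OWS
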