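import Mathlib
import Pool.Agent.Lib.MP_7b7e48_nt.OW.SPRd
import Pool.Agent.Lib.MP_7b7e48_nt.RG.NUM

/-!
# Part SP: lower bound for the number of rough integers in a residue class
-/

open Finset
open Pool.Agent.Lib.RG (Rough RN bch PB)

namespace Pool.Agent.Lib.OWS

theorem crt_class (W d r : ℕ) (hW : 0 < W) (hd : 0 < d) (h : W.Coprime d) :
    ∃ s : ℕ, s < W * d ∧ ∀ m : ℕ, (m % W = r % W ∧ d ∣ m) ↔ m % (W * d) = s := by
  obtain ⟨k, hk1, hk2⟩ := Nat.chineseRemainder h r 0
  refine ⟨k % (W * d), Nat.mod_lt _ (Nat.mul_pos hW hd), ?_⟩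
  intro m
  have h1 : m % (W * d) = k % (W * d) ↔ m ≡ k [MOD W * d] := Iff.rfl
  rw [h1, ← Nat.modEq_and_modEq_iff_modEq_mul h]
  constructor
  · rintro ⟨h2, h3⟩
    refine ⟨?_, ?_⟩
    · exact (show m ≡ r [MOD W] from h2).trans hk1.symm
    · exact ((Nat.modEq_zero_iff_dvd).mpr h3).trans hk2.symm
  · rintro ⟨h2, h3⟩
    exact ⟨h2.trans hk1, (Nat.modEq_zero_iff_dvd).mp (h3.trans hk2)⟩

open Classical in
theorem rough_low_raw : ∃ c K : ℕ, ∃ c1 : ℝ, c = c ∧ 0 < c1 ∧ 1 ≤ K ∧ ∀ W z x r : ℕ, 1 ≤ W → 2 ≤ z →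
    r.Coprime W → (x : ℝ) / (2 * W) * (c1 / Real.log z) - (z : ℝ) ^ K ≤
      (((Icc 1 x).filter fun m => Rough z m ∧ x < 2 * m ∧ m % W = r % W).card : ℝ) := by
  obtain ⟨K, hK, hw⟩ := RG.lower_weights
  obtain ⟨c, hc, hp⟩ := RG.prod_lower
  refine ⟨0, K, c / 2, rfl, by positivity, hK, ?_⟩
  intro W z x r hW hz hr
  obtain ⟨P, hP⟩ : ∃ P : Finset ℕ, P = (range (z + 1)).filter fun p => p.Prime ∧ ¬ p ∣ W := ⟨_, rfl⟩
  have hP1 : ∀ p ∈ P, p.Prime ∧ p ≤ z := by
    intro p hp
    rw [hP, mem_filter, mem_range] at hp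
    exact ⟨hp.2.1, by omega⟩
  obtain ⟨D, lam, hD, hl, hu, hm⟩ := hw z hz P hP1
  have hprod := hp z hz P hP1
  obtain ⟨A, hA⟩ : ∃ A : ℕ, A = x / 2 + 1 := ⟨_, rfl⟩
  obtain ⟨L, hL⟩ : ∃ L : ℕ, L = x - x / 2 := ⟨_, rfl⟩
  obtain ⟨T, hT⟩ : ∃ T : Finset ℕ, T = (Ico A (A + L)).filter fun m => m % W = r % W := ⟨_, rfl⟩
  have hTm : ∀ m ∈ T, 1 ≤ m ∧ m ≤ x ∧ x < 2 * m ∧ m % W = r % W := by
    intro m hm
    rw [hT, mem_filter, mem_Ico] at hm
    omega
  have hcnt : ∀ d ∈ D, |((T.filter fun m => d ∣ m).card : ℝ) - L / (W * d)| ≤ 1 := by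
    intro d hd
    obtain ⟨hd1, _, _, hdP⟩ := hD d hd
    have hcop : W.Coprime d := by
      rw [Nat.coprime_iff_gcd_eq_one]
      by_contra hne
      obtain ⟨p, hp1, hp2⟩ := Nat.exists_prime_and_dvd hne
      have h3 := hdP p hp1 (hp2.trans (Nat.gcd_dvd_right _ _))
      rw [hP, mem_filter] at h3
      exact h3.2.2 (hp2.trans (Nat.gcd_dvd_left _ _))
    obtain ⟨s, hs, hs2⟩ := crt_class W d r hW hd1 hcop
    have h1 := Pool.Agent.Lib.GT.abs_card_class (W * d) (Nat.mul_pos hW hd1) s hs A L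
    have h2 : (T.filter fun m => d ∣ m) = (Ico A (A + L)).filter (fun n => n % (W * d) = s) := by
      rw [hT, filter_filter]
      exact filter_congr fun m _ => hs2 m
    rw [h2]
    push_cast at h1
    exact h1
  have hlow : ∑ m ∈ T, ∑ d ∈ D with d ∣ m, lam d ≤
      (((Icc 1 x).filter fun m => Rough z m ∧ x < 2 * m ∧ m % W = r % W).card : ℝ) := by
    calc ∑ m ∈ T, ∑ d ∈ D with d ∣ m, lam d ≤ ∑ m ∈ T, if Rough z m then (1 : ℝ) else 0 := by
          refine sum_le_sum fun m hm => (hu m).trans ?_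
          obtain ⟨hm1, hm2, hm3, hm4⟩ := hTm m hm
          by_cases h1 : ∀ p ∈ P, ¬ p ∣ m
          · have h2 : Rough z m := by
              intro p hp hpm
              by_contra hpz
              push Not at hpz
              by_cases hpW : p ∣ W
              · have h3 : p ∣ r := by
                  have h4 : m ≡ r [MOD p] := Nat.ModEq.of_dvd hpW hm4
                  exact (Nat.modEq_zero_iff_dvd).mp (h4.symm.trans ((Nat.modEq_zero_iff_dvd).mpr hpm))
                exact Nat.Prime.one_lt hp |>.ne' (Nat.eq_one_of_dvd_coprimes hr h3 hpW)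
              · refine h1 p ?_ hpm
                rw [hP, mem_filter, mem_range]
                exact ⟨by omega, hp, hpW⟩
            rw [if_pos h1, if_pos h2]
          · rw [if_neg h1]
            split_ifs <;> norm_num
      _ = ((T.filter fun m => Rough z m).card : ℝ) := by
          rw [← sum_filter, sum_const, nsmul_eq_mul, mul_one]
      _ ≤ _ := by
          have : (T.filter fun m => Rough z m) ⊆
              (Icc 1 x).filter fun m => Rough z m ∧ x < 2 * m ∧ m % W = r % W := by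
            intro m hm
            rw [mem_filter] at hm
            obtain ⟨hm1, hm2, hm3, hm4⟩ := hTm m hm.1
            rw [mem_filter, mem_Icc]
            exact ⟨⟨hm1, hm2⟩, hm.2, hm3, hm4⟩
          exact_mod_cast card_le_card this
  refine le_trans ?_ hlow
  have hsw : ∑ m ∈ T, ∑ d ∈ D with d ∣ m, lam d = ∑ d ∈ D, lam d * ((T.filter fun m => d ∣ m).card : ℝ) := by
    simp only [sum_filter]
    rw [sum_comm]
    refine sum_congr rfl fun d _ => ?_
    rw [← sum_filter, sum_const, nsmul_eq_mul, mul_comm]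
  rw [hsw]
  have h1 : ∀ d ∈ D, (L : ℝ) / W * (lam d / d) - |lam d| ≤ lam d * ((T.filter fun m => d ∣ m).card : ℝ) := by
    intro d hd
    obtain ⟨hd1, _, _, _⟩ := hD d hd
    have h2 := hcnt d hd
    have hdR : (0 : ℝ) < d := by exact_mod_cast hd1
    have hWR : (0 : ℝ) < W := by exact_mod_cast hW
    have h3 : (L : ℝ) / W * (lam d / d) = lam d * (L / (W * d)) := by field_simp
    rw [h3]
    have h4 : |lam d * (((T.filter fun m => d ∣ m).card : ℝ) - L / (W * d))| ≤ |lam d| := by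
      rw [abs_mul]
      exact mul_le_of_le_one_right (abs_nonneg _) h2
    have h5 := (abs_le.mp h4).1
    nlinarith
  have h2 := sum_le_sum h1
  rw [sum_sub_distrib, ← mul_sum] at h2
  refine le_trans ?_ h2
  have hWR : (0 : ℝ) < W := by exact_mod_cast hW
  have hLR : (x : ℝ) / 2 ≤ L := by
    have : x ≤ 2 * L := by omega
    have : (x : ℝ) ≤ 2 * L := by exact_mod_cast this
    linarith
  have h3 : (x : ℝ) / (2 * W) * (c / 2 / Real.log z) ≤ (L : ℝ) / W * ∑ d ∈ D, lam d / d := by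
    calc (x : ℝ) / (2 * W) * (c / 2 / Real.log z) = (x / 2) / W * (1 / 2 * (c / Real.log z)) := by
          field_simp
      _ ≤ (L : ℝ) / W * ∑ d ∈ D, lam d / d := by
          refine mul_le_mul (div_le_div_of_nonneg_right hLR hWR.le) ?_ ?_ (by positivity)
          · exact (mul_le_mul_of_nonneg_left hprod (by norm_num)).trans hm
          · have hlz : 0 < Real.log z := Real.log_pos (by exact_mod_cast (by omega : 1 < z))
            positivity
  linarith

theorem rough_low (W : ℕ) (hW : 1 ≤ W) : ∃ cW : ℝ, 0 < cW ∧ ∀ κ : ℝ, 0 < κ → ∃ c0 : ℝ, 0 < c0 ∧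
    ∀ c : ℝ, 0 < c → c ≤ c0 → ∃ N0 : ℕ, ∀ N q : ℕ, N0 ≤ N → q = W * N → ∀ z : ℕ, z = ⌊(N : ℝ) ^ c⌋₊ →
    ∀ x : ℕ, (N : ℝ) ^ κ ≤ x → ∀ r : ℕ, r.Coprime W → ∀ S : Finset ℕ,
    (∀ m, m ∈ RN q z x → x < 2 * m → m % W = r % W → m ∈ S) →
    cW * (x / Real.log z) ≤ S.card := by
  classical
  obtain ⟨_, K, c1, _, hc1, hK, hraw⟩ := rough_low_raw
  have hWR : (0 : ℝ) < W := by exact_mod_cast hW
  refine ⟨c1 / (8 * W), by positivity, ?_⟩
  intro κ hκ
  have hK0 : (0 : ℝ) < K := by exact_mod_cast hK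
  refine ⟨κ / (2 * K), by positivity, ?_⟩
  intro c hc hcc
  obtain ⟨N1, hN1, hfl⟩ := floor_low c hc
  obtain ⟨N2, h2⟩ := (RH.ev_log_pow 1 (κ / 2) (by positivity) (8 * W * max c 1 / c1)
    (by positivity)).exists_forall_of_atTop
  obtain ⟨N3, h3⟩ := (RH.ev_log_pow 2 c hc (64 * W * max c 1 / c1) (by positivity)).exists_forall_of_atTop
  obtain ⟨N4, h4⟩ := (RH.ev_log_pow 0 c hc (2 * W) (by positivity)).exists_forall_of_atTop
  refine ⟨max (max N1 N2) (max N3 N4), ?_⟩
  intro N q hN hq z hz x hx r hr S hS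
  have hNN1 : N1 ≤ N := (le_max_left _ _).trans ((le_max_left _ _).trans hN)
  have hNN2 : N2 ≤ N := (le_max_right _ _).trans ((le_max_left _ _).trans hN)
  have hNN3 : N3 ≤ N := (le_max_left _ _).trans ((le_max_right _ _).trans hN)
  have hNN4 : N4 ≤ N := (le_max_right _ _).trans ((le_max_right _ _).trans hN)
  obtain ⟨hz3, hz4, hz5, hz6, hz7⟩ := hfl N hNN1 z hz
  have g2 := h2 N hNN2
  have g3 := h3 N hNN3
  have g4 := h4 N hNN4
  have hN2 : 2 ≤ N := hN1.trans hNN1
  have hNR : (2 : ℝ) ≤ N := by exact_mod_cast hN2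
  have hlN : 0 < Real.log N := Real.log_pos (by linarith)
  have hlz : 0 < Real.log z := Real.log_pos (by exact_mod_cast (by omega : 1 < z))
  have hx0 : (0 : ℝ) < x := lt_of_lt_of_le (by positivity) hx
  have hm1 : (1 : ℝ) ≤ max c 1 := le_max_right _ _
  have hlz2 : Real.log z ≤ max c 1 * Real.log N :=
    hz7.trans (mul_le_mul_of_nonneg_right (le_max_left _ _) hlN.le)
  have hzW : W ≤ z := by
    have h5 : (W : ℝ) ≤ z := by
      rw [pow_zero, mul_one] at g4
      linarith
    exact_mod_cast h5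
  have hmain := hraw W z x r hW (by omega) hr
  -- the bad ones
  obtain ⟨T, hT⟩ : ∃ T : Finset ℕ, T = (Icc 1 x).filter fun m => Rough z m ∧ x < 2 * m ∧ m % W = r % W :=
    ⟨_, rfl⟩
  obtain ⟨Bd, hBd⟩ : ∃ Bd : Finset ℕ, Bd = (N.primeFactors.filter fun p => z < p).biUnion
    fun p => (Icc 1 x).filter fun m => p ∣ m := ⟨_, rfl⟩
  have hsub : T ⊆ S ∪ Bd := by
    intro m hm
    rw [hT, mem_filter, mem_Icc] at hm
    rw [mem_union]
    by_cases hc : m.Coprime N
    · left
      have hmW : m.Coprime W := by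
        have h1 : Nat.gcd m W = Nat.gcd r W := by
          rw [Nat.gcd_comm m W, Nat.gcd_comm r W, Nat.gcd_rec W m, Nat.gcd_rec W r, hm.2.2.2]
        rw [Nat.coprime_iff_gcd_eq_one, h1]
        exact hr
      refine hS m ?_ hm.2.2.1 hm.2.2.2
      rw [mem_RN']
      refine ⟨hm.1, hm.2.1, ?_⟩
      rw [hq]
      exact Nat.Coprime.mul_right hmW hc
    · right
      rw [Nat.coprime_iff_gcd_eq_one] at hc
      obtain ⟨p, hp1, hp2⟩ := Nat.exists_prime_and_dvd hc
      have hpm : p ∣ m := hp2.trans (Nat.gcd_dvd_left _ _)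
      have hpN : p ∣ N := hp2.trans (Nat.gcd_dvd_right _ _)
      rw [hBd, mem_biUnion]
      refine ⟨p, ?_, ?_⟩
      · rw [mem_filter, Nat.mem_primeFactors]
        exact ⟨⟨hp1, hpN, by omega⟩, hm.2.1 p hp1 hpm⟩
      · rw [mem_filter, mem_Icc]
        exact ⟨hm.1, hpm⟩
  have hBdc : (Bd.card : ℝ) ≤ 2 * Real.log N * (x / z) := by
    have hz0 : (0 : ℝ) < z := by exact_mod_cast (by omega : 0 < z)
    have h5 : (Bd.card : ℝ) ≤ ∑ p ∈ N.primeFactors.filter (fun p => z < p), (x : ℝ) / z := by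
      rw [hBd]
      have h6 := card_biUnion_le (s := N.primeFactors.filter fun p => z < p)
        (t := fun p => (Icc 1 x).filter fun m => p ∣ m)
      have h7 : ((((N.primeFactors.filter fun p => z < p).biUnion
          fun p => (Icc 1 x).filter fun m => p ∣ m)).card : ℝ) ≤
          ∑ p ∈ N.primeFactors.filter (fun p => z < p), (((Icc 1 x).filter fun m => p ∣ m).card : ℝ) := by
        exact_mod_cast h6
      refine h7.trans (sum_le_sum fun p hp => ?_)
      rw [mem_filter] at hp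
      have h8 : ((Icc 1 x).filter fun m => p ∣ m).card = x / p := by
        have := Nat.Ioc_filter_dvd_card_eq_div x p
        rw [← this]
        congr 1
      rw [h8]
      have hzp : (z : ℝ) ≤ p := by exact_mod_cast hp.2.le
      exact Nat.cast_div_le.trans (div_le_div_of_nonneg_left hx0.le hz0 hzp)
    refine h5.trans ?_
    rw [sum_const, nsmul_eq_mul]
    refine mul_le_mul_of_nonneg_right ?_ (by positivity)
    have h9 := RG.omega_le_log N (by omega)
    have h10 : (((N.primeFactors.filter fun p => z < p).card : ℕ) : ℝ) ≤ (N.primeFactors.card : ℝ) := by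
      exact_mod_cast card_filter_le _ _
    exact h10.trans h9
  have hcard : (T.card : ℝ) ≤ S.card + Bd.card := by
    have := (card_le_card hsub).trans (card_union_le _ _)
    exact_mod_cast this
  rw [← hT] at hmain
  -- numbers
  have hz0 : (0 : ℝ) < z := by exact_mod_cast (by omega : 0 < z)
  have hzK : (z : ℝ) ^ K ≤ (N : ℝ) ^ (κ / 2) := by
    calc (z : ℝ) ^ K ≤ ((N : ℝ) ^ c) ^ K := pow_le_pow_left₀ hz0.le hz5 K
      _ = (N : ℝ) ^ (c * K) := by rw [← Real.rpow_natCast, ← Real.rpow_mul (by linarith)]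
      _ ≤ (N : ℝ) ^ (κ / 2) := by
          refine Real.rpow_le_rpow_of_exponent_le (by linarith) ?_
          calc c * K ≤ κ / (2 * K) * K := mul_le_mul_of_nonneg_right hcc hK0.le
            _ = κ / 2 := by field_simp
  have hNk : (N : ℝ) ^ κ = (N : ℝ) ^ (κ / 2) * (N : ℝ) ^ (κ / 2) := by
    rw [← Real.rpow_add (by linarith)]
    congr 1
    ring
  have t1 : (z : ℝ) ^ K ≤ c1 / (8 * W) * (x / Real.log z) := by
    rw [pow_one] at g2
    have h5 : 8 * W / c1 * Real.log z ≤ (N : ℝ) ^ (κ / 2) := by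
      calc 8 * W / c1 * Real.log z ≤ 8 * W / c1 * (max c 1 * Real.log N) :=
            mul_le_mul_of_nonneg_left hlz2 (by positivity)
        _ = 8 * W * max c 1 / c1 * Real.log N := by ring
        _ ≤ _ := g2
    have h6 : (N : ℝ) ^ (κ / 2) * (8 * W / c1 * Real.log z) ≤ x := by
      calc (N : ℝ) ^ (κ / 2) * (8 * W / c1 * Real.log z) ≤ (N : ℝ) ^ (κ / 2) * (N : ℝ) ^ (κ / 2) :=
            mul_le_mul_of_nonneg_left h5 (by positivity)
        _ = (N : ℝ) ^ κ := hNk.symm
        _ ≤ x := hx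
    calc (z : ℝ) ^ K ≤ (N : ℝ) ^ (κ / 2) := hzK
      _ = c1 / (8 * W) * (((N : ℝ) ^ (κ / 2) * (8 * W / c1 * Real.log z)) / Real.log z) := by
          field_simp
      _ ≤ c1 / (8 * W) * (x / Real.log z) := by
          refine mul_le_mul_of_nonneg_left ?_ (by positivity)
          exact div_le_div_of_nonneg_right h6 hlz.le
  have t2 : 2 * Real.log N * (x / z) ≤ c1 / (16 * W) * (x / Real.log z) * 1 := by
    have h5 : 32 * W / c1 * Real.log N * Real.log z ≤ z := by
      calc 32 * W / c1 * Real.log N * Real.log z ≤ 32 * W / c1 * Real.log N * (max c 1 * Real.log N) :=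
            mul_le_mul_of_nonneg_left hlz2 (by positivity)
        _ = (64 * W * max c 1 / c1 * (Real.log N) ^ 2) / 2 := by ring
        _ ≤ (N : ℝ) ^ c / 2 := by linarith
        _ ≤ z := hz4
    rw [mul_one]
    have h6 : 2 * Real.log N * (x / z) = (x / z) * (2 * Real.log N) := by ring
    rw [h6]
    calc (x : ℝ) / z * (2 * Real.log N) = (c1 / (16 * W) * (x / Real.log z)) *
          ((32 * W / c1 * Real.log N * Real.log z) / z) := by
          field_simp
          ring
      _ ≤ (c1 / (16 * W) * (x / Real.log z)) * 1 := by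
          refine mul_le_mul_of_nonneg_left ?_ (by positivity)
          rwa [div_le_one hz0]
      _ = _ := mul_one _
  have t3 : (x : ℝ) / (2 * W) * (c1 / Real.log z) = 4 * (c1 / (8 * W) * (x / Real.log z)) := by
    field_simp
    ring
  have t4 : c1 / (16 * W) * (x / Real.log z) = (c1 / (8 * W) * (x / Real.log z)) / 2 := by
    field_simp
    ring
  have t5 : 0 < c1 / (8 * W) * (x / Real.log z) := by positivity
  rw [t4] at t2
  rw [t3] at hmain
  linarith

end Pool.Agent.Lib.OWS
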