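import Mathlib
import Pool.Agent.Lib.MP_7b7e48_nt.OW.SPR3
import Pool.Agent.Lib.MP_7b7e48_nt.OW.SPRl
import Pool.Agent.Lib.MP_7b7e48_nt.RG.B3

/-!
# Part SP2: parameters
-/

set_option autoImplicit false

open Finset
open Pool.Agent.Lib.RG (Rough RN bch PB)

namespace Pool.Agent.Lib.OWS

theorem four_low (m : ℕ) : Real.exp m ≤ (4 : ℝ) ^ m := by
  have h1 : Real.exp 1 ≤ 4 := by linarith [Real.exp_one_lt_d9]
  calc Real.exp m = Real.exp 1 ^ m := by rw [← Real.exp_nat_mul, mul_one]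
    _ ≤ 4 ^ m := pow_le_pow_left₀ (Real.exp_pos _).le h1 m

theorem four_up (m : ℕ) : (4 : ℝ) ^ m ≤ Real.exp (2 * m) := by
  have h1 : (4 : ℝ) ≤ Real.exp 2 := by
    have h2 : (2 : ℝ) ≤ Real.exp 1 := by linarith [Real.add_one_le_exp (1 : ℝ)]
    have h3 : Real.exp 2 = Real.exp 1 ^ 2 := by rw [← Real.exp_nat_mul]; norm_num
    rw [h3]
    nlinarith
  calc (4 : ℝ) ^ m ≤ Real.exp 2 ^ m := pow_le_pow_left₀ (by norm_num) h1 m
    _ = Real.exp (2 * m) := by rw [← Real.exp_nat_mul, mul_comm]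

theorem real_param (W : ℕ) [NeZero W] (ε : ℝ) (hε : 0 < ε) : ∀ κ : ℝ, 0 < κ → κ ≤ 1 / 2000 →
    ∃ c1 : ℝ, 0 < c1 ∧ ∀ c : ℝ, 0 < c → c ≤ c1 → ∃ E0 : ℝ, 0 < E0 ∧ ∃ N0 : ℕ, ∀ N q : ℕ, N0 ≤ N → q = W * N →
    ∀ (ψ : ZMod W → ℂ) (g : ℕ → ℂ) (e : ℕ → ℝ),
    SD W q ⌊(N : ℝ) ^ c⌋₊ ⌊(N : ℝ) ^ (1 / 2 - κ)⌋₊ E0 (1 / (2 * W.totient)) ψ g e →
    ∃ ζ : DirichletCharacter ℂ W, (∀ u : (ZMod W)ˣ, ζ (u : ZMod W) ^ 2 = ψ (u : ZMod W)) ∧
    ∀ S : Finset ℕ, (∀ l ∈ S, l.Prime ∧ l.Coprime q ∧ (N : ℝ) ^ ((1 : ℝ) / 100) < l ∧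
      (l : ℝ) ≤ (N : ℝ) ^ ((99 : ℝ) / 200) ∧ g l ≠ ζ (l : ZMod W)) → ∑ l ∈ S, 1 / (l : ℝ) ≤ ε := by
  classical
  have hW : 1 ≤ W := NeZero.one_le
  obtain ⟨cW, hcW, hlow⟩ := rough_low W hW
  obtain ⟨Cs, hCs, hsr⟩ := RG.sum_rough
  obtain ⟨C, hC, hcore⟩ := real_core W
  obtain ⟨κ', hκ'⟩ : ∃ κ' : ℝ, κ' = 1 / 10000 := ⟨_, rfl⟩
  obtain ⟨c0, hc0, hlow2⟩ := hlow κ' (by rw [hκ']; norm_num)
  intro κ hκ hκ1
  refine ⟨min c0 (1 / 200), lt_min hc0 (by norm_num), ?_⟩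
  intro c hc hcc
  have hcc0 : c ≤ c0 := hcc.trans (min_le_left _ _)
  have hc200 : c ≤ 1 / 200 := hcc.trans (min_le_right _ _)
  obtain ⟨R, hR1, N2, hRd⟩ := rough_div c hc
  obtain ⟨N1, hN1⟩ := hlow2 c hc hcc0
  obtain ⟨N3, hN32, hN3⟩ := floor_low c hc
  obtain ⟨w0, hw0⟩ : ∃ w0 : ℝ, w0 = 1 / (2 * W.totient) := ⟨_, rfl⟩
  have hφ : (0 : ℝ) < W.totient := by exact_mod_cast Nat.totient_pos.mpr hW
  have hw0p : 0 < w0 := by rw [hw0]; positivity
  obtain ⟨H, hH⟩ : ∃ H : ℝ, H = Cs * (1 + 1 / c) := ⟨_, rfl⟩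
  have hH0 : 0 < H := by rw [hH]; positivity
  obtain ⟨Cf, hCf⟩ : ∃ Cf : ℝ, Cf = 16 * (2 * H + R) * (4 / w0) * c ^ 2 / (cW ^ 2 * κ' ^ 2) := ⟨_, rfl⟩
  have hκ'0 : 0 < κ' := by rw [hκ']; norm_num
  have hCf0 : 0 < Cf := by rw [hCf]; positivity
  obtain ⟨E0, hE0⟩ : ∃ E0 : ℝ, E0 = min (1 / (1000 * Cf)) (min (ε / (2 * (4 / w0))) (ε / (2 * (C * Cf)))) :=
    ⟨_, rfl⟩
  have hE0p : 0 < E0 := by rw [hE0]; positivity
  have hE1 : E0 ≤ 1 / (1000 * Cf) := by rw [hE0]; exact min_le_left _ _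
  have hE2 : E0 ≤ ε / (2 * (4 / w0)) := by rw [hE0]; exact (min_le_right _ _).trans (min_le_left _ _)
  have hE3 : E0 ≤ ε / (2 * (C * Cf)) := by rw [hE0]; exact (min_le_right _ _).trans (min_le_right _ _)
  refine ⟨E0, hE0p, max N1 (max N2 (max N3 ⌈Real.exp 100000000⌉₊)), ?_⟩
  intro N q hN hq ψ g e h
  have a1 : N1 ≤ N := (le_max_left _ _).trans hN
  have a2 : N2 ≤ N := (le_max_left _ _).trans ((le_max_right _ _).trans hN)
  have a3 : N3 ≤ N := (le_max_left _ _).trans ((le_max_right _ _).trans ((le_max_right _ _).trans hN))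
  have a4 : ⌈Real.exp 100000000⌉₊ ≤ N :=
    (le_max_right _ _).trans ((le_max_right _ _).trans ((le_max_right _ _).trans hN))
  have a5 : Real.exp 100000000 ≤ N := Nat.ceil_le.mp a4
  have hNpos : (0 : ℝ) < N := lt_of_lt_of_le (Real.exp_pos _) a5
  obtain ⟨L, hL⟩ : ∃ L : ℝ, L = Real.log N := ⟨_, rfl⟩
  have hLbig : 100000000 ≤ L := by
    rw [hL, ← Real.log_exp 100000000]
    exact Real.log_le_log (Real.exp_pos _) a5
  have hNx : ∀ t : ℝ, (N : ℝ) ^ t = Real.exp (L * t) := by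
    intro t
    rw [Real.rpow_def_of_pos hNpos, hL]
  obtain ⟨z, hz⟩ : ∃ z : ℕ, z = ⌊(N : ℝ) ^ c⌋₊ := ⟨_, rfl⟩
  obtain ⟨B, hB⟩ : ∃ B : ℕ, B = ⌊(N : ℝ) ^ (1 / 2 - κ)⌋₊ := ⟨_, rfl⟩
  rw [← hz, ← hB, ← hw0] at h
  obtain ⟨z3, -, zN, zL1, zL2⟩ := hN3 N a3 z hz
  rw [← hL] at zL1 zL2
  have hlz : 0 < Real.log z := Real.log_pos (by exact_mod_cast (by omega : 1 < z))
  obtain ⟨K, hK⟩ : ∃ K : ℕ, K = ⌊κ' * L⌋₊ + 1 := ⟨_, rfl⟩
  have hκL : 10000 ≤ κ' * L := by
    rw [hκ']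
    linarith
  have hK1 : κ' * L ≤ K := by
    rw [hK]
    push_cast
    exact (Nat.lt_floor_add_one _).le
  have hK2 : (K : ℝ) ≤ κ' * L + 1 := by
    rw [hK]
    push_cast
    linarith [Nat.floor_le (by linarith : 0 ≤ κ' * L)]
  have hKR : (10000 : ℝ) ≤ K := hκL.trans hK1
  have hK1000 : 1000 ≤ K := by
    have : (1000 : ℝ) ≤ K := by linarith
    exact_mod_cast this
  have hBup : (B : ℝ) ≤ (N : ℝ) ^ (1 / 2 - κ) := by rw [hB]; exact Nat.floor_le (by positivity)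
  -- powers of 4 below B
  have hfour : ∀ m : ℕ, 2 * (m : ℝ) ≤ L * (1 / 2 - κ) → 4 ^ m ≤ B := by
    intro m hm
    rw [hB]
    apply Nat.le_floor
    push_cast
    calc (4 : ℝ) ^ m ≤ Real.exp (2 * m) := four_up m
      _ ≤ Real.exp (L * (1 / 2 - κ)) := Real.exp_le_exp.mpr hm
      _ = _ := (hNx _).symm
  have hB0 : B ≠ 0 := by
    have := hfour 0 (by
      push_cast
      have : 0 ≤ L * (1 / 2 - κ) := mul_nonneg (by linarith) (by linarith)
      linarith)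
    rw [pow_zero] at this
    omega
  obtain ⟨T, hT⟩ : ∃ T : ℕ, T = Nat.log 4 B - 2 := ⟨_, rfl⟩
  have h16 : 16 * K + 2 ≤ Nat.log 4 B := by
    refine Nat.le_log_of_pow_le (by norm_num) ?_
    refine hfour _ ?_
    push_cast
    have e1 : L * (1 / 2 - κ) ≥ L * (1 / 4) := mul_le_mul_of_nonneg_left (by linarith) (by linarith)
    rw [hκ'] at hK2
    linarith
  have hKT : 16 * K ≤ T := by omega
  have hTB : 4 ^ (T + 2) ≤ B := by
    have e1 : T + 2 = Nat.log 4 B := by omega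
    rw [e1]
    exact Nat.pow_log_le_self 4 hB0
  -- cells
  obtain ⟨v, hv⟩ : ∃ v : ℝ, v = cW / Real.log z := ⟨_, rfl⟩
  have hv0 : 0 < v := by rw [hv]; positivity
  have hlo : ∀ i, K ≤ i → i ≤ T → ∀ u : (ZMod W)ˣ, v * 4 ^ i ≤ (lo W q z B (u : ZMod W) i).card ∧
      v * 4 ^ i ≤ (hi W q z B (u : ZMod W) i).card := by
    intro i hKi hiT u
    have h4i : 1 ≤ 4 ^ i := Nat.one_le_pow _ _ (by norm_num)
    have hiR : (1 : ℝ) ≤ 4 ^ i := by exact_mod_cast h4i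
    have hbig : (N : ℝ) ^ κ' ≤ 4 ^ i := by
      calc (N : ℝ) ^ κ' = Real.exp (L * κ') := hNx κ'
        _ ≤ Real.exp i := by
            refine Real.exp_le_exp.mpr ?_
            have : (K : ℝ) ≤ i := by exact_mod_cast hKi
            linarith
        _ ≤ 4 ^ i := four_low i
    have hiB : 4 * 4 ^ i ≤ B := by
      refine le_trans ?_ hTB
      rw [← pow_succ']
      exact Nat.pow_le_pow_right (by norm_num) (by omega)
    have hcop : (u : ZMod W).val.Coprime W := ZMod.val_coe_unit_coprime u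
    have hclass : ∀ m : ℕ, m % W = (u : ZMod W).val % W → (m : ZMod W) = (u : ZMod W) := by
      intro m hm
      rw [← ZMod.natCast_zmod_val (u : ZMod W), ZMod.natCast_eq_natCast_iff']
      exact hm
    constructor
    · have h1 := hN1 N q a1 hq z hz (2 * 4 ^ i - 1) (by
        refine hbig.trans ?_
        have : 4 ^ i ≤ 2 * 4 ^ i - 1 := by omega
        exact_mod_cast this) ((u : ZMod W).val) hcop (lo W q z B (u : ZMod W) i) (by
        intro m hm h2 h3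
        rw [mem_RN'] at hm
        unfold lo
        rw [mem_filter, mem_RN']
        refine ⟨⟨⟨hm.1.1, ?_⟩, hm.2⟩, hclass m h3, ?_, ?_⟩ <;> omega)
      refine le_trans ?_ h1
      rw [hv, div_mul_eq_mul_div, mul_div_assoc]
      refine mul_le_mul_of_nonneg_left (div_le_div_of_nonneg_right ?_ hlz.le) hcW.le
      have : 4 ^ i ≤ 2 * 4 ^ i - 1 := by omega
      exact_mod_cast this
    · have h1 := hN1 N q a1 hq z hz (4 * 4 ^ i - 1) (by
        refine hbig.trans ?_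
        have : 4 ^ i ≤ 4 * 4 ^ i - 1 := by omega
        exact_mod_cast this) ((u : ZMod W).val) hcop (hi W q z B (u : ZMod W) i) (by
        intro m hm h2 h3
        rw [mem_RN'] at hm
        unfold hi
        rw [mem_filter, mem_RN']
        refine ⟨⟨⟨hm.1.1, ?_⟩, hm.2⟩, hclass m h3, ?_, ?_⟩ <;> omega)
      refine le_trans ?_ h1
      rw [hv, div_mul_eq_mul_div, mul_div_assoc]
      refine mul_le_mul_of_nonneg_left (div_le_div_of_nonneg_right ?_ hlz.le) hcW.le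
      have : 4 ^ i ≤ 4 * 4 ^ i - 1 := by omega
      exact_mod_cast this
  have hcell : ∀ i, K ≤ i → i ≤ T → ∀ u : (ZMod W)ˣ, (cell W q z B (u : ZMod W) i).Nonempty := by
    intro i hKi hiT u
    have h1 := (hlo i hKi hiT u).1
    have h2 : (0 : ℝ) < (lo W q z B (u : ZMod W) i).card := lt_of_lt_of_le (by positivity) h1
    have h3 : (lo W q z B (u : ZMod W) i).Nonempty := by
      rw [← card_pos]
      exact_mod_cast h2
    obtain ⟨n, hn⟩ := h3
    refine ⟨n, ?_⟩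
    unfold lo at hn
    rw [mem_filter] at hn
    rw [mem_cell]
    exact ⟨hn.1, hn.2.1, log4 hn.2.2.1 (by omega)⟩
  -- sums
  have hBN : B ≤ N := by
    have : (B : ℝ) ≤ N := by
      calc (B : ℝ) ≤ (N : ℝ) ^ (1 / 2 - κ) := hBup
        _ ≤ (N : ℝ) ^ (1 : ℝ) := by
            refine Real.rpow_le_rpow_of_exponent_le ?_ (by linarith)
            exact_mod_cast Nat.one_le_iff_ne_zero.mpr (by
              intro h0
              rw [h0] at hNpos
              simp at hNpos)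
        _ = N := Real.rpow_one _
    exact_mod_cast this
  have hHs : ∑ n ∈ RN q z B, 1 / (n : ℝ) ≤ H := by
    have hsub : RN q z B ⊆ (Finset.Icc 1 B).filter (Rough z) := by
      intro m hm
      rw [mem_RN'] at hm
      rw [mem_filter, mem_Icc]
      exact ⟨hm.1, hm.2.1⟩
    refine (sum_le_sum_of_subset_of_nonneg hsub fun n _ _ => by positivity).trans ?_
    refine (hsr z B (by omega) (by omega)).trans ?_
    rw [hH]
    refine mul_le_mul_of_nonneg_left ?_ hCs.le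
    have e1 : Real.log B ≤ 1 / 2 * L := by
      have hB1 : (0 : ℝ) < B := by exact_mod_cast Nat.pos_of_ne_zero hB0
      calc Real.log B ≤ Real.log ((N : ℝ) ^ (1 / 2 - κ)) := Real.log_le_log hB1 hBup
        _ = (1 / 2 - κ) * L := by rw [Real.log_rpow hNpos, hL]
        _ ≤ 1 / 2 * L := mul_le_mul_of_nonneg_right (by linarith) (by linarith)
    have e2 : Real.log B / Real.log z ≤ 1 / c := by
      rw [div_le_div_iff₀ hlz hc]
      have : 1 / 2 * L * c ≤ Real.log z := by linarith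
      nlinarith
    linarith
  have hRs : ∀ n ∈ RN q z B, (rdv z n : ℝ) ≤ R := by
    intro n hn
    have h1 := mem_RN'.mp hn
    exact_mod_cast hRd N a2 z hz n h1.1.1 (h1.1.2.trans hBN)
  have hFB := FB_card h hTB hv0 hlo hHs (Nat.cast_nonneg _) hRs
  have hFB2 : ((FB W q z B g e K T).card : ℝ) / (K : ℝ) ^ 2 ≤ Cf * E0 := by
    have hKp : (0 : ℝ) < K := by linarith
    rw [div_le_iff₀ (by positivity)]
    have e1 : ((FB W q z B g e K T).card : ℝ) ≤ 16 * ((2 * H + R) * (4 / w0 * E0)) / v ^ 2 := by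
      rw [le_div_iff₀ (by positivity)]
      linarith
    refine e1.trans ?_
    have e2 : 1 / v ^ 2 ≤ c ^ 2 * L ^ 2 / cW ^ 2 := by
      rw [hv, div_pow, one_div_div]
      refine div_le_div_of_nonneg_right ?_ (by positivity)
      rw [← mul_pow]
      exact pow_le_pow_left₀ hlz.le zL2 2
    have e3 : (κ' * L) ^ 2 ≤ (K : ℝ) ^ 2 := pow_le_pow_left₀ (by linarith) hK1 2
    calc 16 * ((2 * H + R) * (4 / w0 * E0)) / v ^ 2 = 16 * ((2 * H + R) * (4 / w0 * E0)) * (1 / v ^ 2) := by ring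
      _ ≤ 16 * ((2 * H + R) * (4 / w0 * E0)) * (c ^ 2 * L ^ 2 / cW ^ 2) :=
          mul_le_mul_of_nonneg_left e2 (by positivity)
      _ = Cf * E0 * (κ' * L) ^ 2 := by
          rw [hCf]
          field_simp
      _ ≤ Cf * E0 * (K : ℝ) ^ 2 := mul_le_mul_of_nonneg_left e3 (by positivity)
  have hFB3 : 1000 * (FB W q z B g e K T).card ≤ K * K := by
    have hKp : (0 : ℝ) < K := by linarith
    have e1 : Cf * E0 ≤ 1 / 1000 := by
      calc Cf * E0 ≤ Cf * (1 / (1000 * Cf)) := mul_le_mul_of_nonneg_left hE1 hCf0.le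
        _ = 1 / 1000 := by field_simp
    have e2 := hFB2.trans e1
    rw [div_le_iff₀ (by positivity)] at e2
    have e3 : 1000 * ((FB W q z B g e K T).card : ℝ) ≤ K * K := by nlinarith
    exact_mod_cast e3
  obtain ⟨ζ, hζ1, hζ2⟩ := hcore q z B K T E0 w0 ψ g e (by rw [hq]; exact Nat.dvd_mul_right W N) h hK1000 hKT
    hcell hFB3
  refine ⟨ζ, hζ1, ?_⟩
  intro S hS
  have hsub : S ⊆ XP W q z B g ζ K T := by
    intro l hl
    obtain ⟨s1, s2, s3, s4, s5⟩ := hS l hl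
    have hl0 : l ≠ 0 := s1.ne_zero
    have hlpos : (0 : ℝ) < l := by exact_mod_cast Nat.pos_of_ne_zero hl0
    unfold XP
    rw [mem_filter, mem_RN']
    have hlB : 4 ^ (5 * K + 2) * l ≤ B := by
      rw [hB]
      apply Nat.le_floor
      push_cast
      calc (4 : ℝ) ^ (5 * K + 2) * l ≤ Real.exp (2 * ((5 * K + 2 : ℕ) : ℝ)) * (N : ℝ) ^ ((99 : ℝ) / 200) :=
            mul_le_mul (four_up _) s4 hlpos.le (Real.exp_pos _).le
        _ = Real.exp (2 * ((5 * K + 2 : ℕ) : ℝ) + L * (99 / 200)) := by rw [hNx, Real.exp_add]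
        _ ≤ Real.exp (L * (1 / 2 - κ)) := by
            refine Real.exp_le_exp.mpr ?_
            push_cast
            rw [hκ'] at hK2
            have e1 : L * κ ≤ L * (1 / 2000) := mul_le_mul_of_nonneg_left hκ1 (by linarith)
            have e2 : L * (1 / 2 - κ) = L / 2 - L * κ := by ring
            rw [e2]
            linarith
        _ = _ := (hNx _).symm
    have hlB1 : l ≤ B := by
      refine le_trans ?_ hlB
      exact Nat.le_mul_of_pos_left _ (by positivity)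
    refine ⟨⟨⟨Nat.pos_of_ne_zero hl0, hlB1⟩, ?_, s2⟩, s1, ?_, ?_, s5⟩
    · intro p hp hpl
      rw [(Nat.prime_dvd_prime_iff_eq hp s1).mp hpl]
      have e1 : (z : ℝ) < l := by
        calc (z : ℝ) ≤ (N : ℝ) ^ c := zN
          _ ≤ (N : ℝ) ^ ((1 : ℝ) / 100) := by
              rw [hNx, hNx]
              exact Real.exp_le_exp.mpr (mul_le_mul_of_nonneg_left (by linarith) (by linarith))
          _ < l := s3
      exact_mod_cast e1
    · refine Nat.le_log_of_pow_le (by norm_num) ?_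
      have e1 : (4 : ℝ) ^ K ≤ l := by
        calc (4 : ℝ) ^ K ≤ Real.exp (2 * K) := four_up K
          _ ≤ Real.exp (L * (1 / 100)) := by
              refine Real.exp_le_exp.mpr ?_
              rw [hκ'] at hK2
              linarith
          _ = (N : ℝ) ^ ((1 : ℝ) / 100) := (hNx _).symm
          _ ≤ l := s3.le
      exact_mod_cast e1
    · have e1 : Nat.log 4 l + (5 * K + 2) ≤ Nat.log 4 B := by
        refine Nat.le_log_of_pow_le (by norm_num) ?_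
        rw [pow_add]
        calc 4 ^ Nat.log 4 l * 4 ^ (5 * K + 2) ≤ l * 4 ^ (5 * K + 2) :=
              Nat.mul_le_mul_right _ (Nat.pow_log_le_self 4 hl0)
          _ = 4 ^ (5 * K + 2) * l := mul_comm _ _
          _ ≤ B := hlB
      omega
  refine (sum_le_sum_of_subset_of_nonneg hsub fun _ _ _ => by positivity).trans (hζ2.trans ?_)
  have f1 : 4 / w0 * E0 ≤ ε / 2 := by
    calc 4 / w0 * E0 ≤ 4 / w0 * (ε / (2 * (4 / w0))) := mul_le_mul_of_nonneg_left hE2 (by positivity)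
      _ = ε / 2 := by field_simp
  have f2 : C * ((FB W q z B g e K T).card / (K : ℝ) ^ 2) ≤ ε / 2 := by
    calc C * ((FB W q z B g e K T).card / (K : ℝ) ^ 2) ≤ C * (Cf * E0) := mul_le_mul_of_nonneg_left hFB2 hC.le
      _ = (C * Cf) * E0 := by ring
      _ ≤ (C * Cf) * (ε / (2 * (C * Cf))) := mul_le_mul_of_nonneg_left hE3 (by positivity)
      _ = ε / 2 := by field_simp
  linarith

end Pool.Agent.Lib.OWS
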