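import Mathlib
import Pool.Agent.Lib.MP_7b7e48_nt.OW.SPIa
import Pool.Agent.Lib.MP_7b7e48_nt.OW.SPIb
import Pool.Agent.Lib.MP_7b7e48_nt.OW.SPR4

/-!
# Part SP2: the Liouville function, conclusion
-/

set_option autoImplicit false

open Finset
open Pool.Agent.Lib.MP_45349e_nt.LS (lam lam_mul lam_prime)

namespace Pool.Agent.Lib.OW

open Pool.Agent.Lib.RG (RC LV rr SS PB bch)
open Pool.Agent.Lib.OWS (Hyp ww XX)

theorem Dom_UU (W N a : ℕ) : Dom N W a (W * N) = UU W N a := by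
  classical
  ext n
  unfold Dom UU
  rw [mem_filter, mem_filter]
  rfl

/-- the prime factors of `W N` are not in the range -/
theorem range_cop {W N a : ℕ} (hc : Cfg W N a) {l : ℕ} (hl : l.Prime) (h1 : (N : ℝ) ^ ((1 : ℝ) / 100) < l)
    (h2 : (l : ℝ) ≤ (N : ℝ) ^ ((99 : ℝ) / 200)) (hW : (W : ℝ) ≤ (N : ℝ) ^ ((1 : ℝ) / 100)) (hN : 1 < N) :
    l.Coprime (W * N) := by
  have hW1 := hc.W1
  have hNR : (1 : ℝ) < N := by exact_mod_cast hN
  have hlW : ¬ l ∣ W := by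
    intro hd
    have h3 := Nat.le_of_dvd (by omega) hd
    have h4 : (l : ℝ) ≤ W := by exact_mod_cast h3
    linarith
  have hlN : ¬ l ∣ N := by
    intro hd
    have h3 := hc.big l hl hd hlW
    have h4 : (N : ℝ) < (l : ℝ) * l := by exact_mod_cast h3
    have h5 : (l : ℝ) * l ≤ (N : ℝ) ^ ((99 : ℝ) / 200) * (N : ℝ) ^ ((99 : ℝ) / 200) :=
      mul_le_mul h2 h2 (Nat.cast_nonneg _) (by positivity)
    have h6 : (N : ℝ) ^ ((99 : ℝ) / 200) * (N : ℝ) ^ ((99 : ℝ) / 200) ≤ N := by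
      rw [← Real.rpow_add (by linarith)]
      calc (N : ℝ) ^ ((99 : ℝ) / 200 + 99 / 200) ≤ (N : ℝ) ^ (1 : ℝ) :=
            Real.rpow_le_rpow_of_exponent_le hNR.le (by norm_num)
        _ = N := Real.rpow_one _
    linarith
  rw [Nat.Prime.coprime_iff_not_dvd hl]
  intro hd
  rcases hl.dvd_mul.mp hd with h | h
  · exact hlW h
  · exact hlN h

open Classical in
theorem sp2 (W : ℕ) (hW : 1 ≤ W) (ε : ℝ) (hε : 0 < ε) : ∃ η C1 : ℝ, 0 < η ∧ 0 < C1 ∧ ∃ N0 : ℕ,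
    ∀ (N : ℕ) [NeZero (W * N)], N0 ≤ N → ∀ a : ℕ, Cfg W N a →
    (∀ l : ℕ, l.Prime → l % W = 1 % W → (Real.log N) ^ C1 / 2 < l → (l : ℝ) ≤ (Real.log N) ^ C1 →
      (((UU W N a).filter fun x => lam (mr W N l x) ≠ -lam x).card : ℝ) ≤ η * N) →
    ∃ (χ : DirichletCharacter ℂ (W * N)) (β : ℝ), χ ^ 2 = 1 ∧ HV N W a (fun n => (χ (n : ZMod (W * N))).re) β ε := by
  have : NeZero W := ⟨by omega⟩
  obtain ⟨ρ, hρ, N4, hrange⟩ := range_low
  have hWR : (0 : ℝ) < W := by exact_mod_cast hW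
  obtain ⟨ε1, hε1⟩ : ∃ ε1 : ℝ, ε1 = min (ε / W) (1 / 4) := ⟨_, rfl⟩
  have hε1p : 0 < ε1 := by rw [hε1]; positivity
  have hε14 : ε1 ≤ 1 / 4 := by rw [hε1]; exact min_le_right _ _
  have hε1W : ε1 ≤ ε / W := by rw [hε1]; exact min_le_left _ _
  obtain ⟨ε2, hε2⟩ : ∃ ε2 : ℝ, ε2 = min ε (ρ / 2) := ⟨_, rfl⟩
  have hε2p : 0 < ε2 := by rw [hε2]; positivity
  have hε2a : ε2 ≤ ε := by rw [hε2]; exact min_le_left _ _
  have hε2b : ε2 ≤ ρ / 2 := by rw [hε2]; exact min_le_right _ _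
  obtain ⟨κ, hκ, hκ1, hκ2, C1, hC1, hsp⟩ := OWS.spec W ε1 hε1p (1 / 2000) (by norm_num)
  obtain ⟨c1, hc1, hrp⟩ := OWS.real_param W ε2 hε2p κ hκ hκ2
  obtain ⟨c, hc, hcc1, -, η0, hη0, Cc, hCc, N1, hspec⟩ := hsp c1 hc1
  obtain ⟨E0, hE0, N2, hreal⟩ := hrp c hc hcc1
  obtain ⟨N3, hP⟩ := P0_ex W hW C1 hC1
  obtain ⟨η', hη'⟩ : ∃ η' : ℝ, η' = min η0 (E0 / Cc) := ⟨_, rfl⟩
  have hη'p : 0 < η' := by rw [hη']; positivity
  have hη'0 : η' ≤ η0 := by rw [hη']; exact min_le_left _ _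
  have hη'E : Cc * η' ≤ E0 := by
    have : η' ≤ E0 / Cc := by rw [hη']; exact min_le_right _ _
    calc Cc * η' ≤ Cc * (E0 / Cc) := mul_le_mul_of_nonneg_left this hCc.le
      _ = E0 := by field_simp
  refine ⟨η' / 8, C1, by positivity, by exact_mod_cast (by omega : 0 < C1),
    max (max N1 N2) (max (max N3 N4) (max (16 * (W + 1) ^ 2) (W ^ 100))), ?_⟩
  intro N _ hN a hcfg hinv
  have hN1 : N1 ≤ N := (le_max_left _ _).trans ((le_max_left _ _).trans hN)
  have hN2 : N2 ≤ N := (le_max_right _ _).trans ((le_max_left _ _).trans hN)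
  have hN3 : N3 ≤ N := (le_max_left _ _).trans ((le_max_left _ _).trans ((le_max_right _ _).trans hN))
  have hN4 : N4 ≤ N := (le_max_right _ _).trans ((le_max_left _ _).trans ((le_max_right _ _).trans hN))
  have hN5 : 16 * (W + 1) ^ 2 ≤ N :=
    (le_max_left _ _).trans ((le_max_right _ _).trans ((le_max_right _ _).trans hN))
  have hN6 : W ^ 100 ≤ N := (le_max_right _ _).trans ((le_max_right _ _).trans ((le_max_right _ _).trans hN))
  have hN16 : 16 ≤ N := by nlinarith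
  have hNR : (16 : ℝ) ≤ N := by exact_mod_cast hN16
  have hNpos : (0 : ℝ) < N := by linarith
  obtain ⟨u, hu⟩ : ∃ u : ℝ, u = ((UU W N a).card : ℝ) := ⟨_, rfl⟩
  have hu2 : (N : ℝ) / 2 ≤ u := by
    have h1 := card_UU_ge hcfg
    rw [← hu] at h1
    have h2 : (W : ℝ) + 1 ≤ Real.sqrt N / 4 := by
      have h3 : (4 * ((W : ℝ) + 1)) ^ 2 ≤ N := by
        have : ((16 * (W + 1) ^ 2 : ℕ) : ℝ) ≤ N := by exact_mod_cast hN5
        push_cast at this
        linarith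
      have := Real.le_sqrt_of_sq_le h3
      linarith
    have h4 : Real.sqrt N * Real.sqrt N = N := Real.mul_self_sqrt hNpos.le
    have h5 : 1 ≤ Real.sqrt N := by
      rw [Real.one_le_sqrt]
      linarith
    nlinarith
  have hu0 : 0 < u := by linarith
  have hlsq : ∀ n : ℕ, lam n ^ 2 = 1 := by
    intro n
    rcases lam_pm n with h | h <;> rw [h] <;> norm_num
  have hS : ∑ x ∈ UU W N a, lam x ^ 2 = u := by
    rw [sum_congr rfl fun x _ => hlsq x, sum_const, nsmul_eq_mul, mul_one, hu]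
  obtain ⟨P0, hP0, hP0c⟩ := hP N hN3
  have hinv' : ∀ l ∈ P0, ∑ x ∈ UU W N a, (lam (mr W N l x) - (-1) * lam x) ^ 2 ≤
      η' * ∑ x ∈ UU W N a, lam x ^ 2 := by
    intro l hl
    obtain ⟨h1, h2, h3, h4, h5⟩ := hP0 l hl
    have h6 := hinv l h1 h4 (by rw [Real.rpow_natCast]; exact h5) (by rw [Real.rpow_natCast]; exact h2)
    have h7 : ∀ x ∈ UU W N a, (lam (mr W N l x) - (-1) * lam x) ^ 2 =
        if lam (mr W N l x) ≠ -lam x then 4 else 0 := by
      intro x _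
      rcases lam_pm (mr W N l x) with h | h <;> rcases lam_pm x with h' | h' <;> rw [h, h'] <;> norm_num
    rw [sum_congr rfl h7, ← sum_filter, sum_const, nsmul_eq_mul, hS]
    calc (((UU W N a).filter fun x => lam (mr W N l x) ≠ -lam x).card : ℝ) * 4 ≤ (η' / 8 * N) * 4 :=
          mul_le_mul_of_nonneg_right h6 (by norm_num)
      _ = η' * (N / 2) := by ring
      _ ≤ η' * u := mul_le_mul_of_nonneg_left hu2 hη'p.le
  have hyp := hyp_of (c := c) (M := (Real.log N) ^ C1) (η := η') (θ := -1) hcfg (by omega) (fun n => lam n)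
    (fun n => lam n) ∅ P0 (Or.inr rfl)
    (fun l hl => ⟨(hP0 l hl).1, (hP0 l hl).2.1, (hP0 l hl).2.2.1, (hP0 l hl).2.2.2.1⟩) hP0c hinv'
    (fun n _ _ => rfl) (by
      intro l n hl _ _ _ _ hn _
      have hn0 : n ≠ 0 := by
        rintro rfl
        rw [Nat.coprime_zero_left] at hn
        have : N ≤ W * N := Nat.le_mul_of_pos_left _ hW
        omega
      change lam (l * n) = -1 * lam n
      rw [lam_mul l n hl.ne_zero hn0, lam_prime l hl]) (by
      rw [filter_empty, sum_empty]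
      exact hη'p.le)
  have e4 : ∑ x : ZMod (W * N), ext W N a (fun n => lam n) x ^ 2 = u := by
    rw [← hS, ← sum_zmod W N a (fun x => lam x ^ 2)]
    refine sum_congr rfl fun x _ => ?_
    unfold ext
    split_ifs with h
    · rfl
    · ring
  obtain ⟨χ, hχX, hχ, e, he⟩ := hspec N (W * N) hN1 a η' (-1) (ext W N a (fun n => lam n)) (fun n => lam n) _ P0
    hyp hη'0 (by rw [e4]; exact hu0)
  have hWq : W ∣ W * N := Nat.dvd_mul_right W N
  have h34 : 3 / 4 ≤ W.totient * ww (ext W N a (fun n => lam n)) χ := by linarith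
  obtain ⟨ψ2, hψ2⟩ := OWS.rel_inv hyp hWq χ h34
  have he' : OWS.Two W (W * N) ⌊(N : ℝ) ^ c⌋₊ ⌊(N : ℝ) ^ (1 / 2 - κ)⌋₊ E0 (XX (q := W * N) P0 (-1 : ℝ))
      (ww (ext W N a (fun n => lam n))) (OWS.gg (-1 : ℝ)) e := ⟨he.e0, he.mass.trans hη'E, he.two⟩
  have hSD := OWS.SD_of hyp hWq he' hχX h34 ψ2 hψ2
  obtain ⟨ζ, hζ1, hζ2⟩ := hreal N (W * N) hN2 rfl (fun v => ψ2 v) (OWS.gg (-1 : ℝ) χ) e hSD
  -- the real character
  obtain ⟨χ', hχ'⟩ : ∃ χ' : DirichletCharacter ℂ (W * N), χ' = DirichletCharacter.changeLevel hWq ζ⁻¹ * χ :=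
    ⟨_, rfl⟩
  have hζψ : ζ ^ 2 = ψ2 := by
    refine MulChar.ext fun v => ?_
    rw [MulChar.pow_apply' ζ two_ne_zero, hζ1 v]
  have hsq : χ' ^ 2 = 1 := by
    rw [hχ', mul_pow, hψ2, ← hζψ, map_inv, map_pow, inv_pow, inv_mul_cancel]
  have hval : ∀ l : ℕ, l.Prime → l.Coprime (W * N) → OWS.gg (-1 : ℝ) χ l = ζ (l : ZMod W) →
      (χ' (l : ZMod (W * N))).re = -1 := by
    intro l hl hlc hg
    unfold OWS.gg at hg
    rw [OWS.om_prime hl, pow_one] at hg
    have h1 : χ (l : ZMod (W * N)) = -ζ (l : ZMod W) := by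
      rw [← hg]
      push_cast
      ring
    have h2 : IsUnit ((l : ℕ) : ZMod W) := by
      rw [ZMod.isUnit_iff_coprime]
      exact Nat.Coprime.coprime_dvd_right hWq hlc
    have h3 : ζ⁻¹ (l : ZMod W) * ζ (l : ZMod W) = 1 := by
      rw [← MulChar.mul_apply, inv_mul_cancel, MulChar.one_apply h2]
    have h4 : χ' (l : ZMod (W * N)) = -1 := by
      rw [hχ', MulChar.mul_apply, OWS.changeLevel_nat hWq ζ⁻¹ hlc, h1, mul_neg, h3]
    rw [h4]
    simp
  have hWN100 : (W : ℝ) ≤ (N : ℝ) ^ ((1 : ℝ) / 100) := by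
    have h1 : ((W : ℝ) ^ (100 : ℕ)) ≤ N := by exact_mod_cast hN6
    calc (W : ℝ) = ((W : ℝ) ^ (100 : ℕ)) ^ ((1 : ℝ) / 100) := by
          rw [← Real.rpow_natCast, ← Real.rpow_mul hWR.le]
          norm_num
      _ ≤ _ := Real.rpow_le_rpow (by positivity) h1 (by norm_num)
  have hne1 : χ' ≠ 1 := by
    intro h1
    obtain ⟨S, hS1, hS2⟩ := hrange N hN4
    have h2 := hζ2 S (by
      intro l hl
      obtain ⟨s1, s2, s3⟩ := hS1 l hl
      have s4 := range_cop hcfg s1 s2 s3 hWN100 (by omega)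
      refine ⟨s1, s4, s2, s3, ?_⟩
      intro hg
      have s5 := hval l s1 s4 hg
      have s6 : IsUnit ((l : ℕ) : ZMod (W * N)) := by
        rw [ZMod.isUnit_iff_coprime]
        exact s4
      rw [h1, MulChar.one_apply s6] at s5
      norm_num at s5)
    linarith
  have hrc : RC (W * N) (fun n : ℕ => (χ' (n : ZMod (W * N))).re) := by
    refine RG.RC_char (W * N) ?_ χ' hsq hne1
    have : N ≤ W * N := Nat.le_mul_of_pos_left _ hW
    omega
  -- the sign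
  have hww : ww (ext W N a (fun n => lam n)) χ' = ww (ext W N a (fun n => lam n)) χ := by
    rw [hχ']
    exact OWS.ww_rel_eq hyp hWq ζ⁻¹ χ
  obtain ⟨c', hc'⟩ : ∃ c' : ℕ → ℝ, c' = fun n : ℕ => (χ' (n : ZMod (W * N))).re := ⟨_, rfl⟩
  rw [← hc'] at hrc
  obtain ⟨σ, hσ⟩ : ∃ σ : ℝ, σ = ∑ x ∈ UU W N a, lam x * c' x := ⟨_, rfl⟩
  have hreal' : ∀ x : ZMod (W * N), (starRingEnd ℂ) (χ' x) = (((χ' x).re : ℝ) : ℂ) := by
    intro x
    have h1 := SW.rc_real hsq x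
    apply Complex.ext
    · simp
    · simp only [Complex.conj_im, Complex.ofReal_im, neg_eq_zero]
      simpa using h1
  have hext := ww_ext hcfg (fun n => lam n) χ'
  rw [hS, if_neg hu0.ne', ← hu, hww] at hext
  have hσ2 : ‖∑ x ∈ UU W N a, (lam x : ℂ) * (starRingEnd ℂ) (χ' (x : ZMod (W * N)))‖ ^ 2 = σ ^ 2 := by
    have h1 : ∑ x ∈ UU W N a, (lam x : ℂ) * (starRingEnd ℂ) (χ' (x : ZMod (W * N))) = ((σ : ℝ) : ℂ) := by
      rw [hσ, hc']
      push_cast
      refine sum_congr rfl fun x _ => ?_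
      rw [hreal']
    rw [h1, Complex.norm_real, Real.norm_eq_abs, sq_abs]
  rw [hσ2] at hext
  have hσ3 : (1 - ε1) * (u * u) ≤ σ ^ 2 := by
    rw [← hext]
    exact mul_le_mul_of_nonneg_right hχ (by positivity)
  have hσ4 : (1 - ε1) * u ≤ |σ| := by
    have h1 : ((1 - ε1) * u) ^ 2 ≤ σ ^ 2 := by
      refine le_trans ?_ hσ3
      have h2 : (1 - ε1) ^ 2 ≤ 1 - ε1 := by nlinarith
      calc ((1 - ε1) * u) ^ 2 = (1 - ε1) ^ 2 * (u * u) := by ring
        _ ≤ (1 - ε1) * (u * u) := mul_le_mul_of_nonneg_right h2 (by positivity)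
    have h3 := sq_le_sq.mp h1
    rwa [abs_of_nonneg (mul_nonneg (by linarith) hu0.le)] at h3
  obtain ⟨β, hβ⟩ : ∃ β : ℝ, β = if 0 ≤ σ then 1 else -1 := ⟨_, rfl⟩
  have hβ1 : β = 1 ∨ β = -1 := by
    rw [hβ]
    split_ifs
    · exact Or.inl rfl
    · exact Or.inr rfl
  have hβσ : β * σ = |σ| := by
    rw [hβ]
    split_ifs with h
    · rw [one_mul, abs_of_nonneg h]
    · rw [abs_of_neg (not_le.mp h)]
      ring
  refine ⟨χ', β, hsq, ?_⟩
  rw [← hc']
  refine ⟨hrc, hcfg.aW, hβ1, ?_, ?_⟩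
  · -- the exceptional set
    have hcpm : ∀ x ∈ UU W N a, c' x = 1 ∨ c' x = -1 := by
      intro x hx
      refine hrc.val x ?_
      rw [UU, mem_filter] at hx
      exact Nat.Coprime.mul_right (cop_of_class hcfg.aW hx.2.1) hx.2.2
    have h1 : ∀ x ∈ UU W N a, β * (lam x * c' x) = 1 - 2 * (if lam x ≠ β * c' x then 1 else 0) := by
      intro x hx
      rcases lam_pm x with h | h <;> rcases hcpm x hx with h' | h' <;> rcases hβ1 with h'' | h'' <;>
        rw [h, h', h''] <;> norm_num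
    have h2 : β * σ = u - 2 * (((UU W N a).filter fun x => lam x ≠ β * c' x).card : ℝ) := by
      rw [hσ, mul_sum, sum_congr rfl h1, sum_sub_distrib, ← mul_sum, sum_boole, sum_const, nsmul_eq_mul, mul_one,
        hu]
    have h3 : (((UU W N a).filter fun x => lam x ≠ β * c' x).card : ℝ) ≤ ε1 * u := by
      rw [hβσ] at h2
      nlinarith
    have h4 : Zst N W a c' β = (UU W N a).filter fun x => lam x ≠ β * c' x := by
      unfold Zst
      rw [Dom_UU]
    rw [h4]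
    have h5 : u ≤ W * (N.totient : ℝ) := by
      rw [hu]
      exact_mod_cast card_UU_phi W N a (by omega)
    have h6 : del N * N = N.totient := by
      unfold del
      field_simp
    calc (((UU W N a).filter fun x => lam x ≠ β * c' x).card : ℝ) ≤ ε1 * u := h3
      _ ≤ (ε / W) * (W * (N.totient : ℝ)) := mul_le_mul hε1W h5 hu0.le (by positivity)
      _ = ε * (N.totient : ℝ) := by field_simp
      _ = ε * (del N * N) := by rw [h6]
      _ = ε * del N * N := by ring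
  · -- the primes
    refine le_trans (hζ2 _ ?_) hε2a
    intro l hl
    unfold QP at hl
    rw [mem_filter, mem_filter, mem_range] at hl
    obtain ⟨⟨h1, h2, h3⟩, h4⟩ := hl
    have h5 : (l : ℝ) ≤ (N : ℝ) ^ ((99 : ℝ) / 200) := by
      have : l ≤ ⌊(N : ℝ) ^ ((99 : ℝ) / 200)⌋₊ := by omega
      calc (l : ℝ) ≤ ⌊(N : ℝ) ^ ((99 : ℝ) / 200)⌋₊ := by exact_mod_cast this
        _ ≤ _ := Nat.floor_le (by positivity)
    have h6 : l.Coprime (W * N) := by
      by_contra hcc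
      rw [hrc.zero l hcc] at h3
      exact zero_ne_one h3
    refine ⟨h2, h6, h4, h5, ?_⟩
    intro hg
    have h7 := hval l h2 h6 hg
    rw [hc'] at h3
    simp only at h3
    rw [h3] at h7
    norm_num at h7

end Pool.Agent.Lib.OW
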