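import Pool.Agent.Lib.MP_7b7e48_nt.OW.CN1

/-!
# Module CN2 (75 minutes): logarithmic sums over the numbers coprime to `N`

`K = log N`. PROOF. `log_low`: if `log(v/u) ≤ 1` the left side is `≤ 0`. Otherwise use the disjoint blocks `(2^i u, 2^(i+1) u] ⊆ (u, v]`, at least `log(v/u)/log 2 - 1 ≥ log(v/u) - 1` of them, and in each of them only the numbers `≡ 1` modulo `W` coprime to `N`
(they are coprime to `W N`): by `dom_count` (with `y = 2^i u + 1`, `2^(i+1) u + 1`) at least `dd N W 2^i u - 4 · 2^i u/K^10 - 2 ≥ (1/2) dd N W 2^i u` numbers, each contributes `≥ 1/(2^(i+1) u)`: block sum `≥ dd N W/4 ≥ del N/(4 W)`.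
`log_up`: blocks as well (`dom_two` with `W = 1`: `≤ 2 del N (2^(i+1) u + 1)` numbers, each contributes `≤ 1/(2^i u)`), at most `log(v/u)/log 2 + 1` blocks. `log_all`: `k ≤ exp(K^(1/2)) + 1` trivially `≤ K^(1/2) + 3`, which is `≤ C del N K` as `del N ≥ c/log K` (`del_loglog`), the rest by `log_up`, `log y ≤ 2 K`.
-/

open Finset

namespace Pool.Agent.Lib.OW

open Pool.Agent.Lib.RG (RC LV rr SS PB)

private theorem cn2_low (f : ℕ → ℝ) (b : ℝ) (u : ℕ) (m : ℕ)
    (h : ∀ i, i < m → b ≤ ∑ k ∈ Finset.Ioc (2 ^ i * u) (2 ^ (i + 1) * u), f k) :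
    m * b ≤ ∑ k ∈ Finset.Ioc u (2 ^ m * u), f k := by
  induction m with
  | zero => simp
  | succ m ih =>
    have h1 := ih fun i hi => h i (by omega)
    have h2 := h m (by omega)
    have h3 : u ≤ 2 ^ m * u := Nat.le_mul_of_pos_left _ (by positivity)
    have h4 : 2 ^ m * u ≤ 2 ^ (m + 1) * u := Nat.mul_le_mul_right _ (Nat.pow_le_pow_right (by norm_num) (by omega))
    rw [← Finset.sum_Ioc_consecutive f h3 h4]
    push_cast
    linarith

private theorem cn2_up (f : ℕ → ℝ) (b : ℝ) (u : ℕ) (m : ℕ)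
    (h : ∀ i, i < m → ∑ k ∈ Finset.Ioc (2 ^ i * u) (2 ^ (i + 1) * u), f k ≤ b) :
    ∑ k ∈ Finset.Ioc u (2 ^ m * u), f k ≤ m * b := by
  have h0 := cn2_low (fun k => -f k) (-b) u m (fun i hi => by
    rw [Finset.sum_neg_distrib]
    exact neg_le_neg (h i hi))
  rw [Finset.sum_neg_distrib] at h0
  linarith

private theorem cn2_blocks {u v : ℕ} (hu : 1 ≤ u) (huv : u ≤ v) :
    ∃ m : ℕ, 2 ^ m * u ≤ v ∧ v ≤ 2 ^ (m + 1) * u ∧ Real.log ((v : ℝ) / u) - 1 ≤ m ∧
      ((m + 1 : ℕ) : ℝ) ≤ 2 * (Real.log ((v : ℝ) / u) + 1) := by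
  have hq : v / u ≠ 0 := by
    have := (Nat.one_le_div_iff (by omega : 0 < u)).2 huv
    omega
  have h1 : 2 ^ (Nat.log 2 (v / u)) ≤ v / u := Nat.pow_log_le_self 2 hq
  have h2 : v / u < 2 ^ (Nat.log 2 (v / u) + 1) := Nat.lt_pow_succ_log_self (by norm_num) _
  have h3 : 2 ^ (Nat.log 2 (v / u)) * u ≤ v := (Nat.le_div_iff_mul_le (by omega)).1 h1
  have h4 : v < 2 ^ (Nat.log 2 (v / u) + 1) * u := (Nat.div_lt_iff_lt_mul (by omega)).1 h2
  have hu0 : (0 : ℝ) < u := by exact_mod_cast hu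
  have hv0 : (0 : ℝ) < v := by exact_mod_cast (lt_of_lt_of_le (by omega : 0 < u) huv)
  refine ⟨Nat.log 2 (v / u), h3, h4.le, ?_, ?_⟩
  · have h5 : (v : ℝ) / u ≤ 2 ^ (Nat.log 2 (v / u) + 1) := by
      rw [div_le_iff₀ hu0]
      exact_mod_cast h4.le
    have h6 := Real.log_le_log (div_pos hv0 hu0) h5
    rw [Real.log_pow] at h6
    have h7 : Real.log 2 ≤ 1 := by
      have := Real.log_two_lt_d9
      linarith
    have h8 : ((Nat.log 2 (v / u) + 1 : ℕ) : ℝ) * Real.log 2 ≤ (Nat.log 2 (v / u) + 1 : ℕ) * 1 :=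
      mul_le_mul_of_nonneg_left h7 (Nat.cast_nonneg _)
    push_cast at h6 h8
    linarith
  · have h5 : (2 : ℝ) ^ (Nat.log 2 (v / u)) ≤ (v : ℝ) / u := by
      rw [le_div_iff₀ hu0]
      exact_mod_cast h3
    have h6 := Real.log_le_log (by positivity) h5
    rw [Real.log_pow] at h6
    have h7 : (1 : ℝ) / 2 ≤ Real.log 2 := by
      have := Real.log_two_gt_d9
      linarith
    have h8 : ((Nat.log 2 (v / u) : ℕ) : ℝ) * (1 / 2) ≤ (Nat.log 2 (v / u) : ℕ) * Real.log 2 :=
      mul_le_mul_of_nonneg_left h7 (Nat.cast_nonneg _)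
    push_cast
    linarith

private theorem cn2_ev (p : ℝ → Prop) (h : ∃ B : ℝ, ∀ x : ℝ, B ≤ x → p x) :
    ∃ N0 : ℕ, ∀ N : ℕ, N0 ≤ N → p (Real.log N) := by
  obtain ⟨B, hB⟩ := h
  refine ⟨⌈Real.exp B⌉₊, fun N hN => hB _ ?_⟩
  have h1 : Real.exp B ≤ N := (Nat.le_ceil _).trans (by exact_mod_cast hN)
  have h2 := Real.log_le_log (Real.exp_pos B) h1
  rwa [Real.log_exp] at h2

theorem log_low (W : ℕ) (hW : 1 ≤ W) (θ : ℝ) (h0 : 0 < θ) (h1 : θ ≤ 1) : ∃ c : ℝ, 0 < c ∧ ∃ N0 : ℕ, ∀ N : ℕ,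
    N0 ≤ N → ∀ u v : ℕ, Real.exp ((Real.log N) ^ θ) ≤ u → u ≤ v →
    c * del N * (Real.log (v / u) - 1) ≤
      ∑ k ∈ (Finset.Ioc u v).filter (fun k => k.Coprime (W * N)), 1 / (k : ℝ) := by
  obtain ⟨N1, hN1⟩ := dom_count W hW θ h0 h1
  obtain ⟨N2, hN2⟩ := del_low
  obtain ⟨N3, hN3⟩ := cn2_ev (fun x => 10 * (W : ℝ) + 1 ≤ x) ⟨10 * (W : ℝ) + 1, fun x hx => hx⟩
  have hWR : (1 : ℝ) ≤ W := by exact_mod_cast hW
  refine ⟨1 / (4 * W), by positivity, max (max N1 N2) (max N3 1), fun N hN u v hu huv => ?_⟩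
  have hNN1 : N1 ≤ N := (le_max_left _ _).trans ((le_max_left _ _).trans hN)
  have hNN2 : N2 ≤ N := (le_max_right _ _).trans ((le_max_left _ _).trans hN)
  have hNN3 : N3 ≤ N := (le_max_left _ _).trans ((le_max_right _ _).trans hN)
  have hNN4 : 1 ≤ N := (le_max_right _ _).trans ((le_max_right _ _).trans hN)
  have hK : 10 * (W : ℝ) + 1 ≤ Real.log N := hN3 N hNN3
  have hdl : 1 ≤ Real.log N * del N := hN2 N hNN2
  have hK0 : 0 < Real.log N := by linarith
  have hK1 : 1 ≤ Real.log N := by linarith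
  have hdel0 : 0 ≤ del N := by unfold del; positivity
  have hdb := dd_bounds N W hNN4 hW
  have hupos : 1 ≤ u := by
    have : (0 : ℝ) < u := lt_of_lt_of_le (Real.exp_pos _) hu
    exact_mod_cast this
  obtain ⟨m, hm1, -, hm3, -⟩ := cn2_blocks hupos huv
  -- block bound
  have hblock : ∀ i, i < m → del N / (4 * W) ≤
      ∑ k ∈ Finset.Ioc (2 ^ i * u) (2 ^ (i + 1) * u), (if k.Coprime (W * N) then 1 / (k : ℝ) else 0) := by
    intro i _
    set w : ℕ := 2 ^ i * u with hw
    have hw2 : 2 ^ (i + 1) * u = 2 * w := by rw [hw, pow_succ]; ring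
    rw [hw2]
    have hw1 : 1 ≤ w := Nat.mul_pos (by positivity) hupos
    have huw : u ≤ w := Nat.le_mul_of_pos_left _ (by positivity)
    have hwR : (1 : ℝ) ≤ w := by exact_mod_cast hw1
    have hexp : Real.exp ((Real.log N) ^ θ) ≤ (w : ℝ) := hu.trans (by exact_mod_cast huw)
    have hc1 := hN1 N hNN1 1 (w + 1) (Nat.coprime_one_left W) (by push_cast; linarith)
    have hc2 := hN1 N hNN1 1 (2 * w + 1) (Nat.coprime_one_left W) (by push_cast; linarith)
    rw [abs_le] at hc1 hc2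
    have hsub : ((Finset.Ioc w (2 * w)).filter (fun k => k ≡ 1 [MOD W] ∧ k.Coprime N)).card +
        (Dom N W 1 (w + 1)).card = (Dom N W 1 (2 * w + 1)).card := by
      classical
      rw [← Finset.card_union_of_disjoint]
      · congr 1
        ext k
        simp only [Dom, Finset.mem_union, Finset.mem_filter, Finset.mem_Ioc, Finset.mem_range]
        constructor
        · rintro (⟨⟨h1, h2⟩, h3⟩ | ⟨h1, h3⟩)
          · exact ⟨by omega, h3⟩
          · exact ⟨by omega, h3⟩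
        · rintro ⟨h1, h3⟩
          by_cases hk : w < k
          · exact Or.inl ⟨⟨hk, by omega⟩, h3⟩
          · exact Or.inr ⟨by omega, h3⟩
      · rw [Finset.disjoint_left]
        intro k hk1 hk2
        simp only [Dom, Finset.mem_filter, Finset.mem_Ioc, Finset.mem_range] at hk1 hk2
        omega
    have hsubR : (((Finset.Ioc w (2 * w)).filter (fun k => k ≡ 1 [MOD W] ∧ k.Coprime N)).card : ℝ) +
        (Dom N W 1 (w + 1)).card = (Dom N W 1 (2 * w + 1)).card := by exact_mod_cast hsub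
    have hKp : 10 * (W : ℝ) * Real.log N ≤ (Real.log N) ^ 10 := by
      have h5 : Real.log N ^ 1 ≤ Real.log N ^ 8 := pow_le_pow_right₀ hK1 (by norm_num)
      have h6 : (Real.log N) ^ 10 = Real.log N ^ 8 * Real.log N * Real.log N := by ring
      rw [h6]
      have h7 : 10 * (W : ℝ) ≤ Real.log N ^ 8 * Real.log N := by nlinarith
      exact mul_le_mul_of_nonneg_right h7 hK0.le
    have herr : 10 / (Real.log N) ^ 10 ≤ dd N W := by
      have h5 : 1 / ((W : ℝ) * Real.log N) ≤ del N / W := by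
        rw [div_le_div_iff₀ (by positivity) (by positivity)]
        nlinarith
      have h6 : 10 / (Real.log N) ^ 10 ≤ 1 / ((W : ℝ) * Real.log N) := by
        rw [div_le_div_iff₀ (by positivity) (by positivity)]
        linarith
      linarith [hdb.1]
    have hcount : dd N W * w / 2 ≤
        (((Finset.Ioc w (2 * w)).filter (fun k => k ≡ 1 [MOD W] ∧ k.Coprime N)).card : ℝ) := by
      push_cast at hc1 hc2
      have h5 := hc2.1
      have h6 := hc1.2
      have h7 : (2 * (w : ℝ) + 1) / (Real.log N) ^ 10 + ((w : ℝ) + 1) / (Real.log N) ^ 10 ≤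
          (w : ℝ) / 2 * (10 / (Real.log N) ^ 10) := by
        rw [← add_div, mul_div_assoc', div_le_div_iff_of_pos_right (by positivity)]
        linarith
      have h8 : (w : ℝ) / 2 * (10 / (Real.log N) ^ 10) ≤ (w : ℝ) / 2 * dd N W :=
        mul_le_mul_of_nonneg_left herr (by positivity)
      have h9 : dd N W * (2 * (w : ℝ) + 1) - dd N W * ((w : ℝ) + 1) = dd N W * w := by ring
      linarith
    have hsum : (((Finset.Ioc w (2 * w)).filter (fun k => k ≡ 1 [MOD W] ∧ k.Coprime N)).card : ℝ) *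
        (1 / (2 * (w : ℝ))) ≤
        ∑ k ∈ Finset.Ioc w (2 * w), (if k.Coprime (W * N) then 1 / (k : ℝ) else 0) := by
      rw [← nsmul_eq_mul, ← Finset.sum_const]
      rw [Finset.sum_filter]
      refine Finset.sum_le_sum fun k hk => ?_
      rw [Finset.mem_Ioc] at hk
      have hk0 : (0 : ℝ) < k := by
        have : 0 < k := by omega
        exact_mod_cast this
      by_cases h5 : k ≡ 1 [MOD W] ∧ k.Coprime N
      · have h6 : k.Coprime (W * N) := by
          refine Nat.Coprime.mul_right ?_ h5.2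
          have h7 := h5.1.gcd_eq
          rw [Nat.gcd_one_left] at h7
          exact h7
        rw [if_pos h5, if_pos h6]
        have h7 : (k : ℝ) ≤ 2 * w := by exact_mod_cast hk.2
        exact one_div_le_one_div_of_le hk0 h7
      · rw [if_neg h5]
        split_ifs
        · positivity
        · exact le_rfl
    refine le_trans ?_ hsum
    have h5 := mul_le_mul_of_nonneg_right hcount (by positivity : (0 : ℝ) ≤ 1 / (2 * (w : ℝ)))
    refine le_trans ?_ h5
    have h6 : dd N W * (w : ℝ) / 2 * (1 / (2 * (w : ℝ))) = dd N W / 4 := by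
      have : (w : ℝ) ≠ 0 := by positivity
      field_simp
      ring
    rw [h6]
    have h7 : del N / (4 * W) = del N / W / 4 := by
      field_simp
    rw [h7]
    linarith [hdb.1]
  have hlow := cn2_low _ _ u m hblock
  rw [Finset.sum_filter]
  have hmono : ∑ k ∈ Finset.Ioc u (2 ^ m * u), (if k.Coprime (W * N) then 1 / (k : ℝ) else 0) ≤
      ∑ k ∈ Finset.Ioc u v, (if k.Coprime (W * N) then 1 / (k : ℝ) else 0) := by
    refine Finset.sum_le_sum_of_subset_of_nonneg (Finset.Ioc_subset_Ioc_right hm1) fun k _ _ => ?_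
    split_ifs
    · positivity
    · exact le_rfl
  have h5 : 1 / (4 * (W : ℝ)) * del N * (Real.log ((v : ℝ) / u) - 1) ≤ m * (del N / (4 * W)) := by
    have h6 : 0 ≤ 1 / (4 * (W : ℝ)) * del N := by positivity
    have h7 := mul_le_mul_of_nonneg_left hm3 h6
    have h8 : 1 / (4 * (W : ℝ)) * del N * m = m * (del N / (4 * W)) := by ring
    linarith
  linarith

theorem log_up (θ : ℝ) (h0 : 0 < θ) (h1 : θ ≤ 1) : ∃ C : ℝ, 0 < C ∧ ∃ N0 : ℕ, ∀ N : ℕ,
    N0 ≤ N → ∀ u v : ℕ, Real.exp ((Real.log N) ^ θ) ≤ u → u ≤ v →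
    ∑ k ∈ (Finset.Ioc u v).filter (fun k => k.Coprime N), 1 / (k : ℝ) ≤ C * del N * (Real.log (v / u) + 1) := by
  obtain ⟨N1, hN1⟩ := dom_two 1 le_rfl θ h0 h1
  refine ⟨12, by norm_num, N1, fun N hN u v hu huv => ?_⟩
  have hdel0 : 0 ≤ del N := by unfold del; positivity
  have hupos : 1 ≤ u := by
    have : (0 : ℝ) < u := lt_of_lt_of_le (Real.exp_pos _) hu
    exact_mod_cast this
  obtain ⟨m, -, hm2, -, hm4⟩ := cn2_blocks hupos huv
  have hblock : ∀ i, i < m + 1 →
      ∑ k ∈ Finset.Ioc (2 ^ i * u) (2 ^ (i + 1) * u), (if k.Coprime N then 1 / (k : ℝ) else 0) ≤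
        6 * del N := by
    intro i _
    set w : ℕ := 2 ^ i * u with hw
    have hw2 : 2 ^ (i + 1) * u = 2 * w := by rw [hw, pow_succ]; ring
    rw [hw2]
    have hw1 : 1 ≤ w := Nat.mul_pos (by positivity) hupos
    have huw : u ≤ w := Nat.le_mul_of_pos_left _ (by positivity)
    have hwR : (1 : ℝ) ≤ w := by exact_mod_cast hw1
    have hexp : Real.exp ((Real.log N) ^ θ) ≤ (w : ℝ) := hu.trans (by exact_mod_cast huw)
    have hc2 := (hN1 N hN 0 (2 * w + 1) (Nat.coprime_one_right 0) (by push_cast; linarith)).2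
    have hcard : ((Finset.Ioc w (2 * w)).filter (fun k => k.Coprime N)).card ≤
        (Dom N 1 0 (2 * w + 1)).card := by
      refine Finset.card_le_card fun k hk => ?_
      simp only [Dom, Finset.mem_filter, Finset.mem_Ioc, Finset.mem_range] at hk ⊢
      exact ⟨by omega, Nat.modEq_one, hk.2⟩
    have hcardR : (((Finset.Ioc w (2 * w)).filter (fun k => k.Coprime N)).card : ℝ) ≤
        (Dom N 1 0 (2 * w + 1)).card := by exact_mod_cast hcard
    rw [← Finset.sum_filter]
    have h5 : ∑ k ∈ (Finset.Ioc w (2 * w)).filter (fun k => k.Coprime N), 1 / (k : ℝ) ≤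
        (((Finset.Ioc w (2 * w)).filter (fun k => k.Coprime N)).card : ℝ) * (1 / (w : ℝ)) := by
      rw [← nsmul_eq_mul]
      refine Finset.sum_le_card_nsmul _ _ _ fun k hk => ?_
      rw [Finset.mem_filter, Finset.mem_Ioc] at hk
      have h7 : (w : ℝ) ≤ k := by exact_mod_cast hk.1.1.le
      exact one_div_le_one_div_of_le (by linarith) h7
    have h6 : (((Finset.Ioc w (2 * w)).filter (fun k => k.Coprime N)).card : ℝ) ≤ 6 * del N * w := by
      push_cast at hc2
      have h7 : 2 * del N * (2 * (w : ℝ) + 1) ≤ 6 * del N * w := by nlinarith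
      linarith
    have h8 := mul_le_mul_of_nonneg_right h6 (by positivity : (0 : ℝ) ≤ 1 / (w : ℝ))
    have h9 : 6 * del N * (w : ℝ) * (1 / (w : ℝ)) = 6 * del N := by
      have : (w : ℝ) ≠ 0 := by positivity
      field_simp
    linarith
  have hup := cn2_up _ _ u (m + 1) hblock
  rw [Finset.sum_filter]
  have hmono : ∑ k ∈ Finset.Ioc u v, (if k.Coprime N then 1 / (k : ℝ) else 0) ≤
      ∑ k ∈ Finset.Ioc u (2 ^ (m + 1) * u), (if k.Coprime N then 1 / (k : ℝ) else 0) := by
    refine Finset.sum_le_sum_of_subset_of_nonneg (Finset.Ioc_subset_Ioc_right hm2) fun k _ _ => ?_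
    split_ifs
    · positivity
    · exact le_rfl
  have h5 := mul_le_mul_of_nonneg_right hm4 (by positivity : (0 : ℝ) ≤ 6 * del N)
  have h6 : 2 * (Real.log ((v : ℝ) / u) + 1) * (6 * del N) =
      12 * del N * (Real.log ((v : ℝ) / u) + 1) := by ring
  linarith

private theorem cn2_harm (n : ℕ) : ∑ a ∈ Finset.Icc 1 n, (1 : ℝ) / a ≤ 1 + Real.log n := by
  have h := harmonic_le_one_add_log n
  rw [harmonic_eq_sum_Icc] at h
  push_cast at h
  simpa only [one_div] using h

theorem log_all : ∃ C : ℝ, 0 < C ∧ ∃ N0 : ℕ, ∀ N : ℕ, N0 ≤ N → ∀ y : ℕ, (y : ℝ) ≤ (N : ℝ) ^ 2 →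
    ∑ k ∈ (Finset.Icc 1 y).filter (fun k => k.Coprime N), 1 / (k : ℝ) ≤ C * del N * Real.log N := by
  obtain ⟨c, hc, N1, hN1⟩ := del_loglog
  obtain ⟨C, hC, N2, hN2⟩ := log_up (1 / 2) (by norm_num) (by norm_num)
  obtain ⟨N3, hN3⟩ := cn2_ev (fun x => 20736 ≤ x) ⟨20736, fun x hx => hx⟩
  refine ⟨1 / c + 3 * C, by positivity, max (max N1 N2) N3, fun N hN y hy => ?_⟩
  have hNN1 : N1 ≤ N := (le_max_left _ _).trans ((le_max_left _ _).trans hN)
  have hNN2 : N2 ≤ N := (le_max_right _ _).trans ((le_max_left _ _).trans hN)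
  have hNN3 : N3 ≤ N := (le_max_right _ _).trans hN
  have hK : 20736 ≤ Real.log N := hN3 N hNN3
  have hll : c ≤ Real.log (Real.log N) * del N := hN1 N hNN1
  have hdel0 : 0 ≤ del N := by unfold del; positivity
  set K : ℝ := Real.log N with hKdef
  have hK0 : 0 < K := by linarith
  have hN0 : (0 : ℝ) < N := by
    rcases Nat.eq_zero_or_pos N with h | h
    · rw [h] at hKdef
      simp at hKdef
      linarith
    · exact_mod_cast h
  -- the small part
  set t : ℝ := K ^ ((1 : ℝ) / 4) with ht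
  have ht0 : 0 < t := Real.rpow_pos_of_pos hK0 _
  have ht4 : t ^ 4 = K := by
    rw [ht, ← Real.rpow_natCast, ← Real.rpow_mul hK0.le]
    norm_num
  have ht2 : K ^ ((1 : ℝ) / 2) = t ^ 2 := by
    rw [ht, ← Real.rpow_natCast, ← Real.rpow_mul hK0.le]
    norm_num
  have ht12 : 12 ≤ t := by
    by_contra hcon
    push Not at hcon
    have : t ^ 4 < 12 ^ 4 := pow_lt_pow_left₀ hcon ht0.le (by norm_num)
    rw [ht4] at this
    norm_num at this
    linarith
  have hlogK : Real.log K ≤ 4 * t := by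
    rw [← ht4, Real.log_pow]
    have := Real.log_le_sub_one_of_pos ht0
    push_cast
    linarith
  have hsmall : K ^ ((1 : ℝ) / 2) + 2 ≤ 1 / c * del N * K := by
    have h5 : (t ^ 2 + 2) * (4 * t) ≤ K := by
      rw [← ht4]
      have h6 : t ^ 2 + 2 ≤ 3 * t ^ 2 := by nlinarith
      have h7 : (t ^ 2 + 2) * (4 * t) ≤ 3 * t ^ 2 * (4 * t) :=
        mul_le_mul_of_nonneg_right h6 (by positivity)
      have h8 : t ^ 4 = t * t ^ 3 := by ring
      have h9 : 3 * t ^ 2 * (4 * t) = 12 * t ^ 3 := by ring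
      have h10 : 12 * t ^ 3 ≤ t * t ^ 3 := mul_le_mul_of_nonneg_right ht12 (by positivity)
      linarith
    have h6 : c * (t ^ 2 + 2) ≤ del N * K := by
      have h7 : c ≤ 4 * t * del N := hll.trans (mul_le_mul_of_nonneg_right hlogK hdel0)
      have h8 : c * (t ^ 2 + 2) ≤ 4 * t * del N * (t ^ 2 + 2) :=
        mul_le_mul_of_nonneg_right h7 (by positivity)
      have h9 : 4 * t * del N * (t ^ 2 + 2) = del N * ((t ^ 2 + 2) * (4 * t)) := by ring
      have h10 := mul_le_mul_of_nonneg_left h5 hdel0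
      linarith
    rw [ht2]
    have h7 : 1 / c * del N * K = del N * K / c := by ring
    rw [h7, le_div_iff₀ hc]
    linarith
  set u : ℕ := ⌈Real.exp (K ^ ((1 : ℝ) / 2))⌉₊ with hu
  have hue : Real.exp (K ^ ((1 : ℝ) / 2)) ≤ u := Nat.le_ceil _
  have hue2 : (u : ℝ) ≤ 2 * Real.exp (K ^ ((1 : ℝ) / 2)) := by
    have h5 := (Nat.ceil_lt_add_one (Real.exp_pos (K ^ ((1 : ℝ) / 2))).le).le
    have h6 : 1 ≤ Real.exp (K ^ ((1 : ℝ) / 2)) := Real.one_le_exp (by positivity)
    linarith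
  have hu0 : (0 : ℝ) < u := lt_of_lt_of_le (Real.exp_pos _) hue
  have hu1 : 1 ≤ u := by exact_mod_cast hu0
  have hlogu : 1 + Real.log u ≤ K ^ ((1 : ℝ) / 2) + 2 := by
    have h5 := Real.log_le_log hu0 hue2
    rw [Real.log_mul (by norm_num) (Real.exp_pos _).ne', Real.log_exp] at h5
    have := Real.log_two_lt_d9
    linarith
  have hfil : ∀ n : ℕ, ∑ k ∈ (Finset.Icc 1 n).filter (fun k => k.Coprime N), 1 / (k : ℝ) ≤
      1 + Real.log n := by
    intro n
    refine le_trans ?_ (cn2_harm n)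
    refine Finset.sum_le_sum_of_subset_of_nonneg (Finset.filter_subset _ _) fun k _ _ => ?_
    positivity
  have hCd : 0 ≤ C * del N * K := by positivity
  rcases le_total y u with hyu | hyu
  · rcases Nat.eq_zero_or_pos y with hy0 | hy0
    · rw [hy0]
      simp only [Nat.lt_one_iff, Nat.zero_lt_one, Finset.Icc_eq_empty_of_lt, Finset.filter_empty,
        Finset.sum_empty]
      positivity
    · have h5 := hfil y
      have h6 : Real.log y ≤ Real.log u :=
        Real.log_le_log (by exact_mod_cast hy0) (by exact_mod_cast hyu)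
      have h7 : (1 / c + 3 * C) * del N * K = 1 / c * del N * K + 3 * (C * del N * K) := by ring
      rw [h7]
      linarith
  · have hsplit : ∑ k ∈ (Finset.Icc 1 y).filter (fun k => k.Coprime N), 1 / (k : ℝ) =
        ∑ k ∈ (Finset.Icc 1 u).filter (fun k => k.Coprime N), 1 / (k : ℝ) +
        ∑ k ∈ (Finset.Ioc u y).filter (fun k => k.Coprime N), 1 / (k : ℝ) := by
      simp only [Finset.sum_filter]
      have e : ∀ n : ℕ, Finset.Icc 1 n = Finset.Ioc 0 n := by
        intro n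
        ext k
        simp only [Finset.mem_Icc, Finset.mem_Ioc]
        omega
      rw [e, e]
      exact (Finset.sum_Ioc_consecutive _ (Nat.zero_le u) hyu).symm
    rw [hsplit]
    have h5 := hfil u
    have h6 := hN2 N hNN2 u y hue hyu
    have hy1 : 1 ≤ y := hu1.trans hyu
    have h7 : Real.log ((y : ℝ) / u) ≤ 2 * K := by
      have h8 : (y : ℝ) / u ≤ (N : ℝ) ^ 2 := by
        rw [div_le_iff₀ hu0]
        have h9 : (1 : ℝ) ≤ u := by exact_mod_cast hu1
        have h10 : (0 : ℝ) ≤ (N : ℝ) ^ 2 := by positivity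
        nlinarith
      have h11 := Real.log_le_log (div_pos (by exact_mod_cast hy1) hu0) h8
      rw [Real.log_pow] at h11
      push_cast at h11
      exact h11
    have h12 : C * del N * (Real.log ((y : ℝ) / u) + 1) ≤ C * del N * (3 * K) :=
      mul_le_mul_of_nonneg_left (by linarith) (by positivity)
    have h13 : (1 / c + 3 * C) * del N * K = 1 / c * del N * K + C * del N * (3 * K) := by ring
    rw [h13]
    linarith

end Pool.Agent.Lib.OW
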