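import Mathlib

/-!
# A power beats a logarithm (used in LFO, LPO, LEO, ULN)
-/

set_option autoImplicit false

open Finset Filter Topology

namespace Pool.Agent.Lib.OW

theorem evlog (C : ℝ) {s t : ℝ} (hs : 0 ≤ s) (hst : s < t) :
    ∀ᶠ K : ℝ in atTop, C * (Real.log K + 1) * (K ^ s + C) ≤ K ^ t := by
  obtain ⟨D, hD⟩ : ∃ D : ℝ, D = |C| + 1 := ⟨_, rfl⟩
  have hD0 : 0 < D := by rw [hD]; positivity
  have hCD : C ≤ D := by rw [hD]; linarith [le_abs_self C]
  obtain ⟨e, he⟩ : ∃ e : ℝ, e = (t - s) / 2 := ⟨_, rfl⟩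
  have he0 : 0 < e := by rw [he]; linarith
  have h1 := (tendsto_rpow_atTop he0).eventually (eventually_ge_atTop (D * (1 / e + 1) * (1 + D)))
  filter_upwards [h1, eventually_ge_atTop (1 : ℝ)] with K hK hK1
  have hK0 : 0 < K := by linarith
  have hlog0 : 0 ≤ Real.log K := Real.log_nonneg hK1
  have hKe : 1 ≤ K ^ e := Real.one_le_rpow hK1 he0.le
  have hKs : 1 ≤ K ^ s := Real.one_le_rpow hK1 hs
  have h2 : Real.log K ≤ K ^ e / e := Real.log_le_rpow_div hK0.le he0
  have h3 : Real.log K + 1 ≤ (1 / e + 1) * K ^ e := by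
    have : (1 / e + 1) * K ^ e = K ^ e / e + K ^ e := by ring
    rw [this]
    linarith
  have h4 : K ^ s + C ≤ (1 + D) * K ^ s := by nlinarith
  rcases le_or_gt (K ^ s + C) 0 with h5 | h5
  · rcases le_or_gt C 0 with h6 | h6
    · have h7 : K ^ s + C ≤ 0 := h5
      -- then `-C ≥ 1`; the product may be positive
      have h8 : C * (Real.log K + 1) * (K ^ s + C) ≤ D * (Real.log K + 1) * D := by
        have e1 : -(K ^ s + C) ≤ D := by
          rw [hD]
          linarith [neg_le_abs C]
        have e2 : -C ≤ D := by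
          rw [hD]
          linarith [neg_le_abs C]
        have e3 : C * (Real.log K + 1) * (K ^ s + C) = (-C) * (-(K ^ s + C)) * (Real.log K + 1) := by ring
        rw [e3]
        have e4 : (-C) * (-(K ^ s + C)) ≤ D * D := mul_le_mul e2 e1 (by linarith) hD0.le
        have e5 := mul_le_mul_of_nonneg_right e4 (show 0 ≤ Real.log K + 1 by linarith)
        linarith
      refine h8.trans ?_
      have h9 : D * (Real.log K + 1) * D ≤ D * ((1 / e + 1) * K ^ e) * (1 + D) := by
        refine mul_le_mul (mul_le_mul_of_nonneg_left h3 hD0.le) (by linarith) hD0.le (by positivity)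
      refine h9.trans ?_
      calc D * ((1 / e + 1) * K ^ e) * (1 + D) = (D * (1 / e + 1) * (1 + D)) * K ^ e := by ring
        _ ≤ K ^ e * K ^ e := mul_le_mul_of_nonneg_right hK (by positivity)
        _ = K ^ (e + e) := (Real.rpow_add hK0 e e).symm
        _ ≤ K ^ t := Real.rpow_le_rpow_of_exponent_le hK1 (by rw [he]; linarith)
    · have h7 : 0 < K ^ s + C := by positivity
      linarith
  · have h6 : C * (Real.log K + 1) ≤ D * ((1 / e + 1) * K ^ e) := by
      have e1 : C * (Real.log K + 1) ≤ D * (Real.log K + 1) :=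
        mul_le_mul_of_nonneg_right hCD (by linarith)
      exact e1.trans (mul_le_mul_of_nonneg_left h3 hD0.le)
    calc C * (Real.log K + 1) * (K ^ s + C) ≤ D * ((1 / e + 1) * K ^ e) * ((1 + D) * K ^ s) :=
          mul_le_mul h6 h4 h5.le (by positivity)
      _ = (D * (1 / e + 1) * (1 + D)) * (K ^ e * K ^ s) := by ring
      _ ≤ K ^ e * (K ^ e * K ^ s) := mul_le_mul_of_nonneg_right hK (by positivity)
      _ = K ^ t := by
          rw [← Real.rpow_add hK0, ← Real.rpow_add hK0]
          congr 1
          rw [he]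
          ring

end Pool.Agent.Lib.OW
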