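import Pool.Agent.Lib.MP_7b7e48_nt.OW.GL

/-!
# Module PRE (40 minutes): affected points

`pre`: if `mr W N A x = z ∈ S ⊂ UU`, then `z` is coprime to `W N` (class `a`), so `A` is coprime to `W N` (in particular `A ≥ 1` as
`W N ≥ 3`), and `x < W N` is determined by `A` and `z`: at most `B * card S` points `x`.
`afc`: let `z ∈ Aff W N a E` with `X, α, β, D, e`; `z > 0` (coprime to `N ≥ 3`), `X = z + D N ≥ z + W N > 2 z`, so `gl` applies: `n1 = e (X/α)`,
`n2 = e (z/β)` satisfy `e ∣ n1`, `β ∣ N - n1`, `e ∣ n2`, `α ∣ N - n2`, `0 < n1, n2 < N`. If `n1 ∈ E`: `(D, n1, e, β)` determines `α = β + D e`,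
`X = α (n1/e)`, `z = X - D N`. If `n2 ∈ E`: `(D, n2, e, α)` determines `β = α - D e`, `z = β (n2/e)`. `D` is one of the `≤ 2 tJ N` multiples of
`W` in `[W, 2 tJ N W]`, `(e, β)` resp. `(e, α)` is one of `≤ inc N n` pairs (`e ≤ α ≤ LL N`). So `card Aff ≤ 2 · 2 tJ N · ∑_{n ∈ E} inc N n`
(injection of `Aff` into `Bool × [1, 2 tJ N] × (Σ n ∈ E, divisors pairs)`).
-/

set_option autoImplicit false

open Finset
open Pool.Agent.Lib.MP_45349e_nt.LS (lam)

namespace Pool.Agent.Lib.OW

open Classical in
theorem pre {W N a B : ℕ} (hc : Cfg W N a) (hn : Num W N) (S : Finset ℕ) (hS : S ⊆ UU W N a) :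
    ((UU W N a).filter fun x => ∃ A : ℕ, A ≤ B ∧ mr W N A x ∈ S).card ≤ B * S.card := by
  have hW := hc.W1
  have hN3 := hn.N3
  have hWN3 : 3 ≤ W * N := by nlinarith
  have hcop : ∀ A x : ℕ, mr W N A x ∈ S → A.Coprime (W * N) := by
    intro A x h
    have h1 := hS h
    rw [UU, mem_filter] at h1
    obtain ⟨-, h2, h3⟩ := h1
    have h4 : (mr W N A x).Coprime W := by
      have h5 : Nat.gcd W (mr W N A x) = Nat.gcd W a := by
        rw [Nat.gcd_rec W (mr W N A x), Nat.gcd_rec W a, h2]
      rw [Nat.coprime_comm, Nat.Coprime, h5]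
      exact hc.aW.symm
    have h6 : (mr W N A x).Coprime (W * N) := Nat.Coprime.mul_right h4 h3
    have h7 : (A * x).Coprime (W * N) := by
      have h8 : Nat.gcd (W * N) (mr W N A x) = Nat.gcd (W * N) (A * x) := by
        rw [Nat.gcd_rec (W * N) (mr W N A x), Nat.gcd_rec (W * N) (A * x), mr, Nat.mod_mod]
      rw [Nat.coprime_comm, Nat.Coprime, ← h8]
      exact h6.symm
    exact h7.coprime_mul_right
  have hsub : ((UU W N a).filter fun x => ∃ A : ℕ, A ≤ B ∧ mr W N A x ∈ S) ⊆
      (Finset.Icc 1 B).biUnion fun A => (UU W N a).filter fun x => mr W N A x ∈ S := by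
    intro x hx
    rw [mem_filter] at hx
    obtain ⟨hx1, A, hA, hx2⟩ := hx
    rw [mem_biUnion]
    refine ⟨A, ?_, ?_⟩
    · rw [mem_Icc]
      refine ⟨?_, hA⟩
      rcases Nat.eq_zero_or_pos A with h | h
      · subst h
        have := hcop 0 x hx2
        rw [Nat.coprime_zero_left] at this
        omega
      · exact h
    · rw [mem_filter]
      exact ⟨hx1, hx2⟩
  calc _ ≤ ((Finset.Icc 1 B).biUnion fun A => (UU W N a).filter fun x => mr W N A x ∈ S).card := card_le_card hsub
    _ ≤ ∑ A ∈ Finset.Icc 1 B, ((UU W N a).filter fun x => mr W N A x ∈ S).card := card_biUnion_le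
    _ ≤ ∑ A ∈ Finset.Icc 1 B, S.card := by
        refine sum_le_sum fun A _ => ?_
        refine card_le_card_of_injOn (fun x => mr W N A x) ?_ ?_
        · intro x hx
          have hx' := Finset.mem_coe.mp hx
          rw [mem_filter] at hx'
          exact Finset.mem_coe.mpr hx'.2
        · intro x hx y hy hxy
          have hx' := Finset.mem_coe.mp hx
          have hy' := Finset.mem_coe.mp hy
          rw [mem_filter, UU, mem_filter, mem_range] at hx' hy'
          have hA := hcop A x hx'.2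
          have h1 : A * x ≡ A * y [MOD (W * N)] := hxy
          have h2 : x ≡ y [MOD (W * N)] := Nat.ModEq.cancel_left_of_coprime hA.symm h1
          have h3 : x % (W * N) = y % (W * N) := h2
          rwa [Nat.mod_eq_of_lt hx'.1.1, Nat.mod_eq_of_lt hy'.1.1] at h3
    _ = B * S.card := by rw [sum_const, Nat.card_Icc, smul_eq_mul, Nat.add_sub_cancel]

/-- the pairs of divisors counted by `inc` -/
noncomputable def incP (N n : ℕ) : Finset (ℕ × ℕ) :=
  (n.divisors.filter fun e => e ≤ LL N) ×ˢ
    (open Classical in (N - n).divisors.filter fun d => d ≤ LL N ∧ Squarefree d ∧ ∀ p : ℕ, p.Prime → p ∣ d → p ∈ RP N)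

theorem incP_card (N n : ℕ) : (incP N n).card = inc N n := by
  unfold incP inc
  rw [card_product]

theorem afc {W N a : ℕ} (hc : Cfg W N a) (hn : Num W N) (E : Finset ℕ) :
    (Aff W N a E).card ≤ 4 * tJ N * ∑ n ∈ E, inc N n := by
  classical
  have hW := hc.W1
  have hN3 := hn.N3
  set Q : Finset (ℕ × (Σ _ : ℕ, ℕ × ℕ)) := (Finset.Icc 1 (2 * tJ N)) ×ˢ (E.sigma fun n => incP N n) with hQ
  have hQc : Q.card = 2 * tJ N * ∑ n ∈ E, inc N n := by
    rw [hQ, card_product, Nat.card_Icc, Nat.add_sub_cancel, card_sigma]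
    simp only [incP_card]
  set f1 : ℕ × (Σ _ : ℕ, ℕ × ℕ) → ℕ := fun q =>
    (q.2.2.2 + q.1 * W * q.2.2.1) * (q.2.1 / q.2.2.1) - q.1 * W * N with hf1
  set f2 : ℕ × (Σ _ : ℕ, ℕ × ℕ) → ℕ := fun q =>
    (q.2.2.2 - q.1 * W * q.2.2.1) * (q.2.1 / q.2.2.1) with hf2
  have hsub : Aff W N a E ⊆ Q.image f1 ∪ Q.image f2 := by
    intro z hz
    unfold Aff at hz
    rw [mem_filter] at hz
    obtain ⟨hzU, X, α, β, D, e, hLD, hD, hE⟩ := hz
    rw [UU, mem_filter, mem_range] at hzU
    obtain ⟨hzlt, hzW, hzN⟩ := hzU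
    have pos : ∀ x : ℕ, x.Coprime N → 0 < x := by
      intro x hx
      rcases Nat.eq_zero_or_pos x with h | h
      · subst h
        rw [Nat.coprime_zero_left] at hx
        omega
      · exact h
    have hz0 := pos z hzN
    obtain ⟨d, rfl⟩ := hLD.WD
    have hd0 : 0 < d := Nat.pos_of_mul_pos_left hLD.D0 |> fun _ => by
      rcases Nat.eq_zero_or_pos d with h | h
      · have := hLD.D0
        rw [h, mul_zero] at this
        omega
      · exact h
    have hdle : d ≤ 2 * tJ N := by
      have h1 : W * d ≤ W * (2 * tJ N) := by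
        calc W * d ≤ 2 * tJ N * W := hD
          _ = W * (2 * tJ N) := by ring
      exact Nat.le_of_mul_le_mul_left h1 hW
    have h2z : 2 * z ≤ X := by
      have h1 := hLD.XY
      have h2 : W * N ≤ W * d * N := by
        calc W * N = W * 1 * N := by ring
          _ ≤ W * d * N := by gcongr; exact hd0
      omega
    obtain ⟨l1, l2, -, -, c1, c2, t, ht, e1, e2⟩ := gl hc hn hLD hzW hzN hz0 h2z
    have hα0 : 0 < α := by have := hLD.ab; have := hLD.b0; omega
    have hXe : X = α * (X / α) := (Nat.mul_div_cancel' hLD.dX).symm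
    have hze : z = β * (z / β) := (Nat.mul_div_cancel' hLD.dY).symm
    have heα : e ≤ α := by
      rw [hLD.ab]
      have : e ≤ W * d * e := Nat.le_mul_of_pos_left _ hLD.D0
      omega
    have hβα : β ≤ α := by
      rw [hLD.ab]; omega
    rw [mem_union]
    rcases hE with hE | hE
    · left
      rw [mem_image]
      refine ⟨(d, ⟨e * (X / α), (e, β)⟩), ?_, ?_⟩
      · rw [hQ, mem_product, mem_Icc, mem_sigma]
        refine ⟨⟨hd0, hdle⟩, hE, ?_⟩
        unfold incP
        rw [mem_product, mem_filter, mem_filter, Nat.mem_divisors, Nat.mem_divisors]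
        refine ⟨⟨⟨dvd_mul_right _ _, (pos _ c1).ne'⟩, heα.trans hLD.ll⟩, ⟨?_, ?_⟩, hβα.trans hLD.ll, hLD.sb, ?_⟩
        · refine ⟨t, ?_⟩
          dsimp only
          omega
        · dsimp only
          omega
        · intro p hp hpd
          exact hLD.pr p hp (dvd_mul_of_dvd_right hpd _)
      · rw [hf1]
        dsimp only
        rw [Nat.mul_div_cancel_left _ hLD.e0]
        have h3 : β + d * W * e = α := by rw [hLD.ab]; ring
        rw [h3, ← hXe, hLD.XY]
        have h4 : d * W * N = W * d * N := by ring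
        rw [h4]
        omega
    · right
      rw [mem_image]
      refine ⟨(d, ⟨e * (z / β), (e, α)⟩), ?_, ?_⟩
      · rw [hQ, mem_product, mem_Icc, mem_sigma]
        refine ⟨⟨hd0, hdle⟩, hE, ?_⟩
        unfold incP
        rw [mem_product, mem_filter, mem_filter, Nat.mem_divisors, Nat.mem_divisors]
        refine ⟨⟨⟨dvd_mul_right _ _, (pos _ c2).ne'⟩, heα.trans hLD.ll⟩, ⟨?_, ?_⟩, hLD.ll, hLD.sa, ?_⟩
        · refine ⟨t, ?_⟩
          dsimp only
          omega
        · dsimp only
          omega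
        · intro p hp hpd
          exact hLD.pr p hp (dvd_mul_of_dvd_left hpd _)
      · rw [hf2]
        dsimp only
        rw [Nat.mul_div_cancel_left _ hLD.e0]
        have h3 : α - d * W * e = β := by
          rw [hLD.ab]
          have : d * W * e = W * d * e := by ring
          rw [this]
          omega
        rw [h3, ← hze]
  calc (Aff W N a E).card ≤ (Q.image f1 ∪ Q.image f2).card := card_le_card hsub
    _ ≤ (Q.image f1).card + (Q.image f2).card := card_union_le _ _
    _ ≤ Q.card + Q.card := Nat.add_le_add card_image_le card_image_le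
    _ = 4 * tJ N * ∑ n ∈ E, inc N n := by rw [hQc]; ring

end Pool.Agent.Lib.OW
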