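import Pool.Agent.Lib.MP_7b7e48_nt.OW.PL
import Pool.Agent.Lib.MP_7b7e48_nt.OW.PRE
import Pool.Agent.Lib.MP_7b7e48_nt.OW.REL
import Pool.Agent.Lib.MP_7b7e48_nt.RG.SMdef
import Pool.Agent.Lib.MP_7b7e48_nt.RG.SMi

/-!
# Module INV1 (40 minutes): `lam (l x mod W N) = - lam x` for most `x`

`pl` with `v = 1`, `η/2` (`LL N ^ 5 ≤ N`) bounds the bad `x` for which no point `mr W N A x`, `A ≤ K^C2`, is in `Aff`. The other `x` are at most
`K^C2 · card Aff` (`pre` with `B = ⌊K^C2⌋`), `card Aff ≤ 4 tJ N ∑_{EE} inc ≤ 4 K · K^CM √(card EE · N)` (`afc`, `rel1`; `EE ⊂ {n < N, coprime to N}`)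
`≤ 4 K^(1 + CM) N K^(-A/2)`. Choose `A ≥ 2 (C2 + CM + 2)`.
-/

set_option autoImplicit false

open Finset
open Pool.Agent.Lib.MP_45349e_nt.LS (lam)

namespace Pool.Agent.Lib.OW

open Classical in
theorem inv1 (W : ℕ) (hW : 1 ≤ W) (C1 : ℝ) : ∃ A : ℕ, ∀ η : ℝ, 0 < η → ∃ N0 : ℕ, ∀ N : ℕ, N0 ≤ N →
    ∀ a : ℕ, Cfg W N a → ∀ κ : ℝ, κ ^ 2 = 1 → ((EE W N a κ).card : ℝ) ≤ N / (Real.log N) ^ A →
    ∀ l : ℕ, l.Prime → l % W = 1 % W → (l : ℝ) ≤ (Real.log N) ^ C1 →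
    (((UU W N a).filter fun x => lam (mr W N l x) ≠ -lam x).card : ℝ) ≤ η * N := by
  obtain ⟨C2, hC2, hpl⟩ := pl W hW C1
  obtain ⟨CM, hCM, Nr, hr⟩ := rel1
  obtain ⟨Nn, hn⟩ := num W
  obtain ⟨Nt, ht⟩ := tJ_low
  set B : ℕ := ⌈C2 + CM + 2⌉₊ with hB
  refine ⟨2 * B, fun η hη => ?_⟩
  obtain ⟨Np, hp⟩ := hpl (η / 2) (by positivity)
  refine ⟨max Nr (max Nn (max Nt (max Np (max 3 (max ⌈Real.exp 1⌉₊ ⌈Real.exp (8 / η)⌉₊))))), fun N hN a hc κ hκ hE l hl hlW hlC => ?_⟩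
  simp only [max_le_iff] at hN
  obtain ⟨hNr, hNn, hNt, hNp, hN3, hNe, hNη⟩ := hN
  have hnum := hn N hNn
  have hNpos : (0 : ℝ) < N := by exact_mod_cast (by omega : 0 < N)
  have hK1 : 1 ≤ Real.log (N : ℝ) := by
    rw [Real.le_log_iff_exp_le hNpos]
    exact (Nat.le_ceil _).trans (by exact_mod_cast hNe)
  have hKη : 8 / η ≤ Real.log (N : ℝ) := by
    rw [Real.le_log_iff_exp_le hNpos]
    exact (Nat.le_ceil _).trans (by exact_mod_cast hNη)
  set K : ℝ := Real.log (N : ℝ) with hKdef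
  have hK0 : 0 < K := by linarith
  have hL1 : 1 ≤ LL N := by
    have h1 := hnum.JL
    have h2 := hnum.J1
    nlinarith [Nat.mul_le_mul h2 hW]
  have hL5 : 1 * LL N ^ 5 ≤ N := by
    rw [one_mul]
    exact (Nat.pow_le_pow_right hL1 (by norm_num)).trans hnum.LLN
  have h1 := hp N hNp a hc κ hκ l hl hlW hlC 1 le_rfl hL5
  have h2 := pre (B := ⌊K ^ C2⌋₊) hc hnum (Aff W N a (EE W N a κ)) (by
    unfold Aff
    exact Finset.filter_subset _ _)
  have h3 := afc hc hnum (EE W N a κ)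
  have h4 := hr N hNr (EE W N a κ) (by
    intro n hn'
    unfold EE at hn'
    rw [Finset.mem_filter, Finset.mem_range] at hn'
    exact ⟨hn'.1, hn'.2.2.1⟩)
  generalize hF1 : ((Finset.range (W * N)).filter fun n => 1 * n ∈ UU W N a ∧
      lam (mr W N l (1 * n)) ≠ -lam (1 * n) ∧
      ∀ A : ℕ, (A : ℝ) ≤ K ^ C2 → mr W N A (1 * n) ∉ Aff W N a (EE W N a κ)) = F1 at h1
  generalize hF2 : ((UU W N a).filter fun x => ∃ A : ℕ, A ≤ ⌊K ^ C2⌋₊ ∧
      mr W N A x ∈ Aff W N a (EE W N a κ)) = F2 at h2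
  generalize hS : ((UU W N a).filter fun x => lam (mr W N l x) ≠ -lam x) = S
  have hsub : S ⊆ F1 ∪ F2 := by
    intro x hx
    rw [← hS, Finset.mem_filter] at hx
    rw [Finset.mem_union]
    by_cases hA : ∃ A : ℕ, A ≤ ⌊K ^ C2⌋₊ ∧ mr W N A x ∈ Aff W N a (EE W N a κ)
    · right
      rw [← hF2, Finset.mem_filter]
      exact ⟨hx.1, hA⟩
    · left
      rw [← hF1, Finset.mem_filter]
      have hxr : x ∈ Finset.range (W * N) := by
        have h5 := hx.1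
        unfold UU at h5
        exact (Finset.mem_filter.mp h5).1
      refine ⟨hxr, ?_, ?_, ?_⟩
      · rw [one_mul]
        exact hx.1
      · rw [one_mul]
        exact hx.2
      · intro A hA1 hA2
        rw [one_mul] at hA2
        exact hA ⟨A, Nat.le_floor hA1, hA2⟩
  have h5 : (S.card : ℝ) ≤ F1.card + F2.card := by
    exact_mod_cast (Finset.card_le_card hsub).trans (Finset.card_union_le _ _)
  have hsum0 : (0 : ℝ) ≤ ∑ n ∈ EE W N a κ, (inc N n : ℝ) := Finset.sum_nonneg (fun _ _ => Nat.cast_nonneg _)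
  have hKB : (0 : ℝ) < K ^ B := pow_pos hK0 B
  have h6 : Real.sqrt ((EE W N a κ).card * N) ≤ N / K ^ B := by
    apply Real.sqrt_le_iff.mpr
    refine ⟨by positivity, ?_⟩
    calc ((EE W N a κ).card : ℝ) * N ≤ (N / K ^ (2 * B)) * N := mul_le_mul_of_nonneg_right hE hNpos.le
      _ = (N / K ^ B) ^ 2 := by
          rw [div_pow, ← pow_mul, mul_comm 2 B]
          ring
  have h7 : ∑ n ∈ EE W N a κ, (inc N n : ℝ) ≤ K ^ CM * (N / K ^ B) :=
    h4.trans (mul_le_mul_of_nonneg_left h6 (Real.rpow_nonneg hK0.le _))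
  have h8 : (tJ N : ℝ) ≤ K := by
    refine (ht N hNt).2.trans ?_
    calc K ^ ((1 : ℝ) / 2000) ≤ K ^ (1 : ℝ) := Real.rpow_le_rpow_of_exponent_le hK1 (by norm_num)
      _ = K := Real.rpow_one K
  have h9 : ((Aff W N a (EE W N a κ)).card : ℝ) ≤ 4 * K * (K ^ CM * (N / K ^ B)) := by
    have h10 : ((Aff W N a (EE W N a κ)).card : ℝ) ≤ 4 * (tJ N : ℝ) * ∑ n ∈ EE W N a κ, (inc N n : ℝ) := by
      exact_mod_cast h3
    calc ((Aff W N a (EE W N a κ)).card : ℝ) ≤ 4 * (tJ N : ℝ) * ∑ n ∈ EE W N a κ, (inc N n : ℝ) := h10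
      _ ≤ 4 * K * (K ^ CM * (N / K ^ B)) := by
          apply mul_le_mul (mul_le_mul_of_nonneg_left h8 (by norm_num)) h7 hsum0 (by positivity)
  have h11 : (F2.card : ℝ) ≤ K ^ C2 * (4 * K * (K ^ CM * (N / K ^ B))) := by
    have h12 : (F2.card : ℝ) ≤ (⌊K ^ C2⌋₊ : ℝ) * ((Aff W N a (EE W N a κ)).card : ℝ) := by
      exact_mod_cast h2
    refine h12.trans ?_
    apply mul_le_mul (Nat.floor_le (Real.rpow_nonneg hK0.le _)) h9 (Nat.cast_nonneg _)
      (Real.rpow_nonneg hK0.le _)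
  have h13 : K ^ C2 * (4 * K * (K ^ CM * (N / K ^ B))) ≤ η / 2 * N := by
    have e1 : K ^ C2 * (4 * K * (K ^ CM * (N / K ^ B))) = 4 * N * ((K ^ C2 * K ^ CM * K) / K ^ B) := by
      field_simp
    have e2 : K ^ C2 * K ^ CM * K = K ^ (C2 + CM + 1) := by
      rw [Real.rpow_add hK0, Real.rpow_add hK0, Real.rpow_one]
    have e3 : K ^ (C2 + CM + 2) ≤ K ^ B := by
      rw [← Real.rpow_natCast K B]
      exact Real.rpow_le_rpow_of_exponent_le hK1 (Nat.le_ceil _)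
    have e4 : K ^ (C2 + CM + 2) = K ^ (C2 + CM + 1) * K := by
      rw [show C2 + CM + 2 = (C2 + CM + 1) + 1 by ring, Real.rpow_add hK0, Real.rpow_one]
    have e5 : (K ^ C2 * K ^ CM * K) / K ^ B ≤ 1 / K := by
      rw [div_le_div_iff₀ hKB hK0, e2, one_mul, ← e4]
      exact e3
    have e6 : 1 / K ≤ η / 8 := by
      rw [div_le_iff₀ hK0]
      have : 8 / η * (η / 8) = 1 := by
        field_simp
      calc (1 : ℝ) = η / 8 * (8 / η) := by rw [← this]; ring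
        _ ≤ η / 8 * K := mul_le_mul_of_nonneg_left hKη (by positivity)
    rw [e1]
    calc 4 * (N : ℝ) * ((K ^ C2 * K ^ CM * K) / K ^ B) ≤ 4 * N * (η / 8) :=
          mul_le_mul_of_nonneg_left (e5.trans e6) (by positivity)
      _ = η / 2 * N := by ring
  have h14 : (F1.card : ℝ) ≤ η / 2 * N := by
    have h15 := h1
    simp only [Nat.cast_one, div_one] at h15
    exact h15
  linarith

end Pool.Agent.Lib.OW
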