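import Pool.Agent.Lib.MP_7b7e48_nt.OW.PL
import Pool.Agent.Lib.MP_7b7e48_nt.OW.PRE
import Pool.Agent.Lib.MP_7b7e48_nt.OW.REL
import Pool.Agent.Lib.MP_7b7e48_nt.OW.UUC
import Pool.Agent.Lib.MP_7b7e48_nt.OW.VX
import Pool.Agent.Lib.MP_7b7e48_nt.RG.SMi

/-!
# Module INV2 (90 minutes): the exceptional set of the character is nearly invariant

`Z = Zst N W a c 1 = {x ∈ UU : lam x ≠ c x}`, `σ = sQ c (W N)`, `K = log N`. Let `l` be a prime `= 1 (mod W)`, `l ≤ K^C1`, `c l = -1`. `x ↦ mr W N l x` is a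
bijection of `UU`. Let `x ∈ Z`, `mr W N l x ∉ Z`: `c` is periodic modulo `W N`, so `c (mr l x) = c l c x = - c x`, and `lam (mr l x) = c (mr l x) = - c x = lam x`
(values `± 1`), so `lam (mr l x) ≠ - lam x`. Three cases.
(1) some prime `q ∣ x`, `c q = 1`, `q > N exp(-K^(1/30))`: at most `C K^(1/30 - 1) σ N` (`VF.top`, `θ = 1/30`).
(2) some `mr W N A x`, `A ≤ K^C2`, is in `Aff`: at most `K^C2 card Aff` (`pre`), `card Aff ≤ 4 tJ ∑_{EE} inc` (`afc`), and by `rel2`
(`n ∈ EE`: `lam (N-n) ≠ κ lam n` and `c (N - n) = κ c n` by hypothesis `hk`, so `lam n ≠ c n` or `lam (N-n) ≠ c (N-n)`)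
`∑_{EE} inc ≤ K^CM √(card EE (σ + L) N) ≤ K^CM √(σ N K^(-A) · C' σ N)`, since `L ≤ C σ/(K del N) ≤ C' σ` (`VF.sl`; `del N ≥ φ(W)/(2W)..`, see below).
(3) otherwise. `lam x ≠ c x` gives a prime `q ∣ x`, `c q = 1` (`lam_ne`), `q ≤ N exp(-K^(1/30))`, so `q LL^5 ≤ N` (`LL^5 ≤ exp(5 K^(1/40))`), `x = q n`,
and `pl` with `v = q` bounds the number of these `n` by `η' N/q`: in total `≤ η' σ N` (`q ≤ W N`, so `1/q` occurs in `σ`).
Sum `≤ (η' + K^(-1/2)) σ N ≤ η card Z` as `card Z ≥ c1 del(N) σ N` (`VF.low`), `σ > 0` (`VF.pos`), and `del N = φ(N)/N ≥ 1/(2 W)`: the primes of `N` which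
divide `W` contribute at least `φ(W)/W ≥ 1/W`, and there is at most one other prime `p > √N` (Cfg.big): `1 - 1/p ≥ 1/2`.
`A` depends only on `W`, `C1` (through `C2`, `CM`).
-/

set_option autoImplicit false

open Finset Filter
open Pool.Agent.Lib.MP_45349e_nt.LS (lam abs_lam)

namespace Pool.Agent.Lib.OW

open Pool.Agent.Lib.RG (RC LV rr SS PB)

private theorem inv2_pm (n : ℕ) : lam n = 1 ∨ lam n = -1 := by
  have h := abs_lam n
  rcases abs_cases (lam n) with h1 | h1
  · left; linarith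
  · right; linarith

private theorem inv2_fac {p : ℕ} (hp : p.Prime) : (1 : ℝ) / 2 ≤ 1 - 1 / (p : ℝ) ∧ 1 - 1 / (p : ℝ) ≤ 1 := by
  have h2 : (2 : ℝ) ≤ p := by exact_mod_cast hp.two_le
  have h0 : (0 : ℝ) < p := by linarith
  have h3 : 1 / (p : ℝ) ≤ 1 / 2 := one_div_le_one_div_of_le (by norm_num) h2
  have h4 : 0 < 1 / (p : ℝ) := by positivity
  constructor <;> linarith

private theorem inv2_phi (n : ℕ) (hn : n ≠ 0) :
    (n.totient : ℝ) / n = ∏ p ∈ n.primeFactors, (1 - 1 / (p : ℝ)) := by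
  have h1 := Nat.totient_eq_mul_prod_factors n
  have h2 : (n.totient : ℝ) = n * ∏ p ∈ n.primeFactors, (1 - (p : ℝ)⁻¹) := by
    have := congrArg (fun q : ℚ => (q : ℝ)) h1
    push_cast at this
    exact this
  have hN0 : (n : ℝ) ≠ 0 := by exact_mod_cast hn
  rw [h2, mul_div_cancel_left₀ _ hN0]
  exact Finset.prod_congr rfl fun p _ => by rw [one_div]

theorem inv2_del {W N a : ℕ} (hc : Cfg W N a) : 1 / (2 * (W : ℝ)) ≤ del N := by
  classical
  have hW1 := hc.W1
  have hWN := hc.WN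
  have hW0 : (0 : ℝ) < W := by exact_mod_cast hW1
  unfold del
  rw [inv2_phi N (by omega), ← Finset.prod_filter_mul_prod_filter_not N.primeFactors (fun p => p ∣ W)]
  set X := N.primeFactors.filter (fun p => p ∣ W) with hX
  set Y := N.primeFactors.filter (fun p => ¬ p ∣ W) with hY
  have hXp : ∀ p ∈ X, p.Prime := fun p hp => Nat.prime_of_mem_primeFactors (Finset.mem_filter.mp hp).1
  have hYp : ∀ p ∈ Y, p.Prime := fun p hp => Nat.prime_of_mem_primeFactors (Finset.mem_filter.mp hp).1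
  have hXW : X ⊆ W.primeFactors := by
    intro p hp
    rw [Nat.mem_primeFactors]
    exact ⟨hXp p hp, (Finset.mem_filter.mp hp).2, by omega⟩
  have h1 : 1 / (W : ℝ) ≤ ∏ p ∈ X, (1 - 1 / (p : ℝ)) := by
    have h2 : 1 / (W : ℝ) ≤ (W.totient : ℝ) / W := by
      have h3 : (1 : ℝ) ≤ W.totient := by
        exact_mod_cast Nat.totient_pos.mpr hW1
      exact div_le_div_of_nonneg_right h3 hW0.le
    refine h2.trans ?_
    rw [inv2_phi W (by omega), ← Finset.prod_sdiff hXW]
    refine mul_le_of_le_one_left ?_ ?_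
    · exact Finset.prod_nonneg fun p hp => by linarith [(inv2_fac (hXp p hp)).1]
    · refine Finset.prod_le_one (fun p hp => ?_) fun p hp => ?_
      · have := Nat.prime_of_mem_primeFactors (Finset.mem_sdiff.mp hp).1
        linarith [(inv2_fac this).1]
      · have := Nat.prime_of_mem_primeFactors (Finset.mem_sdiff.mp hp).1
        exact (inv2_fac this).2
  have h4 : (1 : ℝ) / 2 ≤ ∏ p ∈ Y, (1 - 1 / (p : ℝ)) := by
    rcases Y.eq_empty_or_nonempty with hE | ⟨p, hp⟩
    · rw [hE, Finset.prod_empty]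
      norm_num
    · have hYs : Y = {p} := by
        rw [Finset.eq_singleton_iff_unique_mem]
        refine ⟨hp, fun q hq => ?_⟩
        by_contra hne
        have hpp := hYp p hp
        have hqp := hYp q hq
        obtain ⟨hp1, hp2⟩ := Finset.mem_filter.mp hp
        obtain ⟨hq1, hq2⟩ := Finset.mem_filter.mp hq
        have hpN := Nat.dvd_of_mem_primeFactors hp1
        have hqN := Nat.dvd_of_mem_primeFactors hq1
        have hcop : q.Coprime p := (Nat.coprime_primes hqp hpp).mpr hne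
        have hd : q * p ∣ N := hcop.mul_dvd_of_dvd_of_dvd hqN hpN
        have hle : q * p ≤ N := Nat.le_of_dvd (by omega) hd
        have hb1 := hc.big p hpp hpN hp2
        have hb2 := hc.big q hqp hqN hq2
        have h5 : (q * p) * (q * p) ≤ N * N := Nat.mul_le_mul hle hle
        have h6 : N * N < (q * q) * (p * p) := Nat.mul_lt_mul'' hb2 hb1
        have h7 : (q * p) * (q * p) = (q * q) * (p * p) := by ring
        omega
      rw [hYs, Finset.prod_singleton]
      exact (inv2_fac (hYp p hp)).1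
  calc 1 / (2 * (W : ℝ)) = 1 / (W : ℝ) * (1 / 2) := by
        field_simp
    _ ≤ _ := mul_le_mul h1 h4 (by norm_num) (Finset.prod_nonneg fun p hp => by
        linarith [(inv2_fac (hXp p hp)).1])

private theorem inv2_cop {W N a x : ℕ} (hc : Cfg W N a) (h1 : x % W = a % W) (h2 : x.Coprime N) :
    x.Coprime (W * N) := by
  refine Nat.Coprime.mul_right ?_ h2
  have h3 : Nat.gcd x W = Nat.gcd a W := Nat.ModEq.gcd_eq h1
  unfold Nat.Coprime
  rw [h3]
  exact hc.aW

open Classical in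
theorem inv2 (W : ℕ) (hW : 1 ≤ W) (C1 : ℝ) : ∃ A : ℕ, ∀ η C c1 : ℝ, 0 < η → 0 < C → 0 < c1 → ∃ N0 : ℕ, ∀ N : ℕ, N0 ≤ N →
    ∀ a : ℕ, Cfg W N a → ∀ κ : ℝ, κ ^ 2 = 1 → ∀ (c : ℕ → ℝ) (L δ : ℝ) (A' : ℕ), RC (W * N) c →
    VF N W a A' c L c1 C (1 / 30) δ (sQ c (W * N)) →
    ((EE W N a κ).card : ℝ) ≤ sQ c (W * N) * N / (Real.log N) ^ A →
    (∀ n ∈ EE W N a κ, c (N - n) = κ * c n) →
    ∀ l : ℕ, l.Prime → l % W = 1 % W → (l : ℝ) ≤ (Real.log N) ^ C1 → c l = -1 →
    (((Zst N W a c 1).filter fun x => mr W N l x ∉ Zst N W a c 1).card : ℝ) ≤ η * (Zst N W a c 1).card := by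
  obtain ⟨C2, hC2, hpl⟩ := pl W hW C1
  obtain ⟨CM, hCM, M0, hrel⟩ := rel2 W hW
  obtain ⟨M1, hnum⟩ := num W
  refine ⟨⌈2 * (C2 + CM + 2)⌉₊, ?_⟩
  intro η C c1 hη hC hc1
  have hWr : (1 : ℝ) ≤ W := by exact_mod_cast hW
  set A : ℕ := ⌈2 * (C2 + CM + 2)⌉₊ with hA
  have hAle : 2 * (C2 + CM + 2) ≤ (A : ℝ) := Nat.le_ceil _
  set η' : ℝ := η * c1 / (8 * W) with hη'
  have hη'0 : 0 < η' := by positivity
  obtain ⟨M2, hpl2⟩ := hpl η' hη'0
  have hcast : Tendsto (fun N : ℕ => Real.log N) atTop atTop :=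
    Real.tendsto_log_atTop.comp tendsto_natCast_atTop_atTop
  have e1 : ∀ᶠ N : ℕ in atTop, C * (Real.log N) ^ (-(29 / 30) : ℝ) ≤ η' := by
    have h := ((tendsto_rpow_neg_atTop (show (0 : ℝ) < 29 / 30 by norm_num)).comp hcast).const_mul C
    rw [mul_zero] at h
    exact h.eventually_le_const hη'0
  have e2 : ∀ᶠ N : ℕ in atTop, 4 * Real.sqrt (1 + 2 * W * C) / η' ≤ Real.log N :=
    hcast.eventually_ge_atTop _
  have e3 : ∀ᶠ N : ℕ in atTop, (5 : ℝ) ≤ (Real.log N) ^ ((1 : ℝ) / 120) :=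
    ((tendsto_rpow_atTop (by norm_num)).comp hcast).eventually_ge_atTop 5
  have e4 : ∀ᶠ N : ℕ in atTop, (1 : ℝ) ≤ Real.log N := hcast.eventually_ge_atTop 1
  have e5 : ∀ᶠ N : ℕ in atTop, M0 + M1 + M2 ≤ N := eventually_ge_atTop _
  obtain ⟨N0, hN0⟩ := eventually_atTop.mp (e1.and (e2.and (e3.and (e4.and e5))))
  refine ⟨N0, ?_⟩
  intro N hN a hc κ hκ c L δ A' hRC hV hEE hk l hl hlW hlC hcl
  obtain ⟨f1, f2, f3, f4, f5⟩ := hN0 N hN
  have hn := hnum N (by omega)
  have hN3 := hn.N3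
  have hNpos : (0 : ℝ) < N := by
    have : 0 < N := by omega
    exact_mod_cast this
  set K : ℝ := Real.log N with hK
  have hK0 : 0 < K := by linarith
  set σ : ℝ := sQ c (W * N) with hσ
  have hσ0 : 0 < σ := lt_of_lt_of_le (Real.rpow_pos_of_pos hNpos _) hV.pos
  have hL0 : 0 < L := by
    refine lt_of_lt_of_le ?_ hV.siegel
    have : 0 < W * N := by
      have := hc.W1
      positivity
    have h1 : (0 : ℝ) < ((W * N : ℕ) : ℝ) := by exact_mod_cast this
    positivity
  have hdel := inv2_del hc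
  -- members of `Zst`
  have hZmem : ∀ x, x ∈ Zst N W a c 1 ↔ x ∈ UU W N a ∧ lam x ≠ c x := by
    intro x
    unfold Zst Dom UU
    simp only [Finset.mem_filter, Finset.mem_range, one_mul]
    constructor
    · rintro ⟨⟨h1, h2, h3⟩, h4⟩
      exact ⟨⟨h1, h2, h3⟩, h4⟩
    · rintro ⟨⟨h1, h2, h3⟩, h4⟩
      exact ⟨⟨h1, h2, h3⟩, h4⟩
  have hUmem : ∀ x, x ∈ UU W N a ↔ x < W * N ∧ x % W = a % W ∧ x.Coprime N := by
    intro x
    unfold UU
    simp only [Finset.mem_filter, Finset.mem_range]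
  have hlc : l.Coprime (W * N) := by
    by_contra h
    have := hRC.zero l h
    rw [hcl] at this
    norm_num at this
  have hWNpos : 0 < W * N := Nat.mul_pos hc.W1 (by omega)
  have hmr : ∀ x ∈ UU W N a, mr W N l x ∈ UU W N a := by
    intro x hx
    rw [hUmem] at hx ⊢
    obtain ⟨h1, h2, h3⟩ := hx
    unfold mr
    refine ⟨Nat.mod_lt _ hWNpos, ?_, ?_⟩
    · rw [Nat.mod_mul_right_mod, Nat.mul_mod, hlW, h2, ← Nat.mul_mod, one_mul]
    · have h4 : (l * x).Coprime N := Nat.Coprime.mul_left (Nat.Coprime.coprime_mul_left_right hlc) h3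
      have h5 : ((l * x) % (W * N)) % N = (l * x) % N := Nat.mod_mul_left_mod _ _ _
      have h6 : Nat.gcd ((l * x) % (W * N)) N = Nat.gcd (l * x) N := Nat.ModEq.gcd_eq h5
      unfold Nat.Coprime
      rw [h6]
      exact h4
  have hcmr : ∀ x, c (mr W N l x) = c l * c x := by
    intro x
    have hper : ∀ k n : ℕ, c (n + (W * N) * k) = c n := by
      intro k
      induction k with
      | zero => intro n; rw [mul_zero, add_zero]
      | succ k ih =>
        intro n
        have : n + W * N * (k + 1) = (n + W * N * k) + W * N := by ring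
        rw [this, hRC.per, ih]
    rw [← hRC.mul]
    unfold mr
    conv_rhs => rw [← Nat.mod_add_div (l * x) (W * N)]
    rw [hper]
  have hval : ∀ x ∈ UU W N a, c x = 1 ∨ c x = -1 := by
    intro x hx
    rw [hUmem] at hx
    exact hRC.val x (inv2_cop hc hx.2.1 hx.2.2)
  have hpos : ∀ x ∈ UU W N a, 0 < x := by
    intro x hx
    rw [hUmem] at hx
    rcases Nat.eq_zero_or_pos x with h | h
    · exfalso
      have h1 := hx.2.2
      rw [h, Nat.coprime_zero_left] at h1
      omega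
    · exact h
  -- a bad element of `Zst`
  have hbad : ∀ x ∈ (Zst N W a c 1).filter (fun x => mr W N l x ∉ Zst N W a c 1),
      x ∈ UU W N a ∧ lam x ≠ c x ∧ lam (mr W N l x) ≠ -lam x := by
    intro x hx
    obtain ⟨h1, h2⟩ := Finset.mem_filter.mp hx
    obtain ⟨h3, h4⟩ := (hZmem x).mp h1
    refine ⟨h3, h4, ?_⟩
    have h5 := hmr x h3
    have h6 : lam (mr W N l x) = c (mr W N l x) := by
      by_contra h
      exact h2 ((hZmem _).mpr ⟨h5, h⟩)
    have h7 : c x = -lam x := by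
      rcases hval x h3 with h | h <;> rcases inv2_pm x with h' | h'
      · exact absurd (h'.trans h.symm) h4
      · rw [h, h']; norm_num
      · rw [h, h']
      · exact absurd (h'.trans h.symm) h4
    rw [h6, hcmr, hcl, h7]
    rcases inv2_pm x with h | h <;> rw [h] <;> norm_num
  -- three sets
  set B1 : Finset ℕ := (Finset.Ico 1 (W * N)).filter fun n => ∃ q : ℕ, q.Prime ∧ c q = 1 ∧ q ∣ n ∧
      (N : ℝ) * Real.exp (-(Real.log N) ^ (1 / 30 : ℝ)) < q with hB1
  set Bk : ℕ := ⌊K ^ C2⌋₊ with hBk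
  set B2 : Finset ℕ := (UU W N a).filter fun x => ∃ A : ℕ, A ≤ Bk ∧
      mr W N A x ∈ Aff W N a (EE W N a κ) with hB2
  set S : ℕ → Finset ℕ := fun v => (Finset.range (W * N)).filter fun n => v * n ∈ UU W N a ∧
      lam (mr W N l (v * n)) ≠ -lam (v * n) ∧
      ∀ A : ℕ, (A : ℝ) ≤ (Real.log N) ^ C2 → mr W N A (v * n) ∉ Aff W N a (EE W N a κ) with hS
  set Qs : Finset ℕ := (QP c (W * N)).filter fun q => q * LL N ^ 5 ≤ N with hQs
  set B3 : Finset ℕ := Qs.biUnion fun q => (S q).image fun n => q * n with hB3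
  have hsub : (Zst N W a c 1).filter (fun x => mr W N l x ∉ Zst N W a c 1) ⊆ B1 ∪ B2 ∪ B3 := by
    intro x hx
    obtain ⟨hU, h1, h2⟩ := hbad x hx
    have hx0 := hpos x hU
    have hxU := (hUmem x).mp hU
    by_cases hb1 : x ∈ B1
    · exact Finset.mem_union_left _ (Finset.mem_union_left _ hb1)
    by_cases hb2 : x ∈ B2
    · exact Finset.mem_union_left _ (Finset.mem_union_right _ hb2)
    refine Finset.mem_union_right _ ?_
    obtain ⟨q, hq, hcq, hqx⟩ := lam_ne hRC hx0 (inv2_cop hc hxU.2.1 hxU.2.2) h1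
    obtain ⟨n, rfl⟩ := hqx
    have hqle : q ≤ q * n := Nat.le_mul_of_pos_right q (Nat.pos_of_ne_zero (by rintro rfl; simp at hx0))
    have hnle : n ≤ q * n := Nat.le_mul_of_pos_left n hq.pos
    have hqN : (q : ℝ) ≤ (N : ℝ) * Real.exp (-(Real.log N) ^ (1 / 30 : ℝ)) := by
      by_contra hcon
      push Not at hcon
      apply hb1
      rw [hB1, Finset.mem_filter, Finset.mem_Ico]
      exact ⟨⟨hx0, hxU.1⟩, q, hq, hcq, Dvd.intro n rfl, hcon⟩
    have hqLL : q * LL N ^ 5 ≤ N := by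
      have h3 : (LL N : ℝ) ≤ Real.exp (K ^ ((1 : ℝ) / 40)) := Nat.floor_le (Real.exp_nonneg _)
      have h4 : (LL N : ℝ) ^ 5 ≤ Real.exp (5 * K ^ ((1 : ℝ) / 40)) := by
        calc (LL N : ℝ) ^ 5 ≤ (Real.exp (K ^ ((1 : ℝ) / 40))) ^ 5 :=
              pow_le_pow_left₀ (Nat.cast_nonneg _) h3 5
          _ = Real.exp (5 * K ^ ((1 : ℝ) / 40)) := by
              rw [← Real.exp_nat_mul]
              norm_num
      have h5 : 5 * K ^ ((1 : ℝ) / 40) ≤ K ^ (1 / 30 : ℝ) := by
        calc 5 * K ^ ((1 : ℝ) / 40) ≤ K ^ ((1 : ℝ) / 120) * K ^ ((1 : ℝ) / 40) := by gcongr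
          _ = K ^ (1 / 30 : ℝ) := by
              rw [← Real.rpow_add hK0]
              norm_num
      have h6 : ((q * LL N ^ 5 : ℕ) : ℝ) ≤ (N : ℝ) := by
        push_cast
        calc (q : ℝ) * (LL N : ℝ) ^ 5
            ≤ ((N : ℝ) * Real.exp (-K ^ (1 / 30 : ℝ))) * Real.exp (5 * K ^ ((1 : ℝ) / 40)) :=
              mul_le_mul hqN h4 (by positivity) (by positivity)
          _ = (N : ℝ) * Real.exp (-K ^ (1 / 30 : ℝ) + 5 * K ^ ((1 : ℝ) / 40)) := by
              rw [Real.exp_add]; ring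
          _ ≤ (N : ℝ) * 1 := by
              refine mul_le_mul_of_nonneg_left ?_ hNpos.le
              exact Real.exp_le_one_iff.mpr (by linarith)
          _ = N := mul_one _
      exact_mod_cast h6
    rw [hB3, Finset.mem_biUnion]
    refine ⟨q, ?_, ?_⟩
    · rw [hQs, Finset.mem_filter]
      refine ⟨?_, hqLL⟩
      unfold QP
      rw [Finset.mem_filter, Finset.mem_range]
      exact ⟨by omega, hq, hcq⟩
    · rw [Finset.mem_image]
      refine ⟨n, ?_, rfl⟩
      rw [hS]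
      simp only
      rw [Finset.mem_filter, Finset.mem_range]
      refine ⟨by omega, hU, h2, ?_⟩
      intro A0 hA0 hcon
      apply hb2
      rw [hB2, Finset.mem_filter]
      exact ⟨hU, A0, Nat.le_floor hA0, hcon⟩
  -- first set
  have hc1' : (B1.card : ℝ) ≤ η' * (σ * N) := by
    have h1 := hV.top
    have h2 : ((1 / 30 : ℝ) - 1) = -(29 / 30) := by norm_num
    rw [h2] at h1
    refine h1.trans ?_
    calc C * (Real.log N) ^ (-(29 / 30) : ℝ) * σ * N = (C * (Real.log N) ^ (-(29 / 30) : ℝ)) * (σ * N) := by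
          ring
      _ ≤ η' * (σ * N) := by gcongr
  -- second set
  set R : ℝ := Real.sqrt (1 + 2 * W * C) with hR
  have hR0 : 0 ≤ R := Real.sqrt_nonneg _
  have hR2 : R ^ 2 = 1 + 2 * W * C := Real.sq_sqrt (by positivity)
  set P : ℝ := K ^ (C2 + CM + 2) with hP
  have hP0 : 0 < P := Real.rpow_pos_of_pos hK0 _
  have hP2 : P ^ 2 ≤ K ^ A := by
    calc P ^ 2 = K ^ (2 * (C2 + CM + 2)) := by
          rw [hP, ← Real.rpow_natCast, ← Real.rpow_mul hK0.le]
          congr 1
          push_cast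
          ring
      _ ≤ K ^ (A : ℝ) := Real.rpow_le_rpow_of_exponent_le f4 hAle
      _ = K ^ A := Real.rpow_natCast _ _
  have hLσ : L ≤ 2 * W * C * σ := by
    have h1 := hV.sl
    have h2 : L / (2 * W) ≤ C * σ := by
      calc L / (2 * W) = 1 * (1 / (2 * (W : ℝ)) * L) := by ring
        _ ≤ K * (del N * L) := by
            refine mul_le_mul f4 ?_ (by positivity) (by linarith)
            exact mul_le_mul_of_nonneg_right hdel hL0.le
        _ ≤ C * σ := h1
    rw [div_le_iff₀ (by positivity)] at h2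
    linarith
  have hrel2 := hrel N (by omega) c L hRC hV.lv hV.siegel (EE W N a κ) (by
    intro n hnE
    unfold EE at hnE
    simp only [Finset.mem_filter, Finset.mem_range] at hnE
    obtain ⟨h1, h2, h3, h4⟩ := hnE
    have h5 := inv2_cop hc h2 h3
    have h6 : (N - n).Coprime N := (Nat.coprime_self_sub_left h1.le).mpr h3
    have haN : a ≤ N := (hc.alt.le).trans hc.WN
    have h7 : (N - n) ≡ (N - a) [MOD W] := by
      refine Nat.ModEq.add_right_cancel (show n ≡ a [MOD W] from h2) ?_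
      rw [Nat.sub_add_cancel h1.le, Nat.sub_add_cancel haN]
    have h8 : (N - n).Coprime W := by
      have h9 : Nat.gcd (N - n) W = Nat.gcd (N - a) W := Nat.ModEq.gcd_eq h7
      unfold Nat.Coprime
      rw [h9]
      exact hc.naW
    refine ⟨h1, h5, Nat.Coprime.mul_right h8 h6, ?_⟩
    by_contra hcon
    push Not at hcon
    apply h4
    have hnE' : n ∈ EE W N a κ := by
      unfold EE
      simp only [Finset.mem_filter, Finset.mem_range]
      exact ⟨h1, h2, h3, h4⟩
    rw [hcon.2, hk n hnE', hcon.1])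
  have hsq : Real.sqrt ((EE W N a κ).card * ((σ + L) * N)) ≤ σ * N * R / P := by
    refine Real.sqrt_le_iff.mpr ⟨by positivity, ?_⟩
    have h1 : ((EE W N a κ).card : ℝ) ≤ σ * N / P ^ 2 := by
      refine hEE.trans ?_
      exact div_le_div_of_nonneg_left (by positivity) (by positivity) hP2
    have h2 : (σ + L) * N ≤ (1 + 2 * W * C) * (σ * N) := by
      calc (σ + L) * N ≤ (σ + 2 * W * C * σ) * N := by gcongr
        _ = _ := by ring
    calc ((EE W N a κ).card : ℝ) * ((σ + L) * N)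
        ≤ (σ * N / P ^ 2) * ((1 + 2 * W * C) * (σ * N)) :=
          mul_le_mul h1 h2 (by positivity) (by positivity)
      _ = (σ * N * R / P) ^ 2 := by
          rw [← hR2]
          ring
  have hAff : ((Aff W N a (EE W N a κ)).card : ℝ) ≤ 4 * K * (K ^ CM * (σ * N * R / P)) := by
    have h1 := afc hc hn (EE W N a κ)
    have h2 : ((Aff W N a (EE W N a κ)).card : ℝ) ≤
        4 * (tJ N : ℝ) * ∑ n ∈ EE W N a κ, (inc N n : ℝ) := by
      exact_mod_cast h1
    have h3 : (tJ N : ℝ) ≤ K := by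
      have h4 : (tJ N : ℝ) ≤ K ^ ((1 : ℝ) / 2000) := Nat.floor_le (by positivity)
      refine h4.trans ?_
      calc K ^ ((1 : ℝ) / 2000) ≤ K ^ (1 : ℝ) := Real.rpow_le_rpow_of_exponent_le f4 (by norm_num)
        _ = K := Real.rpow_one _
    have h5 : ∑ n ∈ EE W N a κ, (inc N n : ℝ) ≤ K ^ CM * (σ * N * R / P) :=
      hrel2.trans (mul_le_mul_of_nonneg_left hsq (by positivity))
    have h6 : 0 ≤ ∑ n ∈ EE W N a κ, (inc N n : ℝ) := Finset.sum_nonneg fun _ _ => Nat.cast_nonneg _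
    calc ((Aff W N a (EE W N a κ)).card : ℝ) ≤ 4 * (tJ N : ℝ) * ∑ n ∈ EE W N a κ, (inc N n : ℝ) := h2
      _ ≤ 4 * K * (K ^ CM * (σ * N * R / P)) := by gcongr
  have hc2' : (B2.card : ℝ) ≤ η' * (σ * N) := by
    have h1 := pre (B := Bk) hc hn (Aff W N a (EE W N a κ)) (by
      unfold Aff
      exact Finset.filter_subset _ _)
    have h2 : (B2.card : ℝ) ≤ (Bk : ℝ) * ((Aff W N a (EE W N a κ)).card : ℝ) := by
      exact_mod_cast h1
    have h3 : (Bk : ℝ) ≤ K ^ C2 := Nat.floor_le (by positivity)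
    have h4 : K ^ C2 * (4 * K * (K ^ CM * (σ * N * R / P))) = 4 * R / K * (σ * N) := by
      have h5 : P = K ^ C2 * K ^ CM * (K * K) := by
        rw [hP, Real.rpow_add hK0, Real.rpow_add hK0]
        congr 1
        rw [Real.rpow_ofNat]
        ring
      have h6 : K ^ C2 ≠ 0 := (Real.rpow_pos_of_pos hK0 _).ne'
      have h7 : K ^ CM ≠ 0 := (Real.rpow_pos_of_pos hK0 _).ne'
      rw [h5]
      field_simp
    have h8 : 4 * R / K ≤ η' := by
      rw [div_le_iff₀ hK0]
      rw [div_le_iff₀ hη'0] at f2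
      linarith
    calc (B2.card : ℝ) ≤ (Bk : ℝ) * ((Aff W N a (EE W N a κ)).card : ℝ) := h2
      _ ≤ K ^ C2 * (4 * K * (K ^ CM * (σ * N * R / P))) := by gcongr
      _ = 4 * R / K * (σ * N) := h4
      _ ≤ η' * (σ * N) := by gcongr
  -- third set
  have hc3' : (B3.card : ℝ) ≤ η' * (σ * N) := by
    have h1 : B3.card ≤ ∑ q ∈ Qs, (S q).card := by
      refine Finset.card_biUnion_le.trans (Finset.sum_le_sum fun q _ => Finset.card_image_le)
    have h2 : ∀ q ∈ Qs, ((S q).card : ℝ) ≤ η' * N * (1 / (q : ℝ)) := by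
      intro q hq
      obtain ⟨h3, h4⟩ := Finset.mem_filter.mp hq
      unfold QP at h3
      have hqp := (Finset.mem_filter.mp h3).2.1
      have h5 := hpl2 N (by omega) a hc κ hκ l hl hlW hlC q hqp.one_lt.le h4
      refine h5.trans (le_of_eq ?_)
      ring
    calc (B3.card : ℝ) ≤ ((∑ q ∈ Qs, (S q).card : ℕ) : ℝ) := by exact_mod_cast h1
      _ = ∑ q ∈ Qs, ((S q).card : ℝ) := by push_cast; rfl
      _ ≤ ∑ q ∈ Qs, η' * N * (1 / (q : ℝ)) := Finset.sum_le_sum h2
      _ = η' * N * ∑ q ∈ Qs, (1 / (q : ℝ)) := by rw [Finset.mul_sum]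
      _ ≤ η' * N * σ := by
          refine mul_le_mul_of_nonneg_left ?_ (by positivity)
          rw [hσ]
          unfold sQ
          refine Finset.sum_le_sum_of_subset_of_nonneg (Finset.filter_subset _ _) fun _ _ _ => by positivity
      _ = η' * (σ * N) := by ring
  -- conclusion
  have hfin : (((Zst N W a c 1).filter fun x => mr W N l x ∉ Zst N W a c 1).card : ℝ) ≤
      3 * (η' * (σ * N)) := by
    have h1 : ((Zst N W a c 1).filter fun x => mr W N l x ∉ Zst N W a c 1).card ≤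
        B1.card + B2.card + B3.card := by
      refine (Finset.card_le_card hsub).trans ?_
      refine (Finset.card_union_le _ _).trans ?_
      have := Finset.card_union_le B1 B2
      omega
    have h2 : (((Zst N W a c 1).filter fun x => mr W N l x ∉ Zst N W a c 1).card : ℝ) ≤
        (B1.card : ℝ) + B2.card + B3.card := by exact_mod_cast h1
    linarith
  have hlow : c1 / (2 * W) * (σ * N) ≤ ((Zst N W a c 1).card : ℝ) := by
    refine le_trans ?_ hV.low
    calc c1 / (2 * W) * (σ * N) = c1 * (1 / (2 * (W : ℝ))) * σ * N := by ring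
      _ ≤ c1 * del N * σ * N := by gcongr
  have hσN : 0 < σ * N := by positivity
  calc (((Zst N W a c 1).filter fun x => mr W N l x ∉ Zst N W a c 1).card : ℝ)
      ≤ 3 * (η' * (σ * N)) := hfin
    _ ≤ 4 * (η' * (σ * N)) := by
        have : 0 < η' * (σ * N) := by positivity
        linarith
    _ = η * (c1 / (2 * W) * (σ * N)) := by
        rw [hη']
        field_simp
        ring
    _ ≤ η * (Zst N W a c 1).card := mul_le_mul_of_nonneg_left hlow hη.le

end Pool.Agent.Lib.OW
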