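import Pool.Agent.Lib.MP_7b7e48_nt.OW.SPI
import Pool.Agent.Lib.MP_7b7e48_nt.OW.FINZ
import Pool.Agent.Lib.MP_7b7e48_nt.OW.FINN
import Pool.Agent.Lib.MP_7b7e48_nt.OW.INV1
import Pool.Agent.Lib.MP_7b7e48_nt.OW.INV2
import Pool.Agent.Lib.MP_7b7e48_nt.OW.CHS
import Pool.Agent.Lib.MP_7b7e48_nt.OW.T2
import Pool.Agent.Lib.MP_7b7e48_nt.OW.PA6
import Pool.Agent.Lib.MP_7b7e48_nt.RG.SMi

/-!
# Module FIN: the core theorem

Suppose that the class contains fewer than `N^(1-ε)` numbers of the pattern `(s, t)`. With `κ = - s t` the set `EE` is small (`EE_small_class`,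
`lam_dom`), so `lam (l x) = - lam x` for most `x` (`inv1`), the spectral theorem `sp2` gives a real character, `vx` its properties and
the stronger bound for `EE`, `chs` the reflection rule, `inv2` the near invariance of the exceptional set `Z`, and `finz` the contradiction.
-/

set_option autoImplicit false

open Finset
open Pool.Agent.Lib.MP_45349e_nt.LS (lam lam_mul lam_prime abs_lam)

namespace Pool.Agent.Lib.OW

open Pool.Agent.Lib.RG (RC LV rr SS PB)

theorem core (W : ℕ) (hW : 1 ≤ W) (ε : ℝ) (hε : 0 < ε) : ∃ N0 : ℕ, ∀ N : ℕ, N0 ≤ N → ∀ a : ℕ, Cfg W N a →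
    ∀ s t : ℝ, (s = 1 ∨ s = -1) → (t = 1 ∨ t = -1) → (N : ℝ) ^ (1 - ε) ≤ ((repC W N a s t).card : ℝ) := by
  classical
  have hWr : (1 : ℝ) ≤ W := by exact_mod_cast hW
  obtain ⟨η1, C1, hη1, hC1, Nz, hz⟩ := finz W hW
  obtain ⟨A2, hinv2⟩ := inv2 W hW C1
  obtain ⟨C, c1, ε2, hC, hc1, hε2, hvx⟩ := vx W hW (A2 + 1) (1 / 30) (ε / 4) (by norm_num) (by norm_num) (by positivity)
  obtain ⟨Ni2, hi2⟩ := hinv2 η1 C c1 hη1 hC hc1
  -- the small parameter
  obtain ⟨ε', hε', he1, he2, he3, he4⟩ : ∃ ε' : ℝ, 0 < ε' ∧ ε' ≤ ε2 ∧ C * ε' ≤ η1 ∧ C * ε' ≤ 1 / (8 * W) ∧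
      ε' ≤ 1 / (8 * W) := by
    refine ⟨min (min ε2 (η1 / C)) (min (1 / (8 * W) / C) (1 / (8 * W))), ?_, ?_, ?_, ?_, ?_⟩
    · refine lt_min (lt_min hε2 (by positivity)) (lt_min (by positivity) (by positivity))
    · exact (min_le_left _ _).trans (min_le_left _ _)
    · have h1 : min (min ε2 (η1 / C)) (min (1 / (8 * (W : ℝ)) / C) (1 / (8 * W))) ≤ η1 / C :=
        (min_le_left _ _).trans (min_le_right _ _)
      calc C * _ ≤ C * (η1 / C) := mul_le_mul_of_nonneg_left h1 hC.le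
        _ = η1 := by field_simp
    · have h1 : min (min ε2 (η1 / C)) (min (1 / (8 * (W : ℝ)) / C) (1 / (8 * W))) ≤ 1 / (8 * W) / C :=
        (min_le_right _ _).trans (min_le_left _ _)
      calc C * _ ≤ C * (1 / (8 * W) / C) := mul_le_mul_of_nonneg_left h1 hC.le
        _ = 1 / (8 * W) := by field_simp
    · exact (min_le_right _ _).trans (min_le_right _ _)
  obtain ⟨Nv, hv⟩ := hvx ε' hε' he1
  obtain ⟨η2, C1', hη2, hC1', Ns, hs2⟩ := sp2 W hW ε' hε'
  obtain ⟨A1, hinv1⟩ := inv1 W hW (max C1 C1')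
  obtain ⟨Ni1, hi1⟩ := hinv1 (min η2 (1 / 8)) (lt_min hη2 (by norm_num))
  obtain ⟨Nd, hd⟩ := lam_dom W hW 1 one_pos le_rfl (A1 + 2)
  obtain ⟨Nc, hch⟩ := chs W hW
  obtain ⟨Nl, hcl⟩ := chi_l W hW
  obtain ⟨Nu, hnum⟩ := num W
  obtain ⟨Np, hpow⟩ := num_pow (max C1 C1')
  obtain ⟨Nm2, hm2⟩ := finn_main ε hε A2
  obtain ⟨Nm1, hm1⟩ := finn_main ε hε (A1 + 1)
  obtain ⟨Ng, hg⟩ := finn_log (8 * W)
  refine ⟨Nz + Ni2 + Nv + Ns + Ni1 + Nd + Nc + Nl + Nu + Np + Nm2 + Nm1 + Ng + 3, ?_⟩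
  intro N hN a hc s t hs ht
  have gz : Nz ≤ N := by omega
  have gi2 : Ni2 ≤ N := by omega
  have gv : Nv ≤ N := by omega
  have gs : Ns ≤ N := by omega
  have gi1 : Ni1 ≤ N := by omega
  have gd : Nd ≤ N := by omega
  have gc : Nc ≤ N := by omega
  have gl : Nl ≤ N := by omega
  have gu : Nu ≤ N := by omega
  have gp : Np ≤ N := by omega
  have gm2 : Nm2 ≤ N := by omega
  have gm1 : Nm1 ≤ N := by omega
  have gg : Ng ≤ N := by omega
  have hN3 : 3 ≤ N := by omega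
  by_contra hcon
  rw [not_le] at hcon
  haveI : NeZero (W * N) := ⟨by positivity⟩
  have hNr : (0 : ℝ) < N := by exact_mod_cast (by omega : 0 < N)
  have hnumN := hnum N gu
  have hK : 8 * (W : ℝ) ≤ Real.log N := hg N gg
  have hK1 : 1 ≤ Real.log N := by linarith
  have hK0 : 0 < Real.log N := by linarith
  have hone : (N : ℝ) ^ (-(ε / 4)) ≤ 1 := by
    rw [Real.rpow_neg hNr.le]
    refine inv_le_one_of_one_le₀ ?_
    exact Real.one_le_rpow (by exact_mod_cast (by omega : 1 ≤ N)) (by positivity)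
  have hκ : (-(s * t)) ^ 2 = 1 := by
    rcases hs with rfl | rfl <;> rcases ht with rfl | rfl <;> norm_num
  set κ := -(s * t) with hκdef
  have hEE := EE_small_class (W := W) (hc.alt.le.trans hc.WN) (by omega) s t hs ht
  rw [← hκdef] at hEE
  -- first bound for EE
  have hexp : Real.exp ((Real.log N) ^ (1 : ℝ)) ≤ (N : ℝ) := by
    rw [Real.rpow_one, Real.exp_log hNr]
  have hS1 := hd N gd a N hc.aW hexp
  have hS2 := hd N gd (N - a) N hc.naW hexp
  have hE1 : ((EE W N a κ).card : ℝ) ≤ N / (Real.log N) ^ (A1 + 1) := by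
    have h1 := hm1 N gm1 1 hone
    rw [one_mul] at h1
    have h3 : A1 + 1 + 1 = A1 + 2 := rfl
    rw [h3] at h1
    linarith
  have hE2 : ((EE W N a κ).card : ℝ) ≤ N / (Real.log N) ^ A1 := by
    refine hE1.trans (div_le_div_of_nonneg_left hNr.le (pow_pos hK0 _) ?_)
    exact pow_le_pow_right₀ hK1 (by omega)
  have hE3 : ((EE W N a κ).card : ℝ) ≤ N / (8 * W) := by
    refine hE1.trans (div_le_div_of_nonneg_left hNr.le (by positivity) ?_)
    refine hK.trans ?_
    calc Real.log N = (Real.log N) ^ 1 := (pow_one _).symm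
      _ ≤ (Real.log N) ^ (A1 + 1) := pow_le_pow_right₀ hK1 (by omega)
  -- first application
  have hinv : ∀ l : ℕ, l.Prime → l % W = 1 % W → (l : ℝ) ≤ (Real.log N) ^ (max C1 C1') →
      (((UU W N a).filter fun x => lam (mr W N l x) ≠ -lam x).card : ℝ) ≤ min η2 (1 / 8) * N :=
    fun l hl hlW hlK => hi1 N gi1 a hc κ hκ hE2 l hl hlW hlK
  have hmono1 : (Real.log N) ^ C1 ≤ (Real.log N) ^ (max C1 C1') :=
    Real.rpow_le_rpow_of_exponent_le hK1 (le_max_left _ _)
  have hmono2 : (Real.log N) ^ C1' ≤ (Real.log N) ^ (max C1 C1') :=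
    Real.rpow_le_rpow_of_exponent_le hK1 (le_max_right _ _)
  obtain ⟨χ, β, hχ, hHV⟩ := hs2 N gs a hc (by
    intro l hl hlW _ h2
    refine (hinv l hl hlW (h2.trans hmono2)).trans ?_
    exact mul_le_mul_of_nonneg_right (min_le_left _ _) hNr.le)
  obtain ⟨hβ, hσ, L, hVF⟩ := hv N gv a β χ hχ hHV
  subst hβ
  set c : ℕ → ℝ := fun n => (χ (n : ZMod (W * N))).re with hcdef
  have hrc : RC (W * N) c := hHV.rc
  set σ := sQ c (W * N) with hσdef
  have hσ0 : 0 < σ := lt_of_lt_of_le (Real.rpow_pos_of_pos hNr _) hVF.pos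
  have hdel1 : del N ≤ 1 := by
    unfold del
    rw [div_le_one hNr]
    exact_mod_cast Nat.totient_le N
  have hdel0 : 0 < del N := by
    unfold del
    have h1 : 0 < N.totient := Nat.totient_pos.mpr (by omega)
    positivity
  have hZ : ((Zst N W a c 1).card : ℝ) ≤ N / (8 * W) := by
    refine hHV.z.trans ?_
    calc ε' * del N * N ≤ ε' * 1 * N := by
          refine mul_le_mul_of_nonneg_right (mul_le_mul_of_nonneg_left hdel1 hε'.le) hNr.le
      _ ≤ 1 / (8 * W) * 1 * N := by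
          refine mul_le_mul_of_nonneg_right (mul_le_mul_of_nonneg_right he4 zero_le_one) hNr.le
      _ = N / (8 * W) := by ring
  -- second bound for EE
  have hE4 : ((EE W N a κ).card : ℝ) ≤ σ * N / (Real.log N) ^ A2 := by
    have h1 := hm2 N gm2 σ hVF.pos
    have h2 := hVF.lams a hc.aW
    have h3 := hVF.lams (N - a) hc.naW
    linarith
  have hrefl := hch N gc a hc κ hκ χ hχ hrc hZ (hσ.trans he3) hE3
  have hEdom : ∀ n ∈ EE W N a κ, c (N - n) = κ * c n := by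
    intro n hn
    refine hrefl n ?_
    unfold EE at hn
    rw [mem_filter, mem_range] at hn
    unfold Dom
    rw [mem_filter, mem_range]
    exact ⟨hn.1, hn.2.1, hn.2.2.1⟩
  have hZ8 : ((Zst N W a c 1).card : ℝ) ≤ N / 8 := by
    refine hZ.trans (div_le_div_of_nonneg_left hNr.le (by norm_num) ?_)
    linarith
  refine hz N gz a hc c hrc (hσ.trans he2) ?_ ?_ ?_
  · have h1 : (0 : ℝ) < (Zst N W a c 1).card := by
      refine lt_of_lt_of_le ?_ hVF.low
      positivity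
    exact_mod_cast h1
  · refine hZ8.trans (div_le_div_of_nonneg_left hNr.le (by norm_num) (by norm_num))
  · intro l hl hlW _ h2
    have h3 : l ≤ LL N := by exact_mod_cast (h2.trans hmono1).trans (hpow N gp)
    have h4 := finz_copl hc hnumN hl hlW h3
    have h5 : c l = -1 := by
      refine hcl N gl a hc c hrc hZ8 l hl hlW h4 ((hinv l hl hlW (h2.trans hmono1)).trans ?_)
      calc min η2 (1 / 8) * (N : ℝ) ≤ 1 / 8 * N := mul_le_mul_of_nonneg_right (min_le_right _ _) hNr.le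
        _ = N / 8 := by ring
    exact hi2 N gi2 a hc κ hκ c L (ε / 4) (A2 + 1) hrc hVF hE4 hEdom l hl hlW h2 h5

theorem propC : PropC := core

end Pool.Agent.Lib.OW
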