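import Pool.Agent.Lib.MP_7b7e48_nt.OW.OD

/-!
# The field `q` of `HV` as a sum over natural numbers

`HV.q'` is the field `q` of `HV`; `hv_of` constructs `HV`. (`lift_sum`: how a filter over reals of a finite set of naturals is elaborated.)
-/

open Finset

namespace Pool.Agent.Lib.OW

open Pool.Agent.Lib.RG (RC LV rr SS PB)

open Classical in
theorem lift_eq (S : Finset ℕ) : (do let a ← S; pure (a : ℝ) : Finset ℝ) = S.image (fun a : ℕ => (a : ℝ)) := by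
  ext x
  simp [Finset.bind_def, eq_comm]

open Classical in
theorem lift_sum (S : Finset ℕ) (s : ℝ) :
    ∑ q ∈ (do let a ← S; pure (a : ℝ) : Finset ℝ).filter (fun q => s < q), 1 / q =
      ∑ q ∈ S.filter (fun q : ℕ => s < (q : ℝ)), 1 / (q : ℝ) := by
  rw [lift_eq, Finset.filter_image, Finset.sum_image (fun x _ y _ hxy => Nat.cast_injective hxy)]

open Classical in
theorem HV.q' {N W a : ℕ} {c : ℕ → ℝ} {β ε : ℝ} (h : HV N W a c β ε) :
    ∑ q ∈ (QP c ⌊(N : ℝ) ^ ((99 : ℝ) / 200)⌋₊).filter (fun q : ℕ => (N : ℝ) ^ ((1 : ℝ) / 100) < (q : ℝ)),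
      1 / (q : ℝ) ≤ ε := h.q

open Classical in
/-- `HV` from the inequality for the finite set of natural numbers -/
theorem hv_of {N W a : ℕ} {c : ℕ → ℝ} {β ε : ℝ} (rc : RC (W * N) c) (co : a.Coprime W) (hb : β = 1 ∨ β = -1)
    (z : ((Zst N W a c β).card : ℝ) ≤ ε * del N * N)
    (q : ∑ q ∈ (QP c ⌊(N : ℝ) ^ ((99 : ℝ) / 200)⌋₊).filter (fun q : ℕ => (N : ℝ) ^ ((1 : ℝ) / 100) < (q : ℝ)),
      1 / (q : ℝ) ≤ ε) : HV N W a c β ε := ⟨rc, co, hb, z, q⟩

end Pool.Agent.Lib.OW
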