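import Pool.Agent.Lib.MP_7b7e48_nt.OW.LFM

/-!
# Comparison of the two models, with a sparse exceptional set of primes
-/

set_option autoImplicit false

open Finset Filter Topology

namespace Pool.Agent.Lib.OW

/-- comparison of the two models -/
theorem model_domE {s t : ℝ} {Pr : Finset ℕ} (hPr : Pr ⊆ PR s t) {j : ℕ} (hj : 4 * (j : ℝ) ≤ Real.exp s)
    (hexc : ∑ p ∈ PR s t \ Pr, 1 / (p : ℝ) ≤ 1 / 4) {Bd : Finset (ℕ × Bool) → Prop}
    (hBd : ∀ T T', T ⊆ T' → Bd T' → Bd T) :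
    Ew (fun ω : ℕ × Bool => 1 / (ω.1 : ℝ)) (Pr ×ˢ univ) (fun T => ind (Bd T ∧ T.card ≤ 2 * j)) ≤
      4 * Ew xx (BL s t) (fun T => ind (Bd T)) := by
  have hes := Real.exp_pos s
  have hsub : Pr ×ˢ (univ : Finset Bool) ⊆ BL s t := by
    intro ω hω
    rw [mem_BL]
    exact hPr (mem_product.mp hω).1
  have hp1 : ∀ ω ∈ BL s t, (1 : ℝ) ≤ ω.1 ∧ Real.exp s < ω.1 := by
    intro ω hω
    have h1 := mem_PR.mp (mem_BL.mp hω)
    exact ⟨by exact_mod_cast h1.1.one_lt.le, h1.2.1⟩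
  -- first comparison
  have h1 : Ew (fun ω : ℕ × Bool => 1 / (ω.1 : ℝ)) (Pr ×ˢ univ) (fun T => ind (Bd T ∧ T.card ≤ 2 * j)) ≤
      2 * Ew xx (Pr ×ˢ univ) (fun T => ind (Bd T ∧ T.card ≤ 2 * j)) := by
    refine Ew_dom (fun _ _ => ind_nonneg _) fun T hT h0 => ?_
    have hTc : T.card ≤ 2 * j := by
      by_contra hc
      exact h0 (ind_false fun h => hc h.2)
    have e1 : ∏ ω ∈ T, (1 / (ω.1 : ℝ)) = (∏ ω ∈ T, xx ω) * ∏ ω ∈ T, (1 + 1 / (ω.1 : ℝ)) := by
      rw [← prod_mul_distrib]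
      refine prod_congr rfl fun ω hω => ?_
      have := (hp1 ω (hsub (hT hω))).1
      unfold xx
      field_simp
    have e2 : ∏ ω ∈ T, (1 + 1 / (ω.1 : ℝ)) ≤ 2 := by
      have e3 : ∏ ω ∈ T, (1 + 1 / (ω.1 : ℝ)) ≤ Real.exp (∑ ω ∈ T, 1 / (ω.1 : ℝ)) := by
        rw [Real.exp_sum]
        refine prod_le_prod (fun ω _ => by positivity) fun ω _ => ?_
        have := Real.add_one_le_exp (1 / (ω.1 : ℝ))
        linarith
      refine e3.trans ?_
      have e4 : ∑ ω ∈ T, 1 / (ω.1 : ℝ) ≤ 1 / 2 := by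
        calc ∑ ω ∈ T, 1 / (ω.1 : ℝ) ≤ ∑ _ω ∈ T, 1 / Real.exp s := by
              refine sum_le_sum fun ω hω => ?_
              exact one_div_le_one_div_of_le hes (hp1 ω (hsub (hT hω))).2.le
          _ = T.card * (1 / Real.exp s) := by rw [sum_const, nsmul_eq_mul]
          _ ≤ (2 * j) * (1 / Real.exp s) := by
              refine mul_le_mul_of_nonneg_right ?_ (by positivity)
              exact_mod_cast hTc
          _ ≤ 1 / 2 := by
              rw [mul_one_div, div_le_div_iff₀ hes (by norm_num)]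
              linarith
      have e5 : Real.exp (1 / 2) ≤ 2 := by
        have h10 : Real.exp (1 / 2) ^ 2 = Real.exp 1 := by
          rw [← Real.exp_nat_mul]
          norm_num
        have h11 := Real.exp_one_lt_d9
        have h12 := Real.exp_pos (1 / 2)
        nlinarith
      exact (Real.exp_le_exp.mpr e4).trans e5
    have e3 : ∏ ω ∈ (Pr ×ˢ (univ : Finset Bool)) \ T, (1 - 1 / (ω.1 : ℝ)) ≤
        ∏ ω ∈ (Pr ×ˢ (univ : Finset Bool)) \ T, (1 - xx ω) := by
      refine prod_le_prod (fun ω hω => ?_) fun ω hω => ?_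
      · have := (hp1 ω (hsub (sdiff_subset hω))).1
        rw [sub_nonneg, div_le_one (by linarith)]
        exact this
      · have := (hp1 ω (hsub (sdiff_subset hω))).1
        have : xx ω ≤ 1 / (ω.1 : ℝ) := by
          unfold xx
          exact one_div_le_one_div_of_le (by linarith) (by linarith)
        linarith
    have e4 : 0 ≤ ∏ ω ∈ T, xx ω := prod_nonneg fun ω _ => xx_nonneg ω
    have e5 : 0 ≤ ∏ ω ∈ (Pr ×ˢ (univ : Finset Bool)) \ T, (1 - 1 / (ω.1 : ℝ)) := by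
      refine prod_nonneg fun ω hω => ?_
      have := (hp1 ω (hsub (sdiff_subset hω))).1
      rw [sub_nonneg, div_le_one (by linarith)]
      exact this
    rw [e1]
    calc (∏ ω ∈ T, xx ω) * (∏ ω ∈ T, (1 + 1 / (ω.1 : ℝ))) *
          ∏ ω ∈ (Pr ×ˢ (univ : Finset Bool)) \ T, (1 - 1 / (ω.1 : ℝ)) ≤
          (∏ ω ∈ T, xx ω) * 2 * ∏ ω ∈ (Pr ×ˢ (univ : Finset Bool)) \ T, (1 - xx ω) :=
          mul_le_mul (mul_le_mul_of_nonneg_left e2 e4) e3 e5 (by positivity)
      _ = _ := by ring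
  have h2 : Ew xx (Pr ×ˢ univ) (fun T => ind (Bd T ∧ T.card ≤ 2 * j)) ≤
      Ew xx (Pr ×ˢ univ) (fun T => ind (Bd T)) :=
    Ew_mono (fun ω _ => xx_nonneg ω) (fun ω hω => (xx_le (hsub hω)).trans (by norm_num))
      fun T _ => ind_mono fun h => h.1
  -- the excluded primes
  have h3 : BL s t = (Pr ×ˢ univ) ∪ ((PR s t \ Pr) ×ˢ univ) := by
    ext ω
    rw [mem_BL, mem_union, mem_product, mem_product, Finset.mem_sdiff]
    simp only [mem_univ, and_true]
    constructor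
    · intro h
      by_cases h4 : ω.1 ∈ Pr
      · exact Or.inl h4
      · exact Or.inr ⟨h, h4⟩
    · rintro (h | h)
      · exact hPr h
      · exact h.1
  have hd : Disjoint (Pr ×ˢ (univ : Finset Bool)) ((PR s t \ Pr) ×ˢ univ) := by
    rw [disjoint_left]
    intro ω h4 h5
    rw [mem_product] at h4 h5
    exact (Finset.mem_sdiff.mp h5.1).2 h4.1
  have hsub2 : (PR s t \ Pr) ×ˢ (univ : Finset Bool) ⊆ BL s t := by
    rw [h3]
    exact subset_union_right
  have h4 : 1 / 2 ≤ ∏ ω ∈ (PR s t \ Pr) ×ˢ (univ : Finset Bool), (1 - xx ω) := by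
    refine le_trans ?_ (one_sub_sum_le (fun ω _ => xx_nonneg ω)
      fun ω hω => (xx_le (hsub2 hω)).trans (by norm_num))
    have h5 : ∑ ω ∈ (PR s t \ Pr) ×ˢ (univ : Finset Bool), xx ω ≤
        ∑ ω ∈ (PR s t \ Pr) ×ˢ (univ : Finset Bool), 1 / (ω.1 : ℝ) := by
      refine sum_le_sum fun ω hω => ?_
      unfold xx
      have := (hp1 ω (hsub2 hω)).1
      exact one_div_le_one_div_of_le (by linarith) (by linarith)
    have h7 : ∑ ω ∈ (PR s t \ Pr) ×ˢ (univ : Finset Bool), 1 / (ω.1 : ℝ) = 2 * ∑ p ∈ PR s t \ Pr, 1 / (p : ℝ) := by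
      rw [sum_product, mul_sum]
      refine sum_congr rfl fun p _ => ?_
      rw [Fintype.sum_bool]
      ring
    linarith
  have h5 : 1 / 2 * Ew xx (Pr ×ˢ univ) (fun T => ind (Bd T)) ≤ Ew xx (BL s t) (fun T => ind (Bd T)) := by
    rw [h3, Ew_union xx _ _ hd, ← Ew_smul]
    refine Ew_mono (fun ω _ => xx_nonneg ω) (fun ω hω => (xx_le (hsub hω)).trans (by norm_num))
      fun T _ => ?_
    have h6 := Ew_ge_empty (x := xx) (S := (PR s t \ Pr) ×ˢ (univ : Finset Bool)) (fun ω _ => xx_nonneg ω)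
      (fun ω hω => (xx_le (hsub2 hω)).trans (by norm_num)) (F := fun T' => ind (Bd (T ∪ T')))
      (fun T' _ => ind_nonneg _)
    refine le_trans ?_ h6
    rw [union_empty]
    exact mul_le_mul_of_nonneg_right h4 (ind_nonneg _)
  linarith

end Pool.Agent.Lib.OW
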