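import Pool.Agent.Lib.MP_7b7e48_nt.OW.MTC

/-!
# Iteration: many blocks, adapted good events

If in every one of `2 m` steps the past is good with probability `≥ 1 - η` and a good past leads to a success in the next block with
conditional probability `≥ c₀`, then the total failure probability is at most `2 η + (1 - c₀)^m`.
-/

set_option autoImplicit false

open Finset

namespace Pool.Agent.Lib.OW

variable {Ω : Type*} [DecidableEq Ω] {G : Type*} [CommGroup G]

/-- marginals -/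
theorem Ew_marg (x : Ω → ℝ) {S' S : Finset Ω} (h : S' ⊆ S) (F : Finset Ω → ℝ) :
    Ew x S (fun T => F (T ∩ S')) = Ew x S' F := by
  have hd : Disjoint S' (S \ S') := disjoint_sdiff
  have hS : S = S' ∪ (S \ S') := (union_sdiff_of_subset h).symm
  rw [hS, Ew_union x S' (S \ S') hd]
  refine Ew_congr x S' fun T hT => ?_
  have h1 : Ew x (S \ S') (fun T₂ => F ((T ∪ T₂) ∩ S')) = Ew x (S \ S') (fun _ => F T) := by
    refine Ew_congr x _ fun T₂ hT₂ => ?_
    have h2 : (T ∪ T₂) ∩ S' = T := by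
      rw [union_inter_distrib_right, inter_eq_left.mpr hT,
        disjoint_iff_inter_eq_empty.mp (disjoint_of_subset_left hT₂ hd.symm), union_empty]
    rw [h2]
  rw [h1, Ew_const]

omit [DecidableEq Ω] in
theorem Suc_mono (h : Ω → ℝ) (g : Ω → G) (δ : ℝ) (ρ : G) {T T' : Finset Ω} (hT : T ⊆ T')
    (hs : Suc h g δ ρ T) : Suc h g δ ρ T' := by
  obtain ⟨U, hU, h1⟩ := hs
  exact ⟨U, hU.trans hT, h1⟩

open Classical in
/-- the number of good steps -/
noncomputable def cnt (S : ℕ → Finset Ω) (Gp : ℕ → Finset Ω → Prop) (j : ℕ) (T : Finset Ω) : ℕ :=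
  ((range j).filter fun i => Gp i (T ∩ S i)).card

theorem iter_aux {x : Ω → ℝ} (h : Ω → ℝ) (g : Ω → G) (δ : ℝ) (ρ : G) (S B : ℕ → Finset Ω) (J : ℕ)
    (hS : ∀ j < J, S (j + 1) = S j ∪ B j) (hd : ∀ j < J, Disjoint (S j) (B j))
    (hx0 : ∀ ω ∈ S J, 0 ≤ x ω) (hx1 : ∀ ω ∈ S J, x ω ≤ 1) (Gp : ℕ → Finset Ω → Prop) {c₀ : ℝ}
    (hc1 : c₀ < 1)
    (hsuc : ∀ j < J, ∀ T ⊆ S j, Gp j T →
      Ew x (B j) (fun T' => ind (¬ Suc h g δ ρ (T ∪ T'))) ≤ 1 - c₀) :
    ∀ j ≤ J, S j ⊆ S J ∧ (∀ i ≤ j, S i ⊆ S j) ∧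
      Ew x (S j) (fun T => ind (¬ Suc h g δ ρ T) * ((1 - c₀)⁻¹) ^ cnt S Gp j T) ≤ 1 := by
  classical
  have hy0 : 0 < (1 - c₀)⁻¹ := inv_pos.mpr (by linarith)
  have hchain : ∀ j, j ≤ J → ∀ i ≤ j, S i ⊆ S j := by
    intro j
    induction j with
    | zero =>
      intro _ i hi
      rw [Nat.le_zero.mp hi]
    | succ j ih =>
      intro hj i hi
      rcases Nat.lt_or_ge i (j + 1) with h1 | h1
      · have h2 := ih (by omega) i (by omega)
        rw [hS j (by omega)]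
        exact h2.trans subset_union_left
      · have : i = j + 1 := by omega
        rw [this]
  intro j
  induction j with
  | zero =>
    intro _
    refine ⟨hchain J le_rfl 0 (Nat.zero_le _), ?_, ?_⟩
    · intro i hi
      rw [Nat.le_zero.mp hi]
    have hx0' : ∀ ω ∈ S 0, 0 ≤ x ω := fun ω hω => hx0 ω (hchain J le_rfl 0 (Nat.zero_le _) hω)
    have hx1' : ∀ ω ∈ S 0, x ω ≤ 1 := fun ω hω => hx1 ω (hchain J le_rfl 0 (Nat.zero_le _) hω)
    have h1 : Ew x (S 0) (fun T => ind (¬ Suc h g δ ρ T) * ((1 - c₀)⁻¹) ^ cnt S Gp 0 T) ≤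
        Ew x (S 0) (fun _ => 1) := by
      refine Ew_mono hx0' hx1' fun T _ => ?_
      have : cnt S Gp 0 T = 0 := by unfold cnt; simp
      rw [this, pow_zero, mul_one]
      exact ind_le_one _
    rwa [Ew_const] at h1
  | succ j ih =>
    intro hj
    obtain ⟨h1, h2, h3⟩ := ih (by omega)
    refine ⟨hchain J le_rfl (j + 1) hj, hchain (j + 1) hj, ?_⟩
    have hSj : S (j + 1) ⊆ S J := hchain J le_rfl (j + 1) hj
    have hjJ : j < J := by omega
    have hx0' : ∀ ω ∈ S j, 0 ≤ x ω := fun ω hω => hx0 ω (h1 hω)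
    have hx1' : ∀ ω ∈ S j, x ω ≤ 1 := fun ω hω => hx1 ω (h1 hω)
    have hBsub : B j ⊆ S J := by
      refine Subset.trans ?_ hSj
      rw [hS j hjJ]
      exact subset_union_right
    have hB0 : ∀ ω ∈ B j, 0 ≤ x ω := fun ω hω => hx0 ω (hBsub hω)
    have hB1 : ∀ ω ∈ B j, x ω ≤ 1 := fun ω hω => hx1 ω (hBsub hω)
    rw [hS j hjJ, Ew_union x (S j) (B j) (hd j hjJ)]
    refine le_trans (Ew_mono hx0' hx1' fun T hT => ?_) h3
    -- the count
    have hcnt : ∀ T' ⊆ B j, cnt S Gp (j + 1) (T ∪ T') = cnt S Gp j T + (if Gp j T then 1 else 0) := by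
      intro T' hT'
      have hint : ∀ i ≤ j, (T ∪ T') ∩ S i = T ∩ S i := by
        intro i hi
        rw [union_inter_distrib_right]
        have : Disjoint T' (S i) :=
          (disjoint_of_subset_left (h2 i hi) (disjoint_of_subset_right hT' (hd j hjJ))).symm
        rw [disjoint_iff_inter_eq_empty.mp this, union_empty]
      unfold cnt
      rw [range_add_one, filter_insert]
      have e1 : (range j).filter (fun i => Gp i ((T ∪ T') ∩ S i)) =
          (range j).filter (fun i => Gp i (T ∩ S i)) := by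
        refine filter_congr fun i hi => ?_
        rw [hint i (mem_range.mp hi).le]
      rw [hint j le_rfl, inter_eq_left.mpr hT, e1]
      by_cases hg : Gp j T
      · rw [if_pos hg, if_pos hg, card_insert_of_notMem]
        intro h4
        have := mem_range.mp (mem_filter.mp h4).1
        omega
      · rw [if_neg hg, if_neg hg, add_zero]
    have e2 : Ew x (B j) (fun T' => ind (¬ Suc h g δ ρ (T ∪ T')) *
        ((1 - c₀)⁻¹) ^ cnt S Gp (j + 1) (T ∪ T')) =
        ((1 - c₀)⁻¹) ^ (cnt S Gp j T + (if Gp j T then 1 else 0)) *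
          Ew x (B j) (fun T' => ind (¬ Suc h g δ ρ (T ∪ T'))) := by
      rw [← Ew_smul]
      refine Ew_congr x (B j) fun T' hT' => ?_
      rw [hcnt T' hT', mul_comm]
    rw [e2, pow_add, mul_comm (ind _), mul_assoc]
    refine mul_le_mul_of_nonneg_left ?_ (by positivity)
    by_cases hs : Suc h g δ ρ T
    · have e3 : Ew x (B j) (fun T' => ind (¬ Suc h g δ ρ (T ∪ T'))) = 0 := by
        rw [← Ew_const x (B j) 0]
        refine Ew_congr x (B j) fun T' _ => ?_
        exact ind_false (not_not.mpr (Suc_mono h g δ ρ subset_union_left hs))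
      rw [e3, mul_zero]
      exact ind_nonneg _
    · rw [ind_true hs]
      by_cases hg : Gp j T
      · rw [if_pos hg, pow_one]
        have h4 := mul_le_mul_of_nonneg_left (hsuc j hjJ T hT hg) hy0.le
        rwa [inv_mul_cancel₀ (by linarith)] at h4
      · rw [if_neg hg, pow_zero, one_mul]
        have h4 : Ew x (B j) (fun T' => ind (¬ Suc h g δ ρ (T ∪ T'))) ≤ Ew x (B j) (fun _ => 1) :=
          Ew_mono hB0 hB1 fun _ _ => ind_le_one _
        rwa [Ew_const] at h4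

/-- the total failure probability -/
theorem iter {x : Ω → ℝ} (h : Ω → ℝ) (g : Ω → G) (δ : ℝ) (ρ : G) (S B : ℕ → Finset Ω) (m : ℕ)
    (hm : 1 ≤ m) (hS : ∀ j < 2 * m, S (j + 1) = S j ∪ B j) (hd : ∀ j < 2 * m, Disjoint (S j) (B j))
    (hx0 : ∀ ω ∈ S (2 * m), 0 ≤ x ω) (hx1 : ∀ ω ∈ S (2 * m), x ω ≤ 1) (Gp : ℕ → Finset Ω → Prop)
    {c₀ η : ℝ} (hc0 : 0 < c₀) (hc1 : c₀ < 1)
    (hbad : ∀ j < 2 * m, Ew x (S j) (fun T => ind (¬ Gp j T)) ≤ η)
    (hsuc : ∀ j < 2 * m, ∀ T ⊆ S j, Gp j T →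
      Ew x (B j) (fun T' => ind (¬ Suc h g δ ρ (T ∪ T'))) ≤ 1 - c₀) :
    Ew x (S (2 * m)) (fun T => ind (¬ Suc h g δ ρ T)) ≤ 2 * η + (1 - c₀) ^ m := by
  classical
  have haux := iter_aux h g δ ρ S B (2 * m) hS hd hx0 hx1 Gp hc1 hsuc (2 * m) le_rfl
  obtain ⟨-, hchain, hM⟩ := haux
  have hy0 : 0 < 1 - c₀ := by linarith
  have hpt : ∀ T ⊆ S (2 * m), ind (¬ Suc h g δ ρ T) ≤
      (1 / (m : ℝ)) * (∑ i ∈ range (2 * m), ind (¬ Gp i (T ∩ S i))) +
      (1 - c₀) ^ m * (ind (¬ Suc h g δ ρ T) * ((1 - c₀)⁻¹) ^ cnt S Gp (2 * m) T) := by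
    intro T _
    have hsum : ∑ i ∈ range (2 * m), ind (¬ Gp i (T ∩ S i)) =
        ((2 * m : ℕ) : ℝ) - (cnt S Gp (2 * m) T : ℝ) := by
      have h1 : ∑ i ∈ range (2 * m), ind (¬ Gp i (T ∩ S i)) =
          (((range (2 * m)).filter fun i => ¬ Gp i (T ∩ S i)).card : ℝ) := by
        rw [card_filter]
        push_cast
        refine sum_congr rfl fun i _ => ?_
        unfold ind
        split_ifs <;> rfl
      have h2 := card_filter_add_card_filter_not (s := range (2 * m)) (fun i => Gp i (T ∩ S i))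
      rw [card_range] at h2
      have h3 : (((range (2 * m)).filter fun i => Gp i (T ∩ S i)).card : ℝ) +
          (((range (2 * m)).filter fun i => ¬ Gp i (T ∩ S i)).card : ℝ) = ((2 * m : ℕ) : ℝ) := by
        exact_mod_cast h2
      rw [h1]
      unfold cnt
      linarith
    have hind0 := ind_nonneg (¬ Suc h g δ ρ T)
    have hind1 := ind_le_one (¬ Suc h g δ ρ T)
    have hm0 : (0 : ℝ) < m := by exact_mod_cast hm
    have hsum0 : 0 ≤ ∑ i ∈ range (2 * m), ind (¬ Gp i (T ∩ S i)) :=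
      sum_nonneg fun _ _ => ind_nonneg _
    rcases Nat.lt_or_ge (cnt S Gp (2 * m) T) m with h1 | h1
    · have h2 : (1 : ℝ) ≤ (1 / (m : ℝ)) * (∑ i ∈ range (2 * m), ind (¬ Gp i (T ∩ S i))) := by
        rw [hsum, one_div, ← div_eq_inv_mul, le_div_iff₀ hm0]
        have : (cnt S Gp (2 * m) T : ℝ) ≤ m := by exact_mod_cast h1.le
        push_cast
        linarith
      have h3 : 0 ≤ (1 - c₀) ^ m * (ind (¬ Suc h g δ ρ T) * ((1 - c₀)⁻¹) ^ cnt S Gp (2 * m) T) := by
        positivity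
      linarith
    · have h2 : 1 ≤ (1 - c₀) ^ m * ((1 - c₀)⁻¹) ^ cnt S Gp (2 * m) T := by
        obtain ⟨k, hk⟩ := Nat.exists_eq_add_of_le h1
        rw [hk, pow_add, ← mul_assoc, ← mul_pow, mul_inv_cancel₀ hy0.ne', one_pow, one_mul]
        exact one_le_pow₀ ((one_le_inv₀ hy0).mpr (by linarith))
      have h3 : ind (¬ Suc h g δ ρ T) ≤
          (1 - c₀) ^ m * (ind (¬ Suc h g δ ρ T) * ((1 - c₀)⁻¹) ^ cnt S Gp (2 * m) T) := by
        calc ind (¬ Suc h g δ ρ T) = ind (¬ Suc h g δ ρ T) * 1 := (mul_one _).symm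
          _ ≤ ind (¬ Suc h g δ ρ T) * ((1 - c₀) ^ m * ((1 - c₀)⁻¹) ^ cnt S Gp (2 * m) T) :=
              mul_le_mul_of_nonneg_left h2 hind0
          _ = _ := by ring
      have h4 : 0 ≤ (1 / (m : ℝ)) * (∑ i ∈ range (2 * m), ind (¬ Gp i (T ∩ S i))) := by positivity
      linarith
  refine (Ew_mono hx0 hx1 hpt).trans ?_
  rw [Ew_add, Ew_smul, Ew_smul, Ew_sum]
  have h1 : ∑ i ∈ range (2 * m), Ew x (S (2 * m)) (fun T => ind (¬ Gp i (T ∩ S i))) ≤ (2 * m) * η := by
    have h2 : ∀ i ∈ range (2 * m), Ew x (S (2 * m)) (fun T => ind (¬ Gp i (T ∩ S i))) ≤ η := by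
      intro i hi
      have h3 := mem_range.mp hi
      rw [Ew_marg x (hchain i h3.le) (fun T => ind (¬ Gp i T))]
      exact hbad i h3
    refine (sum_le_sum h2).trans ?_
    rw [sum_const, card_range, nsmul_eq_mul]
    push_cast
    exact le_rfl
  have hm0 : (0 : ℝ) < m := by exact_mod_cast hm
  have h2 : (1 / (m : ℝ)) * (∑ i ∈ range (2 * m), Ew x (S (2 * m)) (fun T => ind (¬ Gp i (T ∩ S i)))) ≤
      2 * η := by
    calc _ ≤ (1 / (m : ℝ)) * ((2 * m) * η) := mul_le_mul_of_nonneg_left h1 (by positivity)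
      _ = _ := by field_simp
  have h3 := mul_le_mul_of_nonneg_left hM (pow_nonneg hy0.le m)
  linarith

end Pool.Agent.Lib.OW
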