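import Pool.Agent.Lib.MP_7b7e48_nt.OW.MTM
import Pool.Agent.Lib.MP_7b7e48_nt.OW.MTD

/-!
# The model theorem

Let `R` be the set of the primes with `u₀ < log p ≤ u₁`. A random pair `(A, B)` of subsets of `R` (each prime is in `A` with probability
`1/(p+1)` and in `B` with probability `1/(p+1)`) has, with probability `≥ 1 - η`, products `α` of elements of `A` and `β` of elements of
`B` with `0 < log (α/β) < 2 δ` and `α ≡ ρ β` modulo `Q`, provided that `u₁` is larger than a power of `Q u₀ / δ`.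
-/

set_option autoImplicit false

open Finset

namespace Pool.Agent.Lib.OW

/-- probabilities -/
noncomputable def xx : ℕ × Bool → ℝ := fun ω => 1 / ((ω.1 : ℝ) + 1)

/-- signed logarithms -/
noncomputable def hh : ℕ × Bool → ℝ := fun ω => if ω.2 then -Real.log ω.1 else Real.log ω.1

/-- classes -/
noncomputable def gg (Q : ℕ) : ℕ × Bool → (ZMod Q)ˣ := fun ω => if ω.2 then (cls Q ω.1)⁻¹ else cls Q ω.1

/-- block in both colours -/
noncomputable def BL (s t : ℝ) : Finset (ℕ × Bool) := PR s t ×ˢ (univ : Finset Bool)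

/-- block in one colour -/
noncomputable def BC (s t : ℝ) (c : Bool) : Finset (ℕ × Bool) := PR s t ×ˢ ({c} : Finset Bool)

theorem mem_BL {s t : ℝ} {ω : ℕ × Bool} : ω ∈ BL s t ↔ ω.1 ∈ PR s t := by
  unfold BL
  rw [mem_product]
  simp

theorem mem_BC {s t : ℝ} {c : Bool} {ω : ℕ × Bool} : ω ∈ BC s t c ↔ ω.1 ∈ PR s t ∧ ω.2 = c := by
  unfold BC
  rw [mem_product, mem_singleton]

theorem sum_BC {s t : ℝ} {c : Bool} (F : ℕ × Bool → ℝ) : ∑ ω ∈ BC s t c, F ω = ∑ p ∈ PR s t, F (p, c) := by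
  unfold BC
  rw [sum_product]
  refine sum_congr rfl fun p _ => ?_
  rw [sum_singleton]

theorem BL_eq {s t : ℝ} : BL s t = BC s t false ∪ BC s t true := by
  ext ω
  rw [mem_union, mem_BL, mem_BC, mem_BC]
  constructor
  · intro h
    rcases Bool.eq_false_or_eq_true ω.2 with h1 | h1
    · exact Or.inr ⟨h, h1⟩
    · exact Or.inl ⟨h, h1⟩
  · rintro (h | h) <;> exact h.1

theorem BC_disj {s t s' t' : ℝ} : Disjoint (BC s t false) (BC s' t' true) := by
  rw [disjoint_left]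
  intro ω h1 h2
  rw [mem_BC] at h1 h2
  rw [h1.2] at h2
  exact absurd h2.2 (by decide)

theorem sum_BL {s t : ℝ} (F : ℕ × Bool → ℝ) : ∑ ω ∈ BL s t, F ω =
    ∑ p ∈ PR s t, F (p, false) + ∑ p ∈ PR s t, F (p, true) := by
  rw [BL_eq, sum_union BC_disj, sum_BC, sum_BC]

theorem PR_union {s t u : ℝ} (h1 : s ≤ t) (h2 : t ≤ u) : PR s u = PR s t ∪ PR t u := by
  ext p
  rw [mem_union, mem_PR, mem_PR, mem_PR]
  have h3 := Real.exp_le_exp.mpr h1
  have h4 := Real.exp_le_exp.mpr h2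
  constructor
  · rintro ⟨h5, h6, h7⟩
    rcases le_or_gt (p : ℝ) (Real.exp t) with h8 | h8
    · exact Or.inl ⟨h5, h6, h8⟩
    · exact Or.inr ⟨h5, h8, h7⟩
  · rintro (⟨h5, h6, h7⟩ | ⟨h5, h6, h7⟩)
    · exact ⟨h5, h6, h7.trans h4⟩
    · exact ⟨h5, h3.trans_lt h6, h7⟩

theorem BL_union {s t u : ℝ} (h1 : s ≤ t) (h2 : t ≤ u) : BL s u = BL s t ∪ BL t u := by
  ext ω
  rw [mem_union, mem_BL, mem_BL, mem_BL, PR_union h1 h2, mem_union]

theorem BL_disj {s t u : ℝ} : Disjoint (BL s t) (BL t u) := by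
  rw [disjoint_left]
  intro ω h1 h2
  rw [mem_BL, mem_PR] at h1 h2
  linarith [h1.2.2, h2.2.1]

theorem BL_self (s : ℝ) : BL s s = ∅ := by
  rw [eq_empty_iff_forall_notMem]
  intro ω h1
  rw [mem_BL, mem_PR] at h1
  linarith [h1.2.2, h1.2.1]

theorem xx_nonneg (ω : ℕ × Bool) : 0 ≤ xx ω := by unfold xx; positivity

theorem xx_le {s t : ℝ} {ω : ℕ × Bool} (h : ω ∈ BL s t) : xx ω ≤ 1 / 2 := by
  rw [mem_BL, mem_PR] at h
  have h1 : (1 : ℝ) ≤ ω.1 := by exact_mod_cast h.1.one_lt.le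
  unfold xx
  exact one_div_le_one_div_of_le (by norm_num) (by linarith)

theorem sqrt_half_le : (0.2928 : ℝ) ≤ 1 - Real.sqrt (1 / 2) := by
  have h1 : Real.sqrt (1 / 2) ≤ 0.7072 := by
    rw [Real.sqrt_le_left (by norm_num)]
    norm_num
  linarith

/-- the contraction factor of one dyadic step -/
noncomputable def th : ℝ := Real.exp (-0.404)

theorem th_pos : 0 < th := Real.exp_pos _

theorem sqrt_two_th : Real.sqrt 2 * th ≤ 0.95 := by
  have h1 : Real.sqrt 2 = Real.exp (Real.log 2 / 2) := by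
    rw [Real.sqrt_eq_iff_mul_self_eq (by norm_num) (Real.exp_pos _).le, ← Real.exp_add, add_halves,
      Real.exp_log (by norm_num)]
  rw [h1, th, ← Real.exp_add]
  have h2 := Real.log_two_lt_d9
  have h3 : Real.exp (Real.log 2 / 2 + -0.404) ≤ Real.exp (-0.057) := Real.exp_le_exp.mpr (by linarith)
  refine h3.trans ?_
  have h4 := Real.add_one_le_exp (0.057 : ℝ)
  rw [Real.exp_neg, inv_le_comm₀ (Real.exp_pos _) (by norm_num)]
  refine le_trans ?_ h4
  norm_num

theorem two_th_sq : (2 * th ^ 2) ^ 7 ≤ 1 / 2 := by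
  have h1 : 2 * th ^ 2 = Real.exp (Real.log 2 - 0.808) := by
    rw [th, ← Real.exp_nat_mul, Real.exp_sub, Real.exp_log (by norm_num), div_eq_mul_inv, ← Real.exp_neg]
    congr 2
    norm_num
  rw [h1, ← Real.exp_nat_mul]
  have h2 := Real.log_two_lt_d9
  have h3 := Real.log_two_gt_d9
  have h4 : Real.exp ((7 : ℕ) * (Real.log 2 - 0.808)) ≤ Real.exp (-Real.log 2) := by
    apply Real.exp_le_exp.mpr
    push_cast
    linarith
  refine h4.trans ?_
  rw [Real.exp_neg, Real.exp_log (by norm_num)]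
  norm_num

/-- the hypotheses on a scale: the cells of the dyadic blocks above `u₀` -/
structure Scale (Q : ℕ) (δ u₀ : ℝ) : Prop where
  hQ : 1 ≤ Q
  hδ : 0 < δ
  hu : 2 ≤ u₀
  qe : (Q : ℝ) ≤ Real.exp u₀
  up : ∀ u : ℝ, 2 * u₀ ≤ u → ∀ (v : ℝ) (c : (ZMod Q)ˣ),
    ∑ p ∈ PR (u / 2) u, 1 / ((p : ℝ) + 1) * ind (|v - Real.log (p : ℝ)| ≤ δ ∧ cls Q p = c) ≤
      42 * δ / (Q.totient * u)
  dy : ∀ u : ℝ, 2 * u₀ ≤ u → 0.69 ≤ ∑ p ∈ PR (u / 2) u, 1 / ((p : ℝ) + 1)
  low : ∀ u u' t : ℝ, u₀ ≤ u → u ≤ t → t + δ ≤ u' → ∀ c : (ZMod Q)ˣ, δ / (32 * Q.totient * t) ≤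
      ∑ p ∈ PR u u', 1 / ((p : ℝ) + 1) * ind (t < Real.log p ∧ Real.log p < t + δ ∧ cls Q p = c)

/-- the energy at the scale `2 ^ n u₀` -/
theorem energy {Q : ℕ} {δ u₀ : ℝ} (hs : Scale Q δ u₀) (n : ℕ) :
    Ew xx (BL u₀ (2 ^ n * u₀)) (fun T => Real.sqrt (En hh (gg Q) δ T)) ≤
      20 * Real.sqrt (84 * δ / (Q.totient * (2 ^ n * u₀))) + th ^ n := by
  have hφ : (0 : ℝ) < Q.totient := by exact_mod_cast Nat.totient_pos.mpr hs.hQ
  have hδ := hs.hδ
  have hu0 : 0 < u₀ := by linarith [hs.hu]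
  induction n with
  | zero =>
    rw [pow_zero, one_mul, pow_zero, BL_self, Ew_empty]
    have h1 : Real.sqrt (En hh (gg Q) δ ∅) ≤ 1 := by
      rw [Real.sqrt_le_one]
      exact En_le_one _ _ _ _
    have h2 := Real.sqrt_nonneg (84 * δ / (Q.totient * u₀))
    linarith
  | succ n ih =>
    set u := 2 ^ n * u₀ with hun
    have hu : 0 < u := by positivity
    have hu' : (2 : ℝ) ^ (n + 1) * u₀ = 2 * u := by
      rw [hun, pow_succ]
      ring
    have hu0u : u₀ ≤ u := by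
      have : (1 : ℝ) ≤ 2 ^ n := one_le_pow₀ (by norm_num)
      rw [hun]
      nlinarith
    rw [hu', BL_union hu0u (by linarith : u ≤ 2 * u)]
    have hstep := En_step (x := xx) (S := BL u₀ u) (Sg := BL u (2 * u)) BL_disj (fun ω _ => xx_nonneg ω)
      (fun ω hω => ?_) hh (gg Q) δ (84 * δ / (Q.totient * (2 * u))) ?_
    · refine hstep.trans ?_
      -- the product
      have hprod : ∏ ω ∈ BL u (2 * u), (1 - xx ω + xx ω * Real.sqrt (1 / 2)) ≤ th := by
        have h1 : ∏ ω ∈ BL u (2 * u), (1 - xx ω + xx ω * Real.sqrt (1 / 2)) ≤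
            Real.exp (-∑ ω ∈ BL u (2 * u), xx ω * 0.2928) := by
          rw [← sum_neg_distrib, Real.exp_sum]
          refine prod_le_prod (fun ω hω => ?_) fun ω _ => ?_
          · have h2 := xx_le hω
            have h3 := mul_nonneg (xx_nonneg ω) (Real.sqrt_nonneg (1 / 2))
            linarith
          · have h2 := Real.add_one_le_exp (-(xx ω * 0.2928))
            have h3 := mul_le_mul_of_nonneg_left sqrt_half_le (xx_nonneg ω)
            linarith
        refine h1.trans ?_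
        rw [th, Real.exp_le_exp, ← sum_mul, sum_BL]
        have h2 := hs.dy (2 * u) (by linarith)
        rw [mul_div_cancel_left₀ u (by norm_num : (2 : ℝ) ≠ 0)] at h2
        have h3 : ∀ c : Bool, ∑ p ∈ PR u (2 * u), xx (p, c) = ∑ p ∈ PR u (2 * u), 1 / ((p : ℝ) + 1) :=
          fun _ => rfl
        rw [h3, h3]
        linarith
      have hE0 : 0 ≤ Ew xx (BL u₀ u) (fun T => Real.sqrt (En hh (gg Q) δ T)) :=
        Ew_nonneg (fun ω _ => xx_nonneg ω) (fun ω hω => (xx_le hω).trans (by norm_num))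
          fun _ _ => Real.sqrt_nonneg _
      have h1 := mul_le_mul_of_nonneg_right hprod hE0
      have h2 := mul_le_mul_of_nonneg_left ih th_pos.le
      -- `√(1/u) = √2 √(1/(2u))`
      have h3 : Real.sqrt (84 * δ / (Q.totient * u)) =
          Real.sqrt 2 * Real.sqrt (84 * δ / (Q.totient * (2 * u))) := by
        rw [← Real.sqrt_mul (by norm_num)]
        congr 1
        field_simp
      rw [h3] at h2
      have h4 := sqrt_two_th
      have h5 := mul_le_mul_of_nonneg_right h4 (Real.sqrt_nonneg (84 * δ / (Q.totient * (2 * u))))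
      rw [pow_succ, mul_comm (th ^ n) th]
      nlinarith
    · rcases mem_union.mp hω with h1 | h1
      · exact xx_le h1
      · exact xx_le h1
    · intro v c
      rw [sum_BL]
      have h1 := hs.up (2 * u) (by linarith) v c
      have h2 := hs.up (2 * u) (by linarith) (-v) c⁻¹
      rw [mul_div_cancel_left₀ u (by norm_num : (2 : ℝ) ≠ 0)] at h1 h2
      have h3 : ∑ p ∈ PR u (2 * u), xx (p, false) * ind (|v - hh (p, false)| ≤ δ ∧ gg Q (p, false) = c) =
          ∑ p ∈ PR u (2 * u), 1 / ((p : ℝ) + 1) * ind (|v - Real.log (p : ℝ)| ≤ δ ∧ cls Q p = c) := by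
        refine sum_congr rfl fun p _ => ?_
        simp [xx, hh, gg]
      have h4 : ∑ p ∈ PR u (2 * u), xx (p, true) * ind (|v - hh (p, true)| ≤ δ ∧ gg Q (p, true) = c) =
          ∑ p ∈ PR u (2 * u), 1 / ((p : ℝ) + 1) * ind (|(-v) - Real.log (p : ℝ)| ≤ δ ∧ cls Q p = c⁻¹) := by
        refine sum_congr rfl fun p _ => ?_
        unfold xx hh gg
        simp only [if_true]
        congr 1
        refine ind_congr ?_
        rw [inv_eq_iff_eq_inv, ← abs_neg (v - -Real.log p)]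
        ring_nf
      rw [h3, h4]
      have h5 : 84 * δ / (Q.totient * (2 * u)) = 42 * δ / (Q.totient * (2 * u)) +
          42 * δ / (Q.totient * (2 * u)) := by ring
      rw [h5]
      exact add_le_add h1 h2

end Pool.Agent.Lib.OW
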