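import Mathlib
import Pool.Agent.Lib.MP_7b7e48_nt.OW.MTF
import Pool.Agent.Lib.MP_7b7e48_nt.OW.TRB

/-!
# Analytic facts for theorem LF
-/

set_option autoImplicit false

open Finset Filter Topology

namespace Pool.Agent.Lib.OW

theorem sum_PR_dyadic {t : ℝ} (ht : 2 ≤ t) : ∑ p ∈ PR (t / 2) t, 1 / (p : ℝ) ≤ 4 := by
  have h1 : 1 ≤ ⌊Real.exp t⌋₊ := by
    rw [Nat.one_le_floor_iff]
    exact Real.one_le_exp (by linarith)
  have h2 := Pool.Agent.Lib.Sieve.sum_log_div_le ⌊Real.exp t⌋₊ h1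
  have h3 : Real.log (⌊Real.exp t⌋₊ : ℝ) ≤ t := by
    rw [Real.log_le_iff_le_exp (by exact_mod_cast h1)]
    exact Nat.floor_le (Real.exp_pos t).le
  have ht0 : 0 < t := by linarith
  have h4 : ∑ p ∈ PR (t / 2) t, 1 / (p : ℝ) ≤ ∑ p ∈ PR (t / 2) t, (2 / t) * (Real.log p / p) := by
    refine sum_le_sum fun p hp => ?_
    have hpp := (mem_PR.mp hp).1
    have hp0 : (0 : ℝ) < p := by exact_mod_cast hpp.pos
    have h5 := ((mem_PR_log hpp).mp hp).1
    rw [div_mul_div_comm, div_le_div_iff₀ hp0 (by positivity)]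
    nlinarith
  have h5 : ∑ p ∈ PR (t / 2) t, Real.log p / p ≤
      ∑ p ∈ (Finset.Icc 1 ⌊Real.exp t⌋₊).filter Nat.Prime, Real.log p / p := by
    refine sum_le_sum_of_subset_of_nonneg ?_ fun p hp _ => ?_
    · intro p hp
      unfold PR at hp
      rw [mem_filter, mem_Ioc] at hp
      rw [mem_filter, mem_Icc]
      exact ⟨⟨hp.2.one_lt.le, hp.1.2⟩, hp.2⟩
    · have hl : 0 ≤ Real.log p := by
        rcases Nat.eq_zero_or_pos p with h | h
        · rw [h]; simp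
        · exact Real.log_nonneg (by exact_mod_cast h)
      positivity
  rw [← mul_sum] at h4
  have h6 : Real.log 4 ≤ 2 := by
    have h6 := Real.log_two_lt_d9
    have h7 : Real.log 4 = 2 * Real.log 2 := by
      rw [show (4 : ℝ) = 2 ^ 2 by norm_num, Real.log_pow]
      norm_num
    linarith
  have h7 : (2 / t) * ∑ p ∈ PR (t / 2) t, Real.log p / p ≤ (2 / t) * (t + 2) :=
    mul_le_mul_of_nonneg_left (by linarith) (by positivity)
  have h8 : (2 / t) * (t + 2) ≤ 4 := by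
    rw [div_mul_eq_mul_div, div_le_iff₀ ht0]
    linarith
  linarith

theorem sum_PR_le {s : ℝ} (hs : 2 ≤ s) (n : ℕ) : ∑ p ∈ PR s (2 ^ n * s), 1 / (p : ℝ) ≤ 4 * n := by
  induction n with
  | zero =>
    rw [pow_zero, one_mul]
    have : PR s s = ∅ := by
      rw [eq_empty_iff_forall_notMem]
      intro p hp
      rw [mem_PR] at hp
      linarith [hp.2.1, hp.2.2]
    rw [this]
    simp
  | succ n ih =>
    have h1 : (1 : ℝ) ≤ 2 ^ n := one_le_pow₀ (by norm_num)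
    have h2 : s ≤ 2 ^ n * s := by nlinarith
    have h3 : (2 : ℝ) ^ (n + 1) * s = 2 * (2 ^ n * s) := by
      rw [pow_succ]
      ring
    rw [h3, PR_union h2 (by linarith : (2 : ℝ) ^ n * s ≤ 2 * (2 ^ n * s)), sum_union]
    · have h4 := sum_PR_dyadic (t := 2 * (2 ^ n * s)) (by linarith)
      rw [mul_div_cancel_left₀ _ (by norm_num : (2 : ℝ) ≠ 0)] at h4
      push_cast
      linarith
    · rw [disjoint_left]
      intro p h4 h5
      rw [mem_PR] at h4 h5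
      linarith [h4.2.2, h5.2.1]

/-- `∑_{K^a < log p ≤ K^b} 1/p ≤ 8 (b + 1) log K` -/
theorem sum_PR_K {a b K : ℝ} (ha : 0 ≤ a) (hab : a ≤ b) (hK : 2 ≤ K ^ a) (hK1 : Real.exp 1 ≤ K) :
    ∑ p ∈ PR (K ^ a) (K ^ b), 1 / (p : ℝ) ≤ 8 * (b + 1) * Real.log K := by
  have hK0 : 0 < K := lt_of_lt_of_le (Real.exp_pos 1) hK1
  have hlog : 1 ≤ Real.log K := by
    rw [Real.le_log_iff_exp_le hK0]
    exact hK1
  have hb0 : 0 ≤ b := ha.trans hab
  have hKge1 : 1 ≤ K := le_trans (Real.one_le_exp (by norm_num)) hK1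
  set n := ⌈2 * b * Real.log K⌉₊ with hn
  have h1 : 2 * b * Real.log K ≤ n := Nat.le_ceil _
  have h2 : (n : ℝ) ≤ 2 * b * Real.log K + 1 := (Nat.ceil_lt_add_one (by positivity)).le
  have h3 : K ^ b ≤ 2 ^ n * K ^ a := by
    have h4 : K ^ b ≤ 2 ^ n := by
      rw [← Real.rpow_natCast 2 n, Real.rpow_def_of_pos hK0, Real.rpow_def_of_pos (by norm_num),
        Real.exp_le_exp]
      have h5 := Real.log_two_gt_d9
      have h6 : 0 ≤ b * Real.log K := by positivity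
      have h7 : Real.log 2 * (2 * b * Real.log K) ≤ Real.log 2 * n :=
        mul_le_mul_of_nonneg_left h1 (by linarith)
      nlinarith
    have h5 : (0 : ℝ) ≤ 2 ^ n := by positivity
    nlinarith
  have h4 := sum_PR_le hK n
  have h5 : ∑ p ∈ PR (K ^ a) (K ^ b), 1 / (p : ℝ) ≤ ∑ p ∈ PR (K ^ a) (2 ^ n * K ^ a), 1 / (p : ℝ) := by
    refine sum_le_sum_of_subset_of_nonneg ?_ fun p _ _ => by positivity
    intro p hp
    rw [mem_PR] at hp ⊢
    exact ⟨hp.1, hp.2.1, hp.2.2.trans (Real.exp_le_exp.mpr h3)⟩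
  nlinarith

theorem sum_inv_le (M : ℕ) (hM : 1 ≤ M) (P : Finset ℕ) (hP : ∀ p ∈ P, 1 ≤ p ∧ p ≤ M) :
    ∑ p ∈ P, 1 / (p : ℝ) ≤ 1 + Real.log M := by
  have h1 : ∑ p ∈ P, 1 / (p : ℝ) ≤ ∑ p ∈ Finset.Icc 1 M, 1 / (p : ℝ) := by
    refine sum_le_sum_of_subset_of_nonneg ?_ fun p _ _ => by positivity
    intro p hp
    exact mem_Icc.mpr (hP p hp)
  refine h1.trans ?_
  have h2 := harmonic_le_one_add_log M
  rw [harmonic_eq_sum_Icc] at h2
  push_cast at h2
  simpa [one_div] using h2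

/-- `L^m / m! ≤ e^(-m)` for `m ≥ 8 L` -/
theorem pow_div_fact {L : ℝ} (hL : 0 ≤ L) {m : ℕ} (hm : 8 * L ≤ m) (hm1 : 1 ≤ m) :
    L ^ m / (m.factorial : ℝ) ≤ Real.exp (-m) := by
  have hm0 : (0 : ℝ) < m := by exact_mod_cast hm1
  have h1 := Real.pow_div_factorial_le_exp (m : ℝ) hm0.le m
  have hf : (0 : ℝ) < m.factorial := by exact_mod_cast Nat.factorial_pos m
  have h2 : L ^ m / (m.factorial : ℝ) = (L / m) ^ m * ((m : ℝ) ^ m / m.factorial) := by
    rw [div_pow]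
    field_simp
  rw [h2]
  have h3 : (L / m) ^ m ≤ (Real.exp (-2)) ^ m := by
    refine pow_le_pow_left₀ (by positivity) ?_ m
    rw [div_le_iff₀ hm0]
    have h4 : (1 : ℝ) / 8 ≤ Real.exp (-2) := by
      rw [Real.exp_neg, one_div, inv_le_inv₀ (by norm_num) (Real.exp_pos 2)]
      have h5 : Real.exp 2 = Real.exp 1 ^ 2 := by
        rw [← Real.exp_nat_mul]
        norm_num
      rw [h5]
      have h6 := Real.exp_one_lt_d9
      have h7 := Real.exp_pos 1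
      nlinarith
    nlinarith
  calc (L / m) ^ m * ((m : ℝ) ^ m / m.factorial) ≤ (Real.exp (-2)) ^ m * Real.exp m :=
        mul_le_mul h3 h1 (by positivity) (by positivity)
    _ = Real.exp (-m) := by
        rw [← Real.exp_nat_mul, ← Real.exp_add]
        congr 1
        ring

theorem es_small {α : Type*} [DecidableEq α] {y : α → ℝ} {S : Finset α} (hy : ∀ a ∈ S, 0 ≤ y a) {L : ℝ}
    (hL : ∑ a ∈ S, y a ≤ L) {m : ℕ} (hm : 8 * L ≤ m) (hm1 : 1 ≤ m) : es y S m ≤ Real.exp (-m) := by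
  have hs : 0 ≤ ∑ a ∈ S, y a := sum_nonneg hy
  have hL0 : 0 ≤ L := hs.trans hL
  refine le_trans ?_ (pow_div_fact hL0 hm hm1)
  have hf : (0 : ℝ) < m.factorial := by exact_mod_cast Nat.factorial_pos m
  rw [le_div_iff₀ hf, mul_comm]
  exact (es_le hy m).trans (pow_le_pow_left₀ hs hL m)

/-- `1 - y ≥ e^(-2y)` for `y ≤ 1/2` -/
theorem prod_ge_exp {α : Type*} [DecidableEq α] {y : α → ℝ} {S : Finset α} (hy : ∀ a ∈ S, 0 ≤ y a)
    (hy1 : ∀ a ∈ S, y a ≤ 1 / 2) {L : ℝ} (hL : ∑ a ∈ S, y a ≤ L) :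
    Real.exp (-(2 * L)) ≤ ∏ a ∈ S, (1 - y a) := by
  have h1 : Real.exp (-(2 * L)) ≤ Real.exp (∑ a ∈ S, -(2 * y a)) := by
    rw [Real.exp_le_exp, sum_neg_distrib, ← mul_sum]
    linarith
  refine h1.trans ?_
  rw [Real.exp_sum]
  refine prod_le_prod (fun a _ => (Real.exp_pos _).le) fun a ha => ?_
  have h0 := hy a ha
  have h2 := hy1 a ha
  -- convexity
  have h3 : Real.exp (-(2 * y a)) ≤ (1 - 2 * y a) * Real.exp 0 + (2 * y a) * Real.exp (-1) := by
    have := convexOn_exp.2 (Set.mem_univ 0) (Set.mem_univ (-1)) (show 0 ≤ 1 - 2 * y a by linarith)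
      (show 0 ≤ 2 * y a by linarith) (by ring)
    rw [show -(2 * y a) = (1 - 2 * y a) • (0 : ℝ) + (2 * y a) • (-1 : ℝ) by
      simp only [smul_eq_mul]; ring]
    exact this
  have h4 : Real.exp (-1) ≤ 1 / 2 := by
    rw [Real.exp_neg, inv_le_comm₀ (Real.exp_pos 1) (by norm_num)]
    have := Real.exp_one_gt_d9
    linarith
  rw [Real.exp_zero] at h3
  nlinarith

end Pool.Agent.Lib.OW
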