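import Mathlib
import Pool.Agent.Lib.MP_7b7e48_nt.OW.LFC
import Pool.Agent.Lib.MP_7b7e48_nt.OW.TRT

/-!
# The transfer data of two linear forms on an interval
-/

set_option autoImplicit false

open Finset Filter Topology

namespace Pool.Agent.Lib.OW

/-- the pairs (prime, colour) such that the prime divides the form of that colour -/
noncomputable def An (Pr : Finset ℕ) (G : Bool → ℕ → ℕ) (n : ℕ) : Finset (ℕ × Bool) :=
  (Pr ×ˢ univ).filter fun ω => ω.1 ∣ G ω.2 n

/-- the primes which divide one of the forms -/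
noncomputable def Vn (Pr : Finset ℕ) (G : Bool → ℕ → ℕ) (n : ℕ) : Finset ℕ :=
  Pr.filter fun p => ∃ c, p ∣ G c n

theorem mem_An {Pr : Finset ℕ} {G : Bool → ℕ → ℕ} {n : ℕ} {ω : ℕ × Bool} :
    ω ∈ An Pr G n ↔ ω.1 ∈ Pr ∧ ω.1 ∣ G ω.2 n := by
  unfold An
  rw [mem_filter, mem_product]
  simp

theorem mem_Vn {Pr : Finset ℕ} {G : Bool → ℕ → ℕ} {n p : ℕ} : p ∈ Vn Pr G n ↔ p ∈ Pr ∧ ∃ c, p ∣ G c n := by
  unfold Vn
  rw [mem_filter]

/-- the root of a linear form modulo a prime -/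
theorem res_one {p : ℕ} (hp : p.Prime) (a b : ℤ) (ha : ¬ (p : ℤ) ∣ a) :
    ∃ r < p, ∀ n : ℕ, (p : ℤ) ∣ a * n - b ↔ n % p = r := by
  haveI : Fact p.Prime := ⟨hp⟩
  have ha0 : (a : ZMod p) ≠ 0 := by
    intro h
    exact ha ((ZMod.intCast_zmod_eq_zero_iff_dvd a p).mp h)
  refine ⟨((b : ZMod p) / (a : ZMod p)).val, ZMod.val_lt _, fun n => ?_⟩
  rw [← ZMod.intCast_zmod_eq_zero_iff_dvd]
  push_cast
  rw [sub_eq_zero, ← ZMod.val_natCast]
  constructor
  · intro h
    have h1 : (n : ZMod p) = (b : ZMod p) / (a : ZMod p) := by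
      rw [eq_div_iff ha0, mul_comm]
      exact h
    rw [h1]
  · intro h
    have h1 : (n : ZMod p) = (b : ZMod p) / (a : ZMod p) := ZMod.val_injective p h
    rw [h1, mul_comm, div_mul_cancel₀ _ ha0]

theorem inj_prod {T : Finset (ℕ × Bool)} (hT : Inj T) (f : ℕ → ℝ) : ∏ ω ∈ T, f ω.1 = ∏ p ∈ pj T, f p := by
  classical
  unfold pj
  rw [prod_image]
  intro ω hω ω' hω' h
  exact hT ω hω ω' hω' h

open Classical in
theorem trf_lin {Pr : Finset ℕ} (hp : ∀ p ∈ Pr, p.Prime) {W : ℕ} (hW : 1 ≤ W) (hWp : ∀ p ∈ Pr, W.Coprime p)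
    {u v : ℕ} (huv : u ≤ v) (c : ℕ) {G : Bool → ℕ → ℕ} {r : Bool → ℕ → ℕ}
    (hr : ∀ e, ∀ p ∈ Pr, r e p < p) (hr0 : ∀ p ∈ Pr, r false p ≠ r true p)
    (hrG : ∀ e, ∀ p ∈ Pr, ∀ n ∈ Finset.Ioc u v, (p ∣ G e n ↔ n % p = r e p)) {j : ℕ}
    (hy : ∀ p ∈ Pr, 2 / (p : ℝ) ≤ 1 / 2 ∧ 16 * j * (2 / (p : ℝ)) ≤ 1)
    (htail : es (fun p : ℕ => 2 / (p : ℝ)) Pr (2 * j + 1) ≤ 1 / 4 * ∏ p ∈ Pr, (1 - 2 / (p : ℝ))) :
    Trf ((Finset.Ioc u v).filter fun n => n ≡ c [MOD W]) (fun _ => (1 : ℝ)) (An Pr G) (Vn Pr G) Pr ∅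
      (fun ω : ℕ × Bool => 1 / (ω.1 : ℝ)) (fun p : ℕ => 2 / (p : ℝ)) (((v : ℝ) - u) / W) (2 ^ (2 * j)) j where
  w0 := fun _ _ => by norm_num
  A1 := fun i _ ω hω => (mem_An.mp hω).1
  A2 := by
    intro n hn ω hω ω' hω' he
    obtain ⟨h1, h2⟩ := mem_An.mp hω
    obtain ⟨h3, h4⟩ := mem_An.mp hω'
    have hn' := (mem_filter.mp hn).1
    rw [hrG ω.2 ω.1 h1 n hn'] at h2
    rw [hrG ω'.2 ω'.1 h3 n hn'] at h4
    refine Prod.ext he ?_
    by_contra hne
    rw [← he] at h4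
    have h5 : r ω.2 ω.1 = r ω'.2 ω.1 := by rw [← h2, ← h4]
    have h6 := hr0 ω.1 h1
    rcases Bool.eq_false_or_eq_true ω.2 with h7 | h7 <;> rcases Bool.eq_false_or_eq_true ω'.2 with h8 | h8
    · exact hne (by rw [h7, h8])
    · rw [h7, h8] at h5
      exact h6 h5.symm
    · rw [h7, h8] at h5
      exact h6 h5
    · exact hne (by rw [h7, h8])
  V1 := by
    intro n _ p hpV hpP
    obtain ⟨-, e, he⟩ := mem_Vn.mp hpV
    exact mem_pj.mpr ⟨e, mem_An.mpr ⟨hpP, he⟩⟩
  disj := disjoint_empty_right _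
  x0 := fun ω _ => by positivity
  yx := by
    intro p _
    rw [Fintype.sum_bool]
    ring
  y0 := fun p hp => absurd hp (notMem_empty p)
  y1 := hy
  X0 := by
    have h1 : (u : ℝ) ≤ v := by exact_mod_cast huv
    have h2 : (0 : ℝ) ≤ W := Nat.cast_nonneg _
    exact div_nonneg (by linarith) h2
  E0 := by positivity
  law := by
    intro T hTP hTi _ S' hS' hSc
    have hS'P : ∀ p ∈ S', p ∈ Pr ∧ p ∉ pj T := by
      intro p hp'
      rcases hS' p hp' with h | h
      · exact h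
      · exact absurd h (notMem_empty p)
    have hpjP : ∀ p ∈ pj T, p ∈ Pr := by
      intro p hp'
      obtain ⟨e, he⟩ := mem_pj.mp hp'
      exact hTP _ he
    have hSP : ∀ p ∈ pj T ∪ S', p ∈ Pr := by
      intro p hp'
      rcases mem_union.mp hp' with h | h
      · exact hpjP p h
      · exact (hS'P p h).1
    have hdisj : Disjoint (pj T) S' := by
      rw [disjoint_left]
      intro p h1 h2
      exact (hS'P p h2).2 h1
    obtain ⟨cc, hcc⟩ : ∃ cc : ℕ → Finset Bool, cc = fun p => univ.filter fun e => p ∈ pj T → (p, e) ∈ T := ⟨_, rfl⟩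
    obtain ⟨Z, hZ⟩ : ∃ Z : ℕ → Finset ℕ, Z = fun p => (cc p).image fun e => r e p := ⟨_, rfl⟩
    have hZmem : ∀ p z, z ∈ Z p ↔ ∃ e, (p ∈ pj T → (p, e) ∈ T) ∧ r e p = z := by
      intro p z
      rw [hZ, hcc]
      simp [mem_image, mem_filter]
    have hZlt : ∀ p ∈ pj T ∪ S', ∀ z ∈ Z p, z < p := by
      intro p hp' z hz
      obtain ⟨e, -, he⟩ := (hZmem p z).mp hz
      rw [← he]
      exact hr e p (hSP p hp')
    have hcount := crt_count (pj T ∪ S') (fun p h => hp p (hSP p h)) Z hZlt u v huv W hW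
      (fun p h => hWp p (hSP p h)) c
    have hinj : ∀ p ∈ Pr, ∀ e e', r e p = r e' p → e = e' := by
      intro p hp' e e' h
      have h6 := hr0 p hp'
      cases e <;> cases e'
      · rfl
      · exact absurd h h6
      · exact absurd h.symm h6
      · rfl
    have hcardZ : ∀ p ∈ Pr, (Z p).card = (cc p).card := by
      intro p hp'
      rw [hZ]
      refine card_image_of_injOn fun e _ e' _ h => hinj p hp' e e' h
    have hcard1 : ∀ p ∈ pj T, (Z p).card = 1 := by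
      intro p hp'
      rw [hcardZ p (hpjP p hp'), hcc, card_eq_one]
      obtain ⟨e, he⟩ := mem_pj.mp hp'
      refine ⟨e, ?_⟩
      ext e'
      rw [mem_filter, mem_singleton]
      constructor
      · rintro ⟨-, h⟩
        have := hTi _ (h hp') _ he rfl
        exact (Prod.mk.inj this).2
      · rintro rfl
        exact ⟨mem_univ _, fun _ => he⟩
    have hcard2 : ∀ p ∈ S', (Z p).card = 2 := by
      intro p hp'
      rw [hcardZ p (hS'P p hp').1, hcc]
      dsimp only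
      have : (univ.filter fun e : Bool => p ∈ pj T → (p, e) ∈ T) = univ := by
        rw [filter_eq_self]
        intro e _ h
        exact absurd h (hS'P p hp').2
      rw [this, card_univ, Fintype.card_bool]
    -- the sets
    have hset : ((Finset.Ioc u v).filter fun n => n ≡ c [MOD W] ∧ ∀ p ∈ pj T ∪ S', n % p ∈ Z p) =
        ((Finset.Ioc u v).filter fun n => n ≡ c [MOD W]).filter fun n => T ⊆ An Pr G n ∧ S' ⊆ Vn Pr G n := by
      ext n
      simp only [mem_filter]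
      constructor
      · rintro ⟨h1, h2, h3⟩
        refine ⟨⟨h1, h2⟩, ?_, ?_⟩
        · intro ω hω
          have hωj : ω.1 ∈ pj T := mem_pj.mpr ⟨ω.2, hω⟩
          obtain ⟨e, he1, he2⟩ := (hZmem _ _).mp (h3 ω.1 (mem_union_left _ hωj))
          have he3 := hTi _ (he1 hωj) _ hω rfl
          have he4 : e = ω.2 := congrArg Prod.snd he3
          rw [mem_An]
          refine ⟨hTP ω hω, ?_⟩
          rw [hrG ω.2 ω.1 (hTP ω hω) n h1, ← he2, he4]
        · intro p hpS
          obtain ⟨e, -, he2⟩ := (hZmem _ _).mp (h3 p (mem_union_right _ hpS))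
          rw [mem_Vn]
          refine ⟨(hS'P p hpS).1, e, ?_⟩
          rw [hrG e p (hS'P p hpS).1 n h1, he2]
      · rintro ⟨⟨h1, h2⟩, h3, h4⟩
        refine ⟨h1, h2, ?_⟩
        intro p hp'
        rcases mem_union.mp hp' with h5 | h5
        · obtain ⟨e, he⟩ := mem_pj.mp h5
          rw [hZmem]
          refine ⟨e, fun _ => he, ?_⟩
          have h6 := (mem_An.mp (h3 he)).2
          rw [hrG e p (hpjP p h5) n h1] at h6
          exact h6.symm
        · obtain ⟨-, e, he⟩ := mem_Vn.mp (h4 h5)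
          rw [hZmem]
          refine ⟨e, fun h => absurd h (hS'P p h5).2, ?_⟩
          rw [hrG e p (hS'P p h5).1 n h1] at he
          exact he.symm
    rw [hset] at hcount
    have hprod : ∏ p ∈ pj T ∪ S', (((Z p).card : ℝ) / p) =
        (∏ ω ∈ T, 1 / (ω.1 : ℝ)) * ∏ p ∈ S', 2 / (p : ℝ) := by
      rw [prod_union hdisj, inj_prod hTi fun p => 1 / (p : ℝ)]
      congr 1
      · exact prod_congr rfl fun p h => by rw [hcard1 p h]; norm_num
      · exact prod_congr rfl fun p h => by rw [hcard2 p h]; norm_num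
    have herr : ∏ p ∈ pj T ∪ S', ((Z p).card : ℝ) ≤ 2 ^ (2 * j) := by
      rw [prod_union hdisj]
      have e1 : ∏ p ∈ pj T, ((Z p).card : ℝ) = 1 := prod_eq_one fun p h => by rw [hcard1 p h]; norm_num
      have e2 : ∏ p ∈ S', ((Z p).card : ℝ) = 2 ^ S'.card := by
        rw [prod_congr rfl fun p h => by rw [hcard2 p h], prod_const]
        norm_num
      rw [e1, e2, one_mul]
      exact pow_le_pow_right₀ (by norm_num) hSc
    rw [hprod] at hcount
    have hcount' := hcount.trans herr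
    rw [← mul_assoc] at hcount'
    rw [sum_const, nsmul_eq_mul, mul_one]
    refine le_trans (le_of_eq ?_) hcount'
    congr!
  tail := by
    rw [union_empty]
    exact htail

end Pool.Agent.Lib.OW
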