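import Mathlib
import Pool.Agent.Lib.MP_7b7e48_nt.OW.LFA
import Pool.Agent.Lib.MP_7b7e48_nt.OW.LFB
import Pool.Agent.Lib.MP_7b7e48_nt.OW.LFM

/-!
# Theorem LF, end of the proof
-/

set_option autoImplicit false

open Finset Filter Topology

namespace Pool.Agent.Lib.OW

theorem PR_card (s t : ℝ) : ((PR s t).card : ℝ) ≤ Real.exp t := by
  have h1 : PR s t ⊆ Finset.Ioc 0 ⌊Real.exp t⌋₊ := by
    intro p hp
    have h2 := mem_PR.mp hp
    rw [mem_Ioc]
    exact ⟨h2.1.pos, Nat.le_floor h2.2.2⟩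
  have h2 := card_le_card h1
  rw [Nat.card_Ioc, Nat.sub_zero] at h2
  calc ((PR s t).card : ℝ) ≤ (⌊Real.exp t⌋₊ : ℝ) := by exact_mod_cast h2
    _ ≤ Real.exp t := Nat.floor_le (Real.exp_pos t).le

theorem exc_card (s t : ℝ) {E : ℕ} (hE : 1 ≤ E) :
    ((((PR s t).filter fun p => p ∣ E).card : ℕ) : ℝ) ≤ 2 * Real.log E := by
  have h1 : (∏ p ∈ (PR s t).filter fun p => p ∣ E, p) ∣ E := by
    refine prod_primes_dvd E (fun p hp => ((mem_PR.mp (mem_filter.mp hp).1).1).prime) fun p hp => ?_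
    exact (mem_filter.mp hp).2
  have h2 := Nat.le_of_dvd hE h1
  have h3 : 2 ^ ((PR s t).filter fun p => p ∣ E).card ≤ ∏ p ∈ (PR s t).filter fun p => p ∣ E, p := by
    rw [← prod_const]
    exact prod_le_prod (fun _ _ => by norm_num) fun p hp => (mem_PR.mp (mem_filter.mp hp).1).1.two_le
  have h4 : ((2 : ℝ) ^ ((PR s t).filter fun p => p ∣ E).card) ≤ E := by exact_mod_cast h3.trans h2
  have h5 := Real.log_le_log (by positivity) h4
  rw [Real.log_pow] at h5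
  have h6 := Real.log_two_gt_d9
  have h7 : (0 : ℝ) ≤ ((PR s t).filter fun p => p ∣ E).card := Nat.cast_nonneg _
  nlinarith

open Classical in
/-- the core of theorem LF, with all the numerical conditions as hypotheses -/
theorem lf_core {s t δ η₀ L : ℝ} {Q W E j : ℕ} (hQ1 : 1 ≤ Q) (hQs : (Q : ℝ) ≤ Real.exp s) (ρ : (ZMod Q)ˣ)
    (hmod : Ew xx (BL s t) (fun T => ind (¬ Suc hh (gg Q) δ ρ T)) ≤ η₀) (hs : 2 ≤ s) (ht : 0 ≤ t)
    (hE : 1 ≤ E) (hE2 : 8 * Real.log E ≤ Real.exp s) (hj : 1 ≤ j) (hj2 : 64 * (j : ℝ) ≤ Real.exp s)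
    (hL : ∑ p ∈ PR s t, 1 / (p : ℝ) ≤ L) (hL0 : 0 ≤ L) (hLj : 16 * L + 2 ≤ 2 * (j : ℝ)) (hW : 1 ≤ W)
    (hWs : (W : ℝ) ≤ Real.exp s) {a b : Bool → ℤ}
    (ha : ∀ e, ∀ p ∈ PR s t, ¬ p ∣ E → ¬ (p : ℤ) ∣ a e)
    (hab : ∀ p ∈ PR s t, ¬ p ∣ E → ¬ (p : ℤ) ∣ a false * b true - a true * b false)
    {u v : ℕ} (huv : u ≤ v) {G : Bool → ℕ → ℕ}
    (hG : ∀ e, ∀ n ∈ Finset.Ioc u v, ((G e n : ℕ) : ℤ) = a e * n - b e) (c : ℕ) :
    ((((Finset.Ioc u v).filter fun n => n ≡ c [MOD W] ∧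
      ¬ TLnk Q δ ρ (PR s t) (Real.exp (t * (2 * j : ℕ))) (G false n) (G true n)).card : ℕ) : ℝ) ≤
      ((v : ℝ) - u) / W * (8 * η₀ + Real.exp (-(2 * j + 1 : ℕ))) + Real.exp ((t + 4) * (4 * j + 2)) := by
  have hes := Real.exp_pos s
  have hes2 : (7 : ℝ) ≤ Real.exp s := by
    have h1 : Real.exp 2 ≤ Real.exp s := Real.exp_le_exp.mpr hs
    have h2 : Real.exp 2 = Real.exp 1 ^ 2 := by
      rw [← Real.exp_nat_mul]
      norm_num
    have h3 := Real.exp_one_gt_d9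
    nlinarith
  obtain ⟨Pr, hPr⟩ : ∃ Pr : Finset ℕ, Pr = (PR s t).filter fun p => ¬ p ∣ E := ⟨_, rfl⟩
  have hPrsub : Pr ⊆ PR s t := by rw [hPr]; exact filter_subset _ _
  have hp : ∀ p ∈ Pr, p.Prime := fun p h => (mem_PR.mp (hPrsub h)).1
  have hpE : ∀ p ∈ Pr, ¬ p ∣ E := fun p h => by
    rw [hPr] at h
    exact (mem_filter.mp h).2
  have hpbig : ∀ p ∈ Pr, Real.exp s < p := fun p h => (mem_PR.mp (hPrsub h)).2.1
  -- residues
  have hres : ∀ e : Bool, ∀ p : ℕ, ∃ r : ℕ, p ∈ Pr → (r < p ∧ ∀ n : ℕ, (p : ℤ) ∣ a e * n - b e ↔ n % p = r) := by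
    intro e p
    by_cases h : p ∈ Pr
    · obtain ⟨r, h1, h2⟩ := res_one (hp p h) (a e) (b e) (ha e p (hPrsub h) (hpE p h))
      exact ⟨r, fun _ => ⟨h1, h2⟩⟩
    · exact ⟨0, fun h' => absurd h' h⟩
  choose r hr using hres
  have hr0 : ∀ p ∈ Pr, r false p ≠ r true p := by
    intro p h heq
    obtain ⟨h1, h2⟩ := hr false p h
    obtain ⟨h3, h4⟩ := hr true p h
    have h5 : (p : ℤ) ∣ a false * (r false p : ℕ) - b false := (h2 _).mpr (Nat.mod_eq_of_lt h1)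
    have h6 : (p : ℤ) ∣ a true * (r false p : ℕ) - b true := by
      rw [h4, heq]
      exact Nat.mod_eq_of_lt h3
    apply hab p (hPrsub h) (hpE p h)
    have h7 : a false * b true - a true * b false =
        a true * (a false * (r false p : ℕ) - b false) - a false * (a true * (r false p : ℕ) - b true) := by
      ring
    rw [h7]
    exact dvd_sub (Dvd.dvd.mul_left h5 _) (Dvd.dvd.mul_left h6 _)
  have hsum : ∑ p ∈ Pr, 1 / (p : ℝ) ≤ L := by
    refine le_trans (sum_le_sum_of_subset_of_nonneg hPrsub fun p _ _ => by positivity) hL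
  have hsum2 : ∑ p ∈ Pr, 2 / (p : ℝ) ≤ 2 * L := by
    have h1 : ∑ p ∈ Pr, 2 / (p : ℝ) = 2 * ∑ p ∈ Pr, 1 / (p : ℝ) := by
      rw [mul_sum]
      exact sum_congr rfl fun p _ => by ring
    rw [h1]
    linarith
  have hpp0 : ∀ p ∈ Pr, (0 : ℝ) < p := fun p h => by exact_mod_cast (hp p h).pos
  have hy : ∀ p ∈ Pr, 2 / (p : ℝ) ≤ 1 / 2 ∧ 16 * (j : ℝ) * (2 / (p : ℝ)) ≤ 1 := by
    intro p h
    have h1 := hpbig p h
    have h2 := hpp0 p h
    constructor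
    · rw [div_le_div_iff₀ h2 (by norm_num)]
      linarith
    · rw [mul_div_assoc', div_le_one h2]
      linarith
  have htail : es (fun p : ℕ => 2 / (p : ℝ)) Pr (2 * j + 1) ≤ 1 / 4 * ∏ p ∈ Pr, (1 - 2 / (p : ℝ)) := by
    have h1 : es (fun p : ℕ => 2 / (p : ℝ)) Pr (2 * j + 1) ≤ Real.exp (-((2 * j + 1 : ℕ) : ℝ)) :=
      es_small (fun p _ => by positivity) hsum2 (by push_cast; linarith) (by omega)
    have h2 : Real.exp (-(2 * (2 * L))) ≤ ∏ p ∈ Pr, (1 - 2 / (p : ℝ)) :=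
      prod_ge_exp (y := fun p : ℕ => 2 / (p : ℝ)) (fun p _ => by positivity) (fun p h => (hy p h).1) hsum2
    refine h1.trans (le_trans ?_ (mul_le_mul_of_nonneg_left h2 (by norm_num)))
    have h3 : (1 : ℝ) / 4 ≥ Real.exp (-2) := by
      rw [ge_iff_le, Real.exp_neg, one_div, inv_le_inv₀ (Real.exp_pos 2) (by norm_num)]
      have h2 : Real.exp 2 = Real.exp 1 ^ 2 := by
        rw [← Real.exp_nat_mul]
        norm_num
      have h3 := Real.exp_one_gt_d9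
      nlinarith
    calc Real.exp (-((2 * j + 1 : ℕ) : ℝ)) ≤ Real.exp (-2 + -(2 * (2 * L))) := by
          rw [Real.exp_le_exp]
          push_cast
          linarith
      _ = Real.exp (-2) * Real.exp (-(2 * (2 * L))) := Real.exp_add _ _
      _ ≤ 1 / 4 * Real.exp (-(2 * (2 * L))) := mul_le_mul_of_nonneg_right h3 (Real.exp_pos _).le
  have hWp : ∀ p ∈ Pr, W.Coprime p := by
    intro p h
    rw [Nat.coprime_comm, Nat.Prime.coprime_iff_not_dvd (hp p h)]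
    intro hd
    have h1 : (p : ℝ) ≤ W := by exact_mod_cast Nat.le_of_dvd hW hd
    linarith [hpbig p h]
  have htrf := trf_lin hp hW hWp huv c (G := G) (r := r) (fun e p h => (hr e p h).1) hr0
    (fun e p h n hn => by
      rw [← (hr e p h).2 n, ← hG e n hn]
      exact Int.natCast_dvd_natCast.symm) hy htail
  have hmain := htrf.main hj (fun T => ¬ Suc hh (gg Q) δ ρ T ∨ 2 * j < T.card)
  -- the indices
  have hX0 : 0 ≤ ((v : ℝ) - u) / W := htrf.X0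
  have hleft : ((((Finset.Ioc u v).filter fun n => n ≡ c [MOD W] ∧
      ¬ TLnk Q δ ρ (PR s t) (Real.exp (t * (2 * j : ℕ))) (G false n) (G true n)).card : ℕ) : ℝ) ≤
      ∑ n ∈ (Finset.Ioc u v).filter (fun n => n ≡ c [MOD W]) with
        ((¬ Suc hh (gg Q) δ ρ (An Pr G n) ∨ 2 * j < (An Pr G n).card) ∧ Vn Pr G n ∩ ∅ = ∅), (1 : ℝ) := by
    rw [sum_const, nsmul_eq_mul, mul_one]
    refine Nat.cast_le.mpr (card_le_card ?_)
    intro n hn
    rw [mem_filter] at hn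
    obtain ⟨h1, h2, h3⟩ := hn
    rw [mem_filter, mem_filter]
    refine ⟨⟨h1, h2⟩, ?_, inter_empty _⟩
    by_contra hcon
    push Not at hcon
    obtain ⟨h4, h5⟩ := hcon
    apply h3
    have hAsub : An Pr G n ⊆ BL s t := by
      intro ω hω
      rw [mem_BL]
      exact hPrsub (mem_An.mp hω).1
    exact tlnk_of_suc hQ1 hQs ht ρ hAsub (fun p hp' => (mem_An.mp hp').2)
      (fun p hp' => (mem_An.mp hp').2) h4 h5
  have hEw : Ew (fun ω : ℕ × Bool => 1 / (ω.1 : ℝ)) (Pr ×ˢ univ)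
      (fun T => ind ((¬ Suc hh (gg Q) δ ρ T ∨ 2 * j < T.card) ∧ T.card ≤ 2 * j)) ≤ 4 * η₀ := by
    have h1 : Ew (fun ω : ℕ × Bool => 1 / (ω.1 : ℝ)) (Pr ×ˢ univ)
        (fun T => ind ((¬ Suc hh (gg Q) δ ρ T ∨ 2 * j < T.card) ∧ T.card ≤ 2 * j)) =
        Ew (fun ω : ℕ × Bool => 1 / (ω.1 : ℝ)) (Pr ×ˢ univ)
        (fun T => ind ((¬ Suc hh (gg Q) δ ρ T) ∧ T.card ≤ 2 * j)) := by
      refine Ew_congr _ _ fun T _ => ind_congr ?_
      constructor
      · rintro ⟨h2 | h2, h3⟩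
        · exact ⟨h2, h3⟩
        · omega
      · rintro ⟨h2, h3⟩
        exact ⟨Or.inl h2, h3⟩
    rw [h1]
    have h2 := model_dom (s := s) (t := t) hPrsub (j := j) (by linarith) (by
      have h3 : PR s t \ Pr = (PR s t).filter fun p => p ∣ E := by
        rw [hPr]
        ext p
        rw [Finset.mem_sdiff, mem_filter, mem_filter]
        tauto
      rw [h3]
      have := exc_card s t hE
      linarith) (Bd := fun T => ¬ Suc hh (gg Q) δ ρ T)
      (fun T T' hTT h3 h4 => h3 (Suc_mono _ _ _ _ hTT h4))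
    linarith
  have hes1 : es (fun ω : ℕ × Bool => 1 / (ω.1 : ℝ)) (Pr ×ˢ univ) (2 * j + 1) ≤
      Real.exp (-((2 * j + 1 : ℕ) : ℝ)) := by
    refine es_small (fun ω _ => by positivity) (L := 2 * L) ?_ (by push_cast; linarith) (by omega)
    rw [sum_product]
    simp only [sum_const, card_univ, Fintype.card_bool, nsmul_eq_mul]
    rw [← mul_sum]
    push_cast
    linarith
  have hcard1 : ((Pr ×ˢ (univ : Finset Bool)).card : ℝ) + 1 ≤ Real.exp (t + 2) := by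
    rw [card_product, card_univ, Fintype.card_bool]
    push_cast
    have h1 : (Pr.card : ℝ) ≤ Real.exp t :=
      le_trans (by exact_mod_cast card_le_card hPrsub) (PR_card s t)
    have h2 : 1 ≤ Real.exp t := Real.one_le_exp ht
    have h3 : Real.exp 2 = Real.exp 1 ^ 2 := by
      rw [← Real.exp_nat_mul]
      norm_num
    have h4 := Real.exp_one_gt_d9
    have h5 : (3 : ℝ) ≤ Real.exp 2 := by
      rw [h3]
      nlinarith
    have h6 := mul_le_mul_of_nonneg_left h5 (Real.exp_pos t).le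
    rw [Real.exp_add]
    linarith
  have hcard2 : (((Pr ∪ ∅ : Finset ℕ)).card : ℝ) + 1 ≤ Real.exp (t + 2) := by
    rw [union_empty]
    refine le_trans ?_ hcard1
    rw [card_product, card_univ, Fintype.card_bool]
    push_cast
    have : (0 : ℝ) ≤ Pr.card := Nat.cast_nonneg _
    linarith
  have herr : (2 : ℝ) ^ (2 * j) * (cs (Pr ×ˢ (univ : Finset Bool)) (2 * j) * cs (Pr ∪ ∅) (2 * j) +
      cs (Pr ×ˢ (univ : Finset Bool)) (2 * j + 1)) ≤ Real.exp ((t + 4) * (4 * j + 2)) := by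
    have h1 : cs (Pr ×ˢ (univ : Finset Bool)) (2 * j) ≤ Real.exp (t + 2) ^ (2 * j) :=
      (cs_le _ _).trans (pow_le_pow_left₀ (by positivity) hcard1 _)
    have h2 : cs (Pr ∪ ∅) (2 * j) ≤ Real.exp (t + 2) ^ (2 * j) :=
      (cs_le _ _).trans (pow_le_pow_left₀ (by positivity) hcard2 _)
    have h3 : cs (Pr ×ˢ (univ : Finset Bool)) (2 * j + 1) ≤ Real.exp (t + 2) ^ (2 * j + 1) :=
      (cs_le _ _).trans (pow_le_pow_left₀ (by positivity) hcard1 _)
    have hge1 : 1 ≤ Real.exp (t + 2) := Real.one_le_exp (by linarith)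
    have h4 : Real.exp (t + 2) ^ (2 * j) * Real.exp (t + 2) ^ (2 * j) ≤ Real.exp (t + 2) ^ (4 * j + 1) := by
      rw [← pow_add]
      exact pow_le_pow_right₀ hge1 (by omega)
    have h5 : Real.exp (t + 2) ^ (2 * j + 1) ≤ Real.exp (t + 2) ^ (4 * j + 1) :=
      pow_le_pow_right₀ hge1 (by omega)
    have h6 : cs (Pr ×ˢ (univ : Finset Bool)) (2 * j) * cs (Pr ∪ ∅) (2 * j) ≤
        Real.exp (t + 2) ^ (2 * j) * Real.exp (t + 2) ^ (2 * j) :=
      mul_le_mul h1 h2 (cs_nonneg _ _) (by positivity)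
    have h7 : (2 : ℝ) ≤ Real.exp 1 := by
      have := Real.exp_one_gt_d9
      linarith
    calc (2 : ℝ) ^ (2 * j) * (cs (Pr ×ˢ (univ : Finset Bool)) (2 * j) * cs (Pr ∪ ∅) (2 * j) +
          cs (Pr ×ˢ (univ : Finset Bool)) (2 * j + 1)) ≤
          (2 : ℝ) ^ (2 * j) * (2 * Real.exp (t + 2) ^ (4 * j + 1)) :=
          mul_le_mul_of_nonneg_left (by linarith) (by positivity)
      _ = (2 : ℝ) ^ (2 * j + 1) * Real.exp (t + 2) ^ (4 * j + 1) := by ring
      _ ≤ Real.exp 1 ^ (2 * j + 1) * Real.exp (t + 2) ^ (4 * j + 1) :=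
          mul_le_mul_of_nonneg_right (pow_le_pow_left₀ (by norm_num) h7 _) (by positivity)
      _ = Real.exp ((2 * j + 1 : ℕ) * 1 + (4 * j + 1 : ℕ) * (t + 2)) := by
          rw [← Real.exp_nat_mul, ← Real.exp_nat_mul, ← Real.exp_add]
      _ ≤ Real.exp ((t + 4) * (4 * j + 2)) := by
          rw [Real.exp_le_exp]
          push_cast
          have : (0 : ℝ) ≤ j := Nat.cast_nonneg j
          nlinarith
  refine hleft.trans ?_
  have hmain' : ∑ n ∈ (Finset.Ioc u v).filter (fun n => n ≡ c [MOD W]) with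
        ((¬ Suc hh (gg Q) δ ρ (An Pr G n) ∨ 2 * j < (An Pr G n).card) ∧ Vn Pr G n ∩ ∅ = ∅), (1 : ℝ) ≤
      2 * (((v : ℝ) - u) / W) * (∏ p ∈ (∅ : Finset ℕ), (1 - 2 / (p : ℝ))) *
        Ew (fun ω : ℕ × Bool => 1 / (ω.1 : ℝ)) (Pr ×ˢ univ)
          (fun T => ind ((¬ Suc hh (gg Q) δ ρ T ∨ 2 * j < T.card) ∧ T.card ≤ 2 * j)) +
        (((v : ℝ) - u) / W) * es (fun ω : ℕ × Bool => 1 / (ω.1 : ℝ)) (Pr ×ˢ univ) (2 * j + 1) +
        (2 : ℝ) ^ (2 * j) * (cs (Pr ×ˢ (univ : Finset Bool)) (2 * j) * cs (Pr ∪ ∅) (2 * j) +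
          cs (Pr ×ˢ (univ : Finset Bool)) (2 * j + 1)) := by
    convert hmain
  refine hmain'.trans ?_
  rw [prod_empty, mul_one]
  have h1 := mul_le_mul_of_nonneg_left hEw (show 0 ≤ 2 * (((v : ℝ) - u) / W) by linarith)
  have h2 := mul_le_mul_of_nonneg_left hes1 hX0
  have h3 : ((v : ℝ) - u) / W * (8 * η₀ + Real.exp (-(2 * j + 1 : ℕ))) =
      2 * (((v : ℝ) - u) / W) * (4 * η₀) + ((v : ℝ) - u) / W * Real.exp (-(2 * j + 1 : ℕ)) := by ring
  rw [h3]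
  linarith

end Pool.Agent.Lib.OW
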