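import Pool.Agent.Lib.MP_7b7e48_nt.OW.LFB

/-!
# The transfer data of two linear forms on an interval, with a second set of primes

As `LFB`, but for the integers of the interval which avoid one residue class modulo every prime of a second set `PN`.
-/

set_option autoImplicit false

open Finset Filter Topology

namespace Pool.Agent.Lib.OW

open Classical in
theorem trf_linP {Pr PN : Finset ℕ} (hp : ∀ p ∈ Pr, p.Prime) (hpN : ∀ p ∈ PN, p.Prime) (hdis : Disjoint Pr PN)
    {W : ℕ} (hW : 1 ≤ W) (hWp : ∀ p ∈ Pr, W.Coprime p) (hWN : ∀ p ∈ PN, W.Coprime p)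
    {u v : ℕ} (huv : u ≤ v) (c : ℕ) {G : Bool → ℕ → ℕ} {r : Bool → ℕ → ℕ} {r0 : ℕ → ℕ} (hr0N : ∀ p ∈ PN, r0 p < p)
    (hr : ∀ e, ∀ p ∈ Pr, r e p < p) (hr0 : ∀ p ∈ Pr, r false p ≠ r true p)
    (hrG : ∀ e, ∀ p ∈ Pr, ∀ n ∈ Finset.Ioc u v, (p ∣ G e n ↔ n % p = r e p)) {j : ℕ}
    (hy : ∀ p ∈ Pr, 2 / (p : ℝ) ≤ 1 / 2 ∧ 16 * j * (2 / (p : ℝ)) ≤ 1)
    {y : ℕ → ℝ} (hyP : ∀ p ∈ Pr, y p = 2 / (p : ℝ)) (hyN : ∀ p ∈ PN, y p = 1 / (p : ℝ))
    (htail : es y (Pr ∪ PN) (2 * j + 1) ≤ 1 / 4 * ∏ p ∈ Pr ∪ PN, (1 - y p)) :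
    Trf ((Finset.Ioc u v).filter fun n => n ≡ c [MOD W]) (fun _ => (1 : ℝ)) (An Pr G)
      (fun n => Vn Pr G n ∪ PN.filter fun p => n % p = r0 p) Pr PN
      (fun ω : ℕ × Bool => 1 / (ω.1 : ℝ)) y (((v : ℝ) - u) / W) (2 ^ (2 * j)) j where
  w0 := fun _ _ => by norm_num
  A1 := fun i _ ω hω => (mem_An.mp hω).1
  A2 := by
    intro n hn ω hω ω' hω' he
    obtain ⟨h1, h2⟩ := mem_An.mp hω
    obtain ⟨h3, h4⟩ := mem_An.mp hω'
    have hn' := (mem_filter.mp hn).1
    rw [hrG ω.2 ω.1 h1 n hn'] at h2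
    rw [hrG ω'.2 ω'.1 h3 n hn'] at h4
    refine Prod.ext he ?_
    by_contra hne
    rw [← he] at h4
    have h5 : r ω.2 ω.1 = r ω'.2 ω.1 := by rw [← h2, ← h4]
    have h6 := hr0 ω.1 h1
    rcases Bool.eq_false_or_eq_true ω.2 with h7 | h7 <;> rcases Bool.eq_false_or_eq_true ω'.2 with h8 | h8
    · exact hne (by rw [h7, h8])
    · rw [h7, h8] at h5
      exact h6 h5.symm
    · rw [h7, h8] at h5
      exact h6 h5
    · exact hne (by rw [h7, h8])
  V1 := by
    intro n _ p hpV hpP
    rcases mem_union.mp hpV with h | h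
    · obtain ⟨-, e, he⟩ := mem_Vn.mp h
      exact mem_pj.mpr ⟨e, mem_An.mpr ⟨hpP, he⟩⟩
    · exact absurd (mem_filter.mp h).1 (disjoint_left.mp hdis hpP)
  disj := hdis
  x0 := fun ω _ => by positivity
  yx := by
    intro p hpP
    rw [hyP p hpP, Fintype.sum_bool]
    ring
  y0 := by
    intro p hpp
    rw [hyN p hpp]
    have h1 : (1 : ℝ) ≤ p := by exact_mod_cast (hpN p hpp).one_lt.le
    exact ⟨by positivity, (div_le_one (by linarith)).mpr h1⟩
  y1 := by
    intro p hpP
    rw [hyP p hpP]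
    exact hy p hpP
  X0 := by
    have h1 : (u : ℝ) ≤ v := by exact_mod_cast huv
    have h2 : (0 : ℝ) ≤ W := Nat.cast_nonneg _
    exact div_nonneg (by linarith) h2
  E0 := by positivity
  law := by
    intro T hTP hTi _ S' hS' hSc
    have hpjP : ∀ p ∈ pj T, p ∈ Pr := by
      intro p hp'
      obtain ⟨e, he⟩ := mem_pj.mp hp'
      exact hTP _ he
    have hSP : ∀ p ∈ pj T ∪ S', p ∈ Pr ∨ p ∈ PN := by
      intro p hp'
      rcases mem_union.mp hp' with h | h
      · exact Or.inl (hpjP p h)
      · rcases hS' p h with h1 | h1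
        · exact Or.inl h1.1
        · exact Or.inr h1
    have hPrN : ∀ p ∈ Pr, p ∉ PN := fun p h => disjoint_left.mp hdis h
    have hdisj : Disjoint (pj T) S' := by
      rw [disjoint_left]
      intro p h1 h2
      rcases hS' p h2 with h3 | h3
      · exact h3.2 h1
      · exact hPrN p (hpjP p h1) h3
    obtain ⟨cc, hcc⟩ : ∃ cc : ℕ → Finset Bool, cc = fun p => univ.filter fun e => p ∈ pj T → (p, e) ∈ T := ⟨_, rfl⟩
    obtain ⟨Z, hZ⟩ : ∃ Z : ℕ → Finset ℕ, Z = fun p => if p ∈ PN then {r0 p} else (cc p).image fun e => r e p :=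
      ⟨_, rfl⟩
    have hZmem : ∀ p, p ∉ PN → ∀ z, z ∈ Z p ↔ ∃ e, (p ∈ pj T → (p, e) ∈ T) ∧ r e p = z := by
      intro p hpn z
      rw [hZ, hcc]
      simp only
      rw [if_neg hpn]
      simp [mem_image, mem_filter]
    have hZN : ∀ p ∈ PN, Z p = {r0 p} := by
      intro p hpn
      rw [hZ]
      simp only
      rw [if_pos hpn]
    have hZlt : ∀ p ∈ pj T ∪ S', ∀ z ∈ Z p, z < p := by
      intro p hp' z hz
      rcases hSP p hp' with h1 | h1
      · obtain ⟨e, -, he⟩ := (hZmem p (hPrN p h1) z).mp hz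
        rw [← he]
        exact hr e p h1
      · rw [hZN p h1, mem_singleton] at hz
        rw [hz]
        exact hr0N p h1
    have hcount := crt_count (pj T ∪ S') (fun p h => by
        rcases hSP p h with h1 | h1
        · exact hp p h1
        · exact hpN p h1) Z hZlt u v huv W hW
      (fun p h => by
        rcases hSP p h with h1 | h1
        · exact hWp p h1
        · exact hWN p h1) c
    have hinj : ∀ p ∈ Pr, ∀ e e', r e p = r e' p → e = e' := by
      intro p hp' e e' h
      have h6 := hr0 p hp'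
      cases e <;> cases e'
      · rfl
      · exact absurd h h6
      · exact absurd h.symm h6
      · rfl
    have hcardZ : ∀ p ∈ Pr, (Z p).card = (cc p).card := by
      intro p hp'
      have e1 : Z p = (cc p).image fun e => r e p := by
        rw [hZ]
        simp only
        rw [if_neg (hPrN p hp')]
      rw [e1]
      refine card_image_of_injOn fun e _ e' _ h => hinj p hp' e e' h
    have hcard1 : ∀ p ∈ pj T, (Z p).card = 1 := by
      intro p hp'
      rw [hcardZ p (hpjP p hp'), hcc, card_eq_one]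
      obtain ⟨e, he⟩ := mem_pj.mp hp'
      refine ⟨e, ?_⟩
      ext e'
      rw [mem_filter, mem_singleton]
      constructor
      · rintro ⟨-, h⟩
        have := hTi _ (h hp') _ he rfl
        exact (Prod.mk.inj this).2
      · rintro rfl
        exact ⟨mem_univ _, fun _ => he⟩
    have hcard2 : ∀ p ∈ S', (((Z p).card : ℕ) : ℝ) / p = y p ∧ (((Z p).card : ℕ) : ℝ) ≤ 2 := by
      intro p hp'
      rcases hS' p hp' with h1 | h1
      · have h2 : (Z p).card = 2 := by
          rw [hcardZ p h1.1, hcc]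
          dsimp only
          have : (univ.filter fun e : Bool => p ∈ pj T → (p, e) ∈ T) = univ := by
            rw [filter_eq_self]
            intro e _ h
            exact absurd h h1.2
          rw [this, card_univ, Fintype.card_bool]
        rw [h2, hyP p h1.1]
        norm_num
      · rw [hZN p h1, card_singleton, hyN p h1]
        norm_num
    -- the sets
    have hset : ((Finset.Ioc u v).filter fun n => n ≡ c [MOD W] ∧ ∀ p ∈ pj T ∪ S', n % p ∈ Z p) =
        ((Finset.Ioc u v).filter fun n => n ≡ c [MOD W]).filter fun n => T ⊆ An Pr G n ∧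
          S' ⊆ Vn Pr G n ∪ PN.filter (fun p => n % p = r0 p) := by
      ext n
      simp only [mem_filter]
      constructor
      · rintro ⟨h1, h2, h3⟩
        refine ⟨⟨h1, h2⟩, ?_, ?_⟩
        · intro ω hω
          have hωj : ω.1 ∈ pj T := mem_pj.mpr ⟨ω.2, hω⟩
          obtain ⟨e, he1, he2⟩ := (hZmem _ (hPrN _ (hTP ω hω)) _).mp (h3 ω.1 (mem_union_left _ hωj))
          have he3 := hTi _ (he1 hωj) _ hω rfl
          have he4 : e = ω.2 := congrArg Prod.snd he3
          rw [mem_An]
          refine ⟨hTP ω hω, ?_⟩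
          rw [hrG ω.2 ω.1 (hTP ω hω) n h1, ← he2, he4]
        · intro p hpS
          rcases hS' p hpS with h5 | h5
          · obtain ⟨e, -, he2⟩ := (hZmem _ (hPrN _ h5.1) _).mp (h3 p (mem_union_right _ hpS))
            rw [mem_union]
            left
            rw [mem_Vn]
            refine ⟨h5.1, e, ?_⟩
            rw [hrG e p h5.1 n h1, he2]
          · have h6 := h3 p (mem_union_right _ hpS)
            rw [hZN p h5, mem_singleton] at h6
            exact mem_union_right _ (mem_filter.mpr ⟨h5, h6⟩)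
      · rintro ⟨⟨h1, h2⟩, h3, h4⟩
        refine ⟨h1, h2, ?_⟩
        intro p hp'
        rcases mem_union.mp hp' with h5 | h5
        · obtain ⟨e, he⟩ := mem_pj.mp h5
          rw [hZmem p (hPrN p (hpjP p h5))]
          refine ⟨e, fun _ => he, ?_⟩
          have h6 := (mem_An.mp (h3 he)).2
          rw [hrG e p (hpjP p h5) n h1] at h6
          exact h6.symm
        · rcases hS' p h5 with h7 | h7
          · have h8 : p ∈ Vn Pr G n := by
              rcases mem_union.mp (h4 h5) with h9 | h9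
              · exact h9
              · exact absurd (mem_filter.mp h9).1 (hPrN p h7.1)
            obtain ⟨-, e, he⟩ := mem_Vn.mp h8
            rw [hZmem p (hPrN p h7.1)]
            refine ⟨e, fun h => absurd h h7.2, ?_⟩
            rw [hrG e p h7.1 n h1] at he
            exact he.symm
          · have h8 : n % p = r0 p := by
              rcases mem_union.mp (h4 h5) with h9 | h9
              · exact absurd h7 (hPrN p (mem_Vn.mp h9).1)
              · exact (mem_filter.mp h9).2
            rw [hZN p h7, mem_singleton]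
            exact h8
    rw [hset] at hcount
    have hprod : ∏ p ∈ pj T ∪ S', (((Z p).card : ℝ) / p) =
        (∏ ω ∈ T, 1 / (ω.1 : ℝ)) * ∏ p ∈ S', y p := by
      rw [prod_union hdisj, inj_prod hTi fun p => 1 / (p : ℝ)]
      congr 1
      · exact prod_congr rfl fun p h => by rw [hcard1 p h]; norm_num
      · exact prod_congr rfl fun p h => (hcard2 p h).1
    have herr : ∏ p ∈ pj T ∪ S', ((Z p).card : ℝ) ≤ 2 ^ (2 * j) := by
      rw [prod_union hdisj]
      have e1 : ∏ p ∈ pj T, ((Z p).card : ℝ) = 1 := prod_eq_one fun p h => by rw [hcard1 p h]; norm_num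
      have e2 : ∏ p ∈ S', ((Z p).card : ℝ) ≤ 2 ^ S'.card := by
        calc ∏ p ∈ S', ((Z p).card : ℝ) ≤ ∏ _p ∈ S', (2 : ℝ) :=
              prod_le_prod (fun _ _ => Nat.cast_nonneg _) fun p h => (hcard2 p h).2
          _ = 2 ^ S'.card := by rw [prod_const]
      rw [e1, one_mul]
      exact e2.trans (pow_le_pow_right₀ (by norm_num) hSc)
    rw [hprod] at hcount
    have hcount' := hcount.trans herr
    rw [← mul_assoc] at hcount'
    rw [sum_const, nsmul_eq_mul, mul_one]
    refine le_trans (le_of_eq ?_) hcount'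
    congr!
  tail := htail

end Pool.Agent.Lib.OW
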