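import Pool.Agent.Lib.MP_7b7e48_nt.OW.LFN
import Pool.Agent.Lib.MP_7b7e48_nt.OW.LPB

/-!
# Theorem LFP: theorem LF for the integers which avoid one residue class modulo every prime of a second set, core
-/

set_option autoImplicit false

open Finset Filter Topology

namespace Pool.Agent.Lib.OW

/-- a success gives a truncated link, composed of the primes of the success -/
theorem tlnk_of_suc' {Q : ℕ} (hQ1 : 1 ≤ Q) {δ u₀ u₁ : ℝ} (hQ : (Q : ℝ) ≤ Real.exp u₀) (hu1 : 0 ≤ u₁)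
    (ρ : (ZMod Q)ˣ) {T : Finset (ℕ × Bool)} {R : Finset ℕ}
    (hT : T ⊆ BL u₀ u₁) (hR : ∀ ω ∈ T, ω.1 ∈ R) {X Y : ℕ} (hX : ∀ p, (p, false) ∈ T → p ∣ X)
    (hY : ∀ p, (p, true) ∈ T → p ∣ Y)
    (hs : Suc hh (gg Q) δ ρ T) {m : ℕ} (hm : T.card ≤ m) :
    TLnk Q δ ρ R (Real.exp (u₁ * m)) X Y := by
  obtain ⟨X', hX'⟩ : ∃ X' : ℕ, X' = ∏ p ∈ col T false, p := ⟨_, rfl⟩
  obtain ⟨Y', hY'⟩ : ∃ Y' : ℕ, Y' = ∏ p ∈ col T true, p := ⟨_, rfl⟩
  have hpr : ∀ c, ∀ p ∈ col T c, p ∈ PR u₀ u₁ := by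
    intro c p hp
    exact mem_BL.mp (hT (mem_col.mp hp))
  have hprime : ∀ c, ∀ p ∈ col T c, p.Prime := fun c p hp => (mem_PR.mp (hpr c p hp)).1
  have hXd : X' ∣ X := by
    rw [hX']
    exact prod_primes_dvd X (fun p hp => (hprime _ p hp).prime) fun p hp => hX p (mem_col.mp hp)
  have hYd : Y' ∣ Y := by
    rw [hY']
    exact prod_primes_dvd Y (fun p hp => (hprime _ p hp).prime) fun p hp => hY p (mem_col.mp hp)
  obtain ⟨α, β, h1, h2, h3, h4, h5, h6, h7, h8, h9, h10, h11⟩ := tlnk_of_suc (X := X') (Y := Y') hQ1 hQ hu1 ρ hT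
    (fun p hp => by rw [hX']; exact dvd_prod_of_mem _ (mem_col.mpr hp))
    (fun p hp => by rw [hY']; exact dvd_prod_of_mem _ (mem_col.mpr hp)) hs hm
  refine ⟨α, β, h1.trans hXd, h2.trans hYd, h3, h4, h5, ?_, h7, h8, h9, h10, h11⟩
  intro p hp hpd
  have hcol : ∀ c, p ∣ ∏ q ∈ col T c, q → p ∈ R := by
    intro c hd
    obtain ⟨q, hq, hpq⟩ := (hp.prime.dvd_finset_prod_iff _).mp hd
    have : p = q := (Nat.prime_dvd_prime_iff_eq hp (hprime c q hq)).mp hpq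
    rw [this]
    exact hR _ (mem_col.mp hq)
  rcases hp.dvd_mul.mp hpd with h | h
  · exact hcol false (hX' ▸ h.trans h1)
  · exact hcol true (hY' ▸ h.trans h2)

/-- the local densities -/
noncomputable def yy (Pr : Finset ℕ) (p : ℕ) : ℝ := if p ∈ Pr then 2 / (p : ℝ) else 1 / (p : ℝ)

open Classical in
/-- the core of theorem LF, with all the numerical conditions as hypotheses -/
theorem lf_coreP {s t δ η₀ L : ℝ} {Q W E j : ℕ} (hQ1 : 1 ≤ Q) (hQs : (Q : ℝ) ≤ Real.exp s) (ρ : (ZMod Q)ˣ)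
    (hmod : Ew xx (BL s t) (fun T => ind (¬ Suc hh (gg Q) δ ρ T)) ≤ η₀) (hs : 2 ≤ s) (ht : 0 ≤ t) (hst : s ≤ t)
    (hE : 1 ≤ E) (hE2 : 8 * Real.log E ≤ Real.exp s) (hj : 1 ≤ j) (hj2 : 64 * (j : ℝ) ≤ Real.exp s)
    (hL : ∑ p ∈ PR s t, 1 / (p : ℝ) ≤ L) (hL0 : 0 ≤ L) (hLj : 24 * L + 2 ≤ 2 * (j : ℝ)) (hW : 1 ≤ W)
    (hWs : (W : ℝ) ≤ Real.exp s) {PN : Finset ℕ} (hPN : ∀ p ∈ PN, p.Prime ∧ (p : ℝ) ≤ Real.exp s)
    (hWN : ∀ p ∈ PN, W.Coprime p) (hLN : ∑ p ∈ PN, 1 / (p : ℝ) ≤ L) {r0 : ℕ → ℕ} (hr0N : ∀ p ∈ PN, r0 p < p)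
    {a b : Bool → ℤ}
    (ha : ∀ e, ∀ p ∈ PR s t, ¬ p ∣ E → ¬ (p : ℤ) ∣ a e)
    (hab : ∀ p ∈ PR s t, ¬ p ∣ E → ¬ (p : ℤ) ∣ a false * b true - a true * b false)
    {u v : ℕ} (huv : u ≤ v) {G : Bool → ℕ → ℕ}
    (hG : ∀ e, ∀ n ∈ Finset.Ioc u v, ((G e n : ℕ) : ℤ) = a e * n - b e) (c : ℕ) :
    ((((Finset.Ioc u v).filter fun n => n ≡ c [MOD W] ∧ (∀ p ∈ PN, n % p ≠ r0 p) ∧
      ¬ TLnk Q δ ρ ((PR s t).filter fun p => ¬ p ∣ E) (Real.exp (t * (2 * j : ℕ))) (G false n) (G true n)).card : ℕ) : ℝ) ≤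
      ((v : ℝ) - u) / W * (8 * η₀ * ∏ p ∈ PN, (1 - 1 / (p : ℝ)) + Real.exp (-(2 * j + 1 : ℕ))) +
        Real.exp ((t + 4) * (4 * j + 2)) := by
  have hes := Real.exp_pos s
  have hes2 : (7 : ℝ) ≤ Real.exp s := by
    have h1 : Real.exp 2 ≤ Real.exp s := Real.exp_le_exp.mpr hs
    have h2 : Real.exp 2 = Real.exp 1 ^ 2 := by
      rw [← Real.exp_nat_mul]
      norm_num
    have h3 := Real.exp_one_gt_d9
    nlinarith
  obtain ⟨Pr, hPr⟩ : ∃ Pr : Finset ℕ, Pr = (PR s t).filter fun p => ¬ p ∣ E := ⟨_, rfl⟩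
  have hPrsub : Pr ⊆ PR s t := by rw [hPr]; exact filter_subset _ _
  have hp : ∀ p ∈ Pr, p.Prime := fun p h => (mem_PR.mp (hPrsub h)).1
  have hpE : ∀ p ∈ Pr, ¬ p ∣ E := fun p h => by
    rw [hPr] at h
    exact (mem_filter.mp h).2
  have hpbig : ∀ p ∈ Pr, Real.exp s < p := fun p h => (mem_PR.mp (hPrsub h)).2.1
  -- residues
  have hres : ∀ e : Bool, ∀ p : ℕ, ∃ r : ℕ, p ∈ Pr → (r < p ∧ ∀ n : ℕ, (p : ℤ) ∣ a e * n - b e ↔ n % p = r) := by
    intro e p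
    by_cases h : p ∈ Pr
    · obtain ⟨r, h1, h2⟩ := res_one (hp p h) (a e) (b e) (ha e p (hPrsub h) (hpE p h))
      exact ⟨r, fun _ => ⟨h1, h2⟩⟩
    · exact ⟨0, fun h' => absurd h' h⟩
  choose r hr using hres
  have hr0 : ∀ p ∈ Pr, r false p ≠ r true p := by
    intro p h heq
    obtain ⟨h1, h2⟩ := hr false p h
    obtain ⟨h3, h4⟩ := hr true p h
    have h5 : (p : ℤ) ∣ a false * (r false p : ℕ) - b false := (h2 _).mpr (Nat.mod_eq_of_lt h1)
    have h6 : (p : ℤ) ∣ a true * (r false p : ℕ) - b true := by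
      rw [h4, heq]
      exact Nat.mod_eq_of_lt h3
    apply hab p (hPrsub h) (hpE p h)
    have h7 : a false * b true - a true * b false =
        a true * (a false * (r false p : ℕ) - b false) - a false * (a true * (r false p : ℕ) - b true) := by
      ring
    rw [h7]
    exact dvd_sub (Dvd.dvd.mul_left h5 _) (Dvd.dvd.mul_left h6 _)
  have hsum : ∑ p ∈ Pr, 1 / (p : ℝ) ≤ L := by
    refine le_trans (sum_le_sum_of_subset_of_nonneg hPrsub fun p _ _ => by positivity) hL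
  have hsum2 : ∑ p ∈ Pr, 2 / (p : ℝ) ≤ 2 * L := by
    have h1 : ∑ p ∈ Pr, 2 / (p : ℝ) = 2 * ∑ p ∈ Pr, 1 / (p : ℝ) := by
      rw [mul_sum]
      exact sum_congr rfl fun p _ => by ring
    rw [h1]
    linarith
  have hpp0 : ∀ p ∈ Pr, (0 : ℝ) < p := fun p h => by exact_mod_cast (hp p h).pos
  have hy : ∀ p ∈ Pr, 2 / (p : ℝ) ≤ 1 / 2 ∧ 16 * (j : ℝ) * (2 / (p : ℝ)) ≤ 1 := by
    intro p h
    have h1 := hpbig p h
    have h2 := hpp0 p h
    constructor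
    · rw [div_le_div_iff₀ h2 (by norm_num)]
      linarith
    · rw [mul_div_assoc', div_le_one h2]
      linarith
  have hdis : Disjoint Pr PN := by
    rw [disjoint_left]
    intro p h1 h2
    linarith [hpbig p h1, (hPN p h2).2]
  have hpN : ∀ p ∈ PN, p.Prime := fun p h => (hPN p h).1
  have hyP : ∀ p ∈ Pr, yy Pr p = 2 / (p : ℝ) := by
    intro p h
    unfold yy
    rw [if_pos h]
  have hyN : ∀ p ∈ PN, yy Pr p = 1 / (p : ℝ) := by
    intro p h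
    unfold yy
    rw [if_neg (disjoint_right.mp hdis h)]
  have hsum3 : ∑ p ∈ Pr ∪ PN, yy Pr p ≤ 3 * L := by
    rw [sum_union hdis, sum_congr rfl hyP, sum_congr rfl hyN]
    linarith
  have hyy0 : ∀ p ∈ Pr ∪ PN, 0 ≤ yy Pr p := by
    intro p _
    unfold yy
    split_ifs <;> positivity
  have hyy1 : ∀ p ∈ Pr ∪ PN, yy Pr p ≤ 1 / 2 := by
    intro p hp'
    rcases mem_union.mp hp' with h | h
    · rw [hyP p h]
      exact (hy p h).1
    · rw [hyN p h]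
      have h1 : (2 : ℝ) ≤ p := by exact_mod_cast (hpN p h).two_le
      exact one_div_le_one_div_of_le (by norm_num) h1
  have htail : es (yy Pr) (Pr ∪ PN) (2 * j + 1) ≤ 1 / 4 * ∏ p ∈ Pr ∪ PN, (1 - yy Pr p) := by
    have h1 : es (yy Pr) (Pr ∪ PN) (2 * j + 1) ≤ Real.exp (-((2 * j + 1 : ℕ) : ℝ)) :=
      es_small hyy0 hsum3 (by push_cast; linarith) (by omega)
    have h2 : Real.exp (-(2 * (3 * L))) ≤ ∏ p ∈ Pr ∪ PN, (1 - yy Pr p) :=
      prod_ge_exp (y := yy Pr) hyy0 hyy1 hsum3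
    refine h1.trans (le_trans ?_ (mul_le_mul_of_nonneg_left h2 (by norm_num)))
    have h3 : (1 : ℝ) / 4 ≥ Real.exp (-2) := by
      rw [ge_iff_le, Real.exp_neg, one_div, inv_le_inv₀ (Real.exp_pos 2) (by norm_num)]
      have h2 : Real.exp 2 = Real.exp 1 ^ 2 := by
        rw [← Real.exp_nat_mul]
        norm_num
      have h3 := Real.exp_one_gt_d9
      nlinarith
    calc Real.exp (-((2 * j + 1 : ℕ) : ℝ)) ≤ Real.exp (-2 + -(2 * (3 * L))) := by
          rw [Real.exp_le_exp]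
          push_cast
          linarith
      _ = Real.exp (-2) * Real.exp (-(2 * (3 * L))) := Real.exp_add _ _
      _ ≤ 1 / 4 * Real.exp (-(2 * (3 * L))) := mul_le_mul_of_nonneg_right h3 (Real.exp_pos _).le
  have hWp : ∀ p ∈ Pr, W.Coprime p := by
    intro p h
    rw [Nat.coprime_comm, Nat.Prime.coprime_iff_not_dvd (hp p h)]
    intro hd
    have h1 : (p : ℝ) ≤ W := by exact_mod_cast Nat.le_of_dvd hW hd
    linarith [hpbig p h]
  have htrf := trf_linP hp hpN hdis hW hWp hWN huv c (G := G) (r := r) hr0N (fun e p h => (hr e p h).1) hr0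
    (fun e p h n hn => by
      rw [← (hr e p h).2 n, ← hG e n hn]
      exact Int.natCast_dvd_natCast.symm) hy hyP hyN htail
  have hmain := htrf.main hj (fun T => ¬ Suc hh (gg Q) δ ρ T ∨ 2 * j < T.card)
  -- the indices
  have hX0 : 0 ≤ ((v : ℝ) - u) / W := htrf.X0
  have hleft : ((((Finset.Ioc u v).filter fun n => n ≡ c [MOD W] ∧ (∀ p ∈ PN, n % p ≠ r0 p) ∧
      ¬ TLnk Q δ ρ ((PR s t).filter fun p => ¬ p ∣ E) (Real.exp (t * (2 * j : ℕ))) (G false n) (G true n)).card : ℕ) : ℝ) ≤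
      ∑ n ∈ (Finset.Ioc u v).filter (fun n => n ≡ c [MOD W]) with
        ((¬ Suc hh (gg Q) δ ρ (An Pr G n) ∨ 2 * j < (An Pr G n).card) ∧
          (Vn Pr G n ∪ PN.filter fun p => n % p = r0 p) ∩ PN = ∅), (1 : ℝ) := by
    rw [sum_const, nsmul_eq_mul, mul_one]
    refine Nat.cast_le.mpr (card_le_card ?_)
    intro n hn
    rw [mem_filter] at hn
    obtain ⟨h1, h2, h2N, h3⟩ := hn
    rw [mem_filter, mem_filter]
    refine ⟨⟨h1, h2⟩, ?_, ?_⟩
    swap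
    · rw [eq_empty_iff_forall_notMem]
      intro p hpm
      rw [mem_inter, mem_union, mem_filter] at hpm
      rcases hpm.1 with h4 | h4
      · exact disjoint_left.mp hdis (mem_Vn.mp h4).1 hpm.2
      · exact h2N p h4.1 h4.2
    by_contra hcon
    push Not at hcon
    obtain ⟨h4, h5⟩ := hcon
    apply h3
    have hAsub : An Pr G n ⊆ BL s t := by
      intro ω hω
      rw [mem_BL]
      exact hPrsub (mem_An.mp hω).1
    have hR : ∀ ω ∈ An Pr G n, ω.1 ∈ (PR s t).filter fun p => ¬ p ∣ E := by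
      intro ω hω
      rw [← hPr]
      exact (mem_An.mp hω).1
    exact tlnk_of_suc' hQ1 hQs ht ρ hAsub hR (fun p hp' => (mem_An.mp hp').2)
      (fun p hp' => (mem_An.mp hp').2) h4 h5
  have hEw : Ew (fun ω : ℕ × Bool => 1 / (ω.1 : ℝ)) (Pr ×ˢ univ)
      (fun T => ind ((¬ Suc hh (gg Q) δ ρ T ∨ 2 * j < T.card) ∧ T.card ≤ 2 * j)) ≤ 4 * η₀ := by
    have h1 : Ew (fun ω : ℕ × Bool => 1 / (ω.1 : ℝ)) (Pr ×ˢ univ)
        (fun T => ind ((¬ Suc hh (gg Q) δ ρ T ∨ 2 * j < T.card) ∧ T.card ≤ 2 * j)) =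
        Ew (fun ω : ℕ × Bool => 1 / (ω.1 : ℝ)) (Pr ×ˢ univ)
        (fun T => ind ((¬ Suc hh (gg Q) δ ρ T) ∧ T.card ≤ 2 * j)) := by
      refine Ew_congr _ _ fun T _ => ind_congr ?_
      constructor
      · rintro ⟨h2 | h2, h3⟩
        · exact ⟨h2, h3⟩
        · omega
      · rintro ⟨h2, h3⟩
        exact ⟨Or.inl h2, h3⟩
    rw [h1]
    have h2 := model_dom (s := s) (t := t) hPrsub (j := j) (by linarith) (by
      have h3 : PR s t \ Pr = (PR s t).filter fun p => p ∣ E := by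
        rw [hPr]
        ext p
        rw [Finset.mem_sdiff, mem_filter, mem_filter]
        tauto
      rw [h3]
      have := exc_card s t hE
      linarith) (Bd := fun T => ¬ Suc hh (gg Q) δ ρ T)
      (fun T T' hTT h3 h4 => h3 (Suc_mono _ _ _ _ hTT h4))
    linarith
  have hes1 : es (fun ω : ℕ × Bool => 1 / (ω.1 : ℝ)) (Pr ×ˢ univ) (2 * j + 1) ≤
      Real.exp (-((2 * j + 1 : ℕ) : ℝ)) := by
    refine es_small (fun ω _ => by positivity) (L := 2 * L) ?_ (by push_cast; linarith) (by omega)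
    rw [sum_product]
    simp only [sum_const, card_univ, Fintype.card_bool, nsmul_eq_mul]
    rw [← mul_sum]
    push_cast
    linarith
  have hcard1 : ((Pr ×ˢ (univ : Finset Bool)).card : ℝ) + 1 ≤ Real.exp (t + 2) := by
    rw [card_product, card_univ, Fintype.card_bool]
    push_cast
    have h1 : (Pr.card : ℝ) ≤ Real.exp t :=
      le_trans (by exact_mod_cast card_le_card hPrsub) (PR_card s t)
    have h2 : 1 ≤ Real.exp t := Real.one_le_exp ht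
    have h3 : Real.exp 2 = Real.exp 1 ^ 2 := by
      rw [← Real.exp_nat_mul]
      norm_num
    have h4 := Real.exp_one_gt_d9
    have h5 : (3 : ℝ) ≤ Real.exp 2 := by
      rw [h3]
      nlinarith
    have h6 := mul_le_mul_of_nonneg_left h5 (Real.exp_pos t).le
    rw [Real.exp_add]
    linarith
  have hcard2 : (((Pr ∪ PN : Finset ℕ)).card : ℝ) + 1 ≤ Real.exp (t + 2) := by
    have h1 : (Pr.card : ℝ) ≤ Real.exp t :=
      le_trans (by exact_mod_cast card_le_card hPrsub) (PR_card s t)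
    have h2 : 1 ≤ Real.exp t := Real.one_le_exp ht
    have h3 : Real.exp 2 = Real.exp 1 ^ 2 := by
      rw [← Real.exp_nat_mul]
      norm_num
    have h4 := Real.exp_one_gt_d9
    have h5 : (3 : ℝ) ≤ Real.exp 2 := by
      rw [h3]
      nlinarith
    have h6 := mul_le_mul_of_nonneg_left h5 (Real.exp_pos t).le
    have h7 : (PN.card : ℝ) ≤ Real.exp t := by
      have h8 : PN ⊆ Finset.Ioc 0 ⌊Real.exp s⌋₊ := by
        intro p hp'
        rw [mem_Ioc]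
        exact ⟨(hpN p hp').pos, Nat.le_floor (hPN p hp').2⟩
      have h9 := card_le_card h8
      rw [Nat.card_Ioc, Nat.sub_zero] at h9
      calc (PN.card : ℝ) ≤ (⌊Real.exp s⌋₊ : ℝ) := by exact_mod_cast h9
        _ ≤ Real.exp s := Nat.floor_le (Real.exp_pos s).le
        _ ≤ Real.exp t := Real.exp_le_exp.mpr hst
    have h8 : (((Pr ∪ PN : Finset ℕ)).card : ℝ) ≤ Pr.card + PN.card := by exact_mod_cast card_union_le Pr PN
    rw [Real.exp_add]
    linarith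
  have herr : (2 : ℝ) ^ (2 * j) * (cs (Pr ×ˢ (univ : Finset Bool)) (2 * j) * cs (Pr ∪ PN) (2 * j) +
      cs (Pr ×ˢ (univ : Finset Bool)) (2 * j + 1)) ≤ Real.exp ((t + 4) * (4 * j + 2)) := by
    have h1 : cs (Pr ×ˢ (univ : Finset Bool)) (2 * j) ≤ Real.exp (t + 2) ^ (2 * j) :=
      (cs_le _ _).trans (pow_le_pow_left₀ (by positivity) hcard1 _)
    have h2 : cs (Pr ∪ PN) (2 * j) ≤ Real.exp (t + 2) ^ (2 * j) :=
      (cs_le _ _).trans (pow_le_pow_left₀ (by positivity) hcard2 _)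
    have h3 : cs (Pr ×ˢ (univ : Finset Bool)) (2 * j + 1) ≤ Real.exp (t + 2) ^ (2 * j + 1) :=
      (cs_le _ _).trans (pow_le_pow_left₀ (by positivity) hcard1 _)
    have hge1 : 1 ≤ Real.exp (t + 2) := Real.one_le_exp (by linarith)
    have h4 : Real.exp (t + 2) ^ (2 * j) * Real.exp (t + 2) ^ (2 * j) ≤ Real.exp (t + 2) ^ (4 * j + 1) := by
      rw [← pow_add]
      exact pow_le_pow_right₀ hge1 (by omega)
    have h5 : Real.exp (t + 2) ^ (2 * j + 1) ≤ Real.exp (t + 2) ^ (4 * j + 1) :=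
      pow_le_pow_right₀ hge1 (by omega)
    have h6 : cs (Pr ×ˢ (univ : Finset Bool)) (2 * j) * cs (Pr ∪ PN) (2 * j) ≤
        Real.exp (t + 2) ^ (2 * j) * Real.exp (t + 2) ^ (2 * j) :=
      mul_le_mul h1 h2 (cs_nonneg _ _) (by positivity)
    have h7 : (2 : ℝ) ≤ Real.exp 1 := by
      have := Real.exp_one_gt_d9
      linarith
    calc (2 : ℝ) ^ (2 * j) * (cs (Pr ×ˢ (univ : Finset Bool)) (2 * j) * cs (Pr ∪ PN) (2 * j) +
          cs (Pr ×ˢ (univ : Finset Bool)) (2 * j + 1)) ≤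
          (2 : ℝ) ^ (2 * j) * (2 * Real.exp (t + 2) ^ (4 * j + 1)) :=
          mul_le_mul_of_nonneg_left (by linarith) (by positivity)
      _ = (2 : ℝ) ^ (2 * j + 1) * Real.exp (t + 2) ^ (4 * j + 1) := by ring
      _ ≤ Real.exp 1 ^ (2 * j + 1) * Real.exp (t + 2) ^ (4 * j + 1) :=
          mul_le_mul_of_nonneg_right (pow_le_pow_left₀ (by norm_num) h7 _) (by positivity)
      _ = Real.exp ((2 * j + 1 : ℕ) * 1 + (4 * j + 1 : ℕ) * (t + 2)) := by
          rw [← Real.exp_nat_mul, ← Real.exp_nat_mul, ← Real.exp_add]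
      _ ≤ Real.exp ((t + 4) * (4 * j + 2)) := by
          rw [Real.exp_le_exp]
          push_cast
          have : (0 : ℝ) ≤ j := Nat.cast_nonneg j
          nlinarith
  refine hleft.trans ?_
  have hmain' : ∑ n ∈ (Finset.Ioc u v).filter (fun n => n ≡ c [MOD W]) with
        ((¬ Suc hh (gg Q) δ ρ (An Pr G n) ∨ 2 * j < (An Pr G n).card) ∧
          (Vn Pr G n ∪ PN.filter fun p => n % p = r0 p) ∩ PN = ∅), (1 : ℝ) ≤
      2 * (((v : ℝ) - u) / W) * (∏ p ∈ PN, (1 - yy Pr p)) *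
        Ew (fun ω : ℕ × Bool => 1 / (ω.1 : ℝ)) (Pr ×ˢ univ)
          (fun T => ind ((¬ Suc hh (gg Q) δ ρ T ∨ 2 * j < T.card) ∧ T.card ≤ 2 * j)) +
        (((v : ℝ) - u) / W) * es (fun ω : ℕ × Bool => 1 / (ω.1 : ℝ)) (Pr ×ˢ univ) (2 * j + 1) +
        (2 : ℝ) ^ (2 * j) * (cs (Pr ×ˢ (univ : Finset Bool)) (2 * j) * cs (Pr ∪ PN) (2 * j) +
          cs (Pr ×ˢ (univ : Finset Bool)) (2 * j + 1)) := by
    convert hmain
  refine hmain'.trans ?_
  have hprN : ∏ p ∈ PN, (1 - yy Pr p) = ∏ p ∈ PN, (1 - 1 / (p : ℝ)) := prod_congr rfl fun p h => by rw [hyN p h]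
  have hprN0 : 0 ≤ ∏ p ∈ PN, (1 - 1 / (p : ℝ)) := prod_nonneg fun p h => by
    rw [← hyN p h]
    linarith [hyy1 p (mem_union_right _ h)]
  rw [hprN]
  have h1 := mul_le_mul_of_nonneg_left hEw
    (mul_nonneg (show 0 ≤ 2 * (((v : ℝ) - u) / W) by linarith) hprN0)
  have h2 := mul_le_mul_of_nonneg_left hes1 hX0
  have h3 : ((v : ℝ) - u) / W * (8 * η₀ * ∏ p ∈ PN, (1 - 1 / (p : ℝ)) + Real.exp (-(2 * j + 1 : ℕ))) =
      2 * (((v : ℝ) - u) / W) * (∏ p ∈ PN, (1 - 1 / (p : ℝ))) * (4 * η₀) +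
        ((v : ℝ) - u) / W * Real.exp (-(2 * j + 1 : ℕ)) := by ring
  rw [h3]
  linarith

end Pool.Agent.Lib.OW
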