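import Mathlib
import Pool.Agent.Lib.MP_7b7e48_nt.OW.EVL
import Pool.Agent.Lib.MP_7b7e48_nt.OW.LPN

/-!
# Theorem LFP: linked pairs in a family of pairs of linear forms, relative to a second set of primes
-/

set_option autoImplicit false

open Finset Filter Topology

namespace Pool.Agent.Lib.OW

open Classical in
/-- **Theorem LFP**: linked pairs in a family of pairs of linear forms, for the integers which avoid one residue class modulo
every prime of the set `PN` -/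
theorem LFP {a b b' d θ η Bx : ℝ} (ha : 0 < a) (hd : 0 ≤ d) (hb : 8 * a + 7 * d < b) (hb' : b < b') (hθ : b < θ)
    (hη : 0 < η) (hBx : 0 ≤ Bx) : ∃ K₀ : ℝ, 1 ≤ K₀ ∧ ∀ K : ℝ, K₀ ≤ K → ∀ (Q W E : ℕ) (δ : ℝ), 1 ≤ Q → 0 < δ → δ ≤ 1 →
    (Q : ℝ) / δ ≤ K ^ d → 1 ≤ W → (W : ℝ) ≤ K → 1 ≤ E → Real.log E ≤ K ^ 3 → ∀ (PN : Finset ℕ) (r0 : ℕ → ℕ),
    (∀ p ∈ PN, p.Prime ∧ (p : ℝ) ≤ K ^ Bx ∧ W.Coprime p ∧ r0 p < p) → ∀ (ρ : (ZMod Q)ˣ) (A B : Bool → ℤ),
    (∀ e, ∀ p ∈ PR (K ^ a) (K ^ b), ¬ p ∣ E → ¬ (p : ℤ) ∣ A e) →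
    (∀ p ∈ PR (K ^ a) (K ^ b), ¬ p ∣ E → ¬ (p : ℤ) ∣ A false * B true - A true * B false) →
    ∀ u v : ℕ, u ≤ v → Real.exp (K ^ θ) ≤ (v : ℝ) - u → ∀ G : Bool → ℕ → ℕ,
    (∀ e, ∀ n ∈ Finset.Ioc u v, ((G e n : ℕ) : ℤ) = A e * n - B e) → ∀ c : ℕ,
    ((((Finset.Ioc u v).filter fun n => n ≡ c [MOD W] ∧ (∀ p ∈ PN, n % p ≠ r0 p) ∧
      ¬ TLnk Q δ ρ ((PR (K ^ a) (K ^ b)).filter fun p => ¬ p ∣ E) (Real.exp (K ^ b')) (G false n) (G true n)).card : ℕ) : ℝ) ≤
      η * (∏ p ∈ PN, (1 - 1 / (p : ℝ))) * (((v : ℝ) - u) / W) := by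
  obtain ⟨k, hk⟩ : ∃ k : ℕ, 2 * d / a ≤ k := exists_nat_ge _
  obtain ⟨C, hC, hmodel⟩ := model k (show 0 < η / 16 by positivity)
  have hb0 : 0 < b := by linarith
  have he : 0 < b - (8 * a + 7 * d) := by linarith
  have hgap : 0 < b' - b := by linarith
  obtain ⟨B0, hB0⟩ : ∃ B0 : ℝ, B0 = 100 * (b + 1) + 16 * (Bx + 1) := ⟨_, rfl⟩
  have hB00 : 0 < B0 := by rw [hB0]; positivity
  obtain ⟨D, hD⟩ : ∃ D : ℝ, D = 256 * B0 + 1000 + d + |Real.log (4 / η)| + 4 * Bx := ⟨_, rfl⟩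
  have hD0 : 1000 ≤ D := by
    rw [hD]
    have := abs_nonneg (Real.log (4 / η))
    linarith
  have hDB : 256 * B0 ≤ D := by
    rw [hD]
    have := abs_nonneg (Real.log (4 / η))
    linarith
  have hDd : d ≤ D := by
    rw [hD]
    have := abs_nonneg (Real.log (4 / η))
    linarith
  have hDη : Real.log (4 / η) + 4 * Bx ≤ D := by
    rw [hD]
    have := le_abs_self (Real.log (4 / η))
    linarith
  have h2 := (tendsto_rpow_atTop ha).eventually (eventually_ge_atTop C)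
  have h3 := (tendsto_rpow_atTop he).eventually (eventually_ge_atTop C)
  have h4 := evlog D le_rfl ha
  have h5 := evlog D hb0.le hb'
  have h6 := evlog D hb0.le hθ
  obtain ⟨K₀, hK₀⟩ := eventually_atTop.mp (((h2.and h3).and (h4.and (h5.and h6))).and
    ((eventually_ge_atTop (Real.exp 1)).and (eventually_ge_atTop (4 / η))))
  refine ⟨max K₀ 1, le_max_right _ _, ?_⟩
  intro K hK Q W E δ hQ hδ hδ1 hQK hW hWK hE hEK PN r0 hPN ρ A B hA hAB u v huv huvθ G hG c
  obtain ⟨⟨⟨g2, g3⟩, g4, g5, g6⟩, g7, g8⟩ := hK₀ K ((le_max_left _ _).trans hK)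
  have hK1 : 1 ≤ K := (le_max_right _ _).trans hK
  have hK0 : 0 < K := by linarith
  have hQ1 : (1 : ℝ) ≤ Q := by exact_mod_cast hQ
  have hQd : 0 ≤ (Q : ℝ) / δ := by positivity
  have hlog1 : 1 ≤ Real.log K := by
    rw [Real.le_log_iff_exp_le hK0]
    exact g7
  have hKa0 : 0 < K ^ a := by positivity
  have hKb1 : 1 ≤ K ^ b := Real.one_le_rpow hK1 hb0.le
  -- `D (log K + 1) ≤ K^a`
  have hDa : D * (Real.log K + 1) ≤ K ^ a := by
    rw [Real.rpow_zero] at g4
    have : D * (Real.log K + 1) ≤ D * (Real.log K + 1) * (1 + D) := by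
      have h7 : 0 ≤ D * (Real.log K + 1) := by positivity
      nlinarith
    linarith
  have hDb : D * (Real.log K + 1) * (K ^ b + 4) ≤ K ^ b' := by
    refine le_trans ?_ g5
    exact mul_le_mul_of_nonneg_left (by linarith) (by positivity)
  have hDθ : D * (Real.log K + 1) * (K ^ b + 4) + D * (Real.log K + 1) ≤ K ^ θ := by
    refine le_trans ?_ g6
    have h7 : D * (Real.log K + 1) * (K ^ b + 4) + D * (Real.log K + 1) =
        D * (Real.log K + 1) * (K ^ b + 5) := by ring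
    rw [h7]
    exact mul_le_mul_of_nonneg_left (by linarith) (by positivity)
  have hexpa : D * (Real.log K + 1) ≤ Real.exp (K ^ a) := by
    have := Real.add_one_le_exp (K ^ a)
    linarith
  -- `j`
  obtain ⟨j, hj⟩ : ∃ j : ℕ, j = ⌈B0 * Real.log K⌉₊ + 1 := ⟨_, rfl⟩
  have hj1 : B0 * Real.log K + 1 ≤ j := by
    rw [hj]
    push_cast
    linarith [Nat.le_ceil (B0 * Real.log K)]
  have hj2 : (j : ℝ) ≤ B0 * Real.log K + 2 := by
    rw [hj]
    push_cast
    linarith [Nat.ceil_lt_add_one (show 0 ≤ B0 * Real.log K by positivity)]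
  have hjD : 64 * (j : ℝ) ≤ D * (Real.log K + 1) := by nlinarith
  -- the model
  have hmod := hmodel Q δ (K ^ a) (K ^ b) hQ hδ hδ1 g2 (by
    calc (Q : ℝ) ^ 2 / δ ≤ ((Q : ℝ) / δ) ^ 2 := by
          rw [div_pow]
          refine div_le_div_of_nonneg_left (by positivity) (by positivity) ?_
          nlinarith
      _ ≤ (K ^ d) ^ 2 := pow_le_pow_left₀ hQd hQK 2
      _ = K ^ (d * 2) := by
          rw [← Real.rpow_natCast, ← Real.rpow_mul hK0.le]
          norm_num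
      _ ≤ K ^ (a * k) := by
          refine Real.rpow_le_rpow_of_exponent_le hK1 ?_
          rw [div_le_iff₀ ha] at hk
          linarith
      _ = (K ^ a) ^ k := by
          rw [Real.rpow_mul hK0.le, Real.rpow_natCast]) (by
    calc C * ((Q : ℝ) * K ^ a / δ) ^ 7 * K ^ a = C * (((Q : ℝ) / δ) ^ 7 * (K ^ a) ^ 8) := by ring
      _ ≤ K ^ (b - (8 * a + 7 * d)) * ((K ^ d) ^ 7 * (K ^ a) ^ 8) := by
          refine mul_le_mul g3 ?_ (by positivity) (by positivity)
          exact mul_le_mul_of_nonneg_right (pow_le_pow_left₀ hQd hQK 7) (by positivity)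
      _ = K ^ b := by
          rw [← Real.rpow_natCast (K ^ d), ← Real.rpow_natCast (K ^ a), ← Real.rpow_mul hK0.le,
            ← Real.rpow_mul hK0.le, ← Real.rpow_add hK0, ← Real.rpow_add hK0]
          congr 1
          push_cast
          ring) ρ
  have hs2 : 2 ≤ K ^ a := hC.trans g2
  have hQs : (Q : ℝ) ≤ Real.exp (K ^ a) := by
    have h7 : (Q : ℝ) ≤ (Q : ℝ) / δ := by
      rw [le_div_iff₀ hδ]
      nlinarith
    refine (h7.trans hQK).trans ?_
    rw [Real.rpow_def_of_pos hK0, Real.exp_le_exp]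
    nlinarith
  have hKexp : ∀ x : ℝ, 0 ≤ x → x ≤ D → K ^ x ≤ Real.exp (K ^ a) := by
    intro x _ hx
    rw [Real.rpow_def_of_pos hK0, Real.exp_le_exp]
    nlinarith
  have hE2 : 8 * Real.log E ≤ Real.exp (K ^ a) := by
    have h7 : K ^ (4 : ℝ) * K ^ (4 : ℝ) ≤ Real.exp (K ^ a) := by
      rw [← Real.rpow_add hK0]
      exact hKexp _ (by norm_num) (by linarith)
    have h8 : K ^ (4 : ℝ) = K ^ (4 : ℕ) := by
      rw [← Real.rpow_natCast]
      norm_num
    have h9 : (8 : ℝ) ≤ K ^ (4 : ℕ) := by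
      have h10 : (2.7 : ℝ) ≤ K := by
        have := Real.exp_one_gt_d9
        linarith
      have h11 : (2.7 : ℝ) ^ 4 ≤ K ^ 4 := pow_le_pow_left₀ (by norm_num) h10 4
      refine le_trans ?_ h11
      norm_num
    have h10 : K ^ 3 ≤ K ^ (4 : ℕ) := pow_le_pow_right₀ hK1 (by norm_num)
    rw [h8] at h7
    have h11 : 8 * Real.log E ≤ K ^ (4 : ℕ) * K ^ (4 : ℕ) :=
      mul_le_mul h9 (hEK.trans h10) (Real.log_nonneg (by exact_mod_cast hE)) (by positivity)
    linarith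
  have hWs : (W : ℝ) ≤ Real.exp (K ^ a) := by
    have := hKexp 1 (by norm_num) (by linarith)
    rw [Real.rpow_one] at this
    linarith
  have hL := sum_PR_K (K := K) ha.le (by linarith : a ≤ b) hs2 g7
  have hBD : Bx ≤ D := by
    have := abs_nonneg (Real.log (4 / η))
    linarith
  have hPN1 : ∀ p ∈ PN, 1 ≤ p ∧ p ≤ ⌊K ^ Bx⌋₊ := fun p h => ⟨(hPN p h).1.one_lt.le, Nat.le_floor (hPN p h).2.1⟩
  have hKB1 : 1 ≤ K ^ Bx := Real.one_le_rpow hK1 hBx
  have hLN : ∑ p ∈ PN, 1 / (p : ℝ) ≤ (Bx + 1) * Real.log K := by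
    refine (sum_inv_le ⌊K ^ Bx⌋₊ (Nat.le_floor (by exact_mod_cast hKB1)) PN hPN1).trans ?_
    have e1 : Real.log (⌊K ^ Bx⌋₊ : ℝ) ≤ Real.log (K ^ Bx) := by
      refine Real.log_le_log ?_ (Nat.floor_le (by positivity))
      exact_mod_cast Nat.floor_pos.mpr hKB1
    rw [Real.log_rpow hK0] at e1
    linarith
  have hab : K ^ a ≤ K ^ b := Real.rpow_le_rpow_of_exponent_le hK1 (by linarith)
  have hcore := lf_coreP (s := K ^ a) (t := K ^ b) (L := (8 * (b + 1) + (Bx + 1)) * Real.log K) hQ hQs ρ hmod hs2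
    (by positivity) hab hE hE2 (by omega : 1 ≤ j) (hjD.trans hexpa) (hL.trans (by
      have : 0 ≤ (Bx + 1) * Real.log K := by positivity
      linarith)) (by positivity) (by
      rw [hB0] at hj1
      have e2 : 0 ≤ b * Real.log K := by positivity
      have e3 : 0 ≤ Bx * Real.log K := by positivity
      linarith) hW hWs (PN := PN) (fun p h => ⟨(hPN p h).1, (hPN p h).2.1.trans (hKexp Bx hBx hBD)⟩)
    (fun p h => (hPN p h).2.2.1) (hLN.trans (by
      have : 0 ≤ 8 * (b + 1) * Real.log K := by positivity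
      linarith)) (fun p h => (hPN p h).2.2.2) hA hAB huv hG c
  obtain ⟨ϖ, hϖ⟩ : ∃ ϖ : ℝ, ϖ = ∏ p ∈ PN, (1 - 1 / (p : ℝ)) := ⟨_, rfl⟩
  rw [← hϖ] at hcore ⊢
  have hϖ1 : K ^ (-(2 * (Bx + 1))) ≤ ϖ := by
    have e1 := prod_ge_exp (y := fun p : ℕ => 1 / (p : ℝ)) (S := PN) (fun p _ => by positivity) (fun p h => by
      have h1 : (2 : ℝ) ≤ p := by exact_mod_cast (hPN p h).1.two_le
      exact one_div_le_one_div_of_le (by norm_num) h1) hLN
    rw [← hϖ] at e1
    refine le_trans (le_of_eq ?_) e1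
    rw [Real.rpow_def_of_pos hK0]
    congr 1
    ring
  have hϖ0 : 0 < ϖ := lt_of_lt_of_le (by positivity) hϖ1
  have hW0 : (0 : ℝ) < W := by exact_mod_cast hW
  -- monotonicity of the truncation
  have hmono : ((((Finset.Ioc u v).filter fun n => n ≡ c [MOD W] ∧ (∀ p ∈ PN, n % p ≠ r0 p) ∧
      ¬ TLnk Q δ ρ ((PR (K ^ a) (K ^ b)).filter fun p => ¬ p ∣ E) (Real.exp (K ^ b')) (G false n) (G true n)).card : ℕ) : ℝ) ≤
      ((((Finset.Ioc u v).filter fun n => n ≡ c [MOD W] ∧ (∀ p ∈ PN, n % p ≠ r0 p) ∧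
      ¬ TLnk Q δ ρ ((PR (K ^ a) (K ^ b)).filter fun p => ¬ p ∣ E) (Real.exp (K ^ b * (2 * j : ℕ))) (G false n) (G true n)).card : ℕ) : ℝ) := by
    refine Nat.cast_le.mpr (card_le_card ?_)
    intro n hn
    rw [mem_filter] at hn ⊢
    refine ⟨hn.1, hn.2.1, hn.2.2.1, fun h => hn.2.2.2 ?_⟩
    obtain ⟨α, β, q1, q2, q3, q4, q5, q6, q7, q8, q9, q10, q11⟩ := h
    refine ⟨α, β, q1, q2, q3, q4, q5, q6, q7, q8, q9, q10, q11.trans ?_⟩
    rw [Real.exp_le_exp]
    refine le_trans ?_ hDb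
    push_cast
    have e1 : K ^ b * (2 * (j : ℝ)) ≤ K ^ b * (D * (Real.log K + 1)) :=
      mul_le_mul_of_nonneg_left (by linarith) (by linarith)
    have e2 : D * (Real.log K + 1) * (K ^ b + 4) = K ^ b * (D * (Real.log K + 1)) + 4 * (D * (Real.log K + 1)) := by
      ring
    rw [e2]
    have e3 : 0 ≤ D * (Real.log K + 1) := by positivity
    linarith
  refine hmono.trans (hcore.trans ?_)
  have hX : Real.exp (K ^ θ) / K ≤ ((v : ℝ) - u) / W := by
    refine div_le_div₀ (by linarith [Real.exp_pos (K ^ θ)]) huvθ hW0 hWK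
  have hX0 : 0 < ((v : ℝ) - u) / W := lt_of_lt_of_le (by positivity) hX
  have k1 : Real.exp (-((2 * j + 1 : ℕ) : ℝ)) ≤ η / 4 * ϖ := by
    have e1 : Real.exp (-((2 * j + 1 : ℕ) : ℝ)) ≤ K⁻¹ * K ^ (-(2 * (Bx + 1))) := by
      rw [← Real.rpow_neg_one, ← Real.rpow_add hK0, Real.rpow_def_of_pos hK0, Real.exp_le_exp]
      push_cast
      have e2 : 0 ≤ b * Real.log K := by positivity
      have e3 : 0 ≤ Bx * Real.log K := by positivity
      rw [hB0] at hj1
      linarith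
    refine e1.trans (mul_le_mul ?_ hϖ1 (by positivity) (by positivity))
    rw [inv_le_comm₀ hK0 (by positivity), inv_div]
    exact g8
  have hKneg : K ^ (-(2 * (Bx + 1))) = (Real.exp (2 * (Bx + 1) * Real.log K))⁻¹ := by
    rw [Real.rpow_def_of_pos hK0, ← Real.exp_neg]
    congr 1
    ring
  have k2 : Real.exp ((K ^ b + 4) * (4 * j + 2)) ≤ η / 4 * ϖ * (((v : ℝ) - u) / W) := by
    have e1 : (K ^ b + 4) * (4 * (j : ℝ) + 2) ≤ D / 2 * (Real.log K + 1) * (K ^ b + 4) := by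
      rw [mul_comm]
      refine mul_le_mul_of_nonneg_right ?_ (by linarith)
      have e0 : 1000 * 2 ≤ D * (Real.log K + 1) :=
        mul_le_mul hD0 (by linarith) (by norm_num) (by linarith)
      linarith
    have e2 : (K ^ b + 4) * (4 * (j : ℝ) + 2) ≤ K ^ θ - Real.log K - Real.log (4 / η) -
        2 * (Bx + 1) * Real.log K := by
      have e3 : Real.log K + Real.log (4 / η) + 2 * (Bx + 1) * Real.log K ≤ D * (Real.log K + 1) +
          D / 2 * (Real.log K + 1) * (K ^ b + 4) := by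
        have e5 : (2 * (Bx + 1)) * Real.log K ≤ D / 2 * (Real.log K + 1) := by
          have e6 : 2 * (Bx + 1) ≤ D / 2 := by
            rw [hD, hB0]
            have := abs_nonneg (Real.log (4 / η))
            linarith
          exact mul_le_mul e6 (by linarith) (by linarith) (by linarith)
        have e6 : D / 2 * (Real.log K + 1) * 1 ≤ D / 2 * (Real.log K + 1) * (K ^ b + 4) :=
          mul_le_mul_of_nonneg_left (by linarith) (by positivity)
        have e7 : Real.log K + Real.log (4 / η) ≤ D * (Real.log K + 1) := by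
          have e8 : 1 * Real.log K ≤ D * Real.log K := mul_le_mul_of_nonneg_right (by linarith) (by linarith)
          have e9 : D * (Real.log K + 1) = D * Real.log K + D := by ring
          linarith
        linarith
      linarith
    calc Real.exp ((K ^ b + 4) * (4 * j + 2)) ≤ Real.exp (K ^ θ - Real.log K - Real.log (4 / η) -
        2 * (Bx + 1) * Real.log K) :=
          Real.exp_le_exp.mpr e2
      _ = η / 4 * K ^ (-(2 * (Bx + 1))) * (Real.exp (K ^ θ) / K) := by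
          rw [Real.exp_sub, Real.exp_sub, Real.exp_sub, Real.exp_log hK0, Real.exp_log (by positivity), hKneg]
          field_simp
      _ ≤ η / 4 * ϖ * (((v : ℝ) - u) / W) := by
          refine mul_le_mul ?_ hX (by positivity) (by positivity)
          exact mul_le_mul_of_nonneg_left hϖ1 (by positivity)
  have k3 : ((v : ℝ) - u) / W * (8 * (η / 16) * ϖ + Real.exp (-(2 * j + 1 : ℕ))) ≤
      ((v : ℝ) - u) / W * (η / 2 * ϖ + η / 4 * ϖ) := mul_le_mul_of_nonneg_left (by linarith) hX0.le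
  have k4 : ((v : ℝ) - u) / W * (η / 2 * ϖ + η / 4 * ϖ) + η / 4 * ϖ * (((v : ℝ) - u) / W) =
      η * ϖ * (((v : ℝ) - u) / W) := by ring
  linarith

end Pool.Agent.Lib.OW
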