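import Mathlib

/-!
# Random subsets: expectations as finite sums

`Ew x S F` is the expectation of `F T` over the random subset `T` of `S` which contains `ω` with probability `x ω`,
independently.
-/

set_option autoImplicit false

open Finset

namespace Pool.Agent.Lib.OW

variable {Ω : Type*} [DecidableEq Ω]

/-- expectation over a random subset of `S`, `ω` being present with probability `x ω` -/
noncomputable def Ew (x : Ω → ℝ) (S : Finset Ω) (F : Finset Ω → ℝ) : ℝ :=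
  ∑ T ∈ S.powerset, ((∏ ω ∈ T, x ω) * ∏ ω ∈ S \ T, (1 - x ω)) * F T

theorem Ew_empty (x : Ω → ℝ) (F : Finset Ω → ℝ) : Ew x ∅ F = F ∅ := by
  simp [Ew]

theorem Ew_insert (x : Ω → ℝ) {a : Ω} {S : Finset Ω} (ha : a ∉ S) (F : Finset Ω → ℝ) :
    Ew x (insert a S) F = (1 - x a) * Ew x S F + x a * Ew x S (fun T => F (insert a T)) := by
  unfold Ew
  rw [Finset.sum_powerset_insert ha, mul_sum, mul_sum]
  congr 1
  · refine sum_congr rfl fun T hT => ?_
    have hTS := mem_powerset.mp hT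
    have haT : a ∉ T := fun h => ha (hTS h)
    rw [insert_sdiff_of_notMem _ haT, prod_insert (fun h => ha (mem_sdiff.mp h).1)]
    ring
  · refine sum_congr rfl fun T hT => ?_
    have hTS := mem_powerset.mp hT
    have haT : a ∉ T := fun h => ha (hTS h)
    have h1 : insert a S \ insert a T = S \ T := by
      ext b
      simp only [mem_sdiff, mem_insert]
      constructor
      · rintro ⟨h1 | h1, h2⟩
        · exact absurd (Or.inl h1) h2
        · exact ⟨h1, fun h => h2 (Or.inr h)⟩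
      · rintro ⟨h1, h2⟩
        refine ⟨Or.inr h1, ?_⟩
        rintro (h3 | h3)
        · exact ha (h3 ▸ h1)
        · exact h2 h3
    rw [h1, prod_insert haT]
    ring

theorem Ew_const (x : Ω → ℝ) (S : Finset Ω) (c : ℝ) : Ew x S (fun _ => c) = c := by
  induction S using Finset.induction_on with
  | empty => rw [Ew_empty]
  | insert a S ha ih =>
    rw [Ew_insert x ha, ih]
    ring

theorem Ew_congr (x : Ω → ℝ) (S : Finset Ω) {F G : Finset Ω → ℝ} (h : ∀ T ⊆ S, F T = G T) :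
    Ew x S F = Ew x S G := by
  unfold Ew
  exact sum_congr rfl fun T hT => by rw [h T (mem_powerset.mp hT)]

theorem Ew_add (x : Ω → ℝ) (S : Finset Ω) (F G : Finset Ω → ℝ) :
    Ew x S (fun T => F T + G T) = Ew x S F + Ew x S G := by
  unfold Ew
  rw [← sum_add_distrib]
  exact sum_congr rfl fun T _ => by ring

theorem Ew_smul (x : Ω → ℝ) (S : Finset Ω) (c : ℝ) (F : Finset Ω → ℝ) :
    Ew x S (fun T => c * F T) = c * Ew x S F := by
  unfold Ew
  rw [mul_sum]
  exact sum_congr rfl fun T _ => by ring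

theorem Ew_sum (x : Ω → ℝ) (S : Finset Ω) {ι : Type*} (I : Finset ι) (F : ι → Finset Ω → ℝ) :
    Ew x S (fun T => ∑ i ∈ I, F i T) = ∑ i ∈ I, Ew x S (F i) := by
  unfold Ew
  rw [sum_comm]
  exact sum_congr rfl fun T _ => by rw [mul_sum]

section nonneg

variable {x : Ω → ℝ} {S : Finset Ω}

theorem Ew_weight_nonneg (hx0 : ∀ ω ∈ S, 0 ≤ x ω) (hx1 : ∀ ω ∈ S, x ω ≤ 1) {T : Finset Ω} (hT : T ⊆ S) :
    0 ≤ (∏ ω ∈ T, x ω) * ∏ ω ∈ S \ T, (1 - x ω) :=
  mul_nonneg (prod_nonneg fun ω h => hx0 ω (hT h))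
    (prod_nonneg fun ω h => sub_nonneg.mpr (hx1 ω (mem_sdiff.mp h).1))

theorem Ew_mono (hx0 : ∀ ω ∈ S, 0 ≤ x ω) (hx1 : ∀ ω ∈ S, x ω ≤ 1) {F G : Finset Ω → ℝ}
    (h : ∀ T ⊆ S, F T ≤ G T) : Ew x S F ≤ Ew x S G := by
  unfold Ew
  exact sum_le_sum fun T hT => mul_le_mul_of_nonneg_left (h T (mem_powerset.mp hT))
    (Ew_weight_nonneg hx0 hx1 (mem_powerset.mp hT))

theorem Ew_nonneg (hx0 : ∀ ω ∈ S, 0 ≤ x ω) (hx1 : ∀ ω ∈ S, x ω ≤ 1) {F : Finset Ω → ℝ}
    (h : ∀ T ⊆ S, 0 ≤ F T) : 0 ≤ Ew x S F := by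
  unfold Ew
  exact sum_nonneg fun T hT => mul_nonneg (Ew_weight_nonneg hx0 hx1 (mem_powerset.mp hT))
    (h T (mem_powerset.mp hT))

end nonneg

/-- independence -/
theorem Ew_union (x : Ω → ℝ) (S₁ S₂ : Finset Ω) (h : Disjoint S₁ S₂) (F : Finset Ω → ℝ) :
    Ew x (S₁ ∪ S₂) F = Ew x S₁ (fun T₁ => Ew x S₂ (fun T₂ => F (T₁ ∪ T₂))) := by
  induction S₂ using Finset.induction_on generalizing F with
  | empty =>
    rw [union_empty]
    refine Ew_congr x S₁ fun T _ => ?_
    rw [Ew_empty, union_empty]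
  | insert a S₂ ha ih =>
    have hd : Disjoint S₁ S₂ := disjoint_of_subset_right (subset_insert a S₂) h
    have haS₁ : a ∉ S₁ := fun h1 => disjoint_left.mp h h1 (mem_insert_self a S₂)
    have haU : a ∉ S₁ ∪ S₂ := fun h1 => by
      rcases mem_union.mp h1 with h1 | h1
      · exact haS₁ h1
      · exact ha h1
    rw [union_insert, Ew_insert x haU, ih hd, ih hd]
    have h1 : ∀ T₁ ⊆ S₁, Ew x (insert a S₂) (fun T₂ => F (T₁ ∪ T₂)) =
        (1 - x a) * Ew x S₂ (fun T₂ => F (T₁ ∪ T₂)) +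
          x a * Ew x S₂ (fun T₂ => F (insert a (T₁ ∪ T₂))) := by
      intro T₁ _
      rw [Ew_insert x ha]
      congr 2
      refine Ew_congr x S₂ fun T₂ _ => ?_
      rw [union_insert]
    rw [Ew_congr x S₁ h1, Ew_add, Ew_smul, Ew_smul]

/-- product functions -/
theorem Ew_prod (x : Ω → ℝ) (S : Finset Ω) (g : Ω → ℝ) :
    Ew x S (fun T => ∏ ω ∈ T, g ω) = ∏ ω ∈ S, (1 - x ω + x ω * g ω) := by
  induction S using Finset.induction_on with
  | empty => rw [Ew_empty, prod_empty, prod_empty]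
  | insert a S ha ih =>
    rw [Ew_insert x ha, ih, prod_insert ha]
    have h1 : Ew x S (fun T => ∏ ω ∈ insert a T, g ω) = g a * Ew x S (fun T => ∏ ω ∈ T, g ω) := by
      rw [← Ew_smul]
      refine Ew_congr x S fun T hT => ?_
      rw [prod_insert (fun h => ha (hT h))]
    rw [h1, ih]
    ring

/-- the mean of a sum -/
theorem Ew_lin (x : Ω → ℝ) (S : Finset Ω) (g : Ω → ℝ) :
    Ew x S (fun T => ∑ ω ∈ T, g ω) = ∑ ω ∈ S, x ω * g ω := by
  induction S using Finset.induction_on with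
  | empty => rw [Ew_empty, sum_empty, sum_empty]
  | insert a S ha ih =>
    rw [Ew_insert x ha, ih, sum_insert ha]
    have h1 : Ew x S (fun T => ∑ ω ∈ insert a T, g ω) = g a + Ew x S (fun T => ∑ ω ∈ T, g ω) := by
      rw [← Ew_const x S (g a), ← Ew_add]
      refine Ew_congr x S fun T hT => ?_
      rw [sum_insert (fun h => ha (hT h))]
    rw [h1, ih]
    ring

/-- the probability of avoiding a set -/
theorem Ew_avoid (x : Ω → ℝ) (S G : Finset Ω) :
    Ew x S (fun T => if Disjoint T G then 1 else 0) = ∏ ω ∈ S ∩ G, (1 - x ω) := by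
  have h1 : Ew x S (fun T => if Disjoint T G then (1 : ℝ) else 0) =
      Ew x S (fun T => ∏ ω ∈ T, (if ω ∈ G then (0 : ℝ) else 1)) := by
    refine Ew_congr x S fun T _ => ?_
    by_cases h : Disjoint T G
    · rw [if_pos h]
      symm
      refine prod_eq_one fun ω hω => ?_
      rw [if_neg (disjoint_left.mp h hω)]
    · rw [if_neg h]
      rw [not_disjoint_iff] at h
      obtain ⟨ω, h1, h2⟩ := h
      symm
      exact prod_eq_zero h1 (if_pos h2)
  rw [h1, Ew_prod, ← Finset.filter_mem_eq_inter, prod_filter]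
  refine prod_congr rfl fun ω _ => ?_
  split_ifs <;> ring

/-- Cauchy's inequality for square roots -/
theorem Ew_sqrt {x : Ω → ℝ} {S : Finset Ω} (hx0 : ∀ ω ∈ S, 0 ≤ x ω) (hx1 : ∀ ω ∈ S, x ω ≤ 1)
    {F : Finset Ω → ℝ} (hF : ∀ T ⊆ S, 0 ≤ F T) : Ew x S (fun T => Real.sqrt (F T)) ≤ Real.sqrt (Ew x S F) := by
  refine Real.le_sqrt_of_sq_le ?_
  have h1 : ∀ c : ℝ, 0 ≤ c ^ 2 * 1 - 2 * c * Ew x S (fun T => Real.sqrt (F T)) + Ew x S F := by
    intro c
    have h2 : 0 ≤ Ew x S (fun T => (c - Real.sqrt (F T)) ^ 2) :=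
      Ew_nonneg hx0 hx1 fun T _ => sq_nonneg _
    have h3 : Ew x S (fun T => (c - Real.sqrt (F T)) ^ 2) =
        Ew x S (fun T => (c ^ 2 + (-(2 * c)) * Real.sqrt (F T)) + F T) := by
      refine Ew_congr x S fun T hT => ?_
      have := Real.sq_sqrt (hF T hT)
      linear_combination this
    rw [h3, Ew_add, Ew_add, Ew_const, Ew_smul] at h2
    linarith
  have h2 := h1 (Ew x S (fun T => Real.sqrt (F T)))
  linarith [h2]

end Pool.Agent.Lib.OW
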