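import Pool.Agent.Lib.MP_7b7e48_nt.OW.MTF

/-!
# The model theorem, end of the proof
-/

set_option autoImplicit false

open Finset Filter Topology

namespace Pool.Agent.Lib.OW

/-- the scales are fine if `Q² / δ` is at most a power of `u₀` -/
theorem scale_ok (k : ℕ) : ∃ C : ℝ, 2 ≤ C ∧ ∀ (Q : ℕ) (δ u₀ : ℝ), 1 ≤ Q → 0 < δ → δ ≤ 1 → C ≤ u₀ →
    (Q : ℝ) ^ 2 / δ ≤ u₀ ^ k → Scale Q δ u₀ := by
  obtain ⟨C1, hC1, h1⟩ := cell_up (k + 1)
  obtain ⟨C2, hC2, h2⟩ := cell_low (k + 1)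
  obtain ⟨C3, hC3, h3⟩ := dyadic_mass
  have h4 : ∀ᶠ u : ℝ in atTop, u ^ k ≤ Real.exp u := by
    have h5 := Real.tendsto_pow_mul_exp_neg_atTop_nhds_zero k
    filter_upwards [h5.eventually (gt_mem_nhds one_pos)] with u hu
    have h6 := Real.exp_pos u
    rw [Real.exp_neg, ← div_eq_mul_inv, div_lt_one h6] at hu
    exact hu.le
  obtain ⟨C4, hC4⟩ := eventually_atTop.mp h4
  refine ⟨max (max (C1 * 2 ^ (k + 1)) C2) (max (max C3 C4) 8), le_trans (by norm_num)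
    ((le_max_right _ _).trans (le_max_right _ _)), ?_⟩
  intro Q δ u₀ hQ hδ hδ1 hu hk
  have hu1 : C1 * 2 ^ (k + 1) ≤ u₀ := ((le_max_left _ _).trans (le_max_left _ _)).trans hu
  have hu2 : C2 ≤ u₀ := ((le_max_right _ _).trans (le_max_left _ _)).trans hu
  have hu3 : C3 ≤ u₀ := (((le_max_left _ _).trans (le_max_left _ _)).trans (le_max_right _ _)).trans hu
  have hu4 : C4 ≤ u₀ := (((le_max_right _ _).trans (le_max_left _ _)).trans (le_max_right _ _)).trans hu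
  have hu5 : 8 ≤ u₀ := ((le_max_right _ _).trans (le_max_right _ _)).trans hu
  have hu0 : 0 < u₀ := by linarith
  have hQ1 : (1 : ℝ) ≤ Q := by exact_mod_cast hQ
  have hQk : (Q : ℝ) ^ 2 ≤ δ * u₀ ^ k := by
    rwa [div_le_iff₀' hδ] at hk
  have hQexp : (Q : ℝ) ≤ Real.exp u₀ := by
    refine le_trans ?_ (hC4 u₀ hu4)
    have h5 : (Q : ℝ) ≤ (Q : ℝ) ^ 2 := by nlinarith
    have h6 : δ * u₀ ^ k ≤ 1 * u₀ ^ k := mul_le_mul_of_nonneg_right hδ1 (by positivity)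
    linarith
  refine ⟨hQ, hδ, by linarith, hQexp, ?_, fun u huu => h3 u (by linarith), ?_⟩
  · intro u huu v c
    refine h1 Q hQ u δ (by linarith) hδ hδ1 ?_ ?_ v c
    · refine hQexp.trans (Real.exp_le_exp.mpr (by linarith))
    · have hu' : 0 < u := by linarith
      have h5 : (4 / u) ^ (k + 1) ≤ 2 ^ (k + 1) / u₀ ^ (k + 1) := by
        rw [← div_pow]
        refine pow_le_pow_left₀ (by positivity) ?_ _
        rw [div_le_div_iff₀ hu' hu0]
        linarith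
      calc C1 * (Q : ℝ) ^ 2 * (4 / u) ^ (k + 1) ≤ C1 * (δ * u₀ ^ k) * (2 ^ (k + 1) / u₀ ^ (k + 1)) := by
            refine mul_le_mul (mul_le_mul_of_nonneg_left hQk (by linarith)) h5 (by positivity)
              (by positivity)
        _ = δ * ((C1 * 2 ^ (k + 1)) / u₀) := by
            rw [pow_succ u₀ k]
            field_simp
        _ ≤ δ * 1 := by
            refine mul_le_mul_of_nonneg_left ?_ hδ.le
            rw [div_le_one hu0]
            exact hu1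
        _ = δ := mul_one _
  · intro u u' t hu6 hut htu' c
    have hup : 0 < u := by linarith
    refine h2 Q hQ u u' t δ (by linarith) hut htu' hδ hδ1 (hQexp.trans (Real.exp_le_exp.mpr hu6)) ?_ c
    calc C2 * (Q : ℝ) ^ 2 / u ^ (k + 1) ≤ C2 * (δ * u₀ ^ k) / u₀ ^ (k + 1) := by
          refine div_le_div₀ (by positivity) (mul_le_mul_of_nonneg_left hQk (by linarith))
            (by positivity) ?_
          exact pow_le_pow_left₀ hu0.le hu6 _
      _ = δ * (C2 / u₀) := by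
          rw [pow_succ u₀ k]
          field_simp
      _ ≤ δ * 1 := by
          refine mul_le_mul_of_nonneg_left ?_ hδ.le
          rw [div_le_one hu0]
          exact hu2
      _ = δ := mul_one _

/-- the past is good with large probability -/
theorem good_prob {Q : ℕ} {δ u₀ η : ℝ} (hs : Scale Q δ u₀) (hη : 0 < η) (n : ℕ)
    (hn : th ^ n ≤ Real.sqrt (84 * δ / (Q.totient * (2 ^ n * u₀)))) :
    Ew xx (BL u₀ (2 ^ n * u₀)) (fun T => ind (¬ (En hh (gg Q) δ T ≤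
        84 * (21 / η) ^ 2 * δ / (Q.totient * (2 ^ n * u₀)) ∧
        ∑ ω ∈ T, |hh ω| ≤ 4 / η * (2 ^ n * u₀)))) ≤ 2 * η := by
  have hφ : (0 : ℝ) < Q.totient := by exact_mod_cast Nat.totient_pos.mpr hs.hQ
  have hδ := hs.hδ
  have hu2 := hs.hu
  have hen := energy hs n
  set u := 2 ^ n * u₀ with hu
  have hu0u : u₀ ≤ u := by
    have : (1 : ℝ) ≤ 2 ^ n := one_le_pow₀ (by norm_num)
    rw [hu]
    nlinarith
  have hup : 0 < u := by linarith
  set lam := 84 * (21 / η) ^ 2 * δ / (Q.totient * u) with hlam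
  have hlam0 : 0 < lam := by positivity
  set s := Real.sqrt (84 * δ / (Q.totient * u)) with hsq
  have hs0 : 0 < s := Real.sqrt_pos.mpr (by positivity)
  have hsl : Real.sqrt lam = 21 / η * s := by
    rw [hlam, hsq, ← Real.sqrt_sq (show 0 ≤ 21 / η by positivity), ← Real.sqrt_mul (by positivity),
      Real.sqrt_sq (by positivity)]
    congr 1
    ring
  have hx0 : ∀ ω ∈ BL u₀ u, 0 ≤ xx ω := fun ω _ => xx_nonneg ω
  have hx1 : ∀ ω ∈ BL u₀ u, xx ω ≤ 1 := fun ω hω => (xx_le hω).trans (by norm_num)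
  have hpt : ∀ T ⊆ BL u₀ u, ind (¬ (En hh (gg Q) δ T ≤ lam ∧ ∑ ω ∈ T, |hh ω| ≤ 4 / η * u)) ≤
      (Real.sqrt lam)⁻¹ * Real.sqrt (En hh (gg Q) δ T) + (4 / η * u)⁻¹ * ∑ ω ∈ T, |hh ω| := by
    intro T _
    have h1 : 0 ≤ (Real.sqrt lam)⁻¹ * Real.sqrt (En hh (gg Q) δ T) := by positivity
    have h2 : 0 ≤ (4 / η * u)⁻¹ * ∑ ω ∈ T, |hh ω| := by
      have : 0 ≤ ∑ ω ∈ T, |hh ω| := sum_nonneg fun _ _ => abs_nonneg _
      positivity
    by_cases h3 : En hh (gg Q) δ T ≤ lam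
    · by_cases h4 : ∑ ω ∈ T, |hh ω| ≤ 4 / η * u
      · rw [ind_false (not_not.mpr ⟨h3, h4⟩)]
        linarith
      · push Not at h4
        have h5 : 1 ≤ (4 / η * u)⁻¹ * ∑ ω ∈ T, |hh ω| := by
          rw [← div_eq_inv_mul, one_le_div (by positivity)]
          exact h4.le
        refine (ind_le_one _).trans ?_
        linarith
    · push Not at h3
      have h5 : 1 ≤ (Real.sqrt lam)⁻¹ * Real.sqrt (En hh (gg Q) δ T) := by
        rw [← div_eq_inv_mul, one_le_div (Real.sqrt_pos.mpr hlam0)]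
        exact Real.sqrt_le_sqrt h3.le
      refine (ind_le_one _).trans ?_
      linarith
  refine (Ew_mono hx0 hx1 hpt).trans ?_
  rw [Ew_add, Ew_smul, Ew_smul, Ew_lin]
  have h1 : (Real.sqrt lam)⁻¹ * Ew xx (BL u₀ u) (fun T => Real.sqrt (En hh (gg Q) δ T)) ≤ η := by
    rw [hsl, ← div_eq_inv_mul, div_le_iff₀ (by positivity)]
    have h2 : η * (21 / η * s) = 21 * s := by field_simp
    rw [h2]
    linarith
  have h2 : (4 / η * u)⁻¹ * ∑ ω ∈ BL u₀ u, xx ω * |hh ω| ≤ η := by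
    rw [← div_eq_inv_mul, div_le_iff₀ (by positivity)]
    have h3 : η * (4 / η * u) = 4 * u := by field_simp
    rw [h3, sum_BL]
    have h4 : ∀ c : Bool, ∑ p ∈ PR u₀ u, xx (p, c) * |hh (p, c)| ≤ u + Real.log 4 := by
      intro c
      refine le_trans (le_of_eq (sum_congr rfl fun p hp => ?_)) (sum_log_PR (s := u₀) hup.le)
      have hpp := (mem_PR.mp hp).1
      have hl : 0 ≤ Real.log p := Real.log_nonneg (by exact_mod_cast hpp.one_lt.le)
      unfold xx hh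
      cases c
      · simp only [Bool.false_eq_true, if_false]
        rw [abs_of_nonneg hl]
      · simp only [if_true]
        rw [abs_neg, abs_of_nonneg hl]
    have h5 : Real.log 4 ≤ 2 := by
      have h6 := Real.log_two_lt_d9
      have h7 : Real.log 4 = 2 * Real.log 2 := by
        rw [show (4 : ℝ) = 2 ^ 2 by norm_num, Real.log_pow]
        norm_num
      linarith
    have h6 := h4 false
    have h7 := h4 true
    linarith
  linarith

/-- one superblock -/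
theorem super_block {Q : ℕ} {δ u₀ : ℝ} (hs : Scale Q δ u₀) (hδ1 : δ ≤ 1) {U V CL Lam : ℝ} (hU : u₀ ≤ U)
    (hCL : 0 ≤ CL) (hLam : 0 < Lam) (hV : 2 * (CL + 2) ≤ V) (ρ : (ZMod Q)ˣ) {T : Finset (ℕ × Bool)}
    (hT : T ⊆ BL u₀ U) (hE : En hh (gg Q) δ T ≤ Lam * δ / (Q.totient * U))
    (hL : ∑ ω ∈ T, |hh ω| ≤ CL * U) :
    Ew xx (BL U (4 * V * U)) (fun T' => ind (¬ Suc hh (gg Q) δ ρ (T ∪ T'))) ≤
      1 - (1 - Real.exp (-0.69)) * (1 - Real.exp (-(1 / (128 * V * Lam)))) := by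
  have hφ : (0 : ℝ) < Q.totient := by exact_mod_cast Nat.totient_pos.mpr hs.hQ
  have hδ := hs.hδ
  have hu2 := hs.hu
  have hUp : 0 < U := by linarith
  have hVp : 4 ≤ V := by linarith
  have hVp0 : 0 < V := by linarith
  have hVU : 2 * (CL + 2) * U ≤ V * U := mul_le_mul_of_nonneg_right hV hUp.le
  have hcu : 0 ≤ CL * U := by positivity
  have hmu : δ / (32 * Q.totient * (4 * V * U)) / (Lam * δ / (Q.totient * U)) = 1 / (128 * V * Lam) := by
    field_simp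
    ring
  rw [← hmu, BL_eq]
  refine succ_prob (x := xx) hh (gg Q) (δ := δ) (L := CL * U) (t₀ := U) (t₁ := 4 * V * U - δ)
    (μ := δ / (32 * Q.totient * (4 * V * U))) (lam := Lam * δ / (Q.totient * U)) (b := 0.69) hδ ρ
    (T₀ := T) (PA := BC U (4 * V * U) false) (PB := BC U (4 * V * U) true)
    (Mid := BC (V * U) (2 * V * U) true) BC_disj ?_ (fun ω _ => xx_nonneg ω) ?_ hL (by positivity) hE
    (by positivity) ?_ ?_ ?_ ?_
  · rw [← BL_eq]
    exact disjoint_of_subset_left hT BL_disj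
  · intro ω hω
    rw [← BL_eq] at hω
    exact (xx_le hω).trans (by norm_num)
  · intro t ht1 ht2 c
    have h1 := hs.low U (4 * V * U) t hU ht1 (by linarith) c
    have htp : 0 < t := by linarith
    refine le_trans ?_ (h1.trans (le_of_eq ?_))
    · refine div_le_div_of_nonneg_left hδ.le (by positivity) ?_
      exact mul_le_mul_of_nonneg_left (by linarith) (by positivity)
    · rw [sum_BC]
      refine sum_congr rfl fun p _ => ?_
      simp [xx, hh, gg]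
  · intro ω hω
    rw [mem_BC] at hω ⊢
    refine ⟨?_, hω.2⟩
    have hpp := (mem_PR.mp hω.1).1
    rw [mem_PR_log hpp]
    obtain ⟨h1, h2⟩ := (mem_PR_log hpp).mp hω.1
    constructor <;> nlinarith
  · intro ω hω
    rw [mem_BC] at hω
    have hpp := (mem_PR.mp hω.1).1
    obtain ⟨h1, h2⟩ := (mem_PR_log hpp).mp hω.1
    have h3 : -hh ω = Real.log ω.1 := by
      unfold hh
      rw [hω.2]
      simp
    rw [h3]
    constructor <;> nlinarith
  · rw [sum_BC]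
    have h1 := hs.dy (2 * V * U) (by nlinarith)
    have h2 : 2 * V * U / 2 = V * U := by ring
    rw [h2] at h1
    exact h1

/-- **the model theorem** -/
theorem model (k : ℕ) {η : ℝ} (hη : 0 < η) : ∃ C : ℝ, 2 ≤ C ∧ ∀ (Q : ℕ) (δ u₀ u₁ : ℝ), 1 ≤ Q → 0 < δ →
    δ ≤ 1 → C ≤ u₀ → (Q : ℝ) ^ 2 / δ ≤ u₀ ^ k → C * ((Q : ℝ) * u₀ / δ) ^ 7 * u₀ ≤ u₁ →
    ∀ ρ : (ZMod Q)ˣ, Ew xx (BL u₀ u₁) (fun T => ind (¬ Suc hh (gg Q) δ ρ T)) ≤ η := by
  obtain ⟨C0, hC0, hscale⟩ := scale_ok k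
  -- constants
  obtain ⟨η₁, hη₁⟩ : ∃ η₁ : ℝ, η₁ = η / 8 := ⟨_, rfl⟩
  have hη₁0 : 0 < η₁ := by rw [hη₁]; positivity
  obtain ⟨Lam, hLam⟩ : ∃ Lam : ℝ, Lam = 84 * (21 / η₁) ^ 2 := ⟨_, rfl⟩
  have hLam0 : 0 < Lam := by rw [hLam]; positivity
  obtain ⟨r, hr⟩ : ∃ r : ℕ, 2 * (4 / η₁ + 2) < (2 : ℝ) ^ r := pow_unbounded_of_one_lt _ (by norm_num)
  obtain ⟨V, hV⟩ : ∃ V : ℝ, V = (2 : ℝ) ^ r := ⟨_, rfl⟩
  have hV0 : 0 < V := by rw [hV]; positivity
  obtain ⟨c₀, hc₀⟩ : ∃ c₀ : ℝ, c₀ = (1 - Real.exp (-0.69)) * (1 - Real.exp (-(1 / (128 * V * Lam)))) :=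
    ⟨_, rfl⟩
  have he1 : 0 < Real.exp (-0.69 : ℝ) ∧ Real.exp (-0.69 : ℝ) < 1 :=
    ⟨Real.exp_pos _, by rw [Real.exp_lt_one_iff]; norm_num⟩
  have he2 : 0 < Real.exp (-(1 / (128 * V * Lam))) ∧ Real.exp (-(1 / (128 * V * Lam))) < 1 := by
    refine ⟨Real.exp_pos _, ?_⟩
    rw [Real.exp_lt_one_iff, neg_lt_zero]
    positivity
  have hc0 : 0 < c₀ := by
    rw [hc₀]
    exact mul_pos (by linarith [he1.2]) (by linarith [he2.2])
  have hc1 : c₀ < 1 := by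
    rw [hc₀]
    nlinarith [he1.1, he1.2, he2.1, he2.2]
  obtain ⟨m', hm'⟩ : ∃ m' : ℕ, (1 - c₀) ^ m' < η / 2 :=
    exists_pow_lt_of_lt_one (by positivity) (by linarith)
  obtain ⟨m, hm⟩ : ∃ m : ℕ, m = m' + 1 := ⟨_, rfl⟩
  have hm1 : 1 ≤ m := by omega
  have hmη : (1 - c₀) ^ m ≤ η / 2 := by
    rw [hm, pow_succ]
    have h1 : 0 ≤ (1 - c₀) ^ m' := pow_nonneg (by linarith) _
    nlinarith
  refine ⟨max C0 (128 * 2 ^ ((2 * m) * (r + 2))), le_trans hC0 (le_max_left _ _), ?_⟩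
  intro Q δ u₀ u₁ hQ hδ hδ1 hu hk hu₁ ρ
  have hs := hscale Q δ u₀ hQ hδ hδ1 ((le_max_left _ _).trans hu) hk
  have hu2 := hs.hu
  have hu0 : 0 < u₀ := by linarith
  have hφ : (0 : ℝ) < Q.totient := by exact_mod_cast Nat.totient_pos.mpr hQ
  have hφQ : (Q.totient : ℝ) ≤ Q := by exact_mod_cast Nat.totient_le Q
  have hQ1 : (1 : ℝ) ≤ Q := by exact_mod_cast hQ
  obtain ⟨M, hM⟩ : ∃ M : ℝ, M = (Q : ℝ) * u₀ / δ := ⟨_, rfl⟩
  have hM1 : 1 ≤ M := by
    rw [hM, one_le_div hδ]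
    nlinarith
  obtain ⟨t', ht1, ht2⟩ := exists_nat_pow_near hM1 (by norm_num : (1 : ℝ) < 2)
  obtain ⟨n₁, hn₁⟩ : ∃ n₁ : ℕ, n₁ = 7 * (t' + 1) := ⟨_, rfl⟩
  have hth := th_pos
  have hn1 : (2 : ℝ) ^ n₁ ≤ 128 * M ^ 7 := by
    have h1 : (2 : ℝ) ^ n₁ = (2 * 2 ^ t') ^ 7 := by
      rw [hn₁, ← pow_succ', ← pow_mul, mul_comm]
    rw [h1]
    calc (2 * (2 : ℝ) ^ t') ^ 7 ≤ (2 * M) ^ 7 := pow_le_pow_left₀ (by positivity) (by linarith) 7
      _ = 128 * M ^ 7 := by ring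
  have hq1 : 2 * th ^ 2 ≤ 1 := by
    by_contra hcon
    push Not at hcon
    have h1 : (1 : ℝ) ≤ (2 * th ^ 2) ^ 7 := one_le_pow₀ hcon.le
    have h2 := two_th_sq
    linarith
  have hsmall : ∀ n, n₁ ≤ n → th ^ n ≤ Real.sqrt (84 * δ / (Q.totient * (2 ^ n * u₀))) := by
    intro n hn
    apply Real.le_sqrt_of_sq_le
    have h1 : (2 * th ^ 2) ^ n ≤ 1 / M := by
      calc (2 * th ^ 2) ^ n ≤ (2 * th ^ 2) ^ n₁ := pow_le_pow_of_le_one (by positivity) hq1 hn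
        _ = ((2 * th ^ 2) ^ 7) ^ (t' + 1) := by rw [hn₁, pow_mul]
        _ ≤ (1 / 2) ^ (t' + 1) := pow_le_pow_left₀ (by positivity) two_th_sq _
        _ = 1 / 2 ^ (t' + 1) := by rw [one_div_pow]
        _ ≤ 1 / M := one_div_le_one_div_of_le (by linarith) ht2.le
    rw [le_div_iff₀ (by positivity)]
    have h2 : (th ^ n) ^ 2 * (Q.totient * (2 ^ n * u₀)) = (2 * th ^ 2) ^ n * (Q.totient * u₀) := by
      rw [mul_pow, ← pow_mul, ← pow_mul, mul_comm n 2]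
      ring
    rw [h2]
    calc (2 * th ^ 2) ^ n * (Q.totient * u₀) ≤ 1 / M * (Q * u₀) := by
          refine mul_le_mul h1 (mul_le_mul_of_nonneg_right hφQ hu0.le) (by positivity) (by positivity)
      _ = δ := by
          rw [hM]
          field_simp
      _ ≤ 84 * δ := by linarith
  -- the blocks
  obtain ⟨U, hU⟩ : ∃ U : ℕ → ℝ, U = fun j => 2 ^ (n₁ + j * (r + 2)) * u₀ := ⟨_, rfl⟩
  have hU0 : ∀ j, u₀ ≤ U j := by
    intro j
    rw [hU]
    have : (1 : ℝ) ≤ 2 ^ (n₁ + j * (r + 2)) := one_le_pow₀ (by norm_num)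
    dsimp only
    nlinarith
  have hUs : ∀ j, U (j + 1) = 4 * V * U j := by
    intro j
    rw [hU, hV]
    dsimp only
    rw [add_mul, one_mul, ← add_assoc, pow_add _ (n₁ + j * (r + 2)) (r + 2), pow_add _ r 2]
    ring
  have hUm : ∀ j, U j ≤ U (j + 1) := by
    intro j
    rw [hUs]
    have h1 := hU0 j
    have h2 : 0 < 4 / η₁ := by positivity
    rw [← hV] at hr
    nlinarith
  have hUlast : U (2 * m) ≤ u₁ := by
    rw [hU]
    dsimp only
    rw [pow_add]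
    have h1 : (128 : ℝ) * 2 ^ ((2 * m) * (r + 2)) ≤ max C0 (128 * 2 ^ ((2 * m) * (r + 2))) := le_max_right _ _
    rw [← hM] at hu₁
    refine le_trans ?_ hu₁
    refine mul_le_mul_of_nonneg_right ?_ hu0.le
    calc (2 : ℝ) ^ n₁ * 2 ^ (2 * m * (r + 2)) ≤ (128 * M ^ 7) * 2 ^ (2 * m * (r + 2)) :=
          mul_le_mul_of_nonneg_right hn1 (by positivity)
      _ = (128 * 2 ^ (2 * m * (r + 2))) * M ^ 7 := by ring
      _ ≤ _ := mul_le_mul_of_nonneg_right h1 (by positivity)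
  have hmain : Ew xx (BL u₀ (U (2 * m))) (fun T => ind (¬ Suc hh (gg Q) δ ρ T)) ≤ η := by
    have hit := iter (x := xx) hh (gg Q) δ ρ (fun j => BL u₀ (U j)) (fun j => BL (U j) (U (j + 1))) m hm1
      (fun j _ => BL_union (hU0 j) (hUm j)) (fun j _ => BL_disj) (fun ω _ => xx_nonneg ω)
      (fun ω hω => (xx_le hω).trans (by norm_num))
      (fun j T => En hh (gg Q) δ T ≤ Lam * δ / (Q.totient * U j) ∧ ∑ ω ∈ T, |hh ω| ≤ 4 / η₁ * U j)
      (η := 2 * η₁) hc0 hc1 ?_ ?_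
    · refine hit.trans ?_
      rw [hη₁]
      linarith
    · intro j _
      have h1 := good_prob hs hη₁0 (n₁ + j * (r + 2)) (hsmall _ (by omega))
      rw [← hLam] at h1
      have h2 : (2 : ℝ) ^ (n₁ + j * (r + 2)) * u₀ = U j := by rw [hU]
      rw [h2] at h1
      exact h1
    · intro j _ T hT hG
      rw [hUs, hc₀]
      refine super_block hs hδ1 (hU0 j) (CL := 4 / η₁) (by positivity) hLam0 ?_ ρ hT hG.1 hG.2
      rw [hV]
      exact hr.le
  -- the marginal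
  have hsub : BL u₀ (U (2 * m)) ⊆ BL u₀ u₁ := by
    rw [BL_union (hU0 _) hUlast]
    exact subset_union_left
  calc Ew xx (BL u₀ u₁) (fun T => ind (¬ Suc hh (gg Q) δ ρ T)) ≤
      Ew xx (BL u₀ u₁) (fun T => ind (¬ Suc hh (gg Q) δ ρ (T ∩ BL u₀ (U (2 * m))))) := by
        refine Ew_mono (fun ω _ => xx_nonneg ω) (fun ω hω => (xx_le hω).trans (by norm_num)) fun T _ => ?_
        refine ind_mono fun h1 h2 => h1 ?_
        exact Suc_mono _ _ _ _ inter_subset_left h2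
    _ = Ew xx (BL u₀ (U (2 * m))) (fun T => ind (¬ Suc hh (gg Q) δ ρ T)) :=
        Ew_marg xx hsub (fun T => ind (¬ Suc hh (gg Q) δ ρ T))
    _ ≤ η := hmain

end Pool.Agent.Lib.OW
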