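import Pool.Agent.Lib.MP_7b7e48_nt.OW.MTP

/-!
# Mertens' theorems for the primes `s < log p ≤ t`
-/

set_option autoImplicit false

open Finset Filter Topology

namespace Pool.Agent.Lib.OW

/-- `∑ log p / (p + 1) ≤ t + log 4` -/
theorem sum_log_PR {s t : ℝ} (ht : 0 ≤ t) :
    ∑ p ∈ PR s t, 1 / ((p : ℝ) + 1) * Real.log p ≤ t + Real.log 4 := by
  have h1 : 1 ≤ ⌊Real.exp t⌋₊ := by
    rw [Nat.one_le_floor_iff]
    exact Real.one_le_exp ht
  have h2 := Pool.Agent.Lib.Sieve.sum_log_div_le ⌊Real.exp t⌋₊ h1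
  have h3 : Real.log (⌊Real.exp t⌋₊ : ℝ) ≤ t := by
    rw [Real.log_le_iff_le_exp (by exact_mod_cast h1)]
    exact Nat.floor_le (Real.exp_pos t).le
  have h4 : ∑ p ∈ PR s t, 1 / ((p : ℝ) + 1) * Real.log p ≤
      ∑ p ∈ (Finset.Icc 1 ⌊Real.exp t⌋₊).filter Nat.Prime, Real.log p / p := by
    calc ∑ p ∈ PR s t, 1 / ((p : ℝ) + 1) * Real.log p ≤ ∑ p ∈ PR s t, Real.log p / p := by
          refine sum_le_sum fun p hp => ?_
          have hpp := (mem_PR.mp hp).1
          have hp0 : (0 : ℝ) < p := by exact_mod_cast hpp.pos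
          have hl : 0 ≤ Real.log p := Real.log_nonneg (by exact_mod_cast hpp.one_lt.le)
          have h5 : 1 / ((p : ℝ) + 1) * Real.log p ≤ 1 / (p : ℝ) * Real.log p :=
            mul_le_mul_of_nonneg_right (one_div_le_one_div_of_le hp0 (by linarith)) hl
          rwa [one_div_mul_eq_div (p : ℝ)] at h5
      _ ≤ _ := by
          refine sum_le_sum_of_subset_of_nonneg ?_ fun p hp _ => ?_
          · intro p hp
            unfold PR at hp
            rw [mem_filter, mem_Ioc] at hp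
            rw [mem_filter, mem_Icc]
            exact ⟨⟨hp.2.one_lt.le, hp.1.2⟩, hp.2⟩
          · have hl : 0 ≤ Real.log p := by
              rcases Nat.eq_zero_or_pos p with h | h
              · rw [h]; simp
              · exact Real.log_nonneg (by exact_mod_cast h)
            positivity
  linarith

/-- Mertens' third theorem, real parameter -/
theorem mertens_real : Tendsto (fun t : ℝ => t *
    ∏ p ∈ (range (⌊Real.exp t⌋₊ + 1)).filter Nat.Prime, (1 - 1 / (p : ℝ))) atTop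
    (𝓝 (Real.exp (-Real.eulerMascheroniConstant))) := by
  have h1 : Tendsto (fun t : ℝ => ⌊Real.exp t⌋₊) atTop atTop :=
    tendsto_nat_floor_atTop.comp Real.tendsto_exp_atTop
  have h2 := Pool.Agent.Lib.Sieve.Mertens3.mertens_three.comp h1
  have h3 : Tendsto (fun t : ℝ => t / Real.log (⌊Real.exp t⌋₊ : ℝ)) atTop (𝓝 1) := by
    have h4 : Tendsto (fun t : ℝ => Real.log (⌊Real.exp t⌋₊ : ℝ) - t) atTop (𝓝 0) := by
      have h5 : Tendsto (fun t : ℝ => ((⌊Real.exp t⌋₊ : ℝ)) / Real.exp t) atTop (𝓝 1) :=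
        tendsto_nat_floor_div_atTop.comp Real.tendsto_exp_atTop
      have h6 := (Real.continuousAt_log one_ne_zero).tendsto.comp h5
      rw [Real.log_one] at h6
      refine h6.congr' ?_
      filter_upwards [eventually_ge_atTop (0 : ℝ)] with t ht
      have h7 : 1 ≤ ⌊Real.exp t⌋₊ := by
        rw [Nat.one_le_floor_iff]
        exact Real.one_le_exp ht
      have h8 : (0 : ℝ) < ⌊Real.exp t⌋₊ := by exact_mod_cast h7
      simp only [Function.comp]
      rw [Real.log_div h8.ne' (Real.exp_pos t).ne', Real.log_exp]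
    have h5 : Tendsto (fun t : ℝ => (Real.log (⌊Real.exp t⌋₊ : ℝ)) / t) atTop (𝓝 1) := by
      have h6 := (h4.mul tendsto_inv_atTop_zero).add_const 1
      rw [mul_zero, zero_add] at h6
      refine h6.congr' ?_
      filter_upwards [eventually_gt_atTop (0 : ℝ)] with t ht
      field_simp
      ring
    have h6 := h5.inv₀ one_ne_zero
    rw [inv_one] at h6
    refine h6.congr fun t => ?_
    rw [inv_div]
  have h4 := h3.mul h2
  rw [one_mul] at h4
  refine h4.congr' ?_
  filter_upwards [eventually_ge_atTop (1 : ℝ)] with t ht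
  have h7 : 2 ≤ ⌊Real.exp t⌋₊ := by
    rw [Nat.le_floor_iff (Real.exp_pos t).le]
    have := Real.add_one_le_exp t
    push_cast
    linarith
  have h8 : (0 : ℝ) < Real.log (⌊Real.exp t⌋₊ : ℝ) := Real.log_pos (by exact_mod_cast h7)
  simp only [Function.comp]
  field_simp

/-- the mass of a dyadic block -/
theorem dyadic_mass : ∃ u₀ : ℝ, 1 ≤ u₀ ∧ ∀ u : ℝ, u₀ ≤ u → 0.69 ≤ ∑ p ∈ PR (u / 2) u, 1 / ((p : ℝ) + 1) := by
  have h1 := mertens_real
  have h2 : Tendsto (fun u : ℝ => u / 2) atTop atTop := tendsto_id.atTop_div_const (by norm_num)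
  have h3 := h1.comp h2
  have hne : Real.exp (-Real.eulerMascheroniConstant) ≠ 0 := (Real.exp_pos _).ne'
  have h4 := (h1.div h3 hne).mul_const (1 / 2)
  rw [div_self hne, one_mul] at h4
  have h5 : Tendsto (fun u : ℝ => ∏ p ∈ PR (u / 2) u, (1 - 1 / (p : ℝ))) atTop (𝓝 (1 / 2)) := by
    refine h4.congr' ?_
    filter_upwards [eventually_gt_atTop (0 : ℝ)] with u hu
    have hfl : ⌊Real.exp (u / 2)⌋₊ ≤ ⌊Real.exp u⌋₊ :=
      Nat.floor_le_floor (Real.exp_le_exp.mpr (by linarith))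
    have hsplit : ∏ p ∈ (range (⌊Real.exp u⌋₊ + 1)).filter Nat.Prime, (1 - 1 / (p : ℝ)) =
        (∏ p ∈ (range (⌊Real.exp (u / 2)⌋₊ + 1)).filter Nat.Prime, (1 - 1 / (p : ℝ))) *
        ∏ p ∈ PR (u / 2) u, (1 - 1 / (p : ℝ)) := by
      rw [← prod_union]
      · refine prod_congr ?_ fun _ _ => rfl
        ext p
        unfold PR
        simp only [mem_union, mem_filter, mem_range, mem_Ioc]
        constructor
        · rintro ⟨h6, h7⟩
          rcases Nat.lt_or_ge ⌊Real.exp (u / 2)⌋₊ p with h8 | h8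
          · exact Or.inr ⟨⟨h8, by omega⟩, h7⟩
          · exact Or.inl ⟨by omega, h7⟩
        · rintro (⟨h6, h7⟩ | ⟨⟨h6, h7⟩, h8⟩)
          · exact ⟨by omega, h7⟩
          · exact ⟨by omega, h8⟩
      · rw [disjoint_left]
        intro p h6 h7
        unfold PR at h7
        simp only [mem_filter, mem_range, mem_Ioc] at h6 h7
        omega
    have hpos : (0 : ℝ) < ∏ p ∈ (range (⌊Real.exp (u / 2)⌋₊ + 1)).filter Nat.Prime, (1 - 1 / (p : ℝ)) := by
      refine prod_pos fun p hp => ?_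
      have h6 := (mem_filter.mp hp).2
      have h7 : (1 : ℝ) < p := by exact_mod_cast h6.one_lt
      rw [sub_pos, div_lt_one (by linarith)]
      exact h7
    show (u * ∏ p ∈ (range (⌊Real.exp u⌋₊ + 1)).filter Nat.Prime, (1 - 1 / (p : ℝ))) /
      (u / 2 * ∏ p ∈ (range (⌊Real.exp (u / 2)⌋₊ + 1)).filter Nat.Prime, (1 - 1 / (p : ℝ))) * (1 / 2) =
      ∏ p ∈ PR (u / 2) u, (1 - 1 / (p : ℝ))
    rw [hsplit]
    field_simp
  have h6 : ∀ᶠ u : ℝ in atTop, ∏ p ∈ PR (u / 2) u, (1 - 1 / (p : ℝ)) < 0.5008 :=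
    h5.eventually (gt_mem_nhds (by norm_num))
  obtain ⟨u₁, hu₁⟩ := eventually_atTop.mp h6
  refine ⟨max u₁ 20, by norm_num, fun u hu => ?_⟩
  have hu1 : u₁ ≤ u := (le_max_left _ _).trans hu
  have hu2 : 20 ≤ u := (le_max_right _ _).trans hu
  have h7 := hu₁ u hu1
  have hpge : ∀ p ∈ PR (u / 2) u, (1000 : ℝ) < p := by
    intro p hp
    have h8 := (mem_PR.mp hp).2.1
    have h9 : (1000 : ℝ) ≤ Real.exp (u / 2) := by
      have h10 : Real.exp 10 ≤ Real.exp (u / 2) := Real.exp_le_exp.mpr (by linarith)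
      have h11 : (1000 : ℝ) ≤ Real.exp 10 := by
        have h12 : Real.exp 10 = Real.exp 1 ^ 10 := by
          rw [← Real.exp_nat_mul]
          norm_num
        rw [h12]
        have h13 := Real.exp_one_gt_d9
        have h14 : (2.7 : ℝ) ^ 10 ≤ Real.exp 1 ^ 10 := pow_le_pow_left₀ (by norm_num) (by linarith) 10
        refine le_trans ?_ h14
        norm_num
      linarith
    linarith
  have h8 : Real.exp (-∑ p ∈ PR (u / 2) u, 1 / ((p : ℝ) - 1)) ≤ ∏ p ∈ PR (u / 2) u, (1 - 1 / (p : ℝ)) := by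
    rw [← sum_neg_distrib, Real.exp_sum]
    refine prod_le_prod (fun p _ => (Real.exp_pos _).le) fun p hp => ?_
    have h9 := hpge p hp
    have h10 : 0 < (p : ℝ) - 1 := by linarith
    rw [Real.exp_neg]
    rw [inv_le_comm₀ (Real.exp_pos _) (by rw [sub_pos, div_lt_one (by linarith)]; linarith)]
    have h11 := Real.add_one_le_exp (1 / ((p : ℝ) - 1))
    refine le_trans (le_of_eq ?_) h11
    have h12 : (p : ℝ) ≠ 0 := by linarith
    have h13 : (1 : ℝ) - 1 / p = (p - 1) / p := by field_simp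
    rw [h13]
    field_simp
    ring
  have h9 : Real.exp (-∑ p ∈ PR (u / 2) u, 1 / ((p : ℝ) - 1)) ≤ Real.exp (-0.6915) := by
    refine (h8.trans h7.le).trans ?_
    -- `0.5008 ≤ exp (-0.6915)`
    have h10 : Real.exp (-0.6915) = 1 / 2 * Real.exp (Real.log 2 - 0.6915) := by
      rw [show (-0.6915 : ℝ) = -Real.log 2 + (Real.log 2 - 0.6915) by ring, Real.exp_add, Real.exp_neg,
        Real.exp_log (by norm_num)]
      ring_nf
    rw [h10]
    have h11 := Real.log_two_gt_d9
    have h12 := Real.add_one_le_exp (Real.log 2 - 0.6915)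
    linarith
  rw [Real.exp_le_exp, neg_le_neg_iff] at h9
  have h10 : ∑ p ∈ PR (u / 2) u, 0.998 * (1 / ((p : ℝ) - 1)) ≤ ∑ p ∈ PR (u / 2) u, 1 / ((p : ℝ) + 1) := by
    refine sum_le_sum fun p hp => ?_
    have h11 := hpge p hp
    rw [mul_one_div, div_le_div_iff₀ (by linarith) (by linarith)]
    linarith
  rw [← mul_sum] at h10
  linarith

end Pool.Agent.Lib.OW
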