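import Pool.Agent.Lib.MP_7b7e48_nt.RG.Defs
import Pool.Agent.Lib.MP_45349e_nt.LS.LamB

/-!
# Module PA: the statement of the theorem and the reduction to `N = N_0 P`

`reps w N s t` = set of the `a` with `N = a + b`, `a, b > 0`, `lam a = s`, `lam b = t`, no prime factor `≤ w` in `a b`.
`PropA`: `card ≥ N^(1-ε)` if all prime factors `p > w` of the even number `N` satisfy `p² > N`.
`ThmOW`: `card ≥ R` for all large even `N`, and `card ≥ p^(1-ε)` for every large prime factor `p` of `N`.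
PROOF of the reduction. If `g ∣ N` has no prime factor `≤ w`, then `(a, b) ↦ (g a, g b)` gives `card (reps w N s t) ≥ card (reps w (N/g) (s λ(g)) (t λ(g)))`.
-/

open Finset
open Pool.Agent.Lib.MP_45349e_nt.LS (lam lam_mul lam_prime abs_lam)

namespace Pool.Agent.Lib.OW

open Classical in
/-- the representations of `N` -/
noncomputable def reps (w N : ℕ) (s t : ℝ) : Finset ℕ :=
  (Finset.Ico 1 N).filter fun a => lam a = s ∧ lam (N - a) = t ∧ ∀ p : ℕ, p.Prime → p ∣ a * (N - a) → w < p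

/-- the case `N = N_0 P` -/
def PropA : Prop := ∀ w : ℕ, 3 ≤ w → ∀ ε : ℝ, 0 < ε → ∃ N1 : ℕ, ∀ N : ℕ, N1 ≤ N → Even N →
  (∀ p : ℕ, p.Prime → p ∣ N → w < p → N < p * p) → ∀ s t : ℝ, (s = 1 ∨ s = -1) → (t = 1 ∨ t = -1) →
  (N : ℝ) ^ (1 - ε) ≤ ((reps w N s t).card : ℝ)

/-- the theorem -/
def ThmOW : Prop := ∀ (w R : ℕ) (ε : ℝ), 0 < ε → ∃ N0 : ℕ, ∀ N : ℕ, N0 ≤ N → Even N →
  ∀ s t : ℝ, (s = 1 ∨ s = -1) → (t = 1 ∨ t = -1) →
  R ≤ (reps w N s t).card ∧ ∀ p : ℕ, p.Prime → p ∣ N → N0 ≤ p → (p : ℝ) ^ (1 - ε) ≤ ((reps w N s t).card : ℝ)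

theorem reps_mono {w w' : ℕ} (h : w ≤ w') (N : ℕ) (s t : ℝ) : reps w' N s t ⊆ reps w N s t := by
  intro a ha
  unfold reps at ha ⊢
  simp only [Finset.mem_filter] at ha ⊢
  exact ⟨ha.1, ha.2.1, ha.2.2.1, fun p hp hd => lt_of_le_of_lt h (ha.2.2.2 p hp hd)⟩

private theorem lam_pm (n : ℕ) : lam n = 1 ∨ lam n = -1 := by
  have h := abs_lam n
  rcases abs_cases (lam n) with h1 | h1
  · left; linarith
  · right; linarith

private theorem lam_sq (n : ℕ) : lam n * lam n = 1 := by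
  rcases lam_pm n with h | h <;> rw [h] <;> norm_num

theorem reps_mul {w g n : ℕ} (hg0 : 0 < g) (hg : ∀ p : ℕ, p.Prime → p ∣ g → w < p) (s t : ℝ) :
    (reps w n (s * lam g) (t * lam g)).card ≤ (reps w (g * n) s t).card := by
  refine Finset.card_le_card_of_injOn (fun a => g * a) ?_ ?_
  · intro a ha
    have ha' : a ∈ reps w n (s * lam g) (t * lam g) := ha
    unfold reps at ha'
    simp only [Finset.mem_filter, Finset.mem_Ico] at ha'
    obtain ⟨⟨h1, h2⟩, h3, h4, h5⟩ := ha'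
    have hsub : g * n - g * a = g * (n - a) := (Nat.mul_sub g n a).symm
    show g * a ∈ reps w (g * n) s t
    unfold reps
    simp only [Finset.mem_filter, Finset.mem_Ico]
    refine ⟨⟨Nat.mul_pos hg0 h1, (Nat.mul_lt_mul_left hg0).2 h2⟩, ?_, ?_, ?_⟩
    · rw [lam_mul _ _ hg0.ne' (by omega), h3]
      have := lam_sq g
      calc lam g * (s * lam g) = s * (lam g * lam g) := by ring
        _ = s := by rw [this, mul_one]
    · rw [hsub, lam_mul _ _ hg0.ne' (by omega), h4]
      have := lam_sq g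
      calc lam g * (t * lam g) = t * (lam g * lam g) := by ring
        _ = t := by rw [this, mul_one]
    · intro p hp hd
      rw [hsub] at hd
      rcases (Nat.Prime.dvd_mul hp).1 hd with h | h
      · rcases (Nat.Prime.dvd_mul hp).1 h with h | h
        · exact hg p hp h
        · exact h5 p hp (h.mul_right _)
      · rcases (Nat.Prime.dvd_mul hp).1 h with h | h
        · exact hg p hp h
        · exact h5 p hp (h.mul_left _)
  · intro a _ b _ hab
    exact Nat.eq_of_mul_eq_mul_left hg0 hab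

/-- splitting off the part composed of primes `> w` -/
theorem smooth_split (w N : ℕ) (hN : N ≠ 0) : ∃ A M : ℕ, N = M * A ∧ 0 < M ∧ 0 < A ∧
    (∀ p : ℕ, p.Prime → p ∣ A → p ≤ w) ∧ (∀ p : ℕ, p.Prime → p ∣ M → w < p) := by
  classical
  refine ⟨∏ p ∈ N.primeFactors.filter (fun p => p ≤ w), p ^ N.factorization p,
    ∏ p ∈ N.primeFactors.filter (fun p => ¬ p ≤ w), p ^ N.factorization p, ?_, ?_, ?_, ?_, ?_⟩
  · rw [mul_comm, Finset.prod_filter_mul_prod_filter_not]
    exact (Nat.factorization_prod_pow_eq_self hN).symm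
  · exact Finset.prod_pos fun p hp => pow_pos (Nat.prime_of_mem_primeFactors (Finset.mem_filter.1 hp).1).pos _
  · exact Finset.prod_pos fun p hp => pow_pos (Nat.prime_of_mem_primeFactors (Finset.mem_filter.1 hp).1).pos _
  · intro p hp hd
    obtain ⟨q, hq, hd2⟩ := (Prime.dvd_finset_prod_iff hp.prime _).1 hd
    rw [Finset.mem_filter] at hq
    have h := (Nat.prime_dvd_prime_iff_eq hp (Nat.prime_of_mem_primeFactors hq.1)).1 (hp.dvd_of_dvd_pow hd2)
    rw [h]; exact hq.2
  · intro p hp hd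
    obtain ⟨q, hq, hd2⟩ := (Prime.dvd_finset_prod_iff hp.prime _).1 hd
    rw [Finset.mem_filter] at hq
    have h := (Nat.prime_dvd_prime_iff_eq hp (Nat.prime_of_mem_primeFactors hq.1)).1 (hp.dvd_of_dvd_pow hd2)
    rw [h]; exact not_le.1 hq.2

private theorem pm_mul {s : ℝ} (hs : s = 1 ∨ s = -1) (g : ℕ) : s * lam g = 1 ∨ s * lam g = -1 := by
  rcases hs with h | h <;> rcases lam_pm g with h' | h' <;> rw [h, h'] <;> norm_num

theorem reduction (h : PropA) : ThmOW := by
  intro w R ε hε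
  set w1 := max w 3 with hw1
  set ε' := min ε (1 / 2) with hε'
  have hε0 : 0 < ε' := lt_min hε (by norm_num)
  have hε1 : ε' ≤ 1 / 2 := min_le_right _ _
  have hε2 : ε' ≤ ε := min_le_left _ _
  obtain ⟨N1, hN1⟩ := h w1 (le_max_right _ _) ε' hε0
  set N2 := max (max N1 (R ^ 2)) (max 4 w1) with hN2
  have h21 : N1 ≤ N2 := (le_max_left _ _).trans (le_max_left _ _)
  have h22 : R ^ 2 ≤ N2 := (le_max_right _ _).trans (le_max_left _ _)
  have h23 : 4 ≤ N2 := (le_max_left _ _).trans (le_max_right _ _)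
  have h24 : w1 ≤ N2 := (le_max_right _ _).trans (le_max_right _ _)
  obtain ⟨N3, hN3⟩ := h N2 (by omega) ε' hε0
  -- powers
  have hpow : ∀ n : ℕ, N2 ≤ n → (R : ℝ) ≤ (n : ℝ) ^ (1 - ε') := by
    intro n hn
    have hn1 : (1 : ℝ) ≤ n := by exact_mod_cast (by omega : 1 ≤ n)
    have h1 : ((R : ℝ)) ^ 2 ≤ n := by exact_mod_cast h22.trans hn
    calc (R : ℝ) = Real.sqrt ((R : ℝ) ^ 2) := (Real.sqrt_sq (Nat.cast_nonneg _)).symm
      _ ≤ Real.sqrt n := Real.sqrt_le_sqrt h1
      _ = (n : ℝ) ^ ((1 : ℝ) / 2) := Real.sqrt_eq_rpow _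
      _ ≤ (n : ℝ) ^ (1 - ε') := Real.rpow_le_rpow_of_exponent_le hn1 (by linarith)
  refine ⟨max N2 N3, ?_⟩
  intro N hN hev s t hs ht
  have hNN2 : N2 ≤ N := (le_max_left _ _).trans hN
  have hNN3 : N3 ≤ N := (le_max_right _ _).trans hN
  obtain ⟨A, M, hAM, hM0, hA0, hA, hM⟩ := smooth_split w1 N (by omega)
  have h2A : 2 ∣ A := by
    have h2 : 2 ∣ M * A := by rw [← hAM]; exact even_iff_two_dvd.1 hev
    rcases (Nat.Prime.dvd_mul Nat.prime_two).1 h2 with h3 | h3
    · have := hM 2 Nat.prime_two h3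
      have h4 : 3 ≤ w1 := le_max_right _ _
      omega
    · exact h3
  have hsub : (reps w1 N s t).card ≤ (reps w N s t).card := Finset.card_le_card (reps_mono (le_max_left _ _) N s t)
  -- case A large
  have caseA : N2 ≤ A → (A : ℝ) ^ (1 - ε') ≤ ((reps w N s t).card : ℝ) := by
    intro hA2
    have h1 := hN1 A (h21.trans hA2) (even_iff_two_dvd.2 h2A) (fun p hp hd hw => absurd (hA p hp hd) (not_le.2 hw))
      (s * lam M) (t * lam M) (pm_mul hs M) (pm_mul ht M)
    refine h1.trans ?_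
    have h2 := reps_mul (n := A) hM0 hM s t
    rw [← hAM] at h2
    exact_mod_cast h2.trans hsub
  -- case of a large prime
  have caseP : ∀ p : ℕ, p.Prime → p ∣ N → N2 ≤ p → A < p → (p : ℝ) ^ (1 - ε') ≤ ((reps w N s t).card : ℝ) := by
    intro p hp hd hp2 hAp
    have hpM : p ∣ M := by
      rw [hAM] at hd
      rcases (Nat.Prime.dvd_mul hp).1 hd with h3 | h3
      · exact h3
      · exact absurd (Nat.le_of_dvd hA0 h3) (not_le.2 hAp)
    obtain ⟨M', rfl⟩ := hpM
    have hM'0 : 0 < M' := by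
      rcases Nat.eq_zero_or_pos M' with h0 | h0
      · rw [h0, mul_zero] at hM0; exact absurd hM0 (lt_irrefl _)
      · exact h0
    have hM' : ∀ q : ℕ, q.Prime → q ∣ M' → w1 < q := fun q hq hqd => hM q hq (hqd.mul_left _)
    have hN' : N = M' * (p * A) := by rw [hAM]; ring
    have hle : p ≤ p * A := Nat.le_mul_of_pos_right _ hA0
    have h1 := hN1 (p * A) (h21.trans (hp2.trans hle)) (even_iff_two_dvd.2 (h2A.mul_left _)) (by
      intro q hq hqd hwq
      rcases (Nat.Prime.dvd_mul hq).1 hqd with h3 | h3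
      · rw [(Nat.prime_dvd_prime_iff_eq hq hp).1 h3]
        exact (Nat.mul_lt_mul_left hp.pos).2 hAp
      · exact absurd (hA q hq h3) (not_le.2 hwq)) (s * lam M') (t * lam M') (pm_mul hs M') (pm_mul ht M')
    have h2 := reps_mul (n := p * A) hM'0 hM' s t
    rw [← hN'] at h2
    calc (p : ℝ) ^ (1 - ε') ≤ ((p * A : ℕ) : ℝ) ^ (1 - ε') :=
          Real.rpow_le_rpow (Nat.cast_nonneg _) (by exact_mod_cast hle) (by linarith)
      _ ≤ _ := h1
      _ ≤ _ := by exact_mod_cast h2.trans hsub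
  constructor
  · by_cases hA2 : N2 ≤ A
    · exact_mod_cast (hpow A hA2).trans (caseA hA2)
    · push Not at hA2
      by_cases hp : ∃ p : ℕ, p.Prime ∧ p ∣ N ∧ N2 ≤ p
      · obtain ⟨p, hp1, hp2, hp3⟩ := hp
        exact_mod_cast (hpow p hp3).trans (caseP p hp1 hp2 hp3 (by omega))
      · push Not at hp
        have h1 := hN3 N hNN3 hev (fun p hp1 hp2 hp3 => absurd (hp p hp1 hp2) (by omega)) s t hs ht
        have h2 : (reps N2 N s t).card ≤ (reps w N s t).card :=
          Finset.card_le_card (reps_mono ((le_max_left w 3).trans h24) N s t)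
        have h3 := (hpow N hNN2).trans h1
        have h4 : R ≤ (reps N2 N s t).card := by exact_mod_cast h3
        exact h4.trans h2
  · intro p hp hd hp0
    have hp2 : N2 ≤ p := (le_max_left _ _).trans hp0
    have hp1 : (1 : ℝ) ≤ p := by exact_mod_cast hp.one_lt.le
    refine (Real.rpow_le_rpow_of_exponent_le hp1 (by linarith : 1 - ε ≤ 1 - ε')).trans ?_
    by_cases hAp : A < p
    · exact caseP p hp hd hp2 hAp
    · push Not at hAp
      refine (Real.rpow_le_rpow (Nat.cast_nonneg _) ?_ (by linarith)).trans (caseA (hp2.trans hAp))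
      exact_mod_cast hAp

end Pool.Agent.Lib.OW
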