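import Pool.Agent.Lib.MP_7b7e48_nt.OW.ODefs
import Pool.Agent.Lib.MP_7b7e48_nt.OW.PA

/-!
# Module PA2: configurations exist; from the form with `Cfg` to `PropA`; the set `EE`
-/

open Finset
open Pool.Agent.Lib.MP_45349e_nt.LS (lam lam_mul lam_prime abs_lam)

namespace Pool.Agent.Lib.OW

open Classical in
/-- the representations of `N` by two numbers coprime to `W` -/
noncomputable def repW (W N : ℕ) (s t : ℝ) : Finset ℕ :=
  (Finset.range N).filter fun n => 0 < n ∧ n.Coprime W ∧ (N - n).Coprime W ∧ lam n = s ∧ lam (N - n) = t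

theorem exists_class {W N : ℕ} (hW : Squarefree W) (hWN : W ≤ N) (hW1 : 1 < W) (hev : Even N) :
    ∃ a : ℕ, a < W ∧ a.Coprime W ∧ (N - a).Coprime W := by
  have hW0 : 0 < W := by omega
  obtain ⟨g, hg⟩ : ∃ g : ℕ, g = Nat.gcd W (N - 1) := ⟨_, rfl⟩
  have hgW : g ∣ W := by rw [hg]; exact Nat.gcd_dvd_left _ _
  have hgN : g ∣ N - 1 := by rw [hg]; exact Nat.gcd_dvd_right _ _
  obtain ⟨h, hh⟩ := hgW
  have hg0 : 0 < g := by
    rcases Nat.eq_zero_or_pos g with h0 | h0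
    · rw [h0, zero_mul] at hh; omega
    · exact h0
  have hh0 : 0 < h := by
    rcases Nat.eq_zero_or_pos h with h0 | h0
    · rw [h0, mul_zero] at hh; omega
    · exact h0
  have hco : h.Coprime g := by
    rw [hh, Nat.squarefree_mul_iff] at hW
    exact hW.1.symm
  obtain ⟨k, hk1, hk2⟩ := Nat.chineseRemainder hco 1 (g - 1)
  -- reduce modulo W
  have hkk1 : k % W ≡ 1 [MOD h] := by
    have h1 : k % W ≡ k [MOD W] := Nat.mod_modEq k W
    exact (h1.of_dvd (by rw [hh]; exact dvd_mul_left _ _)).trans hk1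
  have hkk2 : k % W ≡ g - 1 [MOD g] := by
    have h1 : k % W ≡ k [MOD W] := Nat.mod_modEq k W
    exact (h1.of_dvd (by rw [hh]; exact dvd_mul_right _ _)).trans hk2
  obtain ⟨a, ha⟩ : ∃ a : ℕ, a = k % W := ⟨_, rfl⟩
  rw [← ha] at hkk1 hkk2
  have haW : a < W := by rw [ha]; exact Nat.mod_lt _ hW0
  have hplus : ∀ r : ℕ, r ∣ g → r ∣ a + 1 := by
    intro r hr
    have h1 : a + 1 ≡ g - 1 + 1 [MOD g] := hkk2.add_right 1
    rw [Nat.sub_add_cancel hg0] at h1
    have h2 : g ∣ a + 1 := (Nat.modEq_zero_iff_dvd).1 (h1.trans (by rw [Nat.modEq_zero_iff_dvd]))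
    exact hr.trans h2
  have hone : ∀ r : ℕ, r ∣ h → a ≡ 1 [MOD r] := fun r hr => hkk1.of_dvd hr
  refine ⟨a, haW, ?_, ?_⟩
  · rw [Nat.coprime_iff_gcd_eq_one]
    by_contra hne
    obtain ⟨r, hr, hrd⟩ := Nat.exists_prime_and_dvd hne
    have hra : r ∣ a := hrd.trans (Nat.gcd_dvd_left _ _)
    have hrW : r ∣ W := hrd.trans (Nat.gcd_dvd_right _ _)
    rw [hh] at hrW
    rcases (Nat.Prime.dvd_mul hr).1 hrW with h1 | h1
    · have h2 := (Nat.dvd_add_right hra).1 (hplus r h1)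
      exact hr.one_lt.ne' (Nat.dvd_one.1 h2)
    · have h2 : (0 : ℕ) ≡ 1 [MOD r] := ((Nat.modEq_zero_iff_dvd.2 hra).symm).trans (hone r h1)
      have h3 := (Nat.modEq_iff_dvd' (by omega : (0 : ℕ) ≤ 1)).1 h2
      exact hr.one_lt.ne' (Nat.dvd_one.1 (by simpa using h3))
  · rw [Nat.coprime_iff_gcd_eq_one]
    by_contra hne
    obtain ⟨r, hr, hrd⟩ := Nat.exists_prime_and_dvd hne
    have hra : r ∣ N - a := hrd.trans (Nat.gcd_dvd_left _ _)
    have hrW : r ∣ W := hrd.trans (Nat.gcd_dvd_right _ _)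
    rw [hh] at hrW
    rcases (Nat.Prime.dvd_mul hr).1 hrW with h1 | h1
    · have h2 : r ∣ (N - a) + (a + 1) := (Nat.dvd_add_right hra).2 (hplus r h1)
      have h3 : (N - a) + (a + 1) = (N - 1) + 2 := by omega
      rw [h3] at h2
      have h4 : r ∣ 2 := (Nat.dvd_add_right (h1.trans hgN)).1 h2
      have h5 : r = 2 := (Nat.prime_dvd_prime_iff_eq hr Nat.prime_two).1 h4
      have h6 : 2 ∣ N - 1 := by rw [← h5]; exact h1.trans hgN
      obtain ⟨m, hm⟩ := hev
      omega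
    · have h2 : N - a + a ≡ 0 + 1 [MOD r] := (Nat.modEq_zero_iff_dvd.2 hra).add (hone r h1)
      rw [Nat.sub_add_cancel (by omega), zero_add] at h2
      have h3 : r ∣ N - 1 := (Nat.modEq_iff_dvd' (by omega)).1 h2.symm
      have h4 : r ∣ g := by
        rw [hg]
        refine Nat.dvd_gcd ?_ h3
        rw [hh]
        exact h1.mul_left _
      have h5 : r ∣ Nat.gcd h g := Nat.dvd_gcd h1 h4
      rw [Nat.coprime_iff_gcd_eq_one.1 hco] at h5
      exact hr.one_lt.ne' (Nat.dvd_one.1 h5)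

theorem propA_of (core : ∀ W : ℕ, 1 ≤ W → ∀ ε : ℝ, 0 < ε → ∃ N0 : ℕ, ∀ N : ℕ, N0 ≤ N → ∀ a : ℕ, Cfg W N a →
    ∀ s t : ℝ, (s = 1 ∨ s = -1) → (t = 1 ∨ t = -1) → (N : ℝ) ^ (1 - ε) ≤ ((repW W N s t).card : ℝ)) : PropA := by
  classical
  intro w hw ε hε
  set W := ∏ p ∈ (Finset.range (w + 1)).filter Nat.Prime, p with hWdef
  have hpr : ∀ p ∈ (Finset.range (w + 1)).filter Nat.Prime, p.Prime := fun p hp => (Finset.mem_filter.1 hp).2
  have hW0 : 0 < W := Finset.prod_pos fun p hp => (hpr p hp).pos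
  have hdvd : ∀ p : ℕ, p.Prime → p ≤ w → p ∣ W := fun p hp hpw =>
    Finset.dvd_prod_of_mem _ (Finset.mem_filter.2 ⟨Finset.mem_range.2 (by omega), hp⟩)
  have hsq : Squarefree W := by
    rw [hWdef]
    refine Finset.squarefree_prod_of_pairwise_isCoprime ?_ fun p hp => (hpr p hp).squarefree
    intro p hp q hq hpq
    exact Nat.coprime_iff_isRelPrime.1 ((Nat.coprime_primes (hpr p hp) (hpr q hq)).2 hpq)
  have hW2 : 2 ∣ W := hdvd 2 Nat.prime_two (by omega)
  have hW1 : 1 < W := by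
    have := Nat.le_of_dvd hW0 hW2
    omega
  obtain ⟨N0, hN0⟩ := core W hW0 ε hε
  refine ⟨max N0 W, ?_⟩
  intro N hN hev hbig s t hs ht
  have hWN : W ≤ N := (le_max_right _ _).trans hN
  obtain ⟨a, ha1, ha2, ha3⟩ := exists_class hsq hWN hW1 hev
  have hcfg : Cfg W N a := ⟨hW0, ha1, hWN, ha2, ha3, fun p hp hd hnd => hbig p hp hd (by
    by_contra hle
    exact hnd (hdvd p hp (not_lt.1 hle)))⟩
  refine (hN0 N ((le_max_left _ _).trans hN) a hcfg s t hs ht).trans ?_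
  have hsub : repW W N s t ⊆ reps w N s t := by
    intro n hn
    unfold repW at hn
    unfold reps
    simp only [Finset.mem_filter, Finset.mem_range, Finset.mem_Ico] at hn ⊢
    obtain ⟨h1, h2, h3, h4, h5, h6⟩ := hn
    refine ⟨⟨h2, h1⟩, h5, h6, ?_⟩
    intro p hp hd
    by_contra hle
    have hpW := hdvd p hp (not_lt.1 hle)
    rcases (Nat.Prime.dvd_mul hp).1 hd with h | h
    · exact Nat.not_coprime_of_dvd_of_dvd hp.one_lt h hpW h3
    · exact Nat.not_coprime_of_dvd_of_dvd hp.one_lt h hpW h4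
  exact_mod_cast Finset.card_le_card hsub

end Pool.Agent.Lib.OW
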