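import Pool.Agent.Lib.MP_7b7e48_nt.OW.PA2
import Pool.Agent.Lib.MP_7b7e48_nt.OW.B0

/-!
# Module PA3: if there are few representations then `EE` is small
-/

open Finset
open Pool.Agent.Lib.MP_45349e_nt.LS (lam lam_mul lam_prime abs_lam)

namespace Pool.Agent.Lib.OW

private theorem pa3_pm (n : ℕ) : lam n = 1 ∨ lam n = -1 := by
  have h := abs_lam n
  rcases abs_cases (lam n) with h1 | h1
  · left; linarith
  · right; linarith

private theorem pa3_cop {W N a n : ℕ} (h : Cfg W N a) (hN : n ≤ N) (hn : n ≡ a [MOD W]) :
    n.Coprime W ∧ (N - n).Coprime W := by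
  constructor
  · have h1 := hn.gcd_eq
    rw [Nat.coprime_iff_gcd_eq_one, h1]
    exact h.aW
  · have haN : a ≤ N := (h.alt.le).trans h.WN
    have h2 : N - n ≡ N - a [MOD W] := by
      have h3 : N - n + n ≡ N - a + a [MOD W] := by
        rw [Nat.sub_add_cancel hN, Nat.sub_add_cancel haN]
      exact Nat.ModEq.add_right_cancel hn h3
    rw [Nat.coprime_iff_gcd_eq_one, h2.gcd_eq]
    exact h.naW

open Classical in
theorem EE_small {W N a : ℕ} (h : Cfg W N a) (hN : 2 ≤ N) (s t : ℝ) (hs : s = 1 ∨ s = -1) (ht : t = 1 ∨ t = -1) :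
    ((EE W N a (-(s * t))).card : ℝ) ≤ 2 * ((repW W N s t).card : ℝ) +
      (|∑ n ∈ Dom N W a N, lam n| + |∑ n ∈ Dom N W (N - a) N, lam n|) / 2 := by
  have hab : 0 ≤ |∑ n ∈ Dom N W a N, lam n| + |∑ n ∈ Dom N W (N - a) N, lam n| := by positivity
  have haN : a ≤ N := (h.alt.le).trans h.WN
  -- the elements of EE
  have hE : ∀ n ∈ EE W N a (-(s * t)), n ∈ Dom N W a N ∧ 0 < n ∧ n < N ∧ n.Coprime W ∧ (N - n).Coprime W ∧
      lam (N - n) = s * t * lam n := by
    intro n hn
    unfold EE at hn
    simp only [Finset.mem_filter, Finset.mem_range] at hn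
    obtain ⟨h1, h2, h3, h4⟩ := hn
    have h0 : 0 < n := by
      rcases Nat.eq_zero_or_pos n with h0 | h0
      · rw [h0, Nat.coprime_zero_left] at h3; omega
      · exact h0
    have hc := pa3_cop h h1.le h2
    refine ⟨?_, h0, h1, hc.1, hc.2, ?_⟩
    · unfold Dom
      simp only [Finset.mem_filter, Finset.mem_range]
      exact ⟨h1, h2, h3⟩
    · rcases hs with rfl | rfl <;> rcases ht with rfl | rfl <;> rcases pa3_pm n with h5 | h5 <;>
        rcases pa3_pm (N - n) with h6 | h6 <;> rw [h5, h6] at h4 ⊢ <;> first | (exfalso; apply h4; norm_num; done) | (norm_num; done)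
  have hR : ∀ n : ℕ, 0 < n → n < N → n.Coprime W → (N - n).Coprime W → lam n = s → lam (N - n) = t →
      n ∈ repW W N s t := by
    intro n h1 h2 h3 h4 h5 h6
    unfold repW
    simp only [Finset.mem_filter, Finset.mem_range]
    exact ⟨h2, h1, h3, h4, h5, h6⟩
  by_cases hst : s = t
  · -- equal signs
    subst hst
    have hss : s * s = 1 := by rcases hs with rfl | rfl <;> norm_num
    have hcount := refl_count N W a (N - a) hN h.W1 (by rw [Nat.add_sub_cancel' haN]) s hs
    have hsub1 : EE W N a (-(s * s)) ⊆ repW W N s s ∪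
        (Dom N W a N).filter (fun n => lam n = -s ∧ lam (N - n) = -s) := by
      intro n hn
      obtain ⟨h1, h2, h3, h4, h5, h6⟩ := hE n hn
      rw [hss, one_mul] at h6
      rw [Finset.mem_union]
      by_cases h7 : lam n = s
      · left
        exact hR n h2 h3 h4 h5 h7 (h6.trans h7)
      · right
        have h8 : lam n = -s := by
          rcases hs with rfl | rfl <;> rcases pa3_pm n with h9 | h9
          · exact absurd h9 h7
          · exact h9
          · rw [h9]; norm_num
          · exact absurd h9 h7
        rw [Finset.mem_filter]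
        exact ⟨h1, h8, h6.trans h8⟩
    have hsub2 : (Dom N W a N).filter (fun n => lam n = s ∧ lam (N - n) = s) ⊆ repW W N s s := by
      intro n hn
      rw [Finset.mem_filter] at hn
      obtain ⟨h1, h2, h3⟩ := hn
      unfold Dom at h1
      simp only [Finset.mem_filter, Finset.mem_range] at h1
      obtain ⟨h4, h5, h6⟩ := h1
      have h0 : 0 < n := by
        rcases Nat.eq_zero_or_pos n with h0 | h0
        · rw [h0, Nat.coprime_zero_left] at h6; omega
        · exact h0
      have hc := pa3_cop h h4.le h5
      exact hR n h0 h4 hc.1 hc.2 h2 h3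
    have hc1 : ((EE W N a (-(s * s))).card : ℝ) ≤ ((repW W N s s).card : ℝ) +
        (((Dom N W a N).filter (fun n => lam n = -s ∧ lam (N - n) = -s)).card : ℝ) := by
      exact_mod_cast (Finset.card_le_card hsub1).trans (Finset.card_union_le _ _)
    have hc2 : (((Dom N W a N).filter (fun n => lam n = s ∧ lam (N - n) = s)).card : ℝ) ≤
        ((repW W N s s).card : ℝ) := by
      exact_mod_cast Finset.card_le_card hsub2
    linarith
  · have hst' : s * t = -1 := by
      rcases hs with rfl | rfl <;> rcases ht with rfl | rfl <;> first | exact absurd rfl hst | norm_num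
    have hsub1 : EE W N a (-(s * t)) ⊆ repW W N s t ∪ (repW W N s t).image (fun n => N - n) := by
      intro n hn
      obtain ⟨h1, h2, h3, h4, h5, h6⟩ := hE n hn
      rw [hst'] at h6
      rw [Finset.mem_union]
      by_cases h7 : lam n = s
      · left
        refine hR n h2 h3 h4 h5 h7 ?_
        rw [h6, h7]
        rcases hs with rfl | rfl <;> rcases ht with rfl | rfl <;> first | exact absurd rfl hst | norm_num
      · right
        have h8 : lam n = t := by
          rcases hs with rfl | rfl <;> rcases ht with rfl | rfl <;> rcases pa3_pm n with h9 | h9 <;>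
            first | exact h9 | exact absurd h9 h7 | exact absurd rfl hst
        rw [Finset.mem_image]
        refine ⟨N - n, hR (N - n) (by omega) (by omega) h5 ?_ ?_ ?_, by omega⟩
        · rw [Nat.sub_sub_self h3.le]; exact h4
        · rw [h6, h8]
          rcases hs with rfl | rfl <;> rcases ht with rfl | rfl <;> first | exact absurd rfl hst | norm_num
        · rw [Nat.sub_sub_self h3.le]; exact h8
    have hc1 : ((EE W N a (-(s * t))).card : ℝ) ≤ ((repW W N s t).card : ℝ) + ((repW W N s t).card : ℝ) := by
      exact_mod_cast ((Finset.card_le_card hsub1).trans (Finset.card_union_le _ _)).trans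
        (Nat.add_le_add_left Finset.card_image_le _)
    linarith

end Pool.Agent.Lib.OW
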