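import Pool.Agent.Lib.MP_7b7e48_nt.OW.PA2
import Pool.Agent.Lib.MP_7b7e48_nt.LG.H3

/-!
# Module PA4: the final form
-/

open Finset
open Pool.Agent.Lib.MP_7b7e48_nt.LG
open Pool.Agent.Lib.MP_45349e_nt.LS (lam)

namespace Pool.Agent.Lib.OW

/-- the `0 < a < N`, `a ≠ N - a`, such that `Ω a ≡ i` and `Ω (N - a) ≡ j` modulo `2` and all prime factors of `a` and of
`N - a` are `> w` -/
def rreps (w N i j : ℕ) : Finset ℕ :=
  (Finset.Ioo 0 N).filter fun a => a ≠ N - a ∧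
    ArithmeticFunction.cardFactors a % 2 = i ∧ ArithmeticFunction.cardFactors (N - a) % 2 = j ∧
    ∀ p ∈ (a * (N - a)).primeFactors, w < p

theorem pa4_lam (n i : ℕ) (hi : i < 2) :
    ArithmeticFunction.cardFactors n % 2 = i ↔ lam n = (-1 : ℝ) ^ i := by
  unfold Pool.Agent.Lib.MP_45349e_nt.LS.lam
  rw [neg_one_pow_eq_pow_mod_two]
  have h : ArithmeticFunction.cardFactors n % 2 < 2 := Nat.mod_lt _ (by norm_num)
  interval_cases i <;> interval_cases hm : ArithmeticFunction.cardFactors n % 2 <;> norm_num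

theorem pa4_card (w N i j : ℕ) (hi : i < 2) (hj : j < 2) :
    (OW.reps w N ((-1 : ℝ) ^ i) ((-1 : ℝ) ^ j)).card ≤ (rreps w N i j).card + 1 := by
  classical
  have h : OW.reps w N ((-1 : ℝ) ^ i) ((-1 : ℝ) ^ j) ⊆ insert (N / 2) (rreps w N i j) := by
    intro a ha
    unfold OW.reps at ha
    simp only [Finset.mem_filter, Finset.mem_Ico] at ha
    obtain ⟨⟨h1, h2⟩, h3, h4, h5⟩ := ha
    rw [Finset.mem_insert]
    by_cases h6 : a = N - a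
    · left
      omega
    · right
      unfold rreps
      simp only [Finset.mem_filter, Finset.mem_Ioo]
      rw [pa4_lam a i hi, pa4_lam (N - a) j hj]
      exact ⟨⟨h1, h2⟩, h6, h3, h4, fun p hp => h5 p (Nat.prime_of_mem_primeFactors hp) (Nat.dvd_of_mem_primeFactors hp)⟩
  exact (Finset.card_le_card h).trans (Finset.card_insert_le _ _)

theorem pa4_card1 (N i j : ℕ) (hi : i < 2) (hj : j < 2) :
    (ES2 N ((-1 : ℝ) ^ i) ((-1 : ℝ) ^ j)).card ≤ (rreps 1 N i j).card + 1 := by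
  classical
  have h : ES2 N ((-1 : ℝ) ^ i) ((-1 : ℝ) ^ j) ⊆ insert (N / 2) (rreps 1 N i j) := by
    intro a ha
    rw [ES2_mem] at ha
    obtain ⟨h1, h2, h3, h4⟩ := ha
    rw [Finset.mem_insert]
    by_cases h5 : a = N - a
    · left
      omega
    · right
      unfold rreps
      simp only [Finset.mem_filter, Finset.mem_Ioo]
      rw [pa4_lam a i hi, pa4_lam (N - a) j hj]
      exact ⟨⟨h2, h1⟩, h5, h3, h4, fun p hp => (Nat.prime_of_mem_primeFactors hp).one_lt⟩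
  exact (Finset.card_le_card h).trans (Finset.card_insert_le _ _)

private theorem pa4_pow (ε : ℝ) (hε : 0 < ε) : ∃ N₃ : ℕ, ∀ p : ℕ, N₃ ≤ p → ∀ r x : ℕ, 0 < p →
    (p : ℝ) ^ (1 - ε / 2) ≤ (x : ℝ) → x ≤ r + 1 → 1 ≤ r → (p : ℝ) ^ (1 - ε) ≤ (r : ℝ) := by
  obtain ⟨N₃, h₃⟩ : ∃ N₃ : ℕ, ∀ p : ℕ, N₃ ≤ p → (2 : ℝ) ≤ (p : ℝ) ^ (ε / 2) := by
    have h := (tendsto_rpow_atTop (half_pos hε)).comp
      (tendsto_natCast_atTop_atTop (R := ℝ))
    obtain ⟨N₃, h₃⟩ := Filter.eventually_atTop.mp (h.eventually_ge_atTop 2)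
    exact ⟨N₃, h₃⟩
  refine ⟨N₃, ?_⟩
  intro p hp r x hp0' hb hc hr
  have hp1 : (1 : ℝ) ≤ p := by exact_mod_cast hp0'
  have hp0 : (0 : ℝ) < p := by linarith
  have he : (p : ℝ) ^ (1 - ε / 2) = (p : ℝ) ^ (1 - ε) * (p : ℝ) ^ (ε / 2) := by
    rw [← Real.rpow_add hp0]
    congr 1
    ring
  have h4 := h₃ p hp
  have hc' : (x : ℝ) ≤ (r : ℝ) + 1 := by exact_mod_cast hc
  have hx : 0 < (p : ℝ) ^ (1 - ε) := Real.rpow_pos_of_pos hp0 _
  have h7 : (1 : ℝ) ≤ (r : ℝ) := by exact_mod_cast hr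
  rcases le_or_gt 1 ((p : ℝ) ^ (1 - ε)) with h5 | h5
  · rw [he] at hb
    nlinarith
  · linarith

theorem final_of (h : ThmOW) : ∀ ε : ℝ, 0 < ε → ∀ R w : ℕ, ∃ N₀ : ℕ, ∀ N : ℕ, N₀ ≤ N →
    ∀ i j : ℕ, i < 2 → j < 2 →
      (Even N → R ≤ (rreps w N i j).card ∧
        ∀ p : ℕ, p.Prime → N₀ ≤ p → p ∣ N → (p : ℝ) ^ (1 - ε) ≤ ((rreps w N i j).card : ℝ)) ∧
      (R ≤ (rreps 1 N i j).card ∧
        ∀ p : ℕ, p.Prime → N₀ ≤ p → p ∣ N → (p : ℝ) ^ (1 - ε) ≤ ((rreps 1 N i j).card : ℝ)) := by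
  have hpm : ∀ i : ℕ, (-1 : ℝ) ^ i = 1 ∨ (-1 : ℝ) ^ i = -1 := fun i => neg_one_pow_eq_or ℝ i
  intro ε hε R w
  obtain ⟨N₁, h₁⟩ := H3a (R + 2)
  obtain ⟨N₂, h₂⟩ := H3b (ε / 2) (by linarith)
  obtain ⟨N₃, h₃⟩ := pa4_pow ε hε
  obtain ⟨N₄, h₄⟩ := h w (R + 2) (ε / 2) (by linarith)
  refine ⟨max (max N₁ N₂) (max (max N₃ N₄) 1), fun N hN i j hi hj => ?_⟩
  have hN₁ : N₁ ≤ N := (le_max_left _ _).trans ((le_max_left _ _).trans hN)
  have hN₄ : N₄ ≤ N := (le_max_right _ _).trans ((le_max_left _ _).trans ((le_max_right _ _).trans hN))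
  have hN1 : 1 ≤ N := (le_max_right _ _).trans ((le_max_right _ _).trans hN)
  refine ⟨fun hev => ?_, ?_⟩
  · have hc := pa4_card w N i j hi hj
    obtain ⟨ha, hb⟩ := h₄ N hN₄ hev _ _ (hpm i) (hpm j)
    refine ⟨by omega, fun p hp hpN hdv => ?_⟩
    have hp4 : N₄ ≤ p := (le_max_right _ _).trans ((le_max_left _ _).trans ((le_max_right _ _).trans hpN))
    have hp3 : N₃ ≤ p := (le_max_left _ _).trans ((le_max_left _ _).trans ((le_max_right _ _).trans hpN))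
    exact h₃ p hp3 _ _ hp.pos (hb p hp hdv hp4) hc (by omega)
  · have hc := pa4_card1 N i j hi hj
    have ha := h₁ N hN₁ _ _ (hpm i) (hpm j)
    refine ⟨by omega, fun p hp hpN hdv => ?_⟩
    have hN₂ : N₂ ≤ p := (le_max_right _ _).trans ((le_max_left _ _).trans hpN)
    have hp3 : N₃ ≤ p := (le_max_left _ _).trans ((le_max_left _ _).trans ((le_max_right _ _).trans hpN))
    obtain ⟨m, rfl⟩ := hdv
    have hm : 0 < m := Nat.pos_of_mul_pos_left hN1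
    have hb := h₂ p m hN₂ hp hm _ _ (hpm i) (hpm j)
    exact h₃ p hp3 _ _ hp.pos hb hc (by omega)

end Pool.Agent.Lib.OW
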