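import Pool.Agent.Lib.MP_7b7e48_nt.OW.ODefs
import Pool.Agent.Lib.MP_7b7e48_nt.OW.PA
import Pool.Agent.Lib.MP_7b7e48_nt.OW.B0

/-!
# Module PA5: if there are few representations in one class then `EE` is small
-/

open Finset
open Pool.Agent.Lib.MP_45349e_nt.LS (lam lam_mul lam_prime abs_lam)

namespace Pool.Agent.Lib.OW

open Classical in
/-- the representations of `N` in the class `a` modulo `W` by numbers coprime to `N` -/
noncomputable def repC (W N a : ℕ) (s t : ℝ) : Finset ℕ :=
  (Dom N W a N).filter fun n => lam n = s ∧ lam (N - n) = t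

private theorem pa5_pm (n : ℕ) : lam n = 1 ∨ lam n = -1 := by
  have h := abs_lam n
  rcases abs_cases (lam n) with h1 | h1
  · left; linarith
  · right; linarith

private theorem pa5_mem {N W a n : ℕ} : n ∈ Dom N W a N ↔ n < N ∧ n ≡ a [MOD W] ∧ n.Coprime N := by
  classical
  unfold Dom
  simp only [Finset.mem_filter, Finset.mem_range]

private theorem pa5_pos {N W a n : ℕ} (hN : 2 ≤ N) (h : n ∈ Dom N W a N) : 0 < n := by
  rw [pa5_mem] at h
  rcases Nat.eq_zero_or_pos n with h0 | h0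
  · rw [h0, Nat.coprime_zero_left] at h; omega
  · exact h0

private theorem pa5_refl {N W a n : ℕ} (hN : 2 ≤ N) (haN : a ≤ N) (h : n ∈ Dom N W a N) :
    N - n ∈ Dom N W (N - a) N := by
  have h0 := pa5_pos hN h
  rw [pa5_mem] at h ⊢
  obtain ⟨h1, h2, h3⟩ := h
  refine ⟨by omega, ?_, ?_⟩
  · have h4 : N - n + n ≡ N - a + a [MOD W] := by
      rw [Nat.sub_add_cancel h1.le, Nat.sub_add_cancel haN]
    exact Nat.ModEq.add_right_cancel h2 h4
  · rw [Nat.coprime_iff_gcd_eq_one, Nat.gcd_comm, Nat.gcd_self_sub_right h1.le, Nat.gcd_comm]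
    exact h3

private theorem pa5_sum {N W a : ℕ} (hN : 2 ≤ N) (haN : a ≤ N) :
    ∑ n ∈ Dom N W a N, lam (N - n) = ∑ n ∈ Dom N W (N - a) N, lam n := by
  refine Finset.sum_nbij' (fun n => N - n) (fun n => N - n) ?_ ?_ ?_ ?_ ?_
  · intro n hn
    exact pa5_refl hN haN hn
  · intro n hn
    have h := pa5_refl hN (Nat.sub_le _ _) hn
    rw [Nat.sub_sub_self haN] at h
    exact h
  · intro n hn
    exact Nat.sub_sub_self (pa5_mem.1 hn).1.le
  · intro n hn
    exact Nat.sub_sub_self (pa5_mem.1 hn).1.le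
  · intro n _
    rfl

open Classical in
theorem EE_small_class {W N a : ℕ} (haN : a ≤ N) (hN : 2 ≤ N) (s t : ℝ) (hs : s = 1 ∨ s = -1)
    (ht : t = 1 ∨ t = -1) :
    ((EE W N a (-(s * t))).card : ℝ) ≤ 2 * ((repC W N a s t).card : ℝ) +
      (|∑ n ∈ Dom N W a N, lam n| + |∑ n ∈ Dom N W (N - a) N, lam n|) / 2 := by
  -- the sum over the class of `s lam n + t lam (N - n)`
  have hE : EE W N a (-(s * t)) = (Dom N W a N).filter (fun n => lam (N - n) = s * t * lam n) := by
    ext n
    unfold EE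
    simp only [Finset.mem_filter, Finset.mem_range, pa5_mem]
    constructor
    · rintro ⟨h1, h2, h3, h4⟩
      refine ⟨⟨h1, h2, h3⟩, ?_⟩
      rcases hs with rfl | rfl <;> rcases ht with rfl | rfl <;> rcases pa5_pm n with h5 | h5 <;>
        rcases pa5_pm (N - n) with h6 | h6 <;> rw [h5, h6] at h4 ⊢ <;>
        first | (exfalso; apply h4; norm_num; done) | (norm_num; done)
    · rintro ⟨⟨h1, h2, h3⟩, h4⟩
      refine ⟨h1, h2, h3, ?_⟩
      rw [h4]
      rcases hs with rfl | rfl <;> rcases ht with rfl | rfl <;> rcases pa5_pm n with h5 | h5 <;>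
        rw [h5] <;> norm_num
  set A := (Dom N W a N).filter (fun n => lam n = s ∧ lam (N - n) = t) with hA
  set B := (Dom N W a N).filter (fun n => lam n = -s ∧ lam (N - n) = -t) with hB
  have hEAB : EE W N a (-(s * t)) ⊆ A ∪ B := by
    intro n hn
    rw [hE, Finset.mem_filter] at hn
    obtain ⟨h1, h2⟩ := hn
    rw [Finset.mem_union, hA, hB, Finset.mem_filter, Finset.mem_filter]
    rcases pa5_pm n with h5 | h5
    · rcases hs with rfl | rfl
      · left; refine ⟨h1, h5, ?_⟩; rw [h2, h5]; ring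
      · right; refine ⟨h1, by rw [h5]; norm_num, ?_⟩; rw [h2, h5]; ring
    · rcases hs with rfl | rfl
      · right; refine ⟨h1, h5, ?_⟩; rw [h2, h5]; ring
      · left; refine ⟨h1, h5, ?_⟩; rw [h2, h5]; ring
  have hsum : ∑ n ∈ Dom N W a N, (s * lam n + t * lam (N - n)) = 2 * (A.card : ℝ) - 2 * (B.card : ℝ) := by
    have hpt : ∀ n ∈ Dom N W a N, s * lam n + t * lam (N - n) =
        (if lam n = s ∧ lam (N - n) = t then (2 : ℝ) else 0) -
        (if lam n = -s ∧ lam (N - n) = -t then (2 : ℝ) else 0) := by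
      intro n _
      rcases hs with rfl | rfl <;> rcases ht with rfl | rfl <;> rcases pa5_pm n with h5 | h5 <;>
        rcases pa5_pm (N - n) with h6 | h6 <;> rw [h5, h6] <;> norm_num
    rw [Finset.sum_congr rfl hpt, Finset.sum_sub_distrib, ← Finset.sum_filter, ← Finset.sum_filter,
      Finset.sum_const, Finset.sum_const, nsmul_eq_mul, nsmul_eq_mul]
    ring
  have hsum2 : ∑ n ∈ Dom N W a N, (s * lam n + t * lam (N - n)) =
      s * ∑ n ∈ Dom N W a N, lam n + t * ∑ n ∈ Dom N W (N - a) N, lam n := by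
    rw [Finset.sum_add_distrib, ← Finset.mul_sum, ← Finset.mul_sum, pa5_sum hN haN]
  have hB2 : (B.card : ℝ) ≤ (A.card : ℝ) +
      (|∑ n ∈ Dom N W a N, lam n| + |∑ n ∈ Dom N W (N - a) N, lam n|) / 2 := by
    set X := ∑ n ∈ Dom N W a N, lam n with hX
    set Y := ∑ n ∈ Dom N W (N - a) N, lam n with hY
    have h1 : 2 * (A.card : ℝ) - 2 * (B.card : ℝ) = s * X + t * Y := by rw [← hsum, hsum2]
    have h2 : -(|X| + |Y|) ≤ s * X + t * Y := by
      have hx1 := neg_abs_le X
      have hx2 := le_abs_self X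
      have hy1 := neg_abs_le Y
      have hy2 := le_abs_self Y
      rcases hs with rfl | rfl <;> rcases ht with rfl | rfl <;> linarith
    linarith
  have hc : ((EE W N a (-(s * t))).card : ℝ) ≤ (A.card : ℝ) + (B.card : ℝ) := by
    exact_mod_cast (Finset.card_le_card hEAB).trans (Finset.card_union_le _ _)
  have hAr : A = repC W N a s t := by
    rw [hA]; unfold repC; rfl
  rw [hAr] at hc hB2
  linarith

end Pool.Agent.Lib.OW
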