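import Pool.Agent.Lib.MP_7b7e48_nt.OW.STP
import Pool.Agent.Lib.MP_7b7e48_nt.OW.FM
import Pool.Agent.Lib.MP_7b7e48_nt.OW.VAR
import Pool.Agent.Lib.MP_7b7e48_nt.OW.TNY

/-!
# Module PL (90 minutes): the path lemma

`N1 = W N`, `K = log N`. Choose `s` with `s/4000 ≥ C1 + 1`, `T = Nat.sqrt (tJ N)`, so `T^s ≥ K^(C1 + 1/2)` (`tJ_low`) and
`2^(s+4) l W / T^s ≤ η/2`. `C2 = C1 + s + 1` (`l (2 tJ)^s ≤ K^(C2)`), `TT` from `tny`.
`path`: let `A0 ≥ 1`, `u` with `mr W N A0 u ∈ UU`, `m ∈ piFinset TT`, none of the points `mr W N (A0 * pp m i) u`, `1 ≤ i ≤ s`, in `Aff`, and no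
step fails: `¬ Fl W N (A0 * pp m i) (m i) u`, `i < s`. Then by `step` and induction `lam (mr W N (A0 * pp m s) u) = (-1)^s lam (mr W N A0 u)`
(`pp m (i+1) = pp m i * m_i`).
BAD: the `n` of the statement, `u = v n`. Let `m ∈ piFinset TT` with `Land W N l (pp m s) u`. If no step fails for `A0 = 1` and for `A0 = l`, then
(`mr W N 1 u = u` as `u < N1`) `lam (mr M u) = (-1)^s lam u`, `lam (mr (l M) u) = (-1)^s lam (mr l u)` and `mr (l M) u = l mr M u` (`land_mul`),
whose `lam` is `- lam (mr M u)`: so `lam (mr l u) = - lam u`, contradiction. (`mr W N l u ∈ UU`: `l` is a prime `= 1 (mod W)`, `l ∤ N` as `l ≤ LL N`.)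
So for all `m` with `Land` some step fails: `∑_{n bad} NL(v n) ≤ ∑_m ∑_{i < s} ∑_{A0 ∈ {1,l}} #{n : Land, Fl W N (A0 pp m i) (m i) (v n)}
≤ T^s · 2 s · η' N/(l v)` (`fm` with `M = pp m s`, `A = A0 * pp m i`, `(m i) * A ∣ l M`, `card (piFinset TT) = T^s`). The bad `n` with
`2 l NL ≥ T^s` are at most `(2 l / T^s) T^s 2 s η' N/(l v) = 4 s η' N/v`, the others at most `2^(s+4) l W N/(v T^s)` by `var`. `η' = η/(8 s + 8)`.
-/

set_option autoImplicit false

open Finset
open Pool.Agent.Lib.MP_45349e_nt.LS (lam)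

namespace Pool.Agent.Lib.OW

private theorem pl_lam_mul {l n : ℕ} (hl : l.Prime) (hn : n ≠ 0) : lam (l * n) = -lam n := by
  unfold Pool.Agent.Lib.MP_45349e_nt.LS.lam
  rw [ArithmeticFunction.cardFactors_mul hl.ne_zero hn,
    ArithmeticFunction.cardFactors_apply_prime hl, pow_add, pow_one]
  ring

private theorem pl_pp_zero {s : ℕ} (m : Fin s → ℕ) : pp m 0 = 1 := by
  unfold pp
  rw [Finset.filter_false_of_mem (by intro t _; omega), Finset.prod_empty]

private theorem pl_pp_succ {s : ℕ} (m : Fin s → ℕ) (i : Fin s) : pp m (i.val + 1) = pp m i.val * m i := by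
  unfold pp
  have h : (Finset.univ : Finset (Fin s)).filter (fun t => t.val < i.val + 1) =
      insert i ((Finset.univ : Finset (Fin s)).filter (fun t => t.val < i.val)) := by
    ext t
    rw [Finset.mem_insert, Finset.mem_filter, Finset.mem_filter]
    constructor
    · rintro ⟨_, h⟩
      rcases Nat.lt_or_ge t.val i.val with h1 | h1
      · exact Or.inr ⟨Finset.mem_univ _, h1⟩
      · exact Or.inl (Fin.ext (by omega))
    · rintro (h | ⟨_, h⟩)
      · subst h; exact ⟨Finset.mem_univ _, by omega⟩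
      · exact ⟨Finset.mem_univ _, by omega⟩
  rw [h, Finset.prod_insert (by rw [Finset.mem_filter]; rintro ⟨_, h⟩; omega), mul_comm]

private theorem pl_pp_split {s : ℕ} (m : Fin s → ℕ) (i : Fin s) :
    pp m s = pp m i.val * m i * ∏ t ∈ (Finset.univ : Finset (Fin s)).filter (fun t => i.val < t.val), m t := by
  rw [← pl_pp_succ]
  unfold pp
  rw [← Finset.prod_union]
  · congr 1
    ext t
    rw [Finset.mem_filter, Finset.mem_union, Finset.mem_filter, Finset.mem_filter]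
    have := t.isLt
    constructor
    · rintro _
      rcases Nat.lt_or_ge i.val t.val with h1 | h1
      · exact Or.inr ⟨Finset.mem_univ _, h1⟩
      · exact Or.inl ⟨Finset.mem_univ _, by omega⟩
    · rintro _
      exact ⟨Finset.mem_univ _, this⟩
  · rw [Finset.disjoint_left]
    intro t h1 h2
    rw [Finset.mem_filter] at h1 h2
    omega

private theorem pl_mem {W N s T : ℕ} {TT : Fin s → Finset ℕ} (hT : Tiny W N s T TT) {m : Fin s → ℕ}
    (hm : m ∈ Fintype.piFinset TT) (i : Fin s) :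
    (m i).Prime ∧ tJ N < m i ∧ m i ≤ 2 * tJ N ∧ m i % W = 1 % W :=
  hT.pr i (m i) (Fintype.mem_piFinset.mp hm i)

private theorem pl_pp_le {W N s T : ℕ} {TT : Fin s → Finset ℕ} (hT : Tiny W N s T TT) {m : Fin s → ℕ}
    (hm : m ∈ Fintype.piFinset TT) (h1 : 1 ≤ tJ N) (i : ℕ) : pp m i ≤ (2 * tJ N) ^ s := by
  unfold pp
  calc ∏ t ∈ (Finset.univ : Finset (Fin s)).filter (fun t => t.val < i), m t
      ≤ ∏ t ∈ (Finset.univ : Finset (Fin s)).filter (fun t => t.val < i), (2 * tJ N) :=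
        Finset.prod_le_prod' fun t _ => (pl_mem hT hm t).2.2.1
    _ = (2 * tJ N) ^ ((Finset.univ : Finset (Fin s)).filter (fun t => t.val < i)).card := by
        rw [Finset.prod_const]
    _ ≤ (2 * tJ N) ^ s := by
        apply Nat.pow_le_pow_right (by omega)
        calc ((Finset.univ : Finset (Fin s)).filter (fun t => t.val < i)).card
            ≤ (Finset.univ : Finset (Fin s)).card := Finset.card_filter_le _ _
          _ = s := by simp

private theorem pl_pp_pos {W N s T : ℕ} {TT : Fin s → Finset ℕ} (hT : Tiny W N s T TT) {m : Fin s → ℕ}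
    (hm : m ∈ Fintype.piFinset TT) (i : ℕ) : 1 ≤ pp m i := by
  unfold pp
  exact Nat.one_le_iff_ne_zero.mpr (Finset.prod_ne_zero_iff.mpr fun t _ => (pl_mem hT hm t).1.ne_zero)

private theorem pl_path {W N a s T A0 u : ℕ} (hc : Cfg W N a) (hn : Num W N) {κ : ℝ} (hκ : κ ^ 2 = 1)
    {TT : Fin s → Finset ℕ} (hT : Tiny W N s T TT) (h0 : mr W N A0 u ∈ UU W N a) {m : Fin s → ℕ}
    (hm : m ∈ Fintype.piFinset TT) (hA : ∀ i : ℕ, 1 ≤ i → i ≤ s → mr W N (A0 * pp m i) u ∉ Aff W N a (EE W N a κ))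
    (hF : ∀ i : Fin s, ¬ Fl W N (A0 * pp m i) (m i) u) :
    ∀ i : ℕ, i ≤ s → mr W N (A0 * pp m i) u ∈ UU W N a ∧
      lam (mr W N (A0 * pp m i) u) = (-1) ^ i * lam (mr W N A0 u) := by
  intro i
  induction i with
  | zero =>
    intro _
    rw [pl_pp_zero, mul_one, pow_zero, one_mul]
    exact ⟨h0, rfl⟩
  | succ i ih =>
    intro hi
    obtain ⟨ih1, ih2⟩ := ih (by omega)
    let j : Fin s := ⟨i, by omega⟩
    obtain ⟨hp, _, hp2, hpW⟩ := pl_mem hT hm j
    have e : m j * (A0 * pp m i) = A0 * pp m (i + 1) := by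
      have := pl_pp_succ m j
      show m j * (A0 * pp m i) = A0 * pp m (j.val + 1)
      rw [this]
      show m j * (A0 * pp m j.val) = _
      ring
    have hl : m j * mr W N (A0 * pp m i) u = mr W N (m j * (A0 * pp m i)) u ∨
        Lk W N (m j * mr W N (A0 * pp m i) u) (mr W N (m j * (A0 * pp m i)) u) := by
      have h := hF j
      unfold Fl at h
      by_contra hcon
      rw [not_or] at hcon
      exact h hcon
    have hz : mr W N (m j * (A0 * pp m i)) u ∉ Aff W N a (EE W N a κ) := by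
      rw [e]; exact hA (i + 1) (by omega) hi
    obtain ⟨s1, s2⟩ := step hc hn hκ hp hp2 hpW ih1 hz hl
    rw [e] at s1 s2
    refine ⟨s1, ?_⟩
    rw [s2, ih2, pow_succ]
    ring

theorem path {W N a s T A0 u : ℕ} (hc : Cfg W N a) (hn : Num W N) {κ : ℝ} (hκ : κ ^ 2 = 1)
    {TT : Fin s → Finset ℕ} (hT : Tiny W N s T TT) (h0 : mr W N A0 u ∈ UU W N a) {m : Fin s → ℕ}
    (hm : m ∈ Fintype.piFinset TT) (hA : ∀ i : ℕ, 1 ≤ i → i ≤ s → mr W N (A0 * pp m i) u ∉ Aff W N a (EE W N a κ))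
    (hF : ∀ i : Fin s, ¬ Fl W N (A0 * pp m i) (m i) u) :
    lam (mr W N (A0 * pp m s) u) = (-1) ^ s * lam (mr W N A0 u) :=
  (pl_path hc hn hκ hT h0 hm hA hF s le_rfl).2

/-- a prime `l = 1` modulo `W`, not too large, is coprime to `W N` -/
private theorem pl_cop {W N a l : ℕ} (hc : Cfg W N a) (hn : Num W N) (hl : l.Prime) (hlW : l % W = 1 % W)
    (hlL : l ≤ LL N) : l.Coprime (W * N) := by
  have hW : ¬ l ∣ W := by
    intro h
    have h1 : l % W % l = 1 % W % l := by rw [hlW]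
    rw [Nat.mod_mod_of_dvd _ h, Nat.mod_mod_of_dvd _ h, Nat.mod_self] at h1
    have h2 : 1 % l = 1 := Nat.mod_eq_of_lt hl.one_lt
    omega
  have hN : ¬ l ∣ N := by
    intro h
    have h1 := hc.big l hl h hW
    have h2 : l * l ≤ LL N ^ 30 := by
      have hL1 : 1 ≤ LL N := le_trans hl.one_lt.le hlL
      calc l * l ≤ LL N * LL N := Nat.mul_le_mul hlL hlL
        _ = LL N ^ 2 := (sq _).symm
        _ ≤ LL N ^ 30 := Nat.pow_le_pow_right hL1 (by norm_num)
    have h3 := hn.LLN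
    omega
  exact Nat.Coprime.mul_right ((Nat.Prime.coprime_iff_not_dvd hl).mpr hW)
    ((Nat.Prime.coprime_iff_not_dvd hl).mpr hN)

private theorem pl_mr_mem {W N a l u : ℕ} (hc : Cfg W N a) (hl : l.Coprime (W * N)) (hlW : l % W = 1 % W)
    (hN : 0 < W * N) (hu : u ∈ UU W N a) : mr W N l u ∈ UU W N a := by
  unfold UU at hu ⊢
  rw [Finset.mem_filter, Finset.mem_range] at hu ⊢
  obtain ⟨hu1, hu2, hu3⟩ := hu
  unfold mr
  refine ⟨Nat.mod_lt _ hN, ?_, ?_⟩
  · rw [Nat.mod_mod_of_dvd _ (Dvd.intro _ rfl)]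
    rw [Nat.mul_mod, hlW, ← Nat.mul_mod, one_mul, hu2]
  · have h1 : (l * u).Coprime N :=
      Nat.Coprime.mul_left (Nat.Coprime.coprime_mul_left_right hl) hu3
    have h2 : Nat.gcd (l * u % (W * N)) N = Nat.gcd (l * u) N := by
      have h3 : l * u = l * u % (W * N) + N * (W * (l * u / (W * N))) := by
        have := Nat.mod_add_div (l * u) (W * N)
        calc l * u = l * u % (W * N) + W * N * (l * u / (W * N)) := this.symm
          _ = _ := by ring
      conv_rhs => rw [h3]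
      rw [Nat.gcd_add_mul_left_left]
    rw [Nat.Coprime, h2]
    exact h1

/-- the main point: if `u` is bad and `m` sends it to the first `l`-th part, then some step fails -/
private theorem pl_fail {W N a s T l u : ℕ} (hc : Cfg W N a) (hn : Num W N) {κ : ℝ} (hκ : κ ^ 2 = 1)
    {TT : Fin s → Finset ℕ} (hT : Tiny W N s T TT) (hl : l.Prime) (hlW : l % W = 1 % W) (hlL : l ≤ LL N)
    (hu : u ∈ UU W N a) (hbad : lam (mr W N l u) ≠ -lam u) {m : Fin s → ℕ}
    (hm : m ∈ Fintype.piFinset TT) (hland : Land W N l (pp m s) u)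
    (hA1 : ∀ i : ℕ, 1 ≤ i → i ≤ s → mr W N (1 * pp m i) u ∉ Aff W N a (EE W N a κ))
    (hAl : ∀ i : ℕ, 1 ≤ i → i ≤ s → mr W N (l * pp m i) u ∉ Aff W N a (EE W N a κ)) :
    ∃ i : Fin s, Fl W N (1 * pp m i) (m i) u ∨ Fl W N (l * pp m i) (m i) u := by
  by_contra hcon
  push Not at hcon
  have hN : 0 < W * N := by
    have := hc.W1
    have := hn.N3
    positivity
  have hult : u < W * N := by
    unfold UU at hu
    rw [Finset.mem_filter, Finset.mem_range] at hu
    exact hu.1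
  have hmr1 : mr W N 1 u = u := by
    unfold mr
    rw [one_mul, Nat.mod_eq_of_lt hult]
  have h1 : mr W N 1 u ∈ UU W N a := by rw [hmr1]; exact hu
  have hcop := pl_cop hc hn hl hlW hlL
  have h2 : mr W N l u ∈ UU W N a := pl_mr_mem hc hcop hlW hN hu
  obtain ⟨p1, p2⟩ := pl_path hc hn hκ hT h1 hm hA1 (fun i => (hcon i).1) s le_rfl
  obtain ⟨q1, q2⟩ := pl_path hc hn hκ hT h2 hm hAl (fun i => (hcon i).2) s le_rfl
  rw [one_mul] at p1 p2
  rw [hmr1] at p2
  rw [land_mul hland] at q2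
  have hne : mr W N (pp m s) u ≠ 0 := by
    intro h0
    rw [h0] at p1
    unfold UU at p1
    rw [Finset.mem_filter] at p1
    have h3 := p1.2.2
    rw [Nat.coprime_zero_left] at h3
    have := hn.N3
    omega
  rw [pl_lam_mul hl hne, p2] at q2
  have h4 : ((-1 : ℝ) ^ s) * lam (mr W N l u) = (-1) ^ s * (-lam u) := by
    rw [← q2]; ring
  have h5 : ((-1 : ℝ) ^ s) ≠ 0 := by
    apply pow_ne_zero; norm_num
  exact hbad (mul_left_cancel₀ h5 h4)

open Classical in
/-- double counting -/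
private theorem pl_count {W N a s T l v : ℕ} (hc : Cfg W N a) (hn : Num W N) {κ : ℝ} (hκ : κ ^ 2 = 1)
    {TT : Fin s → Finset ℕ} (hT : Tiny W N s T TT) (hl : l.Prime) (hlW : l % W = 1 % W) (hlL : l ≤ LL N)
    (B : Finset ℕ) (hB : ∀ n ∈ B, v * n ∈ UU W N a ∧ lam (mr W N l (v * n)) ≠ -lam (v * n) ∧ n ∈ range (W * N) ∧
      (∀ m ∈ Fintype.piFinset TT, ∀ i : ℕ, i ≤ s → mr W N (1 * pp m i) (v * n) ∉ Aff W N a (EE W N a κ) ∧
        mr W N (l * pp m i) (v * n) ∉ Aff W N a (EE W N a κ))) :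
    ∑ n ∈ B, NL W N l TT (v * n) ≤ ∑ m ∈ Fintype.piFinset TT, ∑ i : Fin s,
      (((Finset.range (W * N)).filter fun n => v * n < W * N ∧ Land W N l (pp m s) (v * n) ∧
        Fl W N (1 * pp m i) (m i) (v * n)).card +
      ((Finset.range (W * N)).filter fun n => v * n < W * N ∧ Land W N l (pp m s) (v * n) ∧
        Fl W N (l * pp m i) (m i) (v * n)).card) := by
  have h1 : ∀ n ∈ B, NL W N l TT (v * n) ≤ ∑ m ∈ Fintype.piFinset TT, ∑ i : Fin s,
      ((if v * n < W * N ∧ Land W N l (pp m s) (v * n) ∧ Fl W N (1 * pp m i) (m i) (v * n) then 1 else 0) +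
       (if v * n < W * N ∧ Land W N l (pp m s) (v * n) ∧ Fl W N (l * pp m i) (m i) (v * n) then 1 else 0)) := by
    intro n hnB
    obtain ⟨b1, b2, b3, b4⟩ := hB n hnB
    have hlt : v * n < W * N := by
      unfold UU at b1
      rw [Finset.mem_filter, Finset.mem_range] at b1
      exact b1.1
    unfold NL
    rw [Finset.card_filter]
    refine Finset.sum_le_sum fun m hm => ?_
    by_cases hL : Land W N l (pp m s) (v * n)
    · rw [if_pos hL]
      obtain ⟨i, hi⟩ := pl_fail hc hn hκ hT hl hlW hlL b1 b2 hm hL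
        (fun i _ h => (b4 m hm i h).1) (fun i _ h => (b4 m hm i h).2)
      refine le_trans ?_ (Finset.single_le_sum (f := fun i : Fin s =>
        ((if v * n < W * N ∧ Land W N l (pp m s) (v * n) ∧ Fl W N (1 * pp m i) (m i) (v * n) then 1 else 0) +
         (if v * n < W * N ∧ Land W N l (pp m s) (v * n) ∧ Fl W N (l * pp m i) (m i) (v * n) then 1 else 0)))
        (fun i _ => Nat.zero_le _) (Finset.mem_univ i))
      rcases hi with hi | hi
      · rw [if_pos ⟨hlt, hL, hi⟩]; omega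
      · have e2 : (if v * n < W * N ∧ Land W N l (pp m s) (v * n) ∧
          Fl W N (l * pp m i) (m i) (v * n) then 1 else 0) = 1 := if_pos ⟨hlt, hL, hi⟩
        rw [e2]; omega
    · rw [if_neg hL]; exact Nat.zero_le _
  calc ∑ n ∈ B, NL W N l TT (v * n) ≤ ∑ n ∈ B, ∑ m ∈ Fintype.piFinset TT, ∑ i : Fin s,
      ((if v * n < W * N ∧ Land W N l (pp m s) (v * n) ∧ Fl W N (1 * pp m i) (m i) (v * n) then 1 else 0) +
       (if v * n < W * N ∧ Land W N l (pp m s) (v * n) ∧ Fl W N (l * pp m i) (m i) (v * n) then 1 else 0)) :=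
        Finset.sum_le_sum h1
    _ = ∑ m ∈ Fintype.piFinset TT, ∑ i : Fin s, ∑ n ∈ B,
      ((if v * n < W * N ∧ Land W N l (pp m s) (v * n) ∧ Fl W N (1 * pp m i) (m i) (v * n) then 1 else 0) +
       (if v * n < W * N ∧ Land W N l (pp m s) (v * n) ∧ Fl W N (l * pp m i) (m i) (v * n) then 1 else 0)) := by
        rw [Finset.sum_comm]
        refine Finset.sum_congr rfl fun m _ => ?_
        rw [Finset.sum_comm]
    _ ≤ _ := by
        refine Finset.sum_le_sum fun m _ => Finset.sum_le_sum fun i _ => ?_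
        rw [Finset.sum_add_distrib, ← Finset.card_filter, ← Finset.card_filter]
        refine Nat.add_le_add (Finset.card_le_card ?_) (Finset.card_le_card ?_)
        · intro n hn'
          rw [Finset.mem_filter] at hn' ⊢
          exact ⟨(hB n hn'.1).2.2.1, hn'.2⟩
        · intro n hn'
          rw [Finset.mem_filter] at hn' ⊢
          exact ⟨(hB n hn'.1).2.2.1, hn'.2⟩

open Classical in
theorem pl (W : ℕ) (hW : 1 ≤ W) (C1 : ℝ) : ∃ C2 : ℝ, 0 ≤ C2 ∧ ∀ η : ℝ, 0 < η → ∃ N0 : ℕ, ∀ N : ℕ, N0 ≤ N →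
    ∀ a : ℕ, Cfg W N a → ∀ κ : ℝ, κ ^ 2 = 1 → ∀ l : ℕ, l.Prime → l % W = 1 % W → (l : ℝ) ≤ (Real.log N) ^ C1 →
    ∀ v : ℕ, 1 ≤ v → v * LL N ^ 5 ≤ N →
    (((Finset.range (W * N)).filter fun n => v * n ∈ UU W N a ∧ lam (mr W N l (v * n)) ≠ -lam (v * n) ∧
      ∀ A : ℕ, (A : ℝ) ≤ (Real.log N) ^ C2 → mr W N A (v * n) ∉ Aff W N a (EE W N a κ)).card : ℝ) ≤ η * N / v := by
  obtain ⟨c1, hc1⟩ : ∃ c1 : ℝ, c1 = |C1| := ⟨_, rfl⟩
  have hc10 : 0 ≤ c1 := by rw [hc1]; exact abs_nonneg _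
  obtain ⟨s, hs⟩ : ∃ s : ℕ, s = ⌈4000 * (c1 + 1)⌉₊ := ⟨_, rfl⟩
  have hs1 : 4000 * (c1 + 1) ≤ (s : ℝ) := by rw [hs]; exact Nat.le_ceil _
  refine ⟨c1 + s, by positivity, ?_⟩
  intro η hη
  obtain ⟨N1, hN1⟩ := num W
  obtain ⟨N2, hN2⟩ := num_pow c1
  obtain ⟨N3, hN3⟩ := tJ_low
  obtain ⟨N4, hN4⟩ := tny W hW s
  obtain ⟨N5, hN5⟩ := fm W hW (η / (8 * s + 8)) (c1 + s) (by positivity)
  obtain ⟨N6, hN6⟩ := var W hW s c1
  obtain ⟨K0, hK0⟩ : ∃ K0 : ℝ, K0 = 4 + 2 ^ (2 * s + 5) * W / η := ⟨_, rfl⟩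
  refine ⟨N1 + N2 + N3 + N4 + N5 + N6 + ⌈Real.exp K0⌉₊, ?_⟩
  intro N hN a hc κ hκ l hl hlW hlK v hv hvL
  have hn := hN1 N (by omega)
  have hNe : Real.exp K0 ≤ (N : ℝ) :=
    le_trans (Nat.le_ceil _) (by exact_mod_cast (by omega : ⌈Real.exp K0⌉₊ ≤ N))
  have hN0 : (0 : ℝ) < N := lt_of_lt_of_le (Real.exp_pos _) hNe
  obtain ⟨K, hK⟩ : ∃ K : ℝ, K = Real.log N := ⟨_, rfl⟩
  have hKK0 : K0 ≤ K := by
    rw [hK, Real.le_log_iff_exp_le hN0]; exact hNe
  have hW0 : (0 : ℝ) < W := by exact_mod_cast hW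
  have hK4 : 4 ≤ K := by
    have : 0 ≤ (2 : ℝ) ^ (2 * s + 5) * W / η := by positivity
    linarith
  have hK1 : 1 ≤ K := by linarith
  have hKpos : 0 < K := by linarith
  have hKη : (2 : ℝ) ^ (2 * s + 5) * W ≤ η * K := by
    have h1 : (2 : ℝ) ^ (2 * s + 5) * W / η ≤ K := by linarith
    rw [div_le_iff₀ hη] at h1
    linarith
  have hKC : K ^ C1 ≤ K ^ c1 := Real.rpow_le_rpow_of_exponent_le hK1 (by rw [hc1]; exact le_abs_self _)
  rw [← hK] at hlK
  have hlK' : (l : ℝ) ≤ K ^ c1 := hlK.trans hKC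
  have hlL : l ≤ LL N := by
    have h1 := hN2 N (by omega)
    rw [← hK] at h1
    exact_mod_cast hlK'.trans h1
  obtain ⟨hT1, hT2⟩ := hN3 N (by omega)
  rw [← hK] at hT1 hT2
  obtain ⟨T, hT⟩ : ∃ T : ℕ, T = Nat.sqrt (tJ N) := ⟨_, rfl⟩
  rw [← hT] at hT1
  have hTpos : 1 ≤ T := by
    rw [hT]
    exact Nat.sqrt_pos.mpr hn.J1
  obtain ⟨TT, hTT⟩ := hN4 N (by omega)
  rw [← hT] at hTT
  -- sizes
  have hJK : 2 * (tJ N : ℝ) ≤ K := by
    have h1 : K ^ ((1 : ℝ) / 2000) ≤ K ^ ((1 : ℝ) / 2) :=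
      Real.rpow_le_rpow_of_exponent_le hK1 (by norm_num)
    have h2 : K ^ ((1 : ℝ) / 2) = Real.sqrt K := (Real.sqrt_eq_rpow K).symm
    have h3 : 2 ≤ Real.sqrt K := by
      rw [show (2 : ℝ) = Real.sqrt 4 by rw [show (4 : ℝ) = 2 ^ 2 by norm_num, Real.sqrt_sq (by norm_num)]]
      exact Real.sqrt_le_sqrt hK4
    have h4 : Real.sqrt K * Real.sqrt K = K := Real.mul_self_sqrt hKpos.le
    nlinarith
  have hpow : (((2 * tJ N) ^ s : ℕ) : ℝ) ≤ K ^ (s : ℝ) := by
    rw [Real.rpow_natCast]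
    push_cast
    exact pow_le_pow_left₀ (by positivity) hJK s
  have hbig : ∀ m ∈ Fintype.piFinset TT, ∀ i : ℕ, ((l * pp m i : ℕ) : ℝ) ≤ K ^ (c1 + s) := by
    intro m hm i
    rw [Real.rpow_add hKpos]
    push_cast
    have h1 : ((pp m i : ℕ) : ℝ) ≤ K ^ (s : ℝ) := by
      refine le_trans ?_ hpow
      exact_mod_cast pl_pp_le hTT hm hn.J1 i
    exact mul_le_mul hlK' h1 (by positivity) (by positivity)
  have hbig1 : ∀ m ∈ Fintype.piFinset TT, ∀ i : ℕ, ((1 * pp m i : ℕ) : ℝ) ≤ K ^ (c1 + s) := by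
    intro m hm i
    refine le_trans ?_ (hbig m hm i)
    exact_mod_cast Nat.mul_le_mul_right _ hl.one_lt.le
  have hTs : K ^ c1 * K ≤ 2 ^ s * (T : ℝ) ^ s := by
    have h1 : K ^ ((1 : ℝ) / 4000) ≤ 2 * (T : ℝ) := by
      have : (1 : ℝ) ≤ T := by exact_mod_cast hTpos
      linarith
    have h2 : (K ^ ((1 : ℝ) / 4000)) ^ s ≤ (2 * (T : ℝ)) ^ s :=
      pow_le_pow_left₀ (by positivity) h1 s
    have h3 : K ^ c1 * K ≤ (K ^ ((1 : ℝ) / 4000)) ^ s := by
      rw [← Real.rpow_natCast, ← Real.rpow_mul hKpos.le]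
      calc K ^ c1 * K = K ^ c1 * K ^ (1 : ℝ) := by rw [Real.rpow_one]
        _ = K ^ (c1 + 1) := (Real.rpow_add hKpos _ _).symm
        _ ≤ K ^ ((1 : ℝ) / 4000 * (s : ℝ)) := by
            apply Real.rpow_le_rpow_of_exponent_le hK1
            linarith
    calc K ^ c1 * K ≤ (K ^ ((1 : ℝ) / 4000)) ^ s := h3
      _ ≤ (2 * (T : ℝ)) ^ s := h2
      _ = 2 ^ s * (T : ℝ) ^ s := mul_pow _ _ _
  obtain ⟨Bd, hBd⟩ : ∃ Bd : Finset ℕ, Bd = (Finset.range (W * N)).filter fun n =>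
      v * n ∈ UU W N a ∧ lam (mr W N l (v * n)) ≠ -lam (v * n) ∧
      ∀ A : ℕ, (A : ℝ) ≤ (Real.log N) ^ (c1 + s) → mr W N A (v * n) ∉ Aff W N a (EE W N a κ) := ⟨_, rfl⟩
  rw [← hBd]
  have hBd' : ∀ n ∈ Bd, v * n ∈ UU W N a ∧ lam (mr W N l (v * n)) ≠ -lam (v * n) ∧ n ∈ range (W * N) ∧
      (∀ m ∈ Fintype.piFinset TT, ∀ i : ℕ, i ≤ s → mr W N (1 * pp m i) (v * n) ∉ Aff W N a (EE W N a κ) ∧
        mr W N (l * pp m i) (v * n) ∉ Aff W N a (EE W N a κ)) := by
    intro n hnB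
    rw [hBd, Finset.mem_filter] at hnB
    obtain ⟨b0, b1, b2, b3⟩ := hnB
    refine ⟨b1, b2, b0, ?_⟩
    intro m hm i _
    rw [← hK] at b3
    exact ⟨b3 _ (hbig1 m hm i), b3 _ (hbig m hm i)⟩
  have hv0 : (0 : ℝ) < v := by exact_mod_cast hv
  have hl0 : (0 : ℝ) < l := by exact_mod_cast hl.pos
  have hTs0 : (0 : ℝ) < (T : ℝ) ^ s := by
    have : (0 : ℝ) < T := by exact_mod_cast hTpos
    positivity
  -- the failures
  have hfm : ∀ m ∈ Fintype.piFinset TT, ∀ i : Fin s,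
      (((Finset.range (W * N)).filter fun n => v * n < W * N ∧ Land W N l (pp m s) (v * n) ∧
        Fl W N (1 * pp m i) (m i) (v * n)).card : ℝ) ≤ η / (8 * s + 8) * N / (l * v) ∧
      (((Finset.range (W * N)).filter fun n => v * n < W * N ∧ Land W N l (pp m s) (v * n) ∧
        Fl W N (l * pp m i) (m i) (v * n)).card : ℝ) ≤ η / (8 * s + 8) * N / (l * v) := by
    intro m hm i
    obtain ⟨hp, _, hp2, _⟩ := pl_mem hTT hm i
    have hM := hbig m hm s
    rw [hK] at hM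
    constructor
    · refine hN5 N (by omega) hc.big v l (pp m s) (1 * pp m i) (m i)
        (l * ∏ t ∈ (Finset.univ : Finset (Fin s)).filter (fun t => i.val < t.val), m t)
        hv hvL hl.one_lt.le (pl_pp_pos hTT hm s) (by rw [one_mul]; exact pl_pp_pos hTT hm i)
        hp.one_lt.le hp2 ?_ hM
      rw [pl_pp_split m i]
      ring
    · refine hN5 N (by omega) hc.big v l (pp m s) (l * pp m i) (m i)
        (∏ t ∈ (Finset.univ : Finset (Fin s)).filter (fun t => i.val < t.val), m t)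
        hv hvL hl.one_lt.le (pl_pp_pos hTT hm s)
        (Nat.one_le_iff_ne_zero.mpr (Nat.mul_ne_zero hl.ne_zero
          (Nat.one_le_iff_ne_zero.mp (pl_pp_pos hTT hm i))))
        hp.one_lt.le hp2 ?_ hM
      rw [pl_pp_split m i]
      ring
  have hsumNL : ∀ B : Finset ℕ, B ⊆ Bd → ((∑ n ∈ B, NL W N l TT (v * n) : ℕ) : ℝ) ≤
      (T : ℝ) ^ s * (s * (2 * (η / (8 * s + 8) * N / (l * v)))) := by
    intro B hB
    have h1 := pl_count hc hn hκ hTT hl hlW hlL B (fun n hnB => hBd' n (hB hnB)) (v := v)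
    refine (Nat.cast_le.mpr h1).trans ?_
    push_cast
    calc ∑ m ∈ Fintype.piFinset TT, ∑ i : Fin s,
      ((((Finset.range (W * N)).filter fun n => v * n < W * N ∧ Land W N l (pp m s) (v * n) ∧
        Fl W N (1 * pp m i) (m i) (v * n)).card : ℝ) +
      (((Finset.range (W * N)).filter fun n => v * n < W * N ∧ Land W N l (pp m s) (v * n) ∧
        Fl W N (l * pp m i) (m i) (v * n)).card : ℝ))
        ≤ ∑ m ∈ Fintype.piFinset TT, ∑ i : Fin s, (2 * (η / (8 * s + 8) * N / (l * v))) := by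
          refine Finset.sum_le_sum fun m hm => Finset.sum_le_sum fun i _ => ?_
          have := hfm m hm i
          linarith [this.1, this.2]
      _ = (T : ℝ) ^ s * (s * (2 * (η / (8 * s + 8) * N / (l * v)))) := by
          rw [Finset.sum_const, Finset.sum_const, Finset.card_univ, Fintype.card_fin,
            Fintype.card_piFinset, nsmul_eq_mul, nsmul_eq_mul]
          congr 1
          rw [Finset.prod_congr rfl (fun t _ => hTT.card t), Finset.prod_const, Finset.card_univ,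
            Fintype.card_fin]
          push_cast
          rfl
  -- the two parts
  have hsplit : (Bd.card : ℝ) ≤ ((Bd.filter fun n => 2 * l * NL W N l TT (v * n) < T ^ s).card : ℝ) +
      ((Bd.filter fun n => ¬ 2 * l * NL W N l TT (v * n) < T ^ s).card : ℝ) := by
    rw [← Nat.cast_add, Finset.card_filter_add_card_filter_not]
  have hpart1 : ((Bd.filter fun n => 2 * l * NL W N l TT (v * n) < T ^ s).card : ℝ) ≤ η / 2 * N / v := by
    have h1 := hN6 N (by omega) v l T TT hv hvL hl.one_lt.le (by rw [← hK]; exact hlK') hTpos hTT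
    have h2 : ((Bd.filter fun n => 2 * l * NL W N l TT (v * n) < T ^ s).card : ℝ) ≤
        (((Finset.range (W * N)).filter fun n => v * n < W * N ∧ 2 * l * NL W N l TT (v * n) < T ^ s).card : ℝ) := by
      exact_mod_cast Finset.card_le_card (by
        intro n hn'
        rw [Finset.mem_filter] at hn' ⊢
        obtain ⟨b1, _, b3, _⟩ := hBd' n hn'.1
        unfold UU at b1
        rw [Finset.mem_filter, Finset.mem_range] at b1
        exact ⟨b3, b1.1, hn'.2⟩)
    have h3 : ((Bd.filter fun n => 2 * l * NL W N l TT (v * n) < T ^ s).card : ℝ) * (T : ℝ) ^ s ≤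
        η / 2 * N / v * (T : ℝ) ^ s := by
      refine (mul_le_mul_of_nonneg_right h2 hTs0.le).trans (h1.trans ?_)
      have h4 : (2 : ℝ) ^ (s + 4) * l * W ≤ η / 2 * (T : ℝ) ^ s := by
        have h5 : (2 : ℝ) ^ (s + 4) * l * W ≤ (2 : ℝ) ^ (s + 4) * K ^ c1 * W := by
          apply mul_le_mul_of_nonneg_right _ hW0.le
          exact mul_le_mul_of_nonneg_left hlK' (by positivity)
        have h6 : (2 : ℝ) ^ (s + 4) * K ^ c1 * W * (2 ^ s * 2) ≤ η / 2 * (T : ℝ) ^ s * (2 ^ s * 2) := by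
          calc (2 : ℝ) ^ (s + 4) * K ^ c1 * W * (2 ^ s * 2) = K ^ c1 * (2 ^ (2 * s + 5) * W) := by
                have e : (2 : ℝ) ^ (2 * s + 5) = 2 ^ (s + 4) * 2 ^ s * 2 := by
                  rw [← pow_add, ← pow_succ]
                  congr 1
                  ring
                rw [e]
                ring
            _ ≤ K ^ c1 * (η * K) := mul_le_mul_of_nonneg_left hKη (by positivity)
            _ = η * (K ^ c1 * K) := by ring
            _ ≤ η * (2 ^ s * (T : ℝ) ^ s) := mul_le_mul_of_nonneg_left hTs hη.le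
            _ = η / 2 * (T : ℝ) ^ s * (2 ^ s * 2) := by ring
        exact h5.trans (le_of_mul_le_mul_right h6 (by positivity))
      calc (2 : ℝ) ^ (s + 4) * l * (W * N) / v = (2 : ℝ) ^ (s + 4) * l * W * (N / v) := by ring
        _ ≤ η / 2 * (T : ℝ) ^ s * (N / v) := mul_le_mul_of_nonneg_right h4 (by positivity)
        _ = η / 2 * N / v * (T : ℝ) ^ s := by ring
    exact le_of_mul_le_mul_right h3 hTs0
  have hpart2 : ((Bd.filter fun n => ¬ 2 * l * NL W N l TT (v * n) < T ^ s).card : ℝ) ≤ η / 2 * N / v := by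
    have h1 := hsumNL (Bd.filter fun n => ¬ 2 * l * NL W N l TT (v * n) < T ^ s) (Finset.filter_subset _ _)
    have h2 : ((Bd.filter fun n => ¬ 2 * l * NL W N l TT (v * n) < T ^ s).card : ℝ) * (T : ℝ) ^ s ≤
        2 * l * ((∑ n ∈ (Bd.filter fun n => ¬ 2 * l * NL W N l TT (v * n) < T ^ s),
          NL W N l TT (v * n) : ℕ) : ℝ) := by
      have h3 : (Bd.filter fun n => ¬ 2 * l * NL W N l TT (v * n) < T ^ s).card * T ^ s ≤
          2 * l * ∑ n ∈ (Bd.filter fun n => ¬ 2 * l * NL W N l TT (v * n) < T ^ s), NL W N l TT (v * n) := by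
        rw [Finset.mul_sum, ← smul_eq_mul, ← Finset.sum_const]
        refine Finset.sum_le_sum fun n hn' => ?_
        rw [Finset.mem_filter] at hn'
        exact not_lt.mp hn'.2
      exact_mod_cast h3
    have h4 : ((Bd.filter fun n => ¬ 2 * l * NL W N l TT (v * n) < T ^ s).card : ℝ) * (T : ℝ) ^ s ≤
        η / 2 * N / v * (T : ℝ) ^ s := by
      refine h2.trans ((mul_le_mul_of_nonneg_left h1 (by positivity)).trans ?_)
      have h5 : (s : ℝ) / (8 * s + 8) ≤ 1 / 8 := by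
        rw [div_le_div_iff₀ (by positivity) (by norm_num)]
        linarith
      calc 2 * (l : ℝ) * ((T : ℝ) ^ s * (s * (2 * (η / (8 * s + 8) * N / (l * v)))))
          = 4 * ((s : ℝ) / (8 * s + 8)) * (η * N / v * (T : ℝ) ^ s) := by
            field_simp
            ring
        _ ≤ 4 * (1 / 8) * (η * N / v * (T : ℝ) ^ s) := by
            apply mul_le_mul_of_nonneg_right _ (by positivity)
            linarith
        _ = η / 2 * N / v * (T : ℝ) ^ s := by ring
    exact le_of_mul_le_mul_right h4 hTs0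
  calc (Bd.card : ℝ) ≤ _ := hsplit
    _ ≤ η / 2 * N / v + η / 2 * N / v := add_le_add hpart1 hpart2
    _ = η * N / v := by ring

end Pool.Agent.Lib.OW
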