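import Pool.Agent.Lib.MP_7b7e48_nt.RG.NUM
import Pool.Agent.Lib.MP_7b7e48_nt.OW.OD

/-!
# Module S1 (60 minutes): the sum of `1 * c` over the numbers coprime to the modulus

PROOF. `1_{(n,N)=1} = ∑_{d ∣ N, d ∣ n} μ(d)` and `rr c (d n') = rr c n'` for `d ∣ N` (a divisor `e` of `d n'` with `c e ≠ 0` is coprime to `N`, hence divides `n'`). So
`SSs N c y = ∑_{d ∣ N} μ(d) SS c (y / d)`. `SS_asymp` at `⌊y/d⌋` (if it is `≥ 1`; if `y < d` then `SS = 0` and `L y/d ≤ L`): `|SS c (y/d) - L y/d| ≤ C √(y/d) N^(13/50) + L`.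
`∑_{d ∣ N} μ(d)/d = φ(N)/N`. The number of divisors of `N` is `≤ N^(1/100)` for large `N` (`RG.divisor_bound`) and `L ≤ N^(1/100)` for large `N` (`RC`, `LV` with `y = N`: `L ≤ 1 + log N + 2 PB N / N`, `RG.PB_le`).
So the error is `≤ N^(1/100) (C √y N^(13/50) + N^(1/100)) ≤ √y N^(3/10)`.
-/

open Finset

namespace Pool.Agent.Lib.OW

open Pool.Agent.Lib.RG (RC LV rr SS PB)

theorem rs_nonneg {N : ℕ} {c : ℕ → ℝ} (hc : RC N c) (n : ℕ) : 0 ≤ rs N c n := by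
  unfold rs
  split_ifs
  · exact Pool.Agent.Lib.RG.rr_nonneg N c hc n
  · exact le_rfl

private theorem S1_one {N : ℕ} {c : ℕ → ℝ} (hc : RC N c) : c 1 = 1 := by
  have h1 := hc.mul 1 1
  rw [mul_one] at h1
  rcases hc.val 1 (Nat.coprime_one_left N) with h | h
  · exact h
  · rw [h] at h1
    norm_num at h1

private theorem S1_abs {N : ℕ} {c : ℕ → ℝ} (hc : RC N c) (n : ℕ) : |c n| ≤ 1 := by
  by_cases h : n.Coprime N
  · rcases hc.val n h with h1 | h1
    · rw [h1, abs_one]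
    · rw [h1, abs_neg, abs_one]
  · rw [hc.zero n h, abs_zero]
    exact zero_le_one

private theorem S1_harm (n : ℕ) : ∑ a ∈ Finset.Icc 1 n, (1 : ℝ) / a ≤ 1 + Real.log n := by
  have h := harmonic_le_one_add_log n
  rw [harmonic_eq_sum_Icc] at h
  push_cast at h
  refine le_trans (le_of_eq ?_) h
  exact Finset.sum_congr rfl fun a _ => one_div _

/-- bound for `L` -/
theorem S1_L_le {N : ℕ} (h2 : 2 ≤ N) {c : ℕ → ℝ} {L : ℝ} (hc : RC N c) (hL : LV N c L) :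
    L ≤ 1 + Real.log N + 2 * PB N / N := by
  have h1 := hL.2 N (by omega)
  have h3 : ∑ a ∈ Finset.Icc 1 N, c a / a ≤ 1 + Real.log N := by
    refine le_trans (Finset.sum_le_sum fun a ha => ?_) (S1_harm N)
    rw [Finset.mem_Icc] at ha
    have ha0 : (0 : ℝ) < a := by
      have : 0 < a := by omega
      exact_mod_cast this
    exact div_le_div_of_nonneg_right ((le_abs_self _).trans (S1_abs hc a)) ha0.le
  have h5 := (abs_le.1 h1).1
  linarith

/-- `rr c (d n) = rr c n` for `d ∣ N` -/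
theorem S1_rr_mul {N : ℕ} {c : ℕ → ℝ} (hc : RC N c) (hN : N ≠ 0) {d : ℕ} (hd : d ∣ N) {n : ℕ}
    (hn : n ≠ 0) : rr c (d * n) = rr c n := by
  have hd0 : d ≠ 0 := ne_zero_of_dvd_ne_zero hN hd
  unfold rr
  symm
  refine Finset.sum_subset (Nat.divisors_subset_of_dvd (mul_ne_zero hd0 hn)
    (Dvd.intro_left d rfl)) ?_
  intro e he hne
  rw [Nat.mem_divisors] at he hne
  apply hc.zero
  intro hco
  apply hne
  refine ⟨?_, hn⟩
  have : e.Coprime d := Nat.Coprime.coprime_dvd_right hd hco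
  exact this.dvd_of_dvd_mul_left he.1

/-- the indicator of the numbers coprime to `N` -/
theorem S1_ind {N : ℕ} (hN : N ≠ 0) (n : ℕ) : (if n.Coprime N then (1 : ℝ) else 0) =
    ∑ d ∈ N.divisors, if d ∣ n then ((ArithmeticFunction.moebius d : ℤ) : ℝ) else 0 := by
  rw [← Finset.sum_filter]
  have h : N.divisors.filter (fun d => d ∣ n) = (Nat.gcd n N).divisors := by
    ext d
    rw [mem_filter, Nat.mem_divisors, Nat.mem_divisors]
    constructor
    · rintro ⟨⟨h1, h2⟩, h3⟩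
      exact ⟨Nat.dvd_gcd h3 h1, Nat.gcd_ne_zero_right hN⟩
    · rintro ⟨h1, h2⟩
      exact ⟨⟨h1.trans (Nat.gcd_dvd_right _ _), hN⟩, h1.trans (Nat.gcd_dvd_left _ _)⟩
  rw [h]
  have h2 : ∑ d ∈ (Nat.gcd n N).divisors, (ArithmeticFunction.moebius d : ℤ) =
      if Nat.gcd n N = 1 then 1 else 0 := by
    rw [← ArithmeticFunction.coe_mul_zeta_apply, ArithmeticFunction.moebius_mul_coe_zeta,
      ArithmeticFunction.one_apply]
  have h3 := congrArg (fun z : ℤ => (z : ℝ)) h2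
  push_cast at h3
  rw [h3]

/-- the density -/
theorem S1_del {N : ℕ} (hN : N ≠ 0) :
    del N = ∑ d ∈ N.divisors, ((ArithmeticFunction.moebius d : ℤ) : ℝ) / d := by
  have h := (ArithmeticFunction.sum_eq_iff_sum_mul_moebius_eq
    (f := fun n => (Nat.totient n : ℝ)) (g := fun n => (n : ℝ))).1 (by
      intro n hn
      exact_mod_cast congrArg (fun z : ℕ => (z : ℝ)) (Nat.sum_totient n))
    N (Nat.pos_of_ne_zero hN)
  unfold del
  rw [← h, Finset.sum_div,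
    Nat.sum_divisorsAntidiagonal (f := fun a b => ((ArithmeticFunction.moebius a : ℤ) : ℝ) * (b : ℝ) / N)]
  refine sum_congr rfl fun d hd => ?_
  rw [Nat.mem_divisors] at hd
  have hd0 : d ≠ 0 := ne_zero_of_dvd_ne_zero hN hd.1
  have hdr : (d : ℝ) ≠ 0 := by exact_mod_cast hd0
  have hNr : (N : ℝ) ≠ 0 := by exact_mod_cast hN
  rw [Nat.cast_div hd.1 hdr]
  field_simp

private theorem S1_SSs {N : ℕ} {c : ℕ → ℝ} (hc : RC N c) (hN : N ≠ 0) (y : ℕ) :
    SSs N c y = ∑ d ∈ N.divisors, ((ArithmeticFunction.moebius d : ℤ) : ℝ) * SS c (y / d) := by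
  unfold SSs SS
  have h1 : ∀ n ∈ Finset.Icc 1 y, rs N c n = ∑ d ∈ N.divisors,
      if d ∣ n then ((ArithmeticFunction.moebius d : ℤ) : ℝ) * rr c n else 0 := by
    intro n _
    have h2 : rs N c n = (if n.Coprime N then (1 : ℝ) else 0) * rr c n := by
      unfold rs
      split_ifs <;> simp
    rw [h2, S1_ind hN, Finset.sum_mul]
    refine sum_congr rfl fun d _ => ?_
    split_ifs <;> simp
  rw [sum_congr rfl h1, sum_comm]
  refine sum_congr rfl fun d hd => ?_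
  have hd0 : 0 < d := Nat.pos_of_mem_divisors hd
  have hdN : d ∣ N := Nat.dvd_of_mem_divisors hd
  rw [← sum_filter, mul_sum]
  symm
  refine Finset.sum_nbij' (fun n => d * n) (fun n => n / d) ?_ ?_ ?_ ?_ ?_
  · intro n hn
    rw [Finset.mem_Icc] at hn
    rw [Finset.mem_filter, Finset.mem_Icc]
    refine ⟨⟨Nat.mul_pos hd0 hn.1, ?_⟩, Dvd.intro n rfl⟩
    calc d * n ≤ d * (y / d) := Nat.mul_le_mul_left d hn.2
      _ ≤ y := Nat.mul_div_le y d
  · intro n hn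
    rw [Finset.mem_filter, Finset.mem_Icc] at hn
    rw [Finset.mem_Icc]
    refine ⟨?_, Nat.div_le_div_right hn.1.2⟩
    exact Nat.div_pos (Nat.le_of_dvd hn.1.1 hn.2) hd0
  · intro n _
    exact Nat.mul_div_cancel_left n hd0
  · intro n hn
    rw [Finset.mem_filter] at hn
    exact Nat.mul_div_cancel' hn.2
  · intro n hn
    rw [Finset.mem_Icc] at hn
    rw [S1_rr_mul hc hN hdN (by omega)]

private theorem S1_term {N : ℕ} {c : ℕ → ℝ} {L C : ℝ} (hC : 0 < C) (hL : LV N c L)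
    (hS : ∀ y : ℕ, |SS c y - y * L| ≤ C * Real.sqrt y * (N : ℝ) ^ ((13 : ℝ) / 50)) (y d : ℕ)
    (hd : 0 < d) : |((ArithmeticFunction.moebius d : ℤ) : ℝ) * SS c (y / d) -
      ((ArithmeticFunction.moebius d : ℤ) : ℝ) / d * L * y| ≤
      C * Real.sqrt y * (N : ℝ) ^ ((13 : ℝ) / 50) + L := by
  have hd' : (0 : ℝ) < d := by exact_mod_cast hd
  have hmu : |((ArithmeticFunction.moebius d : ℤ) : ℝ)| ≤ 1 := by
    have h := ArithmeticFunction.abs_moebius_le_one (n := d)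
    exact_mod_cast h
  have e : ((ArithmeticFunction.moebius d : ℤ) : ℝ) * SS c (y / d) -
      ((ArithmeticFunction.moebius d : ℤ) : ℝ) / d * L * y =
      ((ArithmeticFunction.moebius d : ℤ) : ℝ) * (SS c (y / d) - L * (y / d)) := by ring
  rw [e, abs_mul]
  have h1 := hS (y / d)
  have h2 : Real.sqrt ((y / d : ℕ) : ℝ) ≤ Real.sqrt y := by
    apply Real.sqrt_le_sqrt
    exact_mod_cast Nat.div_le_self y d
  have hN0 : (0 : ℝ) ≤ (N : ℝ) ^ ((13 : ℝ) / 50) := Real.rpow_nonneg (Nat.cast_nonneg _) _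
  have h3 : |SS c (y / d) - ((y / d : ℕ) : ℝ) * L| ≤
      C * Real.sqrt y * (N : ℝ) ^ ((13 : ℝ) / 50) := by
    refine h1.trans ?_
    gcongr
  have h4 : ((y / d : ℕ) : ℝ) ≤ (y : ℝ) / d := Nat.cast_div_le
  have h5 : (y : ℝ) / d ≤ ((y / d : ℕ) : ℝ) + 1 := by
    rw [div_le_iff₀ hd']
    have h6 : y ≤ (y / d + 1) * d := by
      have := Nat.lt_mul_div_succ y hd
      rw [mul_comm]
      exact this.le
    exact_mod_cast h6
  have h7 : |((y / d : ℕ) : ℝ) * L - L * (y / d)| ≤ L := by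
    have e2 : ((y / d : ℕ) : ℝ) * L - L * ((y : ℝ) / d) =
        -(L * ((y : ℝ) / d - ((y / d : ℕ) : ℝ))) := by ring
    rw [e2, abs_neg, abs_mul, abs_of_nonneg hL.1, abs_of_nonneg (by linarith)]
    nlinarith [hL.1]
  calc |((ArithmeticFunction.moebius d : ℤ) : ℝ)| * |SS c (y / d) - L * (y / d)|
      ≤ 1 * |SS c (y / d) - L * (y / d)| := by gcongr
    _ = |(SS c (y / d) - ((y / d : ℕ) : ℝ) * L) + (((y / d : ℕ) : ℝ) * L - L * (y / d))| := by
        rw [one_mul]; ring_nf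
    _ ≤ _ := (abs_add_le _ _).trans (add_le_add h3 h7)

theorem SSs_asymp : ∃ N0 : ℕ, ∀ N : ℕ, N0 ≤ N → ∀ (c : ℕ → ℝ) (L : ℝ), RC N c → LV N c L → ∀ y : ℕ, 1 ≤ y →
    |SSs N c y - del N * L * y| ≤ Real.sqrt y * (N : ℝ) ^ ((3 : ℝ) / 10) := by
  obtain ⟨C, hC, hS⟩ := Pool.Agent.Lib.RG.SS_asymp
  obtain ⟨C1, hC1, hP⟩ := Pool.Agent.Lib.RG.PB_le (1 / 100) (by norm_num)
  have e1 := Pool.Agent.Lib.RH.ev_log_ge 1
  have e2 := Pool.Agent.Lib.RH.ev_log_pow 1 (1 / 100) (by norm_num) (2 + 2 * C1) (by positivity)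
  have e3 := Pool.Agent.Lib.RH.ev_log_pow 0 (3 / 100) (by norm_num) (C1 * (C + 1)) (by positivity)
  obtain ⟨N0, hN0⟩ := Filter.eventually_atTop.mp (e1.and (e2.and (e3.and
    (Filter.eventually_ge_atTop 2))))
  refine ⟨N0, fun N hN c L hc hL y hy => ?_⟩
  obtain ⟨h1, h2, h3, h4⟩ := hN0 N hN
  rw [pow_one] at h2
  rw [pow_zero, mul_one] at h3
  have hN1 : (1 : ℝ) ≤ N := by exact_mod_cast (by omega : 1 ≤ N)
  have hNp : (0 : ℝ) < N := by linarith
  have hy1 : (1 : ℝ) ≤ y := by exact_mod_cast hy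
  have hs1 : 1 ≤ Real.sqrt y := Real.one_le_sqrt.2 hy1
  obtain ⟨hPB, hdiv⟩ := hP N h4
  have hL1 : L ≤ (N : ℝ) ^ ((1 : ℝ) / 100) := by
    refine (S1_L_le h4 hc hL).trans (le_trans ?_ h2)
    have h5 : 2 * PB N / N ≤ 2 * C1 := by
      rw [div_le_iff₀ hNp]
      have h6 : (N : ℝ) ^ ((1 : ℝ) / 2 + 1 / 100) ≤ N := by
        calc (N : ℝ) ^ ((1 : ℝ) / 2 + 1 / 100) ≤ (N : ℝ) ^ (1 : ℝ) :=
              Real.rpow_le_rpow_of_exponent_le hN1 (by norm_num)
          _ = N := Real.rpow_one _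
      have h7 : PB N ≤ C1 * N := hPB.trans (mul_le_mul_of_nonneg_left h6 hC1.le)
      linarith
    nlinarith
  rw [S1_SSs hc (by omega) y, S1_del (by omega : N ≠ 0), Finset.sum_mul, Finset.sum_mul,
    ← Finset.sum_sub_distrib]
  refine (Finset.abs_sum_le_sum_abs _ _).trans ?_
  refine (Finset.sum_le_sum fun d hd => S1_term hC hL (hS N h4 c L hc hL) y d
    (Nat.pos_of_mem_divisors hd)).trans ?_
  rw [Finset.sum_const, nsmul_eq_mul]
  set t : ℝ := (N : ℝ) ^ ((1 : ℝ) / 100) with ht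
  have ht1 : 1 ≤ t := Real.one_le_rpow hN1 (by norm_num)
  have p1 : (N : ℝ) ^ ((13 : ℝ) / 50) = t ^ 26 := by
    rw [ht, ← Real.rpow_natCast, ← Real.rpow_mul hNp.le]
    norm_num
  have p2 : (N : ℝ) ^ ((3 : ℝ) / 10) = t ^ 30 := by
    rw [ht, ← Real.rpow_natCast, ← Real.rpow_mul hNp.le]
    norm_num
  have p3 : (N : ℝ) ^ ((3 : ℝ) / 100) = t ^ 3 := by
    rw [ht, ← Real.rpow_natCast, ← Real.rpow_mul hNp.le]
    norm_num
  rw [p3] at h3
  rw [p1, p2]
  have h8 : L ≤ Real.sqrt y * t ^ 26 := by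
    have h9 : t ≤ t ^ 26 := by
      calc t = t ^ 1 := (pow_one t).symm
        _ ≤ t ^ 26 := pow_le_pow_right₀ ht1 (by norm_num)
    have h10 : t ^ 26 ≤ Real.sqrt y * t ^ 26 := le_mul_of_one_le_left (by positivity) hs1
    linarith
  calc (N.divisors.card : ℝ) * (C * Real.sqrt y * t ^ 26 + L)
      ≤ (C1 * t) * (C * Real.sqrt y * t ^ 26 + Real.sqrt y * t ^ 26) := by
        have hL0 := hL.1
        gcongr
    _ = (C1 * (C + 1)) * (Real.sqrt y * t ^ 27) := by ring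
    _ ≤ t ^ 3 * (Real.sqrt y * t ^ 27) := by gcongr
    _ = Real.sqrt y * t ^ 30 := by ring

end Pool.Agent.Lib.OW
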