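import Pool.Agent.Lib.MP_7b7e48_nt.RG.NUM
import Pool.Agent.Lib.MP_7b7e48_nt.OW.S1

/-!
# Module S2 (40 minutes): two sided bounds; few primes with `c = 1`

PROOF. `del N ≥ 1/(C log N)` for large `N` (`RG.A7.phi_prod`, as in `RG/NUM.lean`, field `ph`). `SSs_two`: for `y ≥ N^(7/10)`, `√y N^(3/10) ≤ (1/100) del N L y`, since
`√y del N L ≥ N^(7/20) N^(-1/50) / (C log N) ≥ 100 N^(3/10)`. `QP_card`: a prime `q` with `c q = 1` is coprime to `N` and `rs N c q = rr c q = 1 + c q = 2`.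
-/

open Finset

namespace Pool.Agent.Lib.OW

open Pool.Agent.Lib.RG (RC LV rr SS PB)

theorem del_low : ∃ N0 : ℕ, ∀ N : ℕ, N0 ≤ N → 1 ≤ Real.log N * del N := by
  obtain ⟨N0, hN0⟩ := Filter.eventually_atTop.mp (Pool.Agent.Lib.RH.ev_totient.and
    (Filter.eventually_ge_atTop 1))
  refine ⟨N0, fun N hN => ?_⟩
  obtain ⟨h1, h2⟩ := hN0 N hN
  have hN1 : (0 : ℝ) < N := by exact_mod_cast (by omega : 0 < N)
  unfold del
  rw [← mul_div_assoc, le_div_iff₀ hN1, one_mul]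
  exact h1

theorem SSs_two : ∃ N0 : ℕ, ∀ N : ℕ, N0 ≤ N → ∀ (c : ℕ → ℝ) (L : ℝ), RC N c → LV N c L →
    (N : ℝ) ^ (-(1 / 50) : ℝ) ≤ L → ∀ y : ℕ, (N : ℝ) ^ ((7 : ℝ) / 10) ≤ y →
    (99 / 100) * (del N * L * y) ≤ SSs N c y ∧ SSs N c y ≤ (101 / 100) * (del N * L * y) := by
  obtain ⟨N1, hN1⟩ := SSs_asymp
  obtain ⟨N2, hN2⟩ := del_low
  have e1 := Pool.Agent.Lib.RH.ev_log_ge 1
  have e2 := Pool.Agent.Lib.RH.ev_log_pow 1 (3 / 100) (by norm_num) 100 (by positivity)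
  obtain ⟨N0, hN0⟩ := Filter.eventually_atTop.mp (e1.and (e2.and
    (Filter.eventually_ge_atTop (max 2 (max N1 N2)))))
  refine ⟨N0, fun N hN c L hc hL hLl y hy => ?_⟩
  obtain ⟨h1, h2, h3⟩ := hN0 N hN
  have h4 : 2 ≤ N := (le_max_left _ _).trans h3
  have h5 : N1 ≤ N := (le_max_left _ _).trans ((le_max_right _ _).trans h3)
  have h6 : N2 ≤ N := (le_max_right _ _).trans ((le_max_right _ _).trans h3)
  rw [pow_one] at h2
  have hNr : (1 : ℝ) ≤ N := by exact_mod_cast (by omega : 1 ≤ N)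
  have hNp : (0 : ℝ) < N := by linarith
  have hy1 : (1 : ℝ) ≤ y := le_trans (Real.one_le_rpow hNr (by norm_num)) hy
  have hyn : 1 ≤ y := by exact_mod_cast hy1
  have hA := hN1 N h5 c L hc hL y hyn
  have hD := hN2 N h6
  have hlog : 0 < Real.log N := by linarith
  have hdel : 0 < del N := by
    by_contra h
    rw [not_lt] at h
    have : Real.log N * del N ≤ 0 := mul_nonpos_of_nonneg_of_nonpos hlog.le h
    linarith
  set t : ℝ := (N : ℝ) ^ ((1 : ℝ) / 100) with ht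
  have ht1 : 1 ≤ t := Real.one_le_rpow hNr (by norm_num)
  have ht0 : 0 < t := by linarith
  have p1 : (N : ℝ) ^ ((3 : ℝ) / 10) = t ^ 30 := by
    rw [ht, ← Real.rpow_natCast, ← Real.rpow_mul hNp.le]
    norm_num
  have p2 : (N : ℝ) ^ ((3 : ℝ) / 100) = t ^ 3 := by
    rw [ht, ← Real.rpow_natCast, ← Real.rpow_mul hNp.le]
    norm_num
  have p3 : (N : ℝ) ^ (-(1 / 50) : ℝ) = (t ^ 2)⁻¹ := by
    rw [Real.rpow_neg hNp.le, ht, ← Real.rpow_natCast, ← Real.rpow_mul hNp.le]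
    norm_num
  have p4 : (N : ℝ) ^ ((7 : ℝ) / 10) = (t ^ 35) ^ 2 := by
    rw [ht, ← Real.rpow_natCast, ← Real.rpow_natCast, ← Real.rpow_mul hNp.le,
      ← Real.rpow_mul hNp.le]
    norm_num
  rw [p1] at hA
  rw [p2] at h2
  rw [p3] at hLl
  rw [p4] at hy
  have hs : t ^ 35 ≤ Real.sqrt y := Real.le_sqrt_of_sq_le hy
  have hss : Real.sqrt y * Real.sqrt y = y := Real.mul_self_sqrt (by linarith)
  have hs0 : 0 < Real.sqrt y := lt_of_lt_of_le (by positivity) hs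
  -- main comparison
  have hL0 : 0 < L := lt_of_lt_of_le (by positivity) hLl
  have k1 : 1 ≤ t ^ 2 * L := by
    have := mul_le_mul_of_nonneg_left hLl (by positivity : (0 : ℝ) ≤ t ^ 2)
    rwa [mul_inv_cancel₀ (by positivity)] at this
  have k2 : 100 * t ^ 30 ≤ Real.sqrt y * (del N * L) := by
    have k3 : 100 * Real.log N * t ^ 32 ≤ Real.sqrt y := by
      calc 100 * Real.log N * t ^ 32 ≤ t ^ 3 * t ^ 32 := by gcongr
        _ = t ^ 35 := by ring
        _ ≤ _ := hs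
    calc 100 * t ^ 30 = 100 * t ^ 30 * (1 * 1) := by ring
      _ ≤ 100 * t ^ 30 * ((Real.log N * del N) * (t ^ 2 * L)) := by
          gcongr
      _ = (100 * Real.log N * t ^ 32) * (del N * L) := by ring
      _ ≤ Real.sqrt y * (del N * L) := by gcongr
  have k4 : Real.sqrt y * t ^ 30 ≤ (1 / 100) * (del N * L * y) := by
    have := mul_le_mul_of_nonneg_left k2 hs0.le
    calc Real.sqrt y * t ^ 30 = (1 / 100) * (Real.sqrt y * (100 * t ^ 30)) := by ring
      _ ≤ (1 / 100) * (Real.sqrt y * (Real.sqrt y * (del N * L))) := by gcongr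
      _ = (1 / 100) * (del N * L * (Real.sqrt y * Real.sqrt y)) := by ring
      _ = _ := by rw [hss]
  have hA' := abs_le.1 (hA.trans k4)
  constructor <;> linarith [hA'.1, hA'.2]

theorem rs_prime {N : ℕ} {c : ℕ → ℝ} (hc : RC N c) {q : ℕ} (hq : q.Prime) (h : c q = 1) : rs N c q = 2 := by
  have h1 : c 1 = 1 := by
    have h1 := hc.mul 1 1
    rw [mul_one] at h1
    rcases hc.val 1 (Nat.coprime_one_left N) with h | h
    · exact h
    · rw [h] at h1
      norm_num at h1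
  have h2 : q.Coprime N := by
    by_contra h3
    rw [hc.zero q h3] at h
    norm_num at h
  unfold rs rr
  rw [if_pos h2, hq.divisors, Finset.sum_pair hq.one_lt.ne, h1, h]
  norm_num

theorem QP_card : ∃ N0 : ℕ, ∀ N : ℕ, N0 ≤ N → ∀ (c : ℕ → ℝ) (L : ℝ), RC N c → LV N c L →
    (N : ℝ) ^ (-(1 / 50) : ℝ) ≤ L → ∀ y : ℕ, (N : ℝ) ^ ((7 : ℝ) / 10) ≤ y →
    ((QP c y).card : ℝ) ≤ del N * L * y := by
  classical
  obtain ⟨N0, hN0⟩ := SSs_two
  refine ⟨N0, fun N hN c L hc hL hLl y hy => ?_⟩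
  have h1 := (hN0 N hN c L hc hL hLl y hy).2
  have h2 : ∑ q ∈ QP c y, rs N c q ≤ SSs N c y := by
    unfold SSs
    refine Finset.sum_le_sum_of_subset_of_nonneg ?_ (fun n _ _ => rs_nonneg hc n)
    intro q hq
    unfold QP at hq
    rw [Finset.mem_filter, Finset.mem_range] at hq
    rw [Finset.mem_Icc]
    have := hq.2.1.one_lt
    omega
  have h3 : ∑ q ∈ QP c y, rs N c q = 2 * (QP c y).card := by
    have h5 : ∀ q ∈ QP c y, rs N c q = 2 := by
      intro q hq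
      unfold QP at hq
      rw [Finset.mem_filter] at hq
      exact rs_prime hc hq.2.1 hq.2.2
    rw [Finset.sum_congr rfl h5, Finset.sum_const, nsmul_eq_mul]
    ring
  have h4 : 0 ≤ del N * L * y := by
    unfold del
    have := hL.1
    positivity
  linarith

end Pool.Agent.Lib.OW
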