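import Pool.Agent.Lib.MP_7b7e48_nt.OW.S2

/-!
# Module S3 (40 minutes): reciprocal sums in the upper range

PROOF. `(B, y]` is covered by the `(2^j B, 2^(j+1) B]`, `0 ≤ j ≤ log_2(y/B)` (at most `2 log(y/B) + 1` values of `j`), each contributes at most `SSs N c (2^(j+1) B) / (2^j B) ≤ 2 (101/100) del N L ≤ 4 del N L` (`SSs_two`, `rs_nonneg`).
`sQ_diff`: `rs N c q = 2` for the primes counted (`rs_prime`).
-/

open Finset

namespace Pool.Agent.Lib.OW

open Pool.Agent.Lib.RG (RC LV rr SS PB)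

private theorem S3_dyadic {N : ℕ} {c : ℕ → ℝ} {L : ℝ} (hc : RC N c) (hL : 0 ≤ L) {B : ℕ}
    (hB : 0 < B) (h : ∀ y : ℕ, B ≤ y → SSs N c y ≤ (101 / 100) * (del N * L * y)) (k : ℕ) :
    ∀ y : ℕ, B ≤ y → y ≤ 2 ^ k * B →
      ∑ n ∈ Finset.Ioc B y, rs N c n / n ≤ (202 / 100) * (del N * L) * k := by
  have hdl : 0 ≤ del N * L := by
    unfold del
    positivity
  induction k with
  | zero =>
    intro y hy1 hy2
    rw [pow_zero, one_mul] at hy2
    have : y = B := le_antisymm hy2 hy1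
    subst this
    rw [Finset.Ioc_self, Finset.sum_empty]
    simp
  | succ k ih =>
    intro y hy1 hy2
    rcases le_or_gt y (2 ^ k * B) with h1 | h1
    · refine (ih y hy1 h1).trans ?_
      push_cast
      nlinarith
    · have hBk : B ≤ 2 ^ k * B := Nat.le_mul_of_pos_left B (by positivity)
      rw [← Finset.sum_Ioc_consecutive _ hBk h1.le]
      have i1 := ih (2 ^ k * B) hBk le_rfl
      have hBr : (0 : ℝ) < 2 ^ k * (B : ℝ) := by
        have : (0 : ℝ) < B := by exact_mod_cast hB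
        positivity
      have i2 : ∑ n ∈ Finset.Ioc (2 ^ k * B) y, rs N c n / n ≤ (202 / 100) * (del N * L) := by
        calc ∑ n ∈ Finset.Ioc (2 ^ k * B) y, rs N c n / n
            ≤ ∑ n ∈ Finset.Ioc (2 ^ k * B) y, rs N c n / (2 ^ k * (B : ℝ)) := by
              refine Finset.sum_le_sum fun n hn => ?_
              rw [Finset.mem_Ioc] at hn
              have h2 : (2 ^ k * (B : ℝ)) ≤ n := by exact_mod_cast hn.1.le
              exact div_le_div_of_nonneg_left (rs_nonneg hc n) hBr h2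
          _ = (∑ n ∈ Finset.Ioc (2 ^ k * B) y, rs N c n) / (2 ^ k * (B : ℝ)) := by
              rw [Finset.sum_div]
          _ ≤ SSs N c y / (2 ^ k * (B : ℝ)) := by
              refine div_le_div_of_nonneg_right ?_ hBr.le
              unfold SSs
              refine Finset.sum_le_sum_of_subset_of_nonneg ?_ (fun n _ _ => rs_nonneg hc n)
              intro n hn
              rw [Finset.mem_Ioc] at hn
              rw [Finset.mem_Icc]
              omega
          _ ≤ ((101 / 100) * (del N * L * (2 ^ (k + 1) * (B : ℝ)))) / (2 ^ k * (B : ℝ)) := by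
              refine div_le_div_of_nonneg_right ?_ hBr.le
              refine (h y hy1).trans ?_
              have : (y : ℝ) ≤ 2 ^ (k + 1) * (B : ℝ) := by exact_mod_cast hy2
              gcongr
          _ = (202 / 100) * (del N * L) := by
              rw [pow_succ]
              field_simp
              ring
      push_cast
      linarith

theorem rs_log_sum : ∃ N0 : ℕ, ∀ N : ℕ, N0 ≤ N → ∀ (c : ℕ → ℝ) (L : ℝ), RC N c → LV N c L →
    (N : ℝ) ^ (-(1 / 50) : ℝ) ≤ L → ∀ B y : ℕ, (N : ℝ) ^ ((7 : ℝ) / 10) ≤ B → B ≤ y →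
    ∑ n ∈ Finset.Ioc B y, rs N c n / n ≤ 8 * (del N * L) * (Real.log (y / B) + 1) := by
  obtain ⟨N0, hN0⟩ := SSs_two
  refine ⟨max 1 N0, fun N hN c L hc hL hLl B y hB hBy => ?_⟩
  have hN1 : 1 ≤ N := (le_max_left _ _).trans hN
  have h0 := hN0 N ((le_max_right _ _).trans hN) c L hc hL hLl
  have hNr : (1 : ℝ) ≤ N := by exact_mod_cast hN1
  have hBr : (1 : ℝ) ≤ B := le_trans (Real.one_le_rpow hNr (by norm_num)) hB
  have hB0 : 0 < B := by exact_mod_cast (by linarith : (0 : ℝ) < B)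
  have hyB : (B : ℝ) ≤ y := by exact_mod_cast hBy
  have hx1 : 1 ≤ (y : ℝ) / B := by
    rw [le_div_iff₀ (by linarith), one_mul]
    exact hyB
  have hl0 : 0 ≤ Real.log ((y : ℝ) / B) := Real.log_nonneg hx1
  have hl2 : (1 / 2 : ℝ) < Real.log 2 := by
    have := Real.log_two_gt_d9
    linarith
  set k : ℕ := ⌈Real.log ((y : ℝ) / B) / Real.log 2⌉₊ with hk
  have hk1 : Real.log ((y : ℝ) / B) / Real.log 2 ≤ k := Nat.le_ceil _
  have hk2 : (k : ℝ) < Real.log ((y : ℝ) / B) / Real.log 2 + 1 :=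
    Nat.ceil_lt_add_one (by positivity)
  have hk3 : Real.log ((y : ℝ) / B) / Real.log 2 ≤ 2 * Real.log ((y : ℝ) / B) := by
    rw [div_le_iff₀ (by linarith)]
    nlinarith
  have hyk : y ≤ 2 ^ k * B := by
    have h1 : (y : ℝ) / B ≤ 2 ^ k := by
      rw [← Real.log_le_log_iff (by linarith) (by positivity), Real.log_pow]
      rw [div_le_iff₀ (by linarith)] at hk1
      exact hk1
    have h2 : (y : ℝ) ≤ 2 ^ k * B := by
      rwa [div_le_iff₀ (by linarith)] at h1
    exact_mod_cast h2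
  have h1 := S3_dyadic hc hL.1 hB0 (fun z hz => (h0 z (hB.trans (by exact_mod_cast hz))).2)
    k y hBy hyk
  refine h1.trans ?_
  have hdl : 0 ≤ del N * L := by
    unfold del
    have := hL.1
    positivity
  calc (202 / 100) * (del N * L) * k ≤ (202 / 100) * (del N * L) *
        (2 * Real.log ((y : ℝ) / B) + 1) := by
        gcongr
        linarith
    _ ≤ 8 * (del N * L) * (Real.log ((y : ℝ) / B) + 1) := by nlinarith

theorem sQ_diff : ∃ N0 : ℕ, ∀ N : ℕ, N0 ≤ N → ∀ (c : ℕ → ℝ) (L : ℝ), RC N c → LV N c L →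
    (N : ℝ) ^ (-(1 / 50) : ℝ) ≤ L → ∀ B y : ℕ, (N : ℝ) ^ ((7 : ℝ) / 10) ≤ B → B ≤ y →
    sQ c y ≤ sQ c B + 4 * (del N * L) * (Real.log (y / B) + 1) := by
  classical
  obtain ⟨N0, hN0⟩ := rs_log_sum
  refine ⟨N0, fun N hN c L hc hL hLl B y hB hBy => ?_⟩
  have h1 := hN0 N hN c L hc hL hLl B y hB hBy
  have hsub : QP c B ⊆ QP c y := by
    intro q hq
    unfold QP at hq ⊢
    rw [Finset.mem_filter, Finset.mem_range] at hq ⊢
    exact ⟨by omega, hq.2⟩
  have h2 : sQ c y = sQ c B + ∑ q ∈ QP c y \ QP c B, 1 / (q : ℝ) := by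
    unfold sQ
    rw [add_comm, Finset.sum_sdiff hsub]
  rw [h2]
  have h3 : 2 * ∑ q ∈ QP c y \ QP c B, 1 / (q : ℝ) ≤ ∑ n ∈ Finset.Ioc B y, rs N c n / n := by
    calc 2 * ∑ q ∈ QP c y \ QP c B, 1 / (q : ℝ) = ∑ q ∈ QP c y \ QP c B, rs N c q / q := by
          rw [Finset.mul_sum]
          refine Finset.sum_congr rfl fun q hq => ?_
          rw [Finset.mem_sdiff] at hq
          have h4 := hq.1
          unfold QP at h4
          rw [Finset.mem_filter] at h4
          rw [rs_prime hc h4.2.1 h4.2.2]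
          ring
      _ ≤ _ := by
          refine Finset.sum_le_sum_of_subset_of_nonneg ?_
            (fun n _ _ => div_nonneg (rs_nonneg hc n) (Nat.cast_nonneg n))
          intro q hq
          rw [Finset.mem_sdiff] at hq
          obtain ⟨h4, h5⟩ := hq
          unfold QP at h4 h5
          rw [Finset.mem_filter, Finset.mem_range] at h4 h5
          rw [Finset.mem_Ioc]
          refine ⟨?_, by omega⟩
          by_contra h6
          exact h5 ⟨by omega, h4.2⟩
  linarith

end Pool.Agent.Lib.OW
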