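import Mathlib

/-!
# Part SP2: approximate homomorphisms in the scale

`γ r i` is the sign in the class `r` and on the scale `i`. If `γ r i γ s j = γ (r s) (i + j)` and
`γ 1 (i + j) = γ 1 (i + j + 1)` for most pairs `(i, j)`, then `γ r i` does not depend on the scale `i`.
-/

set_option autoImplicit false

open Finset

namespace Pool.Agent.Lib.OWS

/-- the number of exceptional pairs in a row -/
def row (Bd : Finset (ℕ × ℕ)) (i : ℕ) : ℕ := (Bd.filter fun p => p.1 = i).card

structure AH {U : Type} [CommGroup U] (γ : U → ℕ → ℂ) (K T : ℕ) (Bd : Finset (ℕ × ℕ)) : Prop where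
  K0 : 1000 ≤ K
  KT : 16 * K ≤ T
  ne : ∀ r i, γ r i ≠ 0
  one : ∀ i, γ 1 i = 1 ∨ γ 1 i = -1
  rel : ∀ i j, K ≤ i → K ≤ j → i + j ≤ T → (i, j) ∉ Bd → (∀ r s, γ r i * γ s j = γ (r * s) (i + j)) ∧
    γ 1 (i + j) = γ 1 (i + j + 1)
  bd : 1000 * Bd.card ≤ K * K

section
variable {U : Type} [CommGroup U] {γ : U → ℕ → ℂ} {K T : ℕ} {Bd : Finset (ℕ × ℕ)}

open Classical in
theorem ah_d1 (h : AH γ K T Bd) :
    1000 * ((Icc (3 * K) (5 * K)).filter fun k => γ 1 k ≠ γ 1 (k + 1)).card ≤ K := by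
  obtain ⟨S, hS⟩ : ∃ S : Finset ℕ, S = (Icc (3 * K) (5 * K)).filter fun k => γ 1 k ≠ γ 1 (k + 1) := ⟨_, rfl⟩
  rw [← hS]
  have hK0 := h.K0
  have hKT := h.KT
  have h1 : (S ×ˢ range K).card ≤ Bd.card := by
    refine card_le_card_of_injOn (fun p => (K + p.2, p.1 - (K + p.2))) ?_ ?_
    · intro p hp
      rw [mem_coe, mem_product, mem_range, hS, mem_filter, mem_Icc] at hp
      obtain ⟨⟨⟨e1, e2⟩, e3⟩, e4⟩ := hp
      rw [mem_coe]
      by_contra hcon
      have e5 := (h.rel (K + p.2) (p.1 - (K + p.2)) (by omega) (by omega) (by omega) hcon).2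
      have e6 : K + p.2 + (p.1 - (K + p.2)) = p.1 := by omega
      rw [e6] at e5
      exact e3 e5
    · intro p hp p' hp' heq
      rw [mem_coe, mem_product, mem_range, hS, mem_filter, mem_Icc] at hp hp'
      simp only [Prod.mk.injEq] at heq
      obtain ⟨e1, e2⟩ := heq
      exact Prod.ext (by omega) (by omega)
  rw [card_product, card_range] at h1
  have h2 := h.bd
  have h3 : 1000 * S.card * K ≤ K * K := by nlinarith
  exact Nat.le_of_mul_le_mul_right h3 (by omega)

open Classical in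
/-- the elements of the window which change by the shift `t` -/
noncomputable def AA {U : Type} [CommGroup U] (γ : U → ℕ → ℂ) (K t : ℕ) : Finset ℕ :=
  (Ico (3 * K) (4 * K)).filter fun i => γ 1 (i + t) ≠ γ 1 i

open Classical in
theorem ah_dich (h : AH γ K T Bd) {t : ℕ} (ht : t ≤ K) :
    (K - (AA γ K t).card) * (AA γ K t).card ≤ 2 * Bd.card := by
  have hK0 := h.K0
  have hKT := h.KT
  obtain ⟨J, hJ⟩ : ∃ J : Finset ℕ, J = Ico (3 * K) (4 * K) := ⟨_, rfl⟩
  have hAJ : AA γ K t ⊆ J := by rw [hJ]; exact filter_subset _ _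
  have hJc : J.card = K := by rw [hJ, Nat.card_Ico]; omega
  have h1 : (J \ AA γ K t).card = K - (AA γ K t).card := by rw [card_sdiff_of_subset hAJ, hJc]
  rw [← h1, ← card_product]
  obtain ⟨P1, hP1⟩ : ∃ P1 : Finset (ℕ × ℕ), P1 = (J ×ˢ J).filter fun p => (p.1 + t, p.2) ∈ Bd := ⟨_, rfl⟩
  obtain ⟨P2, hP2⟩ : ∃ P2 : Finset (ℕ × ℕ), P2 = (J ×ˢ J).filter fun p => (p.1, p.2 + t) ∈ Bd := ⟨_, rfl⟩
  have h2 : P1.card ≤ Bd.card := by
    refine card_le_card_of_injOn (fun p => (p.1 + t, p.2)) ?_ ?_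
    · intro p hp
      rw [mem_coe, hP1, mem_filter] at hp
      exact hp.2
    · intro p _ p' _ heq
      simp only [Prod.mk.injEq] at heq
      exact Prod.ext (by omega) heq.2
  have h3 : P2.card ≤ Bd.card := by
    refine card_le_card_of_injOn (fun p => (p.1, p.2 + t)) ?_ ?_
    · intro p hp
      rw [mem_coe, hP2, mem_filter] at hp
      exact hp.2
    · intro p _ p' _ heq
      simp only [Prod.mk.injEq] at heq
      exact Prod.ext heq.1 (by omega)
  have h4 : (J \ AA γ K t) ×ˢ AA γ K t ⊆ P1 ∪ P2 := by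
    intro p hp
    rw [mem_product, mem_sdiff] at hp
    obtain ⟨⟨e1, e2⟩, e3⟩ := hp
    have e3' := hAJ e3
    rw [mem_union, hP1, hP2, mem_filter, mem_filter, mem_product]
    by_contra hcon
    push Not at hcon
    have e4 := hcon.1 ⟨e1, e3'⟩
    have e5 := hcon.2 ⟨e1, e3'⟩
    unfold AA at e2 e3
    rw [mem_filter] at e2 e3
    have e6 : γ 1 (p.1 + t) = γ 1 p.1 := by
      by_contra hc
      refine e2 ⟨?_, hc⟩
      rw [hJ] at e1
      exact e1
    rw [hJ, mem_Ico] at e1 e3'
    have f1 := (h.rel (p.1 + t) p.2 (by omega) (by omega) (by omega) e4).1 1 1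
    have f2 := (h.rel p.1 (p.2 + t) (by omega) (by omega) (by omega) e5).1 1 1
    have f3 : p.1 + t + p.2 = p.1 + (p.2 + t) := by omega
    rw [f3, ← f2, e6] at f1
    exact e3.2 (mul_left_cancel₀ (h.ne 1 p.1) f1).symm
  calc ((J \ AA γ K t) ×ˢ AA γ K t).card ≤ (P1 ∪ P2).card := card_le_card h4
    _ ≤ P1.card + P2.card := card_union_le _ _
    _ ≤ 2 * Bd.card := by omega

theorem ah_shift (h : AH γ K T Bd) : ∀ t : ℕ, t ≤ K → 250 * (AA γ K t).card ≤ K := by
  classical
  have hK0 := h.K0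
  have hKT := h.KT
  intro t
  induction t with
  | zero =>
    intro _
    have : AA γ K 0 = ∅ := by
      unfold AA
      rw [filter_eq_empty_iff]
      intro i _
      simp
    rw [this, card_empty]
    omega
  | succ t ih =>
    intro ht
    have h1 := ih (by omega)
    have h2 := ah_d1 h
    have h3 : AA γ K (t + 1) ⊆ AA γ K t ∪
        ((Ico (3 * K) (4 * K)).filter fun i => γ 1 (i + t) ≠ γ 1 (i + t + 1)) := by
      intro i hi
      unfold AA at hi ⊢
      rw [mem_filter] at hi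
      rw [mem_union, mem_filter, mem_filter]
      by_cases hc : γ 1 (i + t) = γ 1 i
      · right
        refine ⟨hi.1, ?_⟩
        intro he
        rw [hc] at he
        exact hi.2 he.symm
      · left
        exact ⟨hi.1, hc⟩
    have h4 : ((Ico (3 * K) (4 * K)).filter fun i => γ 1 (i + t) ≠ γ 1 (i + t + 1)).card ≤
        ((Icc (3 * K) (5 * K)).filter fun k => γ 1 k ≠ γ 1 (k + 1)).card := by
      refine card_le_card_of_injOn (fun i => i + t) ?_ ?_
      · intro i hi
        rw [mem_coe, mem_filter, mem_Ico] at hi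
        rw [mem_coe, mem_filter, mem_Icc]
        refine ⟨?_, hi.2⟩
        change 3 * K ≤ i + t ∧ i + t ≤ 5 * K
        omega
      · intro i _ j _ heq
        have heq' : i + t = j + t := heq
        omega
    have h5 := (card_le_card h3).trans (card_union_le _ _)
    have h6 : 200 * (AA γ K (t + 1)).card ≤ K := by omega
    have h7 := ah_dich h ht
    have h8 := h.bd
    obtain ⟨a, ha⟩ : ∃ a : ℕ, a = (AA γ K (t + 1)).card := ⟨_, rfl⟩
    rw [← ha] at h6 h7 ⊢
    obtain ⟨b, hb⟩ : ∃ b : ℕ, b = K - a := ⟨_, rfl⟩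
    rw [← hb] at h7
    have h9 : K ≤ 2 * b := by omega
    have h10 : K * a ≤ 2 * b * a := Nat.mul_le_mul_right a h9
    have h11 : 250 * a * K ≤ K * K := by nlinarith
    exact Nat.le_of_mul_le_mul_right h11 (by omega)

open Classical in
theorem ah_window (h : AH γ K T Bd) : ∃ i0 : ℕ, 3 * K ≤ i0 ∧ i0 < 4 * K ∧
    250 * ((range K).filter fun t => γ 1 (i0 + t) ≠ γ 1 i0).card ≤ K := by
  have hK0 := h.K0
  by_contra hcon
  push Not at hcon
  have h1 : ∑ i ∈ Ico (3 * K) (4 * K), ((range K).filter fun t => γ 1 (i + t) ≠ γ 1 i).card =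
      ∑ t ∈ range K, (AA γ K t).card := by
    unfold AA
    simp_rw [card_filter]
    rw [sum_comm]
  have h2 : 250 * ∑ t ∈ range K, (AA γ K t).card ≤ K * K := by
    rw [mul_sum]
    calc ∑ t ∈ range K, 250 * (AA γ K t).card ≤ ∑ _t ∈ range K, K :=
          sum_le_sum fun t ht => ah_shift h t (mem_range.mp ht).le
      _ = K * K := by rw [sum_const, card_range, smul_eq_mul]
  have h3 : K * K < 250 * ∑ i ∈ Ico (3 * K) (4 * K), ((range K).filter fun t => γ 1 (i + t) ≠ γ 1 i).card := by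
    rw [mul_sum]
    calc K * K = ∑ _i ∈ Ico (3 * K) (4 * K), K := by
          rw [sum_const, Nat.card_Ico, smul_eq_mul]
          congr 1
          omega
      _ < _ := by
          refine sum_lt_sum_of_nonempty ?_ fun i hi => ?_
          · rw [nonempty_Ico]
            omega
          · rw [mem_Ico] at hi
            exact hcon i hi.1 hi.2
  rw [h1] at h3
  omega

theorem ah_row_le (i : ℕ) (n : ℕ) (f : ℕ → ℕ) (hf : Function.Injective f) :
    ((range n).filter fun t => (i, f t) ∈ Bd).card ≤ row Bd i := by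
  unfold row
  refine card_le_card_of_injOn (fun t => (i, f t)) ?_ ?_
  · intro t ht
    rw [mem_coe, mem_filter] at ht
    rw [mem_coe, mem_filter]
    exact ⟨ht.2, rfl⟩
  · intro t _ t' _ heq
    simp only [Prod.mk.injEq] at heq
    exact hf heq.2

/-- one step between typical scales -/
theorem ah_direct (h : AH γ K T Bd) {i i' : ℕ} (hi : K ≤ i) (hii : i < i') (hi' : 2 * (i' - i) ≤ K)
    (hT : i' + 5 * K ≤ T) (ht : 8 * row Bd i ≤ K) (ht' : 8 * row Bd i' ≤ K) (r : U) : γ r i = γ r i' := by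
  classical
  have hK0 := h.K0
  obtain ⟨i0, h1, h2, h3⟩ := ah_window h
  obtain ⟨n, hn⟩ : ∃ n : ℕ, n = K / 2 := ⟨_, rfl⟩
  obtain ⟨Dc, hDc⟩ : ∃ Dc : ℕ, Dc = ((range K).filter fun t => γ 1 (i0 + t) ≠ γ 1 i0).card := ⟨_, rfl⟩
  rw [← hDc] at h3
  obtain ⟨B1, hB1⟩ : ∃ B1 : Finset ℕ, B1 = (range n).filter fun t => (i', i0 + t) ∈ Bd := ⟨_, rfl⟩
  obtain ⟨B2, hB2⟩ : ∃ B2 : Finset ℕ, B2 = (range n).filter fun t => (i, i0 + t + (i' - i)) ∈ Bd := ⟨_, rfl⟩
  obtain ⟨B3, hB3⟩ : ∃ B3 : Finset ℕ, B3 = (range n).filter fun t => γ 1 (i0 + t) ≠ γ 1 i0 := ⟨_, rfl⟩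
  obtain ⟨B4, hB4⟩ : ∃ B4 : Finset ℕ, B4 = (range n).filter fun t => γ 1 (i0 + (t + (i' - i))) ≠ γ 1 i0 :=
    ⟨_, rfl⟩
  have c1 : B1.card ≤ row Bd i' := by
    rw [hB1]
    exact ah_row_le i' n (fun t => i0 + t) (fun a b hab => by simpa using hab)
  have c2 : B2.card ≤ row Bd i := by
    rw [hB2]
    exact ah_row_le i n (fun t => i0 + t + (i' - i)) (fun a b hab => by simpa using hab)
  have c3 : B3.card ≤ Dc := by
    rw [hB3, hDc]
    refine card_le_card ?_
    intro t ht
    rw [mem_filter, mem_range] at ht ⊢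
    exact ⟨by omega, ht.2⟩
  have c4 : B4.card ≤ Dc := by
    rw [hB4, hDc]
    refine card_le_card_of_injOn (fun t => t + (i' - i)) ?_ ?_
    · intro t ht
      rw [mem_coe, mem_filter, mem_range] at ht
      rw [mem_coe, mem_filter, mem_range]
      refine ⟨?_, ht.2⟩
      change t + (i' - i) < K
      omega
    · intro a _ b _ hab
      have hab' : a + (i' - i) = b + (i' - i) := hab
      omega
  have hex : ∃ t ∈ range n, t ∉ B1 ∪ B2 ∪ B3 ∪ B4 := by
    by_contra hcon
    push Not at hcon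
    have e1 : range n ⊆ B1 ∪ B2 ∪ B3 ∪ B4 := hcon
    have e2 := card_le_card e1
    rw [card_range] at e2
    have e3 := card_union_le (B1 ∪ B2 ∪ B3) B4
    have e4 := card_union_le (B1 ∪ B2) B3
    have e5 := card_union_le B1 B2
    omega
  obtain ⟨t, htn, htB⟩ := hex
  rw [mem_union, mem_union, mem_union, hB1, hB2, hB3, hB4, mem_filter, mem_filter, mem_filter, mem_filter] at htB
  push Not at htB
  obtain ⟨⟨⟨f1, f2⟩, f3⟩, f4⟩ := htB
  have g1 := f1 htn
  have g2 := f2 htn
  have g3 := f3 htn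
  have g4 := f4 htn
  rw [mem_range] at htn
  have r1 := (h.rel i' (i0 + t) (by omega) (by omega) (by omega) g1).1 r 1
  have r2 := (h.rel i (i0 + t + (i' - i)) (by omega) (by omega) (by omega) g2).1 r 1
  have e1 : i' + (i0 + t) = i + (i0 + t + (i' - i)) := by omega
  have e2 : i0 + (t + (i' - i)) = i0 + t + (i' - i) := by omega
  rw [e2] at g4
  rw [e1, ← r2, g3, g4] at r1
  exact (mul_right_cancel₀ (h.ne 1 i0) r1).symm

/-- few rows are not typical -/
theorem ah_few (h : AH γ K T Bd) (S : Finset ℕ) (hS : ∀ i ∈ S, ¬ 8 * row Bd i ≤ K) : 125 * S.card ≤ K := by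
  classical
  have hK0 := h.K0
  have h1 : ∑ i ∈ S, row Bd i ≤ Bd.card := by
    unfold row
    rw [← card_biUnion]
    · refine card_le_card ?_
      intro p hp
      rw [mem_biUnion] at hp
      obtain ⟨i, _, hp⟩ := hp
      rw [mem_filter] at hp
      exact hp.1
    · intro i _ j _ hij
      rw [Function.onFun, disjoint_left]
      intro p hp hp'
      rw [mem_filter] at hp hp'
      exact hij (hp.2.symm.trans hp'.2)
  have h2 : S.card * K ≤ 8 * ∑ i ∈ S, row Bd i := by
    rw [mul_sum]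
    calc S.card * K = ∑ _i ∈ S, K := by rw [sum_const, smul_eq_mul]
      _ ≤ _ := sum_le_sum fun i hi => by
          have := hS i hi
          omega
  have h3 := h.bd
  have h4 : 125 * S.card * K ≤ K * K := by nlinarith
  exact Nat.le_of_mul_le_mul_right h4 (by omega)

theorem ah_typ (h : AH γ K T Bd) (a : ℕ) : ∃ i, a ≤ i ∧ 4 * i < 4 * a + K ∧ 8 * row Bd i ≤ K := by
  classical
  have hK0 := h.K0
  by_contra hcon
  push Not at hcon
  have h1 := ah_few h (Ico a (a + K / 4)) (by
    intro i hi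
    rw [mem_Ico] at hi
    have := hcon i hi.1 (by omega)
    omega)
  rw [Nat.card_Ico] at h1
  omega

theorem ah_chain (h : AH γ K T Bd) (r : U) : ∀ d i i' : ℕ, i' = i + d → K ≤ i → i' + 5 * K ≤ T →
    8 * row Bd i ≤ K → 8 * row Bd i' ≤ K → γ r i = γ r i' := by
  have hK0 := h.K0
  intro d
  induction d using Nat.strong_induction_on with
  | _ d ih =>
    intro i i' hd hi hT ht ht'
    rcases Nat.eq_zero_or_pos d with h0 | h0
    · have : i' = i := by omega
      rw [this]
    · by_cases hc : 2 * d ≤ K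
      · exact ah_direct h hi (by omega) (by omega) hT ht ht' r
      · obtain ⟨m, hm1, hm2, hm3⟩ := ah_typ h (i' - K / 2)
        have e1 : i ≤ m := by omega
        have e2 : m < i' := by omega
        have e3 := ih (m - i) (by omega) i m (by omega) hi (by omega) ht hm3
        have e4 := ah_direct h (i := m) (i' := i') (by omega) e2 (by omega) hT hm3 ht' r
        rw [e3, e4]

theorem ah_const (h : AH γ K T Bd) (r : U) {i i' : ℕ} (hi : K ≤ i) (hi' : K ≤ i') (hT : i + 5 * K ≤ T)
    (hT' : i' + 5 * K ≤ T) (ht : 8 * row Bd i ≤ K) (ht' : 8 * row Bd i' ≤ K) : γ r i = γ r i' := by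
  rcases Nat.le_total i i' with hle | hle
  · exact ah_chain h r (i' - i) i i' (by omega) hi hT' ht ht'
  · exact (ah_chain h r (i - i') i' i (by omega) hi' hT ht' ht).symm

theorem ah_main (h : AH γ K T Bd) : ∃ ζ : U →* ℂ, ∀ i, K ≤ i → i + 5 * K ≤ T → 8 * row Bd i ≤ K →
    ∀ r, γ r i = ζ r := by
  classical
  have hK0 := h.K0
  have hKT := h.KT
  obtain ⟨i1, hi1, hi2, hi3⟩ := ah_typ h K
  have hmul : ∀ r s : U, γ (r * s) i1 = γ r i1 * γ s i1 := by
    intro r s
    -- a second scale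
    obtain ⟨n, hn⟩ : ∃ n : ℕ, n = K / 2 := ⟨_, rfl⟩
    obtain ⟨B1, hB1⟩ : ∃ B1 : Finset ℕ, B1 = (range n).filter fun t => (i1, K + t) ∈ Bd := ⟨_, rfl⟩
    obtain ⟨B2, hB2⟩ : ∃ B2 : Finset ℕ, B2 = (range n).filter fun t => ¬ 8 * row Bd (K + t) ≤ K := ⟨_, rfl⟩
    obtain ⟨B3, hB3⟩ : ∃ B3 : Finset ℕ, B3 = (range n).filter fun t => ¬ 8 * row Bd (i1 + (K + t)) ≤ K :=
      ⟨_, rfl⟩
    have c1 : B1.card ≤ row Bd i1 := by
      rw [hB1]
      exact ah_row_le i1 n (fun t => K + t) (fun a b hab => by simpa using hab)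
    have c2 : 125 * B2.card ≤ K := by
      have e1 : B2.card = (B2.image fun t => K + t).card := by
        rw [card_image_of_injective]
        intro a b hab
        simpa using hab
      rw [e1]
      refine ah_few h _ ?_
      intro i hi
      rw [mem_image] at hi
      obtain ⟨t, ht, rfl⟩ := hi
      rw [hB2, mem_filter] at ht
      exact ht.2
    have c3 : 125 * B3.card ≤ K := by
      have e1 : B3.card = (B3.image fun t => i1 + (K + t)).card := by
        rw [card_image_of_injective]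
        intro a b hab
        simpa using hab
      rw [e1]
      refine ah_few h _ ?_
      intro i hi
      rw [mem_image] at hi
      obtain ⟨t, ht, rfl⟩ := hi
      rw [hB3, mem_filter] at ht
      exact ht.2
    have hex : ∃ t ∈ range n, t ∉ B1 ∪ B2 ∪ B3 := by
      by_contra hcon
      push Not at hcon
      have e1 : range n ⊆ B1 ∪ B2 ∪ B3 := hcon
      have e2 := card_le_card e1
      rw [card_range] at e2
      have e4 := card_union_le (B1 ∪ B2) B3
      have e5 := card_union_le B1 B2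
      omega
    obtain ⟨t, htn, htB⟩ := hex
    rw [mem_union, mem_union, hB1, hB2, hB3, mem_filter, mem_filter, mem_filter] at htB
    push Not at htB
    obtain ⟨⟨f1, f2⟩, f3⟩ := htB
    have g1 := f1 htn
    have g2 := f2 htn
    have g3 := f3 htn
    rw [mem_range] at htn
    have r1 := (h.rel i1 (K + t) (by omega) (by omega) (by omega) g1).1 r s
    rw [ah_const h s (i := K + t) (i' := i1) (by omega) (by omega) (by omega) (by omega) g2 hi3,
      ah_const h (r * s) (i := i1 + (K + t)) (i' := i1) (by omega) (by omega) (by omega) (by omega) g3 hi3] at r1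
    exact r1.symm
  refine ⟨{ toFun := fun r => γ r i1, map_one' := ?_, map_mul' := hmul }, ?_⟩
  · have h1 := hmul 1 1
    rw [one_mul] at h1
    have h2 : γ 1 i1 * 1 = γ 1 i1 * γ 1 i1 := by rw [mul_one]; exact h1
    exact (mul_left_cancel₀ (h.ne 1 i1) h2).symm
  · intro i hi hT ht r
    exact ah_const h r hi hi1 hT (by omega) ht hi3

end

end Pool.Agent.Lib.OWS
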