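import Mathlib
import Pool.Agent.Lib.MP_7b7e48_nt.OW.SPRd

/-!
# Part SP: the chain theorem
-/

open Finset
open Pool.Agent.Lib.RG (Rough RN bch PB BW)

namespace Pool.Agent.Lib.OWS

/-- numerical facts for a given `N` -/
structure Nm (N z y B W1 : ℕ) (κ c : ℝ) (J : Finset ℕ) : Prop where
  z3 : 3 ≤ z
  zN : (z : ℝ) ≤ (N : ℝ) ^ c
  L1 : (c / 2) * Real.log N ≤ Real.log z
  L2 : Real.log z ≤ c * Real.log N
  lN : 1 ≤ Real.log N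
  y1 : (y : ℝ) ≤ (N : ℝ) ^ (1 / 2 + κ)
  y2 : (N : ℝ) ^ (1 / 2 + κ) / 2 ≤ y
  B1 : (B : ℝ) ≤ (N : ℝ) ^ (1 / 2 - κ)
  B2 : (N : ℝ) ^ (1 / 2 - κ) / 2 ≤ B
  Bfl : ∀ m : ℕ, (m : ℝ) ≤ (N : ℝ) ^ (1 / 2 - κ) → m ≤ B
  W1a : (W1 : ℝ) ≤ (N : ℝ) ^ (1 / 2 - 8 * κ)
  W1b : (1 / 2 - 9 * κ) * Real.log N ≤ Real.log W1
  Nk : 4 ≤ (N : ℝ) ^ κ
  J0 : J.Nonempty
  J1 : ∀ j ∈ J, (N : ℝ) ^ (3 * κ) ≤ 2 ^ j ∧ (2 : ℝ) ^ (j + 1) ≤ (N : ℝ) ^ (4 * κ)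
  J2 : κ * Real.log N ≤ J.card

theorem nm_exists (κ : ℝ) (hκ : 0 < κ) (hκ1 : κ ≤ 1 / 100) (c : ℝ) (hc : 0 < c) (T : ℝ) :
    ∃ N0 : ℕ, ∀ N : ℕ, N0 ≤ N → T ≤ (N : ℝ) ^ κ ∧
    ∃ J : Finset ℕ, Nm N ⌊(N : ℝ) ^ c⌋₊ ⌊(N : ℝ) ^ (1 / 2 + κ)⌋₊ ⌊(N : ℝ) ^ (1 / 2 - κ)⌋₊
      ⌊(N : ℝ) ^ (1 / 2 - 8 * κ)⌋₊ κ c J := by
  obtain ⟨N1, hN1, hfl⟩ := floor_low c hc
  have h1 : Filter.Tendsto (fun N : ℕ => (N : ℝ) ^ κ) Filter.atTop Filter.atTop :=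
    (tendsto_rpow_atTop hκ).comp tendsto_natCast_atTop_atTop
  have h2 : Filter.Tendsto (fun N : ℕ => Real.log N) Filter.atTop Filter.atTop :=
    Real.tendsto_log_atTop.comp tendsto_natCast_atTop_atTop
  obtain ⟨N2, hN2⟩ := (h1.eventually_ge_atTop (max T 16)).exists_forall_of_atTop
  obtain ⟨N3, hN3⟩ := (h2.eventually_ge_atTop (100 / κ)).exists_forall_of_atTop
  refine ⟨max N1 (max N2 N3), ?_⟩
  intro N hN
  have a1 : N1 ≤ N := (le_max_left _ _).trans hN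
  have a2 : N2 ≤ N := (le_max_left _ _).trans ((le_max_right _ _).trans hN)
  have a3 : N3 ≤ N := (le_max_right _ _).trans ((le_max_right _ _).trans hN)
  obtain ⟨hz3, hz4, hz5, hz6, hz7⟩ := hfl N a1 _ rfl
  have g2 := hN2 N a2
  have g3 := hN3 N a3
  have hN2' : 2 ≤ N := hN1.trans a1
  have hNR : (2 : ℝ) ≤ N := by exact_mod_cast hN2'
  have hN0 : (0 : ℝ) < N := by linarith
  have g16 : (16 : ℝ) ≤ (N : ℝ) ^ κ := (le_max_right _ _).trans g2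
  have hlN : 100 ≤ Real.log N := by
    refine le_trans ?_ g3
    rw [le_div_iff₀ hκ]
    linarith
  have hfl' : ∀ s : ℝ, κ ≤ s → ((⌊(N : ℝ) ^ s⌋₊ : ℕ) : ℝ) ≤ (N : ℝ) ^ s ∧
      (N : ℝ) ^ s / 2 ≤ ((⌊(N : ℝ) ^ s⌋₊ : ℕ) : ℝ) := by
    intro s hs
    have h5 : (N : ℝ) ^ κ ≤ (N : ℝ) ^ s := Real.rpow_le_rpow_of_exponent_le (by linarith) hs
    have h6 : (N : ℝ) ^ s < (⌊(N : ℝ) ^ s⌋₊ : ℝ) + 1 := Nat.lt_floor_add_one _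
    refine ⟨Nat.floor_le (by positivity), by linarith⟩
  have y12 := hfl' (1 / 2 + κ) (by linarith)
  have B12 := hfl' (1 / 2 - κ) (by linarith)
  have W12 := hfl' (1 / 2 - 8 * κ) (by linarith)
  -- the exponents
  obtain ⟨u, hu⟩ : ∃ u : ℝ, u = 3 * κ * Real.logb 2 N := ⟨_, rfl⟩
  obtain ⟨v, hv⟩ : ∃ v : ℝ, v = 4 * κ * Real.logb 2 N - 1 := ⟨_, rfl⟩
  have hlogb : Real.log N ≤ Real.logb 2 N := by
    unfold Real.logb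
    rw [le_div_iff₀ (Real.log_pos (by norm_num))]
    have := Real.log_two_lt_d9
    nlinarith
  have huv : u + κ * Real.logb 2 N - 1 = v := by rw [hu, hv]; ring
  have hκl : 100 ≤ κ * Real.log N := by
    have := mul_le_mul_of_nonneg_left g3 hκ.le
    rwa [mul_div_cancel₀ _ hκ.ne'] at this
  have hκl2 : κ * Real.log N ≤ κ * Real.logb 2 N := mul_le_mul_of_nonneg_left hlogb hκ.le
  have hlog14 : 14 / 10 * Real.log N ≤ Real.logb 2 N := by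
    unfold Real.logb
    rw [le_div_iff₀ (Real.log_pos (by norm_num))]
    have := Real.log_two_lt_d9
    nlinarith
  have hu0 : 0 ≤ u := by
    rw [hu]
    have : 0 ≤ Real.logb 2 N := by linarith
    positivity
  obtain ⟨J, hJ⟩ : ∃ J : Finset ℕ, J = Finset.Ico ⌈u⌉₊ (⌊v⌋₊ + 1) := ⟨_, rfl⟩
  have hJm : ∀ j ∈ J, u ≤ j ∧ (j : ℝ) ≤ v := by
    intro j hj
    rw [hJ, mem_Ico] at hj
    refine ⟨(Nat.le_ceil u).trans (by exact_mod_cast hj.1), ?_⟩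
    have : j ≤ ⌊v⌋₊ := by omega
    exact (Nat.le_floor_iff (by linarith)).mp this
  have hcard : κ * Real.log N ≤ J.card := by
    rw [hJ, Nat.card_Ico]
    have h5 : (⌈u⌉₊ : ℝ) < u + 1 := Nat.ceil_lt_add_one hu0
    have h6 : v < (⌊v⌋₊ : ℝ) + 1 := Nat.lt_floor_add_one _
    have h7 : ((⌊v⌋₊ + 1 - ⌈u⌉₊ : ℕ) : ℝ) ≥ (⌊v⌋₊ : ℝ) + 1 - ⌈u⌉₊ := by
      have h8 : ((⌊v⌋₊ + 1 : ℕ) : ℝ) ≤ ((⌊v⌋₊ + 1 - ⌈u⌉₊ : ℕ) : ℝ) + (⌈u⌉₊ : ℝ) := by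
        have h10 : ⌊v⌋₊ + 1 ≤ (⌊v⌋₊ + 1 - ⌈u⌉₊) + ⌈u⌉₊ := by omega
        exact_mod_cast h10
      push_cast at h8
      linarith
    have h9 : 14 / 10 * (κ * Real.log N) ≤ κ * Real.logb 2 N := by
      have := mul_le_mul_of_nonneg_left hlog14 hκ.le
      linarith
    nlinarith
  have hpow : ∀ s : ℝ, (2 : ℝ) ^ (s * Real.logb 2 N) = (N : ℝ) ^ s := by
    intro s
    rw [mul_comm, Real.rpow_mul (by norm_num), Real.rpow_logb (by norm_num) (by norm_num) hN0]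
  refine ⟨(le_max_left _ _).trans g2, J, ?_⟩
  refine ⟨hz3, hz5, hz6, hz7, by linarith, y12.1, y12.2, B12.1, B12.2, fun m hm => Nat.le_floor hm, W12.1,
    ?_, by linarith, ?_, ?_, hcard⟩
  · have h5 : (N : ℝ) ^ (1 / 2 - 9 * κ) ≤ ((⌊(N : ℝ) ^ (1 / 2 - 8 * κ)⌋₊ : ℕ) : ℝ) := by
      refine le_trans ?_ W12.2
      have h6 : (N : ℝ) ^ (1 / 2 - 8 * κ) = (N : ℝ) ^ (1 / 2 - 9 * κ) * (N : ℝ) ^ κ := by
        rw [← Real.rpow_add hN0]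
        congr 1
        ring
      rw [h6]
      have h7 : 0 < (N : ℝ) ^ (1 / 2 - 9 * κ) := by positivity
      nlinarith
    rw [← Real.log_rpow hN0]
    exact Real.log_le_log (by positivity) h5
  · rw [← card_pos]
    have : (0 : ℝ) < J.card := by linarith
    exact_mod_cast this
  · intro j hj
    obtain ⟨h5, h6⟩ := hJm j hj
    constructor
    · rw [← hpow, ← Real.rpow_natCast]
      exact Real.rpow_le_rpow_of_exponent_le (by norm_num) (by rw [← hu]; exact h5)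
    · rw [← hpow, ← Real.rpow_natCast]
      refine Real.rpow_le_rpow_of_exponent_le (by norm_num) ?_
      push_cast
      linarith

end Pool.Agent.Lib.OWS
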