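import Pool.Agent.Lib.MP_7b7e48_nt.OW.SPChain2

/-!
# Part SP: the chain theorem, atypical numbers
-/

open Finset
open Pool.Agent.Lib.RG (Rough RN bch PB BW)

namespace Pool.Agent.Lib.OWS

open Classical in
/-- the typical rough numbers -/
noncomputable def Ty (q z y : ℕ) (δ P : ℝ) : Finset ℕ :=
  (RN q z y).filter fun n => δ * y < n ∧ ∀ p : ℕ, p.Prime → p ∣ n → (p : ℝ) ≤ P

theorem atyp_card {N q z y B W1 : ℕ} {κ c : ℝ} {J : Finset ℕ} (h : Nm N z y B W1 κ c J) (hκ : 0 < κ)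
    (hκ1 : κ ≤ 1 / 100) (hc : c ≤ κ) (hc0 : 0 < c) {δ Cu Cb : ℝ} (hδ : 0 < δ)
    (hCb : 0 < Cb) (hCu : 0 < Cu)
    (hδN : 2 / δ ≤ (N : ℝ) ^ κ)
    (hU : ∀ Y : ℕ, z ≤ Y → ((RN q z Y).card : ℝ) ≤ Cu * (Y / Real.log z))
    (hBW : ∀ W : ℕ, 2 ≤ W → W ≤ y → ((BW z y W).card : ℝ) ≤
      Cb * (y / Real.log W) * (1 + (Real.log y - Real.log W) / Real.log z)) :
    ((RN q z y \ Ty q z y δ ((N : ℝ) ^ (1 / 2 - 8 * κ))).card : ℝ) ≤
      (y / Real.log z) * (Cu * δ + Cb * (3 * c + 60 * κ)) := by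
  classical
  obtain ⟨f1, f2, f3, f4, f5, f6, f7, f8, f9⟩ := nm_facts h hκ hκ1 hc
  have hN0 : (0 : ℝ) < N := by linarith
  have hz0 : (3 : ℝ) ≤ z := by exact_mod_cast h.z3
  have hL : 0 < Real.log z := Real.log_pos (by linarith)
  have hK : 0 < Real.log N := by linarith
  have hp1 : 0 < (N : ℝ) ^ κ := by positivity
  have hyδ : (N : ℝ) ^ (7 * κ) ≤ δ * y := by
    have h1 : (N : ℝ) ^ (1 / 2 + κ) / (N : ℝ) ^ κ ≤ δ * ((N : ℝ) ^ (1 / 2 + κ) / 2) := by
      rw [div_le_iff₀ hp1]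
      have h2 : 2 ≤ (N : ℝ) ^ κ * δ := by
        rwa [div_le_iff₀ hδ] at hδN
      have h3 : 0 < (N : ℝ) ^ (1 / 2 + κ) := by positivity
      nlinarith
    have h4 : δ * ((N : ℝ) ^ (1 / 2 + κ) / 2) ≤ δ * y := mul_le_mul_of_nonneg_left h.y2 hδ.le
    linarith
  have hy0 : (0 : ℝ) < y := by
    have h1 : 0 < (N : ℝ) ^ (7 * κ) := by positivity
    have h2 : 0 < δ * y := lt_of_lt_of_le h1 hyδ
    exact (mul_pos_iff_of_pos_left hδ).mp h2
  obtain ⟨t, ht⟩ : ∃ t : ℕ, t = ⌊δ * y⌋₊ := ⟨_, rfl⟩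
  have ht1 : (t : ℝ) ≤ δ * y := by rw [ht]; exact Nat.floor_le (by positivity)
  have ht2 : z ≤ t := by
    rw [ht]
    exact Nat.le_floor (by linarith)
  have hsub : RN q z y \ Ty q z y δ ((N : ℝ) ^ (1 / 2 - 8 * κ)) ⊆ RN q z t ∪ BW z y W1 := by
    intro n hn
    rw [mem_sdiff] at hn
    obtain ⟨hn1, hn2⟩ := hn
    rw [mem_union]
    unfold Ty at hn2
    rw [mem_filter] at hn2
    have hn3 := mem_RN'.mp hn1
    by_cases h1 : δ * y < n
    · right
      have h2 : ¬ ∀ p : ℕ, p.Prime → p ∣ n → (p : ℝ) ≤ (N : ℝ) ^ (1 / 2 - 8 * κ) := fun h3 =>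
        hn2 ⟨hn1, h1, h3⟩
      push Not at h2
      obtain ⟨p, hp1, hp2, hp3⟩ := h2
      unfold RG.BW
      rw [mem_filter, mem_Icc]
      refine ⟨hn3.1, hn3.2.1, p, hp1, ?_, hp2⟩
      exact_mod_cast lt_of_le_of_lt h.W1a hp3
    · left
      rw [mem_RN']
      refine ⟨⟨hn3.1.1, ?_⟩, hn3.2⟩
      rw [ht]
      exact Nat.le_floor (not_lt.mp h1)
  have hc1 : ((RN q z y \ Ty q z y δ ((N : ℝ) ^ (1 / 2 - 8 * κ))).card : ℝ) ≤
      (RN q z t).card + (BW z y W1).card := by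
    exact_mod_cast (card_le_card hsub).trans (card_union_le _ _)
  have hc2 : ((RN q z t).card : ℝ) ≤ Cu * δ * (y / Real.log z) := by
    refine (hU t ht2).trans ?_
    calc Cu * (t / Real.log z) ≤ Cu * (δ * y / Real.log z) :=
          mul_le_mul_of_nonneg_left (div_le_div_of_nonneg_right ht1 hL.le) hCu.le
      _ = _ := by ring
  have hlW : Real.log N / 3 ≤ Real.log W1 := by
    refine le_trans ?_ h.W1b
    have : κ * Real.log N ≤ 1 / 100 * Real.log N := mul_le_mul_of_nonneg_right hκ1 hK.le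
    nlinarith
  have hW2 : 2 ≤ W1 := by
    by_contra hc
    push Not at hc
    have h1 : Real.log W1 ≤ 0 := by
      rcases (by omega : W1 = 0 ∨ W1 = 1) with h2 | h2
      · rw [h2]; simp
      · rw [h2]; simp
    linarith
  have hWy : W1 ≤ y := by
    have h1 : (W1 : ℝ) ≤ y := by
      refine h.W1a.trans (le_trans ?_ h.y2)
      have h2 : (N : ℝ) ^ (1 / 2 + κ) = (N : ℝ) ^ (1 / 2 - 8 * κ) * (N : ℝ) ^ (9 * κ) := by
        rw [← rpow_split _ hN0]; congr 1; ring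
      have h3 : 4 ≤ (N : ℝ) ^ (9 * κ) :=
        h.Nk.trans (Real.rpow_le_rpow_of_exponent_le f1 (by linarith))
      have h4 : 0 < (N : ℝ) ^ (1 / 2 - 8 * κ) := by positivity
      rw [h2]
      nlinarith
    exact_mod_cast h1
  have hb := hBW W1 hW2 hWy
  have hly : Real.log y ≤ (1 / 2 + κ) * Real.log N := by
    rw [← Real.log_rpow hN0]
    exact Real.log_le_log hy0 h.y1
  have hdiff : Real.log y - Real.log W1 ≤ 10 * κ * Real.log N := by
    have := h.W1b
    nlinarith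
  have hrat : (Real.log y - Real.log W1) / Real.log z ≤ 20 * κ / c := by
    rw [div_le_div_iff₀ hL hc0]
    have h1 := h.L1
    have h2 : (Real.log y - Real.log W1) * c ≤ 10 * κ * Real.log N * c :=
      mul_le_mul_of_nonneg_right hdiff hc0.le
    nlinarith
  have hyW : (y : ℝ) / Real.log W1 ≤ 3 * c * (y / Real.log z) := by
    have h1 : (y : ℝ) / Real.log W1 ≤ y / (Real.log N / 3) :=
      div_le_div_of_nonneg_left hy0.le (by positivity) hlW
    refine h1.trans ?_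
    have h2 : (y : ℝ) / (Real.log N / 3) = 3 * (y / Real.log N) := by field_simp
    rw [h2, mul_assoc]
    refine mul_le_mul_of_nonneg_left ?_ (by norm_num)
    rw [mul_div_assoc', div_le_div_iff₀ hK hL]
    have h3 := h.L2
    calc (y : ℝ) * Real.log z ≤ y * (c * Real.log N) := mul_le_mul_of_nonneg_left h3 hy0.le
      _ = c * y * Real.log N := by ring
  have hb2 : ((BW z y W1).card : ℝ) ≤ (y / Real.log z) * (Cb * (3 * c + 60 * κ)) := by
    refine hb.trans ?_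
    have h1 : 0 ≤ 1 + 20 * κ / c := by positivity
    have h2 : 0 ≤ (y : ℝ) / Real.log W1 := by
      have : 0 < Real.log W1 := by linarith
      positivity
    calc Cb * (y / Real.log W1) * (1 + (Real.log y - Real.log W1) / Real.log z) ≤
          Cb * (y / Real.log W1) * (1 + 20 * κ / c) :=
          mul_le_mul_of_nonneg_left (by linarith) (by positivity)
      _ ≤ Cb * (3 * c * (y / Real.log z)) * (1 + 20 * κ / c) :=
          mul_le_mul_of_nonneg_right (mul_le_mul_of_nonneg_left hyW hCb.le) h1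
      _ = (y / Real.log z) * (Cb * (3 * c + 60 * κ)) := by
          field_simp
          ring
  calc _ ≤ _ := hc1
    _ ≤ Cu * δ * (y / Real.log z) + (y / Real.log z) * (Cb * (3 * c + 60 * κ)) := add_le_add hc2 hb2
    _ = _ := by ring

end Pool.Agent.Lib.OWS
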