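import Mathlib
import Pool.Agent.Lib.MP_7b7e48_nt.OW.SPDefs
import Pool.Agent.Lib.MP_7b7e48_nt.OW.SPSum2

/-!
# Part SP: the moves to the hub
-/

open Finset
open Pool.Agent.Lib.RG (Rough RN bch PB)

namespace Pool.Agent.Lib.OWS

/-- iterated average -/
noncomputable def av (S : Finset ℕ) (T : ℕ → Finset ℕ) (f : ℕ → ℕ → ℝ) : ℝ :=
  (1 / (S.card : ℝ)) * ∑ b ∈ S, (1 / ((T b).card : ℝ)) * ∑ k ∈ T b, f b k

theorem av_add (S : Finset ℕ) (T : ℕ → Finset ℕ) (f g : ℕ → ℕ → ℝ) :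
    av S T (fun b k => f b k + g b k) = av S T f + av S T g := by
  unfold av
  rw [← mul_add, ← sum_add_distrib]
  congr 1
  refine sum_congr rfl fun b _ => ?_
  rw [sum_add_distrib, mul_add]

theorem av_mul (S : Finset ℕ) (T : ℕ → Finset ℕ) (c : ℝ) (f : ℕ → ℕ → ℝ) :
    av S T (fun b k => c * f b k) = c * av S T f := by
  unfold av
  have : ∀ b ∈ S, (1 / ((T b).card : ℝ)) * ∑ k ∈ T b, c * f b k =
      c * ((1 / ((T b).card : ℝ)) * ∑ k ∈ T b, f b k) := by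
    intro b _
    rw [← mul_sum]
    ring
  rw [sum_congr rfl this, ← mul_sum]
  ring

theorem av_fst (S : Finset ℕ) (T : ℕ → Finset ℕ) (hT : ∀ b ∈ S, 0 < (T b).card) (f : ℕ → ℝ) :
    av S T (fun b _ => f b) = (1 / (S.card : ℝ)) * ∑ b ∈ S, f b := by
  unfold av
  congr 1
  refine sum_congr rfl fun b hb => ?_
  have h1 : ((T b).card : ℝ) ≠ 0 := by
    have := hT b hb
    positivity
  rw [sum_const, nsmul_eq_mul]
  field_simp

theorem av_const (S : Finset ℕ) (T : ℕ → Finset ℕ) (hS : 0 < S.card) (hT : ∀ b ∈ S, 0 < (T b).card)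
    (c : ℝ) : av S T (fun _ _ => c) = c := by
  rw [av_fst S T hT (fun _ => c), sum_const, nsmul_eq_mul]
  have h1 : ((S.card : ℕ) : ℝ) ≠ 0 := by positivity
  field_simp

theorem av_mono (S : Finset ℕ) (T : ℕ → Finset ℕ) (f g : ℕ → ℕ → ℝ)
    (h : ∀ b ∈ S, ∀ k ∈ T b, f b k ≤ g b k) : av S T f ≤ av S T g := by
  unfold av
  refine mul_le_mul_of_nonneg_left ?_ (by positivity)
  refine sum_le_sum fun b hb => mul_le_mul_of_nonneg_left ?_ (by positivity)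
  exact sum_le_sum fun k hk => h b hb k hk

theorem ratio_le {a b Y δ : ℝ} (hδ : 0 < δ) (ha : δ * Y / 4 < a) (ha' : a ≤ Y) (hb : δ * Y / 4 < b)
    (hb' : b ≤ Y) (hY : 0 < Y) : a / b + b / a ≤ 8 / δ := by
  have ha0 : 0 < a := lt_of_le_of_lt (by positivity) ha
  have hb0 : 0 < b := lt_of_le_of_lt (by positivity) hb
  have h1 : a / b ≤ 4 / δ := by
    rw [div_le_div_iff₀ hb0 hδ]
    nlinarith
  have h2 : b / a ≤ 4 / δ := by
    rw [div_le_div_iff₀ ha0 hδ]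
    nlinarith
  have h3 : 8 / δ = 4 / δ + 4 / δ := by ring
  rw [h3]
  exact add_le_add h1 h2

/-- one element `n = A m`, one choice of `(b, k)` -/
theorem one_move {ι : Type} {W q z B y j : ℕ} {E : ℝ} {X : Finset ι} {w : ι → ℝ} {g : ι → ℕ → ℂ}
    {e : ℕ → ℝ} (hF : Fam q X w g) (hT : Two W q z B E X w g e) {δ lo : ℝ} (hδ : 0 < δ)
    (hyB : y ≤ B * 2 ^ j) (hjB : 2 ^ (j + 1) ≤ B) {m A b k bs ks : ℕ}
    (hm : m ∈ Ms q z B lo) (hA : A ∈ As q z y δ m) (hb : b ∈ BB W q z j) (hk : k ∈ MM W q z m b)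
    (hbs : bs ∈ BB W q z j) (hks : ks ∈ KR q z B y j δ) (hksW : ks % W = (A * m) % W) :
    Dst X w g (A * m) (bs * ks) ≤ 3 * (4 * (e m + e (b * k)) + 4 * (e b + e bs) +
      8 / δ * (e (A * k) + e ks)) := by
  obtain ⟨hm1, hm2, _, hm4, hm5⟩ := Ms_mem hm
  obtain ⟨hA1, hA2, hA3, hA4, hA5⟩ := As_mem hA hm1
  obtain ⟨hb1, hb2, hb3, hbW, hb5, hb6⟩ := BB_mem hb
  obtain ⟨hs1, hs2, hs3, hsW, hs5, hs6⟩ := BB_mem hbs
  obtain ⟨hk1, hk2, hk3, hkW, hk5, hk6⟩ := MM_mem hk hb1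
  have hAk := Ak_mem hδ hyB hm hA hb hk
  have hAk' := hAk
  have hks' := hks
  unfold KR at hAk' hks'
  rw [mem_filter, mem_RN'] at hAk' hks'
  have hks1 : 1 ≤ ks := hks'.1.1.1
  have e1 : Dst X w g (A * m) (A * (b * k)) = Dst X w g m (b * k) :=
    Dst_mul hF hA1 hm1 (Nat.mul_pos hb1 hk1) hA5
  have e2 : Dst X w g (A * (b * k)) (bs * (A * k)) = Dst X w g b bs := by
    have h1 : A * (b * k) = (A * k) * b := by ring
    have h2 : bs * (A * k) = (A * k) * bs := by ring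
    rw [h1, h2]
    exact Dst_mul hF (Nat.mul_pos hA1 hk1) hb1 hs1 hAk'.1.2.2
  have e3 : Dst X w g (bs * (A * k)) (bs * ks) = Dst X w g (A * k) ks :=
    Dst_mul hF hs1 (Nat.mul_pos hA1 hk1) hks1 hs6
  have hmR : (0 : ℝ) < m := by exact_mod_cast hm1
  have hbR : (0 : ℝ) < b := by exact_mod_cast hb1
  have hsR : (0 : ℝ) < bs := by exact_mod_cast hs1
  have hkR : (0 : ℝ) < k := by exact_mod_cast hk1
  have hbkR : (0 : ℝ) < ((b * k : ℕ) : ℝ) := by exact_mod_cast Nat.mul_pos hb1 hk1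
  have d1 : Dst X w g m (b * k) ≤ 4 * (e m + e (b * k)) := by
    have hbkW : m % W = (b * k) % W := by
      rw [Nat.mul_mod, hbW, hkW, ← Nat.mul_mod, one_mul]
    refine (hT.two m (mem_RN'.mpr ⟨⟨hm1, hm2⟩, hm4, hm5⟩) (b * k)
      (mem_RN'.mpr ⟨⟨Nat.mul_pos hb1 hk1, hk2.trans hm2⟩, Rough_mul hb5 hk5,
        Nat.Coprime.mul_left hb6 hk6⟩) hbkW).trans ?_
    refine mul_le_mul_of_nonneg_right ?_ (add_nonneg (hT.e0 _) (hT.e0 _))
    have h1 : (m : ℝ) / ((b * k : ℕ) : ℝ) ≤ 2 := by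
      rw [div_le_iff₀ hbkR]
      exact_mod_cast hk3.le
    have h2 : ((b * k : ℕ) : ℝ) / m ≤ 1 := by
      rw [div_le_one hmR]
      exact_mod_cast hk2
    linarith
  have d2 : Dst X w g b bs ≤ 4 * (e b + e bs) := by
    refine (hT.two b (mem_RN'.mpr ⟨⟨hb1, hb2.trans hjB⟩, hb5, hb6⟩) bs
      (mem_RN'.mpr ⟨⟨hs1, hs2.trans hjB⟩, hs5, hs6⟩) (hbW.trans hsW.symm)).trans ?_
    refine mul_le_mul_of_nonneg_right ?_ (add_nonneg (hT.e0 _) (hT.e0 _))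
    rw [pow_succ] at hb2 hs2
    have h1 : (b : ℝ) / bs ≤ 2 := by
      rw [div_le_iff₀ hsR]
      have : b ≤ 2 * bs := by omega
      exact_mod_cast this
    have h2 : (bs : ℝ) / b ≤ 2 := by
      rw [div_le_iff₀ hbR]
      have : bs ≤ 2 * b := by omega
      exact_mod_cast this
    linarith
  have d3 : Dst X w g (A * k) ks ≤ 8 / δ * (e (A * k) + e ks) := by
    have hW3 : (A * k) % W = ks % W := by
      rw [hksW, Nat.mul_mod, hkW, ← Nat.mul_mod]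
    refine (hT.two (A * k) (mem_RN'.mpr hAk'.1) ks (mem_RN'.mpr hks'.1) hW3).trans ?_
    refine mul_le_mul_of_nonneg_right ?_ (add_nonneg (hT.e0 _) (hT.e0 _))
    have hY : (0 : ℝ) < y / 2 ^ j := by
      have : (1 : ℝ) ≤ ks := by exact_mod_cast hks1
      linarith [hks'.2.2]
    have hq : δ * (y / 2 ^ j) / 4 = δ * y / (4 * 2 ^ j) := by
      field_simp
    exact ratio_le hδ (by rw [hq]; exact hAk'.2.1) hAk'.2.2 (by rw [hq]; exact hks'.2.1) hks'.2.2 hY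
  have h3 := Dst_three hF (A * m) (A * (b * k)) (bs * (A * k)) (bs * ks)
  rw [e1, e2, e3] at h3
  linarith

/-- the sum over the typical `n` -/
theorem hub_sum {ι : Type} {W q z B y j R : ℕ} {E : ℝ} {X : Finset ι} {w : ι → ℝ} {g : ι → ℕ → ℂ}
    {e : ℕ → ℝ} (hF : Fam q X w g) (hT : Two W q z B E X w g e) {C cW δ lo L H τ S2 S3 : ℝ}
    (hL : 0 < L) (hU : ∀ Y : ℕ, z ≤ Y → ((RN q z Y).card : ℝ) ≤ C * (Y / L)) (hC : 0 ≤ C)
    (hcW : 0 < cW) (hδ : 0 < δ) (hyB : y ≤ B * 2 ^ j) (hjB : 2 ^ (j + 1) ≤ B) (hzj : z ≤ 2 ^ j)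
    (hzy : ∀ m ∈ RN q z B, z ≤ y / m)
    (hB : cW * ((2 : ℝ) ^ (j + 1) / L) ≤ (BB W q z j).card)
    (hM : ∀ m ∈ Ms q z B lo, ∀ b ∈ BB W q z j, cW * (((m : ℝ) / b) / L) ≤ (MM W q z m b).card)
    (hR : ∀ n ∈ RN q z B, (rdv z n : ℝ) ≤ R)
    (hH : ∑ m ∈ RN q z B, 1 / (m : ℝ) ≤ H)
    (hS2 : ∑ n ∈ KR q z B y j δ, e n / n ≤ S2)
    (hS3 : ∑ n ∈ RN q z B, (dj z j n : ℝ) * (e n / n) ≤ S3)
    (hav : (1 / ((BB W q z j).card : ℝ)) * ∑ b ∈ BB W q z j, e b ≤ τ) (hτ : 0 ≤ τ)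
    (Ty : Finset ℕ) (hTy : ∀ n ∈ Ty, n ∈ RN q z y ∧ δ * y < n ∧ ∃ m : ℕ, m ∣ n ∧ lo < m ∧ m ≤ B)
    {bs : ℕ} (hbs : bs ∈ BB W q z j) (ebs : e bs ≤ τ) (ks : ℕ → ℕ)
    (hks : ∀ n ∈ Ty, ks (n % W) ∈ KR q z B y j δ ∧ ks (n % W) % W = n % W ∧ e (ks (n % W)) ≤ τ) :
    ∑ n ∈ Ty, Dst X w g n (bs * ks (n % W)) ≤
      3 * (4 * (C * (y / L) * E) + 4 * (2 * C ^ 2 / cW ^ 2 * y * S3) + 4 * (C * (y / L) * H * (2 * τ)) +
        8 / δ * (4 * C * R / cW * y * S2) + 8 / δ * (C * (y / L) * H * τ)) := by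
  classical
  have hBpos : 0 < ((BB W q z j).card : ℝ) := lt_of_lt_of_le (by positivity) hB
  have hBn : 0 < (BB W q z j).card := by exact_mod_cast hBpos
  have hMn : ∀ m ∈ Ms q z B lo, ∀ b ∈ BB W q z j, 0 < (MM W q z m b).card := by
    intro m hm b hb
    obtain ⟨hm1, _⟩ := Ms_mem hm
    obtain ⟨hb1, _⟩ := BB_mem hb
    have h1 : (0 : ℝ) < cW * (((m : ℝ) / b) / L) := by
      have hmR : (0 : ℝ) < m := by exact_mod_cast hm1
      have hbR : (0 : ℝ) < b := by exact_mod_cast hb1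
      positivity
    exact_mod_cast lt_of_lt_of_le h1 (hM m hm b hb)
  obtain ⟨Φ, hΦ⟩ : ∃ Φ : ℕ → ℕ → ℝ, Φ = fun m A =>
      3 * (4 * e m + 4 * av (BB W q z j) (MM W q z m) (fun b k => e (b * k)) + 4 * (2 * τ) +
        8 / δ * av (BB W q z j) (MM W q z m) (fun _ k => e (A * k)) + 8 / δ * τ) := ⟨_, rfl⟩
  have av0 : ∀ m : ℕ, ∀ f : ℕ → ℕ → ℝ, (∀ b k, 0 ≤ f b k) → 0 ≤ av (BB W q z j) (MM W q z m) f := by
    intro m f hf
    unfold av
    exact mul_nonneg (by positivity) (sum_nonneg fun b _ => mul_nonneg (by positivity)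
      (sum_nonneg fun k _ => hf b k))
  have hΦ0 : ∀ m A, 0 ≤ Φ m A := by
    intro m A
    rw [hΦ]
    have h1 := av0 m (fun b k => e (b * k)) (fun b k => hT.e0 _)
    have h2 := av0 m (fun _ k => e (A * k)) (fun b k => hT.e0 _)
    have h3 := hT.e0 m
    positivity
  -- pointwise
  have hpt : ∀ n ∈ Ty, ∃ m ∈ Ms q z B lo, ∃ A ∈ As q z y δ m, A * m = n ∧
      Dst X w g n (bs * ks (n % W)) ≤ Φ m A := by
    intro n hn
    obtain ⟨hn1, hn2, m, ⟨A, hA⟩, hm2, hm3⟩ := hTy n hn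
    obtain ⟨hk1, hk2, hk3⟩ := hks n hn
    rw [mem_RN'] at hn1
    have hm0 : 1 ≤ m := by
      rcases Nat.eq_zero_or_pos m with h0 | h0
      · rw [h0, zero_mul] at hA
        omega
      · exact h0
    have hA0 : 1 ≤ A := by
      rcases Nat.eq_zero_or_pos A with h0 | h0
      · rw [h0, mul_zero] at hA
        omega
      · exact h0
    have hmM : m ∈ Ms q z B lo := by
      unfold Ms
      rw [mem_filter, mem_RN']
      exact ⟨⟨⟨hm0, hm3⟩, Rough_dvd hn1.2.1 ⟨A, hA⟩, Nat.Coprime.coprime_dvd_left ⟨A, hA⟩ hn1.2.2⟩, hm2⟩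
    have hAm : A * m = n := by rw [mul_comm]; exact hA.symm
    have hAA : A ∈ As q z y δ m := by
      unfold As
      rw [mem_filter, mem_RN']
      have hd : A ∣ n := ⟨m, hAm.symm⟩
      refine ⟨⟨⟨hA0, ?_⟩, Rough_dvd hn1.2.1 hd, Nat.Coprime.coprime_dvd_left hd hn1.2.2⟩, ?_⟩
      · rw [Nat.le_div_iff_mul_le hm0, hAm]
        exact hn1.1.2
      · have : (A : ℝ) * m = n := by exact_mod_cast hAm
        rw [this]
        exact hn2
    refine ⟨m, hmM, A, hAA, hAm, ?_⟩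
    have h1 : ∀ b ∈ BB W q z j, ∀ k ∈ MM W q z m b, Dst X w g n (bs * ks (n % W)) ≤
        3 * (4 * e m + 4 * e (b * k) + 4 * (e b + τ) + 8 / δ * e (A * k) + 8 / δ * τ) := by
      intro b hb k hk
      have h2 := one_move hF hT hδ hyB hjB hmM hAA hb hk hbs hk1 (by rw [hk2, hAm])
      rw [hAm] at h2
      refine h2.trans ?_
      have h3 : 8 / δ * (e (A * k) + e (ks (n % W))) ≤ 8 / δ * (e (A * k) + τ) := by
        refine mul_le_mul_of_nonneg_left ?_ (by positivity)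
        linarith
      linarith
    have h4 : Dst X w g n (bs * ks (n % W)) ≤ av (BB W q z j) (MM W q z m) (fun b k =>
        3 * (4 * e m + 4 * e (b * k) + 4 * (e b + τ) + 8 / δ * e (A * k) + 8 / δ * τ)) := by
      calc Dst X w g n (bs * ks (n % W)) = av (BB W q z j) (MM W q z m)
            (fun _ _ => Dst X w g n (bs * ks (n % W))) := (av_const _ _ hBn (hMn m hmM) _).symm
        _ ≤ _ := av_mono _ _ _ _ h1
    refine h4.trans (le_of_le_of_eq ?_ rfl)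
    rw [av_mul, av_add, av_add, av_add, av_add, av_mul, av_mul, av_mul, av_mul, av_add]
    rw [av_const _ _ hBn (hMn m hmM), av_const _ _ hBn (hMn m hmM), av_const _ _ hBn (hMn m hmM)]
    rw [av_fst _ _ (hMn m hmM)]
    rw [hΦ]
    simp only
    nlinarith [hav]
  -- injection
  have hsum : ∑ n ∈ Ty, Dst X w g n (bs * ks (n % W)) ≤
      ∑ m ∈ Ms q z B lo, ∑ A ∈ As q z y δ m, Φ m A := by
    choose! fm hfm fA hfA hfe hfD using hpt
    rw [sum_sigma' (Ms q z B lo) (fun m => As q z y δ m) (fun m A => Φ m A)]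
    calc ∑ n ∈ Ty, Dst X w g n (bs * ks (n % W)) ≤ ∑ n ∈ Ty, Φ (fm n) (fA n) :=
          sum_le_sum fun n hn => hfD n hn
      _ = ∑ x ∈ Ty.image (fun n => (⟨fm n, fA n⟩ : Σ _ : ℕ, ℕ)), Φ x.1 x.2 := by
          rw [sum_image]
          intro n hn n' hn' h
          have h1 : fm n = fm n' ∧ fA n = fA n' := by
            simp only [Sigma.mk.injEq, heq_eq_eq] at h
            exact h
          rw [← hfe n hn, ← hfe n' hn', h1.1, h1.2]
      _ ≤ _ := by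
          refine sum_le_sum_of_subset_of_nonneg ?_ fun x _ _ => hΦ0 _ _
          intro x hx
          rw [mem_image] at hx
          obtain ⟨n, hn, rfl⟩ := hx
          rw [mem_sigma]
          exact ⟨hfm n hn, hfA n hn⟩
  refine hsum.trans ?_
  have p1 := P1 q z B y e C δ lo L hL hU hT.e0 hC hzy
  have p2 := P2 W q z B y j e C cW δ lo L hL hU hT.e0 hC hcW hzy hzj hB hM
  have p3 := Tcard q z B y C δ lo L hL hU hC hzy H hH
  have p4 := P4 W q z B y j R e C cW δ lo L hL hU hT.e0 hC hcW hδ hyB hzj hBn hM hR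
  have q1 : C * (y / L) * ∑ m ∈ RN q z B, e m / m ≤ C * (y / L) * E :=
    mul_le_mul_of_nonneg_left hT.mass (by positivity)
  have q2 : 2 * C ^ 2 / cW ^ 2 * y * ∑ n ∈ RN q z B, (dj z j n : ℝ) * (e n / n) ≤
      2 * C ^ 2 / cW ^ 2 * y * S3 := mul_le_mul_of_nonneg_left hS3 (by positivity)
  have q4 : 4 * C * R / cW * y * ∑ n ∈ KR q z B y j δ, e n / n ≤ 4 * C * R / cW * y * S2 :=
    mul_le_mul_of_nonneg_left hS2 (by positivity)
  have hexp : ∑ m ∈ Ms q z B lo, ∑ A ∈ As q z y δ m, Φ m A =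
      3 * (4 * (∑ m ∈ Ms q z B lo, ∑ _A ∈ As q z y δ m, e m) +
        4 * (∑ m ∈ Ms q z B lo, ∑ _A ∈ As q z y δ m, (1 / ((BB W q z j).card : ℝ)) *
          ∑ b ∈ BB W q z j, (1 / ((MM W q z m b).card : ℝ)) * ∑ k ∈ MM W q z m b, e (b * k)) +
        4 * ((∑ m ∈ Ms q z B lo, ((As q z y δ m).card : ℝ)) * (2 * τ)) +
        8 / δ * (∑ m ∈ Ms q z B lo, ∑ A ∈ As q z y δ m, (1 / ((BB W q z j).card : ℝ)) *
          ∑ b ∈ BB W q z j, (1 / ((MM W q z m b).card : ℝ)) * ∑ k ∈ MM W q z m b, e (A * k)) +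
        8 / δ * ((∑ m ∈ Ms q z B lo, ((As q z y δ m).card : ℝ)) * τ)) := by
    have hm : ∀ m ∈ Ms q z B lo, ∑ A ∈ As q z y δ m, Φ m A =
        3 * (4 * (∑ _A ∈ As q z y δ m, e m) +
        4 * (∑ _A ∈ As q z y δ m, av (BB W q z j) (MM W q z m) (fun b k => e (b * k))) +
        4 * (((As q z y δ m).card : ℝ) * (2 * τ)) +
        8 / δ * (∑ A ∈ As q z y δ m, av (BB W q z j) (MM W q z m) (fun _ k => e (A * k))) +
        8 / δ * (((As q z y δ m).card : ℝ) * τ)) := by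
      intro m _
      rw [hΦ]
      simp only [← mul_sum, sum_add_distrib, sum_const, nsmul_eq_mul]
      ring
    rw [sum_congr rfl hm, ← mul_sum, sum_add_distrib, sum_add_distrib, sum_add_distrib,
      sum_add_distrib, ← mul_sum, ← mul_sum, ← mul_sum, ← mul_sum, ← mul_sum, ← sum_mul, ← sum_mul]
    rfl
  rw [hexp]
  have r3 : (∑ m ∈ Ms q z B lo, ((As q z y δ m).card : ℝ)) * (2 * τ) ≤ C * (y / L) * H * (2 * τ) :=
    mul_le_mul_of_nonneg_right p3 (by positivity)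
  have r5 : (∑ m ∈ Ms q z B lo, ((As q z y δ m).card : ℝ)) * τ ≤ C * (y / L) * H * τ :=
    mul_le_mul_of_nonneg_right p3 hτ
  have hδ8 : 0 ≤ 8 / δ := by positivity
  have r4 := mul_le_mul_of_nonneg_left (p4.trans q4) hδ8
  have r5' := mul_le_mul_of_nonneg_left r5 hδ8
  linarith

end Pool.Agent.Lib.OWS
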