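import Mathlib
import Pool.Agent.Lib.MP_7b7e48_nt.OW.SPSum2

/-!
# Part SP: choice of the hub scale (pigeonhole)
-/

open Finset
open Pool.Agent.Lib.RG (Rough RN bch PB)

namespace Pool.Agent.Lib.OWS

theorem sum_dj_le (z n : ℕ) (J : Finset ℕ) : ∑ j ∈ J, dj z j n ≤ rdv z n := by
  classical
  unfold dj rdv
  rw [← card_sigma]
  refine card_le_card_of_injOn (fun x => x.2) ?_ ?_
  · intro x hx
    rw [mem_coe, mem_sigma, mem_filter] at hx
    rw [mem_coe, mem_filter]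
    exact ⟨hx.2.1, hx.2.2.1⟩
  · intro x hx x' hx' h
    rw [mem_coe, mem_sigma, mem_filter] at hx hx'
    obtain ⟨j, b⟩ := x
    obtain ⟨j', b'⟩ := x'
    simp only at h hx hx'
    subst h
    have h1 : j < j' + 1 := by
      have : 2 ^ j < 2 ^ (j' + 1) := lt_of_lt_of_le hx.2.2.2.1 hx'.2.2.2.2
      exact (Nat.pow_lt_pow_iff_right (by norm_num)).mp this
    have h2 : j' < j + 1 := by
      have : 2 ^ j' < 2 ^ (j + 1) := lt_of_lt_of_le hx'.2.2.2.1 hx.2.2.2.2
      exact (Nat.pow_lt_pow_iff_right (by norm_num)).mp this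
    have h3 : j = j' := by omega
    subst h3
    rfl

theorem count_scales (J : Finset ℕ) (a : ℝ) (D : ℕ) (b : ℝ) (hb : b ≤ 2 ^ D * a) :
    (J.filter fun j : ℕ => a < 2 ^ j ∧ (2 : ℝ) ^ j ≤ b).card ≤ D := by
  obtain ⟨S, hS⟩ : ∃ S : Finset ℕ, S = J.filter fun j : ℕ => a < 2 ^ j ∧ (2 : ℝ) ^ j ≤ b := ⟨_, rfl⟩
  rw [← hS]
  rcases S.eq_empty_or_nonempty with h0 | h0
  · rw [h0]
    simp
  · obtain ⟨m, hm⟩ : ∃ m, m = S.min' h0 := ⟨_, rfl⟩
    have hmS : m ∈ S := by rw [hm]; exact S.min'_mem h0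
    rw [hS, mem_filter] at hmS
    have h1 : S ⊆ Finset.Ico m (m + D) := by
      intro j hj
      have h2 : m ≤ j := by rw [hm]; exact S.min'_le j hj
      rw [hS, mem_filter] at hj
      rw [mem_Ico]
      refine ⟨h2, ?_⟩
      have h3 : (2 : ℝ) ^ j < 2 ^ (m + D) := by
        calc (2 : ℝ) ^ j ≤ b := hj.2.2
          _ ≤ 2 ^ D * a := hb
          _ < 2 ^ D * 2 ^ m := mul_lt_mul_of_pos_left hmS.2.1 (by positivity)
          _ = 2 ^ (m + D) := by rw [pow_add, mul_comm]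
      exact (pow_lt_pow_iff_right₀ (by norm_num : (1 : ℝ) < 2)).mp h3
    refine (card_le_card h1).trans ?_
    rw [Nat.card_Ico]
    omega

theorem pig (q z B y R D : ℕ) (δ E : ℝ) (e : ℕ → ℝ) (e0 : ∀ n, 0 ≤ e n)
    (hE : ∑ A ∈ RN q z B, e A / A ≤ E) (hD : 4 / δ ≤ 2 ^ D) (hδ : 0 < δ)
    (hR : ∀ n ∈ RN q z B, (rdv z n : ℝ) ≤ R) (J : Finset ℕ) (hJ : J.Nonempty) :
    ∃ j ∈ J, ∑ n ∈ KR q z B y j δ, e n / n + ∑ n ∈ RN q z B, (dj z j n : ℝ) * (e n / n) ≤
      (D + R) * E / J.card := by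
  classical
  have hf0 : ∀ n : ℕ, 0 ≤ e n / n := fun n => div_nonneg (e0 n) (Nat.cast_nonneg _)
  have hE0 : 0 ≤ E := le_trans (sum_nonneg fun n _ => hf0 n) hE
  have h1 : ∑ j ∈ J, ∑ n ∈ RN q z B, (dj z j n : ℝ) * (e n / n) ≤ R * E := by
    rw [sum_comm]
    calc ∑ n ∈ RN q z B, ∑ j ∈ J, (dj z j n : ℝ) * (e n / n) ≤ ∑ n ∈ RN q z B, R * (e n / n) := by
          refine sum_le_sum fun n hn => ?_
          rw [← sum_mul]
          refine mul_le_mul_of_nonneg_right ?_ (hf0 n)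
          have h2 := sum_dj_le z n J
          have h3 : (∑ j ∈ J, (dj z j n : ℝ)) ≤ rdv z n := by exact_mod_cast h2
          exact h3.trans (hR n hn)
      _ = R * ∑ n ∈ RN q z B, e n / n := by rw [mul_sum]
      _ ≤ R * E := mul_le_mul_of_nonneg_left hE (Nat.cast_nonneg _)
  have h2 : ∑ j ∈ J, ∑ n ∈ KR q z B y j δ, e n / n ≤ D * E := by
    have h3 : ∀ j ∈ J, ∑ n ∈ KR q z B y j δ, e n / n =
        ∑ n ∈ RN q z B, if δ * y / (4 * 2 ^ j) < n ∧ (n : ℝ) ≤ y / 2 ^ j then e n / n else 0 := by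
      intro j _
      unfold KR
      rw [sum_filter]
    rw [sum_congr rfl h3, sum_comm]
    calc ∑ n ∈ RN q z B, ∑ j ∈ J, (if δ * y / (4 * 2 ^ j) < n ∧ (n : ℝ) ≤ y / 2 ^ j then e n / n else 0) ≤
          ∑ n ∈ RN q z B, D * (e n / n) := by
          refine sum_le_sum fun n hn => ?_
          rw [← sum_filter, sum_const, nsmul_eq_mul]
          refine mul_le_mul_of_nonneg_right ?_ (hf0 n)
          have hn1 : 1 ≤ n := (mem_RN'.mp hn).1.1
          have hnR : (0 : ℝ) < n := by exact_mod_cast hn1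
          have h4 : (J.filter fun j : ℕ => δ * y / (4 * 2 ^ j) < n ∧ (n : ℝ) ≤ y / 2 ^ j) ⊆
              J.filter fun j : ℕ => δ * y / (4 * n) < 2 ^ j ∧ (2 : ℝ) ^ j ≤ y / n := by
            intro j hj
            rw [mem_filter] at hj ⊢
            obtain ⟨h5, h6, h7⟩ := hj
            have hp : (0 : ℝ) < 2 ^ j := by positivity
            refine ⟨h5, ?_, ?_⟩
            · rw [div_lt_iff₀ (by positivity)] at h6 ⊢
              linarith
            · rw [le_div_iff₀ hp] at h7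
              rw [le_div_iff₀ hnR]
              linarith
          have h5 := count_scales J (δ * y / (4 * n)) D (y / n) (by
            have hy : (0 : ℝ) ≤ y / n := by positivity
            have h6 : (y : ℝ) / n = 4 / δ * (δ * y / (4 * n)) := by field_simp
            rw [h6]
            exact mul_le_mul_of_nonneg_right hD (by positivity))
          exact_mod_cast (card_le_card h4).trans h5
      _ = D * ∑ n ∈ RN q z B, e n / n := by rw [mul_sum]
      _ ≤ D * E := mul_le_mul_of_nonneg_left hE (Nat.cast_nonneg _)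
  have h3 : ∑ j ∈ J, (∑ n ∈ KR q z B y j δ, e n / n + ∑ n ∈ RN q z B, (dj z j n : ℝ) * (e n / n)) ≤
      ∑ _j ∈ J, (D + R) * E / J.card := by
    rw [sum_add_distrib, sum_const, nsmul_eq_mul]
    have hJ0 : (0 : ℝ) < J.card := by exact_mod_cast card_pos.mpr hJ
    have : (J.card : ℝ) * ((D + R) * E / J.card) = (D + R) * E := by field_simp
    rw [this]
    linarith
  exact exists_le_of_sum_le hJ h3

/-- existence of an element below the average -/
theorem exists_small (S : Finset ℕ) (e : ℕ → ℝ) (t M : ℝ) (hM : 0 < M) (hS : M ≤ S.card)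
    (h : ∑ k ∈ S, e k ≤ t) (ht : 0 ≤ t) : ∃ k ∈ S, e k ≤ t / M := by
  have hne : S.Nonempty := by
    rw [← card_pos]
    exact_mod_cast lt_of_lt_of_le hM hS
  refine exists_le_of_sum_le hne ?_
  rw [sum_const, nsmul_eq_mul]
  refine h.trans ?_
  calc t = M * (t / M) := by field_simp
    _ ≤ (S.card : ℝ) * (t / M) := mul_le_mul_of_nonneg_right hS (by positivity)

/-- a divisor in a given range -/
theorem exists_divisor (T P : ℝ) (hT : 1 ≤ T) (n : ℕ) (hn : 1 ≤ n) (hTn : T < n)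
    (hP : ∀ p : ℕ, p.Prime → p ∣ n → (p : ℝ) ≤ P) : ∃ m : ℕ, m ∣ n ∧ T < m ∧ (m : ℝ) ≤ T * P := by
  classical
  have hex : ∃ m ∈ n.divisors, T < (m : ℝ) := ⟨n, Nat.mem_divisors_self n (by omega), hTn⟩
  obtain ⟨S, hS⟩ : ∃ S : Finset ℕ, S = n.divisors.filter fun m : ℕ => T < (m : ℝ) := ⟨_, rfl⟩
  have hne : S.Nonempty := by
    obtain ⟨m, hm1, hm2⟩ := hex
    exact ⟨m, by rw [hS, mem_filter]; exact ⟨hm1, hm2⟩⟩
  obtain ⟨m, hm⟩ : ∃ m, m = S.min' hne := ⟨_, rfl⟩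
  have hmS : m ∈ S := by rw [hm]; exact S.min'_mem hne
  have hmS' := hmS
  rw [hS, mem_filter, Nat.mem_divisors] at hmS'
  obtain ⟨⟨hm1, _⟩, hm2⟩ := hmS'
  refine ⟨m, hm1, hm2, ?_⟩
  have hm3 : m ≠ 1 := by
    intro h1
    rw [h1] at hm2
    norm_num at hm2
    linarith
  obtain ⟨p, hp1, hp2⟩ := Nat.exists_prime_and_dvd hm3
  obtain ⟨k, hk⟩ := hp2
  have hm0 : 0 < m := Nat.pos_of_dvd_of_pos hm1 hn
  have hk0 : 0 < k := by
    rcases Nat.eq_zero_or_pos k with h0 | h0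
    · rw [h0, mul_zero] at hk; omega
    · exact h0
  have hkm : k < m := by
    rw [hk]
    have := hp1.one_lt
    nlinarith
  have hkT : (k : ℝ) ≤ T := by
    by_contra hc
    push Not at hc
    have : k ∈ S := by
      rw [hS, mem_filter, Nat.mem_divisors]
      exact ⟨⟨(Dvd.intro_left p hk.symm).trans hm1, by omega⟩, hc⟩
    have := S.min'_le k this
    rw [← hm] at this
    omega
  have hpP := hP p hp1 ((Dvd.intro k hk.symm).trans hm1)
  calc (m : ℝ) = k * p := by rw [hk]; push_cast; ring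
    _ ≤ T * P := mul_le_mul hkT hpP (Nat.cast_nonneg _) (by linarith)

end Pool.Agent.Lib.OWS
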