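import Mathlib
import Pool.Agent.Lib.MP_7b7e48_nt.OW.SPChain3
import Pool.Agent.Lib.MP_7b7e48_nt.OW.SPHub
import Pool.Agent.Lib.MP_7b7e48_nt.OW.SPPig

/-!
# Part SP: the chain theorem
-/

open Finset
open Pool.Agent.Lib.RG (Rough RN bch PB BW)

namespace Pool.Agent.Lib.OWS

theorem Ty_mem {q z y : ℕ} {δ P : ℝ} {n : ℕ} (h : n ∈ Ty q z y δ P) : n ∈ RN q z y ∧ δ * y < n ∧
    ∀ p : ℕ, p.Prime → p ∣ n → (p : ℝ) ≤ P := by
  classical
  simp only [Ty, mem_filter] at h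
  exact ⟨h.1, h.2.1, h.2.2⟩

/-- the typical part, for one `N` -/
theorem typ_sum {ι : Type} {W N q z y B W1 R D : ℕ} {κ c : ℝ} {J : Finset ℕ} (h : Nm N z y B W1 κ c J)
    (hq : q = W * N) (hκ : 0 < κ) (hκ1 : κ ≤ 1 / 100) (hc : c ≤ κ) (hc0 : 0 < c)
    {δ C cW Cs E : ℝ} (hδ : 0 < δ) (hδ1 : δ ≤ 1) (hC : 0 < C) (hcW : 0 < cW) (hCs : 0 < Cs)
    (hE : 0 ≤ E) (hδN : 2 / δ ≤ (N : ℝ) ^ κ) (hD : 4 / δ ≤ 2 ^ D)
    (hU : ∀ Y : ℕ, z ≤ Y → ((RN q z Y).card : ℝ) ≤ C * (Y / Real.log z))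
    (hlow : ∀ x : ℕ, (N : ℝ) ^ κ ≤ x → ∀ r : ℕ, r.Coprime W → ∀ S : Finset ℕ,
      (∀ m, m ∈ RN q z x → x < 2 * m → m % W = r % W → m ∈ S) → cW * (x / Real.log z) ≤ S.card)
    (hsr : ∑ m ∈ RN q z B, 1 / (m : ℝ) ≤ Cs * (1 + Real.log B / Real.log z))
    (hR : ∀ n ∈ RN q z B, (rdv z n : ℝ) ≤ R)
    {X : Finset ι} {w : ι → ℝ} {g : ι → ℕ → ℂ} {e : ℕ → ℝ} (hF : Fam q X w g)
    (hT : Two W q z B E X w g e) :
    ∃ nst : ℕ → ℕ, (∀ r, 1 ≤ nst r ∧ (nst r).Coprime q) ∧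
      ∑ n ∈ Ty q z y δ ((N : ℝ) ^ (1 / 2 - 8 * κ)), Dst X w g n (nst (n % W)) ≤
      3 * (4 * C + 4 * (2 * C ^ 2 / (cW / 2) ^ 2 * (c * (D + R) / κ)) +
        4 * (C * (Cs * (1 + 1 / c)) * (2 * (2 / cW * (c * (D + R) / κ)))) +
        8 / δ * (4 * C * R / (cW / 2) * (c * (D + R) / κ)) +
        8 / δ * (C * (Cs * (1 + 1 / c)) * (2 / cW * (c * (D + R) / κ)))) * E * (y / Real.log z) := by
  classical
  obtain ⟨f1, f2, f3, f4, f5, f6, f7, f8, f9⟩ := nm_facts h hκ hκ1 hc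
  have hN0 : (0 : ℝ) < N := by linarith
  have hz0 : (3 : ℝ) ≤ z := by exact_mod_cast h.z3
  obtain ⟨L, hLdef⟩ : ∃ L : ℝ, L = Real.log z := ⟨_, rfl⟩
  have hL : 0 < L := by rw [hLdef]; exact Real.log_pos (by linarith)
  have hK : 0 < Real.log N := by linarith
  have hL1 : (c / 2) * Real.log N ≤ L := by rw [hLdef]; exact h.L1
  have hL2 : L ≤ c * Real.log N := by rw [hLdef]; exact h.L2
  rw [← hLdef] at hU hlow hsr
  rw [← hLdef]
  have hp1 : 0 < (N : ℝ) ^ κ := by positivity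
  have hmono : ∀ a b : ℝ, a ≤ b → (N : ℝ) ^ a ≤ (N : ℝ) ^ b := fun a b hab =>
    Real.rpow_le_rpow_of_exponent_le f1 hab
  have hyδ : (N : ℝ) ^ (7 * κ) ≤ δ * y := by
    have h1 : (N : ℝ) ^ (1 / 2 + κ) / (N : ℝ) ^ κ ≤ δ * ((N : ℝ) ^ (1 / 2 + κ) / 2) := by
      rw [div_le_iff₀ hp1]
      have h2 : 2 ≤ (N : ℝ) ^ κ * δ := by
        rwa [div_le_iff₀ hδ] at hδN
      have h3 : 0 < (N : ℝ) ^ (1 / 2 + κ) := by positivity
      nlinarith
    have h4 : δ * ((N : ℝ) ^ (1 / 2 + κ) / 2) ≤ δ * y := mul_le_mul_of_nonneg_left h.y2 hδ.le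
    linarith
  have hy0 : (0 : ℝ) < y := by
    have h1 : 0 < (N : ℝ) ^ (7 * κ) := by positivity
    exact (mul_pos_iff_of_pos_left hδ).mp (lt_of_lt_of_le h1 hyδ)
  -- the hub scale
  obtain ⟨j, hjJ, hjS⟩ := pig q z B y R D δ E e hT.e0 hT.mass hD hδ hR J h.J0
  obtain ⟨S2, hS2d⟩ : ∃ S2 : ℝ, S2 = ∑ n ∈ KR q z B y j δ, e n / n := ⟨_, rfl⟩
  obtain ⟨S3, hS3d⟩ : ∃ S3 : ℝ, S3 = ∑ n ∈ RN q z B, (dj z j n : ℝ) * (e n / n) := ⟨_, rfl⟩
  obtain ⟨S, hSd⟩ : ∃ S : ℝ, S = (D + R) * E / J.card := ⟨_, rfl⟩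
  rw [← hS2d, ← hS3d, ← hSd] at hjS
  have hen : ∀ n : ℕ, 0 ≤ e n / n := fun n => div_nonneg (hT.e0 n) (Nat.cast_nonneg _)
  have hS20 : 0 ≤ S2 := by rw [hS2d]; exact sum_nonneg fun n _ => hen n
  have hS30 : 0 ≤ S3 := by
    rw [hS3d]; exact sum_nonneg fun n _ => mul_nonneg (Nat.cast_nonneg _) (hen n)
  have hS2S : S2 ≤ S := by linarith
  have hS3S : S3 ≤ S := by linarith
  have hS0 : 0 ≤ S := by linarith
  have hLS : L * S ≤ c * (D + R) / κ * E := by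
    have hJc : 0 < (J.card : ℝ) := by exact_mod_cast card_pos.mpr h.J0
    rw [hSd, mul_div_assoc', div_le_iff₀ hJc]
    have hDR : (0 : ℝ) ≤ (D + R) * E := by positivity
    calc L * ((D + R) * E) ≤ c * Real.log N * ((D + R) * E) := mul_le_mul_of_nonneg_right hL2 hDR
      _ = c * (D + R) / κ * E * (κ * Real.log N) := by field_simp
      _ ≤ c * (D + R) / κ * E * J.card := mul_le_mul_of_nonneg_left h.J2 (by positivity)
  obtain ⟨g1, g2, g3⟩ := f6 j hjJ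
  obtain ⟨j1, j2⟩ := h.J1 j hjJ
  have h2j : (0 : ℝ) < 2 ^ j := by positivity
  have hNk3 : (N : ℝ) ^ κ ≤ (N : ℝ) ^ (3 * κ) := hmono _ _ (by linarith)
  -- hub factors
  have hBB : cW * (((2 : ℝ) ^ (j + 1)) / L) ≤ (BB W q z j).card := by
    have h1 := hlow (2 ^ (j + 1)) (by
      push_cast
      rw [pow_succ]
      linarith) 1 (Nat.coprime_one_left W) (BB W q z j) (by
        intro m hm hx hmW
        unfold BB
        rw [mem_filter]
        refine ⟨hm, ?_, hmW⟩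
        rw [pow_succ] at hx
        omega)
    push_cast at h1
    exact h1
  have hBBpos : 0 < cW * (((2 : ℝ) ^ (j + 1)) / L) := by positivity
  have hsumBB : ∑ b ∈ BB W q z j, e b ≤ 2 ^ (j + 1) * S := by
    have h1 : ∑ b ∈ BB W q z j, e b ≤ 2 ^ (j + 1) * S3 := by
      calc ∑ b ∈ BB W q z j, e b ≤ ∑ b ∈ BB W q z j, 2 ^ (j + 1) * (e b / b) := by
            refine sum_le_sum fun b hb => ?_
            obtain ⟨hb1, hb2, _⟩ := BB_mem hb
            have hb0 : (0 : ℝ) < b := by exact_mod_cast hb1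
            have hb2' : (b : ℝ) ≤ 2 ^ (j + 1) := by exact_mod_cast hb2
            calc e b = b * (e b / b) := by field_simp
              _ ≤ _ := mul_le_mul_of_nonneg_right hb2' (hen b)
        _ = 2 ^ (j + 1) * ∑ b ∈ BB W q z j, (e b / b) := by rw [mul_sum]
        _ ≤ 2 ^ (j + 1) * S3 := by
            refine mul_le_mul_of_nonneg_left ?_ (by positivity)
            rw [hS3d]
            have hsub : BB W q z j ⊆ RN q z B := by
              intro b hb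
              obtain ⟨hb1, hb2, _, _, hb5, hb6⟩ := BB_mem hb
              exact mem_RN'.mpr ⟨⟨hb1, hb2.trans g2⟩, hb5, hb6⟩
            calc ∑ b ∈ BB W q z j, (e b / b) ≤ ∑ b ∈ BB W q z j, (dj z j b : ℝ) * (e b / b) := by
                  refine sum_le_sum fun b hb => ?_
                  obtain ⟨hb1, hb2, hb3, _, hb5, hb6⟩ := BB_mem hb
                  have h2 : 1 ≤ dj z j b := by
                    unfold dj
                    rw [Nat.one_le_iff_ne_zero, ← Nat.pos_iff_ne_zero, card_pos]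
                    refine ⟨b, ?_⟩
                    rw [mem_filter]
                    exact ⟨Nat.mem_divisors_self b (by omega), hb5, hb3, hb2⟩
                  have h3 : (1 : ℝ) ≤ dj z j b := by exact_mod_cast h2
                  exact le_mul_of_one_le_left (hen b) h3
              _ ≤ _ := sum_le_sum_of_subset_of_nonneg hsub fun n _ _ =>
                  mul_nonneg (Nat.cast_nonneg _) (hen n)
    exact h1.trans (mul_le_mul_of_nonneg_left hS3S (by positivity))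
  obtain ⟨τ, hτd⟩ : ∃ τ : ℝ, τ = 2 / cW * (L * S) := ⟨_, rfl⟩
  have hτ0 : 0 ≤ τ := by rw [hτd]; positivity
  have hq1 : (2 : ℝ) ^ (j + 1) * S / (cW * (((2 : ℝ) ^ (j + 1)) / L)) ≤ τ := by
    have : (2 : ℝ) ^ (j + 1) * S / (cW * (((2 : ℝ) ^ (j + 1)) / L)) = 1 / cW * (L * S) := by
      field_simp
    rw [this, hτd]
    refine mul_le_mul_of_nonneg_right ?_ (by positivity)
    exact div_le_div_of_nonneg_right (by norm_num) hcW.le
  obtain ⟨bs, hbs, hbse⟩ := exists_small (BB W q z j) e _ _ hBBpos hBB hsumBB (by positivity)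
  have hbse' : e bs ≤ τ := hbse.trans hq1
  have hav : (1 / ((BB W q z j).card : ℝ)) * ∑ b ∈ BB W q z j, e b ≤ τ := by
    refine le_trans ?_ hq1
    rw [one_div_mul_eq_div]
    have h0 : 0 ≤ (2 : ℝ) ^ (j + 1) * S := by positivity
    calc (∑ b ∈ BB W q z j, e b) / ((BB W q z j).card : ℝ) ≤
          (2 ^ (j + 1) * S) / ((BB W q z j).card : ℝ) :=
          div_le_div_of_nonneg_right hsumBB (Nat.cast_nonneg _)
      _ ≤ _ := div_le_div_of_nonneg_left h0 hBBpos hBB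
  -- hub values `ks`
  obtain ⟨x, hx⟩ : ∃ x : ℕ, x = y / 2 ^ j := ⟨_, rfl⟩
  have hyj : (4 : ℝ) * (N : ℝ) ^ κ ≤ y / 2 ^ j := by
    rw [le_div_iff₀ h2j]
    have h1 : (2 : ℝ) ^ j ≤ (N : ℝ) ^ (4 * κ) := by
      refine le_trans ?_ j2
      rw [pow_succ]; linarith
    have h2 : (N : ℝ) ^ κ * (N : ℝ) ^ (4 * κ) * (N : ℝ) ^ (2 * κ) ≤ (N : ℝ) ^ (1 / 2 + κ) := by
      rw [← rpow_split _ hN0, ← rpow_split _ hN0]
      exact hmono _ _ (by linarith)
    have h3 : 16 ≤ (N : ℝ) ^ (2 * κ) := by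
      have : (N : ℝ) ^ (2 * κ) = (N : ℝ) ^ κ * (N : ℝ) ^ κ := by
        rw [← rpow_split _ hN0]; congr 1; ring
      rw [this]
      have := h.Nk
      nlinarith
    have h4 := h.y2
    have h5 : (N : ℝ) ^ κ * 2 ^ j ≤ (N : ℝ) ^ κ * (N : ℝ) ^ (4 * κ) := mul_le_mul_of_nonneg_left h1 hp1.le
    have h6 : 0 < (N : ℝ) ^ κ * (N : ℝ) ^ (4 * κ) := by positivity
    nlinarith
  have hxr : ((x : ℕ) : ℝ) ≤ y / 2 ^ j := by
    rw [hx]
    have := Nat.cast_div_le (α := ℝ) (m := y) (n := 2 ^ j)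
    push_cast at this
    exact this
  have hxl : (y : ℝ) / 2 ^ j < x + 1 := by
    rw [hx, div_lt_iff₀ h2j]
    have h1 : y < (y / 2 ^ j + 1) * 2 ^ j := by
      have := Nat.lt_mul_div_succ y (b := 2 ^ j) (by positivity)
      rwa [mul_comm] at this
    exact_mod_cast h1
  have hk4 := h.Nk
  have hxN : (N : ℝ) ^ κ ≤ x := by linarith
  have hxB : x ≤ B := by
    rw [hx]
    refine Nat.div_le_of_le_mul ?_
    rwa [mul_comm]
  have hKS : ∀ r : ℕ, r.Coprime W → ∃ k : ℕ, k ∈ KR q z B y j δ ∧ k % W = r % W ∧ e k ≤ τ := by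
    intro r hr
    obtain ⟨Sr, hSr⟩ : ∃ Sr : Finset ℕ, Sr = (RN q z x).filter fun m => x < 2 * m ∧ m % W = r % W := ⟨_, rfl⟩
    have h1 := hlow x hxN r hr Sr (by
      intro m hm h2 h3
      rw [hSr, mem_filter]
      exact ⟨hm, h2, h3⟩)
    have hsubK : Sr ⊆ KR q z B y j δ := by
      intro k hk
      rw [hSr, mem_filter, mem_RN'] at hk
      unfold KR
      rw [mem_filter, mem_RN']
      refine ⟨⟨⟨hk.1.1.1, hk.1.1.2.trans hxB⟩, hk.1.2⟩, ?_, ?_⟩
      · have h2 : x + 1 ≤ 2 * k := hk.2.1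
        have h3 : (x : ℝ) + 1 ≤ 2 * k := by exact_mod_cast h2
        have h4 : δ * y / (4 * 2 ^ j) = δ * (y / 2 ^ j) / 4 := by field_simp
        rw [h4]
        have h5 : 0 < (y : ℝ) / 2 ^ j := by positivity
        nlinarith
      · exact le_trans (by exact_mod_cast hk.1.1.2) hxr
    have hsum : ∑ k ∈ Sr, e k ≤ (y / 2 ^ j) * S := by
      calc ∑ k ∈ Sr, e k ≤ ∑ k ∈ KR q z B y j δ, e k :=
            sum_le_sum_of_subset_of_nonneg hsubK fun n _ _ => hT.e0 n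
        _ ≤ ∑ k ∈ KR q z B y j δ, (y / 2 ^ j) * (e k / k) := by
            refine sum_le_sum fun k hk => ?_
            unfold KR at hk
            rw [mem_filter, mem_RN'] at hk
            have hk0 : (0 : ℝ) < k := by exact_mod_cast hk.1.1.1
            calc e k = k * (e k / k) := by field_simp
              _ ≤ _ := mul_le_mul_of_nonneg_right hk.2.2 (hen k)
        _ = (y / 2 ^ j) * S2 := by rw [← mul_sum, hS2d]
        _ ≤ _ := mul_le_mul_of_nonneg_left hS2S (by positivity)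
    have hx0 : (0 : ℝ) < x := by linarith
    obtain ⟨k, hk, hke⟩ := exists_small Sr e _ _ (by positivity) h1 hsum (by positivity)
    refine ⟨k, hsubK hk, ?_, hke.trans ?_⟩
    · rw [hSr, mem_filter] at hk
      exact hk.2.2
    · rw [hτd, div_le_iff₀ (by positivity)]
      have h2 : (y : ℝ) / 2 ^ j ≤ 2 * x := by linarith
      calc (y : ℝ) / 2 ^ j * S ≤ 2 * x * S := mul_le_mul_of_nonneg_right h2 hS0
        _ = 2 / cW * (L * S) * (cW * (x / L)) := by field_simp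
  choose! ks hks1 hks2 hks3 using hKS
  have hMMl : ∀ m ∈ Ms q z B ((N : ℝ) ^ (7 * κ)), ∀ b ∈ BB W q z j,
      (cW / 2) * (((m : ℝ) / b) / L) ≤ (MM W q z m b).card := by
    intro m hm b hb
    obtain ⟨hm1, hm2, hm3, hm4, hm5⟩ := Ms_mem hm
    obtain ⟨hb1, hb2, hb3, _, _, _⟩ := BB_mem hb
    have hb0 : (0 : ℝ) < b := by exact_mod_cast hb1
    have hm0 : (0 : ℝ) < m := by exact_mod_cast hm1
    have hb2' : (b : ℝ) ≤ (N : ℝ) ^ (4 * κ) := le_trans (by exact_mod_cast hb2) j2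
    have h1 : (N : ℝ) ^ (3 * κ) ≤ m / b := by
      rw [le_div_iff₀ hb0]
      calc (N : ℝ) ^ (3 * κ) * b ≤ (N : ℝ) ^ (3 * κ) * (N : ℝ) ^ (4 * κ) :=
            mul_le_mul_of_nonneg_left hb2' (by positivity)
        _ = (N : ℝ) ^ (7 * κ) := by rw [← rpow_split _ hN0]; congr 1; ring
        _ ≤ m := hm3.le
    have h2 : (m : ℝ) / b < ((m / b : ℕ) : ℝ) + 1 := by
      rw [div_lt_iff₀ hb0]
      have := Nat.lt_mul_div_succ m (b := b) hb1
      rw [mul_comm] at this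
      exact_mod_cast this
    have h3 : 16 * (N : ℝ) ^ κ ≤ (N : ℝ) ^ (3 * κ) := by
      have : (N : ℝ) ^ (3 * κ) = (N : ℝ) ^ κ * ((N : ℝ) ^ κ * (N : ℝ) ^ κ) := by
        rw [← rpow_split _ hN0, ← rpow_split _ hN0]; congr 1; ring
      rw [this]
      nlinarith [mul_self_nonneg ((N : ℝ) ^ κ - 4)]
    have h4 := hlow (m / b) (by linarith) m (by
      rw [hq] at hm5
      exact Nat.Coprime.coprime_mul_right_right hm5) (MM W q z m b) (by
      intro k hk hk2 hk3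
      unfold MM
      rw [mem_filter]
      refine ⟨hk, ?_, hk3⟩
      have h5 := Nat.lt_mul_div_succ m (b := b) hb1
      have h6 : b * (m / b + 1) ≤ b * (2 * k) := Nat.mul_le_mul_left b hk2
      calc m < b * (m / b + 1) := h5
        _ ≤ b * (2 * k) := h6
        _ = 2 * (b * k) := by ring)
    refine le_trans ?_ h4
    have h5 : (m : ℝ) / b / 2 ≤ ((m / b : ℕ) : ℝ) := by linarith
    calc cW / 2 * ((m : ℝ) / b / L) = cW * (((m : ℝ) / b / 2) / L) := by field_simp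
      _ ≤ _ := mul_le_mul_of_nonneg_left (div_le_div_of_nonneg_right h5 hL.le) hcW.le
  -- harmonic sum
  have hHH : ∑ m ∈ RN q z B, 1 / (m : ℝ) ≤ Cs * (1 + 1 / c) := by
    refine hsr.trans (mul_le_mul_of_nonneg_left ?_ hCs.le)
    have hB0 : (0 : ℝ) < B := lt_of_lt_of_le (by positivity) h.B2
    have h1 : Real.log B ≤ 1 / 2 * Real.log N := by
      have h2 : Real.log B ≤ (1 / 2 - κ) * Real.log N := by
        rw [← Real.log_rpow hN0]
        exact Real.log_le_log hB0 h.B1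
      nlinarith
    have h3 : Real.log B / L ≤ 1 / c := by
      rw [div_le_div_iff₀ hL hc0]
      nlinarith
    linarith
  -- the typical numbers
  have hTyp : ∀ n ∈ Ty q z y δ ((N : ℝ) ^ (1 / 2 - 8 * κ)), n ∈ RN q z y ∧ δ * y < n ∧
      ∃ m : ℕ, m ∣ n ∧ (N : ℝ) ^ (7 * κ) < m ∧ m ≤ B := by
    intro n hn
    obtain ⟨h1, h2, h3⟩ := Ty_mem hn
    refine ⟨h1, h2, ?_⟩
    have hT1 : (1 : ℝ) ≤ (N : ℝ) ^ (7 * κ) := Real.one_le_rpow f1 (by positivity)
    obtain ⟨m, hm1, hm2, hm3⟩ := exists_divisor ((N : ℝ) ^ (7 * κ)) ((N : ℝ) ^ (1 / 2 - 8 * κ)) hT1 n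
      (mem_RN'.mp h1).1.1 (lt_of_le_of_lt hyδ h2) h3
    refine ⟨m, hm1, hm2, ?_⟩
    have h4 : (N : ℝ) ^ (7 * κ) * (N : ℝ) ^ (1 / 2 - 8 * κ) = (N : ℝ) ^ (1 / 2 - κ) := by
      rw [← rpow_split _ hN0]; congr 1; ring
    rw [h4] at hm3
    exact h.Bfl m hm3
  have hnW : ∀ n ∈ Ty q z y δ ((N : ℝ) ^ (1 / 2 - 8 * κ)), (n % W).Coprime W := by
    intro n hn
    obtain ⟨h1, _, _⟩ := Ty_mem hn
    have h2 := (mem_RN'.mp h1).2.2
    rw [hq] at h2
    have h3 := Nat.Coprime.coprime_mul_right_right h2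
    rw [Nat.coprime_iff_gcd_eq_one, ← Nat.gcd_rec, Nat.gcd_comm]
    exact h3
  have hmain := hub_sum hF hT (C := C) (cW := cW / 2) (δ := δ) (lo := (N : ℝ) ^ (7 * κ)) (L := L)
    (H := Cs * (1 + 1 / c)) (τ := τ) (S2 := S) (S3 := S) (R := R) (y := y) (j := j) hL hU hC.le
    (by positivity) hδ g3 g2 g1 (fun m hm => f7 m (mem_RN'.mp hm).1.1 (mem_RN'.mp hm).1.2)
    (by
      refine le_trans ?_ hBB
      exact mul_le_mul_of_nonneg_right (by linarith) (by positivity)) hMMl hR hHH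
    (by rw [← hS2d]; exact hS2S) (by rw [← hS3d]; exact hS3S) hav hτ0
    (Ty q z y δ ((N : ℝ) ^ (1 / 2 - 8 * κ))) hTyp hbs hbse' ks (by
      intro n hn
      have h1 := hnW n hn
      refine ⟨hks1 _ h1, ?_, hks3 _ h1⟩
      rw [hks2 _ h1, Nat.mod_mod])
  obtain ⟨hb1, _, _, _, _, hb6⟩ := BB_mem hbs
  refine ⟨fun r => if r.Coprime W then bs * ks r else 1, ?_, ?_⟩
  · intro r
    by_cases hr : r.Coprime W
    · have h1 := hks1 r hr
      unfold KR at h1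
      rw [mem_filter, mem_RN'] at h1
      simp only [if_pos hr]
      exact ⟨Nat.mul_pos hb1 h1.1.1.1, Nat.Coprime.mul_left hb6 h1.1.2.2⟩
    · simp only [if_neg hr]
      exact ⟨le_refl _, Nat.coprime_one_left q⟩
  · have h1 : ∑ n ∈ Ty q z y δ ((N : ℝ) ^ (1 / 2 - 8 * κ)),
        Dst X w g n ((fun r => if r.Coprime W then bs * ks r else 1) (n % W)) =
        ∑ n ∈ Ty q z y δ ((N : ℝ) ^ (1 / 2 - 8 * κ)), Dst X w g n (bs * ks (n % W)) := by
      refine sum_congr rfl fun n hn => ?_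
      simp only [if_pos (hnW n hn)]
    rw [h1]
    refine hmain.trans ?_
    have hyS : (y : ℝ) * S ≤ (y / L) * (c * (D + R) / κ * E) := by
      calc (y : ℝ) * S = (y / L) * (L * S) := by field_simp
        _ ≤ _ := mul_le_mul_of_nonneg_left hLS (by positivity)
    have hτS : τ ≤ 2 / cW * (c * (D + R) / κ * E) := by
      rw [hτd]
      exact mul_le_mul_of_nonneg_left hLS (by positivity)
    obtain ⟨s, hs⟩ : ∃ s : ℝ, s = c * (D + R) / κ := ⟨_, rfl⟩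
    rw [← hs] at hyS hτS ⊢
    have k2 : 4 * (2 * C ^ 2 / (cW / 2) ^ 2 * y * S) ≤ 4 * (2 * C ^ 2 / (cW / 2) ^ 2 * s) * E * (y / L) := by
      calc 4 * (2 * C ^ 2 / (cW / 2) ^ 2 * y * S) = 4 * (2 * C ^ 2 / (cW / 2) ^ 2) * (y * S) := by ring
        _ ≤ 4 * (2 * C ^ 2 / (cW / 2) ^ 2) * ((y / L) * (s * E)) :=
            mul_le_mul_of_nonneg_left hyS (by positivity)
        _ = _ := by ring
    have k3 : 4 * (C * (y / L) * (Cs * (1 + 1 / c)) * (2 * τ)) ≤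
        4 * (C * (Cs * (1 + 1 / c)) * (2 * (2 / cW * s))) * E * (y / L) := by
      calc 4 * (C * (y / L) * (Cs * (1 + 1 / c)) * (2 * τ)) =
            (4 * (C * (y / L) * (Cs * (1 + 1 / c)) * 2)) * τ := by ring
        _ ≤ (4 * (C * (y / L) * (Cs * (1 + 1 / c)) * 2)) * (2 / cW * (s * E)) :=
            mul_le_mul_of_nonneg_left hτS (by positivity)
        _ = _ := by ring
    have k4 : 8 / δ * (4 * C * R / (cW / 2) * y * S) ≤ 8 / δ * (4 * C * R / (cW / 2) * s) * E * (y / L) := by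
      calc 8 / δ * (4 * C * R / (cW / 2) * y * S) = 8 / δ * (4 * C * R / (cW / 2)) * (y * S) := by ring
        _ ≤ 8 / δ * (4 * C * R / (cW / 2)) * ((y / L) * (s * E)) :=
            mul_le_mul_of_nonneg_left hyS (by positivity)
        _ = _ := by ring
    have k5 : 8 / δ * (C * (y / L) * (Cs * (1 + 1 / c)) * τ) ≤
        8 / δ * (C * (Cs * (1 + 1 / c)) * (2 / cW * s)) * E * (y / L) := by
      calc 8 / δ * (C * (y / L) * (Cs * (1 + 1 / c)) * τ) =
            (8 / δ * (C * (y / L) * (Cs * (1 + 1 / c)))) * τ := by ring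
        _ ≤ (8 / δ * (C * (y / L) * (Cs * (1 + 1 / c)))) * (2 / cW * (s * E)) :=
            mul_le_mul_of_nonneg_left hτS (by positivity)
        _ = _ := by ring
    have k1 : 4 * (C * (y / L) * E) = 4 * C * E * (y / L) := by ring
    calc 3 * (4 * (C * (y / L) * E) + 4 * (2 * C ^ 2 / (cW / 2) ^ 2 * y * S) +
          4 * (C * (y / L) * (Cs * (1 + 1 / c)) * (2 * τ)) + 8 / δ * (4 * C * R / (cW / 2) * y * S) +
          8 / δ * (C * (y / L) * (Cs * (1 + 1 / c)) * τ)) ≤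
          3 * (4 * C * E * (y / L) + 4 * (2 * C ^ 2 / (cW / 2) ^ 2 * s) * E * (y / L) +
          4 * (C * (Cs * (1 + 1 / c)) * (2 * (2 / cW * s))) * E * (y / L) +
          8 / δ * (4 * C * R / (cW / 2) * s) * E * (y / L) +
          8 / δ * (C * (Cs * (1 + 1 / c)) * (2 / cW * s)) * E * (y / L)) := by linarith
      _ = _ := by ring

end Pool.Agent.Lib.OWS
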