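import Mathlib
import Pool.Agent.Lib.MP_7b7e48_nt.OW.SPChain4
import Pool.Agent.Lib.MP_7b7e48_nt.OW.SPRl
import Pool.Agent.Lib.MP_7b7e48_nt.RG.B4

/-!
# Part SP: the chain theorem
-/

open Finset
open Pool.Agent.Lib.RG (Rough RN bch PB BW)

namespace Pool.Agent.Lib.OWS

theorem chain (W : ℕ) (hW : 1 ≤ W) (ε : ℝ) (hε : 0 < ε) : ∃ κ : ℝ, 0 < κ ∧ κ ≤ 1 / 100 ∧ κ ≤ ε ∧
    ∀ c1 : ℝ, 0 < c1 → ∃ c : ℝ, 0 < c ∧ c ≤ c1 ∧ c ≤ κ ∧ ∃ η2 : ℝ, 0 < η2 ∧ ∃ N0 : ℕ,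
    ∀ N q : ℕ, N0 ≤ N → q = W * N → ∀ (ι : Type) (X : Finset ι) (w : ι → ℝ) (g : ι → ℕ → ℂ) (e : ℕ → ℝ),
    Fam q X w g → Two W q ⌊(N : ℝ) ^ c⌋₊ ⌊(N : ℝ) ^ (1 / 2 - κ)⌋₊ η2 X w g e →
    ∃ nst : ℕ → ℕ, (∀ r, 1 ≤ nst r ∧ (nst r).Coprime q) ∧
      ∑ n ∈ RN q ⌊(N : ℝ) ^ c⌋₊ ⌊(N : ℝ) ^ (1 / 2 + κ)⌋₊, Dst X w g n (nst (n % W)) ≤
        ε * (⌊(N : ℝ) ^ (1 / 2 + κ)⌋₊ / Real.log ⌊(N : ℝ) ^ c⌋₊) := by
  classical
  obtain ⟨cW, hcW, hlow⟩ := rough_low W hW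
  obtain ⟨Cu, hCu, hup⟩ := rough_up
  obtain ⟨Cb, hCb, hbw⟩ := RG.BW_card
  obtain ⟨Cs, hCs, hsr⟩ := RG.sum_rough
  obtain ⟨κ, hκd⟩ : ∃ κ : ℝ, κ = min (min (1 / 100) ε) (ε / (1008 * Cb)) := ⟨_, rfl⟩
  have hκ : 0 < κ := by rw [hκd]; positivity
  have hκ1 : κ ≤ 1 / 100 := by rw [hκd]; exact (min_le_left _ _).trans (min_le_left _ _)
  have hκ2 : κ ≤ ε := by rw [hκd]; exact (min_le_left _ _).trans (min_le_right _ _)
  have hκ3 : κ ≤ ε / (1008 * Cb) := by rw [hκd]; exact min_le_right _ _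
  obtain ⟨c0, hc0, hlow2⟩ := hlow κ hκ
  refine ⟨κ, hκ, hκ1, hκ2, ?_⟩
  intro c1 hc1
  obtain ⟨c, hcd⟩ : ∃ c : ℝ, c = min (min c0 c1) κ := ⟨_, rfl⟩
  have hc : 0 < c := by rw [hcd]; positivity
  have hcc0 : c ≤ c0 := by rw [hcd]; exact (min_le_left _ _).trans (min_le_left _ _)
  have hcc1 : c ≤ c1 := by rw [hcd]; exact (min_le_left _ _).trans (min_le_right _ _)
  have hcκ : c ≤ κ := by rw [hcd]; exact min_le_right _ _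
  refine ⟨c, hc, hcc1, hcκ, ?_⟩
  obtain ⟨R, hR1, N2, hRd⟩ := rough_div c hc
  obtain ⟨δ, hδd⟩ : ∃ δ : ℝ, δ = min 1 (ε / (16 * Cu)) := ⟨_, rfl⟩
  have hδ : 0 < δ := by rw [hδd]; positivity
  have hδ1 : δ ≤ 1 := by rw [hδd]; exact min_le_left _ _
  have hδ2 : δ ≤ ε / (16 * Cu) := by rw [hδd]; exact min_le_right _ _
  obtain ⟨D, hD⟩ := pow_unbounded_of_one_lt (4 / δ) (by norm_num : (1 : ℝ) < 2)
  obtain ⟨Ct, hCt⟩ : ∃ Ct : ℝ, Ct = 3 * (4 * Cu + 4 * (2 * Cu ^ 2 / (cW / 2) ^ 2 * (c * (D + R) / κ)) +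
        4 * (Cu * (Cs * (1 + 1 / c)) * (2 * (2 / cW * (c * (D + R) / κ)))) +
        8 / δ * (4 * Cu * R / (cW / 2) * (c * (D + R) / κ)) +
        8 / δ * (Cu * (Cs * (1 + 1 / c)) * (2 / cW * (c * (D + R) / κ)))) := ⟨_, rfl⟩
  have hCt0 : 0 < Ct := by rw [hCt]; positivity
  obtain ⟨N1, hN1⟩ := hlow2 c hc hcc0
  obtain ⟨N3, hN3⟩ := nm_exists κ hκ hκ1 c hc (2 / δ)
  refine ⟨ε / (2 * Ct), by positivity, max N1 (max N2 N3), ?_⟩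
  intro N q hN hq ι X w g e hF hT
  have a1 : N1 ≤ N := (le_max_left _ _).trans hN
  have a2 : N2 ≤ N := (le_max_left _ _).trans ((le_max_right _ _).trans hN)
  have a3 : N3 ≤ N := (le_max_right _ _).trans ((le_max_right _ _).trans hN)
  obtain ⟨hδN, J, hNm⟩ := hN3 N a3
  obtain ⟨z, hz⟩ : ∃ z : ℕ, z = ⌊(N : ℝ) ^ c⌋₊ := ⟨_, rfl⟩
  obtain ⟨y, hy⟩ : ∃ y : ℕ, y = ⌊(N : ℝ) ^ (1 / 2 + κ)⌋₊ := ⟨_, rfl⟩
  obtain ⟨B, hB⟩ : ∃ B : ℕ, B = ⌊(N : ℝ) ^ (1 / 2 - κ)⌋₊ := ⟨_, rfl⟩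
  rw [← hz, ← hy, ← hB] at hNm
  rw [← hz, ← hB] at hT
  rw [← hz, ← hy]
  obtain ⟨f1, f2, f3, f4, f5, f6, f7, f8, f9⟩ := nm_facts hNm hκ hκ1 hcκ
  have hz3 := hNm.z3
  have hL : 0 < Real.log z := Real.log_pos (by exact_mod_cast (by omega : 1 < z))
  have hU : ∀ Y : ℕ, z ≤ Y → ((RN q z Y).card : ℝ) ≤ Cu * (Y / Real.log z) := hup q z (by omega)
  have hB1 : 1 ≤ B := by
    have hN0 : (0 : ℝ) < N := by linarith
    have h1 : (0 : ℝ) < B := lt_of_lt_of_le (by positivity) hNm.B2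
    exact_mod_cast h1
  have hsr' : ∑ m ∈ RN q z B, 1 / (m : ℝ) ≤ Cs * (1 + Real.log B / Real.log z) := by
    refine le_trans ?_ (hsr z B (by omega) hB1)
    have hsub : RN q z B ⊆ (Finset.Icc 1 B).filter (Rough z) := by
      intro m hm
      rw [mem_RN'] at hm
      rw [mem_filter, mem_Icc]
      exact ⟨hm.1, hm.2.1⟩
    exact sum_le_sum_of_subset_of_nonneg hsub fun n _ _ => by positivity
  obtain ⟨nst, hn1, hn2⟩ := typ_sum hNm hq hκ hκ1 hcκ hc hδ hδ1 hCu hcW hCs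
    (by positivity : 0 ≤ ε / (2 * Ct)) hδN hD.le hU (hN1 N q a1 hq z hz) hsr'
    (fun n hn => by
      have h1 := mem_RN'.mp hn
      exact_mod_cast hRd N a2 z hz n h1.1.1 (h1.1.2.trans f4)) hF hT
  refine ⟨nst, hn1, ?_⟩
  rw [← hCt] at hn2
  have hat := atyp_card hNm (q := q) hκ hκ1 hcκ hc hδ hCb hCu hδN hU (fun W' h1 h2 => hbw z y W' (by omega) h1 h2)
  have hsplit : ∑ n ∈ RN q z y, Dst X w g n (nst (n % W)) =
      ∑ n ∈ RN q z y \ Ty q z y δ ((N : ℝ) ^ (1 / 2 - 8 * κ)), Dst X w g n (nst (n % W)) +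
      ∑ n ∈ Ty q z y δ ((N : ℝ) ^ (1 / 2 - 8 * κ)), Dst X w g n (nst (n % W)) := by
    rw [sum_sdiff]
    unfold Ty
    exact filter_subset _ _
  rw [hsplit]
  have hyL : 0 ≤ (y : ℝ) / Real.log z := by positivity
  have p1 : ∑ n ∈ RN q z y \ Ty q z y δ ((N : ℝ) ^ (1 / 2 - 8 * κ)), Dst X w g n (nst (n % W)) ≤
      ε / 2 * (y / Real.log z) := by
    calc ∑ n ∈ RN q z y \ Ty q z y δ ((N : ℝ) ^ (1 / 2 - 8 * κ)), Dst X w g n (nst (n % W)) ≤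
          ∑ _n ∈ RN q z y \ Ty q z y δ ((N : ℝ) ^ (1 / 2 - 8 * κ)), (4 : ℝ) := by
          refine sum_le_sum fun n hn => ?_
          rw [mem_sdiff] at hn
          have h1 := mem_RN'.mp hn.1
          exact Dst_le_four hF h1.1.1 (hn1 _).1 h1.2.2 (hn1 _).2
      _ = ((RN q z y \ Ty q z y δ ((N : ℝ) ^ (1 / 2 - 8 * κ))).card : ℝ) * 4 := by
          rw [sum_const, nsmul_eq_mul]
      _ ≤ ((y / Real.log z) * (Cu * δ + Cb * (3 * c + 60 * κ))) * 4 :=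
          mul_le_mul_of_nonneg_right hat (by norm_num)
      _ ≤ ((y / Real.log z) * (ε / 16 + ε / 16)) * 4 := by
          refine mul_le_mul_of_nonneg_right (mul_le_mul_of_nonneg_left ?_ hyL) (by norm_num)
          have h1 : Cu * δ ≤ ε / 16 := by
            calc Cu * δ ≤ Cu * (ε / (16 * Cu)) := mul_le_mul_of_nonneg_left hδ2 hCu.le
              _ = ε / 16 := by field_simp
          have h2 : Cb * (3 * c + 60 * κ) ≤ ε / 16 := by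
            have h3 : 3 * c + 60 * κ ≤ 63 * κ := by linarith
            calc Cb * (3 * c + 60 * κ) ≤ Cb * (63 * (ε / (1008 * Cb))) :=
                  mul_le_mul_of_nonneg_left (h3.trans (mul_le_mul_of_nonneg_left hκ3 (by norm_num))) hCb.le
              _ = ε / 16 := by field_simp; norm_num
          linarith
      _ = ε / 2 * (y / Real.log z) := by ring
  have p2 : Ct * (ε / (2 * Ct)) * (y / Real.log z) = ε / 2 * (y / Real.log z) := by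
    field_simp
  rw [p2] at hn2
  linarith

end Pool.Agent.Lib.OWS
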