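import Pool.Agent.Lib.MP_7b7e48_nt.OW.SPIa
import Pool.Agent.Lib.MP_7b7e48_nt.OW.SPIc
import Pool.Agent.Lib.MP_7b7e48_nt.OW.GL
import Pool.Agent.Lib.MP_7b7e48_nt.OW.NumW

/-!
# Module SPI: the two spectral theorems in the form used in FIN

`sp` (in `SPIa.lean`): THEOREM SP with `θ = ± 1`, `P0` = the primes `l = 1 (mod W)` in `(K^C1/2, K^C1]`.
`sp2` (in `SPIc.lean`): THEOREM SP2 for `f = lam`; the conclusion is the structure `HV`.
-/
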