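import Mathlib
import Pool.Agent.Lib.MP_7b7e48_nt.OW.SPAH
import Pool.Agent.Lib.MP_7b7e48_nt.OW.SPR1

/-!
# Part SP2: the relations between the scales
-/

set_option autoImplicit false

open Finset
open Pool.Agent.Lib.RG (Rough RN bch PB)

namespace Pool.Agent.Lib.OWS

open Classical in
/-- the pairs of scales for which the relations fail -/
noncomputable def FB (W q z B : ℕ) (g : ℕ → ℂ) (e : ℕ → ℝ) (K T : ℕ) : Finset (ℕ × ℕ) :=
  (range (T + 1) ×ˢ range (T + 1)).filter fun p => (K ≤ p.1 ∧ K ≤ p.2 ∧ p.1 + p.2 ≤ T) ∧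
    ¬ ((∀ r s : (ZMod W)ˣ, gam W q z B g e (r : ZMod W) p.1 * gam W q z B g e (s : ZMod W) p.2 =
      gam W q z B g e ((r * s : (ZMod W)ˣ) : ZMod W) (p.1 + p.2)) ∧
      gam W q z B g e 1 (p.1 + p.2) = gam W q z B g e 1 (p.1 + p.2 + 1))

open Classical in
/-- the part `[4^i, 2 4^i)` of a cell -/
noncomputable def lo (W q z B : ℕ) (u : ZMod W) (i : ℕ) : Finset ℕ :=
  (RN q z B).filter fun n => (n : ZMod W) = u ∧ 4 ^ i ≤ n ∧ n < 2 * 4 ^ i

open Classical in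
/-- the part `[2 4^i, 4^(i+1))` of a cell -/
noncomputable def hi (W q z B : ℕ) (u : ZMod W) (i : ℕ) : Finset ℕ :=
  (RN q z B).filter fun n => (n : ZMod W) = u ∧ 2 * 4 ^ i ≤ n ∧ n < 4 * 4 ^ i

section
variable {W q z B : ℕ} {E w0 : ℝ} {ψ : ZMod W → ℂ} {g : ℕ → ℂ} {e : ℕ → ℝ}

theorem log4 {n i : ℕ} (h1 : 4 ^ i ≤ n) (h2 : n < 4 * 4 ^ i) : Nat.log 4 n = i := by
  have h0 : 1 ≤ 4 ^ i := Nat.one_le_pow _ _ (by norm_num)
  refine Nat.log_eq_of_pow_le_of_lt_pow h1 ?_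
  rw [pow_succ]
  omega

/-- a number which is not exceptional -/
theorem not_BD {n : ℕ} (h : n ∈ RN q z B) (h2 : n ∉ BD W q z B g e) {u : ZMod W} {i : ℕ} (hu : (n : ZMod W) = u)
    (hi : Nat.log 4 n = i) : g n = gam W q z B g e u i := by
  classical
  unfold BD at h2
  rw [mem_filter] at h2
  push Not at h2
  have := h2 h
  rw [hu, hi] at this
  exact this

theorem prod_mem {l m : ℕ} {i j T : ℕ} (hl : l ∈ RN q z B) (hm : m ∈ RN q z B) (h1 : l < 4 * 4 ^ i)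
    (h2 : m < 4 * 4 ^ j) (hT : i + j ≤ T) (hB : 4 ^ (T + 2) ≤ B) : l * m ∈ RN q z B := by
  rw [mem_RN'] at hl hm ⊢
  refine ⟨⟨Nat.mul_pos hl.1.1 hm.1.1, ?_⟩, Rough_mul hl.2.1 hm.2.1, Nat.Coprime.mul_left hl.2.2 hm.2.2⟩
  calc l * m ≤ (4 * 4 ^ i) * (4 * 4 ^ j) := Nat.mul_le_mul h1.le h2.le
    _ = 4 ^ (i + j + 2) := by rw [pow_add, pow_add]; ring
    _ ≤ 4 ^ (T + 2) := Nat.pow_le_pow_right (by norm_num) (by omega)
    _ ≤ B := hB

open Classical in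
/-- bad cells for a pair of scales -/
theorem FB_sets (h : SD W q z B E w0 ψ g e) {K T : ℕ} (hB : 4 ^ (T + 2) ≤ B) {v : ℝ}
    (hlow : ∀ i, K ≤ i → i ≤ T → ∀ u : (ZMod W)ˣ, v * 4 ^ i ≤ (lo W q z B (u : ZMod W) i).card ∧
      v * 4 ^ i ≤ (hi W q z B (u : ZMod W) i).card) {p : ℕ × ℕ} (hp : p ∈ FB W q z B g e K T) :
    ∃ S1 S2 : Finset ℕ, v * 4 ^ p.1 ≤ S1.card ∧ v * 4 ^ p.2 ≤ S2.card ∧
      (∀ n ∈ S1, n ∈ RN q z B ∧ Nat.log 4 n = p.1) ∧ (∀ n ∈ S2, n ∈ RN q z B ∧ Nat.log 4 n = p.2) ∧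
      ∀ l ∈ S1, ∀ m ∈ S2, (l, m) ∈ BP W q z B g e := by
  obtain ⟨i, j⟩ := p
  unfold FB at hp
  rw [mem_filter, mem_product, mem_range, mem_range] at hp
  simp only at hp ⊢
  obtain ⟨-, ⟨hKi, hKj, hij⟩, hf⟩ := hp
  have hp4 : ∀ k : ℕ, 1 ≤ 4 ^ k := fun k => Nat.one_le_pow _ _ (by norm_num)
  have h4i := hp4 i
  have h4j := hp4 j
  by_cases hc : ∀ r s : (ZMod W)ˣ, gam W q z B g e (r : ZMod W) i * gam W q z B g e (s : ZMod W) j =
      gam W q z B g e ((r * s : (ZMod W)ˣ) : ZMod W) (i + j)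
  · refine ⟨hi W q z B ((1 : (ZMod W)ˣ) : ZMod W) i, hi W q z B ((1 : (ZMod W)ˣ) : ZMod W) j,
      (hlow i hKi (by omega) 1).2, (hlow j hKj (by omega) 1).2, ?_, ?_, ?_⟩
    · intro n hn
      unfold hi at hn
      rw [mem_filter] at hn
      exact ⟨hn.1, log4 (by omega) hn.2.2.2⟩
    · intro n hn
      unfold hi at hn
      rw [mem_filter] at hn
      exact ⟨hn.1, log4 (by omega) hn.2.2.2⟩
    · intro l hl m hm
      unfold hi at hl hm
      rw [mem_filter] at hl hm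
      obtain ⟨l1, l2, l3, l4⟩ := hl
      obtain ⟨m1, m2, m3, m4⟩ := hm
      have hlm := prod_mem l1 m1 l4 m4 hij hB
      unfold BP
      rw [mem_filter, mem_product]
      refine ⟨⟨l1, m1⟩, ?_⟩
      by_contra hcon
      push Not at hcon
      obtain ⟨n1, n2, n3⟩ := hcon
      have e1 := not_BD l1 n1 l2 (log4 (by omega) l4)
      have e2 := not_BD m1 n2 m2 (log4 (by omega) m4)
      have e3 : Nat.log 4 (l * m) = i + j + 1 := by
        refine log4 ?_ ?_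
        · calc 4 ^ (i + j + 1) = (2 * 4 ^ i) * (2 * 4 ^ j) := by rw [pow_add, pow_add]; ring
            _ ≤ l * m := Nat.mul_le_mul l3 m3
        · calc l * m < (4 * 4 ^ i) * (4 * 4 ^ j) := Nat.mul_lt_mul'' l4 m4
            _ = 4 * 4 ^ (i + j + 1) := by rw [pow_add, pow_add]; ring
      have e4 : ((l * m : ℕ) : ZMod W) = 1 := by
        rw [Nat.cast_mul, l2, m2]
        simp
      have e5 := not_BD hlm n3 e4 e3
      have l0 := (mem_RN'.mp l1).1.1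
      have m0 := (mem_RN'.mp m1).1.1
      rw [h.mul l m l0 m0, e1, e2, hc 1 1] at e5
      rw [mul_one, Units.val_one] at e5
      exact hf ⟨hc, e5⟩
  · push Not at hc
    obtain ⟨r, s, hrs⟩ := hc
    refine ⟨lo W q z B (r : ZMod W) i, lo W q z B (s : ZMod W) j,
      (hlow i hKi (by omega) r).1, (hlow j hKj (by omega) s).1, ?_, ?_, ?_⟩
    · intro n hn
      unfold lo at hn
      rw [mem_filter] at hn
      exact ⟨hn.1, log4 hn.2.2.1 (by omega)⟩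
    · intro n hn
      unfold lo at hn
      rw [mem_filter] at hn
      exact ⟨hn.1, log4 hn.2.2.1 (by omega)⟩
    · intro l hl m hm
      unfold lo at hl hm
      rw [mem_filter] at hl hm
      obtain ⟨l1, l2, l3, l4⟩ := hl
      obtain ⟨m1, m2, m3, m4⟩ := hm
      have hlm := prod_mem l1 m1 (by omega : l < 4 * 4 ^ i) (by omega : m < 4 * 4 ^ j) hij hB
      unfold BP
      rw [mem_filter, mem_product]
      refine ⟨⟨l1, m1⟩, ?_⟩
      by_contra hcon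
      push Not at hcon
      obtain ⟨n1, n2, n3⟩ := hcon
      have e1 := not_BD l1 n1 l2 (log4 l3 (by omega))
      have e2 := not_BD m1 n2 m2 (log4 m3 (by omega))
      have e3 : Nat.log 4 (l * m) = i + j := by
        refine log4 ?_ ?_
        · calc 4 ^ (i + j) = 4 ^ i * 4 ^ j := by rw [pow_add]
            _ ≤ l * m := Nat.mul_le_mul l3 m3
        · calc l * m < (2 * 4 ^ i) * (2 * 4 ^ j) := Nat.mul_lt_mul'' l4 m4
            _ = 4 * 4 ^ (i + j) := by rw [pow_add]; ring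
      have e4 : ((l * m : ℕ) : ZMod W) = ((r * s : (ZMod W)ˣ) : ZMod W) := by
        rw [Nat.cast_mul, l2, m2, Units.val_mul]
      have e5 := not_BD hlm n3 e4 e3
      have l0 := (mem_RN'.mp l1).1.1
      have m0 := (mem_RN'.mp m1).1.1
      rw [h.mul l m l0 m0, e1, e2] at e5
      exact hrs e5

theorem FB_card (h : SD W q z B E w0 ψ g e) {K T : ℕ} (hB : 4 ^ (T + 2) ≤ B) {v : ℝ} (hv : 0 < v)
    (hlow : ∀ i, K ≤ i → i ≤ T → ∀ u : (ZMod W)ˣ, v * 4 ^ i ≤ (lo W q z B (u : ZMod W) i).card ∧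
      v * 4 ^ i ≤ (hi W q z B (u : ZMod W) i).card) {H R : ℝ} (hH : ∑ n ∈ RN q z B, 1 / (n : ℝ) ≤ H)
    (hR0 : 0 ≤ R) (hR : ∀ n ∈ RN q z B, (rdv z n : ℝ) ≤ R) :
    (FB W q z B g e K T).card * (v ^ 2 / 16) ≤ (2 * H + R) * (4 / w0 * E) := by
  classical
  refine le_trans ?_ (BP_mass h hH hR0 hR)
  obtain ⟨X, hX⟩ : ∃ X : Finset (ℕ × ℕ), X = (BP W q z B g e).filter fun x =>
      (Nat.log 4 x.1, Nat.log 4 x.2) ∈ FB W q z B g e K T := ⟨_, rfl⟩
  have h1 : ∑ x ∈ X, 1 / ((x.1 : ℝ) * x.2) ≤ ∑ x ∈ BP W q z B g e, 1 / ((x.1 : ℝ) * x.2) := by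
    rw [hX]
    exact sum_le_sum_of_subset_of_nonneg (filter_subset _ _) fun _ _ _ => by positivity
  refine le_trans ?_ h1
  have hmaps : ∀ x ∈ X, (Nat.log 4 x.1, Nat.log 4 x.2) ∈ FB W q z B g e K T := by
    intro x hx
    rw [hX, mem_filter] at hx
    exact hx.2
  rw [← sum_fiberwise_of_maps_to hmaps]
  rw [← nsmul_eq_mul, ← sum_const]
  refine sum_le_sum fun p hp => ?_
  obtain ⟨S1, S2, s1, s2, t1, t2, hbp⟩ := FB_sets h hB hlow hp
  have hsub : S1 ×ˢ S2 ⊆ X.filter fun x => (Nat.log 4 x.1, Nat.log 4 x.2) = p := by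
    intro x hx
    rw [mem_product] at hx
    have e1 : (Nat.log 4 x.1, Nat.log 4 x.2) = p := by
      rw [(t1 _ hx.1).2, (t2 _ hx.2).2]
    rw [mem_filter, hX, mem_filter]
    exact ⟨⟨hbp _ hx.1 _ hx.2, by rw [e1]; exact hp⟩, e1⟩
  refine le_trans ?_ (sum_le_sum_of_subset_of_nonneg hsub fun _ _ _ => by positivity)
  have h2 : ∀ x ∈ S1 ×ˢ S2, 1 / ((4 : ℝ) ^ (p.1 + 1) * 4 ^ (p.2 + 1)) ≤ 1 / ((x.1 : ℝ) * x.2) := by
    intro x hx
    rw [mem_product] at hx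
    obtain ⟨a1, a2⟩ := t1 _ hx.1
    obtain ⟨b1, b2⟩ := t2 _ hx.2
    have a3 := (mem_RN'.mp a1).1.1
    have b3 := (mem_RN'.mp b1).1.1
    have a4 : x.1 < 4 ^ (p.1 + 1) := by rw [← a2]; exact Nat.lt_pow_succ_log_self (by norm_num) _
    have b4 : x.2 < 4 ^ (p.2 + 1) := by rw [← b2]; exact Nat.lt_pow_succ_log_self (by norm_num) _
    have a5 : (x.1 : ℝ) ≤ 4 ^ (p.1 + 1) := by exact_mod_cast a4.le
    have b5 : (x.2 : ℝ) ≤ 4 ^ (p.2 + 1) := by exact_mod_cast b4.le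
    have a6 : (0 : ℝ) < x.1 := by exact_mod_cast a3
    have b6 : (0 : ℝ) < x.2 := by exact_mod_cast b3
    refine one_div_le_one_div_of_le (by positivity) ?_
    exact mul_le_mul a5 b5 b6.le (by positivity)
  refine le_trans ?_ (sum_le_sum h2)
  rw [sum_const, card_product, nsmul_eq_mul, Nat.cast_mul]
  have h3 : v * 4 ^ p.1 * (v * 4 ^ p.2) ≤ (S1.card : ℝ) * S2.card :=
    mul_le_mul s1 s2 (by positivity) (Nat.cast_nonneg _)
  calc v ^ 2 / 16 = (v * 4 ^ p.1 * (v * 4 ^ p.2)) * (1 / ((4 : ℝ) ^ (p.1 + 1) * 4 ^ (p.2 + 1))) := by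
        rw [pow_succ, pow_succ]
        field_simp
        ring
    _ ≤ _ := mul_le_mul_of_nonneg_right h3 (by positivity)

/-- the approximate homomorphism -/
theorem AH_of (h : SD W q z B E w0 ψ g e) {K T : ℕ} (hK : 1000 ≤ K) (hKT : 16 * K ≤ T)
    (hc : 1000 * (FB W q z B g e K T).card ≤ K * K) :
    AH (fun (u : (ZMod W)ˣ) i => gam W q z B g e (u : ZMod W) i) K T (FB W q z B g e K T) := by
  classical
  refine ⟨hK, hKT, fun u i => gam_ne h _ i, fun i => ?_, ?_, hc⟩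
  · simp only [Units.val_one]
    exact gam_one h i
  · intro i j hi hj hij hn
    unfold FB at hn
    rw [mem_filter, mem_product, mem_range, mem_range] at hn
    push Not at hn
    simp only at hn
    have h1 := hn ⟨by omega, by omega⟩ ⟨hi, hj, hij⟩
    simp only [Units.val_one]
    exact h1

end

end Pool.Agent.Lib.OWS
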