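import Mathlib
import Pool.Agent.Lib.MP_7b7e48_nt.RG.CHA
import Pool.Agent.Lib.MP_7b7e48_nt.RG.Defs

/-!
# Part SP: sums over the moves to the hub
-/

open Finset
open Pool.Agent.Lib.RG (Rough RN bch PB)

namespace Pool.Agent.Lib.OWS

open Classical in
/-- hub factors: rough `b ≡ 1` in `(2^j, 2^(j+1)]` -/
noncomputable def BB (W q z j : ℕ) : Finset ℕ :=
  (RN q z (2 ^ (j + 1))).filter fun b => 2 ^ j < b ∧ b % W = 1 % W

open Classical in
/-- rough `k ≡ m` with `m / 2 < b k ≤ m` -/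
noncomputable def MM (W q z m b : ℕ) : Finset ℕ :=
  (RN q z (m / b)).filter fun k => m < 2 * (b * k) ∧ k % W = m % W

open Classical in
noncomputable def Ms (q z B : ℕ) (lo : ℝ) : Finset ℕ := (RN q z B).filter fun m => lo < m

open Classical in
noncomputable def As (q z y : ℕ) (δ : ℝ) (m : ℕ) : Finset ℕ :=
  (RN q z (y / m)).filter fun A => δ * y < A * m

open Classical in
/-- number of the rough divisors of `k` in `(2^j, 2^(j+1)]` -/
noncomputable def dj (z j k : ℕ) : ℕ :=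
  (k.divisors.filter fun b => Rough z b ∧ 2 ^ j < b ∧ b ≤ 2 ^ (j + 1)).card

theorem mem_RN' {q z y n : ℕ} : n ∈ RN q z y ↔ (1 ≤ n ∧ n ≤ y) ∧ Rough z n ∧ n.Coprime q := by
  classical
  simp only [RG.RN, mem_filter, mem_Icc]

theorem Rough_mul {z a b : ℕ} (ha : Rough z a) (hb : Rough z b) : Rough z (a * b) := by
  intro p hp hpd
  rcases (hp.dvd_mul).mp hpd with h | h
  · exact ha p hp h
  · exact hb p hp h

theorem Rough_dvd {z a b : ℕ} (hb : Rough z b) (h : a ∣ b) : Rough z a :=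
  fun p hp hpa => hb p hp (hpa.trans h)

theorem P1 (q z B y : ℕ) (e : ℕ → ℝ) (C δ lo L : ℝ) (_hL : 0 < L)
    (hU : ∀ Y : ℕ, z ≤ Y → ((RN q z Y).card : ℝ) ≤ C * (Y / L)) (e0 : ∀ n, 0 ≤ e n) (hC : 0 ≤ C)
    (hzy : ∀ m ∈ RN q z B, z ≤ y / m) :
    ∑ m ∈ Ms q z B lo, ∑ _A ∈ As q z y δ m, e m ≤ C * (y / L) * ∑ m ∈ RN q z B, e m / m := by
  have h1 : ∀ m ∈ Ms q z B lo, ∑ _A ∈ As q z y δ m, e m ≤ C * (y / L) * (e m / m) := by
    intro m hm
    unfold Ms at hm
    rw [mem_filter] at hm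
    have hm1 : 1 ≤ m := (mem_RN'.mp hm.1).1.1
    have hmR : (0 : ℝ) < m := by exact_mod_cast hm1
    rw [sum_const, nsmul_eq_mul]
    have h2 : ((As q z y δ m).card : ℝ) ≤ C * ((y / m : ℕ) / L) := by
      refine le_trans ?_ (hU (y / m) (hzy m hm.1))
      exact_mod_cast card_filter_le _ _
    have h3 : ((y / m : ℕ) : ℝ) ≤ y / m := Nat.cast_div_le
    calc ((As q z y δ m).card : ℝ) * e m ≤ (C * ((y / m : ℕ) / L)) * e m :=
          mul_le_mul_of_nonneg_right h2 (e0 m)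
      _ ≤ (C * ((y / m) / L)) * e m := by
          refine mul_le_mul_of_nonneg_right ?_ (e0 m)
          exact mul_le_mul_of_nonneg_left (div_le_div_of_nonneg_right h3 _hL.le) hC
      _ = C * (y / L) * (e m / m) := by
          field_simp
  refine (sum_le_sum h1).trans ?_
  rw [← mul_sum]
  refine mul_le_mul_of_nonneg_left ?_ (by positivity)
  refine sum_le_sum_of_subset_of_nonneg (filter_subset _ _) fun m _ _ => ?_
  exact div_nonneg (e0 m) (Nat.cast_nonneg _)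

/-- products `b k` with `b` in the hub range, counted by `dj` -/
theorem S3_le (W q z B j : ℕ) (f : ℕ → ℝ) (f0 : ∀ n, 0 ≤ f n) (K : ℕ → Finset ℕ)
    (hK : ∀ b ∈ BB W q z j, ∀ k ∈ K b, 1 ≤ k ∧ Rough z k ∧ k.Coprime q ∧ b * k ≤ B) :
    ∑ b ∈ BB W q z j, ∑ k ∈ K b, f (b * k) ≤ ∑ n ∈ RN q z B, (dj z j n : ℝ) * f n := by
  classical
  rw [sum_sigma' (BB W q z j) K fun b k => f (b * k)]
  have hmaps : ∀ x ∈ (BB W q z j).sigma K, x.1 * x.2 ∈ RN q z B := by
    intro x hx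
    rw [mem_sigma] at hx
    have hb := hx.1
    unfold BB at hb
    rw [mem_filter, mem_RN'] at hb
    obtain ⟨h1, h2, h3, h4⟩ := hK x.1 hx.1 x.2 hx.2
    rw [mem_RN']
    refine ⟨⟨Nat.mul_pos hb.1.1.1 h1, h4⟩, Rough_mul hb.1.2.1 h2, Nat.Coprime.mul_left hb.1.2.2 h3⟩
  rw [← sum_fiberwise_of_maps_to hmaps]
  refine sum_le_sum fun n hn => ?_
  have h1 : ∀ x ∈ ((BB W q z j).sigma K).filter (fun x => x.1 * x.2 = n), f (x.1 * x.2) = f n := by
    intro x hx
    rw [mem_filter] at hx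
    rw [hx.2]
  rw [sum_congr rfl h1, sum_const, nsmul_eq_mul]
  refine mul_le_mul_of_nonneg_right ?_ (f0 n)
  have hn1 : 1 ≤ n := (mem_RN'.mp hn).1.1
  unfold dj
  have : (((BB W q z j).sigma K).filter (fun x => x.1 * x.2 = n)).card ≤
      (n.divisors.filter fun b => Rough z b ∧ 2 ^ j < b ∧ b ≤ 2 ^ (j + 1)).card := by
    refine card_le_card_of_injOn (fun x => x.1) ?_ ?_
    · intro x hx
      rw [mem_coe, mem_filter, mem_sigma] at hx
      have hb := hx.1.1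
      unfold BB at hb
      rw [mem_filter, mem_RN'] at hb
      rw [mem_coe, mem_filter, Nat.mem_divisors]
      exact ⟨⟨⟨x.2, hx.2.symm⟩, by omega⟩, hb.1.2.1, hb.2.1, hb.1.1.2⟩
    · intro x hx x' hx' h
      rw [mem_coe, mem_filter, mem_sigma] at hx hx'
      obtain ⟨b, k⟩ := x
      obtain ⟨b', k'⟩ := x'
      simp only at h hx hx'
      subst h
      have hb := hx.1.1
      unfold BB at hb
      rw [mem_filter, mem_RN'] at hb
      have : b * k = b * k' := hx.2.trans hx'.2.symm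
      have := Nat.eq_of_mul_eq_mul_left hb.1.1.1 this
      subst this
      rfl
  exact_mod_cast this

theorem Tcard (q z B y : ℕ) (C δ lo L : ℝ) (_hL : 0 < L)
    (hU : ∀ Y : ℕ, z ≤ Y → ((RN q z Y).card : ℝ) ≤ C * (Y / L)) (hC : 0 ≤ C)
    (hzy : ∀ m ∈ RN q z B, z ≤ y / m) (H : ℝ) (hH : ∑ m ∈ RN q z B, 1 / (m : ℝ) ≤ H) :
    ∑ m ∈ Ms q z B lo, ((As q z y δ m).card : ℝ) ≤ C * (y / L) * H := by
  have h := P1 q z B y (fun _ => 1) C δ lo L _hL hU (fun _ => zero_le_one) hC hzy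
  simp only [sum_const, nsmul_eq_mul, mul_one] at h
  exact h.trans (mul_le_mul_of_nonneg_left hH (by positivity))

theorem P2 (W q z B y j : ℕ) (e : ℕ → ℝ) (C cW δ lo L : ℝ) (hL : 0 < L)
    (hU : ∀ Y : ℕ, z ≤ Y → ((RN q z Y).card : ℝ) ≤ C * (Y / L)) (e0 : ∀ n, 0 ≤ e n) (hC : 0 ≤ C)
    (hcW : 0 < cW) (hzy : ∀ m ∈ RN q z B, z ≤ y / m) (hzj : z ≤ 2 ^ j)
    (hB : cW * ((2 : ℝ) ^ (j + 1) / L) ≤ (BB W q z j).card)
    (hM : ∀ m ∈ Ms q z B lo, ∀ b ∈ BB W q z j, cW * (((m : ℝ) / b) / L) ≤ (MM W q z m b).card) :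
    ∑ m ∈ Ms q z B lo, ∑ _A ∈ As q z y δ m, (1 / ((BB W q z j).card : ℝ)) *
      ∑ b ∈ BB W q z j, (1 / ((MM W q z m b).card : ℝ)) * ∑ k ∈ MM W q z m b, e (b * k) ≤
      2 * C ^ 2 / cW ^ 2 * y * ∑ n ∈ RN q z B, (dj z j n : ℝ) * (e n / n) := by
  classical
  have hy0 : (0 : ℝ) ≤ y := Nat.cast_nonneg _
  have hBpos : 0 < ((BB W q z j).card : ℝ) := lt_of_lt_of_le (by positivity) hB
  have bmem : ∀ b ∈ BB W q z j, 1 ≤ b ∧ b ≤ 2 ^ (j + 1) ∧ 2 ^ j < b := by
    intro b hb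
    unfold BB at hb
    rw [mem_filter, mem_RN'] at hb
    exact ⟨hb.1.1.1, hb.1.1.2, hb.2.1⟩
  -- step 1
  have s1 : ∀ m ∈ Ms q z B lo, ∑ _A ∈ As q z y δ m, (1 / ((BB W q z j).card : ℝ)) *
      ∑ b ∈ BB W q z j, (1 / ((MM W q z m b).card : ℝ)) * ∑ k ∈ MM W q z m b, e (b * k) ≤
      (C * y * L / cW ^ 2) * ∑ b ∈ BB W q z j, ∑ k ∈ MM W q z m b, e (b * k) / (m : ℝ) ^ 2 := by
    intro m hm
    have hm' := hm
    unfold Ms at hm'
    rw [mem_filter] at hm'
    have hm1 : 1 ≤ m := (mem_RN'.mp hm'.1).1.1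
    have hmR : (0 : ℝ) < m := by exact_mod_cast hm1
    have h2 : ((As q z y δ m).card : ℝ) ≤ C * ((y / m) / L) := by
      have h3 : ((y / m : ℕ) : ℝ) ≤ y / m := Nat.cast_div_le
      have h4 : ((As q z y δ m).card : ℝ) ≤ C * ((y / m : ℕ) / L) := by
        refine le_trans ?_ (hU (y / m) (hzy m hm'.1))
        exact_mod_cast card_filter_le _ _
      exact h4.trans (mul_le_mul_of_nonneg_left (div_le_div_of_nonneg_right h3 hL.le) hC)
    have h5 : ∀ b ∈ BB W q z j, (1 / ((BB W q z j).card : ℝ)) * (1 / ((MM W q z m b).card : ℝ)) ≤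
        L ^ 2 / (cW ^ 2 * m) := by
      intro b hb
      obtain ⟨hb1, hb2, _⟩ := bmem b hb
      have hbR : (0 : ℝ) < b := by exact_mod_cast hb1
      have hbR2 : (b : ℝ) ≤ (2 : ℝ) ^ (j + 1) := by exact_mod_cast hb2
      have h6 := hM m hm b hb
      have h7 : 0 < cW * (((m : ℝ) / b) / L) := by positivity
      have h8 : cW ^ 2 * m / L ^ 2 ≤ ((BB W q z j).card : ℝ) * ((MM W q z m b).card : ℝ) := by
        calc cW ^ 2 * m / L ^ 2 ≤ (cW * ((2 : ℝ) ^ (j + 1) / L)) * (cW * (((m : ℝ) / b) / L)) := by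
              have : (cW * ((2 : ℝ) ^ (j + 1) / L)) * (cW * (((m : ℝ) / b) / L)) =
                  cW ^ 2 * m / L ^ 2 * ((2 : ℝ) ^ (j + 1) / b) := by
                field_simp
              rw [this]
              have h9 : 1 ≤ (2 : ℝ) ^ (j + 1) / b := by rwa [one_le_div hbR]
              exact le_mul_of_one_le_right (by positivity) h9
          _ ≤ _ := mul_le_mul hB h6 h7.le (Nat.cast_nonneg _)
      rw [one_div_mul_one_div]
      have h10 : 0 < cW ^ 2 * m / L ^ 2 := by positivity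
      calc 1 / (((BB W q z j).card : ℝ) * ((MM W q z m b).card : ℝ)) ≤ 1 / (cW ^ 2 * m / L ^ 2) :=
            one_div_le_one_div_of_le h10 h8
        _ = L ^ 2 / (cW ^ 2 * m) := by
            rw [one_div_div]
    rw [sum_const, nsmul_eq_mul]
    have h11 : 0 ≤ ∑ b ∈ BB W q z j, ∑ k ∈ MM W q z m b, e (b * k) :=
      sum_nonneg fun b _ => sum_nonneg fun k _ => e0 _
    have h12 : (1 / ((BB W q z j).card : ℝ)) *
        ∑ b ∈ BB W q z j, (1 / ((MM W q z m b).card : ℝ)) * ∑ k ∈ MM W q z m b, e (b * k) ≤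
        L ^ 2 / (cW ^ 2 * m) * ∑ b ∈ BB W q z j, ∑ k ∈ MM W q z m b, e (b * k) := by
      rw [mul_sum, mul_sum]
      refine sum_le_sum fun b hb => ?_
      rw [← mul_assoc]
      exact mul_le_mul_of_nonneg_right (h5 b hb) (sum_nonneg fun k _ => e0 _)
    calc ((As q z y δ m).card : ℝ) * _ ≤ (C * ((y / m) / L)) *
          (L ^ 2 / (cW ^ 2 * m) * ∑ b ∈ BB W q z j, ∑ k ∈ MM W q z m b, e (b * k)) := by
          refine mul_le_mul h2 h12 ?_ (by positivity)
          refine mul_nonneg (by positivity) (sum_nonneg fun b _ => mul_nonneg (by positivity) ?_)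
          exact sum_nonneg fun k _ => e0 _
      _ = (C * y * L / cW ^ 2) * ((∑ b ∈ BB W q z j, ∑ k ∈ MM W q z m b, e (b * k)) / (m : ℝ) ^ 2) := by
          field_simp
      _ = _ := by
          rw [sum_div]
          congr 1
          refine sum_congr rfl fun b _ => ?_
          rw [sum_div]
  refine (sum_le_sum s1).trans ?_
  rw [← mul_sum, sum_comm]
  -- step 2
  have s2 : ∀ b ∈ BB W q z j, ∑ m ∈ Ms q z B lo, ∑ k ∈ MM W q z m b, e (b * k) / (m : ℝ) ^ 2 ≤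
      ∑ k ∈ RN q z (B / b), (2 * C / L) * (e (b * k) / ((b * k : ℕ) : ℝ)) := by
    intro b hb
    obtain ⟨hb1, hb2, hb3⟩ := bmem b hb
    have hsw : ∑ m ∈ Ms q z B lo, ∑ k ∈ MM W q z m b, e (b * k) / (m : ℝ) ^ 2 =
        ∑ k ∈ RN q z (B / b), ∑ m ∈ (Ms q z B lo).filter (fun m => k ∈ MM W q z m b),
          e (b * k) / (m : ℝ) ^ 2 := by
      refine sum_comm' ?_
      intro m k
      constructor
      · rintro ⟨h1, h2⟩
        refine ⟨mem_filter.mpr ⟨h1, h2⟩, ?_⟩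
        unfold MM at h2
        unfold Ms at h1
        rw [mem_filter, mem_RN'] at h1 h2
        rw [mem_RN']
        refine ⟨⟨h2.1.1.1, h2.1.1.2.trans (Nat.div_le_div_right h1.1.1.2)⟩, h2.1.2⟩
      · rintro ⟨h1, _⟩
        rw [mem_filter] at h1
        exact h1
    rw [hsw]
    refine sum_le_sum fun k hk => ?_
    rw [mem_RN'] at hk
    have hbk : 1 ≤ b * k := Nat.mul_pos hb1 hk.1.1
    have hbkR : (0 : ℝ) < ((b * k : ℕ) : ℝ) := by exact_mod_cast hbk
    have hz2 : z ≤ 2 * (b * k) := by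
      have : b ≤ b * k := Nat.le_mul_of_pos_right b hk.1.1
      omega
    have hc : (((Ms q z B lo).filter (fun m => k ∈ MM W q z m b)).card : ℝ) ≤
        C * ((2 * (b * k) : ℕ) / L) := by
      refine le_trans ?_ (hU (2 * (b * k)) hz2)
      have : (Ms q z B lo).filter (fun m => k ∈ MM W q z m b) ⊆ RN q z (2 * (b * k)) := by
        intro m hm
        rw [mem_filter] at hm
        obtain ⟨h1, h2⟩ := hm
        unfold MM at h2
        unfold Ms at h1
        rw [mem_filter, mem_RN'] at h1 h2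
        rw [mem_RN']
        exact ⟨⟨h1.1.1.1, h2.2.1.le⟩, h1.1.2⟩
      exact_mod_cast card_le_card this
    have ht : ∀ m ∈ (Ms q z B lo).filter (fun m => k ∈ MM W q z m b),
        e (b * k) / (m : ℝ) ^ 2 ≤ e (b * k) / ((b * k : ℕ) : ℝ) ^ 2 := by
      intro m hm
      rw [mem_filter] at hm
      obtain ⟨h1, h2⟩ := hm
      unfold MM at h2
      rw [mem_filter, mem_RN'] at h2
      have h3 : b * k ≤ m := by
        have h4 := (Nat.le_div_iff_mul_le (by omega)).mp h2.1.1.2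
        rwa [mul_comm] at h4
      have h5 : ((b * k : ℕ) : ℝ) ≤ m := by exact_mod_cast h3
      exact div_le_div_of_nonneg_left (e0 _) (by positivity) (pow_le_pow_left₀ hbkR.le h5 2)
    calc ∑ m ∈ (Ms q z B lo).filter (fun m => k ∈ MM W q z m b), e (b * k) / (m : ℝ) ^ 2 ≤
          ∑ _m ∈ (Ms q z B lo).filter (fun m => k ∈ MM W q z m b), e (b * k) / ((b * k : ℕ) : ℝ) ^ 2 :=
          sum_le_sum ht
      _ = (((Ms q z B lo).filter (fun m => k ∈ MM W q z m b)).card : ℝ) *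
          (e (b * k) / ((b * k : ℕ) : ℝ) ^ 2) := by rw [sum_const, nsmul_eq_mul]
      _ ≤ (C * ((2 * (b * k) : ℕ) / L)) * (e (b * k) / ((b * k : ℕ) : ℝ) ^ 2) :=
          mul_le_mul_of_nonneg_right hc (div_nonneg (e0 _) (by positivity))
      _ = (2 * C / L) * (e (b * k) / ((b * k : ℕ) : ℝ)) := by
          rw [Nat.cast_mul 2]
          push_cast
          field_simp
  have s3 : ∑ b ∈ BB W q z j, ∑ m ∈ Ms q z B lo, ∑ k ∈ MM W q z m b, e (b * k) / (m : ℝ) ^ 2 ≤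
      (2 * C / L) * ∑ n ∈ RN q z B, (dj z j n : ℝ) * (e n / n) := by
    refine (sum_le_sum s2).trans ?_
    have h1 := S3_le W q z B j (fun n => e n / n) (fun n => div_nonneg (e0 n) (Nat.cast_nonneg _))
      (fun b => RN q z (B / b)) (by
        intro b hb k hk
        rw [mem_RN'] at hk
        refine ⟨hk.1.1, hk.2.1, hk.2.2, ?_⟩
        have h4 := (Nat.le_div_iff_mul_le (bmem b hb).1).mp hk.1.2
        rwa [mul_comm] at h4)
    calc ∑ b ∈ BB W q z j, ∑ k ∈ RN q z (B / b), (2 * C / L) * (e (b * k) / ((b * k : ℕ) : ℝ)) =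
          (2 * C / L) * ∑ b ∈ BB W q z j, ∑ k ∈ RN q z (B / b), (e (b * k) / ((b * k : ℕ) : ℝ)) := by
          rw [mul_sum]
          refine sum_congr rfl fun b _ => ?_
          rw [mul_sum]
      _ ≤ _ := mul_le_mul_of_nonneg_left h1 (by positivity)
  calc (C * y * L / cW ^ 2) * ∑ b ∈ BB W q z j, ∑ m ∈ Ms q z B lo, ∑ k ∈ MM W q z m b,
        e (b * k) / (m : ℝ) ^ 2 ≤ (C * y * L / cW ^ 2) *
        ((2 * C / L) * ∑ n ∈ RN q z B, (dj z j n : ℝ) * (e n / n)) :=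
        mul_le_mul_of_nonneg_left s3 (by positivity)
    _ = _ := by
        field_simp

end Pool.Agent.Lib.OWS
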