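import Mathlib
import Pool.Agent.Lib.MP_7b7e48_nt.OW.SPDefs
import Pool.Agent.Lib.MP_7b7e48_nt.OW.SPSum2

/-!
# Part SP: the two point inequality, preparations
-/

open Finset
open Pool.Agent.Lib.RG (Rough RN bch PB BW)

namespace Pool.Agent.Lib.OWS

/-- the part of `F` carried by the characters in `X` -/
noncomputable def FX {q : ℕ} [NeZero q] (F : ZMod q → ℝ) (X : Finset (DirichletCharacter ℂ q))
    (x : ZMod q) : ℂ := ∑ χ ∈ X, bch (fun x => (F x : ℂ)) χ * χ x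

noncomputable def HH {q : ℕ} [NeZero q] (F : ZMod q → ℝ) (X : Finset (DirichletCharacter ℂ q))
    (x : ZMod q) : ℝ := ‖(F x : ℂ) - FX F X x‖ ^ 2

noncomputable def EE {q : ℕ} [NeZero q] (N : ℕ) (F : ZMod q → ℝ) (X : Finset (DirichletCharacter ℂ q))
    (A : ℕ) : ℝ := ∑ n ∈ Icc 1 ((N - 1) / A), HH F X ((A * n : ℕ) : ZMod q)

section
variable {W N q : ℕ} [NeZero q] {a0 z : ℕ} {η M θ : ℝ} {F : ZMod q → ℝ} {G : ℕ → ℝ} {Q P0 : Finset ℕ}

theorem Hyp.F0 (h : Hyp W N q a0 z η M θ F G Q P0) (x : ZMod q) (hx : ¬ IsUnit x) : F x = 0 := by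
  by_contra hc
  exact hx (h.supp x hc).1

theorem Hyp.η0 (h : Hyp W N q a0 z η M θ F G Q P0) : 0 ≤ η :=
  le_trans (sum_nonneg fun _ _ => by positivity) h.Qs

theorem sum_HH (h : Hyp W N q a0 z η M θ F G Q P0) (hc : 0 < P0.card) :
    ∑ x : ZMod q, HH F (XX P0 θ) x ≤ η * ∑ x : ZMod q, F x ^ 2 := by
  classical
  obtain ⟨b, hb⟩ : ∃ b : DirichletCharacter ℂ q → ℂ, b = fun χ => bch (fun x => (F x : ℂ)) χ := ⟨_, rfl⟩
  have h0 : ∀ x : ZMod q, ¬ IsUnit x → ((F x : ℝ) : ℂ) = 0 := fun x hx => by rw [h.F0 x hx]; simp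
  have h1 : ∀ x : ZMod q, HH F (XX P0 θ) x = ‖∑ χ ∈ univ \ XX P0 θ, b χ * χ x‖ ^ 2 := by
    intro x
    unfold HH FX
    have h2 := RG.chInv (fun x => (F x : ℂ)) h0 x
    rw [← sum_sdiff (subset_univ (XX (q := q) P0 θ))] at h2
    rw [h2, add_sub_cancel_right, hb]
  have h2 : ∑ x : ZMod q, HH F (XX P0 θ) x = (q.totient : ℝ) * ∑ χ ∈ univ \ XX P0 θ, ‖b χ‖ ^ 2 := by
    rw [sum_congr rfl fun x _ => h1 x]
    exact RG.chPars _ b
  rw [h2]
  have hcR : (0 : ℝ) < P0.card := by exact_mod_cast hc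
  refine le_of_mul_le_mul_left ?_ hcR
  have h3 : ∀ l ∈ P0, (q.totient : ℝ) * ∑ χ : DirichletCharacter ℂ q, ‖b χ‖ ^ 2 *
      ‖χ (l : ZMod q) - (θ : ℂ)‖ ^ 2 ≤ η * ∑ x : ZMod q, F x ^ 2 := by
    intro l hl
    have h4 := RG.mulSq_real F h.F0 θ (l : ZMod q)
    rw [hb]
    simp only
    rw [h4]
    exact h.inv l hl
  calc (P0.card : ℝ) * ((q.totient : ℝ) * ∑ χ ∈ univ \ XX P0 θ, ‖b χ‖ ^ 2) =
        (q.totient : ℝ) * ∑ χ ∈ univ \ XX P0 θ, ‖b χ‖ ^ 2 * P0.card := by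
        rw [← sum_mul]; ring
    _ ≤ (q.totient : ℝ) * ∑ χ ∈ univ \ XX P0 θ, ‖b χ‖ ^ 2 * ∑ l ∈ P0, ‖χ (l : ZMod q) - (θ : ℂ)‖ ^ 2 := by
        refine mul_le_mul_of_nonneg_left ?_ (Nat.cast_nonneg _)
        refine sum_le_sum fun χ hχ => mul_le_mul_of_nonneg_left ?_ (sq_nonneg _)
        rw [mem_sdiff] at hχ
        unfold XX at hχ
        rw [mem_filter] at hχ
        by_contra hcc
        exact hχ.2 ⟨mem_univ _, not_le.mp hcc⟩
    _ ≤ (q.totient : ℝ) * ∑ χ : DirichletCharacter ℂ q, ‖b χ‖ ^ 2 *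
          ∑ l ∈ P0, ‖χ (l : ZMod q) - (θ : ℂ)‖ ^ 2 := by
        refine mul_le_mul_of_nonneg_left ?_ (Nat.cast_nonneg _)
        refine sum_le_sum_of_subset_of_nonneg (subset_univ _) fun χ _ _ => ?_
        exact mul_nonneg (sq_nonneg _) (sum_nonneg fun _ _ => sq_nonneg _)
    _ = ∑ l ∈ P0, (q.totient : ℝ) * ∑ χ : DirichletCharacter ℂ q, ‖b χ‖ ^ 2 *
          ‖χ (l : ZMod q) - (θ : ℂ)‖ ^ 2 := by
        rw [← mul_sum, sum_comm]
        congr 1
        refine sum_congr rfl fun χ _ => ?_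
        rw [mul_sum]
    _ ≤ ∑ _l ∈ P0, η * ∑ x : ZMod q, F x ^ 2 := sum_le_sum h3
    _ = (P0.card : ℝ) * (η * ∑ x : ZMod q, F x ^ 2) := by rw [sum_const, nsmul_eq_mul]

theorem sum_EE (hq : q = W * N) (hW : 1 ≤ W) (hN : 1 ≤ N) (F : ZMod q → ℝ)
    (X : Finset (DirichletCharacter ℂ q)) (B R : ℕ)
    (hR : ∀ n : ℕ, 1 ≤ n → n ≤ N → rdv z n ≤ R) :
    ∑ A ∈ RN q z B, EE N F X A ≤ R * ∑ x : ZMod q, HH F X x := by
  classical
  have hH0 : ∀ x : ZMod q, 0 ≤ HH F X x := fun x => sq_nonneg _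
  obtain ⟨V, hV⟩ : ∃ V : Finset ℕ, V = Icc 1 (N - 1) := ⟨_, rfl⟩
  have h1 : ∑ A ∈ RN q z B, EE N F X A ≤ ∑ m ∈ V, (rdv z m : ℝ) * HH F X ((m : ℕ) : ZMod q) := by
    unfold EE
    rw [sum_sigma']
    have hmaps : ∀ x ∈ (RN q z B).sigma (fun A => Icc 1 ((N - 1) / A)), x.1 * x.2 ∈ V := by
      intro x hx
      rw [mem_sigma, mem_RN', mem_Icc] at hx
      rw [hV, mem_Icc]
      refine ⟨Nat.mul_pos hx.1.1.1 hx.2.1, ?_⟩
      have h4 := (Nat.le_div_iff_mul_le hx.1.1.1).mp hx.2.2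
      rwa [mul_comm] at h4
    rw [← sum_fiberwise_of_maps_to hmaps]
    refine sum_le_sum fun m hm => ?_
    have h2 : ∀ x ∈ ((RN q z B).sigma (fun A => Icc 1 ((N - 1) / A))).filter (fun x => x.1 * x.2 = m),
        HH F X ((x.1 * x.2 : ℕ) : ZMod q) = HH F X ((m : ℕ) : ZMod q) := by
      intro x hx
      rw [mem_filter] at hx
      rw [hx.2]
    rw [sum_congr rfl h2, sum_const, nsmul_eq_mul]
    refine mul_le_mul_of_nonneg_right ?_ (hH0 _)
    rw [hV, mem_Icc] at hm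
    have : (((RN q z B).sigma (fun A => Icc 1 ((N - 1) / A))).filter (fun x => x.1 * x.2 = m)).card ≤
        rdv z m := by
      unfold rdv
      refine card_le_card_of_injOn (fun x => x.1) ?_ ?_
      · intro x hx
        rw [mem_coe, mem_filter, mem_sigma, mem_RN'] at hx
        rw [mem_coe, mem_filter, Nat.mem_divisors]
        exact ⟨⟨⟨x.2, hx.2.symm⟩, by omega⟩, hx.1.1.2.1⟩
      · intro x hx x' hx' h
        rw [mem_coe, mem_filter, mem_sigma, mem_RN'] at hx hx'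
        obtain ⟨b, k⟩ := x
        obtain ⟨b', k'⟩ := x'
        simp only at h hx hx'
        subst h
        have : b * k = b * k' := hx.2.trans hx'.2.symm
        have := Nat.eq_of_mul_eq_mul_left hx.1.1.1.1 this
        subst this
        rfl
    exact_mod_cast this
  have hNq : N ≤ q := by
    rw [hq]
    exact Nat.le_mul_of_pos_left _ hW
  have h2 : ∑ m ∈ V, HH F X ((m : ℕ) : ZMod q) ≤ ∑ x : ZMod q, HH F X x := by
    have hinj : Set.InjOn (fun m : ℕ => ((m : ℕ) : ZMod q)) V := by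
      intro m hm m' hm' h
      rw [hV, mem_coe, mem_Icc] at hm hm'
      simp only at h
      rw [ZMod.natCast_eq_natCast_iff', Nat.mod_eq_of_lt (by omega), Nat.mod_eq_of_lt (by omega)] at h
      exact h
    rw [← sum_image (s := V) (g := fun m : ℕ => ((m : ℕ) : ZMod q)) (f := fun x => HH F X x) hinj]
    exact sum_le_sum_of_subset_of_nonneg (subset_univ _) fun x _ _ => hH0 x
  refine h1.trans ?_
  calc ∑ m ∈ V, (rdv z m : ℝ) * HH F X ((m : ℕ) : ZMod q) ≤ ∑ m ∈ V, (R : ℝ) * HH F X ((m : ℕ) : ZMod q) := by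
        refine sum_le_sum fun m hm => mul_le_mul_of_nonneg_right ?_ (hH0 _)
        rw [hV, mem_Icc] at hm
        exact_mod_cast hR m hm.1 (by omega)
    _ = R * ∑ m ∈ V, HH F X ((m : ℕ) : ZMod q) := by rw [mul_sum]
    _ ≤ _ := mul_le_mul_of_nonneg_left h2 (Nat.cast_nonneg _)

theorem G_mul (h : Hyp W N q a0 z η M θ F G Q P0) : ∀ A : ℕ, 1 ≤ A → Rough z A → A.Coprime q →
    (∀ l ∈ Q, ¬ l ∣ A) → A ^ 2 ≤ N → ∀ n : ℕ, 1 ≤ n → n.Coprime q → A * n < N →
    G (A * n) = θ ^ om A * G n := by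
  intro A
  induction A using Nat.strong_induction_on with
  | _ A ih =>
    intro hA1 hr hc hQ hA2 n hn hnq hAn
    rcases Nat.eq_or_lt_of_le hA1 with h1 | h1
    · rw [← h1]
      simp [om]
    · obtain ⟨p, hp, A1, rfl⟩ : ∃ p : ℕ, p.Prime ∧ ∃ A1, A = p * A1 := by
        obtain ⟨p, hp, hd⟩ := Nat.exists_prime_and_dvd (by omega : A ≠ 1)
        exact ⟨p, hp, hd⟩
      have hA10 : 1 ≤ A1 := by
        rcases Nat.eq_zero_or_pos A1 with h0 | h0
        · rw [h0, mul_zero] at hA1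
          omega
        · exact h0
      have hlt : A1 < p * A1 := by
        have := hp.one_lt
        nlinarith
      have hd1 : p ∣ p * A1 := Dvd.intro _ rfl
      have hd2 : A1 ∣ p * A1 := Dvd.intro_left _ rfl
      have hc1 : A1.Coprime q := Nat.Coprime.coprime_dvd_left hd2 hc
      have hcp : p.Coprime q := Nat.Coprime.coprime_dvd_left hd1 hc
      have hA1n : A1 * n ≤ p * A1 * n := Nat.mul_le_mul_right n hlt.le
      have e1 := h.mul p (A1 * n) hp (fun hpQ => hQ p hpQ hd1)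
        ((Nat.Prime.coprime_iff_not_dvd hp).1 hcp) (hr p hp hd1) (by
          refine le_trans (Nat.pow_le_pow_left ?_ 2) hA2
          exact Nat.le_mul_of_pos_right p hA10) (Nat.mul_pos hA10 hn)
        (Nat.Coprime.mul_left hc1 hnq) (by rw [← mul_assoc]; exact hAn)
      have e2 := ih A1 hlt hA10 (Rough_dvd hr hd2) hc1 (fun l hl hd => hQ l hl (hd.trans hd2))
        (le_trans (Nat.pow_le_pow_left hlt.le 2) hA2) n hn hnq (by omega)
      rw [mul_assoc, e1, e2, om_mul hp.one_lt.le hA10, om_prime hp, pow_add, pow_one]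
      ring

/-- comparison of `F` at `A n` and `A' n` -/
theorem F_eq (h : Hyp W N q a0 z η M θ F G Q P0) (hW : 1 ≤ W) {A A' : ℕ} (hA1 : 1 ≤ A) (hA : Rough z A)
    (hAq : A.Coprime q) (hAQ : ∀ l ∈ Q, ¬ l ∣ A) (hA2 : A ^ 2 ≤ N) (hA1' : 1 ≤ A') (hA' : Rough z A')
    (hAq' : A'.Coprime q) (hAQ' : ∀ l ∈ Q, ¬ l ∣ A') (hA2' : A' ^ 2 ≤ N) (hAA : A % W = A' % W) {n : ℕ}
    (hn : 1 ≤ n) (hAn : A * n < N) (hAn' : A' * n < N) :
    θ ^ om A * F ((A * n : ℕ) : ZMod q) = θ ^ om A' * F ((A' * n : ℕ) : ZMod q) := by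
  have hNq : N ≤ q := by
    rw [h.hq]
    exact Nat.le_mul_of_pos_left _ hW
  have hval : ∀ m : ℕ, m < N → ((m : ℕ) : ZMod q).val = m := fun m hm =>
    ZMod.val_cast_of_lt (lt_of_lt_of_le hm hNq)
  have hcl : (A * n) % W = (A' * n) % W := by rw [Nat.mul_mod, hAA, ← Nat.mul_mod]
  by_cases hnq : n.Coprime q
  · by_cases hc : (A * n) % W = a0 % W
    · have e1 := h.val (A * n) (Nat.mul_pos hA1 hn) hAn hc (Nat.Coprime.mul_left hAq hnq)
      have e2 := h.val (A' * n) (Nat.mul_pos hA1' hn) hAn' (by rw [← hcl]; exact hc)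
        (Nat.Coprime.mul_left hAq' hnq)
      rw [e1, e2, G_mul h A hA1 hA hAq hAQ hA2 n hn hnq hAn, G_mul h A' hA1' hA' hAq' hAQ' hA2' n hn hnq hAn']
      have hp : ∀ k : ℕ, θ ^ k * (θ ^ k * G n) = G n := by
        intro k
        rw [← mul_assoc, ← mul_pow, ← sq, h.th, one_pow, one_mul]
      rw [hp, hp]
    · have z1 : F ((A * n : ℕ) : ZMod q) = 0 := by
        by_contra hne
        have := (h.supp _ hne).2
        rw [hval _ hAn] at this
        exact hc this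
      have z2 : F ((A' * n : ℕ) : ZMod q) = 0 := by
        by_contra hne
        have := (h.supp _ hne).2
        rw [hval _ hAn', ← hcl] at this
        exact hc this
      rw [z1, z2, mul_zero, mul_zero]
  · have z1 : ∀ a : ℕ, F ((a * n : ℕ) : ZMod q) = 0 := by
      intro a
      refine h.F0 _ ?_
      rw [ZMod.isUnit_iff_coprime]
      intro hcc
      exact hnq (Nat.Coprime.coprime_mul_left hcc)
    rw [z1, z1, mul_zero, mul_zero]

end

end Pool.Agent.Lib.OWS
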