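import Pool.Agent.Lib.MP_7b7e48_nt.OW.CN3
import Pool.Agent.Lib.MP_7b7e48_nt.OW.HVq

/-!
# Module V0 (40 minutes): `c` is not the restriction of a character modulo `W`

PROOF. `rec_low` with `b = 1`, `x = ⌈N^(1/100)⌉`, `y = ⌊N^(99/200)⌋`: `∑ 1/p ≥ c (0.48 K - 1)/(0.495 K) ≥ c/2` over the primes `p ≡ 1` modulo `W`, `x < p ≤ y`. If all of those which do not divide `N` had `c p = 1`, then `c/2 ≤ ε1 + ∑_{p ∣ N, p > N^(1/100)} 1/p ≤ ε1 + 100 N^(-1/100)`; contradiction for `ε1 = c/4`.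
(`p` is coprime to `W` since `p ≡ 1`; `c p = 1` or `-1` by `RC.val`.)
-/

open Finset

namespace Pool.Agent.Lib.OW

open Pool.Agent.Lib.RG (RC LV rr SS PB)

/-- few primes `p > N^(1/100)` divide `N` -/
theorem few_big (N : ℕ) (hN : 2 ≤ N) (S : Finset ℕ) (hS : ∀ p ∈ S, p.Prime ∧ p ∣ N ∧ (N : ℝ) ^ ((1 : ℝ) / 100) < p) :
    (S.card : ℝ) ≤ 100 := by
  have hN0 : (0 : ℝ) < N := by positivity
  have hlog : 0 < Real.log N := Real.log_pos (by exact_mod_cast hN)
  have h1 : S ⊆ N.primeFactors := by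
    intro p hp
    obtain ⟨h1, h2, -⟩ := hS p hp
    exact Nat.mem_primeFactors.mpr ⟨h1, h2, by omega⟩
  have h2 : ∏ p ∈ S, p ∣ N := (Finset.prod_dvd_prod_of_subset _ _ _ h1).trans (Nat.prod_primeFactors_dvd N)
  have h3 : ((∏ p ∈ S, p : ℕ) : ℝ) ≤ N := by exact_mod_cast Nat.le_of_dvd (by omega) h2
  have h4 : Real.log ((∏ p ∈ S, p : ℕ) : ℝ) ≤ Real.log N := by
    refine Real.log_le_log ?_ h3
    have : 0 < ∏ p ∈ S, p := Nat.pos_of_dvd_of_pos h2 (by omega)
    exact_mod_cast this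
  rw [Nat.cast_prod, Real.log_prod (fun p hp => by
    have := (hS p hp).1.pos
    positivity)] at h4
  have h5 : ∑ p ∈ S, (1 / 100 * Real.log N) ≤ ∑ p ∈ S, Real.log (p : ℝ) := by
    refine sum_le_sum fun p hp => ?_
    have h6 := (hS p hp).2.2
    have h7 := Real.log_le_log (by positivity) h6.le
    rwa [Real.log_rpow hN0] at h7
  rw [sum_const, nsmul_eq_mul] at h5
  have h6 : (S.card : ℝ) * (1 / 100 * Real.log N) ≤ Real.log N := h5.trans h4
  have h7 : (S.card : ℝ) / 100 * Real.log N ≤ 1 * Real.log N := by linarith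
  have h8 := le_of_mul_le_mul_right h7 hlog
  linarith

theorem ne_class (W : ℕ) (hW : 1 ≤ W) : ∃ ε1 : ℝ, 0 < ε1 ∧ ∃ N0 : ℕ, ∀ N : ℕ, N0 ≤ N → ∀ (a : ℕ) (c : ℕ → ℝ) (β : ℝ),
    HV N W a c β ε1 → ∃ m : ℕ, m.Prime ∧ m ≡ 1 [MOD W] ∧ m.Coprime (W * N) ∧ c m = -1 := by
  classical
  obtain ⟨c0, hc0, x0, hrec⟩ := rec_low W hW
  refine ⟨c0 / 8, by positivity, ?_⟩
  have ht1 : Filter.Tendsto (fun N : ℕ => (N : ℝ) ^ ((1 : ℝ) / 100)) Filter.atTop Filter.atTop :=
    (tendsto_rpow_atTop (by norm_num)).comp tendsto_natCast_atTop_atTop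
  have ht2 : Filter.Tendsto (fun N : ℕ => Real.log (N : ℝ)) Filter.atTop Filter.atTop :=
    Real.tendsto_log_atTop.comp tendsto_natCast_atTop_atTop
  have hev := ((ht1.eventually_ge_atTop (max (x0 : ℝ) (800 / c0 + 1))).and
    (ht2.eventually_ge_atTop 20)).and (Filter.eventually_ge_atTop 2)
  obtain ⟨N0, hN0⟩ := Filter.eventually_atTop.mp hev
  refine ⟨N0, ?_⟩
  intro N hN a c β hv
  obtain ⟨⟨hs, hK⟩, hN2⟩ := hN0 N hN
  by_contra hcon
  push Not at hcon
  have hNpos : (0 : ℝ) < N := by positivity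
  set K := Real.log (N : ℝ) with hKd
  set s := (N : ℝ) ^ ((1 : ℝ) / 100) with hsd
  set t := (N : ℝ) ^ ((99 : ℝ) / 200) with htd
  have hs1 : (x0 : ℝ) ≤ s := (le_max_left _ _).trans hs
  have hs2 : 800 / c0 + 1 ≤ s := (le_max_right _ _).trans hs
  have hsp : 1 ≤ s := by
    have : 0 ≤ 800 / c0 := by positivity
    linarith
  have hlogs : Real.log s = K / 100 := by rw [hsd, Real.log_rpow hNpos]; ring
  have hlogt : Real.log t = 99 * K / 200 := by rw [htd, Real.log_rpow hNpos]; ring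
  have htp : 2 ≤ t := by
    have h1 : Real.log 2 ≤ Real.log t := by
      rw [hlogt]
      have := Real.log_two_lt_d9
      linarith
    exact (Real.log_le_log_iff (by norm_num) (by positivity)).mp h1
  set x := ⌈s⌉₊ with hx
  set y := ⌊t⌋₊ with hy
  have hx1 : s ≤ x := Nat.le_ceil _
  have hx2 : (x : ℝ) ≤ 2 * s := by
    have := Nat.ceil_lt_add_one (by linarith : (0 : ℝ) ≤ s)
    linarith
  have hy1 : (y : ℝ) ≤ t := Nat.floor_le (by linarith)
  have hy2 : t / 2 ≤ y := by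
    have := Nat.lt_floor_add_one t
    linarith
  have hlog4 : Real.log 4 ≤ 2 := by
    have h1 : Real.log 4 = 2 * Real.log 2 := by
      rw [show (4 : ℝ) = 2 ^ 2 by norm_num, Real.log_pow]; norm_num
    rw [h1]
    have := Real.log_two_lt_d9
    linarith
  have hratio : 97 * K / 200 - 2 ≤ Real.log ((y : ℝ) / x) := by
    have h1 : (t / 2) / (2 * s) ≤ (y : ℝ) / x := by
      refine div_le_div₀ (by linarith) hy2 (by linarith) hx2
    have h2 := Real.log_le_log (by positivity) h1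
    have h3 : (t / 2) / (2 * s) = t / (4 * s) := by field_simp; ring
    rw [h3, Real.log_div (by positivity) (by positivity), Real.log_mul (by norm_num) (by positivity),
      hlogs, hlogt] at h2
    linarith
  have hxy : x ≤ y := by
    have h1 : 0 < Real.log ((y : ℝ) / x) := by linarith
    have h2 : (0 : ℝ) < x := by linarith
    have h3 : 1 < (y : ℝ) / x := by
      by_contra h
      push Not at h
      have := Real.log_nonpos (by positivity) h
      linarith
    rw [lt_div_iff₀ h2, one_mul] at h3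
    exact_mod_cast h3.le
  have hx0 : x0 ≤ x := by
    have : (x0 : ℝ) ≤ x := hs1.trans hx1
    exact_mod_cast this
  have hr := hrec x y hx0 hxy 1 (Nat.coprime_one_left W)
  have hlogy : Real.log y ≤ 99 * K / 200 := by
    rw [← hlogt]
    exact Real.log_le_log (by linarith) hy1
  have hlogy0 : 0 < Real.log y := by
    have h1 : (x : ℝ) ≤ y := by exact_mod_cast hxy
    have h3 : (1 : ℝ) < y := by
      have h4 : 1 < t / 2 := by
        have h5 : Real.log 2 < Real.log (t / 2) := by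
          rw [Real.log_div (by positivity) (by norm_num), hlogt]
          have := Real.log_two_lt_d9
          linarith
        have := (Real.log_lt_log_iff (by norm_num) (by positivity)).mp h5
        linarith
      linarith
    exact Real.log_pos h3
  have hlow : c0 / 2 ≤ c0 * (Real.log (y / x) - 1) / Real.log y := by
    rw [le_div_iff₀ hlogy0]
    nlinarith
  set A0 : Finset ℕ := (Finset.Ioc x y).filter (fun p : ℕ => p.Prime ∧ p ≡ 1 [MOD W]) with hA0
  set A1 : Finset ℕ := (QP c y).filter (fun q : ℕ => s < (q : ℝ)) with hA1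
  set A2 : Finset ℕ := (Finset.Ioc x y).filter (fun p : ℕ => p.Prime ∧ p ∣ N) with hA2
  have hsub : A0 ⊆ A1 ∪ A2 := by
    intro p hp
    rw [hA0, mem_filter, mem_Ioc] at hp
    obtain ⟨⟨h1, h2⟩, h3, h4⟩ := hp
    rw [mem_union]
    by_cases hpN : p ∣ N
    · right
      rw [hA2, mem_filter, mem_Ioc]
      exact ⟨⟨h1, h2⟩, h3, hpN⟩
    · left
      have h5 : ¬ p ∣ W := by
        intro h
        have h6 : p ≡ 1 [MOD p] := h4.of_dvd h
        have h7 : p ∣ 1 := (Nat.modEq_zero_iff_dvd.mp (h6.symm.trans (Nat.modEq_zero_iff_dvd.mpr dvd_rfl)))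
        exact h3.one_lt.ne' (Nat.dvd_one.mp h7)
      have h6 : p.Coprime (W * N) := Nat.Coprime.mul_right ((Nat.Prime.coprime_iff_not_dvd h3).mpr h5)
        ((Nat.Prime.coprime_iff_not_dvd h3).mpr hpN)
      rw [hA1, mem_filter, QP, mem_filter, mem_range]
      refine ⟨⟨by omega, h3, ?_⟩, ?_⟩
      · rcases hv.rc.val p h6 with h | h
        · exact h
        · exact absurd h (hcon p h3 h4 h6)
      · refine hx1.trans_lt ?_
        exact_mod_cast h1
  have hup : ∑ p ∈ A0, 1 / (p : ℝ) ≤ ∑ q ∈ A1, 1 / (q : ℝ) + ∑ p ∈ A2, 1 / (p : ℝ) := by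
    have h0 : ∑ p ∈ A0, 1 / (p : ℝ) ≤ ∑ p ∈ A1 ∪ A2, 1 / (p : ℝ) :=
      sum_le_sum_of_subset_of_nonneg hsub (fun _ _ _ => by positivity)
    have h1 := Finset.sum_union_inter (s₁ := A1) (s₂ := A2) (f := fun p : ℕ => 1 / (p : ℝ))
    have h2 : 0 ≤ ∑ p ∈ A1 ∩ A2, 1 / (p : ℝ) := sum_nonneg fun _ _ => by positivity
    linarith
  have hq := hv.q'
  have hbig : ∑ p ∈ A2, 1 / (p : ℝ) ≤ 100 * (1 / s) := by
    have hcard : (A2.card : ℝ) ≤ 100 := by
      apply few_big N hN2
      intro p hp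
      rw [hA2, mem_filter, mem_Ioc] at hp
      refine ⟨hp.2.1, hp.2.2, ?_⟩
      refine hx1.trans_lt ?_
      exact_mod_cast hp.1.1
    calc _ ≤ ∑ p ∈ A2, 1 / s := by
          refine sum_le_sum fun p hp => ?_
          rw [hA2, mem_filter, mem_Ioc] at hp
          refine one_div_le_one_div_of_le (by linarith) ?_
          refine hx1.trans ?_
          exact_mod_cast hp.1.1.le
      _ = (A2.card : ℝ) * (1 / s) := by
          rw [sum_const, nsmul_eq_mul]
      _ ≤ _ := by gcongr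
  have hfin : 100 * (1 / s) < c0 / 8 := by
    have h1 : 800 / c0 < s := by linarith
    rw [div_lt_iff₀ hc0] at h1
    rw [mul_one_div, div_lt_iff₀ (by linarith)]
    linarith
  linarith

end Pool.Agent.Lib.OW
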