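import Mathlib
import Pool.Agent.Lib.MP_7b7e48_nt.OW.CN1
import Pool.Agent.Lib.MP_7b7e48_nt.OW.CN3

/-!
# Module V1 (90 minutes): `lam = β c` for most numbers of all classes, in the logarithmic sense

`K = log N`, `M = W N`. PROOF. Let `k` be counted (bad, `N^(51/100) < k ≤ N^(49/50)`), `p` a prime with `W N/(2k) < p ≤ W N/k`, `p ≡ a k^(-1)` modulo `W`, `p ∤ N`, `c p ≠ 1` (so `c p = -1 = lam p`). Then `n = p k < W N` (`≠ W N` as it is coprime to `N ≥ 2`), `n ≡ a`, `n` coprime to `N`, `lam n = -lam k ≠ -β c k = β c n`: `n ∈ Zst`.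
By `pap` at `x = ⌊W N/k⌋ ≥ N^(1/50)` (`Ioc (x/2) x`; `W N/(2k)` and `x/2` differ by less than `1`, use the primes in `Ioc (x/2) x`) the number of primes is `≥ c1 x/log x ≥ c1 W N/(4 k K)`. At most `2 K` of them divide `N`. So (all primes in question lie in `(N^(1/100), N^(99/200)]`)
`∑_{k bad} c1 W N/(4 k K) ≤ ∑_{n ∈ Zst} #{p ∣ n : p > N^(1/100)} + N^(49/50) · 2 K + ∑_{p ∈ QP, N^(1/100) < p ≤ N^(99/200)} #{k ≤ W N/p : (k, N) = 1}`
`≤ 200 ε del N N + N^(99/100) + ∑_p 4 del N (W N/p)` (`n < W N ≤ N²` has at most `200` prime factors `> N^(1/100)`; `dom_two` with its `W` equal to `1`) `≤ (200 + 4 W + 1) ε del N N` for `N ≥ N0(ε)` (`del_low`).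
-/

open Finset
open Pool.Agent.Lib.MP_45349e_nt.LS (lam)

namespace Pool.Agent.Lib.OW

open Pool.Agent.Lib.RG (RC LV rr SS PB)

private theorem v1_lam_sq (n : ℕ) : lam n = 1 ∨ lam n = -1 := by
  have h := Pool.Agent.Lib.MP_45349e_nt.LS.abs_lam n
  rcases abs_eq (by norm_num : (0:ℝ) ≤ 1) |>.1 h with h | h
  · exact Or.inl h
  · exact Or.inr h

/-- the class of the primes -/
private theorem v1_inv (W k a : ℕ) (hW : 1 ≤ W) (hk : k.Coprime W) (ha : a.Coprime W) :
    ∃ b : ℕ, b.Coprime W ∧ ∀ p : ℕ, p ≡ b [MOD W] → p * k ≡ a [MOD W] := by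
  rcases hW.eq_or_lt with h1 | h1
  · subst h1
    exact ⟨1, Nat.coprime_one_right 1, fun p _ => Nat.modEq_one⟩
  · obtain ⟨m, _, hm⟩ := Nat.exists_mul_mod_eq_one_of_coprime hk h1
    have hkm : k * m ≡ 1 [MOD W] := by
      rw [Nat.ModEq, hm, Nat.mod_eq_of_lt h1]
    have hmW : m.Coprime W := by
      have h2 : (k * m).Coprime W := by
        have := hkm.gcd_eq
        rw [Nat.coprime_iff_gcd_eq_one, this]
        simp
      exact Nat.Coprime.coprime_mul_left h2
    refine ⟨m * a, Nat.Coprime.mul_left hmW ha, fun p hp => ?_⟩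
    calc p * k ≡ m * a * k [MOD W] := hp.mul_right k
      _ = (k * m) * a := by ring
      _ ≡ 1 * a [MOD W] := hkm.mul_right a
      _ = a := one_mul a

/-- a number below `z ^ 200` has at most `200` prime factors above `z` -/
private theorem v1_big (n : ℕ) (z : ℝ) (hz : 1 < z) (hn : 1 ≤ n) (h : (n : ℝ) ≤ z ^ 200) :
    (n.primeFactors.filter (fun p : ℕ => z < (p : ℝ))).card ≤ 200 := by
  set F := n.primeFactors.filter (fun p : ℕ => z < (p : ℝ)) with hF
  have h1 : z ^ F.card ≤ ((∏ p ∈ F, p : ℕ) : ℝ) := by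
    rw [← Finset.prod_const]
    push_cast
    refine Finset.prod_le_prod (fun i _ => by linarith) (fun p hp => ?_)
    rw [hF, Finset.mem_filter] at hp
    exact hp.2.le
  have h2 : (∏ p ∈ F, p : ℕ) ≤ n := by
    refine Nat.le_of_dvd hn (dvd_trans ?_ (Nat.prod_primeFactors_dvd n))
    exact Finset.prod_dvd_prod_of_subset _ _ _ (Finset.filter_subset _ _)
  have h3 : z ^ F.card ≤ z ^ 200 := h1.trans ((by exact_mod_cast h2 : ((∏ p ∈ F, p : ℕ) : ℝ) ≤ n).trans h)
  exact (pow_le_pow_iff_right₀ hz).1 h3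

open Classical in
private theorem v1_hvq (S : Finset ℕ) (z : ℝ) :
    ∑ q ∈ (do let a ← S; pure (a : ℝ) : Finset ℝ).filter (fun q => z < q), 1 / q =
      ∑ q ∈ S.filter (fun q : ℕ => z < (q : ℝ)), 1 / (q : ℝ) := by
  have h : (do let a ← S; pure (a : ℝ) : Finset ℝ) = S.image (fun a : ℕ => (a : ℝ)) := by
    ext x
    simp [Finset.bind_def, Finset.pure_def]
  rw [h, Finset.filter_image, Finset.sum_image]
  intro a _ b _ hab
  exact Nat.cast_injective hab

open Classical in
/-- the double counting -/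
private theorem v1_count (N W a T : ℕ) (c : ℕ → ℝ) (β z : ℝ) (u Y : ℕ) (hN : 2 ≤ N) (hc : RC (W * N) c)
    (hz : 1 < z) (hz2 : ((W * N : ℕ) : ℝ) ≤ z ^ 200)
    (x : ℕ → ℕ) (b : ℕ → ℕ) (hx : ∀ k, k * x k ≤ W * N)
    (hb : ∀ k ∈ (Finset.Ioc u Y).filter (fun k => k.Coprime (W * N) ∧ lam k ≠ β * c k),
      ∀ p : ℕ, p ≡ b k [MOD W] → p * k ≡ a [MOD W])
    (hzx : ∀ k ∈ Finset.Ioc u Y, ∀ p ∈ Finset.Ioc (x k / 2) (x k), z < (p : ℝ) ∧ W < p ∧ p ≤ T)
    (hW : 1 ≤ W) :
    ∑ k ∈ (Finset.Ioc u Y).filter (fun k => k.Coprime (W * N) ∧ lam k ≠ β * c k),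
      (((Finset.Ioc (x k / 2) (x k)).filter fun p => p.Prime ∧ p ≡ b k [MOD W]).card : ℝ) ≤
    200 * ((Zst N W a c β).card : ℝ) + (Y : ℝ) * (N.primeFactors.card : ℝ) +
      ∑ q ∈ (QP c T).filter (fun q : ℕ => z < (q : ℝ)), ((Dom N 1 a (W * N / q + 1)).card : ℝ) := by
  set Bad := (Finset.Ioc u Y).filter (fun k => k.Coprime (W * N) ∧ lam k ≠ β * c k) with hBad
  set P : ℕ → Finset ℕ := fun k => (Finset.Ioc (x k / 2) (x k)).filter fun p => p.Prime ∧ p ≡ b k [MOD W]
    with hP
  have hNW : 0 < W * N := Nat.mul_pos hW (by omega)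
  -- splitting
  have hsplit : ∀ k ∈ Bad, (P k).card ≤ ((P k).filter (fun p => ¬ p ∣ N ∧ c p ≠ 1)).card +
      N.primeFactors.card + ((P k).filter (fun p => c p = 1)).card := by
    intro k hk
    have hsub : P k ⊆ ((P k).filter (fun p => ¬ p ∣ N ∧ c p ≠ 1)) ∪ N.primeFactors ∪
        ((P k).filter (fun p => c p = 1)) := by
      intro p hp
      have hpp : p.Prime := by
        simp only [hP, Finset.mem_filter] at hp
        exact hp.2.1
      by_cases h1 : c p = 1
      · exact Finset.mem_union_right _ (Finset.mem_filter.2 ⟨hp, h1⟩)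
      · by_cases h2 : p ∣ N
        · exact Finset.mem_union_left _ (Finset.mem_union_right _ (Nat.mem_primeFactors.2 ⟨hpp, h2, by omega⟩))
        · exact Finset.mem_union_left _ (Finset.mem_union_left _ (Finset.mem_filter.2 ⟨hp, h2, h1⟩))
    refine (Finset.card_le_card hsub).trans ?_
    refine (Finset.card_union_le _ _).trans ?_
    exact Nat.add_le_add_right (Finset.card_union_le _ _) _
  -- first part
  have h1 : ∑ k ∈ Bad, ((P k).filter (fun p => ¬ p ∣ N ∧ c p ≠ 1)).card ≤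
      ∑ n ∈ Zst N W a c β, (n.primeFactors.filter (fun p : ℕ => z < (p : ℝ))).card := by
    rw [← Finset.card_sigma, ← Finset.card_sigma]
    refine Finset.card_le_card_of_injOn (fun kp => ⟨kp.2 * kp.1, kp.2⟩) ?_ ?_
    · rintro ⟨k, p⟩ hkp
      simp only [Finset.coe_sigma, Set.mem_sigma_iff, Finset.mem_coe] at hkp ⊢
      obtain ⟨hk, hp⟩ := hkp
      simp only [hP, Finset.mem_filter] at hp
      obtain ⟨⟨hpI, hpp, hpb⟩, hpN, hcp⟩ := hp
      have hk' := hk
      rw [hBad, Finset.mem_filter] at hk'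
      obtain ⟨hkI, hkco, hklam⟩ := hk'
      obtain ⟨hzp, hWp, _⟩ := hzx k hkI p hpI
      have hkpos : 0 < k := by
        have := (Finset.mem_Ioc.1 hkI).1
        omega
      have hpW : p.Coprime W := by
        rw [Nat.Prime.coprime_iff_not_dvd hpp]
        intro h
        have := Nat.le_of_dvd hW h
        omega
      have hpN' : p.Coprime N := (Nat.Prime.coprime_iff_not_dvd hpp).2 hpN
      have hpWN : p.Coprime (W * N) := Nat.Coprime.mul_right hpW hpN'
      have hcp' : c p = -1 := (hc.val p hpWN).resolve_left hcp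
      have hkN : k.Coprime N := Nat.Coprime.coprime_mul_left_right hkco
      have hnN : (p * k).Coprime N := Nat.Coprime.mul_left hpN' hkN
      have hnle : p * k ≤ W * N := by
        have := (Finset.mem_Ioc.1 hpI).2
        calc p * k ≤ x k * k := Nat.mul_le_mul_right k this
          _ = k * x k := Nat.mul_comm _ _
          _ ≤ W * N := hx k
      have hnne : p * k ≠ W * N := by
        intro h
        rw [h] at hnN
        have h2 : N ∣ 1 := by
          have h3 : N ∣ Nat.gcd (W * N) N := Nat.dvd_gcd (Dvd.intro_left _ rfl) (dvd_refl N)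
          rwa [Nat.Coprime.gcd_eq_one hnN] at h3
        have := Nat.le_of_dvd one_pos h2
        omega
      refine ⟨?_, ?_⟩
      · unfold Zst Dom
        rw [Finset.mem_filter, Finset.mem_filter, Finset.mem_range]
        refine ⟨⟨lt_of_le_of_ne hnle hnne, hb k hk p hpb, hnN⟩, ?_⟩
        rw [Pool.Agent.Lib.MP_45349e_nt.LS.lam_mul p k hpp.ne_zero hkpos.ne',
          Pool.Agent.Lib.MP_45349e_nt.LS.lam_prime p hpp, hc.mul, hcp']
        intro h
        apply hklam
        linarith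
      · rw [Finset.mem_filter, Nat.mem_primeFactors]
        exact ⟨⟨hpp, Dvd.intro _ rfl, (Nat.mul_pos hpp.pos hkpos).ne'⟩, hzp⟩
    · rintro ⟨k, p⟩ hkp ⟨k', p'⟩ hkp' h
      simp only [Finset.coe_sigma, Set.mem_sigma_iff, Finset.mem_coe] at hkp hkp'
      simp only [hP, Finset.mem_filter] at hkp
      have hpp : p.Prime := hkp.2.1.2.1
      simp only [Sigma.mk.injEq, heq_eq_eq] at h
      obtain ⟨h1, h2⟩ := h
      subst h2
      have := Nat.eq_of_mul_eq_mul_left hpp.pos h1
      subst this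
      rfl
  have h1' : ∑ n ∈ Zst N W a c β, (n.primeFactors.filter (fun p : ℕ => z < (p : ℝ))).card ≤
      (Zst N W a c β).card * 200 := by
    rw [← smul_eq_mul, ← Finset.sum_const]
    refine Finset.sum_le_sum fun n hn => ?_
    unfold Zst Dom at hn
    rw [Finset.mem_filter, Finset.mem_filter, Finset.mem_range] at hn
    have hn1 : 1 ≤ n := by
      rcases Nat.eq_zero_or_pos n with h0 | h0
      · exfalso
        have h3 := hn.1.2.2
        rw [h0, Nat.coprime_zero_left] at h3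
        omega
      · exact h0
    refine v1_big n z hz hn1 (le_trans ?_ hz2)
    exact_mod_cast hn.1.1.le
  -- third part
  have h3 : ∑ k ∈ Bad, ((P k).filter (fun p => c p = 1)).card ≤
      ∑ q ∈ (QP c T).filter (fun q : ℕ => z < (q : ℝ)), (Dom N 1 a (W * N / q + 1)).card := by
    rw [← Finset.card_sigma, ← Finset.card_sigma]
    refine Finset.card_le_card_of_injOn (fun kp => ⟨kp.2, kp.1⟩) ?_ ?_
    · rintro ⟨k, p⟩ hkp
      simp only [Finset.coe_sigma, Set.mem_sigma_iff, Finset.mem_coe] at hkp ⊢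
      obtain ⟨hk, hp⟩ := hkp
      simp only [hP, Finset.mem_filter] at hp
      obtain ⟨⟨hpI, hpp, hpb⟩, hcp⟩ := hp
      rw [hBad, Finset.mem_filter] at hk
      obtain ⟨hkI, hkco, hklam⟩ := hk
      obtain ⟨hzp, hWp, hpT⟩ := hzx k hkI p hpI
      refine ⟨?_, ?_⟩
      · rw [Finset.mem_filter]
        refine ⟨?_, hzp⟩
        unfold QP
        rw [Finset.mem_filter, Finset.mem_range]
        exact ⟨by omega, hpp, hcp⟩
      · unfold Dom
        rw [Finset.mem_filter, Finset.mem_range]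
        refine ⟨?_, Nat.modEq_one, Nat.Coprime.coprime_mul_left_right hkco⟩
        rw [Nat.lt_succ_iff, Nat.le_div_iff_mul_le hpp.pos]
        have := (Finset.mem_Ioc.1 hpI).2
        exact (Nat.mul_le_mul_left k this).trans (hx k)
    · rintro ⟨k, p⟩ _ ⟨k', p'⟩ _ h
      simp only [Sigma.mk.injEq, heq_eq_eq] at h
      obtain ⟨h1, h2⟩ := h
      subst h1; subst h2
      rfl
  have hBadc : Bad.card ≤ Y := by
    calc Bad.card ≤ (Finset.Ioc u Y).card := Finset.card_le_card (Finset.filter_subset _ _)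
      _ = Y - u := by simp
      _ ≤ Y := Nat.sub_le _ _
  have htot : ∑ k ∈ Bad, (P k).card ≤ (Zst N W a c β).card * 200 + Y * N.primeFactors.card +
      ∑ q ∈ (QP c T).filter (fun q : ℕ => z < (q : ℝ)), (Dom N 1 a (W * N / q + 1)).card := by
    calc ∑ k ∈ Bad, (P k).card ≤ ∑ k ∈ Bad, (((P k).filter (fun p => ¬ p ∣ N ∧ c p ≠ 1)).card +
          N.primeFactors.card + ((P k).filter (fun p => c p = 1)).card) := Finset.sum_le_sum hsplit
      _ = (∑ k ∈ Bad, ((P k).filter (fun p => ¬ p ∣ N ∧ c p ≠ 1)).card) +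
          Bad.card * N.primeFactors.card + ∑ k ∈ Bad, ((P k).filter (fun p => c p = 1)).card := by
          rw [Finset.sum_add_distrib, Finset.sum_add_distrib, Finset.sum_const, smul_eq_mul]
      _ ≤ _ := Nat.add_le_add (Nat.add_le_add (h1.trans h1') (Nat.mul_le_mul_right _ hBadc)) h3
  have hcast : ((∑ k ∈ Bad, (P k).card : ℕ) : ℝ) ≤ (((Zst N W a c β).card * 200 + Y * N.primeFactors.card +
      ∑ q ∈ (QP c T).filter (fun q : ℕ => z < (q : ℝ)), (Dom N 1 a (W * N / q + 1)).card : ℕ) : ℝ) :=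
    Nat.cast_le.2 htot
  push_cast at hcast
  linarith

open Classical in
theorem logbad (W : ℕ) (hW : 1 ≤ W) : ∃ C : ℝ, 0 < C ∧ ∀ ε : ℝ, 0 < ε → ε ≤ 1 → ∃ N0 : ℕ, ∀ N : ℕ, N0 ≤ N →
    ∀ (a : ℕ) (c : ℕ → ℝ) (β : ℝ), HV N W a c β ε →
    ∑ k ∈ (Finset.Ioc ⌊(N : ℝ) ^ ((51 : ℝ) / 100)⌋₊ ⌊(N : ℝ) ^ ((49 : ℝ) / 50)⌋₊).filter
      (fun k => k.Coprime (W * N) ∧ lam k ≠ β * c k), 1 / (k : ℝ) ≤ C * ε * del N * Real.log N := by
  obtain ⟨c1, hc1, x0, hpap⟩ := pap W hW
  obtain ⟨N1, hdom⟩ := dom_two 1 le_rfl (1 / 2) (by norm_num) (by norm_num)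
  obtain ⟨N2, hdl⟩ := del_low
  have hW0 : (0 : ℝ) < W := by exact_mod_cast hW
  refine ⟨4 / (c1 * W) * (201 + 4 * W), by positivity, ?_⟩
  intro ε hε hε1
  have hT : Filter.Tendsto (fun N : ℕ => Real.log (N : ℝ)) Filter.atTop Filter.atTop :=
    Real.tendsto_log_atTop.comp tendsto_natCast_atTop_atTop
  have hT2 : Filter.Tendsto (fun K : ℝ => K ^ 2 * Real.exp (-(1 / 50) * K)) Filter.atTop (nhds 0) := by
    have h := Real.tendsto_pow_mul_exp_neg_atTop_nhds_zero 2
    have h2 : Filter.Tendsto (fun K : ℝ => 1 / 50 * K) Filter.atTop Filter.atTop :=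
      Filter.tendsto_id.const_mul_atTop (by norm_num)
    have h3 := (h.comp h2).const_mul (2500 : ℝ)
    rw [mul_zero] at h3
    refine h3.congr fun K => ?_
    simp only [Function.comp]
    have : -(1 / 50 * K) = -(1 / 50) * K := by ring
    rw [this]; ring
  obtain ⟨N3, hN3⟩ := Filter.eventually_atTop.1 (hT.eventually_ge_atTop (200 + 200 * Real.log (W + 1) +
    100 * Real.log (x0 + 1)))
  obtain ⟨N4, hN4⟩ := Filter.eventually_atTop.1 ((hT2.comp hT).eventually (gt_mem_nhds (show (0 : ℝ) < ε / 2 by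
    positivity)))
  refine ⟨max (max N1 N2) (max (max N3 N4) (W + 2)), ?_⟩
  intro N hN a c β hHV
  have hN1 : N1 ≤ N := ((le_max_left _ _).trans (le_max_left _ _)).trans hN
  have hN2 : N2 ≤ N := ((le_max_right _ _).trans (le_max_left _ _)).trans hN
  have hN3' : N3 ≤ N := (((le_max_left _ _).trans (le_max_left _ _)).trans (le_max_right _ _)).trans hN
  have hN4' : N4 ≤ N := (((le_max_right _ _).trans (le_max_left _ _)).trans (le_max_right _ _)).trans hN
  have hNW2 : W + 2 ≤ N := ((le_max_right _ _).trans (le_max_right _ _)).trans hN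
  have hK0 := hN3 N hN3'
  have hK2 := hN4 N hN4'
  simp only [Function.comp] at hK2
  set K : ℝ := Real.log N with hK
  have hlW : 0 ≤ Real.log ((W : ℝ) + 1) := Real.log_nonneg (by linarith)
  have hlx : 0 ≤ Real.log ((x0 : ℝ) + 1) := Real.log_nonneg (by
    have : (0 : ℝ) ≤ x0 := Nat.cast_nonneg _
    linarith)
  have hK200 : 200 ≤ K := by linarith
  have hN0 : (0 : ℝ) < N := by
    have : 0 < N := by omega
    exact_mod_cast this
  have hrp : ∀ x : ℝ, (N : ℝ) ^ x = Real.exp (K * x) := fun x => Real.rpow_def_of_pos hN0 x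
  have hNexp : (N : ℝ) = Real.exp K := (Real.exp_log hN0).symm
  have hexp2 : ∀ x : ℝ, 1 ≤ x → 2 ≤ Real.exp x := fun x hx => by
    have := Real.add_one_le_exp x
    linarith
  have hWexp : (W : ℝ) + 1 ≤ Real.exp (K * (1 / 200)) * Real.exp (-1) := by
    rw [← Real.exp_add]
    rw [← Real.log_le_iff_le_exp (by linarith)]
    linarith
  have hx0exp : (x0 : ℝ) + 1 ≤ Real.exp (K * (1 / 100)) := by
    rw [← Real.log_le_iff_le_exp (by
      have : (0 : ℝ) ≤ x0 := Nat.cast_nonneg _
      linarith)]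
    linarith
  have hWexp' : (W : ℝ) + 1 ≤ Real.exp (K * (1 / 200)) := by
    refine hWexp.trans ?_
    have : Real.exp (-1) ≤ 1 := Real.exp_le_one_iff.2 (by norm_num)
    have h2 := Real.exp_pos (K * (1 / 200))
    nlinarith
  have hWlt : (W : ℝ) < Real.exp (K * (1 / 200)) := by linarith
  set u : ℕ := ⌊(N : ℝ) ^ ((51 : ℝ) / 100)⌋₊ with hu
  set Y : ℕ := ⌊(N : ℝ) ^ ((49 : ℝ) / 50)⌋₊ with hY
  set T : ℕ := ⌊(N : ℝ) ^ ((99 : ℝ) / 200)⌋₊ with hTdef
  have hY_le : (Y : ℝ) ≤ Real.exp (K * (49 / 50)) := by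
    rw [← hrp]
    exact Nat.floor_le (by positivity)
  -- facts about `k`
  have hkI : ∀ k ∈ Finset.Ioc u Y, Real.exp (K * (51 / 100)) < k ∧ (k : ℝ) ≤ Real.exp (K * (49 / 50)) := by
    intro k hk
    rw [Finset.mem_Ioc] at hk
    refine ⟨?_, le_trans (by exact_mod_cast hk.2) hY_le⟩
    rw [← hrp]
    exact (Nat.floor_lt (by positivity)).1 hk.1
  have hWN0 : (0 : ℝ) < (W : ℝ) * N := by positivity
  have hxlow : ∀ k ∈ Finset.Ioc u Y, 3 * Real.exp (K * (1 / 100)) ≤ ((W * N / k : ℕ) : ℝ) ∧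
      (W : ℝ) * N / (2 * k) ≤ ((W * N / k : ℕ) : ℝ) ∧ ((W * N / k : ℕ) : ℝ) ≤ (N : ℝ) ^ ((99 : ℝ) / 200) := by
    intro k hk
    obtain ⟨hk1, hk2⟩ := hkI k hk
    have hk0 : (0 : ℝ) < k := (Real.exp_pos _).trans hk1
    have h1 : (W : ℝ) * N / k - 1 < ((W * N / k : ℕ) : ℝ) := by
      have := Nat.sub_one_lt_floor ((W : ℝ) * N / k)
      rwa [show (⌊(W : ℝ) * N / k⌋₊) = W * N / k by
        rw [show (W : ℝ) * N = ((W * N : ℕ) : ℝ) by push_cast; ring, Nat.floor_div_eq_div]] at this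
    have h2 : Real.exp (K * (1 / 50)) ≤ (W : ℝ) * N / k := by
      rw [le_div_iff₀ hk0]
      calc Real.exp (K * (1 / 50)) * k ≤ Real.exp (K * (1 / 50)) * Real.exp (K * (49 / 50)) := by gcongr
        _ = 1 * N := by rw [← Real.exp_add, one_mul, hNexp]; congr 1; ring
        _ ≤ (W : ℝ) * N := by
            have : (1 : ℝ) ≤ W := by exact_mod_cast hW
            gcongr
    have h3 : 3 * Real.exp (K * (1 / 100)) + 1 ≤ Real.exp (K * (1 / 50)) := by
      have h4 : Real.exp (K * (1 / 50)) = Real.exp (K * (1 / 100)) * Real.exp (K * (1 / 100)) := by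
        rw [← Real.exp_add]; congr 1; ring
      have h5 := hexp2 (K * (1 / 100)) (by linarith)
      have h6 : 4 ≤ Real.exp (K * (1 / 100)) := by
        have h7 : Real.exp (K * (1 / 100)) = Real.exp (K * (1 / 200)) * Real.exp (K * (1 / 200)) := by
          rw [← Real.exp_add]; congr 1; ring
        have h8 := hexp2 (K * (1 / 200)) (by linarith)
        rw [h7]; nlinarith
      rw [h4]; nlinarith
    refine ⟨by linarith, ?_, ?_⟩
    · have h5 : 2 ≤ (W : ℝ) * N / k := by
        have := hexp2 (K * (1 / 50)) (by linarith)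
        linarith
      have h6 : (W : ℝ) * N / (2 * k) = (W : ℝ) * N / k / 2 := by
        rw [mul_comm 2 (k : ℝ), div_mul_eq_div_div]
      rw [h6]
      linarith
    · have h5 : ((W * N / k : ℕ) : ℝ) ≤ (W : ℝ) * N / k := by
        have := @Nat.cast_div_le ℝ _ _ _ (W * N) k
        refine this.trans (le_of_eq ?_)
        push_cast; rfl
      refine h5.trans ?_
      rw [div_le_iff₀ hk0, hrp]
      calc (W : ℝ) * N ≤ Real.exp (K * (1 / 200)) * Real.exp K := by
            rw [← hNexp]; gcongr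
        _ = Real.exp (K * (99 / 200)) * Real.exp (K * (51 / 100)) := by
            rw [← Real.exp_add, ← Real.exp_add]; congr 1; ring
        _ ≤ Real.exp (K * (99 / 200)) * k := by gcongr
  -- the classes
  have hbex : ∀ k : ℕ, ∃ b : ℕ, k ∈ (Finset.Ioc u Y).filter (fun k => k.Coprime (W * N) ∧ lam k ≠ β * c k) →
      b.Coprime W ∧ ∀ p : ℕ, p ≡ b [MOD W] → p * k ≡ a [MOD W] := by
    intro k
    by_cases hk : k ∈ (Finset.Ioc u Y).filter (fun k => k.Coprime (W * N) ∧ lam k ≠ β * c k)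
    · obtain ⟨b, hb⟩ := v1_inv W k a hW
        (Nat.Coprime.coprime_mul_right_right ((Finset.mem_filter.1 hk).2.1)) hHV.co
      exact ⟨b, fun _ => hb⟩
    · exact ⟨0, fun h => absurd h hk⟩
  choose b hb using hbex
  have hz : (1 : ℝ) < Real.exp (K * (1 / 100)) := Real.one_lt_exp_iff.2 (by linarith)
  have hmain := v1_count N W a T c β (Real.exp (K * (1 / 100))) u Y (by omega) hHV.rc hz
    (by
      rw [← Real.exp_nat_mul]
      push_cast
      calc (W : ℝ) * N ≤ Real.exp (K * (1 / 200)) * Real.exp K := by rw [← hNexp]; gcongr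
        _ = Real.exp (K * (201 / 200)) := by rw [← Real.exp_add]; congr 1; ring
        _ ≤ Real.exp (200 * (K * (1 / 100))) := Real.exp_le_exp.2 (by linarith))
    (fun k => W * N / k) b (fun k => Nat.mul_div_le _ _) (fun k hk p hp => (hb k hk).2 p hp)
    (by
      intro k hk p hp
      obtain ⟨h1, _, h3⟩ := hxlow k hk
      rw [Finset.mem_Ioc] at hp
      have h4 : ((W * N / k : ℕ) : ℝ) < 2 * p := by
        have : W * N / k < 2 * p := by omega
        exact_mod_cast this
      have h5 : Real.exp (K * (1 / 100)) < (p : ℝ) := by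
        have := Real.exp_pos (K * (1 / 100))
        linarith
      refine ⟨h5, ?_, ?_⟩
      · have h6 : (W : ℝ) < p := by
          refine (hWlt.trans_le ?_).trans h5
          exact Real.exp_le_exp.2 (by linarith)
        exact_mod_cast h6
      · rw [hTdef]
        refine Nat.le_floor (le_trans ?_ h3)
        exact_mod_cast hp.2)
    hW
  -- lower bound of the left side
  have hlow : ∀ k ∈ (Finset.Ioc u Y).filter (fun k => k.Coprime (W * N) ∧ lam k ≠ β * c k),
      c1 * W * N / (4 * K) * (1 / (k : ℝ)) ≤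
      (((Finset.Ioc ((W * N / k) / 2) (W * N / k)).filter fun p => p.Prime ∧ p ≡ b k [MOD W]).card : ℝ) := by
    intro k hk
    have hkI' := (Finset.mem_filter.1 hk).1
    obtain ⟨h1, h2, h3⟩ := hxlow k hkI'
    obtain ⟨hk1, hk2⟩ := hkI k hkI'
    have hk0 : (0 : ℝ) < k := (Real.exp_pos _).trans hk1
    have hx0' : x0 ≤ W * N / k := by
      have h4 : (x0 : ℝ) ≤ ((W * N / k : ℕ) : ℝ) := by
        have := Real.exp_pos (K * (1 / 100))
        linarith
      exact_mod_cast h4
    refine le_trans ?_ (hpap (W * N / k) hx0' (b k) (hb k hk).1)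
    set x : ℝ := ((W * N / k : ℕ) : ℝ) with hx
    have hx1 : 1 < x := by linarith
    have hlogx : 0 < Real.log x := Real.log_pos hx1
    have hlogx2 : Real.log x ≤ 2 * K := by
      rw [Real.log_le_iff_le_exp (by linarith)]
      refine h3.trans ?_
      rw [hrp]
      exact Real.exp_le_exp.2 (by linarith)
    calc c1 * W * N / (4 * K) * (1 / (k : ℝ)) = c1 * ((W : ℝ) * N / (2 * k)) / (2 * K) := by
          field_simp
          ring
      _ ≤ c1 * x / (2 * K) := by gcongr
      _ ≤ c1 * x / Real.log x := by gcongr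
  have hsum := Finset.sum_le_sum hlow
  rw [← Finset.mul_sum] at hsum
  -- upper bounds
  have hdel : 1 ≤ K * del N := hdl N hN2
  have hdelpos : 0 < del N := by
    by_contra h
    push Not at h
    nlinarith
  have hU1 : 200 * ((Zst N W a c β).card : ℝ) ≤ 200 * (ε * del N * N) := by
    have := hHV.z
    linarith
  have hU2 : (Y : ℝ) * (N.primeFactors.card : ℝ) ≤ ε * del N * N := by
    have h1 : (N.primeFactors.card : ℝ) ≤ 2 * K := Pool.Agent.Lib.RG.omega_le_log N (by omega)
    have h2 : Real.exp (K * (49 / 50)) = N * Real.exp (-(1 / 50) * K) := by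
      rw [hNexp, ← Real.exp_add]; congr 1; ring
    have h3 : K ^ 2 * Real.exp (-(1 / 50) * K) ≤ ε / 2 := hK2.le
    have h4 : 0 < Real.exp (-(1 / 50) * K) := Real.exp_pos _
    calc (Y : ℝ) * (N.primeFactors.card : ℝ) ≤ (N * Real.exp (-(1 / 50) * K)) * (2 * K) :=
          mul_le_mul (hY_le.trans h2.le) h1 (Nat.cast_nonneg _) (by positivity)
      _ ≤ (N * Real.exp (-(1 / 50) * K)) * (2 * K * (K * del N)) := by
          refine mul_le_mul_of_nonneg_left ?_ (by positivity)
          nlinarith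
      _ = 2 * (K ^ 2 * Real.exp (-(1 / 50) * K)) * (del N * N) := by ring
      _ ≤ 2 * (ε / 2) * (del N * N) := by gcongr
      _ = ε * del N * N := by ring
  have hU3 : ∑ q ∈ (QP c T).filter (fun q : ℕ => Real.exp (K * (1 / 100)) < (q : ℝ)),
      ((Dom N 1 a (W * N / q + 1)).card : ℝ) ≤ 4 * W * (ε * del N * N) := by
    have h1 : ∀ q ∈ (QP c T).filter (fun q : ℕ => Real.exp (K * (1 / 100)) < (q : ℝ)),
        ((Dom N 1 a (W * N / q + 1)).card : ℝ) ≤ 4 * W * (del N * N) * (1 / (q : ℝ)) := by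
      intro q hq
      rw [Finset.mem_filter] at hq
      have hqT : (q : ℝ) ≤ Real.exp (K * (99 / 200)) := by
        have h2 : q ≤ T := by
          have := hq.1
          unfold QP at this
          rw [Finset.mem_filter, Finset.mem_range] at this
          omega
        rw [← hrp]
        refine le_trans ?_ (Nat.floor_le (by positivity))
        exact_mod_cast h2
      have hq0 : (0 : ℝ) < q := (Real.exp_pos _).trans hq.2
      have h3 : Real.exp (K * (101 / 200)) ≤ (W : ℝ) * N / q := by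
        rw [le_div_iff₀ hq0]
        calc Real.exp (K * (101 / 200)) * q ≤ Real.exp (K * (101 / 200)) * Real.exp (K * (99 / 200)) := by
              gcongr
          _ = 1 * N := by rw [← Real.exp_add, one_mul, hNexp]; congr 1; ring
          _ ≤ (W : ℝ) * N := by
              have : (1 : ℝ) ≤ W := by exact_mod_cast hW
              gcongr
      have h4 : (W : ℝ) * N / q < ((W * N / q + 1 : ℕ) : ℝ) := by
        have := Nat.lt_floor_add_one ((W : ℝ) * N / q)
        rw [show (⌊(W : ℝ) * N / q⌋₊) = W * N / q by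
          rw [show (W : ℝ) * N = ((W * N : ℕ) : ℝ) by push_cast; ring, Nat.floor_div_eq_div]] at this
        exact_mod_cast this
      have h5 : Real.exp (K ^ ((1 : ℝ) / 2)) ≤ ((W * N / q + 1 : ℕ) : ℝ) := by
        refine le_trans (Real.exp_le_exp.2 ?_) (h3.trans h4.le)
        rw [← Real.sqrt_eq_rpow]
        rw [show K * (101 / 200) = Real.sqrt ((K * (101 / 200)) ^ 2) by rw [Real.sqrt_sq (by positivity)]]
        apply Real.sqrt_le_sqrt
        nlinarith
      have h6 := (hdom N hN1 a (W * N / q + 1) (Nat.coprime_one_right a) h5).2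
      refine h6.trans ?_
      have h7 : ((W * N / q + 1 : ℕ) : ℝ) ≤ 2 * ((W : ℝ) * N / q) := by
        have h8 : ((W * N / q : ℕ) : ℝ) ≤ (W : ℝ) * N / q := by
          have := @Nat.cast_div_le ℝ _ _ _ (W * N) q
          refine this.trans (le_of_eq ?_)
          push_cast; rfl
        have h9 := hexp2 (K * (101 / 200)) (by linarith)
        push_cast
        push_cast at h8
        linarith
      calc 2 * del N * ((W * N / q + 1 : ℕ) : ℝ) ≤ 2 * del N * (2 * ((W : ℝ) * N / q)) := by gcongr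
        _ = 4 * W * (del N * N) * (1 / (q : ℝ)) := by ring
    refine (Finset.sum_le_sum h1).trans ?_
    rw [← Finset.mul_sum]
    have h2 := hHV.q
    rw [hrp (1 / 100), ← hTdef] at h2
    calc 4 * (W : ℝ) * (del N * N) * ∑ q ∈ (QP c T).filter (fun q : ℕ => Real.exp (K * (1 / 100)) < (q : ℝ)),
          1 / (q : ℝ) ≤ 4 * (W : ℝ) * (del N * N) * ε := by
          exact mul_le_mul_of_nonneg_left h2 (by positivity)
      _ = 4 * W * (ε * del N * N) := by ring
  have hfin : c1 * W * N / (4 * K) * ∑ k ∈ (Finset.Ioc u Y).filter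
      (fun k => k.Coprime (W * N) ∧ lam k ≠ β * c k), 1 / (k : ℝ) ≤ (201 + 4 * W) * (ε * del N * N) := by
    refine (hsum.trans hmain).trans ?_
    linarith
  have hpos : 0 < c1 * W * N / (4 * K) := by positivity
  rw [← le_div_iff₀' hpos] at hfin
  refine hfin.trans (le_of_eq ?_)
  field_simp

end Pool.Agent.Lib.OW
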