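import Mathlib
import Pool.Agent.Lib.MP_7b7e48_nt.OW.CN2
import Pool.Agent.Lib.MP_7b7e48_nt.OW.V1

/-!
# Module V2 (90 minutes): few small primes with `c = 1`

`K = log N`, `I = (N^(51/100), N^(49/50)]`, `I' = (N^(51/100), N^(97/100)]`; a number `k ∈ I` coprime to `W N` is bad if `lam k ≠ β c k`, `B = ∑_{bad} 1/k ≤ C ε del N K` (`logbad`). CLAIM: let `T ≤ N^(1/100)` and `s = sQ c T ≤ 1`. Then `s ≤ C'' ε`.
PROOF. For `q ∈ QP c T` (`q` is coprime to `W N`, `lam q = -1`, `c q = 1`) and `k ∈ I'` coprime to `W N` exactly one of `k`, `q k ∈ I` is bad. So `∑_{k ∈ I'} 1/k ≤ B + ∑_{k ∈ I', q k bad} 1/k = B + q ∑_{n bad, q ∣ n} 1/n`. Multiply by `1/q` and add: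
`s ∑_{k ∈ I'} 1/k ≤ s B + ∑_{n bad} ω(n)/n`, `ω(n) = #{q ∈ QP c T : q ∣ n}`. Cauchy-Schwarz: `(∑_{bad} ω(n)/n)² ≤ B ∑_{n ≤ N, (n, W N) = 1} ω(n)²/n ≤ B (s + s²) ∑_{k ≤ N, (k, N) = 1} 1/k` (expand `ω²`: `q = q'`: `n = q k`; `q ≠ q'`: `n = q q' k`).
With `log_low` (`θ = 1/2`): `∑_{k ∈ I'} 1/k ≥ 2 c1 del N K`, and `log_all`: `2 c1 s ≤ s C ε + √(C ε (s + s²) C)`. If `C ε ≤ c1` and `s ≤ 1`: `c1 s ≤ √(2 C² ε s)`, so `s ≤ 2 C² ε/c1²`.
The theorem follows by induction on `T`: `sQ c (T+1) ≤ sQ c T + 1/(T+1) ≤ C'' ε + 1/2 ≤ 1` (`T + 1 ≥ 2`; `QP c 1 = ∅`) if `C'' ε1 ≤ 1/2`.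
-/

open Finset
open Pool.Agent.Lib.MP_45349e_nt.LS (lam)

namespace Pool.Agent.Lib.OW

open Pool.Agent.Lib.RG (RC LV rr SS PB)

private theorem v2_QP {c : ℕ → ℝ} {T q : ℕ} (h : q ∈ QP c T) : q ≤ T ∧ q.Prime ∧ c q = 1 := by
  classical
  unfold QP at h
  simp only [Finset.mem_filter, Finset.mem_range] at h
  exact ⟨by omega, h.2⟩

private theorem v2_lam_sq (n : ℕ) : lam n = 1 ∨ lam n = -1 := by
  have h := Pool.Agent.Lib.MP_45349e_nt.LS.abs_lam n
  rcases abs_eq (by norm_num : (0:ℝ) ≤ 1) |>.1 h with h | h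
  · exact Or.inl h
  · exact Or.inr h

/-- sum over the multiples of `d` -/
private theorem v2_mult (Z : Finset ℕ) (d : ℕ) (hd : 1 ≤ d)
    (hZ : ∀ n ∈ Z, d ∣ n → n / d ∈ Z) :
    ∑ n ∈ Z.filter (fun n => d ∣ n), 1 / (n : ℝ) ≤ 1 / (d : ℝ) * ∑ k ∈ Z, 1 / (k : ℝ) := by
  classical
  have hsub : Z.filter (fun n => d ∣ n) ⊆ Z.image (fun k => d * k) := by
    intro n hn
    rw [Finset.mem_filter] at hn
    rw [Finset.mem_image]
    exact ⟨n / d, hZ n hn.1 hn.2, Nat.mul_div_cancel' hn.2⟩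
  refine (Finset.sum_le_sum_of_subset_of_nonneg hsub (fun i _ _ => by positivity)).trans ?_
  rw [Finset.sum_image (fun x _ y _ h => Nat.eq_of_mul_eq_mul_left hd h), Finset.mul_sum]
  refine le_of_eq (Finset.sum_congr rfl fun k _ => ?_)
  push_cast
  rw [one_div_mul_one_div]

open Classical in
private theorem v2_pair (M : ℕ) (c : ℕ → ℝ) (β : ℝ) (T u v Y : ℕ) (hc : RC M c) (hTv : T * v ≤ Y) (q : ℕ) (hq : q ∈ QP c T) :
    ∑ k ∈ (Finset.Ioc u v).filter (fun k => k.Coprime M), 1 / (k : ℝ) ≤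
      (∑ k ∈ (Finset.Ioc u Y).filter (fun k => k.Coprime M ∧ lam k ≠ β * c k), 1 / (k : ℝ)) +
      (q : ℝ) * ∑ n ∈ ((Finset.Ioc u Y).filter (fun k => k.Coprime M ∧ lam k ≠ β * c k)).filter
        (fun n => q ∣ n), 1 / (n : ℝ) := by
  obtain ⟨hqT, hqp, hcq⟩ := v2_QP hq
  have hq1 : 1 ≤ q := hqp.one_lt.le
  set Bad := (Finset.Ioc u Y).filter (fun k => k.Coprime M ∧ lam k ≠ β * c k) with hBad
  set G := (Finset.Ioc u v).filter (fun k => k.Coprime M) with hG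
  have hqM : q.Coprime M := by
    by_contra h
    have := hc.zero q h
    rw [hcq] at this
    norm_num at this
  rw [← Finset.sum_filter_add_sum_filter_not G (fun k => k ∈ Bad)]
  refine add_le_add ?_ ?_
  · refine Finset.sum_le_sum_of_subset_of_nonneg ?_ (fun i _ _ => by positivity)
    intro k hk
    exact (Finset.mem_filter.1 hk).2
  · have h1 : ∑ k ∈ G.filter (fun k => ¬ k ∈ Bad), 1 / (k : ℝ) =
        (q : ℝ) * ∑ n ∈ (G.filter (fun k => ¬ k ∈ Bad)).image (fun k => q * k), 1 / (n : ℝ) := by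
      rw [Finset.sum_image (fun x _ y _ h => Nat.eq_of_mul_eq_mul_left hq1 h), Finset.mul_sum]
      refine Finset.sum_congr rfl fun k _ => ?_
      have : (q : ℝ) ≠ 0 := by positivity
      push_cast
      by_cases hk : (k : ℝ) = 0
      · rw [hk]; simp
      · field_simp
    rw [h1]
    refine mul_le_mul_of_nonneg_left ?_ (by positivity)
    refine Finset.sum_le_sum_of_subset_of_nonneg ?_ (fun i _ _ => by positivity)
    intro n hn
    rw [Finset.mem_image] at hn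
    obtain ⟨k, hk, rfl⟩ := hn
    rw [Finset.mem_filter, hG, Finset.mem_filter, Finset.mem_Ioc] at hk
    obtain ⟨⟨⟨hk1, hk2⟩, hk3⟩, hk4⟩ := hk
    have hkpos : 0 < k := by omega
    have hle : q * k ≤ Y := (Nat.mul_le_mul hqT hk2).trans hTv
    have hkle : k ≤ Y := (Nat.le_mul_of_pos_left k hq1).trans hle
    have hkeq : lam k = β * c k := by
      by_contra h
      apply hk4
      rw [hBad, Finset.mem_filter, Finset.mem_Ioc]
      exact ⟨⟨hk1, hkle⟩, hk3, h⟩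
    rw [Finset.mem_filter, hBad, Finset.mem_filter, Finset.mem_Ioc]
    refine ⟨⟨⟨lt_of_lt_of_le hk1 (Nat.le_mul_of_pos_left k hq1), hle⟩, Nat.Coprime.mul_left hqM hk3, ?_⟩,
      Dvd.intro _ rfl⟩
    rw [Pool.Agent.Lib.MP_45349e_nt.LS.lam_mul q k hqp.ne_zero hkpos.ne',
      Pool.Agent.Lib.MP_45349e_nt.LS.lam_prime q hqp, hc.mul, hcq, hkeq, one_mul]
    intro h
    have h0 : β * c k = 0 := by linarith
    have := v2_lam_sq k
    rw [hkeq, h0] at this
    rcases this with h | h <;> norm_num at h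

open Classical in
private theorem v2_sq (c : ℕ → ℝ) (T : ℕ) (Bad Z : Finset ℕ) (hBZ : Bad ⊆ Z)
    (hZ : ∀ d : ℕ, 1 ≤ d → ∀ n ∈ Z, d ∣ n → n / d ∈ Z) :
    ∑ n ∈ Bad, (((QP c T).filter (fun q => q ∣ n)).card : ℝ) ^ 2 / (n : ℝ) ≤
      (sQ c T + sQ c T ^ 2) * ∑ k ∈ Z, 1 / (k : ℝ) := by
  set A := ∑ k ∈ Z, 1 / (k : ℝ) with hA
  have hA0 : 0 ≤ A := Finset.sum_nonneg fun _ _ => by positivity
  have h1 : ∑ n ∈ Bad, (((QP c T).filter (fun q => q ∣ n)).card : ℝ) ^ 2 / (n : ℝ) ≤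
      ∑ n ∈ Z, (((QP c T).filter (fun q => q ∣ n)).card : ℝ) ^ 2 / (n : ℝ) :=
    Finset.sum_le_sum_of_subset_of_nonneg hBZ (fun i _ _ => by positivity)
  refine h1.trans ?_
  have h2 : ∀ n : ℕ, (((QP c T).filter (fun q => q ∣ n)).card : ℝ) ^ 2 / (n : ℝ) =
      ∑ q ∈ QP c T, ∑ q' ∈ QP c T, if q ∣ n ∧ q' ∣ n then 1 / (n : ℝ) else 0 := by
    intro n
    have h3 : (((QP c T).filter (fun q => q ∣ n)).card : ℝ) = ∑ q ∈ QP c T, if q ∣ n then (1:ℝ) else 0 := by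
      rw [Finset.card_filter]
      push_cast
      rfl
    rw [h3, sq, Finset.sum_mul_sum, Finset.sum_div]
    refine Finset.sum_congr rfl fun q _ => ?_
    rw [Finset.sum_div]
    refine Finset.sum_congr rfl fun q' _ => ?_
    by_cases hq : q ∣ n <;> by_cases hq' : q' ∣ n <;> simp [hq, hq']
  rw [Finset.sum_congr rfl fun n _ => h2 n, Finset.sum_comm]
  have h4 : ∀ q ∈ QP c T, ∑ n ∈ Z, ∑ q' ∈ QP c T, (if q ∣ n ∧ q' ∣ n then 1 / (n : ℝ) else 0) ≤
      ∑ q' ∈ QP c T, ((if q' = q then 1 / (q : ℝ) else 0) + 1 / (q : ℝ) * (1 / (q' : ℝ))) * A := by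
    intro q hq
    obtain ⟨_, hqp, _⟩ := v2_QP hq
    rw [Finset.sum_comm]
    refine Finset.sum_le_sum fun q' hq' => ?_
    obtain ⟨_, hqp', _⟩ := v2_QP hq'
    by_cases h : q' = q
    · subst h
      rw [if_pos rfl]
      have h5 : ∑ n ∈ Z, (if q' ∣ n ∧ q' ∣ n then 1 / (n : ℝ) else 0) =
          ∑ n ∈ Z.filter (fun n => q' ∣ n), 1 / (n : ℝ) := by
        rw [Finset.sum_filter]
        refine Finset.sum_congr rfl fun n _ => ?_
        simp
      rw [h5]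
      refine (v2_mult Z q' hqp'.one_lt.le (hZ q' hqp'.one_lt.le)).trans ?_
      refine mul_le_mul_of_nonneg_right ?_ hA0
      have : 0 ≤ 1 / (q' : ℝ) * (1 / (q' : ℝ)) := by positivity
      linarith
    · rw [if_neg h, zero_add]
      have hcop : q.Coprime q' := (Nat.coprime_primes hqp hqp').2 (fun e => h e.symm)
      have h5 : ∑ n ∈ Z, (if q ∣ n ∧ q' ∣ n then 1 / (n : ℝ) else 0) =
          ∑ n ∈ Z.filter (fun n => q * q' ∣ n), 1 / (n : ℝ) := by
        rw [Finset.sum_filter]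
        refine Finset.sum_congr rfl fun n _ => ?_
        have : (q ∣ n ∧ q' ∣ n) ↔ q * q' ∣ n := by
          constructor
          · rintro ⟨h1, h2⟩
            exact hcop.mul_dvd_of_dvd_of_dvd h1 h2
          · intro h
            exact ⟨(Dvd.intro _ rfl).trans h, (Dvd.intro_left _ rfl).trans h⟩
        simp only [this]
      rw [h5]
      have hpos : 1 ≤ q * q' := Nat.mul_pos hqp.pos hqp'.pos
      refine (v2_mult Z (q * q') hpos (hZ _ hpos)).trans (le_of_eq ?_)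
      push_cast
      rw [one_div_mul_one_div]
  refine (Finset.sum_le_sum h4).trans (le_of_eq ?_)
  unfold sQ
  rw [sq, Finset.sum_mul_sum, ← Finset.sum_add_distrib, Finset.sum_mul]
  refine Finset.sum_congr rfl fun q hq => ?_
  rw [← Finset.sum_mul, Finset.sum_add_distrib, Finset.sum_ite_eq' (QP c T) q, if_pos hq]

open Classical in
private theorem v2_comb (M N : ℕ) (c : ℕ → ℝ) (β : ℝ) (T u v Y : ℕ) (hc : RC M c) (hNM : N ∣ M) (hTv : T * v ≤ Y) :
    sQ c T * (∑ k ∈ (Finset.Ioc u v).filter (fun k => k.Coprime M), 1 / (k : ℝ)) ≤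
      sQ c T * (∑ k ∈ (Finset.Ioc u Y).filter (fun k => k.Coprime M ∧ lam k ≠ β * c k), 1 / (k : ℝ)) +
      Real.sqrt ((∑ k ∈ (Finset.Ioc u Y).filter (fun k => k.Coprime M ∧ lam k ≠ β * c k), 1 / (k : ℝ)) *
        ((sQ c T + sQ c T ^ 2) * ∑ k ∈ (Finset.Icc 1 Y).filter (fun k => k.Coprime N), 1 / (k : ℝ))) := by
  set Bad := (Finset.Ioc u Y).filter (fun k => k.Coprime M ∧ lam k ≠ β * c k) with hBad
  set Z := (Finset.Icc 1 Y).filter (fun k => k.Coprime N) with hZ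
  have hBZ : Bad ⊆ Z := by
    intro k hk
    rw [hBad, Finset.mem_filter, Finset.mem_Ioc] at hk
    rw [hZ, Finset.mem_filter, Finset.mem_Icc]
    exact ⟨⟨by omega, hk.1.2⟩, Nat.Coprime.coprime_dvd_right hNM hk.2.1⟩
  have hZd : ∀ d : ℕ, 1 ≤ d → ∀ n ∈ Z, d ∣ n → n / d ∈ Z := by
    intro d hd n hn hdn
    rw [hZ, Finset.mem_filter, Finset.mem_Icc] at hn ⊢
    have h1 : n / d ∣ n := Nat.div_dvd_of_dvd hdn
    refine ⟨⟨?_, (Nat.le_of_dvd (by omega) h1).trans hn.1.2⟩, Nat.Coprime.coprime_dvd_left h1 hn.2⟩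
    exact Nat.div_pos (Nat.le_of_dvd (by omega) hdn) hd
  have h1 : sQ c T * (∑ k ∈ (Finset.Ioc u v).filter (fun k => k.Coprime M), 1 / (k : ℝ)) ≤
      sQ c T * (∑ k ∈ Bad, 1 / (k : ℝ)) +
        ∑ n ∈ Bad, (((QP c T).filter (fun q => q ∣ n)).card : ℝ) / (n : ℝ) := by
    have h2 : ∑ n ∈ Bad, (((QP c T).filter (fun q => q ∣ n)).card : ℝ) / (n : ℝ) =
        ∑ q ∈ QP c T, ∑ n ∈ Bad.filter (fun n => q ∣ n), 1 / (n : ℝ) := by
      have h3 : ∀ n ∈ Bad, (((QP c T).filter (fun q => q ∣ n)).card : ℝ) / (n : ℝ) =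
          ∑ q ∈ QP c T, if q ∣ n then 1 / (n : ℝ) else 0 := by
        intro n _
        rw [Finset.card_filter]
        push_cast
        rw [Finset.sum_div]
        refine Finset.sum_congr rfl fun q _ => ?_
        by_cases h : q ∣ n <;> simp [h]
      rw [Finset.sum_congr rfl h3, Finset.sum_comm]
      exact Finset.sum_congr rfl fun q _ => (Finset.sum_filter _ _).symm
    rw [h2]
    unfold sQ
    rw [Finset.sum_mul, Finset.sum_mul, ← Finset.sum_add_distrib]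
    refine Finset.sum_le_sum fun q hq => ?_
    have h4 := v2_pair M c β T u v Y hc hTv q hq
    rw [← hBad] at h4
    obtain ⟨_, hqp, _⟩ := v2_QP hq
    have hq0 : (0 : ℝ) < q := by exact_mod_cast hqp.pos
    calc 1 / (q : ℝ) * ∑ k ∈ (Finset.Ioc u v).filter (fun k => k.Coprime M), 1 / (k : ℝ)
        ≤ 1 / (q : ℝ) * (∑ k ∈ Bad, 1 / (k : ℝ) +
            (q : ℝ) * ∑ n ∈ Bad.filter (fun n => q ∣ n), 1 / (n : ℝ)) :=
          mul_le_mul_of_nonneg_left h4 (by positivity)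
      _ = 1 / (q : ℝ) * ∑ k ∈ Bad, 1 / (k : ℝ) + ∑ n ∈ Bad.filter (fun n => q ∣ n), 1 / (n : ℝ) := by
          rw [mul_add, ← mul_assoc, one_div_mul_cancel hq0.ne', one_mul]
  refine h1.trans ?_
  refine add_le_add le_rfl ?_
  refine Real.le_sqrt_of_sq_le ?_
  have h5 := Finset.sum_sq_le_sum_mul_sum_of_sq_le_mul Bad
    (r := fun n => (((QP c T).filter (fun q => q ∣ n)).card : ℝ) / (n : ℝ))
    (f := fun n => 1 / (n : ℝ)) (g := fun n => (((QP c T).filter (fun q => q ∣ n)).card : ℝ) ^ 2 / (n : ℝ))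
    (fun _ _ => by positivity) (fun _ _ => by positivity) (fun n _ => le_of_eq (by ring))
  refine h5.trans ?_
  exact mul_le_mul_of_nonneg_left (v2_sq c T Bad Z hBZ hZd) (Finset.sum_nonneg fun _ _ => by positivity)

private theorem v2_QP_one (c : ℕ → ℝ) (T : ℕ) (hT : T ≤ 1) : sQ c T = 0 := by
  classical
  unfold sQ
  refine Finset.sum_eq_zero fun q hq => ?_
  obtain ⟨h1, h2, _⟩ := v2_QP hq
  have := h2.two_le
  omega

private theorem v2_QP_succ (c : ℕ → ℝ) (T : ℕ) : sQ c (T + 1) ≤ sQ c T + 1 / ((T : ℝ) + 1) := by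
  classical
  unfold sQ
  have hsub : QP c (T + 1) ⊆ insert (T + 1) (QP c T) := by
    intro q hq
    unfold QP at hq ⊢
    rw [Finset.mem_filter, Finset.mem_range] at hq
    rw [Finset.mem_insert, Finset.mem_filter, Finset.mem_range]
    by_cases h : q = T + 1
    · exact Or.inl h
    · exact Or.inr ⟨by omega, hq.2⟩
  refine (Finset.sum_le_sum_of_subset_of_nonneg hsub (fun i _ _ => by positivity)).trans ?_
  have hn : T + 1 ∉ QP c T := by
    intro h
    have := (v2_QP h).1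
    omega
  rw [Finset.sum_insert hn]
  push_cast
  linarith

/-- the final algebra -/
private theorem v2_alg (c1 C1 C2 D ε s B A S : ℝ) (hc1 : 0 < c1) (hC1 : 0 < C1) (hC2 : 0 < C2) (hD : 0 < D)
    (hε : 0 < ε) (hε1 : C1 * ε ≤ c1 / 2) (hs0 : 0 ≤ s) (hs1 : s ≤ 1) (hB : B ≤ C1 * ε * D)
    (hA0 : 0 ≤ A) (hA : A ≤ C2 * D) (hS : c1 * D ≤ S)
    (h : s * S ≤ s * B + Real.sqrt (B * ((s + s ^ 2) * A))) :
    s ≤ 8 * C1 * C2 / c1 ^ 2 * ε := by
  rcases hs0.eq_or_lt with h0 | h0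
  · rw [← h0]; positivity
  have h1 : B * ((s + s ^ 2) * A) ≤ (C1 * ε * D) * ((2 * s) * (C2 * D)) := by
    have hs2 : s + s ^ 2 ≤ 2 * s := by nlinarith
    gcongr
  have h2 : Real.sqrt (B * ((s + s ^ 2) * A)) ≤ Real.sqrt ((C1 * ε * D) * ((2 * s) * (C2 * D))) :=
    Real.sqrt_le_sqrt h1
  have h3 : s * (c1 * D) ≤ s * (c1 / 2 * D) + Real.sqrt ((C1 * ε * D) * ((2 * s) * (C2 * D))) := by
    calc s * (c1 * D) ≤ s * S := by gcongr
      _ ≤ s * B + Real.sqrt (B * ((s + s ^ 2) * A)) := h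
      _ ≤ s * (c1 / 2 * D) + Real.sqrt ((C1 * ε * D) * ((2 * s) * (C2 * D))) := by
          refine add_le_add ?_ h2
          refine mul_le_mul_of_nonneg_left (hB.trans ?_) hs0
          exact mul_le_mul_of_nonneg_right hε1 hD.le
  have h4 : s * (c1 / 2 * D) ≤ Real.sqrt ((C1 * ε * D) * ((2 * s) * (C2 * D))) := by linarith
  have h5 : (s * (c1 / 2 * D)) ^ 2 ≤ (C1 * ε * D) * ((2 * s) * (C2 * D)) := by
    have h6 : 0 ≤ s * (c1 / 2 * D) := by positivity
    have := pow_le_pow_left₀ h6 h4 2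
    rwa [Real.sq_sqrt (by positivity)] at this
  have h7 : s * c1 ^ 2 ≤ 8 * C1 * C2 * ε := by
    have h8 : (s * D ^ 2) * (s * c1 ^ 2) ≤ (s * D ^ 2) * (8 * C1 * C2 * ε) := by nlinarith
    exact le_of_mul_le_mul_left h8 (by positivity)
  have : 8 * C1 * C2 / c1 ^ 2 * ε = (8 * C1 * C2 * ε) / c1 ^ 2 := by ring
  rw [this, le_div_iff₀ (by positivity)]
  exact h7

theorem tiny (W : ℕ) (hW : 1 ≤ W) : ∃ C ε1 : ℝ, 0 < C ∧ 0 < ε1 ∧ ∀ ε : ℝ, 0 < ε → ε ≤ ε1 → ∃ N0 : ℕ, ∀ N : ℕ, N0 ≤ N →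
    ∀ (a : ℕ) (c : ℕ → ℝ) (β : ℝ), HV N W a c β ε → sQ c ⌊(N : ℝ) ^ ((1 : ℝ) / 100)⌋₊ ≤ C * ε := by
  classical
  obtain ⟨C1, hC1, hbad⟩ := logbad W hW
  obtain ⟨c0, hc0, N1, hlow⟩ := log_low W hW (1 / 2) (by norm_num) (by norm_num)
  obtain ⟨C2, hC2, N2, hall⟩ := log_all
  set c1 : ℝ := c0 * (2 / 5) with hc1
  have hc1pos : 0 < c1 := by positivity
  set C'' : ℝ := 8 * C1 * C2 / c1 ^ 2 with hC''
  have hC''pos : 0 < C'' := by positivity
  refine ⟨C'', min 1 (min (c1 / (2 * C1)) (1 / (2 * C''))), hC''pos, by positivity, ?_⟩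
  intro ε hε hε1
  have he1 : ε ≤ 1 := hε1.trans (min_le_left _ _)
  have he2 : C1 * ε ≤ c1 / 2 := by
    have : ε ≤ c1 / (2 * C1) := hε1.trans ((min_le_right _ _).trans (min_le_left _ _))
    rw [le_div_iff₀ (by positivity)] at this
    linarith
  have he3 : C'' * ε ≤ 1 / 2 := by
    have : ε ≤ 1 / (2 * C'') := hε1.trans ((min_le_right _ _).trans (min_le_right _ _))
    rw [le_div_iff₀ (by positivity)] at this
    linarith
  obtain ⟨N3, hbad⟩ := hbad ε hε he1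
  -- size conditions
  have hT : Filter.Tendsto (fun N : ℕ => Real.log (N : ℝ)) Filter.atTop Filter.atTop :=
    Real.tendsto_log_atTop.comp tendsto_natCast_atTop_atTop
  obtain ⟨N4, hN4⟩ := Filter.eventually_atTop.1 (hT.eventually_ge_atTop (100 : ℝ))
  refine ⟨max (max N1 N2) (max N3 (max N4 3)), ?_⟩
  intro N hN a c β hHV
  have hN1 : N1 ≤ N := ((le_max_left _ _).trans (le_max_left _ _)).trans hN
  have hN2 : N2 ≤ N := ((le_max_right _ _).trans (le_max_left _ _)).trans hN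
  have hN3 : N3 ≤ N := ((le_max_left _ _).trans (le_max_right _ _)).trans hN
  have hN4' : N4 ≤ N := (((le_max_left _ _).trans (le_max_right _ _)).trans (le_max_right _ _)).trans hN
  have hN3' : 3 ≤ N := (((le_max_right _ _).trans (le_max_right _ _)).trans (le_max_right _ _)).trans hN
  have hK : (100 : ℝ) ≤ Real.log N := hN4 N hN4'
  set K : ℝ := Real.log N with hKdef
  have hN0 : (0 : ℝ) < N := by
    have : 0 < N := by omega
    exact_mod_cast this
  have hrp : ∀ x : ℝ, (N : ℝ) ^ x = Real.exp (K * x) := fun x => Real.rpow_def_of_pos hN0 x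
  set u : ℕ := ⌊(N : ℝ) ^ ((51 : ℝ) / 100)⌋₊ with hu
  set v : ℕ := ⌊(N : ℝ) ^ ((97 : ℝ) / 100)⌋₊ with hv
  set Y : ℕ := ⌊(N : ℝ) ^ ((49 : ℝ) / 50)⌋₊ with hY
  have hu_le : (u : ℝ) ≤ (N : ℝ) ^ ((51 : ℝ) / 100) := Nat.floor_le (by positivity)
  have hu_gt : (N : ℝ) ^ ((51 : ℝ) / 100) - 1 < u := Nat.sub_one_lt_floor _
  have hv_le : (v : ℝ) ≤ (N : ℝ) ^ ((97 : ℝ) / 100) := Nat.floor_le (by positivity)
  have hv_gt : (N : ℝ) ^ ((97 : ℝ) / 100) - 1 < v := Nat.sub_one_lt_floor _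
  have hY_le : (Y : ℝ) ≤ (N : ℝ) ^ ((49 : ℝ) / 50) := Nat.floor_le (by positivity)
  have hsqrtK : K ^ ((1 : ℝ) / 2) ≤ K / 10 := by
    rw [← Real.sqrt_eq_rpow]
    rw [show K / 10 = Real.sqrt ((K / 10) ^ 2) by rw [Real.sqrt_sq (by positivity)]]
    apply Real.sqrt_le_sqrt
    nlinarith
  have hexp2 : ∀ x : ℝ, 1 ≤ x → 2 ≤ Real.exp x := fun x hx => by
    have := Real.add_one_le_exp x
    linarith
  have hu_big : Real.exp (K ^ ((1 : ℝ) / 2)) ≤ u := by
    have h1 : Real.exp (K ^ ((1 : ℝ) / 2)) ≤ Real.exp (K / 10) := Real.exp_le_exp.2 hsqrtK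
    have h2 : Real.exp (K / 10) + 1 ≤ Real.exp (K * (51 / 100)) := by
      have h3 : Real.exp (K * (51 / 100)) = Real.exp (K / 10) * Real.exp (K * (41 / 100)) := by
        rw [← Real.exp_add]; congr 1; ring
      have h4 := hexp2 (K * (41 / 100)) (by linarith)
      have h5 := hexp2 (K / 10) (by linarith)
      rw [h3]; nlinarith
    rw [hrp] at hu_gt
    linarith
  have hu0 : (0 : ℝ) < u := lt_of_lt_of_le (Real.exp_pos _) hu_big
  have hv_big : Real.exp (K * (24 / 25)) ≤ v := by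
    have h2 : Real.exp (K * (24 / 25)) + 1 ≤ Real.exp (K * (97 / 100)) := by
      have h3 : Real.exp (K * (97 / 100)) = Real.exp (K * (24 / 25)) * Real.exp (K * (1 / 100)) := by
        rw [← Real.exp_add]; congr 1; ring
      have h4 := hexp2 (K * (1 / 100)) (by linarith)
      have h5 := hexp2 (K * (24 / 25)) (by linarith)
      rw [h3]; nlinarith
    rw [hrp] at hv_gt
    linarith
  have huv : u ≤ v := by
    have : (u : ℝ) ≤ v := by
      refine hu_le.trans (le_trans ?_ hv_big)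
      rw [hrp]
      exact Real.exp_le_exp.2 (by linarith)
    exact_mod_cast this
  have hlogvu : 9 / 20 * K ≤ Real.log ((v : ℝ) / u) := by
    rw [Real.le_log_iff_exp_le (by
      have : (0 : ℝ) < v := lt_of_lt_of_le (Real.exp_pos _) hv_big
      positivity)]
    rw [le_div_iff₀ hu0]
    calc Real.exp (9 / 20 * K) * u ≤ Real.exp (9 / 20 * K) * Real.exp (K * (51 / 100)) := by
          rw [hrp] at hu_le
          gcongr
      _ = Real.exp (K * (24 / 25)) := by rw [← Real.exp_add]; congr 1; ring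
      _ ≤ v := hv_big
  have hdel : 0 < del N := by
    unfold del
    have h1 : 0 < N.totient := Nat.totient_pos.2 (by omega)
    have h2 : (0 : ℝ) < N.totient := by exact_mod_cast h1
    positivity
  have hD : 0 < del N * K := mul_pos hdel (by linarith)
  have hS := hlow N hN1 u v hu_big huv
  have hS' : c1 * (del N * K) ≤
      ∑ k ∈ (Finset.Ioc u v).filter (fun k => k.Coprime (W * N)), 1 / (k : ℝ) := by
    refine le_trans ?_ hS
    have : 2 / 5 * K ≤ Real.log ((v : ℝ) / u) - 1 := by linarith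
    calc c1 * (del N * K) = c0 * del N * (2 / 5 * K) := by rw [hc1]; ring
      _ ≤ c0 * del N * (Real.log ((v : ℝ) / u) - 1) := mul_le_mul_of_nonneg_left this (by positivity)
  have hB := hbad N hN3 a c β hHV
  rw [← hu, ← hY] at hB
  have hA := hall N hN2 Y (by
    refine hY_le.trans ?_
    rw [← Real.rpow_natCast]
    refine Real.rpow_le_rpow_of_exponent_le ?_ (by norm_num)
    have : 1 ≤ N := by omega
    exact_mod_cast this)
  have hclaim : ∀ T : ℕ, (T : ℝ) ≤ (N : ℝ) ^ ((1 : ℝ) / 100) → sQ c T ≤ 1 → sQ c T ≤ C'' * ε := by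
    intro T hTN hs1
    have hTv : T * v ≤ Y := by
      rw [hY]
      refine Nat.le_floor ?_
      push_cast
      calc (T : ℝ) * v ≤ (N : ℝ) ^ ((1 : ℝ) / 100) * (N : ℝ) ^ ((97 : ℝ) / 100) := by gcongr
        _ = (N : ℝ) ^ ((49 : ℝ) / 50) := by rw [← Real.rpow_add hN0]; norm_num
    have hs0 : 0 ≤ sQ c T := by
      unfold sQ
      exact Finset.sum_nonneg fun _ _ => by positivity
    have hcomb := v2_comb (W * N) N c β T u v Y hHV.rc (Dvd.intro_left _ rfl) hTv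
    exact v2_alg c1 C1 C2 (del N * K) ε (sQ c T) _ _ _ hc1pos hC1 hC2 hD hε he2 hs0 hs1
      (hB.trans (le_of_eq (by ring)))
      (Finset.sum_nonneg fun _ _ => by positivity) (hA.trans (le_of_eq (by ring))) hS' hcomb
  have hind : ∀ T : ℕ, (T : ℝ) ≤ (N : ℝ) ^ ((1 : ℝ) / 100) → sQ c T ≤ C'' * ε := by
    intro T
    induction T with
    | zero =>
      intro _
      rw [v2_QP_one c 0 (by norm_num)]
      positivity
    | succ T ih =>
      intro hT1
      rcases Nat.eq_zero_or_pos T with h0 | h0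
      · subst h0
        rw [v2_QP_one c _ (by norm_num)]
        positivity
      · apply hclaim (T + 1) hT1
        have h1 : (T : ℝ) ≤ (N : ℝ) ^ ((1 : ℝ) / 100) := by
          push_cast at hT1
          linarith
        have h2 := ih h1
        have h3 := v2_QP_succ c T
        have h4 : 1 / ((T : ℝ) + 1) ≤ 1 / 2 := by
          have : (1 : ℝ) ≤ T := by exact_mod_cast h0
          exact one_div_le_one_div_of_le (by norm_num) (by linarith)
        linarith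
  exact hind _ (Nat.floor_le (by positivity))

end Pool.Agent.Lib.OW
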