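import Mathlib
import Pool.Agent.Lib.MP_7b7e48_nt.OW.V0
import Pool.Agent.Lib.MP_7b7e48_nt.OW.V2

/-!
# Module V3 (75 minutes): `β = 1`

`K = log N`, `ε1` small. PROOF. Suppose `β = -1`. Let `P` = primes `p`, `N^(3/10) < p ≤ N^(2/5)`, `p ∤ W N`, `c p = -1`; `k` with `N^(3/10) < k ≤ N^(7/20)`, coprime to `W N`, without prime factor `q` with `c q = 1`. Then `n = p k`, `N^(3/5) < n ≤ N^(3/4)`, has only prime factors with `c = -1 = lam`, so `lam n = c n ≠ β c n`: bad in the sense of `logbad`.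
Every `n ≤ N^(3/4)` has at most `2` prime factors `> N^(3/10)`, so `(∑_{p ∈ P} 1/p)(∑_k 1/k) ≤ 2 C ε del N K` (`logbad`). `∑_{p ∈ P} 1/p ≥ c2` (`rec_low` with `W = 1`, minus `HV.q`, minus the divisors of `W N`: at most `4` of size `> N^(3/10)`), `∑_k 1/k ≥ c1 del N K - ∑_{q ∈ QP c N^(7/20)} (1/q) ∑_{k' ≤ N, (k',N)=1} 1/k'
≥ c1 del N K - (C ε + ε) C del N K` (`log_low` with `θ = 1/2`, `tiny`, `HV.q`, `log_all`). Contradiction for small `ε`. (`HV` for `ε1` is used with `ε = ε1` in `logbad` and `tiny`.)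
-/

open Finset
open Pool.Agent.Lib.MP_45349e_nt.LS (lam)

namespace Pool.Agent.Lib.OW

open Pool.Agent.Lib.RG (RC LV rr SS PB)

private theorem v3_card {N : ℕ} (hN : 2 ≤ N) (S : Finset ℕ) (n : ℕ) (hn : 1 ≤ n)
    (hS : ∀ p ∈ S, p.Prime ∧ p ∣ n ∧ (N : ℝ) ^ ((3 : ℝ) / 10) < p) (e : ℝ) (hne : (n : ℝ) ≤ (N : ℝ) ^ e) :
    3 / 10 * (S.card : ℝ) ≤ e := by
  have hN1 : (1 : ℝ) < N := by exact_mod_cast hN
  have h1 : ∏ p ∈ S, p ∣ n := Finset.prod_primes_dvd n (fun p hp => (hS p hp).1.prime) (fun p hp => (hS p hp).2.1)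
  have h2 : ∏ p ∈ S, p ≤ n := Nat.le_of_dvd hn h1
  have h3 : ((N : ℝ) ^ ((3 : ℝ) / 10)) ^ S.card ≤ ∏ p ∈ S, (p : ℝ) := by
    rw [← Finset.prod_const]
    apply Finset.prod_le_prod
    · intro i _
      positivity
    · intro i hi
      exact (hS i hi).2.2.le
  have h4 : ((N : ℝ) ^ ((3 : ℝ) / 10)) ^ S.card ≤ (N : ℝ) ^ e := by
    refine h3.trans (le_trans ?_ hne)
    rw [← Nat.cast_prod]
    exact_mod_cast h2
  rw [← Real.rpow_natCast, ← Real.rpow_mul (by positivity)] at h4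
  exact (Real.rpow_le_rpow_left_iff hN1).mp h4

private theorem v3_log {N : ℕ} (hN : 2 ≤ N) (α β : ℝ) (h2 : 2 ≤ (N : ℝ) ^ α) (hab : α ≤ β) :
    (β - α) * Real.log N - 1 ≤ Real.log ((⌊(N : ℝ) ^ β⌋₊ : ℝ) / (⌊(N : ℝ) ^ α⌋₊ : ℝ)) := by
  have hN1 : (1 : ℝ) < N := by exact_mod_cast hN
  have hN0 : (0 : ℝ) < N := by linarith
  have h3 : (N : ℝ) ^ α ≤ (N : ℝ) ^ β := Real.rpow_le_rpow_of_exponent_le hN1.le hab
  have h4 := Nat.lt_floor_add_one ((N : ℝ) ^ β)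
  have h5 := Nat.lt_floor_add_one ((N : ℝ) ^ α)
  have h6 : (⌊(N : ℝ) ^ α⌋₊ : ℝ) ≤ (N : ℝ) ^ α := Nat.floor_le (by positivity)
  have h7 : (0 : ℝ) < (⌊(N : ℝ) ^ α⌋₊ : ℝ) := by linarith
  have h8 : (N : ℝ) ^ β / 2 ≤ (⌊(N : ℝ) ^ β⌋₊ : ℝ) := by linarith
  have h9 : (N : ℝ) ^ (β - α) / 2 ≤ (⌊(N : ℝ) ^ β⌋₊ : ℝ) / (⌊(N : ℝ) ^ α⌋₊ : ℝ) := by
    rw [Real.rpow_sub hN0, div_div, mul_comm, ← div_div]
    gcongr
  have h10 : 0 < (N : ℝ) ^ (β - α) / 2 := by positivity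
  have h11 := Real.log_le_log h10 h9
  rw [Real.log_div (by positivity) (by norm_num), Real.log_rpow hN0] at h11
  have := Real.log_two_lt_d9
  linarith

private theorem v3_un (f : ℕ → ℝ) (hf : ∀ n, 0 ≤ f n) (A B C : Finset ℕ) (h : A ⊆ B ∪ C) :
    ∑ n ∈ A, f n ≤ ∑ n ∈ B, f n + ∑ n ∈ C, f n := by
  classical
  have h1 : ∑ n ∈ A, f n ≤ ∑ n ∈ B ∪ C, f n :=
    Finset.sum_le_sum_of_subset_of_nonneg h fun i _ _ => hf i
  have h2 := Finset.sum_union_inter (s₁ := B) (s₂ := C) (f := f)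
  have h3 : 0 ≤ ∑ n ∈ B ∩ C, f n := Finset.sum_nonneg fun i _ => hf i
  linarith

private theorem v3_one {M : ℕ} {c : ℕ → ℝ} (hc : RC M c) : c 1 = 1 := by
  have h1 := hc.mul 1 1
  rw [mul_one] at h1
  rcases hc.val 1 (Nat.coprime_one_left M) with h | h
  · exact h
  · rw [h] at h1
    norm_num at h1

private theorem v3_lam {M : ℕ} {c : ℕ → ℝ} (hc : RC M c) (n : ℕ) :
    n ≠ 0 → (∀ q : ℕ, q.Prime → q ∣ n → c q = -1) → lam n = c n := by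
  induction n using Nat.recOnMul with
  | zero => intro h; exact absurd rfl h
  | one =>
    intro _ _
    rw [v3_one hc]
    simp [lam]
  | prime p hp =>
    intro _ h
    rw [h p hp dvd_rfl]
    simp [lam, ArithmeticFunction.cardFactors_apply_prime hp]
  | mul a b iha ihb =>
    intro h0 h
    have ha : a ≠ 0 := fun h => h0 (by rw [h, zero_mul])
    have hb : b ≠ 0 := fun h => h0 (by rw [h, mul_zero])
    rw [hc.mul, ← iha ha fun q hq hqa => h q hq (hqa.mul_right b), ← ihb hb fun q hq hqb => h q hq (hqb.mul_left a)]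
    unfold lam
    rw [ArithmeticFunction.cardFactors_mul ha hb, pow_add]

open Classical in
/-- the primes -/
private noncomputable def v3P (M : ℕ) (c : ℕ → ℝ) (X Y : ℕ) : Finset ℕ :=
  (Finset.Ioc X Y).filter fun p => p.Prime ∧ p.Coprime M ∧ c p = -1

open Classical in
/-- the cofactors -/
private noncomputable def v3K (M : ℕ) (c : ℕ → ℝ) (X V : ℕ) : Finset ℕ :=
  (Finset.Ioc X V).filter fun k => k.Coprime M ∧ ∀ q : ℕ, q.Prime → q ∣ k → c q ≠ 1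

open Classical in
/-- the bad numbers -/
private noncomputable def v3B (M N : ℕ) (c : ℕ → ℝ) (β : ℝ) : Finset ℕ :=
  (Finset.Ioc ⌊(N : ℝ) ^ ((51 : ℝ) / 100)⌋₊ ⌊(N : ℝ) ^ ((49 : ℝ) / 50)⌋₊).filter
    fun k => k.Coprime M ∧ lam k ≠ β * c k

/-- products of a prime and a cofactor are bad; each bad number has at most three of the primes -/
private theorem v3_prod {N M : ℕ} (hN : 2 ≤ N) {c : ℕ → ℝ} (hc : RC M c) :
    (∑ p ∈ v3P M c ⌊(N : ℝ) ^ ((3 : ℝ) / 10)⌋₊ ⌊(N : ℝ) ^ ((2 : ℝ) / 5)⌋₊, 1 / (p : ℝ)) *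
      (∑ k ∈ v3K M c ⌊(N : ℝ) ^ ((3 : ℝ) / 10)⌋₊ ⌊(N : ℝ) ^ ((7 : ℝ) / 20)⌋₊, 1 / (k : ℝ)) ≤
    3 * ∑ n ∈ v3B M N c (-1), 1 / (n : ℝ) := by
  classical
  have hN1 : (1 : ℝ) < N := by exact_mod_cast hN
  have hN0 : (0 : ℝ) < N := by linarith
  set P := v3P M c ⌊(N : ℝ) ^ ((3 : ℝ) / 10)⌋₊ ⌊(N : ℝ) ^ ((2 : ℝ) / 5)⌋₊ with hP
  set K := v3K M c ⌊(N : ℝ) ^ ((3 : ℝ) / 10)⌋₊ ⌊(N : ℝ) ^ ((7 : ℝ) / 20)⌋₊ with hK
  have hPm : ∀ p ∈ P, p.Prime ∧ (N : ℝ) ^ ((3 : ℝ) / 10) < p ∧ (p : ℝ) ≤ (N : ℝ) ^ ((2 : ℝ) / 5) ∧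
      p.Coprime M ∧ c p = -1 := by
    intro p hp
    rw [hP, v3P, Finset.mem_filter, Finset.mem_Ioc] at hp
    refine ⟨hp.2.1, Nat.lt_of_floor_lt hp.1.1, ?_, hp.2.2.1, hp.2.2.2⟩
    calc (p : ℝ) ≤ ⌊(N : ℝ) ^ ((2 : ℝ) / 5)⌋₊ := by exact_mod_cast hp.1.2
      _ ≤ _ := Nat.floor_le (by positivity)
  have hKm : ∀ k ∈ K, (N : ℝ) ^ ((3 : ℝ) / 10) < k ∧ (k : ℝ) ≤ (N : ℝ) ^ ((7 : ℝ) / 20) ∧
      k.Coprime M ∧ ∀ q : ℕ, q.Prime → q ∣ k → c q ≠ 1 := by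
    intro k hk
    rw [hK, v3K, Finset.mem_filter, Finset.mem_Ioc] at hk
    refine ⟨Nat.lt_of_floor_lt hk.1.1, ?_, hk.2.1, hk.2.2⟩
    calc (k : ℝ) ≤ ⌊(N : ℝ) ^ ((7 : ℝ) / 20)⌋₊ := by exact_mod_cast hk.1.2
      _ ≤ _ := Nat.floor_le (by positivity)
  have hmaps : ∀ x ∈ P ×ˢ K, x.1 * x.2 ∈ v3B M N c (-1) := by
    intro x hx
    rw [Finset.mem_product] at hx
    obtain ⟨p1, p2, p3, p4, p5⟩ := hPm _ hx.1
    obtain ⟨k1, k2, k3, k4⟩ := hKm _ hx.2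
    have hp0 : (0 : ℝ) < x.1 := by exact_mod_cast p1.pos
    have hk0 : (0 : ℝ) < x.2 := lt_trans (by positivity) k1
    have hk0' : x.2 ≠ 0 := by
      intro h
      rw [h] at hk0
      simp at hk0
    have hcop : (x.1 * x.2).Coprime M := Nat.Coprime.mul_left p4 k3
    rw [v3B, Finset.mem_filter, Finset.mem_Ioc]
    refine ⟨⟨?_, ?_⟩, hcop, ?_⟩
    · rw [Nat.floor_lt (by positivity)]
      push_cast
      calc (N : ℝ) ^ ((51 : ℝ) / 100) ≤ (N : ℝ) ^ ((3 : ℝ) / 10 + 3 / 10) :=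
            Real.rpow_le_rpow_of_exponent_le hN1.le (by norm_num)
        _ = (N : ℝ) ^ ((3 : ℝ) / 10) * (N : ℝ) ^ ((3 : ℝ) / 10) := Real.rpow_add hN0 _ _
        _ < x.1 * x.2 := mul_lt_mul'' p2 k1 (by positivity) (by positivity)
    · apply Nat.le_floor
      push_cast
      calc (x.1 : ℝ) * x.2 ≤ (N : ℝ) ^ ((2 : ℝ) / 5) * (N : ℝ) ^ ((7 : ℝ) / 20) := by gcongr
        _ = (N : ℝ) ^ ((2 : ℝ) / 5 + 7 / 20) := (Real.rpow_add hN0 _ _).symm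
        _ ≤ (N : ℝ) ^ ((49 : ℝ) / 50) := Real.rpow_le_rpow_of_exponent_le hN1.le (by norm_num)
    · have h1 : ∀ q : ℕ, q.Prime → q ∣ x.1 * x.2 → c q = -1 := by
        intro q hq hqd
        rcases (Nat.Prime.dvd_mul hq).mp hqd with h | h
        · rw [(Nat.prime_dvd_prime_iff_eq hq p1).mp h]
          exact p5
        · rcases hc.val q (Nat.Coprime.coprime_dvd_left h k3) with h' | h'
          · exact absurd h' (k4 q hq h)
          · exact h'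
      rw [v3_lam hc (x.1 * x.2) (Nat.mul_ne_zero p1.ne_zero hk0') h1]
      rcases hc.val _ hcop with h | h
      · rw [h]
        norm_num
      · rw [h]
        norm_num
  rw [Finset.sum_mul_sum, ← Finset.sum_product', ← Finset.sum_fiberwise_of_maps_to hmaps, Finset.mul_sum]
  refine Finset.sum_le_sum fun n hn => ?_
  have hn' := hn
  rw [v3B, Finset.mem_filter, Finset.mem_Ioc] at hn'
  have hn1 : 1 ≤ n := by omega
  have hle : (n : ℝ) ≤ (N : ℝ) ^ ((49 : ℝ) / 50) := by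
    calc (n : ℝ) ≤ ⌊(N : ℝ) ^ ((49 : ℝ) / 50)⌋₊ := by exact_mod_cast hn'.1.2
      _ ≤ _ := Nat.floor_le (by positivity)
  have h1 : ∀ x ∈ (P ×ˢ K).filter (fun x => x.1 * x.2 = n), 1 / (x.1 : ℝ) * (1 / (x.2 : ℝ)) = 1 / (n : ℝ) := by
    intro x hx
    rw [Finset.mem_filter] at hx
    rw [← hx.2]
    push_cast
    rw [one_div_mul_one_div]
  rw [Finset.sum_congr rfl h1, Finset.sum_const, nsmul_eq_mul]
  apply mul_le_mul_of_nonneg_right _ (by positivity)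
  have h2 : ((P ×ˢ K).filter (fun x => x.1 * x.2 = n)).card ≤ (P.filter (fun p => p ∣ n)).card := by
    apply Finset.card_le_card_of_injOn (fun x => x.1)
    · intro x hx
      rw [Finset.mem_coe, Finset.mem_filter, Finset.mem_product] at hx
      rw [Finset.mem_coe, Finset.mem_filter]
      exact ⟨hx.1.1, Dvd.intro _ hx.2⟩
    · intro x hx y hy hxy
      rw [Finset.mem_coe, Finset.mem_filter, Finset.mem_product] at hx hy
      have hxy' : x.1 = y.1 := hxy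
      have hp := (hPm _ hx.1.1).1.pos
      apply Prod.ext hxy'
      have : x.1 * x.2 = x.1 * y.2 := by rw [hx.2, hxy', hy.2]
      exact Nat.eq_of_mul_eq_mul_left hp this
  have h3 := v3_card hN (P.filter (fun p => p ∣ n)) n hn1 (by
    intro p hp
    rw [Finset.mem_filter] at hp
    exact ⟨(hPm p hp.1).1, hp.2, (hPm p hp.1).2.1⟩) _ hle
  have h4 : (P.filter (fun p => p ∣ n)).card ≤ 3 := by
    by_contra h
    push Not at h
    have h5 : (4 : ℝ) ≤ ((P.filter (fun p => p ∣ n)).card : ℝ) := by exact_mod_cast h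
    linarith
  exact_mod_cast h2.trans h4

/-- the primes of the range -/
private theorem v3_sumP {N M : ℕ} (hN : 2 ≤ N) (hM : 1 ≤ M) {c : ℕ → ℝ} (hc : RC M c) (hMN : (M : ℝ) ≤ (N : ℝ) ^ (2 : ℝ)) :
    ∑ p ∈ (Finset.Ioc ⌊(N : ℝ) ^ ((3 : ℝ) / 10)⌋₊ ⌊(N : ℝ) ^ ((2 : ℝ) / 5)⌋₊).filter (fun p => p.Prime), 1 / (p : ℝ) ≤
    ∑ p ∈ v3P M c ⌊(N : ℝ) ^ ((3 : ℝ) / 10)⌋₊ ⌊(N : ℝ) ^ ((2 : ℝ) / 5)⌋₊, 1 / (p : ℝ) +
    (7 / (N : ℝ) ^ ((3 : ℝ) / 10) +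
      ∑ q ∈ (QP c ⌊(N : ℝ) ^ ((99 : ℝ) / 200)⌋₊).filter (fun q : ℕ => (N : ℝ) ^ ((1 : ℝ) / 100) < (q : ℝ)), 1 / (q : ℝ)) := by
  classical
  have hN1 : (1 : ℝ) < N := by exact_mod_cast hN
  have hN0 : (0 : ℝ) < N := by linarith
  set A := (Finset.Ioc ⌊(N : ℝ) ^ ((3 : ℝ) / 10)⌋₊ ⌊(N : ℝ) ^ ((2 : ℝ) / 5)⌋₊).filter (fun p => p.Prime) with hA
  have hAm : ∀ p ∈ A, p.Prime ∧ (N : ℝ) ^ ((3 : ℝ) / 10) < p ∧ (p : ℝ) ≤ (N : ℝ) ^ ((2 : ℝ) / 5) := by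
    intro p hp
    rw [hA, Finset.mem_filter, Finset.mem_Ioc] at hp
    refine ⟨hp.2, Nat.lt_of_floor_lt hp.1.1, ?_⟩
    calc (p : ℝ) ≤ ⌊(N : ℝ) ^ ((2 : ℝ) / 5)⌋₊ := by exact_mod_cast hp.1.2
      _ ≤ _ := Nat.floor_le (by positivity)
  have hf : ∀ n : ℕ, 0 ≤ 1 / (n : ℝ) := fun n => by positivity
  have h1 := v3_un (fun n => 1 / (n : ℝ)) hf A
    (v3P M c ⌊(N : ℝ) ^ ((3 : ℝ) / 10)⌋₊ ⌊(N : ℝ) ^ ((2 : ℝ) / 5)⌋₊)
    (A.filter (fun p => p ∣ M) ∪ (QP c ⌊(N : ℝ) ^ ((99 : ℝ) / 200)⌋₊).filter (fun q : ℕ => (N : ℝ) ^ ((1 : ℝ) / 100) < (q : ℝ)))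
    (by
      intro p hp
      obtain ⟨p1, p2, p3⟩ := hAm p hp
      rw [Finset.mem_union, Finset.mem_union]
      by_cases hd : p ∣ M
      · exact Or.inr (Or.inl (Finset.mem_filter.mpr ⟨hp, hd⟩))
      · have hcop : p.Coprime M := (Nat.Prime.coprime_iff_not_dvd p1).mpr hd
        rcases hc.val p hcop with h | h
        · refine Or.inr (Or.inr (Finset.mem_filter.mpr ⟨?_, ?_⟩))
          · rw [QP, Finset.mem_filter, Finset.mem_range]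
            refine ⟨?_, p1, h⟩
            rw [Nat.lt_succ_iff]
            apply Nat.le_floor
            refine p3.trans (Real.rpow_le_rpow_of_exponent_le hN1.le (by norm_num))
          · refine lt_of_le_of_lt ?_ p2
            exact Real.rpow_le_rpow_of_exponent_le hN1.le (by norm_num)
        · refine Or.inl ?_
          rw [v3P, Finset.mem_filter]
          exact ⟨(Finset.mem_filter.mp hp).1, p1, hcop, h⟩)
  have h2 := v3_un (fun n => 1 / (n : ℝ)) hf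
    (A.filter (fun p => p ∣ M) ∪ (QP c ⌊(N : ℝ) ^ ((99 : ℝ) / 200)⌋₊).filter (fun q : ℕ => (N : ℝ) ^ ((1 : ℝ) / 100) < (q : ℝ)))
    (A.filter (fun p => p ∣ M))
    ((QP c ⌊(N : ℝ) ^ ((99 : ℝ) / 200)⌋₊).filter (fun q : ℕ => (N : ℝ) ^ ((1 : ℝ) / 100) < (q : ℝ))) (fun x hx => hx)
  have h3 : ∑ p ∈ A.filter (fun p => p ∣ M), 1 / (p : ℝ) ≤ 7 / (N : ℝ) ^ ((3 : ℝ) / 10) := by
    have h4 := v3_card hN (A.filter (fun p => p ∣ M)) M hM (by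
      intro p hp
      rw [Finset.mem_filter] at hp
      exact ⟨(hAm p hp.1).1, hp.2, (hAm p hp.1).2.1⟩) _ hMN
    have h5 : ∑ p ∈ A.filter (fun p => p ∣ M), 1 / (p : ℝ) ≤ (A.filter (fun p => p ∣ M)).card • (1 / (N : ℝ) ^ ((3 : ℝ) / 10)) := by
      apply Finset.sum_le_card_nsmul
      intro p hp
      rw [Finset.mem_filter] at hp
      exact one_div_le_one_div_of_le (by positivity) (hAm p hp.1).2.1.le
    rw [nsmul_eq_mul] at h5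
    refine h5.trans ?_
    rw [mul_one_div]
    apply div_le_div_of_nonneg_right _ (by positivity)
    linarith
  linarith

/-- the cofactors with a factor `q`, `c q = 1` -/
private theorem v3_sumK {N W : ℕ} (hN : 2 ≤ N) {c : ℕ → ℝ} :
    ∑ k ∈ (Finset.Ioc ⌊(N : ℝ) ^ ((3 : ℝ) / 10)⌋₊ ⌊(N : ℝ) ^ ((7 : ℝ) / 20)⌋₊).filter (fun k => k.Coprime (W * N)), 1 / (k : ℝ) ≤
    ∑ k ∈ v3K (W * N) c ⌊(N : ℝ) ^ ((3 : ℝ) / 10)⌋₊ ⌊(N : ℝ) ^ ((7 : ℝ) / 20)⌋₊, 1 / (k : ℝ) +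
    (sQ c ⌊(N : ℝ) ^ ((1 : ℝ) / 100)⌋₊ +
      ∑ q ∈ (QP c ⌊(N : ℝ) ^ ((99 : ℝ) / 200)⌋₊).filter (fun q : ℕ => (N : ℝ) ^ ((1 : ℝ) / 100) < (q : ℝ)), 1 / (q : ℝ)) *
      ∑ k ∈ (Finset.Icc 1 N).filter (fun k => k.Coprime N), 1 / (k : ℝ) := by
  classical
  have hN1 : (1 : ℝ) < N := by exact_mod_cast hN
  have hN0 : (0 : ℝ) < N := by linarith
  set V := ⌊(N : ℝ) ^ ((7 : ℝ) / 20)⌋₊ with hV
  set X := ⌊(N : ℝ) ^ ((3 : ℝ) / 10)⌋₊ with hX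
  have hVN : V ≤ N := by
    have h1 : (V : ℝ) ≤ (N : ℝ) ^ ((7 : ℝ) / 20) := Nat.floor_le (by positivity)
    have h2 : (N : ℝ) ^ ((7 : ℝ) / 20) ≤ (N : ℝ) ^ (1 : ℝ) := Real.rpow_le_rpow_of_exponent_le hN1.le (by norm_num)
    rw [Real.rpow_one] at h2
    exact_mod_cast h1.trans h2
  set T := (Finset.Icc 1 N).filter (fun k => k.Coprime N) with hT
  have hf : ∀ n : ℕ, 0 ≤ 1 / (n : ℝ) := fun n => by positivity
  set E := (Finset.Ioc X V).filter (fun k => k.Coprime (W * N) ∧ ∃ q ∈ QP c V, q ∣ k) with hE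
  have h1 := v3_un (fun n => 1 / (n : ℝ)) hf ((Finset.Ioc X V).filter (fun k => k.Coprime (W * N)))
    (v3K (W * N) c X V) E (by
      intro k hk
      rw [Finset.mem_filter] at hk
      rw [Finset.mem_union]
      by_cases h : ∀ q : ℕ, q.Prime → q ∣ k → c q ≠ 1
      · left
        rw [v3K, Finset.mem_filter]
        exact ⟨hk.1, hk.2, h⟩
      · right
        push Not at h
        obtain ⟨q, hq1, hq2, hq3⟩ := h
        rw [hE, Finset.mem_filter]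
        refine ⟨hk.1, hk.2, q, ?_, hq2⟩
        rw [QP, Finset.mem_filter, Finset.mem_range]
        refine ⟨?_, hq1, hq3⟩
        have hk' := Finset.mem_Ioc.mp hk.1
        have : q ≤ k := Nat.le_of_dvd (by omega) hq2
        omega)
  have h2 : ∑ k ∈ E, 1 / (k : ℝ) ≤ ∑ q ∈ QP c V, (1 / (q : ℝ)) * ∑ k ∈ T, 1 / (k : ℝ) := by
    have h3 : ∀ k ∈ E, 1 / (k : ℝ) ≤ ∑ q ∈ QP c V, if q ∣ k then 1 / (k : ℝ) else 0 := by
      intro k hk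
      rw [hE, Finset.mem_filter] at hk
      obtain ⟨q, hq, hqk⟩ := hk.2.2
      have h4 := Finset.single_le_sum (f := fun q : ℕ => if q ∣ k then 1 / (k : ℝ) else 0) (s := QP c V)
        (fun i _ => by split_ifs; exact hf k; exact le_rfl) hq
      simp only [if_pos hqk] at h4
      exact h4
    refine (Finset.sum_le_sum h3).trans ?_
    rw [Finset.sum_comm]
    refine Finset.sum_le_sum fun q hq => ?_
    have hqp : q.Prime := (Finset.mem_filter.mp hq).2.1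
    rw [← Finset.sum_filter]
    have h5 : E.filter (fun k => q ∣ k) ⊆ T.image (fun m => q * m) := by
      intro k hk
      rw [Finset.mem_filter, hE, Finset.mem_filter, Finset.mem_Ioc] at hk
      obtain ⟨m, rfl⟩ := hk.2
      have hm0 : 1 ≤ m := by
        rcases Nat.eq_zero_or_pos m with h | h
        · subst h
          omega
        · exact h
      rw [Finset.mem_image]
      refine ⟨m, ?_, rfl⟩
      rw [hT, Finset.mem_filter, Finset.mem_Icc]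
      refine ⟨⟨hm0, ?_⟩, ?_⟩
      · have : m ≤ q * m := Nat.le_mul_of_pos_left m hqp.pos
        omega
      · exact Nat.Coprime.coprime_mul_left_right (Nat.Coprime.coprime_mul_left hk.1.2.1)
    have h6 : ∑ k ∈ E.filter (fun k => q ∣ k), 1 / (k : ℝ) ≤ ∑ k ∈ T.image (fun m => q * m), 1 / (k : ℝ) :=
      Finset.sum_le_sum_of_subset_of_nonneg h5 fun i _ _ => hf i
    refine h6.trans (le_of_eq ?_)
    rw [Finset.sum_image, Finset.mul_sum]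
    · refine Finset.sum_congr rfl fun m _ => ?_
      push_cast
      rw [one_div_mul_one_div]
    · intro x _ y _ hxy
      exact Nat.eq_of_mul_eq_mul_left hqp.pos hxy
  have h3 : ∑ q ∈ QP c V, 1 / (q : ℝ) ≤ sQ c ⌊(N : ℝ) ^ ((1 : ℝ) / 100)⌋₊ +
      ∑ q ∈ (QP c ⌊(N : ℝ) ^ ((99 : ℝ) / 200)⌋₊).filter (fun q : ℕ => (N : ℝ) ^ ((1 : ℝ) / 100) < (q : ℝ)), 1 / (q : ℝ) := by
    apply v3_un (fun n => 1 / (n : ℝ)) hf
    intro q hq
    rw [QP, Finset.mem_filter, Finset.mem_range] at hq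
    rw [Finset.mem_union]
    by_cases h : (q : ℝ) ≤ (N : ℝ) ^ ((1 : ℝ) / 100)
    · left
      rw [QP, Finset.mem_filter, Finset.mem_range]
      exact ⟨Nat.lt_succ_of_le (Nat.le_floor h), hq.2⟩
    · right
      rw [Finset.mem_filter, QP, Finset.mem_filter, Finset.mem_range]
      refine ⟨⟨?_, hq.2⟩, not_le.mp h⟩
      have h4 : q ≤ V := by omega
      rw [Nat.lt_succ_iff]
      apply Nat.le_floor
      calc (q : ℝ) ≤ V := by exact_mod_cast h4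
        _ ≤ (N : ℝ) ^ ((7 : ℝ) / 20) := Nat.floor_le (by positivity)
        _ ≤ (N : ℝ) ^ ((99 : ℝ) / 200) := Real.rpow_le_rpow_of_exponent_le hN1.le (by norm_num)
  have h4 : 0 ≤ ∑ k ∈ T, 1 / (k : ℝ) := Finset.sum_nonneg fun i _ => hf i
  rw [← Finset.sum_mul] at h2
  have h5 := mul_le_mul_of_nonneg_right h3 h4
  linarith

theorem beta_one (W : ℕ) (hW : 1 ≤ W) : ∃ ε1 : ℝ, 0 < ε1 ∧ ∃ N0 : ℕ, ∀ N : ℕ, N0 ≤ N →
    ∀ (a : ℕ) (c : ℕ → ℝ) (β : ℝ), HV N W a c β ε1 → β = 1 := by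
  classical
  obtain ⟨C, hC, hbad⟩ := logbad W hW
  obtain ⟨C2, ε2, hC2, hε2, htiny⟩ := tiny W hW
  obtain ⟨c3, hc3, x0, hrec⟩ := rec_low 1 le_rfl
  obtain ⟨c1, hc1, N1, hlow⟩ := log_low W hW (1 / 2) (by norm_num) (by norm_num)
  obtain ⟨C3, hC3, N3, hall⟩ := log_all
  obtain ⟨N4, hdel⟩ := del_low
  obtain ⟨ε1, he0, he1, he2, he3, he4, he5⟩ : ∃ ε1 : ℝ, 0 < ε1 ∧ ε1 ≤ 1 ∧ ε1 ≤ ε2 ∧ ε1 ≤ c3 / 20 ∧
      ε1 ≤ c1 / (80 * C3 * (C2 + 1)) ∧ ε1 ≤ c3 * c1 / (4000 * C) := by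
    refine ⟨min (min 1 ε2) (min (c3 / 20) (min (c1 / (80 * C3 * (C2 + 1))) (c3 * c1 / (4000 * C)))), ?_, ?_, ?_, ?_, ?_, ?_⟩
    · have h1 : 0 < c3 / 20 := by positivity
      have h2 : 0 < c1 / (80 * C3 * (C2 + 1)) := by positivity
      have h3 : 0 < c3 * c1 / (4000 * C) := by positivity
      exact lt_min (lt_min one_pos hε2) (lt_min h1 (lt_min h2 h3))
    · exact (min_le_left _ _).trans (min_le_left _ _)
    · exact (min_le_left _ _).trans (min_le_right _ _)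
    · exact (min_le_right _ _).trans (min_le_left _ _)
    · exact (min_le_right _ _).trans ((min_le_right _ _).trans (min_le_left _ _))
    · exact (min_le_right _ _).trans ((min_le_right _ _).trans (min_le_right _ _))
  obtain ⟨N5, hN5⟩ := hbad ε1 he0 he1
  obtain ⟨N6, hN6⟩ := htiny ε1 he0 he2
  refine ⟨ε1, he0, N1 + N3 + N4 + N5 + N6 + W + 2 + ⌈Real.exp (100 + 500 / c3 + 4 * x0)⌉₊, ?_⟩
  intro N hN a c β hv
  rcases hv.hb with h | hβ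
  · exact h
  exfalso
  subst hβ
  have hN2 : 2 ≤ N := by omega
  have hN1' : (1 : ℝ) < N := by exact_mod_cast hN2
  have hN0 : (0 : ℝ) < N := by linarith
  have hNe : Real.exp (100 + 500 / c3 + 4 * x0) ≤ N := by
    calc Real.exp (100 + 500 / c3 + 4 * x0) ≤ ⌈Real.exp (100 + 500 / c3 + 4 * x0)⌉₊ := Nat.le_ceil _
      _ ≤ N := by exact_mod_cast (by omega : ⌈Real.exp (100 + 500 / c3 + 4 * x0)⌉₊ ≤ N)
  set K := Real.log N with hK
  have hKb : 100 + 500 / c3 + 4 * x0 ≤ K := by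
    rw [hK, Real.le_log_iff_exp_le hN0]
    exact hNe
  have hc3' : 0 < 500 / c3 := by positivity
  have hx0' : (0 : ℝ) ≤ x0 := Nat.cast_nonneg _
  have hK100 : 100 ≤ K := by linarith
  have hKc : 500 / c3 ≤ K := by linarith
  have hKx : 4 * (x0 : ℝ) ≤ K := by linarith
  have hK0 : 0 < K := by linarith
  -- `N ^ (3/10)`
  have hexp : (N : ℝ) ^ ((3 : ℝ) / 10) = Real.exp (3 / 10 * K) := by
    rw [Real.rpow_def_of_pos hN0, mul_comm]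
  have hA1 : 3 / 10 * K + 1 ≤ (N : ℝ) ^ ((3 : ℝ) / 10) := by
    rw [hexp]
    exact Real.add_one_le_exp _
  have hA2 : 2 ≤ (N : ℝ) ^ ((3 : ℝ) / 10) := by linarith
  have hA3 := Nat.lt_floor_add_one ((N : ℝ) ^ ((3 : ℝ) / 10))
  have hXx0 : x0 ≤ ⌊(N : ℝ) ^ ((3 : ℝ) / 10)⌋₊ := by
    have : (x0 : ℝ) ≤ ⌊(N : ℝ) ^ ((3 : ℝ) / 10)⌋₊ := by linarith
    exact_mod_cast this
  have hXY : ⌊(N : ℝ) ^ ((3 : ℝ) / 10)⌋₊ ≤ ⌊(N : ℝ) ^ ((2 : ℝ) / 5)⌋₊ :=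
    Nat.floor_le_floor (Real.rpow_le_rpow_of_exponent_le hN1'.le (by norm_num))
  have hXV : ⌊(N : ℝ) ^ ((3 : ℝ) / 10)⌋₊ ≤ ⌊(N : ℝ) ^ ((7 : ℝ) / 20)⌋₊ :=
    Nat.floor_le_floor (Real.rpow_le_rpow_of_exponent_le hN1'.le (by norm_num))
  have hXe : Real.exp (K ^ ((1 : ℝ) / 2)) ≤ ⌊(N : ℝ) ^ ((3 : ℝ) / 10)⌋₊ := by
    rw [← Real.sqrt_eq_rpow]
    have h1 : 10 ≤ √K := by
      apply Real.le_sqrt_of_sq_le
      norm_num
      exact hK100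
    have h2 : √K * √K = K := Real.mul_self_sqrt hK0.le
    have h3 : √K ≤ K / 10 := by nlinarith
    have h4 : Real.exp (√K) * 2 ≤ (N : ℝ) ^ ((3 : ℝ) / 10) := by
      rw [hexp]
      calc Real.exp (√K) * 2 ≤ Real.exp (√K) * Real.exp 1 := by
            gcongr
            have := Real.add_one_le_exp (1 : ℝ)
            linarith
        _ = Real.exp (√K + 1) := (Real.exp_add _ _).symm
        _ ≤ Real.exp (3 / 10 * K) := by
            apply Real.exp_le_exp.mpr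
            linarith
    have h5 : 1 ≤ Real.exp (√K) := Real.one_le_exp (Real.sqrt_nonneg _)
    linarith
  have hdelp : 0 < del N := by
    by_contra h
    push Not at h
    have h1 := hdel N (by omega)
    nlinarith
  -- the modulus
  have hM1 : 1 ≤ W * N := Nat.mul_pos hW (by omega)
  have hMN : ((W * N : ℕ) : ℝ) ≤ (N : ℝ) ^ (2 : ℝ) := by
    have h1 : W * N ≤ N ^ 2 := by
      rw [pow_two]
      exact Nat.mul_le_mul_right _ (by omega)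
    have h2 : ((N : ℝ)) ^ (2 : ℝ) = (N : ℝ) ^ 2 := by
      rw [← Real.rpow_natCast]
      norm_num
    rw [h2]
    exact_mod_cast h1
  -- the primes
  have hP : c3 / 10 ≤ ∑ p ∈ v3P (W * N) c ⌊(N : ℝ) ^ ((3 : ℝ) / 10)⌋₊ ⌊(N : ℝ) ^ ((2 : ℝ) / 5)⌋₊, 1 / (p : ℝ) := by
    have h1 := v3_sumP hN2 hM1 hv.rc hMN
    have h2 := hrec _ _ hXx0 hXY 1 (Nat.coprime_one_right 1)
    have h3 : (Finset.Ioc ⌊(N : ℝ) ^ ((3 : ℝ) / 10)⌋₊ ⌊(N : ℝ) ^ ((2 : ℝ) / 5)⌋₊).filter (fun p => p.Prime ∧ p ≡ 1 [MOD 1]) =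
        (Finset.Ioc ⌊(N : ℝ) ^ ((3 : ℝ) / 10)⌋₊ ⌊(N : ℝ) ^ ((2 : ℝ) / 5)⌋₊).filter (fun p => p.Prime) := by
      apply Finset.filter_congr
      intro p _
      exact and_iff_left Nat.modEq_one
    rw [h3] at h2
    have h4 := v3_log hN2 ((3 : ℝ) / 10) ((2 : ℝ) / 5) hA2 (by norm_num)
    rw [← hK] at h4
    have h5 : Real.log ⌊(N : ℝ) ^ ((2 : ℝ) / 5)⌋₊ ≤ 2 / 5 * K := by
      have h6 : (0 : ℝ) < ⌊(N : ℝ) ^ ((2 : ℝ) / 5)⌋₊ := by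
        have : (⌊(N : ℝ) ^ ((3 : ℝ) / 10)⌋₊ : ℝ) ≤ ⌊(N : ℝ) ^ ((2 : ℝ) / 5)⌋₊ := by exact_mod_cast hXY
        linarith
      calc Real.log ⌊(N : ℝ) ^ ((2 : ℝ) / 5)⌋₊ ≤ Real.log ((N : ℝ) ^ ((2 : ℝ) / 5)) :=
            Real.log_le_log h6 (Nat.floor_le (by positivity))
        _ = 2 / 5 * K := Real.log_rpow hN0 _
    have h7 : 0 < Real.log ⌊(N : ℝ) ^ ((2 : ℝ) / 5)⌋₊ := by
      apply Real.log_pos
      have : (⌊(N : ℝ) ^ ((3 : ℝ) / 10)⌋₊ : ℝ) ≤ ⌊(N : ℝ) ^ ((2 : ℝ) / 5)⌋₊ := by exact_mod_cast hXY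
      linarith
    have h8 : c3 / 5 ≤ c3 * (Real.log ((⌊(N : ℝ) ^ ((2 : ℝ) / 5)⌋₊ : ℝ) / (⌊(N : ℝ) ^ ((3 : ℝ) / 10)⌋₊ : ℝ)) - 1) /
        Real.log ⌊(N : ℝ) ^ ((2 : ℝ) / 5)⌋₊ := by
      rw [le_div_iff₀ h7]
      calc c3 / 5 * Real.log ⌊(N : ℝ) ^ ((2 : ℝ) / 5)⌋₊ ≤ c3 / 5 * (2 / 5 * K) := by gcongr
        _ = c3 * (2 / 25 * K) := by ring
        _ ≤ c3 * (Real.log ((⌊(N : ℝ) ^ ((2 : ℝ) / 5)⌋₊ : ℝ) / (⌊(N : ℝ) ^ ((3 : ℝ) / 10)⌋₊ : ℝ)) - 1) := by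
            apply mul_le_mul_of_nonneg_left _ hc3.le
            linarith
    have h9 : 7 / (N : ℝ) ^ ((3 : ℝ) / 10) ≤ c3 / 20 := by
      rw [div_le_div_iff₀ (by positivity) (by norm_num)]
      have h10 : 500 ≤ K * c3 := by rwa [div_le_iff₀ hc3] at hKc
      nlinarith
    have h10 := hv.q
    linarith
  -- the cofactors
  have hKs : c1 * del N * K / 80 ≤
      ∑ k ∈ v3K (W * N) c ⌊(N : ℝ) ^ ((3 : ℝ) / 10)⌋₊ ⌊(N : ℝ) ^ ((7 : ℝ) / 20)⌋₊, 1 / (k : ℝ) := by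
    have h1 := v3_sumK (W := W) hN2 (c := c)
    have h2 := hlow N (by omega) _ _ hXe hXV
    have h3 := v3_log hN2 ((3 : ℝ) / 10) ((7 : ℝ) / 20) hA2 (by norm_num)
    rw [← hK] at h3
    have h4 : c1 * del N * K / 40 ≤ c1 * del N *
        (Real.log ((⌊(N : ℝ) ^ ((7 : ℝ) / 20)⌋₊ : ℝ) / (⌊(N : ℝ) ^ ((3 : ℝ) / 10)⌋₊ : ℝ)) - 1) := by
      rw [mul_div_assoc]
      apply mul_le_mul_of_nonneg_left _ (by positivity)
      linarith
    have h5 := hN6 N (by omega) a c (-1) hv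
    have h6 := hv.q
    have h7 := hall N (by omega) N (by nlinarith)
    rw [← hK] at h7
    have h8 : (sQ c ⌊(N : ℝ) ^ ((1 : ℝ) / 100)⌋₊ +
      ∑ q ∈ (QP c ⌊(N : ℝ) ^ ((99 : ℝ) / 200)⌋₊).filter (fun q : ℕ => (N : ℝ) ^ ((1 : ℝ) / 100) < (q : ℝ)), 1 / (q : ℝ)) *
      ∑ k ∈ (Finset.Icc 1 N).filter (fun k => k.Coprime N), 1 / (k : ℝ) ≤ ((C2 + 1) * ε1) * (C3 * del N * K) := by
      apply mul_le_mul _ h7 (Finset.sum_nonneg fun i _ => by positivity) (by positivity)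
      linarith
    have h9 : ((C2 + 1) * ε1) * (C3 * del N * K) ≤ c1 * del N * K / 80 := by
      have h10 : ε1 * (80 * C3 * (C2 + 1)) ≤ c1 := by
        rwa [le_div_iff₀ (by positivity)] at he4
      have h11 : 0 < del N * K := by positivity
      nlinarith
    linarith
  have hprod := v3_prod hN2 hv.rc
  have hb := hN5 N (by omega) a c (-1) hv
  have hb' : ∑ n ∈ v3B (W * N) N c (-1), 1 / (n : ℝ) ≤ C * ε1 * del N * K := hb
  have h1 : c3 / 10 * (c1 * del N * K / 80) ≤ 3 * (C * ε1 * del N * K) := by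
    refine (mul_le_mul hP hKs (by positivity) (le_trans (by positivity) hP)).trans (hprod.trans ?_)
    linarith
  have h2 : ε1 * (4000 * C) ≤ c3 * c1 := by rwa [le_div_iff₀ (by positivity)] at he5
  have h3 : 0 < del N * K := by positivity
  have h4 : 0 < c3 * c1 := by positivity
  have h5 : c3 * c1 / 800 * (del N * K) ≤ 3 * (C * ε1) * (del N * K) := by linarith
  have h6 : c3 * c1 / 800 ≤ 3 * (C * ε1) := le_of_mul_le_mul_right h5 h3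
  nlinarith

end Pool.Agent.Lib.OW
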